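import Mathlib

section

/-! Stability of hyperbolic groups: core definitions (ambients, scales, geometrically closed subgroups). -/

namespace Pool.Agent.P.MP_dba3d2_lc

open Filter

/-- A hyperbolic group with a word length. -/
structure HG0 where
  G : Type
  [grp : Group G]
  len : G → ℕ
  len_eq_zero : ∀ g, len g = 0 ↔ g = 1
  len_inv : ∀ g, len g⁻¹ = len g
  len_mul : ∀ g h, len (g * h) ≤ len g + len h
  geo : ∀ g n, len g = n + 1 → ∃ s, len s = 1 ∧ len (s⁻¹ * g) = n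
  fin : ∀ n, {g | len g ≤ n}.Finite
  δ : ℕ
  hyp : ∀ x y z, len (x⁻¹ * y) + len z ≤
    max (len (x⁻¹ * z) + len y) (len (y⁻¹ * z) + len x) + 2 * δ

attribute [instance] HG0.grp

/-- A uniform exponent for a group. -/
structure GoodExp (G : Type) [Group G] (e : ℕ) : Prop where
  pos : 0 < e
  tors : ∀ g : G, IsOfFinOrder g → g ^ e = 1
  card : ∀ K : Subgroup G, Finite K → Nat.card K ≤ e
  norm : ∀ c g : G, ¬ IsOfFinOrder c → ∀ m n : ℤ, m ≠ 0 → g * c ^ m * g⁻¹ = c ^ n →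
    g * c ^ e * g⁻¹ = c ^ e ∨ g * c ^ e * g⁻¹ = (c ^ e)⁻¹
  comm : ∀ c f g : G, ¬ IsOfFinOrder c → Commute f (c ^ e) → Commute g (c ^ e) → Commute (f ^ e) g

/-- A hyperbolic group with a uniform exponent. -/
structure HG extends HG0 where
  e : ℕ
  good : GoodExp G e

/-- An ambient index: a countably incomplete ultrafilter. -/
structure Amb where
  I : Type
  V : Ultrafilter I
  r : I → ℕ
  hr : Tendsto r (V : Filter I) atTop

/-- Lengths of the ambient. -/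
abbrev Amb.K (a : Amb) : Type := Germ (a.V : Filter a.I) ℝ
/-- Exponents of the ambient. -/
abbrev Amb.Z (a : Amb) : Type := Germ (a.V : Filter a.I) ℤ
/-- The ambient group. -/
abbrev MM (Γ : HG) (a : Amb) : Type := Germ (a.V : Filter a.I) Γ.G

section scales
variable {K : Type} [Field K] [LinearOrder K]
/-- `x` is at most a standard multiple of `y`. -/
def Ls (x y : K) : Prop := ∃ n : ℕ, x ≤ n * y
/-- `x` is negligible compared with `y`. -/
def Ll (x y : K) : Prop := ∀ n : ℕ, n * x ≤ y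
/-- `y` is infinite. -/
def Big (y : K) : Prop := ∀ n : ℕ, (n : K) ≤ y
/-- same scale. -/
def Sim (x y : K) : Prop := Ls x y ∧ Ls y x
end scales

variable {Γ : HG} {a : Amb}

/-- internal length -/
def ln (g : MM Γ a) : a.K := g.map fun x => (Γ.len x : ℝ)
/-- internal distance -/
def ds (x y : MM Γ a) : a.K := ln (x⁻¹ * y)
/-- internal power -/
def ipow (c : MM Γ a) (k : a.Z) : MM Γ a := Germ.map₂ (fun (x : Γ.G) (n : ℤ) => x ^ n) c k
/-- an internal integer as a length -/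
def zK (k : a.Z) : a.K := k.map fun n : ℤ => (n : ℝ)
/-- minimal displacement -/
noncomputable def md (c : MM Γ a) : a.K :=
  c.map fun x => ((⨅ q : Γ.G, Γ.len (q⁻¹ * x * q) : ℕ) : ℝ)
/-- the constant embedding -/
def cst (Γ : HG) (a : Amb) : Γ.G →* MM Γ a where
  toFun x := (x : MM Γ a)
  map_one' := rfl
  map_mul' _ _ := rfl
/-- the standard copy of the group -/
def std (Γ : HG) (a : Amb) : Subgroup (MM Γ a) := (cst Γ a).range

/-- `p` lies on the segment from `x` to `y` at scale `μ`. -/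
def On (μ : a.K) (p x y : MM Γ a) : Prop := Ll (ds x p + ds p y - ds x y) μ
/-- `g` fixes `p` and `q` at scale `μ`. -/
def Stab (μ : a.K) (p q g : MM Γ a) : Prop := Ll (ds p (g * p)) μ ∧ Ll (ds q (g * q)) μ
/-- the segment from `p` to `q` is periodic at scale `μ`. -/
def Per (μ : a.K) (p q : MM Γ a) : Prop := ∃ g, ¬ IsOfFinOrder g ∧ Stab μ p q g
/-- orientation preserving elementary closure -/
def Ep (c : MM Γ a) : Subgroup (MM Γ a) := Subgroup.centralizer {c ^ Γ.e}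
/-- elementary closure -/
def InE (c g : MM Γ a) : Prop := g * c ^ Γ.e * g⁻¹ = c ^ Γ.e ∨ g * c ^ Γ.e * g⁻¹ = (c ^ Γ.e)⁻¹
/-- primitive elements -/
def Prim (c : MM Γ a) : Prop :=
  ¬ IsOfFinOrder c ∧ ∀ f ∈ Ep c, ∃ k : a.Z, IsOfFinOrder (f⁻¹ * ipow c k)
/-- centred elements -/
def Cen (c : MM Γ a) : Prop := Ls (ln c) (md c)
/-- the segments `[x, y]` and `[x', y']` share the segment `[p, q]`, nondegenerate at scale `μ`. -/
def Ov (μ : a.K) (p q x y x' y' : MM Γ a) : Prop :=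
  Ls μ (ds p q) ∧ On μ p x y ∧ On μ q x y ∧ On μ p x' y' ∧ On μ q x' y'

/-- The core closure conditions. -/
structure GC0 (H : Subgroup (MM Γ a)) : Prop where
  base : std Γ a ≤ H
  g2 : ∀ μ, Big μ → ∀ h ∈ H, ∀ h' ∈ H, Ls (ln h) μ → Ls (ln h') μ → ∀ g p q,
    Ov μ p q 1 h g (g * h') → ¬ Per μ p q → g ∈ H
  g20 : ∀ μ, Big μ → ∀ h ∈ H, Ls (ln h) μ → ∀ p q, Ls μ (ds p q) → On μ p 1 h → On μ q 1 h →
    Per μ p q → ∃ c ∈ H, Prim c ∧ Stab μ p q c
  ex : ∀ μ, Big μ → ∀ h ∈ H, Ls (ln h) μ → ∀ c ∈ H, Prim c → Ls (ln c) μ → Ll (md c) μ →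
    ∃ f ∈ H, f ∈ Ep c ∧ Ll (2 * ds f h - (ln c + ln (h⁻¹ * c * h))) μ
  pur : ∀ c ∈ H, Prim c → ∀ f ∈ H, f ∈ Ep c → ∀ n : ℕ, 0 < n →
    ∃ f' ∈ H, f' ∈ Ep c ∧ ∃ r : ℕ, IsOfFinOrder (f⁻¹ * (f' ^ n * c ^ r))
  cen : ∀ c ∈ H, ∀ c' ∈ H, ¬ IsOfFinOrder c → ¬ IsOfFinOrder c' →
    ∃ p ∈ H, Ls (ln p) (ln c + ln c') ∧ ∀ q,
      Ls (ln (p⁻¹ * c * p) + ln (p⁻¹ * c' * p)) (ln (q⁻¹ * c * q) + ln (q⁻¹ * c' * q))

/-- Finite subgroups are conjugate into the standard group. -/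
def FinC (H : Subgroup (MM Γ a)) : Prop :=
  ∀ K : Subgroup (MM Γ a), K ≤ H → Finite K →
    ∃ p ∈ H, ∀ k ∈ K, p⁻¹ * k * p ∈ std Γ a

/-- Geometrically closed subgroups. -/
structure GC (H : Subgroup (MM Γ a)) : Prop extends GC0 H where
  finc : FinC H

/-- the subgroup of elements of length at most a multiple of `μ` (for `0 ≤ μ`) -/
def ball (Γ : HG) (μ : a.K) : Subgroup (MM Γ a) := Subgroup.closure {g | Ls (ln g) μ}
/-- the subgroup of elements negligible at scale `μ` (for `0 ≤ μ`) -/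
def tiny (Γ : HG) (μ : a.K) : Subgroup (MM Γ a) := Subgroup.closure {g | Ll (ln g) μ}
/-- the stabiliser of a segment at scale `μ` (for `0 ≤ μ`) -/
def StabG (μ : a.K) (p q : MM Γ a) : Subgroup (MM Γ a) := Subgroup.closure {g | Stab μ p q g}

/-- An extension of ambients. -/
structure Ext (a b : Amb) where
  π : b.I → a.I
  hπ : Tendsto π (b.V : Filter b.I) (a.V : Filter a.I)

/-- transport of germs along an extension -/
def Ext.mp {a b : Amb} (E : Ext a b) {X : Type} (x : Germ (a.V : Filter a.I) X) :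
    Germ (b.V : Filter b.I) X := x.compTendsto E.π E.hπ

/-- the group embedding of an extension -/
def Ext.hom {a b : Amb} (E : Ext a b) (Γ : HG) : MM Γ a →* MM Γ b where
  toFun := E.mp
  map_one' := rfl
  map_mul' x y := by
    induction x using Germ.inductionOn; induction y using Germ.inductionOn; rfl

/-- the ultrapower of an ambient -/
def Amb.pow (a : Amb) {J : Type} (U : Ultrafilter J) : Amb where
  I := J × a.I
  V := U.bind fun j => a.V.map fun i => (j, i)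
  r := fun p => a.r p.2
  hr := by
    intro s hs
    have h := a.hr hs
    simp only [Ultrafilter.bind, mem_map] at h ⊢
    change ∀ᶠ j in (U : Filter J), _
    exact Eventually.of_forall fun j => h

/-- the diagonal extension into the ultrapower -/
def Amb.dg (a : Amb) {J : Type} (U : Ultrafilter J) : Ext a (a.pow U) where
  π := Prod.snd
  hπ := by
    intro s hs
    change ∀ᶠ j in (U : Filter J), _
    exact Eventually.of_forall fun j => hs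

/-- the class of a family in the ultrapower -/
noncomputable def Amb.mk' (a : Amb) {J : Type} (U : Ultrafilter J) {X : Type}
    (f : J → Germ (a.V : Filter a.I) X) : Germ ((a.pow U).V : Filter (a.pow U).I) X :=
  Germ.ofFun (fun p : (a.pow U).I => (Quotient.out (f (p : J × a.I).1) : a.I → X) (p : J × a.I).2)

/-- the map of ultrapowers induced by an extension -/
def Ext.pow {a b : Amb} (E : Ext a b) {J : Type} (U : Ultrafilter J) : Ext (a.pow U) (b.pow U) where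
  π := fun p => (p.1, E.π p.2)
  hπ := by
    intro s hs
    change ∀ᶠ j in (U : Filter J), _ at hs ⊢
    filter_upwards [hs] with j hj
    exact E.hπ hj

/-- the star extension of a predicate on tuples of the standard group -/
def St {ι : Type} (Q : (ι → Γ.G) → Prop) (v : ι → MM Γ a) : Prop :=
  ∀ᶠ j in (a.V : Filter a.I), Q fun i => (Quotient.out (v i) : a.I → Γ.G) j

/-- internal sets of tuples -/
def Intl {ι : Type} (S : Set (ι → MM Γ a)) : Prop :=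
  ∃ Q : a.I → (ι → Γ.G) → Prop, ∀ f : ι → a.I → Γ.G,
    (fun i => (Germ.ofFun (f i) : MM Γ a)) ∈ S ↔ ∀ᶠ j in (a.V : Filter a.I), Q j fun i => f i j

/-- transfer along embeddings between geometrically closed subgroups -/
def Tr {ι : Type} (Q : (ι → Γ.G) → Prop) : Prop :=
  ∀ (a b : Amb) (H : Subgroup (MM Γ a)) (θ : H →* MM Γ b), GC H → GC θ.range →
    Function.Injective θ → ∀ v : ι → H, St Q (fun i => (v i : MM Γ a)) ↔ St Q fun i => θ (v i)

/-- `H` is witness closed in `H'`. -/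
def Wc (H H' : Subgroup (MM Γ a)) : Prop :=
  H ≤ H' ∧ ∀ (m k : ℕ) (Q : (Fin m ⊕ Fin k → Γ.G) → Prop), Tr Q →
    ∀ h : Fin m → MM Γ a, (∀ i, h i ∈ H) → ∀ x : Fin k → MM Γ a, (∀ i, x i ∈ H') →
      St Q (Sum.elim h x) → ∃ y : Fin k → MM Γ a, (∀ i, y i ∈ H) ∧ St Q (Sum.elim h y)

/-- total length of a tuple -/
def tl {k : ℕ} (x : Fin k → MM Γ a) : a.K := ∑ i, ln (x i)

/-- `x` is a witness of length minimal up to an error negligible at scale `μ`. -/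
def NMin {m k : ℕ} (Q : (Fin m ⊕ Fin k → Γ.G) → Prop) (h : Fin m → MM Γ a) (μ : a.K)
    (x : Fin k → MM Γ a) : Prop :=
  St Q (Sum.elim h x) ∧ ∀ y, St Q (Sum.elim h y) → Ll (tl x - tl y) μ

/-- the segment from `1` to `h` starts along the axis of `c`, at scale `μ` -/
def Fol (μ : a.K) (h c : MM Γ a) : Prop :=
  ∃ q, Ls μ (ln q) ∧ On μ q 1 h ∧ Stab μ 1 q c

/-- the segments from `1` to `g` and from `1` to `h` share a nondegenerate initial segment -/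
def Ovl (μ : a.K) (g h : MM Γ a) : Prop := Ls μ (ln g + ln h - ds g h)

/-- the segment from `p` to `q` lies on a translate of a segment of `H` of scale at most `μ` -/
def HArc (μ : a.K) (H : Subgroup (MM Γ a)) (p q : MM Γ a) : Prop :=
  ∃ g, ∃ h ∈ H, Ls (ln h) μ ∧ On μ p g (g * h) ∧ On μ q g (g * h)

/-- the segment from `1` to `x` is covered by finitely many translates of segments of `H` -/
def Cov (μ : a.K) (H : Subgroup (MM Γ a)) (x : MM Γ a) : Prop :=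
  ∃ (n : ℕ) (p : ℕ → MM Γ a), p 0 = 1 ∧ p n = x ∧
    Ll (∑ i ∈ Finset.range n, ds (p i) (p (i + 1)) - ln x) μ ∧ ∀ i < n, HArc μ H (p i) (p (i + 1))

/-- fully convex subgroups -/
def Cvx (H : Subgroup (MM Γ a)) : Prop :=
  std Γ a ≤ H ∧ ∀ h ∈ H, ∀ p, ¬ Big (ln p + ds p h - ln h) → p ∈ H

/-- every element of `H` outside `W` is much longer than every element of `W` -/
def Sep (H W : Subgroup (MM Γ a)) : Prop := ∀ h ∈ H, h ∉ W → ∀ w ∈ W, Ll (ln w) (ln h)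

/-- every element of `P` is an almost geodesic product of elements of `X` -/
def AddNF (P : Subgroup (MM Γ a)) (X : Set (MM Γ a)) : Prop :=
  ∀ g ∈ P, ∃ l : List (MM Γ a), (∀ x ∈ l, x ∈ X) ∧ l.prod = g ∧
    (Big (ln g) → Ll ((l.map ln).sum - ln g) (ln g)) ∧ (¬ Big (ln g) → l = [g])

/-- legal finite subgroups of the standard group -/
def Legal (Γ : HG) (K : Subgroup Γ.G) : Prop :=
  Finite K ∧ (∃ x ∈ Subgroup.centralizer (K : Set Γ.G), ∃ y ∈ Subgroup.centralizer (K : Set Γ.G),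
    ¬ IsOfFinOrder x ∧ ¬ IsOfFinOrder y ∧ ¬ Commute (x ^ Γ.e) (y ^ Γ.e)) ∧
  ∀ R : Subgroup Γ.G, Finite R →
    (∀ g ∈ Subgroup.centralizer (K : Set Γ.G), ∀ r ∈ R, g * r * g⁻¹ ∈ R) → R ≤ K

/-- a family of letters in general position at scale `μ` over the base `B` -/
structure Letters (μ : a.K) (B : Subgroup (MM Γ a)) {r : ℕ} (K : Fin r → Subgroup Γ.G)
    (u : Fin r → MM Γ a) : Prop where
  fin : ∀ i, Finite (K i)
  sim : ∀ i, Sim (ln (u i)) μ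
  comm : ∀ i, ∀ k ∈ K i, Commute (u i) (cst Γ a k)
  nper : ∀ i p q, Ls μ (ds p q) → On μ p 1 (u i) → On μ q 1 (u i) → ¬ Per μ p q
  self : ∀ i j g p q, Ov μ p q 1 (u i) g (g * u j) → i = j ∧ g ∈ (K i).map (cst Γ a)
  base : ∀ i, ∀ w ∈ B, Ls (ln w) μ → ∀ g p q, ¬ Ov μ p q 1 (u i) g (g * w)

/-- the fixed nonprincipal ultrafilter on the natural numbers -/
noncomputable abbrev U0 : Ultrafilter ℕ := hyperfilter ℕ

/-- every infinite scale of `H` is a scale of `H0` -/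
def Sc (H H0 : Subgroup (MM Γ a)) : Prop :=
  ∀ h ∈ H, Big (ln h) → ∃ h0 ∈ H0, Sim (ln h) (ln h0)

end Pool.Agent.P.MP_dba3d2_lc


end

section

/-! Groups with a real length function: abstract real trees at one scale. -/

namespace Pool.Agent.P.MP_dba3d2_lc

open Filter

/-- A group with a subadditive real length. -/
structure LG where
  W : Type
  [grp : Group W]
  ℓ : W → ℝ
  l_one : ℓ 1 = 0
  l_inv : ∀ g, ℓ g⁻¹ = ℓ g
  l_mul : ∀ g h, ℓ (g * h) ≤ ℓ g + ℓ h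

attribute [instance] LG.grp

/-- A group acting transitively on a real tree (given as a pseudo-metric on the group). -/
structure RT extends LG where
  hyp : ∀ x y z, ℓ (x⁻¹ * y) + ℓ z ≤ max (ℓ (x⁻¹ * z) + ℓ y) (ℓ (y⁻¹ * z) + ℓ x)
  geo : ∀ g t, 0 ≤ t → t ≤ ℓ g → ∃ p, ℓ p = t ∧ ℓ (p⁻¹ * g) = ℓ g - t

namespace LG
variable (R : LG)
/-- distance -/
def d (x y : R.W) : ℝ := R.ℓ (x⁻¹ * y)
/-- `p` lies between `x` and `y` -/
def On (p x y : R.W) : Prop := R.d x p + R.d p y = R.d x y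
/-- `g` fixes `p` and `q` -/
def Stab (p q g : R.W) : Prop := R.d p (g * p) = 0 ∧ R.d q (g * q) = 0
/-- periodic segments -/
def Per (p q : R.W) : Prop := ∃ g, ¬ IsOfFinOrder g ∧ R.Stab p q g
/-- the segment from `p` to `q` lies on a translate of a segment of `M` -/
def HArc (M : Subgroup R.W) (p q : R.W) : Prop :=
  ∃ g, ∃ h ∈ M, R.On p g (g * h) ∧ R.On q g (g * h)
/-- the segment from `1` to `x` is covered by finitely many translates of segments of `M` -/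
def Cov (M : Subgroup R.W) (x : R.W) : Prop :=
  ∃ (n : ℕ) (p : ℕ → R.W), p 0 = 1 ∧ p n = x ∧
    ∑ i ∈ Finset.range n, R.d (p i) (p (i + 1)) = R.ℓ x ∧ ∀ i < n, R.HArc M (p i) (p (i + 1))
/-- a periodic line -/
structure Line (L : ℝ → R.W) : Prop where
  iso : ∀ s t, R.d (L s) (L t) = |s - t|
  per : ∀ s t, s < t → R.Per (L s) (L t)
  rig : ∀ g s t s' t', s < t → R.d (g * L s) (L s') = 0 → R.d (g * L t) (L t') = 0 →
    ∃ ε b : ℝ, (ε = 1 ∨ ε = -1) ∧ ∀ x, R.d (g * L x) (L (ε * x + b)) = 0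
end LG

/-- The stability axioms for arc stabilisers. -/
structure RTA extends RT where
  e : ℕ
  fin : ∀ p q, 0 < toLG.d p q → ¬ toLG.Per p q →
    {g | toLG.Stab p q g}.Finite ∧ {g | toLG.Stab p q g}.ncard ≤ e
  small : ∀ p q, 0 < toLG.d p q → ¬ toLG.Per p q → ∃ ε > 0, ∀ g r, toLG.On r p q →
    toLG.d p (g * p) ≤ ε → toLG.d q (g * q) ≤ ε → ε ≤ toLG.d p r → ε ≤ toLG.d q r →
    toLG.d r (g * r) = 0
  line : ∀ p q, 0 < toLG.d p q → toLG.Per p q →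
    ∃ L, toLG.Line L ∧ ∃ s t, toLG.d p (L s) = 0 ∧ toLG.d q (L t) = 0

/-- `ι` respects the products of `A`, and agrees with `j` on `M` and on elements of length zero. -/
structure PHom {R : LG} {G : Type} [Group G] (A : Finset R.W) (M : Subgroup R.W) (j ι : R.W → G) :
    Prop where
  mul : ∀ x ∈ A, ∀ y ∈ A, x * y ∈ A → ι (x * y) = ι x * ι y
  par : ∀ x ∈ A, x ∈ M ∨ R.ℓ x = 0 → ι x = j x

/-- First outcome of the machine: insertion of letters over finite arc stabilisers. -/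
def Out1 (R : LG) (M : Subgroup R.W) (A : Finset R.W) {k : ℕ} (x : Fin k → R.W) : Prop :=
  ∀ η > 0, ∃ (r : ℕ) (y : Fin r → R.W) (ι : R.W → Monoid.Coprod R.W (FreeGroup (Fin r))) (c : ℝ),
    0 < c ∧ (∀ i, 0 < R.ℓ (y i) ∧ ¬ R.Per 1 (y i)) ∧
    (∀ w ∈ A, Monoid.Coprod.lift (MonoidHom.id _) 1 (ι w) = w) ∧
    ∀ (G : LG) (j : R.W →* G.W) (ν : Fin r → G.W), (∀ w, G.ℓ (j w) ≤ R.ℓ w) →
      (∀ i g, R.Stab 1 (y i) g → Commute (ν i) (j g)) →
      PHom A M j (fun w => Monoid.Coprod.lift j (FreeGroup.lift ν) (ι w)) ∧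
      ((∀ i, G.ℓ (ν i) = 0) →
        ∀ w ∈ A, G.ℓ (Monoid.Coprod.lift j (FreeGroup.lift ν) (ι w)) ≤ R.ℓ w + η) ∧
      ((∀ i, G.ℓ (ν i * j (y i)) = 0) →
        ∑ i, G.ℓ (Monoid.Coprod.lift j (FreeGroup.lift ν) (ι (x i))) ≤ ∑ i, R.ℓ (x i) - c)

/-- Second outcome of the machine: insertion of exponents along a periodic line. -/
def Out2 (R : LG) (M : Subgroup R.W) (A : Finset R.W) {k : ℕ} (x : Fin k → R.W) : Prop :=
  ∃ (L : ℝ → R.W) (ι : R.W → Monoid.Coprod R.W (Multiplicative ℚ)) (c : ℝ),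
    0 < c ∧ R.Line L ∧ (∀ w ∈ A, Monoid.Coprod.lift (MonoidHom.id _) 1 (ι w) = w) ∧
    ∀ (G : LG) (j : R.W →* G.W) (ν : Multiplicative ℚ →* G.W), (∀ w, G.ℓ (j w) ≤ R.ℓ w) →
      (∀ g (ε : ℚ) (b : ℝ), (ε = 1 ∨ ε = -1) → (∀ t, R.d (g * L t) (L (ε * t + b)) = 0) →
        ∀ q : ℚ, j g * ν (.ofAdd q) * (j g)⁻¹ = ν (.ofAdd (ε * q))) →
      PHom A M j (fun w => Monoid.Coprod.lift j ν (ι w)) ∧
      ((∀ (q : ℚ) t, G.d (ν (.ofAdd q) * j (L t)) (j (L t)) = 0) →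
        ∀ w ∈ A, G.ℓ (Monoid.Coprod.lift j ν (ι w)) ≤ R.ℓ w) ∧
      ((∀ (q : ℚ) t, G.d (ν (.ofAdd q) * j (L t)) (j (L (t - q))) = 0) →
        ∑ i, G.ℓ (Monoid.Coprod.lift j ν (ι (x i))) ≤ ∑ i, R.ℓ (x i) - c)

/-- Third outcome of the machine: a convex subgroup with a shortening automorphism, and letters. -/
def Out3 (R : LG) (M : Subgroup R.W) (A : Finset R.W) {k : ℕ} (x : Fin k → R.W) : Prop :=
  ∃ (T : Subgroup R.W) (σ : T ≃* T) (r : ℕ) (y : Fin r → R.W)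
    (ι : R.W → Monoid.Coprod T (FreeGroup (Fin r))) (c : ℝ),
    0 < c ∧ M ≤ T ∧ (∀ h ∈ T, ∀ p, R.On p 1 h → p ∈ T) ∧
    (∀ t : T, (t : R.W) ∈ M ∨ R.ℓ t = 0 → σ t = t) ∧
    (∀ i, 0 < R.ℓ (y i) ∧ ¬ R.Per 1 (y i)) ∧
    (∀ w ∈ A, Monoid.Coprod.lift T.subtype (FreeGroup.lift y) (ι w) = w) ∧
    ∀ (G : LG) (j : T →* G.W) (u : Fin r → G.W),
      (∀ i (g g' : T), R.Stab 1 (y i) g → (g' : R.W) = (y i)⁻¹ * g * y i →
        (u i)⁻¹ * j g * u i = j g') →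
      (∀ w ∈ A, ∀ w' ∈ A, w * w' ∈ A → Monoid.Coprod.lift j (FreeGroup.lift u) (ι (w * w')) =
        Monoid.Coprod.lift j (FreeGroup.lift u) (ι w) *
          Monoid.Coprod.lift j (FreeGroup.lift u) (ι w')) ∧
      (∀ t : T, (t : R.W) ∈ A → (t : R.W) ∈ M ∨ R.ℓ t = 0 →
        Monoid.Coprod.lift j (FreeGroup.lift u) (ι t) = j t) ∧
      ((∀ t : T, G.ℓ (j t) ≤ R.ℓ t) → (∀ i, G.ℓ (u i) ≤ R.ℓ (y i)) →
        (∀ w ∈ A, G.ℓ (Monoid.Coprod.lift j (FreeGroup.lift u) (ι w)) ≤ R.ℓ w) ∧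
        ∑ i, G.ℓ (Monoid.Coprod.lift (j.comp σ.toMonoidHom) (FreeGroup.lift u) (ι (x i))) ≤
          ∑ i, R.ℓ (x i) - c)

/-- the real value of `x` at scale `μ` -/
noncomputable def rl {a : Amb} (μ x : a.K) : ℝ := ArchimedeanClass.stdPart (x / μ)

end Pool.Agent.P.MP_dba3d2_lc


end

section

/-! Definitions used by the interfaces of the combination theorems, reflection and the machine. -/

namespace Pool.Agent.P.MP_dba3d2_lc

open Filter

/-- The stability axioms for arc stabilisers in a real tree. -/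
structure RT.Ax (R : RT) (e : ℕ) : Prop where
  fin : ∀ p q, 0 < R.d p q → ¬ R.Per p q →
    {g | R.Stab p q g}.Finite ∧ {g | R.Stab p q g}.ncard ≤ e
  small : ∀ p q, 0 < R.d p q → ¬ R.Per p q → ∃ ε > 0, ∀ g r, R.On r p q →
    R.d p (g * p) ≤ ε → R.d q (g * q) ≤ ε → R.d p (g * p) ≤ R.d p r → R.d q (g * q) ≤ R.d q r →
    R.d r (g * r) = 0
  line : ∀ p q, 0 < R.d p q → R.Per p q →
    ∃ L, R.Line L ∧ ∃ s t, R.d p (L s) = 0 ∧ R.d q (L t) = 0

variable {Γ : HG} {a b : Amb}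

/-- `x` carries the axis of `c'` to the axis of `c` -/
def Cj (x c' c : MM Γ a) : Prop := Ep (x * c' * x⁻¹) = Ep c

/-- every finite subgroup of `P` is conjugate in `P` into `X` or `Y` -/
def FinRed (P X Y : Subgroup (MM Γ a)) : Prop :=
  ∀ K : Subgroup (MM Γ a), K ≤ P → Finite K →
    ∃ p ∈ P, (∀ k ∈ K, p⁻¹ * k * p ∈ X) ∨ (∀ k ∈ K, p⁻¹ * k * p ∈ Y)

/-- primitive elements of `P` with long roots in `P` are conjugate in `P` into `X` or `Y` -/
def PerRed (P X Y : Subgroup (MM Γ a)) : Prop :=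
  ∀ c ∈ P, Prim c → ∀ f ∈ P, f ∈ Ep c → Ll (md c) (md f) →
    ∃ p ∈ P, p⁻¹ * c * p ∈ X ∨ p⁻¹ * c * p ∈ Y

/-- the end of `y` does not run along the axis of `c` at the scale of `y` -/
def NE (c y : MM Γ a) : Prop := Big (ln y) → Ll (md c) (ln y) → ¬ Fol (ln y) y⁻¹ c

/-- the end of `y` does not cancel with comparable elements of `F` outside `M` -/
def NM (F M : Subgroup (MM Γ a)) (y : MM Γ a) : Prop :=
  ∀ v ∈ F, v ∉ M → Big (ln y) → Sim (ln v) (ln y) → ¬ Ovl (ln y) y⁻¹ v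

/-- elements of exponent type over `M` -/
def ExpT (M : Subgroup (MM Γ a)) (y : MM Γ a) : Prop :=
  ∃ m ∈ M, ∃ m' ∈ M, ∃ c ∈ M, Prim c ∧ ∃ f ∈ Ep c, y = m * f * m'

/-- Independence axioms for two factors. -/
structure TwoF (F : Bool → Subgroup (MM Γ a)) : Prop where
  gc : ∀ i, GC0 (F i)
  gcm : GC0 (F false ⊓ F true)
  i1 : ∀ μ, Big μ → ∀ u ∈ F false, ∀ v ∈ F true, Ls (ln u) μ → Ls (ln v) μ → ∀ x p q,
    Ov μ p q 1 u x (x * v) → ¬ Per μ p q → ∃ g ∈ F false, ∃ g' ∈ F true, x = g * g'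
  i2 : ∀ c0 ∈ F false, ∀ c1 ∈ F true, Prim c0 → Prim c1 → ∀ x, Cj x c1 c0 →
    ∃ c ∈ F false ⊓ F true, Prim c ∧ ∃ g ∈ F false, ∃ g' ∈ F true, Cj g c c0 ∧ Cj g' c c1
  i5 : ∀ i, ∀ x ∈ F (!i), x ∉ F false ⊓ F true → ∀ c ∈ F i, ∀ c' ∈ F i, Prim c → Prim c' →
    Cj x c' c → c ∈ F false ⊓ F true
  n1 : ∀ i, ∀ y ∈ F i, y ∉ F false ⊓ F true →
    ∃ s ∈ F false ⊓ F true, NM (F (!i)) (F false ⊓ F true) (y * s)
  n2 : ∀ i, ∀ y ∈ F i, y ∉ F false ⊓ F true → ¬ ExpT (F false ⊓ F true) y →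
    ∃ s ∈ F false ⊓ F true, ∃ s' ∈ F false ⊓ F true,
      NM (F (!i)) (F false ⊓ F true) (s * y * s') ∧ NM (F (!i)) (F false ⊓ F true) (s * y * s')⁻¹
  n3 : ∀ i, ∀ c ∈ F i, Prim c → Cen c → ∀ y ∈ F i, y⁻¹ * c * y ∉ F false ⊓ F true →
    ∃ f ∈ F i, f ∈ Ep c ∧ ∃ s ∈ F false ⊓ F true,
      NM (F (!i)) (F false ⊓ F true) (f * y * s) ∧ NE c (f * y * s)⁻¹

/-- Homomorphisms on `X` and `Y` that agree on the intersection and respect the commutation of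
exponents extend to the join. -/
def Ext2 (X Y : Subgroup (MM Γ a)) : Prop :=
  ∀ (G : Type) [Group G] (θ0 : X →* G) (θ1 : Y →* G),
    (∀ (x : X) (y : Y), (x : MM Γ a) = y → θ0 x = θ1 y) →
    (∀ c ∈ X ⊓ Y, ¬ IsOfFinOrder c → ∀ (x : X) (y : Y), (x : MM Γ a) ∈ Ep c → (y : MM Γ a) ∈ Ep c →
      Commute (θ0 x ^ Γ.e) (θ1 y)) →
    ∃ θ : ↥(X ⊔ Y) →* G, (∀ x : X, θ ⟨x, (le_sup_left : X ≤ X ⊔ Y) x.2⟩ = θ0 x) ∧
      ∀ y : Y, θ ⟨y, (le_sup_right : Y ≤ X ⊔ Y) y.2⟩ = θ1 y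

/-- The conclusions of the two factor theorem. -/
structure TwoOut (X Y : Subgroup (MM Γ a)) : Prop where
  gc : GC0 (X ⊔ Y)
  fin : FinRed (X ⊔ Y) X Y
  per : PerRed (X ⊔ Y) X Y
  ext : Ext2 X Y
  nf : AddNF (X ⊔ Y) {g | g ∈ X ∨ g ∈ Y ∨
    ∃ c ∈ X ⊓ Y, Prim c ∧ Cen c ∧ ∃ x ∈ X, ∃ y ∈ Y, x ∈ Ep c ∧ y ∈ Ep c ∧ g = x * y}
  e1 : ∀ c ∈ X ⊓ Y, Prim c → ∀ f ∈ X ⊔ Y, f ∈ Ep c →
    ∃ x ∈ X, ∃ y ∈ Y, x ∈ Ep c ∧ y ∈ Ep c ∧ f = x * y
  e2 : ∀ c ∈ X, Prim c → (∀ g ∈ X, g⁻¹ * c * g ∉ Y) → ∀ f ∈ X ⊔ Y, f ∈ Ep c → f ∈ X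
  e3 : ∀ c ∈ Y, Prim c → (∀ g ∈ Y, g⁻¹ * c * g ∉ X) → ∀ f ∈ X ⊔ Y, f ∈ Ep c → f ∈ Y

/-- The common conclusions for an adjunction `B ≤ T` at the top scale `μ`. -/
structure TopOut (μ : a.K) (B T : Subgroup (MM Γ a)) : Prop where
  gc : GC0 T
  bd : T ≤ ball Γ μ
  fin : FinRed T B B
  per : PerRed T B B
  top : ∀ t ∈ T, t ∉ B → Ls μ (ln t)

/-- homomorphisms on `B` extend to letters `u i` conjugating `K i` to `K' i` -/
def ExtL (B : Subgroup (MM Γ a)) {r : ℕ} (u : Fin r → MM Γ a) : Prop :=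
  ∀ (G : Type) [Group G] (θ0 : B →* G) (ν : Fin r → G),
    (∀ i (x y : B), (y : MM Γ a) = (u i)⁻¹ * x * u i → θ0 y = (ν i)⁻¹ * θ0 x * ν i) →
    ∃ θ : ↥(B ⊔ Subgroup.closure (Set.range u)) →* G,
      (∀ x : B, θ ⟨x, (le_sup_left : B ≤ _) x.2⟩ = θ0 x) ∧
      ∀ i, θ ⟨u i, (le_sup_right : _ ≤ B ⊔ _) (Subgroup.subset_closure ⟨i, rfl⟩)⟩ = ν i

/-- homomorphisms on `B` extend to the exponents `ipow c (k q)` -/
def ExtE (B : Subgroup (MM Γ a)) (c : MM Γ a) (k : ℚ →+ a.Z) : Prop :=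
  ∀ (G : Type) [Group G] (θ0 : B →* G) (ν : Multiplicative ℚ →* G),
    (∀ (x : B) (q : ℚ), (x : MM Γ a) ∈ Ep c → Commute (θ0 x) (ν (.ofAdd q))) →
    (∀ (x : B) (q : ℚ), InE c x → (x : MM Γ a) ∉ Ep c →
      θ0 x * ν (.ofAdd q) * (θ0 x)⁻¹ = ν (.ofAdd (-q))) →
    ∃ θ : ↥(B ⊔ Subgroup.closure (Set.range fun q => ipow c (k q))) →* G,
      (∀ x : B, θ ⟨x, (le_sup_left : B ≤ _) x.2⟩ = θ0 x) ∧
      ∀ q, θ ⟨ipow c (k q), (le_sup_right : _ ≤ B ⊔ _) (Subgroup.subset_closure ⟨q, rfl⟩)⟩ =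
        ν (.ofAdd q)

/-- A retraction from a subgroup of the extension `b` to the ambient `a` that almost does not
increase lengths, is injective on torsion and respects periodicity. -/
structure Retr (E : Ext a b) (T : Subgroup (MM Γ b)) (ρ : T →* MM Γ a) (n : ℕ) : Prop where
  lip : ∀ t : T, ¬ Big (n * E.mp (ln (ρ t)) - (n + 1) * ln (t : MM Γ b))
  tor : ∀ t : T, IsOfFinOrder t → ρ t = 1 → t = 1
  per : ∀ c f : T, Prim (c : MM Γ b) → (f : MM Γ b) ∈ Ep (c : MM Γ b) →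
    Ll (md (c : MM Γ b)) (md (f : MM Γ b)) →
    (∃ ν : a.K, Big ν ∧ Ll (md (c : MM Γ b)) (E.mp ν) ∧ Ls (E.mp ν) (md (f : MM Γ b))) →
    ¬ IsOfFinOrder (ρ c)

/-- An admissible deformation of the finite set `A`, with precision `1 / n`, fixing `D`. -/
structure Adm (E : Ext a b) (A : Finset (MM Γ a)) (D : Set (MM Γ a)) (n : ℕ)
    (T : Subgroup (MM Γ b)) (ι : MM Γ a → T) (ρ : T →* MM Γ a) : Prop where
  gc : GC0 T
  retr : Retr E T ρ n
  mul : ∀ x ∈ A, ∀ y ∈ A, x * y ∈ A → ι (x * y) = ι x * ι y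
  fix : ∀ x ∈ A, x ∈ D ∨ x ∈ std Γ a → (ι x : MM Γ b) = E.hom Γ x
  sec : ∀ x ∈ A, ρ (ι x) = x
  ni : ∀ x ∈ A, ¬ Big (n * ln (ι x : MM Γ b) - (n + 1) * E.mp (ln x))

/-- the product of blocks and joints -/
def weave {G : Type} [Group G] : (r : ℕ) → (Fin (r + 1) → G) → (Fin r → G) → G
  | 0, h, _ => h 0
  | r + 1, h, z => h 0 * z 0 * weave r (Fin.tail h) (Fin.tail z)

/-- `y` is an almost geodesic product at scale `μ` of blocks `h` from `H` and negligible joints `z`. -/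
structure Dec (μ : a.K) (H : Subgroup (MM Γ a)) (y : MM Γ a) (r : ℕ) (h : Fin (r + 1) → MM Γ a)
    (z : Fin r → MM Γ a) : Prop where
  mem : ∀ i, h i ∈ H
  bd : ∀ i, Ls (ln (h i)) μ
  tin : ∀ i, Ll (ln (z i)) μ
  eq : y = weave r h z
  add : Ll (∑ i, ln (h i) - ln y) μ

/-- The shape of a descending chain of decompositions. -/
structure Shape (Γ : HG) (a : Amb) where
  k : ℕ → ℕ
  r : (n : ℕ) → Fin (k n) → ℕ
  h : (n : ℕ) → (i : Fin (k n)) → Fin (r n i + 1) → MM Γ a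
  e : (n : ℕ) → ((i : Fin (k n)) × Fin (r n i)) ≃ Fin (k (n + 1))

/-- one substitution step -/
def Shape.up (S : Shape Γ a) (n : ℕ) (z : Fin (S.k (n + 1)) → MM Γ a) : Fin (S.k n) → MM Γ a :=
  fun i => weave (S.r n i) (S.h n i) fun j => z (S.e n ⟨i, j⟩)

/-- the composite substitution down to level zero -/
def Shape.top (S : Shape Γ a) : (n : ℕ) → (Fin (S.k n) → MM Γ a) → Fin (S.k 0) → MM Γ a
  | 0, z => z
  | n + 1, z => S.top n (S.up n z)

end Pool.Agent.P.MP_dba3d2_lc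


end
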