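import Pool.Agent.P.MP_dba3d2_lcM.Ab00

section

/-! Basic lemmas on scales, lengths and real values. -/

namespace Pool.Agent.P.MP_dba3d2_lc

open Filter

set_option linter.unusedSectionVars false
set_option linter.unusedVariables false

section scales
variable {K : Type} [Field K] [LinearOrder K] [IsStrictOrderedRing K] {x y z w : K}
theorem Ls.of_le (h : x ≤ y) : Ls x y := ⟨1, by rwa [Nat.cast_one, one_mul]⟩
theorem Ls.refl' (x : K) : Ls x x := Ls.of_le le_rfl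
theorem Ls.trans' (h : Ls x y) (h' : Ls y z) : Ls x z := by
  obtain ⟨n, h⟩ := h
  obtain ⟨m, h'⟩ := h'
  exact ⟨n * m, h.trans (by
    rw [Nat.cast_mul, mul_assoc]; exact mul_le_mul_of_nonneg_left h' n.cast_nonneg)⟩
theorem Ls.mono_left (h : x ≤ y) (h' : Ls y z) : Ls x z := (Ls.of_le h).trans' h'
theorem Ls.mono_right (h : Ls x y) (h' : y ≤ z) : Ls x z := h.trans' (Ls.of_le h')
theorem Ls.add (h : Ls x z) (h' : Ls y z) : Ls (x + y) z := by
  obtain ⟨n, h⟩ := h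
  obtain ⟨m, h'⟩ := h'
  exact ⟨n + m, by rw [Nat.cast_add, add_mul]; exact add_le_add h h'⟩
theorem Ls.nat_mul (h : Ls x y) (n : ℕ) : Ls (n * x) y := Ls.trans' ⟨n, le_rfl⟩ h
theorem Ll.ls (h : Ll x y) : Ls x y := Ls.of_le (by simpa using h 1)
theorem Ll.nonneg (h : Ll x y) : 0 ≤ y := by simpa using h 0
theorem Ll.of_nonpos (hx : x ≤ 0) (hy : 0 ≤ y) : Ll x y := fun n =>
  (mul_nonpos_of_nonneg_of_nonpos n.cast_nonneg hx).trans hy
theorem Ll.add (h : Ll x z) (h' : Ll y z) : Ll (x + y) z := fun n => by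
  have a := h (2 * n)
  have b := h' (2 * n)
  push_cast at a b
  linarith
theorem Ll.ls_left (h : Ls x y) (h' : Ll y z) : Ll x z := fun n => by
  obtain ⟨m, h⟩ := h
  have a := h' (n * m)
  rw [Nat.cast_mul, mul_assoc] at a
  exact (mul_le_mul_of_nonneg_left h n.cast_nonneg).trans a
theorem Ll.nat_mul (h : Ll x y) (n : ℕ) : Ll (n * x) y := Ll.ls_left ⟨n, le_rfl⟩ h
theorem Ll.mono_left (h : x ≤ y) (h' : Ll y z) : Ll x z := Ll.ls_left (Ls.of_le h) h'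
theorem Ll.mono_right (h : Ll x y) (h' : y ≤ z) : Ll x z := fun n => (h n).trans h'
theorem Ll.ls_right (h : Ll x y) (h' : Ls y z) (hz : 0 ≤ z) : Ll x z := fun n => by
  obtain ⟨m, h'⟩ := h'
  have a := h ((m + 1) * n)
  have b : (0 : K) < m + 1 := by positivity
  refine le_of_mul_le_mul_left ?_ b
  push_cast at a
  linarith
theorem Ll.not_ls (h : Ll x y) (h0 : 0 < y) : ¬ Ls y x := fun ⟨n, a⟩ => by
  have b := h (2 * n)
  push_cast at b
  linarith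
theorem not_ll_iff' (h0 : 0 < y) : ¬ Ll x y ↔ Ls y x :=
  ⟨fun h => (not_forall.1 h).imp fun _ a => (not_le.1 a).le, fun h a => a.not_ls h0 h⟩
theorem not_ll_iff (hy : 0 ≤ y) (hx : 0 ≤ x) (h0 : 0 < y) : ¬ Ll x y ↔ Ls y x := not_ll_iff' h0
theorem not_ls_iff (hy : 0 ≤ y) (hx : 0 < x) : ¬ Ls x y ↔ Ll y x := by
  rw [← not_ll_iff' hx, not_not]
theorem big_iff_ll : Big y ↔ Ll 1 y := by simp [Big, Ll]
theorem Big.pos (h : Big y) : 0 < y := one_pos.trans_le (by simpa using h 1)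
theorem Big.of_ls (h : Big x) (h' : Ls x y) : Big y := by
  refine big_iff_ll.2 ((big_iff_ll.1 h).ls_right h' ?_)
  obtain ⟨n, a⟩ := h'
  exact not_lt.1 fun c => (h.pos.trans_le a).not_ge (mul_nonpos_of_nonneg_of_nonpos n.cast_nonneg c.le)
theorem not_big_iff : ¬ Big x ↔ ∃ n : ℕ, x < n := by simp [Big]
theorem Big.ll_of_not_big (h : Big y) (hx : ¬ Big x) : Ll x y := by
  obtain ⟨n, a⟩ := not_big_iff.1 hx
  exact Ll.ls_left ⟨n, by rw [mul_one]; exact a.le⟩ (big_iff_ll.1 h)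
theorem Sim.refl' (x : K) : Sim x x := ⟨Ls.refl' x, Ls.refl' x⟩
theorem Sim.symm' (h : Sim x y) : Sim y x := ⟨h.2, h.1⟩
theorem Sim.trans' (h : Sim x y) (h' : Sim y z) : Sim x z := ⟨h.1.trans' h'.1, h'.2.trans' h.2⟩
theorem Ls.max_iff (hz : 0 ≤ z) : Ls (max x y) z ↔ Ls x z ∧ Ls y z :=
  ⟨fun h => ⟨Ls.mono_left (le_max_left _ _) h, Ls.mono_left (le_max_right _ _) h⟩, fun h => by
    rcases max_choice x y with e | e <;> rw [e]
    exacts [h.1, h.2]⟩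
theorem ls_sum {ι : Type} (s : Finset ι) (f : ι → K) (hz : 0 ≤ z) (h : ∀ i ∈ s, Ls (f i) z) :
    Ls (∑ i ∈ s, f i) z :=
  Finset.sum_induction f (fun u => Ls u z) (fun _ _ => Ls.add) (Ls.of_le hz) h
theorem ll_sum {ι : Type} (s : Finset ι) (f : ι → K) (hz : 0 ≤ z) (h : ∀ i ∈ s, Ll (f i) z) :
    Ll (∑ i ∈ s, f i) z :=
  Finset.sum_induction f (fun u => Ll u z) (fun _ _ => Ll.add) (Ll.of_nonpos le_rfl hz) h
end scales

variable {Γ : HG} {a : Amb}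

namespace Bas1

theorem gle {β : Type} [LE β] {f g : a.I → β} (h : ∀ i, f i ≤ g i) :
    (f : Germ (a.V : Filter a.I) β) ≤ g := Germ.coe_le.2 (Eventually.of_forall h)

theorem geq {β : Type} {f g : a.I → β} (h : ∀ i, f i = g i) :
    (f : Germ (a.V : Filter a.I) β) = g := congrArg _ (funext h)

theorem ln_coe (f : a.I → Γ.G) : ln (f : MM Γ a) = ((fun i => (Γ.len (f i) : ℝ) : a.I → ℝ) : a.K) :=
  rfl

theorem point (k : ℕ) : ∀ g : Γ.G, k ≤ Γ.len g → ∃ p, Γ.len p = k ∧ k + Γ.len (p⁻¹ * g) = Γ.len g := by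
  induction k with
  | zero => exact fun g _ => ⟨1, (Γ.len_eq_zero 1).2 rfl, by simp⟩
  | succ k ih =>
    intro g hg
    obtain ⟨n, hn⟩ : ∃ n, Γ.len g = n + 1 := ⟨Γ.len g - 1, by omega⟩
    obtain ⟨s, h1, h2⟩ := Γ.geo g n hn
    obtain ⟨p, h3, h4⟩ := ih (s⁻¹ * g) (by omega)
    have e : (s * p)⁻¹ * g = p⁻¹ * (s⁻¹ * g) := by group
    have b := Γ.len_mul s p
    have c := Γ.len_mul (s * p) ((s * p)⁻¹ * g)
    rw [mul_inv_cancel_left, e] at c
    exact ⟨s * p, by omega, by rw [e]; omega⟩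

theorem point' (g : Γ.G) (t : ℝ) : ∃ p, 0 ≤ t → t ≤ Γ.len g →
    (Γ.len p : ℝ) + Γ.len (p⁻¹ * g) = Γ.len g ∧ (Γ.len p : ℝ) ≤ t ∧ t ≤ Γ.len p + 1 := by
  by_cases h : t ≤ Γ.len g
  · obtain ⟨p, h1, h2⟩ := point ⌊t⌋₊ g (Nat.floor_le_of_le h)
    refine ⟨p, fun h0 _ => ?_⟩
    rw [h1]
    exact ⟨by exact_mod_cast h2, Nat.floor_le h0, (Nat.lt_floor_add_one t).le⟩
  · exact ⟨1, fun _ a => (h a).elim⟩

theorem mem_clo {G : Type} [Group G] {s : Set G} (h1 : 1 ∈ s) (h2 : ∀ x ∈ s, ∀ y ∈ s, x * y ∈ s)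
    (h3 : ∀ x ∈ s, x⁻¹ ∈ s) {g : G} : g ∈ Subgroup.closure s ↔ g ∈ s :=
  ⟨fun h => Subgroup.closure_induction (p := fun x _ => x ∈ s) (fun _ a => a) h1
    (fun x y _ _ a b => h2 x a y b) (fun x _ a => h3 x a) h, fun h => Subgroup.subset_closure h⟩

theorem four (x y z w : Γ.G) :
    (Γ.len (x⁻¹ * y) : ℝ) + Γ.len (z⁻¹ * w) ≤ Γ.len (x⁻¹ * z) + Γ.len (y⁻¹ * w) + 2 * Γ.δ ∨
    (Γ.len (x⁻¹ * y) : ℝ) + Γ.len (z⁻¹ * w) ≤ Γ.len (x⁻¹ * w) + Γ.len (y⁻¹ * z) + 2 * Γ.δ := by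
  have h := Γ.hyp (w⁻¹ * x) (w⁻¹ * y) (w⁻¹ * z)
  have e : ∀ u v : Γ.G, (w⁻¹ * u)⁻¹ * (w⁻¹ * v) = u⁻¹ * v := fun u v => by group
  have e' : ∀ u : Γ.G, Γ.len (w⁻¹ * u) = Γ.len (u⁻¹ * w) := fun u => by
    rw [← Γ.len_inv, mul_inv_rev, inv_inv]
  rw [e, e, e, e', e', e'] at h
  norm_cast
  omega

end Bas1

open Bas1

theorem ln_nonneg (g : MM Γ a) : 0 ≤ ln g :=
  Germ.inductionOn g fun f => gle fun i => Nat.cast_nonneg (α := ℝ) (Γ.len (f i))
theorem ln_eq_zero {g : MM Γ a} : ln g = 0 ↔ g = 1 :=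
  Germ.inductionOn g fun f => Germ.coe_eq.trans (Iff.trans (eventually_congr
    (Eventually.of_forall fun i => (Nat.cast_eq_zero (R := ℝ)).trans (Γ.len_eq_zero (f i))))
      Germ.coe_eq.symm)
theorem one_le_ln {g : MM Γ a} (h : g ≠ 1) : 1 ≤ ln g := by
  induction g using Germ.inductionOn with | h f => ?_
  refine Germ.coe_le.2 ((Ultrafilter.eventually_not.2 (mt Germ.coe_eq.2 h)).mono fun i hi => ?_)
  exact Nat.one_le_cast.2 (Nat.one_le_iff_ne_zero.2 (mt (Γ.len_eq_zero (f i)).1 hi))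
@[simp] theorem ln_one : ln (1 : MM Γ a) = 0 := ln_eq_zero.2 rfl
@[simp] theorem ln_inv (g : MM Γ a) : ln g⁻¹ = ln g :=
  Germ.inductionOn g fun f => geq fun i => congrArg Nat.cast (Γ.len_inv (f i))
theorem ln_mul_le (g h : MM Γ a) : ln (g * h) ≤ ln g + ln h :=
  Germ.inductionOn₂ g h fun f f' => gle fun i =>
    show (Γ.len (f i * f' i) : ℝ) ≤ Γ.len (f i) + Γ.len (f' i) by exact_mod_cast Γ.len_mul _ _
theorem ln_cst (x : Γ.G) : ln (cst Γ a x) = ((Γ.len x : ℕ) : a.K) := rfl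
theorem cst_injective : Function.Injective (cst Γ a) := fun _ _ h => Germ.const_inj.1 h
theorem mem_std_iff {g : MM Γ a} : g ∈ std Γ a ↔ ¬ Big (ln g) := by
  rw [not_big_iff]
  constructor
  · rintro ⟨x, rfl⟩
    exact ⟨Γ.len x + 1, by rw [ln_cst]; exact_mod_cast Nat.lt_succ_self _⟩
  · rintro ⟨n, h⟩
    induction g using Germ.inductionOn with | h f => ?_
    obtain ⟨x, -, hx⟩ := (Ultrafilter.eventually_exists_mem_iff (P := fun x i => x = f i)
      (Γ.fin n)).1 ((Germ.coe_le.1 h.le).mono fun i hi => ⟨f i, Nat.cast_le (α := ℝ).1 hi, rfl⟩)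
    exact ⟨x, Germ.coe_eq.2 hx⟩
@[simp] theorem ds_self (x : MM Γ a) : ds x x = 0 := by rw [ds, inv_mul_cancel, ln_one]
theorem ds_comm (x y : MM Γ a) : ds x y = ds y x := by rw [ds, ← ln_inv, mul_inv_rev, inv_inv, ds]
theorem ds_nonneg (x y : MM Γ a) : 0 ≤ ds x y := ln_nonneg _
theorem ds_tri (x y z : MM Γ a) : ds x z ≤ ds x y + ds y z := by
  have := ln_mul_le (x⁻¹ * y) (y⁻¹ * z)
  rwa [mul_assoc, mul_inv_cancel_left] at this
@[simp] theorem ds_mul_left (g x y : MM Γ a) : ds (g * x) (g * y) = ds x y := by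
  rw [ds, mul_inv_rev, mul_assoc, inv_mul_cancel_left, ds]
@[simp] theorem ds_one_left (x : MM Γ a) : ds 1 x = ln x := by rw [ds, inv_one, one_mul]
@[simp] theorem ds_one_right (x : MM Γ a) : ds x 1 = ln x := by rw [ds, mul_one, ln_inv]
theorem ds_four (x y z w : MM Γ a) :
    ds x y + ds z w ≤ max (ds x z + ds y w) (ds x w + ds y z) + 2 * (Γ.δ : a.K) := by
  induction x using Germ.inductionOn with | h x => ?_
  induction y using Germ.inductionOn with | h y => ?_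
  induction z using Germ.inductionOn with | h z => ?_
  induction w using Germ.inductionOn with | h w => ?_
  rcases Ultrafilter.eventually_or.1 (Eventually.of_forall (f := (a.V : Filter a.I)) fun i =>
    four (x i) (y i) (z i) (w i)) with h | h
  · exact le_trans' (add_le_add_left (le_max_left _ _) _) (Germ.coe_le.2 h)
  · exact le_trans' (add_le_add_left (le_max_right _ _) _) (Germ.coe_le.2 h)
theorem exists_point (x y : MM Γ a) (t : a.K) (h0 : 0 ≤ t) (h1 : t ≤ ds x y) :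
    ∃ p, ds x p + ds p y = ds x y ∧ ds x p ≤ t ∧ t ≤ ds x p + 1 := by
  suffices ∀ g : MM Γ a, t ≤ ln g → ∃ p, ln p + ln (p⁻¹ * g) = ln g ∧ ln p ≤ t ∧ t ≤ ln p + 1 by
    obtain ⟨p, h⟩ := this _ h1
    refine ⟨x * p, ?_⟩
    simpa only [ds, inv_mul_cancel_left, mul_inv_rev, mul_assoc] using h
  intro g h1
  induction g using Germ.inductionOn with | h g => ?_
  induction t using Germ.inductionOn with | h t => ?_
  choose P hP using fun i => point' (g i) (t i)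
  have k := ((Germ.coe_le.1 h0).and (Germ.coe_le.1 h1)).mono fun i hi => hP i hi.1 hi.2
  exact ⟨(P : MM Γ a), Germ.coe_eq.2 (k.mono fun _ h => h.1), Germ.coe_le.2 (k.mono fun _ h => h.2.1),
    Germ.coe_le.2 (k.mono fun _ h => h.2.2)⟩
theorem md_nonneg (c : MM Γ a) : 0 ≤ md c :=
  Germ.inductionOn c fun _ => gle fun _ => Nat.cast_nonneg (α := ℝ) _
theorem md_le (c q : MM Γ a) : md c ≤ ln (q⁻¹ * c * q) :=
  Germ.inductionOn₂ c q fun f g => gle fun i => Nat.cast_le (α := ℝ).2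
    (ciInf_le (f := fun q : Γ.G => Γ.len (q⁻¹ * f i * q)) (OrderBot.bddBelow _) (g i))
theorem md_le_ln (c : MM Γ a) : md c ≤ ln c := by simpa using md_le c 1
theorem exists_md (c : MM Γ a) : ∃ q, ln (q⁻¹ * c * q) = md c := by
  induction c using Germ.inductionOn with | h f => ?_
  choose q hq using fun i => ciInf_mem fun q : Γ.G => Γ.len (q⁻¹ * f i * q)
  exact ⟨(q : MM Γ a), geq fun i => congrArg Nat.cast (hq i)⟩
theorem md_conj (c q : MM Γ a) : md (q⁻¹ * c * q) = md c := by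
  have k : ∀ c q : MM Γ a, md (q⁻¹ * c * q) ≤ md c := fun c q => by
    obtain ⟨p, h⟩ := exists_md c
    rw [← h]
    exact (md_le _ (q⁻¹ * p)).trans_eq (congrArg ln (by group))
  exact (k c q).antisymm ((congrArg md (by group)).trans_le (k _ q⁻¹))
theorem md_inv (c : MM Γ a) : md c⁻¹ = md c := by
  have k : ∀ c : MM Γ a, md c⁻¹ ≤ md c := fun c => by
    obtain ⟨p, h⟩ := exists_md c
    rw [← h, ← ln_inv]
    exact (md_le _ p).trans_eq (congrArg ln (by group))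
  exact (k c).antisymm ((congrArg md (inv_inv c).symm).trans_le (k _))
theorem mem_ball {μ : a.K} (h : 0 ≤ μ) {g : MM Γ a} : g ∈ ball Γ μ ↔ Ls (ln g) μ :=
  mem_clo (Ls.of_le (ln_one.trans_le h)) (fun x p y q => Ls.mono_left (ln_mul_le x y) (Ls.add p q))
    fun x p => Ls.mono_left (ln_inv x).le p
theorem mem_tiny {μ : a.K} (h : 0 ≤ μ) {g : MM Γ a} : g ∈ tiny Γ μ ↔ Ll (ln g) μ :=
  mem_clo (Ll.of_nonpos ln_one.le h) (fun x p y q => Ll.mono_left (ln_mul_le x y) (Ll.add p q))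
    fun x p => Ll.mono_left (ln_inv x).le p
theorem mem_stabG {μ : a.K} (h : 0 ≤ μ) {p q g : MM Γ a} : g ∈ StabG μ p q ↔ Stab μ p q g := by
  have k1 : ∀ r : MM Γ a, Ll (ds r (1 * r)) μ := fun r => Ll.of_nonpos (by simp) h
  have k2 : ∀ {r x y : MM Γ a}, Ll (ds r (x * r)) μ → Ll (ds r (y * r)) μ →
      Ll (ds r (x * y * r)) μ := fun {r x y} u v =>
    Ll.mono_left ((ds_tri r (x * r) _).trans_eq (by rw [mul_assoc, ds_mul_left])) (u.add v)
  have k3 : ∀ {r x : MM Γ a}, Ll (ds r (x * r)) μ → Ll (ds r (x⁻¹ * r)) μ := fun {r x} u => by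
    rwa [← ds_mul_left x, mul_inv_cancel_left, ds_comm]
  exact mem_clo (s := {g | Stab μ p q g}) ⟨k1 p, k1 q⟩ (fun _ u _ v => ⟨k2 u.1 v.1, k2 u.2 v.2⟩)
    fun _ u => ⟨k3 u.1, k3 u.2⟩
theorem std_le_tiny {μ : a.K} (h : Big μ) : std Γ a ≤ tiny Γ μ := fun _ hg =>
  (mem_tiny h.pos.le).2 (h.ll_of_not_big (mem_std_iff.1 hg))
theorem tiny_le_ball {μ : a.K} (h : 0 ≤ μ) : tiny Γ μ ≤ ball Γ μ := fun _ hg =>
  (mem_ball h).2 ((mem_tiny h).1 hg).ls
theorem ipow_add (c : MM Γ a) (k l : a.Z) : ipow c (k + l) = ipow c k * ipow c l :=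
  Germ.inductionOn₃ c k l fun f g h => geq fun i => zpow_add (f i) (g i) (h i)
theorem ipow_neg (c : MM Γ a) (k : a.Z) : ipow c (-k) = (ipow c k)⁻¹ :=
  Germ.inductionOn₂ c k fun f g => geq fun i => zpow_neg (f i) (g i)
theorem ipow_intCast (c : MM Γ a) (n : ℤ) : ipow c (n : a.Z) = c ^ n :=
  Germ.inductionOn c fun _ => rfl
theorem ipow_mul (c : MM Γ a) (k l : a.Z) : ipow c (k * l) = ipow (ipow c k) l :=
  Germ.inductionOn₃ c k l fun f g h => geq fun i => zpow_mul (f i) (g i) (h i)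
theorem ipow_conj (g c : MM Γ a) (k : a.Z) : ipow (g * c * g⁻¹) k = g * ipow c k * g⁻¹ :=
  Germ.inductionOn₃ g c k fun f g h => geq fun i => conj_zpow (a := f i) (b := g i) (i := h i)
theorem commute_ipow {g c : MM Γ a} (h : Commute g c) (k : a.Z) : Commute g (ipow c k) := by
  have := ipow_conj g c k
  rw [h.eq, mul_inv_cancel_right] at this
  exact (eq_mul_inv_iff_mul_eq.1 this).symm
theorem zK_add (k l : a.Z) : zK (k + l) = zK k + zK l :=
  Germ.inductionOn₂ k l fun f g => geq fun i => Int.cast_add (f i) (g i)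
theorem zK_neg (k : a.Z) : zK (-k) = - zK k :=
  Germ.inductionOn k fun f => geq fun i => Int.cast_neg (f i)
theorem zK_mul (k l : a.Z) : zK (k * l) = zK k * zK l :=
  Germ.inductionOn₂ k l fun f g => geq fun i => Int.cast_mul (f i) (g i)
theorem zK_intCast (n : ℤ) : zK (n : a.Z) = (n : a.K) := rfl
theorem zK_le {k l : a.Z} : zK k ≤ zK l ↔ k ≤ l :=
  Germ.inductionOn₂ k l fun f g => Germ.coe_le.trans (Iff.trans (eventually_congr
    (Eventually.of_forall fun i => Int.cast_le (R := ℝ) (m := f i) (n := g i))) Germ.coe_le.symm)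
theorem exists_floor (t : a.K) : ∃ k : a.Z, zK k ≤ t ∧ t < zK k + 1 :=
  Germ.inductionOn t fun f => ⟨((fun i => ⌊f i⌋ : a.I → ℤ) : a.Z), gle fun i => Int.floor_le (f i),
    Germ.coe_lt.2 (Eventually.of_forall fun i => Int.lt_floor_add_one (f i))⟩
theorem exists_divmod (k : a.Z) (n : ℕ) (hn : 0 < n) :
    ∃ (l : a.Z) (r : ℕ), r < n ∧ k = (n : a.Z) * l + (r : a.Z) := by
  induction k using Germ.inductionOn with | h f => ?_
  obtain ⟨r, h1, h2⟩ := (Ultrafilter.eventually_exists_mem_iff (f := a.V)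
    (P := fun (r : ℕ) i => f i = n * (f i / n) + r) (Set.finite_Iio n)).1
    (Eventually.of_forall fun i => by
      have h0 : (0 : ℤ) < n := by exact_mod_cast hn
      have b := Int.emod_nonneg (f i) h0.ne'
      have c := Int.emod_lt_of_pos (f i) h0
      exact ⟨(f i % n).toNat, show _ < n by omega, by
        rw [Int.toNat_of_nonneg b, Int.mul_ediv_add_emod]⟩)
  exact ⟨((fun i => f i / n : a.I → ℤ) : a.Z), r, h1, Germ.coe_eq.2 h2⟩
theorem isOfFinOrder_iff {g : MM Γ a} : IsOfFinOrder g ↔ g ^ Γ.e = 1 := by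
  refine ⟨fun h => ?_, fun h => isOfFinOrder_iff_pow_eq_one.2 ⟨_, Γ.good.pos, h⟩⟩
  obtain ⟨n, h0, h1⟩ := isOfFinOrder_iff_pow_eq_one.1 h
  induction g using Germ.inductionOn with | h f => ?_
  exact Germ.coe_eq.2 ((Germ.coe_eq.1 h1).mono fun i hi =>
    Γ.good.tors (f i) (isOfFinOrder_iff_pow_eq_one.2 ⟨n, h0, hi⟩))

/-! real values at a scale -/
variable {μ x y : a.K}

/-- the embedding of the real numbers -/
def cR (a : Amb) : ℝ →+*o a.K where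
  toFun r := (r : a.K)
  map_one' := rfl
  map_mul' _ _ := rfl
  map_zero' := rfl
  map_add' _ _ := rfl
  monotone' _ _ h := Germ.const_le h

theorem cR_apply (r : ℝ) : cR a r = (r : a.K) := rfl

theorem ls_abs (h0 : 0 ≤ x) (h : Ls x μ) : Ls |x| μ := by rwa [abs_of_nonneg h0]

theorem ls_abs_add (hx : Ls |x| μ) (hy : Ls |y| μ) : Ls |x + y| μ :=
  Ls.mono_left (abs_add_le x y) (hx.add hy)

theorem ls_abs_sub (hx : Ls |x| μ) (hy : Ls |y| μ) : Ls |x - y| μ :=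
  Ls.mono_left (abs_sub x y) (hx.add hy)

theorem mk_div_nonneg (hμ : 0 < μ) (hx : Ls |x| μ) : 0 ≤ ArchimedeanClass.mk (x / μ) := by
  obtain ⟨n, h⟩ := hx
  refine ⟨n, ?_⟩
  show |x / μ| ≤ n • |(1 : a.K)|
  rwa [abs_one, nsmul_one, abs_div, abs_of_pos hμ, div_le_iff₀ hμ]

theorem rl_add (hμ : 0 < μ) (hx : Ls |x| μ) (hy : Ls |y| μ) : rl μ (x + y) = rl μ x + rl μ y := by
  rw [rl, add_div, ArchimedeanClass.stdPart_add (mk_div_nonneg hμ hx) (mk_div_nonneg hμ hy), rl, rl]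
theorem rl_sub (hμ : 0 < μ) (hx : Ls |x| μ) (hy : Ls |y| μ) : rl μ (x - y) = rl μ x - rl μ y := by
  rw [rl, sub_div, ArchimedeanClass.stdPart_sub (mk_div_nonneg hμ hx) (mk_div_nonneg hμ hy), rl, rl]
theorem rl_mono (hμ : 0 < μ) (hx : Ls |x| μ) (hy : Ls |y| μ) (h : x ≤ y) : rl μ x ≤ rl μ y :=
  ArchimedeanClass.stdPart_monotoneOn (mk_div_nonneg hμ hx) (mk_div_nonneg hμ hy)
    (div_le_div_of_nonneg_right h hμ.le)
theorem rl_real (hμ : 0 < μ) (r : ℝ) : rl μ ((r : a.K) * μ) = r := by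
  rw [rl, mul_div_cancel_right₀ _ hμ.ne']
  exact ArchimedeanClass.stdPart_map_real (cR a) r
theorem le_of_rl_lt (hμ : 0 < μ) (hx : Ls |x| μ) {r : ℝ} (h : rl μ x < r) : x ≤ (r : a.K) * μ :=
  (div_le_iff₀ hμ).1 (ArchimedeanClass.lt_of_stdPart_lt (cR a) (mk_div_nonneg hμ hx) h).le
theorem le_of_lt_rl (hμ : 0 < μ) (hx : Ls |x| μ) {r : ℝ} (h : r < rl μ x) : (r : a.K) * μ ≤ x :=
  (le_div_iff₀ hμ).1 (ArchimedeanClass.lt_of_lt_stdPart (cR a) (mk_div_nonneg hμ hx) h).le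
theorem rl_nonneg (hμ : 0 < μ) (hx : 0 ≤ x) : 0 ≤ rl μ x :=
  ArchimedeanClass.stdPart_nonneg (div_nonneg hx hμ.le)
theorem rl_zero : rl μ 0 = 0 := by rw [rl, zero_div, ArchimedeanClass.stdPart_zero]
theorem rl_nonpos_iff (hμ : 0 < μ) (hx : Ls |x| μ) : rl μ x ≤ 0 ↔ Ll x μ := by
  have e : ∀ n : ℕ, ((n : a.K) + 1) * ((((1 : ℝ) / (n + 1) : ℝ) : a.K) * μ) = μ := fun n => by
    rw [← cR_apply, map_div₀, map_add, map_one, map_natCast, ← mul_assoc,
      mul_one_div_cancel (by positivity), one_mul]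
  refine ⟨fun h n => ?_, fun h => not_lt.1 fun h0 => ?_⟩
  · have b := mul_le_mul_of_nonneg_left
      (le_of_rl_lt hμ hx (h.trans_lt (Nat.one_div_pos_of_nat (n := n)))) (show (0 : a.K) ≤ n + 1 by positivity)
    rw [e] at b
    rcases le_total x 0 with c | c
    · exact Ll.of_nonpos c hμ.le n
    · linarith
  · obtain ⟨n, hn⟩ := exists_nat_one_div_lt h0
    have b := mul_le_mul_of_nonneg_left (le_of_lt_rl hμ hx hn) (show (0 : a.K) ≤ n + 1 by positivity)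
    rw [e] at b
    exact h.not_ls hμ ⟨n + 1, by exact_mod_cast b⟩
theorem rl_pos_iff (hμ : 0 < μ) (hx : Ls |x| μ) : 0 < rl μ x ↔ Ls μ x := by
  rw [← not_ll_iff' hμ, ← rl_nonpos_iff hμ hx, not_le]
theorem rl_eq_zero_iff (hμ : 0 < μ) (h0 : 0 ≤ x) (hx : Ls |x| μ) : rl μ x = 0 ↔ Ll x μ := by
  rw [← rl_nonpos_iff hμ hx]
  exact ⟨fun h => h.le, fun h => h.antisymm (rl_nonneg hμ h0)⟩
theorem rl_le_add (hμ : 0 < μ) {e : a.K} (hx : Ls |x| μ) (hy : Ls |y| μ) (h0 : 0 ≤ e) (he : Ll e μ)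
    (h : x ≤ y + e) : rl μ x ≤ rl μ y := by
  have k := ls_abs h0 he.ls
  have := rl_mono hμ hx (ls_abs_add hy k) h
  rwa [rl_add hμ hy k, (rl_eq_zero_iff hμ h0 k).2 he, add_zero] at this

theorem ls_ln (hμ : Big μ) (g : ball Γ μ) : Ls |ln (g : MM Γ a)| μ :=
  ls_abs (ln_nonneg _) ((mem_ball hμ.pos.le).1 g.2)

theorem ls_ds (hμ : Big μ) (p q : ball Γ μ) : Ls |ds (p : MM Γ a) q| μ := ls_ln hμ (p⁻¹ * q)

/-- The real tree at scale `μ`. -/
noncomputable def rtAt (Γ : HG) {a : Amb} (μ : a.K) (hμ : Big μ) : RT where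
  W := ball Γ μ
  ℓ g := rl μ (ln (g : MM Γ a))
  l_one := by rw [Subgroup.coe_one, ln_one, rl_zero]
  l_inv g := by rw [Subgroup.coe_inv, ln_inv]
  l_mul g h := by
    rw [← rl_add hμ.pos (ls_ln hμ g) (ls_ln hμ h)]
    exact rl_mono hμ.pos (ls_ln hμ _) (ls_abs_add (ls_ln hμ g) (ls_ln hμ h)) (ln_mul_le _ _)
  hyp x y z := by
    have h := ds_four (x : MM Γ a) y z 1
    have e : Ll (2 * (Γ.δ : a.K)) μ := by
      simpa using (big_iff_ll.1 hμ).nat_mul (2 * Γ.δ)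
    simp only [ds_one_right] at h
    rw [← rl_add hμ.pos (ls_ln hμ _) (ls_ln hμ _), ← rl_add hμ.pos (ls_ln hμ _) (ls_ln hμ _),
      ← rl_add hμ.pos (ls_ln hμ _) (ls_ln hμ _)]
    rcases max_choice (ds (x : MM Γ a) z + ln (y : MM Γ a)) (ln (x : MM Γ a) + ds (y : MM Γ a) z)
      with k | k <;> rw [k] at h
    · exact le_max_of_le_left (rl_le_add hμ.pos (ls_abs_add (ls_ln hμ _) (ls_ln hμ _))
        (ls_abs_add (ls_ln hμ _) (ls_ln hμ _)) (by positivity) e h)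
    · exact le_max_of_le_right (rl_le_add hμ.pos (ls_abs_add (ls_ln hμ _) (ls_ln hμ _))
        (ls_abs_add (ls_ln hμ _) (ls_ln hμ _)) (by positivity) e (by rwa [add_comm (ln _)] at h))
  geo g t h0 h1 := by
    have t0 : 0 ≤ (t : a.K) * μ := mul_nonneg (Germ.const_le h0) hμ.pos.le
    have s0 : 0 ≤ min ((t : a.K) * μ) (ln (g : MM Γ a)) := le_min t0 (ln_nonneg _)
    have lg := (mem_ball hμ.pos.le).1 g.2
    have s1 := ls_abs s0 (Ls.mono_left (min_le_right _ _) lg)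
    obtain ⟨p, a1, a2, a3⟩ := exists_point 1 (g : MM Γ a) _ s0
      ((min_le_right _ _).trans_eq (ds_one_left _).symm)
    simp only [ds_one_left] at a1 a2 a3
    have hp : p ∈ ball Γ μ := (mem_ball hμ.pos.le).2
      (Ls.mono_left (a2.trans (min_le_right _ _)) lg)
    have s2 : rl μ (min ((t : a.K) * μ) (ln (g : MM Γ a))) = t := by
      rcases le_total ((t : a.K) * μ) (ln (g : MM Γ a)) with k | k
      · rw [min_eq_left k, rl_real hμ.pos]
      · rw [min_eq_right k]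
        obtain ⟨n, hn⟩ := exists_nat_ge t
        exact le_antisymm ((rl_mono hμ.pos (ls_ln hμ g) (ls_abs t0 ⟨n, mul_le_mul_of_nonneg_right
          (Germ.const_le hn) hμ.pos.le⟩) k).trans_eq (rl_real hμ.pos t)) h1
    have s3 : rl μ (ln p) = t := s2 ▸ le_antisymm (rl_mono hμ.pos (ls_ln hμ ⟨p, hp⟩) s1 a2)
      (rl_le_add hμ.pos s1 (ls_ln hμ ⟨p, hp⟩) zero_le_one (big_iff_ll.1 hμ) a3)
    refine ⟨⟨p, hp⟩, s3, ?_⟩
    rw [← s3, ← rl_sub hμ.pos (ls_ln hμ g) (ls_ln hμ ⟨p, hp⟩)]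
    exact congrArg _ (eq_sub_of_add_eq' a1)

theorem rt_d (hμ : Big μ) (p q : ball Γ μ) :
    (rtAt Γ μ hμ).d p q = rl μ (ds (p : MM Γ a) q) := rfl
theorem rt_d_zero (hμ : Big μ) (p q : ball Γ μ) :
    (rtAt Γ μ hμ).d p q = 0 ↔ Ll (ds (p : MM Γ a) q) μ :=
  rl_eq_zero_iff hμ.pos (ds_nonneg _ _) (ls_ds hμ p q)
theorem rt_d_pos (hμ : Big μ) (p q : ball Γ μ) :
    0 < (rtAt Γ μ hμ).d p q ↔ Ls μ (ds (p : MM Γ a) q) := rl_pos_iff hμ.pos (ls_ds hμ p q)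
theorem rt_on (hμ : Big μ) (p x y : ball Γ μ) :
    (rtAt Γ μ hμ).On p x y ↔ On μ (p : MM Γ a) x y := by
  have k := ls_abs_add (ls_ds hμ x p) (ls_ds hμ p y)
  rw [On, ← rl_eq_zero_iff hμ.pos (sub_nonneg.2 (ds_tri _ _ _)) (ls_abs_sub k (ls_ds hμ x y)),
    rl_sub hμ.pos k (ls_ds hμ x y), rl_add hμ.pos (ls_ds hμ x p) (ls_ds hμ p y), sub_eq_zero]
  rfl
theorem rt_stab (hμ : Big μ) (p q g : ball Γ μ) :
    (rtAt Γ μ hμ).Stab p q g ↔ Stab μ (p : MM Γ a) q g :=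
  and_congr (rt_d_zero hμ p (g * p)) (rt_d_zero hμ q (g * q))
theorem rt_per (hμ : Big μ) (p q : ball Γ μ) :
    (rtAt Γ μ hμ).Per p q ↔ Per μ (p : MM Γ a) q := by
  have e : ∀ g : ball Γ μ, IsOfFinOrder (g : MM Γ a) ↔ IsOfFinOrder g := fun g =>
    (ball Γ μ).subtype_injective.isOfFinOrder_iff
  refine ⟨fun ⟨g, h1, h2⟩ => ⟨_, mt (e g).1 h1, (rt_stab hμ p q g).1 h2⟩, fun ⟨g, h1, h2⟩ => ?_⟩
  have hg : g ∈ ball Γ μ := by
    have := mul_mem (mul_mem p.2 ((mem_ball hμ.pos.le).2 h2.1.ls)) (inv_mem p.2)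
    rwa [mul_inv_cancel_left, mul_inv_cancel_right] at this
  exact ⟨⟨g, hg⟩, mt (e ⟨g, hg⟩).2 h1, (rt_stab hμ p q ⟨g, hg⟩).2 h2⟩

end Pool.Agent.P.MP_dba3d2_lc


end
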