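import Pool.Agent.P.MP_dba3d2_lcM.Ab00
import Pool.Agent.P.MP_dba3d2_lcM.Ab04

section

/-! Interface, chapter A, second layer: the lemmas below the top statements. -/

namespace Pool.Agent.P.MP_dba3d2_lc

open Filter MP_4b59b0_al

-- deps:
def S_A_KOU : Prop := ∀ R : HG0, ∃ C : ℕ, ∀ (S : Set R.G) (l : ℕ), (∀ s ∈ S, R.len s ≤ l) →
  (∀ s ∈ S, IsOfFinOrder s) →
  (∀ s ∈ S, ∀ t ∈ S, IsOfFinOrder (s * t) ∧ IsOfFinOrder (s⁻¹ * t)) →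
  ∃ p, R.len p ≤ l + C ∧ ∀ s ∈ S, R.len (p⁻¹ * s * p) ≤ C

-- deps:
def S_A_LOX : Prop := ∀ R : HG0, ∃ N : ℕ, ∀ c : R.G, ¬ IsOfFinOrder c →
  ∀ (p : R.G) (j : ℕ), j ≤ N * R.sp.d p (c ^ j • p)

-- deps: A_LOX
def S_A_CH : Prop := ∀ R : HG0, ∃ M : ℕ, 0 < M ∧ ∀ c : R.G, ¬ IsOfFinOrder c →
  ∀ (p : R.G) (i j : ℕ), R.sp.d p ((c ^ M) ^ i • p) + R.sp.d p ((c ^ M) ^ j • p) ≤
    R.sp.d p ((c ^ M) ^ (i + j) • p) + R.sp.d p (c ^ M • p)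

-- deps: A_LOX A_CH
def S_A_AX1 : Prop := ∀ R : HG0, ∃ C : ℕ, ∀ c : R.G, ¬ IsOfFinOrder c → ∃ τ : ℝ, 1 ≤ C * τ ∧
  (∀ (q : R.G) (k : ℤ), |(k : ℝ)| * τ ≤ R.sp.d q (c ^ k • q)) ∧
  (∃ q : R.G, (R.sp.d q (c • q) : ℝ) ≤ C * τ) ∧
  ∀ (p : R.G) (k : ℤ), (R.sp.d p (c ^ k • p) : ℝ) ≤ |(k : ℝ)| * τ + C * R.sp.d p (c • p)

-- deps: A_LOX A_CH
def S_A_AX2 : Prop := ∀ R : HG0, ∃ C : ℕ, ∀ c : R.G, ¬ IsOfFinOrder c → ∀ p q : R.G,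
  ∃ k : ℤ, R.sp.d q (c ^ k • p) ≤ C * (R.sp.d p (c • p) + R.sp.d q (c • q))

-- deps: A_AX2
def S_A_PSI : Prop := ∀ (R : HG0) (z : R.G), ¬ IsOfFinOrder z →
  {f : R.G | Commute f z ∧ IsOfFinOrder f}.Finite ∧
  ∃ ψ : Subgroup.centralizer {z} →* Multiplicative ℤ, ∀ f, ψ f = 1 ↔ IsOfFinOrder (f : R.G)

-- deps:
def S_A_CE0 : Prop := ∀ Γ : HG, ∃ C : ℕ, ∀ (T : ℕ) (g h p q : Γ.G), ¬ IsOfFinOrder h →
  Γ.sp.d p (g • p) ≤ T → Γ.sp.d q (g • q) ≤ T → Γ.sp.d p (h • p) ≤ T → Γ.sp.d q (h • q) ≤ T →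
  C * (T + 1) ≤ Γ.sp.d p q → Commute g (h ^ Γ.e)

-- deps: A_CE0
def S_A_OVL : Prop := ∀ (Γ : HG) (c T : ℕ), ∃ W : ℕ, ∀ A B x y x' y' g h : Γ.G, ¬ IsOfFinOrder h →
  Γ.sp.Bt c A y B → Γ.sp.Bt c A y' B →
  Γ.sp.d x (h • x) ≤ T → Γ.sp.d y (h • y) ≤ T → Γ.sp.d x' (g • x') ≤ T → Γ.sp.d y' (g • y') ≤ T →
  Γ.sp.d A x + W ≤ Γ.sp.d A y → Γ.sp.d A x + W ≤ Γ.sp.d A y' →
  Γ.sp.d A x' + W ≤ Γ.sp.d A y → Γ.sp.d A x' + W ≤ Γ.sp.d A y' → Commute g (h ^ Γ.e)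

-- deps: A_CE0
def S_A_IND : Prop := ∀ (Γ : HG) (x y : Γ.G), ¬ IsOfFinOrder y → ¬ Commute x (y ^ Γ.e) →
  ∃ C : ℕ, ∀ m n : ℕ, Γ.len (x ^ m) + Γ.len (y ^ n) ≤ Γ.len (x ^ m * y ^ n) + C

-- deps: A_PSI
def S_A_ALPH : Prop := ∀ (Γ : HG) (K : Subgroup Γ.G), Legal Γ K → ∃ (y : ℕ → Γ.G) (s : ℕ),
  (Set.range y).Finite ∧ (∀ t, ¬ IsOfFinOrder (y t)) ∧ (∀ t, ∀ k ∈ K, Commute (y t) k) ∧
  (∀ t k, Commute k (y t ^ Γ.e) → Commute k (y t)) ∧ (∀ t, ¬ Commute (y t) (y (t + 1))) ∧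
  ∀ t0 k, (∀ v < s, Commute k (y (t0 + v))) → k ∈ K

-- deps:
def S_A_WIN : Prop := ∀ (V : Type) (X : Sp V) (δ c D L U n M m : ℕ) (P : ℕ → V) (p q : V),
  X.Hyp δ → (∀ i j k, i ≤ j → j ≤ k → k ≤ n → X.Bt c (P i) (P j) (P k)) →
  (∀ t < n, L ≤ X.d (P t) (P (t + 1))) → (∀ t < n, X.d (P t) (P (t + 1)) ≤ U) → c ≤ L →
  X.Bt D (P 0) p (P n) → X.Bt D (P 0) q (P n) → X.Bt (2 * D + δ) (P 0) p q →
  U + D + c + 2 * δ ≤ M → M + m * U + 3 * D + c + 3 * δ < X.d p q →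
  ∃ t, t + m ≤ n ∧ X.d p (P t) ≤ M ∧ M < X.d p (P (t + 1)) ∧
    (∀ v ≤ m, X.Bt (c + 2 * δ) p (P (t + v)) q) ∧
    ∀ v < m, X.d p (P (t + v)) + L ≤ X.d p (P (t + v + 1)) + c + δ

-- deps: A_OVL A_WIN
def S_A_MATCH : Prop := ∀ (Γ : HG) (c T s : ℕ), ∃ C : ℕ,
  ∀ (L U D n n' : ℕ) (P h Q h' : ℕ → Γ.G) (p q : Γ.G),
  PCh Γ c T L U n P h → PCh Γ c T L U n' Q h' → C ≤ L →
  Γ.sp.Bt D (P 0) p (P n) → Γ.sp.Bt D (P 0) q (P n) →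
  Γ.sp.Bt D (Q 0) p (Q n') → Γ.sp.Bt D (Q 0) q (Q n') → C * (U + D + 1) ≤ Γ.sp.d p q →
  ∃ t t', t + s ≤ n ∧ ((t' + s ≤ n' ∧ ∀ v ≤ s, Γ.sp.d (P (t + v)) (Q (t' + v)) ≤ C) ∨
    (s ≤ t' ∧ t' ≤ n' ∧ ∀ v ≤ s, Γ.sp.d (P (t + v)) (Q (t' - v)) ≤ C))

-- deps: A_ALPH A_IND
def S_A_PRE : Prop := ∀ (Γ : HG) (r : ℕ) (K : Fin r → Subgroup Γ.G), (∀ i, Legal Γ (K i)) →
  ∃ (c T s : ℕ) (P h : Fin r → (ℕ → ℕ) → ℕ → Γ.G),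
    (∀ i l, P i l 0 = 1) ∧ (∀ i l t, ∀ k ∈ K i, Commute (P i l t) k) ∧
    (∀ i l t, l t ≤ Γ.sp.d (P i l t) (P i l (t + 1)) ∧
      Γ.sp.d (P i l t) (P i l (t + 1)) ≤ l t + T) ∧
    (∀ i l L U n, c ≤ L → (∀ t < n, L ≤ l t ∧ l t ≤ U) →
      PCh Γ c T L (U + T) n (P i l) (h i l)) ∧
    ∀ i l t0 g, (∀ v < s, Commute g (h i l (t0 + v) ^ Γ.e)) → g ∈ K i

-- deps: A_PRE A_MATCH A_CE0
def S_A_BW : Prop := ∀ (Γ : HG) (r : ℕ) (K : Fin r → Subgroup Γ.G), (∀ i, Legal Γ (K i)) →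
  ∃ (C : ℕ) (P : Fin r → (ℕ → ℕ) → ℕ → Γ.G),
    (∀ i l n, ∀ k ∈ K i, Commute (P i l n) k) ∧
    (∀ i l n, (∀ t < n, C ≤ l t) → ∑ t ∈ Finset.range n, l t ≤ Γ.len (P i l n) + C * n ∧
      Γ.len (P i l n) ≤ ∑ t ∈ Finset.range n, l t + C * n) ∧
    ∀ i j l l' n n' U D g p q, (∀ t < n, C ≤ l t ∧ l t ≤ U) → (∀ t < n', C ≤ l' t ∧ l' t ≤ U) →
      Γ.sp.Bt D 1 p (P i l n) → Γ.sp.Bt D 1 q (P i l n) →
      Γ.sp.Bt D g p (g * P j l' n') → Γ.sp.Bt D g q (g * P j l' n') →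
      C * (U + D + 1) ≤ Γ.sp.d p q →
      (∃ t < n, ∃ t' < n', l t ≤ l' t' + C ∧ l' t' ≤ l t + C) ∧
      (i = j → l = l' → (∀ t t', l t ≤ l t' + C → l t' ≤ l t + C → t = t') → g ∈ K i)

-- deps: A_BW
def S_A_BW2 : Prop := ∀ (Γ : HG) (r : ℕ) (K : Fin r → Subgroup Γ.G), (∀ i, Legal Γ (K i)) →
  ∃ C w, BWp Γ K C w

-- deps:
def S_A_OVM : Prop := ∀ (Γ : HG) (r : ℕ) (K : Fin r → Subgroup Γ.G) (C : ℕ)
  (w : Fin r → ℕ → ℕ → Γ.G), BWp Γ K C w → (∀ i, Finite (K i)) →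
  ∀ (a : Amb) (i j : Fin r) (b b' n n' : a.I → ℕ) (D : a.K) (g p q : MM Γ a),
    ds 1 p + ds p (gw (w i) b n) ≤ ds 1 (gw (w i) b n) + D →
    ds 1 q + ds q (gw (w i) b n) ≤ ds 1 (gw (w i) b n) + D →
    ds g p + ds p (g * gw (w j) b' n') ≤ ds g (g * gw (w j) b' n') + D →
    ds g q + ds q (g * gw (w j) b' n') ≤ ds g (g * gw (w j) b' n') + D →
    C * (nK b + nK b' + nK n + nK n' + D + 1) ≤ ds p q →
    i = j ∧ nK b ≤ nK b' + C * (nK n' + 1) ∧ nK b' ≤ nK b + C * (nK n + 1) ∧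
      (b = b' → n = n' → g ∈ (K i).map (cst Γ a))

-- deps: A_OVM
def S_A_BWM : Prop := ∀ (Γ : HG) (r : ℕ) (K : Fin r → Subgroup Γ.G) (C : ℕ)
  (w : Fin r → ℕ → ℕ → Γ.G), BWp Γ K C w → (∀ i, Finite (K i)) →
  ∀ (a : Amb) (μ : a.K) (b : Fin r → a.I → ℕ) (n : a.I → ℕ), Big μ →
    (∀ i, Ll (nK (b i)) μ) → Ll (nK n) μ → (∀ i, Sim (ln (gw (w i) (b i) n : MM Γ a)) μ) →
    Letters μ (std Γ a) K fun i => gw (w i) (b i) n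

-- deps: A_OVM
def S_A_GB : Prop := ∀ (Γ : HG) (r : ℕ) (K : Fin r → Subgroup Γ.G) (C : ℕ)
  (w : Fin r → ℕ → ℕ → Γ.G), BWp Γ K C w → (∀ i, Finite (K i)) →
  ∀ (a : Amb) (μ : a.K) (l : a.I → ℕ) (i : Fin r), Big μ → Sim (nK l) μ →
    ∀ x : MM Γ a, Ls (ln x) μ → ∀ g p q : MM Γ (a.pow U0),
      ¬ Ov ((a.dg U0).mp μ) p q 1
        (gw (a := a.pow U0) (w i) (fun j => l j.2 / j.1) fun j => j.1) g (g * (a.dg U0).hom Γ x)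

-- deps: A_PSI
def S_A_EL0 : Prop := ∀ (Γ : HG) (c : Γ.G), ¬ IsOfFinOrder c →
  (∃ c0, Bas2A.P0 Γ c0 ∧ Commute c0 (c ^ Γ.e)) ∧
  (∀ f g, Commute f (c ^ Γ.e) → Commute g (c ^ Γ.e) →
    IsOfFinOrder (f * g * f⁻¹ * g⁻¹) ∧ (IsOfFinOrder f → IsOfFinOrder g → IsOfFinOrder (f * g))) ∧
  ∀ g, Commute (g * c * g⁻¹) (c ^ Γ.e) →
    g * c ^ Γ.e * g⁻¹ = c ^ Γ.e ∨ g * c ^ Γ.e * g⁻¹ = (c ^ Γ.e)⁻¹

-- deps: A_AX1 A_AX2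
def S_A_LINEU : Prop := ∀ Γ : HG, ∃ C : ℕ, ∀ (a : Amb) (c : MM Γ a), ¬ IsOfFinOrder c →
  ∃ L : a.K, 1 ≤ C * L ∧ md c ≤ C * L ∧
    (∀ (q : MM Γ a) (k : a.Z), |zK k| * L ≤ ds q (ipow c k * q)) ∧
    (∀ (p : MM Γ a) (k : a.Z),
      ds p (ipow c k * p) ≤ |zK k| * L + (C : a.K) * ds p (c * p)) ∧
    ∀ p q : MM Γ a, ∃ k : a.Z,
      ds q (ipow c k * p) ≤ (C : a.K) * (ds p (c * p) + ds q (c * q))

-- deps: A_AX1 A_AX2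
def S_A_DOM : Prop := ∀ Γ : HG, ∃ C : ℕ, ∀ (a : Amb) (g f p : MM Γ a), ¬ IsOfFinOrder g →
  f ∈ Ep g → IsOfFinOrder f ∨ Prim f → ds p (f * p) ≤ C * ds p (g * p)

-- deps: A_CE0
def S_A_CE : Prop := ∀ Γ : HG, ∃ C : ℕ, ∀ (a : Amb) (T : a.K) (g p q : MM Γ a),
  ds p (g * p) ≤ T → ds q (g * q) ≤ T →
  (∀ h, ¬ IsOfFinOrder h → ds p (h * p) ≤ T → ds q (h * q) ≤ T → C * (T + 1) ≤ ds p q →
    g ∈ Ep h) ∧
  (IsOfFinOrder g → ∀ m, ds p m + ds m q = ds p q → C * (T + 1) ≤ ds p m →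
    C * (T + 1) ≤ ds m q → ds m (g * m) ≤ C)

-- deps: ELEM A_DOM A_CE
def S_A_SMALL : Prop := ∀ (Γ : HG) (a : Amb) (μ : a.K) (p q : MM Γ a), Big μ → Ls μ (ds p q) →
  ¬ Per μ p q → ∃ n : ℕ, 0 < n ∧ ∃ m, ds p m + ds m q = ds p q ∧
    ∀ g, n * ds p (g * p) ≤ μ → n * ds q (g * q) ≤ μ → Ll (ds m (g * m)) μ

-- deps: ELEM A_LINEU A_CE
def S_A_LIN2 : Prop := ∀ (Γ : HG) (a : Amb) (μ : a.K) (p q : MM Γ a), Big μ → Ls (ds p q) μ →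
  Per μ p q → ∃ L : ℝ → MM Γ a, L 0 = p ∧ (∃ t, Ll (ds q (L t)) μ) ∧
    (∀ s t : ℝ, Ll |ds (L s) (L t) - ((|s - t| : ℝ) : a.K) * μ| μ) ∧ (∀ s t, Per μ (L s) (L t)) ∧
    ∀ (g : MM Γ a) (s t s' t' : ℝ), s < t → Ll (ds (g * L s) (L s')) μ → Ll (ds (g * L t) (L t')) μ →
      ∃ ε b : ℝ, (ε = 1 ∨ ε = -1) ∧ ∀ x, Ll (ds (g * L x) (L (ε * x + b))) μ

-- deps: TORS ELEM
def S_A_FR2 : Prop := ∀ (Γ : HG) (a : Amb) (μ : a.K) (y : MM Γ a) (K : Subgroup Γ.G), Big μ →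
  Ls μ (ln y) → Finite K → (∀ k ∈ K, Commute y (cst Γ a k)) →
  (∀ g, Stab μ 1 y g → g ∈ K.map (cst Γ a)) → Legal Γ K

end Pool.Agent.P.MP_dba3d2_lc


end

section

/-! Interface, chapter A: geometry of hyperbolic groups and of their ultrapowers. -/

namespace Pool.Agent.P.MP_dba3d2_lc

open Filter

-- deps: A_KOU A_AX1 A_PSI
def S_HG : Prop := ∀ R : HG0, ∃ e, GoodExp R.G e

-- deps: A_KOU
def S_TORS : Prop := ∀ (Γ : HG) (a : Amb) (K : Subgroup (MM Γ a)),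
  (∀ k ∈ K, IsOfFinOrder k) → Finite K ∧ Nat.card K ≤ Γ.e

-- deps: A_KOU
def S_FINM : Prop := ∀ (Γ : HG) (a : Amb) (K : Subgroup (MM Γ a)), Finite K →
  ∃ p, (∀ k ∈ K, p⁻¹ * k * p ∈ std Γ a) ∧ ∃ k ∈ K, Ls (ln p) (ln k + 1)

-- deps: A_EL0
def S_ELEM : Prop := ∀ (Γ : HG) (a : Amb) (c : MM Γ a), ¬ IsOfFinOrder c →
  (∃ c0, Prim c0 ∧ Ep c0 = Ep c) ∧
  (∀ f ∈ Ep c, ¬ IsOfFinOrder f → Ep f = Ep c) ∧
  (∀ f ∈ Ep c, ∀ g ∈ Ep c, IsOfFinOrder f → IsOfFinOrder g → IsOfFinOrder (f * g)) ∧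
  (∀ g, InE c g ↔ Cj g c c) ∧
  (∀ g, InE c g → g ∉ Ep c → IsOfFinOrder g) ∧
  (∀ k : a.Z, k ≠ 0 → ¬ IsOfFinOrder (ipow c k)) ∧
  (∀ k : a.Z, ipow c k ∈ Ep c) ∧
  (∀ f ∈ Ep c, ∀ g ∈ Ep c, Commute (f ^ Γ.e) g) ∧
  (∀ f ∈ Ep c, ∀ g ∈ Ep c, IsOfFinOrder (f * g * f⁻¹ * g⁻¹)) ∧
  (∀ g, InE c g → g ∉ Ep c → ∀ f ∈ Ep c, g * f ^ Γ.e * g⁻¹ = (f ^ Γ.e)⁻¹)

-- deps: A_LINEU A_DOM
def S_LINE : Prop := ∀ (Γ : HG) (a : Amb) (c p : MM Γ a), ¬ IsOfFinOrder c →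
  Ls (ds p (c * p)) (md c) →
  (∃ L : a.K, Sim L (md c) ∧ ∀ k : a.Z, |zK k| * L ≤ ds p (ipow c k * p) ∧
    Ls (ds p (ipow c k * p) - |zK k| * L) (md c) ∧ |zK k| * L ≤ md (ipow c k)) ∧
  (∀ q, ∃ k : a.Z, Ls (ds q (ipow c k * p)) (ds q (c * q))) ∧
  (∀ f ∈ Ep c, IsOfFinOrder f → Ls (ds p (f * p)) (md c))

-- deps: ELEM A_DOM A_CE
def S_PERC : Prop := ∀ (Γ : HG) (a : Amb) (μ : a.K) (p q : MM Γ a), Big μ → Ls μ (ds p q) →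
  Per μ p q → ∃ c, Prim c ∧ Stab μ p q c ∧ ∀ g, Stab μ p q g → g ∈ Ep c

-- deps: TORS A_SMALL A_LIN2
def S_RTA : Prop := ∀ (Γ : HG) (a : Amb) (μ : a.K) (R : RT) (φ : R.W ≃* ball Γ μ), Big μ →
  (∀ g, R.ℓ g = rl μ (ln (φ g : MM Γ a))) → R.Ax Γ.e

-- deps: TORS FINM A_FR2
def S_FRAME : Prop := ∀ (Γ : HG) (a : Amb) (μ : a.K) (y : MM Γ a), Big μ → Ls μ (ln y) →
  ¬ Per μ 1 y → ∃ z z' : MM Γ a, Ll (ln z) μ ∧ Ll (ln z') μ ∧ ∃ K : Subgroup Γ.G, Legal Γ K ∧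
    (∀ k ∈ K, Commute (z⁻¹ * y * z') (cst Γ a k)) ∧
    ∀ g, Stab μ 1 y g ↔ z⁻¹ * g * z ∈ K.map (cst Γ a)

-- deps: A_BW2 A_BWM
def S_GMIC : Prop := ∀ (Γ : HG) (r : ℕ) (K : Fin r → Subgroup Γ.G), (∀ i, Legal Γ (K i)) →
  ∃ (t : Fin r → ℕ → Γ.G) (τ : ℕ → ℝ), ∀ a : Amb,
    Big (a.mk' U0 fun n => (τ n : a.K)) ∧
    Letters (a := a.pow U0) (a.mk' U0 fun n => (τ n : a.K)) (std Γ (a.pow U0)) K
      fun i => a.mk' U0 fun n => cst Γ a (t i n)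

-- deps: A_BW2 A_BWM A_GB
def S_GMAC : Prop := ∀ (Γ : HG) (a : Amb) (μ : a.K) (r : ℕ) (K : Fin r → Subgroup Γ.G)
  (l : Fin r → a.K), Big μ → (∀ i, Legal Γ (K i)) → (∀ i, Sim (l i) μ) →
  ∃ u : Fin r → MM Γ (a.pow U0),
    Letters ((a.dg U0).mp μ) ((a.dg U0).hom Γ).range K u ∧
    ∀ i, Ll |ln (u i) - (a.dg U0).mp (l i)| ((a.dg U0).mp μ)

end Pool.Agent.P.MP_dba3d2_lc


end

section

/-! Step A_FR2 of the stability project. -/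

namespace Pool.Agent.P.MP_dba3d2_lc

open Filter MP_4b59b0_al

namespace A_fr2

variable {Γ : HG} {a : Amb}

theorem std_of_fin {s : Set Γ.G} (hs : s.Finite) {f : a.I → Γ.G}
    (h : ∀ᶠ j in (a.V : Filter a.I), f j ∈ s) : (Germ.ofFun f : MM Γ a) ∈ std Γ a := by
  obtain ⟨x, -, hx⟩ := (Ultrafilter.eventually_exists_mem_iff (P := fun x i => x = f i) hs).1
    (h.mono fun i hi => ⟨f i, hi, rfl⟩)
  exact ⟨x, Germ.coe_eq.2 hx⟩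

theorem stab {μ : a.K} (hμ : Big μ) {y g : MM Γ a} (h1 : g ∈ std Γ a)
    (h2 : y⁻¹ * g * y ∈ std Γ a) : Stab μ 1 y g := by
  refine ⟨?_, ?_⟩
  · rw [mul_one, ds_one_left]
    exact hμ.ll_of_not_big (mem_std_iff.1 h1)
  · rw [ds, ← mul_assoc]
    exact hμ.ll_of_not_big (mem_std_iff.1 h2)

theorem fin_cst {x : Γ.G} : IsOfFinOrder (cst Γ a x) ↔ IsOfFinOrder x :=
  cst_injective.isOfFinOrder_iff

end A_fr2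

open A_fr2 in
theorem p_A_FR2 (hTORS : S_TORS) (hELEM : S_ELEM) :
    S_A_FR2 := by
  intro Γ a μ y K hμ hy hK hc hs
  induction y using Germ.inductionOn with | h f => ?_
  have hZ : ∀ᶠ j in (a.V : Filter a.I), f j ∈ Subgroup.centralizer (K : Set Γ.G) := by
    have h1 : ∀ᶠ j in (a.V : Filter a.I), ∀ k ∈ (K : Set Γ.G), k * f j = f j * k :=
      (eventually_all_finite (Set.toFinite _)).2 fun k hk => Germ.coe_eq.1 (hc k hk).symm.eq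
    exact h1
  have hy' : (Germ.ofFun f : MM Γ a) ∉ std Γ a := fun h => mem_std_iff.1 h (hμ.of_ls hy)
  refine ⟨hK, ?_, fun R hR hn r hr => ?_⟩
  · obtain ⟨x, hx, hxi⟩ : ∃ x ∈ Subgroup.centralizer (K : Set Γ.G), ¬ IsOfFinOrder x := by
      by_contra hne
      push Not at hne
      have h1 := (hTORS Γ a ((Subgroup.centralizer (K : Set Γ.G)).map (cst Γ a)) (by
        rintro _ ⟨x, hx, rfl⟩
        exact fin_cst.2 (hne x hx))).1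
      have h2 : (cst Γ a '' (Subgroup.centralizer (K : Set Γ.G) : Set Γ.G)).Finite :=
        Set.toFinite ((Subgroup.centralizer (K : Set Γ.G)).map (cst Γ a) : Set (MM Γ a))
      exact hy' (std_of_fin (h2.of_finite_image cst_injective.injOn) hZ)
    by_contra hne
    have h1 : ∀ γ ∈ Subgroup.centralizer (K : Set Γ.G),
        Commute (x ^ Γ.e) ((γ * x * γ⁻¹) ^ Γ.e) := fun γ hγ => by
      by_contra h
      exact hne ⟨x, hx, γ * x * γ⁻¹, mul_mem (mul_mem hγ hx) (inv_mem hγ), hxi,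
        fun h' => hxi (by simpa [mul_assoc] using (MulAut.conj γ⁻¹).toMonoidHom.isOfFinOrder h'), h⟩
    have h2 : Commute (cst Γ a x ^ Γ.e)
        (((Germ.ofFun f : MM Γ a) * cst Γ a x * (Germ.ofFun f : MM Γ a)⁻¹) ^ Γ.e) :=
      Germ.coe_eq.2 (hZ.mono fun j hj => (h1 _ hj).eq)
    generalize (Germ.ofFun f : MM Γ a) = y at *
    have hc1 : ¬ IsOfFinOrder (cst Γ a x) := fun h => hxi (fin_cst.1 h)
    have hc2 : ¬ IsOfFinOrder (y * cst Γ a x * y⁻¹) := fun h =>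
      hc1 (by simpa [mul_assoc] using (MulAut.conj y⁻¹).toMonoidHom.isOfFinOrder h)
    have hc3 := Geo0.pow_inf hc2 Γ.good.pos.ne'
    have e1 := (hELEM Γ a _ hc1).2.1 _
      (Subgroup.mem_centralizer_singleton_iff.2 h2.symm.eq) hc3
    have e2 := (hELEM Γ a _ hc2).2.1 _ (Subgroup.mem_centralizer_singleton_iff.2 rfl) hc3
    have h3 : InE (cst Γ a x) y := ((hELEM Γ a _ hc1).2.2.2.1 y).2 (e2.symm.trans e1)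
    have h4 : cst Γ a x ^ Γ.e ∈ std Γ a := ⟨x ^ Γ.e, map_pow _ _ _⟩
    have h5 : y⁻¹ * cst Γ a x ^ Γ.e * y ∈ std Γ a := by
      rcases h3 with h | h
      · have : y⁻¹ * cst Γ a x ^ Γ.e * y = cst Γ a x ^ Γ.e := by
          conv_lhs => rw [← h]
          group
        rwa [this]
      · have : y⁻¹ * (cst Γ a x ^ Γ.e)⁻¹ * y = cst Γ a x ^ Γ.e := by
          rw [← h]
          group
        have h6 : y⁻¹ * cst Γ a x ^ Γ.e * y = (y⁻¹ * (cst Γ a x ^ Γ.e)⁻¹ * y)⁻¹ := by group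
        rw [h6, this]
        exact inv_mem h4
    obtain ⟨k, hk, e⟩ := hs _ (stab hμ h4 h5)
    refine Geo0.pow_inf hc1 Γ.good.pos.ne' ?_
    rw [← e]
    exact fin_cst.2 (K.subtype.isOfFinOrder (isOfFinOrder_of_finite (⟨k, hk⟩ : K)))
  · have h1 : (Germ.ofFun f : MM Γ a)⁻¹ * cst Γ a r * Germ.ofFun f ∈ std Γ a :=
      std_of_fin (s := R) (f := fun j => (f j)⁻¹ * r * f j) (Set.toFinite _)
        (hZ.mono fun j hj => by simpa using hn _ (inv_mem hj) r hr)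
    obtain ⟨k, hk, e⟩ := hs _ (stab hμ ⟨r, rfl⟩ h1)
    rwa [← cst_injective e]

end Pool.Agent.P.MP_dba3d2_lc


end

section

/-! Step FRAME of the stability project. -/

namespace Pool.Agent.P.MP_dba3d2_lc

open Filter

namespace Frame

variable {Γ : HG} {a : Amb} {μ : a.K}

theorem stab_iff {y g : MM Γ a} :
    Stab μ 1 y g ↔ Ll (ln g) μ ∧ Ll (ln (y⁻¹ * g * y)) μ := by
  simp only [Stab, ds, inv_one, one_mul, mul_one, mul_assoc]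

theorem ll_mul {g h : MM Γ a} (hg : Ll (ln g) μ) (hh : Ll (ln h) μ) : Ll (ln (g * h)) μ :=
  Ll.mono_left (ln_mul_le g h) (hg.add hh)

theorem ll_inv {g : MM Γ a} (hg : Ll (ln g) μ) : Ll (ln g⁻¹) μ := by rwa [ln_inv]

theorem fin_comap {G H : Type} [Group G] [Group H] (φ : G →* H) (hφ : Function.Injective φ)
    (K : Subgroup H) (hK : Finite K) : Finite (K.comap φ) :=
  Finite.of_injective (fun x : K.comap φ => (⟨φ x, x.2⟩ : K)) fun _ _ h =>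
    Subtype.ext (hφ (congrArg Subtype.val h))

theorem finm (hFINM : S_FINM) (hμ : Big μ) (K : Subgroup (MM Γ a)) (hK : Finite K)
    (h : ∀ k ∈ K, Ll (ln k) μ) :
    ∃ p, (∀ k ∈ K, p⁻¹ * k * p ∈ std Γ a) ∧ Ll (ln p) μ := by
  obtain ⟨p, h1, k, hk, h2⟩ := hFINM Γ a K hK
  exact ⟨p, h1, Ll.ls_left h2 ((h k hk).add (big_iff_ll.1 hμ))⟩

theorem fix (u : MM Γ a) (K : Subgroup Γ.G) (hK : Finite K)
    (h : ∀ k ∈ K, u⁻¹ * cst Γ a k * u ∈ std Γ a) :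
    ∃ γ : Γ.G, ∀ k ∈ K, u⁻¹ * cst Γ a k * u = cst Γ a (γ⁻¹ * k * γ) := by
  induction u using Germ.inductionOn with | h f =>
  choose k' hk' using fun k : K => h k k.2
  have h1 : ∀ k : K, ∀ᶠ j in (a.V : Filter a.I), k' k = (f j)⁻¹ * k * f j := fun k =>
    Germ.coe_eq.1 (hk' k)
  obtain ⟨j, hj⟩ := (eventually_all.2 h1).exists
  exact ⟨f j, fun k hk => by rw [← hk' ⟨k, hk⟩, hj ⟨k, hk⟩]⟩

end Frame

open Frame in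
theorem p_FRAME (hTORS : S_TORS) (hFINM : S_FINM) (hA_FR2 : S_A_FR2) :
    S_FRAME := by
  intro Γ a μ y hμ hy hP
  have h0 := hμ.pos.le
  have hK0 : Finite (StabG μ 1 y) := (hTORS Γ a _ fun k hk => by
    by_contra h
    exact hP ⟨k, h, (mem_stabG h0).1 hk⟩).1
  obtain ⟨z, hz, hzl⟩ := finm hFINM hμ _ hK0 fun k hk => (stab_iff.1 ((mem_stabG h0).1 hk)).1
  let K : Subgroup Γ.G := (StabG μ 1 y).comap ((MulAut.conj z).toMonoidHom.comp (cst Γ a))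
  have hK : ∀ x, x ∈ K ↔ z * cst Γ a x * z⁻¹ ∈ StabG μ 1 y := fun _ => Iff.rfl
  have hKf : Finite K := fin_comap _ ((MulAut.conj z).injective.comp cst_injective) _ hK0
  have hiff : ∀ g, Stab μ 1 y g ↔ z⁻¹ * g * z ∈ K.map (cst Γ a) := by
    intro g
    rw [← mem_stabG h0]
    constructor
    · intro hg
      obtain ⟨x, hx⟩ := hz g hg
      refine ⟨x, (hK x).2 ?_, hx⟩
      rw [hx]
      simpa [mul_assoc] using hg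
    · rintro ⟨x, hx, e⟩
      have := (hK x).1 hx
      rw [e] at this
      simpa [mul_assoc] using this
  let K1 : Subgroup (MM Γ a) := (StabG μ 1 y).comap (MulAut.conj y).toMonoidHom
  have hK1 : ∀ x, x ∈ K1 ↔ y * x * y⁻¹ ∈ StabG μ 1 y := fun _ => Iff.rfl
  obtain ⟨z2, hz2, hzl2⟩ := finm hFINM hμ K1 (fin_comap _ (MulAut.conj y).injective _ hK0)
    fun k hk => by
      have := (stab_iff.1 ((mem_stabG h0).1 ((hK1 k).1 hk))).2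
      simpa [mul_assoc] using this
  obtain ⟨γ, hγ⟩ := fix (z⁻¹ * y * z2) K hKf fun k hk => by
    have h1 : y⁻¹ * (z * cst Γ a k * z⁻¹) * y ∈ K1 := by
      rw [hK1]
      simpa [mul_assoc] using (hK k).1 hk
    simpa [mul_assoc] using hz2 _ h1
  have hzl3 : Ll (ln (z2 * (cst Γ a γ)⁻¹)) μ :=
    ll_mul hzl2 (ll_inv ((mem_tiny h0).1 (std_le_tiny hμ ⟨γ, rfl⟩)))
  have hcomm : ∀ k ∈ K, Commute (z⁻¹ * y * (z2 * (cst Γ a γ)⁻¹)) (cst Γ a k) := by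
    intro k hk
    have h1 := hγ k hk
    rw [map_mul, map_mul, map_inv] at h1
    rw [← mul_assoc]
    generalize z⁻¹ * y * z2 = u at h1
    have h2 : cst Γ a k * u = u * ((cst Γ a γ)⁻¹ * cst Γ a k * cst Γ a γ) := by
      rw [← h1]; group
    rw [Commute, SemiconjBy, ← mul_assoc, h2]
    group
  generalize z2 * (cst Γ a γ)⁻¹ = z' at hzl3 hcomm
  refine ⟨z, z', hzl, hzl3, K, hA_FR2 Γ a μ (z⁻¹ * y * z') K hμ ?_ hKf hcomm fun g hg => ?_,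
    hcomm, hiff⟩
  · rw [← not_ll_iff' hμ.pos]
    intro h
    have h1 := ll_mul (ll_mul hzl h) (ll_inv hzl3)
    rw [show z * (z⁻¹ * y * z') * z'⁻¹ = y by group] at h1
    exact h1.not_ls hμ.pos hy
  · obtain ⟨h1, h2⟩ := stab_iff.1 hg
    have h3 : Stab μ 1 y (z * g * z⁻¹) := by
      refine stab_iff.2 ⟨ll_mul (ll_mul hzl h1) (ll_inv hzl), ?_⟩
      have h4 := ll_mul (ll_mul hzl3 h2) (ll_inv hzl3)
      rwa [show z' * ((z⁻¹ * y * z')⁻¹ * g * (z⁻¹ * y * z')) * z'⁻¹ =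
        y⁻¹ * (z * g * z⁻¹) * y by group] at h4
    have h5 := (hiff _).1 h3
    rwa [show z⁻¹ * (z * g * z⁻¹) * z = g by group] at h5

end Pool.Agent.P.MP_dba3d2_lc


end
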