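import Pool.Agent.P.MP_dba3d2_lcM.Ab05

section

/-! Step A_KOU of the stability project. -/

namespace Pool.Agent.P.MP_dba3d2_lc

open Filter MP_4b59b0_al

namespace A_kou

variable {V H : Type} {X : Sp V} [Group H] [MulAction H V] {δ : ℕ}

theorem noax (iso : X.Iso H) (hδ : X.Hyp δ) {g : H} (hg : IsOfFinOrder g) {p : V} {c : ℕ}
    (h : X.Bt c (g⁻¹ • p) p (g • p)) : X.d p (g • p) ≤ c + δ := by
  by_contra e
  obtain ⟨n, h0, hn⟩ := isOfFinOrder_iff_pow_eq_one.1 hg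
  have := Sp.pw_lower iso hδ h (by omega) n
  rw [hn, one_smul, X.d_self, zero_add] at this
  exact e (Nat.le_of_mul_le_mul_left this h0)

theorem two (iso : X.Iso H) (hδ : X.Hyp δ) {s t : H} (hs : IsOfFinOrder s) (ht : IsOfFinOrder t)
    (hts : IsOfFinOrder (t * s)) {p : V} {c : ℕ} (ls : c + 4 * δ < X.d p (s • p))
    (lt : c + 4 * δ < X.d p (t • p)) : ¬ X.Bt c (s • p) p (t • p) := fun h => by
  have a1 : X.Bt (c + δ) (t⁻¹ • p) p (s • p) := by
    rcases hδ.l1 h (t⁻¹ • p) with a | a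
    · exact a.symm
    · have := noax iso hδ ht a.symm; omega
  have a2 : X.Bt (c + δ) (s⁻¹ • p) p (t • p) := by
    rcases hδ.l1 h (s⁻¹ • p) with a | a
    · have := noax iso hδ hs a.symm; omega
    · exact a.symm
  have b1 := iso.bt s⁻¹ a1
  have b2 := iso.bt t a1
  rw [inv_smul_smul, smul_smul, ← mul_inv_rev] at b1
  rw [smul_inv_smul, smul_smul] at b2
  have e1 := iso.inv s p p
  have c1 := (Geo0.glue hδ b1 a2 (by omega)).2
  have c2 := (Geo0.glue hδ c1 b2 (by omega)).1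
  have := noax iso hδ hts c2
  have e2 : X.d (t • p) ((t * s) • p) = X.d p (s • p) := by rw [mul_smul, iso]
  unfold Sp.Bt at b2
  omega

theorem core (iso : X.Iso H) (hδ : X.Hyp δ) {S : Set H} (h1 : ∀ s ∈ S, s⁻¹ ∈ S)
    (h2 : ∀ s ∈ S, IsOfFinOrder s) (h3 : ∀ s ∈ S, ∀ t ∈ S, IsOfFinOrder (s * t))
    (h4 : ∃ n p, ∀ s ∈ S, X.d p (s • p) ≤ n) : ∃ p, ∀ s ∈ S, X.d p (s • p) ≤ 12 * δ + 4 := by
  classical
  obtain ⟨p, hp⟩ := Nat.find_spec h4
  have hm := fun m (h : m < Nat.find h4) => Nat.find_min h4 h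
  generalize Nat.find h4 = l at hp hm
  by_cases hl : l ≤ 12 * δ + 4
  · exact ⟨p, fun s hs => (hp s hs).trans hl⟩
  refine absurd ?_ (hm (l - 1) (by omega))
  obtain ⟨s0, hs0, l0⟩ : ∃ s ∈ S, l ≤ X.d p (s • p) := by
    by_contra e
    refine hm (l - 1) (by omega) ⟨p, fun s hs => ?_⟩
    have : ¬ l ≤ X.d p (s • p) := fun a => e ⟨s, hs, a⟩
    omega
  obtain ⟨q, hq1, hq2⟩ := X.geod' p (s0 • p) (2 * δ + 1) (by omega)
  have key : ∀ s ∈ S, l ≤ X.d p (s • p) + (4 * δ + 2) → X.Bt δ p q (s • p) := fun s hs ls => by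
    have a := two iso hδ (h2 _ hs0) (h2 s hs) (h3 s hs _ hs0) (p := p) (c := 4 * δ + 2)
      (by omega) (by omega)
    have := X.tri (s0 • p) q p
    have := X.symm p q
    rcases hδ.l1 hq2 (s • p) with b | b <;> unfold Sp.Bt at * <;> omega
  refine ⟨q, fun s hs => ?_⟩
  have u := hp s hs
  by_cases ls : l ≤ X.d p (s • p) + (4 * δ + 2)
  · have a := key s hs ls
    have b := iso.bt s (key s⁻¹ (h1 s hs) (by rwa [iso.disp_inv]))
    rw [smul_inv_smul] at b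
    have e := iso s p q
    have := X.symm p (s • q)
    have := X.symm p (s • p)
    rcases hδ.l2 a b.symm with c | c <;> unfold Sp.Bt at * <;> omega
  · have := iso.disp_move s q p
    have := X.symm p q
    omega

end A_kou

theorem p_A_KOU :
    S_A_KOU := by
  intro R
  refine ⟨28 * R.δ + 5, fun S l hl h2 h3 => ?_⟩
  obtain ⟨p, hp⟩ := A_kou.core R.iso R.hyp' (S := {s | s ∈ S ∨ s⁻¹ ∈ S})
    (fun s hs => by simpa [or_comm] using hs)
    (fun s hs => hs.elim (h2 s) fun a => (h2 _ a).of_inv)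
    (fun s hs t ht => by
      rcases hs with a | a <;> rcases ht with b | b
      · exact (h3 s a t b).1
      · simpa [mul_assoc] using (MulAut.conj s).toMonoidHom.isOfFinOrder (h3 _ b s a).2
      · simpa using (h3 _ a t b).2
      · exact (show IsOfFinOrder (s * t)⁻¹ by rw [mul_inv_rev]; exact (h3 _ b _ a).1).of_inv)
    ⟨l, 1, fun s hs => by
      rw [R.d_one_smul]
      exact hs.elim (hl s) fun a => R.len_inv s ▸ hl _ a⟩
  by_cases e : R.len p ≤ l + R.δ + 1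
  · refine ⟨p, by omega, fun s hs => ?_⟩
    have := hp s (Or.inl hs)
    rw [R.d_conj] at this
    omega
  obtain ⟨q, hq1, hq2⟩ := R.sp.geod' 1 p (l + R.δ + 1) (by rw [R.d_one]; omega)
  refine ⟨q, by rw [← R.d_one]; omega, fun s hs => ?_⟩
  have := R.descent (T := l) (hp s (Or.inl hs)) (by rw [R.d_one_smul]; exact hl s hs) hq2
    (by omega)
  rw [R.d_conj] at this
  omega

end Pool.Agent.P.MP_dba3d2_lc


end

section

/-! Step A_LOX of the stability project. -/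

namespace Pool.Agent.P.MP_dba3d2_lc

open Filter MP_4b59b0_al

namespace A_lox

theorem cnt (R : HG0) {c : R.G} (hc : ¬ IsOfFinOrder c) (p : R.G) (n r : ℕ)
    (h : ∀ i < n, R.sp.d p (c ^ i • p) ≤ r) :
    n ≤ (2 * r + 4 * R.δ + 2) * (R.fin (6 * R.δ)).toFinset.card := by
  classical
  obtain ⟨k, hk⟩ := R.unbdd hc p (2 * (r + 2 * R.δ + 1))
  obtain ⟨γ, g0, g1, hγ⟩ := R.sp.exists_geo p (c ^ k • p)
  have d0 : ∀ t ≤ R.sp.d p (c ^ k • p), R.sp.d p (γ t) = t := fun t ht => by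
    have := hγ 0 t (Nat.zero_le _) ht
    rwa [g0] at this
  have b0 : ∀ t ≤ R.sp.d p (c ^ k • p), R.sp.Bt 0 p (γ t) (c ^ k • p) := fun t ht => by
    have := hγ.bt (Nat.zero_le t) ht le_rfl
    rwa [g0, g1] at this
  have e1 := d0 (r + 2 * R.δ + 1) (by omega)
  have e2 := b0 (r + 2 * R.δ + 1) (by omega)
  generalize γ (r + 2 * R.δ + 1) = m at e1 e2
  have e3 : r + 0 + 2 * R.δ < R.sp.d (c ^ k • p) m := by
    have := R.sp.tri p m (c ^ k • p)
    have := R.sp.symm m (c ^ k • p)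
    omega
  rw [← Finset.card_range (2 * r + 4 * R.δ + 2), ← Finset.card_product]
  refine (Finset.card_range n).symm.trans_le (Finset.card_le_card_of_injOn
    (fun i => (R.sp.d p (c ^ i • m), (c ^ i • m)⁻¹ * γ (R.sp.d p (c ^ i • m))))
    (fun i hi => ?_) fun i _ j _ e => ?_)
  · have h1 := h i (Finset.mem_range.1 hi)
    have h2 : R.sp.d (c ^ k • p) (c ^ i • c ^ k • p) ≤ r :=
      (R.iso.disp_comm (Commute.pow_pow_self c i k) p).trans_le h1
    have h3 := (Sp.stl R.iso R.hyp' h1 h2 e2 (by omega) e3).1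
    have h4 := Sp.qc R.iso R.hyp' h1 h2 e2
    have h5 := R.sp.tri p m (c ^ i • m)
    have h6 := d0 (R.sp.d p (c ^ i • m)) (by omega)
    have h7 := R.hyp'.l2 h3 (b0 (R.sp.d p (c ^ i • m)) (by omega))
    refine Finset.mem_coe.2 (Finset.mem_product.2 ⟨Finset.mem_range.2 (by dsimp only; omega), ?_⟩)
    rw [Set.Finite.mem_toFinset]
    show R.sp.d (c ^ i • m) (γ (R.sp.d p (c ^ i • m))) ≤ _
    omega
  · obtain ⟨a1, a2⟩ := Prod.mk.inj e
    rw [a1] at a2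
    exact injective_pow_iff_not_isOfFinOrder.2 hc
      (mul_right_cancel (inv_injective (mul_right_cancel a2)))

end A_lox

theorem p_A_LOX :
    S_A_LOX := by
  intro R
  refine ⟨2 * (R.fin (6 * R.δ)).toFinset.card, fun c hc p j => ?_⟩
  by_contra hj
  have key : ∀ a : ℕ, (a + 1) * j ≤ (2 * (a * R.sp.d p (c ^ j • p) + j * R.sp.d p (c • p)) +
      4 * R.δ + 2) * (R.fin (6 * R.δ)).toFinset.card := fun a =>
    A_lox.cnt R hc p _ _ fun i hi => by
      have h0 : 0 < j := by omega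
      have h1 := R.iso.disp_mul ((c ^ j) ^ (i / j)) (c ^ (i % j)) p
      rw [← pow_mul, ← pow_add, Nat.div_add_mod] at h1
      have h2 := R.iso.disp_pow (c ^ j) p (i / j)
      rw [← pow_mul] at h2
      have h3 := R.iso.disp_pow c p (i % j)
      have h4 := Nat.mul_le_mul_right (R.sp.d p (c ^ j • p))
        (Nat.lt_succ_iff.1 ((Nat.div_lt_iff_lt_mul h0).2 hi))
      have h5 := Nat.mul_le_mul_right (R.sp.d p (c • p)) (Nat.mod_lt i h0).le
      omega
  generalize (R.fin (6 * R.δ)).toFinset.card = b at hj key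
  generalize R.sp.d p (c ^ j • p) = ρ at hj key
  generalize j * R.sp.d p (c • p) = B at key
  have h1 := key ((2 * B + 4 * R.δ + 2) * b)
  have h2 := Nat.mul_le_mul_left ((2 * B + 4 * R.δ + 2) * b + 1) (Nat.succ_le_of_lt (not_le.1 hj))
  nlinarith [Nat.zero_le (b * ρ)]

end Pool.Agent.P.MP_dba3d2_lc


end

section

/-! Step A_CH of the stability project. -/

namespace Pool.Agent.P.MP_dba3d2_lc

open Filter MP_4b59b0_al

namespace A_ch

variable {V : Type} {X : Sp V} {H : Type} [Group H] [MulAction H V] {δ : ℕ}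

theorem ray (iso : X.Iso H) (hδ : X.Hyp δ) {g : H} {m q : V}
    (h : X.Bt (2 * δ) (g⁻¹ • m) m (g • m)) (hl : 13 * δ < X.d m (g • m))
    (hq : X.Bt δ q m (g • m)) (n : ℕ) : X.Bt (2 * δ) q m (g ^ (n + 1) • m) := by
  cases n with
  | zero => simpa using hq.mono (by omega)
  | succ n =>
    have h2 := iso.bt g (Sp.pw1 iso hδ h (by omega) n)
    rw [smul_inv_smul, smul_smul, ← pow_succ'] at h2
    exact (Geo0.glue hδ hq h2 (by omega)).1.mono (by omega)

theorem sup (iso : X.Iso H) (hδ : X.Hyp δ) {g : H} {m : V}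
    (h : X.Bt (2 * δ) (g⁻¹ • m) m (g • m)) (hl : 13 * δ < X.d m (g • m)) (i j : ℕ) :
    X.d m (g ^ i • m) + X.d m (g ^ j • m) ≤ X.d m (g ^ (i + j) • m) + 4 * δ := by
  rcases i with _ | i
  · simp [X.d_self]
  rcases j with _ | j
  · simp [X.d_self]
  have h1 := Sp.pw iso hδ h (by omega) i j
  unfold Sp.Bt at h1
  rw [inv_pow, iso.inv, iso.inv, smul_smul, ← pow_add] at h1
  omega

theorem main (iso : X.Iso H) (hδ : X.Hyp δ) {g : H}
    (hg : ∀ (n : ℕ) (x : V), 13 * δ + 1 < X.d x (g ^ (n + 1) • x)) (p : V) (i j : ℕ) :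
    X.d p (g ^ i • p) + X.d p (g ^ j • p) ≤ X.d p (g ^ (i + j) • p) + X.d p (g • p) := by
  rcases i with _ | i
  · simp [X.d_self]
  rcases j with _ | j
  · simp [X.d_self]
  obtain ⟨m, h1, h2⟩ := X.exists_mid p (g • p)
  have hl := hg 0 m
  rw [zero_add, pow_one] at hl
  obtain ⟨m0, m1, m2⟩ := Sp.mid iso hδ h1 h2 (by omega)
  have e : ∀ n : ℕ, X.d (g ^ n • m) (g ^ (n + 1) • p) = X.d m (g • p) := fun n => by
    rw [pow_succ, mul_smul, iso]
  have up : ∀ n : ℕ, X.d p (g ^ (n + 1) • p) ≤ X.d p (g • p) + X.d m (g ^ n • m) := fun n => by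
    have := X.tri p m (g ^ (n + 1) • p)
    have := X.tri m (g ^ n • m) (g ^ (n + 1) • p)
    have := e n
    unfold Sp.Bt at h1
    omega
  have a1 := ray iso hδ m0 (by omega) m1 (i + j)
  have a2 := iso.bt (g ^ (i + j + 1)) (ray iso hδ (g := g⁻¹) (by rw [inv_inv]; exact m0.symm)
    (by rw [iso.disp_inv]; omega) m2 (i + j))
  rw [inv_pow, smul_inv_smul, smul_smul, ← pow_succ] at a2
  have a3 := hg (i + j) m
  have a4 := (Geo0.glue hδ a1 a2.symm (by omega)).2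
  have a5 := sup iso hδ m0 (by omega) i j
  have a6 := sup iso hδ m0 (by omega) (i + j) 1
  rw [pow_one] at a6
  have := up i
  have := up j
  have := e (i + j + 1)
  have := X.tri p m (g • p)
  rw [show i + 1 + (j + 1) = i + j + 1 + 1 by omega]
  unfold Sp.Bt at a1 a4
  omega

end A_ch

theorem p_A_CH (hA_LOX : S_A_LOX) :
    S_A_CH := by
  intro R
  obtain ⟨N, hN⟩ := hA_LOX R
  refine ⟨(N + 1) * (13 * (2 * R.δ) + 2), by positivity, fun c hc p i j =>
    A_ch.main R.iso R.hyp' (fun n x => ?_) p i j⟩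
  have h := hN c hc x ((N + 1) * (13 * (2 * R.δ) + 2) * (n + 1))
  rw [pow_mul] at h
  by_contra e
  have h1 := Nat.mul_le_mul_left N (not_lt.1 e)
  have h2 : (N + 1) * (13 * (2 * R.δ) + 2) ≤ (N + 1) * (13 * (2 * R.δ) + 2) * (n + 1) :=
    Nat.le_mul_of_pos_right _ n.succ_pos
  have h3 : N * (13 * (2 * R.δ) + 1) < (N + 1) * (13 * (2 * R.δ) + 2) :=
    Nat.mul_lt_mul_of_lt_of_le (by omega) (by omega) (by omega)
  omega

end Pool.Agent.P.MP_dba3d2_lc


end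

section

/-! Step A_AX1 of the stability project. -/

namespace Pool.Agent.P.MP_dba3d2_lc

open Filter MP_4b59b0_al

namespace A_ax1

variable {V : Type} {X : Sp V} {H : Type} [Group H] [MulAction H V]

/-- the stable translation length -/
noncomputable def tau (X : Sp V) (c : H) : ℝ :=
  ⨅ s : V × ℕ, (X.d s.1 (c ^ (s.2 + 1) • s.1) : ℝ) / (s.2 + 1)

theorem le_tau [Nonempty V] {c : H} {t : ℝ}
    (h : ∀ (q : V) (k : ℕ), t * (k + 1) ≤ X.d q (c ^ (k + 1) • q)) : t ≤ tau X c :=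
  le_ciInf fun s => (le_div_iff₀ (by positivity)).2 (h s.1 s.2)

theorem tau_le (c : H) (q : V) (k : ℕ) : (k : ℝ) * tau X c ≤ X.d q (c ^ k • q) := by
  cases k with
  | zero => simp
  | succ k =>
    have h : tau X c ≤ (X.d q (c ^ (k + 1) • q) : ℝ) / (k + 1) :=
      ciInf_le (f := fun s : V × ℕ => (X.d s.1 (c ^ (s.2 + 1) • s.1) : ℝ) / (s.2 + 1))
        ⟨0, by rintro _ ⟨s, rfl⟩; positivity⟩ (q, k)
    rw [le_div_iff₀ (by positivity)] at h
    push_cast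
    linarith

theorem zp (iso : X.Iso H) (c : H) (q : V) (k : ℤ) :
    X.d q (c ^ k • q) = X.d q (c ^ k.natAbs • q) := by
  rcases Int.natAbs_eq k with h | h
  · rw [← zpow_natCast, ← h]
  · rw [← iso.disp_inv (c ^ k.natAbs), ← zpow_natCast, ← zpow_neg, ← h]

theorem sup {a : ℕ → ℕ} {D : ℕ} (h : ∀ i j, a i + a j ≤ a (i + j) + D) (n k : ℕ) :
    k * a n ≤ a (k * n) + k * D := by
  induction k with
  | zero => simp
  | succ k ih =>
    have := h (k * n) n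
    rw [Nat.succ_mul, Nat.succ_mul, Nat.succ_mul]
    omega

theorem lim {a b e : ℕ} (h : ∀ k, k * a ≤ k * b + e) : a ≤ b := by
  by_contra hc
  have h1 := h (e + 1)
  have h2 : (e + 1) * (b + 1) ≤ (e + 1) * a := Nat.mul_le_mul_left _ (by omega)
  rw [Nat.mul_succ] at h2
  omega

theorem up [Nonempty V] (iso : X.Iso H) {c : H} {M : ℕ} (hM : 0 < M) {p : V}
    (h : ∀ i j : ℕ, X.d p ((c ^ M) ^ i • p) + X.d p ((c ^ M) ^ j • p) ≤
      X.d p ((c ^ M) ^ (i + j) • p) + X.d p (c ^ M • p)) (n : ℕ) :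
    (X.d p ((c ^ M) ^ n • p) : ℝ) ≤ X.d p (c ^ M • p) + (M * n : ℕ) * tau X c := by
  rcases Nat.eq_zero_or_pos n with rfl | hn
  · simp [X.d_self]
  have h0 : (0 : ℝ) < (M * n : ℕ) := by exact_mod_cast Nat.mul_pos hM hn
  have key : ∀ (q : V) (j : ℕ), j * X.d p ((c ^ M) ^ n • p) ≤
      M * n * X.d q (c ^ j • q) + j * X.d p (c ^ M • p) := fun q j => lim (e := 2 * X.d p q) fun k => by
    have h1 := sup (a := fun i => X.d p ((c ^ M) ^ i • p)) h n (k * j)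
    have h2 := iso.disp_move ((c ^ M) ^ (k * j * n)) p q
    have h3 := iso.disp_pow (c ^ j) q (k * (M * n))
    have e : (c ^ j) ^ (k * (M * n)) = (c ^ M) ^ (k * j * n) := by
      rw [← pow_mul, ← pow_mul]
      congr 1
      ring
    rw [e] at h3
    simp only [mul_add, ← mul_assoc] at *
    omega
  have h1 : ((X.d p ((c ^ M) ^ n • p) : ℝ) - X.d p (c ^ M • p)) / (M * n : ℕ) ≤ tau X c :=
    le_tau fun q k => by
      have h2 : (((k + 1) * X.d p ((c ^ M) ^ n • p) : ℕ) : ℝ) ≤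
          (M * n * X.d q (c ^ (k + 1) • q) + (k + 1) * X.d p (c ^ M • p) : ℕ) := by
        exact_mod_cast key q (k + 1)
      rw [div_mul_eq_mul_div, div_le_iff₀ h0]
      push_cast at h2 ⊢
      linarith
  rw [div_le_iff₀ h0] at h1
  linarith

end A_ax1

open A_ax1 in
theorem p_A_AX1 (hA_LOX : S_A_LOX) (hA_CH : S_A_CH) :
    S_A_AX1 := by
  intro R
  obtain ⟨N, hN⟩ := hA_LOX R
  obtain ⟨M, hM, hC⟩ := hA_CH R
  refine ⟨2 * M + (16 * R.δ + 2) * (N + 1), fun c hc => ⟨tau R.sp c, ?_⟩⟩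
  have t0 : 0 ≤ tau R.sp c := le_tau fun q k => by simp
  have hN0 : (0 : ℝ) < N := by
    have := hN c hc 1 1
    exact_mod_cast Nat.pos_of_ne_zero fun h => by simp [h] at this
  have t1 : 1 ≤ N * tau R.sp c := by
    have : (N : ℝ)⁻¹ ≤ tau R.sp c := le_tau fun q k => by
      rw [inv_mul_le_iff₀ hN0]
      exact_mod_cast hN c hc q (k + 1)
    rwa [inv_le_iff_one_le_mul₀' hN0] at this
  have hd : (0 : ℝ) ≤ R.δ := Nat.cast_nonneg _
  have hm : (0 : ℝ) ≤ M * tau R.sp c := by positivity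
  have h1 : (16 * R.δ + 2 : ℝ) * 1 ≤ (16 * R.δ + 2) * (N * tau R.sp c) := by gcongr
  have h2 : (0 : ℝ) ≤ R.δ * tau R.sp c := by positivity
  refine ⟨?_, fun q k => ?_, ?_, fun p k => ?_⟩
  · push_cast
    nlinarith
  · rw [zp R.iso, ← Int.cast_abs, ← Nat.cast_natAbs]
    exact tau_le c q _
  · obtain ⟨m, m1, m2⟩ := R.sp.exists_mid 1 (c • 1)
    refine ⟨m, ?_⟩
    have h3 : (R.sp.d m (c • m) : ℝ) ≤ tau R.sp c + 16 * R.δ + 1 := by
      by_cases hl : 8 * R.δ + 1 < R.sp.d m (c • m)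
      · have : (R.sp.d m (c • m) : ℝ) - 16 * R.δ ≤ tau R.sp c := le_tau fun q k => by
          have h4 : (((k + 1) * R.sp.d m (c • m) : ℕ) : ℝ) ≤ (R.sp.d q (c ^ (k + 1) • q) +
              (k + 1) * (3 * (2 * R.δ)) + 5 * (2 * R.δ) : ℕ) := by
            exact_mod_cast Sp.pow_lower R.iso R.hyp' (Sp.mid R.iso R.hyp' m1 m2 (by omega)).1
              (by omega) (k + 1) q
          have h5 : (0 : ℝ) ≤ k * R.δ := by positivity
          push_cast at h4
          linarith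
        linarith
      · have : (R.sp.d m (c • m) : ℝ) ≤ (8 * R.δ + 1 : ℕ) := by exact_mod_cast not_lt.1 hl
        push_cast at this
        linarith
    push_cast
    nlinarith
  · rw [zp R.iso, ← Int.cast_abs, ← Nat.cast_natAbs]
    generalize k.natAbs = j
    have h3 := up R.iso hM (hC c hc p) (j / M)
    have h4 := R.iso.disp_mul ((c ^ M) ^ (j / M)) (c ^ (j % M)) p
    rw [← pow_mul, ← pow_add, Nat.div_add_mod, pow_mul] at h4
    have h5 := (R.iso.disp_pow c p (j % M)).trans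
      (Nat.mul_le_mul_right _ (Nat.mod_lt j hM).le)
    have h6 := R.iso.disp_pow c p M
    have h7 : ((M * (j / M) : ℕ) : ℝ) * tau R.sp c ≤ j * tau R.sp c :=
      mul_le_mul_of_nonneg_right (by exact_mod_cast Nat.mul_div_le j M) t0
    have h8 : (R.sp.d p (c ^ j • p) : ℝ) ≤
        R.sp.d p ((c ^ M) ^ (j / M) • p) + M * R.sp.d p (c • p) := by
      exact_mod_cast (by omega)
    have h9 : (R.sp.d p (c ^ M • p) : ℝ) ≤ M * R.sp.d p (c • p) := by exact_mod_cast h6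
    have h10 : (0 : ℝ) ≤ (16 * R.δ + 2) * (N + 1) * R.sp.d p (c • p) := by positivity
    push_cast at *
    linarith

end Pool.Agent.P.MP_dba3d2_lc


end

section

/-! Step A_AX2 of the stability project. -/

namespace Pool.Agent.P.MP_dba3d2_lc

open Filter MP_4b59b0_al

theorem p_A_AX2 (hA_LOX : S_A_LOX) (hA_CH : S_A_CH) :
    S_A_AX2 := by
  intro R
  obtain ⟨M, hM, h⟩ := hA_CH R
  refine ⟨2 * M + 6 * R.δ, fun c hc p q => ?_⟩
  have iso := R.iso
  have bt : ∀ (x : R.G) (i j : ℕ),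
      R.sp.Bt (R.sp.d x (c ^ M • x)) x ((c ^ M) ^ i • x) ((c ^ M) ^ (i + j) • x) := fun x i j => by
    have h1 := h c hc x i j
    have h2 := iso ((c ^ M) ^ i) x ((c ^ M) ^ j • x)
    rw [← mul_smul, ← pow_add] at h2
    unfold Sp.Bt
    omega
  obtain ⟨i, hi⟩ := R.unbdd (Geo0.pow_inf hc hM.ne') q
    (R.sp.d q p + R.sp.d q (c ^ M • q) + 2 * R.δ)
  have b1 : R.sp.Bt (R.sp.d q (c ^ M • q) + 2 * (2 * R.δ)) p ((c ^ M) ^ i • q)
      ((c ^ M) ^ (i + i) • p) :=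
    (R.hyp'.bc (bt q i i) le_rfl (iso _ q p).le hi (by
      rw [pow_add, mul_smul, iso, R.sp.symm ((c ^ M) ^ i • q)]
      exact hi)).2
  obtain ⟨t, ht⟩ : ∃ t : ℕ, R.sp.d ((c ^ M) ^ i • q) ((c ^ M) ^ t • p) ≤
      2 * R.sp.d p (c ^ M • p) + R.sp.d q (c ^ M • q) + 6 * R.δ := by
    by_cases h1 : R.sp.d p ((c ^ M) ^ (i + i) • p) ≤ R.sp.d p ((c ^ M) ^ i • q)
    · refine ⟨i + i, ?_⟩
      unfold Sp.Bt at b1
      omega
    obtain ⟨t, t1, t2, t3⟩ := Sp.ivt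
      (fun t => R.sp.d p ((c ^ M) ^ t • p) ≤ R.sp.d p ((c ^ M) ^ i • q)) (i + i)
      (by rw [pow_zero, one_smul, R.sp.d_self]; exact Nat.zero_le _) h1
    have b2 := bt p t (i + i - t)
    rw [Nat.add_sub_cancel' t1.le] at b2
    have b3 := R.hyp'.l2 b2 b1
    have b4 := iso.disp_mul ((c ^ M) ^ t) (c ^ M) p
    rw [← pow_succ] at b4
    have b5 := R.sp.symm ((c ^ M) ^ i • q) ((c ^ M) ^ t • p)
    exact ⟨t, by omega⟩
  refine ⟨M * (t - i : ℤ), ?_⟩
  have e : c ^ (M * (t - i) : ℤ) = ((c ^ M) ^ i)⁻¹ * (c ^ M) ^ t := by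
    rw [zpow_mul, zpow_natCast, sub_eq_neg_add, zpow_add, zpow_neg, zpow_natCast, zpow_natCast]
  rw [e, mul_smul, iso.inv']
  have d1 := iso.disp_pow c p M
  have d2 := iso.disp_pow c q M
  have d3 := R.one_le_d (g := c) (fun e => hc (e ▸ IsOfFinOrder.one)) p
  nlinarith [Nat.zero_le (M * R.sp.d q (c • q)), Nat.zero_le (R.δ * R.sp.d q (c • q)),
    Nat.mul_le_mul_left R.δ d3]

end Pool.Agent.P.MP_dba3d2_lc


end

section

/-! Step A_PSI of the stability project. -/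

namespace Pool.Agent.P.MP_dba3d2_lc

open Filter MP_4b59b0_al

namespace A_psi

theorem tors_int (x : Multiplicative ℤ) (h : IsOfFinOrder x) : x = 1 := by
  obtain ⟨n, h0, hn⟩ := isOfFinOrder_iff_pow_eq_one.1 h
  have h1 : (n : ℤ) * x.toAdd = 0 := by
    have := congrArg Multiplicative.toAdd hn
    rwa [toAdd_pow, toAdd_one, nsmul_eq_mul] at this
  have h2 : x.toAdd = 0 := by
    rcases mul_eq_zero.1 h1 with h | h
    · omega
    · exact h
  exact Multiplicative.toAdd.injective h2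

theorem abs_psi {Z : Type} [Group Z] (z : Z) (hz : ¬ IsOfFinOrder z) (hc : ∀ f, Commute f z)
    [hf : Finite (Z ⧸ Subgroup.zpowers z)] : {f : Z | IsOfFinOrder f}.Finite ∧
      ∃ ψ : Z →* Multiplicative ℤ, ∀ f, ψ f = 1 ↔ IsOfFinOrder f := by
  have hi : Function.Injective (zpowersHom Z z) := fun a b h =>
    Multiplicative.toAdd.injective (injective_zpow_iff_not_isOfFinOrder.2 hz h)
  have : (Subgroup.zpowers z).FiniteIndex := Subgroup.finiteIndex_of_finite_quotient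
  let e : Subgroup.zpowers z ≃* Multiplicative ℤ := (MonoidHom.ofInjective hi).symm
  have key : ∀ (g : Z) (k : ℕ) (g₀ : Z), g₀⁻¹ * g ^ k * g₀ ∈ Subgroup.zpowers z →
      g₀⁻¹ * g ^ k * g₀ = g ^ k := by
    intro g k g₀ ⟨m, hm⟩
    have h1 : Commute g₀ (g₀⁻¹ * g ^ k * g₀) := by
      rw [← hm]; exact (hc g₀).zpow_right m
    have h2 := h1.eq
    rw [← mul_assoc, ← mul_assoc, mul_inv_cancel, one_mul] at h2
    exact (mul_right_cancel h2).symm
  have hψ : ∀ f, MonoidHom.transfer e.toMonoidHom f = 1 ↔ IsOfFinOrder f := by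
    intro f
    constructor
    · intro h
      rw [MonoidHom.transfer_eq_pow _ f (key f)] at h
      have h1 := e.injective (h.trans (map_one e).symm)
      exact isOfFinOrder_iff_pow_eq_one.2 ⟨_, Nat.pos_of_ne_zero Subgroup.FiniteIndex.index_ne_zero,
        congrArg Subtype.val h1⟩
    · intro h
      exact tors_int _ (MonoidHom.isOfFinOrder _ h)
  refine ⟨?_, _, hψ⟩
  refine Set.Finite.of_finite_image (f := fun f => (f : Z ⧸ Subgroup.zpowers z)) (Set.toFinite _) ?_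
  intro a ha b hb hab
  obtain ⟨m, hm⟩ := QuotientGroup.eq.1 hab
  have h1 : IsOfFinOrder (z ^ m) := by
    rw [← hψ]
    have : z ^ m = a⁻¹ * b := hm
    rw [this, map_mul, map_inv, (hψ a).2 ha, (hψ b).2 hb, inv_one, one_mul]
  have h2 : m = 0 := by
    by_contra h0
    obtain ⟨n, hn, e1⟩ := isOfFinOrder_iff_pow_eq_one.1 h1
    rw [← zpow_natCast, ← zpow_mul] at e1
    exact hz (isOfFinOrder_iff_zpow_eq_one.2 ⟨_, mul_ne_zero h0 (by omega), e1⟩)
  have h3 : a⁻¹ * b = 1 := by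
    have : z ^ m = a⁻¹ * b := hm
    rw [← this, h2, zpow_zero]
  exact inv_mul_eq_one.1 h3

end A_psi

theorem p_A_PSI (hA_AX2 : S_A_AX2) :
    S_A_PSI := by
  intro R z hz
  obtain ⟨C, hC⟩ := hA_AX2 R
  let z' : Subgroup.centralizer {z} :=
    ⟨z, Subgroup.mem_centralizer_singleton_iff.2 rfl⟩
  have hz' : ¬ IsOfFinOrder z' := fun h => hz (Submonoid.isOfFinOrder_coe.2 h)
  have hcz : ∀ f : Subgroup.centralizer {z}, Commute (f : R.G) z := fun f =>
    Subgroup.mem_centralizer_singleton_iff.1 f.2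
  have hc : ∀ f : Subgroup.centralizer {z}, Commute f z' := fun f => Subtype.ext (hcz f).eq
  have hB : {f : Subgroup.centralizer {z} | R.len f ≤ C * (R.len z + R.len z)}.Finite :=
    Set.Finite.preimage Subtype.val_injective.injOn (R.fin _)
  have hf : Finite (Subgroup.centralizer {z} ⧸ Subgroup.zpowers z') := by
    refine Set.finite_univ_iff.1 ((hB.image (QuotientGroup.mk (s := Subgroup.zpowers z'))).subset ?_)
    intro q _
    obtain ⟨f, rfl⟩ := QuotientGroup.mk_surjective q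
    obtain ⟨k, hk⟩ := hC z hz 1 (f : R.G)⁻¹
    rw [R.d_one_smul, R.d_conj, R.d_def, inv_inv, smul_eq_mul, mul_one, (hcz f).eq,
      mul_inv_cancel_right] at hk
    refine ⟨f * z' ^ k, hk, ?_⟩
    exact QuotientGroup.mk_mul_of_mem f ⟨k, rfl⟩
  obtain ⟨h1, ψ, h2⟩ := A_psi.abs_psi z' hz' hc
  refine ⟨(h1.image Subtype.val).subset ?_, ψ, fun f => (h2 f).trans
    Submonoid.isOfFinOrder_coe.symm⟩
  rintro f ⟨h3, h4⟩
  exact ⟨⟨f, Subgroup.mem_centralizer_singleton_iff.2 h3.eq⟩, Submonoid.isOfFinOrder_coe.1 h4, rfl⟩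

end Pool.Agent.P.MP_dba3d2_lc


end

section

/-! Step HG of the stability project. -/

namespace Pool.Agent.P.MP_dba3d2_lc

open Filter

namespace Hg

open scoped Nat

theorem card_bound (h : S_A_KOU) (R : HG0) :
    ∃ N : ℕ, ∀ K : Subgroup R.G, Finite K → Nat.card K ≤ N := by
  obtain ⟨C, hC⟩ := h R
  have := (R.fin C).to_subtype
  refine ⟨Nat.card {g | R.len g ≤ C}, fun K hK => ?_⟩
  have fo : ∀ k ∈ K, IsOfFinOrder k := fun k hk =>
    K.subtype.isOfFinOrder (isOfFinOrder_of_finite (⟨k, hk⟩ : K))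
  obtain ⟨l, hl⟩ := ((Set.toFinite (K : Set R.G)).image R.len).bddAbove
  obtain ⟨p, -, hp⟩ := hC K l (fun s hs => hl ⟨s, hs, rfl⟩) fo fun s hs t ht =>
    ⟨fo _ (mul_mem hs ht), fo _ (mul_mem (inv_mem hs) ht)⟩
  refine Nat.card_le_card_of_injective
    (fun k : K => (⟨p⁻¹ * k * p, hp k k.2⟩ : {g | R.len g ≤ C})) fun a b e => ?_
  exact Subtype.ext (mul_left_cancel (mul_right_cancel (congrArg Subtype.val e)))

theorem key {Z A : Type} [Group Z] [Group A] (ψ : Z →* A) [Finite ψ.ker] {N : ℕ}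
    (hN : Nat.card ψ.ker ≤ N) {f f' : Z} (h : ψ f = ψ f') : f ^ (N ! * N !) = f' ^ (N ! * N !) := by
  let σ : Z →* Equiv.Perm ψ.ker := (MulAut.toPerm ψ.ker).comp MulAut.conjNormal
  have h1 : σ (f ^ N !) = 1 := by
    obtain ⟨c, hc⟩ := Nat.factorial_dvd_factorial hN
    rw [map_pow, hc, pow_mul, ← Nat.card_perm, pow_card_eq_one', one_pow]
  have ht : (f ^ N !)⁻¹ * f' ^ N ! ∈ ψ.ker := by
    rw [MonoidHom.mem_ker, map_mul, map_inv, map_pow, map_pow, h, inv_mul_cancel]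
  have h2 : f ^ N ! * ((f ^ N !)⁻¹ * f' ^ N !) * (f ^ N !)⁻¹ = (f ^ N !)⁻¹ * f' ^ N ! :=
    congrArg Subtype.val (Equiv.congr_fun h1 ⟨_, ht⟩)
  have h3 : Commute (f ^ N !) ((f ^ N !)⁻¹ * f' ^ N !) := mul_inv_eq_iff_eq_mul.1 h2
  have h4 : ((f ^ N !)⁻¹ * f' ^ N !) ^ N ! = 1 := by
    obtain ⟨c, hc⟩ := Nat.dvd_factorial Nat.card_pos hN
    have : ∀ t : ψ.ker, t ^ N ! = 1 := fun t => by
      rw [hc, pow_mul, pow_card_eq_one', one_pow]
    exact congrArg Subtype.val (this ⟨_, ht⟩)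
  have h5 := h3.mul_pow (N !)
  rw [h4, mul_one, mul_inv_cancel_left] at h5
  rw [pow_mul, pow_mul, h5]

theorem key2 (hP : S_A_PSI) (R : HG0) {N : ℕ}
    (hN : ∀ K : Subgroup R.G, Finite K → Nat.card K ≤ N) {z : R.G} (hz : ¬ IsOfFinOrder z) :
    ∃ ψ : Subgroup.centralizer {z} →* Multiplicative ℤ, ∀ f f', ψ f = ψ f' →
      (f : R.G) ^ (N ! * N !) = (f' : R.G) ^ (N ! * N !) := by
  obtain ⟨hf, ψ, hψ⟩ := hP R z hz
  have h1 : Finite (ψ.ker.map (Subgroup.centralizer {z}).subtype) := by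
    refine Set.Finite.to_subtype (hf.subset ?_)
    rintro _ ⟨f, hf, rfl⟩
    exact ⟨Subgroup.mem_centralizer_singleton_iff.1 f.2, (hψ f).1 hf⟩
  have e := (ψ.ker.equivMapOfInjective _ (Subgroup.centralizer {z}).subtype_injective).toEquiv
  have := Finite.of_equiv _ e.symm
  refine ⟨ψ, fun f f' h => ?_⟩
  exact congrArg Subtype.val (key ψ ((Nat.card_congr e).trans_le (hN _ h1)) h)

theorem abs_le (h : S_A_AX1) (R : HG0) {c g : R.G} (hc : ¬ IsOfFinOrder c) {m n : ℤ}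
    (e : g * c ^ m * g⁻¹ = c ^ n) : |n| ≤ |m| := by
  obtain ⟨C, hC⟩ := h R
  obtain ⟨τ, h0, h1, -, h2⟩ := hC c hc
  have τ0 : 0 < τ := by
    by_contra h
    nlinarith [mul_nonneg (Nat.cast_nonneg (α := ℝ) C) (neg_nonneg.2 (not_lt.1 h))]
  by_contra hn
  have h3 : (|m| : ℝ) + 1 ≤ |(n : ℝ)| := by exact_mod_cast not_le.1 hn
  obtain ⟨k, hk⟩ := exists_nat_gt ((C : ℝ) * R.sp.d g⁻¹ (c • g⁻¹) / τ)
  rw [div_lt_iff₀ τ0] at hk
  have a1 := h1 1 (n * k)
  have a2 := h2 g⁻¹ (m * k)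
  rw [R.d_one_smul, zpow_mul, ← e, conj_zpow, ← zpow_mul] at a1
  rw [R.d_conj, inv_inv] at a2
  push_cast at a1 a2
  rw [abs_mul, Nat.abs_cast] at a1 a2
  nlinarith [mul_le_mul_of_nonneg_right h3 (mul_nonneg (Nat.cast_nonneg (α := ℝ) k) τ0.le)]

end Hg

open Hg Nat in
theorem p_HG (hA_KOU : S_A_KOU) (hA_AX1 : S_A_AX1) (hA_PSI : S_A_PSI) :
    S_HG := by
  intro R
  obtain ⟨N, hN⟩ := card_bound hA_KOU R
  have root : ∀ (c d : R.G) (m : ℤ), m ≠ 0 → ¬ IsOfFinOrder d → c ^ m = d ^ m →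
      c ^ (N ! * N !) = d ^ (N ! * N !) := by
    intro c d m hm hd e
    obtain ⟨ψ, hψ⟩ := key2 hA_PSI R hN (Geo0.zpow_inf hd hm)
    have h1 : c ∈ Subgroup.centralizer {d ^ m} :=
      Subgroup.mem_centralizer_singleton_iff.2 (e ▸ Commute.self_zpow c m)
    have h2 : d ∈ Subgroup.centralizer {d ^ m} :=
      Subgroup.mem_centralizer_singleton_iff.2 (Commute.self_zpow d m)
    refine hψ ⟨c, h1⟩ ⟨d, h2⟩ (zpow_left_injective hm ?_)
    simp only [← map_zpow]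
    exact congrArg ψ (Subtype.ext e)
  refine ⟨N ! * N !, by positivity, fun g hg => ?_, fun K hK => ?_, fun c g hc m n hm e => ?_,
    fun c f g hc hf hg => ?_⟩
  · have h1 := hN (Subgroup.zpowers g) (finite_zpowers.2 hg)
    rw [Nat.card_zpowers] at h1
    exact orderOf_dvd_iff_pow_eq_one.1
      ((Nat.dvd_factorial hg.orderOf_pos h1).trans (dvd_mul_right _ _))
  · exact (hN K hK).trans ((Nat.self_le_factorial N).trans
      (Nat.le_mul_of_pos_right _ (Nat.factorial_pos N)))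
  · have h1 := abs_le hA_AX1 R hc e
    have h2 := abs_le hA_AX1 R hc (g := g⁻¹) (m := n) (n := m) (by rw [← e]; group)
    rw [← conj_zpow] at e
    rw [← conj_pow, ← inv_pow]
    rcases abs_eq_abs.1 (le_antisymm h1 h2) with rfl | rfl
    · exact Or.inl (root _ _ _ hm hc e)
    · exact Or.inr (root _ _ _ hm (by rwa [isOfFinOrder_inv_iff]) (by rw [e, zpow_neg, inv_zpow]))
  · obtain ⟨ψ, hψ⟩ := key2 hA_PSI R hN
      (Geo0.pow_inf hc (show N ! * N ! ≠ 0 by positivity))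
    have h1 := Subgroup.mem_centralizer_singleton_iff.2 hf
    have h2 := Subgroup.mem_centralizer_singleton_iff.2 hg
    have h3 := hψ (⟨g, h2⟩ * ⟨f, h1⟩ * ⟨g, h2⟩⁻¹) ⟨f, h1⟩ (by
      rw [map_mul, map_mul, map_inv, mul_inv_cancel_comm])
    have h4 : g * f ^ (N ! * N !) * g⁻¹ = f ^ (N ! * N !) := conj_pow.symm.trans h3
    exact (mul_inv_eq_iff_eq_mul.1 h4).symm

end Pool.Agent.P.MP_dba3d2_lc


end

section

/-! Step A_EL0 of the stability project. -/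

namespace Pool.Agent.P.MP_dba3d2_lc

open Filter MP_4b59b0_al

theorem p_A_EL0 (hA_PSI : S_A_PSI) :
    S_A_EL0 := by
  intro Γ c hc
  have e0 := Γ.good.pos.ne'
  have hz := Geo0.pow_inf hc e0
  obtain ⟨-, ψ, hψ⟩ := hA_PSI Γ.toHG0 (c ^ Γ.e) hz
  have m : ∀ {f : Γ.G}, Commute f (c ^ Γ.e) → f ∈ Subgroup.centralizer {c ^ Γ.e} :=
    fun h => Subgroup.mem_centralizer_singleton_iff.2 h
  refine ⟨?_, fun f g hf hg => ⟨?_, fun h1 h2 => ?_⟩, fun g hg => ?_⟩
  · obtain ⟨t, ht⟩ := (Subgroup.isCyclic_iff_exists_zpowers_eq_top ψ.range).1 inferInstance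
    obtain ⟨c0, h0⟩ : t ∈ ψ.range := ht ▸ Subgroup.mem_zpowers t
    have r : ∀ f, ∃ k : ℤ, t ^ k = ψ f := fun f =>
      Subgroup.mem_zpowers_iff.1 (ht ▸ (⟨f, rfl⟩ : ψ f ∈ ψ.range))
    have h1 : ¬ IsOfFinOrder (c0 : Γ.G) := fun h => by
      obtain ⟨k, hk⟩ := r ⟨_, m (Commute.refl _)⟩
      rw [← h0, (hψ c0).2 h, one_zpow] at hk
      exact hz ((hψ _).1 hk.symm)
    have h2 : Commute (c0 : Γ.G) (c ^ Γ.e) := Subgroup.mem_centralizer_singleton_iff.1 c0.2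
    refine ⟨c0, ⟨h1, fun f hf => ?_⟩, h2⟩
    have h3 := m ((Geo0.ep0 hc h1 h2 f).1 hf)
    obtain ⟨k, hk⟩ := r ⟨f, h3⟩
    exact ⟨k, (hψ (⟨f, h3⟩⁻¹ * c0 ^ k)).1 (by
      rw [map_mul, map_inv, map_zpow, h0, hk, inv_mul_cancel])⟩
  · exact (hψ (⟨f, m hf⟩ * ⟨g, m hg⟩ * ⟨f, m hf⟩⁻¹ * ⟨g, m hg⟩⁻¹)).1 (by
      rw [map_mul, map_mul, map_mul, map_inv, map_inv, mul_right_comm (ψ ⟨f, m hf⟩),
        mul_inv_cancel, one_mul, mul_inv_cancel])
  · exact (hψ (⟨f, m hf⟩ * ⟨g, m hg⟩)).1 (by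
      rw [map_mul, (hψ ⟨f, m hf⟩).2 h1, (hψ ⟨g, m hg⟩).2 h2, one_mul])
  · have h0 := m (Commute.self_pow c Γ.e)
    obtain ⟨a, ha⟩ : ∃ a, a = (ψ ⟨c, h0⟩).toAdd := ⟨_, rfl⟩
    obtain ⟨b, hb⟩ : ∃ b, b = (ψ ⟨_, m hg⟩).toAdd := ⟨_, rfl⟩
    have a0 : a ≠ 0 := fun h => hc ((hψ ⟨c, h0⟩).1 (toAdd_eq_zero.1 (ha ▸ h)))
    have t : IsOfFinOrder (((g * c * g⁻¹) ^ ((Γ.e : ℤ) * a))⁻¹ * (c ^ Γ.e) ^ b) :=
      (hψ ((⟨_, m hg⟩ ^ ((Γ.e : ℤ) * a))⁻¹ * (⟨c, h0⟩ ^ Γ.e) ^ b)).1 (by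
        apply toAdd_eq_zero.1
        rw [map_mul, map_inv, map_zpow, map_zpow, map_pow, toAdd_mul, toAdd_inv, toAdd_zpow,
          toAdd_zpow, toAdd_pow, ← ha, ← hb]
        simp only [smul_eq_mul, nsmul_eq_mul]; ring)
    have s := Γ.good.tors _ t
    rw [(hg.zpow_zpow _ _).inv_left.mul_pow, inv_pow, inv_mul_eq_one, ← zpow_natCast,
      ← zpow_mul, conj_zpow, ← zpow_natCast c, ← zpow_natCast, ← zpow_mul, ← zpow_mul] at s
    have e1 : (Γ.e : ℤ) ≠ 0 := by exact_mod_cast e0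
    exact Γ.good.norm c g hc _ _ (mul_ne_zero (mul_ne_zero e1 a0) e1) s

end Pool.Agent.P.MP_dba3d2_lc


end

section

/-! Step ELEM of the stability project. -/

namespace Pool.Agent.P.MP_dba3d2_lc

open Filter

namespace Elem

open Bas2A

variable {Γ : HG} {a : Amb} {c f g : MM Γ a}

theorem mem : f ∈ Ep c ↔ Commute f (c ^ Γ.e) := Subgroup.mem_centralizer_singleton_iff

theorem self (c : MM Γ a) : c ∈ Ep c := mem.2 (Commute.self_pow _ _)

theorem ninf {c : a.I → Γ.G} (h : ¬ IsOfFinOrder (Germ.ofFun c : MM Γ a)) :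
    ∀ᶠ i in (a.V : Filter a.I), ¬ IsOfFinOrder (c i) := by
  rwa [fin_coe, ← Ultrafilter.eventually_not] at h

theorem comm (hc : ¬ IsOfFinOrder c) (hf : f ∈ Ep c) (hg : g ∈ Ep c) : Commute (f ^ Γ.e) g := by
  induction c using Germ.inductionOn with | h c =>
  induction f using Germ.inductionOn with | h f =>
  induction g using Germ.inductionOn with | h g =>
  refine Germ.coe_eq.2 ?_
  filter_upwards [ninf hc, (ep_coe c f).1 hf, (ep_coe c g).1 hg] with i h1 h2 h3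
  exact Γ.good.comm _ _ _ h1 h2 h3

theorem ep_eq (hc : ¬ IsOfFinOrder c) (hf : f ∈ Ep c) (hf' : ¬ IsOfFinOrder f) : Ep f = Ep c :=
  Subgroup.ext fun _ => ⟨fun hg => mem.2 (comm hf' (mem.2 (comm hc hf (self c)).symm) hg).symm,
    fun hg => mem.2 (comm hc hf hg).symm⟩

theorem prim (H : S_A_EL0) (hc : ¬ IsOfFinOrder c) : ∃ c0, Prim c0 ∧ Ep c0 = Ep c := by
  induction c using Germ.inductionOn with | h c =>
  obtain ⟨c0, h⟩ := ((ninf hc).mono fun i hi => (H Γ _ hi).1).choice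
  have h1 := (prim_coe c0).2 (h.mono fun i hi => hi.1)
  exact ⟨_, h1, ep_eq hc ((ep_coe c c0).2 (h.mono fun i hi => hi.2)) h1.1⟩

theorem tors (H : S_A_EL0) (hc : ¬ IsOfFinOrder c) (hf : f ∈ Ep c) (hg : g ∈ Ep c) :
    IsOfFinOrder (f * g * f⁻¹ * g⁻¹) ∧
      (IsOfFinOrder f → IsOfFinOrder g → IsOfFinOrder (f * g)) := by
  induction c using Germ.inductionOn with | h c =>
  induction f using Germ.inductionOn with | h f =>
  induction g using Germ.inductionOn with | h g =>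
  have h : ∀ᶠ i in (a.V : Filter a.I), IsOfFinOrder (f i * g i * (f i)⁻¹ * (g i)⁻¹) ∧
      (IsOfFinOrder (f i) → IsOfFinOrder (g i) → IsOfFinOrder (f i * g i)) := by
    filter_upwards [ninf hc, (ep_coe c f).1 hf, (ep_coe c g).1 hg] with i h1 h2 h3
    exact (H Γ _ h1).2.1 _ _ h2 h3
  refine ⟨(fin_coe fun i => f i * g i * (f i)⁻¹ * (g i)⁻¹).2 (h.mono fun i hi => hi.1),
    fun h1 h2 => (fin_coe fun i => f i * g i).2 ?_⟩
  filter_upwards [h, (fin_coe f).1 h1, (fin_coe g).1 h2] with i k1 k2 k3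
  exact k1.2 k2 k3

theorem ine (H : S_A_EL0) (hc : ¬ IsOfFinOrder c) (h : g * c * g⁻¹ ∈ Ep c) : InE c g := by
  induction c using Germ.inductionOn with | h c =>
  induction g using Germ.inductionOn with | h g =>
  have k : ∀ᶠ i in (a.V : Filter a.I), g i * c i ^ Γ.e * (g i)⁻¹ = c i ^ Γ.e ∨
      g i * c i ^ Γ.e * (g i)⁻¹ = (c i ^ Γ.e)⁻¹ := by
    filter_upwards [ninf hc, (ep_coe c fun i => g i * c i * (g i)⁻¹).1 h] with i h1 h2
    exact (H Γ _ h1).2.2 _ h2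
  exact (Ultrafilter.eventually_or.1 k).imp Germ.coe_eq.2 Germ.coe_eq.2

theorem cj (h : InE c g) : Cj g c c := by
  refine Subgroup.ext fun x => ?_
  rw [mem, mem, conj_pow]
  rcases h with h | h <;> rw [h]
  exact Commute.inv_right_iff

theorem inv (h : InE c g) (hg : g ∉ Ep c) : g * c ^ Γ.e * g⁻¹ = (c ^ Γ.e)⁻¹ :=
  h.resolve_left fun e => hg (mem.2 (mul_inv_eq_iff_eq_mul.1 e))

theorem fin (hc : ¬ IsOfFinOrder c) (h : InE c g) (hg : g ∉ Ep c) : IsOfFinOrder g := by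
  by_contra k
  have e := inv h hg
  have h2 : g ^ 2 ∈ Ep c := by
    refine mem.2 (mul_inv_eq_iff_eq_mul.1 ?_)
    have h3 : g ^ 2 * c ^ Γ.e * (g ^ 2)⁻¹ = g * (g * c ^ Γ.e * g⁻¹) * g⁻¹ := by
      simp only [pow_two, mul_inv_rev, mul_assoc]
    have h4 : g * (c ^ Γ.e)⁻¹ * g⁻¹ = (g * c ^ Γ.e * g⁻¹)⁻¹ := by
      simp only [mul_inv_rev, inv_inv, mul_assoc]
    rw [h3, e, h4, e, inv_inv]
  refine hg (ep_eq hc h2 (Geo0.pow_inf k two_ne_zero) ▸ mem.2 ?_)
  exact (Commute.self_pow g 2).pow_right _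

theorem ipw (hc : ¬ IsOfFinOrder c) (k : a.Z) (hk : k ≠ 0) : ¬ IsOfFinOrder (ipow c k) := by
  induction c using Germ.inductionOn with | h c =>
  induction k using Germ.inductionOn with | h k =>
  intro h
  refine hk (Germ.coe_eq.2 ?_)
  filter_upwards [ninf hc, (fin_coe fun i => c i ^ k i).1 h] with i h1 h2
  by_contra e
  exact Geo0.zpow_inf h1 e h2

theorem last (H : S_A_EL0) (hc : ¬ IsOfFinOrder c) (h : InE c g) (hg : g ∉ Ep c) (hf : f ∈ Ep c) :
    g * f ^ Γ.e * g⁻¹ = (f ^ Γ.e)⁻¹ := by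
  by_cases k : IsOfFinOrder f
  · have e : f ^ Γ.e = 1 := by
      induction f using Germ.inductionOn with | h f =>
      exact Germ.coe_eq.2 (((fin_coe f).1 k).mono fun i hi => Γ.good.tors _ hi)
    simp [e]
  · have e := ep_eq hc hf k
    have h1 : g * f * g⁻¹ ∈ Ep c := by
      have := (mem.1 hf).map (MulAut.conj g)
      rw [MulAut.conj_apply, MulAut.conj_apply, inv h hg] at this
      exact mem.2 (Commute.inv_right_iff.1 this)
    exact inv (ine H k (e ▸ h1)) (e ▸ hg)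

end Elem

open Elem in
theorem p_ELEM (hA_EL0 : S_A_EL0) :
    S_ELEM := fun _ _ c hc =>
  ⟨prim hA_EL0 hc, fun _ hf hf' => ep_eq hc hf hf', fun _ hf _ hg => (tors hA_EL0 hc hf hg).2,
    fun g => ⟨cj, fun h => ine hA_EL0 hc ((show Ep (g * c * g⁻¹) = Ep c from h) ▸ self _)⟩,
    fun _ => fin hc, ipw hc,
    fun k => mem.2 ((commute_ipow (Commute.refl c) k).symm.pow_right _),
    fun _ hf _ hg => comm hc hf hg, fun _ hf _ hg => (tors hA_EL0 hc hf hg).1,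
    fun _ h hg _ hf => last hA_EL0 hc h hg hf⟩

end Pool.Agent.P.MP_dba3d2_lc


end

section

/-! Step A_LINEU of the stability project. -/

namespace Pool.Agent.P.MP_dba3d2_lc

open Filter MP_4b59b0_al

theorem p_A_LINEU (hA_AX1 : S_A_AX1) (hA_AX2 : S_A_AX2) :
    S_A_LINEU := by
  intro Γ
  obtain ⟨C1, h1⟩ := hA_AX1 Γ.toHG0
  obtain ⟨C2, h2⟩ := hA_AX2 Γ.toHG0
  refine ⟨C1 + C2, fun a c hc => ?_⟩
  induction c using Germ.inductionOn with | h f => ?_
  have hf : ∀ᶠ j in (a.V : Filter a.I), ¬ IsOfFinOrder (f j) :=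
    Ultrafilter.eventually_not.2 (mt (Bas2A.fin_coe f).2 hc)
  obtain ⟨τ, hτ⟩ := (hf.mono fun j hj => h1 (f j) hj).choice
  have hle : ∀ t : ℝ, 1 ≤ C1 * t → C1 * t ≤ ((C1 + C2 : ℕ) : ℝ) * t := fun t ht => by
    have h0 : 0 ≤ t := by
      by_contra h
      nlinarith [mul_nonneg (Nat.cast_nonneg (α := ℝ) C1) (neg_nonneg.2 (not_le.1 h).le)]
    push_cast
    nlinarith [mul_nonneg (Nat.cast_nonneg (α := ℝ) C2) h0]
  refine ⟨Germ.ofFun τ, Germ.coe_le.2 (hτ.mono fun j hj => hj.1.trans (hle _ hj.1)), ?_,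
    fun q k => ?_, fun p k => ?_, fun p q => ?_⟩
  · obtain ⟨q, hq⟩ := (hτ.mono fun j hj => hj.2.2.1).choice
    refine (md_le _ (Germ.ofFun q)).trans (Germ.coe_le.2 ((hq.and hτ).mono fun j hj => ?_))
    have := hj.1.trans (hle _ hj.2.1)
    rwa [HG0.d_conj] at this
  · induction q using Germ.inductionOn with | h q => ?_
    induction k using Germ.inductionOn with | h k => ?_
    rw [Germ.abs_def]
    exact Germ.coe_le.2 (hτ.mono fun j hj => hj.2.1 (q j) (k j))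
  · induction p using Germ.inductionOn with | h p => ?_
    induction k using Germ.inductionOn with | h k => ?_
    rw [Germ.abs_def]
    refine Germ.coe_le.2 (hτ.mono fun j hj => (hj.2.2.2 (p j) (k j)).trans ?_)
    exact add_le_add_right (mul_le_mul_of_nonneg_right (Nat.cast_le.2 (Nat.le_add_right C1 C2))
      (Nat.cast_nonneg _)) _
  · induction p using Germ.inductionOn with | h p => ?_
    induction q using Germ.inductionOn with | h q => ?_
    obtain ⟨k, hk⟩ := (hf.mono fun j hj => h2 (f j) hj (p j) (q j)).choice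
    refine ⟨Germ.ofFun k, Germ.coe_le.2 (hk.mono fun j hj => ?_)⟩
    have := hj.trans (Nat.mul_le_mul_right _ (Nat.le_add_left C2 C1))
    show (Γ.sp.d (q j) (f j ^ k j • p j) : ℝ) ≤ ((C1 + C2 : ℕ) : ℝ) *
      ((Γ.sp.d (p j) (f j • p j) : ℝ) + Γ.sp.d (q j) (f j • q j))
    exact_mod_cast this

end Pool.Agent.P.MP_dba3d2_lc


end
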