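import Pool.Agent.P.MP_dba3d2_lcM.Ab05

section

/-! Step A_DOM of the stability project. -/

namespace Pool.Agent.P.MP_dba3d2_lc

open Filter MP_4b59b0_al Bas2A

namespace A_dom

/-- the first axis statement with a given constant -/
def X1 (R : HG0) (C : ℕ) : Prop := ∀ c : R.G, ¬ IsOfFinOrder c → ∃ τ : ℝ, 1 ≤ C * τ ∧
  (∀ (q : R.G) (k : ℤ), |(k : ℝ)| * τ ≤ R.sp.d q (c ^ k • q)) ∧
  (∃ q : R.G, (R.sp.d q (c • q) : ℝ) ≤ C * τ) ∧
  ∀ (p : R.G) (k : ℤ), (R.sp.d p (c ^ k • p) : ℝ) ≤ |(k : ℝ)| * τ + C * R.sp.d p (c • p)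

/-- the second axis statement with a given constant -/
def X2 (R : HG0) (C : ℕ) : Prop := ∀ c : R.G, ¬ IsOfFinOrder c → ∀ p q : R.G,
  ∃ k : ℤ, R.sp.d q (c ^ k • p) ≤ C * (R.sp.d p (c • p) + R.sp.d q (c • q))

theorem tors {R : HG0} {C1 C2 e : ℕ} (h1 : X1 R C1) (h2 : X2 R C2) (he : 0 < e) {z f : R.G}
    (hz : ¬ IsOfFinOrder z) (hc : Commute f z) (hf : f ^ e = 1) (p : R.G) :
    R.sp.d p (f • p) ≤ (4 * C2 + C1) * R.sp.d p (z • p) := by
  obtain ⟨τ, -, a2, -, a4⟩ := h1 z hz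
  obtain ⟨k, hk⟩ := h2 z hz p (f • p)
  rw [R.iso.disp_comm hc.symm] at hk
  have e1 : R.sp.d p ((f⁻¹ * z ^ k) • p) = R.sp.d (f • p) (z ^ k • p) := by
    rw [mul_smul, R.iso.inv']
  have e2 : (f⁻¹ * z ^ k) ^ e = z ^ (k * (e : ℤ)) := by
    rw [(hc.inv_left.zpow_right k).mul_pow, inv_pow, hf, inv_one, one_mul, zpow_mul, zpow_natCast]
  have b1 := R.iso.disp_pow (f⁻¹ * z ^ k) p e
  rw [e2, e1] at b1
  have b2 := a2 p (k * (e : ℤ))
  have b3 := a4 p k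
  have b4 := R.sp.tri p (z ^ k • p) (f • p)
  rw [R.sp.symm (z ^ k • p) (f • p)] at b4
  have he' : (0 : ℝ) < e := by exact_mod_cast he
  have c1 : (R.sp.d p (z ^ (k * (e : ℤ)) • p) : ℝ) ≤ e * R.sp.d (f • p) (z ^ k • p) := by
    exact_mod_cast b1
  have c2 : |(k : ℝ)| * τ ≤ R.sp.d (f • p) (z ^ k • p) := by
    refine le_of_mul_le_mul_left ?_ he'
    push_cast at b2
    rw [abs_mul, abs_of_pos he'] at b2
    linarith
  have c3 : (R.sp.d (f • p) (z ^ k • p) : ℝ) ≤ C2 * (R.sp.d p (z • p) + R.sp.d p (z • p)) := by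
    exact_mod_cast hk
  have c4 : (R.sp.d p (f • p) : ℝ) ≤ R.sp.d p (z ^ k • p) + R.sp.d (f • p) (z ^ k • p) := by
    exact_mod_cast b4
  have : (R.sp.d p (f • p) : ℝ) ≤ (4 * C2 + C1) * R.sp.d p (z • p) := by linarith
  exact_mod_cast this

theorem root {R : HG0} {C1 C2 : ℕ} (h1 : X1 R C1) (h2 : X2 R C2) {c : R.G}
    (hc : ¬ IsOfFinOrder c) {k : ℤ} (hk : k ≠ 0) (p : R.G) :
    R.sp.d p (c • p) ≤ (C1 + 2 * C2 * (2 + C1 * C1)) * R.sp.d p (c ^ k • p) := by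
  obtain ⟨τ, a1, a2, ⟨q, a3⟩, a4⟩ := h1 c hc
  obtain ⟨j, hj⟩ := h2 (c ^ k) (Geo0.zpow_inf hc hk) q p
  have hC : (0 : ℝ) ≤ C1 := Nat.cast_nonneg _
  have hC2 : (0 : ℝ) ≤ C2 := Nat.cast_nonneg _
  have hτ : 0 ≤ τ := by
    by_contra h
    have := mul_nonpos_of_nonneg_of_nonpos hC (not_le.1 h).le
    linarith
  have hk1 : (1 : ℝ) ≤ |(k : ℝ)| := by exact_mod_cast Int.one_le_abs hk
  have b1 := a2 p k
  have b2 : τ ≤ R.sp.d p (c ^ k • p) := by nlinarith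
  have b3 : (R.sp.d q (c • q) : ℝ) ≤ C1 * R.sp.d p (c ^ k • p) :=
    a3.trans (mul_le_mul_of_nonneg_left b2 hC)
  have b4 : (R.sp.d q (c ^ k • q) : ℝ) ≤ (1 + C1 * C1) * R.sp.d p (c ^ k • p) := by
    have := a4 q k
    have := mul_le_mul_of_nonneg_left b3 hC
    linarith
  have b5 := R.iso.disp_move c p ((c ^ k) ^ j • q)
  rw [R.iso.disp_comm (((Commute.refl c).zpow_right k).zpow_right j)] at b5
  have c1 : (R.sp.d p ((c ^ k) ^ j • q) : ℝ) ≤
      C2 * (R.sp.d q (c ^ k • q) + R.sp.d p (c ^ k • p)) := by exact_mod_cast hj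
  have c2 : (R.sp.d p (c • p) : ℝ) ≤ R.sp.d q (c • q) + 2 * R.sp.d p ((c ^ k) ^ j • q) := by
    exact_mod_cast b5
  have c3 := mul_le_mul_of_nonneg_left b4 hC2
  have : (R.sp.d p (c • p) : ℝ) ≤ (C1 + 2 * C2 * (2 + C1 * C1)) * R.sp.d p (c ^ k • p) := by
    linarith
  exact_mod_cast this

theorem std (Γ : HG) {C1 C2 : ℕ} (h1 : X1 Γ.toHG0 C1) (h2 : X2 Γ.toHG0 C2) : ∃ C : ℕ,
    ∀ g f p : Γ.G, ¬ IsOfFinOrder g → Commute f (g ^ Γ.e) → IsOfFinOrder f ∨ P0 Γ f →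
      Γ.sp.d p (f • p) ≤ C * Γ.sp.d p (g • p) := by
  have key : ∀ g f p : Γ.G, ¬ IsOfFinOrder g → Commute f (g ^ Γ.e) → IsOfFinOrder f →
      Γ.sp.d p (f • p) ≤ (4 * C2 + C1) * Γ.e * Γ.sp.d p (g • p) := fun g f p hg hc hf => by
    refine (tors h1 h2 Γ.good.pos (Geo0.pow_inf hg Γ.good.pos.ne') hc (Γ.good.tors f hf) p).trans ?_
    rw [mul_assoc]
    exact Nat.mul_le_mul_left _ (Γ.iso.disp_pow g p Γ.e)
  refine ⟨(C1 + 2 * C2 * (2 + C1 * C1)) * (1 + (4 * C2 + C1) * Γ.e) + (4 * C2 + C1) * Γ.e,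
    fun g f p hg hc hf => ?_⟩
  rcases hf with hf | hf
  · exact (key g f p hg hc hf).trans (Nat.mul_le_mul_right _ (Nat.le_add_left _ _))
  · obtain ⟨k, hk⟩ := hf.2 g ((Geo0.ep0 hg hf.1 hc g).2 (Commute.self_pow _ _)).eq
    have hk0 : k ≠ 0 := by
      rintro rfl
      rw [zpow_zero, mul_one] at hk
      exact hg (isOfFinOrder_inv_iff.1 hk)
    have b1 := key g (g⁻¹ * f ^ k) p hg
      ((Commute.self_pow g _).inv_left.mul_left (hc.zpow_left k)) hk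
    have b2 := Γ.iso.disp_mul g (g⁻¹ * f ^ k) p
    rw [mul_inv_cancel_left] at b2
    have b3 : Γ.sp.d p (f ^ k • p) ≤ (1 + (4 * C2 + C1) * Γ.e) * Γ.sp.d p (g • p) := by
      rw [add_mul, one_mul]
      omega
    refine (root h1 h2 hf.1 hk0 p).trans ((Nat.mul_le_mul_left _ b3).trans ?_)
    rw [← mul_assoc]
    exact Nat.mul_le_mul_right _ (Nat.le_add_right _ _)

end A_dom

theorem p_A_DOM (hA_AX1 : S_A_AX1) (hA_AX2 : S_A_AX2) :
    S_A_DOM := by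
  intro Γ
  obtain ⟨C1, h1⟩ := hA_AX1 Γ.toHG0
  obtain ⟨C2, h2⟩ := hA_AX2 Γ.toHG0
  obtain ⟨C, hC⟩ := A_dom.std Γ h1 h2
  refine ⟨C, fun a g f p hg hf h => ?_⟩
  induction g using Germ.inductionOn with | h g =>
  induction f using Germ.inductionOn with | h f =>
  induction p using Germ.inductionOn with | h p =>
  rw [fin_coe, ← Ultrafilter.eventually_not] at hg
  rw [ep_coe] at hf
  rw [fin_coe, prim_coe, ← Ultrafilter.eventually_or] at h
  refine Germ.coe_le.2 ?_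
  filter_upwards [hg, hf, h] with i a1 a2 a3
  have := hC (g i) (f i) (p i) a1 a2 a3
  show ((Γ.sp.d (p i) (f i • p i) : ℕ) : ℝ) ≤ (C : ℝ) * ((Γ.sp.d (p i) (g i • p i) : ℕ) : ℝ)
  exact_mod_cast this

end Pool.Agent.P.MP_dba3d2_lc


end

section

/-! Step LINE of the stability project. -/

namespace Pool.Agent.P.MP_dba3d2_lc

open Filter

theorem p_LINE (hA_LINEU : S_A_LINEU) (hA_DOM : S_A_DOM) :
    S_LINE := by
  intro Γ a c p hc hp
  obtain ⟨C, hC⟩ := hA_LINEU Γ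
  obtain ⟨C', hC'⟩ := hA_DOM Γ
  obtain ⟨L, -, h2, h3, h4, h5⟩ := hC a c hc
  have e : ∀ q x : MM Γ a, ds q (x * q) = ln (q⁻¹ * x * q) := fun q x => by rw [ds, mul_assoc]
  have k : ∀ k : a.Z, |zK k| * L ≤ md (ipow c k) := fun k => by
    obtain ⟨q, hq⟩ := exists_md (ipow c k)
    rw [← hq, ← e]
    exact h3 q k
  refine ⟨⟨L, ⟨Ls.of_le ?_, ⟨C, h2⟩⟩, fun j => ⟨h3 p j, ?_, k j⟩⟩, fun q => ?_, fun f hf hf' => ?_⟩
  · have := k ((1 : ℤ) : a.Z)
    rwa [ipow_intCast, zK_intCast, zpow_one, Int.cast_one, abs_one, one_mul] at this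
  · exact Ls.mono_left (sub_le_iff_le_add'.2 (h4 p j)) (hp.nat_mul C)
  · obtain ⟨j, hj⟩ := h5 p q
    exact ⟨j, Ls.mono_left hj (((hp.mono_right (by rw [e]; exact md_le c q)).add
      (Ls.refl' _)).nat_mul C)⟩
  · exact Ls.mono_left (hC' a c f p hc hf (Or.inl hf')) (hp.nat_mul C')

end Pool.Agent.P.MP_dba3d2_lc


end

section

/-! Step A_CE0 of the stability project. -/

namespace Pool.Agent.P.MP_dba3d2_lc

open Filter MP_4b59b0_al

namespace A_ce0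

theorem pow_le (Γ : HG) {h p : Γ.G} {T : ℕ} (hp : Γ.sp.d p (h • p) ≤ T) (j : ℕ) :
    Γ.sp.d p (h ^ j • p) ≤ j * T := by
  induction j with
  | zero => simp [Γ.sp.d_self]
  | succ j ih =>
    have h1 := Γ.sp.tri p (h ^ j • p) (h ^ (j + 1) • p)
    rw [pow_succ, mul_smul, Γ.iso] at h1
    rw [pow_succ, mul_smul, add_mul, one_mul]
    omega

theorem fin (Γ : HG) {g h : Γ.G} (hh : ¬ IsOfFinOrder h) {n : ℕ} (hn : n ≠ 0)
    (hc : Commute g (h ^ n)) : Commute g (h ^ Γ.e) := by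
  rcases Γ.good.norm h g hh n n (by exact_mod_cast hn) (by
    rw [zpow_natCast, hc.eq, mul_inv_cancel_right]) with e | e
  · exact mul_inv_eq_iff_eq_mul.1 e
  · refine absurd (isOfFinOrder_iff_pow_eq_one.2 ⟨Γ.e * n + Γ.e * n,
      by have := Nat.mul_pos Γ.good.pos (Nat.pos_of_ne_zero hn); omega, ?_⟩) hh
    have h1 : g * h ^ (Γ.e * n) * g⁻¹ = (h ^ (Γ.e * n))⁻¹ := by
      rw [pow_mul, ← conj_pow, e, inv_pow]
    rw [mul_comm, pow_mul, (hc.pow_right _).eq, mul_inv_cancel_right, ← pow_mul, mul_comm] at h1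
    rw [pow_add, ← eq_inv_iff_mul_eq_one, ← h1]

end A_ce0

theorem p_A_CE0 :
    S_A_CE0 := by
  intro Γ
  obtain ⟨b, hb⟩ : ∃ b, b = (Γ.fin (60 * Γ.δ)).toFinset.card := ⟨_, rfl⟩
  refine ⟨8 * (b + 1) + 16 * Γ.δ + 4, fun T g h p q hh g1 g2 h1 h2 hC => ?_⟩
  obtain ⟨m, m1, m2⟩ := Γ.sp.geod p q (Γ.sp.d p q / 2) (Nat.div_le_self _ _)
  have e1 : T ≤ (b + 1) * T := Nat.le_mul_of_pos_left _ b.succ_pos
  have e2 : 8 * ((b + 1) * T) + 16 * Γ.δ + 4 ≤ Γ.sp.d p q := le_trans (by nlinarith) hC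
  have key : ∀ j ∈ Finset.range (b + 1),
      m⁻¹ * (g * h ^ j * g⁻¹ * (h ^ j)⁻¹) * m ∈ (Γ.fin (60 * Γ.δ)).toFinset := fun j hj => by
    have e3 : j * T ≤ (b + 1) * T := Nat.mul_le_mul_right _ (Finset.mem_range.1 hj).le
    rw [Set.Finite.mem_toFinset, Set.mem_ofPred_eq, ← Γ.d_conj]
    exact Γ.comm_small (T := (b + 1) * T) (g1.trans e1) (g2.trans e1)
      ((A_ce0.pow_le Γ h1 j).trans e3) ((A_ce0.pow_le Γ h2 j).trans e3)
      (by unfold Sp.Bt; omega) (by omega) (by omega)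
  obtain ⟨i, -, j, -, hij, e⟩ := Finset.exists_ne_map_eq_of_card_lt_of_maps_to
    (by rw [Finset.card_range]; omega) key
  wlog c : i < j generalizing i j
  · exact this j i hij.symm e.symm (by omega)
  obtain ⟨n, rfl⟩ := Nat.exists_eq_add_of_le c.le
  refine A_ce0.fin Γ hh (n := n) (by omega) ?_
  have e4 := mul_left_cancel (mul_right_cancel e)
  rw [pow_add, mul_assoc g, mul_assoc g, mul_assoc g, mul_assoc g, mul_assoc (h ^ i),
    mul_assoc (h ^ i), mul_assoc (h ^ i), mul_inv_rev, ← mul_assoc _ (h ^ n)⁻¹, mul_right_inj,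
    mul_right_inj, mul_left_inj, eq_mul_inv_iff_mul_eq] at e4
  exact (Commute.inv_left_iff.1 e4)

end Pool.Agent.P.MP_dba3d2_lc


end

section

/-! Step A_CE of the stability project. -/

namespace Pool.Agent.P.MP_dba3d2_lc

open Filter MP_4b59b0_al

namespace A_ce

theorem fl {C n m : ℕ} {t : ℝ} (h0 : (n : ℝ) ≤ t) (h : (C : ℝ) * (t + 1) ≤ m) :
    C * (⌊t⌋₊ + 1) ≤ m := by
  have := Nat.floor_le ((Nat.cast_nonneg n).trans h0)
  have : (C : ℝ) * (⌊t⌋₊ + 1) ≤ m := (mul_le_mul_of_nonneg_left (by linarith) C.cast_nonneg).trans h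
  exact_mod_cast this

end A_ce

theorem p_A_CE (hA_CE0 : S_A_CE0) :
    S_A_CE := by
  intro Γ
  obtain ⟨C, hC⟩ := hA_CE0 Γ
  refine ⟨C + 20 * Γ.δ + 2, fun a T g p q => ?_⟩
  refine Germ.inductionOn T fun t => Germ.inductionOn g fun g => Germ.inductionOn p fun p =>
    Germ.inductionOn q fun q hp hq => ⟨fun h => Germ.inductionOn h fun h hh h1 h2 h3 => ?_,
      fun hg m => Germ.inductionOn m fun m h1 h2 h3 => ?_⟩
  · rw [Bas2A.fin_coe, ← Ultrafilter.eventually_not] at hh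
    refine (Bas2A.ep_coe h g).2 ?_
    filter_upwards [hh, Germ.coe_le.1 hp, Germ.coe_le.1 hq, Germ.coe_le.1 h1, Germ.coe_le.1 h2,
      Germ.coe_le.1 h3] with i k0 k1 k2 k3 k4 k5
    refine hC ⌊t i⌋₊ (g i) (h i) (p i) (q i) k0 (Nat.le_floor k1) (Nat.le_floor k2) (Nat.le_floor k3)
      (Nat.le_floor k4) (le_trans (Nat.mul_le_mul_right _ (by omega)) (A_ce.fl k1 k5))
  · refine Germ.coe_le.2 ?_
    filter_upwards [(Bas2A.fin_coe g).1 hg, Germ.coe_le.1 hp, Germ.coe_le.1 hq, Germ.coe_eq.1 h1,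
      Germ.coe_le.1 h2, Germ.coe_le.1 h3] with i k0 k1 k2 k3 k4 k5
    have e : Γ.sp.d (p i) (m i) + Γ.sp.d (m i) (q i) = Γ.sp.d (p i) (q i) := Nat.cast_injective
      (R := ℝ) ((Nat.cast_add _ _).trans k3)
    have b : 2 * ⌊t i⌋₊ + 4 * Γ.δ + 1 ≤ (C + 20 * Γ.δ + 2) * (⌊t i⌋₊ + 1) := by nlinarith
    have := Γ.tors_small (T := ⌊t i⌋₊) (x := p i) (y := q i) (p := m i) k0 (Nat.le_floor k1)
      (Nat.le_floor k2) e.le (b.trans (A_ce.fl k1 k4)) (b.trans (A_ce.fl k1 k5))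
    exact Nat.cast_le.2 (this.trans (by omega))

end Pool.Agent.P.MP_dba3d2_lc


end

section

/-! Step PERC of the stability project. -/

namespace Pool.Agent.P.MP_dba3d2_lc

open Filter

theorem p_PERC (hELEM : S_ELEM) (hA_DOM : S_A_DOM) (hA_CE : S_A_CE) :
    S_PERC := by
  rintro Γ a μ p q hμ hpq ⟨g₀, h0, s0⟩
  obtain ⟨c, hc, e⟩ := (hELEM Γ a g₀ h0).1
  obtain ⟨C, hC⟩ := hA_DOM Γ
  obtain ⟨D, hD⟩ := hA_CE Γ
  have hm : c ∈ Ep g₀ := e ▸ Subgroup.mem_centralizer_singleton_iff.2 (Commute.self_pow c Γ.e).eq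
  refine ⟨c, hc, ⟨Ll.mono_left (hC a g₀ c p h0 hm (Or.inr hc)) (s0.1.nat_mul C),
    Ll.mono_left (hC a g₀ c q h0 hm (Or.inr hc)) (s0.2.nat_mul C)⟩, fun g s => ?_⟩
  have n1 := ds_nonneg p (g * p)
  have n2 := ds_nonneg q (g * q)
  have n3 := ds_nonneg p (g₀ * p)
  have n4 := ds_nonneg q (g₀ * q)
  have k := (((((s.1.add s.2).add s0.1).add s0.2).add (big_iff_ll.1 hμ)).nat_mul D).ls_right hpq
    (ds_nonneg p q) 1
  rw [Nat.cast_one, one_mul] at k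
  rw [e]
  exact (hD a _ g p q (by linarith) (by linarith)).1 g₀ h0 (by linarith) (by linarith) k

end Pool.Agent.P.MP_dba3d2_lc


end

section

/-! Step TORS of the stability project. -/

namespace Pool.Agent.P.MP_dba3d2_lc

open Filter

namespace Tors

variable {Γ : HG} {a : Amb}

theorem inj {ι : Type} [Finite ι] (f : ι → a.I → Γ.G)
    (h : Function.Injective fun i => (Germ.ofFun (f i) : MM Γ a)) :
    ∀ᶠ j in (a.V : Filter a.I), Function.Injective fun i => f i j := by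
  refine (eventually_all.2 fun i => eventually_all.2 fun i' => ?_)
  by_cases e : i = i'
  · exact Eventually.of_forall fun _ _ => e
  · exact (Ultrafilter.eventually_not.2 (mt Germ.coe_eq.2 fun h' => e (h h'))).mono
      fun j hj h' => absurd h' hj

theorem fin (hA : S_A_KOU) (K : Subgroup (MM Γ a)) (hK : ∀ k ∈ K, IsOfFinOrder k) : Finite K := by
  obtain ⟨C, hC⟩ := hA Γ.toHG0
  by_contra h
  have : Infinite K := not_finite_iff_infinite.1 h
  let n := {g : Γ.G | Γ.len g ≤ C}.ncard + 1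
  let v : Fin n ↪ K := Fin.valEmbedding.trans (Infinite.natEmbedding K)
  obtain ⟨f, hf⟩ := Bas2A.rep fun i => (v i : MM Γ a)
  have hf' : ∀ i, (Germ.ofFun (f i) : MM Γ a) ∈ K := fun i => congrFun hf i ▸ (v i).2
  have h1 := inj f (hf ▸ Subtype.val_injective.comp v.injective)
  have h2 : ∀ᶠ j in (a.V : Filter a.I), ∀ i, IsOfFinOrder (f i j) :=
    eventually_all.2 fun i => (Bas2A.fin_coe _).1 (hK _ (hf' i))
  have h3 : ∀ᶠ j in (a.V : Filter a.I), ∀ i i', IsOfFinOrder (f i j * f i' j) :=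
    eventually_all.2 fun i => eventually_all.2 fun i' =>
      (Bas2A.fin_coe (f i * f i')).1 (hK _ (mul_mem (hf' i) (hf' i')))
  have h4 : ∀ᶠ j in (a.V : Filter a.I), ∀ i i', IsOfFinOrder ((f i j)⁻¹ * f i' j) :=
    eventually_all.2 fun i => eventually_all.2 fun i' =>
      (Bas2A.fin_coe ((f i)⁻¹ * f i')).1 (hK _ (mul_mem (inv_mem (hf' i)) (hf' i')))
  obtain ⟨j, ⟨⟨e1, e2⟩, e3⟩, e4⟩ := (((h1.and h2).and h3).and h4).exists
  obtain ⟨p, -, hp⟩ := hC (Set.range fun i => f i j) (∑ i, Γ.len (f i j))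
    (by
      rintro _ ⟨i, rfl⟩
      exact Finset.single_le_sum (f := fun i => Γ.len (f i j)) (fun _ _ => Nat.zero_le _)
        (Finset.mem_univ i))
    (by rintro _ ⟨i, rfl⟩; exact e2 i)
    (by rintro _ ⟨i, rfl⟩ _ ⟨i', rfl⟩; exact ⟨e3 i i', e4 i i'⟩)
  have h5 := Set.ncard_le_ncard_of_injOn (s := Set.univ) (t := {g : Γ.G | Γ.len g ≤ C})
    (fun i : Fin n => p⁻¹ * f i j * p) (fun i _ => hp _ ⟨i, rfl⟩)
    (fun i _ i' _ e => e1 (mul_left_cancel (mul_right_cancel e))) (Γ.fin C)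
  rw [Set.ncard_univ, Nat.card_fin] at h5
  omega

end Tors

theorem p_TORS (hA_KOU : S_A_KOU) :
    S_TORS := by
  intro Γ a K hK
  have hfin := Tors.fin hA_KOU K hK
  refine ⟨hfin, ?_⟩
  obtain ⟨f, hf⟩ := Bas2A.rep fun k : K => (k : MM Γ a)
  have h1 := Tors.inj f (hf ▸ Subtype.val_injective)
  have h2 : ∀ᶠ j in (a.V : Filter a.I), ∀ k k', f (k * k') j = f k j * f k' j :=
    eventually_all.2 fun k => eventually_all.2 fun k' => (Germ.coe_eq (g := f k * f k')).1 (by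
      rw [Germ.coe_mul, ← congrFun hf, ← congrFun hf, ← congrFun hf]; rfl)
  obtain ⟨j, e1, e2⟩ := (h1.and h2).exists
  let φ : K →* Γ.G := MonoidHom.mk' (fun k => f k j) e2
  have e := MonoidHom.ofInjective (f := φ) e1
  rw [Nat.card_congr e.toEquiv]
  exact Γ.good.card _ (Finite.of_equiv _ e.toEquiv)

end Pool.Agent.P.MP_dba3d2_lc


end

section

/-! Step A_SMALL of the stability project. -/

namespace Pool.Agent.P.MP_dba3d2_lc

open Filter MP_4b59b0_al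

theorem A_small.arith {K : Type} [Field K] [LinearOrder K] [IsStrictOrderedRing K] {μ D : K}
    (N C : ℕ) (hμ : Big μ) (hD : 0 ≤ D) (h : μ ≤ N * D) :
    ∃ (n : ℕ) (T : K), 0 < n ∧ C * (T + 1) ≤ D / 2 - 1 ∧
      ∀ (k : ℕ) (x : K), n ≤ k → 0 ≤ x → k * x ≤ μ → x ≤ T := by
  have hN : (0 : K) ≤ N := Nat.cast_nonneg _
  have hC : (0 : K) ≤ C := Nat.cast_nonneg _
  have h0 : (0 : K) < ((8 * (N + 1) * (C + 1) : ℕ) : K) := by positivity
  obtain ⟨T, hT⟩ : ∃ T : K, ((8 * (N + 1) * (C + 1) : ℕ) : K) * T = μ :=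
    ⟨μ / _, mul_div_cancel₀ _ h0.ne'⟩
  refine ⟨8 * (N + 1) * (C + 1), T, by positivity, ?_, fun k x hk hx h1 => ?_⟩
  · have h1 : 1 ≤ T := le_of_mul_le_mul_left (by rw [mul_one, hT]; exact hμ _) h0
    push_cast at hT
    have h2 : 8 * ((C + 1) * T) ≤ D := by
      refine le_of_mul_le_mul_left ?_ (show (0 : K) < N + 1 by positivity)
      nlinarith
    nlinarith
  · have h2 : ((8 * (N + 1) * (C + 1) : ℕ) : K) ≤ k := Nat.cast_le.2 hk
    refine le_of_mul_le_mul_left ?_ h0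
    rw [hT]
    exact (mul_le_mul_of_nonneg_right h2 hx).trans h1

theorem p_A_SMALL (hELEM : S_ELEM) (hA_DOM : S_A_DOM) (hA_CE : S_A_CE) :
    S_A_SMALL := by
  intro Γ a μ p q hμ hls hper
  obtain ⟨N, hN⟩ := hls
  obtain ⟨C, hC⟩ := hA_CE Γ
  obtain ⟨C', hC'⟩ := hA_DOM Γ
  have hD := ds_nonneg p q
  obtain ⟨n1, T, hn1, hT, hle⟩ := A_small.arith N C hμ hD hN
  obtain ⟨m, hm, hm1, hm2⟩ := exists_point p q (ds p q / 2) (by linarith) (by linarith)
  by_cases hex : ∃ n, n1 ≤ n ∧ ∀ g : MM Γ a, n * ds p (g * p) ≤ μ → n * ds q (g * q) ≤ μ →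
      IsOfFinOrder g
  · obtain ⟨n, hn, hfin⟩ := hex
    refine ⟨n, hn1.trans_le hn, m, hm, fun g h1 h2 => ?_⟩
    have h3 := (hC a T g p q (hle n _ hn (ds_nonneg _ _) h1) (hle n _ hn (ds_nonneg _ _) h2)).2
      (hfin g h1 h2) m hm (by linarith) (by linarith)
    refine Ll.mono_left h3 fun k => ?_
    have := hμ (k * C)
    rwa [Nat.cast_mul] at this
  · exfalso
    have hg : ∀ n, n1 ≤ n → ∃ g : MM Γ a, n * ds p (g * p) ≤ μ ∧ n * ds q (g * q) ≤ μ ∧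
        ¬ IsOfFinOrder g := by
      intro n hn
      by_contra h
      exact hex ⟨n, hn, fun g h1 h2 => by_contra fun h3 => h ⟨g, h1, h2, h3⟩⟩
    obtain ⟨g1, a1, b1, c1⟩ := hg n1 le_rfl
    obtain ⟨c0, hc0, hep⟩ := (hELEM Γ a g1 c1).1
    have key : ∀ k : ℕ, k * ds p (c0 * p) ≤ μ ∧ k * ds q (c0 * q) ≤ μ := by
      intro k
      obtain ⟨g, a2, b2, c2⟩ := hg (n1 + k * C') (Nat.le_add_right _ _)
      have h1 : g1 ∈ Ep g :=
        (hC a T g1 p q (hle n1 _ le_rfl (ds_nonneg _ _) a1)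
          (hle n1 _ le_rfl (ds_nonneg _ _) b1)).1 g c2
          (hle _ _ (Nat.le_add_right _ _) (ds_nonneg _ _) a2)
          (hle _ _ (Nat.le_add_right _ _) (ds_nonneg _ _) b2) (by linarith)
      have h2 : c0 ∈ Ep g := by
        rw [← (hELEM Γ a g c2).2.1 g1 h1 c1, ← hep]
        exact Subgroup.mem_centralizer_singleton_iff.2 (Commute.self_pow c0 _).eq
      have h3 : ∀ r : MM Γ a, ((n1 + k * C' : ℕ) : a.K) * ds r (g * r) ≤ μ →
          k * ds r (c0 * r) ≤ μ := by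
        intro r hr
        have h4 := hC' a g c0 r c2 h2 (Or.inr hc0)
        have h5 := mul_le_mul_of_nonneg_left h4 (Nat.cast_nonneg (α := a.K) k)
        have h6 := mul_nonneg (Nat.cast_nonneg (α := a.K) n1) (ds_nonneg r (g * r))
        rw [Nat.cast_add, Nat.cast_mul, add_mul, mul_assoc] at hr
        linarith
      exact ⟨h3 p a2, h3 q b2⟩
    exact hper ⟨c0, hc0.1, fun k => (key k).1, fun k => (key k).2⟩

end Pool.Agent.P.MP_dba3d2_lc


end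

section

/-! Step FINM of the stability project. -/

namespace Pool.Agent.P.MP_dba3d2_lc

open Filter

theorem p_FINM (hA_KOU : S_A_KOU) :
    S_FINM := by
  intro Γ a K hK
  obtain ⟨C, hC⟩ := hA_KOU Γ.toHG0
  obtain ⟨k0, hk0⟩ := Finite.exists_max fun k : K => ln (k : MM Γ a)
  obtain ⟨f, hf⟩ := Bas2A.rep fun k : K => (k : MM Γ a)
  have e : ∀ k : K, (k : MM Γ a) = Germ.ofFun (f k) := congrFun hf
  have fo : ∀ k : K, IsOfFinOrder (k : MM Γ a) := fun k =>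
    K.subtype.isOfFinOrder (isOfFinOrder_of_finite k)
  have h1 : ∀ k : K, ∀ᶠ j in (a.V : Filter a.I), Γ.len (f k j) ≤ Γ.len (f k0 j) := fun k => by
    have := hk0 k
    rw [e, e] at this
    exact (Germ.coe_le.1 this).mono fun j h => Nat.cast_le (α := ℝ).1 h
  have h2 : ∀ k : K, ∀ᶠ j in (a.V : Filter a.I), IsOfFinOrder (f k j) := fun k =>
    (Bas2A.fin_coe (f k)).1 (e k ▸ fo k)
  have h3 : ∀ k l : K, ∀ᶠ j in (a.V : Filter a.I),
      IsOfFinOrder (f k j * f l j) ∧ IsOfFinOrder ((f k j)⁻¹ * f l j) := fun k l => by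
    have a1 := fo (k * l)
    have a2 := fo (k⁻¹ * l)
    rw [Subgroup.coe_mul, e, e] at a1
    rw [Subgroup.coe_mul, Subgroup.coe_inv, e, e] at a2
    exact ((Bas2A.fin_coe fun j => f k j * f l j).1 a1).and
      ((Bas2A.fin_coe fun j => (f k j)⁻¹ * f l j).1 a2)
  obtain ⟨p, hp⟩ := (((eventually_all.2 h1).and ((eventually_all.2 h2).and
    (eventually_all.2 fun k => eventually_all.2 (h3 k)))).mono fun j h =>
      hC (Set.range fun k => f k j) (Γ.len (f k0 j)) (Set.forall_mem_range.2 h.1)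
        (Set.forall_mem_range.2 h.2.1)
        (Set.forall_mem_range.2 fun k => Set.forall_mem_range.2 (h.2.2 k))).choice
  refine ⟨Germ.ofFun p, fun k hk => mem_std_iff.2 (not_big_iff.2 ⟨C + 1, ?_⟩),
    k0, k0.2, C + 1, ?_⟩
  · have : ln ((Germ.ofFun p : MM Γ a)⁻¹ * k * Germ.ofFun p) ≤ (C : a.K) := by
      rw [show k = Germ.ofFun (f ⟨k, hk⟩) from e ⟨k, hk⟩]
      exact Germ.coe_le.2 (hp.mono fun j h => Nat.cast_le (α := ℝ).2 (h.2 _ ⟨⟨k, hk⟩, rfl⟩))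
    exact this.trans_lt (Nat.cast_lt.2 C.lt_succ_self)
  · have : ln (Germ.ofFun p : MM Γ a) ≤ ln (k0 : MM Γ a) + (C : a.K) := by
      rw [e]
      exact Germ.coe_le.2 (hp.mono fun j h =>
        show (Γ.len (p j) : ℝ) ≤ Γ.len (f k0 j) + C by exact_mod_cast h.1)
    have h0 := mul_nonneg (C.cast_nonneg (α := a.K)) (ln_nonneg (k0 : MM Γ a))
    push_cast
    linarith

end Pool.Agent.P.MP_dba3d2_lc


end

section

/-! Step A_ALPH of the stability project. -/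

namespace Pool.Agent.P.MP_dba3d2_lc

open Filter MP_4b59b0_al

namespace A_alph

theorem exists_mod (a n j : ℕ) (hj : j < n) : ∃ u, a ≤ u ∧ u < a + n ∧ u % n = j := by
  have hn : 0 < n := by omega
  have h1 := Nat.mod_lt a hn
  refine ⟨a + (j + n - a % n) % n, Nat.le_add_right _ _,
    Nat.add_lt_add_left (Nat.mod_lt _ hn) _, ?_⟩
  rw [Nat.add_mod_mod, ← Nat.mod_add_mod, show a % n + (j + n - a % n) = j + n by omega,
    Nat.add_mod_right, Nat.mod_eq_of_lt hj]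

theorem ep1 {Γ : HG} {c : Γ.G} (hc : ¬ IsOfFinOrder c) (k : Γ.G) :
    Commute k ((c ^ Γ.e) ^ Γ.e) ↔ Commute k (c ^ Γ.e) :=
  Geo0.ep0 hc (Geo0.pow_inf hc Γ.good.pos.ne') (Commute.refl _) k

/-- the intersection of the elementary closures of the elements of `Z` of infinite order -/
def R0 (Γ : HG) (Z : Subgroup Γ.G) : Subgroup Γ.G where
  carrier := {g | ∀ v ∈ Z, ¬ IsOfFinOrder v → Commute g (v ^ Γ.e)}
  one_mem' := fun _ _ _ => Commute.one_left _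
  mul_mem' := fun ha hb v h1 h2 => (ha v h1 h2).mul_left (hb v h1 h2)
  inv_mem' := fun ha v h1 h2 => (ha v h1 h2).inv_left

theorem R0_norm (Γ : HG) (Z : Subgroup Γ.G) : ∀ g ∈ Z, ∀ r ∈ R0 Γ Z, g * r * g⁻¹ ∈ R0 Γ Z := by
  intro g hg r hr v h1 h2
  have h3 : ¬ IsOfFinOrder (g⁻¹ * v * g⁻¹⁻¹) := fun h => h2 (by
    obtain ⟨n, h0, hn⟩ := isOfFinOrder_iff_pow_eq_one.1 h
    rw [conj_pow, conj_eq_one_iff] at hn
    exact isOfFinOrder_iff_pow_eq_one.2 ⟨n, h0, hn⟩)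
  have h4 : Commute r ((g⁻¹ * v * g⁻¹⁻¹) ^ Γ.e) :=
    hr _ (Z.mul_mem (Z.mul_mem (Z.inv_mem hg) h1) (Z.inv_mem (Z.inv_mem hg))) h3
  rw [conj_pow] at h4
  have h5 := h4.map (MulAut.conj g)
  simp only [MulAut.conj_apply, inv_inv, mul_assoc, mul_inv_cancel_left, mul_inv_cancel,
    mul_one] at h5
  rw [mul_assoc]
  exact h5

end A_alph

open A_alph

theorem p_A_ALPH (hA_PSI : S_A_PSI) :
    S_A_ALPH := by
  classical
  rintro Γ K ⟨-, ⟨x, hxZ, y, hyZ, hx, hy, hxy⟩, hR⟩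
  have he := Γ.good.pos.ne'
  have hF : {f : Γ.G | Commute f (x ^ Γ.e) ∧ Commute f (y ^ Γ.e)}.Finite := by
    refine (hA_PSI Γ.toHG0 _ (Geo0.pow_inf hx he)).1.subset fun f hf => ⟨hf.1, ?_⟩
    by_contra h
    exact hxy ((Geo0.ep0 hy h hf.2 _).1 ((Geo0.ep0 hx h hf.1 _).2 (Commute.refl _)))
  have hR0 : R0 Γ (Subgroup.centralizer (K : Set Γ.G)) ≤ K :=
    hR _ (hF.subset fun f hf => ⟨hf x hxZ hx, hf y hyZ hy⟩) (R0_norm Γ _)
  have hw : ∀ f : Γ.G, ∃ w ∈ Subgroup.centralizer (K : Set Γ.G), ¬ IsOfFinOrder w ∧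
      ¬ Commute (x ^ Γ.e) (w ^ Γ.e) ∧ (f ∈ K → w = y) ∧
      (Commute f (x ^ Γ.e) → Commute f (w ^ Γ.e) → f ∈ K) := by
    intro f
    by_cases h1 : f ∈ K
    · exact ⟨y, hyZ, hy, hxy, fun _ => rfl, fun _ _ => h1⟩
    by_cases h2 : Commute f (x ^ Γ.e)
    · have h3 : ¬ ∀ v ∈ Subgroup.centralizer (K : Set Γ.G), ¬ IsOfFinOrder v →
          Commute f (v ^ Γ.e) := fun h => h1 (hR0 h)
      push Not at h3
      obtain ⟨v, h4, h5, h6⟩ := h3
      refine ⟨v, h4, h5, fun h => h6 ?_, fun h => (h1 h).elim, fun _ h => (h6 h).elim⟩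
      exact (Geo0.ep0 h5 (Geo0.pow_inf hx he) h f).1 ((ep1 hx f).2 h2)
    · exact ⟨y, hyZ, hy, hxy, fun _ => rfl, fun h => (h2 h).elim⟩
  choose w w1 w2 w3 w4 w5 using hw
  obtain ⟨n, φ, -, hφ⟩ := hF.fin_param
  have h1 : (1 : Γ.G) ∈ Set.range φ := by
    rw [hφ]; exact ⟨Commute.one_left _, Commute.one_left _⟩
  obtain ⟨j₀, hj₀⟩ := h1
  have hn : 0 < n := j₀.pos
  let c : ℕ → Γ.G := fun t => if t % 2 = 0 then x else w (φ ⟨t / 2 % n, Nat.mod_lt _ hn⟩)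
  have c1 : ∀ t, c t ∈ Subgroup.centralizer (K : Set Γ.G) ∧ ¬ IsOfFinOrder (c t) := by
    intro t
    simp only [c]
    split_ifs
    · exact ⟨hxZ, hx⟩
    · exact ⟨w1 _, w2 _⟩
  refine ⟨fun t => c t ^ Γ.e, 2 * n + 2, ?_, fun t => Geo0.pow_inf (c1 t).2 he, fun t k hk => ?_,
    fun t k h => (ep1 (c1 t).2 k).1 h, fun t => ?_, fun t0 k hk => ?_⟩
  · refine ((Set.finite_range fun j => w (φ j) ^ Γ.e).insert (x ^ Γ.e)).subset ?_
    rintro _ ⟨t, rfl⟩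
    simp only [c]
    split_ifs
    · exact Set.mem_insert _ _
    · exact Set.mem_insert_of_mem _ ⟨_, rfl⟩
  · exact (Commute.symm ((c1 t).1 k hk)).pow_left _
  · simp only [c]
    by_cases h : t % 2 = 0
    · rw [if_pos h, if_neg (by omega)]
      exact w3 _
    · rw [if_neg h, if_pos (by omega)]
      exact fun h => w3 _ h.symm
  · have k1 : Commute k (x ^ Γ.e) := by
      have := hk (t0 % 2) (by omega)
      simp only [c] at this
      rwa [if_pos (by omega)] at this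
    have k2 : ∀ j, Commute k (w (φ j) ^ Γ.e) := by
      intro j
      obtain ⟨u, u1, u2, u3⟩ := exists_mod (t0 / 2) n j j.2
      have := hk (2 * u + 1 - t0) (by omega)
      simp only [c] at this
      rw [if_neg (by omega)] at this
      have e : (⟨(t0 + (2 * u + 1 - t0)) / 2 % n, Nat.mod_lt _ hn⟩ : Fin n) = j := by
        apply Fin.ext
        show (t0 + (2 * u + 1 - t0)) / 2 % n = j
        rw [show (t0 + (2 * u + 1 - t0)) / 2 = u by omega, u3]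
      rwa [e] at this
    have k3 : k ∈ Set.range φ := by
      rw [hφ]
      refine ⟨k1, ?_⟩
      have := k2 j₀
      rwa [hj₀, w4 1 K.one_mem] at this
    obtain ⟨j, rfl⟩ := k3
    exact w5 _ k1 (k2 j)

end Pool.Agent.P.MP_dba3d2_lc


end

section

/-! Step A_IND of the stability project. -/

namespace Pool.Agent.P.MP_dba3d2_lc

open Filter MP_4b59b0_al

theorem p_A_IND (hA_CE0 : S_A_CE0) :
    S_A_IND := by
  intro Γ x y hy hxy
  obtain ⟨C, hC⟩ := hA_CE0 Γ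
  set T := Γ.len x + Γ.len y + 4 * Γ.δ + 2 with hT
  refine ⟨2 * (C * (T + 1)) + 2 * Γ.δ + 2, fun m n => ?_⟩
  obtain ⟨z, h1, h2, h3⟩ := Γ.hyp'.center 1 ((x ^ m)⁻¹ • 1) (y ^ n • 1)
  have a1 := (Γ.d_one_smul x).le
  have a2 := (Γ.d_one_smul y).le
  have b1 := Sp.qc Γ.iso Γ.hyp' a1
    ((Γ.iso.disp_comm (Commute.self_pow x m).inv_right 1).le.trans a1) h1
  have b2 := Sp.qc Γ.iso Γ.hyp' a2
    ((Γ.iso.disp_comm (Commute.self_pow y n) 1).le.trans a2) h2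
  have c : ¬ C * (T + 1) ≤ Γ.sp.d 1 z := fun e =>
    hxy (hC T x y 1 z hy (by omega) (by omega) (by omega) (by omega) e)
  have e1 : Γ.sp.d ((x ^ m)⁻¹ • 1) (y ^ n • 1) = Γ.len (x ^ m * y ^ n) := by
    rw [Γ.iso.inv, smul_smul, Γ.d_one_smul]
  have e2 : Γ.sp.d ((x ^ m)⁻¹ • 1) 1 = Γ.len (x ^ m) := by rw [Γ.iso.inv, Γ.d_one_smul]
  have e3 := Γ.d_one_smul (y ^ n)
  have t1 := Γ.sp.tri ((x ^ m)⁻¹ • 1) z 1
  have t2 := Γ.sp.tri 1 z (y ^ n • 1)
  have t3 := Γ.sp.symm z 1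
  unfold Sp.Bt at h3
  omega

end Pool.Agent.P.MP_dba3d2_lc


end

section

/-! Step A_PRE of the stability project. -/

namespace Pool.Agent.P.MP_dba3d2_lc

open Filter MP_4b59b0_al

namespace A_pre

section
variable {G : Type} [Group G]

/-- the product of the first blocks -/
def pth (y : ℕ → G) (a : ℕ → ℕ) : ℕ → G
  | 0 => 1
  | t + 1 => pth y a t * y t ^ a t

theorem cj {g p u : G} : Commute g (p * u * p⁻¹) ↔ Commute (p⁻¹ * g * p) u :=
  ⟨fun h => by simpa [mul_assoc] using h.map (MulAut.conj p).symm,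
    fun h => by simpa [mul_assoc] using h.map (MulAut.conj p)⟩

theorem pth_comm {y : ℕ → G} {k : G} (h : ∀ t, Commute (y t) k) (a : ℕ → ℕ) :
    ∀ t, Commute (pth y a t) k
  | 0 => Commute.one_left k
  | t + 1 => (pth_comm h a t).mul_left ((h t).pow_left _)

theorem shift (y : ℕ → G) (a : ℕ → ℕ) (t : ℕ) :
    pth y a t * y t * (pth y a t)⁻¹ = pth y a (t + 1) * y t * (pth y a (t + 1))⁻¹ := by
  rw [pth]
  group

theorem last {y : ℕ → G} {a : ℕ → ℕ} {e s t0 : ℕ} {g : G}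
    (h4 : ∀ t k, Commute k (y t ^ e) → Commute k (y t))
    (h : ∀ v < s, Commute g ((pth y a (t0 + v) * y (t0 + v) * (pth y a (t0 + v))⁻¹) ^ e)) :
    ∀ v < s, Commute ((pth y a t0)⁻¹ * g * pth y a t0) (y (t0 + v)) := by
  have h1 : ∀ v < s, Commute ((pth y a (t0 + v))⁻¹ * g * pth y a (t0 + v)) (y (t0 + v)) :=
    fun v hv => h4 _ _ (cj.1 (by rw [← conj_pow]; exact h v hv))
  have h2 : ∀ v ≤ s, (pth y a (t0 + v))⁻¹ * g * pth y a (t0 + v) =
      (pth y a t0)⁻¹ * g * pth y a t0 := by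
    intro v
    induction v with
    | zero => exact fun _ => rfl
    | succ v ih =>
      intro hv
      have h3 := ((h1 v hv).pow_right (a (t0 + v))).eq
      rw [← ih (by omega), ← add_assoc, pth, mul_inv_rev, mul_assoc, mul_assoc, ← mul_assoc g,
        ← mul_assoc, ← mul_assoc, mul_assoc _ _ (g * _), mul_assoc, ← mul_assoc _ g, h3,
        inv_mul_cancel_left]
  exact fun v hv => h2 v hv.le ▸ h1 v hv

end

theorem expo (Γ : HG) (u : Γ.G) (l : ℕ) :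
    ∃ a : ℕ, ¬ IsOfFinOrder u → l ≤ Γ.len (u ^ a) ∧ Γ.len (u ^ a) ≤ l + Γ.len u := by
  by_cases hu : IsOfFinOrder u
  · exact ⟨0, fun h => absurd hu h⟩
  have h : ∃ a : ℕ, l ≤ Γ.len (u ^ a) := by
    obtain ⟨k, hk⟩ := Γ.unbdd hu 1 l
    rw [HG0.d_one_smul] at hk
    exact ⟨k, hk.le⟩
  refine ⟨Nat.find h, fun _ => ⟨Nat.find_spec h, ?_⟩⟩
  rcases e : Nat.find h with _ | b
  · rw [pow_zero, (Γ.len_eq_zero 1).2 rfl]
    omega
  · have h1 := Nat.find_min h (m := b) (by omega)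
    have h2 := Γ.len_mul (u ^ b) u
    rw [pow_succ]
    omega

theorem d_step (Γ : HG) (y : ℕ → Γ.G) (a : ℕ → ℕ) (t : ℕ) :
    Γ.sp.d (pth y a t) (pth y a (t + 1)) = Γ.len (y t ^ a t) := by
  rw [HG0.d_def, pth, inv_mul_cancel_left]

theorem d_two (Γ : HG) (y : ℕ → Γ.G) (a : ℕ → ℕ) (t : ℕ) :
    Γ.sp.d (pth y a t) (pth y a (t + 2)) = Γ.len (y t ^ a t * y (t + 1) ^ a (t + 1)) := by
  rw [HG0.d_def, pth, pth, mul_assoc, inv_mul_cancel_left]

theorem d_mv (Γ : HG) (p u : Γ.G) : Γ.sp.d p ((p * u * p⁻¹) • p) = Γ.len u := by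
  rw [HG0.d_def, smul_eq_mul, inv_mul_cancel_right, inv_mul_cancel_left]

end A_pre

open A_pre

theorem p_A_PRE (hA_ALPH : S_A_ALPH) (hA_IND : S_A_IND) :
    S_A_PRE := by
  intro Γ r K hK
  choose y s h1 h2 h3 h4 h5 h6 using fun i => hA_ALPH Γ (K i) (hK i)
  choose a ha using expo Γ
  have hC : ∀ q : Γ.G × Γ.G, ∃ C : ℕ, ¬ IsOfFinOrder q.2 → ¬ Commute q.1 (q.2 ^ Γ.e) →
      ∀ m n : ℕ, Γ.len (q.1 ^ m) + Γ.len (q.2 ^ n) ≤ Γ.len (q.1 ^ m * q.2 ^ n) + C := fun q => by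
    by_cases e : ¬ IsOfFinOrder q.2 ∧ ¬ Commute q.1 (q.2 ^ Γ.e)
    · obtain ⟨C, hC⟩ := hA_IND Γ q.1 q.2 e.1 e.2
      exact ⟨C, fun _ _ => hC⟩
    · exact ⟨0, fun b c => absurd ⟨b, c⟩ e⟩
  choose C hC using hC
  have hU : (⋃ i, Set.range (y i)).Finite := Set.finite_iUnion h1
  have hm : ∀ i t, y i t ∈ ⋃ i, Set.range (y i) := fun i t => Set.mem_iUnion.2 ⟨i, t, rfl⟩
  obtain ⟨T, hT⟩ := (hU.image Γ.len).bddAbove
  obtain ⟨c, hc⟩ := ((hU.prod hU).image C).bddAbove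
  have hT' : ∀ i t, Γ.len (y i t) ≤ T := fun i t => hT ⟨_, hm i t, rfl⟩
  have hd : ∀ i (l : ℕ → ℕ) t, l t ≤ Γ.len (y i t ^ a (y i t) (l t)) ∧
      Γ.len (y i t ^ a (y i t) (l t)) ≤ l t + T := fun i l t => by
    have := ha (y i t) (l t) (h2 i t)
    have := hT' i t
    omega
  refine ⟨c + 2 * (2 * Γ.δ) + 1, T, ∑ i, s i, fun i l => pth (y i) fun t => a (y i t) (l t),
    fun i l t => pth (y i) (fun t => a (y i t) (l t)) t * y i t *
      (pth (y i) (fun t => a (y i t) (l t)) t)⁻¹, fun _ _ => rfl,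
    fun i l t k hk => pth_comm (fun t => h3 i t k hk) _ t, fun i l t => ?_,
    fun i l L U n hL hl => ⟨fun u v w b1 b2 b3 => ?_, fun t ht => ?_, fun t ht => ?_,
      fun t _ e => ?_, fun t _ => ⟨?_, ?_⟩, fun t _ e => ?_⟩, fun i l t0 g hg => ?_⟩
  · rw [d_step]
    exact hd i l t
  · refine (Geo0.chain (c := c) Γ.hyp' (fun t _ => ?_) (fun t ht => ?_) b1 b2 b3).mono (by omega)
    · have e1 := hC (y i t, y i (t + 1)) (h2 i _) (fun e => h5 i t (h4 i _ _ e))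
        (a (y i t) (l t)) (a (y i (t + 1)) (l (t + 1)))
      have e2 : C (y i t, y i (t + 1)) ≤ c := hc ⟨_, ⟨hm i t, hm i (t + 1)⟩, rfl⟩
      unfold Sp.Bt
      rw [d_step, d_step, d_two]
      exact e1.trans (Nat.add_le_add_left e2 _)
    · have := hd i l t
      have := hl t ht
      rw [d_step]
      omega
  · rw [d_step]
    exact (hl t ht).1.trans (hd i l t).1
  · rw [d_step]
    exact (hd i l t).2.trans (Nat.add_le_add_right (hl t ht).2 _)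
  · exact h2 i t (by
      simpa [mul_assoc] using
        (MulAut.conj (pth (y i) (fun t => a (y i t) (l t)) t)).symm.toMonoidHom.isOfFinOrder e)
  · rw [d_mv]
    exact hT' i t
  · beta_reduce
    rw [shift, d_mv]
    exact hT' i t
  · beta_reduce at e
    rw [shift (y i) _ t, conj_pow, cj] at e
    refine h5 i t (h4 i t _ ?_).symm
    simpa [mul_assoc] using e
  · have hk := h6 i t0 _ fun v hv => last (h4 i) hg v
      (hv.trans_le (Finset.single_le_sum (fun _ _ => Nat.zero_le _) (Finset.mem_univ i)))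
    have e := (pth_comm (fun t => h3 i t _ hk) (fun t => a (y i t) (l t)) t0).eq
    rw [← mul_assoc, mul_inv_cancel_left, mul_left_inj] at e
    exact e ▸ hk

end Pool.Agent.P.MP_dba3d2_lc


end

section

/-! Step A_OVL of the stability project. -/

namespace Pool.Agent.P.MP_dba3d2_lc

open Filter MP_4b59b0_al

theorem p_A_OVL (hA_CE0 : S_A_CE0) :
    S_A_OVL := by
  intro Γ c T
  obtain ⟨C, hC⟩ := hA_CE0 Γ
  refine ⟨C * (T + 6 * Γ.δ + 1) + c + 6 * Γ.δ + 2,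
    fun A B x y x' y' g h hh b1 b2 m1 m2 m3 m4 l1 l2 l3 l4 => ?_⟩
  generalize hW : C * (T + 6 * Γ.δ + 1) = W at *
  have u1 : Γ.sp.d A y ≤ Γ.sp.d A B + c := by unfold Sp.Bt at b1; omega
  obtain ⟨z, e1, f1⟩ := Γ.sp.geod' A B (max (Γ.sp.d A x) (Γ.sp.d A x') + 2 * Γ.δ + 1) (by omega)
  obtain ⟨w, e2, f2⟩ := Γ.sp.geod' A B
    (min (Γ.sp.d A y) (Γ.sp.d A y') - (c + 4 * Γ.δ + 1)) (by omega)
  have t := Γ.sp.tri A z w
  have q1 := Sp.qc Γ.iso Γ.hyp' m1 m2 (Geo0.coord Γ.hyp' f1 b1 (by omega) (by omega))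
  have q2 := Sp.qc Γ.iso Γ.hyp' m1 m2 (Geo0.coord Γ.hyp' f2 b1 (by omega) (by omega))
  have q3 := Sp.qc Γ.iso Γ.hyp' m3 m4 (Geo0.coord Γ.hyp' f1 b2 (by omega) (by omega))
  have q4 := Sp.qc Γ.iso Γ.hyp' m3 m4 (Geo0.coord Γ.hyp' f2 b2 (by omega) (by omega))
  exact hC (T + 6 * Γ.δ) g h z w hh (by omega) (by omega) (by omega) (by omega) (by omega)

end Pool.Agent.P.MP_dba3d2_lc


end

section

/-! Step A_WIN of the stability project. -/

namespace Pool.Agent.P.MP_dba3d2_lc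

open Filter MP_4b59b0_al

theorem p_A_WIN :
    S_A_WIN := by
  intro V X δ c D L U n M m P p q H hB hL hU hc hp hq hpq hM hd
  have hq' := hq
  have t1 := X.tri (P 0) p (P n)
  unfold Sp.Bt at hq' hpq
  obtain ⟨i, hi, a1, a2⟩ := Sp.ivt (fun j => X.d (P 0) (P j) ≤ X.d (P 0) p + c + δ) n
    (by rw [X.d_self]; exact Nat.zero_le _) (by omega)
  have hy : ∀ j, i + 1 ≤ j → j ≤ n → X.d (P 0) p + c + δ < X.d (P 0) (P j) := by
    intro j hj
    induction j, hj using Nat.le_induction with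
    | base => exact fun _ => not_le.1 a2
    | succ j _ ih =>
      intro hn
      have := ih (by omega)
      have h1 := hB 0 j (j + 1) (Nat.zero_le _) (Nat.le_succ _) hn
      have := hL j hn
      unfold Sp.Bt at h1
      omega
  have hx : X.d p (P (i + 1)) ≤ M := by
    have := H.l2 hp (hB 0 (i + 1) n (Nat.zero_le _) hi le_rfl)
    have := X.tri (P 0) (P i) (P (i + 1))
    have := hU i hi
    omega
  obtain ⟨j, hj, b1, b2⟩ := Sp.ivt (fun j => X.d p (P (i + 1 + j)) ≤ M) (n - (i + 1)) hx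
    (by rw [show i + 1 + (n - (i + 1)) = n by omega]; omega)
  have hv : ∀ v, i + 1 + j + v ≤ n → X.d p (P (i + 1 + j + v)) ≤ M + v * U := by
    intro v
    induction v with
    | zero => exact fun _ => by simpa using b1
    | succ v ih =>
      intro hn
      have := ih (by omega)
      have := X.tri p (P (i + 1 + j + v)) (P (i + 1 + j + v + 1))
      have := hU (i + 1 + j + v) hn
      rw [Nat.succ_mul, ← add_assoc (i + 1 + j)]
      omega
  have hm : i + 1 + j + m ≤ n := by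
    by_contra e
    have h1 := hv (n - (i + 1 + j)) (by omega)
    have h2 : (n - (i + 1 + j)) * U ≤ m * U := Nat.mul_le_mul_right _ (by omega)
    rw [show i + 1 + j + (n - (i + 1 + j)) = n by omega] at h1
    omega
  refine ⟨i + 1 + j, hm, b1, not_le.1 b2, fun v h => ?_, fun v h => ?_⟩
  · have h1 := hv v (by omega)
    have h2 : v * U ≤ m * U := Nat.mul_le_mul_right _ h
    have := X.tri (P 0) p (P (i + 1 + j + v))
    exact Geo0.coord H (hB 0 _ n (Nat.zero_le _) (by omega) le_rfl) hq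
      (hy _ (by omega) (by omega)) (by omega)
  · have := hy (i + 1 + j + v) (by omega) (by omega)
    have := hL (i + 1 + j + v) (by omega)
    have := X.symm p (P (i + 1 + j + v))
    have := X.symm p (P (i + 1 + j + v + 1))
    have := X.symm (P (i + 1 + j + v)) (P (i + 1 + j + v + 1))
    have h1 := H.l1 (hB 0 (i + 1 + j + v) (i + 1 + j + v + 1) (Nat.zero_le _) (Nat.le_succ _)
      (by omega)) p
    unfold Sp.Bt at h1
    omega

end Pool.Agent.P.MP_dba3d2_lc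


end
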