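import Pool.Agent.P.MP_dba3d2_lcM.Ab05

section

/-! Step A_MATCH of the stability project. -/

namespace Pool.Agent.P.MP_dba3d2_lc

open Filter MP_4b59b0_al

namespace A_match

/-- the overlap property with constant `W` -/
def Ovl (Γ : HG) (c T W : ℕ) : Prop := ∀ A B x y x' y' g h : Γ.G, ¬ IsOfFinOrder h →
  Γ.sp.Bt c A y B → Γ.sp.Bt c A y' B →
  Γ.sp.d x (h • x) ≤ T → Γ.sp.d y (h • y) ≤ T → Γ.sp.d x' (g • x') ≤ T → Γ.sp.d y' (g • y') ≤ T →
  Γ.sp.d A x + W ≤ Γ.sp.d A y → Γ.sp.d A x + W ≤ Γ.sp.d A y' →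
  Γ.sp.d A x' + W ≤ Γ.sp.d A y → Γ.sp.d A x' + W ≤ Γ.sp.d A y' → Commute g (h ^ Γ.e)

variable {Γ : HG} {c c' T W L U D n n' : ℕ} {P h Q h' : ℕ → Γ.G} {p q : Γ.G}

theorem straddle (hW : Ovl Γ c' T W) (HP : PCh Γ c T L U n P h) (HQ : PCh Γ c T L U n' Q h')
    {j k : ℕ} (hj : j + 2 ≤ n) (hk : k + 1 ≤ n') (b1 : Γ.sp.Bt c' p (P (j + 1)) q)
    (b2 : Γ.sp.Bt c' p (P (j + 1 + 1)) q) (b3 : Γ.sp.Bt c' p (Q (k + 1)) q)
    (e1 : Γ.sp.d p (P j) + W ≤ Γ.sp.d p (P (j + 1)))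
    (e2 : Γ.sp.d p (P (j + 1)) + W ≤ Γ.sp.d p (P (j + 1 + 1)))
    (e3 : Γ.sp.d p (Q k) + W ≤ Γ.sp.d p (P (j + 1)))
    (e4 : Γ.sp.d p (P (j + 1)) + W ≤ Γ.sp.d p (Q (k + 1))) : False := by
  have i1 := HQ.inf k (by omega)
  have m1 := HQ.mv k (by omega)
  have m2 := HP.mv j (by omega)
  have m3 := HP.mv (j + 1) (by omega)
  have c1 := hW p q (Q k) (Q (k + 1)) (P j) (P (j + 1)) (h j) (h' k) i1 b3 b1 m1.1 m1.2 m2.1 m2.2
    (by omega) (by omega) (by omega) (by omega)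
  have c2 := hW p q (Q k) (Q (k + 1)) (P (j + 1)) (P (j + 1 + 1)) (h (j + 1)) (h' k) i1 b3 b2
    m1.1 m1.2 m3.1 m3.2 (by omega) (by omega) (by omega) (by omega)
  exact HP.ind j (by omega) ((Geo0.ep0 i1 (HP.inf j (by omega)) c1 _).2 c2)

theorem core (hA_WIN : S_A_WIN) {s C : ℕ} (hW : Ovl Γ (c + 2 * (2 * Γ.δ)) T W)
    (hC : 2 * W + 4 * c + 10 * (2 * Γ.δ) + s + 20 ≤ C)
    (HP : PCh Γ c T L U n P h) (HQ : PCh Γ c T L U n' Q h') (hL : C ≤ L)
    (p1 : Γ.sp.Bt D (P 0) p (P n)) (p2 : Γ.sp.Bt D (P 0) q (P n))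
    (q1 : Γ.sp.Bt D (Q 0) p (Q n')) (q2 : Γ.sp.Bt D (Q 0) q (Q n'))
    (p3 : Γ.sp.Bt (2 * D + 2 * Γ.δ) (P 0) p q) (q3 : Γ.sp.Bt (2 * D + 2 * Γ.δ) (Q 0) p q)
    (hd : C * (U + D + 1) ≤ Γ.sp.d p q) :
    ∃ t t', t + s ≤ n ∧ t' + s ≤ n' ∧ ∀ v ≤ s, Γ.sp.d (P (t + v)) (Q (t' + v)) ≤ C := by
  have H := Γ.hyp'
  have hb : (s + 3) * U + 2 * U + 4 * D + 2 * c + 5 * (2 * Γ.δ) < Γ.sp.d p q := by
    have a1 : (s + 5) * U ≤ C * U := Nat.mul_le_mul_right _ (by omega)
    have a2 : 4 * D ≤ C * D := Nat.mul_le_mul_right _ (by omega)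
    have a3 : C * (U + D + 1) = C * U + C * D + C := by ring
    have a4 : (s + 5) * U = (s + 3) * U + 2 * U := by ring
    omega
  obtain ⟨t, t1, t2, t3, t4, t5⟩ := hA_WIN _ Γ.sp (2 * Γ.δ) c D L U n
    (U + D + c + 2 * (2 * Γ.δ)) (s + 3) P p q H HP.bt HP.lo HP.hi (by omega) p1 p2 p3 le_rfl
    (by omega)
  have hM : Γ.sp.d p (P (t + 1)) ≤ U + D + c + 2 * (2 * Γ.δ) + U := by
    have := Γ.sp.tri p (P t) (P (t + 1))
    have := HP.hi t (by omega)
    omega
  obtain ⟨u, u1, u2, u3, u4, u5⟩ := hA_WIN _ Γ.sp (2 * Γ.δ) c D L U n'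
    (Γ.sp.d p (P (t + 1))) (s + 3) Q p q H HQ.bt HQ.lo HQ.hi (by omega) q1 q2 q3 (by omega)
    (by omega)
  have tb : ∀ j, t ≤ j → j ≤ t + (s + 3) → Γ.sp.Bt (c + 2 * (2 * Γ.δ)) p (P j) q := by
    intro j a b
    have := t4 (j - t) (by omega)
    rwa [show t + (j - t) = j by omega] at this
  have ub : ∀ j, u ≤ j → j ≤ u + (s + 3) → Γ.sp.Bt (c + 2 * (2 * Γ.δ)) p (Q j) q := by
    intro j a b
    have := u4 (j - u) (by omega)
    rwa [show u + (j - u) = j by omega] at this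
  have ts : ∀ j, t ≤ j → j < t + (s + 3) → Γ.sp.d p (P j) + 2 * W ≤ Γ.sp.d p (P (j + 1)) := by
    intro j a b
    have := t5 (j - t) (by omega)
    rw [show t + (j - t) = j by omega] at this
    omega
  have us : ∀ j, u ≤ j → j < u + (s + 3) → Γ.sp.d p (Q j) + 2 * W ≤ Γ.sp.d p (Q (j + 1)) := by
    intro j a b
    have := u5 (j - u) (by omega)
    rw [show u + (j - u) = j by omega] at this
    omega
  obtain ⟨k, k1, k2, k3⟩ : ∃ k, u ≤ k ∧ k ≤ u + 1 ∧
      (Γ.sp.d p (P (t + 1)) < Γ.sp.d p (Q k) + W ∧ Γ.sp.d p (Q k) < Γ.sp.d p (P (t + 1)) + W) := by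
    by_contra hc
    have a1 := ts t le_rfl (by omega)
    have a2 := ts (t + 1) (by omega) (by omega)
    have a3 : Γ.sp.d p (Q u) + W ≤ Γ.sp.d p (P (t + 1)) := by
      by_contra e
      exact hc ⟨u, le_rfl, by omega, by omega, by omega⟩
    have a4 : Γ.sp.d p (P (t + 1)) + W ≤ Γ.sp.d p (Q (u + 1)) := by
      by_contra e
      exact hc ⟨u + 1, by omega, le_rfl, by omega, by omega⟩
    exact straddle hW HP HQ (j := t) (k := u) (by omega) (by omega)
      (tb _ (by omega) (by omega)) (tb _ (by omega) (by omega)) (ub _ (by omega) (by omega))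
      (by omega) (by omega) a3 a4
  have key : ∀ v ≤ s, Γ.sp.d p (P (t + 1 + v)) < Γ.sp.d p (Q (k + v)) + W ∧
      Γ.sp.d p (Q (k + v)) < Γ.sp.d p (P (t + 1 + v)) + W := by
    intro v
    induction v with
    | zero => exact fun _ => k3
    | succ v ih =>
      intro hv
      obtain ⟨i1, i2⟩ := ih (by omega)
      have a1 := ts (t + 1 + v) (by omega) (by omega)
      have a2 := ts (t + 1 + v + 1) (by omega) (by omega)
      have a3 := us (k + v) (by omega) (by omega)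
      have a4 := us (k + v + 1) (by omega) (by omega)
      rw [← Nat.add_assoc, ← Nat.add_assoc]
      constructor
      · by_contra e
        exact straddle hW HQ HP (j := k + v) (k := t + 1 + v) (by omega) (by omega)
          (ub _ (by omega) (by omega)) (ub _ (by omega) (by omega)) (tb _ (by omega) (by omega))
          (by omega) (by omega) (by omega) (by omega)
      · by_contra e
        exact straddle hW HP HQ (j := t + 1 + v) (k := k + v) (by omega) (by omega)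
          (tb _ (by omega) (by omega)) (tb _ (by omega) (by omega)) (ub _ (by omega) (by omega))
          (by omega) (by omega) (by omega) (by omega)
  refine ⟨t + 1, k, by omega, by omega, fun v hv => ?_⟩
  obtain ⟨i1, i2⟩ := key v hv
  rcases H.l2 (tb (t + 1 + v) (by omega) (by omega)) (ub (k + v) (by omega) (by omega)) with
    e | e <;> omega

theorem half (hA_WIN : S_A_WIN) {s C : ℕ} (hW : Ovl Γ (c + 2 * (2 * Γ.δ)) T W)
    (hC : 2 * W + 4 * c + 10 * (2 * Γ.δ) + s + 20 ≤ C)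
    (HP : PCh Γ c T L U n P h) (HQ : PCh Γ c T L U n' Q h') (hL : C ≤ L)
    (p1 : Γ.sp.Bt D (P 0) p (P n)) (p2 : Γ.sp.Bt D (P 0) q (P n))
    (q1 : Γ.sp.Bt D (Q 0) p (Q n')) (q2 : Γ.sp.Bt D (Q 0) q (Q n'))
    (p3 : Γ.sp.Bt (2 * D + 2 * Γ.δ) (P 0) p q) (hd : C * (U + D + 1) ≤ Γ.sp.d p q) :
    ∃ t t', t + s ≤ n ∧ ((t' + s ≤ n' ∧ ∀ v ≤ s, Γ.sp.d (P (t + v)) (Q (t' + v)) ≤ C) ∨
      (s ≤ t' ∧ t' ≤ n' ∧ ∀ v ≤ s, Γ.sp.d (P (t + v)) (Q (t' - v)) ≤ C)) := by
  rcases Γ.hyp'.l2 q1 q2 with e | e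
  · obtain ⟨t, t', a, b, d⟩ := core hA_WIN hW hC HP HQ hL p1 p2 q1 q2 p3
      (by unfold Sp.Bt; omega) hd
    exact ⟨t, t', a, Or.inl ⟨b, d⟩⟩
  · have q3 : Γ.sp.Bt (2 * D + 2 * Γ.δ) (Q n') p q := by
      have := Γ.sp.tri (Q 0) q (Q n')
      have := Γ.sp.symm p (Q n')
      have := Γ.sp.symm q (Q n')
      unfold Sp.Bt at *
      omega
    obtain ⟨t, u, a, b, d⟩ := core hA_WIN hW hC HP HQ.rev hL p1 p2
      (by simpa using q1.symm) (by simpa using q2.symm) p3 (by simpa using q3) hd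
    refine ⟨t, n' - u, a, Or.inr ⟨by omega, by omega, fun v hv => ?_⟩⟩
    have := d v hv
    rwa [show n' - (u + v) = n' - u - v by omega] at this

end A_match

theorem p_A_MATCH (hA_OVL : S_A_OVL) (hA_WIN : S_A_WIN) :
    S_A_MATCH := by
  intro Γ c T s
  obtain ⟨W, hW⟩ := hA_OVL Γ (c + 2 * (2 * Γ.δ)) T
  refine ⟨2 * W + 4 * c + 10 * (2 * Γ.δ) + s + 20, ?_⟩
  intro L U D n n' P h Q h' p q HP HQ hL p1 p2 q1 q2 hd
  rcases Γ.hyp'.l2 p1 p2 with e | e
  · exact A_match.half hA_WIN hW le_rfl HP HQ hL p1 p2 q1 q2 (by unfold Sp.Bt; omega) hd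
  · have := Γ.sp.symm p q
    exact A_match.half hA_WIN hW le_rfl HP HQ hL p2 p1 q2 q1 (by unfold Sp.Bt; omega)
      (by omega)

end Pool.Agent.P.MP_dba3d2_lc


end

section

/-! Step A_BW of the stability project. -/

namespace Pool.Agent.P.MP_dba3d2_lc

open Filter MP_4b59b0_al

namespace A_bw

theorem near {V : Type} (X : Sp V) {x y x' y' : V} {c : ℕ} (h1 : X.d x x' ≤ c)
    (h2 : X.d y y' ≤ c) : X.d x y ≤ X.d x' y' + 2 * c ∧ X.d x' y' ≤ X.d x y + 2 * c := by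
  have := X.tri x x' y
  have := X.tri x' y' y
  have := X.tri x' x y'
  have := X.tri x y y'
  have := X.symm x x'
  have := X.symm y y'
  omega

end A_bw

theorem p_A_BW (hA_PRE : S_A_PRE) (hA_MATCH : S_A_MATCH) (hA_CE0 : S_A_CE0) :
    S_A_BW := by
  intro Γ r K hK
  obtain ⟨c, T, s, P, h, p1, p2, p3, p4, p5⟩ := hA_PRE Γ r K hK
  obtain ⟨C1, hM⟩ := hA_MATCH Γ c T (s + 2)
  obtain ⟨C0, hC⟩ := hA_CE0 Γ
  obtain ⟨C, hc, h1, h0, hT⟩ : ∃ C, c ≤ C ∧ C1 * (T + 1) ≤ C ∧ C0 * (C1 + T + 1) ≤ C ∧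
      T + 2 * C1 ≤ C :=
    ⟨c + C1 * (T + 1) + C0 * (C1 + T + 1) + T + 2 * C1, by omega, by omega, by omega, by omega⟩
  refine ⟨C, P, p2, fun i l n hl => ?_, ?_⟩
  · have H := p4 i l C (∑ t ∈ Finset.range n, l t) n hc fun t ht => ⟨hl t ht,
      Finset.single_le_sum (f := l) (fun _ _ => Nat.zero_le _) (Finset.mem_range.2 ht)⟩
    have key : ∀ m ≤ n, ∑ t ∈ Finset.range m, l t ≤ Γ.sp.d (P i l 0) (P i l m) + C * m ∧
        Γ.sp.d (P i l 0) (P i l m) ≤ ∑ t ∈ Finset.range m, l t + C * m := fun m hm => by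
      induction m with
      | zero => simp [Γ.sp.d_self]
      | succ m ih =>
        have a1 := ih (by omega)
        have a2 := H.bt 0 m (m + 1) (by omega) (by omega) hm
        have a3 := p3 i l m
        have a4 := Γ.sp.tri (P i l 0) (P i l m) (P i l (m + 1))
        unfold Sp.Bt at a2
        rw [Finset.sum_range_succ, mul_add, mul_one]
        omega
    have := key n le_rfl
    rwa [p1, Γ.d_one] at this
  intro i j l l' n n' U D g p q hl hl' b1 b2 b3 b4 hd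
  have H := p4 i l C U n hc hl
  have e : ∀ a b, Γ.sp.d (g • P j l' a) (g • P j l' b) = Γ.sp.d (P j l' a) (P j l' b) :=
    fun a b => Γ.iso g _ _
  obtain ⟨t, t', ht, hv⟩ := hM C (U + T) D n n' _ _ _ _ p q H ((p4 j l' C U n' hc hl').smul g)
    (by omega) (by rwa [p1]) (by rwa [p1]) (by simpa only [p1, smul_eq_mul, mul_one] using b3)
    (by simpa only [p1, smul_eq_mul, mul_one] using b4) (le_trans (by
      refine le_trans ?_ (Nat.mul_le_mul_right _ h1)
      rw [mul_assoc]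
      exact Nat.mul_le_mul_left _ (by nlinarith [Nat.zero_le (T * U), Nat.zero_le (T * D)])) hd)
  rcases hv with ⟨ht', hv⟩ | ⟨hs, ht', hv⟩
  · have k : l t ≤ l' t' + C ∧ l' t' ≤ l t + C := by
      have a1 := A_bw.near _ (hv 0 (by omega)) (hv 1 (by omega))
      have a2 := p3 i l t
      have a3 := p3 j l' t'
      simp only [e, add_zero] at a1
      omega
    refine ⟨⟨t, by omega, t', by omega, k⟩, fun hij hll hinj => ?_⟩
    subst hij hll
    obtain rfl := hinj t t' k.1 k.2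
    refine p5 i l t g fun v hvs => ?_
    have m := H.mv (t + v) (by omega)
    have a1 := hv v (by omega)
    have a2 := hv (v + 1) (by omega)
    exact hC (C1 + T) g _ (P i l (t + v)) (P i l (t + v + 1)) (H.inf _ (by omega))
      (a1.trans (by omega)) (le_trans a2 (by omega)) (m.1.trans (by omega))
      (m.2.trans (by omega)) (h0.trans (H.lo _ (by omega)))
  · have k : ∀ v a, v < 2 → t' = a + 1 + v → l (t + v) ≤ l' a + C ∧ l' a ≤ l (t + v) + C :=
      fun v a hv2 ha => by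
      have a1 := A_bw.near _ (hv v (by omega)) (hv (v + 1) (by omega))
      have a2 := p3 i l (t + v)
      have a3 := p3 j l' a
      have a4 := Γ.sp.symm (P j l' a) (P j l' (a + 1))
      simp only [e, show t' - v = a + 1 by omega, show t' - (v + 1) = a by omega,
        ← add_assoc] at a1
      omega
    have k0 := k 0 (t' - 1) (by omega) (by omega)
    have k1 := k 1 (t' - 2) (by omega) (by omega)
    refine ⟨⟨t + 0, by omega, t' - 1, by omega, k0⟩, fun hij hll hinj => ?_⟩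
    subst hij hll
    have := hinj _ _ k0.1 k0.2
    have := hinj _ _ k1.1 k1.2
    omega

end Pool.Agent.P.MP_dba3d2_lc


end

section

/-! Step A_BW2 of the stability project. -/

namespace Pool.Agent.P.MP_dba3d2_lc

open Filter MP_4b59b0_al

namespace A_bw2

/-- the block lengths -/
def lam (c r i b t : ℕ) : ℕ := (c + 1) * (r * (b / ((c + 1) * r) + t + 1) + i)

variable {c r i j b b' t t' : ℕ}

theorem le_lam (hi : i < r) : b ≤ lam c r i b t := by
  have h := Nat.lt_mul_div_succ b (show 0 < (c + 1) * r from Nat.mul_pos (by omega) (by omega))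
  refine h.le.trans ?_
  unfold lam
  rw [mul_assoc]
  exact Nat.mul_le_mul_left _ (le_add_right (Nat.mul_le_mul_left _ (by omega)))

theorem c_le (hi : i < r) : c ≤ lam c r i b t := by
  have : 0 < r * (b / ((c + 1) * r) + t + 1) + i :=
    Nat.add_pos_left (Nat.mul_pos (by omega) (Nat.succ_pos _)) _
  exact (Nat.le_succ c).trans (Nat.le_mul_of_pos_right _ this)

theorem lam_le {n : ℕ} (hi : i < r) (ht : t < n) : lam c r i b t ≤ b + (c + 1) * r * (n + 1) := by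
  have h := Nat.mul_div_le b ((c + 1) * r)
  have h1 : (c + 1) * i ≤ (c + 1) * r := Nat.mul_le_mul_left _ hi.le
  have h2 : (c + 1) * r * (t + 1) ≤ (c + 1) * r * n := Nat.mul_le_mul_left _ ht
  have h3 : lam c r i b t =
      (c + 1) * r * (b / ((c + 1) * r)) + (c + 1) * r * (t + 1) + (c + 1) * i := by
    unfold lam
    ring
  rw [h3, mul_add_one _ n]
  omega

theorem near {x y : ℕ} (h : (c + 1) * x ≤ (c + 1) * y + c) : x ≤ y := by
  by_contra hc
  have := Nat.mul_le_mul_left (c + 1) (show y + 1 ≤ x by omega)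
  rw [mul_add_one] at this
  omega

theorem lam_inj (hi : i < r) (hj : j < r) (h : lam c r i b t ≤ lam c r j b' t' + c)
    (h' : lam c r j b' t' ≤ lam c r i b t + c) :
    lam c r i b t = lam c r j b' t' ∧ i = j ∧ (b = b' → t = t') := by
  have e := le_antisymm (near h) (near h')
  have e1 : i = j := by
    have := congrArg (· % r) e
    simpa only [Nat.mul_add_mod, Nat.mod_eq_of_lt hi, Nat.mod_eq_of_lt hj] using this
  refine ⟨by unfold lam; rw [e], e1, ?_⟩
  rintro rfl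
  subst e1
  have := Nat.eq_of_mul_eq_mul_left (by omega : 0 < r) (Nat.add_right_cancel e)
  omega

end A_bw2

open A_bw2

theorem p_A_BW2 (hA_BW : S_A_BW) :
    S_A_BW2 := by
  intro Γ r K hK
  obtain ⟨c, P, h1, h2, h3⟩ := hA_BW Γ r K hK
  have hC : (c + 1) * r + c ≤ (c + 1) * ((c + 1) * r + 1) := by
    rw [add_one_mul c ((c + 1) * r + 1), mul_add_one c]
    omega
  refine ⟨(c + 1) * ((c + 1) * r + 1), fun i b n => P i (lam c r i b) n,
    fun i b n => h1 i _ n, fun i b n => ?_, fun i b n => ?_, ?_⟩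
  · have e := (h2 i (lam c r i b) n fun t _ => c_le i.2).1
    have e1 := Finset.card_nsmul_le_sum (Finset.range n) (lam c r i b) b fun t _ => le_lam i.2
    rw [Finset.card_range, smul_eq_mul] at e1
    have e2 : c * n ≤ (c + 1) * ((c + 1) * r + 1) * n := Nat.mul_le_mul_right _ (by omega)
    exact (e1.trans e).trans (Nat.add_le_add_left e2 _)
  · have e := (h2 i (lam c r i b) n fun t _ => c_le i.2).2
    have e1 := Finset.sum_le_card_nsmul (Finset.range n) (lam c r i b)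
      (b + (c + 1) * r * (n + 1)) fun t ht => lam_le i.2 (Finset.mem_range.1 ht)
    rw [Finset.card_range, smul_eq_mul] at e1
    have e2 := Nat.mul_le_mul_right (n * (n + 1)) hC
    have e3 : c * n ≤ c * (n * (n + 1)) :=
      Nat.mul_le_mul_left _ (Nat.le_mul_of_pos_right _ (by omega))
    refine (e.trans (Nat.add_le_add_right e1 _)).trans ?_
    rw [mul_assoc _ n]
    nlinarith
  · intro i j b b' n n' D g p q b1 b2 b3 b4 hd
    have m1 : (c + 1) * r * (n + 1) ≤ (c + 1) * r * (n + n' + 1) :=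
      Nat.mul_le_mul_left _ (by omega)
    have m2 : (c + 1) * r * (n' + 1) ≤ (c + 1) * r * (n + n' + 1) :=
      Nat.mul_le_mul_left _ (by omega)
    obtain ⟨⟨t, ht, t', ht', a1, a2⟩, a3⟩ := h3 i j (lam c r i b) (lam c r j b') n n'
      (b + b' + (c + 1) * r * (n + n' + 1)) D g p q
      (fun t ht => ⟨c_le i.2, (lam_le i.2 ht).trans (by omega)⟩)
      (fun t ht => ⟨c_le j.2, (lam_le j.2 ht).trans (by omega)⟩) b1 b2 b3 b4 (by
        refine le_trans ?_ hd
        have m3 : (c + 1) * r * (n + n' + 1) ≤ (c + 1) * r * (b + b' + n + n' + D + 1) :=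
          Nat.mul_le_mul_left _ (by omega)
        rw [mul_assoc (c + 1) _ (b + b' + n + n' + D + 1)]
        refine Nat.mul_le_mul (by omega) ?_
        rw [add_one_mul ((c + 1) * r)]
        omega)
    obtain ⟨e1, e2, -⟩ := lam_inj i.2 j.2 a1 a2
    obtain rfl : i = j := Fin.ext e2
    have m4 := Nat.mul_le_mul_right (n + 1) (le_of_add_le_left hC)
    have m5 := Nat.mul_le_mul_right (n' + 1) (le_of_add_le_left hC)
    have l1 := le_lam (c := c) (b := b) (t := t) i.2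
    have l2 := le_lam (c := c) (b := b') (t := t') i.2
    have l3 := lam_le (c := c) (b := b) i.2 ht
    have l4 := lam_le (c := c) (b := b') i.2 ht'
    refine ⟨rfl, by omega, by omega, ?_⟩
    rintro rfl -
    exact a3 rfl rfl fun s s' u u' => (lam_inj i.2 i.2 u u').2.2 rfl

end Pool.Agent.P.MP_dba3d2_lc


end

section

/-! Step A_OVM of the stability project. -/

namespace Pool.Agent.P.MP_dba3d2_lc

open Filter MP_4b59b0_al

namespace A_ovm

theorem bt {V : Type} (X : Sp V) {x m y : V} {D : ℝ}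
    (h : (X.d x m : ℝ) + X.d m y ≤ X.d x y + D) : 0 ≤ D ∧ X.Bt ⌊D⌋₊ x m y := by
  have t : (X.d x y : ℝ) ≤ X.d x m + X.d m y := by exact_mod_cast X.tri x m y
  refine ⟨by linarith, ?_⟩
  have h1 : X.d x m + X.d m y - X.d x y ≤ ⌊D⌋₊ := Nat.le_floor (by
    rw [Nat.cast_sub (X.tri x m y)]
    push_cast
    linarith)
  unfold Sp.Bt
  omega

end A_ovm

theorem p_A_OVM :
    S_A_OVM := by
  intro Γ r K C w hw hK a i j b b' n n' D g p q h1 h2 h3 h4 h5
  induction D using Germ.inductionOn with | h D => ?_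
  induction g using Germ.inductionOn with | h g => ?_
  induction p using Germ.inductionOn with | h p => ?_
  induction q using Germ.inductionOn with | h q => ?_
  have key : ∀ᶠ t in (a.V : Filter a.I), i = j ∧ b t ≤ b' t + C * (n' t + 1) ∧
      b' t ≤ b t + C * (n t + 1) ∧ (b t = b' t → n t = n' t → g t ∈ K i) := by
    filter_upwards [Germ.coe_le.1 h1, Germ.coe_le.1 h2, Germ.coe_le.1 h3, Germ.coe_le.1 h4,
      Germ.coe_le.1 h5] with t e1 e2 e3 e4 e5
    obtain ⟨d0, k1⟩ := A_ovm.bt Γ.sp (D := D t) e1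
    refine hw.ov i j (b t) (b' t) (n t) (n' t) ⌊D t⌋₊ (g t) (p t) (q t) k1
      (A_ovm.bt Γ.sp e2).2 (A_ovm.bt Γ.sp e3).2 (A_ovm.bt Γ.sp e4).2 ?_
    have e6 : (C : ℝ) * ((b t : ℝ) + b' t + n t + n' t + D t + 1) ≤ Γ.sp.d (p t) (q t) := e5
    refine (Nat.cast_le (α := ℝ)).1 (le_trans ?_ e6)
    push_cast
    gcongr
    exact Nat.floor_le d0
  refine ⟨key.exists.elim fun _ h => h.1, Germ.coe_le.2 (key.mono fun t h => ?_),
    Germ.coe_le.2 (key.mono fun t h => ?_), fun e e' => ?_⟩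
  · show (b t : ℝ) ≤ b' t + C * (n' t + 1)
    exact_mod_cast h.2.1
  · show (b' t : ℝ) ≤ b t + C * (n t + 1)
    exact_mod_cast h.2.2.1
  · obtain ⟨x, hx, hx'⟩ := (Ultrafilter.eventually_exists_mem_iff (P := fun x t => x = g t)
      (Set.toFinite (K i : Set Γ.G))).1 (key.mono fun t h =>
        ⟨g t, h.2.2.2 (congrFun e t) (congrFun e' t), rfl⟩)
    exact ⟨x, hx, Germ.coe_eq.2 hx'⟩

end Pool.Agent.P.MP_dba3d2_lc


end

section

/-! Step A_BWM of the stability project. -/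

namespace Pool.Agent.P.MP_dba3d2_lc

open Filter MP_4b59b0_al

namespace A_bwm

variable {Γ : HG} {a : Amb} {μ : a.K}

theorem on_move {p g u : MM Γ a} (h : On μ p 1 u) (h' : Ll (ds p (g * p)) μ) :
    On μ p g (g * u) := by
  refine Ll.mono_left ?_ (Ll.add h (h'.add h'))
  have h1 := ds_tri g (g * p) p
  have h2 := ds_tri p (g * p) (g * u)
  have h3 : ds g (g * p) = ds 1 p := by rw [← ds_mul_left g 1 p, mul_one]
  have h4 : ds g (g * u) = ds 1 u := by rw [← ds_mul_left g 1 u, mul_one]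
  rw [ds_mul_left] at h2
  rw [ds_comm (g * p) p] at h1
  linarith

theorem on_short {p g w : MM Γ a} (h : On μ p g (g * w)) (h' : Ll (ln w) μ) : Ll (ds g p) μ := by
  refine Ll.mono_left ?_ (Ll.add h h')
  have h4 : ds g (g * w) = ln w := by rw [← ds_one_left w, ← ds_mul_left g 1 w, mul_one]
  linarith [ds_nonneg p (g * w)]

end A_bwm

theorem p_A_BWM (hA_OVM : S_A_OVM) :
    S_A_BWM := by
  intro Γ r K C w hw hK a μ b n hμ hb hn hs
  have self : ∀ i j (g p q : MM Γ a), Ov μ p q 1 (gw (w i) (b i) n) g (g * gw (w j) (b j) n) →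
      i = j ∧ g ∈ (K i).map (cst Γ a) := by
    rintro i j g p q ⟨h0, h1, h2, h3, h4⟩
    have t1 := ds_tri 1 p (gw (w i) (b i) n : MM Γ a)
    have t2 := ds_tri 1 q (gw (w i) (b i) n : MM Γ a)
    have t3 := ds_tri g p (g * gw (w j) (b j) n)
    have t4 := ds_tri g q (g * gw (w j) (b j) n)
    have hD := Ll.add (Ll.add h1 h2) (Ll.add h3 h4)
    have h5 := (((((((hb i).add (hb j)).add hn).add hn).add hD).add
      (big_iff_ll.1 hμ)).nat_mul C).ls_right h0 (ds_nonneg p q) 1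
    rw [Nat.cast_one, one_mul] at h5
    obtain ⟨rfl, -, -, h6⟩ := hA_OVM Γ r K C w hw hK a i j (b i) (b j) n n _ g p q
      (by linarith) (by linarith) (by linarith) (by linarith) h5
    exact ⟨rfl, h6 rfl rfl⟩
  refine ⟨hK, hs, fun i k hk => ?_, fun i p q h0 h1 h2 ⟨g, hg, h3, h4⟩ => ?_, self,
    fun i x hx _ g p q ⟨h0, _, _, h3, h4⟩ => ?_⟩
  · exact Germ.coe_eq.2 (Eventually.of_forall fun j => hw.comm i (b i j) (n j) k hk)
  · obtain ⟨-, k, hk, rfl⟩ := self i i g p q ⟨h0, h1, h2, A_bwm.on_move h1 h3, A_bwm.on_move h2 h4⟩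
    have := hK i
    exact hg ((cst Γ a).isOfFinOrder
      ((K i).subtype.isOfFinOrder (isOfFinOrder_of_finite (⟨k, hk⟩ : K i))))
  · have h5 := hμ.ll_of_not_big (mem_std_iff.1 hx)
    refine (Ll.mono_left ?_ ((A_bwm.on_short h3 h5).add (A_bwm.on_short h4 h5))).not_ls hμ.pos h0
    rw [ds_comm g p]
    exact ds_tri p g q

end Pool.Agent.P.MP_dba3d2_lc


end

section

/-! Step GMIC of the stability project. -/

namespace Pool.Agent.P.MP_dba3d2_lc

open Filter

namespace Gmic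

theorem le_of (a : Amb) (f g : ℕ → ℝ) (N : ℕ) (h : ∀ n, N ≤ n → f n ≤ g n) :
    (Germ.ofFun (fun p : (a.pow U0).I => f p.1) : (a.pow U0).K) ≤
      Germ.ofFun fun p : (a.pow U0).I => g p.1 := by
  refine Germ.coe_le.2 ?_
  change ∀ᶠ j in (U0 : Filter ℕ), ∀ᶠ _i in (a.V : Filter a.I), f j ≤ g j
  have := (eventually_ge_atTop N).filter_mono
    (Nat.cofinite_eq_atTop ▸ hyperfilter_le_cofinite : (U0 : Filter ℕ) ≤ atTop)
  exact this.mono fun j hj => Eventually.of_forall fun _ => h j hj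

end Gmic

theorem p_GMIC (hA_BW2 : S_A_BW2) (hA_BWM : S_A_BWM) :
    S_GMIC := by
  intro Γ r K hK
  obtain ⟨C, w, hw⟩ := hA_BW2 Γ r K hK
  refine ⟨fun i n => w i n n, fun n => (n : ℝ) * n, fun a => ?_⟩
  have e1 : (a.mk' U0 fun n : ℕ => (((n : ℝ) * n : ℝ) : a.K)) =
      Germ.ofFun fun p : (a.pow U0).I => (p.1 : ℝ) * p.1 :=
    Bas2A.mk_coe U0 fun (n : ℕ) (_ : a.I) => (n : ℝ) * n
  have e2 : (fun i => a.mk' U0 fun n => cst Γ a (w i n n)) =
      fun i => gw (a := a.pow U0) (w i) Prod.fst Prod.fst :=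
    funext fun i => Bas2A.mk_coe U0 fun (n : ℕ) (_ : a.I) => w i n n
  rw [e1, e2]
  have hl : Ll (nK (a := a.pow U0) Prod.fst)
      (Germ.ofFun fun p : (a.pow U0).I => (p.1 : ℝ) * p.1) := fun N =>
    Gmic.le_of a (fun n => (N : ℝ) * n) (fun n => (n : ℝ) * n) N fun n hn => by
      exact_mod_cast Nat.mul_le_mul_right n hn
  have hb : Big (K := (a.pow U0).K) (Germ.ofFun fun p : (a.pow U0).I => (p.1 : ℝ) * p.1) :=
    fun N => Gmic.le_of a (fun _ => (N : ℝ)) (fun n => (n : ℝ) * n) N fun n hn => by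
      exact_mod_cast hn.trans (Nat.le_mul_self n)
  refine ⟨hb, hA_BWM Γ r K C w hw (fun i => (hK i).1) (a.pow U0) _ (fun _ => Prod.fst) Prod.fst
    hb (fun _ => hl) hl fun i => ⟨⟨1 + 2 * C, ?_⟩, ⟨2, ?_⟩⟩⟩
  · refine Gmic.le_of a (fun n => (Γ.len (w i n n) : ℝ))
      (fun n => ((1 + 2 * C : ℕ) : ℝ) * ((n : ℝ) * n)) 0 fun n _ => ?_
    have h1 := hw.hi i n n
    have h2 := Nat.mul_le_mul_left C (Nat.le_mul_self n)
    exact_mod_cast (by nlinarith : Γ.len (w i n n) ≤ (1 + 2 * C) * (n * n))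
  · refine Gmic.le_of a (fun n => (n : ℝ) * n)
      (fun n => ((2 : ℕ) : ℝ) * (Γ.len (w i n n) : ℝ)) (2 * C) fun n hn => ?_
    have h1 := hw.lo i n n
    have h2 := Nat.mul_le_mul_right n hn
    exact_mod_cast (by nlinarith : n * n ≤ 2 * Γ.len (w i n n))

end Pool.Agent.P.MP_dba3d2_lc


end

section

/-! Step A_LIN2 of the stability project. -/

namespace Pool.Agent.P.MP_dba3d2_lc

open Filter MP_4b59b0_al

namespace A_lin2

variable {Γ : HG} {a : Amb} {μ : a.K}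

theorem ds_pow (c r : MM Γ a) (n : ℕ) : ds r (c ^ n * r) ≤ n * ds r (c * r) := by
  induction n with
  | zero => simp
  | succ n ih =>
    have := ds_tri r (c * r) (c * (c ^ n * r))
    rw [ds_mul_left, ← mul_assoc, ← pow_succ'] at this
    push_cast
    linarith

theorem ipow_inv (c : MM Γ a) (k : a.Z) : ipow c⁻¹ k = ipow c (-k) :=
  Germ.inductionOn₂ c k fun f g => Bas1.geq fun i => inv_zpow' (f i) (g i)

theorem ipow_zero (c : MM Γ a) : ipow c 0 = 1 :=
  Germ.inductionOn c fun f => Bas1.geq fun i => zpow_zero (f i)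

theorem ipow_one (c : MM Γ a) : ipow c 1 = c :=
  Germ.inductionOn c fun f => Bas1.geq fun i => zpow_one (f i)

theorem zK_zero : zK (0 : a.Z) = 0 := Bas1.geq fun _ => Int.cast_zero

theorem zK_one : zK (1 : a.Z) = 1 := Bas1.geq fun _ => Int.cast_one

theorem zK_sub (k l : a.Z) : zK (k - l) = zK k - zK l := by
  rw [sub_eq_add_neg, zK_add, zK_neg, sub_eq_add_neg]

theorem ls_real (hμ : 0 < μ) (r : ℝ) : Ls |(r : a.K) * μ| μ := by
  obtain ⟨n, hn⟩ := exists_nat_ge |r|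
  refine ⟨n, ?_⟩
  rw [abs_mul, abs_of_pos hμ, ← cR_apply, ← map_abs]
  exact mul_le_mul_of_nonneg_right (Germ.const_le hn) hμ.le

theorem exists_real (hμ : 0 < μ) {x : a.K} (hx : Ls |x| μ) : ∃ t : ℝ, Ll |x - (t : a.K) * μ| μ := by
  refine ⟨rl μ x, ?_⟩
  have h := ls_real hμ (rl μ x)
  rcases abs_choice (x - (rl μ x : a.K) * μ) with e | e <;> rw [e]
  · rw [← rl_nonpos_iff hμ (ls_abs_sub hx h), rl_sub hμ hx h, rl_real hμ, sub_self]
  · rw [neg_sub, ← rl_nonpos_iff hμ (ls_abs_sub h hx), rl_sub hμ h hx, rl_real hμ, sub_self]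

theorem exists_near {L : a.K} (hL : 0 < L) (x : ℝ) :
    ∃ k : a.Z, |zK k * L - (x : a.K) * μ| ≤ L ∧ (x = 0 → k = 0) := by
  by_cases h : x = 0
  · refine ⟨0, ?_, fun _ => rfl⟩
    rw [h, ← cR_apply, map_zero, zK_zero, zero_mul, zero_mul, sub_self, abs_zero]
    exact hL.le
  · obtain ⟨k, h1, h2⟩ := exists_floor ((x : a.K) * μ / L)
    rw [le_div_iff₀ hL] at h1
    rw [div_lt_iff₀ hL] at h2
    exact ⟨k, abs_le.2 ⟨by linarith, by linarith⟩, fun e => absurd e h⟩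

end A_lin2

open A_lin2

theorem p_A_LIN2 (hELEM : S_ELEM) (hA_LINEU : S_A_LINEU) (hA_CE : S_A_CE) :
    S_A_LIN2 := by
  rintro Γ a μ p q hμ hpq ⟨c, hc, hcp, hcq⟩
  have h0 := hμ.pos
  obtain ⟨z, hzc⟩ : ∃ z, z = c ^ Γ.e := ⟨_, rfl⟩
  have hz : ¬ IsOfFinOrder z := hzc ▸ Geo0.pow_inf hc Γ.good.pos.ne'
  have hzp : Ll (ds p (z * p)) μ := hzc ▸ (hcp.nat_mul _).mono_left (ds_pow c p _)
  have hzq : Ll (ds q (z * q)) μ := hzc ▸ (hcq.nat_mul _).mono_left (ds_pow c q _)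
  obtain ⟨C, hC⟩ := hA_LINEU Γ
  obtain ⟨L, h1, -, h2, h3, h4⟩ := hC a z hz
  have hL : 0 < L := not_le.1 fun h =>
    (one_pos.trans_le h1).not_ge (mul_nonpos_of_nonneg_of_nonpos C.cast_nonneg h)
  have hLμ : Ll L μ := hzp.mono_left (by simpa only [zK_one, abs_one, one_mul, ipow_one] using h2 p 1)
  have hE := hzp.nat_mul C
  have bas : ∀ j j' : a.Z, |zK j * L - zK j' * L| ≤ ds (ipow z j * p) (ipow z j' * p) ∧
      ds (ipow z j * p) (ipow z j' * p) ≤ |zK j * L - zK j' * L| + C * ds p (z * p) := fun j j' => by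
    have e : ipow z j' * p = ipow z j * (ipow z (j' - j) * p) := by
      rw [← mul_assoc, ← ipow_add, add_sub_cancel]
    have e' : |zK j * L - zK j' * L| = |zK (j' - j)| * L := by
      rw [← sub_mul, abs_mul, abs_of_pos hL, zK_sub, abs_sub_comm]
    rw [e, e', ds_mul_left]
    exact ⟨h2 p _, h3 p _⟩
  choose k hk hk0 using exists_near (μ := μ) hL
  have near : ∀ (j : a.Z) (x : ℝ), Ll |zK j * L - (x : a.K) * μ| μ →
      Ll (ds (ipow z j * p) (ipow z (k x) * p)) μ := fun j x h => by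
    refine ((h.add hLμ).add hE).mono_left ((bas j (k x)).2.trans (add_le_add_left ?_ _))
    refine (abs_sub_le _ ((x : a.K) * μ) _).trans (add_le_add_right ?_ _)
    rw [abs_sub_comm]
    exact hk x
  have iso : ∀ s t : ℝ, Ll |ds (ipow z (k s) * p) (ipow z (k t) * p) - ((|s - t| : ℝ) : a.K) * μ| μ :=
    fun s t => by
    have e : ((|s - t| : ℝ) : a.K) * μ = |(s : a.K) * μ - (t : a.K) * μ| := by
      rw [← sub_mul, abs_mul, abs_of_pos h0, ← cR_apply, map_abs, map_sub, cR_apply, cR_apply]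
    have e1 := abs_le.1 (abs_abs_sub_abs_le_abs_sub (zK (k s) * L - zK (k t) * L)
      ((s : a.K) * μ - (t : a.K) * μ))
    have e2 := abs_sub (zK (k s) * L - (s : a.K) * μ) (zK (k t) * L - (t : a.K) * μ)
    rw [sub_sub_sub_comm] at e2
    have e3 := bas (k s) (k t)
    have e4 : 0 ≤ (C : a.K) * ds p (z * p) := mul_nonneg C.cast_nonneg (ds_nonneg _ _)
    refine ((hLμ.add hLμ).add hE).mono_left ?_
    rw [e]
    exact abs_le.2 ⟨by linarith [hk s, hk t, e1.1, e3.1], by linarith [hk s, hk t, e1.2, e3.2]⟩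
  have mov : ∀ j : a.Z, ds (ipow z j * p) (c * (ipow z j * p)) = ds p (c * p) := fun j => by
    rw [← mul_assoc, (commute_ipow (hzc ▸ Commute.self_pow c Γ.e) j).eq, mul_assoc, ds_mul_left]
  refine ⟨fun x => ipow z (k x) * p, by simp only [hk0 0 rfl, ipow_zero, one_mul], ?_, iso,
    fun s t => ⟨c, hc, by simpa only [mov] using hcp, by simpa only [mov] using hcp⟩,
    fun g s t s' t' hst h h' => ?_⟩
  · obtain ⟨j, hj⟩ := h4 p q
    have a1 := ((hzp.add hzq).nat_mul C).mono_left hj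
    have a2 := (bas 0 j).1
    rw [zK_zero, zero_mul, zero_sub, abs_neg, ipow_zero, one_mul] at a2
    obtain ⟨t, ht⟩ := exists_real h0 ((hpq.add a1.ls).mono_left (a2.trans (ds_tri _ q _)))
    exact ⟨t, (a1.add (near j t ht)).mono_left (ds_tri _ _ _)⟩
  · obtain ⟨C', hC'⟩ := hA_CE Γ
    have a1 : ∀ j : a.Z, ds (g * (ipow z j * p)) (g * c * g⁻¹ * (g * (ipow z j * p))) =
        ds p (c * p) := fun j => by
      rw [mul_assoc (g * c), inv_mul_cancel_left, mul_assoc g c, ds_mul_left, mov]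
    have a2 : ∀ (u : MM Γ a) (j : a.Z),
        ds u (c * u) ≤ ds p (c * p) + ds u (ipow z j * p) + ds u (ipow z j * p) := fun u j => by
      have b1 := ds_tri u (ipow z j * p) (c * u)
      have b2 := ds_tri (ipow z j * p) (c * (ipow z j * p)) (c * u)
      rw [mov, ds_mul_left, ds_comm _ u] at b2
      linarith
    have a3 : Ls μ (ds (g * (ipow z (k s) * p)) (g * (ipow z (k t) * p))) := by
      rw [ds_mul_left, ← not_ll_iff' h0]
      intro b
      refine ((b.add (iso s t)).mono_left ?_).not_ls h0 ((rl_pos_iff h0 (ls_real h0 |s - t|)).1 ?_)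
      · linarith [neg_abs_le (ds (ipow z (k s) * p) (ipow z (k t) * p) - ((|s - t| : ℝ) : a.K) * μ)]
      · rw [rl_real h0]
        exact abs_pos.2 (sub_ne_zero.2 hst.ne)
    have n1 := ds_nonneg (g * (ipow z (k s) * p)) (ipow z (k s') * p)
    have n2 := ds_nonneg (g * (ipow z (k t) * p)) (ipow z (k t') * p)
    have a4 := (((((((hcp.add h).add h).add h').add h').add (big_iff_ll.1 hμ)).nat_mul C').ls_right
      a3 (ds_nonneg _ _)) 1
    rw [Nat.cast_one, one_mul] at a4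
    have a5 := (hC' a _ (g * c * g⁻¹) _ _ (by rw [a1]; linarith) (by rw [a1]; linarith)).1 c hc
      (by linarith [a2 (g * (ipow z (k s) * p)) (k s')])
      (by linarith [a2 (g * (ipow z (k t) * p)) (k t')]) a4
    obtain ⟨-, e2, -, e4, -⟩ := hELEM Γ a c hc
    have a6 := (e4 g).2 (e2 _ a5 fun b => hc (by
      simpa [mul_assoc] using (MulAut.conj g).symm.toMonoidHom.isOfFinOrder b))
    rw [InE, ← hzc] at a6
    obtain ⟨ε, hε, a7⟩ : ∃ ε : ℝ, (ε = 1 ∨ ε = -1) ∧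
        ∀ j, ∃ j', g * ipow z j * g⁻¹ = ipow z j' ∧ zK j' = (ε : a.K) * zK j := by
      rcases a6 with b | b
      · exact ⟨1, Or.inl rfl, fun j => ⟨j, by rw [← ipow_conj, b], by
          rw [← cR_apply, map_one, one_mul]⟩⟩
      · exact ⟨-1, Or.inr rfl, fun j => ⟨-j, by rw [← ipow_conj, b, ipow_inv], by
          rw [← cR_apply, map_neg, map_one, neg_one_mul, zK_neg]⟩⟩
    refine ⟨ε, s' - ε * s, hε, fun x => ?_⟩
    obtain ⟨j, b1, b2⟩ := a7 (k x - k s)
    have b3 : g * (ipow z (k x) * p) = ipow z j * (g * (ipow z (k s) * p)) := by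
      rw [← b1, mul_assoc _ g⁻¹, inv_mul_cancel_left, mul_assoc, ← mul_assoc (ipow z _), ← ipow_add,
        sub_add_cancel]
    have b4 := near (j + k s') (ε * x + (s' - ε * s)) (((hLμ.add hLμ).add hLμ).mono_left (by
      have c1 := abs_le.1 (hk x)
      have c2 := abs_le.1 (hk s)
      have c3 := abs_le.1 (hk s')
      rw [zK_add, b2, zK_sub, ← cR_apply (ε * x + _), map_add, map_sub, map_mul, map_mul,
        ← cR_apply ε]
      simp only [cR_apply x, cR_apply s, cR_apply s']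
      rcases hε with rfl | rfl
      · rw [map_one]
        exact abs_le.2 ⟨by linarith [c1.1, c2.2, c3.1], by linarith [c1.2, c2.1, c3.2]⟩
      · rw [map_neg, map_one]
        exact abs_le.2 ⟨by linarith [c1.2, c2.1, c3.1], by linarith [c1.1, c2.2, c3.2]⟩))
    refine (h.add b4).mono_left ((ds_tri _ (ipow z (j + k s') * p) _).trans_eq ?_)
    rw [b3, ipow_add, mul_assoc, ds_mul_left]

end Pool.Agent.P.MP_dba3d2_lc


end

section

/-! Step RTA of the stability project. -/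

namespace Pool.Agent.P.MP_dba3d2_lc

open Filter

namespace Rta

section tree
variable (R : RT)

theorem d_comm (x y : R.W) : R.d x y = R.d y x := by
  rw [LG.d, ← R.l_inv, mul_inv_rev, inv_inv, LG.d]

theorem d_tri (x y z : R.W) : R.d x z ≤ R.d x y + R.d y z := by
  have := R.l_mul (x⁻¹ * y) (y⁻¹ * z)
  rwa [mul_assoc, mul_inv_cancel_left] at this

theorem d_mul (g x y : R.W) : R.d (g * x) (g * y) = R.d x y := by
  rw [LG.d, mul_inv_rev, mul_assoc, inv_mul_cancel_left, LG.d]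

theorem d_nonneg (x y : R.W) : 0 ≤ R.d x y := by
  have h := d_tri R x y x
  rw [d_comm R y x, LG.d, inv_mul_cancel, R.l_one] at h
  linarith

theorem four (x y z w : R.W) :
    R.d x y + R.d w z ≤ R.d x z + R.d w y ∨ R.d x y + R.d w z ≤ R.d y z + R.d w x :=
  le_max_iff.1 (by
    have h := R.hyp (w⁻¹ * x) (w⁻¹ * y) (w⁻¹ * z)
    have e : ∀ u v : R.W, (w⁻¹ * u)⁻¹ * (w⁻¹ * v) = u⁻¹ * v := fun u v => by group
    rwa [e, e, e] at h)

theorem fix0 {p r m g : R.W} (h : R.d p r + R.d m r ≤ R.d m p) (hm : R.d m (g * m) = 0)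
    (hp : R.d p (g * p) ≤ R.d p r) : R.d r (g * r) = 0 := by
  have k : ∀ x, R.d m (g * x) = R.d m x := fun x => by
    have a := d_tri R m (g * m) (g * x)
    have b := d_tri R (g * m) m (g * x)
    rw [d_mul] at a b
    rw [d_comm R (g * m) m] at b
    linarith
  have a := four R r (g * p) p m
  have b := four R r (g * r) (g * p) m
  rw [k, d_comm R r p, d_comm R (g * p) p] at a
  rw [k, k, d_mul, d_comm R r p] at b
  have c := d_nonneg R p r
  have c' := d_nonneg R r (g * r)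
  rcases a with a | a <;> rcases b with b | b <;> linarith

theorem fix {p q r m g : R.W} (hr : R.On r p q) (hm : R.d m (g * m) = 0)
    (hp : R.d p (g * p) ≤ R.d p r) (hq : R.d q (g * q) ≤ R.d q r) : R.d r (g * r) = 0 := by
  unfold LG.On at hr
  have a := four R r m p q
  rw [d_comm R q p, d_comm R r m, d_comm R r p, d_comm R q m] at a
  rw [d_comm R r q] at hr
  rcases a with a | a
  · exact fix0 R (by linarith) hm hq
  · exact fix0 R (by linarith) hm hp

end tree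

theorem transport {R R' : RT} {e : ℕ} (φ : R.W ≃* R'.W) (h : ∀ g, R.ℓ g = R'.ℓ (φ g))
    (H : R'.Ax e) : R.Ax e := by
  have hd : ∀ x y, R.d x y = R'.d (φ x) (φ y) := fun x y => by
    rw [LG.d, h, map_mul, map_inv, LG.d]
  have hs : ∀ p q g, R.Stab p q g ↔ R'.Stab (φ p) (φ q) (φ g) := fun p q g => by
    rw [LG.Stab, hd, hd, map_mul, map_mul, LG.Stab]
  have hp : ∀ p q, R.Per p q ↔ R'.Per (φ p) (φ q) := fun p q =>
    φ.toEquiv.exists_congr fun g => and_congr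
      (not_congr (φ.injective.isOfFinOrder_iff (f := (φ : R.W →* R'.W))).symm) (hs p q g)
  refine ⟨fun p q a b => ?_, fun p q a b => ?_, fun p q a b => ?_⟩
  · have e1 : {g | R.Stab p q g} = φ ⁻¹' {g | R'.Stab (φ p) (φ q) g} := Set.ext (hs p q)
    obtain ⟨c, c'⟩ := H.fin _ _ (hd p q ▸ a) (mt (hp p q).2 b)
    rw [e1]
    exact ⟨c.preimage φ.injective.injOn,
      (Set.ncard_le_ncard_of_injOn φ (fun _ x => x) φ.injective.injOn c).trans c'⟩
  · obtain ⟨ε, h0, c⟩ := H.small _ _ (hd p q ▸ a) (mt (hp p q).2 b)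
    refine ⟨ε, h0, fun g r => ?_⟩
    simp only [LG.On, hd, map_mul]
    exact c _ _
  · obtain ⟨L, hL, s, t, c, c'⟩ := H.line _ _ (hd p q ▸ a) ((hp p q).1 b)
    refine ⟨fun x => φ.symm (L x), ⟨fun s t => ?_, fun s t k => ?_, fun g s t s' t' k => ?_⟩, s, t,
      ?_, ?_⟩
    · rw [hd, φ.apply_symm_apply, φ.apply_symm_apply, hL.iso]
    · rw [hp, φ.apply_symm_apply, φ.apply_symm_apply]
      exact hL.per s t k
    · simp only [hd, map_mul, MulEquiv.apply_symm_apply]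
      exact hL.rig _ s t s' t' k
    · rwa [hd, φ.apply_symm_apply]
    · rwa [hd, φ.apply_symm_apply]

variable {Γ : HG} {a : Amb} {μ : a.K}

theorem ls_real (hμ : 0 ≤ μ) (r : ℝ) : Ls ((r : a.K) * μ) μ := by
  obtain ⟨n, hn⟩ := exists_nat_ge r
  exact ⟨n, mul_le_mul_of_nonneg_right (Germ.const_le hn) hμ⟩

theorem rl_eq (hμ : 0 < μ) {x y : a.K} (hx : Ls |x| μ) (hy : Ls |y| μ) (h : Ll |x - y| μ) :
    rl μ x = rl μ y :=
  le_antisymm (rl_le_add hμ hx hy (abs_nonneg _) h (by linarith [le_abs_self (x - y)]))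
    (rl_le_add hμ hy hx (abs_nonneg _) h (by linarith [neg_abs_le (x - y)]))

theorem mem_of (hμ : Big μ) (p : ball Γ μ) {m : MM Γ a} (h : Ls (ds (p : MM Γ a) m) μ) :
    m ∈ ball Γ μ := by
  have := mul_mem p.2 ((mem_ball hμ.pos.le).2 h)
  rwa [mul_inv_cancel_left] at this

end Rta

open Rta

theorem p_RTA (hTORS : S_TORS) (hA_SMALL : S_A_SMALL) (hA_LIN2 : S_A_LIN2) :
    S_RTA := by
  intro Γ a μ R φ hμ hl
  have h0 := hμ.pos
  refine transport (R' := rtAt Γ μ hμ) φ hl ⟨fun (p q : ball Γ μ) h1 h2 => ?_,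
    fun (p q : ball Γ μ) h1 h2 => ?_, fun (p q : ball Γ μ) h1 h2 => ?_⟩
  · replace h2 := mt (rt_per hμ p q).2 h2
    obtain ⟨c, c'⟩ := hTORS Γ a (StabG μ (p : MM Γ a) q) fun k hk => by
      by_contra hc
      exact h2 ⟨k, hc, (mem_stabG h0.le).1 hk⟩
    have k : ∀ g ∈ {g : ball Γ μ | (rtAt Γ μ hμ).Stab p q g}, (g : MM Γ a) ∈
        (StabG μ (p : MM Γ a) q : Set (MM Γ a)) := fun g hg =>
      (mem_stabG h0.le).2 ((rt_stab hμ p q g).1 hg)
    have f : (StabG μ (p : MM Γ a) q : Set (MM Γ a)).Finite := c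
    exact ⟨Set.Finite.of_injOn k Subtype.val_injective.injOn f,
      (Set.ncard_le_ncard_of_injOn _ k Subtype.val_injective.injOn f).trans c'⟩
  · replace h2 := mt (rt_per hμ p q).2 h2
    obtain ⟨n, hn, m, hm, c⟩ := hA_SMALL Γ a μ _ _ hμ ((rt_d_pos hμ p q).1 h1) h2
    have n0 : (0 : ℝ) < n := Nat.cast_pos.2 hn
    have hb : m ∈ ball Γ μ := mem_of hμ p (Ls.mono_left
      ((le_add_of_nonneg_right (ds_nonneg _ _)).trans (hm.le.trans (le_abs_self _))) (ls_ds hμ p q))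
    have k : ∀ x y : ball Γ μ, (rtAt Γ μ hμ).d x y ≤ 1 / (2 * n) →
        n * ds (x : MM Γ a) y ≤ μ := fun x y h => by
      have b := le_of_rl_lt h0 (ls_ds hμ x y) (r := 1 / n)
        (h.trans_lt (one_div_lt_one_div_of_lt n0 (by linarith)))
      have n1 : (0 : a.K) < n := Nat.cast_pos.2 hn
      rw [← cR_apply, map_div₀, map_one, map_natCast, one_div, ← div_eq_inv_mul,
        le_div_iff₀ n1, mul_comm] at b
      exact b
    refine ⟨1 / (2 * n), by positivity, fun (g r : ball Γ μ) hr b1 b2 b3 b4 => ?_⟩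
    have k1 := k p (g * p) b1
    have k2 := k q (g * q) b2
    rw [Subgroup.coe_mul] at k1 k2
    have c2 := (rt_d_zero hμ ⟨m, hb⟩ (g * ⟨m, hb⟩)).2 (by rw [Subgroup.coe_mul]; exact c g k1 k2)
    exact fix (rtAt Γ μ hμ) (p := p) (q := q) (r := r) (m := (⟨m, hb⟩ : ball Γ μ)) (g := g) hr c2
      b3 b4
  · replace h2 := (rt_per hμ p q).1 h2
    obtain ⟨L, l0, ⟨t, lt⟩, l1, l2, l3⟩ := hA_LIN2 Γ a μ _ _ hμ
      (Ls.mono_left (le_abs_self _) (ls_ds hμ p q)) h2
    have hb : ∀ x, L x ∈ ball Γ μ := fun x => mem_of hμ p (by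
      rw [← l0]
      refine Ls.mono_left ?_ ((l1 0 x).ls.add (ls_real h0.le |0 - x|))
      linarith [le_abs_self (ds (L 0) (L x) - ((|0 - x| : ℝ) : a.K) * μ)])
    obtain ⟨L', e⟩ : ∃ L' : ℝ → ball Γ μ, ∀ x, (L' x : MM Γ a) = L x :=
      ⟨fun x => ⟨L x, hb x⟩, fun _ => rfl⟩
    simp only [← e] at l0 lt l1 l2 l3
    refine ⟨L', ⟨fun s t => ?_, fun s t _ => (rt_per hμ (L' s) (L' t)).2 (l2 s t),
      fun (g : ball Γ μ) s t s' t' k b1 b2 => ?_⟩, 0, t, (rt_d_zero hμ p (L' 0)).2 ?_,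
      (rt_d_zero hμ q (L' t)).2 lt⟩
    · refine (rt_d hμ (L' s) (L' t)).trans ?_
      rw [rl_eq h0 (ls_ds hμ (L' s) (L' t)) (ls_abs (mul_nonneg
        (Germ.const_le (abs_nonneg (s - t))) h0.le) (ls_real h0.le _)) (l1 s t), rl_real h0]
    · have k1 := (rt_d_zero hμ (g * L' s) (L' s')).1 b1
      have k2 := (rt_d_zero hμ (g * L' t) (L' t')).1 b2
      rw [Subgroup.coe_mul] at k1 k2
      obtain ⟨ε, b, e, c⟩ := l3 g s t s' t' k k1 k2
      exact ⟨ε, b, e, fun x => (rt_d_zero hμ (g * L' x) (L' (ε * x + b))).2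
        (by rw [Subgroup.coe_mul]; exact c x)⟩
    · exact Ll.of_nonpos (by rw [l0, ds_self]) h0.le

end Pool.Agent.P.MP_dba3d2_lc


end
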