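import Pool.Agent.P.MP_dba3d2_lcM.Ab00
import Pool.Agent.P.MP_dba3d2_lcM.Ab03
import Pool.Agent.P.MP_dba3d2_lcM.Ab04

section

/-! Interface, chapter B, second layer. -/

namespace Pool.Agent.P.MP_dba3d2_lc

open Filter

-- deps: TORS ELEM LINE PERC A_SMALL
-- imports: Pool.Agent.P.MP_dba3d2_lc.B.Axis2
def S_B_SMALL : Prop := ∀ (Γ : HG) (a : Amb) (μ : a.K) (p q : MM Γ a), Big μ → Ls μ (ds p q) →
  ¬ Per μ p q → ∃ (r s : MM Γ a) (n : ℕ), On μ r p q ∧ On μ s p q ∧ Ls μ (ds r s) ∧ ¬ Per μ r s ∧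
    0 < n ∧ {g | Stab μ r s g}.Finite ∧
    ∀ g, n * ds p (g * p) ≤ μ → n * ds q (g * q) ≤ μ → Stab μ r s g

-- deps:
-- imports: Pool.Agent.P.MP_dba3d2_lc.B.Tre
def S_B_APX : Prop := ∀ (Γ : HG) (a b : Amb) (E : Ext a b) (μ : a.K) (x y : MM Γ a) (p : MM Γ b),
  Big μ → Ls (ds x y) μ → On (E.mp μ) p (E.hom Γ x) (E.hom Γ y) →
  ∃ p0, On μ p0 x y ∧ Ll (ds p (E.hom Γ p0)) (E.mp μ)

-- deps: B_SMALL
-- imports: Pool.Agent.P.MP_dba3d2_lc.B.Fix
def S_B_STX : Prop := ∀ (Γ : HG) (a : Amb) (μ : a.K) (p q : MM Γ a), Big μ → Ls μ (ds p q) →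
  ¬ Per μ p q → ∃ r s : MM Γ a, On μ r p q ∧ On μ s p q ∧ Ls μ (ds r s) ∧ ¬ Per μ r s ∧
    ∀ (b : Amb) (E : Ext a b) (u : MM Γ b), Stab (E.mp μ) (E.hom Γ p) (E.hom Γ q) u →
      ∃ u0, u = E.hom Γ u0 ∧ Stab μ r s u0

-- deps:
def S_B_CLO : Prop := ∀ (G : Type) [Group G] (H : Subgroup G) (X : Set G) (W : List G → Set G),
  X.Countable → X ⊆ H → (∀ l, (W l).Countable) → (∀ l, (∀ x ∈ l, x ∈ H) → W l ⊆ H) →
  ∃ H0 ≤ H, X ⊆ H0 ∧ (H0 : Set G).Countable ∧ ∀ l, (∀ x ∈ l, x ∈ H0) → W l ⊆ H0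

-- deps:
-- imports: Pool.Agent.P.MP_dba3d2_lc.B.Tre
def S_B_NET : Prop := ∀ (Γ : HG) (a : Amb) (x y : MM Γ a), ∃ R : Set (MM Γ a), R.Countable ∧
  ∀ μ : a.K, Big μ → Ls (ds x y) μ →
    (∀ p, On μ p x y → ∀ n : ℕ, ∃ r ∈ R, On μ r x y ∧ n * ds p r ≤ μ) ∧
    ∀ p q, On μ p x y → On μ q x y → Ls μ (ds p q) →
      ∃ r ∈ R, On μ r p q ∧ Ls μ (ds p r) ∧ Ls μ (ds r q)

-- deps: ELEM LINE PERC B_SMALL B_NET
-- imports: Pool.Agent.P.MP_dba3d2_lc.B.Axis2
def S_B_CN2 : Prop := ∀ (Γ : HG) (a : Amb) (h h' : MM Γ a),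
  {g | ∃ (μ : a.K) (p q : MM Γ a), Big μ ∧ Ls (ln h) μ ∧ Ls (ln h') μ ∧
    Ov μ p q 1 h g (g * h') ∧ ¬ Per μ p q}.Countable

-- deps: TORS ELEM PERC B_NET
-- imports: Pool.Agent.P.MP_dba3d2_lc.B.Axis2
def S_B_CN0 : Prop := ∀ (Γ : HG) (a : Amb) (h : MM Γ a),
  {c | Prim c ∧ ∃ (μ : a.K) (p q : MM Γ a), Big μ ∧ Ls (ln h) μ ∧ Ls μ (ds p q) ∧
    On μ p 1 h ∧ On μ q 1 h ∧ Stab μ p q c}.Countable

-- deps: LINE
-- imports: Pool.Agent.P.MP_dba3d2_lc.B.Axis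
def S_B_CVK : Prop := ∀ (Γ : HG) (a : Amb) (H : Subgroup (MM Γ a)) (μ : a.K) (c u v : MM Γ a),
  Cvx H → Big μ → c ∈ H → ¬ IsOfFinOrder c → u ∈ H → v ∈ H → Stab μ u v c → Ls μ (ds u v) →
  ∀ k : a.Z, Ls (ds u (ipow c k * u)) μ → ipow c k ∈ H

-- deps: ELEM LINE B_CVK
-- imports: Pool.Agent.P.MP_dba3d2_lc.B.Axis
def S_B_CVE : Prop := ∀ (Γ : HG) (a : Amb) (H : Subgroup (MM Γ a)), Cvx H →
  (∀ μ, Big μ → ∀ h ∈ H, Ls (ln h) μ → ∀ c ∈ H, Prim c → Ls (ln c) μ → Ll (md c) μ →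
    ∃ f ∈ H, f ∈ Ep c ∧ Ll (2 * ds f h - (ln c + ln (h⁻¹ * c * h))) μ) ∧
  ∀ c ∈ H, Prim c → ∀ f ∈ H, f ∈ Ep c → ∀ n : ℕ, 0 < n →
    ∃ f' ∈ H, f' ∈ Ep c ∧ ∃ r : ℕ, IsOfFinOrder (f⁻¹ * (f' ^ n * c ^ r))

-- deps: ELEM LINE PERC
-- imports: Pool.Agent.P.MP_dba3d2_lc.B.Axis2
def S_B_RT1 : Prop := ∀ (Γ : HG) (a : Amb) (H : Subgroup (MM Γ a)), GC0 H →
  ∀ γ ∈ H, ¬ IsOfFinOrder γ → ∃ c ∈ H, Prim c ∧ Ep c = Ep γ

-- deps: ELEM LINE PERC NP
-- imports: Pool.Agent.P.MP_dba3d2_lc.B.Axis2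
def S_B_RT2 : Prop := ∀ (Γ : HG) (a : Amb) (H : Subgroup (MM Γ a)), GC0 H →
  ∀ c ∈ H, ∀ c' ∈ H, Prim c → Prim c' → ∀ x, Cj x c' c →
    (Ll (ln x) (ln c + ln c') → x ∈ H) ∧ (Cen c → Cen c' → Ls (ln x) (md c) → x ∈ H)

-- deps: ELEM LINE NP
-- imports: Pool.Agent.P.MP_dba3d2_lc.B.Axis2
def S_B_RG0 : Prop := ∀ (Γ : HG) (a : Amb) (H : Subgroup (MM Γ a)) (μ : a.K), GC0 H → Big μ →
  ∀ c ∈ H, ∀ d ∈ H, ∀ c' ∈ H, ∀ d' ∈ H, Prim c → Prim d → Prim c' → Prim d' →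
    Ls (ln c) μ → Ls (ln d) μ → Ls (ln c') μ → Ls (ln d') μ → Ll (md c) μ → Ll (md d) μ →
    (∀ q, Ls μ (ds q (c * q) + ds q (d * q))) →
    ∀ x, Ls (ln x) μ → Cj x c' c → Cj x d' d → x ∈ H

-- deps: ELEM LINE ROOT
-- imports: Pool.Agent.P.MP_dba3d2_lc.B.Axis2
def S_B_NM1 : Prop := ∀ (Γ : HG) (a : Amb) (H : Subgroup (MM Γ a)), GC0 H →
  ∀ c ∈ H, Prim c → Cen c → ∀ h ∈ H, ∃ f ∈ H, f ∈ Ep c ∧
    Ls (ln (h * f)) (ln (h * c * h⁻¹)) ∧ NE c (h * f)

end Pool.Agent.P.MP_dba3d2_lc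


end

section

/-! Shared toolbox, part one: scales, displacement, algebra of elementary closures, minimisers. -/

namespace Pool.Agent.P.MP_dba3d2_lc

open Filter

section scales
variable {K : Type} [Field K] [LinearOrder K] [IsStrictOrderedRing K] {x y z μ ν : K}

theorem Big.ll_nat (h : Big μ) (n : ℕ) : Ll (n : K) μ :=
  h.ll_of_not_big fun e => by
  have := e (n + 1); push_cast at this; linarith
theorem Big.ll_one (h : Big μ) : Ll 1 μ :=
  big_iff_ll.1 h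
theorem Ll.zero (h : 0 ≤ μ) : Ll 0 μ :=
  Ll.of_nonpos le_rfl h
theorem Ls.zero (h : 0 ≤ μ) : Ls 0 μ :=
  Ls.of_le h
theorem Ls.pos (h : Ls μ y) (h0 : 0 < μ) : 0 < y := by
  obtain ⟨n, e⟩ := h
  exact pos_of_mul_pos_right (h0.trans_le e) n.cast_nonneg
/-- a negligible quantity is smaller than every quantity of the scale -/
theorem Ll.lt_of_ls (h : Ll x μ) (h' : Ls μ y) (h0 : 0 < μ) (n : ℕ) : n * x < y := by
  obtain ⟨m, e⟩ := h'
  have y0 := Ls.pos ⟨m, e⟩ h0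
  have a := h ((m + 1) * n)
  push_cast at a
  exact lt_of_mul_lt_mul_left (a := (m : K) + 1) (by linarith) (by positivity)
theorem Ls.of_le_add (h : Ls μ x) (h' : Ll y μ) (_h0 : 0 < μ) (n : ℕ) (e : x ≤ n * z + y) :
    Ls μ z := by
  obtain ⟨m, a⟩ := h
  have b := h' (2 * m)
  have c := mul_le_mul_of_nonneg_left e (m.cast_nonneg (α := K))
  refine ⟨2 * m * n, ?_⟩
  push_cast at b ⊢
  linarith
theorem Ll.two (h : Ll x μ) : Ll (2 * x) μ := by simpa using h.nat_mul 2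
theorem Ll.half (h : Ll (2 * x) μ) : Ll x μ := by
  rcases le_total x 0 with e | e
  · exact Ll.of_nonpos e h.nonneg
  · exact Ll.mono_left (by linarith) h
theorem Ls.two (h : Ls x μ) : Ls (2 * x) μ := by simpa using h.nat_mul 2
omit [IsStrictOrderedRing K] in
theorem Ll.max (h : Ll x μ) (h' : Ll y μ) : Ll (max x y) μ := by
  rcases max_choice x y with e | e <;> rwa [e]
omit [IsStrictOrderedRing K] in
theorem Ll.abs (h : Ll x μ) (h' : Ll (-x) μ) : Ll |x| μ :=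
  Ll.max h h'
theorem ll_irrefl (h : 0 < x) : ¬ Ll x x :=
  fun e => e.not_ls h (Ls.refl' x)
theorem ll_or_ls (h : 0 < μ) (x : K) : Ll x μ ∨ Ls μ x :=
  (em _).imp_right (not_ll_iff' h).1
/-- the scale argument -/
theorem ls_of_scale (hy : 1 ≤ y) (h : Big x → Ll y x → False) : Ls x y := by
  by_contra e
  have k : Ll y x := fun n => (not_le.1 fun a => e ⟨n, a⟩).le
  exact h (big_iff_ll.2 (k.mono_left hy)) k
theorem not_big_of_ls (h : Ls x y) (hy : ¬ Big y) : ¬ Big x :=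
  fun e => hy (e.of_ls h)
theorem not_big_add (hx : ¬ Big x) (hy : ¬ Big y) : ¬ Big (x + y) := by
  obtain ⟨n, a⟩ := not_big_iff.1 hx
  obtain ⟨m, b⟩ := not_big_iff.1 hy
  exact not_big_iff.2 ⟨n + m, by push_cast; linarith⟩
theorem not_big_nat (n : ℕ) : ¬ Big (n : K) :=
  not_big_iff.2 ⟨n + 1, by push_cast; linarith⟩
theorem Ls.add_cases (h : Ls μ (x + y)) : Ls μ x ∨ Ls μ y := by
  rcases le_total x y with e | e
  · exact Or.inr (h.trans' ⟨2, by push_cast; linarith⟩)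
  · exact Or.inl (h.trans' ⟨2, by push_cast; linarith⟩)
theorem Sim.ll_iff (h : Sim μ ν) (h0 : 0 ≤ μ) (h1 : 0 ≤ ν) : Ll x μ ↔ Ll x ν :=
  ⟨fun e => e.ls_right h.1 h1, fun e => e.ls_right h.2 h0⟩
theorem Sim.big_iff (h : Sim μ ν) : Big μ ↔ Big ν :=
  ⟨fun e => e.of_ls h.1, fun e => e.of_ls h.2⟩
/-- if `x` is at most `C / n` times the scale up to negligible errors, for all `n`, it is negligible -/
theorem ll_of_forall (h0 : 0 < μ) (h : ∀ n : ℕ, 0 < n → Ll (n * x - μ) μ) : Ll x μ :=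
  fun n => by
  rcases n.eq_zero_or_pos with rfl | hn
  · simpa using h0.le
  have := h (2 * n) (by omega) 1
  push_cast at this
  linarith
end scales

variable {Γ : HG} {a b : Amb} {μ ν : a.K} {c c' d f g h p q x y x' y' : MM Γ a}

theorem Big.ll_delta (hμ : Big μ) (Γ : HG) : Ll (Γ.δ : a.K) μ :=
  hμ.ll_nat _
theorem Sim.on_iff (s : Sim μ ν) (h0 : 0 ≤ μ) (h1 : 0 ≤ ν) : On μ p x y ↔ On ν p x y :=
  s.ll_iff h0 h1
theorem Sim.stab_iff (s : Sim μ ν) (h0 : 0 ≤ μ) (h1 : 0 ≤ ν) : Stab μ p q g ↔ Stab ν p q g :=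
  and_congr (s.ll_iff h0 h1) (s.ll_iff h0 h1)
theorem Sim.per_iff (s : Sim μ ν) (h0 : 0 ≤ μ) (h1 : 0 ≤ ν) : Per μ p q ↔ Per ν p q :=
  exists_congr fun _ => and_congr_right fun _ => s.stab_iff h0 h1
theorem Sim.ov_iff (s : Sim μ ν) (h0 : 0 ≤ μ) (h1 : 0 ≤ ν) :
    Ov μ p q x y x' y' ↔ Ov ν p q x y x' y' :=
  and_congr ⟨s.2.trans', s.1.trans'⟩ (and_congr (s.on_iff h0 h1) (and_congr (s.on_iff h0 h1)
    (and_congr (s.on_iff h0 h1) (s.on_iff h0 h1))))
theorem Sim.fol_iff (s : Sim μ ν) (h0 : 0 ≤ μ) (h1 : 0 ≤ ν) : Fol μ h c ↔ Fol ν h c :=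
  exists_congr fun _ => and_congr ⟨s.2.trans', s.1.trans'⟩
    (and_congr (s.on_iff h0 h1) (s.stab_iff h0 h1))

/-! displacement -/
theorem ds_conj (c p : MM Γ a) : ds p (c * p) = ln (p⁻¹ * c * p) := by rw [ds, mul_assoc]
theorem ds_one_mul (c : MM Γ a) : ds 1 (c * 1) = ln c := by rw [mul_one, ds_one_left]
theorem ds_mul_right (p c : MM Γ a) : ds p (p * c) = ln c := by rw [ds, inv_mul_cancel_left]
theorem ds_le_ln (x y : MM Γ a) : ds x y ≤ ln x + ln y := by simpa using ds_tri x 1 y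
theorem md_le_ds (c p : MM Γ a) : md c ≤ ds p (c * p) :=
  ds_conj c p ▸ md_le c p
theorem exists_md_ds (c : MM Γ a) : ∃ q, ds q (c * q) = md c :=
  (exists_md c).imp fun q h => (ds_conj c q).trans h
theorem md_conj' (g c : MM Γ a) : md (g * c * g⁻¹) = md c := by simpa using md_conj c g⁻¹
theorem one_le_md (h : c ≠ 1) : 1 ≤ md c := by
  obtain ⟨q, e⟩ := exists_md c
  refine e ▸ one_le_ln fun k => h ?_
  simpa [mul_assoc] using congrArg (fun z => q * z * q⁻¹) k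
theorem one_le_md' (h : ¬ IsOfFinOrder c) : 1 ≤ md c :=
  one_le_md fun e => h (e ▸ IsOfFinOrder.one)
theorem disp_le (c x z : MM Γ a) : ds x (c * x) ≤ 2 * ds x z + ds z (c * z) := by
  linarith [ds_tri x z (c * x), ds_tri z (c * z) (c * x), ds_mul_left c z x, ds_comm z x]
theorem disp_inv (c x : MM Γ a) : ds x (c⁻¹ * x) = ds x (c * x) := by rw [← ds_mul_left c, mul_inv_cancel_left, ds_comm]
theorem disp_mul (g h x : MM Γ a) : ds x (g * h * x) ≤ ds x (g * x) + ds x (h * x) := by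
  have := ds_tri x (g * x) (g * (h * x))
  rwa [ds_mul_left, ← mul_assoc] at this
theorem disp_pow (g x : MM Γ a) (n : ℕ) : ds x (g ^ n * x) ≤ n * ds x (g * x) := by
  induction n with
  | zero => simp
  | succ n ih =>
    have := disp_mul (g ^ n) g x
    rw [← pow_succ] at this
    push_cast
    linarith
theorem disp_conj (g c x : MM Γ a) : ds (g * x) (g * c * g⁻¹ * (g * x)) = ds x (c * x) := by
  rw [mul_assoc, inv_mul_cancel_left, mul_assoc, ds_mul_left]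
theorem disp_conj' (g c x : MM Γ a) : ds x (g⁻¹ * c * g * x) = ds (g * x) (c * (g * x)) := by
  rw [← ds_mul_left g, mul_assoc, mul_assoc, mul_inv_cancel_left]
theorem disp_comm (h : Commute g c) (x : MM Γ a) : ds (g * x) (c * (g * x)) = ds x (c * x) := by
  rw [← mul_assoc, ← h.eq, mul_assoc, ds_mul_left]
theorem ln_pow_le (g : MM Γ a) (n : ℕ) : ln (g ^ n) ≤ n * ln g := by simpa using disp_pow g 1 n

/-! exponents -/
theorem ipow_natCast (c : MM Γ a) (n : ℕ) : ipow c (n : a.Z) = c ^ n :=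
  Germ.inductionOn c fun f => Bas1.geq fun i => zpow_natCast (f i) n
theorem ipow_zero (c : MM Γ a) : ipow c 0 = 1 :=
  Germ.inductionOn c fun f => Bas1.geq fun i => zpow_zero (f i)
theorem ipow_one (c : MM Γ a) : ipow c 1 = c :=
  Germ.inductionOn c fun f => Bas1.geq fun i => zpow_one (f i)
theorem ipow_inv (c : MM Γ a) (k : a.Z) : ipow c⁻¹ k = ipow c (-k) :=
  Germ.inductionOn₂ c k fun f g => Bas1.geq fun i => inv_zpow' (f i) (g i)
theorem ipow_pow (c : MM Γ a) (k : a.Z) (n : ℕ) : ipow c k ^ n = ipow c (k * (n : a.Z)) := by rw [ipow_mul, ipow_natCast]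
theorem ds_ipow (c z : MM Γ a) (k l : a.Z) :
    ds (ipow c k * z) (ipow c l * z) = ds z (ipow c (l - k) * z) := by
  rw [sub_eq_neg_add, ipow_add, ipow_neg, mul_assoc, ← ds_mul_left (ipow c k) z,
    mul_inv_cancel_left]
theorem zK_sub (k l : a.Z) : zK (k - l) = zK k - zK l := by rw [sub_eq_add_neg, zK_add, zK_neg, sub_eq_add_neg]
theorem zK_natCast (n : ℕ) : zK (n : a.Z) = (n : a.K) :=
  rfl
theorem zK_zero : zK (0 : a.Z) = 0 := by simpa using zK_natCast (a := a) 0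
theorem one_le_abs_zK {k : a.Z} (h : k ≠ 0) : 1 ≤ |zK k| := by
  induction k using Germ.inductionOn with | h f => ?_
  rw [Germ.abs_def]
  refine Germ.coe_le.2 ((Ultrafilter.eventually_not.2 (mt Germ.coe_eq.2 h)).mono fun i hi => ?_)
  show (1 : ℝ) ≤ |(f i : ℝ)|
  exact_mod_cast Int.one_le_abs hi
theorem exists_int_of_not_big {k : a.Z} (h : ¬ Big |zK k|) : ∃ n : ℤ, k = (n : a.Z) := by
  obtain ⟨n, h⟩ := not_big_iff.1 h
  induction k using Germ.inductionOn with | h f => ?_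
  rw [Germ.abs_def] at h
  obtain ⟨x, -, hx⟩ := (Ultrafilter.eventually_exists_mem_iff (P := fun x i => f i = x)
    (Set.finite_Icc (-n : ℤ) n)).1 ((Germ.coe_le.1 h.le).mono fun i hi =>
      ⟨f i, abs_le.1 (by exact_mod_cast (show |(f i : ℝ)| ≤ n from hi)), rfl⟩)
  exact ⟨x, Germ.coe_eq.2 hx⟩
theorem unit_Z {k l : a.Z} (h : k * l = 1) : k = 1 ∨ k = -1 := by
  induction k using Germ.inductionOn with | h f => ?_
  induction l using Germ.inductionOn with | h g => ?_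
  exact (Ultrafilter.eventually_or.1 ((Germ.coe_eq.1 h).mono fun i hi =>
    Int.eq_one_or_neg_one_of_mul_eq_one hi)).imp Germ.coe_eq.2 Germ.coe_eq.2
theorem mul_ne_zero_Z {k l : a.Z} (hk : k ≠ 0) (hl : l ≠ 0) : k * l ≠ 0 :=
  fun e => by
  induction k using Germ.inductionOn with | h f => ?_
  induction l using Germ.inductionOn with | h g => ?_
  exact (Ultrafilter.eventually_or.1 ((Germ.coe_eq.1 e).mono fun i hi =>
    mul_eq_zero.1 hi)).elim (fun u => hk (Germ.coe_eq.2 u)) fun u => hl (Germ.coe_eq.2 u)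
theorem natCast_ne_zero_Z {n : ℕ} (h : n ≠ 0) : (n : a.Z) ≠ 0 :=
  fun e => by
  have := congrArg zK e
  rw [zK_natCast, zK_zero] at this
  exact h (Nat.cast_eq_zero.1 this)

/-! elementary closures -/
theorem finOrder_conj (g c : MM Γ a) : IsOfFinOrder (g * c * g⁻¹) ↔ IsOfFinOrder c :=
  (MulAut.conj g).injective.isOfFinOrder_iff (f := (MulAut.conj g).toMonoidHom)
theorem finOrder_conj' (g c : MM Γ a) : IsOfFinOrder (g⁻¹ * c * g) ↔ IsOfFinOrder c := by simpa using finOrder_conj g⁻¹ c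
theorem mem_Ep : f ∈ Ep c ↔ Commute f (c ^ Γ.e) :=
  Subgroup.mem_centralizer_singleton_iff
theorem self_mem_Ep (c : MM Γ a) : c ∈ Ep c :=
  mem_Ep.2 (Commute.self_pow _ _)
theorem ipow_mem_Ep (c : MM Γ a) (k : a.Z) : ipow c k ∈ Ep c :=
  mem_Ep.2 (commute_ipow (Commute.pow_self c _) k).symm
theorem Ep_inv (c : MM Γ a) : Ep c⁻¹ = Ep c :=
  Subgroup.ext fun _ => by
  rw [mem_Ep, mem_Ep, inv_pow, Commute.inv_right_iff]
theorem mem_Ep_conj : f ∈ Ep (g * c * g⁻¹) ↔ g⁻¹ * f * g ∈ Ep c := by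
  rw [mem_Ep, mem_Ep, conj_pow]
  exact ⟨fun e => by simpa [mul_assoc] using e.map (MulAut.conj g).symm,
    fun e => by simpa [mul_assoc] using e.map (MulAut.conj g)⟩
theorem mem_Ep_conj' : f ∈ Ep (g⁻¹ * c * g) ↔ g * f * g⁻¹ ∈ Ep c := by simpa using mem_Ep_conj (g := g⁻¹)
theorem Ep_conj_iff (g : MM Γ a) : Ep (g * c * g⁻¹) = Ep (g * d * g⁻¹) ↔ Ep c = Ep d := by
  refine ⟨fun e => Subgroup.ext fun f => ?_, fun e => Subgroup.ext fun f => by
    rw [mem_Ep_conj, mem_Ep_conj, e]⟩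
  have := SetLike.ext_iff.1 e (g * f * g⁻¹)
  rw [mem_Ep_conj, mem_Ep_conj] at this
  simpa [mul_assoc] using this
theorem Ep_conj_iff' (g : MM Γ a) : Ep (g⁻¹ * c * g) = Ep (g⁻¹ * d * g) ↔ Ep c = Ep d := by simpa using Ep_conj_iff (c := c) (d := d) g⁻¹
theorem Ep_conj_mem (h : f ∈ Ep c) : Ep (f * c * f⁻¹) = Ep c := by rw [Ep, conj_pow, (mem_Ep.1 h).eq, mul_inv_cancel_right, Ep]
theorem Ep_conj_mem' (h : f ∈ Ep c) : Ep (f⁻¹ * c * f) = Ep c := by simpa using Ep_conj_mem (inv_mem h)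
theorem Prim.conj (h : Prim c) (g : MM Γ a) : Prim (g * c * g⁻¹) :=
  ⟨mt (finOrder_conj g c).1 h.1, fun f hf => (h.2 _ (mem_Ep_conj.1 hf)).imp fun k e => by
    rw [ipow_conj]
    simpa [mul_assoc] using (finOrder_conj g _).2 e⟩
theorem Prim.conj' (h : Prim c) (g : MM Γ a) : Prim (g⁻¹ * c * g) := by simpa using h.conj g⁻¹
theorem Prim.inv (h : Prim c) : Prim c⁻¹ :=
  ⟨fun e => h.1 e.of_inv, fun f hf => by
    obtain ⟨k, e⟩ := h.2 f (Ep_inv c ▸ hf)
    exact ⟨-k, by rwa [ipow_inv, neg_neg]⟩⟩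
theorem InE.of_mem (h : g ∈ Ep c) : InE c g :=
  Or.inl (by rw [(mem_Ep.1 h).eq, mul_inv_cancel_right])
theorem InE.inv (h : InE c g) : InE c g⁻¹ := by
  rcases h with e | e
  · exact Or.inl (by nth_rw 1 [← e]; group)
  · refine Or.inr (inv_injective ?_)
    rw [inv_inv, inv_inv, mul_inv_rev, mul_inv_rev, inv_inv, ← e]; group
theorem InE.mul (h1 : InE c g) (h2 : InE c h) : InE c (g * h) := by
  have k : g * h * c ^ Γ.e * (g * h)⁻¹ = g * (h * c ^ Γ.e * h⁻¹) * g⁻¹ := by group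
  have k' : g * (c ^ Γ.e)⁻¹ * g⁻¹ = (g * c ^ Γ.e * g⁻¹)⁻¹ := by group
  rcases h1 with e | e <;> rcases h2 with e' | e' <;> simp only [InE, k, e', k', e, inv_inv] <;>
    simp
theorem InE.cj (h : InE c g) : Cj g c c := by
  rcases h with e | e
  · rw [Cj, Ep, conj_pow, e, Ep]
  · rw [Cj, Ep, conj_pow, e, ← inv_pow]; exact Ep_inv c
theorem Cj.self (x c : MM Γ a) : Cj x c (x * c * x⁻¹) :=
  rfl
theorem Cj.of_mem (h : f ∈ Ep c) : Cj f c c :=
  Ep_conj_mem h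
theorem Cj.one_iff : Cj 1 c' c ↔ Ep c' = Ep c := by simp [Cj]
theorem Cj.mul (h1 : Cj x c' c) (h2 : Cj y d c') : Cj (x * y) d c := by
  have := (Ep_conj_iff x).2 h2
  rw [Cj, ← h1, ← this]; congr 1; group
theorem Cj.inv (h : Cj x c' c) : Cj x⁻¹ c c' := by
  have := (Ep_conj_iff' x).2 h
  rw [Cj, inv_inv, ← this]; congr 1; group
theorem Cj.congr {d' : MM Γ a} (h : Cj x c' c) (h1 : Ep d' = Ep c') (h2 : Ep d = Ep c) :
    Cj x d' d :=
  ((Ep_conj_iff x).2 h1).trans (Eq.trans h h2.symm)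
theorem Cj.conj (h : Cj x c' c) (p p' : MM Γ a) :
    Cj (p⁻¹ * x * p') (p'⁻¹ * c' * p') (p⁻¹ * c * p) := by
  have := (Ep_conj_iff' p).2 h
  rw [Cj, ← this]; congr 1; group

/-! internal minimisers; they stay minimisers in every extension -/
theorem Sc.argmin {X : Type} [Nonempty X] (F : X → ℕ) : ∃ x, ∀ y, F x ≤ F y :=
  ⟨Function.argmin F, fun y => Function.argmin_le F y⟩
theorem exists_min_disp (c c' : MM Γ a) : ∃ q0 : MM Γ a,
    (∀ q, ds q0 (c * q0) + ds q0 (c' * q0) ≤ ds q (c * q) + ds q (c' * q)) ∧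
    ∀ (b : Amb) (E : Ext a b) (q : MM Γ b), E.kh (ds q0 (c * q0) + ds q0 (c' * q0)) ≤
      ds q (E.hom Γ c * q) + ds q (E.hom Γ c' * q) := by
  induction c using Germ.inductionOn with | h f => ?_
  induction c' using Germ.inductionOn with | h f' => ?_
  choose q0 hq using fun i => Sc.argmin fun q : Γ.G => Γ.len (q⁻¹ * (f i * q)) + Γ.len (q⁻¹ * (f' i * q))
  refine ⟨Germ.ofFun q0, fun q => ?_, fun b E q => ?_⟩
  · induction q using Germ.inductionOn with | h q => ?_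
    exact Bas1.gle fun i => show (Γ.len _ : ℝ) + Γ.len _ ≤ Γ.len _ + Γ.len _ by
      exact_mod_cast hq i (q i)
  · induction q using Germ.inductionOn with | h q => ?_
    exact Bas1.gle fun i => show (Γ.len _ : ℝ) + Γ.len _ ≤ Γ.len _ + Γ.len _ by
      exact_mod_cast hq (E.π i) (q i)
theorem exists_min_move (x y x' y' : MM Γ a) : ∃ g0 : MM Γ a,
    ∀ (b : Amb) (E : Ext a b) (g : MM Γ b), E.kh (ds (g0 * x) y + ds (g0 * x') y') ≤
      ds (g * E.hom Γ x) (E.hom Γ y) + ds (g * E.hom Γ x') (E.hom Γ y') := by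
  induction x using Germ.inductionOn with | h x => ?_
  induction y using Germ.inductionOn with | h y => ?_
  induction x' using Germ.inductionOn with | h x' => ?_
  induction y' using Germ.inductionOn with | h y' => ?_
  choose g0 hg using fun i => Sc.argmin fun g : Γ.G =>
    Γ.len ((g * x i)⁻¹ * y i) + Γ.len ((g * x' i)⁻¹ * y' i)
  refine ⟨Germ.ofFun g0, fun b E g => ?_⟩
  induction g using Germ.inductionOn with | h g => ?_
  exact Bas1.gle fun i => show (Γ.len _ : ℝ) + Γ.len _ ≤ Γ.len _ + Γ.len _ by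
    exact_mod_cast hg (E.π i) (g i)

end Pool.Agent.P.MP_dba3d2_lc


end

section

/-! Shared toolbox, part two: tree geometry at one scale. -/

namespace Pool.Agent.P.MP_dba3d2_lc

open Filter

variable {Γ : HG} {a : Amb} {μ : a.K} {c c' g h m p q r s u v w x y z p' q' x' y' : MM Γ a}

/-- the four point condition seen from `m` -/
theorem gap_min (u v w m : MM Γ a) :
    ds u m + ds m v - ds u v ≤ ds u m + ds m w - ds u w + 2 * (Γ.δ : a.K) ∨
    ds v m + ds m w - ds v w ≤ ds u m + ds m w - ds u w + 2 * (Γ.δ : a.K) := by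
  have h := ds_four u w v m
  rcases max_choice (ds u v + ds w m) (ds u m + ds w v) with e | e <;> rw [e] at h
  · exact Or.inl (by linarith [ds_comm m v, ds_comm m w])
  · exact Or.inr (by linarith [ds_comm v w])
/-- two points of one segment -/
theorem close_le (x y p q : MM Γ a) : ds p q ≤ |ds x p - ds x q| + (ds x p + ds p y - ds x y) +
    (ds x q + ds q y - ds x y) + 2 * (Γ.δ : a.K) := by
  have h := ds_four x y p q
  rcases max_choice (ds x p + ds y q) (ds x q + ds y p) with e | e <;> rw [e] at h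
  · linarith [ds_comm y q, ds_tri x p y, le_abs_self (ds x p - ds x q)]
  · linarith [ds_comm y p, ds_tri x q y, neg_le_abs (ds x p - ds x q)]
theorem exists_mid (x y : MM Γ a) :
    ∃ m, ds x m + ds m y = ds x y ∧ 2 * ds x m ≤ ds x y ∧ ds x y ≤ 2 * ds x m + 2 := by
  have h := ds_nonneg x y
  obtain ⟨m, h1, h2, h3⟩ := exists_point x y (ds x y / 2) (by linarith) (by linarith)
  exact ⟨m, h1, by linarith, by linarith⟩
theorem exists_median (x y z : MM Γ a) : ∃ m, ds x m + ds m y = ds x y ∧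
    ∀ μ : a.K, Big μ → On μ m x z ∧ On μ m y z := by
  obtain ⟨m, h1, h2, h3⟩ := exists_point x y ((ds x y + ds x z - ds y z) / 2)
    (by linarith [ds_tri y x z, ds_comm x y]) (by linarith [ds_tri x y z])
  refine ⟨m, h1, fun μ hμ => ?_⟩
  have k := (hμ.ll_delta Γ).two.add hμ.ll_one.two
  rcases gap_min x z y m with e | e
  · exact ⟨k.mono_left (by linarith), k.mono_left (by linarith [ds_comm m y])⟩
  · exact ⟨k.mono_left (by linarith [ds_comm m z, ds_comm z y]),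
      k.mono_left (by linarith [ds_comm m z, ds_comm z y, ds_comm m y])⟩

theorem On.of_eq (h0 : 0 ≤ μ) (h : ds x p + ds p y = ds x y) : On μ p x y :=
  Ll.of_nonpos (by linarith) h0
theorem On.symm (h : On μ p x y) : On μ p y x :=
  Ll.mono_left (by linarith [ds_comm x p, ds_comm p y, ds_comm x y]) h
theorem on_left (h0 : 0 ≤ μ) (x y : MM Γ a) : On μ x x y := On.of_eq h0 (by simp)
theorem on_right (h0 : 0 ≤ μ) (x y : MM Γ a) : On μ y x y := On.of_eq h0 (by simp)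
theorem on_mul_iff (g : MM Γ a) : On μ (g * p) (g * x) (g * y) ↔ On μ p x y := by
  simp only [On, ds_mul_left]
theorem On.mul (h : On μ p x y) (g : MM Γ a) : On μ (g * p) (g * x) (g * y) := (on_mul_iff g).2 h
theorem On.congr (h : On μ p x y) (hp : Ll (ds p p') μ) (hx : Ll (ds x x') μ)
    (hy : Ll (ds y y') μ) : On μ p' x' y' :=
  Ll.mono_left (by
    linarith [ds_tri x' x p', ds_tri x p p', ds_tri p' p y', ds_tri p y y', ds_tri x x' y,
      ds_tri x' y' y, ds_comm x x', ds_comm p p', ds_comm y y'])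
    (((Ll.add h hp.two).add hx.two).add hy.two)
theorem On.of_near (h : Ll (ds x p) μ) (y : MM Γ a) : On μ p x y :=
  h.two.mono_left (by linarith [ds_tri p x y, ds_comm x p])
theorem On.le_left (h : On μ p x y) : Ll (ds x p - ds x y) μ :=
  Ll.mono_left (by linarith [ds_nonneg p y]) h
theorem On.le_right (h : On μ p x y) : Ll (ds p y - ds x y) μ :=
  Ll.mono_left (by linarith [ds_nonneg x p]) h
theorem On.ls_left (h : On μ p x y) (h' : Ls (ds x y) μ) : Ls (ds x p) μ :=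
  (h.le_left.ls.add h').mono_left (by linarith)
theorem On.ls_right (h : On μ p x y) (h' : Ls (ds x y) μ) : Ls (ds p y) μ :=
  (h.le_right.ls.add h').mono_left (by linarith)
/-- a nondegenerate subsegment forces a nondegenerate segment -/
theorem On.nondeg (hμ : Big μ) (hp : On μ p x y) (hq : On μ q x y) (h : Ls μ (ds p q)) :
    Ls μ (ds x y) :=
  h.of_le_add (Ll.add hp hq) hμ.pos 1 (by
    rw [Nat.cast_one]
    linarith [ds_tri p x q, ds_tri p y q, ds_comm x p, ds_comm q y, ds_tri x p y, ds_tri x q y])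
theorem On.sub (hq : On μ q x y) (hp : On μ p x q) : On μ p x y ∧ On μ q p y :=
  ⟨(Ll.add hq hp).mono_left (by linarith [ds_tri p q y]),
    (Ll.add hq hp).mono_left (by linarith [ds_tri x p y])⟩
theorem On.sub' (hp : On μ p x y) (hq : On μ q p y) : On μ q x y ∧ On μ p x q :=
  ⟨(Ll.add hq hp).mono_left (by linarith [ds_tri x p q]),
    (Ll.add hq hp).mono_left (by linarith [ds_tri x q y])⟩
theorem On.antisymm (h : On μ p x q) (h' : On μ q x p) : Ll (ds p q) μ :=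
  (Ll.add h h').mono_left (by linarith [ds_comm p q, ds_nonneg p q])
theorem On.close (hμ : Big μ) (hp : On μ p x y) (hq : On μ q x y) (h : Ll (ds x p - ds x q) μ)
    (h' : Ll (ds x q - ds x p) μ) : Ll (ds p q) μ :=
  ((((h.abs (by rwa [neg_sub])).add hp).add hq).add (hμ.ll_delta Γ).two).mono_left
    (close_le x y p q)
theorem On.order (hμ : Big μ) (hp : On μ p x y) (hq : On μ q x y) (h : Ll (ds x p - ds x q) μ) :
    On μ p x q ∧ On μ q p y := by
  have k := (hμ.ll_delta Γ).two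
  have f := ds_four x y p q
  rcases max_choice (ds x p + ds y q) (ds x q + ds y p) with e | e <;> rw [e] at f
  · have n : Ll (ds p q) μ := ((h.add hq).add k).mono_left (by linarith [ds_comm y q])
    exact ⟨(h.add n).mono_left (by linarith), On.of_near n y⟩
  · exact ⟨(Ll.add hp k).mono_left (by linarith [ds_comm y p]),
      (Ll.add hq k).mono_left (by linarith [ds_comm y p])⟩
theorem On.total (hμ : Big μ) (hp : On μ p x y) (hq : On μ q x y) :
    (On μ p x q ∧ On μ q p y) ∨ (On μ q x p ∧ On μ p q y) :=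
  (le_total (ds x p) (ds x q)).imp
    (fun e => hp.order hμ hq (Ll.of_nonpos (sub_nonpos.2 e) hμ.pos.le))
    fun e => hq.order hμ hp (Ll.of_nonpos (sub_nonpos.2 e) hμ.pos.le)
theorem On.conv (hμ : Big μ) (hp : On μ p x y) (hq : On μ q x y) (hr : On μ r p q) :
    On μ r x y := by
  rcases hp.total hμ hq with e | e
  · exact (hp.sub' (e.2.sub hr).1).1
  · exact (hq.sub' (e.2.sub hr.symm).1).1
theorem On.cases (hμ : Big μ) (h : On μ p x y) (z : MM Γ a) : On μ p x z ∨ On μ p y z :=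
  (gap_min x z y p).imp (fun e => (Ll.add h (hμ.ll_delta Γ).two).mono_left e)
    fun e => On.symm ((Ll.add h (hμ.ll_delta Γ).two).mono_left e)
theorem On.glue (hμ : Big μ) (h1 : On μ y x z) (h2 : On μ z y w) (h : Ls μ (ds y z)) :
    On μ y x w ∧ On μ z x w :=
  ⟨(h1.cases hμ w).resolve_right fun e => (e.symm.antisymm h2.symm).not_ls hμ.pos h,
    ((h2.cases hμ x).resolve_left fun e => (h1.antisymm e.symm).not_ls hμ.pos h).symm⟩
theorem On.shift_left (hμ : Big μ) (h : On μ r x y) (hx : Ll (ds x x' - ds x r) μ) :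
    On μ r x' y :=
  (h.cases hμ x').elim
    (fun e => On.of_near ((Ll.add e hx).mono_left (by linarith [ds_comm r x'])) y) On.symm
/-- moving the ends of a segment by less than the distance to `r` -/
theorem On.shift (hμ : Big μ) (h : On μ r x y) (hx : Ll (ds x x' - ds x r) μ)
    (hy : Ll (ds y y' - ds r y) μ) : On μ r x' y' :=
  ((h.shift_left hμ hx).symm.shift_left hμ (by rwa [ds_comm y r])).symm
/-- a point at a prescribed distance -/
theorem exists_on (hμ : Big μ) (x y : MM Γ a) (t : a.K) (h0 : 0 ≤ t) (h1 : t ≤ ds x y) :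
    ∃ p, On μ p x y ∧ ds x p ≤ t ∧ t ≤ ds x p + 1 ∧ ds x p + ds p y = ds x y := by
  obtain ⟨p, a1, a2, a3⟩ := exists_point x y t h0 h1
  exact ⟨p, On.of_eq hμ.pos.le a1, a2, a3, a1⟩

theorem Ov.symm (h : Ov μ p q x y x' y') : Ov μ p q x' y' x y :=
  ⟨h.1, h.2.2.2.1, h.2.2.2.2, h.2.1, h.2.2.1⟩
theorem Ov.mul (h : Ov μ p q x y x' y') (g : MM Γ a) :
    Ov μ (g * p) (g * q) (g * x) (g * y) (g * x') (g * y') :=
  ⟨by rw [ds_mul_left]; exact h.1, h.2.1.mul g, h.2.2.1.mul g, h.2.2.2.1.mul g, h.2.2.2.2.mul g⟩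

namespace Tre

theorem nb_le {s t : a.K} (h : ¬ Big t) (e : s ≤ t) : ¬ Big s := not_big_of_ls (Ls.of_le e) h

theorem nb_delta (Γ : HG) (a : Amb) : ¬ Big (2 * (Γ.δ : a.K)) := by
  simpa using not_big_nat (K := a.K) (2 * Γ.δ)

theorem flip (h : ¬ Big (ds u m + ds m w - ds u w)) : ¬ Big (ds w m + ds m u - ds w u) :=
  nb_le h (by linarith [ds_comm u m, ds_comm m w, ds_comm u w])

/-- moving one end without changing the direction seen from `m` -/
theorem step (hμ : Big μ) (h : On μ v u m ∧ Ls μ (ds v m) ∨ On μ u v m ∧ Ls μ (ds u m))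
    (hB : ¬ Big (ds u m + ds m w - ds u w)) : ¬ Big (ds v m + ds m w - ds v w) := by
  have k := not_big_add hB (nb_delta Γ a)
  refine (gap_min u v w m).elim (fun e => ?_) (nb_le k)
  have l := hμ.ll_of_not_big (nb_le k e)
  rcases h with h | h
  · exact (((l.add h.1).mono_left (by linarith [ds_comm v m, ds_nonneg v m])).not_ls hμ.pos h.2).elim
  · exact (((l.add h.1).mono_left (by
      linarith [ds_comm v m, ds_comm u v, ds_nonneg u m])).not_ls hμ.pos h.2).elim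

theorem fin (hμ : Big μ) (h : Ls μ (ds p q)) (h1 : On μ p x q) (h2 : On μ q p y)
    (h3 : On μ p x' q) (h4 : On μ q p y') : ∃ m m', ds x m + ds m y = ds x y ∧
    ds x' m' + ds m' y' = ds x' y' ∧ ¬ Big (ds m m') ∧ On μ m p q ∧ Ls μ (ds p m) ∧
    Ls μ (ds m q) := by
  obtain ⟨hp, hq⟩ := h1.glue hμ h2 h
  have l := ((Ll.two hq).add h1).lt_of_ls h hμ.pos 1
  rw [Nat.cast_one] at l
  obtain ⟨m, hm, a1, a2, a3⟩ := exists_on hμ x y ((ds x p + ds x q) / 2)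
    (by linarith [ds_nonneg x p, ds_nonneg x q]) (by linarith [ds_nonneg q y])
  have t := ds_tri x p q
  have n := ds_nonneg p q
  obtain ⟨b1, -⟩ := hp.order hμ hm ((Ll.add h1 hμ.ll_one).mono_left (by linarith))
  obtain ⟨b2, b3⟩ := hm.order hμ hq (Ll.mono_left (by linarith) h1)
  have b4 := (b2.sub b1).2
  have c1 : Ls μ (ds p m) := h.of_le_add (Ll.add h1 hμ.ll_one.two) hμ.pos 2 (by
    rw [Nat.cast_two]
    linarith [ds_tri x p m])
  have c2 : Ls μ (ds m q) := h.of_le_add h1 hμ.pos 2 (by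
    rw [Nat.cast_two]
    linarith [ds_tri x m q])
  have c3 : Ls μ (ds q m) := by rwa [ds_comm]
  have g0 : ¬ Big (ds x m + ds m y - ds x y) := nb_le (not_big_nat 0) (by rw [a3]; simp)
  have g1 := step hμ (Or.inl ⟨b3.symm, c3⟩) (flip (step hμ (Or.inl ⟨b1, c1⟩) g0))
  have g2 := step hμ (Or.inr ⟨(h3.sub' b4).2, c1⟩)
    (flip (step hμ (Or.inr ⟨(h4.sub b4).2.symm, c3⟩) g1))
  obtain ⟨m', d1, d2, d3⟩ := exists_point x' y' (min (ds x' m) (ds x' y'))
    (le_min (ds_nonneg _ _) (ds_nonneg _ _)) (min_le_right _ _)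
  refine ⟨m, m', a3, d1, nb_le (not_big_add (not_big_add (not_big_add g2 g2) (nb_delta Γ a))
    (not_big_nat 1)) ?_, b4, c1, c2⟩
  have e := close_le x' y' m m'
  rw [abs_of_nonneg (sub_nonneg.2 (d2.trans (min_le_left _ _)))] at e
  rw [Nat.cast_one]
  rcases min_choice (ds x' m) (ds x' y') with k | k <;> rw [k] at d3
  · linarith [ds_tri x' m y']
  · linarith [ds_nonneg m y']

end Tre

/-- an overlap at scale `μ` is an overlap up to a finite error in the middle -/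
theorem Ov.fin (hμ : Big μ) (h : Ov μ p q x y x' y') : ∃ m m', ds x m + ds m y = ds x y ∧
    ds x' m' + ds m' y' = ds x' y' ∧ ¬ Big (ds m m') ∧ On μ m p q ∧ Ls μ (ds p m) ∧
    Ls μ (ds m q) := by
  have s : ∀ {x y m : MM Γ a}, ds y m + ds m x = ds y x → ds x m + ds m y = ds x y :=
    fun {x y m} e => by linarith [ds_comm x m, ds_comm m y, ds_comm x y]
  obtain ⟨h0, h1, h2, h3, h4⟩ := h
  rcases h1.total hμ h2 with e | e <;> rcases h3.total hμ h4 with e' | e'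
  · exact Tre.fin hμ h0 e.1 e.2 e'.1 e'.2
  · obtain ⟨m, m', a1, a2, a3⟩ := Tre.fin hμ h0 e.1 e.2 e'.2.symm e'.1.symm
    exact ⟨m, m', a1, s a2, a3⟩
  · obtain ⟨m, m', a1, a2, a3⟩ := Tre.fin hμ h0 e.2.symm e.1.symm e'.1 e'.2
    exact ⟨m, m', s a1, a2, a3⟩
  · obtain ⟨m, m', a1, a2, a3⟩ := Tre.fin hμ h0 e.2.symm e.1.symm e'.2.symm e'.1.symm
    exact ⟨m, m', s a1, s a2, a3⟩

/-- a fully convex subgroup contains the elements that realise an overlap of two of its segments -/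
theorem Cvx.mem {H : Subgroup (MM Γ a)} (hH : Cvx H) (hx : x ∈ H) (hy : y ∈ H)
    (h : ds x p + ds p y = ds x y) : p ∈ H := by
  have := mul_mem hx (hH.2 _ (mul_mem (inv_mem hx) hy) (x⁻¹ * p) (Tre.nb_le (not_big_nat 0) (by
    rw [ds_mul_left, Nat.cast_zero]
    exact (sub_eq_zero.2 h).le)))
  rwa [mul_inv_cancel_left] at this
theorem Cvx.ov {H : Subgroup (MM Γ a)} (hH : Cvx H) (hμ : Big μ) (hx : x ∈ H) (hy : y ∈ H)
    (hx' : x' ∈ H) (hy' : y' ∈ H) (h : Ov μ p q x y (g * x') (g * y')) : g ∈ H := by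
  obtain ⟨m, m', a1, a2, a3, -⟩ := h.fin hμ
  have b1 := mul_mem (hH.mem hx hy a1) (hH.1 (mem_std_iff.2 a3))
  have b2 : g⁻¹ * m' ∈ H := hH.mem hx' hy' (by
    rw [← mul_inv_cancel_left g m'] at a2
    simpa only [ds_mul_left] using a2)
  have := mul_mem b1 (inv_mem b2)
  rwa [mul_inv_cancel_left, mul_inv_rev, inv_inv, mul_inv_cancel_left] at this

end Pool.Agent.P.MP_dba3d2_lc


end

section

/-! Shared toolbox, part three: fixed points, stabilisers of segments, closure conditions. -/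

namespace Pool.Agent.P.MP_dba3d2_lc

open Filter

variable {Γ : HG} {a : Amb} {μ : a.K} {c c' g h m p q r s u v w x y z p' q' x' y' : MM Γ a}

theorem FixA.ll_self (h0 : 0 ≤ μ) (x : MM Γ a) : Ll (ds x x) μ := by
  rw [ds_self]; exact Ll.zero h0
theorem FixA.ll_comm (h : Ll (ds x y) μ) : Ll (ds y x) μ := by rwa [ds_comm]
theorem FixA.ll_two (hμ : Big μ) : Ll 2 μ := by exact_mod_cast hμ.ll_nat 2

open FixA

/-! fixed points -/
theorem fix_congr (h : Ll (ds p (g * p)) μ) (hp : Ll (ds p p') μ) : Ll (ds p' (g * p')) μ :=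
  Ll.mono_left (disp_le g p' p) ((ll_comm hp).two.add h)
theorem fix_inv (h : Ll (ds p (g * p)) μ) : Ll (ds p (g⁻¹ * p)) μ := by rwa [disp_inv]
theorem fix_mul (h1 : Ll (ds p (g * p)) μ) (h2 : Ll (ds p (h * p)) μ) :
    Ll (ds p (g * h * p)) μ := Ll.mono_left (disp_mul g h p) (h1.add h2)
theorem fix_pow (h : Ll (ds p (g * p)) μ) (n : ℕ) : Ll (ds p (g ^ n * p)) μ :=
  Ll.mono_left (disp_pow g p n) (h.nat_mul n)
theorem fix_conv (hμ : Big μ) (hp : Ll (ds p (g * p)) μ) (hq : Ll (ds q (g * q)) μ)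
    (hr : On μ r p q) : Ll (ds r (g * r)) μ :=
  hr.close hμ ((hr.mul g).congr (ll_self hp.nonneg _) (ll_comm hp) (ll_comm hq))
    (Ll.mono_left (by linarith [ds_mul_left g p r, ds_tri (g * p) p (g * r), ds_comm p (g * p)]) hp)
    (Ll.mono_left (by linarith [ds_mul_left g p r, ds_tri p (g * p) (g * r)]) hp)
/-- the midpoint of `[x, c x]` is the projection of `x` to the fixed set of `c` -/
theorem fix_mid (hμ : Big μ) (hz : Ll (ds z (c * z)) μ) (hm : On μ m x (c * x))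
    (h1 : Ll (2 * ds x m - ds x (c * x)) μ) (h2 : Ll (ds x (c * x) - 2 * ds x m) μ) :
    Ll (ds m (c * m)) μ ∧ On μ m x z := by
  have e1 := ds_mul_left c x z
  have e2 := ds_tri (c * x) (c * z) z
  have e3 := ds_tri (c * x) z (c * z)
  have e4 := ds_comm z (c * z)
  have e5 := ds_comm m (c * x)
  have e6 := ds_tri x m (c * x)
  have key : On μ m x z ∧ On μ m (c * x) z := by
    rcases hm.cases hμ z with h | h
    · exact ⟨h, Ll.mono_left (by linarith) (((Ll.add h hm).add h2).add hz)⟩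
    · exact ⟨Ll.mono_left (by linarith) ((Ll.add h h1).add hz), h⟩
  refine ⟨key.2.close hμ ((key.1.mul c).congr (ll_self hz.nonneg _) (ll_self hz.nonneg _)
    (ll_comm hz)) ?_ ?_, key.1⟩
  · exact Ll.mono_left (by linarith [ds_mul_left c x m]) (Ll.add hm h2)
  · exact Ll.mono_left (by linarith [ds_mul_left c x m]) h1
theorem exists_proj (hμ : Big μ) (hc : Ll (md c) μ) (x : MM Γ a) : ∃ m,
    ds x m + ds m (c * x) = ds x (c * x) ∧ 2 * ds x m ≤ ds x (c * x) ∧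
    ds x (c * x) ≤ 2 * ds x m + 2 ∧ Ll (ds m (c * m)) μ ∧
    ∀ z, Ll (ds z (c * z)) μ → On μ m x z := by
  obtain ⟨m, a1, a2, a3⟩ := exists_mid x (c * x)
  obtain ⟨q, hq⟩ := exists_md_ds c
  have k := fun z (hz : Ll (ds z (c * z)) μ) => fix_mid hμ hz (On.of_eq hc.nonneg a1)
    (Ll.of_nonpos (by linarith) hc.nonneg) (Ll.mono_left (by linarith) (ll_two hμ))
  exact ⟨m, a1, a2, a3, (k q (hq ▸ hc)).1, fun z hz => (k z hz).2⟩
theorem proj_on (hμ : Big μ) (hm : Ll (ds m (c * m)) μ) (h : Ll (2 * ds x m - ds x (c * x)) μ)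
    (hz : Ll (ds z (c * z)) μ) : On μ m x z := by
  obtain ⟨m0, -, -, a3, -, k⟩ := exists_proj hμ (Ll.mono_left (md_le_ds c m) hm) x
  have t : Ll (ds m0 m) μ :=
    Ll.half (Ll.mono_left (by linarith) (((Ll.two (k m hm)).add h).add (ll_two hμ)))
  exact (k z hz).congr t (ll_self h.nonneg _) (ll_self h.nonneg _)
/-- the displacement only depends on the fixed set -/
theorem disp_ll (hμ : Big μ) (hc : Ll (md c') μ)
    (h : ∀ w, Ll (ds w (c' * w)) μ → Ll (ds w (c * w)) μ) (x : MM Γ a) :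
    Ll (ds x (c * x) - ds x (c' * x)) μ := by
  obtain ⟨m, -, a2, -, a4, -⟩ := exists_proj hμ hc x
  exact Ll.mono_left (by linarith [disp_le c x m]) (h m a4)
/-- the midpoint of `[x, c x]` is a centre of `c` -/
theorem mid_cen (hc : c ≠ 1) (hm : ds x m + ds m (c * x) = ds x (c * x))
    (h1 : 2 * ds x m ≤ ds x (c * x)) (h2 : ds x (c * x) ≤ 2 * ds x m + 2) :
    Ls (ds m (c * m)) (md c) := by
  refine ls_of_scale (one_le_md hc) fun hB hl => ll_irrefl hB.pos ?_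
  obtain ⟨q, hq⟩ := exists_md_ds c
  exact (fix_mid hB (z := q) (hq ▸ hl) (On.of_eq hl.nonneg hm)
    (Ll.of_nonpos (by linarith) hl.nonneg) (Ll.mono_left (by linarith) (ll_two hB))).1
theorem on_of_not_fol (hμ : Big μ) (h1 : Ll (ln c) μ) (h : ¬ Fol μ y c)
    (hz : Ll (ds z (c * z)) μ) : On μ 1 y z := by
  obtain ⟨m, -, -, -, a4, k⟩ := exists_proj hμ (Ll.mono_left (md_le_ln c) h1) y
  have h1' : Ll (ds 1 (c * 1)) μ := by rwa [ds_one_mul]
  rcases ll_or_ls hμ.pos (ln m) with t | t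
  · exact (k z hz).congr (by rwa [ds_one_right]) (ll_self h1.nonneg _) (ll_self h1.nonneg _)
  · exact absurd ⟨m, t, (k 1 h1').symm, h1', a4⟩ h
theorem Fol.mono (h : Fol μ y c) (hy : On μ y 1 y') : Fol μ y' c :=
  let ⟨q, a1, a2, a3⟩ := h
  ⟨q, a1, (hy.sub a2).1, a3⟩

theorem Stab.symm (h : Stab μ p q g) : Stab μ q p g := ⟨h.2, h.1⟩
theorem Stab.one (h0 : 0 ≤ μ) (p q : MM Γ a) : Stab μ p q 1 := by
  constructor <;> rw [one_mul] <;> exact ll_self h0 _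
theorem Stab.inv (h : Stab μ p q g) : Stab μ p q g⁻¹ := ⟨fix_inv h.1, fix_inv h.2⟩
theorem Stab.mul (h1 : Stab μ p q g) (h2 : Stab μ p q h) : Stab μ p q (g * h) :=
  ⟨fix_mul h1.1 h2.1, fix_mul h1.2 h2.2⟩
theorem Stab.pow (h : Stab μ p q g) (n : ℕ) : Stab μ p q (g ^ n) := ⟨fix_pow h.1 n, fix_pow h.2 n⟩
theorem Stab.congr (h : Stab μ p q g) (hp : Ll (ds p p') μ) (hq : Ll (ds q q') μ) :
    Stab μ p' q' g := ⟨fix_congr h.1 hp, fix_congr h.2 hq⟩
theorem stab_conj (h : MM Γ a) : Stab μ (h * p) (h * q) (h * g * h⁻¹) ↔ Stab μ p q g := by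
  unfold Stab
  rw [disp_conj, disp_conj]
theorem stab_conj' (h : MM Γ a) : Stab μ p q (h⁻¹ * g * h) ↔ Stab μ (h * p) (h * q) g := by
  unfold Stab
  rw [disp_conj', disp_conj']
theorem Stab.sub (hμ : Big μ) (h : Stab μ p q g) (hr : On μ r p q) (hs : On μ s p q) :
    Stab μ r s g := ⟨fix_conv hμ h.1 h.2 hr, fix_conv hμ h.1 h.2 hs⟩
theorem Stab.md (h : Stab μ p q g) : Ll (md g) μ := Ll.mono_left (md_le_ds g p) h.1
/-- a stabiliser of a nondegenerate subsegment realises an overlap -/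
theorem Stab.ov (h : Stab μ p q g) (hp : On μ p x y) (hq : On μ q x y) (hn : Ls μ (ds p q)) :
    Ov μ p q x y (g * x) (g * y) :=
  ⟨hn, hp, hq, (hp.mul g).congr (ll_comm h.1) (ll_self h.1.nonneg _) (ll_self h.1.nonneg _),
    (hq.mul g).congr (ll_comm h.2) (ll_self h.1.nonneg _) (ll_self h.1.nonneg _)⟩
theorem Per.symm (h : Per μ p q) : Per μ q p :=
  let ⟨g, a1, a2⟩ := h
  ⟨g, a1, a2.symm⟩
theorem Per.congr (h : Per μ p q) (hp : Ll (ds p p') μ) (hq : Ll (ds q q') μ) : Per μ p' q' :=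
  let ⟨g, a1, a2⟩ := h
  ⟨g, a1, a2.congr hp hq⟩
theorem per_mul_iff (h : MM Γ a) : Per μ (h * p) (h * q) ↔ Per μ p q :=
  ⟨fun ⟨g, a1, a2⟩ => ⟨h⁻¹ * g * h, by rwa [finOrder_conj'], (stab_conj' h).2 a2⟩,
    fun ⟨g, a1, a2⟩ => ⟨h * g * h⁻¹, by rwa [finOrder_conj], (stab_conj h).2 a2⟩⟩
theorem Per.sub (hμ : Big μ) (h : Per μ p q) (hr : On μ r p q) (hs : On μ s p q) : Per μ r s :=
  let ⟨g, a1, a2⟩ := h
  ⟨g, a1, a2.sub hμ hr hs⟩

/-! the closure conditions for arbitrary segments of `H` -/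
theorem GC0.g2' {H : Subgroup (MM Γ a)} (hH : GC0 H) (hμ : Big μ) (hx : x ∈ H) (hy : y ∈ H)
    (hx' : x' ∈ H) (hy' : y' ∈ H) (h1 : Ls (ds x y) μ) (h2 : Ls (ds x' y') μ)
    (h : Ov μ p q x y (g * x') (g * y')) (hn : ¬ Per μ p q) : g ∈ H := by
  have t := h.mul x⁻¹
  rw [inv_mul_cancel, ← mul_assoc,
    show x⁻¹ * (g * y') = x⁻¹ * g * x' * (x'⁻¹ * y') by group] at t
  have k := hH.g2 μ hμ _ (H.mul_mem (H.inv_mem hx) hy) _ (H.mul_mem (H.inv_mem hx') hy') h1 h2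
    _ _ _ t (by rwa [per_mul_iff])
  have := H.mul_mem (H.mul_mem hx k) (H.inv_mem hx')
  rwa [show x * (x⁻¹ * g * x') * x'⁻¹ = g by group] at this
theorem GC0.g20' {H : Subgroup (MM Γ a)} (hH : GC0 H) (hμ : Big μ) (hx : x ∈ H) (hy : y ∈ H)
    (h1 : Ls (ds x y) μ) (hn : Ls μ (ds p q)) (hp : On μ p x y) (hq : On μ q x y)
    (h : Per μ p q) : ∃ c ∈ H, Prim c ∧ Stab μ p q c := by
  have tp := hp.mul x⁻¹
  have tq := hq.mul x⁻¹
  rw [inv_mul_cancel] at tp tq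
  obtain ⟨c, a1, a2, a3⟩ := hH.g20 μ hμ _ (H.mul_mem (H.inv_mem hx) hy) h1 _ _
    (by rwa [ds_mul_left]) tp tq ((per_mul_iff _).2 h)
  refine ⟨x * c * x⁻¹, H.mul_mem (H.mul_mem hx a1) (H.inv_mem hx), a2.conj x, ?_⟩
  have := (stab_conj x).2 a3
  rwa [mul_inv_cancel_left, mul_inv_cancel_left] at this
theorem GC0.of_not_big {H : Subgroup (MM Γ a)} (hH : GC0 H) (h : ¬ Big (ln g)) : g ∈ H :=
  hH.base (mem_std_iff.2 h)
/-- centring one element -/
theorem GC0.cen1 {H : Subgroup (MM Γ a)} (hH : GC0 H) (hc : c ∈ H) (h : ¬ IsOfFinOrder c) :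
    ∃ p ∈ H, Ls (ln p) (ln c) ∧ Cen (p⁻¹ * c * p) := by
  obtain ⟨p, a1, a2, a3⟩ := hH.cen c hc c hc h h
  obtain ⟨q, hq⟩ := exists_md c
  refine ⟨p, a1, a2.trans' ((Ls.refl' _).add (Ls.refl' _)), ?_⟩
  have t := a3 q
  unfold Cen
  rw [md_conj, ← hq]
  exact Ls.mono_left (le_add_of_nonneg_left (ln_nonneg _))
    (t.trans' ((Ls.refl' _).add (Ls.refl' _)))

end Pool.Agent.P.MP_dba3d2_lc


end
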