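import Pool.Agent.P.MP_dba3d2_lcM.Ab00
import Pool.Agent.P.MP_dba3d2_lcM.Ab03
import Pool.Agent.P.MP_dba3d2_lcM.Ab05
import Pool.Agent.P.MP_dba3d2_lcM.Bb07

section

/-! Shared toolbox, part four: axes of elements of infinite order. -/

namespace Pool.Agent.P.MP_dba3d2_lc

open Filter

variable {Γ : HG} {a : Amb} {μ : a.K} {c c' d f g h m p q r x y z : MM Γ a}

theorem Ep_eq (hE : S_ELEM) (hc : ¬ IsOfFinOrder c) (h : f ∈ Ep c) (hf : ¬ IsOfFinOrder f) :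
    Ep f = Ep c := (hE Γ a c hc).2.1 f h hf
theorem Ep_pow (hE : S_ELEM) (hc : ¬ IsOfFinOrder c) {n : ℕ} (hn : n ≠ 0) :
    ¬ IsOfFinOrder (c ^ n) ∧ Ep (c ^ n) = Ep c :=
  have h : ¬ IsOfFinOrder (c ^ n) := fun e => hc (e.of_pow hn)
  ⟨h, Ep_eq hE hc (pow_mem (self_mem_Ep c) n) h⟩
theorem InE.mem (hE : S_ELEM) (hc : ¬ IsOfFinOrder c) (h : InE c g) (hg : ¬ IsOfFinOrder g) :
    g ∈ Ep c := by
  by_contra hn
  exact hg ((hE Γ a c hc).2.2.2.2.1 g h hn)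
theorem tors_mul (hE : S_ELEM) (hc : ¬ IsOfFinOrder c) (hf : f ∈ Ep c) (hg : g ∈ Ep c)
    (h1 : IsOfFinOrder f) (h2 : IsOfFinOrder g) : IsOfFinOrder (f * g) :=
  (hE Γ a c hc).2.2.1 f hf g hg h1 h2
theorem ipow_inf (hE : S_ELEM) (hc : ¬ IsOfFinOrder c) {k : a.Z} (hk : k ≠ 0) :
    ¬ IsOfFinOrder (ipow c k) := (hE Γ a c hc).2.2.2.2.2.1 k hk
theorem ee_ne_zero (Γ : HG) : Γ.e * Γ.e ≠ 0 := Nat.mul_ne_zero Γ.good.pos.ne' Γ.good.pos.ne'
theorem pow_sq_eq (hE : S_ELEM) (hc : ¬ IsOfFinOrder c) (hf : f ∈ Ep c) (hg : g ∈ Ep c)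
    (h : IsOfFinOrder (f⁻¹ * g)) : f ^ (Γ.e * Γ.e) = g ^ (Γ.e * Γ.e) := by
  have h1 : ∀ n : ℕ, IsOfFinOrder ((f ^ n)⁻¹ * g ^ n) := by
    intro n
    induction n with
    | zero => simp
    | succ n ih =>
      have e : (f ^ (n + 1))⁻¹ * g ^ (n + 1) = f⁻¹ * ((f ^ n)⁻¹ * g ^ n) * f * (f⁻¹ * g) := by
        rw [pow_succ, pow_succ]; group
      rw [e]
      exact tors_mul hE hc (mul_mem (mul_mem (inv_mem hf) (mul_mem (inv_mem (pow_mem hf n))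
        (pow_mem hg n))) hf) (mul_mem (inv_mem hf) hg) ((finOrder_conj' _ _).2 ih) h
  have h2 := isOfFinOrder_iff.1 (h1 Γ.e)
  have h3 : Commute (f ^ Γ.e) (g ^ Γ.e) := (hE Γ a c hc).2.2.2.2.2.2.2.1 f hf _ (pow_mem hg _)
  rw [h3.inv_left.mul_pow, inv_pow, inv_mul_eq_one, ← pow_mul, ← pow_mul] at h2
  exact h2
theorem ipow_pow' (c : MM Γ a) (n : ℕ) (k : a.Z) : ipow (c ^ n) k = ipow c k ^ n := by
  rw [← ipow_natCast, ← ipow_mul, ipow_pow, mul_comm]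
theorem Prim.pm (hE : S_ELEM) (hc : Prim c) (hc' : Prim c') (h : Ep c' = Ep c) :
    IsOfFinOrder (c'⁻¹ * c) ∨ IsOfFinOrder (c'⁻¹ * c⁻¹) := by
  have m1 : c' ∈ Ep c := h ▸ self_mem_Ep c'
  have m2 : c ∈ Ep c' := h ▸ self_mem_Ep c
  obtain ⟨k, hk⟩ := hc.2 c' m1
  obtain ⟨l, hl⟩ := hc'.2 c m2
  have e1 := pow_sq_eq hE hc.1 m1 (ipow_mem_Ep c k) hk
  have e2 := pow_sq_eq hE hc'.1 m2 (ipow_mem_Ep c' l) hl
  rw [← ipow_pow', e1, ipow_pow', ← ipow_mul, ipow_pow, ← ipow_natCast] at e2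
  have e3 : k * l = 1 := by
    by_contra hn
    refine ipow_inf hE hc.1 (mul_ne_zero_Z (sub_ne_zero.2 hn) (natCast_ne_zero_Z (ee_ne_zero Γ))) ?_
    rw [sub_mul, one_mul, sub_eq_add_neg, ipow_add, ipow_neg, ← e2, mul_inv_cancel]
    exact IsOfFinOrder.one
  rcases unit_Z e3 with rfl | rfl
  · left; rwa [ipow_one] at hk
  · right; rwa [ipow_neg, ipow_one] at hk
theorem Prim.pow_pm (hE : S_ELEM) (hc : Prim c) (hc' : Prim c') (h : Ep c' = Ep c) :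
    c' ^ (Γ.e * Γ.e) = c ^ (Γ.e * Γ.e) ∨ (c' ^ (Γ.e * Γ.e))⁻¹ = c ^ (Γ.e * Γ.e) := by
  have m1 : c' ∈ Ep c := h ▸ self_mem_Ep c'
  rcases hc.pm hE hc' h with e | e
  · exact Or.inl (pow_sq_eq hE hc.1 m1 (self_mem_Ep c) e)
  · right
    rw [pow_sq_eq hE hc.1 m1 (inv_mem (self_mem_Ep c)) e, inv_pow, inv_inv]
theorem Cj.pow (hE : S_ELEM) (hc : Prim c) (hc' : Prim c') (h : Cj x c' c) :
    x * c' ^ (Γ.e * Γ.e) * x⁻¹ = c ^ (Γ.e * Γ.e) ∨
      x * (c' ^ (Γ.e * Γ.e))⁻¹ * x⁻¹ = c ^ (Γ.e * Γ.e) := by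
  rcases hc.pow_pm hE (hc'.conj x) h with e | e
  · left; rw [← e, conj_pow]
  · right; rw [← e, conj_pow]; group

theorem disp_ipow (c : MM Γ a) (k : a.Z) (z : MM Γ a) :
    ds (ipow c k * z) (c * (ipow c k * z)) = ds z (c * z) :=
  disp_comm (commute_ipow (Commute.refl c) k).symm z

/-- every point is close to a centre, compared with its displacement -/
theorem exists_centre (hL : S_LINE) (hc : ¬ IsOfFinOrder c) (p : MM Γ a) :
    ∃ z, ds z (c * z) = md c ∧ Ls (ds p z) (ds p (c * p)) := by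
  obtain ⟨q, hq⟩ := exists_md_ds c
  obtain ⟨k, hk⟩ := (hL Γ a c q hc (Ls.of_le hq.le)).2.1 p
  exact ⟨_, (disp_ipow c k q).trans hq, hk⟩

theorem tors_disp (hL : S_LINE) (hc : ¬ IsOfFinOrder c) (hf : f ∈ Ep c) (h : IsOfFinOrder f)
    (p : MM Γ a) : Ls (ds p (f * p)) (ds p (c * p)) := by
  obtain ⟨z, hz, hp⟩ := exists_centre hL hc p
  have h1 := (hL Γ a c z hc (Ls.of_le hz.le)).2.2 f hf h
  exact Ls.mono_left (disp_le f p z) (hp.two.add (h1.mono_right (md_le_ds c p)))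
theorem ipow_disp (hE : S_ELEM) (hL : S_LINE) (hc : ¬ IsOfFinOrder c) {k : a.Z} (hk : k ≠ 0)
    (p : MM Γ a) : Ls (ds p (c * p)) (ds p (ipow c k * p)) := by
  obtain ⟨q, hq⟩ := exists_md_ds c
  obtain ⟨L, hL1, hL2⟩ := (hL Γ a c q hc (Ls.of_le hq.le)).1
  have hL0 : 0 < L := hL1.2.pos (one_pos.trans_le (one_le_md' hc))
  have h1 : L ≤ |zK k| * L := le_mul_of_one_le_left hL0.le (one_le_abs_zK hk)
  have h2 : Ls (md c) (md (ipow c k)) := hL1.2.mono_right (h1.trans (hL2 k).2.2)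
  have h3 : Ls (ds q (ipow c k * q)) (md (ipow c k)) :=
    Ls.mono_left (by linarith) (((hL2 k).2.1.trans' h2).add (Ls.of_le (hL2 k).2.2))
  obtain ⟨j, hj⟩ := (hL Γ a _ q (ipow_inf hE hc hk) h3).2.1 p
  rw [← ipow_mul] at hj
  refine Ls.mono_left (disp_le c p (ipow c (k * j) * q)) (hj.two.add ?_)
  rw [disp_ipow, hq]
  exact h2.mono_right (md_le_ds _ p)
theorem pow_disp (hE : S_ELEM) (hL : S_LINE) (hc : ¬ IsOfFinOrder c) {n : ℕ} (hn : n ≠ 0)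
    (p : MM Γ a) : Ls (ds p (c * p)) (ds p (c ^ n * p)) := by
  rw [← ipow_natCast]
  exact ipow_disp hE hL hc (natCast_ne_zero_Z hn) p
/-- a primitive element moves points no more than the elements of infinite order of its closure -/
theorem Prim.disp (hE : S_ELEM) (hL : S_LINE) (hc : Prim c) (hf : f ∈ Ep c)
    (h : ¬ IsOfFinOrder f) (p : MM Γ a) : Ls (ds p (c * p)) (ds p (f * p)) := by
  obtain ⟨k, hk⟩ := hc.2 f hf
  have e := pow_sq_eq hE hc.1 hf (ipow_mem_Ep c k) hk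
  have hk0 : k ≠ 0 := by
    rintro rfl
    rw [ipow_zero, mul_one] at hk
    exact h (isOfFinOrder_inv_iff.1 hk)
  have h1 := ipow_disp hE hL hc.1 (mul_ne_zero_Z hk0 (natCast_ne_zero_Z (ee_ne_zero Γ))) p
  rw [← ipow_pow, ← e] at h1
  exact h1.trans' ⟨_, disp_pow f p _⟩
theorem Prim.disp' (hE : S_ELEM) (hL : S_LINE) (hc : Prim c) (h : ¬ IsOfFinOrder d)
    (he : Ep c = Ep d) (p : MM Γ a) : Ls (ds p (c * p)) (ds p (d * p)) :=
  hc.disp hE hL (he ▸ self_mem_Ep d) h p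
theorem Prim.md_ls (hE : S_ELEM) (hL : S_LINE) (hc : Prim c) (h : ¬ IsOfFinOrder d)
    (he : Ep c = Ep d) : Ls (md c) (md d) := by
  obtain ⟨q, hq⟩ := exists_md_ds d
  exact Ls.mono_left (md_le_ds c q) (hq ▸ hc.disp' hE hL h he q)
theorem Prim.fix (hE : S_ELEM) (hL : S_LINE) (hc : Prim c) (h : ¬ IsOfFinOrder d)
    (he : Ep c = Ep d) (hp : Ll (ds p (d * p)) μ) : Ll (ds p (c * p)) μ :=
  Ll.ls_left (hc.disp' hE hL h he p) hp
theorem md_pow_le (g : MM Γ a) (n : ℕ) : md (g ^ n) ≤ n * md g := by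
  obtain ⟨q, hq⟩ := exists_md_ds g
  exact (md_le_ds _ q).trans (hq ▸ disp_pow g q n)
theorem md_pow_ls (hE : S_ELEM) (hL : S_LINE) (hc : ¬ IsOfFinOrder c) {n : ℕ} (hn : n ≠ 0) :
    Ls (md c) (md (c ^ n)) := by
  obtain ⟨q, hq⟩ := exists_md_ds (c ^ n)
  exact Ls.mono_left (md_le_ds c q) (hq ▸ pow_disp hE hL hc hn q)
/-- long powers -/
theorem pow_long (hL : S_LINE) (hc : ¬ IsOfFinOrder c) {D : a.K} (h : Ls D (md c)) :
    ∃ N : ℕ, N ≠ 0 ∧ ∀ n, N ≤ n → D ≤ md (c ^ n) := by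
  obtain ⟨q, hq⟩ := exists_md_ds c
  obtain ⟨L, hL1, hL2⟩ := (hL Γ a c q hc (Ls.of_le hq.le)).1
  have hL0 : 0 < L := hL1.2.pos (one_pos.trans_le (one_le_md' hc))
  obtain ⟨N, hN⟩ := h.trans' hL1.2
  refine ⟨N + 1, N.succ_ne_zero, fun n hn => hN.trans ?_⟩
  have h1 := (hL2 (n : a.Z)).2.2
  rw [ipow_natCast, zK_natCast, abs_of_nonneg (Nat.cast_nonneg n)] at h1
  refine le_trans (mul_le_mul_of_nonneg_right ?_ hL0.le) h1
  exact_mod_cast (Nat.le_succ N).trans hn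
/-- a conjugator of centred primitive elements is short up to an exponent -/
theorem short_conj (hE : S_ELEM) (hL : S_LINE) (hc : Prim c) (hc' : Prim c') (h1 : Cen c)
    (h2 : Cen c') (h : Cj y c' c) : ∃ k : a.Z, Ls (ln ((ipow c k)⁻¹ * y)) (md c) := by
  obtain ⟨k, hk⟩ := (hL Γ a c 1 hc.1 (by rw [ds_one_mul]; exact h1)).2.1 y
  refine ⟨k, ?_⟩
  rw [mul_one, ds_comm] at hk
  have h3 := hc.disp' hE hL (hc'.conj y).1 h.symm y
  have e : ds y (y * c' * y⁻¹ * y) = ln c' := by rw [inv_mul_cancel_right, ds_mul_right]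
  have h4 := (hc'.conj y).md_ls hE hL hc.1 h
  rw [md_conj'] at h4
  rw [e] at h3
  exact (hk.trans' h3).trans' (Ls.trans' h2 h4)
/-- coordinates on the axis, from a centre `z` of `c` -/
theorem exists_coord (hL : S_LINE) (hc : ¬ IsOfFinOrder c) (hz : Ls (ds z (c * z)) (md c)) :
    ∃ L : a.K, Sim L (md c) ∧ ∀ μ : a.K, Ll (md c) μ →
      (∀ k l : a.Z, Ll (ds (ipow c k * z) (ipow c l * z) - |zK k - zK l| * L) μ ∧
        |zK k - zK l| * L ≤ ds (ipow c k * z) (ipow c l * z)) ∧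
      (∀ i j k : a.Z, i ≤ j → j ≤ k → On μ (ipow c j * z) (ipow c i * z) (ipow c k * z)) ∧
      ∀ p, Ll (ds p (c * p)) μ ↔ ∃ k : a.Z, Ll (ds p (ipow c k * z)) μ := by
  obtain ⟨⟨L, hL1, hL2⟩, hL3, -⟩ := hL Γ a c z hc hz
  refine ⟨L, hL1, fun μ hμ => ?_⟩
  have h1 : ∀ k l : a.Z, Ll (ds (ipow c k * z) (ipow c l * z) - |zK k - zK l| * L) μ ∧
      |zK k - zK l| * L ≤ ds (ipow c k * z) (ipow c l * z) := by
    intro k l
    rw [ds_ipow, abs_sub_comm, ← zK_sub]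
    exact ⟨Ll.ls_left (hL2 _).2.1 hμ, (hL2 _).1⟩
  refine ⟨h1, fun i j k hij hjk => ?_, fun p => ⟨fun hp => ?_, fun ⟨k, hk⟩ => ?_⟩⟩
  · have a1 := (h1 i j).1
    have a2 := (h1 j k).1
    have a3 := (h1 i k).2
    have b1 := zK_le.2 hij
    have b2 := zK_le.2 hjk
    rw [abs_of_nonpos (by linarith)] at a1 a2 a3
    exact Ll.mono_left (by linarith) (a1.add a2)
  · obtain ⟨k, hk⟩ := hL3 p
    exact ⟨k, Ll.ls_left hk hp⟩
  · refine Ll.mono_left (disp_le c p (ipow c k * z)) (hk.two.add ?_)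
    rw [disp_ipow]
    exact Ll.ls_left hz hμ
/-- an element of the closure that fixes one point of the axis fixes the axis -/
theorem fix_of_fix (hE : S_ELEM) (hL : S_LINE) (hd : ¬ IsOfFinOrder d) (hg : g ∈ Ep d)
    (hp : Ll (ds p (d * p)) μ) (hm : Ll (md g) μ) : Ll (ds p (g * p)) μ := by
  obtain ⟨c, hc, he⟩ := (hE Γ a d hd).1
  have hp' := hc.fix hE hL hd he hp
  rw [← he] at hg
  obtain ⟨k, hk⟩ := hc.2 g hg
  obtain ⟨z, hz, hpz⟩ := exists_centre hL hc.1 p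
  obtain ⟨L, hL1, hL2⟩ := (hL Γ a c z hc.1 (Ls.of_le hz.le)).1
  have hL0 : 0 < L := hL1.2.pos (one_pos.trans_le (one_le_md' hc.1))
  have e := pow_sq_eq hE hc.1 hg (ipow_mem_Ep c k) hk
  have h1 := (hL2 (k * ((Γ.e * Γ.e : ℕ) : a.Z))).2.2
  rw [← ipow_pow, ← e, zK_mul, zK_natCast, abs_mul, Nat.abs_cast] at h1
  have h2 : |zK k| * L ≤ |zK k| * ((Γ.e * Γ.e : ℕ) : a.K) * L := by
    refine mul_le_mul_of_nonneg_right (le_mul_of_one_le_right (abs_nonneg _) ?_) hL0.le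
    exact_mod_cast Nat.one_le_iff_ne_zero.2 (ee_ne_zero Γ)
  have h3 : Ll (|zK k| * L) μ := Ll.mono_left ((h2.trans h1).trans (md_pow_le g _)) (hm.nat_mul _)
  have hmd : Ll (md c) μ := Ll.mono_left (md_le_ds c p) hp'
  have h4 : Ll (ds p (ipow c k * p)) μ :=
    Ll.mono_left (by linarith [disp_le (ipow c k) p z])
      (((Ll.ls_left hpz hp').two.add h3).add (Ll.ls_left (hL2 k).2.1 hmd))
  have h5 : Ll (ds p (g⁻¹ * ipow c k * p)) μ :=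
    Ll.ls_left (tors_disp hL hc.1 (mul_mem (inv_mem hg) (ipow_mem_Ep c k)) hk p) hp'
  have h6 := fix_mul h4 (fix_inv h5)
  rwa [mul_inv_rev, inv_inv, mul_inv_cancel_left] at h6

end Pool.Agent.P.MP_dba3d2_lc


end

section

/-! Shared toolbox, part five: periodic segments. -/

namespace Pool.Agent.P.MP_dba3d2_lc

open Filter

variable {Γ : HG} {a : Amb} {μ : a.K} {c c' d f g h m p q r x y z : MM Γ a}

theorem mem_Ep_of_stab (hE : S_ELEM) (hP : S_PERC) (hμ : Big μ) (hn : Ls μ (ds p q))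
    (hc : ¬ IsOfFinOrder c) (h1 : Stab μ p q c) (h2 : Stab μ p q g) : g ∈ Ep c := by
  obtain ⟨c0, h0, -, h3⟩ := hP Γ a μ p q hμ hn ⟨c, hc, h1⟩
  rw [Ep_eq hE h0.1 (h3 c h1) hc]
  exact h3 g h2
theorem Ep_eq_of_stab (hE : S_ELEM) (hP : S_PERC) (hμ : Big μ) (hn : Ls μ (ds p q))
    (hc : ¬ IsOfFinOrder c) (hd : ¬ IsOfFinOrder d) (h1 : Stab μ p q c) (h2 : Stab μ p q d) :
    Ep c = Ep d := (Ep_eq hE hc (mem_Ep_of_stab hE hP hμ hn hc h1 h2) hd).symm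
/-- an element that maps a nondegenerate piece of an axis into the axis preserves it -/
theorem inE_of_stab (hE : S_ELEM) (hP : S_PERC) (hμ : Big μ) (hn : Ls μ (ds p q))
    (hd : ¬ IsOfFinOrder d) (h1 : Stab μ p q d) (h2 : Stab μ (g * p) (g * q) d) : InE d g := by
  have h3 := Ep_eq_of_stab hE hP hμ hn ((finOrder_conj' g d).not.2 hd) hd ((stab_conj' g).2 h2) h1
  simpa using (((hE Γ a d hd).2.2.2.1 g⁻¹).2 (by rwa [Cj, inv_inv])).inv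
/-- a nonperiodic segment has an inner nonperiodic subsegment -/
theorem inner_nper (hE : S_ELEM) (hL : S_LINE) (hP : S_PERC) (hμ : Big μ) (hn : Ls μ (ds p q))
    (h : ¬ Per μ p q) : ∃ r s, On μ r p q ∧ On μ s p q ∧ On μ r p s ∧ On μ s r q ∧
      Ls μ (ds p r) ∧ Ls μ (ds r s) ∧ Ls μ (ds s q) ∧ ¬ Per μ r s := by
  obtain ⟨M, hM⟩ := id hn
  have m0 := hμ.pos
  have d0 := ds_nonneg p q
  have dc := ds_comm p q
  obtain ⟨t, e⟩ : ∃ t : ℕ → a.K, ∀ n : ℕ, 4 * (M + 1) * (n + 1) * t n = μ :=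
    ⟨fun n => μ / (4 * (M + 1) * (n + 1)), fun n => mul_div_cancel₀ _ (by positivity)⟩
  have t0 : ∀ n, 0 ≤ t n := fun n => le_of_mul_le_mul_left (by rw [mul_zero, e]; exact m0.le)
    (show (0 : a.K) < 4 * (M + 1) * (n + 1) by positivity)
  have t1 : ∀ n : ℕ, (n + 1) * t n = t 0 := fun n =>
    mul_left_cancel₀ (show (4 * (M + 1) : a.K) ≠ 0 by positivity) (by
      rw [← mul_assoc, e, ← e 0]; simp)
  have t2 : ∀ n, t n ≤ t 0 := fun n => by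
    linarith [t1 n, t0 n, mul_nonneg (n.cast_nonneg (α := a.K)) (t0 n)]
  have t3 : 4 * t 0 ≤ ds p q := le_of_mul_le_mul_left (by
    have := e 0
    push_cast at this
    linarith) (show (0 : a.K) < M + 1 by positivity)
  have t4 : ∀ n, Ls μ (t n) := fun n => ⟨4 * (M + 1) * (n + 1), by push_cast; exact (e n).ge⟩
  choose r r1 r2 r3 r4 using fun n => exists_on hμ p q (t n) (t0 n) (by linarith [t2 n, t0 0])
  choose s s1 s2 s3 s4 using fun n => exists_on hμ q p (t n) (t0 n) (by linarith [t2 n, t0 0])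
  have s5 := fun n => ds_comm q (s n)
  have s6 := fun n => ds_comm p (s n)
  have n1 : ∀ n, Ls μ (ds (r n) (s n)) := fun n => hn.trans' ⟨2, by
    push_cast
    linarith [ds_tri p (r n) q, ds_tri (r n) (s n) q, r2 n, s2 n, s5 n, t2 n]⟩
  by_contra hc
  have per : ∀ n, Per μ (r n) (s n) := fun n => by
    by_contra hp
    have o := On.order hμ (r1 n) (s1 n).symm
      (Ll.of_nonpos (by linarith [r2 n, s2 n, s4 n, s6 n, t2 n]) m0.le)
    exact hc ⟨r n, s n, r1 n, (s1 n).symm, o.1, o.2,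
      (t4 n).of_le_add hμ.ll_one m0 1 (by push_cast; linarith [r3 n]), n1 n,
      (t4 n).of_le_add hμ.ll_one m0 1 (by push_cast; linarith [s3 n, s5 n]), hp⟩
  choose c c1 c2 _ using fun n => hP Γ a μ _ _ hμ (n1 n) (per n)
  have c3 : ∀ n, Ep (c 0) = Ep (c n) := fun n =>
    Ep_eq_of_stab hE hP hμ (n1 0) (c1 0).1 (c1 n).1 (c2 0) ((c2 n).sub hμ
      ((r1 0).shift hμ (.mono_left (by linarith [r2 n, r3 0, t2 n]) hμ.ll_one)
        (.of_nonpos (by linarith [s2 n, r4 0, r2 0, t2 n]) m0.le))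
      ((s1 0).symm.shift hμ (.of_nonpos (by linarith [r2 n, s4 0, s2 0, s6 0, t2 n]) m0.le)
        (.mono_left (by linarith [s2 n, s3 0, s5 0, t2 n]) hμ.ll_one)))
  have key : ∀ (u : MM Γ a) (v : ℕ → MM Γ a), (∀ n, ds u (v n) ≤ t n) →
      (∀ n, Ll (ds (v n) (c n * v n)) μ) → Ll (ds u (c 0 * u)) μ := fun u v h1 h2 =>
    ll_of_forall m0 fun n _ => Ll.mono_left (by
      have b1 := mul_le_mul_of_nonneg_left ((disp_le (c 0) u (v n)).trans (add_le_add_left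
        (mul_le_mul_of_nonneg_left (h1 n) zero_le_two) _)) (n.cast_nonneg (α := a.K))
      have b2 := e 0
      have b3 := mul_nonneg (M.cast_nonneg (α := a.K)) (t0 0)
      push_cast at b2
      linarith [t1 n, t0 n, t0 0]) (((c1 0).fix hE hL (c1 n).1 (c3 n) (h2 n)).nat_mul n)
  exact h ⟨c 0, (c1 0).1, key p r r2 fun n => (c2 n).1, key q s s2 fun n => (c2 n).2⟩
/-- if `g` moves `x` and `y` by at most `D`, a long periodic middle part of `[x, y]` lies on the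
axis of a root of `g` -/
theorem long_per (hE : S_ELEM) (hP : S_PERC) (hμ : Big μ) (hg : ¬ IsOfFinOrder g) {D : a.K}
    (hx : ds x (g * x) ≤ D) (hy : ds y (g * y) ≤ D) (hp : On μ p x y) (hq : On μ q x y)
    (hl : 6 * D + μ ≤ ds p q) (hd : ¬ IsOfFinOrder d) (h : Stab μ p q d) : Ep d = Ep g := by
  wlog o : On μ p x q ∧ On μ q p y generalizing p q
  · exact this hq hp (ds_comm p q ▸ hl) h.symm ((On.total hμ hp hq).resolve_left o)
  have D0 := (ds_nonneg _ _).trans hx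
  have m0 := hμ.pos
  have dc := ds_comm p q
  have key : ∀ z, On μ z p q → D ≤ ds p z + 1 → D ≤ ds z q + 1 → On μ (g * z) p q :=
    fun z h0 h1 h2 => ((On.conv hμ hp hq h0).mul g).shift hμ
      (.mono_left (by
        rw [ds_mul_left]
        linarith [ds_tri (g * x) x p, ds_comm x (g * x)]) ((Ll.add (o.1.sub' h0).2 hμ.ll_one)))
      (.mono_left (by
        rw [ds_mul_left]
        linarith [ds_tri (g * y) y q, ds_comm y (g * y), ds_comm y q])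
        (Ll.add (o.2.sub h0).2 hμ.ll_one))
  obtain ⟨r, r1, r2, r3, r4⟩ := exists_on hμ p q D D0 (by linarith)
  obtain ⟨s, s1, s2, s3, s4⟩ := exists_on hμ q p D D0 (by linarith)
  have s5 := ds_comm q s
  have s6 := ds_comm p s
  exact (Ep_eq hE hd ((inE_of_stab hE hP hμ (.of_le (by linarith [ds_tri r s q])) hd
    (h.sub hμ r1 s1.symm) (h.sub hμ (key r r1 r3 (by linarith))
      (key s s1.symm (by linarith) (by linarith)))).mem hE hd hg) hg).symm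
/-- two segments whose ends are `D`-close have a long overlap -/
theorem exists_ov (hμ : Big μ) {D T : a.K} {x' y' : MM Γ a} (hx : ds x x' ≤ D) (hy : ds y y' ≤ D)
    (hT : μ ≤ T) (hl : 2 * D + T + μ ≤ ds x y) : ∃ p q, Ov μ p q x y x' y' ∧ T ≤ ds p q := by
  have D0 := (ds_nonneg _ _).trans hx
  have m0 := hμ.pos
  have dc := ds_comm x y
  obtain ⟨r, r1, r2, r3, r4⟩ := exists_on hμ x y D D0 (by linarith)
  obtain ⟨s, s1, s2, s3, s4⟩ := exists_on hμ y x D D0 (by linarith)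
  have s5 := ds_comm y s
  have s6 := ds_comm x s
  have l : T ≤ ds r s := by linarith [ds_tri r s y]
  exact ⟨r, s, ⟨.of_le (hT.trans l), r1, s1.symm,
    r1.shift hμ (.mono_left (by linarith) hμ.ll_one) (.of_nonpos (by linarith) m0.le),
    s1.symm.shift hμ (.of_nonpos (by linarith) m0.le) (.mono_left (by linarith) hμ.ll_one)⟩, l⟩
/-- a short conjugator between elements of `H` whose root is hyperbolic at scale `μ` is in `H` -/
theorem GC0.axis (hE : S_ELEM) (hL : S_LINE) (hP : S_PERC) {H : Subgroup (MM Γ a)} (hH : GC0 H)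
    (hμ : Big μ) {γ γ' : MM Γ a} (h1 : γ ∈ H) (h2 : γ' ∈ H) (he : x * γ' * x⁻¹ = γ)
    (l1 : Ls (ln γ) μ) (l2 : Ls (ln γ') μ) (l3 : Ls (ln x) μ) (hγ : ¬ IsOfFinOrder γ)
    (hc : Prim c) (hep : Ep c = Ep γ) (hm : Ls μ (md c)) : x ∈ H := by
  have x0 := ln_nonneg x
  have g0 := ln_nonneg γ
  obtain ⟨N, -, hN⟩ := pow_long hL hγ (((((l3.add l1).nat_mul 8).add (Ls.refl' μ).two).trans'
    hm).trans' (hc.md_ls hE hL hγ hep))
  have b := (hN N le_rfl).trans (md_le_ln _)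
  have e : x * γ' ^ N = γ ^ N * x := by rw [← he, conj_pow, inv_mul_cancel_right]
  push_cast at b
  obtain ⟨p, q, o, l⟩ := exists_ov (x := 1) (y := γ ^ N) (x' := x) (y' := x * γ' ^ N)
    (D := ln x + ln γ) (T := 6 * (ln x + ln γ) + μ) hμ (by rw [ds_one_left]; linarith)
    (by rw [e, ds_mul_right]; linarith) (by linarith) (by rw [ds_one_left]; linarith)
  refine hH.g2 μ hμ _ (pow_mem h1 N) _ (pow_mem h2 N) (.mono_left (ln_pow_le _ _) (l1.nat_mul N))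
    (.mono_left (ln_pow_le _ _) (l2.nat_mul N)) x p q o fun ⟨d, hd, hs⟩ => ?_
  have k := disp_comm (Commute.pow_self γ N) 1
  rw [ds_one_mul, mul_one] at k
  have := long_per hE hP hμ hγ (by rw [ds_one_mul]; linarith) (by rw [k]; linarith) o.2.1 o.2.2.1
    l hd hs
  exact (Ll.ls_left (hc.md_ls hE hL hd (hep.trans this.symm)) hs.md).not_ls hμ.pos hm

end Pool.Agent.P.MP_dba3d2_lc


end

section

/-! Interface, chapter B: consequences of the closure conditions. -/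

namespace Pool.Agent.P.MP_dba3d2_lc

open Filter

-- deps: FINM PERC B_CVE
-- imports: Pool.Agent.P.MP_dba3d2_lc.B.Axis2
def S_CVX : Prop := ∀ (Γ : HG) (a : Amb) (H : Subgroup (MM Γ a)), Cvx H → GC H

-- deps: ELEM LINE
-- imports: Pool.Agent.P.MP_dba3d2_lc.B.Axis2
def S_TRUNC : Prop := ∀ (Γ : HG) (a : Amb) (H W : Subgroup (MM Γ a)), GC0 H → std Γ a ≤ W →
  Sep H W → GC0 (H ⊓ W)

-- deps:
def S_UNION : Prop := ∀ (Γ : HG) (a : Amb) (ι : Type) [Nonempty ι] (H : ι → Subgroup (MM Γ a)),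
  Directed (· ≤ ·) H → ((∀ i, GC0 (H i)) → GC0 (⨆ i, H i)) ∧ ((∀ i, GC (H i)) → GC (⨆ i, H i))

-- deps: B_APX B_STX
-- imports: Pool.Agent.P.MP_dba3d2_lc.B.Axis2
def S_EXTGC : Prop := ∀ (Γ : HG) (a b : Amb) (E : Ext a b) (H : Subgroup (MM Γ a)),
  (GC0 H → GC0 (H.map (E.hom Γ))) ∧ (GC H → GC (H.map (E.hom Γ)))

-- deps: B_CLO B_CN2 B_CN0
-- imports: Pool.Agent.P.MP_dba3d2_lc.B.Axis2
def S_COUNT : Prop := ∀ (Γ : HG) (a : Amb) (H : Subgroup (MM Γ a)) (X : Set (MM Γ a)), GC H →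
  X.Countable → X ⊆ H → ∃ H0 ≤ H, X ⊆ H0 ∧ (H0 : Set (MM Γ a)).Countable ∧ GC H0

-- deps: ELEM LINE PERC
-- imports: Pool.Agent.P.MP_dba3d2_lc.B.Axis2
def S_NP : Prop := ∀ (Γ : HG) (a : Amb) (c : MM Γ a), Prim c → Big (ln c) →
  ∀ k : ℕ, 2 ≤ k → Ls (ln c) (ln (c ^ k)) ∧ ¬ Per (ln c) 1 (c ^ k)

-- deps: ELEM LINE B_RT1 B_RT2
-- imports: Pool.Agent.P.MP_dba3d2_lc.B.Axis2
def S_ROOT : Prop := ∀ (Γ : HG) (a : Amb) (H : Subgroup (MM Γ a)), GC0 H →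
  (∀ γ ∈ H, ¬ IsOfFinOrder γ → ∃ c ∈ H, Prim c ∧ Ep c = Ep γ) ∧
  (∀ c ∈ H, ∀ c' ∈ H, Prim c → Prim c' → ∀ x, Cj x c' c →
    (Ll (ln x) (ln c + ln c') → x ∈ H) ∧ (Cen c → Cen c' → Ls (ln x) (md c) → x ∈ H)) ∧
  (∀ c ∈ H, ¬ IsOfFinOrder c → ∀ f ∈ Ep c, IsOfFinOrder f → f ∈ H) ∧
  (∀ c ∈ H, ¬ IsOfFinOrder c → ∀ c0, Prim c0 → Ep c0 = Ep c → c0 ∈ H) ∧
  (∀ c ∈ H, ¬ IsOfFinOrder c → ∀ g, InE c g → ∃ g' ∈ H, g * g'⁻¹ ∈ Ep c) ∧
  (∀ c ∈ H, ∀ c' ∈ H, ¬ IsOfFinOrder c → ¬ IsOfFinOrder c' → ∀ x, Cj x c' c →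
    ∃ h ∈ H, x * h⁻¹ ∈ Ep c)

-- deps: ELEM LINE PERC ROOT B_RG0
-- imports: Pool.Agent.P.MP_dba3d2_lc.B.Axis2
def S_RIG : Prop := ∀ (Γ : HG) (a : Amb) (H : Subgroup (MM Γ a)), GC0 H →
  (∀ c ∈ H, ∀ d ∈ H, ∀ c' ∈ H, ∀ d' ∈ H, ¬ IsOfFinOrder c → ¬ IsOfFinOrder d →
    ¬ IsOfFinOrder c' → ¬ IsOfFinOrder d' → Ep c ≠ Ep d → ∀ x, Cj x c' c → Cj x d' d → x ∈ H) ∧
  (∀ c ∈ H, ∀ d ∈ H, ¬ IsOfFinOrder c → ¬ IsOfFinOrder d → Ep c ≠ Ep d →
    ∀ f g, InE c f → InE d g → f * g ∈ H → f ∈ H)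

-- deps: ELEM LINE B_NM1
-- imports: Pool.Agent.P.MP_dba3d2_lc.B.Axis2
def S_NORM : Prop := ∀ (Γ : HG) (a : Amb) (H : Subgroup (MM Γ a)), GC0 H →
  (∀ c ∈ H, Prim c → Cen c → ∀ h ∈ H, ∃ f ∈ H, f ∈ Ep c ∧
    Ls (ln (h * f)) (ln (h * c * h⁻¹)) ∧ NE c (h * f)) ∧
  (∀ c ∈ H, ∀ c' ∈ H, Prim c → Prim c' → Cen c → Cen c' → ∀ h ∈ H, ¬ Cj h c' c →
    ∃ f ∈ H, ∃ f' ∈ H, f ∈ Ep c ∧ f' ∈ Ep c' ∧ NE c (f * h * f')⁻¹ ∧ NE c' (f * h * f') ∧
      ∀ q : MM Γ a, Ls (ln (f * h * f'))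
        (ln (q⁻¹ * c * q) + ln (q⁻¹ * (f * h * f' * c' * (f * h * f')⁻¹) * q)))

end Pool.Agent.P.MP_dba3d2_lc


end
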