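import Pool.Agent.P.MP_dba3d2_lcM.Ab03
import Pool.Agent.P.MP_dba3d2_lcM.Ab05
import Pool.Agent.P.MP_dba3d2_lcM.Bb07
import Pool.Agent.P.MP_dba3d2_lcM.Bb10

section

/-! Step B_CLO of the stability project. -/

namespace Pool.Agent.P.MP_dba3d2_lc

open Filter

namespace B_clo

theorem lists {G : Type} {A : Set G} (hA : A.Countable) :
    {l : List G | ∀ x ∈ l, x ∈ A}.Countable := by
  have := hA.to_subtype
  refine (Set.countable_range fun l : List A => l.map Subtype.val).mono fun l hl => ?_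
  exact ⟨l.pmap Subtype.mk hl, by simp [List.map_pmap]⟩

theorem clo {G : Type} (H X : Set G) (W : List G → Set G) (hX : X.Countable) (hH : X ⊆ H)
    (hW : ∀ l, (W l).Countable) (hWH : ∀ l, (∀ x ∈ l, x ∈ H) → W l ⊆ H) :
    ∃ B ⊆ H, X ⊆ B ∧ B.Countable ∧ ∀ l, (∀ x ∈ l, x ∈ B) → W l ⊆ B := by
  let A : ℕ → Set G := fun n =>
    Nat.rec X (fun _ B => B ∪ ⋃ l ∈ {l : List G | ∀ x ∈ l, x ∈ B}, W l) n
  have hs : ∀ n, A (n + 1) = A n ∪ ⋃ l ∈ {l : List G | ∀ x ∈ l, x ∈ A n}, W l := fun _ => rfl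
  have hm : Monotone A := monotone_nat_of_le_succ fun n => by
    rw [hs]; exact Set.subset_union_left
  have h1 : ∀ n, (A n).Countable ∧ A n ⊆ H := by
    intro n
    induction n with
    | zero => exact ⟨hX, hH⟩
    | succ n ih =>
      rw [hs]
      exact ⟨ih.1.union ((lists ih.1).biUnion fun l _ => hW l), Set.union_subset ih.2
        (Set.iUnion₂_subset fun l hl => hWH l fun x hx => ih.2 (hl x hx))⟩
  have h2 : ∀ l : List G, (∀ x ∈ l, x ∈ ⋃ n, A n) → ∃ n, ∀ x ∈ l, x ∈ A n := by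
    intro l
    induction l with
    | nil => exact fun _ => ⟨0, by simp⟩
    | cons a l ih =>
      intro h
      obtain ⟨n, hn⟩ := ih fun x hx => h x (List.mem_cons_of_mem _ hx)
      obtain ⟨m, hm'⟩ := Set.mem_iUnion.1 (h a List.mem_cons_self)
      refine ⟨max n m, fun x hx => ?_⟩
      rcases List.mem_cons.1 hx with rfl | hx
      · exact hm (le_max_right _ _) hm'
      · exact hm (le_max_left _ _) (hn x hx)
  refine ⟨⋃ n, A n, Set.iUnion_subset fun n => (h1 n).2, Set.subset_iUnion A 0,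
    Set.countable_iUnion fun n => (h1 n).1, fun l hl => ?_⟩
  obtain ⟨n, hn⟩ := h2 l hl
  refine Set.Subset.trans ?_ (Set.subset_iUnion A (n + 1))
  rw [hs]
  exact Set.subset_union_of_subset_right
    (Set.subset_biUnion_of_mem (u := W) (s := {l : List G | ∀ x ∈ l, x ∈ A n}) hn) _

end B_clo

theorem p_B_CLO :
    S_B_CLO := by
  intro G _ H X W hX hH hW hWH
  obtain ⟨B, h1, h2, h3, h4⟩ := B_clo.clo (H : Set G) X (fun l => W l ∪ {l.prod, l.prod⁻¹}) hX hH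
    (fun l => (hW l).union (Set.toFinite _).countable) fun l hl =>
      Set.union_subset (hWH l hl) (by
        rintro x (rfl | rfl)
        · exact H.list_prod_mem hl
        · exact H.inv_mem (H.list_prod_mem hl))
  refine ⟨{ carrier := B
            mul_mem' := fun {a b} ha hb => h4 [a, b] (by simp [ha, hb]) (Or.inr (by simp))
            one_mem' := h4 [] (by simp) (Or.inr (by simp))
            inv_mem' := fun {a} ha => h4 [a] (by simp [ha]) (Or.inr (by simp)) },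
    h1, h2, h3, fun l hl => Set.subset_union_left.trans (h4 l hl)⟩

end Pool.Agent.P.MP_dba3d2_lc


end

section

/-! Step B_SMALL of the stability project. -/

namespace Pool.Agent.P.MP_dba3d2_lc

open Filter

namespace B_small

variable {Γ : HG} {a : Amb} {μ : a.K}

theorem side (hμ : Big μ) {p q m r g : MM Γ a} (hm : On μ m p q) (hg : Ll (ds m (g * m)) μ)
    (hr : On μ r p q) (h : ds p (g * p) ≤ ds p r) :
    ∃ x, Ll (ds x (g * x)) μ ∧ On μ x p r := by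
  have h0 := hμ.pos.le
  obtain ⟨x, h1, h2, h3⟩ := exists_mid p (g * p)
  have h4 : Ll (ds p (g * p) - 2 * ds p x) μ :=
    Ll.mono_left (by push_cast; linarith) (hμ.ll_nat 2)
  obtain ⟨h5, h6⟩ := fix_mid hμ hg (On.of_eq h0 h1) (Ll.of_nonpos (by linarith) h0) h4
  have h7 := ds_nonneg p x
  exact ⟨x, h5, (On.order hμ (hm.sub h6).1 hr (Ll.of_nonpos (by linarith) h0)).1⟩

theorem scale {x y : a.K} {n k : ℕ} (hn : 0 < n) (hk : k ≤ n) (hy : 0 ≤ y) (h1 : n * x ≤ μ)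
    (h2 : μ ≤ k * y) : x ≤ y := by
  have h3 : (k : a.K) * y ≤ n * y := mul_le_mul_of_nonneg_right (by exact_mod_cast hk) hy
  exact le_of_mul_le_mul_left (h1.trans (h2.trans h3)) (by exact_mod_cast hn)

theorem less {x : a.K} {n k : ℕ} (hk : k ≤ n) (hx : 0 ≤ x) (h1 : n * x ≤ μ) : k * x ≤ μ :=
  (mul_le_mul_of_nonneg_right (by exact_mod_cast hk) hx).trans h1

end B_small

open B_small in
theorem p_B_SMALL (hTORS : S_TORS) (hELEM : S_ELEM) (hLINE : S_LINE) (hPERC : S_PERC) (hA_SMALL : S_A_SMALL) :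
    S_B_SMALL := by
  intro Γ a μ p q hμ hn hP
  have h0 := hμ.pos.le
  obtain ⟨r, s, hr, hs, hrs, -, ⟨n1, h1⟩, h2, ⟨n2, h3⟩, h4⟩ :=
    inner_nper hELEM hLINE hPERC hμ hn hP
  obtain ⟨n0, hn0, m, hm, hfix⟩ := hA_SMALL Γ a μ p q hμ hn hP
  have hm' : On μ m p q := On.of_eq h0 hm
  refine ⟨r, s, n0 + n1 + n2, hr, hs, h2, h4, by omega, ?_, fun g hp hq => ?_⟩
  · have hf : Finite (StabG μ r s) := (hTORS Γ a _ fun k hk => by
      by_contra h
      exact h4 ⟨k, h, (mem_stabG h0).1 hk⟩).1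
    exact (Set.toFinite (StabG μ r s : Set (MM Γ a))).subset fun g hg => (mem_stabG h0).2 hg
  · have hg := hfix g (less (by omega) (ds_nonneg _ _) hp) (less (by omega) (ds_nonneg _ _) hq)
    rw [ds_comm] at h3
    obtain ⟨x, hx, hx'⟩ := side hμ hm' hg hr (scale (by omega) (by omega) (ds_nonneg _ _) hp h1)
    obtain ⟨y, hy, hy'⟩ := side hμ hm'.symm hg hs.symm
      (scale (by omega) (by omega) (ds_nonneg _ _) hq h3)
    have h5 : On μ s p y := (hs.symm.sub hy').2.symm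
    obtain ⟨h6, h7⟩ := h5.sub hrs
    have h8 := (h6.sub hx').2
    exact ⟨fix_conv hμ hx hy h8, fix_conv hμ hx hy (h8.sub' h7).1⟩

end Pool.Agent.P.MP_dba3d2_lc


end

section

/-! Step B_NET of the stability project. -/

namespace Pool.Agent.P.MP_dba3d2_lc

open Filter

namespace B_net

theorem grid {K : Type} [Field K] [LinearOrder K] [IsStrictOrderedRing K] (s t : K) (ht : 0 ≤ t)
    (N : ℕ) : ∃ i ≤ N, (i : K) * s ≤ t ∧ (t ≤ (i + 1) * s ∨ i = N) := by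
  induction N with
  | zero => exact ⟨0, le_rfl, by simpa using ht, Or.inr rfl⟩
  | succ N ih =>
    obtain ⟨i, h1, h2, h3⟩ := ih
    rcases h3 with h3 | rfl
    · exact ⟨i, h1.trans (Nat.le_succ N), h2, Or.inl h3⟩
    · rcases le_total t ((i + 1) * s) with h | h
      · exact ⟨i, Nat.le_succ i, h2, Or.inl h⟩
      · exact ⟨i + 1, le_rfl, by push_cast; exact h, Or.inr rfl⟩

variable {Γ : HG} {a : Amb} {μ : a.K}

theorem key (hμ : Big μ) {x y p q m r : MM Γ a} (hr : On μ r x y) (hp : On μ p x y)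
    (hq : On μ q x y) (hpq : On μ p x q) (hm : On μ m p q) (h1 : ds m r ≤ ds p m + 1)
    (h2 : ds m r ≤ ds m q) : On μ r p q := by
  obtain ⟨a1, a2⟩ := On.sub' hpq hm
  have b1 : On μ p x r := by
    refine (On.order hμ hp hr (Ll.mono_left ?_ (Ll.add a2 hμ.ll_one))).1
    have := ds_tri x r m
    rw [ds_comm r m] at this
    linarith
  have b2 : On μ r x q := by
    refine (On.order hμ hr hq (Ll.mono_left ?_ a1)).1
    have := ds_tri x m r
    linarith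
  exact (On.sub b2 b1).2

end B_net

theorem p_B_NET :
    S_B_NET := by
  intro Γ a x y
  have hD := ds_nonneg x y
  have hP : ∀ im : ℕ × ℕ, ∃ P : MM Γ a, im.1 ≤ im.2 + 1 → ds x P + ds P y = ds x y ∧
      ds x P ≤ im.1 * (ds x y / (im.2 + 1)) ∧ im.1 * (ds x y / (im.2 + 1)) ≤ ds x P + 1 := by
    rintro ⟨i, m⟩
    by_cases h : i ≤ m + 1
    · have hm : (0 : a.K) < (m : a.K) + 1 := by positivity
      have hi : (i : a.K) ≤ (m : a.K) + 1 := by exact_mod_cast h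
      obtain ⟨P, hP⟩ := exists_point x y (i * (ds x y / (m + 1))) (by positivity) (by
        rw [← mul_div_assoc, div_le_iff₀ hm, mul_comm]
        exact mul_le_mul_of_nonneg_left hi hD)
      exact ⟨P, fun _ => hP⟩
    · exact ⟨1, fun h' => absurd h' h⟩
  choose P hP using hP
  refine ⟨Set.range P, Set.countable_range P, fun μ hμ hxy => ?_⟩
  have h0 := hμ.pos
  have main : ∀ p, On μ p x y → ∀ n : ℕ, ∃ r ∈ Set.range P, On μ r x y ∧ n * ds p r ≤ μ := by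
    intro p hp n
    obtain ⟨C, hC⟩ := hxy
    set m := 2 * n * C with hm
    have hm0 : (0 : a.K) < (m : a.K) + 1 := by positivity
    set s := ds x y / ((m : a.K) + 1) with hs
    have hs0 : 0 ≤ s := by positivity
    have hsD : ((m : a.K) + 1) * s = ds x y := by rw [hs]; field_simp
    obtain ⟨i, i1, i2, i3⟩ := B_net.grid s (ds x p) (ds_nonneg x p) (m + 1)
    obtain ⟨r1, r2, r3⟩ := hP (i, m) i1
    simp only [← hs] at r2 r3
    refine ⟨P (i, m), ⟨_, rfl⟩, On.of_eq h0.le r1, ?_⟩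
    have c := close_le x y p (P (i, m))
    have t1 := ds_tri x p y
    have t2 := ds_nonneg p y
    have e1 : ds x p - i * s ≤ s + (ds x p + ds p y - ds x y) := by
      rcases i3 with i3 | i3
      · linarith
      · rw [i3]; push_cast; linarith
    rw [abs_of_nonneg (by linarith)] at c
    have l : Ll (2 * (ds x p + ds p y - ds x y) + 1 + 2 * (Γ.δ : a.K)) μ :=
      ((Ll.two hp).add hμ.ll_one).add (hμ.ll_delta Γ).two
    have l2 := l (2 * n)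
    have hn : (0 : a.K) ≤ n := Nat.cast_nonneg n
    have e2 : ds p (P (i, m)) ≤ s + (2 * (ds x p + ds p y - ds x y) + 1 + 2 * (Γ.δ : a.K)) := by
      linarith
    have e3 : 2 * n * s ≤ μ := by
      refine le_of_mul_le_mul_left ?_ hm0
      have e4 : ((m : a.K) + 1) * (2 * n * s) = 2 * n * ds x y := by rw [← hsD]; ring
      have e5 : (2 : a.K) * n * ds x y ≤ 2 * n * (C * μ) :=
        mul_le_mul_of_nonneg_left hC (by positivity)
      have e6 : (m : a.K) = 2 * n * C := by rw [hm]; push_cast; ring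
      rw [e4, e6]
      linarith
    have e7 := mul_le_mul_of_nonneg_left e2 hn
    push_cast at l2
    linarith
  refine ⟨main, fun p q hp hq hpq => ?_⟩
  obtain ⟨m, m1, m2, m3⟩ := exists_mid p q
  have hm : On μ m p q := On.of_eq h0.le m1
  obtain ⟨k, hk⟩ := id hpq
  obtain ⟨r, hr, r1, r2⟩ := main m (On.conv hμ hp hq hm) (8 * (k + 1))
  have hd := ds_nonneg p q
  have e1 : 8 * ds m r ≤ ds p q := by
    have hk0 : (0 : a.K) < (k : a.K) + 1 := by positivity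
    refine le_of_mul_le_mul_left ?_ hk0
    push_cast at r2
    linarith
  have f1 : ds m r ≤ ds p m + 1 := by linarith
  have f2 : ds m r ≤ ds m q := by linarith
  have g1 := ds_tri p r m
  have g2 := ds_tri m r q
  have g3 := ds_nonneg p r
  have g4 := ds_nonneg r q
  rw [ds_comm r m] at g1
  refine ⟨r, hr, ?_, ?_, ?_⟩
  · rcases On.total hμ hp hq with h | h
    · exact B_net.key hμ r1 hp hq h.1 hm f1 f2
    · exact B_net.key hμ r1.symm hp.symm hq.symm h.2.symm hm f1 f2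
  · refine Ls.of_le_add hpq (hμ.ll_nat 3) h0 3 ?_
    push_cast
    linarith
  · refine Ls.of_le_add hpq (hμ.ll_nat 3) h0 3 ?_
    push_cast
    linarith

end Pool.Agent.P.MP_dba3d2_lc


end

section

/-! Step B_CN2 of the stability project. -/

namespace Pool.Agent.P.MP_dba3d2_lc

open Filter

namespace B_cn2

variable {Γ : HG} {a : Amb} {μ : a.K}

/-- the elements which move `t.1.2` near to `t.1.1` -/
def C (μ : a.K) (t : ((MM Γ a × MM Γ a) × MM Γ a × MM Γ a) × ℕ) : Set (MM Γ a) :=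
  {g | t.2 * ds t.1.1.1 (g * t.1.2.1) ≤ μ ∧ t.2 * ds t.1.1.2 (g * t.1.2.2) ≤ μ}

theorem step {n : ℕ} {p p' g g0 : MM Γ a} (h : ((2 * n : ℕ) : a.K) * ds p (g * p') ≤ μ)
    (h0 : ((2 * n : ℕ) : a.K) * ds p (g0 * p') ≤ μ) : n * ds p (g * g0⁻¹ * p) ≤ μ := by
  have e : ds (g * p') (g * g0⁻¹ * p) = ds p (g0 * p') := by
    rw [mul_assoc, ds_mul_left, ← ds_mul_left g0, mul_inv_cancel_left, ds_comm]
  have h1 := mul_le_mul_of_nonneg_left (ds_tri p (g * p') (g * g0⁻¹ * p)) (Nat.cast_nonneg n)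
  rw [e] at h1
  push_cast at h h0
  linarith

theorem fin (hS : S_B_SMALL) (hμ : Big μ) {p q : MM Γ a} (h1 : Ls μ (ds p q)) (h2 : ¬ Per μ p q) :
    ∃ n : ℕ, ∀ p' q', (C μ (((p, q), p', q'), n)).Finite := by
  obtain ⟨r, s, n, -, -, -, -, -, hf, hn⟩ := hS Γ a μ p q hμ h1 h2
  refine ⟨2 * n, fun p' q' => ?_⟩
  rcases (C μ (((p, q), p', q'), 2 * n)).eq_empty_or_nonempty with e | ⟨g0, h0⟩
  · rw [e]
    exact Set.finite_empty
  · exact (hf.image (· * g0)).subset fun g hg =>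
      ⟨g * g0⁻¹, hn _ (step hg.1 h0.1) (step hg.2 h0.2), inv_mul_cancel_right _ _⟩

end B_cn2

open B_cn2

theorem p_B_CN2 (hELEM : S_ELEM) (hLINE : S_LINE) (hPERC : S_PERC) (hB_SMALL : S_B_SMALL) (hB_NET : S_B_NET) :
    S_B_CN2 := by
  intro Γ a h h'
  obtain ⟨R, cR, hR⟩ := hB_NET Γ a 1 h
  obtain ⟨R', cR', hR'⟩ := hB_NET Γ a 1 h'
  have cI : {t ∈ ((R ×ˢ R) ×ˢ R' ×ˢ R') ×ˢ (Set.univ : Set ℕ) | (C (ln h) t).Finite}.Countable :=
    (((cR.prod cR).prod (cR'.prod cR')).prod Set.countable_univ).mono (Set.sep_subset _ _)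
  refine (cI.biUnion (t := fun t _ => C (ln h) t) fun t ht => ht.2.countable).mono ?_
  rintro g ⟨μ, p, q, hμ, l1, l2, ho, hp⟩
  have l3 := ho.2.1.nondeg hμ ho.2.2.1 ho.1
  rw [ds_one_left] at l3
  have s : Sim μ (ln h) := ⟨l3, l1⟩
  rw [s.ov_iff hμ.pos.le (ln_nonneg h)] at ho
  rw [s.per_iff hμ.pos.le (ln_nonneg h)] at hp
  have hb := s.big_iff.1 hμ
  obtain ⟨o1, o2, o3, o4, o5⟩ := ho
  obtain ⟨-, n1⟩ := hR (ln h) hb (by rw [ds_one_left]; exact Ls.refl' _)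
  obtain ⟨n2, -⟩ := hR' (ln h) hb (by rw [ds_one_left]; exact l2.trans' l3)
  obtain ⟨r, s, a1, a2, a3, a4, a5, a6, a7, a8⟩ := inner_nper hELEM hLINE hPERC hb o1 hp
  obtain ⟨p1, hp1, b1, -⟩ := n1 p r o2 (o2.conv hb o3 a1) a5
  obtain ⟨q1, hq1, b2, -⟩ := n1 s q (o2.conv hb o3 a2) o3 a7
  obtain ⟨c1, c2⟩ := On.glue hb (a3.sub b1).2 (a4.sub' b2).2 a6
  obtain ⟨n, hn⟩ := fin hB_SMALL hb (c1.nondeg hb c2 a6) fun e => a8 (e.sub hb c1 c2)
  have k : ∀ x, On (ln h) x p q → ∃ y ∈ R', n * ds x (g * y) ≤ ln h := by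
    intro x hx
    have e := (o4.conv hb o5 hx).mul g⁻¹
    rw [inv_mul_cancel, inv_mul_cancel_left] at e
    obtain ⟨y, hy, -, e1⟩ := n2 _ e n
    rw [← ds_mul_left g, mul_inv_cancel_left] at e1
    exact ⟨y, hy, e1⟩
  obtain ⟨p2, hp2, d1⟩ := k p1 (a1.sub b1).1
  obtain ⟨q2, hq2, d2⟩ := k q1 (a2.sub' b2).1
  exact Set.mem_iUnion₂.2 ⟨(((p1, q1), p2, q2), n),
    ⟨⟨⟨⟨hp1, hq1⟩, hp2, hq2⟩, trivial⟩, hn p2 q2⟩, d1, d2⟩

end Pool.Agent.P.MP_dba3d2_lc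


end

section

/-! Step B_CN0 of the stability project. -/

namespace Pool.Agent.P.MP_dba3d2_lc

open Filter

namespace B_cn0

theorem fin (hTORS : S_TORS) (hELEM : S_ELEM) (hPERC : S_PERC) {Γ : HG} {a : Amb} (μ : a.K)
    (r s : MM Γ a) : {c | Big μ ∧ Ls μ (ds r s) ∧ Prim c ∧ Stab μ r s c}.Finite := by
  rcases Set.eq_empty_or_nonempty {c | Big μ ∧ Ls μ (ds r s) ∧ Prim c ∧ Stab μ r s c} with
    e | ⟨d, hμ, hn, hd, sd⟩
  · rw [e]
    exact Set.finite_empty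
  let K : Subgroup (MM Γ a) :=
    { carrier := {f | f ∈ Ep d ∧ IsOfFinOrder f}
      one_mem' := ⟨one_mem _, IsOfFinOrder.one⟩
      mul_mem' := fun hf hg => ⟨mul_mem hf.1 hg.1,
        (hELEM Γ a d hd.1).2.2.1 _ hf.1 _ hg.1 hf.2 hg.2⟩
      inv_mem' := fun hf => ⟨inv_mem hf.1, hf.2.inv⟩ }
  have hK : (K : Set (MM Γ a)).Finite := (hTORS Γ a K fun k hk => hk.2).1
  refine ((hK.image fun k => d * k⁻¹).union (hK.image fun k => d⁻¹ * k⁻¹)).subset ?_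
  rintro c ⟨-, -, hc, sc⟩
  have e := Ep_eq_of_stab hELEM hPERC hμ hn hc.1 hd.1 sc sd
  have m : c⁻¹ ∈ Ep d := e ▸ inv_mem (self_mem_Ep c)
  rcases hd.pm hELEM hc e with h | h
  · exact Or.inl ⟨_, ⟨mul_mem m (self_mem_Ep d), h⟩, by group⟩
  · exact Or.inr ⟨_, ⟨mul_mem m (inv_mem (self_mem_Ep d)), h⟩, by group⟩

end B_cn0

theorem p_B_CN0 (hTORS : S_TORS) (hELEM : S_ELEM) (hPERC : S_PERC) (hB_NET : S_B_NET) :
    S_B_CN0 := by
  intro Γ a h
  obtain ⟨R, hR, hN⟩ := hB_NET Γ a 1 h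
  refine (hR.biUnion fun r _ => hR.biUnion fun s _ =>
    (B_cn0.fin hTORS hELEM hPERC (ln h) r s).countable).mono ?_
  rintro c ⟨hc, μ, p, q, hμ, h1, hn, hp, hq, hs⟩
  have h2 := On.nondeg hμ hp hq hn
  rw [ds_one_left] at h2
  have hN' := (hN μ hμ (by rwa [ds_one_left])).2
  obtain ⟨r, r1, r2, -, r3⟩ := hN' p q hp hq hn
  obtain ⟨s, s1, s2, s3, -⟩ := hN' r q (hp.conv hμ hq r2) hq r3
  refine Set.mem_biUnion r1 (Set.mem_biUnion s1 ⟨hμ.of_ls h2, h1.trans' s3, hc, ?_⟩)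
  exact (Sim.stab_iff ⟨h2, h1⟩ hμ.pos.le (ln_nonneg h)).1 (hs.sub hμ r2 (r2.sub' s2).1)

end Pool.Agent.P.MP_dba3d2_lc


end

section

/-! Step COUNT of the stability project. -/

namespace Pool.Agent.P.MP_dba3d2_lc

open Filter

namespace CountA

variable {Γ : HG} {a : Amb}

theorem std_countable (Γ : HG) (a : Amb) : (std Γ a : Set (MM Γ a)).Countable := by
  have h : (Set.univ : Set Γ.G).Countable :=
    (Set.countable_iUnion fun n : ℕ => (Γ.fin n).countable).mono fun g _ =>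
      Set.mem_iUnion.2 ⟨Γ.len g, le_refl (Γ.len g)⟩
  have : Countable Γ.G := Set.countable_univ_iff.1 h
  exact Set.countable_range (cst Γ a)

/-- a chosen witness in `H` -/
noncomputable def eps (H : Subgroup (MM Γ a)) (P : MM Γ a → Prop) : MM Γ a :=
  Classical.epsilon fun x => x ∈ H ∧ P x

theorem eps_spec {H : Subgroup (MM Γ a)} {P : MM Γ a → Prop} (h : ∃ x ∈ H, P x) :
    eps H P ∈ H ∧ P (eps H P) :=
  Classical.epsilon_spec h

/-- the overlap set -/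
def s2 (h h' : MM Γ a) : Set (MM Γ a) :=
  {g | ∃ (μ : a.K) (p q : MM Γ a), Big μ ∧ Ls (ln h) μ ∧ Ls (ln h') μ ∧
    Ov μ p q 1 h g (g * h') ∧ ¬ Per μ p q}

/-- the period set -/
def s0 (h : MM Γ a) : Set (MM Γ a) :=
  {c | Prim c ∧ ∃ (μ : a.K) (p q : MM Γ a), Big μ ∧ Ls (ln h) μ ∧ Ls μ (ds p q) ∧
    On μ p 1 h ∧ On μ q 1 h ∧ Stab μ p q c}

/-- exponent witnesses -/
def pex (h c f : MM Γ a) : Prop :=
  f ∈ Ep c ∧ Ll (2 * ds f h - (ln c + ln (h⁻¹ * c * h))) (ln h + ln c)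

/-- purity witnesses -/
def ppur (c f : MM Γ a) (n : ℕ) (f' : MM Γ a) : Prop :=
  f' ∈ Ep c ∧ ∃ r : ℕ, IsOfFinOrder (f⁻¹ * (f' ^ n * c ^ r))

/-- centring witnesses -/
def pcen (c c' p : MM Γ a) : Prop :=
  Ls (ln p) (ln c + ln c') ∧ ∀ q,
    Ls (ln (p⁻¹ * c * p) + ln (p⁻¹ * c' * p)) (ln (q⁻¹ * c * q) + ln (q⁻¹ * c' * q))

/-- conjugation witnesses -/
def pfin (l : List (MM Γ a)) (p : MM Γ a) : Prop := ∀ k ∈ l, p⁻¹ * k * p ∈ std Γ a

/-- the witnesses attached to a pair -/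
def w2 (H : Subgroup (MM Γ a)) (x y : MM Γ a) : Set (MM Γ a) :=
  s2 x y ∪ (s0 x ∪ ({eps H (pex x y), eps H (pcen x y)} ∪ Set.range fun n => eps H (ppur x y n)))

/-- the witnesses attached to a list -/
def wl (H : Subgroup (MM Γ a)) (l : List (MM Γ a)) : Set (MM Γ a) :=
  (H : Set (MM Γ a)) ∩ (w2 H (l.getD 0 1) (l.getD 1 1) ∪ {eps H (pfin l)})

end CountA

open CountA in
theorem p_COUNT (hB_CLO : S_B_CLO) (hB_CN2 : S_B_CN2) (hB_CN0 : S_B_CN0) :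
    S_COUNT := by
  intro Γ a H X hH hX hXH
  obtain ⟨H0, h0, h1, h2, h3⟩ := hB_CLO (MM Γ a) H (X ∪ std Γ a) (wl H)
    (hX.union (std_countable Γ a)) (Set.union_subset hXH hH.base)
    (fun l => Set.Countable.mono Set.inter_subset_right
      (((hB_CN2 Γ a _ _).union ((hB_CN0 Γ a _).union (((Set.countable_singleton _).insert _).union
        (Set.countable_range _)))).union (Set.countable_singleton _)))
    fun l _ => Set.inter_subset_left
  have k : ∀ {x y z}, x ∈ H0 → y ∈ H0 → z ∈ H → z ∈ w2 H x y → z ∈ H0 := fun {x y z} hx hy hz e =>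
    h3 [x, y] (by simp [hx, hy]) ⟨hz, Or.inl e⟩
  refine ⟨H0, h0, Set.subset_union_left.trans h1, h2,
    ⟨⟨Set.subset_union_right.trans h1, ?_, ?_, ?_, ?_, ?_⟩, ?_⟩⟩
  · intro μ hμ x hx y hy a1 a2 g p q a3 a4
    exact k hx hy (hH.g2 μ hμ x (h0 hx) y (h0 hy) a1 a2 g p q a3 a4)
      (Or.inl ⟨μ, p, q, hμ, a1, a2, a3, a4⟩)
  · intro μ hμ x hx a1 p q a2 a3 a4 a5
    obtain ⟨c, hc, b1, b2⟩ := hH.g20 μ hμ x (h0 hx) a1 p q a2 a3 a4 a5
    exact ⟨c, k hx hx hc (Or.inr (Or.inl ⟨b1, μ, p, q, hμ, a1, a2, a3, a4, b2⟩)), b1, b2⟩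
  · intro μ hμ x hx a1 c hc a2 a3 a4
    have n0 : 0 ≤ ln x + ln c := add_nonneg (ln_nonneg _) (ln_nonneg _)
    rcases ll_or_ls hμ.pos (ln x + ln c) with e | e
    · refine ⟨1, one_mem _, one_mem _, Ll.mono_left ?_ e.two⟩
      rw [ds_one_left]
      linarith [ln_nonneg c, ln_nonneg (x⁻¹ * c * x)]
    · obtain ⟨f, hf, b1, b2⟩ := hH.ex μ hμ x (h0 hx) a1 c (h0 hc) a2 a3 a4
      obtain ⟨d1, d2, d3⟩ := eps_spec (P := pex x c) ⟨f, hf, b1, b2.ls_right e n0⟩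
      exact ⟨_, k hx hc d1 (Or.inr (Or.inr (Or.inl (Or.inl rfl)))), d2,
        d3.ls_right (a1.add a3) hμ.pos.le⟩
  · intro c hc a1 f hf a2 n hn
    obtain ⟨d1, d2⟩ := eps_spec (P := ppur c f n) (hH.pur c (h0 hc) a1 f (h0 hf) a2 n hn)
    exact ⟨_, k hc hf d1 (Or.inr (Or.inr (Or.inr ⟨n, rfl⟩))), d2⟩
  · intro c hc c' hc' a1 a2
    obtain ⟨d1, d2⟩ := eps_spec (P := pcen c c') (hH.cen c (h0 hc) c' (h0 hc') a1 a2)
    exact ⟨_, k hc hc' d1 (Or.inr (Or.inr (Or.inl (Or.inr rfl)))), d2⟩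
  · intro K hK hf
    have fin : (K : Set (MM Γ a)).Finite := Set.toFinite _
    have m : ∀ x, x ∈ fin.toFinset.toList ↔ x ∈ K := fun x => by simp
    obtain ⟨p, hp, b⟩ := hH.finc K (hK.trans h0) hf
    obtain ⟨d1, d2⟩ := eps_spec (P := pfin fin.toFinset.toList) ⟨p, hp, fun x hx => b x ((m x).1 hx)⟩
    exact ⟨_, h3 _ (fun x hx => hK ((m x).1 hx)) ⟨d1, Or.inr rfl⟩, fun x hx => d2 x ((m x).2 hx)⟩

end Pool.Agent.P.MP_dba3d2_lc


end

section

/-! Step UNION of the stability project. -/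

namespace Pool.Agent.P.MP_dba3d2_lc

open Filter

namespace UnionA

variable {G ι : Type} [Group G] [Nonempty ι] {H : ι → Subgroup G}

theorem one (hd : Directed (· ≤ ·) H) {x : G} (hx : x ∈ ⨆ i, H i) : ∃ i, x ∈ H i :=
  (Subgroup.mem_iSup_of_directed hd).1 hx

theorem two (hd : Directed (· ≤ ·) H) {x y : G} (hx : x ∈ ⨆ i, H i) (hy : y ∈ ⨆ i, H i) :
    ∃ i, x ∈ H i ∧ y ∈ H i := by
  obtain ⟨i, hi⟩ := one hd hx
  obtain ⟨j, hj⟩ := one hd hy
  obtain ⟨k, h1, h2⟩ := hd i j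
  exact ⟨k, h1 hi, h2 hj⟩

theorem fin (hd : Directed (· ≤ ·) H) {K : Subgroup G} (hK : K ≤ ⨆ i, H i) [Finite K] :
    ∃ i, K ≤ H i := by
  choose f hf using fun k : K => one hd (hK k.2)
  obtain ⟨i, hi⟩ := hd.finite_set_le (Set.finite_range f)
  exact ⟨i, fun k hk => hi _ ⟨⟨k, hk⟩, rfl⟩ (hf ⟨k, hk⟩)⟩

end UnionA

open UnionA in
theorem p_UNION :
    S_UNION := by
  intro Γ a ι _ H hd
  have up : ∀ i, ∀ {x}, x ∈ H i → x ∈ ⨆ i, H i := fun i _ hx => le_iSup H i hx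
  have h0 : (∀ i, GC0 (H i)) → GC0 (⨆ i, H i) := fun h =>
    { base := (h (Classical.arbitrary ι)).base.trans (le_iSup H _)
      g2 := fun μ hμ x hx y hy a1 a2 g p q a3 a4 => by
        obtain ⟨i, hx, hy⟩ := two hd hx hy
        exact up i ((h i).g2 μ hμ x hx y hy a1 a2 g p q a3 a4)
      g20 := fun μ hμ x hx a1 p q a2 a3 a4 a5 => by
        obtain ⟨i, hx⟩ := one hd hx
        obtain ⟨c, hc, b⟩ := (h i).g20 μ hμ x hx a1 p q a2 a3 a4 a5
        exact ⟨c, up i hc, b⟩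
      ex := fun μ hμ x hx a1 c hc a2 a3 a4 => by
        obtain ⟨i, hx, hc⟩ := two hd hx hc
        obtain ⟨f, hf, b⟩ := (h i).ex μ hμ x hx a1 c hc a2 a3 a4
        exact ⟨f, up i hf, b⟩
      pur := fun c hc a1 f hf a2 n hn => by
        obtain ⟨i, hc, hf⟩ := two hd hc hf
        obtain ⟨f', hf', b⟩ := (h i).pur c hc a1 f hf a2 n hn
        exact ⟨f', up i hf', b⟩
      cen := fun c hc c' hc' a1 a2 => by
        obtain ⟨i, hc, hc'⟩ := two hd hc hc'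
        obtain ⟨p, hp, b⟩ := (h i).cen c hc c' hc' a1 a2
        exact ⟨p, up i hp, b⟩ }
  refine ⟨h0, fun h => ⟨h0 fun i => (h i).toGC0, fun K hK hf => ?_⟩⟩
  obtain ⟨i, hi⟩ := fin hd hK
  obtain ⟨p, hp, b⟩ := (h i).finc K hi hf
  exact ⟨p, up i hp, b⟩

end Pool.Agent.P.MP_dba3d2_lc


end

section

/-! Step B_RT1 of the stability project. -/

namespace Pool.Agent.P.MP_dba3d2_lc

open Filter

theorem B_rt1.cen (hE : S_ELEM) (hL : S_LINE) (hP : S_PERC) {Γ : HG} {a : Amb}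
    {H : Subgroup (MM Γ a)} (hH : GC0 H) {γ : MM Γ a} (h1 : γ ∈ H) (h2 : ¬ IsOfFinOrder γ)
    (h3 : Cen γ) : ∃ c ∈ H, Prim c ∧ Ep c = Ep γ := by
  obtain ⟨c0, hc, he⟩ := (hE Γ a γ h2).1
  have l0 : Ls (ln c0) (ln γ) := by simpa only [ds_one_mul] using hc.disp' hE hL h2 he 1
  by_cases hμ : Big (ln γ)
  swap
  · exact ⟨c0, hH.of_not_big (not_big_of_ls l0 hμ), hc, he⟩
  have e0 : Γ.e ≠ 0 := Γ.good.pos.ne'
  obtain ⟨p1, p2⟩ := Ep_pow hE h2 e0
  have cm : Commute c0 (γ ^ Γ.e) := mem_Ep.1 (he ▸ self_mem_Ep c0)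
  have l1 : Ls (ln (γ ^ Γ.e)) (ln γ) := ⟨_, ln_pow_le γ _⟩
  rcases ll_or_ls hμ.pos (md c0) with hm | hm
  · obtain ⟨z, -, z1, -, z2, -⟩ := exists_proj hμ hm 1
    rw [ds_one_mul, ds_one_left] at z1
    obtain ⟨q, hq⟩ := exists_md_ds (γ ^ Γ.e)
    have l2 : Ls (ln γ) (md (γ ^ Γ.e)) :=
      Ls.trans' h3 (Ls.mono_left (md_le_ds γ q) (hq ▸ pow_disp hE hL h2 e0 q))
    obtain ⟨N, -, hN⟩ := pow_long hL p1 (D := 2 * ln z + ln γ + ln γ)
      (((Ls.mono_left z1 (l0.trans' l2)).add l2).add l2)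
    obtain ⟨p, q, ⟨o1, o2, o3, o4, o5⟩, -⟩ := exists_ov hμ (x := 1) (y := (γ ^ Γ.e) ^ N) (x' := z)
      (y' := (γ ^ Γ.e) ^ N * z) (ds_one_left z).le (ds_mul_right _ z).le le_rfl
      (((hN N le_rfl).trans (md_le_ln _)).trans (ds_one_left _).ge)
    have st : Stab (ln γ) p q c0 :=
      Stab.sub hμ ⟨z2, (disp_comm (cm.pow_right N).symm z).symm ▸ z2⟩ o4 o5
    obtain ⟨c, c1, c2, c3⟩ := hH.g20 _ hμ _ (pow_mem (pow_mem h1 _) N)
      (Ls.trans' ⟨_, ln_pow_le _ N⟩ l1) p q o1 o2 o3 ⟨c0, hc.1, st⟩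
    exact ⟨c, c1, c2, (Ep_eq_of_stab hE hP hμ o1 c2.1 hc.1 c3 st).trans he⟩
  · exact ⟨c0, hH.axis hE hL hP hμ (pow_mem h1 _) (pow_mem h1 _)
      (by rw [cm.eq, mul_inv_cancel_right]) l1 l1 l0 p1 hc (he.trans p2.symm) hm, hc, he⟩

theorem p_B_RT1 (hELEM : S_ELEM) (hLINE : S_LINE) (hPERC : S_PERC) :
    S_B_RT1 := by
  intro Γ a H hH γ h1 h2
  obtain ⟨p, hp, -, h3⟩ := hH.cen1 h1 h2
  obtain ⟨c, c1, c2, c3⟩ := B_rt1.cen hELEM hLINE hPERC hH (mul_mem (mul_mem (inv_mem hp) h1) hp)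
    (mt (finOrder_conj' p γ).1 h2) h3
  refine ⟨p * c * p⁻¹, mul_mem (mul_mem hp c1) (inv_mem hp), c2.conj p, ?_⟩
  rw [(Ep_conj_iff p).2 c3]
  congr 1
  group

end Pool.Agent.P.MP_dba3d2_lc


end

section

/-! Step NP of the stability project. -/

namespace Pool.Agent.P.MP_dba3d2_lc

open Filter

namespace Np

variable {Γ : HG} {a : Amb} {c w : MM Γ a}

theorem gap (hμ : Big (ln c)) (hm : Ls (ln c) (md c)) (h1 : On (ln c) w 1 c)
    (h2 : On (ln c) w c (c * c)) : Ls (ln c) (ln c - 2 * ds c w) := by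
  refine (ll_or_ls hμ.pos _).resolve_left fun h => ?_
  obtain ⟨m, e1, e2, e3⟩ := exists_mid 1 c
  have o : On (ln c) m 1 c := On.of_eq hμ.pos.le e1
  have o' := o.mul c
  rw [mul_one] at o'
  have e4 : ds c (c * m) = ds 1 m := by rw [← ds_mul_left c 1 m, mul_one]
  rw [ds_one_left c] at e1 e2 e3
  have e5 := ds_comm c m
  have t := hμ.ll_nat 2
  push_cast at t
  have a1 := (On.order hμ o.symm h1.symm (Ll.half (Ll.mono_left (by linarith) (h.add t)))).1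
  have a2 := (On.order hμ o' h2 (Ll.half (Ll.mono_left (by linarith) h))).1
  have a3 := On.close hμ a1 a2 (Ll.mono_left (by linarith) t)
    (Ll.of_nonpos (by linarith) hμ.pos.le)
  exact (Ll.mono_left (md_le_ds c m) a3).not_ls hμ.pos hm

theorem axis (hμ : Big (ln c)) (hm : Ls (ln c) (md c)) : ∃ π : MM Γ a,
    Ls (ln c) (ds π (c * π)) ∧ ∀ k i, i ≤ k + 1 → On (ln c) (c ^ i * π) 1 (c ^ (k + 1)) := by
  obtain ⟨w, e, hw⟩ := exists_median 1 c (c * c)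
  obtain ⟨h3, h2⟩ := hw _ hμ
  have h1 : On (ln c) w 1 c := On.of_eq hμ.pos.le e
  have hg := gap hμ hm h1 h2
  obtain ⟨π, rfl⟩ : ∃ π, w = c * π := ⟨c⁻¹ * w, (mul_inv_cancel_left _ _).symm⟩
  have h4 : On (ln c) π 1 c := (on_mul_iff c).1 (by rwa [mul_one])
  have e4 : ds c (c * π) = ds 1 π := by rw [← ds_mul_left c 1 π, mul_one]
  rw [ds_one_left c] at e
  have e5 := ds_comm c (c * π)
  have e6 := hg.pos hμ.pos
  obtain ⟨h5, h6⟩ := On.order hμ h4 h1 (Ll.of_nonpos (by linarith) hμ.pos.le)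
  have h7 : Ls (ln c) (ds π (c * π)) := hg.mono_right (by linarith [ds_tri 1 π (c * π)])
  have h8 := (((h3.sub h5).2).sub' (h6.mul c)).2
  have s : ∀ i : ℕ, ∀ x, c ^ i * (c * x) = c ^ (i + 1) * x := fun i x => by
    rw [pow_succ, mul_assoc]
  have b : ∀ i : ℕ, Ls (ln c) (ds (c ^ i * π) (c ^ (i + 1) * π)) := fun i => by
    rwa [← s, ds_mul_left]
  have c1 : ∀ i : ℕ, On (ln c) (c ^ i * π) 1 (c ^ (i + 1) * π) := fun i => by
    induction i with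
    | zero => simpa using h5
    | succ i ih =>
      have := h8.mul (c ^ i)
      rw [s, s, s] at this
      exact (On.glue hμ ih this (b i)).2
  refine ⟨π, h7, fun k i hi => ?_⟩
  induction hi using Nat.decreasingInduction with
  | self =>
    have := h6.mul (c ^ k)
    rw [s, ← pow_succ] at this
    exact (On.glue hμ (c1 k) this (b k)).2
  | of_succ i _ ih => exact (ih.sub (c1 i)).1

end Np

theorem p_NP (hELEM : S_ELEM) (hLINE : S_LINE) (hPERC : S_PERC) :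
    S_NP := by
  intro Γ a c hc hμ k hk
  have h1 : Ls (ln c) (ln (c ^ k)) := by
    have := pow_disp hELEM hLINE hc.1 (show k ≠ 0 by omega) 1
    rwa [ds_one_mul, ds_one_mul] at this
  refine ⟨h1, ?_⟩
  rintro ⟨d, hd, hs⟩
  have hg := (Ep_pow hELEM hc.1 (show k ≠ 0 by omega)).1
  rcases ll_or_ls hμ.pos (md c) with hm | hm
  · obtain ⟨q, hq⟩ := exists_md_ds c
    have h2 : Ll (md (c ^ k)) (ln c) := Ll.mono_left (md_le_ds _ q) (fix_pow (hq ▸ hm) k)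
    obtain ⟨m, e1, -, e3, e4, -⟩ := exists_proj hμ h2 1
    rw [mul_one] at e1 e3
    have h3 := fix_conv hμ hs.1 hs.2 (On.of_eq hμ.pos.le e1)
    rw [ds_one_left (c ^ k)] at e3
    have h4 : Ls (ln c) (ds 1 m) := h1.of_le_add (hμ.ll_nat 2) hμ.pos 2 (by exact_mod_cast e3)
    have h5 := inE_of_stab (g := c ^ k) hELEM hPERC hμ h4 hd ⟨hs.1, h3⟩
      ⟨by rw [mul_one]; exact hs.2, fix_congr h3 e4⟩
    have h6 := fix_of_fix hELEM hLINE hd (h5.mem hELEM hd hg) hs.1 h2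
    rw [ds_one_mul] at h6
    exact h6.not_ls hμ.pos h1
  · obtain ⟨π, h2, h3⟩ := Np.axis hμ hm
    obtain ⟨k, rfl⟩ : ∃ j, k = j + 1 := ⟨k - 1, by omega⟩
    have f := fun i hi => fix_conv hμ hs.1 hs.2 (h3 k i hi)
    have f0 := f 0 (by omega)
    have f1 := f 1 (by omega)
    have f2 := f 2 hk
    rw [pow_zero, one_mul] at f0
    rw [pow_one] at f1
    rw [pow_two, mul_assoc] at f2
    have h5 := inE_of_stab (g := c) hELEM hPERC hμ h2 hd ⟨f0, f1⟩ ⟨f1, f2⟩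
    have h6 := hc.md_ls hELEM hLINE hd (Ep_eq hELEM hd (h5.mem hELEM hd hc.1) hc.1)
    exact (Ll.ls_left h6 hs.md).not_ls hμ.pos hm

end Pool.Agent.P.MP_dba3d2_lc


end

section

/-! Step B_RT2 of the stability project. -/

namespace Pool.Agent.P.MP_dba3d2_lc

open Filter

theorem p_B_RT2 (hELEM : S_ELEM) (hLINE : S_LINE) (hPERC : S_PERC) (hNP : S_NP) :
    S_B_RT2 := by
  intro Γ a H hH c hcH c' hcH' hc hc' x h
  have hE : Γ.e * Γ.e ≠ 0 := Nat.mul_ne_zero Γ.good.pos.ne' Γ.good.pos.ne'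
  obtain ⟨γ', m', he, l'⟩ : ∃ γ' ∈ H, x * γ' * x⁻¹ = c ^ (Γ.e * Γ.e) ∧ Ls (ln γ') (ln c') := by
    rcases Cj.pow hELEM hc hc' h with e | e
    · exact ⟨_, pow_mem hcH' _, e, _, ln_pow_le _ _⟩
    · exact ⟨_, inv_mem (pow_mem hcH' _), e, _, (ln_inv _).le.trans (ln_pow_le _ _)⟩
  have hd : Prim (x * c' * x⁻¹) := hc'.conj x
  have hep : Ep (x * c' * x⁻¹) = Ep c := h
  refine ⟨fun hx => ?_, fun h1 h2 hx => ?_⟩
  · by_cases hμ : Big (ln c + ln c')
    swap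
    · exact hH.of_not_big (not_big_of_ls hx.ls hμ)
    have n0 := ln_nonneg c
    have n1 := ln_nonneg c'
    obtain ⟨n, e1⟩ : Ls (ln (x * c' * x⁻¹)) (ln c) := by
      simpa only [ds_one_mul] using hd.disp' hELEM hLINE hc.1 hep 1
    have e2 : ln c' ≤ ln x + ln (x * c' * x⁻¹) + ln x := by
      have k : c' = x⁻¹ * (x * c' * x⁻¹) * x := by group
      have k1 := ln_mul_le (x⁻¹ * (x * c' * x⁻¹)) x
      have k2 := ln_mul_le x⁻¹ (x * c' * x⁻¹)
      rw [← k] at k1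
      rw [ln_inv] at k2
      linarith
    have s1 : Ls (ln c + ln c') (ln c) :=
      (Ls.refl' _).of_le_add hx.two hμ.pos (n + 1) (by push_cast; linarith)
    have s2 : Ls (ln c) (ln c + ln c') := Ls.of_le (by linarith)
    have s3 : Ls (ln c') (ln c + ln c') := Ls.of_le (by linarith)
    obtain ⟨p1, p2⟩ := hNP Γ a c hc (hμ.of_ls s1) (Γ.e * Γ.e * 2)
      (by have := Nat.pos_of_ne_zero hE; omega)
    have e3 : x * γ' ^ 2 = c ^ (Γ.e * Γ.e * 2) * x := by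
      rw [pow_mul, ← he, conj_pow, inv_mul_cancel_right]
    have z : ∀ y : MM Γ a, Ll (ds y y) (ln c + ln c') := fun y =>
      Ll.of_nonpos (by simp) hμ.pos.le
    have t1 : Ll (ds 1 x) (ln c + ln c') := by rwa [ds_one_left]
    have t2 : Ll (ds (c ^ (Γ.e * Γ.e * 2)) (x * γ' ^ 2)) (ln c + ln c') := by
      rwa [e3, ds_mul_right]
    refine hH.g2 _ hμ (c ^ (Γ.e * Γ.e * 2)) (pow_mem hcH _) (γ' ^ 2) (pow_mem m' _)
      (Ls.trans' ⟨_, ln_pow_le _ _⟩ s2) (Ls.trans' ⟨_, ln_pow_le _ _⟩ (l'.trans' s3)) x 1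
      (c ^ (Γ.e * Γ.e * 2)) ⟨?_, on_left hμ.pos.le _ _, on_right hμ.pos.le _ _,
        (on_left hμ.pos.le _ _).congr (z _) t1 t2, (on_right hμ.pos.le _ _).congr (z _) t1 t2⟩
      fun e => p2 ((Sim.per_iff ⟨s2, s1⟩ n0 hμ.pos.le).2 e)
    rw [ds_one_left]
    exact s1.trans' p1
  · by_cases hμ : Big (md c)
    swap
    · exact hH.of_not_big (not_big_of_ls hx hμ)
    have e1 : Ls (md c') (md c) := by
      simpa only [md_conj'] using hd.md_ls hELEM hLINE hc.1 hep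
    obtain ⟨f1, f2⟩ := Ep_pow hELEM hc.1 hE
    exact hH.axis hELEM hLINE hPERC hμ (pow_mem hcH _) m' he
      (Ls.trans' ⟨_, ln_pow_le _ _⟩ h1) (l'.trans' (Ls.trans' h2 e1)) hx f1 hc f2.symm (Ls.refl' _)

end Pool.Agent.P.MP_dba3d2_lc


end

section

/-! Step ROOT of the stability project. -/

namespace Pool.Agent.P.MP_dba3d2_lc

open Filter

theorem p_ROOT (hELEM : S_ELEM) (hLINE : S_LINE) (hB_RT1 : S_B_RT1) (hB_RT2 : S_B_RT2) :
    S_ROOT := by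
  intro Γ a H hH
  have r1 := hB_RT1 Γ a H hH
  have r2 := hB_RT2 Γ a H hH
  have back : ∀ p ∈ H, ∀ p' ∈ H, ∀ x, p⁻¹ * x * p' ∈ H → x ∈ H := fun p hp p' hp' x h => by
    simpa [mul_assoc] using H.mul_mem (H.mul_mem hp h) (H.inv_mem hp')
  have cj : ∀ p ∈ H, ∀ x ∈ H, p⁻¹ * x * p ∈ H := fun p hp x hx =>
    H.mul_mem (H.mul_mem (H.inv_mem hp) hx) hp
  have r3 : ∀ c ∈ H, ¬ IsOfFinOrder c → ∀ f ∈ Ep c, IsOfFinOrder f → f ∈ H := by
    intro c hc ic f hf tf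
    obtain ⟨c1, h1, p1, e1⟩ := r1 c hc ic
    obtain ⟨p, hp, -, cp⟩ := hH.cen1 h1 p1.1
    have m : p⁻¹ * f * p ∈ Ep (p⁻¹ * c1 * p) := by
      rw [mem_Ep_conj', e1]; simpa [mul_assoc] using hf
    have l := tors_disp hLINE (p1.conj' p).1 m ((finOrder_conj' p f).2 tf) 1
    rw [ds_one_mul, ds_one_mul] at l
    exact back p hp p hp f ((r2 _ (cj p hp _ h1) _ (cj p hp _ h1) (p1.conj' p) (p1.conj' p) _
      (Cj.of_mem m)).2 cp cp (l.trans' cp))
  have r6 : ∀ c ∈ H, ∀ c' ∈ H, ¬ IsOfFinOrder c → ¬ IsOfFinOrder c' → ∀ x, Cj x c' c →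
      ∃ h ∈ H, x * h⁻¹ ∈ Ep c := by
    intro c hc c' hc' ic ic' x hx
    obtain ⟨c1, h1, p1, e1⟩ := r1 c hc ic
    obtain ⟨c1', h1', p1', e1'⟩ := r1 c' hc' ic'
    obtain ⟨p, hp, -, cp⟩ := hH.cen1 h1 p1.1
    obtain ⟨p', hp', -, cp'⟩ := hH.cen1 h1' p1'.1
    have j := (hx.congr e1' e1).conj p p'
    obtain ⟨k, hk⟩ := short_conj hELEM hLINE (p1.conj' p) (p1'.conj' p') cp cp' j
    have m := ipow_mem_Ep (p⁻¹ * c1 * p) k
    have y := (r2 _ (cj p hp _ h1) _ (cj p' hp' _ h1') (p1.conj' p) (p1'.conj' p') _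
      ((Cj.of_mem (inv_mem m)).mul j)).2 cp cp' hk
    refine ⟨_, H.mul_mem (H.mul_mem hp y) (H.inv_mem hp'), ?_⟩
    rw [mem_Ep_conj', e1] at m
    simpa [mul_assoc] using m
  refine ⟨r1, r2, r3, fun c hc ic c0 p0 e0 => ?_,
    fun c hc ic g hg => r6 c hc c hc ic ic g hg.cj, r6⟩
  obtain ⟨c1, h1, p1, e1⟩ := r1 c hc ic
  have m0 : c0⁻¹ ∈ Ep c := inv_mem (e0 ▸ self_mem_Ep c0)
  have m1 : c1 ∈ Ep c := e1 ▸ self_mem_Ep c1
  rcases Prim.pm hELEM p1 p0 (e0.trans e1.symm) with t | t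
  · exact inv_mem_iff.1 ((H.mul_mem_cancel_right h1).1 (r3 c hc ic _ (mul_mem m0 m1) t))
  · exact inv_mem_iff.1 ((H.mul_mem_cancel_right (inv_mem h1)).1
      (r3 c hc ic _ (mul_mem m0 (inv_mem m1)) t))

end Pool.Agent.P.MP_dba3d2_lc


end

section

/-! Step TRUNC of the stability project. -/

namespace Pool.Agent.P.MP_dba3d2_lc

open Filter

namespace Trunc

variable {Γ : HG} {a : Amb} {H W : Subgroup (MM Γ a)} {h w w' : MM Γ a}

theorem mem (hS : Sep H W) (hh : h ∈ H) (hw : w ∈ W) (e : Ls (ln h) (ln w)) : h ∈ W := by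
  by_contra n
  exact (hS h hh n w hw).not_ls (one_pos.trans_le (one_le_ln fun k => n (k ▸ W.one_mem))) e

theorem mem2 (hS : Sep H W) (hh : h ∈ H) (hw : w ∈ W) (hw' : w' ∈ W)
    (e : Ls (ln h) (ln w + ln w')) : h ∈ W :=
  e.add_cases.elim (mem hS hh hw) (mem hS hh hw')

end Trunc

theorem p_TRUNC (hELEM : S_ELEM) (hLINE : S_LINE) :
    S_TRUNC := by
  intro Γ a H W hH hW hS
  refine ⟨le_inf hH.base hW, ?_, ?_, ?_, ?_, ?_⟩
  · intro μ hμ h hh h' hh' l1 l2 g p q ho hn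
    have hg := hH.g2 μ hμ h hh.1 h' hh'.1 l1 l2 g p q ho hn
    obtain ⟨o1, o2, o3, o4, -⟩ := ho
    have a1 := o2.ls_left (by rwa [ds_one_left])
    have a2 := o4.ls_left (by rwa [ds_mul_right])
    have a3 := On.nondeg hμ o2 o3 o1
    rw [ds_one_left] at a3
    refine ⟨hg, Trunc.mem hS hg hh.2 (Ls.trans' (Ls.mono_left ?_ (a1.add a2)) a3)⟩
    have := ds_tri 1 p g
    rwa [ds_one_left g, ds_comm p g] at this
  · intro μ hμ h hh l1 p q o1 o2 o3 hp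
    obtain ⟨c, hc, k1, k2⟩ := hH.g20 μ hμ h hh.1 l1 p q o1 o2 o3 hp
    have a1 := o2.ls_left (by rwa [ds_one_left])
    have a3 := On.nondeg hμ o2 o3 o1
    rw [ds_one_left] at a3
    refine ⟨c, ⟨hc, Trunc.mem hS hc hh.2
      (Ls.trans' (Ls.mono_left ?_ (a1.two.add k2.1.ls)) a3)⟩, k1, k2⟩
    exact ds_one_mul c ▸ disp_le c 1 p
  · intro μ hμ h hh l1 c hc k1 l2 l3
    have n1 := ln_nonneg c
    have n2 := ln_nonneg (h⁻¹ * c * h)
    rcases ll_or_ls hμ.pos (ln c + ln h) with e | e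
    · refine ⟨1, one_mem _, one_mem _, Ll.mono_left ?_ e.two⟩
      rw [ds_one_left]
      linarith
    · obtain ⟨f, hf, k2, k3⟩ := hH.ex μ hμ h hh.1 l1 c hc.1 k1 l2 l3
      refine ⟨f, ⟨hf, Trunc.mem2 hS hf hc.2 hh.2
        (Ls.trans' (Ls.mono_left ?_ ((k3.ls.add l2.two).add (l1.two.add l1))) e)⟩, k2, k3⟩
      have b1 := ds_tri 1 h f
      rw [ds_one_left, ds_one_left, ds_comm] at b1
      have b2 := ln_mul_le (h⁻¹ * c) h
      have b3 := ln_mul_le h⁻¹ c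
      rw [ln_inv] at b3
      linarith [ds_nonneg f h]
  · intro c hc k1 f hf k2 n hn
    obtain ⟨f', hf', k3, r, k4⟩ := hH.pur c hc.1 k1 f hf.1 k2 n hn
    refine ⟨f', ⟨hf', ?_⟩, k3, r, k4⟩
    by_cases t : IsOfFinOrder f'
    · have := tors_disp hLINE k1.1 k3 t 1
      rw [ds_one_mul, ds_one_mul] at this
      exact Trunc.mem hS hf' hc.2 this
    · have b1 := pow_disp hELEM hLINE t hn.ne' 1
      have b2 := tors_disp hLINE k1.1 (mul_mem (inv_mem k2)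
        (mul_mem (pow_mem k3 n) (pow_mem (self_mem_Ep c) r))) k4 1
      rw [ds_one_mul, ds_one_mul] at b1 b2
      have n1 := ln_nonneg c
      have n2 := ln_nonneg f
      have b3 : Ls (ln c) (ln f + ln c) := Ls.of_le (by linarith)
      refine Trunc.mem2 hS hf' hf.2 hc.2 (b1.trans' (Ls.mono_left ?_
        (((Ls.of_le (by linarith : ln f ≤ ln f + ln c)).add (b2.trans' b3)).add (b3.nat_mul r))))
      have b4 := ln_mul_le (f * (f⁻¹ * (f' ^ n * c ^ r))) (c ^ r)⁻¹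
      have b5 := ln_mul_le f (f⁻¹ * (f' ^ n * c ^ r))
      rw [mul_inv_cancel_left] at b4 b5
      rw [mul_inv_cancel_right, ln_inv] at b4
      linarith [ln_pow_le c r]
  · intro c hc c' hc' k1 k2
    obtain ⟨p, hp, k3, k4⟩ := hH.cen c hc.1 c' hc'.1 k1 k2
    exact ⟨p, ⟨hp, Trunc.mem2 hS hp hc.2 hc'.2 k3⟩, k3, k4⟩

end Pool.Agent.P.MP_dba3d2_lc


end

section

/-! Step B_NM1 of the stability project. -/

namespace Pool.Agent.P.MP_dba3d2_lc

open Filter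

namespace B_nm1

variable {Γ : HG} {a : Amb}

theorem ln_conj_le (y c : MM Γ a) : ln (y * c * y⁻¹) ≤ 2 * ln y + ln c := by
  linarith [ln_mul_le (y * c) y⁻¹, ln_mul_le y c, ln_inv y]

theorem disp_inv_eq (y c : MM Γ a) : ds y⁻¹ (c * y⁻¹) = ln (y * c * y⁻¹) := by
  rw [ds_conj, inv_inv]

theorem core (hE : S_ELEM) (hL : S_LINE) {H : Subgroup (MM Γ a)} (hH : GC0 H) {c y : MM Γ a}
    (hcH : c ∈ H) (hc : Prim c) (hn : Cen c) (hy : y ∈ H) (hs : Ls (ln y) (ln (y * c * y⁻¹))) :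
    ∃ f ∈ H, f ∈ Ep c ∧ Ls (ln (y * f)) (ln (y * c * y⁻¹)) ∧ NE c (y * f) := by
  by_cases hb : Big (ln y) ∧ Ll (md c) (ln y)
  swap
  · refine ⟨1, one_mem _, one_mem _, ?_⟩
    rw [mul_one]
    exact ⟨hs, fun h1 h2 _ => hb ⟨h1, h2⟩⟩
  obtain ⟨hμ, hm⟩ := hb
  have h0 := hμ.pos
  have c0 : Ll (ln c) (ln y) := Ll.ls_left hn hm
  obtain ⟨f, hf, he, e⟩ := hH.ex _ hμ y⁻¹ (inv_mem hy) (Ls.of_le (ln_inv y).le) c hcH hc c0.ls hm
  have e1 : ds f y⁻¹ = ln (y * f) := by rw [ds, ← mul_inv_rev, ln_inv]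
  rw [e1, inv_inv] at e
  have e3 : Ll (2 * ln (y * f) - ln (y * c * y⁻¹)) (ln y) :=
    Ll.mono_left (le_of_eq (by ring)) (e.add c0)
  have e4 := e3 1
  have e5 := c0 1
  rw [Nat.cast_one, one_mul] at e4 e5
  have z0 := ln_nonneg (y * f)
  have s1 : Ls (ln (y * f)) (ln y) := ⟨2, by
    have := ln_conj_le y c
    push_cast
    linarith⟩
  have s2 : Ls (ln y) (ln (y * f)) := by
    have k := (hc.conj' f).disp' hE hL hc.1 (Ep_conj_mem' he) 1
    rw [ds_one_mul, ds_one_mul] at k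
    refine hs.of_le_add (Ll.ls_left k c0) h0 2 ?_
    have := ln_conj_le (y * f) (f⁻¹ * c * f)
    rw [show y * f * (f⁻¹ * c * f) * (y * f)⁻¹ = y * c * y⁻¹ by group] at this
    exact_mod_cast this
  refine ⟨f, hf, he, s1.trans' hs, fun _ _ hF => ?_⟩
  obtain ⟨q, q1, q2, -, q3⟩ := (Sim.fol_iff ⟨s1, s2⟩ z0 h0.le).1 hF
  have d1 := disp_le c (y * f)⁻¹ q
  have d2 := disp_ll (c := c) (c' := f * c * f⁻¹) hμ (by rwa [md_conj'])
    (fun w hw => hc.fix hE hL (hc.conj f).1 (Ep_conj_mem he).symm hw) y⁻¹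
  rw [disp_inv_eq] at d1 d2
  rw [disp_inv_eq, show y * (f * c * f⁻¹) * y⁻¹ = y * f * c * (y * f)⁻¹ by group] at d2
  rw [On, ds_one_left, ds_one_left, ln_inv, ds_comm q] at q2
  refine Ll.not_ls (Ll.mono_left ?_ (((q2.two.add e3).add d2).add q3)) h0 q1
  linarith [ln_nonneg q]

end B_nm1

theorem p_B_NM1 (hELEM : S_ELEM) (hLINE : S_LINE) (hROOT : S_ROOT) :
    S_B_NM1 := by
  intro Γ a H hH c hcH hc hn h hh
  have hγ : h * c * h⁻¹ ∈ H := mul_mem (mul_mem hh hcH) (inv_mem hh)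
  obtain ⟨p, hp, l1, n2⟩ := hH.cen1 hγ (hc.conj h).1
  have hc2 := (hc.conj h).conj' p
  have hx : Cj (h⁻¹ * p) (p⁻¹ * (h * c * h⁻¹) * p) c := congrArg Ep (by group)
  obtain ⟨k, l2⟩ := short_conj hELEM hLINE hc hc2 hn n2 hx
  have hy := ((hROOT Γ a H hH).2.1 c hcH _ (mul_mem (mul_mem (inv_mem hp) hγ) hp) hc hc2 _
    ((Cj.of_mem (inv_mem (ipow_mem_Ep c k))).mul hx)).2 hn n2 l2
  have h0 : ipow c k ∈ H := by
    have := mul_mem (mul_mem (inv_mem hh) hp) (inv_mem hy)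
    rwa [show h⁻¹ * p * ((ipow c k)⁻¹ * (h⁻¹ * p))⁻¹ = ipow c k by group] at this
  have e : h * ipow c k * c * (h * ipow c k)⁻¹ = h * c * h⁻¹ := by
    rw [mul_assoc h, ← (commute_ipow (Commute.refl c) k).eq]
    group
  obtain ⟨f, hf, he, r⟩ := B_nm1.core hELEM hLINE hH hcH hc hn (mul_mem hh h0) (by
    rw [e, show h * ipow c k = p * ((ipow c k)⁻¹ * (h⁻¹ * p))⁻¹ by group]
    refine Ls.mono_left (ln_mul_le _ _) (l1.add ?_)
    rw [ln_inv]
    exact l2.mono_right ((md_conj' h c).symm.trans_le (md_le_ln _)))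
  rw [e, mul_assoc] at r
  exact ⟨_, mul_mem h0 hf, mul_mem (ipow_mem_Ep c k) he, r⟩

end Pool.Agent.P.MP_dba3d2_lc


end
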