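import Pool.Agent.P.MP_dba3d2_lcM.Ab03
import Pool.Agent.P.MP_dba3d2_lcM.Ab04
import Pool.Agent.P.MP_dba3d2_lcM.Ab05
import Pool.Agent.P.MP_dba3d2_lcM.Bb07
import Pool.Agent.P.MP_dba3d2_lcM.Bb10

section

/-! Step NORM of the stability project. -/

namespace Pool.Agent.P.MP_dba3d2_lc

open Filter

namespace NormA

variable {Γ : HG} {a : Amb} {H : Subgroup (MM Γ a)} {c c' y0 : MM Γ a}

theorem conj_le (y c : MM Γ a) : ln (y * c * y⁻¹) ≤ 2 * ln y + ln c := by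
  have h1 := ln_mul_le (y * c) y⁻¹
  have h2 := ln_mul_le y c
  rw [ln_inv] at h1
  linarith

theorem move (hE : S_ELEM) (hL : S_LINE) (hc : Prim c) (hc' : Prim c') {h f f' : MM Γ a}
    (hf : f ∈ Ep c) (hf' : f' ∈ Ep c') (q : MM Γ a) :
    Ls (ln ((f⁻¹ * q)⁻¹ * c * (f⁻¹ * q)) + ln ((f⁻¹ * q)⁻¹ * (h * c' * h⁻¹) * (f⁻¹ * q)))
      (ln (q⁻¹ * c * q) + ln (q⁻¹ * (f * h * f' * c' * (f * h * f')⁻¹) * q)) := by
  have h1 := hc.disp' hE hL (hc.conj' f).1 (Ep_conj_mem' hf).symm (f⁻¹ * q)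
  have h2 := (hc'.conj h).disp' hE hL ((hc'.conj f').conj h).1
    ((Ep_conj_iff h).2 (Ep_conj_mem hf').symm) (f⁻¹ * q)
  rw [ds_conj, ds_conj] at h1 h2
  rw [show (f⁻¹ * q)⁻¹ * (f⁻¹ * c * f) * (f⁻¹ * q) = q⁻¹ * c * q by group] at h1
  rw [show (f⁻¹ * q)⁻¹ * (h * (f' * c' * f'⁻¹) * h⁻¹) * (f⁻¹ * q) =
    q⁻¹ * (f * h * f' * c' * (f * h * f')⁻¹) * q by group] at h2
  exact (h1.mono_right (le_add_of_nonneg_right (ln_nonneg _))).add
    (h2.mono_right (le_add_of_nonneg_left (ln_nonneg _)))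

theorem step1 (hB : S_B_NM1) (hH : GC0 H) (m : c ∈ H) (hc : Prim c) (cc : Cen c) (hy : y0 ∈ H) :
    ∃ f ∈ H, f ∈ Ep c ∧ Ls (ln (f * y0)) (ln y0) ∧ NE c (f * y0)⁻¹ := by
  by_cases hA : Ll (md c) (ln y0)
  · obtain ⟨f, h1, h2, h3, h4⟩ := hB Γ a H hH c m hc cc y0⁻¹ (inv_mem hy)
    refine ⟨f⁻¹, inv_mem h1, inv_mem h2, ?_, by rwa [mul_inv_rev, inv_inv]⟩
    rw [← ln_inv, mul_inv_rev, inv_inv]
    refine h3.trans' (Ls.mono_left (conj_le _ _) ?_)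
    rw [ln_inv]
    exact (Ls.refl' _).two.add (Ls.trans' cc hA.ls)
  · refine ⟨1, one_mem _, one_mem _, by rw [one_mul]; exact Ls.refl' _, fun _ h => ?_⟩
    rw [one_mul, ln_inv] at h
    exact absurd h hA

theorem step2 (hE : S_ELEM) (hL : S_LINE) (hB : S_B_NM1) (hH : GC0 H) (m : c ∈ H) (m' : c' ∈ H)
    (hc : Prim c) (hc' : Prim c') (cc : Cen c) (cc' : Cen c') (hy : y0 ∈ H)
    (hs : ∀ f ∈ Ep c, ∀ f' ∈ Ep c',
      Ls (ln y0) (ln c + ln (f * y0 * f' * c' * (f * y0 * f')⁻¹))) :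
    ∃ f ∈ H, ∃ f' ∈ H, f ∈ Ep c ∧ f' ∈ Ep c' ∧ NE c (f * y0 * f')⁻¹ ∧ NE c' (f * y0 * f') ∧
      Ls (ln (f * y0 * f')) (ln y0) := by
  obtain ⟨f, f1, f2, f3, f4⟩ := step1 hB hH m hc cc hy
  have h0 := ln_nonneg y0
  by_cases hA : Ll (md c') (ln y0)
  swap
  · refine ⟨f, f1, 1, one_mem _, f2, one_mem _, ?_⟩
    rw [mul_one]
    exact ⟨f4, fun _ h => absurd (h.ls_right f3 h0) hA, f3⟩
  obtain ⟨g, g1, g2, g3, g4⟩ := hB Γ a H hH c' m' hc' cc' (f * y0) (mul_mem f1 hy)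
  have l' : Ll (ln c') (ln y0) := Ll.ls_left cc' hA
  have g5 : Ls (ln (f * y0 * g)) (ln y0) :=
    g3.trans' (Ls.mono_left (conj_le _ _) (f3.two.add l'.ls))
  refine ⟨f, f1, g, g1, f2, g2, fun hb hl hF => ?_, g4, g5⟩
  rw [ln_inv] at hb hl hF
  rw [inv_inv] at hF
  have hμ : Big (ln y0) := hb.of_ls g5
  have hA' : Ll (md c) (ln y0) := hl.ls_right g5 h0
  have l : Ll (ln c) (ln y0) := Ll.ls_left cc hA'
  have key : ∀ f' ∈ Ep c', Ls (ln y0) (ln (f * y0 * f')) := fun f' hf' =>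
    (hs f f2 f' hf').of_le_add (l.add l') hμ.pos 2 (by
      have := conj_le (f * y0 * f') c'
      push_cast
      linarith)
  have s1 : Sim (ln (f * y0 * g)) (ln y0) := ⟨g5, key g g2⟩
  have s2 : Sim (ln (f * y0)) (ln y0) := ⟨f3, by simpa using key 1 (one_mem _)⟩
  have n1 := g4 hb ((s1.ll_iff (ln_nonneg _) h0).2 hA)
  rw [s1.fol_iff (ln_nonneg _) h0] at n1 hF
  have z1 := hc'.disp' hE hL (hc'.conj' g).1 (Ep_conj_mem' g2).symm g⁻¹
  rw [ds_conj (g⁻¹ * c' * g), show g⁻¹⁻¹ * (g⁻¹ * c' * g) * g⁻¹ = c' by group] at z1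
  have o1 := (on_of_not_fol hμ l' n1 (Ll.ls_left z1 l')).mul (f * y0 * g)
  rw [mul_one, mul_inv_cancel, mul_inv_cancel_right] at o1
  refine f4 ?_ ?_ ?_ <;> rw [ln_inv]
  · exact s2.big_iff.2 hμ
  · exact (s2.ll_iff (ln_nonneg _) h0).2 hA'
  · rw [inv_inv, s2.fol_iff (ln_nonneg _) h0]
    exact hF.mono o1

end NormA

theorem p_NORM (hELEM : S_ELEM) (hLINE : S_LINE) (hB_NM1 : S_B_NM1) :
    S_NORM := by
  intro Γ a H hH
  refine ⟨hB_NM1 Γ a H hH, fun c m c' m' hc hc' cc cc' h hh _ => ?_⟩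
  obtain ⟨p, hp, -, hM⟩ := hH.cen c m (h * c' * h⁻¹) (mul_mem (mul_mem hh m') (inv_mem hh)) hc.1
    (hc'.conj h).1
  obtain ⟨f1, a1, a2, a3, -⟩ := hB_NM1 Γ a H hH c m hc cc p⁻¹ (inv_mem hp)
  obtain ⟨f2, b1, b2, b3, -⟩ := hB_NM1 Γ a H hH c' m' hc' cc' (p⁻¹ * h) (mul_mem (inv_mem hp) hh)
  rw [inv_inv] at a3
  rw [show p⁻¹ * h * c' * (p⁻¹ * h)⁻¹ = p⁻¹ * (h * c' * h⁻¹) * p by group] at b3
  have h0 : Ls (ln (f1⁻¹ * h * f2)) (ln (p⁻¹ * c * p) + ln (p⁻¹ * (h * c' * h⁻¹) * p)) := by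
    have := ln_mul_le (p⁻¹ * f1)⁻¹ (p⁻¹ * h * f2)
    rw [ln_inv, show (p⁻¹ * f1)⁻¹ * (p⁻¹ * h * f2) = f1⁻¹ * h * f2 by group] at this
    exact Ls.mono_left this ((a3.mono_right (le_add_of_nonneg_right (ln_nonneg _))).add
      (b3.mono_right (le_add_of_nonneg_left (ln_nonneg _))))
  have e : ∀ f f' : MM Γ a, f * (f1⁻¹ * h * f2) * f' = f * f1⁻¹ * h * (f2 * f') := fun f f' => by
    group
  have h1 : ∀ f ∈ Ep c, ∀ f' ∈ Ep c', ∀ q : MM Γ a, Ls (ln (f1⁻¹ * h * f2)) (ln (q⁻¹ * c * q) +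
      ln (q⁻¹ * (f * f1⁻¹ * h * (f2 * f') * c' * (f * f1⁻¹ * h * (f2 * f'))⁻¹) * q)) :=
    fun f hf f' hf' q => (h0.trans' (hM _)).trans'
      (NormA.move hELEM hLINE hc hc' (mul_mem hf (inv_mem a2)) (mul_mem b2 hf') q)
  obtain ⟨f, k1, f', k2, k3, k4, k5, k6, k7⟩ := NormA.step2 hELEM hLINE hB_NM1 hH m m' hc hc' cc cc'
    (mul_mem (mul_mem (inv_mem a1) hh) b1) fun f hf f' hf' => by
      have := h1 f hf f' hf' 1
      rwa [inv_one, one_mul, one_mul, mul_one, mul_one, ← e] at this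
  rw [e] at k5 k6 k7
  exact ⟨_, mul_mem k1 (inv_mem a1), _, mul_mem b1 k2, mul_mem k3 (inv_mem a2), mul_mem b2 k4,
    k5, k6, fun q => k7.trans' (h1 f k3 f' k4 q)⟩

end Pool.Agent.P.MP_dba3d2_lc


end

section

/-! Step B_RG0 of the stability project. -/

namespace Pool.Agent.P.MP_dba3d2_lc

open Filter

namespace B_rg0

variable {Γ : HG} {a : Amb} {μ : a.K}

theorem ls_pow {g : MM Γ a} (h : Ls (ln g) μ) (n : ℕ) : Ls (ln (g ^ n)) μ :=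
  Ls.mono_left (ln_pow_le g n) (h.nat_mul n)

theorem ll_md {g : MM Γ a} (h : Ll (md g) μ) (n : ℕ) : Ll (md (g ^ n)) μ :=
  Ll.mono_left (md_pow_le g n) (h.nat_mul n)

theorem ls_disp {g u : MM Γ a} (h : Ls (ln g) μ) (h' : Ls (ln u) μ) : Ls (ds u (g * u)) μ := by
  refine Ls.mono_left (disp_le g u 1) ?_
  rw [ds_one_right, ds_one_mul]
  exact h'.two.add h

theorem root (hE : S_ELEM) {H : Subgroup (MM Γ a)} {c c' x : MM Γ a} (hc' : c' ∈ H) (p : Prim c)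
    (p' : Prim c') (l : Ls (ln c') μ) (h : Cj x c' c) :
    ∃ C' ∈ H, Ls (ln C') μ ∧ x * C' * x⁻¹ = c ^ (Γ.e * Γ.e) := by
  rcases h.pow hE p p' with e | e
  · exact ⟨_, pow_mem hc' _, ls_pow l _, e⟩
  · exact ⟨_, inv_mem (pow_mem hc' _), by rw [ln_inv]; exact ls_pow l _, e⟩

theorem key (hμ : Big μ) {C D p b : MM Γ a} (hC : Ll (md C) μ) (hD : Ll (md D) μ)
    (hp : Ll (ds p (C * p)) μ) (hb : ∀ z, Ll (ds z (D * z)) μ → On μ b p z)
    (hl : Ls μ (ds b (C * b))) (y : MM Γ a) :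
    ∃ y2, (y2 = y ∨ y2 = D * y) ∧ On μ b y2 (C * y2) ∧ On μ (C * b) y2 (C * y2) := by
  have h0 := hμ.pos
  obtain ⟨q, q1, q2, q3, q4, q5⟩ := exists_proj hμ hC b
  obtain ⟨m, m1, -, -, m4, -⟩ := exists_proj hμ hD y
  have l1 : Ls μ (ds b q) := hl.of_le_add (hμ.ll_nat 2) h0 2 (by simpa using q3)
  have l2 : Ls μ (ds q (C * b)) := l1.mono_right (by linarith)
  have fin : ∀ y2, On μ m y2 p → On μ b y2 (C * y2) ∧ On μ (C * b) y2 (C * y2) := fun y2 h => by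
    have a1 := ((h.sub' (hb m m4).symm).1.sub' (q5 p hp)).2
    have a2 : On μ (C * b) q (C * y2) := On.symm ((a1.mul C).congr (p' := C * b) (x' := C * y2)
      (y' := q) (by simpa using Ll.zero h0.le) (by simpa using Ll.zero h0.le)
      (by rw [ds_comm]; exact q4))
    have a3 := On.glue hμ a1 (On.of_eq h0.le q1) l1
    have a4 := (On.glue hμ a3.2 a2 l2).2
    exact ⟨(a4.sub a3.1).1, a4⟩
  rcases On.cases hμ (On.of_eq h0.le m1) p with h | h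
  · exact ⟨y, Or.inl rfl, fin y h⟩
  · exact ⟨_, Or.inr rfl, fin _ h⟩

end B_rg0

open B_rg0

theorem p_B_RG0 (hELEM : S_ELEM) (hLINE : S_LINE) (hNP : S_NP) :
    S_B_RG0 := by
  intro Γ a H μ hH hμ c hc d hd c' hc' d' hd' pc pd pc' pd' lc ld lc' ld' mc md' hq x _ j1 j2
  have h0 := hμ.pos
  have e0 := ee_ne_zero Γ
  obtain ⟨C', hC', lC', eC⟩ := root hELEM hc' pc pc' lc' j1
  obtain ⟨D', hD', lD', eD⟩ := root hELEM hd' pd pd' ld' j2
  obtain ⟨p, -, p2, -, p4, -⟩ := exists_proj hμ mc 1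
  obtain ⟨b, -, b2, -, b4, b5⟩ := exists_proj hμ (ll_md md' (Γ.e * Γ.e)) p
  have lp : Ls (ln p) μ := by
    rw [ds_one_mul, ds_one_left] at p2
    exact Ls.mono_left (by linarith [ln_nonneg p]) lc
  have fd : Ll (ds b (d * b)) μ := Ll.ls_left (pow_disp hELEM hLINE pd.1 e0 b) b4
  have s1 : Ls μ (ln (b⁻¹ * c * b)) := by
    rw [← ds_conj]
    exact (hq b).of_le_add fd h0 1 (by simp)
  have s2 : Ls (ln (b⁻¹ * c * b)) μ := by
    rw [← ds_conj]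
    refine Ls.mono_left (disp_le c b p) (Ls.add ?_ p4.ls)
    rw [ds_comm]
    exact Ls.mono_left b2 (ls_disp (ls_pow ld _) lp)
  obtain ⟨n1, n2⟩ := hNP Γ a _ (pc.conj' b) (hμ.of_ls s1) (Γ.e * Γ.e * 2) (by omega)
  have e1 : (b⁻¹ * c * b) ^ (Γ.e * Γ.e * 2) = b⁻¹ * c ^ (Γ.e * Γ.e * 2) * b := by
    simpa using conj_pow (a := b⁻¹) (b := c) (i := Γ.e * Γ.e * 2)
  rw [e1] at n1 n2
  have n3 : Ls μ (ds b (c ^ (Γ.e * Γ.e * 2) * b)) := by rw [ds_conj]; exact s1.trans' n1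
  rw [Sim.per_iff ⟨s2, s1⟩ (ln_nonneg _) h0.le, ← per_mul_iff b, mul_one, ← mul_assoc,
    mul_inv_cancel_left] at n2
  have k := key hμ (ll_md mc (Γ.e * Γ.e * 2)) (ll_md md' (Γ.e * Γ.e)) (fix_pow p4 _) b5 n3
  obtain ⟨u, hu, u1, u2⟩ := k 1
  obtain ⟨y, hy, y1, y2⟩ := k x
  have hu' : u ∈ H ∧ Ls (ln u) μ := by
    rcases hu with rfl | rfl
    · exact ⟨one_mem H, by simpa using Ls.zero h0.le⟩
    · rw [mul_one]; exact ⟨pow_mem hd _, ls_pow ld _⟩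
  obtain ⟨u', hu1, hu2, rfl⟩ : ∃ u' ∈ H, Ls (ln u') μ ∧ y = x * u' := by
    rcases hy with rfl | rfl
    · exact ⟨1, one_mem H, by simpa using Ls.zero h0.le, (mul_one _).symm⟩
    · exact ⟨D', hD', lD', by rw [← eD, inv_mul_cancel_right]⟩
  have e2 : c ^ (Γ.e * Γ.e * 2) * (x * u') = x * (C' ^ 2 * u') := by
    rw [pow_mul, ← eC, conj_pow]; group
  rw [e2] at y1 y2
  exact hH.g2' hμ hu'.1 (mul_mem (pow_mem hc _) hu'.1) hu1 (mul_mem (pow_mem hC' _) hu1)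
    (ls_disp (ls_pow lc _) hu'.2) (ls_disp (ls_pow lC' _) hu2) ⟨n3, u1, u2, y1, y2⟩ n2

end Pool.Agent.P.MP_dba3d2_lc


end

section

/-! Step RIG of the stability project. -/

namespace Pool.Agent.P.MP_dba3d2_lc

open Filter

namespace Rig

variable {Γ : HG} {a : Amb} {H : Subgroup (MM Γ a)} {c d c' d' x : MM Γ a} {μ : a.K}

theorem key (hE : S_ELEM) (hL : S_LINE) (hc : Prim c) (hc' : Prim c') (h : Cj x c' c) :
    Ls (ds x (c * x)) (ln c') := by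
  have := hc.disp' hE hL (hc'.conj x).1 h.symm x
  rwa [inv_mul_cancel_right, ds_mul_right] at this

theorem axis (hE : S_ELEM) (hL : S_LINE) (hP : S_PERC) (hH : GC0 H) (hμ : Big μ) (m : c ∈ H)
    (m' : c' ∈ H) (hc : Prim c) (hc' : Prim c') (h : Cj x c' c) (l : Ls (ln c) μ)
    (l' : Ls (ln c') μ) (lx : Ls (ln x) μ) (hm : Ls μ (md c)) : x ∈ H := by
  obtain ⟨e1, e2⟩ := Ep_pow hE hc.1 (Nat.mul_pos Γ.good.pos Γ.good.pos).ne'
  have l1 := Ls.mono_left (ln_pow_le c (Γ.e * Γ.e)) (l.nat_mul _)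
  have l2 := Ls.mono_left (ln_pow_le c' (Γ.e * Γ.e)) (l'.nat_mul _)
  rcases h.pow hE hc hc' with e | e
  · exact hH.axis hE hL hP hμ (pow_mem m _) (pow_mem m' _) e l1 l2 lx e1 hc e2.symm hm
  · exact hH.axis hE hL hP hμ (pow_mem m _) (inv_mem (pow_mem m' _)) e l1 (by rwa [ln_inv]) lx e1
      hc e2.symm hm

theorem core (hE : S_ELEM) (hL : S_LINE) (hP : S_PERC) (hR : S_B_RG0) (hH : GC0 H) (mc : c ∈ H)
    (md' : d ∈ H) (mc' : c' ∈ H) (md'' : d' ∈ H) (hc : Prim c) (hd : Prim d) (hc' : Prim c')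
    (hd' : Prim d') (hne : Ep c ≠ Ep d) (h1 : Cj x c' c) (h2 : Cj x d' d)
    (z : ∀ q, Ls (ln c + ln d) (ds q (c * q) + ds q (d * q)))
    (z' : ∀ q, Ls (ln c' + ln d') (ds q (c' * q) + ds q (d' * q))) : x ∈ H := by
  have a1 : ∀ u v : MM Γ a, Ls (ln u) (ln u + ln v) := fun u v =>
    Ls.of_le (le_add_of_nonneg_right (ln_nonneg v))
  have a2 : ∀ u v : MM Γ a, Ls (ln v) (ln u + ln v) := fun u v =>
    Ls.of_le (le_add_of_nonneg_left (ln_nonneg u))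
  have b : Ls (ln c' + ln d') (ln c + ln d) := (z' x⁻¹).trans'
    (((key hE hL hc' hc h1.inv).trans' (a1 c d)).add ((key hE hL hd' hd h2.inv).trans' (a2 c d)))
  have lc' := (a1 c' d').trans' b
  have ld' := (a2 c' d').trans' b
  have o : 1 ≤ ln c + ln d :=
    le_add_of_le_of_nonneg ((one_le_md' hc.1).trans (md_le_ln c)) (ln_nonneg d)
  have lx : Ls (ln x) (ln c + ln d) := ls_of_scale o fun hb hl => hne
    (Ep_eq_of_stab hE hP hb (p := 1) (q := x) (by rw [ds_one_left]; exact Ls.refl' _) hc.1 hd.1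
      ⟨by rw [ds_one_mul]; exact hl.ls_left (a1 c d),
        hl.ls_left ((key hE hL hc hc' h1).trans' lc')⟩
      ⟨by rw [ds_one_mul]; exact hl.ls_left (a2 c d),
        hl.ls_left ((key hE hL hd hd' h2).trans' ld')⟩)
  by_cases hb : Big (ln c + ln d)
  · rcases ll_or_ls hb.pos (md c) with k1 | k1
    · rcases ll_or_ls hb.pos (md d) with k2 | k2
      · exact hR Γ a H _ hH hb c mc d md' c' mc' d' md'' hc hd hc' hd' (a1 c d) (a2 c d) lc' ld'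
          k1 k2 z x lx h1 h2
      · exact axis hE hL hP hH hb md' md'' hd hd' h2 (a2 c d) ld' lx k2
    · exact axis hE hL hP hH hb mc mc' hc hc' h1 (a1 c d) lc' lx k1
  · exact hH.of_not_big (not_big_of_ls lx hb)

theorem cen (hH : GC0 H) (mc : c ∈ H) (md' : d ∈ H) (hc : Prim c) (hd : Prim d) :
    ∃ p ∈ H, ∀ q, Ls (ln (p⁻¹ * c * p) + ln (p⁻¹ * d * p))
      (ds q (p⁻¹ * c * p * q) + ds q (p⁻¹ * d * p * q)) := by
  obtain ⟨p, hp, -, h⟩ := hH.cen c mc d md' hc.1 hd.1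
  refine ⟨p, hp, fun q => ?_⟩
  rw [disp_conj', disp_conj', ds_conj, ds_conj]
  exact h _

theorem one (hE : S_ELEM) (hL : S_LINE) (hP : S_PERC) (hT : S_ROOT) (hR : S_B_RG0) (hH : GC0 H)
    (mc : c ∈ H) (md' : d ∈ H) (mc' : c' ∈ H) (md'' : d' ∈ H) (hc : ¬ IsOfFinOrder c)
    (hd : ¬ IsOfFinOrder d) (hc' : ¬ IsOfFinOrder c') (hd' : ¬ IsOfFinOrder d')
    (hne : Ep c ≠ Ep d) (h1 : Cj x c' c) (h2 : Cj x d' d) : x ∈ H := by
  obtain ⟨c0, m1, p1, e1⟩ := (hT Γ a H hH).1 c mc hc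
  obtain ⟨d0, m2, p2, e2⟩ := (hT Γ a H hH).1 d md' hd
  obtain ⟨c1, m3, p3, e3⟩ := (hT Γ a H hH).1 c' mc' hc'
  obtain ⟨d1, m4, p4, e4⟩ := (hT Γ a H hH).1 d' md'' hd'
  obtain ⟨p, hp, z⟩ := cen hH m1 m2 p1 p2
  obtain ⟨p', hp', z'⟩ := cen hH m3 m4 p3 p4
  have k : ∀ {u v : MM Γ a}, u ∈ H → v ∈ H → u⁻¹ * v * u ∈ H := fun hu hv =>
    mul_mem (mul_mem (inv_mem hu) hv) hu
  have := core hE hL hP hR hH (k hp m1) (k hp m2) (k hp' m3) (k hp' m4) (p1.conj' p) (p2.conj' p)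
    (p3.conj' p') (p4.conj' p') (fun e => hne (e1.symm.trans (((Ep_conj_iff' p).1 e).trans e2)))
    ((h1.congr e3 e1).conj p p') ((h2.congr e4 e2).conj p p') z z'
  rwa [mul_mem_cancel_right hp', mul_mem_cancel_left (inv_mem hp)] at this

end Rig

theorem p_RIG (hELEM : S_ELEM) (hLINE : S_LINE) (hPERC : S_PERC) (hROOT : S_ROOT) (hB_RG0 : S_B_RG0) :
    S_RIG := by
  intro Γ a H hH
  refine ⟨fun c mc d md' c' mc' d' md'' hc hd hc' hd' hne x h1 h2 =>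
    Rig.one hELEM hLINE hPERC hROOT hB_RG0 hH mc md' mc' md'' hc hd hc' hd' hne h1 h2,
    fun c mc d md' hc hd hne f g hf hg m => ?_⟩
  have e : Cj f d (f * g * d * (f * g)⁻¹) := by
    have := (Cj.self (f * g) d).mul hg.inv.cj
    rwa [mul_inv_cancel_right] at this
  exact Rig.one hELEM hLINE hPERC hROOT hB_RG0 hH mc (mul_mem (mul_mem m md') (inv_mem m)) mc md'
    hc (mt (finOrder_conj _ _).1 hd) hc hd
    (fun k => hne ((Ep_conj_iff f).1 (Eq.trans hf.cj (k.trans e.symm)))) hf.cj e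

end Pool.Agent.P.MP_dba3d2_lc


end

section

/-! Step B_APX of the stability project. -/

namespace Pool.Agent.P.MP_dba3d2_lc

open Filter

namespace B_apx

theorem near {b : Amb} {ν D : b.K} (hν : 0 < ν) (h0 : 0 ≤ D) (hD : Ls D ν) :
    ∃ t : ℝ, 0 ≤ t ∧ Ll (D - (t : b.K) * ν) ν ∧ Ll ((t : b.K) * ν - D) ν := by
  have h1 : Ls |D| ν := by rwa [abs_of_nonneg h0]
  have ht := rl_nonneg hν h0
  have h2 : Ls |((rl ν D : ℝ) : b.K) * ν| ν := by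
    obtain ⟨n, hn⟩ := exists_nat_ge (rl ν D)
    have a1 : (0 : b.K) ≤ ((rl ν D : ℝ) : b.K) := Germ.const_le ht
    have a2 : ((rl ν D : ℝ) : b.K) ≤ (n : b.K) := Germ.const_le hn
    rw [abs_of_nonneg (mul_nonneg a1 hν.le)]
    exact ⟨n, mul_le_mul_of_nonneg_right a2 hν.le⟩
  refine ⟨rl ν D, ht, (rl_nonpos_iff hν (Ls.mono_left (abs_sub _ _) (h1.add h2))).1 ?_,
    (rl_nonpos_iff hν (Ls.mono_left (abs_sub _ _) (h2.add h1))).1 ?_⟩
  · rw [rl_sub hν h1 h2, rl_real hν, sub_self]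
  · rw [rl_sub hν h2 h1, rl_real hν, sub_self]

end B_apx

theorem p_B_APX :
    S_B_APX := by
  intro Γ a b E μ x y p hμ hxy hp
  change On (E.kh μ) p _ _ at hp
  change ∃ p0, On μ p0 x y ∧ Ll (ds p (E.hom Γ p0)) (E.kh μ)
  have hν : Big (E.kh μ) := E.big_iff.2 hμ
  obtain ⟨t, t0, t1, t2⟩ := B_apx.near hν.pos (ds_nonneg (E.hom Γ x) p)
    (hp.ls_left (by rw [E.ds_hom]; exact E.ls_iff.2 hxy))
  have a1 : (0 : a.K) ≤ (t : a.K) := Germ.const_le t0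
  obtain ⟨p0, h1, h2, h3, h4⟩ := exists_on hμ x y (min ((t : a.K) * μ) (ds x y))
    (le_min (mul_nonneg a1 hμ.pos.le) (ds_nonneg x y)) (min_le_right _ _)
  have h5 : On (E.kh μ) (E.hom Γ p0) (E.hom Γ x) (E.hom Γ y) :=
    On.of_eq hν.pos.le (by rw [E.ds_hom, E.ds_hom, E.ds_hom, ← map_add, h4])
  have one : Ll 1 (E.kh μ) := big_iff_ll.1 hν
  refine ⟨p0, h1, hp.close hν h5 ?_ ?_⟩
  · rw [E.ds_hom]
    rcases min_choice ((t : a.K) * μ) (ds x y) with e | e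
    · rw [e, ← E.kh_le, map_mul, map_add, map_one, E.kh_real] at h3
      exact Ll.mono_left (by linarith) (t1.add one)
    · rw [e, ← E.kh_le, map_add, map_one] at h3
      have := hp.le_left
      rw [E.ds_hom] at this
      exact Ll.mono_left (by linarith) (this.add one)
  · rw [E.ds_hom]
    have := E.kh_le.2 (h2.trans (min_le_left _ _))
    rw [map_mul, E.kh_real] at this
    exact Ll.mono_left (by linarith) t2

end Pool.Agent.P.MP_dba3d2_lc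


end

section

/-! Step B_STX of the stability project. -/

namespace Pool.Agent.P.MP_dba3d2_lc

open Filter

namespace B_stx

/-- a finite internal set does not grow in an extension -/
theorem fin_ext {a b : Amb} (E : Ext a b) {X : Type} [Nonempty X] (P : a.I → X → Prop)
    {F : Set (Germ (a.V : Filter a.I) X)} (hF : F.Finite)
    (h : ∀ g : a.I → X, (∀ᶠ i in (a.V : Filter a.I), P i (g i)) → Germ.ofFun g ∈ F)
    (u : b.I → X) (hu : ∀ᶠ j in (b.V : Filter b.I), P (E.π j) (u j)) :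
    ∃ s ∈ F, Germ.ofFun u = E.mp s := by
  have h1 : ∀ᶠ i in (a.V : Filter a.I), ∀ x, P i x →
      ∃ s ∈ F, x = (Quotient.out s : a.I → X) i := by
    by_contra e
    rw [← Ultrafilter.eventually_not] at e
    simp only [not_forall, exists_prop] at e
    obtain ⟨g, hg⟩ := e.choice
    obtain ⟨i, h1, h2⟩ := (hg.and (Bas2A.out_coe g)).exists
    exact h1.2 ⟨_, h g (hg.mono fun i hi => hi.1), h2.symm⟩
  obtain ⟨s, h2, h3⟩ := (Ultrafilter.eventually_exists_mem_iff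
    (P := fun s j => u j = (Quotient.out s : a.I → X) (E.π j)) hF).1
    (((E.hπ.eventually h1).and hu).mono fun j hj => hj.1 _ hj.2)
  refine ⟨s, h2, (Germ.coe_eq.2 h3).trans ?_⟩
  conv_rhs => rw [← Quotient.out_eq s]
  rfl

end B_stx

theorem p_B_STX (hB_SMALL : S_B_SMALL) :
    S_B_STX := by
  intro Γ a μ p q h1 h2 h3
  obtain ⟨r, s, n, k1, k2, k3, k4, -, k6, k7⟩ := hB_SMALL Γ a μ p q h1 h2 h3
  refine ⟨r, s, k1, k2, k3, k4, fun b E u hu => ?_⟩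
  induction μ using Germ.inductionOn with | h μ =>
  induction p using Germ.inductionOn with | h p =>
  induction q using Germ.inductionOn with | h q =>
  induction u using Germ.inductionOn with | h u =>
  obtain ⟨u0, e1, e2⟩ := B_stx.fin_ext E (fun i g => (n : ℝ) * Γ.len ((p i)⁻¹ * (g * p i)) ≤ μ i ∧
      (n : ℝ) * Γ.len ((q i)⁻¹ * (g * q i)) ≤ μ i) k6
    (fun g hg => k7 _ (hg.mono fun i hi => hi.1) (hg.mono fun i hi => hi.2)) u
    (Eventually.and (hu.1 n) (hu.2 n))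
  exact ⟨u0, e2, e1⟩

end Pool.Agent.P.MP_dba3d2_lc


end

section

/-! Step EXTGC of the stability project. -/

namespace Pool.Agent.P.MP_dba3d2_lc

open Filter

namespace ExtgcA

variable {Γ : HG} {a b : Amb} (E : Ext a b) {μ : a.K} {H : Subgroup (MM Γ a)}

theorem on_iff (p x y : MM Γ a) :
    On (E.kh μ) (E.hom Γ p) (E.hom Γ x) (E.hom Γ y) ↔ On μ p x y := by
  simp only [On, E.ds_hom, ← map_add, ← map_sub, E.ll_iff]

theorem stab_iff (p q g : MM Γ a) :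
    Stab (E.kh μ) (E.hom Γ p) (E.hom Γ q) (E.hom Γ g) ↔ Stab μ p q g := by
  simp only [Stab, ← map_mul, E.ds_hom, E.ll_iff]

theorem ep_iff (f c : MM Γ a) : E.hom Γ f ∈ Ep (E.hom Γ c) ↔ f ∈ Ep c := by
  simp only [mem_Ep, commute_iff_eq, ← map_pow, ← map_mul, E.hom_injective.eq_iff]

theorem per_hom {p q : MM Γ a} (h : Per μ p q) : Per (E.kh μ) (E.hom Γ p) (E.hom Γ q) := by
  obtain ⟨g, h1, h2⟩ := h
  exact ⟨_, mt E.finOrder_iff.1 h1, (stab_iff E p q g).2 h2⟩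

theorem apx (hA : S_B_APX) (hμ : Big μ) {h : MM Γ a} (hl : Ls (ln h) μ) {p : MM Γ b}
    (hp : On (E.kh μ) p 1 (E.hom Γ h)) : ∃ p0, On μ p0 1 h ∧ Ll (ds p (E.hom Γ p0)) (E.kh μ) :=
  hA Γ a b E μ 1 h p hμ (by rwa [ds_one_left]) (by rwa [map_one])

theorem nondeg (hμ : Big μ) {p q : MM Γ b} {p0 q0 : MM Γ a} (h : Ls (E.kh μ) (ds p q))
    (hp : Ll (ds p (E.hom Γ p0)) (E.kh μ)) (hq : Ll (ds q (E.hom Γ q0)) (E.kh μ)) :
    Ls μ (ds p0 q0) := by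
  rw [← E.ls_iff, ← E.ds_hom]
  refine h.of_le_add (hp.add hq) (E.big_iff.2 hμ).pos 1 ?_
  have h1 := ds_tri p (E.hom Γ p0) q
  have h2 := ds_tri (E.hom Γ p0) (E.hom Γ q0) q
  rw [ds_comm (E.hom Γ q0) q] at h2
  push_cast
  linarith

theorem stab_mem (hS : S_B_STX) (hH : GC0 H) (hμ : Big μ) {h p q : MM Γ a} (hh : h ∈ H)
    (hl : Ls (ln h) μ) (hp : On μ p 1 h) (hq : On μ q 1 h) (hn : Ls μ (ds p q))
    (np : ¬ Per μ p q) {u : MM Γ b} (hu : Stab (E.kh μ) (E.hom Γ p) (E.hom Γ q) u) :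
    u ∈ H.map (E.hom Γ) := by
  obtain ⟨r, s, h1, h2, h3, h4, h5⟩ := hS Γ a μ p q hμ hn np
  obtain ⟨u0, rfl, h6⟩ := h5 b E u hu
  have h7 := h6.ov (hp.conv hμ hq h1) (hp.conv hμ hq h2) h3
  rw [mul_one] at h7
  exact Subgroup.mem_map_of_mem _ (hH.g2 μ hμ h hh h hh hl hl u0 r s h7 h4)

theorem near {ν : b.K} {g p x y : MM Γ b} (h1 : Ll (ds p x) ν) (h2 : Ll (ds (g⁻¹ * p) y) ν) :
    Ll (ds (g * y) x) ν := by
  refine Ll.mono_left ?_ (h2.add h1)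
  have := ds_tri (g * y) p x
  rwa [← ds_mul_left g⁻¹ (g * y) p, inv_mul_cancel_left, ds_comm y] at this

theorem fixu {g : MM Γ b} {g0 p p' : MM Γ a} (h1 : Ll (ds (g * E.hom Γ p') (E.hom Γ p)) (E.kh μ))
    (h2 : Ll (ds (g0 * p') p) μ) :
    Ll (ds (E.hom Γ p) (g * (E.hom Γ g0)⁻¹ * E.hom Γ p)) (E.kh μ) := by
  rw [← E.ll_iff, ← E.ds_hom, map_mul] at h2
  refine Ll.mono_left ?_ (h1.add h2)
  have := ds_tri (E.hom Γ p) (g * E.hom Γ p') (g * (E.hom Γ g0)⁻¹ * E.hom Γ p)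
  rwa [ds_comm _ (g * E.hom Γ p'), mul_assoc, ds_mul_left, ← ds_mul_left (E.hom Γ g0) (E.hom Γ p'),
    mul_inv_cancel_left, ← mul_assoc] at this

theorem g2 (hA : S_B_APX) (hS : S_B_STX) (hH : GC0 H) (hμ : Big μ) {h h' : MM Γ a} (hh : h ∈ H)
    (hh' : h' ∈ H) (hl : Ls (ln h) μ) (hl' : Ls (ln h') μ) {g p q : MM Γ b}
    (ho : Ov (E.kh μ) p q 1 (E.hom Γ h) g (g * E.hom Γ h')) (np : ¬ Per (E.kh μ) p q) :
    g ∈ H.map (E.hom Γ) := by
  obtain ⟨hn, o1, o2, o3, o4⟩ := ho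
  have o5 := o3.mul g⁻¹
  have o6 := o4.mul g⁻¹
  rw [inv_mul_cancel, inv_mul_cancel_left] at o5 o6
  obtain ⟨p0, a1, b1⟩ := apx E hA hμ hl o1
  obtain ⟨q0, a2, b2⟩ := apx E hA hμ hl o2
  obtain ⟨p1, a3, b3⟩ := apx E hA hμ hl' o5
  obtain ⟨q1, a4, b4⟩ := apx E hA hμ hl' o6
  obtain ⟨g0, hg⟩ := exists_min_move p1 p0 q1 q0
  have c1 := near b1 b3
  have c2 := near b2 b4
  have c3 := E.ll_iff.1 (Ll.mono_left (hg b E g) (c1.add c2))
  have d1 : Ll (ds (g0 * p1) p0) μ := Ll.mono_left (le_add_of_nonneg_right (ds_nonneg _ _)) c3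
  have d2 : Ll (ds (g0 * q1) q0) μ := Ll.mono_left (le_add_of_nonneg_left (ds_nonneg _ _)) c3
  have n0 := nondeg E hμ hn b1 b2
  have np0 : ¬ Per μ p0 q0 := fun k =>
    np ((per_hom E k).congr (by rwa [ds_comm]) (by rwa [ds_comm]))
  have z : ∀ x : MM Γ a, Ll (ds x x) μ := fun x => by rw [ds_self]; exact Ll.zero hμ.pos.le
  have e1 := (a3.mul g0).congr d1 (z _) (z _)
  have e2 := (a4.mul g0).congr d2 (z _) (z _)
  rw [mul_one] at e1 e2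
  have m0 := hH.g2 μ hμ h hh h' hh' hl hl' g0 p0 q0 ⟨n0, a1, a2, e1, e2⟩ np0
  have m1 := stab_mem E hS hH hμ hh hl a1 a2 n0 np0 ⟨fixu E c1 d1, fixu E c2 d2⟩
  have := mul_mem m1 (Subgroup.mem_map_of_mem (E.hom Γ) m0)
  rwa [inv_mul_cancel_right] at this

theorem g20 (hA : S_B_APX) (hS : S_B_STX) (hH : GC0 H) (hμ : Big μ) {h : MM Γ a} (hh : h ∈ H)
    (hl : Ls (ln h) μ) {p q : MM Γ b} (hn : Ls (E.kh μ) (ds p q))
    (o1 : On (E.kh μ) p 1 (E.hom Γ h)) (o2 : On (E.kh μ) q 1 (E.hom Γ h))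
    (hp : Per (E.kh μ) p q) : ∃ c ∈ H.map (E.hom Γ), Prim c ∧ Stab (E.kh μ) p q c := by
  obtain ⟨p0, a1, b1⟩ := apx E hA hμ hl o1
  obtain ⟨q0, a2, b2⟩ := apx E hA hμ hl o2
  have n0 := nondeg E hμ hn b1 b2
  have k : Per μ p0 q0 := by
    by_contra np
    obtain ⟨r, s, -, -, -, h4, h5⟩ := hS Γ a μ p0 q0 hμ n0 np
    obtain ⟨g, h1, h2⟩ := hp.congr b1 b2
    obtain ⟨u0, rfl, h6⟩ := h5 b E g h2
    exact h4 ⟨u0, mt E.finOrder_iff.2 h1, h6⟩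
  obtain ⟨c, h1, h2, h3⟩ := hH.g20 μ hμ h hh hl p0 q0 n0 a1 a2 k
  exact ⟨_, Subgroup.mem_map_of_mem _ h1, E.prim_iff.2 h2,
    ((stab_iff E p0 q0 c).2 h3).congr (by rwa [ds_comm]) (by rwa [ds_comm])⟩

theorem sim {ν : b.K} (hν : Big ν) {h : MM Γ a} {p q : MM Γ b} (hl : Ls (ln (E.hom Γ h)) ν)
    (hn : Ls ν (ds p q)) (o1 : On ν p 1 (E.hom Γ h)) (o2 : On ν q 1 (E.hom Γ h)) :
    Sim ν (E.kh (ln h)) ∧ Big (ln h) := by
  have k := o1.nondeg hν o2 hn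
  rw [ds_one_left, E.ln_hom] at k
  rw [E.ln_hom] at hl
  exact ⟨⟨k, hl⟩, E.big_iff.1 (hν.of_ls k)⟩

theorem gc0 (hA : S_B_APX) (hS : S_B_STX) (hH : GC0 H) : GC0 (H.map (E.hom Γ)) where
  base := by
    rintro _ ⟨x, rfl⟩
    exact ⟨cst Γ a x, hH.base ⟨x, rfl⟩, rfl⟩
  g2 := by
    rintro ν hν _ ⟨h, hh, rfl⟩ _ ⟨h', hh', rfl⟩ hl hl' g p q ho np
    obtain ⟨s, hb⟩ := sim E hν hl ho.1 ho.2.1 ho.2.2.1
    have h1 := (E.big_iff.2 hb).pos.le
    rw [E.ln_hom] at hl'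
    exact g2 E hA hS hH hb hh hh' (Ls.refl' _) (E.ls_iff.1 (hl'.trans' s.1))
      ((s.ov_iff hν.pos.le h1).1 ho) (mt (s.per_iff hν.pos.le h1).2 np)
  g20 := by
    rintro ν hν _ ⟨h, hh, rfl⟩ hl p q hn o1 o2 hp
    obtain ⟨s, hb⟩ := sim E hν hl hn o1 o2
    have h1 := (E.big_iff.2 hb).pos.le
    obtain ⟨c, h2, h3, h4⟩ := g20 E hA hS hH hb hh (Ls.refl' _) (s.2.trans' hn)
      ((s.on_iff hν.pos.le h1).1 o1) ((s.on_iff hν.pos.le h1).1 o2) ((s.per_iff hν.pos.le h1).1 hp)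
    exact ⟨c, h2, h3, (s.stab_iff hν.pos.le h1).2 h4⟩
  ex := by
    rintro ν hν _ ⟨h, hh, rfl⟩ hl _ ⟨c, hc, rfl⟩ pc lc mc
    rcases ll_or_ls hν.pos (ln (E.hom Γ h) + ln (E.hom Γ c)) with k | k
    · refine ⟨1, one_mem _, one_mem _, Ll.mono_left ?_ k.two⟩
      rw [ds_one_left]
      linarith [ln_nonneg (E.hom Γ c), ln_nonneg ((E.hom Γ h)⁻¹ * E.hom Γ c * E.hom Γ h)]
    · have s : Sim ν (E.kh (ln h + ln c)) := by
        rw [map_add, ← E.ln_hom, ← E.ln_hom]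
        exact ⟨k, hl.add lc⟩
      have hb := hν.of_ls s.1
      rw [s.ll_iff hν.pos.le hb.pos.le, E.md_hom, E.ll_iff] at mc
      obtain ⟨f, h1, h2, h3⟩ := hH.ex _ (E.big_iff.1 hb) h hh
        (Ls.of_le (le_add_of_nonneg_right (ln_nonneg _))) c hc (E.prim_iff.1 pc)
        (Ls.of_le (le_add_of_nonneg_left (ln_nonneg _))) mc
      refine ⟨_, Subgroup.mem_map_of_mem _ h1, (ep_iff E f c).2 h2, ?_⟩
      rw [s.ll_iff hν.pos.le hb.pos.le, ← map_inv, ← map_mul, ← map_mul, E.ds_hom, E.ln_hom,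
        E.ln_hom, ← map_ofNat E.kh 2, ← map_mul, ← map_add, ← map_sub, E.ll_iff]
      exact h3
  pur := by
    rintro _ ⟨c, hc, rfl⟩ pc _ ⟨f, hf, rfl⟩ ef n hn
    obtain ⟨f', h1, h2, r, h3⟩ := hH.pur c hc (E.prim_iff.1 pc) f hf ((ep_iff E f c).1 ef) n hn
    refine ⟨_, Subgroup.mem_map_of_mem _ h1, (ep_iff E f' c).2 h2, r, ?_⟩
    rwa [← map_pow, ← map_pow, ← map_inv, ← map_mul, ← map_mul, E.finOrder_iff]
  cen := by
    rintro _ ⟨c, hc, rfl⟩ _ ⟨c', hc', rfl⟩ n1 n2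
    obtain ⟨p, h1, h2, h3⟩ := hH.cen c hc c' hc' (mt E.finOrder_iff.2 n1) (mt E.finOrder_iff.2 n2)
    obtain ⟨q0, -, h4⟩ := exists_min_disp c c'
    refine ⟨_, Subgroup.mem_map_of_mem _ h1, ?_, fun q => ?_⟩
    · rwa [E.ln_hom, E.ln_hom, E.ln_hom, ← map_add, E.ls_iff]
    · have h5 := h4 b E q
      simp only [ds_conj] at h5
      refine Ls.mono_right ?_ h5
      simp only [← map_inv, ← map_mul, E.ln_hom, ← map_add, E.ls_iff]
      exact h3 q0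

theorem finc (hH : FinC H) : FinC (H.map (E.hom Γ)) := by
  intro K hK hf
  obtain ⟨p, h1, h2⟩ := hH (K.comap (E.hom Γ))
    (fun x hx => by
      obtain ⟨y, hy, e⟩ := hK hx
      exact E.hom_injective e ▸ hy)
    (Finite.of_injective (fun x : K.comap (E.hom Γ) => (⟨E.hom Γ x, x.2⟩ : K))
      fun x y e => Subtype.ext (E.hom_injective (congrArg Subtype.val e)))
  refine ⟨_, Subgroup.mem_map_of_mem _ h1, fun k hk => ?_⟩
  obtain ⟨y, -, rfl⟩ := hK hk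
  obtain ⟨x, e⟩ := h2 y hk
  exact ⟨x, by rw [← map_inv, ← map_mul, ← map_mul, ← e, E.hom_cst]⟩

end ExtgcA

theorem p_EXTGC (hB_APX : S_B_APX) (hB_STX : S_B_STX) :
    S_EXTGC := fun _ _ _ E _ =>
  ⟨ExtgcA.gc0 E hB_APX hB_STX,
    fun h => ⟨ExtgcA.gc0 E hB_APX hB_STX h.toGC0, ExtgcA.finc E h.finc⟩⟩

end Pool.Agent.P.MP_dba3d2_lc


end

section

/-! Step B_CVK of the stability project. -/

namespace Pool.Agent.P.MP_dba3d2_lc

open Filter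

namespace B_cvk

variable {Γ : HG} {a : Amb} {μ L : a.K} {c z u v : MM Γ a} {H : Subgroup (MM Γ a)}

theorem shift (c z u : MM Γ a) (i l : a.Z) :
    ds (ipow c (i + l) * z) (ipow c l * u) = ds u (ipow c i * z) := by
  rw [add_comm, ipow_add, mul_assoc, ds_mul_left, ds_comm]

/-- a translation by at most half of the segment realises an overlap -/
theorem key (hH : Cvx H) (hμ : Big μ) (hL : 0 < L)
    (C1 : ∀ k l : a.Z, |zK k - zK l| * L ≤ ds (ipow c k * z) (ipow c l * z))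
    (C2 : ∀ i j k : a.Z, i ≤ j → j ≤ k → On μ (ipow c j * z) (ipow c i * z) (ipow c k * z))
    (hu : u ∈ H) (hv : v ∈ H) {i j l : a.Z} (hi : Ll (ds u (ipow c i * z)) μ)
    (hj : Ll (ds v (ipow c j * z)) μ) (hn : Ls μ ((zK j - zK i) * L)) (h0 : 0 ≤ zK l)
    (h1 : 2 * zK l ≤ zK j - zK i) : ipow c l ∈ H := by
  have z0 : ∀ p : MM Γ a, Ll (ds p p) μ := fun p => Ll.of_nonpos (ds_self p).le hμ.pos.le
  have hi' : Ll (ds (ipow c i * z) u) μ := ds_comm u _ ▸ hi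
  have hj' : Ll (ds (ipow c j * z) v) μ := ds_comm v _ ▸ hj
  have gi : Ll (ds (ipow c (i + l) * z) (ipow c l * u)) μ := shift c z u i l ▸ hi
  have gj : Ll (ds (ipow c (j + l) * z) (ipow c l * v)) μ := shift c z v j l ▸ hj
  have o1 : i ≤ i + l := zK_le.1 (by rw [zK_add]; linarith)
  have o2 : i + l ≤ j := zK_le.1 (by rw [zK_add]; linarith)
  have o3 : j ≤ j + l := zK_le.1 (by rw [zK_add]; linarith)
  refine hH.ov hμ hu hv hu hv (p := ipow c (i + l) * z) (q := ipow c j * z)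
    ⟨?_, (C2 _ _ _ o1 o2).congr (z0 _) hi' hj', (on_right hμ.pos.le _ _).congr (z0 _) hi' hj',
      (on_left hμ.pos.le _ _).congr (z0 _) gi gj, (C2 _ _ _ o2 o3).congr (z0 _) gi gj⟩
  refine hn.trans' ⟨2, ?_⟩
  have h2 := C1 (i + l) j
  rw [zK_add, abs_sub_comm] at h2
  have h3 := mul_le_mul_of_nonneg_right (le_abs_self (zK j - (zK i + zK l))) hL.le
  have h4 := mul_le_mul_of_nonneg_right h1 hL.le
  push_cast
  linarith

theorem key2 (hH : Cvx H) (hμ : Big μ) (hL : 0 < L)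
    (C1 : ∀ k l : a.Z, |zK k - zK l| * L ≤ ds (ipow c k * z) (ipow c l * z))
    (C2 : ∀ i j k : a.Z, i ≤ j → j ≤ k → On μ (ipow c j * z) (ipow c i * z) (ipow c k * z))
    (hu : u ∈ H) (hv : v ∈ H) {i j l : a.Z} (hi : Ll (ds u (ipow c i * z)) μ)
    (hj : Ll (ds v (ipow c j * z)) μ) (hn : Ls μ (|zK i - zK j| * L))
    (h1 : 2 * |zK l| ≤ |zK i - zK j|) : ipow c l ∈ H := by
  have k : ∀ l : a.Z, 0 ≤ zK l → 2 * zK l ≤ |zK i - zK j| → ipow c l ∈ H := fun l h0 h1 => by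
    rcases abs_cases (zK i - zK j) with e | e
    · rw [e.1] at hn h1
      exact key hH hμ hL C1 C2 hv hu hj hi hn h0 h1
    · rw [e.1, neg_sub] at hn h1
      exact key hH hμ hL C1 C2 hu hv hi hj hn h0 h1
  rcases abs_cases (zK l) with e | e
  · exact k l e.2 (e.1 ▸ h1)
  · have := k (-l) (by rw [zK_neg]; linarith [e.2]) (by rw [zK_neg, ← e.1]; exact h1)
    rwa [ipow_neg, inv_mem_iff] at this

end B_cvk

theorem p_B_CVK (hLINE : S_LINE) :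
    S_B_CVK := by
  intro Γ a H μ c u v hH hμ hc hf hu hv hs hn k hk
  obtain ⟨z, hz⟩ := exists_md_ds c
  obtain ⟨L, hL, hC⟩ := exists_coord hLINE hf (Ls.of_le hz.le)
  obtain ⟨C1, C2, C3⟩ := hC μ hs.md
  have L0 : 0 < L := hL.2.pos (one_pos.trans_le (one_le_md' hf))
  have L1 : Ll L μ := Ll.ls_left hL.1 hs.md
  obtain ⟨i, hi⟩ := (C3 u).1 hs.1
  obtain ⟨j, hj⟩ := (C3 v).1 hs.2
  have h1 : Ls μ (|zK i - zK j| * L) := by
    refine hn.of_le_add (((C1 i j).1.add hi).add hj) hμ.pos 1 ?_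
    have t1 := ds_tri u (ipow c i * z) v
    have t2 := ds_tri (ipow c i * z) (ipow c j * z) v
    rw [ds_comm (ipow c j * z) v] at t2
    push_cast
    linarith
  have h2 : Ls (|zK k| * L) μ := by
    refine Ls.mono_left ?_ ((hi.ls.add hk).add hi.ls)
    have t0 := (C1 (i + k) i).2
    rw [zK_add, add_sub_cancel_left] at t0
    have t1 := ds_tri (ipow c (i + k) * z) (ipow c k * u) (ipow c i * z)
    have t2 := ds_tri (ipow c k * u) u (ipow c i * z)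
    rw [B_cvk.shift] at t1
    rw [ds_comm _ u] at t2
    linarith
  obtain ⟨n, h3⟩ := h2.trans' h1
  rw [← mul_assoc] at h3
  have h4 := le_of_mul_le_mul_right h3 L0
  have h5 := le_of_mul_le_mul_right (L1.ls_right h1 (mul_nonneg (abs_nonneg _) L0.le) 4) L0
  obtain ⟨l, r, hr, e⟩ := exists_divmod k (4 * (n + 1)) (by omega)
  have h6 : 2 * |zK l| ≤ |zK i - zK j| := by
    have e1 : zK k = (4 * (n + 1) : ℕ) * zK l + (r : a.K) := by
      rw [e, zK_add, zK_mul, zK_natCast, zK_natCast]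
    have r0 : (0 : a.K) ≤ r := Nat.cast_nonneg r
    have r1 : (r : a.K) ≤ (4 * (n + 1) : ℕ) := Nat.cast_le.2 hr.le
    have n0 : (0 : a.K) ≤ n := Nat.cast_nonneg n
    have e2 : ((4 * (n + 1) : ℕ) : a.K) * |zK l| ≤ |zK k| + r := by
      have : ((4 * (n + 1) : ℕ) : a.K) * zK l = zK k - r := by rw [e1]; ring
      rw [← Nat.abs_cast (4 * (n + 1)), ← abs_mul, this]
      exact (abs_sub _ _).trans (by rw [abs_of_nonneg r0])
    push_cast at e2 r1 h5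
    refine le_of_mul_le_mul_left (a := 2 * ((n : a.K) + 1)) ?_ (by linarith)
    have := mul_le_mul_of_nonneg_left h5 (show (0 : a.K) ≤ n + 2 by linarith)
    linarith
  rw [e, ipow_add, mul_comm, ← ipow_pow, ipow_natCast]
  exact mul_mem (pow_mem (B_cvk.key2 hH hμ L0 (fun k l => (C1 k l).2) C2 hu hv hi hj h1 h6) _)
    (pow_mem hc _)

end Pool.Agent.P.MP_dba3d2_lc


end

section

/-! Step B_CVE of the stability project. -/

namespace Pool.Agent.P.MP_dba3d2_lc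

open Filter

namespace B_cveA

variable {Γ : HG} {a : Amb} {H : Subgroup (MM Γ a)} {μ : a.K} {c u v f : MM Γ a}

/-- two fixed points in `H` are related by an exponent in `H` -/
theorem slide (hL : S_LINE) (hK : S_B_CVK) (hH : Cvx H) (hμ : Big μ) (hc : c ∈ H)
    (h0 : ¬ IsOfFinOrder c) (hm : Ll (md c) μ) (hu : u ∈ H) (hv : v ∈ H) (hs : Stab μ u v c)
    (hd : Ls (ds u v) μ) : ∃ f ∈ H, f ∈ Ep c ∧ Ll (ds (f * u) v) μ := by
  rcases ll_or_ls hμ.pos (ds u v) with e | e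
  · exact ⟨1, one_mem _, one_mem _, by rwa [one_mul]⟩
  obtain ⟨z, hz⟩ := exists_md_ds c
  obtain ⟨L, -, k⟩ := exists_coord hL h0 (Ls.of_le hz.le)
  obtain ⟨i, hi⟩ := ((k μ hm).2.2 u).1 hs.1
  obtain ⟨j, hj⟩ := ((k μ hm).2.2 v).1 hs.2
  have e1 : ipow c (j - i) * (ipow c i * z) = ipow c j * z := by
    rw [← mul_assoc, ← ipow_add, sub_add_cancel]
  have e2 : Ll (ds (ipow c (j - i) * u) v) μ := by
    refine Ll.mono_left ?_ (hi.add hj)
    have := ds_tri (ipow c (j - i) * u) (ipow c (j - i) * (ipow c i * z)) v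
    rwa [ds_mul_left, e1, ds_comm (ipow c j * z)] at this
  refine ⟨_, hK Γ a H μ c u v hH hμ hc h0 hu hv hs e _ ?_, ipow_mem_Ep c _, e2⟩
  refine Ls.mono_left (ds_tri u v _) (hd.add ?_)
  rw [ds_comm]
  exact e2.ls

/-- divisors of an exponent -/
theorem root (hL : S_LINE) (hK : S_B_CVK) (hH : Cvx H) (hc : c ∈ H) (h0 : ¬ IsOfFinOrder c)
    (hf : f ∈ H) (hf' : f ∈ Ep c) {l : a.Z} {n r : ℕ} (hn : 0 < n)
    (ht : IsOfFinOrder (f⁻¹ * ipow c ((n : a.Z) * l + (r : a.Z)))) : ipow c l ∈ H := by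
  by_cases hb : Big |zK l|
  swap
  · obtain ⟨m, rfl⟩ := exists_int_of_not_big hb
    rw [ipow_intCast]
    exact zpow_mem hc m
  obtain ⟨u, h1, h2, h3⟩ := exists_mid 1 (c * 1)
  have hu : u ∈ H := hH.mem (one_mem _) (mul_mem hc (one_mem _)) h1
  have hcen := mid_cen (c := c) (fun e => h0 (e ▸ IsOfFinOrder.one)) h1 h2 h3
  obtain ⟨⟨L, hs, k⟩, -, k'⟩ := hL Γ a c u h0 hcen
  have m1 := one_le_md' h0
  have L0 : 0 < L := hs.2.pos (one_pos.trans_le m1)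
  have l1 : Ll L (|zK l| * L) := fun m => mul_le_mul_of_nonneg_right (hb m) L0.le
  have l2 : Ll (md c) (|zK l| * L) := Ll.ls_left hs.2 l1
  have hμ : Big (|zK l| * L) := big_iff_ll.2 (l2.mono_left m1)
  set k0 : a.Z := (n : a.Z) * l + (r : a.Z) with hk0
  have l3 : Ll (ds (ipow c k0 * u) (f * u)) (|zK l| * L) := by
    refine Ll.ls_left ?_ l2
    have := k' _ (mul_mem (inv_mem hf') (ipow_mem_Ep c k0)) ht
    rwa [← ds_mul_left f, mul_assoc, mul_inv_cancel_left, ds_comm] at this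
  have l4 : Ll (ds u (c * u)) (|zK l| * L) := Ll.ls_left hcen l2
  refine hK Γ a H _ c u (f * u) hH hμ hc h0 hu (mul_mem hf hu) ⟨l4, fix_congr ?_ l3⟩ ?_ l ?_
  · rwa [disp_comm (commute_ipow (Commute.refl c) k0).symm]
  · refine Ls.of_le_add (Ls.refl' _) (l3.add (l1.nat_mul r)) hμ.pos 1 ?_
    have a1 : |zK l| ≤ |zK k0| + r := by
      have b1 : zK k0 = n * zK l + r := by rw [hk0, zK_add, zK_mul, zK_natCast, zK_natCast]
      have b2 : (1 : a.K) ≤ n := Nat.one_le_cast.2 hn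
      have b3 : |(n : a.K) * zK l| ≤ |zK k0| + |(r : a.K)| := by
        rw [show (n : a.K) * zK l = zK k0 - r by rw [b1]; ring]
        exact abs_sub _ _
      rw [abs_mul, Nat.abs_cast, Nat.abs_cast] at b3
      exact (le_mul_of_one_le_left (abs_nonneg _) b2).trans b3
    have a2 := mul_le_mul_of_nonneg_right a1 L0.le
    have a3 := (k k0).1
    have a4 := ds_tri u (f * u) (ipow c k0 * u)
    rw [ds_comm (f * u)] at a4
    push_cast
    linarith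
  · have := (Ll.ls_left (k l).2.1 l2).ls.add (Ls.refl' (|zK l| * L))
    rwa [sub_add_cancel] at this

end B_cveA

theorem p_B_CVE (hELEM : S_ELEM) (hLINE : S_LINE) (hB_CVK : S_B_CVK) :
    S_B_CVE := by
  intro Γ a H hH
  refine ⟨fun μ hμ h hh lh c hc pc lc hm => ?_, fun c hc pc f hf hf' n hn => ?_⟩
  · obtain ⟨u, u1, u2, -, u3, -⟩ := exists_proj hμ hm 1
    obtain ⟨v, v1, v2, -, v3, -⟩ := exists_proj hμ hm h
    have d1 := disp_le c h 1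
    rw [ds_comm h 1, ds_one_mul, ds_one_left] at d1
    have hu := hH.mem (one_mem _) (mul_mem hc (one_mem _)) u1
    rw [ds_one_mul] at u2
    obtain ⟨f, hf, hf', e⟩ := B_cveA.slide hLINE hB_CVK hH hμ hc pc.1 hm hu
      (hH.mem hh (mul_mem hc hh) v1) ⟨u3, v3⟩ (Ls.mono_left (by
        linarith [ds_tri u 1 v, ds_tri 1 h v, ds_comm u 1, ds_one_left h, ln_nonneg h,
          ln_nonneg c]) (lh.two.add lc))
    refine ⟨f, hf, hf', Ll.mono_left ?_ e.two⟩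
    rw [← ds_conj]
    linarith [ds_tri f (f * u) h, ds_tri (f * u) v h, ds_comm v h, ds_mul_right f u, ds_one_left u]
  · obtain ⟨k, hk⟩ := pc.2 f hf'
    obtain ⟨l, r, -, rfl⟩ := exists_divmod k n hn
    refine ⟨_, B_cveA.root hLINE hB_CVK hH hc pc.1 hf hf' hn hk, ipow_mem_Ep c l, r, ?_⟩
    rwa [ipow_pow, ← ipow_natCast, ← ipow_add, mul_comm l]

end Pool.Agent.P.MP_dba3d2_lc


end

section

/-! Step CVX of the stability project. -/

namespace Pool.Agent.P.MP_dba3d2_lc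

open Filter

namespace CvxA

variable {Γ : HG} {a : Amb} {H : Subgroup (MM Γ a)} {c m p q : MM Γ a} {ν M : a.K}

theorem med (hc : Ls (ds m (c * m)) (md c)) (h1 : c ≠ 1) (hq : ds q (c * q) ≤ M)
    (hp : ∀ μ : a.K, Big μ → On μ p m q) : Ls (ds p (c * p)) M := by
  have hM := (md_le_ds c q).trans hq
  refine ls_of_scale ((one_le_md h1).trans hM) fun hν h => ll_irrefl hν.pos ?_
  exact fix_conv hν (Ll.ls_left (hc.mono_right hM) h) (Ll.mono_left hq h) (hp _ hν)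

theorem mid (hν : Big ν) (hz : ¬ Big (ds p (c * p)))
    (hm : ds 1 m + ds m (c * 1) = ds 1 (c * 1) ∧ 2 * ds 1 m ≤ ds 1 (c * 1) ∧
      ds 1 (c * 1) ≤ 2 * ds 1 m + 2) : Ll (ds m (c * m)) ν ∧ On ν m 1 p :=
  fix_mid hν (hν.ll_of_not_big hz) (On.of_eq hν.pos.le hm.1)
    (Ll.of_nonpos (sub_nonpos.2 hm.2.1) hν.pos.le)
    (Ll.mono_left (by linarith [hm.2.2]) hν.ll_one.two)

theorem cen (hH : Cvx H) {c' : MM Γ a} (hc : c ∈ H) (hc' : c' ∈ H) (h1 : c ≠ 1) (h1' : c' ≠ 1) :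
    ∃ p ∈ H, Ls (ln p) (ln c + ln c') ∧ ∀ q,
      Ls (ln (p⁻¹ * c * p) + ln (p⁻¹ * c' * p)) (ln (q⁻¹ * c * q) + ln (q⁻¹ * c' * q)) := by
  obtain ⟨m, a1, a2, a3⟩ := exists_mid 1 (c * 1)
  obtain ⟨m', b1, b2, b3⟩ := exists_mid 1 (c' * 1)
  obtain ⟨q, hq, -⟩ := exists_min_disp c c'
  obtain ⟨p, e, hp⟩ := exists_median m m' q
  refine ⟨p, hH.mem (hH.mem H.one_mem (H.mul_mem hc H.one_mem) a1)
    (hH.mem H.one_mem (H.mul_mem hc' H.one_mem) b1) e, Ls.of_le ?_, fun q' => ?_⟩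
  · rw [ds_one_mul, ds_one_left] at a2 b2
    have := ds_tri 1 m p
    rw [ds_one_left, ds_one_left] at this
    linarith [ds_le_ln m m', ds_nonneg p m', ln_nonneg m']
  · simp only [← ds_conj]
    refine Ls.mono_right (Ls.add
      (med (mid_cen h1 a1 a2 a3) h1 (le_add_of_nonneg_right (ds_nonneg _ _)) fun μ h => (hp μ h).1)
      (med (mid_cen h1' b1 b2 b3) h1' (le_add_of_nonneg_left (ds_nonneg _ _))
        fun μ h => (hp μ h).2)) (hq q')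

theorem finc (hFINM : S_FINM) (hH : Cvx H) : FinC H := by
  intro K hK hfin
  obtain ⟨p, hp, -⟩ := hFINM Γ a K hfin
  have hp' : ∀ k ∈ K, ¬ Big (ds p (k * p)) := fun k hk => ds_conj k p ▸ mem_std_iff.1 (hp k hk)
  obtain ⟨k0, hk0⟩ := Finite.exists_max fun k : K => ln (k : MM Γ a)
  obtain ⟨m, hm⟩ := exists_mid 1 ((k0 : MM Γ a) * 1)
  refine ⟨m, hH.mem H.one_mem (H.mul_mem (hK k0.2) H.one_mem) hm.1, fun k hk => ?_⟩
  rw [mem_std_iff, ← ds_conj]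
  intro hν
  obtain ⟨m', hm'⟩ := exists_mid 1 (k * 1)
  have h1 := mid hν (hp' _ k0.2) hm
  have h2 := mid hν (hp' k hk) hm'
  have h3 : ds 1 m' - ds 1 m ≤ 1 := by
    have := hk0 ⟨k, hk⟩
    rw [ds_one_mul] at hm hm'
    linarith [hm.2.2, hm'.2.1]
  exact ll_irrefl hν.pos (fix_conv hν h2.1 (hν.ll_of_not_big (hp' k hk))
    (On.order hν h2.2 h1.2 (Ll.mono_left h3 hν.ll_one)).2)

end CvxA

theorem p_CVX (hFINM : S_FINM) (hPERC : S_PERC) (hB_CVE : S_B_CVE) :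
    S_CVX := by
  intro Γ a H hH
  obtain ⟨h1, h2⟩ := hB_CVE Γ a H hH
  refine ⟨⟨hH.1, fun μ hμ h hh h' hh' _ _ g p q ho _ => ?_, fun μ hμ h hh _ p q hn hp hq hP => ?_,
    h1, h2, fun c hc c' hc' e e' => CvxA.cen hH hc hc' (fun u => e (u ▸ IsOfFinOrder.one))
      fun u => e' (u ▸ IsOfFinOrder.one)⟩, CvxA.finc hFINM hH⟩
  · exact hH.ov hμ H.one_mem hh H.one_mem hh' (by rwa [mul_one])
  · obtain ⟨c, c1, c2, -⟩ := hPERC Γ a μ p q hμ hn hP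
    exact ⟨c, hH.ov hμ H.one_mem hh H.one_mem hh (c2.ov hp hq hn), c1, c2⟩

end Pool.Agent.P.MP_dba3d2_lc


end
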