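import Pool.Agent.P.MP_dba3d2_lcM.Ab00

section

/-! Definitions for the adjunctions at the top scale: words, chains, geodesic lists. -/

namespace Pool.Agent.P.MP_dba3d2_lc

open Filter

section words
variable {G : Type} [Group G] {Λ ι V W : Type}

/-- reduced chains in a bipartite incidence structure: first vertex, first edge vertex, last vertex -/
inductive RCh (adj : V → W → Prop) : V → W → V → Prop
  | one {v v' : V} {w : W} : adj v w → adj v' w → v ≠ v' → RCh adj v w v'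
  | cons {v v' v'' : V} {w w' : W} : adj v w → adj v' w → v ≠ v' → w ≠ w' → RCh adj v' w' v'' →
      RCh adj v w v''

/-- connectedness in a bipartite incidence structure -/
def Conn (adj : V → W → Prop) : V → V → Prop :=
  Relation.ReflTransGen fun v v' => ∃ w, adj v w ∧ adj v' w

/-- the value of a word -/
def wval (v : Λ → G) (l : List (G × Λ)) : G := (l.map fun s => s.1 * v s.2).prod

/-- the syllables of a word -/
def wflat (v : Λ → G) (l : List (G × Λ)) : List G := l.flatMap fun s => [s.1, v s.2]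

/-- reduced words -/
def WRed (B : Subgroup G) (P : Λ → G → Λ → Prop) (l : List (G × Λ)) : Prop :=
  (∀ s ∈ l, s.1 ∈ B) ∧ l.IsChain fun s s' => ¬ P s.2 s'.1 s'.2

/-- word systems: pinches can be shortened -/
structure WS (B : Subgroup G) (v : Λ → G) (P : Λ → G → Λ → Prop) : Prop where
  inv : ∀ s, ∃ s', v s' = (v s)⁻¹
  red : ∀ s b s', b ∈ B → P s b s' →
    v s * b * v s' ∈ B ∨ ∃ s'', ∃ x ∈ B, ∃ y ∈ B, v s * b * v s' = x * v s'' * y

/-- nonempty reduced words are not in the base -/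
def WBr (B : Subgroup G) (v : Λ → G) (P : Λ → G → Λ → Prop) : Prop :=
  ∀ l, WRed B P l → l ≠ [] → wval v l ∉ B

/-- stable letters and their inverses -/
def hv (u : ι → G) (s : ι × Bool) : G := bif s.2 then u s.1 else (u s.1)⁻¹

/-- pinches for stable letters -/
def HP (B : Subgroup G) (u : ι → G) (s : ι × Bool) (b : G) (s' : ι × Bool) : Prop :=
  s.1 = s'.1 ∧ s.2 ≠ s'.2 ∧ hv u s * b * hv u s' ∈ B

end words

variable {Γ : HG} {a : Amb}

/-- lists whose product is geodesic at scale `μ` -/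
def Geo (μ : a.K) (L : List (MM Γ a)) : Prop := Ll ((L.map ln).sum - ln L.prod) μ

/-- lists without cancellation at the junctions -/
def Loc (μ : a.K) : List (MM Γ a) → Prop
  | x :: y :: L => On μ 1 x⁻¹ y ∧
      (Ll (ln y) μ → ∀ w ∈ L.head?, Ls μ (ln w) ∧ On μ 1 x⁻¹ (y * w)) ∧ Loc μ (y :: L)
  | _ => True

/-- the segment from `1` to `z` contains a nonperiodic germ -/
def Npg (μ : a.K) (z : MM Γ a) : Prop :=
  ∃ t t', On μ t 1 z ∧ On μ t' 1 z ∧ Ls μ (ds t t') ∧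
    ∀ r, On μ r t t' → Ls μ (ds t r) → ¬ Per μ t r

/-- an exponent of `d` in `T` carries the projection of `x` to the projection of `y` -/
def Rx (μ : a.K) (T : Subgroup (MM Γ a)) (d x y : MM Γ a) : Prop :=
  ∃ f ∈ T, f ∈ Ep d ∧ Ll (2 * ds (f * x) y - (ds x (d * x) + ds y (d * y))) μ

/-- the data of an adjunction at the top scale -/
structure TopD (μ : a.K) (B T : Subgroup (MM Γ a)) (W S : Set (MM Γ a)) : Prop where
  big : Big μ
  gc : GC0 B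
  le : B ≤ T
  bd : T ≤ ball Γ μ
  top : ∀ t ∈ T, t ∉ B → Ls μ (ln t)
  cov : ∀ t ∈ T, ∃ L : List (MM Γ a), L.prod = t ∧ Geo μ L ∧
    ∀ x ∈ L, x ∈ T ∧ ∃ g ∈ T, ∃ w ∈ W, On μ 1 g (g * w) ∧ On μ x g (g * w)
  w2 : ∀ w ∈ W, ∀ w' ∈ W, ∀ g p q, Ov μ p q 1 w g (g * w') → ¬ Per μ p q → g ∈ T
  w20 : ∀ w ∈ W, ∀ p q, Ls μ (ds p q) → On μ p 1 w → On μ q 1 w → Per μ p q →
    ∃ c ∈ T, Prim c ∧ Stab μ p q c
  star : ∀ c ∈ T, ∀ c' ∈ T, ¬ IsOfFinOrder c → ¬ IsOfFinOrder c' → ∀ x, Ll (ds x (c * x)) μ →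
    Ll (ds x (c' * x)) μ → ∃ t ∈ T, t⁻¹ * c * t ∈ B ∧ t⁻¹ * c' * t ∈ B
  gen : T = Subgroup.closure S
  ex1 : ∀ s ∈ S, ∀ d ∈ T, Prim d → Ll (md d) μ → Rx μ T d 1 s
  pur1 : ∀ c ∈ B, Prim c → ∀ f ∈ T, f ∈ Ep c → ∀ n : ℕ, 0 < n →
    ∃ f' ∈ T, f' ∈ Ep c ∧ ∃ r : ℕ, IsOfFinOrder (f⁻¹ * (f' ^ n * c ^ r))

/-- the hypotheses of the adjunction of a point -/
structure PtD (μ : a.K) (B : Subgroup (MM Γ a)) (p h : MM Γ a) : Prop where
  big : Big μ
  gc : GC0 B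
  bd : B ≤ ball Γ μ
  mem : h ∈ B
  on : On μ p 1 h
  far : ∀ x ∈ B, Ls μ (ds p x)
  fix : ∀ x ∈ B, Ll (ds p (x * p)) μ → p⁻¹ * x * p ∈ std Γ a ∧ IsOfFinOrder x

/-- the hypotheses of the adjunction of exponents, for a centred element -/
structure ExpD (μ : a.K) (B : Subgroup (MM Γ a)) (c : MM Γ a) (k : ℚ →+ a.Z) : Prop where
  big : Big μ
  gc : GC0 B
  bd : B ≤ ball Γ μ
  mem : c ∈ B
  prim : Prim c
  cen : Cen c
  md : Ll (md c) μ
  sb : ∀ q, ipow c (k q) ∈ ball Γ μ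
  long : ∀ q, q ≠ 0 → ∀ f ∈ B, f ∈ Ep c → Ls μ (Pool.Agent.P.MP_dba3d2_lc.md (f * ipow c (k q)))

/-- the new exponents -/
def ev (c : MM Γ a) (k : ℚ →+ a.Z) (q : {q : ℚ // q ≠ 0}) : MM Γ a := ipow c (k q)

/-- pinches for exponents -/
def EP (c : MM Γ a) (_ : {q : ℚ // q ≠ 0}) (b : MM Γ a) (_ : {q : ℚ // q ≠ 0}) : Prop := InE c b

/-- the group generated by the base and the new exponents -/
def ET (B : Subgroup (MM Γ a)) (c : MM Γ a) (k : ℚ →+ a.Z) : Subgroup (MM Γ a) :=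
  B ⊔ Subgroup.closure (Set.range fun q => ipow c (k q))

/-- exponent syllables -/
def SE (B : Subgroup (MM Γ a)) (c : MM Γ a) (k : ℚ →+ a.Z) : Set (MM Γ a) :=
  {e | ∃ f ∈ B, f ∈ Ep c ∧ ∃ q : ℚ, q ≠ 0 ∧ e = f * ipow c (k q)}

/-- normalised words -/
def NW (μ : a.K) (B : Subgroup (MM Γ a)) (c : MM Γ a) (k : ℚ →+ a.Z)
    (l : List (MM Γ a × MM Γ a)) : Prop :=
  ∀ s ∈ l, s.1 ∈ B ∧ ¬ InE c s.1 ∧ ¬ Fol μ s.1 c ∧ ¬ Fol μ s.1⁻¹ c ∧ s.2 ∈ SE B c k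

end Pool.Agent.P.MP_dba3d2_lc


end

section

/-! Definitions for the two factor theorem: syllables, words, covers, junctions. -/

namespace Pool.Agent.P.MP_dba3d2_lc

open Filter

/-- nonempty alternating words are not in the amalgamated subgroup -/
def RedNT {G : Type} [Group G] (A : Bool → Subgroup G) (C : Subgroup G) : Prop :=
  ∀ l : List (Bool × G), l ≠ [] → (∀ s ∈ l, s.2 ∈ A s.1 ∧ s.2 ∉ C) →
    l.IsChain (fun s s' => s.1 ≠ s'.1) → (l.map Prod.snd).prod ∉ C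

/-- homomorphisms on `X` and `Y` that agree on `C` extend to the join -/
def UnivP {G : Type} [Group G] (X Y C : Subgroup G) : Prop :=
  ∀ (G' : Type) [Group G'] (θ0 : X →* G') (θ1 : Y →* G'),
    (∀ (x : X) (y : Y), (x : G) ∈ C → (x : G) = y → θ0 x = θ1 y) →
    ∃ θ : ↥(X ⊔ Y) →* G', (∀ x : X, θ ⟨x, (le_sup_left : X ≤ X ⊔ Y) x.2⟩ = θ0 x) ∧
      ∀ y : Y, θ ⟨y, (le_sup_right : Y ≤ X ⊔ Y) y.2⟩ = θ1 y

variable {Γ : HG} {a : Amb}

/-- the base (`none`) and the factors -/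
def XF (F : Bool → Subgroup (MM Γ a)) : Option Bool → Subgroup (MM Γ a)
  | none => F false ⊓ F true
  | some i => F i

/-- the exponents of `c` -/
def EF (F : Bool → Subgroup (MM Γ a)) (c : MM Γ a) : Subgroup (MM Γ a) :=
  (F false ⊓ Ep c) ⊔ (F true ⊓ Ep c)

/-- the elementary closure as a subgroup -/
def IE (c : MM Γ a) : Subgroup (MM Γ a) := Subgroup.closure {g | InE c g}

/-- tags of syllables -/
abbrev Tg (Γ : HG) (a : Amb) : Type := Option Bool ⊕ MM Γ a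

/-- the group of a tag -/
def LF (F : Bool → Subgroup (MM Γ a)) : Tg Γ a → Subgroup (MM Γ a)
  | .inl o => XF F o
  | .inr c => EF F c

/-- admissible tags -/
def TOK (F : Bool → Subgroup (MM Γ a)) (S : Option Bool → Prop) : Tg Γ a → Prop
  | .inl o => S o
  | .inr c => c ∈ XF F none ∧ Prim c ∧ Cen c

/-- the cost of a base or factor syllable -/
def kx : Option Bool → ℕ
  | none => 1
  | some _ => 5

/-- the cost of a tag -/
def kc : Tg Γ a → ℕ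
  | .inl o => kx o
  | .inr _ => 2

/-- the cost of a tag at an end of a word -/
def k0 : Tg Γ a → ℕ
  | .inl o => kx o
  | .inr _ => 0

/-- the group that contains the period of a syllable -/
def bt : Tg Γ a → Option Bool
  | .inl o => o
  | .inr _ => none

/-- the cost of the words that can replace the inside of an overlapping junction -/
def lb : Tg Γ a → Tg Γ a → ℕ
  | .inr _, .inr _ => 3
  | .inr _, .inl o => 2 + kx o
  | .inl o, .inr _ => kx o + 2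
  | .inl (some i), .inl (some j) => if i = j then 12 else 10
  | .inl o, .inl o' => kx o + 2 + kx o'

/-- A group that covers the join of the factors. -/
structure Cv (F : Bool → Subgroup (MM Γ a)) (G : Type) [Group G] where
  π : G →* MM Γ a
  L : Tg Γ a → Subgroup G
  S : Option Bool → Prop
  s0 : S none
  le : ∀ t, TOK F S t → ∀ x ∈ L t, π x ∈ LF F t
  sur : ∀ t, TOK F S t → ∀ y ∈ LF F t, ∃ x ∈ L t, π x = y
  inj : ∀ x ∈ L (.inl none), π x = 1 → x = 1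
  mem : ∀ t o, TOK F S t → S o → ∀ x ∈ L t, π x ∈ XF F o → x ∈ L (.inl o)
  cj : ∀ c d, TOK F S (.inr c) → TOK F S (.inr d) → ∀ b ∈ L (.inl none), Cj (π b) c d →
    ∀ x ∈ L (.inr c), b * x * b⁻¹ ∈ L (.inr d)

section words
variable {G : Type} [Group G]

/-- the value of a word -/
def vl (w : List (Tg Γ a × G)) : G := (w.map Prod.snd).prod
/-- the cost of a word -/
def ct (w : List (Tg Γ a × G)) : ℕ := (w.map fun s => kc s.1).sum
/-- the inverse of a syllable -/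
def sinv (s : Tg Γ a × G) : Tg Γ a × G := (s.1, s.2⁻¹)
/-- the inverse of a word -/
def winv (w : List (Tg Γ a × G)) : List (Tg Γ a × G) := (w.map sinv).reverse

end words

/-- a word with optional ends -/
def xw {X : Type} (e : Option X) (u : List X) (e' : Option X) : List X := e.toList ++ u ++ e'.toList

/-- compatibility of neighbouring syllables after normalisation -/
def Pair (F : Bool → Subgroup (MM Γ a)) : Tg Γ a × MM Γ a → Tg Γ a × MM Γ a → Prop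
  | (.inl _, y), (.inr c, _) => NE c y
  | (.inr c, _), (.inl _, y) => NE c y⁻¹
  | (.inr c, _), (.inr c', _) => Ep c ≠ Ep c'
  | (.inl o, y), (.inl o', y') => ∃ i, o = some i ∧ o' = some (!i) ∧
      (NM (F (!i)) (XF F none) y ∧ y' ∉ XF F none ∨ NM (F i) (XF F none) y'⁻¹ ∧ y ∉ XF F none)

/-- compatibility of neighbouring syllables in a reduced word -/
def RP (F : Bool → Subgroup (MM Γ a)) : Tg Γ a × MM Γ a → Tg Γ a × MM Γ a → Prop
  | (.inl o, y), (.inr c, _) => o ≠ none → y * c * y⁻¹ ∉ XF F none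
  | (.inr c, _), (.inl o, y) => o ≠ none → y⁻¹ * c * y ∉ XF F none
  | (.inr c, _), (.inr c', _) => Ep c ≠ Ep c'
  | (.inl o, _), (.inl o', _) => ∃ i, o = some i ∧ o' = some (!i)

/-- the segment from `p` to `q` lies on the arc of the syllable `(t, y)`, or on a period that is
attached to it -/
def Arc (F : Bool → Subgroup (MM Γ a)) (ν : a.K) : Tg Γ a → MM Γ a → MM Γ a → MM Γ a → Prop
  | .inr c, _, p, q => Stab ν p q c
  | .inl o, y, p, q => (Ls (ln y) ν ∧ On ν p 1 y ∧ On ν q 1 y) ∨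
      ∃ b ∈ XF F o, b ∉ XF F none ∧ Prim b ∧ Stab ν p q b

/-- overlap at a junction with inside `z` -/
def Ovp (F : Bool → Subgroup (MM Γ a)) (ν : a.K) (s : Tg Γ a × MM Γ a) (z : MM Γ a)
    (s' : Tg Γ a × MM Γ a) : Prop :=
  ∃ q, Ls ν (ln q) ∧ Arc F ν s.1 s.2⁻¹ 1 q ∧ Arc F ν s'.1 s'.2 z⁻¹ (z⁻¹ * q)

/-- `b` is a period attached to the syllable `(t, y)` on the segment from `p` to `q` -/
def Att (F : Bool → Subgroup (MM Γ a)) (ν : a.K) (t : Tg Γ a) (y p q b : MM Γ a) : Prop :=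
  b ∈ XF F (bt t) ∧ Prim b ∧ Stab ν p q b ∧ (∀ c, t = .inr c → b = c) ∧
    (∀ o, t = .inl o → b ∈ XF F none → Ls (ln y) ν ∧ On ν p 1 y ∧ On ν q 1 y)

/-- the shape of conjugators -/
def TC1 (F : Bool → Subgroup (MM Γ a)) (o o' : Option Bool) (b b' w : MM Γ a) : Prop :=
  (∃ c ∈ XF F none, Prim c ∧ Cen c ∧ ∃ e ∈ EF F c, ∃ g ∈ XF F o, ∃ g' ∈ XF F o',
    w = g * e * g'⁻¹ ∧ Cj g c b ∧ Cj g' c b') ∨ ∃ i, o = some i ∧ o' = some i ∧ w ∈ F i

/-- `w` has the shape of a conjugator whenever it is one -/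
def TC (F : Bool → Subgroup (MM Γ a)) (o o' : Option Bool) (w : MM Γ a) : Prop :=
  ∀ b ∈ XF F o, ∀ b' ∈ XF F o', Prim b → Prim b' → Cj w b' b → TC1 F o o' b b' w

/-- typed axes -/
def Typ (F : Bool → Subgroup (MM Γ a)) (o : Option Bool) (b : MM Γ a) : Prop :=
  b ∈ XF F o ∧ Prim b ∧ Cen b ∧ (o ≠ none → ∀ g ∈ XF F o, g⁻¹ * b * g ∉ XF F none)

/-- anchored axes -/
def Anc (F : Bool → Subgroup (MM Γ a)) (b : MM Γ a) : Prop :=
  Prim b ∧ Cen b ∧ ((∃ o, Typ F o b) ∨ ∀ h ∈ F false ⊔ F true, NE b h)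

/-- short insides of junctions -/
def Short {G : Type} (t : Tg Γ a) (z : List (Tg Γ a × G)) (t' : Tg Γ a) : Prop :=
  z = [] ∨ (∃ c c' m, t = .inr c ∧ t' = .inr c' ∧ z = [(.inl none, m)]) ∨
    ∃ o o' c e, t = .inl o ∧ t' = .inl o' ∧ z = [(.inr c, e)]

namespace Cv

variable {F : Bool → Subgroup (MM Γ a)} {G : Type} [Group G] (C : Cv F G)

/-- admissible syllables -/
def ok (s : Tg Γ a × G) : Prop := TOK F C.S s.1 ∧ s.2 ∈ C.L s.1
/-- admissible words -/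
def Wd (w : List (Tg Γ a × G)) : Prop := ∀ s ∈ w, C.ok s
/-- the group of values of words -/
def PP : Subgroup G := Subgroup.closure {x | ∃ t, C.ok (t, x)}
/-- the image of a syllable -/
def pr (s : Tg Γ a × G) : Tg Γ a × MM Γ a := (s.1, C.π s.2)
/-- the images of the syllables -/
def vs (w : List (Tg Γ a × G)) : List (MM Γ a) := w.map fun s => C.π s.2
/-- the total length of the syllables -/
def sl (w : List (Tg Γ a × G)) : a.K := ((C.vs w).map ln).sum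
/-- words of least cost in a double coset -/
def CMin (A B : Subgroup G) (w : List (Tg Γ a × G)) : Prop :=
  C.Wd w ∧ ∀ r, C.Wd r → ∀ x ∈ A, ∀ y ∈ B, vl r = x * vl w * y → ct w ≤ ct r
/-- words of least cost in a conjugacy class -/
def CycMin (w : List (Tg Γ a × G)) : Prop :=
  C.Wd w ∧ ∀ r, C.Wd r → ∀ g ∈ C.PP, vl r = g⁻¹ * vl w * g → ct w ≤ ct r
/-- the group of an optional end -/
def LO (e : Option (Tg Γ a × G)) : Subgroup G := e.elim ⊥ fun s => C.L s.1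
/-- only base syllables have images in the base -/
def Nz (w : List (Tg Γ a × G)) : Prop := ∀ s ∈ w, C.π s.2 ∈ XF F none → s.1 = .inl none
/-- exponent syllables with images in the base are trivial -/
def NzE (w : List (Tg Γ a × G)) : Prop :=
  ∀ s ∈ w, ∀ c, s.1 = .inr c → C.π s.2 ∈ XF F none → C.π s.2 = 1
/-- a base syllable between exponent syllables does not identify the axes -/
def HE (s : Tg Γ a × G) (z : List (Tg Γ a × G)) (s' : Tg Γ a × G) : Prop :=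
  ∀ c c' m, s.1 = .inr c → s'.1 = .inr c' → z = [(.inl none, m)] → ¬ Cj (C.π m) c' c
/-- reduced words -/
structure Red (w : List (Tg Γ a × G)) : Prop where
  wd : C.Wd w
  pl : ∀ s ∈ w, ∀ i, s.1 = .inl (some i) → C.π s.2 ∉ XF F none
  ch : w.IsChain fun s s' => RP F (C.pr s) (C.pr s')
  he : ∀ s z s', s :: z ++ [s'] <:+: w → C.HE s z s'
/-- normalised words -/
def PCh (w : List (Tg Γ a × G)) : Prop := w.IsChain fun s s' => Pair F (C.pr s) (C.pr s')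
/-- good junctions -/
structure JOK (s : Tg Γ a × G) (z : List (Tg Γ a × G)) (s' : Tg Γ a × G) : Prop where
  wd : C.Wd (s :: z ++ [s'])
  ch : C.PCh (s :: z ++ [s'])
  min : C.CMin (C.L s.1) (C.L s'.1) z
  he : C.HE s z s'
/-- good words -/
def Good (w : List (Tg Γ a × G)) : Prop :=
  C.Wd w ∧ ∀ s z s', s :: z ++ [s'] <:+: w → C.JOK s z s'
/-- equations between the inside of a junction and short words lift to the cover -/
def Lift (t : Tg Γ a) (z : List (Tg Γ a × G)) (t' : Tg Γ a) : Prop :=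
  ∀ r, C.Wd r → ct r ≤ lb t t' → C.π (vl r) = C.π (vl z) → vl r = vl z
/-- the exceptional cyclic words -/
def Exc (w : List (Tg Γ a × G)) : Prop :=
  ∃ c e m, w ~r [(.inr c, e), (.inl none, m)] ∧ Cj (C.π m) c c
/-- cyclically good words -/
def CG (w : List (Tg Γ a × G)) : Prop :=
  2 ≤ w.length ∧ ∀ s ρ, w ~r s :: ρ → C.Good (s :: ρ ++ [s])

end Cv

theorem EF_conj {F : Bool → Subgroup (MM Γ a)} {b c d x : MM Γ a} (hb : b ∈ XF F none)
    (h : Cj b c d) (hx : x ∈ EF F c) : b * x * b⁻¹ ∈ EF F d := by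
  have k : ∀ i, F i ⊓ Ep c ≤ (EF F d).comap (MulAut.conj b).toMonoidHom := by
    rintro i y ⟨h1, h2⟩
    have h3 : b ∈ F i := by
      cases i
      exacts [hb.1, hb.2]
    have h4 : b * y * b⁻¹ ∈ Ep d := by
      rw [← h, Ep, Subgroup.mem_centralizer_iff]
      rintro _ rfl
      rw [conj_pow, conj_mul, conj_mul, Subgroup.mem_centralizer_iff.1 h2 _ rfl]
    have h5 : b * y * b⁻¹ ∈ F i ⊓ Ep d := ⟨(F i).mul_mem ((F i).mul_mem h3 h1) ((F i).inv_mem h3), h4⟩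
    change b * y * b⁻¹ ∈ EF F d
    cases i
    exacts [Subgroup.mem_sup_left h5, Subgroup.mem_sup_right h5]
  exact sup_le (k false) (k true) hx

/-- the trivial cover -/
def idC (F : Bool → Subgroup (MM Γ a)) : Cv F (MM Γ a) where
  π := MonoidHom.id _
  L := LF F
  S := fun _ => True
  s0 := trivial
  le := fun _ _ _ h => h
  sur := fun _ _ y h => ⟨y, h, rfl⟩
  inj := fun _ _ h => h
  mem := fun _ _ _ _ _ _ h => h
  cj := fun _ _ _ _ _ hb h _ hx => EF_conj hb h hx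

/-- `e` is a left end that carries the axis `b` -/
def EndL (F : Bool → Subgroup (MM Γ a)) (b : MM Γ a) : Tg Γ a × MM Γ a → Prop
  | (.inr c, y) => c = b ∧ b ∈ XF F none ∧ Prim b ∧ Cen b ∧ y = 1
  | (.inl o, y) => o ≠ none ∧ y ∈ XF F o ∧ b ∈ XF F o ∧ Prim b ∧ Cen b

/-- the axis of a left end in a factor is not carried into the base -/
def Far (F : Bool → Subgroup (MM Γ a)) (b : MM Γ a) (e : Tg Γ a × MM Γ a) : Prop :=
  ∀ o, e.1 = .inl o → e.2⁻¹ * b * e.2 ∉ XF F none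

/-- words whose first syllable has the type of the axis -/
def SolL (o : Option Bool) (w : List (Tg Γ a × MM Γ a)) : Prop :=
  o ≠ none → ∃ s ∈ w.head?, s.1 = .inl o

/-- words that are geodesic at all scales above their length -/
structure Nice (F : Bool → Subgroup (MM Γ a)) (w : List (Tg Γ a × MM Γ a)) : Prop where
  wd : (idC F).Wd w
  nz : (idC F).NzE w
  geo : ∀ ν, Big ν → Ls ((idC F).sl w) ν → Geo ν ((idC F).vs w)

/-- normalised words with ends that carry the axes `b`, `b'` -/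
structure XW (F : Bool → Subgroup (MM Γ a)) (b b' : MM Γ a) (e : Option (Tg Γ a × MM Γ a))
    (u : List (Tg Γ a × MM Γ a)) (e' : Option (Tg Γ a × MM Γ a)) : Prop where
  l : ∀ s ∈ e, EndL F b s ∧ NE b s.2⁻¹
  r : ∀ s ∈ e', EndL F b' (sinv s) ∧ NE b' s.2
  good : (idC F).Good (xw e u e')
  nz : (idC F).Nz u

/-- only the last syllable is long, and it is in the base or in a factor -/
def LastX (F : Bool → Subgroup (MM Γ a)) (ν : a.K) (w : List (Tg Γ a × MM Γ a)) : Prop :=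
  ∃ z s o, w = z ++ [s] ∧ s.1 = .inl o ∧ Ll ((idC F).sl z) ν

/-- the group generated by the base and the exponents of the elements of `S` -/
def NS (F : Bool → Subgroup (MM Γ a)) (S : Set (MM Γ a)) : Subgroup (MM Γ a) :=
  XF F none ⊔ ⨆ c ∈ S, EF F c

/-- the exponents of `c` and the flips in the base -/
def EPM (F : Bool → Subgroup (MM Γ a)) (c : MM Γ a) : Subgroup (MM Γ a) :=
  EF F c ⊔ (XF F none ⊓ IE c)

/-- the centred primitive elements of the base -/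
def PM (F : Bool → Subgroup (MM Γ a)) : Set (MM Γ a) := {c | c ∈ XF F none ∧ Prim c ∧ Cen c}

/-- the base with the exponents from one factor -/
def MI (F : Bool → Subgroup (MM Γ a)) (i : Bool) : Subgroup (MM Γ a) :=
  XF F none ⊔ ⨆ c ∈ PM F, F i ⊓ Ep c

/-- an instance of the rigidity statement -/
structure RI (F : Bool → Subgroup (MM Γ a)) (o : Option Bool) (b : MM Γ a) (o' : Option Bool)
    (d : MM Γ a) (w w' : List (Tg Γ a × MM Γ a)) (f f' : MM Γ a) : Prop where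
  tb : Typ F o b
  td : Typ F o' d
  wd : (idC F).Wd w
  wd' : (idC F).Wd w'
  l : SolL o w
  l' : SolL o w'
  r : SolL o' (winv w)
  r' : SolL o' (winv w')
  eb : f ∈ Ep b
  ed : f' ∈ Ep d
  eq : f * vl w' = vl w * f'
  nc : ¬ Cj (vl w) d b

end Pool.Agent.P.MP_dba3d2_lc


end

section

/-! Interface, chapter C1: group theory, tree lemmas and value level statements for two factors. -/

namespace Pool.Agent.P.MP_dba3d2_lc

open Filter

-- deps: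
def S_C_AM1 : Prop := ∀ (G : Type) [Group G] (X Y C : Subgroup G), C ≤ X → C ≤ Y → UnivP X Y C →
  RedNT (fun i => bif i then Y else X) C

-- deps: C2_STARFIN
def S_C_AM2 : Prop := ∀ (G : Type) [Group G] (A : Bool → Subgroup G) (C : Subgroup G),
  (∀ i, C ≤ A i) → RedNT A C → ∀ K : Subgroup G, K ≤ A false ⊔ A true → Finite K →
    ∃ p ∈ A false ⊔ A true, ∃ i, ∀ k ∈ K, p⁻¹ * k * p ∈ A i

-- deps:
def S_C_GRAPH : Prop := ∀ (G G' : Type) [Group G] [Group G'] (X Y : Subgroup G) (θ0 : X →* G')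
  (θ1 : Y →* G') (H : Subgroup (G × G')), (∀ x : X, ((x : G), θ0 x) ∈ H) →
  (∀ y : Y, ((y : G), θ1 y) ∈ H) → (∀ g, ((1 : G), g) ∈ H → g = 1) →
    ∃ θ : ↥(X ⊔ Y) →* G', (∀ x : X, θ ⟨x, (le_sup_left : X ≤ X ⊔ Y) x.2⟩ = θ0 x) ∧
      ∀ y : Y, θ ⟨y, (le_sup_right : Y ≤ X ⊔ Y) y.2⟩ = θ1 y

-- deps: ELEM
-- imports: Pool.Agent.P.MP_dba3d2_lc.C.LTb
def S_C_TORQ : Prop := ∀ (Γ : HG) (a : Amb) (c : MM Γ a), ¬ IsOfFinOrder c →
  ∃ (Q : Type) (_ : CommGroup Q) (φ : Ep c →* Q), (∀ f : Ep c, φ f = 1 ↔ IsOfFinOrder (f : MM Γ a)) ∧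
    ∀ g, InE c g → g ∉ Ep c → ∀ f f' : Ep c, (f' : MM Γ a) = g * f * g⁻¹ → φ f' = (φ f)⁻¹

-- deps:
-- imports: Pool.Agent.P.MP_dba3d2_lc.C.LTb
def S_C_PATH : Prop := ∀ (Γ : HG) (a : Amb) (ν : a.K) (X : Type) (v : X → MM Γ a) (L : List X),
  Big ν → ¬ Geo ν (L.map v) → ∃ (A : List X) (s : X) (z : List X) (s' : X) (B : List X),
    L = A ++ s :: z ++ s' :: B ∧ Ls ν (ln (v s)) ∧
    Ls ν (ln (v s')) ∧ Ll ((z.map v).map ln).sum ν ∧
    ∃ q, Ls ν (ln q) ∧ On ν q 1 (v s)⁻¹ ∧ On ν (((z.map v).prod)⁻¹ * q) 1 (v s')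

-- deps:
-- imports: Pool.Agent.P.MP_dba3d2_lc.C.LTb
def S_C_FIRST : Prop := ∀ (Γ : HG) (a : Amb) (ν : a.K) (X : Type) (v : X → MM Γ a) (L : List X)
  (q : MM Γ a), Big ν → Geo ν (L.map v) → Ls ν (ln q) → On ν q 1 (L.map v).prod →
  ∃ (z : List X) (s : X) (B : List X), L = z ++ s :: B ∧ Ll ((z.map v).map ln).sum ν ∧ Ls ν (ln (v s)) ∧
    ∃ q', Ls ν (ln q') ∧ On ν q' 1 q ∧ On ν (((z.map v).prod)⁻¹ * q') 1 (v s)

-- deps:
-- imports: Pool.Agent.P.MP_dba3d2_lc.C.LTb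
def S_C_PROJ : Prop := ∀ (Γ : HG) (a : Amb) (b y : MM Γ a), Prim b → Cen b → NE b y →
  Ls (ln y) (ln (y * b * y⁻¹)) ∧ ∀ μ, Big μ → Ll (md b) μ → Ls (ln y) μ →
    (∀ r, Ll (ds r (b * r)) μ → On μ 1 y⁻¹ r) ∧ Ll (2 * ln y - ln (y * b * y⁻¹)) μ

-- deps: C_PROJ
-- imports: Pool.Agent.P.MP_dba3d2_lc.C.LTb
def S_C_BRIDGE : Prop := ∀ (Γ : HG) (a : Amb) (b b' h : MM Γ a), Prim b → Cen b → Prim b' → Cen b' →
  NE b h⁻¹ → NE b' h → ∀ q,
    Ls (ln b + ln (h * b' * h⁻¹)) (ds q (b * q) + ds q (h * b' * h⁻¹ * q))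

-- deps: ELEM LINE
-- imports: Pool.Agent.P.MP_dba3d2_lc.C.LTb
def S_C_DISP : Prop := ∀ (Γ : HG) (a : Amb) (b c : MM Γ a), Prim b → c ∈ Ep b →
  (∀ x, Ls (ds x (c * x)) (md c + ds x (b * x))) ∧
  (Ls (md c) (md b) → ∃ n : ℤ, IsOfFinOrder (c⁻¹ * b ^ n)) ∧
  (Ll (md b) (md c) → ¬ IsOfFinOrder c ∧ Big (md c) ∧ (Cen c → ∃ (N : ℕ) (p q : MM Γ a),
    Ls (ln c) (ds p q) ∧ On (ln c) p 1 (c ^ N) ∧ On (ln c) q 1 (c ^ N) ∧ Stab (ln c) p q b))

-- deps: ELEM LINE PERC C_PROJ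
-- imports: Pool.Agent.P.MP_dba3d2_lc.C.LTb
def S_C_TWOBR : Prop := ∀ (Γ : HG) (a : Amb) (ν : a.K) (b d w w' f f' : MM Γ a), Prim b → Cen b →
  Prim d → Cen d → NE b w⁻¹ → NE b w'⁻¹ → NE d w → NE d w' → f ∈ Ep b → f' ∈ Ep d →
  f * w' = w * f' → ¬ Cj w d b → Big ν → Ll (md b) ν → Ll (md d) ν →
  Ls (ln f + ln f' + ln w + ln w') ν → Ll (ln f) ν ∧ Ll (ln f') ν

-- deps: ELEM ROOT
-- imports: Pool.Agent.P.MP_dba3d2_lc.C.TTb
def S_C_EMEM : Prop := ∀ (Γ : HG) (a : Amb) (F : Bool → Subgroup (MM Γ a)), TwoF F →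
  ∀ c ∈ XF F none, ¬ IsOfFinOrder c → ∀ i, ∀ e ∈ EF F c,
    ∃ x ∈ F i, ∃ y ∈ F (!i), x ∈ Ep c ∧ y ∈ Ep c ∧ e = x * y

-- deps: C_TORQ C_EMEM
-- imports: Pool.Agent.P.MP_dba3d2_lc.C.TTb
def S_C_PURE : Prop := ∀ (Γ : HG) (a : Amb) (F : Bool → Subgroup (MM Γ a)), TwoF F →
  ∀ c ∈ XF F none, Prim c → ∀ f ∈ EF F c, ∀ n : ℕ, 0 < n →
    ∃ f' ∈ EF F c, ∃ r : ℕ, IsOfFinOrder (f⁻¹ * (f' ^ n * c ^ r))

-- deps: ELEM ROOT C_TORQ C_PURE
-- imports: Pool.Agent.P.MP_dba3d2_lc.C.TTb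
def S_C_FINE : Prop := ∀ (Γ : HG) (a : Amb) (F : Bool → Subgroup (MM Γ a)), TwoF F →
  ∀ c ∈ PM F, ∀ K : Subgroup (MM Γ a), K ≤ EPM F c → Finite K →
    ∃ p ∈ EF F c, ∀ k ∈ K, p⁻¹ * k * p ∈ XF F none

-- deps: ELEM LINE ROOT
-- imports: Pool.Agent.P.MP_dba3d2_lc.C.TTb
def S_C_ARC : Prop := ∀ (Γ : HG) (a : Amb) (F : Bool → Subgroup (MM Γ a)), TwoF F →
  ∀ (ν : a.K) (t : Tg Γ a) (y p q : MM Γ a), Big ν → TOK F (fun _ => True) t → y ∈ LF F t →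
    (∀ c, t = .inr c → y ∉ XF F none) → Ls (ln y) ν → On ν p 1 y → On ν q 1 y → Arc F ν t y p q

-- deps: ELEM PERC
-- imports: Pool.Agent.P.MP_dba3d2_lc.C.TTb
def S_C_J0 : Prop := ∀ (Γ : HG) (a : Amb) (F : Bool → Subgroup (MM Γ a)), TwoF F →
  ∀ (ν : a.K) (t t' : Tg Γ a) (y y' z p q : MM Γ a), Big ν → Ls ν (ds p q) →
    TOK F (fun _ => True) t → TOK F (fun _ => True) t' → y ∈ LF F t → y' ∈ LF F t' →
    Arc F ν t y p q → Arc F ν t' y' (z⁻¹ * p) (z⁻¹ * q) →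
    (∃ o o', t = .inl o ∧ t' = .inl o' ∧ ∃ g ∈ XF F o, ∃ g' ∈ XF F o', z = g * g') ∨
    ∃ b b', Att F ν t y p q b ∧ Att F ν t' y' (z⁻¹ * p) (z⁻¹ * q) b' ∧ Cj z b' b

-- deps: ELEM PERC ROOT
-- imports: Pool.Agent.P.MP_dba3d2_lc.C.TTb
def S_C_JS0 : Prop := ∀ (Γ : HG) (a : Amb) (F : Bool → Subgroup (MM Γ a)), TwoF F →
  ∀ (ν : a.K) (s s' : Tg Γ a × MM Γ a), Big ν → (idC F).ok s → (idC F).ok s' → Pair F s s' →
    ¬ Ovp F ν s 1 s'

-- deps: ELEM LINE ROOT RIG C_EMEM C_J0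
-- imports: Pool.Agent.P.MP_dba3d2_lc.C.TTb
def S_C_JS2 : Prop := ∀ (Γ : HG) (a : Amb) (F : Bool → Subgroup (MM Γ a)), TwoF F →
  ∀ (ν : a.K) (o o' : Option Bool) (y y' c e : MM Γ a), Big ν → y ∈ XF F o → y' ∈ XF F o' →
    c ∈ PM F → e ∈ EF F c → NE c y → (∀ g ∈ XF F o, ∀ g' ∈ XF F o', e ≠ g * g') →
    ¬ Ovp F ν (.inl o, y) e (.inl o', y')

-- deps: ELEM LINE NP ROOT
-- imports: Pool.Agent.P.MP_dba3d2_lc.C.TTb
def S_C_R2A : Prop := ∀ (Γ : HG) (a : Amb) (F : Bool → Subgroup (MM Γ a)), TwoF F →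
  ∀ o o', ∀ b ∈ XF F o, ∀ b' ∈ XF F o', Prim b → Prim b' → ∀ x, Cj x b' b →
    Ll (ln x) (ln b + ln b') → ∃ g ∈ XF F o, ∃ g' ∈ XF F o', x = g * g'

-- deps: ROOT
-- imports: Pool.Agent.P.MP_dba3d2_lc.C.TTb
def S_C_TFF : Prop := ∀ (Γ : HG) (a : Amb) (F : Bool → Subgroup (MM Γ a)), TwoF F →
  ∀ o o' i j, (o = none ∨ o = some i) → (o' = none ∨ o' = some j) → ∀ g ∈ F i, ∀ g' ∈ F j,
    TC F o o' (g * g')

-- deps: ELEM LINE ROOT NORM C_TFF
-- imports: Pool.Agent.P.MP_dba3d2_lc.C.TTb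
def S_C_R2B : Prop := ∀ (Γ : HG) (a : Amb) (F : Bool → Subgroup (MM Γ a)), TwoF F →
  ∀ o o', ∀ b ∈ XF F o, ∀ b' ∈ XF F o', Prim b → Prim b' → Cen b → Cen b' → ∀ h, Cj h b' b →
    Ls (ln h) (md b) → TC1 F o o' b b' h

-- deps: ROOT
-- imports: Pool.Agent.P.MP_dba3d2_lc.C.TTb
def S_C_REDX : Prop := ∀ (Γ : HG) (a : Amb) (F : Bool → Subgroup (MM Γ a)), TwoF F →
  ∀ o o', ∀ b ∈ XF F o, ∀ b' ∈ XF F o', Prim b → Prim b' → ∀ x, Cj x b' b →
    ∃ o1 b1, Typ F o1 b1 ∧ (o1 ≠ none → o = o1 ∧ o' = o1) ∧ ∃ g ∈ XF F o, ∃ g' ∈ XF F o',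
      ∃ f ∈ Ep b1, x = g * f * g'⁻¹ ∧ Cj g b1 b ∧ Cj g' b1 b'

-- deps: ROOT NORM
-- imports: Pool.Agent.P.MP_dba3d2_lc.C.TTb
def S_C_PRE : Prop := ∀ (Γ : HG) (a : Amb) (F : Bool → Subgroup (MM Γ a)), TwoF F →
  ∀ (i : Bool) (b y : MM Γ a) (t : Tg Γ a), b ∈ F i → Prim b → Cen b → y ∈ F i →
    y⁻¹ * b * y ∉ XF F none → (t = .inl (some (!i)) ∨ ∃ c ∈ PM F, t = .inr c) →
    ∃ f ∈ F i, f ∈ Ep b ∧ ∃ g ∈ F i, g ∈ LF F t ∧ NE b (f * y * g)⁻¹ ∧
      ∀ y1, (t = .inl (some (!i)) → y1 ∉ XF F none) → Pair F (.inl (some i), f * y * g) (t, y1)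

-- deps: ELEM ROOT C_INJ C_GRAPH
-- imports: Pool.Agent.P.MP_dba3d2_lc.C.TTb
def S_C_EXT2 : Prop := ∀ (Γ : HG) (a : Amb) (F : Bool → Subgroup (MM Γ a)), TwoF F →
  Ext2 (F false) (F true)

-- deps: ELEM ROOT C_EXT2
-- imports: Pool.Agent.P.MP_dba3d2_lc.C.TTb
def S_C_UP : Prop := ∀ (Γ : HG) (a : Amb) (F : Bool → Subgroup (MM Γ a)), TwoF F →
  ∀ i, UnivP (F i) (NS F (PM F) ⊔ F (!i)) (MI F i)

-- deps: ELEM C_INJ C_GRAPH
-- imports: Pool.Agent.P.MP_dba3d2_lc.C.TTb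
def S_C_UPN : Prop := ∀ (Γ : HG) (a : Amb) (F : Bool → Subgroup (MM Γ a)), TwoF F →
  ∀ c ∈ PM F, UnivP (NS F {d | d ∈ PM F ∧ ¬ ∃ b ∈ XF F none, Cj b c d}) (EPM F c)
    (XF F none ⊓ IE c)

-- deps: C_AM1 C_AM2 C_UPN C_FINE
-- imports: Pool.Agent.P.MP_dba3d2_lc.C.TTb
def S_C_FINN : Prop := ∀ (Γ : HG) (a : Amb) (F : Bool → Subgroup (MM Γ a)), TwoF F →
  ∀ K : Subgroup (MM Γ a), K ≤ NS F (PM F) → Finite K →
    ∃ p ∈ NS F (PM F), ∀ k ∈ K, p⁻¹ * k * p ∈ XF F none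

-- deps: C_AM1 C_AM2 C_UP C_FINN
-- imports: Pool.Agent.P.MP_dba3d2_lc.C.TTb
def S_C_FINP : Prop := ∀ (Γ : HG) (a : Amb) (F : Bool → Subgroup (MM Γ a)), TwoF F →
  FinRed (F false ⊔ F true) (F false) (F true)

-- deps: ELEM LINE PERC ROOT NORM TRUNC
-- imports: Pool.Agent.P.MP_dba3d2_lc.C.LTb
def S_C_GRTW : Prop := ∀ (Γ : HG) (a : Amb) (H W : Subgroup (MM Γ a)), GC0 H → GC0 W → Sep H W →
  TwoF fun i => bif i then W else H

end Pool.Agent.P.MP_dba3d2_lc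


end
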