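import Pool.Agent.P.MP_dba3d2_lcM.Bb10
import Pool.Agent.P.MP_dba3d2_lcM.Cb11

section

/-! Toolbox for the adjunctions at the top scale: words, geodesic lists, exponents. -/

namespace Pool.Agent.P.MP_dba3d2_lc

open Filter

section words
variable {G : Type} [Group G] {Λ ι : Type} {v : Λ → G} {B : Subgroup G} {P : Λ → G → Λ → Prop}
  {s s' : G × Λ} {l l' : List (G × Λ)}

@[simp] theorem wval_nil : wval v [] = 1 := rfl
@[simp] theorem wval_cons : wval v (s :: l) = s.1 * v s.2 * wval v l := by simp [wval]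
theorem wval_append : wval v (l ++ l') = wval v l * wval v l' := by simp [wval]
@[simp] theorem wflat_nil : wflat v [] = [] := rfl
@[simp] theorem wflat_cons : wflat v (s :: l) = s.1 :: v s.2 :: wflat v l := by simp [wflat]
theorem wflat_append : wflat v (l ++ l') = wflat v l ++ wflat v l' := by simp [wflat]
theorem wflat_prod : (wflat v l).prod = wval v l := by
  induction l with
  | nil => rfl
  | cons s l ih => simp [ih, mul_assoc]
theorem mem_wflat {x : G} (h : x ∈ wflat v l) : ∃ s ∈ l, x = s.1 ∨ x = v s.2 := by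
  simpa [wflat] using h
theorem WRed.nil : WRed B P [] := ⟨by simp, List.IsChain.nil⟩
theorem WRed.tail (h : WRed B P (s :: l)) : WRed B P l :=
  ⟨fun x hx => h.1 x (List.mem_cons_of_mem _ hx), h.2.tail⟩
theorem WRed.mem (h : WRed B P (s :: l)) : s.1 ∈ B := h.1 s List.mem_cons_self
theorem WRed.np (h : WRed B P (s :: s' :: l)) : ¬ P s.2 s'.1 s'.2 := (List.isChain_cons_cons.1 h.2).1
theorem WRed.head (h : WRed B P (s :: l)) {β : G} (hβ : β ∈ B) : WRed B P ((β, s.2) :: l) := by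
  refine ⟨fun x hx => ?_, ?_⟩
  · rcases List.mem_cons.1 hx with rfl | hx
    · exact hβ
    · exact h.tail.1 x hx
  · cases l with
    | nil => exact List.isChain_singleton _
    | cons y l => exact List.isChain_cons_cons.2 ⟨h.np, h.tail.2⟩
theorem WRed.left (h : WRed B P (l ++ l')) : WRed B P l :=
  ⟨fun x hx => h.1 x (List.mem_append_left _ hx), h.2.left_of_append⟩
theorem WRed.right (h : WRed B P (l ++ l')) : WRed B P l' :=
  ⟨fun x hx => h.1 x (List.mem_append_right _ hx), h.2.right_of_append⟩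
theorem wval_mem {T : Subgroup G} (h1 : B ≤ T) (h2 : ∀ s, v s ∈ T) (h : ∀ s ∈ l, s.1 ∈ B) :
    wval v l ∈ T := by
  refine T.list_prod_mem fun x hx => ?_
  obtain ⟨s, hs, rfl⟩ := List.mem_map.1 hx
  exact mul_mem (h1 (h s hs)) (h2 _)
@[simp] theorem hv_true (u : ι → G) (i : ι) : hv u (i, true) = u i := rfl
@[simp] theorem hv_false (u : ι → G) (i : ι) : hv u (i, false) = (u i)⁻¹ := rfl
theorem hws (B : Subgroup G) (u : ι → G) : WS B (hv u) (HP B u) :=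
  ⟨fun ⟨i, ε⟩ => ⟨(i, !ε), by cases ε <;> simp⟩, fun _ _ _ _ h => Or.inl h.2.2⟩
theorem closure_hv (u : ι → G) :
    Subgroup.closure (Set.range (hv u)) = Subgroup.closure (Set.range u) := by
  refine le_antisymm ((Subgroup.closure_le _).2 ?_) (Subgroup.closure_mono ?_)
  · rintro _ ⟨⟨i, ε⟩, rfl⟩
    have h : u i ∈ Subgroup.closure (Set.range u) := Subgroup.subset_closure ⟨i, rfl⟩
    cases ε
    exacts [inv_mem h, h]
  · rintro _ ⟨i, rfl⟩
    exact ⟨(i, true), rfl⟩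
theorem hv_mem (B : Subgroup G) (u : ι → G) (s : ι × Bool) :
    hv u s ∈ B ⊔ Subgroup.closure (Set.range u) := by
  rw [← closure_hv]
  exact Subgroup.mem_sup_right (Subgroup.subset_closure ⟨s, rfl⟩)
end words

variable {Γ : HG} {a : Amb} {μ : a.K} {c d d' g h m p q r t u w x y z : MM Γ a}
  {L L₁ L₂ : List (MM Γ a)}

theorem on_one_iff : On μ 1 x⁻¹ y ↔ Ll (ln x + ln y - ln (x * y)) μ := by
  simp [On, ds]
theorem on_mul_self_iff : On μ x 1 (x * y) ↔ Ll (ln x + ln y - ln (x * y)) μ := by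
  simp [On, ds]
theorem on_one_iff' : On μ 1 x⁻¹ y ↔ On μ x 1 (x * y) := on_one_iff.trans on_mul_self_iff.symm
theorem not_ovl_iff (hμ : Big μ) : ¬ Ovl μ g h ↔ On μ 1 g h := by
  rw [Ovl, ← not_ll_iff' hμ.pos, not_not]
  simp [On]

/-- two segments from `1` that do not form a segment have a common initial segment -/
theorem exists_ovl (hμ : Big μ) (hn : ¬ On μ 1 g h) :
    ∃ q, Ls μ (ln q) ∧ On μ q 1 g ∧ On μ q 1 h := by
  obtain ⟨q, h1, h2⟩ := exists_median g h 1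
  refine ⟨q, (ll_or_ls hμ.pos _).resolve_left fun e => hn ?_, (h2 μ hμ).1.symm, (h2 μ hμ).2.symm⟩
  exact (On.of_eq hμ.pos.le h1).congr (by simpa using e) (FixA.ll_self hμ.pos.le _)
    (FixA.ll_self hμ.pos.le _)

theorem ln_prod_le (L : List (MM Γ a)) : ln L.prod ≤ (L.map ln).sum := by
  induction L with
  | nil => simp
  | cons x L ih =>
    rw [List.prod_cons, List.map_cons, List.sum_cons]
    exact (ln_mul_le _ _).trans (add_le_add_right ih _)

theorem geo_nil (h0 : 0 ≤ μ) : Geo μ ([] : List (MM Γ a)) := by simpa [Geo] using Ll.zero h0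
theorem geo_single (h0 : 0 ≤ μ) (x : MM Γ a) : Geo μ [x] := by simpa [Geo] using Ll.zero h0

theorem geo_append : Geo μ (L₁ ++ L₂) ↔
    Geo μ L₁ ∧ Geo μ L₂ ∧ On μ L₁.prod 1 (L₁.prod * L₂.prod) := by
  have a1 := ln_prod_le L₁
  have a2 := ln_prod_le L₂
  have a3 := ln_mul_le L₁.prod L₂.prod
  rw [on_mul_self_iff, Geo, Geo, Geo, List.map_append, List.sum_append, List.prod_append]
  exact ⟨fun h => ⟨h.mono_left (by linarith), h.mono_left (by linarith), h.mono_left (by linarith)⟩,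
    fun h => ((h.1.add h.2.1).add h.2.2).mono_left (by linarith)⟩

theorem geo_cons : Geo μ (x :: L) ↔ On μ 1 x⁻¹ L.prod ∧ Geo μ L := by
  have h := geo_append (μ := μ) (L₁ := [x]) (L₂ := L)
  rw [List.singleton_append, List.prod_singleton, ← on_one_iff'] at h
  rw [h]
  exact ⟨fun h => ⟨h.2.2, h.2.1⟩, fun h => ⟨geo_single (Ll.nonneg h.2) x, h.2, h.1⟩⟩

theorem Geo.left (h : Geo μ (L₁ ++ L₂)) : Geo μ L₁ := (geo_append.1 h).1
theorem Geo.right (h : Geo μ (L₁ ++ L₂)) : Geo μ L₂ := (geo_append.1 h).2.1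
/-- the product of an initial part lies on the segment -/
theorem Geo.on (h : Geo μ (L₁ ++ L₂)) : On μ L₁.prod 1 (L₁ ++ L₂).prod := by
  rw [List.prod_append]
  exact (geo_append.1 h).2.2
/-- both ends of a piece lie on the segment, in this order -/
theorem Geo.piece (h : Geo μ (L₁ ++ x :: L₂)) : On μ L₁.prod 1 (L₁ ++ x :: L₂).prod ∧
    On μ (L₁.prod * x) 1 (L₁ ++ x :: L₂).prod ∧ On μ L₁.prod 1 (L₁.prod * x) := by
  refine ⟨h.on, ?_, ?_⟩
  · rw [List.append_cons] at h ⊢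
    simpa only [List.prod_append, List.prod_singleton] using h.on
  · rw [List.append_cons] at h
    simpa only [List.prod_append, List.prod_singleton] using h.left.on
theorem Geo.head (h : Geo μ (x :: L)) : On μ x 1 (x * L.prod) := on_one_iff'.1 (geo_cons.1 h).1
theorem Geo.head2 (h : Geo μ (x :: y :: L)) : On μ x 1 (x * (y * L.prod)) ∧
    On μ (x * y) 1 (x * (y * L.prod)) ∧ On μ x 1 (x * y) := by
  simpa using Geo.piece (L₁ := [x]) h
theorem Geo.ls_mem (hμ : Big μ) (h : Geo μ L) (hx : x ∈ L) (hb : Ls μ (ln x)) :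
    Ls μ (ln L.prod) := by
  obtain ⟨L₁, L₂, rfl⟩ := List.append_of_mem hx
  simpa using On.nondeg hμ h.piece.1 h.piece.2.1 (by rwa [ds_mul_right])
theorem Geo.sim {ν : a.K} (h : Geo μ L) (s : Sim μ ν) (h1 : 0 ≤ ν) : Geo ν L :=
  (s.ll_iff (Ll.nonneg h) h1).1 h

/-- the junction lemma -/
theorem Loc.geo (hμ : Big μ) : ∀ {L : List (MM Γ a)}, Loc μ L → Geo μ L
  | [], _ => geo_nil hμ.pos.le
  | [x], _ => geo_single hμ.pos.le x
  | x :: y :: L, h => by
    have ih : Geo μ (y :: L) := Loc.geo hμ h.2.2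
    refine geo_cons.2 ⟨?_, ih⟩
    rw [List.prod_cons]
    rcases ll_or_ls hμ.pos (ln y) with e | e
    · cases L with
      | nil => simpa using h.1
      | cons w L =>
        obtain ⟨b, o⟩ := h.2.1 e w rfl
        refine (On.glue hμ o ih.head2.2.1 ?_).1
        refine b.of_le_add e hμ.pos 1 ?_
        have := ln_mul_le y⁻¹ (y * w)
        simp only [inv_mul_cancel_left, ln_inv, ds_one_left, Nat.cast_one] at this ⊢
        linarith
    · exact (On.glue hμ h.1 ih.head (by simpa using e)).1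

theorem md_ge (c : MM Γ a) : ln (c * c) - ln c ≤ md c + 2 * (Γ.δ : a.K) := by
  obtain ⟨q, hq⟩ := exists_md_ds c
  have h := ds_four 1 (c * c) (c * q) c
  have e1 : ds (c * q) c = ln q := by simp [ds]
  have e2 : ds (c * c) c = ln c := by simp [ds]
  have e3 : ds 1 (c * q) ≤ ln q + md c := by simpa [hq] using ds_tri 1 q (c * q)
  have e4 : ds (c * c) (c * q) ≤ ln q + md c := by
    have := ds_tri c (c * q) q
    rw [ds_mul_right, ds_comm (c * q), hq] at this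
    rwa [ds_mul_left]
  rw [e1, e2, ds_one_left, ds_one_left c] at h
  rcases max_choice (ds 1 (c * q) + ln c) (ln c + ds (c * c) (c * q)) with e | e <;> rw [e] at h <;>
    linarith

/-- cyclically geodesic elements are hyperbolic -/
theorem Geo.md (hμ : Big μ) (h : Geo μ (L ++ L)) (hb : Ls μ (ln L.prod)) : Ls μ (md L.prod) := by
  have e := on_mul_self_iff.1 (geo_append.1 h).2.2
  refine hb.of_le_add (e.add (hμ.ll_delta Γ).two) hμ.pos 1 ?_
  have := md_ge L.prod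
  rw [Nat.cast_one]
  linarith

/-- the cut lemma: a property of arcs that passes to one half at every cut point passes to an arc
inside one piece -/
theorem Geo.cut (hμ : Big μ) (N : MM Γ a → MM Γ a → Prop) (Z : Prop)
    (hN : ∀ p q, N p q → Ls μ (ds p q))
    (hc : ∀ p q m, N p q → On μ m p q → N p m ∨ N m q ∨ Z) :
    ∀ (L : List (MM Γ a)) (x₀ p q : MM Γ a), Geo μ L → On μ p x₀ (x₀ * L.prod) →
      On μ q x₀ (x₀ * L.prod) → N p q → Z ∨ ∃ L₁ x L₂ p' q', L = L₁ ++ x :: L₂ ∧ N p' q' ∧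
        On μ p' (x₀ * L₁.prod) (x₀ * L₁.prod * x) ∧ On μ q' (x₀ * L₁.prod) (x₀ * L₁.prod * x)
  | [], x₀, p, q, _, hp, hq, h => by
    have := On.nondeg hμ hp hq (hN p q h)
    simp only [List.prod_nil, mul_one, ds_self] at this
    exact absurd this ((Ll.zero hμ.pos.le).not_ls hμ.pos)
  | x :: L, x₀, p, q, hG, hp, hq, h => by
    have h0 := hμ.pos.le
    have hm : On μ (x₀ * x) x₀ (x₀ * (x :: L).prod) := by simpa using hG.head.mul x₀
    have left : ∀ p q, N p q → On μ p x₀ (x₀ * x) → On μ q x₀ (x₀ * x) →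
        Z ∨ ∃ L₁ y L₂ p' q', x :: L = L₁ ++ y :: L₂ ∧ N p' q' ∧
        On μ p' (x₀ * L₁.prod) (x₀ * L₁.prod * y) ∧ On μ q' (x₀ * L₁.prod) (x₀ * L₁.prod * y) :=
      fun p q h hp hq => Or.inr ⟨[], x, L, p, q, rfl, h, by simpa using hp, by simpa using hq⟩
    have right : ∀ p q, N p q → On μ p (x₀ * x) (x₀ * (x :: L).prod) →
        On μ q (x₀ * x) (x₀ * (x :: L).prod) →
        Z ∨ ∃ L₁ y L₂ p' q', x :: L = L₁ ++ y :: L₂ ∧ N p' q' ∧
        On μ p' (x₀ * L₁.prod) (x₀ * L₁.prod * y) ∧ On μ q' (x₀ * L₁.prod) (x₀ * L₁.prod * y) := by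
      intro p q h hp hq
      rw [List.prod_cons, ← mul_assoc] at hp hq
      refine (Geo.cut hμ N Z hN hc L (x₀ * x) p q (geo_cons.1 hG).2 hp hq h).imp id ?_
      rintro ⟨L₁, y, L₂, p', q', rfl, h1, h2, h3⟩
      exact ⟨x :: L₁, y, L₂, p', q', rfl, h1, by simpa only [List.prod_cons, mul_assoc] using h2,
        by simpa only [List.prod_cons, mul_assoc] using h3⟩
    rcases On.total hμ hp hm with a1 | a1 <;> rcases On.total hμ hq hm with a2 | a2
    · exact left p q h a1.1 a2.1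
    · rcases hc p q _ h (On.sub a2.1 a1.1).2 with e | e | e
      exacts [left _ _ e a1.1 (on_right h0 _ _), right _ _ e (on_left h0 _ _) a2.2, Or.inl e]
    · rcases hc p q _ h (On.sub a1.1 a2.1).2.symm with e | e | e
      exacts [right _ _ e a1.2 (on_left h0 _ _), left _ _ e (on_right h0 _ _) a2.1, Or.inl e]
    · exact right p q h a1.2 a2.2

/-- the cut lemma for the data of an adjunction -/
theorem TopD.cut {B T : Subgroup (MM Γ a)} {W S : Set (MM Γ a)} (D : TopD μ B T W S)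
    (N : MM Γ a → MM Γ a → Prop) (Z : Prop) (hN : ∀ p q, N p q → Ls μ (ds p q))
    (hc : ∀ p q m, N p q → On μ m p q → N p m ∨ N m q ∨ Z) (ht : t ∈ T) (x₀ : MM Γ a)
    (hp : On μ p x₀ (x₀ * t)) (hq : On μ q x₀ (x₀ * t)) (h : N p q) :
    Z ∨ ∃ g ∈ T, ∃ w ∈ W, ∃ p' q', N p' q' ∧ On μ p' (x₀ * g) (x₀ * g * w) ∧
      On μ q' (x₀ * g) (x₀ * g * w) := by
  obtain ⟨L, rfl, hG, hL⟩ := D.cov t ht
  refine (Geo.cut D.big N Z hN hc L x₀ p q hG hp hq h).imp id ?_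
  rintro ⟨L₁, x, L₂, p', q', rfl, h1, h2, h3⟩
  obtain ⟨-, g, hg, w, hw, a1, a2⟩ := hL x (by simp)
  have b1 := a1.mul (x₀ * L₁.prod)
  have b2 := a2.mul (x₀ * L₁.prod)
  simp only [mul_one, ← mul_assoc] at b1 b2
  refine ⟨L₁.prod * g, mul_mem (T.list_prod_mem fun y hy => (hL y (by simp [hy])).1) hg, w, hw,
    p', q', h1, ?_, ?_⟩ <;> simp only [← mul_assoc]
  exacts [On.conv D.big b1 b2 h2, On.conv D.big b1 b2 h3]

/-- two points of two segments lie on a segment between ends -/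
theorem hull (hμ : Big μ) {x' y' : MM Γ a} (hp : On μ p x x') (hq : On μ q y y') :
    ∃ u, (u = x ∨ u = x') ∧ ∃ w, (w = y ∨ w = y') ∧ On μ p u w ∧ On μ q u w := by
  obtain ⟨u, hu, h1⟩ : ∃ u, (u = x ∨ u = x') ∧ On μ p u q :=
    (hp.cases hμ q).elim (fun e => ⟨x, Or.inl rfl, e⟩) fun e => ⟨x', Or.inr rfl, e⟩
  obtain ⟨w, hw, h2⟩ : ∃ w, (w = y ∨ w = y') ∧ On μ q w u :=
    (hq.cases hμ u).elim (fun e => ⟨y, Or.inl rfl, e⟩) fun e => ⟨y', Or.inr rfl, e⟩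
  exact ⟨u, hu, w, hw, (On.sub h2.symm h1).1, h2.symm⟩

/-- two fixed sets with a common point cover the segment between their points -/
theorem two_fix (hμ : Big μ) (h1 : Stab μ u x d) (h2 : Stab μ z x d') :
    ∃ m, On μ m u z ∧ Stab μ u m d ∧ Stab μ m z d' := by
  obtain ⟨m, e, k⟩ := exists_median u z x
  exact ⟨m, On.of_eq hμ.pos.le e, ⟨h1.1, fix_conv hμ h1.1 h1.2 (k μ hμ).1⟩,
    ⟨fix_conv hμ h2.1 h2.2 (k μ hμ).2, h2.1⟩⟩

/-- primitive periods of subsegments of segments of `H` are in `H` -/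
theorem GC0.per_mem (hE : S_ELEM) (hP : S_PERC) (hR : S_ROOT) {H : Subgroup (MM Γ a)} (hH : GC0 H)
    (hμ : Big μ) (hx : x ∈ H) (hy : y ∈ H) (h1 : Ls (ds x y) μ) (hn : Ls μ (ds p q))
    (hp : On μ p x y) (hq : On μ q x y) (hd : Prim d) (hs : Stab μ p q d) : d ∈ H := by
  obtain ⟨c, hc, c1, c2⟩ := hH.g20' hμ hx hy h1 hn hp hq ⟨d, hd.1, hs⟩
  exact (hR Γ a H hH).2.2.2.1 c hc c1.1 d hd (Ep_eq_of_stab hE hP hμ hn hd.1 c1.1 hs c2)

theorem ball_ls (hμ : Big μ) {T : Subgroup (MM Γ a)} (hT : T ≤ ball Γ μ) (ht : t ∈ T) :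
    Ls (ln t) μ := (mem_ball hμ.pos.le).1 (hT ht)
theorem ball_ds (hμ : Big μ) {T : Subgroup (MM Γ a)} (hT : T ≤ ball Γ μ) (hx : x ∈ T)
    (hy : y ∈ T) : Ls (ds x y) μ := ball_ls hμ hT (mul_mem (inv_mem hx) hy)
/-- a centred element with small displacement is short -/
theorem Cen.ll (h : Cen c) (hm : Ll (md c) μ) : Ll (ln c) μ := Ll.ls_left h hm

/-- a short primitive element fixes the segments to the elements of its closure -/
theorem Prim.stab_ep (hE : S_ELEM) (hL : S_LINE) (hc : Prim c) (h : Ll (ln c) μ) (hx : x ∈ Ep c) :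
    Stab μ 1 x c := by
  have h1 : Ll (ds 1 (c * 1)) μ := by rwa [ds_one_mul]
  refine ⟨h1, ?_⟩
  have := (hc.conj' x).fix hE hL hc.1 (Ep_conj_mem' hx) h1
  rwa [disp_conj', mul_one] at this

theorem addNF_of (hμ : Big μ) {B T : Subgroup (MM Γ a)} {X : Set (MM Γ a)} (hT : T ≤ ball Γ μ)
    (top : ∀ t ∈ T, t ∉ B → Ls μ (ln t)) (hX : ∀ x ∈ B, x ∈ X)
    (h : ∀ t ∈ T, ∃ L : List (MM Γ a), L.prod = t ∧ Geo μ L ∧ ∀ x ∈ L, x ∈ X) : AddNF T X := by
  intro g hg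
  by_cases e : g ∈ B
  · exact ⟨[g], by simpa using hX g e, by simp, fun _ => by simpa using Ll.zero (ln_nonneg g),
      fun _ => rfl⟩
  · obtain ⟨L, rfl, h1, h2⟩ := h g hg
    exact ⟨L, h2, rfl, fun _ => h1.sim ⟨top _ hg e, ball_ls hμ hT hg⟩ (ln_nonneg _),
      fun n => absurd (hμ.of_ls (top _ hg e)) n⟩

/-! exponents -/
section exps
variable {k : ℚ →+ a.Z} {B : Subgroup (MM Γ a)} {b f : MM Γ a}

theorem es_add (c : MM Γ a) (k : ℚ →+ a.Z) (q q' : ℚ) :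
    ipow c (k (q + q')) = ipow c (k q) * ipow c (k q') := by rw [map_add, ipow_add]
theorem es_zero (c : MM Γ a) (k : ℚ →+ a.Z) : ipow c (k 0) = 1 := by rw [map_zero, ipow_zero]
theorem es_neg (c : MM Γ a) (k : ℚ →+ a.Z) (q : ℚ) : ipow c (k (-q)) = (ipow c (k q))⁻¹ := by
  rw [map_neg, ipow_neg]
theorem es_pow (c : MM Γ a) (k : ℚ →+ a.Z) (q : ℚ) (n : ℕ) :
    ipow c (k q) ^ n = ipow c (k (n * q)) := by
  rw [ipow_pow, ← nsmul_eq_mul, map_nsmul, nsmul_eq_mul, mul_comm]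
theorem es_eq (c : MM Γ a) (k : ℚ →+ a.Z) (q : ℚ) :
    ipow c (k q) = ipow (c ^ Γ.e) (k (q / Γ.e)) := by
  have h : (Γ.e : ℚ) ≠ 0 := Nat.cast_ne_zero.2 Γ.good.pos.ne'
  rw [ipow_pow', es_pow, mul_div_cancel₀ _ h]
theorem es_comm (hf : f ∈ Ep c) (k : ℚ →+ a.Z) (q : ℚ) : Commute f (ipow c (k q)) := by
  rw [es_eq]
  exact commute_ipow (mem_Ep.1 hf) _
theorem es_flip (h1 : InE c b) (h2 : b ∉ Ep c) (k : ℚ →+ a.Z) (q : ℚ) :
    b * ipow c (k q) * b⁻¹ = ipow c (k (-q)) := by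
  have e : b * c ^ Γ.e * b⁻¹ = (c ^ Γ.e)⁻¹ :=
    h1.resolve_left fun e => h2 (mem_Ep.2 (mul_inv_eq_iff_eq_mul.1 e))
  rw [es_neg, es_eq, ← ipow_conj, e, ipow_inv, ipow_neg]
theorem es_inE (h : InE c b) (k : ℚ →+ a.Z) : ∃ ε : ℚ, (ε = 1 ∨ ε = -1) ∧
    ∀ q, b * ipow c (k q) = ipow c (k (ε * q)) * b := by
  by_cases e : b ∈ Ep c
  · exact ⟨1, Or.inl rfl, fun q => by rw [one_mul, (es_comm e k q).eq]⟩
  · exact ⟨-1, Or.inr rfl, fun q => by rw [neg_one_mul, ← es_flip h e, inv_mul_cancel_right]⟩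
theorem ews (B : Subgroup (MM Γ a)) (c : MM Γ a) (k : ℚ →+ a.Z) : WS B (ev c k) (EP c) := by
  refine ⟨fun s => ⟨⟨-s.1, neg_ne_zero.2 s.2⟩, es_neg c k s.1⟩, fun s b s' hb h => ?_⟩
  obtain ⟨ε, -, e⟩ := es_inE h k
  have e' : ev c k s * b * ev c k s' = ipow c (k (s.1 + ε * s'.1)) * b := by
    rw [es_add, mul_assoc, mul_assoc, ← e]
    rfl
  by_cases h0 : s.1 + ε * s'.1 = 0
  · exact Or.inl (by rwa [e', h0, es_zero, one_mul])
  · exact Or.inr ⟨⟨_, h0⟩, 1, one_mem _, b, hb, by rw [e', one_mul]; rfl⟩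
theorem WRed.ep_tail {s : MM Γ a × {q : ℚ // q ≠ 0}} {l : List (MM Γ a × {q : ℚ // q ≠ 0})}
    (h : WRed B (EP c) (s :: l)) : ∀ s' ∈ l, s'.1 ∈ B ∧ ¬ InE c s'.1 := by
  induction l generalizing s with
  | nil => simp
  | cons y l ih =>
    intro s' hs
    rcases List.mem_cons.1 hs with rfl | hs
    exacts [⟨h.tail.mem, h.np⟩, ih h.tail s' hs]
theorem es_mem (B : Subgroup (MM Γ a)) (c : MM Γ a) (k : ℚ →+ a.Z) (q : ℚ) :
    ipow c (k q) ∈ ET B c k := Subgroup.mem_sup_right (Subgroup.subset_closure ⟨q, rfl⟩)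
theorem le_ET (B : Subgroup (MM Γ a)) (c : MM Γ a) (k : ℚ →+ a.Z) : B ≤ ET B c k := le_sup_left
theorem ET_eq (B : Subgroup (MM Γ a)) (c : MM Γ a) (k : ℚ →+ a.Z) :
    ET B c k = B ⊔ Subgroup.closure (Set.range (ev c k)) := by
  refine le_antisymm (sup_le le_sup_left ((Subgroup.closure_le _).2 ?_))
    (sup_le (le_ET B c k) ((Subgroup.closure_le _).2 ?_))
  · rintro _ ⟨q, rfl⟩
    by_cases h : q = 0
    · simp only [h, es_zero]
      exact one_mem _
    · exact Subgroup.mem_sup_right (Subgroup.subset_closure ⟨⟨q, h⟩, rfl⟩)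
  · rintro _ ⟨q, rfl⟩
    exact es_mem B c k q.1
theorem SE.mem {e : MM Γ a} (h : e ∈ SE B c k) : e ∈ ET B c k ∧ e ∈ Ep c := by
  obtain ⟨f, h1, h2, q, -, rfl⟩ := h
  exact ⟨mul_mem (le_ET B c k h1) (es_mem B c k q), mul_mem h2 (ipow_mem_Ep c _)⟩
theorem SE.mul {e f' : MM Γ a} (h : e ∈ SE B c k) (h1 : f ∈ B) (h2 : f ∈ Ep c) (h3 : f' ∈ B)
    (h4 : f' ∈ Ep c) : f * e * f' ∈ SE B c k := by
  obtain ⟨g, a1, a2, q, hq, rfl⟩ := h
  exact ⟨f * g * f', mul_mem (mul_mem h1 a1) h3, mul_mem (mul_mem h2 a2) h4, q, hq, by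
    simp only [mul_assoc, (es_comm h4 k q).eq]⟩
theorem ev_mem_SE (B : Subgroup (MM Γ a)) (c : MM Γ a) (k : ℚ →+ a.Z) (s : {q : ℚ // q ≠ 0}) :
    ev c k s ∈ SE B c k := ⟨1, one_mem _, one_mem _, s.1, s.2, (one_mul _).symm⟩
theorem ExpD.tb (D : ExpD μ B c k) : ET B c k ≤ ball Γ μ :=
  sup_le D.bd ((Subgroup.closure_le _).2 (by rintro _ ⟨q, rfl⟩; exact D.sb q))
theorem ExpD.short (D : ExpD μ B c k) : Ll (ln c) μ := D.cen.ll D.md
end exps

end Pool.Agent.P.MP_dba3d2_lc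


end

section

/-! Toolbox for two factors, value level. -/

namespace Pool.Agent.P.MP_dba3d2_lc

open Filter

variable {Γ : HG} {a : Amb} {F : Bool → Subgroup (MM Γ a)} {o o' : Option Bool}
  {b b' c d x y g w : MM Γ a} {t : Tg Γ a} {ν : a.K}

theorem M_le_F (i : Bool) : XF F none ≤ F i := by
  cases i
  exacts [inf_le_left, inf_le_right]
theorem mem_M_iff (i : Bool) : x ∈ XF F none ↔ x ∈ F i ∧ x ∈ F (!i) := by
  cases i
  exacts [Iff.rfl, and_comm]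
theorem M_le_XF (o : Option Bool) : XF F none ≤ XF F o := by
  cases o
  exacts [le_rfl, M_le_F _]
theorem F_le_P (i : Bool) : F i ≤ F false ⊔ F true := by
  cases i
  exacts [le_sup_left, le_sup_right]
theorem XF_le_P (o : Option Bool) : XF F o ≤ F false ⊔ F true := by
  cases o
  exacts [(M_le_F false).trans (F_le_P false), F_le_P _]
theorem XF_le_F {i : Bool} (h : o = none ∨ o = some i) : XF F o ≤ F i := by
  rcases h with rfl | rfl
  exacts [M_le_F i, le_rfl]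
theorem exists_F (o : Option Bool) : ∃ i, o = none ∨ o = some i := by
  cases o
  exacts [⟨false, .inl rfl⟩, ⟨_, .inr rfl⟩]
/-- two types lie in one factor or are the two factors -/
theorem opt_cases (o o' : Option Bool) :
    (∃ i, (o = none ∨ o = some i) ∧ (o' = none ∨ o' = some i)) ∨
      ∃ i, o = some i ∧ o' = some (!i) := by
  rcases o with _ | _ | _ <;> rcases o' with _ | _ | _ <;> simp
theorem TwoF.gcx (h : TwoF F) (o : Option Bool) : GC0 (XF F o) := by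
  cases o
  exacts [h.gcm, h.gc _]
theorem std_le_M (h : TwoF F) (hx : ¬ Big (ln x)) : x ∈ XF F none := h.gcm.of_not_big hx

theorem EF_le_Ep : EF F c ≤ Ep c := sup_le inf_le_right inf_le_right
theorem EF_le_P : EF F c ≤ F false ⊔ F true := sup_le_sup inf_le_left inf_le_left
theorem mem_EF (i : Bool) (h1 : x ∈ F i) (h2 : x ∈ Ep c) : x ∈ EF F c := by
  cases i
  exacts [Subgroup.mem_sup_left ⟨h1, h2⟩, Subgroup.mem_sup_right ⟨h1, h2⟩]
theorem mem_EF' (o : Option Bool) (h1 : x ∈ XF F o) (h2 : x ∈ Ep c) : x ∈ EF F c := by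
  obtain ⟨i, hi⟩ := exists_F o
  exact mem_EF i (XF_le_F hi h1) h2
theorem EF_congr (h : Ep c = Ep d) : EF F c = EF F d := by rw [EF, EF, h]
theorem EF_conj' (hb : b ∈ XF F none) (h : Cj b c d) (hx : x ∈ EF F d) : b⁻¹ * x * b ∈ EF F c := by
  simpa using EF_conj (inv_mem hb) h.inv hx
theorem LF_le_P (t : Tg Γ a) : LF F t ≤ F false ⊔ F true := by
  cases t
  exacts [XF_le_P _, EF_le_P]
theorem mem_IE : g ∈ IE c ↔ InE c g :=
  Bas1.mem_clo (s := {g | InE c g}) (InE.of_mem (one_mem _)) (fun _ h _ h' => InE.mul h h') fun _ h => InE.inv h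
theorem TOK.top {S : Option Bool → Prop} (h : TOK F S t) : TOK F (fun _ => True) t := by
  cases t
  exacts [trivial, h]
theorem Cj.mem_Ep (h : Cj g c d) (hx : x ∈ Ep c) : g * x * g⁻¹ ∈ Ep d := by
  rw [← h, mem_Ep_conj]
  simpa [mul_assoc] using hx
theorem Cj.mem_Ep' (h : Cj g c d) (hx : x ∈ Ep d) : g⁻¹ * x * g ∈ Ep c := by
  simpa using h.inv.mem_Ep hx
theorem Cj.self' (x c : MM Γ a) : Cj x (x⁻¹ * c * x) c := congrArg Ep (by group)
theorem Cj.ep (h : Cj x d c) : Ep (x⁻¹ * c * x) = Ep d := by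
  have := h.inv
  rwa [Cj, inv_inv] at this

/-- centring inside the base or a factor -/
theorem TwoF.cenx (h : TwoF F) (hb : b ∈ XF F o) (hp : Prim b) : ∃ p ∈ XF F o,
    p⁻¹ * b * p ∈ XF F o ∧ Prim (p⁻¹ * b * p) ∧ Cen (p⁻¹ * b * p) ∧ Cj p (p⁻¹ * b * p) b := by
  obtain ⟨p, h1, -, h2⟩ := (h.gcx o).cen1 hb hp.1
  exact ⟨p, h1, mul_mem (mul_mem (inv_mem h1) hb) h1, hp.conj' p, h2, Cj.self' p b⟩
theorem TwoF.root4 (hR : S_ROOT) (h : TwoF F) (hc : c ∈ XF F o) (h1 : ¬ IsOfFinOrder c)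
    (hd : Prim d) (e : Ep d = Ep c) : d ∈ XF F o :=
  (hR Γ a _ (h.gcx o)).2.2.2.1 c hc h1 d hd e
theorem TwoF.root3 (hR : S_ROOT) (h : TwoF F) (hc : c ∈ XF F o) (h1 : ¬ IsOfFinOrder c)
    (hx : x ∈ Ep c) (e : IsOfFinOrder x) : x ∈ XF F o :=
  (hR Γ a _ (h.gcx o)).2.2.1 c hc h1 x hx e
/-- a conjugator between elements of `XF F o` is an element of `XF F o` times an exponent -/
theorem TwoF.root6 (hR : S_ROOT) (h : TwoF F) (hc : c ∈ XF F o) (hd : d ∈ XF F o)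
    (h1 : ¬ IsOfFinOrder c) (h2 : ¬ IsOfFinOrder d) (e : Cj x d c) :
    ∃ g ∈ XF F o, Cj g d c ∧ x * g⁻¹ ∈ Ep c ∧ g⁻¹ * x ∈ Ep d := by
  obtain ⟨g, k1, k2⟩ := (hR Γ a _ (h.gcx o)).2.2.2.2.2 c hc d hd h1 h2 x e
  have k3 : Cj g d c := by
    have := (Cj.of_mem (inv_mem k2)).mul e
    rwa [show (x * g⁻¹)⁻¹ * x = g by group] at this
  refine ⟨g, k1, k3, k2, ?_⟩
  have := k3.mem_Ep' k2
  rwa [show g⁻¹ * (x * g⁻¹) * g = g⁻¹ * x by group] at this

theorem kx_pos (o : Option Bool) : 0 < kx o := by cases o <;> simp [kx]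
theorem kc_pos (t : Tg Γ a) : 0 < kc t := by
  cases t
  exacts [kx_pos _, two_pos]
@[simp] theorem kx_none : kx none = 1 := rfl
@[simp] theorem kx_some (i : Bool) : kx (some i) = 5 := rfl
@[simp] theorem kc_inl (o : Option Bool) : kc (.inl o : Tg Γ a) = kx o := rfl
@[simp] theorem kc_inr (c : MM Γ a) : kc (.inr c : Tg Γ a) = 2 := rfl
@[simp] theorem k0_inl (o : Option Bool) : k0 (.inl o : Tg Γ a) = kx o := rfl
@[simp] theorem k0_inr (c : MM Γ a) : k0 (.inr c : Tg Γ a) = 0 := rfl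
@[simp] theorem bt_inl (o : Option Bool) : bt (.inl o : Tg Γ a) = o := rfl
@[simp] theorem bt_inr (c : MM Γ a) : bt (.inr c : Tg Γ a) = none := rfl
@[simp] theorem LF_inl (o : Option Bool) : LF F (.inl o) = XF F o := rfl
@[simp] theorem LF_inr (c : MM Γ a) : LF F (.inr c) = EF F c := rfl
@[simp] theorem XF_some (i : Bool) : XF F (some i) = F i := rfl
theorem kx_bt_le (t : Tg Γ a) : kx (bt t) ≤ kc t := by cases t <;> simp
theorem kc_eq_one (h : kc t ≤ 1) : t = .inl none := by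
  rcases t with (_ | _) | _ <;> simp at h ⊢

theorem TC1.symm (h : TC1 F o o' b b' w) : TC1 F o' o b' b w⁻¹ := by
  rcases h with ⟨c, h1, h2, h3, e, h4, g, h5, g', h6, rfl, h7, h8⟩ | ⟨i, h1, h2, h3⟩
  · exact .inl ⟨c, h1, h2, h3, e⁻¹, inv_mem h4, g', h6, g, h5, by group, h8, h7⟩
  · exact .inr ⟨i, h2, h1, inv_mem h3⟩
theorem TC1.congr {b1 b1' : MM Γ a} (h : TC1 F o o' b1 b1' w) (e1 : Ep b = Ep b1)
    (e2 : Ep b' = Ep b1') : TC1 F o o' b b' w := by
  rcases h with ⟨c, h1, h2, h3, e, h4, g, h5, g', h6, rfl, h7, h8⟩ | h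
  · exact .inl ⟨c, h1, h2, h3, e, h4, g, h5, g', h6, rfl, h7.congr rfl e1, h8.congr rfl e2⟩
  · exact .inr h
theorem TC1.left (hg : g ∈ XF F o) (h : TC1 F o o' (g⁻¹ * b * g) b' w) :
    TC1 F o o' b b' (g * w) := by
  rcases h with ⟨c, h1, h2, h3, e, h4, k, h5, g', h6, rfl, h7, h8⟩ | ⟨i, rfl, h2, h3⟩
  · exact .inl ⟨c, h1, h2, h3, e, h4, g * k, mul_mem hg h5, g', h6, by group,
      (Cj.self' g b).mul h7, h8⟩
  · exact .inr ⟨i, rfl, h2, mul_mem hg h3⟩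
theorem TC1.right (hg : g ∈ XF F o') (h : TC1 F o o' b (g * b' * g⁻¹) w) :
    TC1 F o o' b b' (w * g) := by
  have := (TC1.left (b := b') (inv_mem hg) (by simpa using h.symm)).symm
  simpa using this
theorem TC1.efl (hx : x ∈ EF F b) (h : TC1 F none o' b b' w) : TC1 F none o' b b' (x * w) := by
  rcases h with ⟨c, h1, h2, h3, e, h4, k, h5, g', h6, rfl, h7, h8⟩ | ⟨i, h1, -⟩
  · exact .inl ⟨c, h1, h2, h3, k⁻¹ * x * k * e, mul_mem (EF_conj' h5 h7 hx) h4, k, h5, g', h6,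
      by group, h7, h8⟩
  · cases h1
theorem TC1.efr (hx : x ∈ EF F b') (h : TC1 F o none b b' w) : TC1 F o none b b' (w * x) := by
  simpa using (h.symm.efl (inv_mem hx)).symm
theorem TC1.weakl (h : TC1 F none o' b b' w) (o : Option Bool) : TC1 F o o' b b' w := by
  rcases h with ⟨c, h1, h2, h3, e, h4, k, h5, g', h6, rfl, h7, h8⟩ | ⟨i, h1, -⟩
  · exact .inl ⟨c, h1, h2, h3, e, h4, k, M_le_XF o h5, g', h6, rfl, h7, h8⟩
  · cases h1
theorem TC1.weakr (h : TC1 F o none b b' w) (o' : Option Bool) : TC1 F o o' b b' w := by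
  simpa using (h.symm.weakl o').symm
theorem TC.symm (h : TC F o o' w) : TC F o' o w⁻¹ := fun b hb b' hb' p p' e =>
  (h b' hb' b hb p' p (by simpa using e.inv)).symm

theorem pair_inr_left (s : Tg Γ a × MM Γ a) (x y : MM Γ a) :
    Pair F (.inr c, x) s ↔ Pair F (.inr c, y) s := by
  obtain ⟨_ | _, _⟩ := s <;> rfl
theorem pair_inr_right (s : Tg Γ a × MM Γ a) (x y : MM Γ a) :
    Pair F s (.inr c, x) ↔ Pair F s (.inr c, y) := by
  obtain ⟨_ | _, _⟩ := s <;> rfl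
theorem rp_inr_left (s : Tg Γ a × MM Γ a) (x y : MM Γ a) :
    RP F (.inr c, x) s ↔ RP F (.inr c, y) s := by
  obtain ⟨_ | _, _⟩ := s <;> rfl
theorem rp_inr_right (s : Tg Γ a × MM Γ a) (x y : MM Γ a) :
    RP F s (.inr c, x) ↔ RP F s (.inr c, y) := by
  obtain ⟨_ | _, _⟩ := s <;> rfl
theorem Pair.inv {s s' : Tg Γ a × MM Γ a} (h : Pair F s s') : Pair F (sinv s') (sinv s) := by
  obtain ⟨o | c, y⟩ := s <;> obtain ⟨o' | c', y'⟩ := s'
  · obtain ⟨i, rfl, rfl, h⟩ := h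
    refine ⟨!i, rfl, by simp, ?_⟩
    simp only [Bool.not_not, inv_inv, inv_mem_iff]
    exact h.symm
  · simpa only [sinv, Pair, inv_inv] using h
  · exact h
  · exact Ne.symm h
theorem ne_one (c : MM Γ a) : NE c 1 := fun h => by simpa using h.pos
/-- an arc that follows the axis contradicts the normalisation -/
theorem NE.not_fol (h : NE c y) (hν : Big ν) (h1 : Ls (ln y) ν) : ¬ Fol ν y⁻¹ c := by
  rintro ⟨q, q1, q2, q3⟩
  have s : Sim (ln y) ν := ⟨h1, by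
    simpa using On.nondeg hν (on_left hν.pos.le 1 y⁻¹) q2 (by simpa using q1)⟩
  exact h (s.big_iff.2 hν) ((s.ll_iff (ln_nonneg _) hν.pos.le).2 q3.md)
    ((s.fol_iff (ln_nonneg _) hν.pos.le).2 ⟨q, q1, q2, q3⟩)
theorem Arc.congr {p q p' q' : MM Γ a} (h : Arc F ν t y p q) (hp : Ll (ds p p') ν)
    (hq : Ll (ds q q') ν) : Arc F ν t y p' q' := by
  have z : ∀ u : MM Γ a, Ll (ds u u) ν := fun u => Ll.of_nonpos (by simp) hp.nonneg
  cases t with
  | inr c => exact Stab.congr h hp hq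
  | inl o =>
    rcases h with ⟨h1, h2, h3⟩ | ⟨b, h1, h2, h3, h4⟩
    · exact .inl ⟨h1, h2.congr hp (z _) (z _), h3.congr hq (z _) (z _)⟩
    · exact .inr ⟨b, h1, h2, h3, h4.congr hp hq⟩
/-- a conjugator of centred elements runs along the axis -/
theorem axis_stab (hE : S_ELEM) (hL : S_LINE) (hb : Prim b) (hb' : Prim b') (c1 : Cen b)
    (c2 : Cen b') (h : Cj g b' b) (hm : Ll (md b) ν) :
    Ll (md b') ν ∧ Stab ν 1 g b ∧ Stab ν 1 g⁻¹ b' := by
  have m' : Ll (md b') ν := by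
    have := (hb'.conj g).md_ls hE hL hb.1 h
    rw [md_conj'] at this
    exact Ll.ls_left this hm
  have l := c1.ll hm
  have l' := c2.ll m'
  refine ⟨m', ⟨by rwa [ds_one_mul], hb.fix hE hL (hb'.conj g).1 h.symm ?_⟩,
    ⟨by rwa [ds_one_mul], hb'.fix hE hL (hb.conj g⁻¹).1 h.inv.symm ?_⟩⟩
  · rwa [inv_mul_cancel_right, ds_mul_right]
  · rwa [inv_mul_cancel_right, ds_mul_right]
theorem geo_inv {L : List (MM Γ a)} (h : Geo ν L) : Geo ν (L.map fun x => x⁻¹).reverse := by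
  rw [Geo, ← List.prod_inv_reverse, ln_inv, List.map_reverse, List.sum_reverse, List.map_map]
  have : (ln ∘ fun x : MM Γ a => x⁻¹) = ln := funext fun x => ln_inv x
  rwa [this]
theorem Typ.endI (h : Typ F none b) : EndL F b (.inr b, 1) := ⟨rfl, h.1, h.2.1, h.2.2.1, rfl⟩
theorem Typ.endII (h : Typ F o b) (h0 : o ≠ none) (hy : y ∈ XF F o) : EndL F b (.inl o, y) :=
  ⟨h0, hy, h.1, h.2.1, h.2.2.1⟩
theorem EndL.far {s : Tg Γ a × MM Γ a} (h : EndL F b s) (h' : Typ F (bt s.1) b) : Far F b s := by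
  obtain ⟨t, y⟩ := s
  rintro o rfl
  exact h'.2.2.2 h.1 y h.2.1
theorem EndL.axis {s : Tg Γ a × MM Γ a} (h : EndL F b s) :
    b ∈ XF F (bt s.1) ∧ Prim b ∧ Cen b := by
  obtain ⟨_ | _, y⟩ := s
  exacts [h.2.2, ⟨h.2.1, h.2.2.1, h.2.2.2.1⟩]
theorem EndL.ok {s : Tg Γ a × MM Γ a} (h : EndL F b s) : (idC F).ok s := by
  obtain ⟨_ | _, y⟩ := s
  · exact ⟨trivial, h.2.1⟩
  · obtain ⟨rfl, h1, h2, h3, rfl⟩ := h
    exact ⟨⟨h1, h2, h3⟩, one_mem _⟩
theorem EndL.cases {s : Tg Γ a × MM Γ a} (h : EndL F b s) :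
    s = (.inr b, 1) ∧ b ∈ XF F none ∨ ∃ i y, s = (.inl (some i), y) ∧ y ∈ F i ∧ b ∈ F i := by
  obtain ⟨(_ | i) | _, y⟩ := s
  · exact absurd rfl h.1
  · exact .inr ⟨i, y, rfl, h.2.1, h.2.2.1⟩
  · obtain ⟨rfl, h1, -, -, rfl⟩ := h
    exact .inl ⟨rfl, h1⟩

end Pool.Agent.P.MP_dba3d2_lc


end
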