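import Pool.Agent.P.MP_dba3d2_lcM.Ab00
import Pool.Agent.P.MP_dba3d2_lcM.Ab05
import Pool.Agent.P.MP_dba3d2_lcM.Bb10
import Pool.Agent.P.MP_dba3d2_lcM.Cb11
import Pool.Agent.P.MP_dba3d2_lcM.Cb12
import Pool.Agent.P.MP_dba3d2_lcM.Cb13

section

/-! Interface, chapter C2: pure group theory for the adjunctions. -/

namespace Pool.Agent.P.MP_dba3d2_lc

open Filter

-- deps:
def S_C2_TREEFIX : Prop := ∀ (G X : Type) [Group G] [MulAction G X] (Δ : SimpleGraph X)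
  (col : X → Bool) (K : Subgroup G) (x₀ : X), Δ.IsAcyclic → Finite K →
  (∀ k ∈ K, ∀ x y, Δ.Adj x y → Δ.Adj (k • x) (k • y)) → (∀ k ∈ K, ∀ x, col (k • x) = col x) →
  (∀ x y, Δ.Adj x y → col x ≠ col y) → (∀ k ∈ K, Δ.Reachable x₀ (k • x₀)) →
  ∃ x, Δ.Reachable x₀ x ∧ ∀ k ∈ K, k • x = x

-- deps: C2_TREEFIX
def S_C2_BIP : Prop := ∀ (G V W : Type) [Group G] [MulAction G V] [MulAction G W]
  (adj : V → W → Prop) (K : Subgroup G) (v₀ : V), (∀ v w v', RCh adj v w v' → v ≠ v') → Finite K →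
  (∀ k ∈ K, ∀ v w, adj v w → adj (k • v) (k • w)) → (∀ k ∈ K, Conn adj v₀ (k • v₀)) →
  ∃ v, Conn adj v₀ v ∧ ((∀ k ∈ K, k • v = v) ∨ ∃ w, adj v w ∧ ∀ k ∈ K, k • w = w)

-- deps: C2_BIP
def S_C2_STARFIN : Prop := ∀ (G : Type) [Group G] (B : Subgroup G) (ι : Type) (A : ι → Subgroup G)
  (Q : ι → G → ι → Prop), (∀ i, ∀ b ∈ B, b ∈ A i ↔ Q i b i) → (∀ i b j, Q i b j → Q j b⁻¹ i) →
  (∀ i b j b' k, Q i b j → Q j b' k → Q i (b * b') k) →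
  (∀ i b j, Q i b j → ∀ x ∈ A j, b * x * b⁻¹ ∈ A i) →
  (∀ l : List (G × ι × G), l ≠ [] → (∀ s ∈ l, s.1 ∈ B ∧ s.2.2 ∈ A s.2.1 ∧ s.2.2 ∉ B) →
    l.IsChain (fun s s' => ¬ Q s.2.1 s'.1 s'.2.1) → (l.map fun s => s.1 * s.2.2).prod ∉ B) →
  ∀ K : Subgroup G, K ≤ B ⊔ ⨆ i, A i → Finite K →
    ∃ p ∈ B ⊔ ⨆ i, A i, (∀ k ∈ K, p⁻¹ * k * p ∈ B) ∨ ∃ i, ∀ k ∈ K, p⁻¹ * k * p ∈ A i

-- deps: C2_BIP
def S_C2_HFIN : Prop := ∀ (G : Type) [Group G] (B : Subgroup G) (ι : Type) (u : ι → G),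
  WBr B (hv u) (HP B u) → ∀ K : Subgroup G, K ≤ B ⊔ Subgroup.closure (Set.range u) → Finite K →
    ∃ p ∈ B ⊔ Subgroup.closure (Set.range u), ∀ k ∈ K, p⁻¹ * k * p ∈ B

-- deps:
def S_C2_RW : Prop := ∀ (G : Type) [Group G] (B : Subgroup G) (Λ : Type) (v : Λ → G)
  (P : Λ → G → Λ → Prop), WS B v P → ∀ t ∈ B ⊔ Subgroup.closure (Set.range v),
  (∃ l, ∃ b ∈ B, WRed B P l ∧ t = wval v l * b) ∧
  ∃ g ∈ B ⊔ Subgroup.closure (Set.range v), g⁻¹ * t * g ∈ B ∨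
    (∃ l, l ≠ [] ∧ g⁻¹ * t * g = wval v l ∧ WRed B P (l ++ l ++ l)) ∨
    ∃ b ∈ B, ∃ s, g⁻¹ * t * g = b * v s ∧ P s b s

-- deps: C2_RW
def S_C2_RW3 : Prop := ∀ (G G' : Type) [Group G] [Group G'] (B : Subgroup G) (Λ : Type)
  (v : Λ → G) (P : Λ → G → Λ → Prop) (θ0 : B →* G') (ν : Λ → G'), WBr B v P →
  (∀ s, ∃ s', v s' = (v s)⁻¹ ∧ ν s' = (ν s)⁻¹) →
  (∀ s (b : B) s', P s b s' → (∃ x : B, v s * b * v s' = x ∧ ν s * θ0 b * ν s' = θ0 x) ∨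
    ∃ (s'' : Λ) (x y : B), v s * b * v s' = x * v s'' * y ∧
      ν s * θ0 b * ν s' = θ0 x * ν s'' * θ0 y) →
  ∀ T : Subgroup G, T = B ⊔ Subgroup.closure (Set.range v) →
  ∃ θ : T →* G', (∀ (t : T) (x : B), (t : G) = x → θ t = θ0 x) ∧
    ∀ (t : T) (s : Λ), (t : G) = v s → θ t = ν s

-- deps: C2_RW3
def S_C2_HEXT : Prop := ∀ (Γ : HG) (a : Amb) (B : Subgroup (MM Γ a)) (r : ℕ) (u : Fin r → MM Γ a),
  WBr B (hv u) (HP B u) → ExtL B u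

end Pool.Agent.P.MP_dba3d2_lc


end

section

/-! Step C_ANC of the stability project. -/

namespace Pool.Agent.P.MP_dba3d2_lc

open Filter

namespace C_ancA
variable {Γ : HG} {a : Amb} {F : Bool → Subgroup (MM Γ a)} {β f h p q : MM Γ a} {μ : a.K}

/-- the axis of `β` is a translate of a typed axis -/
def Tc (F : Bool → Subgroup (MM Γ a)) (β : MM Γ a) : Prop :=
  ∃ z ∈ F false ⊔ F true, ∃ o b, Typ F o b ∧ Ep (z * b * z⁻¹) = Ep β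

theorem Tc.conj {z : MM Γ a} (hz : z ∈ F false ⊔ F true) (k : Tc F (z⁻¹ * β * z)) : Tc F β := by
  obtain ⟨w, hw, o, b, t, e⟩ := k
  refine ⟨z * w, mul_mem hz hw, o, b, t, (Ep_conj_iff' z).1 ?_⟩
  rw [← e]
  congr 1
  group

theorem arc (hE : S_ELEM) (hP : S_PERC) (hG : S_C_G20S) (hF : TwoF F) (hβ : ¬ IsOfFinOrder β)
    (hμ : Big μ) (hh : h ∈ F false ⊔ F true) (hl : Ls (ln h) μ) (hn : Ls μ (ds p q))
    (o1 : On μ p 1 h) (o2 : On μ q 1 h) (s : Stab μ p q β) : Tc F β := by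
  obtain ⟨z, hz, o, b, t, s'⟩ := hG Γ a F hF μ hμ h hh hl p q hn o1 o2 ⟨β, hβ, s⟩
  exact ⟨z, hz, o, b, t, Ep_eq_of_stab hE hP hμ hn (t.2.1.conj z).1 hβ s' s⟩

theorem typ (hE : S_ELEM) {z b : MM Γ a} {o : Option Bool} (hβ : ¬ IsOfFinOrder β)
    (hf : ¬ IsOfFinOrder f) (hm : f ∈ Ep β) (hz : z ∈ F false ⊔ F true) (t : Typ F o b)
    (e : z⁻¹ * f * z ∈ Ep b) : Tc F β :=
  ⟨z, hz, o, b, t, (Ep_eq hE (t.2.1.conj z).1 (mem_Ep_conj.2 e) hf).symm.trans (Ep_eq hE hβ hm hf)⟩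

theorem mem_conj (z : MM Γ a) (hm : f ∈ Ep β) : z⁻¹ * f * z ∈ Ep (z⁻¹ * β * z) :=
  mem_Ep_conj'.2 (by simpa [mul_assoc] using hm)

theorem pert (hE : S_ELEM) (hP : S_PERC) (hD : S_C_DISP) (hG : S_C_G20S) (hC : S_C_CYC)
    (hF : TwoF F) (hβ : Prim β) (hf : f ∈ F false ⊔ F true) (hm : f ∈ Ep β)
    (hl : Ll (md β) (md f)) : Tc F β := by
  have fi := ((hD Γ a β f hβ hm).2.2 hl).1
  obtain ⟨z, hz, ⟨o, b, t, e⟩ | cen⟩ := hC Γ a F hF f hf fi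
  · exact typ hE hβ.1 fi hm hz t e
  obtain ⟨-, big, k⟩ := (hD Γ a _ _ (hβ.conj' z) (mem_conj z hm)).2.2
    (by rw [md_conj, md_conj]; exact hl)
  obtain ⟨N, p, q, hn, o1, o2, s⟩ := k cen
  exact Tc.conj hz (arc hE hP hG hF (hβ.conj' z).1 (big.of_ls (Ls.of_le (md_le_ln _)))
    (pow_mem (mul_mem (mul_mem (inv_mem hz) hf) hz) N) ⟨N, ln_pow_le _ N⟩ hn o1 o2 s)

end C_ancA

open C_ancA in
theorem p_C_ANC (hELEM : S_ELEM) (hLINE : S_LINE) (hPERC : S_PERC) (hROOT : S_ROOT) (hC_DISP : S_C_DISP) (hC_G20S : S_C_G20S) (hC_CYC : S_C_CYC) :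
    S_C_ANC := by
  intro Γ a F hF
  refine ⟨fun c _ pc f hf hm hl => ?_, fun γ hγ fi => ?_⟩
  · obtain ⟨z, hz, o, b, t, e⟩ := pert hELEM hPERC hC_DISP hC_G20S hC_CYC hF pc hf hm hl
    have k : z⁻¹ * c * z ∈ XF F o := hF.root4 hROOT t.1 t.2.1.1 (pc.conj' z)
      ((Ep_conj_iff z).1 (by rw [e]; congr 1; group))
    obtain ⟨i, hi⟩ := exists_F o
    refine ⟨z, hz, ?_⟩
    cases i
    exacts [.inl (XF_le_F hi k), .inr (XF_le_F hi k)]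
  obtain ⟨β, pβ, eβ⟩ := (hELEM Γ a γ fi).1
  have hm : γ ∈ Ep β := eβ ▸ self_mem_Ep γ
  by_cases T : Tc F β
  · obtain ⟨z, hz, o, b, t, e⟩ := T
    exact ⟨z, hz, b, ⟨t.2.1, t.2.2.1, .inl ⟨o, t⟩⟩, e.trans eβ⟩
  obtain ⟨z, hz, ⟨o, b, t, e⟩ | cen⟩ := hC_CYC Γ a F hF γ hγ fi
  · exact (T (typ hELEM pβ.1 fi hm hz t e)).elim
  have pb := pβ.conj' z
  refine ⟨z, hz, z⁻¹ * β * z, ⟨pb, ?_, .inr fun h hh big _ ⟨q, hq, o1, s⟩ => T (Tc.conj hz ?_)⟩, ?_⟩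
  · have k := pb.disp hELEM hLINE (mem_conj z hm) (mt (finOrder_conj' z γ).1 fi) 1
    rw [ds_one_mul, ds_one_mul] at k
    refine (k.trans' cen).trans' ?_
    rw [md_conj, md_conj]
    exact (ll_or_ls (one_pos.trans_le (one_le_md' fi)) _).resolve_left fun l =>
      T (pert hELEM hPERC hC_DISP hC_G20S hC_CYC hF pβ hγ hm l)
  · exact arc hELEM hPERC hC_G20S hF pb.1 big (inv_mem hh) (by rw [ln_inv]; exact Ls.refl' _)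
      (by rwa [ds_one_left]) (on_left big.pos.le _ _) o1 s
  · rw [← eβ]
    congr 1
    group

end Pool.Agent.P.MP_dba3d2_lc


end

section

/-! Step C_CEN of the stability project. -/

namespace Pool.Agent.P.MP_dba3d2_lc

open Filter

namespace C_cenA

variable {Γ : HG} {a : Amb} {c c' d d' p x : MM Γ a}

theorem l1 (u v : a.K) (hv : 0 ≤ v) : Ls u (u + v) := Ls.of_le (le_add_of_nonneg_right hv)
theorem l2 (u v : a.K) (hu : 0 ≤ u) : Ls v (u + v) := Ls.of_le (le_add_of_nonneg_left hu)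

theorem len (hD : S_C_DISP) (hd : Prim d) (hx : x ∈ Ep d) (q : MM Γ a) :
    Ls (ln x) (ds q (x * q) + ln d) := by
  have := (hD Γ a d x hd hx).1 1
  rw [ds_one_mul, ds_one_mul] at this
  exact this.mono_right (add_le_add_left (md_le_ds x q) _)

/-- a centred pair of primitive elements centres the pairs taken in their closures -/
theorem two (hE : S_ELEM) (hL : S_LINE) (hD : S_C_DISP) (hd : Prim d) (hd' : Prim d')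
    (h : Cj p d c) (h' : Cj p d' c') (hc : ¬ IsOfFinOrder c) (hc' : ¬ IsOfFinOrder c')
    (z : ∀ q, Ls (ln d + ln d') (ds q (d * q) + ds q (d' * q))) (q : MM Γ a) :
    Ls (ln (p⁻¹ * c * p) + ln (p⁻¹ * c' * p)) (ln (q⁻¹ * c * q) + ln (q⁻¹ * c' * q)) := by
  have m : p⁻¹ * c * p ∈ Ep d := mem_Ep_conj.1 (by rw [show Ep _ = _ from h]; exact self_mem_Ep c)
  have m' : p⁻¹ * c' * p ∈ Ep d' :=
    mem_Ep_conj.1 (by rw [show Ep _ = _ from h']; exact self_mem_Ep c')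
  have e : ∀ u : MM Γ a, ds (p⁻¹ * q) (p⁻¹ * u * p * (p⁻¹ * q)) = ln (q⁻¹ * u * q) := fun u => by
    rw [disp_conj', mul_inv_cancel_left, ds_conj]
  have k := hd.disp hE hL m (mt (finOrder_conj' p c).1 hc) (p⁻¹ * q)
  have k' := hd'.disp hE hL m' (mt (finOrder_conj' p c').1 hc') (p⁻¹ * q)
  have s := len hD hd m (p⁻¹ * q)
  have s' := len hD hd' m' (p⁻¹ * q)
  rw [e] at k k' s s'
  have u := l1 (ln (q⁻¹ * c * q)) _ (ln_nonneg (q⁻¹ * c' * q))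
  have u' := l2 _ (ln (q⁻¹ * c' * q)) (ln_nonneg (q⁻¹ * c * q))
  have w := (z (p⁻¹ * q)).trans' ((k.trans' u).add (k'.trans' u'))
  exact (s.trans' (u.add ((l1 _ _ (ln_nonneg d')).trans' w))).add
    (s'.trans' (u'.add ((l2 _ _ (ln_nonneg d)).trans' w)))

/-- a centring conjugator of two elements with different closures is short -/
theorem short (hE : S_ELEM) (hP : S_PERC) (hc : ¬ IsOfFinOrder c) (hc' : ¬ IsOfFinOrder c')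
    (hne : Ep c ≠ Ep c') (h : Ls (ln (p⁻¹ * c * p) + ln (p⁻¹ * c' * p)) (ln c + ln c')) :
    Ls (ln p) (ln c + ln c') :=
  ls_of_scale (le_add_of_le_of_nonneg ((one_le_md' hc).trans (md_le_ln c)) (ln_nonneg c'))
    fun hb hl => hne
    (Ep_eq_of_stab hE hP hb (p := 1) (q := p) (by rw [ds_one_left]; exact Ls.refl' _) hc hc'
      ⟨by rw [ds_one_mul]; exact hl.ls_left (l1 _ _ (ln_nonneg c')),
        by rw [ds_conj]; exact hl.ls_left ((l1 _ _ (ln_nonneg _)).trans' h)⟩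
      ⟨by rw [ds_one_mul]; exact hl.ls_left (l2 _ _ (ln_nonneg c)),
        by rw [ds_conj]; exact hl.ls_left ((l2 _ _ (ln_nonneg _)).trans' h)⟩)

end C_cenA

theorem p_C_CEN (hELEM : S_ELEM) (hLINE : S_LINE) (hPERC : S_PERC) (hC_PROJ : S_C_PROJ) (hC_BRIDGE : S_C_BRIDGE) (hC_DISP : S_C_DISP) (hC_ANC : S_C_ANC) (hC_NA : S_C_NA) :
    S_C_CEN := by
  intro Γ a F hF c mc c' mc' hc hc'
  obtain ⟨z, mz, b, hb, eb⟩ := (hC_ANC Γ a F hF).2 c mc hc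
  obtain ⟨z', mz', b', hb', eb'⟩ := (hC_ANC Γ a F hF).2 c' mc' hc'
  obtain ⟨g, mg, eg, ng⟩ := (hC_NA Γ a F hF).1 b hb z mz
  have e1 : Cj (z * g) b c := Cj.mul (c' := b) eb (Cj.of_mem eg)
  by_cases e : Ep c = Ep c'
  · refine ⟨z * g, mul_mem mz mg, ?_, C_cenA.two hELEM hLINE hC_DISP hb.1 hb.1 e1
      (Eq.trans e1 e) hc hc' fun q => ?_⟩
    · have k := (hb.1.conj (z * g)).disp' hELEM hLINE hc e1 1
      rw [ds_one_mul, ds_one_mul] at k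
      exact ((hC_PROJ Γ a b _ hb.1 hb.2.1 ng).1.trans' k).trans' (C_cenA.l1 _ _ (ln_nonneg c'))
    · have k : Ls (ln b) (ds q (b * q) + ds q (b * q)) :=
        (Ls.mono_right hb.2.1 (md_le_ds b q)).trans' (C_cenA.l1 _ _ (ds_nonneg _ _))
      exact k.add k
  · obtain ⟨f, mf, f', mf', ef, ef', n, n'⟩ := (hC_NA Γ a F hF).2 b b' hb hb' ((z * g)⁻¹ * z')
      (mul_mem (inv_mem (mul_mem mz mg)) mz') fun k => e (by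
        have := e1.mul k
        rw [mul_inv_cancel_left] at this
        exact Eq.trans (Eq.symm this) eb')
    have e2 : Cj (z * g * f⁻¹) b c := e1.mul (Cj.of_mem (inv_mem ef))
    have e3 : Cj (z * g * f⁻¹)
        (f * ((z * g)⁻¹ * z') * f' * b' * (f * ((z * g)⁻¹ * z') * f')⁻¹) c' := by
      have := Cj.mul (c' := b') eb' (Cj.of_mem ef')
      rw [Cj, ← show Ep _ = _ from this]; congr 1; group
    have k := C_cenA.two hELEM hLINE hC_DISP hb.1 (hb'.1.conj _) e2 e3 hc hc'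
      (hC_BRIDGE Γ a b b' _ hb.1 hb.2.1 hb'.1 hb'.2.1 n n')
    refine ⟨_, mul_mem (mul_mem mz mg) (inv_mem mf), C_cenA.short hELEM hPERC hc hc' e ?_, k⟩
    simpa only [inv_one, one_mul, mul_one] using k 1

end Pool.Agent.P.MP_dba3d2_lc


end

section

/-! Step C_EX of the stability project. -/

namespace Pool.Agent.P.MP_dba3d2_lc

open Filter

namespace C_exA

variable {Γ : HG} {a : Amb}

theorem aux (hE : S_ELEM) (hL : S_LINE) (hP : S_C_PROJ) {μ : a.K} {b d y : MM Γ a} (hμ : Big μ)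
    (hb : Prim b) (cb : Cen b) (hd : Prim d) (ne : NE b y) (e : Cj y b d) (h1 : Ls (ln d) μ)
    (h2 : Ll (md d) μ) : Ll (2 * ln y - ln d) μ := by
  have hβ := hb.conj y
  have a1 : Ll (md b) μ := by
    rw [← md_conj' y b]
    exact Ll.ls_left (Prim.md_ls hE hL hβ hd.1 e) h2
  have a2 := Prim.disp' hE hL hβ hd.1 e 1
  rw [ds_one_mul, ds_one_mul] at a2
  obtain ⟨p1, p2⟩ := hP Γ a b y hb cb ne
  have a3 := (p2 μ hμ a1 (p1.trans' (a2.trans' h1))).2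
  have a4 := disp_ll (c := y * b * y⁻¹) hμ h2 (fun w hw => Prim.fix hE hL hβ hd.1 e hw) 1
  rw [ds_one_mul, ds_one_mul] at a4
  exact Ll.mono_left (by linarith) (a3.add a4)

end C_exA

theorem p_C_EX (hELEM : S_ELEM) (hLINE : S_LINE) (hC_PROJ : S_C_PROJ) (hC_ANC : S_C_ANC) (hC_NA : S_C_NA) :
    S_C_EX := by
  intro Γ a F hF μ hμ h hh l1 c hc pc l2 l3
  obtain ⟨z, hz, b, anc, e⟩ := (hC_ANC Γ a F hF).2 c hc pc.1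
  have e0 : Cj z b c := e
  obtain ⟨f1, m1, e1, n1⟩ := (hC_NA Γ a F hF).1 b anc z hz
  obtain ⟨f2, m2, e2, n2⟩ := (hC_NA Γ a F hF).1 b anc (h⁻¹ * z) (mul_mem (inv_mem hh) hz)
  have a1 := C_exA.aux hELEM hLINE hC_PROJ hμ anc.1 anc.2.1 pc n1 (e0.mul (Cj.of_mem e1)) l2 l3
  have l4 : Ls (ln (h⁻¹ * c * h)) μ := by
    refine Ls.mono_left ?_ ((l1.add l2).add l1)
    have b1 := ln_mul_le (h⁻¹ * c) h
    have b2 := ln_mul_le h⁻¹ c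
    rw [ln_inv] at b2
    linarith
  have a2 := C_exA.aux hELEM hLINE hC_PROJ hμ anc.1 anc.2.1 (pc.conj' h) n2
    (((Cj.self' h c).inv.mul e0).mul (Cj.of_mem e2)) l4 (by rwa [md_conj])
  refine ⟨z * (f2 * f1⁻¹) * z⁻¹, mul_mem (mul_mem hz (mul_mem m2 (inv_mem m1))) (inv_mem hz),
    e0.mem_Ep (mul_mem e2 (inv_mem e1)), Ll.mono_left ?_ (a1.add a2)⟩
  have b1 := ln_mul_le (z * f1) (h⁻¹ * z * f2)⁻¹
  have b2 : ds (z * (f2 * f1⁻¹) * z⁻¹) h = ln (z * f1 * (h⁻¹ * z * f2)⁻¹) := by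
    rw [ds]; congr 1; group
  rw [ln_inv] at b1
  linarith

end Pool.Agent.P.MP_dba3d2_lc


end

section

/-! Step C_PUR of the stability project. -/

namespace Pool.Agent.P.MP_dba3d2_lc

open Filter

namespace C_purA

variable {Γ : HG} {a : Amb}

/-- the conclusion of purity -/
def Pu (P : Subgroup (MM Γ a)) (c f : MM Γ a) (n : ℕ) : Prop :=
  ∃ f' ∈ P, f' ∈ Ep c ∧ ∃ r : ℕ, IsOfFinOrder (f⁻¹ * (f' ^ n * c ^ r))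

theorem Pu.conj {P : Subgroup (MM Γ a)} {c f p : MM Γ a} {n : ℕ} (hp : p ∈ P)
    (h : Pu P (p⁻¹ * c * p) (p⁻¹ * f * p) n) : Pu P c f n := by
  obtain ⟨f', h1, h2, r, h3⟩ := h
  refine ⟨p * f' * p⁻¹, mul_mem (mul_mem hp h1) (inv_mem hp), mem_Ep_conj'.1 h2, r, ?_⟩
  have e : f⁻¹ * ((p * f' * p⁻¹) ^ n * c ^ r) =
      p * ((p⁻¹ * f * p)⁻¹ * (f' ^ n * (p⁻¹ * c * p) ^ r)) * p⁻¹ := by
    have e2 : (p⁻¹ * c * p) ^ r = p⁻¹ * c ^ r * p := by simpa using conj_pow (a := p⁻¹) (b := c)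
    rw [conj_pow, e2]
    group
  rw [e, finOrder_conj]
  exact h3

theorem F_le (F : Bool → Subgroup (MM Γ a)) (i : Bool) : F i ≤ F false ⊔ F true := by
  cases i
  exacts [le_sup_left, le_sup_right]

theorem conj_mem_Ep {c f : MM Γ a} (p : MM Γ a) (h : f ∈ Ep c) :
    p⁻¹ * f * p ∈ Ep (p⁻¹ * c * p) :=
  mem_Ep_conj'.2 (by simpa [mul_assoc] using h)

theorem base (hC_PURE : S_C_PURE) (hC_E12 : S_C_E12) {F : Bool → Subgroup (MM Γ a)}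
    (hF : TwoF F) (i : Bool) {c f : MM Γ a} (hc : c ∈ F i) (hp : Prim c)
    (hf : f ∈ F false ⊔ F true) (he : f ∈ Ep c) {n : ℕ} (hn : 0 < n) :
    Pu (F false ⊔ F true) c f n := by
  by_cases h : ∃ g ∈ F i, g⁻¹ * c * g ∈ F (!i)
  · obtain ⟨g, h1, h2⟩ := h
    have h3 : g⁻¹ * c * g ∈ F i := mul_mem (mul_mem (inv_mem h1) hc) h1
    have h4 : g⁻¹ * c * g ∈ XF F none := by
      cases i
      exacts [⟨h3, h2⟩, ⟨h2, h3⟩]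
    have hg := F_le F i h1
    refine Pu.conj hg ?_
    obtain ⟨f', a1, r, a2⟩ := hC_PURE Γ a F hF _ h4 (hp.conj' g) _
      ((hC_E12 Γ a F hF).1 _ h4 (hp.conj' g) _ (mul_mem (mul_mem (inv_mem hg) hf) hg)
        (conj_mem_Ep g he)) n hn
    exact ⟨f', EF_le_P a1, EF_le_Ep a1, r, a2⟩
  · obtain ⟨f', a1, a2, a3⟩ := (hF.gc i).pur c hc hp f
      ((hC_E12 Γ a F hF).2 i c hc hp (fun g h1 h2 => h ⟨g, h1, h2⟩) f hf he) he n hn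
    exact ⟨f', F_le F i a1, a2, a3⟩

end C_purA

open C_purA

theorem p_C_PUR (hC_DISP : S_C_DISP) (hC_PURE : S_C_PURE) (hC_ANC : S_C_ANC) (hC_E12 : S_C_E12) :
    S_C_PUR := by
  intro Γ a F hF c hc hp f hf he n hn
  by_cases h : Ls (md f) (md c)
  · obtain ⟨m, hm⟩ := (hC_DISP Γ a c f hp he).2.1 h
    have hn' : (n : ℤ) ≠ 0 := by omega
    obtain ⟨r, hr⟩ := Int.eq_ofNat_of_zero_le (Int.emod_nonneg m hn')
    refine ⟨c ^ (m / n), zpow_mem hc _, zpow_mem (self_mem_Ep c) _, r, ?_⟩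
    rw [← zpow_natCast, ← zpow_natCast c, ← zpow_mul, ← zpow_add, ← hr, Int.ediv_mul_add_emod]
    exact hm
  · have k : Ll (md c) (md f) := fun n => (not_le.1 fun a => h ⟨n, a⟩).le
    obtain ⟨p, h1, h2⟩ := (hC_ANC Γ a F hF).1 c hc hp f hf he k
    have h3 : ∃ i, p⁻¹ * c * p ∈ F i := h2.elim (fun e => ⟨false, e⟩) fun e => ⟨true, e⟩
    obtain ⟨i, h3⟩ := h3
    exact Pu.conj h1 (base hC_PURE hC_E12 hF i h3 (hp.conj' p)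
      (mul_mem (mul_mem (inv_mem h1) hf) h1) (conj_mem_Ep p he) hn)

end Pool.Agent.P.MP_dba3d2_lc


end

section

/-! Step C_G2 of the stability project. -/

namespace Pool.Agent.P.MP_dba3d2_lc

open Filter

namespace C_g2A

variable {Γ : HG} {a : Amb} {μ : a.K} {F : Bool → Subgroup (MM Γ a)}
  {g h h' m p q x y c : MM Γ a} {w w' : List (Tg Γ a × MM Γ a)}

theorem tr (h : On μ p g (g * x)) : On μ (g⁻¹ * p) 1 x := by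
  simpa using h.mul g⁻¹

theorem st (h : Stab μ (g⁻¹ * p) (g⁻¹ * q) c) : Stab μ p q (g * c * g⁻¹) := by
  simpa using (stab_conj g).2 h

theorem cutw (hμ : Big μ) (hw : Nice F w) (hl : Ls (ln (vl w)) μ) (N : MM Γ a → MM Γ a → Prop)
    (hN : ∀ p q, N p q → Ls μ (ds p q)) (hc : ∀ p q m, N p q → On μ m p q → N p m ∨ N m q)
    (x₀ : MM Γ a) (hp : On μ p x₀ (x₀ * vl w)) (hq : On μ q x₀ (x₀ * vl w)) (h : N p q) :
    ∃ z ∈ F false ⊔ F true, ∃ t y, TOK F (fun _ => True) t ∧ y ∈ LF F t ∧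
      (∀ c, t = .inr c → y ∉ XF F none) ∧ Ls (ln y) μ ∧ ∃ p' q', N p' q' ∧
        On μ p' (x₀ * z) (x₀ * z * y) ∧ On μ q' (x₀ * z) (x₀ * z * y) := by
  obtain ⟨L₁, x, L₂, p', q', e, h1, h2, h3⟩ := (Geo.cut hμ N False hN
    (fun p q m k k' => (hc p q m k k').imp_right Or.inl) _ x₀ p q (hw.geo' hμ hl)
    (by rwa [idC_prod]) (by rwa [idC_prod]) h).resolve_left id
  obtain ⟨w₁, w₂, rfl, rfl, e2⟩ := List.map_eq_append_iff.1 e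
  obtain ⟨s, w₃, rfl, rfl, -⟩ := List.map_eq_cons_iff.1 e2
  have hs : s ∈ w₁ ++ s :: w₃ := by simp
  have b : Ls μ (ln ((idC F).π s.2)) := by
    simpa only [ds_mul_right] using On.nondeg hμ h2 h3 (hN _ _ h1)
  refine ⟨_, ?_, s.1, s.2, (hw.wd s hs).1, (hw.wd s hs).2, hw.nz.big hs hμ b,
    (hw.ls hμ hl).mono_left (Cv.ln_le_sl hs), p', q', h1, h2, h3⟩
  exact (idC_prod (F := F) (w := w₁)).symm ▸ (Cv.wd_append.1 hw.wd).1.mem_P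

theorem piece (hA : S_C_ARC) (hJ : S_C_J0) (T : TwoF F) (hμ : Big μ) (hw : Nice F w)
    (hw' : Nice F w') (hl : Ls (ln (vl w)) μ) (hl' : Ls (ln (vl w')) μ)
    (ov : Ov μ p q 1 (vl w) g (g * vl w')) (N : MM Γ a → MM Γ a → Prop)
    (hN : ∀ p' q', N p' q' → Ls μ (ds p' q') ∧ On μ p' p q ∧ On μ q' p q)
    (hc : ∀ p q m, N p q → On μ m p q → N p m ∨ N m q) (h : N p q) :
    g ∈ F false ⊔ F true ∨ ∃ z ∈ F false ⊔ F true, ∃ z' ∈ F false ⊔ F true, ∃ o o',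
      ∃ b ∈ XF F o, ∃ b' ∈ XF F o', Prim b ∧ Prim b' ∧ Cj (z⁻¹ * g * z') b' b ∧
        ∃ p' q', N p' q' ∧ Stab μ p' q' (z * b * z⁻¹) := by
  obtain ⟨-, a1, a2, b1, b2⟩ := ov
  obtain ⟨z, hz, t, y, t1, t2, t3, t4, p1, q1, n1, o1, o2⟩ := cutw hμ hw hl N
    (fun _ _ k => (hN _ _ k).1) hc 1 (by rwa [one_mul]) (by rwa [one_mul]) h
  rw [one_mul] at o1 o2
  obtain ⟨z', hz', t', y', s1, s2, s3, s4, p2, q2, ⟨n2, o3, o4⟩, o5, o6⟩ := cutw hμ hw' hl'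
    (fun p' q' => N p' q' ∧ On μ p' z (z * y) ∧ On μ q' z (z * y)) (fun _ _ k => (hN _ _ k.1).1)
    (fun p' q' m e hm =>
      have om := On.conv hμ e.2.1 e.2.2 hm
      (hc p' q' m e.1 hm).imp (fun x => ⟨x, e.2.1, om⟩) fun x => ⟨x, om, e.2.2⟩) g
    (b1.conv hμ b2 (hN _ _ n1).2.1) (b1.conv hμ b2 (hN _ _ n1).2.2) ⟨n1, o1, o2⟩
  have e : ∀ r : MM Γ a, (z⁻¹ * g * z')⁻¹ * (z⁻¹ * r) = (g * z')⁻¹ * r := fun r => by group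
  rcases hJ Γ a F T μ t t' y y' (z⁻¹ * g * z') (z⁻¹ * p2) (z⁻¹ * q2) hμ
    (by rw [ds_mul_left]; exact (hN _ _ n2).1) t1 s1 t2 s2
    (hA Γ a F T μ t y _ _ hμ t1 t2 t3 t4 (tr o3) (tr o4))
    (by rw [e, e]; exact hA Γ a F T μ t' y' _ _ hμ s1 s2 s3 s4 (tr o5) (tr o6)) with
    ⟨o, o', -, -, k, hk, k', hk', e1⟩ | ⟨b, b', c1, c2, c3⟩
  · left
    have : g = z * (k * k') * z'⁻¹ := by rw [← e1]; group
    rw [this]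
    exact mul_mem (mul_mem hz (mul_mem (XF_le_P o hk) (XF_le_P o' hk'))) (inv_mem hz')
  · exact .inr ⟨z, hz, z', hz', _, _, b, c1.1, b', c2.1, c1.2.1, c2.2.1, c3, p2, q2, n2,
      st c1.2.2.1⟩

end C_g2A

open C_g2A in
theorem p_C_G2 (hELEM : S_ELEM) (hLINE : S_LINE) (hC_ARC : S_C_ARC) (hC_J0 : S_C_J0) (hC_NFE : S_C_NFE) (hC_RIGX : S_C_RIGX) :
    S_C_G2 := by
  intro Γ a F T μ hμ h hh h' hh' hl hl' g p q ov np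
  have h0 := hμ.pos.le
  obtain ⟨w, hw, rfl⟩ := (hC_NFE Γ a F T).1 h hh
  obtain ⟨w', hw', rfl⟩ := (hC_NFE Γ a F T).1 h' hh'
  rcases piece hC_ARC hC_J0 T hμ hw hw' hl hl' ov
    (fun p' q' => Ls μ (ds p' q') ∧ On μ p' p q ∧ On μ q' p q) (fun _ _ k => k)
    (fun p' q' m e hm =>
      have om := On.conv hμ e.2.1 e.2.2 hm
      (Ls.add_cases (e.1.mono_right (ds_tri p' m q'))).imp (fun x => ⟨x, e.2.1, om⟩)
        fun x => ⟨x, om, e.2.2⟩) ⟨ov.1, on_left h0 _ _, on_right h0 _ _⟩ with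
    e | ⟨z, hz, z', hz', o, o', b, hb, b', hb', p1, p2, j1, -⟩
  · exact e
  have ns : ¬ Stab μ p q (z * b * z⁻¹) := fun k => np ⟨_, (p1.conj z).1, k⟩
  rcases piece hC_ARC hC_J0 T hμ hw hw' hl hl' ov
    (fun p' q' => (Ls μ (ds p' q') ∧ On μ p' p q ∧ On μ q' p q) ∧ ¬ Stab μ p' q' (z * b * z⁻¹))
    (fun _ _ k => k.1) (by
      rintro p' q' m ⟨⟨e1, e2, e3⟩, e4⟩ hm
      have om := On.conv hμ e2 e3 hm
      have tri := ds_tri p' m q'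
      rcases ll_or_ls hμ.pos (ds p' m) with u | u
      · exact Or.inr ⟨⟨e1.of_le_add u hμ.pos 1 (by push_cast; linarith), om, e3⟩,
          fun e => e4 (e.congr (FixA.ll_comm u) (FixA.ll_self h0 _))⟩
      rcases ll_or_ls hμ.pos (ds m q') with v | v
      · exact Or.inl ⟨⟨u, e2, om⟩, fun e => e4 (e.congr (FixA.ll_self h0 _) v)⟩
      by_cases k1 : Stab μ p' m (z * b * z⁻¹)
      · exact Or.inr ⟨⟨v, om, e3⟩, fun e => e4 ⟨k1.1, e.2⟩⟩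
      · exact Or.inl ⟨⟨u, e2, om⟩, k1⟩) ⟨⟨ov.1, on_left h0 _ _, on_right h0 _ _⟩, ns⟩ with
    e | ⟨k, hk, k', hk', o1, o1', d, hd, d', hd', q1, q2, j2, p', q', n, s⟩
  · exact e
  exact hC_RIGX Γ a F T g z hz z' hz' k hk k' hk' o o' o1 o1' b hb b' hb' d hd d' hd' p1 p2 q1 q2
    j1 j2 fun e => n.2 ⟨(p1.conj z).fix hELEM hLINE (q1.conj k).1 e s.1,
      (p1.conj z).fix hELEM hLINE (q1.conj k).1 e s.2⟩

end Pool.Agent.P.MP_dba3d2_lc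


end

section

/-! Interface, chapter C: combination theorems. -/

namespace Pool.Agent.P.MP_dba3d2_lc

open Filter

-- deps: C_EMEM C_EXT2 C_FINP C_NFE C_G20S C_ANC C_CEN C_EX C_E12 C_PUR C_G2
-- imports: Pool.Agent.P.MP_dba3d2_lc.C.TTb
def S_TWO : Prop := ∀ (Γ : HG) (a : Amb) (F : Bool → Subgroup (MM Γ a)), TwoF F →
  TwoOut (F false) (F true)

-- deps: TWO C_GRTW
def S_GRAFT : Prop := ∀ (Γ : HG) (a : Amb) (H W : Subgroup (MM Γ a)), GC0 H → GC0 W → Sep H W →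
  TwoOut H W ∧ AddNF (H ⊔ W) {g | g ∈ H ∨ g ∈ W}

-- deps: ELEM GRAFT
-- imports: Pool.Agent.P.MP_dba3d2_lc.B.Axis2
def S_GISO : Prop := ∀ (Γ : HG) (a b : Amb) (H W : Subgroup (MM Γ a)) (θ0 : H →* MM Γ b)
  (θ1 : W →* MM Γ b), GC0 H → GC0 W → Sep H W → GC0 θ0.range → GC0 θ1.range →
  Sep θ0.range θ1.range → Function.Injective θ0 → Function.Injective θ1 →
  (∀ (x : H) (y : W), (x : MM Γ a) = y ↔ θ0 x = θ1 y) →
  (∀ x : H, θ0 x ∈ θ1.range → (x : MM Γ a) ∈ W) →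
  ∃ θ : ↥(H ⊔ W) →* MM Γ b, Function.Injective θ ∧ θ.range = θ0.range ⊔ θ1.range ∧
    (∀ x : H, θ ⟨x, (le_sup_left : H ≤ H ⊔ W) x.2⟩ = θ0 x) ∧
    ∀ y : W, θ ⟨y, (le_sup_right : W ≤ H ⊔ W) y.2⟩ = θ1 y

-- deps: C2_RX C2_TOP C2_HST C2_HFIN C2_HEXT C2_LGEO C2_LNF
-- imports: Pool.Agent.P.MP_dba3d2_lc.C.LTb
def S_LET : Prop := ∀ (Γ : HG) (a : Amb) (μ : a.K) (B : Subgroup (MM Γ a)) (r : ℕ)
  (K : Fin r → Subgroup Γ.G) (u : Fin r → MM Γ a), Big μ → GC0 B → B ≤ ball Γ μ →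
  Letters μ B K u →
  TopOut μ B (B ⊔ Subgroup.closure (Set.range u)) ∧ ExtL B u ∧
  AddNF (B ⊔ Subgroup.closure (Set.range u)) {g | g ∈ B ∨ ∃ i, g = u i ∨ g = (u i)⁻¹} ∧
  (∀ i, ∀ x ∈ B, (u i)⁻¹ * x * u i ∈ B → x ∈ (K i).map (cst Γ a)) ∧
  ∀ c ∈ B, Prim c → ∀ f ∈ B ⊔ Subgroup.closure (Set.range u), f ∈ Ep c → f ∈ B

-- deps: ELEM PERC ROOT C2_RW C2_RX C2_TOP C2_HST C2_HFIN C2_HEXT C2_PJN C2_PGEO
-- imports: Pool.Agent.P.MP_dba3d2_lc.C.LTb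
def S_PT : Prop := ∀ (Γ : HG) (a : Amb) (μ : a.K) (B : Subgroup (MM Γ a)) (p h : MM Γ a),
  Big μ → GC0 B → B ≤ ball Γ μ → h ∈ B → On μ p 1 h → (∀ x ∈ B, Ls μ (ds p x)) →
  (∀ x ∈ B, Ll (ds p (x * p)) μ → p⁻¹ * x * p ∈ std Γ a ∧ IsOfFinOrder x) →
  TopOut μ B (B ⊔ Subgroup.closure (Set.range fun _ : Fin 1 => p)) ∧ ExtL B (fun _ : Fin 1 => p) ∧
  (∀ x ∈ B, p⁻¹ * x * p ∈ B → Ll (ds p (x * p)) μ) ∧
  ∀ c ∈ B, Prim c → ∀ f ∈ B ⊔ Subgroup.closure (Set.range fun _ : Fin 1 => p), f ∈ Ep c → f ∈ B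

-- deps: C2_EEP C2_EEXT C2_EXP0
-- imports: Pool.Agent.P.MP_dba3d2_lc.C.LTb
def S_EXP : Prop := ∀ (Γ : HG) (a : Amb) (μ : a.K) (B : Subgroup (MM Γ a)) (c : MM Γ a)
  (k : ℚ →+ a.Z), Big μ → GC0 B → B ≤ ball Γ μ → c ∈ B → Prim c → Ll (md c) μ →
  (∀ q, ipow c (k q) ∈ ball Γ μ) →
  (∀ q, q ≠ 0 → ∀ f ∈ B, f ∈ Ep c → Ls μ (md (f * ipow c (k q)))) →
  TopOut μ B (B ⊔ Subgroup.closure (Set.range fun q => ipow c (k q))) ∧ ExtE B c k ∧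
  AddNF (B ⊔ Subgroup.closure (Set.range fun q => ipow c (k q)))
    {g | g ∈ B ∨ ∃ x ∈ B, ∃ f ∈ B, f ∈ Ep c ∧ Cen (x⁻¹ * c * x) ∧
      ∃ q, g = x⁻¹ * (f * ipow c (k q)) * x} ∧
  (∀ d ∈ B, Prim d → (∀ x ∈ B, ¬ Cj x c d) →
    ∀ f ∈ B ⊔ Subgroup.closure (Set.range fun q => ipow c (k q)), f ∈ Ep d → f ∈ B) ∧
  ∀ f ∈ B ⊔ Subgroup.closure (Set.range fun q => ipow c (k q)), f ∈ Ep c →
    ∃ f0 ∈ B, ∃ q, f = f0 * ipow c (k q)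

end Pool.Agent.P.MP_dba3d2_lc


end

section

/-! Interface, chapter C2: geometry of the adjunctions at the top scale. -/

namespace Pool.Agent.P.MP_dba3d2_lc

open Filter

-- deps: ELEM LINE PERC ROOT
-- imports: Pool.Agent.P.MP_dba3d2_lc.C.LTb
def S_C2_RX : Prop := ∀ (Γ : HG) (a : Amb) (μ : a.K) (T : Subgroup (MM Γ a)) (d : MM Γ a),
  Big μ → ¬ IsOfFinOrder d → Ll (md d) μ →
  (∀ x y, Rx μ T d x y → Rx μ T d y x) ∧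
  (∀ x y z, Rx μ T d x y → Rx μ T d y z → Rx μ T d x z) ∧
  (∀ t ∈ T, ∀ x y, Rx μ T (t⁻¹ * d * t) x y → Rx μ T d (t * x) (t * y)) ∧
  (∀ x y, Rx μ T d x y ∨ ∃ p q, Ls μ (ds p q) ∧ On μ p x y ∧ On μ q x y ∧ Stab μ p q d) ∧
  ∀ B ≤ T, GC0 B → B ≤ ball Γ μ → Prim d → ∀ s ∈ B, Rx μ T d 1 s

-- deps: ELEM LINE PERC RIG
-- imports: Pool.Agent.P.MP_dba3d2_lc.C.LTb
def S_C2_G2 : Prop := ∀ (Γ : HG) (a : Amb) (μ : a.K) (B T : Subgroup (MM Γ a))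
  (W S : Set (MM Γ a)), TopD μ B T W S →
  (∀ h ∈ T, ∀ p q, Ls μ (ds p q) → On μ p 1 h → On μ q 1 h → Per μ p q →
    ∃ c ∈ T, Prim c ∧ Stab μ p q c) ∧
  ∀ h ∈ T, ∀ h' ∈ T, ∀ g p q, Ov μ p q 1 h g (g * h') → ¬ Per μ p q → g ∈ T

-- deps: ELEM LINE
-- imports: Pool.Agent.P.MP_dba3d2_lc.C.LTb
def S_C2_TPC : Prop := ∀ (Γ : HG) (a : Amb) (μ : a.K) (B T : Subgroup (MM Γ a))
  (W S : Set (MM Γ a)), TopD μ B T W S → PerRed T B B ∧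
  (∀ c ∈ T, Prim c → ∀ f ∈ T, f ∈ Ep c → ∀ n : ℕ, 0 < n →
    ∃ f' ∈ T, f' ∈ Ep c ∧ ∃ r : ℕ, IsOfFinOrder (f⁻¹ * (f' ^ n * c ^ r))) ∧
  ∀ c ∈ T, ∀ c' ∈ T, ¬ IsOfFinOrder c → ¬ IsOfFinOrder c' →
    ∃ p ∈ T, Ls (ln p) (ln c + ln c') ∧ ∀ q : MM Γ a,
      Ls (ln (p⁻¹ * c * p) + ln (p⁻¹ * c' * p)) (ln (q⁻¹ * c * q) + ln (q⁻¹ * c' * q))

-- deps: C2_RX C2_G2 C2_TPC
-- imports: Pool.Agent.P.MP_dba3d2_lc.C.LTb
def S_C2_TOP : Prop := ∀ (Γ : HG) (a : Amb) (μ : a.K) (B T : Subgroup (MM Γ a))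
  (W S : Set (MM Γ a)), TopD μ B T W S → GC0 T ∧ PerRed T B B

-- deps: ELEM LINE ROOT
-- imports: Pool.Agent.P.MP_dba3d2_lc.C.LTb
def S_C2_HST : Prop := ∀ (Γ : HG) (a : Amb) (μ : a.K) (B T : Subgroup (MM Γ a)),
  Big μ → GC0 B → B ≤ T → T ≤ ball Γ μ → (∀ z ∈ T, z ∉ B → Npg μ z) →
  (∀ t ∈ T, t ∉ B → Ls μ (ln t)) ∧
  (∀ c ∈ B, Prim c → ∀ f ∈ T, f ∈ Ep c → f ∈ B) ∧
  ((∀ c ∈ T, Ll (md c) μ → ∃ g ∈ T, g⁻¹ * c * g ∈ B) →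
    ∀ c ∈ T, ∀ c' ∈ T, ¬ IsOfFinOrder c → ¬ IsOfFinOrder c' → ∀ x, Ll (ds x (c * x)) μ →
      Ll (ds x (c' * x)) μ → ∃ t ∈ T, t⁻¹ * c * t ∈ B ∧ t⁻¹ * c' * t ∈ B)

-- deps:
-- imports: Pool.Agent.P.MP_dba3d2_lc.C.LTb
def S_C2_LGEO : Prop := ∀ (Γ : HG) (a : Amb) (μ : a.K) (B : Subgroup (MM Γ a)) (r : ℕ)
  (K : Fin r → Subgroup Γ.G) (u : Fin r → MM Γ a), Big μ → GC0 B → B ≤ ball Γ μ →
  Letters μ B K u → (∀ i, u i ∉ B) ∧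
  (∀ i, ∀ x ∈ B, (u i)⁻¹ * x * u i ∈ B → x ∈ (K i).map (cst Γ a)) ∧
  ∀ l, WRed B (HP B u) l → ∀ b ∈ B, Geo μ (wflat (hv u) l ++ [b])

-- deps: C2_RW C2_LGEO
-- imports: Pool.Agent.P.MP_dba3d2_lc.C.LTb
def S_C2_LNF : Prop := ∀ (Γ : HG) (a : Amb) (μ : a.K) (B : Subgroup (MM Γ a)) (r : ℕ)
  (K : Fin r → Subgroup Γ.G) (u : Fin r → MM Γ a), Big μ → GC0 B → B ≤ ball Γ μ →
  Letters μ B K u → WBr B (hv u) (HP B u) ∧
  (∀ t ∈ B ⊔ Subgroup.closure (Set.range u), ∃ L : List (MM Γ a), L.prod = t ∧ Geo μ L ∧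
    ∀ x ∈ L, x ∈ B ∨ ∃ i, x = u i ∨ x = (u i)⁻¹) ∧
  (∀ z ∈ B ⊔ Subgroup.closure (Set.range u), z ∉ B → Npg μ z) ∧
  ∀ c ∈ B ⊔ Subgroup.closure (Set.range u), Ll (md c) μ →
    ∃ g ∈ B ⊔ Subgroup.closure (Set.range u), g⁻¹ * c * g ∈ B

-- deps:
-- imports: Pool.Agent.P.MP_dba3d2_lc.C.LTb
def S_C2_PJN : Prop := ∀ (Γ : HG) (a : Amb) (μ : a.K) (B : Subgroup (MM Γ a)) (p h : MM Γ a),
  PtD μ B p h → Ls (ln p) μ ∧ (∀ x ∈ B, p⁻¹ * x * p ∈ B ↔ Ll (ds p (x * p)) μ) ∧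
  ∀ α α', (α = 1 ∨ α = p) → (α' = 1 ∨ α' = p) → ∀ β ∈ B,
    (∃ y ∈ B, ∃ y' ∈ B, On μ α y y' ∧ On μ (β * α') y y') ∧
    (∀ r, On μ r 1 (p⁻¹ * β * α) → Ls μ (ln r) → ¬ Per μ 1 r) ∧
    ∀ β' ∈ B, On μ 1 (p⁻¹ * β * α) (β' * α') ∧
      ∀ z ∈ B, Ll (ln z) μ → p * z * p⁻¹ ∉ B → On μ 1 (p⁻¹ * β * α) (z * (p⁻¹ * β' * α'))

-- deps: C2_PJN
-- imports: Pool.Agent.P.MP_dba3d2_lc.C.LTb
def S_C2_PGEO : Prop := ∀ (Γ : HG) (a : Amb) (μ : a.K) (B : Subgroup (MM Γ a)) (p h : MM Γ a),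
  PtD μ B p h →
  (∀ l, WRed B (HP B fun _ : Fin 1 => p) l → ∀ b ∈ B, ∃ L : List (MM Γ a),
    L.prod = wval (hv fun _ : Fin 1 => p) l * b ∧ Geo μ L ∧
    (∀ x ∈ L, ∃ α α', (α = 1 ∨ α = p) ∧ (α' = 1 ∨ α' = p) ∧ ∃ β ∈ B, x = α⁻¹ * β * α') ∧
    (l ≠ [] → Npg μ (wval (hv fun _ : Fin 1 => p) l * b))) ∧
  ∀ l, l ≠ [] → WRed B (HP B fun _ : Fin 1 => p) (l ++ l ++ l) → ∃ α, (α = 1 ∨ α = p) ∧
    ∃ L : List (MM Γ a), L.prod = α⁻¹ * wval (hv fun _ : Fin 1 => p) l * α ∧ Geo μ (L ++ L)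

-- deps: ELEM NORM
-- imports: Pool.Agent.P.MP_dba3d2_lc.C.LTb
def S_C2_ENRM : Prop := ∀ (Γ : HG) (a : Amb) (μ : a.K) (B : Subgroup (MM Γ a)) (c : MM Γ a)
  (k : ℚ →+ a.Z), ExpD μ B c k →
  (∀ h ∈ B, ∃ f ∈ B, f ∈ Ep c ∧ ¬ Fol μ (h * f)⁻¹ c) ∧
  (∀ h ∈ B, ¬ InE c h → ∃ f ∈ B, ∃ f' ∈ B, ∃ y ∈ B, f ∈ Ep c ∧ f' ∈ Ep c ∧ h = f * y * f' ∧
    ¬ InE c y ∧ ¬ Fol μ y c ∧ ¬ Fol μ y⁻¹ c) ∧
  ∀ l, (∀ s ∈ l, Prod.fst s ∈ B ∧ ¬ InE c (Prod.fst s)) → ∀ g ∈ B, g ∈ Ep c →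
    ∃ f ∈ B, f ∈ Ep c ∧ ∃ l', NW μ B c k l' ∧ wval (ev c k) l * g = f * wval id l'

-- deps: ELEM LINE PERC
-- imports: Pool.Agent.P.MP_dba3d2_lc.C.LTb
def S_C2_ELOC : Prop := ∀ (Γ : HG) (a : Amb) (μ : a.K) (B : Subgroup (MM Γ a)) (c : MM Γ a)
  (k : ℚ →+ a.Z), ExpD μ B c k →
  (∀ f ∈ Ep c, Stab μ 1 f c) ∧ (∀ e ∈ SE B c k, Ls μ (ln e)) ∧
  ∀ l, NW μ B c k l → ∀ b₀, ¬ Fol μ b₀⁻¹ c → ∀ e ∈ SE B c k, ∀ b, ¬ Fol μ b c →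
    Geo μ (b₀ :: e :: (wflat id l ++ [b]))

-- deps: C2_ENRM C2_ELOC
-- imports: Pool.Agent.P.MP_dba3d2_lc.C.LTb
def S_C2_EGEO : Prop := ∀ (Γ : HG) (a : Amb) (μ : a.K) (B : Subgroup (MM Γ a)) (c : MM Γ a)
  (k : ℚ →+ a.Z), ExpD μ B c k →
  (∀ l, WRed B (EP c) l → ∀ b ∈ B,
    (∃ L : List (MM Γ a), L.prod = wval (ev c k) l * b ∧ Geo μ L ∧
      ∀ x ∈ L, x ∈ B ∨ x ∈ SE B c k) ∧
    ∀ s l', l = s :: l' → ∃ x ∈ B, s.1⁻¹ * x ∈ Ep c ∧ ∃ e ∈ SE B c k,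
      On μ x 1 (wval (ev c k) l * b) ∧ On μ (x * e) 1 (wval (ev c k) l * b) ∧ On μ x 1 (x * e)) ∧
  ∀ l, l ≠ [] → WRed B (EP c) (l ++ l) → ∃ f ∈ B, ∃ L : List (MM Γ a),
    L.prod = f⁻¹ * wval (ev c k) l * f ∧ Geo μ (L ++ L)

-- deps: ELEM LINE PERC ROOT C2_RW C2_ELOC C2_EGEO
-- imports: Pool.Agent.P.MP_dba3d2_lc.C.LTb
def S_C2_EEP : Prop := ∀ (Γ : HG) (a : Amb) (μ : a.K) (B : Subgroup (MM Γ a)) (c : MM Γ a)
  (k : ℚ →+ a.Z), ExpD μ B c k → WBr B (ev c k) (EP c) ∧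
  (∀ t ∈ ET B c k, t ∉ B → Ls μ (ln t)) ∧
  (∀ d ∈ B, Prim d → (∀ x ∈ B, ¬ Cj x c d) → ∀ f ∈ ET B c k, f ∈ Ep d → f ∈ B) ∧
  ∀ f ∈ ET B c k, f ∈ Ep c → ∃ f0 ∈ B, ∃ q, f = f0 * ipow c (k q)

-- deps: ELEM PERC C2_RW C2_ELOC C2_EGEO C2_EEP
-- imports: Pool.Agent.P.MP_dba3d2_lc.C.LTb
def S_C2_ESTAR : Prop := ∀ (Γ : HG) (a : Amb) (μ : a.K) (B : Subgroup (MM Γ a)) (c : MM Γ a)
  (k : ℚ →+ a.Z), ExpD μ B c k →
  ∀ d ∈ ET B c k, ∀ d' ∈ ET B c k, ¬ IsOfFinOrder d → ¬ IsOfFinOrder d' → ∀ x,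
    Ll (ds x (d * x)) μ → Ll (ds x (d' * x)) μ →
    ∃ t ∈ ET B c k, t⁻¹ * d * t ∈ B ∧ t⁻¹ * d' * t ∈ B

-- deps: ROOT C2_STARFIN
-- imports: Pool.Agent.P.MP_dba3d2_lc.C.LTb
def S_C2_EFIN : Prop := ∀ (Γ : HG) (a : Amb) (B : Subgroup (MM Γ a)) (c : MM Γ a)
  (k : ℚ →+ a.Z), GC0 B → c ∈ B → ¬ IsOfFinOrder c → WBr B (ev c k) (EP c) →
  FinRed (ET B c k) B B

-- deps: C2_RW3
-- imports: Pool.Agent.P.MP_dba3d2_lc.C.LTb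
def S_C2_EEXT : Prop := ∀ (Γ : HG) (a : Amb) (B : Subgroup (MM Γ a)) (c : MM Γ a)
  (k : ℚ →+ a.Z), WBr B (ev c k) (EP c) → ExtE B c k

-- deps: ELEM PERC C2_RW C2_RX C2_TOP C2_ELOC C2_EGEO C2_EEP C2_ESTAR C2_EFIN
-- imports: Pool.Agent.P.MP_dba3d2_lc.C.LTb
def S_C2_EXP0 : Prop := ∀ (Γ : HG) (a : Amb) (μ : a.K) (B : Subgroup (MM Γ a)) (c : MM Γ a)
  (k : ℚ →+ a.Z), ExpD μ B c k →
  TopOut μ B (ET B c k) ∧ AddNF (ET B c k) {g | g ∈ B ∨ g ∈ SE B c k}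

end Pool.Agent.P.MP_dba3d2_lc


end

section

/-! Step C2_RX of the stability project. -/

namespace Pool.Agent.P.MP_dba3d2_lc

open Filter

namespace C2_rx

variable {Γ : HG} {a : Amb} {μ : a.K} {d f x y z m n : MM Γ a}

/-- the projections agree -/
def E (μ : a.K) (d x y : MM Γ a) : Prop :=
  Ll (2 * ds x y - (ds x (d * x) + ds y (d * y))) μ

/-- `m` is the projection of `x` -/
def Pj (μ : a.K) (d x m : MM Γ a) : Prop :=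
  2 * ds x m ≤ ds x (d * x) ∧ ds x (d * x) ≤ 2 * ds x m + 2 ∧ Ll (ds m (d * m)) μ ∧
    ∀ z, Ll (ds z (d * z)) μ → On μ m x z

theorem pj (hμ : Big μ) (hd : Ll (md d) μ) (x : MM Γ a) : ∃ m, Pj μ d x m := by
  obtain ⟨m, -, h⟩ := exists_proj hμ hd x
  exact ⟨m, h⟩

theorem lemA (hm : Pj μ d x m) (hn : Pj μ d y n) (h : Ll (ds m n) μ) : E μ d x y := by
  refine Ll.mono_left ?_ h.two
  have h1 := ds_tri x m y
  have h2 := ds_tri m n y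
  rw [ds_comm n y] at h2
  linarith [hm.1, hn.1]

theorem lemB0 (hμ : Big μ) (hm : Pj μ d x m) (hn : Pj μ d y n) (h : Ls μ (ds m n)) :
    On μ m x y ∧ On μ n x y :=
  On.glue hμ (hm.2.2.2 n hn.2.2.1) (hn.2.2.2 m hm.2.2.1).symm h

theorem lemB (hμ : Big μ) (hm : Pj μ d x m) (hn : Pj μ d y n) (h : E μ d x y) :
    Ll (ds m n) μ := by
  refine (ll_or_ls hμ.pos _).elim id fun hl => Ll.half ?_
  have h1 : Ll (ds x m + ds m n - ds x n) μ := hm.2.2.2 n hn.2.2.1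
  have h2 : Ll (ds x n + ds n y - ds x y) μ := (lemB0 hμ hm hn hl).2
  refine Ll.mono_left ?_ (((h1.two.add h2.two).add h).add (FixA.ll_two hμ).two)
  rw [ds_comm n y]
  linarith [hm.2.1, hn.2.1]

theorem E.trans (hμ : Big μ) (hd : Ll (md d) μ) (h1 : E μ d x y) (h2 : E μ d y z) :
    E μ d x z := by
  obtain ⟨m, hm⟩ := pj hμ hd x
  obtain ⟨n, hn⟩ := pj hμ hd y
  obtain ⟨o, ho⟩ := pj hμ hd z
  exact lemA hm ho (Ll.mono_left (ds_tri m n o) ((lemB hμ hm hn h1).add (lemB hμ hn ho h2)))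

theorem lemC (hE : S_ELEM) (hL : S_LINE) (hμ : Big μ) (hd : ¬ IsOfFinOrder d) (hm : Ll (md d) μ)
    (hf : f ∈ Ep d) (x : MM Γ a) : Ll (ds (f * x) (d * (f * x)) - ds x (d * x)) μ := by
  rw [← disp_conj']
  refine disp_ll hμ hm (fun w hw => fix_of_fix hE hL hd ?_ hw ?_) x
  · exact mul_mem (mul_mem (inv_mem hf) (self_mem_Ep d)) hf
  · rwa [md_conj]

theorem lemC' (hE : S_ELEM) (hL : S_LINE) (hμ : Big μ) (hd : ¬ IsOfFinOrder d) (hm : Ll (md d) μ)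
    (hf : f ∈ Ep d) (x : MM Γ a) : Ll (ds x (d * x) - ds (f * x) (d * (f * x))) μ := by
  have h := lemC hE hL hμ hd hm (inv_mem hf) (f * x)
  rwa [inv_mul_cancel_left] at h

end C2_rx

open C2_rx in
theorem p_C2_RX (hELEM : S_ELEM) (hLINE : S_LINE) (hPERC : S_PERC) (hROOT : S_ROOT) :
    S_C2_RX := by
  intro Γ a μ T d hμ hd hm
  have h4 : ∀ x y, Rx μ T d x y ∨
      ∃ p q, Ls μ (ds p q) ∧ On μ p x y ∧ On μ q x y ∧ Stab μ p q d := by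
    intro x y
    obtain ⟨m, hm'⟩ := pj hμ hm x
    obtain ⟨n, hn'⟩ := pj hμ hm y
    rcases ll_or_ls hμ.pos (ds m n) with h | h
    · exact Or.inl ⟨1, one_mem _, one_mem _, by rw [one_mul]; exact lemA hm' hn' h⟩
    · exact Or.inr ⟨m, n, h, (lemB0 hμ hm' hn' h).1, (lemB0 hμ hm' hn' h).2, hm'.2.2.1, hn'.2.2.1⟩
  refine ⟨?_, ?_, ?_, h4, ?_⟩
  · rintro x y ⟨f, hT, hf, h⟩
    refine ⟨f⁻¹, inv_mem hT, inv_mem hf, ?_⟩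
    rwa [← ds_mul_left f (f⁻¹ * y), mul_inv_cancel_left, ds_comm y (f * x), add_comm]
  · rintro x y z ⟨f, hT, hf, h⟩ ⟨f', hT', hf', h'⟩
    refine ⟨f' * f, mul_mem hT' hT, mul_mem hf' hf, ?_⟩
    have c1 := lemC' hELEM hLINE hμ hd hm (mul_mem hf' hf) x
    have c2 := lemC' hELEM hLINE hμ hd hm hf' y
    have c3 := lemC hELEM hLINE hμ hd hm (mul_mem hf' hf) x
    have e1 : E μ d (f' * f * x) (f' * y) := by
      refine Ll.mono_left (le_of_eq ?_) ((h.add c1).add c2)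
      have : ds (f' * f * x) (f' * y) = ds (f * x) y := by rw [mul_assoc, ds_mul_left]
      rw [this]; ring
    have e2 : E μ d (f' * y) z := Ll.mono_left (le_of_eq (by ring)) (h'.add c2)
    exact Ll.mono_left (le_of_eq (by ring)) (Ll.add (e1.trans hμ hm e2) c3)
  · rintro t ht x y ⟨f, hT, hf, h⟩
    refine ⟨t * f * t⁻¹, mul_mem (mul_mem ht hT) (inv_mem ht), mem_Ep_conj'.1 hf, ?_⟩
    have : ds (t * f * t⁻¹ * (t * x)) (t * y) = ds (f * x) y := by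
      rw [mul_assoc, inv_mul_cancel_left, mul_assoc, ds_mul_left]
    rwa [this, ← disp_conj', ← disp_conj']
  · intro B hBT hB hb hp s hs
    refine (h4 1 s).elim id ?_
    rintro ⟨p, q, h1, h2, h3, h5⟩
    have hdB : d ∈ B := hB.per_mem hELEM hPERC hROOT hμ (one_mem _) hs
      (ball_ds hμ hb (one_mem _) hs) h1 h2 h3 hp h5
    obtain ⟨f, hf, hf', h⟩ := hB.ex μ hμ s hs (ball_ls hμ hb hs) d hdB hp (ball_ls hμ hb hdB) hm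
    refine ⟨f, hBT hf, hf', ?_⟩
    rwa [ds_one_mul, ds_conj, mul_one]

end Pool.Agent.P.MP_dba3d2_lc


end
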