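import Pool.Agent.P.MP_dba3d2_lcM.Ab00
import Pool.Agent.P.MP_dba3d2_lcM.Cb11
import Pool.Agent.P.MP_dba3d2_lcM.Cb12
import Pool.Agent.P.MP_dba3d2_lcM.Cb18

section

/-! Step EXP of the stability project. -/

namespace Pool.Agent.P.MP_dba3d2_lc

open Filter

namespace Exp

variable {Γ : HG} {a : Amb} {B : Subgroup (MM Γ a)} {c x y : MM Γ a} {k : ℚ →+ a.Z}

theorem ipow_cj (x c : MM Γ a) (l : a.Z) : ipow (x⁻¹ * c * x) l = x⁻¹ * ipow c l * x := by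
  simpa using ipow_conj x⁻¹ c l

theorem et_le (hx : x ∈ B) (c : MM Γ a) (k : ℚ →+ a.Z) : ET B (x⁻¹ * c * x) k ≤ ET B c k := by
  refine sup_le le_sup_left ((Subgroup.closure_le _).2 (Set.range_subset_iff.2 fun q => ?_))
  have h : x ∈ ET B c k := (le_sup_left : B ≤ _) hx
  rw [ipow_cj]
  exact mul_mem (mul_mem (inv_mem h)
    ((le_sup_right : _ ≤ B ⊔ _) (Subgroup.subset_closure ⟨q, rfl⟩))) h

theorem et_eq (hx : x ∈ B) (c : MM Γ a) (k : ℚ →+ a.Z) : ET B (x⁻¹ * c * x) k = ET B c k :=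
  le_antisymm (et_le hx c k) (by simpa [mul_assoc] using et_le (inv_mem hx) (x⁻¹ * c * x) k)

theorem inE (h : InE (x⁻¹ * c * x) y) : InE c (x * y * x⁻¹) := by
  have e : (x⁻¹ * c * x) ^ Γ.e = x⁻¹ * c ^ Γ.e * x := by simpa using conj_pow (a := x⁻¹) (b := c)
  have k : x * y * x⁻¹ * c ^ Γ.e * (x * y * x⁻¹)⁻¹ =
      x * (y * (x⁻¹ * c ^ Γ.e * x) * y⁻¹) * x⁻¹ := by group
  rw [InE, e] at h
  rw [InE, k]
  exact h.imp (fun h => by rw [h]; group) fun h => by rw [h]; group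

theorem ext (hx : x ∈ B) (h : ExtE B (x⁻¹ * c * x) k) : ExtE B c k := by
  intro G _ θ0 ν h1 h2
  obtain ⟨θ, a1, a2⟩ := h G θ0 ((MulAut.conj (θ0 ⟨x, hx⟩)⁻¹).toMonoidHom.comp ν)
    (fun y q hy => by
      have := (h1 (⟨x, hx⟩ * y * ⟨x, hx⟩⁻¹) q (mem_Ep_conj'.1 hy)).map
        (MulAut.conj (θ0 ⟨x, hx⟩)⁻¹)
      simpa [mul_assoc] using this)
    fun y q hy hn => by
      have := h2 (⟨x, hx⟩ * y * ⟨x, hx⟩⁻¹) q (inE hy) (mt mem_Ep_conj'.2 hn)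
      simp only [MulEquiv.toMonoidHom_eq_coe, MonoidHom.comp_apply, MonoidHom.coe_coe,
        MulAut.conj_apply]
      rw [← this, map_mul, map_mul, map_inv]
      group
  refine ⟨θ.comp (Subgroup.inclusion (et_eq hx c k).ge), a1, fun q => ?_⟩
  have e := congrArg₂ (· * ·) (congrArg₂ (· * ·) (a1 ⟨x, hx⟩) (a2 q)) (congrArg Inv.inv (a1 ⟨x, hx⟩))
  simp only [← map_inv, ← map_mul] at e
  refine Eq.trans (congrArg θ (Subtype.ext ?_)) (e.trans ?_)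
  · show ipow c (k q) = x * ipow (x⁻¹ * c * x) (k q) * x⁻¹
    rw [ipow_cj]
    group
  · simp [mul_assoc]

end Exp

theorem p_EXP (hC2_EEP : S_C2_EEP) (hC2_EEXT : S_C2_EEXT) (hC2_EXP0 : S_C2_EXP0) :
    S_EXP := by
  intro Γ a μ B c k hμ hB hb hc hp hm hs hl
  obtain ⟨x, hx, -, hC⟩ := hB.cen1 hc hp.1
  have cj : ∀ f ∈ B, x * f * x⁻¹ ∈ B := fun f hf => mul_mem (mul_mem hx hf) (inv_mem hx)
  have e : ∀ f q, f * ipow (x⁻¹ * c * x) (k q) = x⁻¹ * (x * f * x⁻¹ * ipow c (k q)) * x :=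
    fun f q => by rw [Exp.ipow_cj]; group
  have D : ExpD μ B (x⁻¹ * c * x) k :=
    ⟨hμ, hB, hb, mul_mem (mul_mem (inv_mem hx) hc) hx, hp.conj' x, hC, by rwa [md_conj],
      fun q => Exp.ipow_cj x c (k q) ▸ mul_mem (mul_mem (inv_mem (hb hx)) (hs q)) (hb hx),
      fun q hq f hf h => by
        rw [e, md_conj]
        exact hl q hq _ (cj f hf) (mem_Ep_conj'.1 h)⟩
  obtain ⟨a1, a2⟩ := hC2_EXP0 Γ a μ B _ k D
  obtain ⟨b1, -, b3, b4⟩ := hC2_EEP Γ a μ B _ k D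
  rw [Exp.et_eq hx] at a1 a2 b3 b4
  refine ⟨a1, Exp.ext hx (hC2_EEXT Γ a B _ k b1), fun g hg => ?_,
    fun d hd h1 h2 => b3 d hd h1 fun y hy h => h2 _ (mul_mem hy (inv_mem hx)) ?_, fun f hf h => ?_⟩
  · obtain ⟨l, k1, k2⟩ := a2 g hg
    refine ⟨l, fun y hy => (k1 y hy).imp_right ?_, k2⟩
    rintro ⟨f, hf, h, q, -, rfl⟩
    exact ⟨x, hx, _, cj f hf, mem_Ep_conj'.1 h, hC, q, e f q⟩
  · rw [Cj, ← h]
    congr 1
    group
  · have hx' : x ∈ ET B c k := (le_sup_left : B ≤ _) hx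
    obtain ⟨f0, h0, q, h1⟩ := b4 (x⁻¹ * f * x) (mul_mem (mul_mem (inv_mem hx') hf) hx')
      (mem_Ep_conj'.2 (by simpa [mul_assoc] using h))
    rw [e] at h1
    exact ⟨_, cj f0 h0, q, mul_left_cancel (mul_right_cancel h1)⟩

end Pool.Agent.P.MP_dba3d2_lc


end

section

/-! Definitions for adjunctions at all scales and for the limit stage. -/

namespace Pool.Agent.P.MP_dba3d2_lc

open Filter

variable {Γ : HG} {a : Amb}

/-- `u` is a new limit of elements of `H` along the scales `l` -/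
structure PLim (H : Subgroup (MM Γ a)) (l : ℕ → a.K) (u : MM Γ a) : Prop where
  big : ∀ n, Big (l n)
  dec : ∀ n, Ll (l (n + 1)) (l n)
  apx : ∀ n, ∃ v ∈ H, Ls (ds u v) (l n)
  new : ∀ v ∈ H, ∃ n, ¬ Ls (ds u v) (l n)

/-- the exponents in `W` of the primitive elements of `H ⊓ W` -/
def expW (H W : Subgroup (MM Γ a)) : Subgroup (MM Γ a) :=
  Subgroup.closure {f | f ∈ W ∧ ∃ c ∈ H ⊓ W, Prim c ∧ f ∈ Ep c}

/-- `H` with the exponents of `W` -/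
def hatH (H W : Subgroup (MM Γ a)) : Subgroup (MM Γ a) := H ⊔ expW H W

/-- `H ⊓ W` with the exponents of `W` -/
def hatM (H W : Subgroup (MM Γ a)) : Subgroup (MM Γ a) := (H ⊓ W) ⊔ expW H W

/-- admissible types: general, or exponent of a centred primitive element of `H` -/
def TyOk (H : Subgroup (MM Γ a)) (t : Option (MM Γ a)) : Prop :=
  ∀ c, t = some c → c ∈ H ∧ Prim c ∧ Cen c

/-- `x` has type `t` -/
def HasT (t : Option (MM Γ a)) (x : MM Γ a) : Prop := ∀ c, t = some c → x ∈ Ep c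

/-- a typed decomposition of an entry `y` of type `t`, with joints `z` of types `ty` -/
structure TDec (μ : a.K) (H : Subgroup (MM Γ a)) (t : Option (MM Γ a)) (y : MM Γ a) (r : ℕ)
    (h : Fin (r + 1) → MM Γ a) (z : Fin r → MM Γ a) (ty : Fin r → Option (MM Γ a)) : Prop
    extends Dec μ H y r h z where
  ok : ∀ j, TyOk H (ty j)
  has : ∀ j, HasT (ty j) (z j)
  one : ∀ c, t = some c → r ≤ 1 ∧ (∀ j, ty j = some c) ∧ ∀ j, h j ∈ Ep c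

/-- the number of general joints -/
def nG {X : Type} {r : ℕ} (ty : Fin r → Option X) : ℕ :=
  (Finset.univ.filter fun j => (ty j).isNone = true).card

end Pool.Agent.P.MP_dba3d2_lc


end

section

/-! Definitions for the adjunctions at all scales: chains of cosets joined by axes or by limit
points. -/

namespace Pool.Agent.P.MP_dba3d2_lc

open Filter

/-- ends: a point (left) or a primitive element standing for its axis (right) -/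
abbrev Nd (Γ : HG) (a : Amb) : Type := MM Γ a ⊕ MM Γ a

variable {Γ : HG} {a : Amb}

/-- the translate of an end -/
def Nd.mv (x : MM Γ a) : Nd Γ a → Nd Γ a := Sum.map (fun w => x * w) fun d => x * d * x⁻¹

/-- `x` is a centred point for `d` -/
def Ct (d x : MM Γ a) : Prop := Ls (ds x (d * x)) (md d)

/-- the segment from `x` to `y` starts along the axis of `d` at scale `μ` -/
def Al (μ : a.K) (d x y : MM Γ a) : Prop := ∃ q, Ls μ (ds x q) ∧ On μ q x y ∧ Stab μ x q d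

/-- the segment from `x` to `y` does not start along the axis of `d` -/
def NA (d x y : MM Γ a) : Prop := ∀ μ, Big μ → Ls (ds x y) μ → ¬ Al μ d x y

/-- `u` is near `H` at scale `μ` -/
def Ap (H : Subgroup (MM Γ a)) (μ : a.K) (u : MM Γ a) : Prop := ∃ h ∈ H, Ll (ds u h) μ

/-- limit letters -/
structure LimD (H : Subgroup (MM Γ a)) (u : MM Γ a) : Prop where
  a1 : ∀ x ∈ H, Big (ds x u) ∧ Ap H (ds x u) u
  a2 : ∀ x ∈ H, (u⁻¹ * x * u ∉ H ∨ ¬ IsOfFinOrder x) →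
    Big (ln (u⁻¹ * x * u)) ∧ Ap H (ln (u⁻¹ * x * u)) u

/-- the axis of `d` is adjacent to the coset of `g` -/
def Aj (H : Subgroup (MM Γ a)) (g d : MM Γ a) : Prop := Prim d ∧ g⁻¹ * d * g ∈ H

/-- the end is attached to the coset of `g` -/
def At (H : Subgroup (MM Γ a)) (u g : MM Γ a) : Nd Γ a → Prop
  | .inl w => g⁻¹ * w ∈ H ∨ (LimD H u ∧ g⁻¹ * w * u⁻¹ ∈ H)
  | .inr d => Aj H g d

/-- the end is a point of the coset of `g` or an adjacent axis -/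
def At0 (H : Subgroup (MM Γ a)) (g : MM Γ a) : Nd Γ a → Prop
  | .inl w => g⁻¹ * w ∈ H
  | .inr d => Aj H g d

/-- equivalent ends -/
def Sm (H : Subgroup (MM Γ a)) (u : MM Γ a) : Nd Γ a → Nd Γ a → Prop
  | .inl w, .inl w' => w⁻¹ * w' ∈ H ∧ u * (w⁻¹ * w') * u⁻¹ ∈ H
  | .inr d, .inr d' => Ep d = Ep d'
  | _, _ => False

/-- reduced chains of cosets; the end `ε t` joins the cosets of `g t` and `g (t + 1)` -/
structure MCh (H : Subgroup (MM Γ a)) (u : MM Γ a) (g : ℕ → MM Γ a) (ε : ℕ → Nd Γ a) (N : ℕ) :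
    Prop where
  l : ∀ t < N, At H u (g t) (ε t)
  r : ∀ t < N, At H u (g (t + 1)) (ε t)
  ne : ∀ t < N, (g t)⁻¹ * g (t + 1) ∉ H
  rd : ∀ t, t + 1 < N → ¬ Sm H u (ε t) (ε (t + 1))

/-- reduced chains of length at most `n` are not closed -/
def Mx (H : Subgroup (MM Γ a)) (u : MM Γ a) (n : ℕ) : Prop :=
  ∀ g ε N, 0 < N → N ≤ n → MCh H u g ε N → (g 0)⁻¹ * g N ∉ H

/-- weakly reduced pairs of ends at a coset -/
def Rd (H : Subgroup (MM Γ a)) (u g : MM Γ a) (ε ε' : Nd Γ a) : Prop :=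
  ¬ Sm H u ε ε' ∨ (∃ w, ε = .inl w ∧ g⁻¹ * w ∈ H) ∨ ∃ w, ε' = .inl w ∧ g⁻¹ * w ∈ H

/-- chains with two outer ends; the coset of `g t` carries the ends `ε t` and `ε (t + 1)` -/
structure XCh (H : Subgroup (MM Γ a)) (u : MM Γ a) (g : ℕ → MM Γ a) (ε : ℕ → Nd Γ a) (N : ℕ) :
    Prop where
  l : ∀ t ≤ N, At H u (g t) (ε t)
  r : ∀ t ≤ N, At H u (g t) (ε (t + 1))
  rd : ∀ t ≤ N, Rd H u (g t) (ε t) (ε (t + 1))
  h0 : ∀ s t, s < t → t ≤ N → (g s)⁻¹ * g t ∉ H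
  h2 : ∀ s t, s < t → t ≤ N → ∀ e, Aj H (g s) e → Aj H (g t) e →
    t = s + 1 ∧ Sm H u (.inr e) (ε t)

/-- `x` is a foot of the end in the coset of `g` -/
def Ft (H : Subgroup (MM Γ a)) (g : MM Γ a) : Nd Γ a → MM Γ a → Prop
  | .inl w, x => x = w
  | .inr d, x => g⁻¹ * x ∈ H ∧ Ct d x

/-- the segment from `x` to `y` does not start along the end -/
def NAe : Nd Γ a → MM Γ a → MM Γ a → Prop
  | .inl _, _, _ => True
  | .inr d, x, y => NA d x y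

/-- the segment from `x` to `y` is almost a segment of the coset of `g` -/
def Sd (H : Subgroup (MM Γ a)) (g x y : MM Γ a) : Prop :=
  (g⁻¹ * x ∈ H ∧ g⁻¹ * y ∈ H) ∨ (Big (ds x y) ∧ ∃ h ∈ H, ∃ h' ∈ H,
    Ll (ds x (g * h)) (ds x y) ∧ Ll (ds y (g * h')) (ds x y))

/-- normal feet of two ends in the coset of `g` -/
structure Fe (H : Subgroup (MM Γ a)) (g : MM Γ a) (ε ε' : Nd Γ a) (x y : MM Γ a) : Prop where
  f : Ft H g ε x
  f' : Ft H g ε' y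
  sd : Sd H g x y
  na : NAe ε x y
  na' : NAe ε' y x

/-- the segment from `x` to `y` is short or lies on the axis of the end -/
def Eo (μ : a.K) (ε : Nd Γ a) (x y : MM Γ a) : Prop :=
  Ll (ds x y) μ ∨ ∃ d, ε = .inr d ∧ Stab μ x y d

/-- the length of the path `p 0, v 0, p 1, v 1, …, p (N + 1), v (N + 1)` -/
def len2 (p v : ℕ → MM Γ a) (N : ℕ) : a.K :=
  ∑ t ∈ Finset.range (N + 2), ds (p t) (v t) + ∑ t ∈ Finset.range (N + 1), ds (v t) (p (t + 1))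

/-- the path is geodesic at scale `μ` -/
def G2 (μ : a.K) (p v : ℕ → MM Γ a) (N : ℕ) : Prop :=
  Ll (len2 p v N - ds (p 0) (v (N + 1))) μ

/-- the side from `x` to `y` and the later side from `x'` to `y'` cancel -/
def Ovj (μ : a.K) (x y x' y' : MM Γ a) : Prop :=
  Ll (ds y x') μ ∧ ∃ q, Ls μ (ds y q) ∧ On μ q y x ∧ On μ q x' y'

/-- a chain that is periodic under `c`, with periodic feet -/
structure QCh (H : Subgroup (MM Γ a)) (u c : MM Γ a) (g : ℕ → MM Γ a) (ε : ℕ → Nd Γ a)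
    (p v : ℕ → MM Γ a) (N : ℕ) : Prop where
  pos : 0 < N
  ch : ∀ M, MCh H u g ε M
  fe : ∀ t, Fe H (g (t + 1)) (ε t) (ε (t + 1)) (v t) (p (t + 1))
  pv : ∀ t, v (t + N) = c * v t
  pp : ∀ t, p (t + N + 1) = c * p (t + 1)

/-- the length of one period -/
def per2 (p v : ℕ → MM Γ a) (N : ℕ) : a.K :=
  ∑ t ∈ Finset.range N, (ds (v t) (p (t + 1)) + ds (p (t + 1)) (v (t + 1)))

/-- walks through cosets of elements of `T` -/
inductive Wk (H : Subgroup (MM Γ a)) (u : MM Γ a) (T : Subgroup (MM Γ a)) :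
    ℕ → MM Γ a → MM Γ a → Prop
  | nil {x y : MM Γ a} : x⁻¹ * y ∈ H → Wk H u T 0 x y
  | cons {n : ℕ} {x y z : MM Γ a} {ε : Nd Γ a} : At H u x ε → At H u z ε → z ∈ T →
      Wk H u T n z y → Wk H u T (n + 1) x y

/-- primitive elements that are conjugate in `T` into `H` -/
def TP (H T : Subgroup (MM Γ a)) (d : MM Γ a) : Prop := ∃ t ∈ T, Aj H t d

/-- the cosets of `H` in `T` are connected -/
structure Cn (H : Subgroup (MM Γ a)) (u : MM Γ a) (T : Subgroup (MM Γ a)) : Prop where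
  gc : GC0 H
  le : H ≤ T
  mem : LimD H u → u ∈ T
  conn : ∀ x ∈ T, ∀ y ∈ T, ∃ n, Wk H u T n x y

/-- a normal path in `T` between two ends -/
structure NPa (H : Subgroup (MM Γ a)) (u : MM Γ a) (T : Subgroup (MM Γ a)) (g : ℕ → MM Γ a)
    (ε : ℕ → Nd Γ a) (p v : ℕ → MM Γ a) (N : ℕ) : Prop where
  ch : XCh H u g ε N
  mem : ∀ t ≤ N, g t ∈ T
  fe : ∀ t ≤ N, Fe H (g t) (ε t) (ε (t + 1)) (v t) (p (t + 1))
  e0 : p 0 = v 0
  e1 : v (N + 1) = p (N + 1)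

/-- the pieces of elements of `T` at scale `μ` -/
def Pc (H : Subgroup (MM Γ a)) (u : MM Γ a) (T : Subgroup (MM Γ a)) (μ : a.K) (x : MM Γ a) :
    Prop :=
  x ∈ H ∨ (x ∈ T ∧ ∃ c ∈ H, Prim c ∧ Cen c ∧ Ll (ln c) μ ∧ x ∈ Ep c) ∨
    (LimD H u ∧ x ∈ T ∧ Ll (ln x) μ)

/-- the segment from `x` to `y` is a geodesic product of elements with property `X` -/
def Cvr (μ : a.K) (X : MM Γ a → Prop) (x y : MM Γ a) : Prop :=
  ∃ L : List (MM Γ a), L.prod = x⁻¹ * y ∧ Geo μ L ∧ ∀ z ∈ L, X z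

/-- the data of an adjunction at all scales -/
structure AllD (H : Subgroup (MM Γ a)) (u : MM Γ a) (T : Subgroup (MM Γ a)) : Prop where
  gc : GC0 H
  le : H ≤ T
  cov : ∀ μ, Big μ → ∀ t ∈ T, Ls (ln t) μ → Cvr μ (Pc H u T μ) 1 t
  rig : ∀ d d' e e', TP H T d → TP H T d' → TP H T e → TP H T e' → Ep d ≠ Ep d' →
    ∀ x, Cj x e d → Cj x e' d' → x ∈ T
  cr : ∀ c ∈ T, ¬ IsOfFinOrder c → ∃ p ∈ T, Ct c p
  n1 : ∀ d, TP H T d → ∀ x ∈ T, ∃ p ∈ T, Ct d p ∧ NA d p x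
  n2 : ∀ d d', TP H T d → TP H T d' → Ep d ≠ Ep d' →
    ∃ p ∈ T, ∃ p' ∈ T, Ct d p ∧ Ct d' p' ∧ NA d p p' ∧ NA d' p' p

/-- primitive periods of segments of `T` are conjugate into `H` -/
def PerT (H T : Subgroup (MM Γ a)) : Prop :=
  ∀ μ, Big μ → ∀ x ∈ T, ∀ y ∈ T, Ls (ds x y) μ → ∀ p q, Ls μ (ds p q) → On μ p x y →
    On μ q x y → ∀ d, Prim d → Stab μ p q d → TP H T d

/-- purity for the primitive elements of `X` -/
def PurT (X T : Subgroup (MM Γ a)) : Prop :=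
  ∀ c ∈ X, Prim c → ∀ f ∈ T, f ∈ Ep c → ∀ n : ℕ, 0 < n →
    ∃ f' ∈ T, f' ∈ Ep c ∧ ∃ r : ℕ, IsOfFinOrder (f⁻¹ * (f' ^ n * c ^ r))

/-- the data of a limit of exponents -/
structure LimE (H : Subgroup (MM Γ a)) (l : ℕ → a.K) (c : MM Γ a) (k : ℚ →+ a.Z) : Prop where
  gc : GC0 H
  big : ∀ n, Big (l n)
  mem : c ∈ H
  prim : Prim c
  cen : Cen c
  sm : ∀ n, Ls (md c) (l n)
  apx : ∀ n, ∃ f ∈ H, f ∈ Ep c ∧ Ls (ds f (ipow c (k 1))) (l n)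
  new : ∀ f ∈ H, f ∈ Ep c → ∃ n, ¬ Ls (ds f (ipow c (k 1))) (l n)

end Pool.Agent.P.MP_dba3d2_lc


end

section

/-! Interface, chapter C3: chains of cosets and adjunctions at all scales. -/

namespace Pool.Agent.P.MP_dba3d2_lc

open Filter

-- deps:
-- imports: Pool.Agent.P.MP_dba3d2_lc.C.QTb
def S_Q_JL : Prop := ∀ (Γ : HG) (a : Amb) (μ : a.K) (p v : ℕ → MM Γ a) (N : ℕ), Big μ →
  (∀ s t, s < t → t ≤ N → ¬ Ovj μ (v s) (p (s + 1)) (v t) (p (t + 1))) →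
  (∀ s t, s < t → t ≤ N + 1 → ¬ Ovj μ (v s) (p (s + 1)) (p t) (v t)) →
  (∀ s t, s ≤ t → t ≤ N → ¬ Ovj μ (p s) (v s) (v t) (p (t + 1))) →
  (∀ s t, s < t → t ≤ N + 1 → ¬ Ovj μ (p s) (v s) (p t) (v t)) → G2 μ p v N

-- deps: ELEM LINE PERC ROOT Q_JL
-- imports: Pool.Agent.P.MP_dba3d2_lc.C.QTb
def S_Q_GEO : Prop := ∀ (Γ : HG) (a : Amb) (μ : a.K) (H : Subgroup (MM Γ a)) (u : MM Γ a)
  (g : ℕ → MM Γ a) (ε : ℕ → Nd Γ a) (p v : ℕ → MM Γ a) (N : ℕ), Big μ → GC0 H →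
  XCh H u g ε N → (∀ t ≤ N, Fe H (g t) (ε t) (ε (t + 1)) (v t) (p (t + 1))) →
  (∀ t ≤ N, Ls (ds (v t) (p (t + 1))) μ) → (∀ t ≤ N + 1, Eo μ (ε t) (p t) (v t)) → G2 μ p v N

-- deps: ELEM LINE NORM
-- imports: Pool.Agent.P.MP_dba3d2_lc.C.QTb
def S_Q_FEET : Prop := ∀ (Γ : HG) (a : Amb) (H : Subgroup (MM Γ a)) (u g : MM Γ a)
  (ε ε' : Nd Γ a), GC0 H → At H u g ε → At H u g ε' → Rd H u g ε ε' → ∃ x y, Fe H g ε ε' x y

-- deps: ELEM LINE PERC ROOT RIG Q_GEO Q_FEET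
-- imports: Pool.Agent.P.MP_dba3d2_lc.C.QTb
def S_Q_MIX2 : Prop := ∀ (Γ : HG) (a : Amb) (H : Subgroup (MM Γ a)) (u g g' : MM Γ a)
  (ε ε' : Nd Γ a), GC0 H → g⁻¹ * g' ∉ H → At H u g ε → At H u g' ε → At H u g ε' →
  At H u g' ε' → Sm H u ε ε'

-- deps: ROOT
-- imports: Pool.Agent.P.MP_dba3d2_lc.C.QTb
def S_Q_XCH : Prop := ∀ (Γ : HG) (a : Amb) (H : Subgroup (MM Γ a)) (u : MM Γ a)
  (g : ℕ → MM Γ a) (ε : ℕ → Nd Γ a) (N : ℕ), GC0 H →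
  (∀ n, Mx H u n → MCh H u g ε N → ∀ s t, s < t → t ≤ N → t < s + n →
    ∀ e, Aj H (g s) e → Aj H (g t) e → t = s + 1 ∧ Sm H u (.inr e) (ε s)) ∧
  (Mx H u (N + 1) → MCh H u g (fun t => ε (t + 1)) N → At H u (g 0) (ε 0) →
    At H u (g N) (ε (N + 1)) → Rd H u (g 0) (ε 0) (ε 1) → Rd H u (g N) (ε N) (ε (N + 1)) →
    XCh H u g ε N)

-- deps: Q_FEET
-- imports: Pool.Agent.P.MP_dba3d2_lc.C.QTb
def S_Q_PEXT : Prop := ∀ (Γ : HG) (a : Amb) (H T : Subgroup (MM Γ a)) (u c : MM Γ a)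
  (g : ℕ → MM Γ a) (ε : ℕ → Nd Γ a) (N : ℕ), GC0 H → MCh H u g ε (N + 1) →
  (g (N + 1))⁻¹ * (c * g 0) ∈ H → ¬ Sm H u (ε N) ((ε 0).mv c) → c ∈ T → (∀ t ≤ N, g t ∈ T) →
  ∃ g' ε' p v, QCh H u c g' ε' p v (N + 1) ∧ ∀ t, g' t ∈ T

-- deps: ROOT Q_GEO Q_XCH
-- imports: Pool.Agent.P.MP_dba3d2_lc.C.QTb
def S_Q_CYC : Prop := ∀ (Γ : HG) (a : Amb) (H : Subgroup (MM Γ a)) (u c : MM Γ a)
  (g : ℕ → MM Γ a) (ε : ℕ → Nd Γ a) (p v : ℕ → MM Γ a) (N : ℕ), GC0 H → QCh H u c g ε p v N →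
  Big (per2 p v N) ∧ (∀ i, per2 (fun t => p (i + t)) (fun t => v (i + t)) N = per2 p v N) ∧
  ∀ i M, Mx H u (M + 1) →
    G2 (per2 p v N) (fun t => p (i + 1 + t)) (fun t => v (i + 1 + t)) M

-- deps: ROOT Q_MIX2 Q_PEXT Q_CYC
-- imports: Pool.Agent.P.MP_dba3d2_lc.C.QTb
def S_Q_MIX : Prop := ∀ (Γ : HG) (a : Amb) (H : Subgroup (MM Γ a)) (u : MM Γ a), GC0 H →
  ∀ n, Mx H u n

-- deps: ROOT
-- imports: Pool.Agent.P.MP_dba3d2_lc.C.QTb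
def S_Q_MINP : Prop := ∀ (Γ : HG) (a : Amb) (H T : Subgroup (MM Γ a)) (u : MM Γ a), Cn H u T →
  (∀ n x y, x ∈ T → Wk H u T n x y → (∀ m < n, ¬ Wk H u T m x y) →
    ∃ g ε, MCh H u g ε n ∧ g 0 = x ∧ (g n)⁻¹ * y ∈ H ∧ ∀ t ≤ n, g t ∈ T) ∧
  ∀ ε ε', (∃ x ∈ T, At0 H x ε) → (∃ y ∈ T, At0 H y ε') →
    ∃ g η N, MCh H u g η N ∧ (∀ t ≤ N, g t ∈ T) ∧ At0 H (g 0) ε ∧ At0 H (g N) ε' ∧
      ∀ M, N = M + 1 → (∀ d, ε = .inr d → ¬ Sm H u ε (η 0)) ∧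
        ∀ d, ε' = .inr d → ¬ Sm H u (η M) ε'

-- deps: ROOT Q_XCH Q_MIX Q_MINP
-- imports: Pool.Agent.P.MP_dba3d2_lc.C.QTb
def S_Q_RIGT : Prop := ∀ (Γ : HG) (a : Amb) (H T : Subgroup (MM Γ a)) (u : MM Γ a), Cn H u T →
  ∀ d d' e e', TP H T d → TP H T d' → TP H T e → TP H T e' → Ep d ≠ Ep d' →
    ∀ x, Cj x e d → Cj x e' d' → x ∈ T

-- deps: Q_FEET Q_XCH Q_MIX Q_MINP
-- imports: Pool.Agent.P.MP_dba3d2_lc.C.QTb
def S_Q_PATH : Prop := ∀ (Γ : HG) (a : Amb) (H T : Subgroup (MM Γ a)) (u : MM Γ a), Cn H u T →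
  ∀ ε ε', (∃ x ∈ T, At0 H x ε) → (∃ y ∈ T, At0 H y ε') →
    (∀ d d', ε = .inr d → ε' = .inr d' → Ep d ≠ Ep d') →
    ∃ g η p v N, NPa H u T g η p v N ∧ η 0 = ε ∧ η (N + 1) = ε'

-- deps: ROOT Q_GEO
-- imports: Pool.Agent.P.MP_dba3d2_lc.C.QTb
def S_Q_TOP : Prop := ∀ (Γ : HG) (a : Amb) (H T : Subgroup (MM Γ a)) (u : MM Γ a)
  (g : ℕ → MM Γ a) (ε : ℕ → Nd Γ a) (p v : ℕ → MM Γ a) (N : ℕ), GC0 H → NPa H u T g ε p v N →
  (∀ μ, Big μ → Ls (ds (v 0) (p (N + 1))) μ → G2 μ p v N ∧ Ls (len2 p v N) μ) ∧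
  NAe (ε 0) (v 0) (p (N + 1)) ∧ NAe (ε (N + 1)) (p (N + 1)) (v 0)

-- deps: ELEM LINE ROOT Q_PATH Q_TOP
-- imports: Pool.Agent.P.MP_dba3d2_lc.C.QTb
def S_Q_COV : Prop := ∀ (Γ : HG) (a : Amb) (H T : Subgroup (MM Γ a)) (u : MM Γ a), Cn H u T →
  ∀ μ, Big μ → ∀ t ∈ T, Ls (ln t) μ → Cvr μ (Pc H u T μ) 1 t

-- deps: ELEM LINE ROOT Q_PEXT Q_CYC Q_MIX Q_MINP
-- imports: Pool.Agent.P.MP_dba3d2_lc.C.QTb
def S_Q_CR : Prop := ∀ (Γ : HG) (a : Amb) (H T : Subgroup (MM Γ a)) (u : MM Γ a), Cn H u T →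
  ∀ c ∈ T, ¬ IsOfFinOrder c → ∃ p ∈ T, Ct c p

-- deps: ELEM LINE ROOT NORM ADJ0 Q_RIGT Q_PATH Q_TOP Q_COV Q_CR
-- imports: Pool.Agent.P.MP_dba3d2_lc.C.QTb
def S_Q_ALL : Prop := ∀ (Γ : HG) (a : Amb) (H T : Subgroup (MM Γ a)) (u : MM Γ a), Cn H u T →
  PurT H T → GC0 T

-- deps: ROOT C2_RW Q_XCH Q_MIX
-- imports: Pool.Agent.P.MP_dba3d2_lc.C.QTb
def S_Q_PCH : Prop := ∀ (Γ : HG) (a : Amb) (H : Subgroup (MM Γ a)) (u : MM Γ a), GC0 H →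
  LimD H u → WBr H (hv fun _ : Fin 1 => u) (HP H fun _ : Fin 1 => u) ∧
  ∀ c ∈ H, Prim c → ∀ f ∈ H ⊔ Subgroup.closure (Set.range fun _ : Fin 1 => u), f ∈ Ep c → f ∈ H

end Pool.Agent.P.MP_dba3d2_lc


end
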