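import Pool.Agent.P.MP_dba3d2_lcM.Ab05
import Pool.Agent.P.MP_dba3d2_lcM.Bb10
import Pool.Agent.P.MP_dba3d2_lcM.Cb11
import Pool.Agent.P.MP_dba3d2_lcM.Cb13
import Pool.Agent.P.MP_dba3d2_lcM.Cb32

section

/-! Step STAR of the stability project. -/

namespace Pool.Agent.P.MP_dba3d2_lc

open Filter

namespace StarA

variable {Γ : HG} {a : Amb} {H : Subgroup (MM Γ a)}

/-- the pair of `H` and the ambient group -/
def FT (H : Subgroup (MM Γ a)) : Bool → Subgroup (MM Γ a) := fun i => bif i then ⊤ else H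

theorem xf : XF (FT H) none = H := inf_top_eq H

theorem ef (c : MM Γ a) : EF (FT H) c = Ep c :=
  le_antisymm EF_le_Ep fun _ h => mem_EF true trivial h

theorem two (hC : S_CVX) (hN : S_NORM) (hH : GC0 H) : TwoF (FT H) := by
  have ht : GC0 (⊤ : Subgroup (MM Γ a)) := (hC Γ a ⊤ ⟨le_top, fun _ _ _ _ => trivial⟩).toGC0
  have v : ∀ y, NM (FT H (!true)) (FT H false ⊓ FT H true) y := fun y v h1 h2 =>
    absurd ⟨h1, trivial⟩ h2
  refine ⟨fun i => by cases i; exacts [hH, ht], by rw [show FT H false ⊓ FT H true = H from xf]; exact hH,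
    fun _ _ _ _ _ _ _ _ x _ _ _ _ => ⟨1, one_mem _, x, trivial, (one_mul _).symm⟩,
    fun c0 h0 c1 _ p0 _ x e => ⟨c0, ⟨h0, trivial⟩, p0, 1, one_mem _, x⁻¹, trivial,
      Cj.one_iff.2 rfl, e.inv⟩, fun i x h1 h2 c hc _ _ _ _ _ => ?_, fun i y h1 h2 => ?_,
    fun i y h1 h2 _ => ?_, fun i c hc p1 p2 y h1 h2 => ?_⟩ <;> cases i
  · exact ⟨hc, trivial⟩
  · exact absurd ⟨h1, trivial⟩ h2
  · exact absurd ⟨h1, trivial⟩ h2
  · exact ⟨1, one_mem _, v _⟩
  · exact absurd ⟨h1, trivial⟩ h2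
  · exact ⟨1, one_mem _, 1, one_mem _, v _, v _⟩
  · exact absurd ⟨H.mul_mem (H.mul_mem (H.inv_mem h1) hc) h1, trivial⟩ h2
  · obtain ⟨f, -, h3, -, h4⟩ := (hN Γ a ⊤ ht).1 c trivial p1 p2 y⁻¹ trivial
    exact ⟨f⁻¹, trivial, inv_mem h3, 1, one_mem _, v _, by simpa using h4⟩

/-- entries of star words -/
def V (H : Subgroup (MM Γ a)) (s : MM Γ a × MM Γ a × MM Γ a) : Prop :=
  s.1 ∈ H ∧ s.2.1 ∈ H ∧ Prim s.2.1 ∧ s.2.2 ∈ Ep s.2.1 ∧ s.2.2 ∉ H
/-- neighbours in star words -/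
def R (s s' : MM Γ a × MM Γ a × MM Γ a) : Prop := ¬ Cj s'.1 s'.2.1 s.2.1
/-- values of star words -/
def pv (l : List (MM Γ a × MM Γ a × MM Γ a)) : MM Γ a := (l.map fun s => s.1 * s.2.2).prod

theorem build {X Y : Subgroup (MM Γ a)} {c : MM Γ a} {n : ℕ} (hX : H ≤ X) (hY : Ep c ≤ Y)
    (hE : ∀ d ∈ H, Prim d → (¬ ∃ g ∈ H, Cj g c d) → Ep d ≤ X)
    (ih : ∀ m : List (MM Γ a × MM Γ a × MM Γ a), m.length < n → m ≠ [] → (∀ s ∈ m, V H s) →
      m.IsChain R → pv m ∉ H) {h : MM Γ a} (hh : h ∈ H) :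
    ∀ (l acc : List (MM Γ a × MM Γ a × MM Γ a)) (g d : MM Γ a), g ∈ H → Cj g c d →
      (acc ++ l).length < n → (∀ s ∈ acc ++ l, V H s) → (acc ++ l).IsChain R →
      (∀ s ∈ (acc ++ l).head?, ¬ Cj s.1 s.2.1 d) → pv acc ∈ X →
      ∃ W : List (Bool × MM Γ a), (∀ s ∈ W, s.2 ∈ (bif s.1 then Y else X) ∧ s.2 ∉ H ⊓ IE c) ∧
        W.IsChain (fun s s' => s.1 ≠ s'.1) ∧ (∀ s ∈ W.head?, s.1 = false) ∧
        ∃ k ∈ H ⊓ IE c, g⁻¹ * pv (acc ++ l) * h = (W.map Prod.snd).prod * k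
  | [], acc, g, d, hg, _, _, _, _, _, hx => by
    rw [List.append_nil]
    by_cases k : g⁻¹ * pv acc * h ∈ H ⊓ IE c
    · exact ⟨[], by simp, by simp, by simp, _, k, by simp⟩
    · refine ⟨[(false, g⁻¹ * pv acc * h)], ?_, by simp, by simp, 1, one_mem _, by simp⟩
      simpa using ⟨mul_mem (mul_mem (inv_mem (hX hg)) hx) (hX hh), by simpa using k⟩
  | (b, d', e) :: l, acc, g, d, hg, hj, hn, hv, hc, h0, hx => by
    obtain ⟨v1, v2, v3, v4, v5⟩ := hv (b, d', e) (by simp)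
    by_cases k : ∃ g' ∈ H, Cj g' c d'
    swap
    · have := build hX hY hE ih hh l (acc ++ [(b, d', e)]) g d hg hj (by simpa using hn)
        (by simpa using hv) (by simpa using hc) (by simpa using h0)
        (by simpa [pv] using mul_mem hx (mul_mem (hX v1) (hE d' v2 v3 k v4)))
      simpa using this
    obtain ⟨g', hg', hj'⟩ := k
    have c2 := hc.right_of_append
    obtain ⟨W, w1, w2, w3, k, w4, w5⟩ := build hX hY hE ih hh l [] g' d' hg' hj'
      (by simp at hn ⊢; omega) (fun s hs => hv s (by simp at hs; simp [hs])) c2.tail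
      (fun s hs => by
        rcases l with _ | ⟨s', l⟩
        · simp at hs
        · obtain rfl : s' = s := by simpa using hs
          exact (List.isChain_cons_cons.1 c2).1) (one_mem _)
    refine ⟨(false, g⁻¹ * pv acc * b * g') :: (true, g'⁻¹ * e * g') :: W, ?_, ?_, by simp, k, w4, ?_⟩
    · refine List.forall_mem_cons.2 ⟨⟨mul_mem (mul_mem (mul_mem (inv_mem (hX hg)) hx) (hX v1))
        (hX hg'), fun m => ?_⟩, List.forall_mem_cons.2 ⟨⟨hY (hj'.mem_Ep' v4), fun m => v5 ?_⟩, w1⟩⟩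
      · rcases acc with _ | ⟨s, acc⟩
        · have := (hj.mul (mem_IE.1 m.2).cj).mul hj'.inv
          refine h0 (b, d', e) rfl ?_
          rwa [show g * (g⁻¹ * pv [] * b * g') * g'⁻¹ = b by simp [pv, mul_assoc]] at this
        · refine ih (s :: acc) (by simp at hn ⊢; omega) (by simp)
            (fun t ht => hv t (List.mem_append_left _ ht)) hc.left_of_append ?_
          have : g⁻¹ * pv (s :: acc) * b * g' ∈ H := m.1
          rwa [mul_mem_cancel_right hg', mul_mem_cancel_right v1,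
            mul_mem_cancel_left (inv_mem hg)] at this
      · have : g'⁻¹ * e * g' ∈ H := m.1
        rwa [mul_mem_cancel_right hg', mul_mem_cancel_left (inv_mem hg')] at this
    · refine List.isChain_cons_cons.2 ⟨by simp, ?_⟩
      rcases W with _ | ⟨s, W⟩
      · simp
      · exact List.isChain_cons_cons.2 ⟨by simp [w3 s rfl], w2⟩
    · simp only [List.nil_append] at w5
      simp only [List.map_cons, List.prod_cons, mul_assoc, ← w5]
      simp [pv, mul_assoc]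

end StarA

open StarA in
theorem p_STAR (hCVX : S_CVX) (hNORM : S_NORM) (hC_AM1 : S_C_AM1) (hC_UPN : S_C_UPN) :
    S_STAR := by
  intro Γ a H l hH
  have hF := two hCVX hNORM hH
  suffices k : ∀ n, ∀ m : List (MM Γ a × MM Γ a × MM Γ a), m.length < n → m ≠ [] →
      (∀ s ∈ m, V H s) → m.IsChain R → pv m ∉ H from k _ l (Nat.lt_succ_self _)
  intro n
  induction n with
  | zero => intro m h; omega
  | succ n ih =>
    rintro (_ | ⟨⟨b, d, e⟩, l⟩) hn h0 hv hc hm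
    · exact h0 rfl
    obtain ⟨v1, v2, v3, v4, v5⟩ := hv (b, d, e) (by simp)
    obtain ⟨p, p1, p2, p3, p4, p5⟩ := hF.cenx (o := none) (xf.symm ▸ v2) v3
    have rn : RedNT (fun i => bif i then EPM (FT H) (p⁻¹ * d * p) else
        NS (FT H) {d' | d' ∈ PM (FT H) ∧ ¬ ∃ b ∈ H, Cj b (p⁻¹ * d * p) d'})
        (H ⊓ IE (p⁻¹ * d * p)) := by
      have := hC_UPN Γ a _ hF _ ⟨p2, p3, p4⟩
      rw [xf] at this
      exact hC_AM1 _ _ _ _ (inf_le_left.trans (xf.ge.trans le_sup_left))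
        ((inf_le_inf_right _ xf.ge).trans le_sup_right) this
    replace p1 := xf.le p1
    obtain ⟨W, w1, w2, w3, k, w4, w5⟩ := build (H := H) (n := n) (c := p⁻¹ * d * p)
      (X := NS (FT H) {d' | d' ∈ PM (FT H) ∧ ¬ ∃ b ∈ H, Cj b (p⁻¹ * d * p) d'})
      (Y := EPM (FT H) (p⁻¹ * d * p)) (xf.ge.trans le_sup_left) ((ef _).ge.trans le_sup_left)
      (fun d' m1 m2 m3 x hx => by
        obtain ⟨q, q1, q2, q3, q4, q5⟩ := hF.cenx (o := none) (xf.symm ▸ m1) m2
        have q0 : q ∈ NS (FT H) {d' | d' ∈ PM (FT H) ∧ ¬ ∃ b ∈ H, Cj b (p⁻¹ * d * p) d'} :=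
          Subgroup.mem_sup_left q1
        have : q⁻¹ * x * q ∈ NS (FT H)
            {d' | d' ∈ PM (FT H) ∧ ¬ ∃ b ∈ H, Cj b (p⁻¹ * d * p) d'} :=
          Subgroup.mem_sup_right (le_iSup₂_of_le (f := fun c _ => EF (FT H) c) (q⁻¹ * d' * q)
            ⟨⟨q2, q3, q4⟩, fun ⟨b, b1, b2⟩ => m3 ⟨q * b, mul_mem (xf.le q1) b1, q5.mul b2⟩⟩
            (ef _).ge (q5.mem_Ep' hx))
        rwa [mul_mem_cancel_right q0, mul_mem_cancel_left (inv_mem q0)] at this)
      ih (mul_mem (mul_mem (inv_mem hm) v1) p1) l [] p d p1 p5 (by simpa using hn)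
      (fun s hs => hv s (by simp at hs; simp [hs])) hc.tail (fun s hs => by
        rcases l with _ | ⟨s', l⟩
        · simp at hs
        · obtain rfl : s' = s := by simpa using hs
          exact (List.isChain_cons_cons.1 hc).1) (one_mem _)
    refine rn ((true, p⁻¹ * e * p) :: W) (by simp) (List.forall_mem_cons.2
      ⟨⟨Subgroup.mem_sup_left ((ef _).ge (p5.mem_Ep' v4)), fun m => v5 ?_⟩, w1⟩) ?_ ?_
    · have : p⁻¹ * e * p ∈ H := m.1
      rwa [mul_mem_cancel_right p1, mul_mem_cancel_left (inv_mem p1)] at this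
    · rcases W with _ | ⟨s, W⟩
      · simp
      · exact List.isChain_cons_cons.2 ⟨by simp [w3 s rfl], w2⟩
    · rw [List.map_cons, List.prod_cons, ← mul_mem_cancel_right w4, mul_assoc _ _ k, ← w5]
      simp [pv, mul_assoc]

end Pool.Agent.P.MP_dba3d2_lc


end

section

/-! Star words: words in base syllables and exponent syllables are geodesic after normalisation. -/

namespace Pool.Agent.P.MP_dba3d2_lc

open Filter

namespace SwA

open StarA

variable {Γ : HG} {a : Amb} {F : Bool → Subgroup (MM Γ a)} {u v w z : List (Tg Γ a × MM Γ a)}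
  {s s' : Tg Γ a × MM Γ a} {b b' c d e f x y β : MM Γ a} {ν : a.K}

/-- star words -/
structure SW (F : Bool → Subgroup (MM Γ a)) (w : List (Tg Γ a × MM Γ a)) : Prop where
  wd : (idC F).Wd w
  pl : ∀ s ∈ w, ∀ i, s.1 ≠ .inl (some i)
  ch : (idC F).PCh w
  he : ∀ s z s', s :: z ++ [s'] <:+: w → (idC F).HE s z s'

theorem SW.sub (h : SW F w) (k : v <:+: w) : SW F v :=
  ⟨h.wd.sub k, fun s hs => h.pl s (k.subset hs), h.ch.sub k,
    fun s z s' e => h.he s z s' (e.trans k)⟩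
theorem SW.tail (h : SW F (s :: w)) : SW F w := h.sub ⟨[s], [], by simp⟩
theorem SW.ok (h : SW F (s :: w)) : (idC F).ok s := h.wd s (by simp)
theorem SW.pair (h : SW F (s :: s' :: w)) : Pair F s s' := (List.isChain_cons_cons.1 h.ch).1
theorem SW.winv (h : SW F w) : SW F (winv w) :=
  ⟨h.wd.winv, fun s hs => h.pl (sinv s) (mem_winv.1 hs), h.ch.winv, fun s z s' k => by
    simpa using (h.he (sinv s') (Pool.Agent.P.MP_dba3d2_lc.winv z) (sinv s)
      (by simpa using winv_sub k)).winv⟩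
theorem sw_nil : SW F [] := ⟨Cv.wd_nil, by simp, List.IsChain.nil, by simp⟩

theorem SW.cons (h : SW F w) (h1 : (idC F).ok s) (h2 : ∀ i, s.1 ≠ .inl (some i))
    (h3 : ∀ s' ∈ w.head?, Pair F s s') (h4 : ∀ m s' B, w = m :: s' :: B → (idC F).HE s [m] s') :
    SW F (s :: w) := by
  refine ⟨Cv.wd_cons.2 ⟨h1, h.wd⟩, List.forall_mem_cons.2 ⟨h2, h.pl⟩, ?_, ?_⟩
  · rcases w with _ | ⟨s', w⟩
    · exact List.isChain_singleton _
    · exact List.isChain_cons_cons.2 ⟨h3 s' rfl, h.ch⟩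
  · rintro s0 z s' ⟨_ | ⟨s1, A⟩, B, e⟩
    · rintro c c' m e1 e2 rfl
      simp only [List.nil_append, List.cons_append, List.cons.injEq] at e
      obtain ⟨rfl, rfl⟩ := e
      exact h4 _ _ _ rfl c c' m e1 e2 rfl
    · exact h.he _ _ _ ⟨A, B, (List.cons.inj e).2⟩

/-- gluing at an exponent syllable -/
theorem SW.glue (h1 : SW F (u ++ [(.inr c, x)])) (h2 : SW F ((.inr c, y) :: v)) (he : e ∈ EF F c) :
    SW F (u ++ (.inr c, e) :: v) := by
  induction u with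
  | nil =>
    refine h2.tail.cons ⟨h2.ok.1, he⟩ (by simp) (fun s' hs => ?_) fun m s' B k => ?_
    · rcases v with _ | ⟨s1, v⟩
      · cases hs
      · obtain rfl : s1 = s' := by simpa using hs
        exact (pair_inr_left _ _ _).1 h2.pair
    · exact h2.he (.inr c, y) [m] s' ⟨[], B, by simp [k]⟩
  | cons s u ih =>
    refine (ih h1.tail).cons h1.ok (h1.pl s (by simp)) (fun s' hs => ?_) fun m s' B k => ?_
    · rcases u with _ | ⟨s1, u⟩
      · obtain rfl : (Sum.inr c, e) = s' := by simpa using hs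
        exact (pair_inr_right _ _ _).1 h1.pair
      · obtain rfl : s1 = s' := by simpa using hs
        exact h1.pair
    · rcases u with _ | ⟨s1, _ | ⟨s2, u⟩⟩ <;>
        simp only [List.nil_append, List.cons_append, List.cons.injEq] at k
      · rintro c1 c2 m' - - e3
        simp [← k.1] at e3
      · obtain ⟨rfl, rfl, -⟩ := k
        exact h1.he s [s1] (.inr c, x) ⟨[], [], by simp⟩
      · obtain ⟨rfl, rfl, -⟩ := k
        exact h1.he s [s1] s2 ⟨[], u ++ [(.inr c, x)], by simp⟩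

theorem SW.shape (h : SW F z) : z = [] ∨ (∃ m, z = [(.inl none, m)]) ∨
    (∃ d e z', z = (.inr d, e) :: z') ∨ ∃ m d e z', z = (.inl none, m) :: (.inr d, e) :: z' := by
  rcases z with _ | ⟨⟨(_ | i) | d, m⟩, z⟩
  · exact .inl rfl
  · rcases z with _ | ⟨⟨o | d, e⟩, z⟩
    · exact .inr (.inl ⟨m, rfl⟩)
    · obtain ⟨i, k, -⟩ := h.pair
      cases k
    · exact .inr (.inr (.inr ⟨m, d, e, z, rfl⟩))
  · exact absurd rfl (h.pl (.inl (some i), m) (by simp) i)
  · exact .inr (.inr (.inl ⟨d, m, z, rfl⟩))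

/-- the letters of a star word -/
def lt : MM Γ a → List (Tg Γ a × MM Γ a) → List (MM Γ a × MM Γ a × MM Γ a)
  | _, [] => []
  | β, (.inl _, m) :: z => lt (β * m) z
  | β, (.inr d, e) :: z => (β, d, e) :: lt 1 z

theorem SW.hd (h : SW F ((.inr d, e) :: z)) : ∀ s ∈ (lt 1 z).head?, ¬ Cj s.1 s.2.1 d := by
  rcases h.tail.shape with rfl | ⟨m, rfl⟩ | ⟨d', e', z', rfl⟩ | ⟨m, d', e', z', rfl⟩ <;>
    simp only [lt, List.head?_nil, List.head?_cons, Option.mem_def, Option.some.injEq, one_mul]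
  · simp
  · simp
  · rintro _ rfl k
    exact h.pair (Cj.one_iff.1 k).symm
  · rintro _ rfl
    exact h.he (.inr d, e) [(.inl none, m)] (.inr d', e') ⟨[], z', by simp⟩ d d' m rfl rfl rfl

theorem SW.spec (h : SW F z) (hz : (idC F).Nz z) (hβ : β ∈ XF F none) :
    (∀ s ∈ lt β z, V (XF F none) s) ∧ (lt β z).IsChain R ∧
      ∃ r ∈ XF F none, β * vl z = pv (lt β z) * r := by
  induction z generalizing β with
  | nil => exact ⟨by simp [lt], by simp [lt], β, hβ, by simp [lt, pv]⟩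
  | cons s z ih =>
    have nz := hz.sub (List.subset_cons_self s z)
    obtain ⟨(_ | i) | d, m⟩ := s
    · simpa [lt, mul_assoc] using ih h.tail nz (mul_mem hβ h.ok.2)
    · exact absurd rfl (h.pl (.inl (some i), m) (by simp) i)
    · obtain ⟨k1, k2, r, k3, k4⟩ := ih h.tail nz (one_mem _)
      refine ⟨List.forall_mem_cons.2 ⟨⟨hβ, h.ok.1.1, h.ok.1.2.1, EF_le_Ep h.ok.2, fun k => ?_⟩, k1⟩,
        List.IsChain.cons k2 h.hd, r, k3, ?_⟩
      · simpa using hz (.inr d, m) (by simp) k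
      · rw [one_mul] at k4
        simp [lt, pv, k4, mul_assoc]

theorem SW.mem (hS : S_STAR) (hF : TwoF F) (h : SW F z) (hz : (idC F).Nz z)
    (hm : vl z ∈ XF F none) : lt 1 z = [] := by
  obtain ⟨k1, k2, r, k3, k4⟩ := h.spec hz (one_mem _)
  by_contra n
  rw [← one_mul (vl z), k4, mul_mem_cancel_right k3] at hm
  exact hS Γ a _ _ hF.gcm n k1 k2 hm

theorem SW.mem2 (hS : S_STAR) (hF : TwoF F) (h : SW F z) (hz : (idC F).Nz z) (hb : b ∈ XF F none)
    (pb : Prim b) (hf : f ∈ Ep b) (nf : f ∉ XF F none) (hm : f * vl z ∈ XF F none) :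
    ∃ s ∈ (lt 1 z).head?, Cj s.1 s.2.1 b := by
  obtain ⟨k1, k2, r, k3, k4⟩ := h.spec hz (one_mem _)
  by_contra n
  rw [← one_mul (vl z), k4, ← mul_assoc, mul_mem_cancel_right k3] at hm
  exact hS Γ a _ ((1, b, f) :: lt 1 z) hF.gcm (by simp)
    (List.forall_mem_cons.2 ⟨⟨one_mem _, hb, pb, hf, nf⟩, k1⟩)
    (List.IsChain.cons k2 fun s hs k => n ⟨s, hs, k⟩)
    (by rw [List.map_cons, List.prod_cons, one_mul]; exact hm)

/-- the statements used for star words -/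
structure Hy : Prop where
  el : S_ELEM
  li : S_LINE
  ro : S_ROOT
  no : S_NORM
  st : S_STAR
  j0 : S_C_J0
  js : S_C_JS0
  pw : S_C_PATHW
  le : S_C_LEFT

theorem SW.novp (H : Hy) (hF : TwoF F) (hν : Big ν) (h : SW F (s :: z ++ [s']))
    (hz : (idC F).Nz z) : ¬ Ovp F ν s (vl z) s' := by
  have h0 : SW F z := h.sub ⟨[s], [s'], by simp⟩
  have h1 : SW F (s :: z) := h.sub ⟨[], [s'], by simp⟩
  have o' := h.wd s' (by simp)
  have bb : ∀ s0 ∈ s :: z ++ [s'], bt s0.1 = none := by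
    rintro ⟨(_ | i) | d, m⟩ k
    exacts [rfl, absurd rfl (h.pl _ k i), rfl]
  by_cases z0 : z = []
  · subst z0
    exact H.js Γ a F hF ν s s' hν h.ok o' h.pair
  rintro ⟨q, q1, q2, q3⟩
  have pr : ∀ o y m z', s = (.inl o, y) → z ≠ (.inl none, m) :: z' := by
    rintro o y m z' rfl rfl
    obtain ⟨i, -, k, -⟩ := h1.pair
    cases k
  have mm : ∀ o y, s = (.inl o, y) → vl z ∉ XF F none := fun o y k hm => by
    have := h0.mem H.st hF hz hm
    rcases h0.shape with e | ⟨m, e⟩ | ⟨d', e', z', rfl⟩ | ⟨m, d', e', z', e⟩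
    exacts [z0 e, pr _ _ _ _ k e, by simp [lt] at this, pr _ _ _ _ k e]
  rcases H.j0 Γ a F hF ν s.1 s'.1 s.2⁻¹ s'.2 (vl z) 1 q hν (by simpa using q1) h.ok.1 o'.1
    (inv_mem h.ok.2) o'.2 q2 (by simpa using q3) with
    ⟨o, o1, e1, e2, g, hg, g', hg', e⟩ | ⟨b, b', ⟨a1, a2, a3, a4, a5⟩, ⟨b1, b2, -, b4, -⟩, j⟩
  · have k1 := bb s (by simp)
    have k2 := bb s' (by simp)
    rw [e1] at k1
    rw [e2] at k2
    obtain rfl : o = none := k1
    obtain rfl : o1 = none := k2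
    exact mm none s.2 (Prod.ext e1 rfl) (e ▸ mul_mem hg hg')
  rw [bb s (by simp)] at a1
  rw [bb s' (by simp)] at b1
  obtain ⟨g, g1, -, g2, -⟩ := hF.root6 H.ro a1 b1 a2.1 b2.1 j
  have key : vl z ∉ XF F none → ∃ s ∈ (lt 1 z).head?, Cj s.1 s.2.1 b := fun n =>
    h0.mem2 H.st hF hz a1 a2 (inv_mem g2)
      (by rwa [inv_mem_iff, mul_mem_cancel_right (inv_mem g1)]) (by simpa using g1)
  obtain ⟨o | c, y⟩ := s
  · obtain ⟨s0, k1, k2⟩ := key (mm o y rfl)
    rcases h0.shape with e | ⟨m, e⟩ | ⟨d', e', z', rfl⟩ | ⟨m, d', e', z', e⟩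
    · exact z0 e
    · exact pr _ _ _ _ rfl e
    · obtain rfl : (1, d', e') = s0 := by simpa [lt] using k1
      have p := h0.ok.1.2.1
      obtain ⟨c1, -, c3⟩ := a5 o rfl a1
      exact NE.not_fol h1.pair hν (by simpa using c1) ⟨q, q1, c3,
        p.fix H.el H.li a2.1 (Cj.one_iff.1 k2) a3.1, p.fix H.el H.li a2.1 (Cj.one_iff.1 k2) a3.2⟩
    · exact pr _ _ _ _ rfl e
  · obtain rfl := a4 c rfl
    by_cases n : vl z ∈ XF F none
    · have := h0.mem H.st hF hz n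
      rcases h0.shape with e | ⟨m, rfl⟩ | ⟨d', e', z', rfl⟩ | ⟨m, d', e', z', rfl⟩
      · exact z0 e
      · obtain ⟨o | c', y'⟩ := s'
        · obtain ⟨i, k, -⟩ := h.tail.pair
          cases k
        · obtain rfl := b4 c' rfl
          exact h.he (.inr b, y) [(.inl none, m)] (.inr b', y') ⟨[], [], by simp⟩ b b' m rfl rfl rfl
            (by simpa using j)
      · simp [lt] at this
      · simp [lt] at this
    · obtain ⟨s0, k1, k2⟩ := key n
      exact h1.hd s0 k1 k2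

theorem SW.nice (H : Hy) (hF : TwoF F) (h : SW F w) (hz : (idC F).Nz w) : Nice F w :=
  ⟨h.wd, hz.nzE, fun ν hν hl => by
    by_contra hc
    obtain ⟨A, s, z, s', B, rfl, -, -, -, ho⟩ :=
      H.pw Γ a F hF _ (idC F) ν w hν h.wd hz.nzE hl hc
    exact (h.sub ⟨A, B, by simp⟩).novp H hF hν (hz.sub fun t ht => by simp [ht]) ho⟩

theorem SW.ne (H : Hy) (hF : TwoF F) (h : SW F ((.inr b, 1) :: w)) (hz : (idC F).Nz w) :
    NE b (vl w)⁻¹ := fun hb _ hfo => by
  rw [inv_inv, ln_inv] at hfo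
  rw [ln_inv] at hb
  have N := h.tail.nice H hF hz
  obtain ⟨z, s', B, rfl, -, ho⟩ := H.le Γ a F hF _ b (.inr b, 1) w hb
    ⟨rfl, h.ok.1.1, h.ok.1.2.1, h.ok.1.2.2, rfl⟩ (fun _ k => by cases k) (by simpa using ne_one b)
    h.wd (List.forall_mem_cons.2 ⟨fun _ _ _ => rfl, hz.nzE⟩)
    (by simpa using N.ls hb (Ls.refl' _))
    (geo_cons.2 ⟨by simpa using on_left hb.pos.le _ _, N.geo' hb (Ls.refl' _)⟩) (by simpa using hfo)
  exact (h.sub ⟨[], B, by simp⟩).novp H hF hb (hz.sub fun t ht => by simp [ht]) ho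

/-- optional ends that carry the axis `b` -/
def EE (F : Bool → Subgroup (MM Γ a)) (b : MM Γ a) (e : Option (Tg Γ a × MM Γ a)) : Prop :=
  e = none ∨ e = some (.inr b, 1) ∧ b ∈ PM F

theorem SW.geo (H : Hy) (hF : TwoF F) {e e' : Option (Tg Γ a × MM Γ a)} (h1 : EE F b e)
    (h2 : EE F b' e') (h : SW F (xw e u e')) (hz : (idC F).Nz u) :
    Nice F u ∧ (e ≠ none → NE b (vl u)⁻¹) ∧ (e' ≠ none → NE b' (vl u)) := by
  refine ⟨(h.sub ⟨e.toList, e'.toList, rfl⟩).nice H hF hz, fun n => ?_, fun n => ?_⟩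
  · obtain ⟨rfl, -⟩ := h1.resolve_left n
    exact (h.sub ⟨[], e'.toList, rfl⟩).ne H hF hz
  · obtain ⟨rfl, -⟩ := h2.resolve_left n
    have k := (h.sub (v := u ++ [(.inr b', 1)]) ⟨e.toList, [], by simp [xw]⟩).winv
    simpa using SW.ne (b := b') (w := Pool.Agent.P.MP_dba3d2_lc.winv u) H hF
      (by simpa [sinv] using k)
      fun s hs hm => by simpa using hz _ (mem_winv.1 hs) (by simpa using hm)

/-- one base syllable between two optional ends -/
theorem one (H : Hy) (hF : TwoF F) {e e' : Option (Tg Γ a × MM Γ a)} (h1 : EE F b e)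
    (h2 : EE F b' e') (hβ : β ∈ XF F none) (hj : e ≠ none → e' ≠ none → ¬ Cj β b' b) :
    ∃ f ∈ XF F none, ∃ f' ∈ XF F none, f ∈ Ep b ∧ f' ∈ Ep b' ∧ (e = none → f = 1) ∧
      (e' = none → f' = 1) ∧ SW F (xw e [(.inl none, f * β * f')] e') := by
  have s1 : ∀ y ∈ XF F none, SW F [(.inl none, y)] := fun y hy =>
    sw_nil.cons (idC_ok hy) (by simp) (by simp) (by simp)
  have s2 : ∀ c ∈ PM F, ∀ y ∈ XF F none, NE c y → SW F [(.inl none, y), (.inr c, 1)] :=
    fun c hc y hy n => (sw_nil.cons (s := (.inr c, 1)) ⟨hc, one_mem _⟩ (by simp) (by simp)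
      (by simp)).cons (idC_ok hy) (by simp) (by simpa [Pair] using n) (by simp)
  rcases h1 with rfl | ⟨rfl, p⟩ <;> rcases h2 with rfl | ⟨rfl, p'⟩
  · exact ⟨1, one_mem _, 1, one_mem _, one_mem _, one_mem _, by simp, by simp,
      by simpa using s1 β hβ⟩
  · obtain ⟨f, f1, f2, -, f3⟩ := (H.no Γ a _ hF.gcm).1 b' p'.1 p'.2.1 p'.2.2 β hβ
    exact ⟨1, one_mem _, f, f1, one_mem _, f2, by simp, by simp,
      by simpa using s2 b' p' _ (mul_mem hβ f1) f3⟩
  · obtain ⟨f, f1, f2, -, f3⟩ := (H.no Γ a _ hF.gcm).1 b p.1 p.2.1 p.2.2 β⁻¹ (inv_mem hβ)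
    exact ⟨f⁻¹, inv_mem f1, 1, one_mem _, inv_mem f2, one_mem _, by simp, by simp,
      by simpa [sinv] using (s2 b p _ (mul_mem (inv_mem hβ) f1) f3).winv⟩
  · obtain ⟨f, f1, f', f2, f3, f4, f5, f6, -⟩ := (H.no Γ a _ hF.gcm).2 b p.1 b' p'.1 p.2.1 p'.2.1
      p.2.2 p'.2.2 β hβ (hj (by simp) (by simp))
    refine ⟨f, f1, f', f2, f3, f4, by simp, by simp,
      (s2 b' p' _ (mul_mem (mul_mem f1 hβ) f2) f6).cons (s := (.inr b, 1)) ⟨p, one_mem _⟩ (by simp)
      (by simpa [Pair] using f5) ?_⟩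
    rintro m s' B k c c' m' e1 e2 e3 j
    simp only [List.cons.injEq] at k e3
    obtain ⟨rfl, rfl, -⟩ := k
    obtain rfl : b = c := Sum.inr.inj e1
    obtain rfl : b' = c' := Sum.inr.inj e2
    obtain rfl : f * β * f' = m' := (Prod.mk.inj e3.1).2
    have := ((Cj.of_mem (inv_mem f3)).mul j).mul (Cj.of_mem (inv_mem f4))
    exact hj (by simp) (by simp) (by simpa [mul_assoc] using this)

end SwA

end Pool.Agent.P.MP_dba3d2_lc


end
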