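import Pool.Agent.P.MP_dba3d2_lcM.Ab05
import Pool.Agent.P.MP_dba3d2_lcM.Bb10
import Pool.Agent.P.MP_dba3d2_lcM.Cb11
import Pool.Agent.P.MP_dba3d2_lcM.Cb12
import Pool.Agent.P.MP_dba3d2_lcM.Cb13

section

/-! Step C_EMEM of the stability project. -/

namespace Pool.Agent.P.MP_dba3d2_lc

open Filter

namespace C_ememA

/-- products of two subgroups whose commutators lie in both -/
theorem prod_mem {G : Type} [Group G] {A B : Subgroup G}
    (h : ∀ x ∈ A, ∀ y ∈ B, y⁻¹ * x⁻¹ * y * x ∈ B) {e : G} (he : e ∈ A ⊔ B) :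
    ∃ x ∈ A, ∃ y ∈ B, e = x * y := by
  let P : Subgroup G :=
    { carrier := {e | ∃ x ∈ A, ∃ y ∈ B, e = x * y}
      one_mem' := ⟨1, A.one_mem, 1, B.one_mem, by simp⟩
      mul_mem' := by
        rintro _ _ ⟨x, hx, y, hy, rfl⟩ ⟨x', hx', y', hy', rfl⟩
        exact ⟨x * x', A.mul_mem hx hx', y * (y⁻¹ * x'⁻¹ * y * x') * y',
          B.mul_mem (B.mul_mem hy (h x' hx' y hy)) hy', by group⟩
      inv_mem' := by
        rintro _ ⟨x, hx, y, hy, rfl⟩
        exact ⟨x⁻¹, A.inv_mem hx, y⁻¹ * (y⁻¹⁻¹ * x⁻¹⁻¹ * y⁻¹ * x⁻¹),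
          B.mul_mem (B.inv_mem hy) (h _ (A.inv_mem hx) _ (B.inv_mem hy)), by group⟩ }
  have k : A ⊔ B ≤ P := sup_le (fun x hx => ⟨x, hx, 1, B.one_mem, by simp⟩)
    fun y hy => ⟨1, A.one_mem, y, hy, by simp⟩
  exact k he

end C_ememA

theorem p_C_EMEM (hELEM : S_ELEM) (hROOT : S_ROOT) :
    S_C_EMEM := by
  intro Γ a F hF c hc h0 i e he
  have he' : e ∈ (F i ⊓ Ep c) ⊔ (F (!i) ⊓ Ep c) := by
    cases i
    · exact he
    · rw [sup_comm]; exact he
  obtain ⟨x, hx, y, hy, rfl⟩ := C_ememA.prod_mem (fun x hx y hy => by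
    have t1 : y⁻¹ * x⁻¹ * y * x ∈ Ep c :=
      mul_mem (mul_mem (mul_mem (inv_mem hy.2) (inv_mem hx.2)) hy.2) hx.2
    have t2 := (hELEM Γ a c h0).2.2.2.2.2.2.2.2.1 _ (inv_mem hy.2) _ (inv_mem hx.2)
    rw [inv_inv, inv_inv] at t2
    have hc' : c ∈ F (!i) := by
      cases i
      exacts [hc.2, hc.1]
    exact ⟨(hROOT Γ a _ (hF.gc (!i))).2.2.1 c hc' h0 _ t1 t2, t1⟩) he'
  exact ⟨x, hx.1, y, hy.1, hx.2, hy.2, rfl⟩

end Pool.Agent.P.MP_dba3d2_lc


end

section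

/-! Step C_TFF of the stability project. -/

namespace Pool.Agent.P.MP_dba3d2_lc

open Filter

namespace C_tffA

variable {Γ : HG} {a : Amb} {F : Bool → Subgroup (MM Γ a)} {o o' : Option Bool} {i j : Bool}
  {b b' c g g' : MM Γ a}

theorem fix (hR : S_ROOT) (h : TwoF F) (ho : o = none ∨ o = some i) (hg : g ∈ F i)
    (hc : c ∈ XF F none) (pc : Prim c) (hb : b ∈ XF F o) (pb : Prim b) (k : Cj g c b) :
    ∃ x ∈ XF F o, x⁻¹ * g ∈ EF F c ∧ Cj x c b := by
  rcases ho with rfl | rfl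
  · obtain ⟨x, h1, h2, -, h3⟩ := h.root6 hR hb hc pb.1 pc.1 k
    exact ⟨x, h1, mem_EF i (mul_mem (inv_mem (M_le_F i h1)) hg) h3, h2⟩
  · exact ⟨g, hg, by simp, k⟩

theorem key (hR : S_ROOT) (h : TwoF F) (ho : o = none ∨ o = some i) (ho' : o' = none ∨ o' = some j)
    (hb : b ∈ XF F o) (hb' : b' ∈ XF F o') (pb : Prim b) (pb' : Prim b') (hc : c ∈ XF F none)
    (pc : Prim c) (hg : g ∈ F i) (hg' : g' ∈ F j) (k : Cj g c b) (k' : Cj g' c b') :
    TC1 F o o' b b' (g * g'⁻¹) := by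
  obtain ⟨p, p1, p2, p3, p4, p5⟩ := h.cenx hc pc
  obtain ⟨x, x1, x2, x3⟩ := fix hR h ho (mul_mem hg (M_le_F i p1)) p2 p3 hb pb (k.mul p5)
  obtain ⟨y, y1, y2, y3⟩ := fix hR h ho' (mul_mem hg' (M_le_F j p1)) p2 p3 hb' pb' (k'.mul p5)
  exact .inl ⟨_, p2, p3, p4, _, mul_mem x2 (inv_mem y2), x, x1, y, y1, by group, x3, y3⟩

end C_tffA

open C_tffA in
theorem p_C_TFF (hROOT : S_ROOT) :
    S_C_TFF := by
  intro Γ a F h o o' i j ho ho' g hg g' hg' b hb b' hb' pb pb' k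
  by_cases e : i = j
  · subst e
    rcases ho with rfl | rfl
    · simpa using key hROOT h (.inl rfl) ho' hb hb' pb pb' hb pb (one_mem (F i))
        (inv_mem (mul_mem hg hg')) (Cj.one_iff.2 rfl) k.inv
    rcases ho' with rfl | rfl
    · simpa using key hROOT h (.inr rfl) (.inl rfl) hb hb' pb pb' hb' pb' (mul_mem hg hg')
        (one_mem (F i)) k (Cj.one_iff.2 rfl)
    · exact .inr ⟨i, rfl, rfl, mul_mem hg hg'⟩
  · obtain rfl : j = !i := Bool.eq_not_iff.2 (Ne.symm e)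
    have k' : Cj g'⁻¹ (g⁻¹ * b * g) b' := by simpa using k.inv.mul (Cj.self' g b)
    have m : g⁻¹ * b * g ∈ XF F none := (mem_M_iff i).2
      ⟨mul_mem (mul_mem (inv_mem hg) (XF_le_F ho hb)) hg,
        h.root4 (o := some (!i)) hROOT (mul_mem (mul_mem hg' (XF_le_F ho' hb')) (inv_mem hg'))
          (pb'.conj g').1 (pb.conj' g) (by simpa [Cj] using k'.inv.symm)⟩
    simpa using key hROOT h ho ho' hb hb' pb pb' m (pb.conj' g) hg (inv_mem hg') (Cj.self' g b) k'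

end Pool.Agent.P.MP_dba3d2_lc


end

section

/-! Step C_R2B of the stability project. -/

namespace Pool.Agent.P.MP_dba3d2_lc

open Filter

namespace C_r2bA

variable {Γ : HG} {a : Amb}

theorem short (hE : S_ELEM) (hL : S_LINE) (hN : S_NORM) {H : Subgroup (MM Γ a)} (hH : GC0 H)
    {b c g : MM Γ a} (hc : c ∈ H) (pc : Prim c) (cc : Cen c) (hg : g ∈ H) (pb : Prim b)
    (cb : Cen b) (e : Cj g c b) : ∃ g1 ∈ H, Cj g1 c b ∧ Ls (ln g1) (md c) ∧ Ls (md b) (md c) := by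
  obtain ⟨f, m, ef, l, -⟩ := (hN Γ a H hH).1 c hc pc cc g hg
  have a1 := Prim.disp' hE hL (pc.conj g) pb.1 e 1
  rw [ds_one_mul, ds_one_mul] at a1
  have a2 := Prim.md_ls hE hL pb (pc.conj g).1 (Eq.symm e)
  rw [md_conj'] at a2
  exact ⟨g * f, mul_mem hg m, e.mul (Cj.of_mem ef), ((l.trans' a1).trans' cb).trans' a2, a2⟩

theorem two (hE : S_ELEM) (hL : S_LINE) (hR : S_ROOT) (hN : S_NORM) (hT : S_C_TFF)
    {F : Bool → Subgroup (MM Γ a)} (hF : TwoF F) {b b' h : MM Γ a} (hb : b ∈ F false)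
    (hb' : b' ∈ F true) (pb : Prim b) (pb' : Prim b') (cb : Cen b) (cb' : Cen b') (e : Cj h b' b)
    (l : Ls (ln h) (md b)) : TC1 F (some false) (some true) b b' h := by
  obtain ⟨c0, hc0, pc0, g, hg, g', hg', e1, e2⟩ := hF.i2 b hb b' hb' pb pb' h e
  obtain ⟨p, hp, hc, pc, cc, ep⟩ := hF.cenx (o := none) hc0 pc0
  set c := p⁻¹ * c0 * p
  obtain ⟨g1, m1, j1, l1, k1⟩ := short hE hL hN (hF.gc false) hc.1 pc cc (mul_mem hg hp.1) pb cb
    (e1.mul ep)
  obtain ⟨g2, m2, j2, l2, -⟩ := short hE hL hN (hF.gc true) hc.2 pc cc (mul_mem hg' hp.2) pb' cb'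
    (e2.mul ep)
  have ht : g1⁻¹ * h * g2 ∈ F false ⊓ F true := by
    refine ((hR Γ a _ hF.gcm).2.1 c hc c hc pc pc _ ((j1.inv.mul e).mul j2)).2 cc cc ?_
    refine Ls.mono_left ?_ ((l1.add (l.trans' k1)).add l2)
    have b1 := ln_mul_le (g1⁻¹ * h) g2
    have b2 := ln_mul_le g1⁻¹ h
    rw [ln_inv] at b2
    linarith
  have e3 : g1 * (g1⁻¹ * h * g2) * g2⁻¹ = h := by group
  have := hT Γ a F hF (some false) (some true) false true (Or.inr rfl) (Or.inr rfl) _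
    (mul_mem m1 ht.1) _ (inv_mem m2)
  rw [e3] at this
  exact this b hb b' hb' pb pb' e

end C_r2bA

theorem p_C_R2B (hELEM : S_ELEM) (hLINE : S_LINE) (hROOT : S_ROOT) (hNORM : S_NORM) (hC_TFF : S_C_TFF) :
    S_C_R2B := by
  intro Γ a F hF o o' b hb b' hb' pb pb' cb cb' h e l
  rcases opt_cases o o' with ⟨i, h1, h2⟩ | ⟨i, rfl, rfl⟩
  · have hh := ((hROOT Γ a _ (hF.gc i)).2.1 b (XF_le_F h1 hb) b' (XF_le_F h2 hb') pb pb' h e).2
      cb cb' l
    have := hC_TFF Γ a F hF o o' i i h1 h2 h hh 1 (one_mem _)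
    rw [mul_one] at this
    exact this b hb b' hb' pb pb' e
  · cases i
    · exact C_r2bA.two hELEM hLINE hROOT hNORM hC_TFF hF hb hb' pb pb' cb cb' e l
    · have a2 := Prim.md_ls hELEM hLINE pb (pb'.conj h).1 (Eq.symm e)
      rw [md_conj'] at a2
      have := (C_r2bA.two hELEM hLINE hROOT hNORM hC_TFF hF hb' hb pb' pb cb' cb e.inv
        (by rw [ln_inv]; exact l.trans' a2)).symm
      rwa [inv_inv] at this

end Pool.Agent.P.MP_dba3d2_lc


end

section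

/-! Step C_RED of the stability project. -/

namespace Pool.Agent.P.MP_dba3d2_lc

open Filter

namespace C_redA

variable {Γ : HG} {a : Amb} {F : Bool → Subgroup (MM Γ a)} {G : Type} [Group G] {C : Cv F G}
  {A B : Subgroup G} {o : Option Bool} {c : MM Γ a} {y : G} {s : Tg Γ a × G}

/-- a factor syllable in front of an exponent syllable moves the axis out of the base -/
theorem fac (hR : S_ROOT) (hF : TwoF F) (hc : TOK F C.S (.inr c))
    (h : C.CMin A (C.L (.inr c)) [(.inl o, y)]) (ho : o ≠ none) :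
    C.π y * c * (C.π y)⁻¹ ∉ XF F none := fun hd => by
  have k := h.1 (.inl o, y) (by simp)
  obtain ⟨g, g1, -, -, g2⟩ := hF.root6 hR hd hc.1 (hc.2.1.conj _).1 hc.2.1.1 (Cj.self _ _)
  obtain ⟨x, x1, rfl⟩ := Cv.lift_base (C := C) g1
  have x2 : x⁻¹ * y ∈ C.L (.inr c) :=
    Cv.mem_E k.1 hc (mul_mem (inv_mem (Cv.base_le k.1 x1)) k.2) (by simpa using g2)
  have := h.2 [(.inl none, x)] (Cv.wd_single (Cv.ok_base x1)) 1 (one_mem _) _ (inv_mem x2)
    (by simp)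
  rcases o with _ | i
  · exact ho rfl
  · simp at this

theorem notl (h : C.CMin A B [s]) : s.2 ∉ A := fun k =>
  List.cons_ne_nil _ _ (h.eq_nil k (one_mem _) (by simp))

theorem notr (h : C.CMin A B [s]) : s.2 ∉ B := fun k =>
  List.cons_ne_nil _ _ (h.eq_nil (one_mem _) k (by simp))

theorem same {d : MM Γ a} (hc : TOK F C.S (.inr c)) (hd : TOK F C.S (.inr d)) (e : Ep c = Ep d)
    (h : y ∈ C.L (.inr c)) : y ∈ C.L (.inr d) := by
  simpa using C.cj c d hc hd 1 (one_mem _) (by simpa using Cj.one_iff.2 e) y h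

theorem endl {X : Type} {e e' : Option X} {u p q : List X} {s : X} (k : xw e u e' = p ++ s :: q)
    (h : ¬ e.toList.length ≤ p.length) : e = some s ∧ p = [] := by
  rcases e with _ | s0
  · simp at h
  obtain rfl : p = [] := by simpa using h
  obtain rfl : s0 = s := by simpa [xw] using congrArg List.head? k
  exact ⟨rfl, rfl⟩

theorem endr {X : Type} {e e' : Option X} {u p q : List X} {s : X} (k : xw e u e' = p ++ s :: q)
    (h : ¬ e'.toList.length ≤ q.length) : e' = some s ∧ q = [] := by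
  rcases e' with _ | s0
  · simp at h
  obtain rfl : q = [] := by simpa using h
  obtain rfl : s0 = s := by simpa [xw] using congrArg List.getLast? k
  exact ⟨rfl, rfl⟩

end C_redA

open C_redA in
theorem p_C_RED (hROOT : S_ROOT) :
    S_C_RED := by
  intro Γ a F hF G _ C e e' u he he' h h0
  have hw : C.Wd (xw e u e') := Cv.wd_xw (fun s hs => (he s hs).1) h.1 fun s hs => (he' s hs).1
  refine ⟨hw, fun s hs i hi hm => ?_, ?_, fun s z s' k => h.he hw (fun s hs s' hs' =>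
    (h0 s hs s' hs').1) k⟩
  · rcases (mem_xw _ _ _ _).1 hs with k | k | k
    · obtain ⟨c, hc⟩ := (he s k).2
      simp [hc] at hi
    · simp [h.nz s k hm] at hi
    · obtain ⟨c, hc⟩ := (he' s k).2
      simp [hc] at hi
  refine List.isChain_iff_forall_rel_of_append_cons_cons.2 fun s s' p q k => ?_
  have o1 : C.ok s := hw s (by simp [k])
  have o2 : C.ok s' := hw s' (by simp [k])
  have hR : (∃ B, C.CMin (C.L s.1) B [s']) ∨ e' = some s' ∧ q = [] := by
    by_cases hq : e'.toList.length ≤ q.length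
    · have := h.piece (p := p ++ [s]) (z := [s']) (q := q) (by simp [k]) (by cases e <;> simp) hq
      exact .inl ⟨_, by simpa using this⟩
    · exact .inr (endr (e := e) (u := u) (p := p ++ [s]) (by simp [k]) hq)
  have hL : (∃ A, C.CMin A (C.L s'.1) [s]) ∨ e = some s ∧ p = [] := by
    by_cases hp : e.toList.length ≤ p.length
    · have := h.piece (p := p) (z := [s]) (q := s' :: q) (by simp [k]) hp (by cases e' <;> simp)
      exact .inl ⟨_, by simpa using this⟩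
    · exact .inr (endl k hp)
  have hR' : ∀ o, s'.1 = .inl o → ∃ B, C.CMin (C.L s.1) B [s'] := fun o ho =>
    hR.resolve_right fun m => by
      obtain ⟨c, hc⟩ := (he' s' m.1).2
      simp [hc] at ho
  have hL' : ∀ o, s.1 = .inl o → ∃ A, C.CMin A (C.L s'.1) [s] := fun o ho =>
    hL.resolve_right fun m => by
      obtain ⟨c, hc⟩ := (he s m.1).2
      simp [hc] at ho
  obtain ⟨o | c, y⟩ := s <;> obtain ⟨o' | c', y'⟩ := s'
  · obtain ⟨B, r⟩ := hR' _ rfl
    obtain ⟨A, l⟩ := hL' _ rfl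
    refine (opt_cases o o').resolve_left ?_
    rintro ⟨i, rfl | rfl, rfl | rfl⟩
    exacts [notl r o2.2, notr l (Cv.base_le o2.1 o1.2), notl r (Cv.base_le o1.1 o2.2),
      notl r o2.2]
  · obtain ⟨A, l⟩ := hL' _ rfl
    exact fac hROOT hF o2.1 l
  · obtain ⟨B, r⟩ := hR' _ rfl
    intro ho
    have := fac (y := y'⁻¹) hROOT hF o1.1 (by simpa [sinv] using r.winv) ho
    simpa using this
  · rcases hR with ⟨B, r⟩ | ⟨rfl, rfl⟩
    · exact fun m => notl r (same o2.1 o1.1 m.symm o2.2)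
    rcases hL with ⟨A, l⟩ | ⟨rfl, rfl⟩
    · exact fun m => notr l (same o1.1 o2.1 m o1.2)
    refine (h0 _ rfl _ rfl).2 ?_
    simpa using congrArg List.length k

end Pool.Agent.P.MP_dba3d2_lc


end

section

/-! Step C_NORMW of the stability project. -/

namespace Pool.Agent.P.MP_dba3d2_lc

open Filter

namespace C_normwA

variable {Γ : HG} {a : Amb} {F : Bool → Subgroup (MM Γ a)} {G : Type} [Group G] {C : Cv F G}
  {s s' : Tg Γ a × G} {v w r : List (Tg Γ a × G)} {t : Tg Γ a} {x x' y : G} {o : Option Bool}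
  {c : MM Γ a}

/-- factor syllables are not in the base -/
def X (C : Cv F G) (s : Tg Γ a × G) : Prop := ∀ i, s.1 = .inl (some i) → C.π s.2 ∉ XF F none

/-- the claim of the induction -/
def Q (C : Cv F G) (w : List (Tg Γ a × G)) : Prop :=
  ∃ w', w'.map Prod.fst = w.map Prod.fst ∧ C.Wd w' ∧ vl w' = vl w ∧ C.PCh w' ∧
    ∀ s ∈ w'.head?, X C s

/-- the claim with a fixed first syllable -/
def Q' (C : Cv F G) (s : Tg Γ a × G) (w : List (Tg Γ a × G)) : Prop :=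
  ∃ w', w'.map Prod.fst = w.map Prod.fst ∧ C.Wd (s :: w') ∧ vl w' = vl w ∧ C.PCh (s :: w')

theorem q_nil (h : C.ok s) : Q' C s [] := ⟨[], rfl, Cv.wd_single h, rfl, List.isChain_singleton _⟩

theorem Q.cons (h : Q C ((t, x) :: r)) (h0 : C.ok s)
    (hp : ∀ x', X C (t, x') → Pair F (C.pr s) (t, C.π x')) : Q' C s ((t, x) :: r) := by
  obtain ⟨w', h1, h2, h3, h4, h5⟩ := h
  rcases w' with _ | ⟨⟨t', x'⟩, r'⟩
  · simp at h1
  obtain rfl : t' = t := by simpa using congrArg List.head? h1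
  exact ⟨_, h1, Cv.wd_cons.2 ⟨h0, h2⟩, h3, List.isChain_cons_cons.2 ⟨hp x' (h5 _ rfl), h4⟩⟩

theorem Q'.cons (h : Q' C s' w) (h0 : C.ok s) (hp : Pair F (C.pr s) (C.pr s')) :
    Q' C s (s' :: w) := by
  obtain ⟨w', h1, h2, h3, h4⟩ := h
  exact ⟨s' :: w', by simp [h1], Cv.wd_cons.2 ⟨h0, h2⟩, by simp [h3],
    List.isChain_cons_cons.2 ⟨hp, h4⟩⟩

theorem Q'.toQ (h : Q' C s w) (h0 : X C s) (e1 : (s :: w).map Prod.fst = v.map Prod.fst)
    (e2 : vl (s :: w) = vl v) : Q C v := by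
  obtain ⟨w', h1, h2, h3, h4⟩ := h
  refine ⟨s :: w', by rw [← e1]; simp [h1], h2, by rw [← e2]; simp [h3], h4, fun s0 k => ?_⟩
  obtain rfl : s = s0 := by simpa using k
  exact h0

theorem x_inr : X C (.inr c, x) := fun _ h => by cases h

theorem red_tail (h : C.Red (s :: w)) : C.Red w :=
  ⟨(Cv.wd_cons.1 h.wd).2, fun s0 k => h.pl s0 (List.mem_cons_of_mem _ k), h.ch.tail,
    fun s0 z s1 k => h.he s0 z s1 (k.trans (List.suffix_cons s w).isInfix)⟩

theorem red_head (h : C.Red ((t, x) :: r)) (h1 : x' ∈ C.L t) (h2 : X C (t, x'))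
    (h3 : ∀ s', RP F (t, C.π x) s' → RP F (t, C.π x') s') : C.Red ((t, x') :: r) := by
  obtain ⟨k1, k2⟩ := Cv.wd_cons.1 h.wd
  refine ⟨Cv.wd_cons.2 ⟨⟨k1.1, h1⟩, k2⟩, fun s0 k => ?_, ?_, fun s0 z s1 k => ?_⟩
  · rcases List.mem_cons.1 k with rfl | k
    · exact h2
    · exact h.pl s0 (List.mem_cons_of_mem _ k)
  · rcases r with _ | ⟨s1, r⟩
    · exact List.isChain_singleton _
    · obtain ⟨a1, a2⟩ := List.isChain_cons_cons.1 h.ch
      exact List.isChain_cons_cons.2 ⟨h3 _ a1, a2⟩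
  · rcases List.infix_cons_iff.1 k with k | k
    · obtain ⟨rfl, k'⟩ := List.cons_prefix_cons.1 k
      exact h.he (t, x) z s1 (List.cons_prefix_cons.2 ⟨rfl, k'⟩).isInfix
    · exact h.he s0 z s1 (k.trans (List.suffix_cons _ r).isInfix)

theorem red_inr (h : C.Red ((.inr c, x) :: r)) (h1 : y ∈ C.L (.inr c)) :
    C.Red ((.inr c, y * x) :: r) :=
  red_head h (mul_mem h1 (Cv.wd_cons.1 h.wd).1.2) x_inr fun s' k => (rp_inr_left s' _ _).1 k

theorem red_inl (h : C.Red ((.inl o, x) :: r)) (h1 : y ∈ C.L (.inl none)) :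
    C.Red ((.inl o, y * x) :: r) := by
  have k := (Cv.wd_cons.1 h.wd).1
  have hy : C.π y ∈ XF F none := C.le (.inl none) C.s0 y h1
  refine red_head h (mul_mem (Cv.base_le k.1 h1) k.2) (fun i e m => ?_) ?_
  · rw [map_mul] at m
    exact h.pl _ List.mem_cons_self i e ((mul_mem_cancel_left hy).1 m)
  · rintro ⟨o' | c', y'⟩ k'
    · exact k'
    · intro e m
      refine k' e ?_
      have := mul_mem (mul_mem (inv_mem hy) m) hy
      rw [map_mul] at this
      simpa [mul_assoc] using this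

theorem main (hROOT : S_ROOT) (hNORM : S_NORM) (hF : TwoF F) (n : ℕ) :
    ∀ w : List (Tg Γ a × G), w.length ≤ n → C.Red w → Q C w := by
  induction n with
  | zero =>
    intro w hw _
    obtain rfl := List.length_eq_zero_iff.1 (Nat.le_zero.1 hw)
    exact ⟨[], rfl, Cv.wd_nil, rfl, List.isChain_nil, by simp⟩
  | succ n ih =>
    intro w hw h
    rcases w with _ | ⟨s, _ | ⟨s', r⟩⟩
    · exact ⟨[], rfl, Cv.wd_nil, rfl, List.isChain_nil, by simp⟩
    · exact (q_nil (h.wd s (by simp))).toQ (h.pl s (by simp)) rfl rfl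
    have o1 := h.wd s (by simp)
    have o2 := h.wd s' (by simp)
    have p1 := (List.isChain_cons_cons.1 h.ch).1
    have ht := red_tail h
    have hl : r.length + 1 ≤ n := by simpa using hw
    obtain ⟨o | c, y⟩ := s <;> obtain ⟨o' | c', y'⟩ := s'
    · obtain ⟨i, rfl, rfl⟩ := p1
      have hy := h.pl _ List.mem_cons_self i rfl
      obtain ⟨m, m1, m2⟩ := hF.n1 i _ (C.le _ o1.1 _ o1.2) hy
      obtain ⟨σ, s1, rfl⟩ := Cv.lift_base (C := C) m1
      refine ((ih _ (by simpa using hl) (red_inl ht (inv_mem s1))).cons (s := (_, y * σ))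
        (o1.mk' (mul_mem o1.2 (Cv.base_le o1.1 s1))) fun x' k => ?_).toQ (fun _ _ k => ?_) rfl
        (by simp [mul_assoc])
      · exact ⟨i, rfl, rfl, .inl ⟨by rw [← map_mul] at m2; exact m2, k _ rfl⟩⟩
      · rw [map_mul] at k
        exact hy ((mul_mem_cancel_right m1).1 k)
    · obtain ⟨f, f1, f2, -, f3⟩ := (hNORM Γ a _ (hF.gcx o)).1 c' (M_le_XF o o2.1.1) o2.1.2.1
        o2.1.2.2 _ (C.le _ o1.1 _ o1.2)
      obtain ⟨φ, a1, a2, rfl⟩ := Cv.lift_both (C := C) o1.1 o2.1 f1 f2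
      refine ((ih _ (by simpa using hl) (red_inr ht (inv_mem a2))).cons (s := (_, y * φ))
        (o1.mk' (mul_mem o1.2 a1)) fun x' _ => ?_).toQ (fun i e k => ?_) rfl (by simp [mul_assoc])
      · change NE c' (C.π (y * φ))
        rwa [map_mul]
      · obtain rfl : o = some i := Sum.inl.inj e
        have k1 : (C.π φ)⁻¹ * c' * C.π φ ∈ XF F none :=
          hF.root4 hROOT o2.1.1 o2.1.2.1.1 (o2.1.2.1.conj' _) (Ep_conj_mem' f2)
        have k2 := mul_mem (mul_mem k k1) (inv_mem k)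
        refine p1 (by simp) ?_
        simpa [mul_assoc] using k2
    · rcases r with _ | ⟨⟨o'' | c'', y''⟩, r⟩
      · obtain ⟨f, f1, f2, -, f3⟩ := (hNORM Γ a _ (hF.gcx o')).1 c (M_le_XF o' o1.1.1) o1.1.2.1
          o1.1.2.2 _ (inv_mem (C.le _ o2.1 _ o2.2))
        obtain ⟨φ, a1, a2, rfl⟩ := Cv.lift_both (C := C) o2.1 o1.1 f1 f2
        refine ((q_nil (s := (_, φ⁻¹ * y')) (o2.mk' (mul_mem (inv_mem a1) o2.2))).cons
          (s := (_, y * φ)) (o1.mk' (mul_mem o1.2 a2)) ?_).toQ x_inr rfl (by simp [mul_assoc])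
        change NE c (C.π (φ⁻¹ * y'))⁻¹
        simpa using f3
      · obtain ⟨i, rfl, rfl⟩ := (List.isChain_cons_cons.1 ht.ch).1
        obtain ⟨f, f1, f2, m, m1, m2, m3⟩ := hF.n3 i c (M_le_F i o1.1.1) o1.1.2.1 o1.1.2.2 _
          (C.le _ o2.1 _ o2.2) (p1 (by simp))
        obtain ⟨φ, a1, a2, rfl⟩ := Cv.lift_both (C := C) (o := some i) o2.1 o1.1 f1 f2
        obtain ⟨σ, s1, rfl⟩ := Cv.lift_base (C := C) m1
        refine (((ih _ (by simp at hl ⊢; omega) (red_inl (red_tail ht) (inv_mem s1))).cons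
          (s := (_, φ * y' * σ)) (o2.mk' (mul_mem (mul_mem a1 o2.2) (Cv.base_le o2.1 s1)))
          fun x' k => ?_).cons (s := (_, y * φ⁻¹)) (o1.mk' (mul_mem o1.2 (inv_mem a2))) ?_).toQ
          x_inr rfl (by simp [mul_assoc])
        · exact ⟨i, rfl, rfl, .inl ⟨by rw [← map_mul, ← map_mul] at m2; exact m2, k _ rfl⟩⟩
        · change NE c (C.π (φ * y' * σ))⁻¹
          rwa [map_mul, map_mul]
      · have o3 := h.wd (.inr c'', y'') (by simp)
        have nc : ¬ Cj (C.π y') c'' c := by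
          rcases o' with _ | i
          · exact h.he (.inr c, y) [(.inl none, y')] (.inr c'', y'') ⟨[], r, by simp⟩ c c'' y'
              rfl rfl rfl
          · exact fun k => p1 (by simp)
              (hF.root4 hROOT o3.1.1 o3.1.2.1.1 (o1.1.2.1.conj' _) k.ep)
        obtain ⟨f, f1, f', f1', f2, f2', n1, n2, -⟩ := (hNORM Γ a _ (hF.gcx o')).2 c
          (M_le_XF o' o1.1.1) c'' (M_le_XF o' o3.1.1) o1.1.2.1 o3.1.2.1 o1.1.2.2 o3.1.2.2 _
          (C.le _ o2.1 _ o2.2) nc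
        obtain ⟨φ, a1, a2, rfl⟩ := Cv.lift_both (C := C) o2.1 o1.1 f1 f2
        obtain ⟨φ', a1', a2', rfl⟩ := Cv.lift_both (C := C) o2.1 o3.1 f1' f2'
        refine (((ih _ (by simp at hl ⊢; omega) (red_inr (red_tail ht) (inv_mem a2'))).cons
          (s := (_, φ * y' * φ')) (o2.mk' (mul_mem (mul_mem a1 o2.2) a1'))
          fun x' _ => ?_).cons (s := (_, y * φ⁻¹)) (o1.mk' (mul_mem o1.2 (inv_mem a2))) ?_).toQ
          x_inr rfl (by simp [mul_assoc])
        · change NE c'' (C.π (φ * y' * φ'))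
          rwa [map_mul, map_mul]
        · change NE c (C.π (φ * y' * φ'))⁻¹
          rwa [map_mul, map_mul]
    · exact ((ih _ (by simpa using hl) ht).cons o1 fun _ _ => p1).toQ x_inr rfl rfl

end C_normwA

theorem p_C_NORMW (hROOT : S_ROOT) (hNORM : S_NORM) :
    S_C_NORMW := by
  intro Γ a F hF G _ C w h
  obtain ⟨w', h1, h2, h3, h4, -⟩ := C_normwA.main hROOT hNORM hF _ w le_rfl h
  exact ⟨w', h1, h2, h3, h4⟩

end Pool.Agent.P.MP_dba3d2_lc


end

section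

/-! Step C_EXTM of the stability project. -/

namespace Pool.Agent.P.MP_dba3d2_lc

open Filter

namespace C_extmA

variable {Γ : HG} {a : Amb} {F : Bool → Subgroup (MM Γ a)} {G : Type} [Group G] {C : Cv F G}
  {e e1 : Option (Tg Γ a × G)} {l : List (Tg Γ a × G)}

theorem split {X Y : Type} (f : X → Y) (e e' : Option X) (u w : List X)
    (h : w.map f = (xw e u e').map f) : ∃ e1 u' e1', w = xw e1 u' e1' ∧ e1.map f = e.map f ∧
      u'.map f = u.map f ∧ e1'.map f = e'.map f := by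
  have k : ∀ (e : Option X) (v : List X), v.map f = e.toList.map f →
      ∃ e1 : Option X, v = e1.toList ∧ e1.map f = e.map f := by
    rintro (_ | s) v hv
    · exact ⟨none, List.map_eq_nil_iff.1 hv, rfl⟩
    · obtain ⟨s1, t, rfl, h1, h2⟩ := List.map_eq_cons_iff.1 hv
      rw [List.map_eq_nil_iff.1 h2]
      exact ⟨some s1, rfl, congrArg some h1⟩
  rw [xw, List.map_append, List.map_append] at h
  obtain ⟨p, q, rfl, h1, h2⟩ := List.map_eq_append_iff.1 h
  obtain ⟨p, u', rfl, h3, h4⟩ := List.map_eq_append_iff.1 h1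
  obtain ⟨e1, rfl, h5⟩ := k e p h3
  obtain ⟨e1', rfl, h6⟩ := k e' q h2
  exact ⟨e1, u', e1', rfl, h5, h4, h6⟩

theorem chL (he : ∀ s ∈ e, ∃ c, s.1 = .inr c) (h : e1.map Prod.fst = e.map Prod.fst)
    (k : C.PCh (e1.toList ++ l)) : C.PCh (e.toList ++ l) := by
  rcases e with _ | ⟨t, x⟩ <;> rcases e1 with _ | ⟨t1, x1⟩
  · exact k
  · cases h
  · cases h
  · obtain ⟨c, rfl⟩ := he _ rfl
    obtain rfl : t1 = .inr c := Option.some.inj h
    rcases l with _ | ⟨s, l⟩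
    · exact List.isChain_singleton _
    · have k' := List.isChain_cons_cons.1 k
      exact List.isChain_cons_cons.2 ⟨(pair_inr_left _ _ _).1 k'.1, k'.2⟩

theorem chR (he : ∀ s ∈ e, ∃ c, s.1 = .inr c) (h : e1.map Prod.fst = e.map Prod.fst)
    (k : C.PCh (l ++ e1.toList)) : C.PCh (l ++ e.toList) := by
  have w : ∀ e : Option (Tg Γ a × G), winv e.toList = (e.map sinv).toList := fun e => by
    cases e <;> simp
  have k1 := k.winv
  rw [winv_append, w] at k1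
  have k2 := (chL (e := e.map sinv) (fun s hs => by
    obtain ⟨s0, h0, rfl⟩ := Option.mem_map.1 hs
    exact he s0 h0) (by cases e <;> cases e1 <;> simp_all) k1).winv
  rwa [← w, ← winv_append, winv_winv] at k2

theorem mem_LO (h : C.Wd e.toList) : vl e.toList ∈ C.LO e := by
  rcases e with _ | s
  · exact one_mem _
  · simpa using (h s (by simp)).2

end C_extmA

open C_extmA in
theorem p_C_EXTM (hC_RED : S_C_RED) (hC_NORMW : S_C_NORMW) :
    S_C_EXTM := by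
  intro Γ a F hF G _ C e e' u he he' hm hj
  have hr := hC_RED Γ a F hF G C e e' u he he' hm hj
  obtain ⟨w', h1, h2, h3, h4⟩ := hC_NORMW Γ a F hF G C _ hr
  obtain ⟨e1, u', e1', rfl, k1, k2, k3⟩ := split Prod.fst e e' u w' h1
  have a1 := hr.wd
  rw [xw, Cv.wd_append, Cv.wd_append] at h2 a1
  refine ⟨u', k2, h2.1.2, ?_, (vl e1.toList)⁻¹ * vl e.toList,
    mul_mem (inv_mem (Cv.LO_tags k1 ▸ mem_LO h2.1.1)) (mem_LO a1.1.1),
    vl e'.toList * (vl e1'.toList)⁻¹,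
    mul_mem (mem_LO a1.2) (inv_mem (Cv.LO_tags k3 ▸ mem_LO h2.2)), ?_⟩
  · refine chR (fun s hs => (he' s hs).2) k3 ?_
    rw [xw, List.append_assoc] at h4
    rw [List.append_assoc]
    exact chL (fun s hs => (he s hs).2) k1 h4
  · simp only [xw, vl_append] at h3
    rw [show vl u' = (vl e1.toList)⁻¹ * (vl e1.toList * vl u' * vl e1'.toList) *
      (vl e1'.toList)⁻¹ by group, h3]
    group

end Pool.Agent.P.MP_dba3d2_lc


end

section

/-! Step C_PRE of the stability project. -/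

namespace Pool.Agent.P.MP_dba3d2_lc

open Filter

theorem p_C_PRE (hROOT : S_ROOT) (hNORM : S_NORM) :
    S_C_PRE := by
  intro Γ a F hF i b y t hb pb cb hy hn ht
  have le : ∀ x ∈ F false ⊓ F true, x ∈ F i := fun x hx => by
    cases i
    exacts [hx.1, hx.2]
  rcases ht with rfl | ⟨c, ⟨hc, pc, cc⟩, rfl⟩
  · obtain ⟨f, f1, f2, s, s1, s2, s3⟩ := hF.n3 i b hb pb cb y hy hn
    refine ⟨f, f1, f2, s, le s s1, ?_, s3, fun y1 h => ⟨i, rfl, rfl, Or.inl ⟨s2, h rfl⟩⟩⟩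
    cases i
    exacts [s1.2, s1.1]
  · have nc : ¬ Cj y c b := fun h => hn ((hROOT Γ a _ hF.gcm).2.2.2.1 c hc pc.1 _ (pb.conj' y) (by
      have k := (Ep_conj_iff' y).2 h
      rw [← k]
      congr 1
      group))
    obtain ⟨f, f1, g, g1, f2, g2, n1, n2, -⟩ :=
      (hNORM Γ a _ (hF.gc i)).2 b hb c (le c hc) pb pc cb cc y hy nc
    refine ⟨f, f1, f2, g, g1, ?_, n1, fun _ _ => n2⟩
    have k : g ∈ F i ⊓ Ep c := ⟨g1, g2⟩
    cases i
    exacts [Subgroup.mem_sup_left k, Subgroup.mem_sup_right k]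

end Pool.Agent.P.MP_dba3d2_lc


end

section

/-! Step C_EXTN of the stability project. -/

namespace Pool.Agent.P.MP_dba3d2_lc

open Filter

namespace C_extnA

variable {Γ : HG} {a : Amb} {F : Bool → Subgroup (MM Γ a)}

/-- the result of normalising the left end -/
structure LS (F : Bool → Subgroup (MM Γ a)) (b : MM Γ a) (e : Option (Tg Γ a × MM Γ a))
    (u : List (Tg Γ a × MM Γ a)) (m e1 : Option (Tg Γ a × MM Γ a))
    (u1 : List (Tg Γ a × MM Γ a)) (f g : MM Γ a) : Prop where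
  m1 : ∀ s ∈ m, s ∈ e ∧ ∃ c, s.1 = .inr c
  m2 : ∀ x ∈ (idC F).LO m, x ∈ (idC F).LO e ∧ x ∈ Ep b ∧ vl e1.toList * x = x * vl e1.toList
  tg : e1.map Prod.fst = e.map Prod.fst
  en : ∀ s ∈ e1, EndL F b s ∧ NE b s.2⁻¹
  tu : u1.map Prod.fst = u.map Prod.fst
  wd : (idC F).Wd u1
  hg : g ∈ (idC F).LO e
  hf : f ∈ (idC F).LO e
  hE : f ∈ Ep b
  v1 : vl u1 = g⁻¹ * vl u
  v2 : vl e1.toList = f * vl e.toList * g
  ch : ∀ u2 R, u2.map Prod.fst = u.map Prod.fst → (idC F).Nz u2 →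
    (idC F).PCh (m.toList ++ u2 ++ R) → (idC F).PCh (e1.toList ++ u2 ++ R)

theorem left (hP : S_C_PRE) (hF : TwoF F) {b : MM Γ a} {e : Option (Tg Γ a × MM Γ a)}
    {u : List (Tg Γ a × MM Γ a)} {B : Subgroup (MM Γ a)}
    (he : ∀ s ∈ e, EndL F b s ∧ Far F b s) (hm : (idC F).CMin ((idC F).LO e) B u) (hu : u ≠ []) :
    ∃ m e1 u1 f g, LS F b e u m e1 u1 f g := by
  rcases e with _ | s
  · refine ⟨none, none, u, 1, 1, by simp, fun x hx => ?_, rfl, by simp, rfl, hm.1, one_mem _,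
      one_mem _, one_mem _, by simp, by simp, fun _ _ _ _ h => h⟩
    obtain rfl : x = 1 := by simpa using hx
    simp
  obtain ⟨h1, h2⟩ := he s rfl
  rcases h1.cases with ⟨rfl, hb⟩ | ⟨i, y, rfl, hy, hb⟩
  · refine ⟨_, _, u, 1, 1, fun s hs => ⟨hs, b, ?_⟩, fun x hx => ⟨hx, EF_le_Ep hx, by simp⟩, rfl,
      fun s hs => ?_, rfl, hm.1, one_mem _, one_mem _, one_mem _, by simp, by simp,
      fun _ _ _ _ h => h⟩
    · cases hs; rfl
    · cases hs; exact ⟨h1, by simpa using ne_one b⟩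
  obtain ⟨⟨t, y0⟩, u0, rfl⟩ := List.exists_cons_of_ne_nil hu
  obtain ⟨k1, k2⟩ := Cv.wd_cons.1 hm.1
  have n0 : y0 ∉ F i := fun h => by
    have := (Cv.CMin.dropr (v := [(t, y0)]) (w := u0) hm).eq_nil (x := y0) (y := 1) h (one_mem _)
      (by simp)
    cases this
  have ht : t = .inl (some (!i)) ∨ ∃ c ∈ PM F, t = .inr c := by
    rcases t with (_ | j) | c
    · exact absurd (M_le_F i k1.2) n0
    · left
      have : j ≠ i := by rintro rfl; exact n0 k1.2
      rw [Bool.eq_not_iff.2 this]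
    · exact .inr ⟨c, k1.1, rfl⟩
  obtain ⟨f, f1, f2, g, g1, g2, p1, p2⟩ :=
    hP Γ a F hF i b y t hb h1.axis.2.1 h1.axis.2.2 hy (h2 _ rfl) ht
  refine ⟨none, some (.inl (some i), f * y * g), (t, g⁻¹ * y0) :: u0, f, g, by simp,
    fun x hx => ?_, rfl, fun s hs => ?_, rfl,
    Cv.wd_cons.2 ⟨k1.mk' (mul_mem (inv_mem g2) k1.2), k2⟩, g1, f1, f2, by simp [mul_assoc],
    by simp, fun u2 R e2 nz h => ?_⟩
  · obtain rfl : x = 1 := by simpa using hx
    simp
  · cases hs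
    exact ⟨⟨h1.1, mul_mem (mul_mem f1 hy) g1, h1.2.2⟩, p1⟩
  · rcases u2 with _ | ⟨⟨t2, y2⟩, u2⟩
    · cases e2
    obtain rfl : t2 = t := by simpa using congrArg List.head? e2
    refine List.isChain_cons_cons.2 ⟨p2 y2 fun k km => ?_, h⟩
    have := nz _ List.mem_cons_self km
    simp [k] at this

theorem he_tr {s s' s1 s1' : Tg Γ a × MM Γ a} {u u2 : List (Tg Γ a × MM Γ a)} {x y : MM Γ a}
    (h : (idC F).HE s u s') (t1 : s1.1 = s.1) (t2 : s1'.1 = s'.1)
    (tu : u2.map Prod.fst = u.map Prod.fst) (hx : x ∈ LF F s.1) (hy : y ∈ LF F s'.1)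
    (e : vl u2 = x * vl u * y) : (idC F).HE s1 u2 s1' := by
  rintro c c' m e1 e2 rfl k
  rw [t1] at e1
  rw [t2] at e2
  rw [e1] at hx
  rw [e2] at hy
  rcases u with _ | ⟨⟨t, m0⟩, _ | _⟩
  · cases tu
  · obtain rfl : .inl none = t := by simpa using tu
    refine h c c' m0 e1 e2 rfl ?_
    have := ((Cj.of_mem (inv_mem (EF_le_Ep hx))).mul k).mul (Cj.of_mem (inv_mem (EF_le_Ep hy)))
    have e' : m = x * m0 * y := by simpa using e
    simpa [e', mul_assoc] using this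
  · simp at tu

theorem tags_winv (w : List (Tg Γ a × MM Γ a)) :
    (winv w).map Prod.fst = (w.map Prod.fst).reverse := by
  induction w with
  | nil => rfl
  | cons s w ih => simp [ih]

theorem map_sinv (e : Option (Tg Γ a × MM Γ a)) : (e.map sinv).map sinv = e := by
  cases e <;> simp

theorem tags_sinv (e : Option (Tg Γ a × MM Γ a)) :
    (e.map sinv).map Prod.fst = e.map Prod.fst := by
  cases e <;> simp

theorem vl_sinv (e : Option (Tg Γ a × MM Γ a)) : vl (e.map sinv).toList = (vl e.toList)⁻¹ := by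
  cases e <;> simp

theorem of_tags {e e1 : Option (Tg Γ a × MM Γ a)} (h : e1.map Prod.fst = e.map Prod.fst)
    {s : Tg Γ a × MM Γ a} (hs : s ∈ e1) : ∃ s0, e = some s0 ∧ s.1 = s0.1 := by
  cases hs
  cases e with
  | none => cases h
  | some s0 => exact ⟨s0, rfl, by simpa using h⟩

end C_extnA

open C_extnA in
theorem p_C_EXTN (hROOT : S_ROOT) (hC_EXTM : S_C_EXTM) (hC_PRE : S_C_PRE) :
    S_C_EXTN := by
  intro Γ a F hF b b' e e' u he he' hm hu h0
  obtain ⟨m, e1, u1, f, g, L⟩ := left hC_PRE hF he hm hu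
  have c1 : (idC F).CMin ((idC F).LO e) ((idC F).LO e') u1 :=
    hm.of_eq L.wd (ct_tags L.tu).le (inv_mem L.hg) (one_mem _) (by simp [L.v1])
  have n1 : winv u1 ≠ [] := fun h => hu (by
    have := congrArg List.length ((tags_winv u1).symm.trans (congrArg _ h))
    simpa [L.tu] using this)
  obtain ⟨m', e1', u2, f', g', R⟩ := left (b := b') (e := e'.map sinv) (B := (idC F).LO e)
    hC_PRE hF (fun s hs => by
      obtain ⟨s0, k, rfl⟩ := Option.mem_map.1 hs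
      exact he' s0 k) (by simpa using c1.winv) n1
  have tU : (winv u2).map Prod.fst = u.map Prod.fst := by
    rw [tags_winv, R.tu, tags_winv, List.reverse_reverse, L.tu]
  have vU : vl (winv u2) = g⁻¹ * vl u * g' := by simp [R.v1, L.v1, mul_assoc]
  have hg' : g' ∈ (idC F).LO e' := by simpa using R.hg
  have c2 : (idC F).CMin ((idC F).LO e) ((idC F).LO e') (winv u2) :=
    hm.of_eq R.wd.winv (ct_tags tU).le (inv_mem L.hg) hg' vU
  have l1 : (idC F).LO m ≤ (idC F).LO e := fun x hx => (L.m2 x hx).1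
  have l2 : (idC F).LO (m'.map sinv) ≤ (idC F).LO e' := fun x hx => by
    simpa using (R.m2 x (by simpa using hx)).1
  have r1 : ∀ s ∈ m'.map sinv, s ∈ e' ∧ ∃ c, s.1 = .inr c := fun s hs => by
    obtain ⟨s0, k, rfl⟩ := Option.mem_map.1 hs
    obtain ⟨k1, k2⟩ := R.m1 s0 k
    obtain ⟨s1, k3, rfl⟩ := Option.mem_map.1 k1
    exact ⟨by simpa using k3, k2⟩
  obtain ⟨u3, t3, w3, p3, x, hx, y, hy, v3⟩ := hC_EXTM Γ a F hF _ (idC F) m (m'.map sinv) (winv u2)
    (fun s hs => ⟨(he s (L.m1 s hs).1).1.ok, (L.m1 s hs).2⟩)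
    (fun s hs => ⟨by simpa using (he' s (r1 s hs).1).1.ok.inv, (r1 s hs).2⟩) (c2.mono l1 l2)
    (fun s hs s' hs' => by
      have k1 := (L.m1 s hs).1
      have k2 := (r1 s' hs').1
      refine ⟨?_, fun h => absurd (by simpa [h] using tU.symm) hu⟩
      have k := h0 s k1 s' k2
      cases k1
      cases k2
      exact he_tr k rfl rfl tU (inv_mem L.hg) hg' vU)
  have t4 := t3.trans tU
  have v4 : vl u3 = (x * g⁻¹) * vl u * (g' * y) := by rw [v3, vU]; group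
  have a1 := mul_mem (l1 hx) (inv_mem L.hg)
  have a2 := mul_mem hg' (l2 hy)
  have c3 := hm.of_eq w3 (ct_tags t4).le a1 a2 v4
  have p4 : (idC F).PCh (xw e1 u3 (m'.map sinv)) := L.ch u3 _ t4 c3.nz p3
  have p5 := p4.winv
  rw [winv_xw, map_sinv] at p5
  have p6 : (idC F).PCh (xw e1' (winv u3) (e1.map sinv)) :=
    R.ch _ _ (by rw [tags_winv, tags_winv, t4, L.tu]) c3.winv.nz p5
  have p7 := p6.winv
  rw [winv_xw, map_sinv, winv_winv] at p7
  have t5 : (e1'.map sinv).map Prod.fst = e'.map Prod.fst := by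
    rw [tags_sinv, R.tg, tags_sinv]
  have r2 : ∀ s ∈ e1'.map sinv, EndL F b' (sinv s) ∧ NE b' s.2 := fun s hs => by
    obtain ⟨s0, k, rfl⟩ := Option.mem_map.1 hs
    simpa using R.en s0 k
  obtain ⟨x1, x2, x3⟩ := L.m2 x hx
  obtain ⟨y1, y2, y3⟩ := R.m2 y (by simpa using hy)
  refine ⟨e1, u3, e1'.map sinv, L.tg, t4, t5, ⟨L.en, r2, Cv.good_of ?_ (Cv.wd_xw
    (fun s hs => (L.en s hs).1.ok) w3 fun s hs => by simpa using (r2 s hs).1.ok.inv) p7
    fun s hs s' hs' => ?_, c3.nz⟩, x * f, mul_mem x1 L.hf, f'⁻¹ * y,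
    mul_mem (inv_mem (by simpa using R.hf)) (l2 hy), mul_mem x2 L.hE, mul_mem (inv_mem R.hE) y2, ?_⟩
  · rwa [Cv.LO_tags L.tg, Cv.LO_tags t5]
  · obtain ⟨s0, rfl, k1⟩ := of_tags L.tg hs
    obtain ⟨s1, rfl, k2⟩ := of_tags t5 hs'
    exact he_tr (h0 s0 rfl s1 rfl) k1 k2 t4 a1 a2 v4
  · have y4 : y * (vl e1'.toList)⁻¹ = (vl e1'.toList)⁻¹ * y := by
      rw [mul_inv_eq_iff_eq_mul, mul_assoc, ← y3, inv_mul_cancel_left]
    have := R.v2
    rw [vl_sinv] at this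
    calc vl (xw e1 u3 (e1'.map sinv))
        = (vl e1.toList * x) * (g⁻¹ * vl u * g') * (y * (vl e1'.toList)⁻¹) := by
          rw [xw, vl_append, vl_append, vl_sinv, v4]; group
      _ = _ := by
          rw [x3, y4, L.v2, this, xw, vl_append, vl_append]; group

end Pool.Agent.P.MP_dba3d2_lc


end

section

/-! Step C_PROJ of the stability project. -/

namespace Pool.Agent.P.MP_dba3d2_lc

open Filter

theorem p_C_PROJ :
    S_C_PROJ := by
  intro Γ a b y hb hc hn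
  have e0 : ds y⁻¹ (b * y⁻¹) = ln (y * b * y⁻¹) := by rw [ds_conj, inv_inv]
  have key : ∀ μ, Big μ → Ll (md b) μ → Ls (ln y) μ →
      ∀ r, Ll (ds r (b * r)) μ → On μ 1 y⁻¹ r := by
    intro μ hμ hm hy r hr
    rcases ll_or_ls hμ.pos (ln y) with e | e
    · exact On.of_near (by simpa using e) r
    · have s : Sim (ln y) μ := ⟨hy, e⟩
      have B : Big (ln y) := hμ.of_ls e
      have n := hn B (hm.ls_right e B.pos.le)
      rw [s.fol_iff B.pos.le hμ.pos.le] at n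
      exact on_of_not_fol hμ (Ll.ls_left hc hm) n hr
  refine ⟨ls_of_scale (one_le_ln fun e => hb.1 ?_) fun B l => ?_, fun μ hμ hm hy =>
    ⟨key μ hμ hm hy, ?_⟩⟩
  · rw [← finOrder_conj y, e]; exact IsOfFinOrder.one
  · have m : Ll (md b) (ln y) := by
      rw [← md_conj' y b]; exact Ll.mono_left (md_le_ln _) l
    refine hn B m ⟨y⁻¹, by rw [ln_inv]; exact Ls.refl' _, on_right B.pos.le _ _, ?_, ?_⟩
    · rw [ds_one_mul]; exact Ll.ls_left hc m
    · rwa [e0]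
  · obtain ⟨m, -, a2, -, a4, k⟩ := exists_proj hμ hm y⁻¹
    have h1 : On μ m y⁻¹ 1 := k 1 (by rw [ds_one_mul]; exact Ll.ls_left hc hm)
    have h2 := h1.antisymm (key μ hμ hm hy m a4)
    refine h2.two.mono_left ?_
    have := ds_tri y⁻¹ m 1
    rw [ds_one_right, ln_inv] at this
    rw [e0] at a2
    linarith

end Pool.Agent.P.MP_dba3d2_lc


end

section

/-! Step C_R2A of the stability project. -/

namespace Pool.Agent.P.MP_dba3d2_lc

open Filter

namespace C_r2aA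

theorem two (hELEM : S_ELEM) (hLINE : S_LINE) (hNP : S_NP) {Γ : HG} {a : Amb}
    {F : Bool → Subgroup (MM Γ a)} (hF : TwoF F) {c c' x : MM Γ a} (hcH : c ∈ F false)
    (hcH' : c' ∈ F true) (hc : Prim c) (hc' : Prim c') (h : Cj x c' c)
    (hx : Ll (ln x) (ln c + ln c')) : ∃ g ∈ F false, ∃ g' ∈ F true, x = g * g' := by
  have hE : Γ.e * Γ.e ≠ 0 := Nat.mul_ne_zero Γ.good.pos.ne' Γ.good.pos.ne'
  obtain ⟨γ', m', he, l'⟩ :
      ∃ γ' ∈ F true, x * γ' * x⁻¹ = c ^ (Γ.e * Γ.e) ∧ Ls (ln γ') (ln c') := by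
    rcases Cj.pow hELEM hc hc' h with e | e
    · exact ⟨_, pow_mem hcH' _, e, _, ln_pow_le _ _⟩
    · exact ⟨_, inv_mem (pow_mem hcH' _), e, _, (ln_inv _).le.trans (ln_pow_le _ _)⟩
  have hd : Prim (x * c' * x⁻¹) := hc'.conj x
  have hep : Ep (x * c' * x⁻¹) = Ep c := h
  by_cases hμ : Big (ln c + ln c')
  swap
  · exact ⟨x, M_le_F false (std_le_M hF (not_big_of_ls hx.ls hμ)), 1, one_mem _, (mul_one x).symm⟩
  have n0 := ln_nonneg c
  have n1 := ln_nonneg c'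
  obtain ⟨n, e1⟩ : Ls (ln (x * c' * x⁻¹)) (ln c) := by
    simpa only [ds_one_mul] using hd.disp' hELEM hLINE hc.1 hep 1
  have e2 : ln c' ≤ ln x + ln (x * c' * x⁻¹) + ln x := by
    have k : c' = x⁻¹ * (x * c' * x⁻¹) * x := by group
    have k1 := ln_mul_le (x⁻¹ * (x * c' * x⁻¹)) x
    have k2 := ln_mul_le x⁻¹ (x * c' * x⁻¹)
    rw [← k] at k1
    rw [ln_inv] at k2
    linarith
  have s1 : Ls (ln c + ln c') (ln c) :=
    (Ls.refl' _).of_le_add hx.two hμ.pos (n + 1) (by push_cast; linarith)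
  have s2 : Ls (ln c) (ln c + ln c') := Ls.of_le (by linarith)
  have s3 : Ls (ln c') (ln c + ln c') := Ls.of_le (by linarith)
  obtain ⟨p1, p2⟩ := hNP Γ a c hc (hμ.of_ls s1) (Γ.e * Γ.e * 2)
    (by have := Nat.pos_of_ne_zero hE; omega)
  have e3 : x * γ' ^ 2 = c ^ (Γ.e * Γ.e * 2) * x := by
    rw [pow_mul, ← he, conj_pow, inv_mul_cancel_right]
  have z : ∀ y : MM Γ a, Ll (ds y y) (ln c + ln c') := fun y =>
    Ll.of_nonpos (by simp) hμ.pos.le
  have t1 : Ll (ds 1 x) (ln c + ln c') := by rwa [ds_one_left]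
  have t2 : Ll (ds (c ^ (Γ.e * Γ.e * 2)) (x * γ' ^ 2)) (ln c + ln c') := by
    rwa [e3, ds_mul_right]
  refine hF.i1 _ hμ (c ^ (Γ.e * Γ.e * 2)) (pow_mem hcH _) (γ' ^ 2) (pow_mem m' _)
    (Ls.trans' ⟨_, ln_pow_le _ _⟩ s2) (Ls.trans' ⟨_, ln_pow_le _ _⟩ (l'.trans' s3)) x 1
    (c ^ (Γ.e * Γ.e * 2)) ⟨?_, on_left hμ.pos.le _ _, on_right hμ.pos.le _ _,
      (on_left hμ.pos.le _ _).congr (z _) t1 t2, (on_right hμ.pos.le _ _).congr (z _) t1 t2⟩
    fun e => p2 ((Sim.per_iff ⟨s2, s1⟩ n0 hμ.pos.le).2 e)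
  rw [ds_one_left]
  exact s1.trans' p1

end C_r2aA

theorem p_C_R2A (hELEM : S_ELEM) (hLINE : S_LINE) (hNP : S_NP) (hROOT : S_ROOT) :
    S_C_R2A := by
  intro Γ a F hF o o' b hb b' hb' hp hp' x h hx
  have key : ∀ o₁, b ∈ XF F o₁ → b' ∈ XF F o₁ → x ∈ XF F o₁ := fun o₁ h1 h2 =>
    ((hROOT Γ a _ (hF.gcx o₁)).2.1 b h1 b' h2 hp hp' x h).1 hx
  rcases opt_cases o o' with ⟨i, h1, h2⟩ | ⟨i, rfl, rfl⟩
  · rcases h1 with rfl | rfl
    · exact ⟨1, one_mem _, x, key o' (M_le_XF o' hb) hb', (one_mul x).symm⟩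
    · exact ⟨x, key (some i) hb (XF_le_F h2 hb'), 1, one_mem _, (mul_one x).symm⟩
  · cases i
    · exact C_r2aA.two hELEM hLINE hNP hF hb hb' hp hp' h hx
    · obtain ⟨g, h1, g', h2, e⟩ := C_r2aA.two hELEM hLINE hNP hF (x := x⁻¹) hb' hb hp' hp h.inv
        (by rwa [ln_inv, add_comm])
      exact ⟨g'⁻¹, inv_mem h2, g⁻¹, inv_mem h1, by rw [← mul_inv_rev, ← e, inv_inv]⟩

end Pool.Agent.P.MP_dba3d2_lc


end

section

/-! Step C_J0 of the stability project. -/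

namespace Pool.Agent.P.MP_dba3d2_lc

open Filter

namespace C_j0A

variable {Γ : HG} {a : Amb} {F : Bool → Subgroup (MM Γ a)} {ν : a.K} {t : Tg Γ a}
  {y p q : MM Γ a}

theorem att (hF : TwoF F) (hν : Big ν) (hn : Ls ν (ds p q)) (ht : TOK F (fun _ => True) t)
    (hy : y ∈ LF F t) (h : Arc F ν t y p q) (hp : Per ν p q) : ∃ b, Att F ν t y p q b := by
  cases t with
  | inr c => exact ⟨c, ht.1, ht.2.1, h, fun _ e => Sum.inr.inj e, fun _ e => by cases e⟩
  | inl o =>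
    rcases h with ⟨h1, h2, h3⟩ | ⟨b, h1, h2, h3, h4⟩
    · obtain ⟨b, b1, b2, b3⟩ := (hF.gcx o).g20' hν (one_mem _) hy (by simpa using h1) hn h2 h3 hp
      exact ⟨b, b1, b2, b3, fun _ e => (by cases e), fun _ _ _ => ⟨h1, h2, h3⟩⟩
    · exact ⟨b, h1, h3, h4, fun _ e => (by cases e), fun _ _ e => absurd e h2⟩

theorem nper (ht : TOK F (fun _ => True) t) (h : Arc F ν t y p q) (hp : ¬ Per ν p q) :
    ∃ o, t = .inl o ∧ Ls (ln y) ν ∧ On ν p 1 y ∧ On ν q 1 y := by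
  cases t with
  | inr c => exact absurd ⟨c, ht.2.1.1, h⟩ hp
  | inl o =>
    rcases h with h | ⟨b, -, -, h3, h4⟩
    exacts [⟨o, rfl, h⟩, absurd ⟨b, h3.1, h4⟩ hp]

end C_j0A

theorem p_C_J0 (hELEM : S_ELEM) (hPERC : S_PERC) :
    S_C_J0 := by
  intro Γ a F hF ν t t' y y' z p q hν hn ht ht' hy hy' h h'
  have hn' : Ls ν (ds (z⁻¹ * p) (z⁻¹ * q)) := by rwa [ds_mul_left]
  by_cases hp : Per ν p q
  · obtain ⟨b, hb⟩ := C_j0A.att hF hν hn ht hy h hp
    obtain ⟨b', hb'⟩ := C_j0A.att hF hν hn' ht' hy' h' ((per_mul_iff _).2 hp)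
    refine .inr ⟨b, b', hb, hb', ?_⟩
    have s := (stab_conj z).2 hb'.2.2.1
    rw [mul_inv_cancel_left, mul_inv_cancel_left] at s
    exact Ep_eq_of_stab hELEM hPERC hν hn (hb'.2.1.conj z).1 hb.2.1.1 s hb.2.2.1
  · have hp' : ¬ Per ν (z⁻¹ * p) (z⁻¹ * q) := fun e => hp ((per_mul_iff _).1 e)
    obtain ⟨o, rfl, l, a1, a2⟩ := C_j0A.nper ht h hp
    obtain ⟨o', rfl, l', a3, a4⟩ := C_j0A.nper ht' h' hp'
    have ov : Ov ν p q 1 y z (z * y') :=
      ⟨hn, a1, a2, by simpa using a3.mul z, by simpa using a4.mul z⟩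
    have g2 : ∀ u, y ∈ XF F u → y' ∈ XF F u → z ∈ XF F u := fun u m m' =>
      (hF.gcx u).g2 ν hν y m y' m' l l' z p q ov hp
    refine .inl ⟨o, o', rfl, rfl, ?_⟩
    rcases o with _ | i
    · exact ⟨1, one_mem _, z, g2 o' (M_le_XF o' hy) hy', (one_mul z).symm⟩
    rcases o' with _ | j
    · exact ⟨z, g2 _ hy (M_le_XF _ hy'), 1, one_mem _, (mul_one z).symm⟩
    cases i <;> cases j
    · exact ⟨z, g2 _ hy hy', 1, one_mem _, (mul_one z).symm⟩
    · exact hF.i1 ν hν y hy y' hy' l l' z p q ov hp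
    · obtain ⟨g, hg, g', hg', e⟩ := hF.i1 ν hν y' hy' y hy l' l z⁻¹ _ _
        (by simpa using (ov.mul z⁻¹).symm) hp'
      exact ⟨g'⁻¹, inv_mem hg', g⁻¹, inv_mem hg, by rw [← mul_inv_rev, ← e, inv_inv]⟩
    · exact ⟨z, g2 _ hy hy', 1, one_mem _, (mul_one z).symm⟩

end Pool.Agent.P.MP_dba3d2_lc


end
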