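import Pool.Agent.P.MP_dba3d2_lcM.Ab05
import Pool.Agent.P.MP_dba3d2_lcM.Bb10
import Pool.Agent.P.MP_dba3d2_lcM.Cb11
import Pool.Agent.P.MP_dba3d2_lcM.Cb12
import Pool.Agent.P.MP_dba3d2_lcM.Cb13

section

/-! Step C_JLONG of the stability project. -/

namespace Pool.Agent.P.MP_dba3d2_lc

open Filter

namespace C_jlongA

variable {Γ : HG} {a : Amb} {F : Bool → Subgroup (MM Γ a)} {G : Type} [Group G] {C : Cv F G}
  {t t' : Tg Γ a} {z : List (Tg Γ a × G)}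

/-- an inside that is a product of elements of the two end groups is empty -/
theorem two (ht : TOK F C.S t) (ht' : TOK F C.S t') (hm : C.CMin (C.L t) (C.L t') z)
    (hl : C.Lift t z t') (hc : kc t + kc t' ≤ lb t t') {g g' : MM Γ a} (hg : g ∈ LF F t)
    (hg' : g' ∈ LF F t') (e : C.π (vl z) = g * g') : z = [] := by
  obtain ⟨x, hx, rfl⟩ := C.sur t ht g hg
  obtain ⟨x', hx', rfl⟩ := C.sur t' ht' g' hg'
  have := hl [(t, x), (t', x')] (Cv.wd_cons.2 ⟨⟨ht, hx⟩, Cv.wd_single ⟨ht', hx'⟩⟩)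
    (by simpa using hc) (by simp [e])
  exact hm.eq_nil hx hx' (by simpa using this.symm)

theorem lb2 (o o' : Option Bool) :
    kc (.inl o : Tg Γ a) + kc (.inl o' : Tg Γ a) ≤ lb (.inl o : Tg Γ a) (.inl o') := by
  rcases o with _ | _ | _ <;> rcases o' with _ | _ | _ <;> simp [lb]

theorem lb3 {o o' : Option Bool} (h : ¬ ∃ i, o = some i ∧ o' = some (!i)) :
    kx o + (2 + kx o') ≤ lb (.inl o : Tg Γ a) (.inl o') := by
  rcases o with _ | _ | _ <;> rcases o' with _ | _ | _ <;> simp [lb] at h ⊢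

end C_jlongA

open C_jlongA in
theorem p_C_JLONG (hC_EMEM : S_C_EMEM) (hC_J0 : S_C_J0) :
    S_C_JLONG := by
  rintro Γ a F hF G _ C ν ⟨t, x⟩ z ⟨t', x'⟩ hν hs hs' hm hl htc ⟨q, q1, q2, q3⟩
  rcases hC_J0 Γ a F hF ν t t' (C.π x)⁻¹ (C.π x') (C.π (vl z)) 1 q hν (by rwa [ds_one_left])
    hs.1.top hs'.1.top (inv_mem hs.pr.2) hs'.pr.2 q2 (by rwa [mul_one]) with
    ⟨o, o', rfl, rfl, g, hg, g', hg', e⟩ | ⟨b, b', hb, hb', hj⟩
  · exact .inl (two hs.1 hs'.1 hm hl (lb2 o o') hg hg' e)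
  rcases htc b hb.1 b' hb'.1 hb.2.1 hb'.2.1 hj with
    ⟨c, c1, c2, c3, e, he, g, hg, g', hg', k, j, j'⟩ | ⟨i, h1, h2, h3⟩
  · rcases t with o | d <;> rcases t' with o' | d'
    · by_cases h : ∃ i, o = some i ∧ o' = some (!i)
      · obtain ⟨i, rfl, rfl⟩ := h
        obtain ⟨u, hu, v, hv, -, -, rfl⟩ := hC_EMEM Γ a F hF c c1 c2.1 i e he
        exact .inl (two hs.1 hs'.1 hm hl (lb2 _ _) (mul_mem hg hu) (mul_mem hv (inv_mem hg'))
          (by rw [k]; group))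
      · obtain ⟨u, hu, rfl⟩ := C.sur (.inl o) hs.1 g hg
        obtain ⟨v, hv, rfl⟩ := C.sur (.inl o') hs'.1 g' hg'
        obtain ⟨w, hw, rfl⟩ := C.sur (.inr c) ⟨c1, c2, c3⟩ e he
        have hw' : C.ok (.inr c, w) := ⟨⟨c1, c2, c3⟩, hw⟩
        have k1 := hl [(.inl o, u), (.inr c, w), (.inl o', v⁻¹)] (Cv.wd_cons.2 ⟨⟨hs.1, hu⟩,
          Cv.wd_cons.2 ⟨hw', Cv.wd_single ⟨hs'.1, inv_mem hv⟩⟩⟩) (by simpa using lb3 h)
          (by simp [k, mul_assoc])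
        have k2 := hm.2 [(.inr c, w)] (Cv.wd_single hw') u⁻¹ (inv_mem hu) v hv
          (by simp [← k1, mul_assoc])
        rcases hm.short hs.1 (by simpa using k2) with k3 | ⟨c', e', k3⟩
        exacts [.inl k3, .inr (.inr ⟨o, o', c', e', rfl, rfl, k3⟩)]
    · obtain rfl := hb'.2.2.2.1 d' rfl
      exact .inl (two hs.1 hs'.1 hm hl (by simp [lb]) (mul_mem hg (inv_mem (M_le_XF o hg')))
        (EF_conj hg' j' he) (by rw [k]; group))
    · obtain rfl := hb.2.2.2.1 d rfl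
      exact .inl (two hs.1 hs'.1 hm hl (by simp [lb]) (EF_conj hg j he)
        (mul_mem (M_le_XF o' hg) (inv_mem hg')) (by rw [k]; group))
    · obtain rfl := hb.2.2.2.1 d rfl
      obtain ⟨u, hu, u1⟩ := C.sur (.inr b) hs.1 _ (EF_conj hg j he)
      obtain ⟨m, hm1, m1⟩ := Cv.lift_base (C := C) (mul_mem hg (inv_mem hg'))
      have k1 := hl [(.inr b, u), (.inl none, m)] (Cv.wd_cons.2 ⟨⟨hs.1, hu⟩,
        Cv.wd_single (Cv.ok_base hm1)⟩) (by simp [lb]) (by simp [k, u1, m1, mul_assoc])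
      have k2 := hm.2 [(.inl none, m)] (Cv.wd_single (Cv.ok_base hm1)) u⁻¹ (inv_mem hu) 1
        (one_mem _) (by simp [← k1])
      rcases z with _ | ⟨⟨t, y⟩, z⟩
      · exact .inl rfl
      · simp only [ct_cons, ct_nil, kc_inl, kx_none, add_zero] at k2
        obtain rfl := kc_eq_one (t := t) (by omega)
        obtain rfl : z = [] := ct_eq_zero (by simpa using k2)
        exact .inr (.inl ⟨b, d', y, rfl, rfl, rfl⟩)
  · rcases t with o | d
    · rcases t' with o' | d'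
      · obtain rfl : o = some i := h1
        exact .inl (two hs.1 hs'.1 hm hl (lb2 _ _) h3 (one_mem _) (mul_one _).symm)
      · cases h2
    · cases h1

end Pool.Agent.P.MP_dba3d2_lc


end

section

/-! Step C_JS0 of the stability project. -/

namespace Pool.Agent.P.MP_dba3d2_lc

open Filter

namespace C_js0A

variable {Γ : HG} {a : Amb} {F : Bool → Subgroup (MM Γ a)} {ν : a.K} {c y v q : MM Γ a}
  {o : Option Bool}

theorem nm {G M : Subgroup (MM Γ a)} (h : NM G M y) (hv : v ∈ G) (hv' : v ∉ M) (hν : Big ν)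
    (l : Ls (ln y⁻¹) ν) (l' : Ls (ln v) ν) (hq : Ls ν (ln q)) (a1 : On ν q 1 y⁻¹)
    (a2 : On ν q 1 v) : False := by
  have n : Ls ν (ds 1 q) := by simpa using hq
  have s : Sim (ln y) ν := ⟨by simpa using l, by
    simpa using On.nondeg hν (on_left hν.pos.le 1 y⁻¹) a1 n⟩
  have s' : Sim (ln v) ν := ⟨l', by simpa using On.nondeg hν (on_left hν.pos.le 1 v) a2 n⟩
  have b := s.big_iff.2 hν
  have k := (s.on_iff (ln_nonneg _) hν.pos.le).1
    ((not_ovl_iff b).1 (h v hv hv' b (s'.trans' s.symm')))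
  exact ((k.sub' a2).2.antisymm a1.symm).not_ls hν.pos n

theorem ne (hE : S_ELEM) (hP : S_PERC) (hR : S_ROOT) (hF : TwoF F) (hν : Big ν)
    (hq : Ls ν (ln q)) (hc : TOK F (fun _ => True) (.inr c)) (h : NE c y)
    (a1 : Arc F ν (.inl o) y⁻¹ 1 q) (a2 : Stab ν 1 q c) : False := by
  rcases a1 with ⟨h1, -, h3⟩ | ⟨b, -, h2, h3, h4⟩
  · exact h.not_fol hν (by simpa using h1) ⟨q, hq, h3, a2⟩
  · exact h2 (hF.root4 hR hc.1 hc.2.1.1 h3
      (Ep_eq_of_stab hE hP hν (by simpa using hq) h3.1 hc.2.1.1 h4 a2))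

end C_js0A

theorem p_C_JS0 (hELEM : S_ELEM) (hPERC : S_PERC) (hROOT : S_ROOT) :
    S_C_JS0 := by
  rintro Γ a F hF ν ⟨t, y⟩ ⟨t', y'⟩ hν hs hs' hp ⟨q, hq, a1, a2⟩
  rw [inv_one, one_mul] at a2
  have n : Ls ν (ds 1 q) := by simpa using hq
  rcases t with o | c <;> rcases t' with o' | c'
  · obtain ⟨i, rfl, rfl, hp⟩ := hp
    have m : y⁻¹ ∈ F i := inv_mem hs.2
    have m' : y' ∈ F (!i) := hs'.2
    rcases a1 with ⟨h1, h2, h3⟩ | ⟨b, h1, h2, h3, h4⟩ <;>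
      rcases a2 with ⟨k1, k2, k3⟩ | ⟨b', k1, k2, k3, k4⟩
    · rcases hp with ⟨e, e'⟩ | ⟨e, e'⟩
      · exact C_js0A.nm e m' e' hν h1 k1 hq h3 k3
      · exact C_js0A.nm e m (by rwa [inv_mem_iff]) hν (by simpa using k1) h1 hq
          (by simpa using k3) h3
    · exact k2 ((mem_M_iff i).2 ⟨(hF.gc i).per_mem hELEM hPERC hROOT hν (one_mem _) m
        (by simpa using h1) n h2 h3 k3 k4, k1⟩)
    · exact h2 ((mem_M_iff i).2 ⟨h1, (hF.gc (!i)).per_mem hELEM hPERC hROOT hν (one_mem _) m'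
        (by simpa using k1) n k2 k3 h3 h4⟩)
    · exact h2 ((mem_M_iff i).2 ⟨h1, hF.root4 (o := some (!i)) hROOT k1 k3.1 h3
        (Ep_eq_of_stab hELEM hPERC hν n h3.1 k3.1 h4 k4)⟩)
  · exact C_js0A.ne hELEM hPERC hROOT hF hν hq hs'.1 hp a1 a2
  · exact C_js0A.ne (o := o') hELEM hPERC hROOT hF hν hq hs.1 hp (by rwa [inv_inv]) a1
  · exact hp (Ep_eq_of_stab hELEM hPERC hν n hs.1.2.1.1 hs'.1.2.1.1 a1 a2)

end Pool.Agent.P.MP_dba3d2_lc


end

section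

/-! Step C_JS2 of the stability project. -/

namespace Pool.Agent.P.MP_dba3d2_lc

open Filter

theorem p_C_JS2 (hELEM : S_ELEM) (hLINE : S_LINE) (hROOT : S_ROOT) (hRIG : S_RIG) (hC_EMEM : S_C_EMEM) (hC_J0 : S_C_J0) :
    S_C_JS2 := by
  rintro Γ a F h ν o o' y y' c e hν hy hy' ⟨c1, c2, -⟩ he hn hs ⟨q, q1, q2, q3⟩
  have hM : ∀ i x, x ∈ F false ⊓ F true → x ∈ F i := fun i x k => M_le_F (F := F) i k
  rcases hC_J0 Γ a F h ν (.inl o) (.inl o') y⁻¹ y' e 1 q hν (by simpa using q1) trivial trivial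
    (inv_mem hy) hy' q2 (by rwa [mul_one]) with
    ⟨_, _, ⟨⟩, ⟨⟩, g, g1, g', g2, k⟩ | ⟨b, b', ⟨b1, b2, b3, -, b4⟩, ⟨b1', b2', -⟩, k⟩
  · exact hs g g1 g' g2 k
  have n1 : e ∉ XF F o := fun k => hs e k 1 (one_mem _) (mul_one e).symm
  have n2 : e ∉ XF F o' := fun k => hs 1 (one_mem _) e k (one_mul e).symm
  obtain ⟨i, i1, i2, i3⟩ : ∃ i, b ∈ F i ∧ b' ∈ F i ∧ e ∉ F i := by
    rcases opt_cases o o' with ⟨i, rfl | rfl, rfl | rfl⟩ | ⟨i, rfl, rfl⟩
    · by_cases k1 : e ∈ F i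
      · exact ⟨!i, M_le_F _ b1, M_le_F _ b1', fun k2 => n1 ((mem_M_iff i).2 ⟨k1, k2⟩)⟩
      · exact ⟨i, M_le_F _ b1, M_le_F _ b1', k1⟩
    · exact ⟨i, M_le_F _ b1, b1', n2⟩
    · exact ⟨i, b1, M_le_F _ b1', n1⟩
    · exact ⟨i, b1, b1', n1⟩
    · obtain ⟨x, x1, x', x2, -, -, k⟩ := hC_EMEM Γ a F h c c1 c2.1 i e he
      exact absurd k (hs x x1 x' x2)
  have m' : b' ∈ XF F none := by
    obtain ⟨x, x1, x', x2, -, -, rfl⟩ := hC_EMEM Γ a F h c c1 c2.1 i e he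
    refine h.i5 i x'⁻¹ (inv_mem x2) (fun k => i3 (mul_mem x1 (hM i _ (inv_mem_iff.1 k)))) b' i2
      (x⁻¹ * b * x) (mul_mem (mul_mem (inv_mem x1) i1) x1) b2' (b2.conj' x) ?_
    simpa using (k.conj x 1).inv
  have m : b ∈ XF F none := by
    obtain ⟨x, x1, x', x2, -, -, rfl⟩ := hC_EMEM Γ a F h c c1 c2.1 (!i) e he
    rw [Bool.not_not] at x2
    refine h.i5 i x x1 (fun k => i3 (mul_mem (hM i _ k) x2)) b i1
      (x' * b' * x'⁻¹) (mul_mem (mul_mem x2 i2) (inv_mem x2)) b2 (b2'.conj x') ?_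
    simpa using k.conj 1 x'⁻¹
  obtain ⟨g, g1, -, g2, -⟩ := h.root6 hROOT m m' b2.1 b2'.1 k
  have e1 : Ep c = Ep b := by
    by_contra n
    have k1 := (hRIG Γ a _ h.gcm).2 b m c c1 b2.1 c2.1 (Ne.symm n) (e * g⁻¹)⁻¹ e
      (InE.of_mem (inv_mem g2)) (InE.of_mem (EF_le_Ep he))
      (by rwa [show (e * g⁻¹)⁻¹ * e = g by group])
    refine i3 (hM i _ ?_)
    have k2 := mul_mem (inv_mem k1) g1
    rwa [show (e * g⁻¹)⁻¹⁻¹ * g = e by group] at k2
  obtain ⟨l1, -, l2⟩ := b4 o rfl m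
  rw [ln_inv] at l1
  exact hn.not_fol hν l1 ⟨q, q1, l2, c2.fix hELEM hLINE b2.1 e1 b3.1,
    c2.fix hELEM hLINE b2.1 e1 b3.2⟩

end Pool.Agent.P.MP_dba3d2_lc


end

section

/-! Step C_JSHORT of the stability project. -/

namespace Pool.Agent.P.MP_dba3d2_lc

open Filter

theorem p_C_JSHORT (hC_EMEM : S_C_EMEM) (hC_J0 : S_C_J0) (hC_JS0 : S_C_JS0) (hC_JS2 : S_C_JS2) :
    S_C_JSHORT := by
  intro Γ a F hF G _ C ν s z s' hν hj hs
  obtain ⟨t, y⟩ := s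
  obtain ⟨t', y'⟩ := s'
  have k := hj.okl
  have k' := hj.okr
  rcases hs with rfl | ⟨c, c', m, rfl, rfl, rfl⟩ | ⟨o, o', c, e, rfl, rfl, rfl⟩
  · simpa using hC_JS0 Γ a F hF ν _ _ hν k.pr k'.pr hj.pair
  · rintro ⟨q, q1, q2, q3⟩
    rcases hC_J0 Γ a F hF ν (.inr c) (.inr c') _ _ (C.π m) 1 q hν (by simpa using q1) k.pr.1
      k'.pr.1 (inv_mem k.pr.2) k'.pr.2 q2 (by simpa using q3) with
      ⟨o, o', h, -⟩ | ⟨b, b', h1, h2, h3⟩
    · cases h
    · rw [h1.2.2.2.1 c rfl, h2.2.2.2.1 c' rfl] at h3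
      exact hj.he c c' m rfl rfl rfl h3
  · have ke : C.ok (.inr c, e) := hj.wd _ (by simp)
    have ch : NE c (C.π y) := (List.isChain_cons_cons.1 hj.ch).1
    have nil : ∀ x ∈ C.L (.inl o), ∀ x' ∈ C.L (.inl o'), e ≠ x * x' := fun x hx x' hx' h => by
      cases hj.min.eq_nil hx hx' (by simpa using h)
    have key : ∀ g ∈ XF F o, ∀ g' ∈ XF F o', C.π e ≠ g * g' := by
      intro g hg g' hg' h
      have l : C.π e ∉ XF F o := fun m =>
        nil e (C.mem _ o ke.1 k.1 e ke.2 m) 1 (one_mem _) (mul_one e).symm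
      have l' : C.π e ∉ XF F o' := fun m =>
        nil 1 (one_mem _) e (C.mem _ o' ke.1 k'.1 e ke.2 m) (one_mul e).symm
      rcases opt_cases o o' with ⟨i, rfl | rfl, h2⟩ | ⟨i, rfl, rfl⟩
      · exact l' (h ▸ mul_mem (M_le_XF o' hg) hg')
      · exact l (h ▸ mul_mem hg (XF_le_F h2 hg'))
      · obtain ⟨x, x1, x', x2, x3, -, x4⟩ := hC_EMEM Γ a F hF c ke.1.1 ke.1.2.1.1 i _ ke.pr.2
        obtain ⟨v, v1, v2, rfl⟩ := Cv.lift_both (C := C) (o := some i) k.1 ke.1 x1 x3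
        refine nil v v1 (v⁻¹ * e) (C.mem _ _ ke.1 k'.1 _ (mul_mem (inv_mem v2) ke.2) ?_) (by group)
        have x5 : C.π e = C.π v * x' := x4
        rw [map_mul, map_inv, x5, inv_mul_cancel_left]
        exact x2
    simpa [Cv.pr_mk] using hC_JS2 Γ a F hF ν o o' (C.π y) (C.π y') c (C.π e) hν k.pr.2 k'.pr.2 ke.1 ke.pr.2
      ch key

end Pool.Agent.P.MP_dba3d2_lc


end

section

/-! Step C_PATH of the stability project. -/

namespace Pool.Agent.P.MP_dba3d2_lc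

open Filter

namespace C_pathA

/-- the first long element of a list -/
theorem split {Γ : HG} {a : Amb} {ν : a.K} {X : Type} (v : X → MM Γ a) (h : 0 < ν) (L : List X) :
    Ll ((L.map v).map ln).sum ν ∨ ∃ z s B, L = z ++ s :: B ∧ Ll ((z.map v).map ln).sum ν ∧
      Ls ν (ln (v s)) := by
  induction L with
  | nil => exact Or.inl (Ll.zero h.le)
  | cons y L ih =>
    rcases ll_or_ls h (ln (v y)) with e | e
    · exact ih.imp (fun k => e.add k) fun ⟨z, s, B, k1, k2, k3⟩ =>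
        ⟨y :: z, s, B, k1 ▸ rfl, e.add k2, k3⟩
    · exact Or.inr ⟨[], y, L, rfl, Ll.zero h.le, e⟩

end C_pathA

theorem p_C_PATH :
    S_C_PATH := by
  intro Γ a ν X v L hν
  have h0 := hν.pos
  induction L with
  | nil => exact fun h => absurd (geo_nil h0.le) h
  | cons y L ih =>
    intro h
    by_cases hG : Geo ν (L.map v)
    swap
    · obtain ⟨A, s, z, s', B, e, k⟩ := ih hG
      exact ⟨y :: A, s, z, s', B, e ▸ rfl, k⟩
    have n : ¬ On ν 1 (v y)⁻¹ (L.map v).prod := fun e => h (geo_cons.2 ⟨e, hG⟩)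
    have b : Ls ν (ln (v y)) := (ll_or_ls h0 _).resolve_left fun e =>
      n (On.of_near (by simpa using e) _)
    obtain ⟨z, s, B, rfl, k1, k2⟩ := (C_pathA.split v h0 L).resolve_left fun e =>
      n (On.of_near (by simpa using e.mono_left (ln_prod_le _)) _).symm
    have k3 := k1.mono_left (ln_prod_le _)
    rw [List.map_append, List.map_cons] at hG n
    have k4 : Ls ν (ds 1 ((z.map v).prod * v s)) := k2.of_le_add k3 h0 1 (by
      simpa [add_comm] using ln_mul_le (z.map v).prod⁻¹ ((z.map v).prod * v s))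
    obtain ⟨q, q1, q2, q3⟩ := exists_ovl hν fun e => n (On.glue hν e hG.piece.2.1 k4).1
    refine ⟨[], y, z, s, B, rfl, b, k2, k1, q, q1, q2, ?_⟩
    refine (q3.mul (z.map v).prod⁻¹).congr ?_ (by simpa using k3) ?_ <;> simpa using Ll.zero h0.le

end Pool.Agent.P.MP_dba3d2_lc


end

section

/-! Step C_ARC of the stability project. -/

namespace Pool.Agent.P.MP_dba3d2_lc

open Filter

theorem p_C_ARC (hELEM : S_ELEM) (hLINE : S_LINE) (hROOT : S_ROOT) :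
    S_C_ARC := by
  intro Γ a F T ν t y p q hν ht hy hM hl hp hq
  cases t with
  | inl o => exact Or.inl ⟨hl, hp, hq⟩
  | inr c =>
    obtain ⟨h1, h2, h3⟩ := ht
    have hE : y ∈ Ep c := EF_le_Ep hy
    rcases ll_or_ls hν.pos (md c) with e | e
    · exact (h2.stab_ep hELEM hLINE (h3.ll e) hE).sub hν hp hq
    · exact absurd (((hROOT Γ a _ T.gcm).2.1 c h1 c h1 h2 h2 y (Cj.of_mem hE)).2 h3 h3
        (Ls.trans' hl e)) (hM c rfl)

end Pool.Agent.P.MP_dba3d2_lc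


end

section

/-! Step C_PATHW of the stability project. -/

namespace Pool.Agent.P.MP_dba3d2_lc

open Filter

theorem p_C_PATHW (hC_PATH : S_C_PATH) (hC_ARC : S_C_ARC) :
    S_C_PATHW := by
  intro Γ a F hF G _ C ν w hν hw hn hl hg
  obtain ⟨A, s, z, s', B, e, h1, h2, h3, q, q1, q2, q3⟩ :=
    hC_PATH Γ a ν _ (fun s : Tg Γ a × G => C.π s.2) w hν hg
  have m1 : s ∈ w := by simp [e]
  have m2 : s' ∈ w := by simp [e]
  have ez : (z.map fun s : Tg Γ a × G => C.π s.2).prod = C.π (vl z) := Cv.vs_prod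
  rw [ez] at q3
  refine ⟨A, s, z, s', B, e, h1, h2, h3, q, q1, ?_, ?_⟩
  · refine hC_ARC Γ a F hF ν s.1 _ 1 q hν (hw s m1).pr.1 (inv_mem (hw s m1).pr.2)
      (fun c hc hm => hn.big m1 hν h1 c hc (inv_mem_iff.1 hm)) ?_ (on_left hν.pos.le _ _) q2
    rw [ln_inv]
    exact hl.mono_left (Cv.ln_le_sl m1)
  · refine hC_ARC Γ a F hF ν s'.1 _ _ _ hν (hw s' m2).pr.1 (hw s' m2).pr.2
      (hn.big m2 hν h2) (hl.mono_left (Cv.ln_le_sl m2)) (On.of_near ?_ _) q3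
    rw [ds_one_left, ln_inv]
    exact Ll.mono_left Cv.ln_vl_le h3

end Pool.Agent.P.MP_dba3d2_lc


end

section

/-! Step C_TGEO of the stability project. -/

namespace Pool.Agent.P.MP_dba3d2_lc

open Filter

namespace C_tgeoA

variable {Γ : HG} {a : Amb} {F : Bool → Subgroup (MM Γ a)}

theorem side {ν : a.K} {b : MM Γ a} {s s1 : Tg Γ a × MM Γ a} {R A T : List (Tg Γ a × MM Γ a)}
    (hν : Big ν) (he : EndL F b s) (hn : NE b s.2⁻¹) (e : s :: R = A ++ s1 :: T)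
    (hg : (idC F).Good (s :: R)) (hb : Ls ν (ln s1.2)) :
    kc s.1 + kx (bt s1.1) ≤ ct A + kc s1.1 + k0 s.1 ∧
    (ct A + kc s1.1 + k0 s.1 ≤ kc s.1 + kx (bt s1.1) → ∃ o, s1.2 ∈ XF F o ∧ vl A = 1 ∧
      b ∈ XF F o ∧ NE b s1.2⁻¹ ∧ (bt s.1 = none ∨ bt s.1 = o)) := by
  have k := kx_bt_le s1.1
  rcases A with _ | ⟨s0, A⟩
  · obtain ⟨rfl, -⟩ := List.cons.inj e
    rcases he.cases with ⟨rfl, -⟩ | ⟨i, y, rfl, h1, h2⟩
    · simpa using hb.pos hν.pos
    · exact ⟨by simp, fun _ => ⟨some i, h1, rfl, h2, hn, Or.inr rfl⟩⟩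
  · obtain ⟨rfl, rfl⟩ := List.cons.inj e
    refine ⟨by rw [ct_cons]; omega, fun h => ?_⟩
    rw [ct_cons] at h
    obtain rfl : A = [] := ct_eq_zero (by omega)
    have j : (idC F).JOK s [] s1 := Cv.Good.jok (p := []) (q := T) hg
    rcases he.cases with ⟨rfl, h0⟩ | ⟨i, y, rfl, -, -⟩
    · obtain ⟨_ | _, y⟩ := s1
      · exact ⟨_, j.okr.2, by simp, M_le_XF _ h0, j.pair, Or.inl rfl⟩
      · simp at h
    · simp at h; omega

end C_tgeoA

open C_tgeoA in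
theorem p_C_TGEO (hC_PROJ : S_C_PROJ) (hC_R2A : S_C_R2A) (hC_TFF : S_C_TFF) (hC_JLONG : S_C_JLONG) (hC_JSHORT : S_C_JSHORT) (hC_PATHW : S_C_PATHW) :
    S_C_TGEO := by
  intro Γ a F hF n ν b b' s s' u ih hx hn hc hν hl
  by_contra con
  obtain ⟨c1, c2⟩ := not_or.1 con
  have hg : (idC F).Good (s :: u ++ [s']) := hx.good
  obtain ⟨A, s1, z, s2, B, e, b1, b2, hz, ov⟩ :=
    hC_PATHW Γ a F hF _ (idC F) ν _ hν hg.1 hx.nzE hl c2
  have j : (idC F).JOK s1 z s2 := Cv.Good.jok (e ▸ hg)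
  by_cases k : ct z + kx (bt s1.1) + kx (bt s2.1) < n
  · exact hC_JSHORT Γ a F hF _ (idC F) ν s1 z s2 hν j (hC_JLONG Γ a F hF _ (idC F) ν s1 z s2 hν
      j.okl j.okr j.min (idC_lift _ _ _) (ih z j.min.1 _ _ k) ov) ov
  obtain ⟨l1, l2⟩ := hx.l s rfl
  obtain ⟨r1, r2⟩ := hx.r s' rfl
  obtain ⟨p1, p2⟩ := side (R := u ++ [s']) (A := A) (s1 := s1) (T := z ++ s2 :: B) hν l1 l2
    (by simpa using e) hg b1
  obtain ⟨q1, q2⟩ := side (R := winv u ++ [sinv s]) (A := winv B) (s1 := sinv s2)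
    (T := winv z ++ sinv s1 :: winv A) hν r1 (by simpa using r2)
    (by simpa using congrArg winv e) (by simpa using hg.winv) (by simpa using b2)
  have t := congrArg ct e
  simp only [ct_append, ct_cons, ct_nil, ct_winv, sinv_fst] at t q1 q2
  obtain ⟨o1, y1, v1, m1, n1, t1⟩ := p2 (by omega)
  obtain ⟨o2, y2, v2, m2, n2, t2⟩ := q2 (by omega)
  rw [vl_winv, inv_eq_one] at v2
  rw [sinv_snd, inv_mem_iff] at y2
  have ev : vl (s :: u ++ [s']) = s1.2 * vl z * s2.2 := by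
    rw [e]; simp [v1, v2, mul_assoc]
  rw [ev] at hc c1
  have cj := hc.conj s1.2 s2.2⁻¹
  rw [show s1.2⁻¹ * (s1.2 * vl z * s2.2) * s2.2⁻¹ = vl z by group] at cj
  have pj := (hC_PROJ Γ a b _ l1.axis.2.1 l1.axis.2.2 n1).1
  rw [ln_inv, inv_inv] at pj
  obtain ⟨g, hg1, g', hg2, eg⟩ := hC_R2A Γ a F hF o1 o2 _
    ((XF F o1).mul_mem ((XF F o1).mul_mem ((XF F o1).inv_mem y1) m1) y1) _
    ((XF F o2).mul_mem ((XF F o2).mul_mem ((XF F o2).inv_mem ((XF F o2).inv_mem y2)) m2)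
      ((XF F o2).inv_mem y2))
    (l1.axis.2.1.conj' _) (r1.axis.2.1.conj' _) _ cj
    ((Ll.mono_left Cv.ln_vl_le hz).ls_right
      ((b1.trans' pj).mono_right (le_add_of_nonneg_right (ln_nonneg _)))
      (add_nonneg (ln_nonneg _) (ln_nonneg _)))
  obtain ⟨i, hi⟩ := exists_F o1
  obtain ⟨i', hi'⟩ := exists_F o2
  rw [eg, show s1.2 * (g * g') * s2.2 = s1.2 * g * (g' * s2.2) by group] at hc c1
  refine c1 (hC_TFF Γ a F hF _ _ i i' ?_ ?_ _ (XF_le_F hi ((XF F o1).mul_mem y1 hg1)) _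
    (XF_le_F hi' ((XF F o2).mul_mem hg2 y2)) b l1.axis.1 b' r1.axis.1 l1.axis.2.1 r1.axis.2.1 hc)
  · rcases t1 with h | h
    exacts [Or.inl h, h ▸ hi]
  · rcases t2 with h | h
    exacts [Or.inl h, h ▸ hi']

end Pool.Agent.P.MP_dba3d2_lc


end

section

/-! Step C_FIRST of the stability project. -/

namespace Pool.Agent.P.MP_dba3d2_lc

open Filter

namespace C_firstA

variable {Γ : HG} {a : Amb} {ν : a.K} {X : Type}

theorem split (hν : 0 < ν) (v : X → MM Γ a) (L : List X) : Ll ((L.map v).map ln).sum ν ∨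
    ∃ (z : List X) (s : X) (B : List X), L = z ++ s :: B ∧ Ll ((z.map v).map ln).sum ν ∧
      Ls ν (ln (v s)) := by
  induction L with
  | nil => exact Or.inl (by simpa using Ll.zero hν.le)
  | cons x L ih =>
    rcases ll_or_ls hν (ln (v x)) with h | h
    · rcases ih with k | ⟨z, s, B, e, k1, k2⟩
      · exact Or.inl (by simpa only [List.map_cons, List.sum_cons] using h.add k)
      · exact Or.inr ⟨x :: z, s, B, by rw [e, List.cons_append],
          by simpa only [List.map_cons, List.sum_cons] using h.add k1, k2⟩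
    · exact Or.inr ⟨[], x, L, rfl, by simpa using Ll.zero hν.le, h⟩

end C_firstA

theorem p_C_FIRST :
    S_C_FIRST := by
  intro Γ a ν X v L q hν hG hq ho
  rcases C_firstA.split hν.pos v L with h | ⟨z, s, B, rfl, h1, h2⟩
  · have k := ho.le_left
    rw [ds_one_left, ds_one_left] at k
    have k2 := k.add (Ll.mono_left (ln_prod_le _) h)
    rw [sub_add_cancel] at k2
    exact (k2.not_ls hν.pos hq).elim
  refine ⟨z, s, B, rfl, h1, h2, ?_⟩
  have hZ : Ll (ln (z.map v).prod) ν := Ll.mono_left (ln_prod_le _) h1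
  rw [List.map_append, List.map_cons] at hG ho
  rcases On.total hν ho hG.piece.2.1 with ⟨k, -⟩ | ⟨k, -⟩
  · refine ⟨q, hq, on_right hν.pos.le _ _, (k.mul (z.map v).prod⁻¹).congr ?_ ?_ ?_⟩
    · rw [ds_self]; exact Ll.zero hν.pos.le
    · rwa [mul_one, ds_one_right, ln_inv]
    · rw [inv_mul_cancel_left, ds_self]; exact Ll.zero hν.pos.le
  · refine ⟨_, ?_, k, ?_⟩
    · refine Ls.of_le_add h2 hZ hν.pos 1 ?_
      have := ln_mul_le (z.map v).prod⁻¹ ((z.map v).prod * v s)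
      rw [inv_mul_cancel_left, ln_inv] at this
      push_cast
      linarith
    · rw [inv_mul_cancel_left]
      exact on_right hν.pos.le _ _

end Pool.Agent.P.MP_dba3d2_lc


end

section

/-! Step C_LEFT of the stability project. -/

namespace Pool.Agent.P.MP_dba3d2_lc

open Filter

theorem p_C_LEFT (hC_FIRST : S_C_FIRST) (hC_ARC : S_C_ARC) :
    S_C_LEFT := by
  intro Γ a F hF ν b s v hν hE hFar hNE hW hNz hsl hG hFol
  obtain ⟨q, hq1, hq2, hq3⟩ := hFol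
  obtain ⟨z0, s1, B, e, hz, hs1, q', h1, h2, h3⟩ :=
    hC_FIRST Γ a ν _ (fun s : Tg Γ a × MM Γ a => (idC F).π s.2) (s :: v) q hν hG hq1 hq2
  have hst : Stab ν 1 q' b := hq3.sub hν (on_left hν.pos.le _ _) h2
  change Ll ((idC F).sl z0) ν at hz
  change Ls ν (ln s1.2) at hs1
  change On ν ((vl z0)⁻¹ * q') 1 s1.2 at h3
  have hm : ∀ s' ∈ s :: v, Ls (ln s'.2) ν := fun s' hs' =>
    Ls.mono_left (Cv.ln_le_sl (C := idC F) hs') hsl
  rcases z0 with _ | ⟨s0, z⟩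
  · obtain ⟨rfl, -⟩ := List.cons.inj e
    refine absurd ?_ (hNE.not_fol hν (by simpa using hm s (by simp)))
    rw [inv_inv]
    exact ⟨q', h1, by simpa using h3, hst⟩
  · obtain ⟨rfl, rfl⟩ := List.cons.inj e
    rw [Cv.sl_cons] at hz
    have hy : Ll (ln s.2) ν :=
      Ll.mono_left (le_add_of_nonneg_right (Cv.sl_nonneg (C := idC F))) hz
    have hvz : Ll (ln (vl z)) ν :=
      Ll.mono_left ((Cv.ln_vl_le (C := idC F)).trans (le_add_of_nonneg_left (ln_nonneg _))) hz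
    have hmem : s1 ∈ s :: (z ++ s1 :: B) := by simp
    refine ⟨z, s1, B, rfl, hs1, s.2⁻¹ * q', ?_, ?_, ?_⟩
    · refine h1.of_le_add hy hν.pos 1 ?_
      have := ln_mul_le s.2 (s.2⁻¹ * q')
      rw [mul_inv_cancel_left] at this
      simpa [add_comm] using this
    · rcases hE.cases with ⟨rfl, -⟩ | ⟨i, y, rfl, hyF, hbF⟩
      · simpa [Arc] using hst
      · refine Or.inr ⟨y⁻¹ * b * y, mul_mem (mul_mem (inv_mem hyF) hbF) hyF, hFar _ rfl,
          hE.axis.2.1.conj' y, (stab_conj' y).2 ?_⟩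
        refine hst.congr (by simpa using hy) ?_
        rw [mul_inv_cancel_left]
        exact FixA.ll_self hν.pos.le _
    · refine hC_ARC Γ a F hF ν s1.1 s1.2 _ _ hν (hW s1 hmem).1 (hW s1 hmem).2
        (hNz.big hmem hν hs1) (hm s1 hmem) (On.of_near (by simpa using hvz) _) ?_
      simpa [mul_assoc] using h3

end Pool.Agent.P.MP_dba3d2_lc


end

section

/-! Step C_TEND of the stability project. -/

namespace Pool.Agent.P.MP_dba3d2_lc

open Filter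

namespace C_tendA

variable {Γ : HG} {a : Amb} {F : Bool → Subgroup (MM Γ a)} {ν : a.K} {c : MM Γ a}

/-- the last nontrivial syllable runs along the axis at the right end -/
theorem last {p B : List (Tg Γ a × MM Γ a)} {s : Tg Γ a × MM Γ a} (hν : Big ν)
    (hG : Geo ν ((idC F).vs (p ++ s :: B))) (hB : vl B = 1)
    (h : Stab ν 1 (vl (p ++ s :: B))⁻¹ c) : Stab ν 1 s.2⁻¹ c := by
  rw [Cv.vs_append] at hG
  have k := (hG.on.mul (vl (p ++ s :: B))⁻¹).symm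
  rw [← Cv.vs_append, idC_prod, idC_prod, inv_mul_cancel, mul_one,
    show (vl (p ++ s :: B))⁻¹ * vl p = s.2⁻¹ by simp [hB]] at k
  exact h.sub hν (on_left hν.pos.le _ _) k

theorem kx_le (t : Tg Γ a) : kx (bt t) ≤ k0 t + 1 := by cases t <;> simp

end C_tendA

open C_tendA in
theorem p_C_TEND (hELEM : S_ELEM) (hLINE : S_LINE) (hC_ARC : S_C_ARC) (hC_LEFT : S_C_LEFT) (hC_JLONG : S_C_JLONG) (hC_JSHORT : S_C_JSHORT) :
    S_C_TEND := by
  intro Γ a F T n ν b b' s s' u ih X far hn hj hν hS hm hG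
  have good : (idC F).Good (s :: u ++ [s']) := by simpa using X.good
  have nz : (idC F).NzE (s :: u ++ [s']) := by simpa using X.nzE
  obtain ⟨l1, l2⟩ := X.l s rfl
  obtain ⟨r1, r2⟩ := X.r s' rfl
  have big : Ls ν (ln (vl (s :: u ++ [s']))) :=
    hS.2.of_le_add (Cv.geo_iff.1 hG) hν.pos 1 (by simp)
  obtain ⟨-, s1, s2⟩ := axis_stab hELEM hLINE l1.axis.2.1 r1.axis.2.1 l1.axis.2.2 r1.axis.2.2 hj hm
  obtain ⟨z, t, B, e, tb, ov⟩ := hC_LEFT Γ a F T ν b s (u ++ [s']) hν l1 far l2 good.1 nz hS.1 hG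
    ⟨_, big, on_right hν.pos.le _ _, s1⟩
  have eV : s :: u ++ [s'] = (s :: z) ++ t :: B := by rw [List.cons_append, e]; rfl
  have tm : t ∈ s :: u ++ [s'] := by rw [eV]; simp
  have ts : Ls (ln t.2) ν := hS.1.mono_left (Cv.ln_le_sl (C := idC F) tm)
  have lst : vl B = 1 → Stab ν 1 t.2⁻¹ b' := fun hB => last hν (eV ▸ hG) hB (eV ▸ s2)
  rcases B.eq_nil_or_concat with rfl | ⟨B', t', rfl⟩
  · obtain ⟨-, k⟩ := List.append_inj' e rfl
    obtain rfl : s' = t := by simpa using k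
    exact r2.not_fol hν ts ⟨_, by simpa using tb, on_right hν.pos.le _ _, lst rfl⟩
  rw [List.concat_eq_append] at e eV lst
  obtain ⟨rfl, k⟩ := List.append_inj' (show u ++ [s'] = (z ++ t :: B') ++ [t'] by simpa using e) rfl
  obtain rfl : s' = t' := by simpa using k
  have J : (idC F).JOK s z t :=
    Cv.Good.jok (p := []) (q := B' ++ [s']) (by simpa using good)
  have fin : ct z + kx (bt s.1) + kx (bt t.1) < n → False := fun h =>
    hC_JSHORT Γ a F T _ (idC F) ν s z t hν J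
      (hC_JLONG Γ a F T _ (idC F) ν s z t hν J.okl J.okr J.min (idC_lift _ _ _)
        (ih z (fun x hx => J.wd x (by simp [hx])) _ _ h) ov) ov
  have a1 := kx_le s.1
  have a2 := kx_bt_le t.1
  rw [ct_append, ct_cons] at hn
  rcases r1.cases with ⟨q, -⟩ | ⟨i, y, q, -⟩
  swap
  · have q1 : s'.1 = .inl (some i) := congrArg Prod.fst q
    rw [q1, k0_inl, kx_some] at hn
    exact fin (by omega)
  obtain rfl : s' = (.inr b', 1) := by simpa [sinv] using congrArg sinv q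
  rcases B' with _ | ⟨m, B'⟩
  · have J' : (idC F).JOK t [] (.inr b', 1) :=
      Cv.Good.jok (p := s :: z) (q := []) (by simpa using good)
    refine hC_JSHORT Γ a F T _ (idC F) ν t [] _ hν J' (.inl rfl) ⟨t.2⁻¹, by simpa using tb, ?_, ?_⟩
    · refine hC_ARC Γ a F T ν t.1 t.2⁻¹ 1 t.2⁻¹ hν J.okr.1 (inv_mem J.okr.2) (fun c k => ?_)
        (by simpa using ts) (on_left hν.pos.le _ _) (on_right hν.pos.le _ _)
      rw [inv_mem_iff]
      exact nz.big tm hν tb c k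
    · have := lst (by simp)
      simpa [Arc] using this
  · have J' : (idC F).JOK t [] m :=
      Cv.Good.jok (p := s :: z) (q := B' ++ [(.inr b', 1)]) (by simpa using good)
    rw [ct_cons] at hn
    by_cases k1 : kc m.1 ≤ 1
    · have k2 := kc_eq_one k1
      have k3 := J'.pair
      have k4 := kc_pos m.1
      obtain ⟨o | c, y⟩ := t
      · obtain ⟨t1, y1⟩ := m
        obtain rfl : t1 = _ := k2
        obtain ⟨i, -, k5, -⟩ := k3
        cases k5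
      · refine fin ?_
        simp only [kc_inr, bt_inr, kx_none] at hn ⊢
        omega
    · exact fin (by omega)

end Pool.Agent.P.MP_dba3d2_lc


end

section

/-! Step C_TMID of the stability project. -/

namespace Pool.Agent.P.MP_dba3d2_lc

open Filter

namespace C_tmidA

variable {Γ : HG} {a : Amb} {F : Bool → Subgroup (MM Γ a)} {n : ℕ} {b b' f w : MM Γ a}
  {s s' : Tg Γ a × MM Γ a} {u : List (Tg Γ a × MM Γ a)} {o : Option Bool}

theorem endmem (h : EndL F b s) : s.2 ∈ XF F (bt s.1) := by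
  rcases h.cases with ⟨rfl, -⟩ | ⟨i, y, rfl, h1, -⟩
  exacts [one_mem _, h1]

theorem kx_k0 (t : Tg Γ a) : kx (bt t) ≤ k0 t + 1 := by cases t <;> simp

theorem tred (ih : ∀ z, (idC F).Wd z → ∀ o o', ct z + kx o + kx o' < n → TC F o o' (vl z))
    (h1 : EndL F b s) (h2 : EndL F b' (sinv s')) (hu : (idC F).Wd u)
    (hc : ct u + k0 s.1 + k0 s'.1 ≤ n) (hj : Cj (vl (s :: u ++ [s'])) b' b) (hf : ¬ Far F b s) :
    TC1 F (bt s.1) (bt s'.1) b b' (vl (s :: u ++ [s'])) := by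
  have m1 := endmem h1
  have m2 : s'.2 ∈ XF F (bt s'.1) := by simpa using endmem h2
  have a1 := h1.axis
  have a2 := h2.axis
  simp only [Far, not_forall, not_not] at hf
  obtain ⟨o, ho, hm⟩ := hf
  have k5 : k0 s.1 = 5 := by
    rcases h1.cases with ⟨rfl, -⟩ | ⟨i, y, rfl, -⟩
    · cases ho
    · rfl
  have e : vl (s :: u ++ [s']) = s.2 * (vl u * s'.2) := by simp
  rw [e] at hj ⊢
  refine TC1.left m1 (TC1.right m2 (TC1.weakl ?_ _))
  refine ih u hu none (bt s'.1) (by have := kx_k0 s'.1; rw [kx_none]; omega) _ hm _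
    (mul_mem (mul_mem m2 a2.1) (inv_mem m2)) (a1.2.1.conj' _) (a2.2.1.conj _) ?_
  simpa [mul_assoc] using hj.conj s.2 s'.2⁻¹

theorem tred' (ih : ∀ z, (idC F).Wd z → ∀ o o', ct z + kx o + kx o' < n → TC F o o' (vl z))
    (h1 : EndL F b s) (h2 : EndL F b' (sinv s')) (hu : (idC F).Wd u)
    (hc : ct u + k0 s.1 + k0 s'.1 ≤ n) (hj : Cj (vl (s :: u ++ [s'])) b' b)
    (hf : ¬ Far F b' (sinv s')) : TC1 F (bt s.1) (bt s'.1) b b' (vl (s :: u ++ [s'])) := by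
  have e : vl (sinv s' :: winv u ++ [sinv s]) = (vl (s :: u ++ [s']))⁻¹ := by simp [mul_assoc]
  have := tred (s' := sinv s) (b' := b) ih h2 (by simpa using h1) hu.winv
    (by simp only [ct_winv, sinv_fst]; omega) (e ▸ hj.inv) hf
  rw [e] at this
  simpa only [inv_inv, sinv_fst] using this.symm

theorem trL (h1 : EndL F b s) (hf : f ∈ LF F s.1) (he : f ∈ Ep b)
    (h : TC1 F (bt s.1) o b b' w) : TC1 F (bt s.1) o b b' (f * w) := by
  rcases h1.cases with ⟨rfl, -⟩ | ⟨i, y, rfl, -⟩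
  · exact h.efl hf
  · exact TC1.left hf (h.congr (Ep_conj_mem' he) rfl)

theorem trR (h1 : EndL F b' (sinv s')) (hf : f ∈ LF F s'.1) (he : f ∈ Ep b')
    (h : TC1 F o (bt s'.1) b b' w) : TC1 F o (bt s'.1) b b' (w * f) := by
  simpa using (trL (f := f⁻¹) h1 (inv_mem hf) (inv_mem he) h.symm).symm

end C_tmidA

open C_tmidA in
theorem p_C_TMID (hROOT : S_ROOT) (hC_TFF : S_C_TFF) (hC_R2B : S_C_R2B) (hC_EXTN : S_C_EXTN) (hC_TGEO : S_C_TGEO) (hC_TEND : S_C_TEND) :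
    S_C_TMID := by
  intro Γ a F hF n b b' s s' u ih h1 h2 hm hc hj
  have _ := hROOT
  have m1 := endmem h1
  have m2 : s'.2 ∈ XF F (bt s'.1) := by simpa using endmem h2
  have a1 := h1.axis
  have a2 : b' ∈ XF F (bt s'.1) ∧ Prim b' ∧ Cen b' := h2.axis
  have key : vl u ∈ XF F none → TC1 F (bt s.1) (bt s'.1) b b' (vl (s :: u ++ [s'])) := fun hu => by
    obtain ⟨i, hi⟩ := exists_F (bt s.1)
    obtain ⟨j, hj'⟩ := exists_F (bt s'.1)
    have e : vl (s :: u ++ [s']) = s.2 * vl u * s'.2 := by simp [mul_assoc]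
    rw [e] at hj ⊢
    exact hC_TFF Γ a F hF _ _ i j hi hj' _ (mul_mem (XF_le_F hi m1) (M_le_F i hu)) _
      (XF_le_F hj' m2) b a1.1 b' a2.1 a1.2.1 a2.2.1 hj
  by_cases f1 : Far F b s
  swap
  · exact tred ih h1 h2 hm.1 hc hj f1
  by_cases f2 : Far F b' (sinv s')
  swap
  · exact tred' ih h1 h2 hm.1 hc hj f2
  by_cases u0 : u = []
  · exact key (u0 ▸ one_mem _)
  by_cases he : (idC F).HE s u s'
  swap
  · simp only [Cv.HE, not_forall] at he
    obtain ⟨c, c', m, -, -, rfl, -⟩ := he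
    refine key ?_
    have := (hm.1 (.inl none, m) (by simp)).2
    simpa using this
  obtain ⟨e1, u1, e1', t1, t2, t3, hX, f, hf, f', hf', g1, g2, hv⟩ :=
    hC_EXTN Γ a F hF b b' (some s) (some s') u (by rintro _ ⟨⟩; exact ⟨h1, f1⟩)
      (by rintro _ ⟨⟩; exact ⟨h2, f2⟩) hm u0 (by rintro _ ⟨⟩ _ ⟨⟩; exact he)
  obtain ⟨s1, rfl, q1⟩ : ∃ s1, e1 = some s1 ∧ s1.1 = s.1 := by
    cases e1 <;> simp_all
  obtain ⟨s1', rfl, q2⟩ : ∃ s1', e1' = some s1' ∧ s1'.1 = s'.1 := by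
    cases e1' <;> simp_all
  rw [xw_ss, xw_ss] at hv
  have hc1 : ct u1 + k0 s1.1 + k0 s1'.1 ≤ n := by rwa [ct_tags t2, q1, q2]
  have hj1 : Cj (vl (s1 :: u1 ++ [s1'])) b' b :=
    hv ▸ ((Cj.of_mem g1).mul hj).mul (Cj.of_mem g2)
  have main : TC1 F (bt s1.1) (bt s1'.1) b b' (vl (s1 :: u1 ++ [s1'])) := by
    have l1 := (hX.l s1 rfl).1
    have l2 := (hX.r s1' rfl).1
    have wd : (idC F).Wd (s1 :: u1 ++ [s1']) := by simpa only [xw_ss] using hX.good.1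
    by_cases f3 : Far F b s1
    swap
    · exact tred ih l1 l2 (wd.sub ⟨[s1], [s1'], by simp⟩) hc1 hj1 f3
    by_cases hν : Big ((idC F).sl (s1 :: u1 ++ [s1'])) ∧
      Ll (md b) ((idC F).sl (s1 :: u1 ++ [s1']))
    · exact (hC_TGEO Γ a F hF n _ b b' s1 s1' u1 ih hX hc1 hj1 hν.1 (Ls.refl' _)).resolve_right
        (hC_TEND Γ a F hF n _ b b' s1 s1' u1 ih hX f3 hc1 hj1 hν.1 ⟨Ls.refl' _, Ls.refl' _⟩ hν.2)
    · exact hC_R2B Γ a F hF _ _ b l1.axis.1 b' l2.axis.1 a1.2.1 a2.2.1 a1.2.2 a2.2.2 _ hj1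
        (Ls.mono_left (Cv.ln_vl_le (C := idC F))
          (ls_of_scale (one_le_md' a1.2.1.1) fun x y => hν ⟨x, y⟩))
  rw [q1, q2, hv] at main
  have := trR h2 (inv_mem hf') (inv_mem g2) (trL h1 (inv_mem hf) (inv_mem g1) main)
  rwa [show f⁻¹ * (f * vl (s :: u ++ [s']) * f') * f'⁻¹ = vl (s :: u ++ [s']) by group] at this

end Pool.Agent.P.MP_dba3d2_lc


end

section

/-! Step C_T of the stability project. -/

namespace Pool.Agent.P.MP_dba3d2_lc

open Filter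

namespace C_tA

variable {Γ : HG} {a : Amb} {F : Bool → Subgroup (MM Γ a)}

/-- one end of the word -/
theorem one_end {o : Option Bool} {c p : MM Γ a} (hc : c ∈ XF F o) (h1 : Prim c) (h2 : Cen c)
    (hp : p ∈ XF F o) : ∃ (t : Tg Γ a) (pre : List (Tg Γ a × MM Γ a)), bt t = o ∧
      (idC F).Wd pre ∧ ct pre + k0 t ≤ kx o ∧ ∀ x ∈ LF F t, ∃ y φ, EndL F c (t, y) ∧ φ ∈ Ep c ∧
        p⁻¹ = φ * y * x * vl pre ∧
        ∀ o' c' v, TC1 F o o' c c' v → TC1 F o o' c c' (φ * v) := by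
  rcases o with _ | i
  · exact ⟨.inr c, [(.inl none, p⁻¹)], rfl, Cv.wd_single (idC_ok (inv_mem hp)), by simp,
      fun x hx => ⟨1, x⁻¹, ⟨rfl, hc, h1, h2, rfl⟩, inv_mem (EF_le_Ep hx), by simp,
        fun _ _ _ h => h.efl (inv_mem hx)⟩⟩
  · exact ⟨.inl (some i), [], rfl, Cv.wd_nil, by simp, fun x hx => ⟨p⁻¹ * x⁻¹, 1,
      ⟨by simp, mul_mem (inv_mem hp) (inv_mem hx), hc, h1, h2⟩, one_mem _, by simp,
        fun _ _ _ h => by rwa [one_mul]⟩⟩

end C_tA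

open C_tA

theorem p_C_T (hC_TMID : S_C_TMID) :
    S_C_T := by
  intro Γ a F hF
  have key : ∀ n : ℕ, ∀ z, (idC F).Wd z → ∀ o o', ct z + kx o + kx o' ≤ n → TC F o o' (vl z) := by
    intro n
    induction n using Nat.strong_induction_on with
    | _ n ih =>
    intro z hz o o' hn b hb b' hb' pb pb' hj
    obtain ⟨p, hp, c0, c1, c2, -⟩ := hF.cenx hb pb
    obtain ⟨p', hp', d0, d1, d2, -⟩ := hF.cenx hb' pb'
    obtain ⟨t, pre, rfl, w1, n1, e1⟩ := one_end c0 c1 c2 hp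
    obtain ⟨t', pre', rfl, w2, n2, e2⟩ := one_end d0 d1 d2 hp'
    obtain ⟨u, hu, n3, x, hx, y, hy, e⟩ := Cv.exists_cMin (LF F t) (LF F t')
      (Cv.wd_append.2 ⟨Cv.wd_append.2 ⟨w1, hz⟩, w2.winv⟩)
    obtain ⟨s, φ, l1, f1, q1, r1⟩ := e1 x hx
    obtain ⟨s', φ', l2, f2, q2, r2⟩ := e2 y⁻¹ (inv_mem hy)
    have ev : p⁻¹ * vl z * p' = φ * vl ((t, s) :: u ++ [sinv (t', s')]) * φ'⁻¹ := by
      rw [← inv_inv p', q2, q1]
      simp [e, mul_assoc]
    have k := hC_TMID Γ a F hF n _ _ (t, s) (sinv (t', s')) u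
      (fun z hz o o' h => ih _ h z hz o o' le_rfl) l1 (by simpa using l2) hu
      (by simp at n3 ⊢; omega) (by
        have h1 := ((Cj.of_mem (inv_mem f1)).mul (hj.conj p p')).mul (Cj.of_mem f2)
        rwa [ev, mul_assoc, inv_mul_cancel_right, inv_mul_cancel_left] at h1)
    have k1 := (r2 _ _ _ (r1 _ _ _ k).symm).symm
    rw [mul_inv_rev, inv_inv, ← ev] at k1
    simpa [mul_assoc] using (TC1.left hp' (TC1.left hp k1).symm).symm
  intro w hw o o'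
  obtain ⟨z, hz, rfl⟩ := exists_wordP hw
  exact key _ z hz o o' le_rfl

end Pool.Agent.P.MP_dba3d2_lc


end

section

/-! Step C_CYP of the stability project. -/

namespace Pool.Agent.P.MP_dba3d2_lc

open Filter

namespace C_cypA

variable {Γ : HG} {a : Amb} {F : Bool → Subgroup (MM Γ a)} {G : Type} [Group G] {C : Cv F G}
  {s s' : Tg Γ a × G} {w : List (Tg Γ a × G)} {x y : G}

theorem base_mem (h : C.ok s) (ht : ∃ o, s.1 = .inl o) (hx : x ∈ C.L (.inl none)) :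
    x ∈ C.L s.1 := by
  obtain ⟨t, z⟩ := s
  obtain ⟨o, rfl⟩ := ht
  exact Cv.base_le h.1 hx

theorem modL (hw : C.Wd w) (hne : w.map Prod.fst ≠ []) (ht : ∀ t ∈ w.map Prod.fst, ∃ o, t = .inl o)
    (hx : x ∈ C.L (.inl none)) :
    ∃ v, v.map Prod.fst = w.map Prod.fst ∧ C.Wd v ∧ vl v = x * vl w := by
  rcases w with _ | ⟨s, w⟩
  · exact absurd rfl hne
  obtain ⟨h1, h2⟩ := Cv.wd_cons.1 hw
  exact ⟨(s.1, x * s.2) :: w, rfl, Cv.wd_cons.2
    ⟨h1.mk' (mul_mem (base_mem h1 (ht _ (by simp)) hx) h1.2), h2⟩, by simp [mul_assoc]⟩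

theorem modR (hw : C.Wd w) (hne : w.map Prod.fst ≠ []) (ht : ∀ t ∈ w.map Prod.fst, ∃ o, t = .inl o)
    (hx : x ∈ C.L (.inl none)) :
    ∃ v, v.map Prod.fst = w.map Prod.fst ∧ C.Wd v ∧ vl v = vl w * x := by
  rcases w.eq_nil_or_concat with rfl | ⟨w, s, rfl⟩
  · exact absurd rfl hne
  rw [List.concat_eq_append] at hw ht ⊢
  obtain ⟨h2, h1⟩ := Cv.wd_append.1 hw
  have h3 := h1 s (by simp)
  exact ⟨w ++ [(s.1, s.2 * x)], by simp, Cv.wd_append.2 ⟨h2, Cv.wd_single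
    (h3.mk' (mul_mem h3.2 (base_mem h3 (ht _ (by simp)) hx)))⟩, by simp [mul_assoc]⟩

theorem rp_tags (h : RP F (C.pr s) (C.pr s')) (h1 : ∃ o, s.1 = .inl o) (h2 : ∃ o, s'.1 = .inl o) :
    ∃ i, s.1 = .inl (some i) ∧ s'.1 = .inl (some (!i)) := by
  obtain ⟨t, z⟩ := s
  obtain ⟨t', z'⟩ := s'
  obtain ⟨o, rfl⟩ := h1
  obtain ⟨o', rfl⟩ := h2
  obtain ⟨i, rfl, rfl⟩ := h
  exact ⟨i, rfl, rfl⟩

theorem not_expT (hF : TwoF F) {i : Bool} (h : C.CMin ⊥ ⊥ [(.inl (some i), y)]) :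
    ¬ ExpT (F false ⊓ F true) (C.π y) := by
  rintro ⟨m, hm, m', hm', c, hc, hp, f, hf, e⟩
  have o := h.1 (.inl (some i), y) (by simp)
  have hy : C.π y ∈ F i := C.le _ o.1 _ o.2
  have hfi : f ∈ F i := by
    have : f = m⁻¹ * C.π y * m'⁻¹ := by rw [e]; group
    rw [this]
    exact mul_mem (mul_mem (inv_mem (M_le_F i hm)) hy) (inv_mem (M_le_F i hm'))
  obtain ⟨p, p1, p2, p3, p4, p5⟩ := hF.cenx (o := none) hc hp
  have hc0 : TOK F C.S (.inr (p⁻¹ * c * p)) := ⟨p2, p3, p4⟩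
  obtain ⟨x, x1, x2, x3⟩ := Cv.lift_both (C := C) (o := some i) o.1 hc0
    (mul_mem (mul_mem (inv_mem (M_le_F i p1)) hfi) (M_le_F i p1)) (p5.mem_Ep' hf)
  obtain ⟨u, u1, u2⟩ := Cv.lift_base (C := C) (mul_mem hm p1)
  obtain ⟨v, v1, v2⟩ := Cv.lift_base (C := C) (mul_mem (inv_mem p1) hm')
  have e2 : u * x * v = y := Cv.eq_of o.1
    (mul_mem (mul_mem (Cv.base_le o.1 u1) x1) (Cv.base_le o.1 v1)) o.2
    (by rw [map_mul, map_mul, u2, v2, x3, e]; group)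
  have := h.2 [(.inl none, u), (.inr (p⁻¹ * c * p), x), (.inl none, v)]
    (Cv.wd_cons.2 ⟨Cv.ok_base u1, Cv.wd_cons.2 ⟨⟨hc0, x2⟩, Cv.wd_single (Cv.ok_base v1)⟩⟩)
    1 (one_mem _) 1 (one_mem _) (by simp [← e2, mul_assoc])
  simp at this

end C_cypA

open C_cypA in
theorem p_C_CYP (hC_RED : S_C_RED) (hC_NORMW : S_C_NORMW) :
    S_C_CYP := by
  intro Γ a F hF G _ C w hw hl ht
  have red : ∀ u, C.CMin ⊥ ⊥ u → C.Red u := fun u hu => by
    simpa using hC_RED Γ a F hF G C none none u (by simp) (by simp) hu (by simp)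
  rcases w with _ | ⟨s1, ρ⟩
  · simp at hl
  have hne : ρ ≠ [] := by rintro rfl; simp at hl
  have hne' : ρ.map Prod.fst ≠ [] := by simpa using hne
  have tρ : ∀ t ∈ ρ.map Prod.fst, ∃ o, t = .inl o := fun t h => by
    obtain ⟨s, hs, rfl⟩ := List.mem_map.1 h
    exact ht s (List.mem_cons_of_mem _ hs)
  have t1 := ht s1 List.mem_cons_self
  obtain ⟨sh, hsh⟩ : ∃ s, ρ.head? = some s := ⟨_, List.head?_eq_some_head hne⟩
  obtain ⟨sl, hsl⟩ : ∃ s, ρ.getLast? = some s := ⟨_, List.getLast?_eq_some_getLast hne⟩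
  obtain ⟨i, e1, e2⟩ := rp_tags ((List.isChain_cons.1 (red _ hw.cMin).ch).1 sh hsh) t1
    (ht _ (List.mem_cons_of_mem _ (List.mem_of_head? hsh)))
  have hrot : s1 :: ρ ~r ρ ++ [s1] := List.isRotated_append (l := [s1])
  obtain ⟨j, e3, e4⟩ := rp_tags
    ((List.isChain_append.1 (red _ (hw.rot hrot).cMin).ch).2.2 sl hsl s1 rfl)
    (ht _ (List.mem_cons_of_mem _ (List.mem_of_getLast? hsl))) t1
  obtain rfl : i = !j := by simpa [e1] using e4
  obtain ⟨t, y⟩ := s1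
  obtain rfl : t = _ := e1
  obtain ⟨o1, oρ⟩ := Cv.wd_cons.1 hw.1
  obtain ⟨m, hm, m', hm', n1, n2⟩ := hF.n2 (!j) _ (C.le _ o1.1 _ o1.2)
    (fun h => by simpa using hw.cMin.nz _ List.mem_cons_self h)
    (not_expT hF (hw.cMin.sub (single_sub List.mem_cons_self)))
  obtain ⟨σ, σ1, rfl⟩ := Cv.lift_base (C := C) hm
  obtain ⟨σ', σ2, rfl⟩ := Cv.lift_base (C := C) hm'
  have o2 : C.ok (.inl (some (!j)), σ * y * σ') :=
    o1.mk' (mul_mem (mul_mem (Cv.base_le o1.1 σ1) o1.2) (Cv.base_le o1.1 σ2))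
  obtain ⟨ρ0, a1, a2, a3⟩ := modL oρ hne' tρ (inv_mem σ2)
  obtain ⟨ρ1, b1, b2, b3⟩ := modR a2 (a1 ▸ hne') (a1 ▸ tρ) (inv_mem σ1)
  have hσ : σ⁻¹ ∈ C.PP := inv_mem (Cv.ok_base σ1).mem_PP
  have cyc : ∀ v : List (Tg Γ a × G), v.map Prod.fst = ρ1.map Prod.fst → C.Wd v → vl v = vl ρ1 →
      C.CycMin ((.inl (some (!j)), σ * y * σ') :: v) ∧
      vl ((.inl (some (!j)), σ * y * σ') :: v) = σ⁻¹⁻¹ * vl ((.inl (some (!j)), y) :: ρ) * σ⁻¹ :=
    fun v k1 k2 k3 => by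
      have e : vl ((.inl (some (!j)), σ * y * σ') :: v) =
          σ⁻¹⁻¹ * vl ((.inl (some (!j)), y) :: ρ) * σ⁻¹ := by
        rw [vl_cons, vl_cons, k3, b3, a3]
        group
      exact ⟨hw.of_eq (Cv.wd_cons.2 ⟨o2, k2⟩) (ct_tags (by simp [k1, b1, a1])).le hσ e, e⟩
  obtain ⟨ρ2, c1, c2, c3, c4⟩ := hC_NORMW Γ a F hF G C ρ1
    (red _ ((cyc ρ1 rfl b2 rfl).1.cMin.sub (List.suffix_cons _ _).isInfix))
  obtain ⟨d1, d2⟩ := cyc ρ2 c1 c2 c3
  have tg : ρ2.map Prod.fst = ρ.map Prod.fst := c1.trans (b1.trans a1)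
  have nz : ∀ s ∈ ρ2, ∀ k, s.1 = .inl (some k) → C.π s.2 ∉ XF F none := fun s hs k e h => by
    simpa [e] using d1.cMin.nz s (List.mem_cons_of_mem _ hs) h
  rw [← map_mul, ← map_mul] at n1 n2
  have ch : C.PCh ((.inl (some (!j)), σ * y * σ') :: ρ2) := by
    refine List.isChain_cons.2 ⟨fun s hs => ?_, c4⟩
    have e : s.1 = .inl (some (!!j)) := by
      have := congrArg List.head? tg
      rw [List.head?_map, List.head?_map, hsh, Option.mem_def.1 hs] at this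
      exact (Option.some.inj this).trans e2
    have k := nz s (List.mem_of_head? hs) _ e
    obtain ⟨t, z⟩ := s
    obtain rfl : t = _ := e
    exact ⟨_, rfl, rfl, .inl ⟨n1, k⟩⟩
  refine ⟨_, by simp [tg], d1.1, List.isChain_append.2 ⟨ch, ch, fun s hs s' hs' => ?_⟩, _, hσ, d2⟩
  obtain rfl : (Sum.inl (some (!j)), σ * y * σ') = s' := by simpa using hs'
  have hne2 : ρ2 ≠ [] := by rintro rfl; exact hne' tg.symm
  rw [List.getLast?_cons_of_ne_nil hne2] at hs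
  have e : s.1 = .inl (some j) := by
    have := congrArg List.getLast? tg
    rw [List.getLast?_map, List.getLast?_map, hsl, Option.mem_def.1 hs] at this
    exact (Option.some.inj this).trans e3
  have k := nz s (List.mem_of_getLast? hs) _ e
  obtain ⟨t, z⟩ := s
  obtain rfl : t = _ := e
  rw [Bool.not_not] at n2
  exact ⟨j, rfl, rfl, .inr ⟨n2, k⟩⟩

end Pool.Agent.P.MP_dba3d2_lc


end
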