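import Pool.Agent.P.MP_dba3d2_lcM.Ab05
import Pool.Agent.P.MP_dba3d2_lcM.Bb10
import Pool.Agent.P.MP_dba3d2_lcM.Cb11
import Pool.Agent.P.MP_dba3d2_lcM.Cb13
import Pool.Agent.P.MP_dba3d2_lcM.Cb18

section

/-! Step C_CYCG of the stability project. -/

namespace Pool.Agent.P.MP_dba3d2_lc

open Filter

namespace C_cycgA

variable {Γ : HG} {a : Amb} {F : Bool → Subgroup (MM Γ a)} {G : Type} [Group G] {C : Cv F G}
  {s : Tg Γ a × G} {w ρ : List (Tg Γ a × G)}

theorem he (h : ¬ C.Exc w) (k : w ~r s :: ρ) : C.HE s ρ s := by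
  rintro c c' m e1 e2 rfl hj
  obtain ⟨t, x⟩ := s
  obtain rfl : t = _ := e1
  cases e2
  exact h ⟨c, x, m, k, hj⟩

theorem fin (h : C.CycMin w) (hl : 2 ≤ w.length) (hp : C.PCh (w ++ w)) : C.Exc w ∨ C.CG w := by
  refine (em _).imp_right fun e => ⟨hl, fun s ρ k => ?_⟩
  have h1 := h.rot k
  have o := Cv.wd_cons.1 h1.1
  have := Cv.good_of (C := C) (e := some s) (e' := some s) (u := ρ) h1.head
    (Cv.wd_xw (by rintro _ ⟨⟩; exact o.1) o.2 (by rintro _ ⟨⟩; exact o.1))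
    ((hp.rot k).sub ⟨[], ρ, by simp⟩) (by rintro _ ⟨⟩ _ ⟨⟩; exact he e k)
  simpa using this

theorem dbl {c : MM Γ a} {x : G} (h : C.PCh ((.inr c, x) :: w ++ [(.inr c, x)])) (y : G) :
    C.PCh (((.inr c, y) :: w) ++ (.inr c, y) :: w) := by
  have h1 : C.PCh ((.inr c, x) :: w ++ [(.inr c, y)]) := by
    have := List.isChain_append.1 h
    refine List.isChain_append.2 ⟨this.1, List.isChain_singleton _, fun p hp q hq => ?_⟩
    obtain rfl : (Sum.inr c, y) = q := by simpa using hq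
    exact (pair_inr_right _ _ _).1 (this.2.2 p hp (.inr c, x) rfl)
  have h2 : C.PCh ((.inr c, y) :: w ++ [(.inr c, y)]) := by
    have := List.isChain_append.1 (show List.IsChain _ ([_] ++ (w ++ [(.inr c, y)])) from h1)
    refine (List.isChain_append (l₁ := [_])).2 ⟨List.isChain_singleton _, this.2.1,
      fun p hp q hq => ?_⟩
    obtain rfl : (Sum.inr c, y) = p := by simpa using hp
    exact (pair_inr_left _ _ _).1 (this.2.2 (.inr c, x) rfl q hq)
  exact List.isChain_split.2 ⟨h2, h2.sub ⟨[], [_], rfl⟩⟩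

end C_cycgA

open C_cycgA

theorem p_C_CYCG (hC_EXTM : S_C_EXTM) (hC_CYP : S_C_CYP) :
    S_C_CYCG := by
  intro Γ a F hF G _ C w hw
  obtain ⟨u, hu, hc, g, hg, e⟩ := Cv.exists_cycMin hw
  by_cases h1 : u.length ≤ 1
  · exact ⟨u, hu.1, hu.cMin.nz, hc, ⟨g, hg, e⟩, .inl h1⟩
  by_cases h2 : C.Exc u
  · exact ⟨u, hu.1, hu.cMin.nz, hc, ⟨g, hg, e⟩, .inr (.inl h2)⟩
  suffices k : ∃ v, C.Wd v ∧ ct v = ct u ∧ v.length = u.length ∧ C.PCh (v ++ v) ∧
      ∃ g ∈ C.PP, vl v = g⁻¹ * vl u * g by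
    obtain ⟨v, a1, a2, a3, a4, g', a5, a6⟩ := k
    have m := hu.of_eq a1 a2.le a5 a6
    exact ⟨v, a1, m.cMin.nz, a2.le.trans hc, ⟨g * g', mul_mem hg a5, by rw [a6, e]; group⟩,
      .inr (fin m (by omega) a4)⟩
  by_cases h3 : ∀ s ∈ u, ∃ o, s.1 = .inl o
  · obtain ⟨v, a1, a2, a3, a4⟩ := hC_CYP Γ a F hF G C u hu (by omega) h3
    exact ⟨v, a2, ct_tags a1, by simpa using congrArg List.length a1, a3, a4⟩
  push Not at h3
  obtain ⟨⟨o | c, x⟩, hs, h3⟩ := h3
  · exact absurd rfl (h3 o)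
  obtain ⟨p, q, rfl⟩ := List.append_of_mem hs
  have k : p ++ (Sum.inr c, x) :: q ~r (Sum.inr c, x) :: (q ++ p) := List.isRotated_append
  have m := hu.rot k
  obtain ⟨-, b2, -, g', b3, b4⟩ := hu.1.rot k
  have b5 := k.perm.length_eq
  have o := Cv.wd_cons.1 m.1
  obtain ⟨v, a1, a2, a3, x', hx, y', hy, a4⟩ := hC_EXTM Γ a F hF G C (some (.inr c, x))
    (some (.inr c, x)) (q ++ p) (by rintro _ ⟨⟩; exact ⟨o.1, c, rfl⟩)
    (by rintro _ ⟨⟩; exact ⟨o.1, c, rfl⟩) m.head (by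
      rintro _ ⟨⟩ _ ⟨⟩
      refine ⟨he h2 k, fun z => absurd ?_ h1⟩
      rw [b5, z]; rfl)
  refine ⟨(.inr c, y'⁻¹ * x * x'⁻¹) :: v, Cv.wd_cons.2
    ⟨o.1.mk' (mul_mem (mul_mem (inv_mem hy) o.1.2) (inv_mem hx)), a2⟩, ?_, ?_,
    dbl (by simpa using a3) _, g' * y', mul_mem b3 (Cv.L_le_PP o.1.1 hy), ?_⟩
  · rw [← b2, ct_cons, ct_cons, ct_tags a1]
  · rw [b5, List.length_cons, List.length_cons]
    simpa using congrArg List.length a1
  · rw [vl_cons] at b4
    rw [vl_cons, a4, mul_inv_rev, mul_assoc y'⁻¹ g'⁻¹, mul_assoc y'⁻¹ (g'⁻¹ * _),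
      ← mul_assoc (g'⁻¹ * _), ← b4]
    group

end Pool.Agent.P.MP_dba3d2_lc


end

section

/-! Step C_INJ of the stability project. -/

namespace Pool.Agent.P.MP_dba3d2_lc

open Filter

namespace C_injA

variable {Γ : HG} {a : Amb} {F : Bool → Subgroup (MM Γ a)} {G : Type} [Group G] {C : Cv F G}

theorem vl_mem {w : List (Tg Γ a × G)} {H : Subgroup G} (h : ∀ s ∈ w, s.2 ∈ H) : vl w ∈ H := by
  induction w with
  | nil => exact one_mem _
  | cons s w ih =>
    rw [vl_cons]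
    exact mul_mem (h s (by simp)) (ih fun t ht => h t (by simp [ht]))

theorem rot_one {w v : List (Tg Γ a × G)} (h : C.Wd w) (k : w ~r v) (e : C.π (vl w) = 1) :
    C.π (vl v) = 1 := by
  obtain ⟨-, -, -, g, -, h4⟩ := h.rot k
  simp [h4, e]

theorem short_of {s s' : Tg Γ a × G} {ρ : List (Tg Γ a × G)} (h : C.JOK s' ρ s)
    (hc : ct ρ + kc s.1 + kc s'.1 ≤ lb s.1 s'.1) : Short s'.1 ρ s.1 ∧ ρ.length ≤ 1 := by
  obtain ⟨t, x⟩ := s
  obtain ⟨t', x'⟩ := s'
  have z0 : ct ρ ≤ 0 → Short t' ρ t ∧ ρ.length ≤ 1 := fun k => by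
    obtain rfl := ct_eq_zero k
    exact ⟨.inl rfl, by simp⟩
  rcases t with o | c <;> rcases t' with o' | c'
  · have k2 : ct ρ ≤ 2 := by
      rcases o with _ | i <;> rcases o' with _ | j <;> simp only [lb, kc_inl, kx_none, kx_some] at hc
      · omega
      · omega
      · omega
      · split_ifs at hc <;> omega
    rcases Cv.CMin.short (o := o') h.min h.okl.1 k2 with rfl | ⟨c, e, rfl⟩
    · exact ⟨.inl rfl, by simp⟩
    · exact ⟨.inr (.inr ⟨o', o, c, e, rfl, rfl, rfl⟩), by simp⟩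
  · refine z0 ?_
    simp only [lb, kc_inl, kc_inr] at hc
    omega
  · refine z0 ?_
    simp only [lb, kc_inl, kc_inr] at hc
    omega
  · simp only [lb, kc_inr] at hc
    omega

theorem junc {X : Type} {s s' t t' : X} {ρ A y B : List X} (h : s' :: ρ ++ [s] = A ++ t :: y ++ t' :: B)
    (hl : ρ.length ≤ 1) : y = [] ∨ (t = s' ∧ y = ρ ∧ t' = s) := by
  rcases y with _ | ⟨u, y⟩
  · exact .inl rfl
  have k := congrArg List.length h
  simp only [List.length_cons, List.length_append, List.length_nil] at k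
  obtain rfl : A = [] := List.eq_nil_of_length_eq_zero (by omega)
  obtain rfl : B = [] := List.eq_nil_of_length_eq_zero (by omega)
  simp only [List.nil_append, List.cons_append, List.cons.injEq] at h
  obtain ⟨rfl, h⟩ := h
  obtain ⟨h1, h2⟩ := List.append_inj' (show ρ ++ [s] = (u :: y) ++ [t'] from h) rfl
  exact .inr ⟨rfl, h1.symm, by simpa using h2.symm⟩

end C_injA

open C_injA in
theorem p_C_INJ (hC_T : S_C_T) (hC_CYCG : S_C_CYCG) (hC_JLONG : S_C_JLONG) (hC_JSHORT : S_C_JSHORT) (hC_PATHW : S_C_PATHW) :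
    S_C_INJ := by
  intro Γ a F hF G _ C
  have main : ∀ n : ℕ, ∀ w, C.Wd w → ct w = n → C.π (vl w) = 1 → vl w = 1 := by
    intro n
    induction n using Nat.strong_induction_on with
    | _ n ih =>
    intro w0 hw0 hn e0
    obtain ⟨w, hw, hz, hc, ⟨g, -, eg⟩, hcase⟩ := hC_CYCG Γ a F hF G C w0 hw0
    have e : C.π (vl w) = 1 := by simp [eg, e0]
    suffices k : vl w = 1 by
      rw [eg] at k
      have : vl w0 = g * (g⁻¹ * vl w0 * g) * g⁻¹ := by group
      rw [this, k]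
      simp
    rcases hcase with hl | ⟨c, x, m, hr, -⟩ | hcg
    · rcases w with _ | ⟨s, _ | ⟨s', w⟩⟩
      · rfl
      · have o := hw s (by simp)
        simpa using Cv.inj' o.1 o.2 (by simpa using e)
      · simp at hl
    · exfalso
      have e1 := rot_one hw hr e
      have o := (hw.rot hr).1 (.inl none, m) (by simp)
      have k1 : C.π m ∈ XF F none := C.le _ o.1 _ o.2
      have k2 : C.π x = (C.π m)⁻¹ := by
        rw [eq_inv_iff_mul_eq_one]
        simpa using e1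
      have := hz (.inr c, x) (hr.mem_iff.2 (by simp)) (k2 ▸ inv_mem k1)
      cases this
    by_cases hν : Big (C.sl w)
    swap
    · refine C.inj _ (vl_mem fun s hs => ?_) e
      have o := hw s hs
      refine Cv.to_base o.1 o.2 (std_le_M hF fun hb => hν fun k => (hb k).trans (Cv.ln_le_sl hs))
    exfalso
    have ng : ¬ Geo (C.sl w) (C.vs w) := fun k => by
      rw [Cv.geo_iff, e] at k
      exact ll_irrefl hν.pos (by simpa using k)
    obtain ⟨A, s, z, s', B, ew, -, b2, lz, ov⟩ :=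
      hC_PATHW Γ a F hF G C _ w hν hw hz.nzE (Ls.refl' _) ng
    generalize hν' : C.sl w = ν at hν lz ov b2
    have r1 : w ~r s :: (z ++ s' :: (B ++ A)) := by
      rw [ew]
      simpa using List.isRotated_append (l := A) (l' := s :: z ++ s' :: B)
    have r2 : w ~r s' :: ((B ++ A) ++ s :: z) := by
      rw [ew]
      simpa using List.isRotated_append (l := A ++ s :: z) (l' := s' :: B)
    generalize B ++ A = ρ at r1 r2
    have j1 : C.JOK s z s' := (hcg.2 _ _ r1).2 s z s' ⟨[], ρ ++ [s], by simp⟩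
    have g2 : C.Good (s' :: ρ ++ [s]) := (hcg.2 _ _ r2).sub ⟨[], z ++ [s'], by simp⟩
    have c1 : kc s.1 + (ct z + (kc s'.1 + ct ρ)) = ct w := by simpa using (hw.rot r1).2.1
    by_cases hlt : ct z + lb s.1 s'.1 < ct w
    · have li : C.Lift s.1 z s'.1 := fun r hr h1 h2 => by
        have := ih (ct (winv r ++ z)) (by simp; omega) (winv r ++ z)
          (Cv.wd_append.2 ⟨hr.winv, j1.min.1⟩) rfl (by simp [h2])
        simpa [inv_mul_eq_one] using this
      exact hC_JSHORT Γ a F hF G C ν s z s' hν j1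
        (hC_JLONG Γ a F hF G C ν s z s' hν j1.okl j1.okr j1.min li
          (hC_T Γ a F hF _ j1.min.1.mem_P _ _) ov) ov
    obtain ⟨sh, hl⟩ := short_of (g2.2 s' ρ s ⟨[], [], by simp⟩) (by omega)
    have sub : s' :: ρ ++ [s] ⊆ w := fun u hu => r2.mem_iff.2 (by
      simp only [List.mem_cons, List.mem_append, List.cons_append, List.not_mem_nil] at hu ⊢
      tauto)
    have e2 : C.π (vl (s' :: ρ ++ [s])) = (C.π (vl z))⁻¹ := by
      rw [eq_inv_iff_mul_eq_one]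
      simpa [mul_assoc] using rot_one hw r2 e
    have s2 : C.sl (s' :: ρ ++ [s]) ≤ ν := by
      have h1 := (hw.rot r2).2.2.1
      have h2 := Cv.sl_sub (C := C) (v := s' :: ρ ++ [s]) (w := s' :: (ρ ++ s :: z)) ⟨[], z, by simp⟩
      rw [← hν', ← h1]
      exact h2
    have ng2 : ¬ Geo ν (C.vs (s' :: ρ ++ [s])) := fun k => by
      have h1 := k.ls_mem hν (x := C.π s'.2) (by simp) b2
      rw [Cv.vs_prod, e2, ln_inv] at h1
      have h2 := lz.lt_of_ls h1 hν.pos 1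
      have h3 := Cv.ln_vl_le (C := C) (w := z)
      simp only [Nat.cast_one, one_mul] at h2
      exact absurd h2 (not_lt.2 h3)
    obtain ⟨A', t, y, t', B', ev, -, -, -, ov'⟩ :=
      hC_PATHW Γ a F hF G C ν _ hν g2.1 (hz.sub sub).nzE ⟨1, by simpa using s2⟩ ng2
    have j2 : C.JOK t y t' := (ev ▸ g2).jok
    refine hC_JSHORT Γ a F hF G C ν t y t' hν j2 ?_ ov'
    rcases junc ev hl with rfl | ⟨rfl, rfl, rfl⟩
    exacts [.inl rfl, sh]
  intro g hg e
  obtain ⟨w, hw, rfl⟩ := Cv.exists_word hg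
  exact main _ w hw rfl e

end Pool.Agent.P.MP_dba3d2_lc


end

section

/-! Step C_GRAPH of the stability project. -/

namespace Pool.Agent.P.MP_dba3d2_lc

open Filter

theorem p_C_GRAPH :
    S_C_GRAPH := by
  intro G G' _ _ X Y θ0 θ1 H h0 h1 hk
  -- uniqueness of the second coordinate
  have huniq : ∀ (g : G) (u v : G'), (g, u) ∈ H → (g, v) ∈ H → u = v := by
    intro g u v hu hv
    have h2 : ((g, u) : G × G')⁻¹ * (g, v) ∈ H := H.mul_mem (H.inv_mem hu) hv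
    have h3 : ((g, u) : G × G')⁻¹ * (g, v) = ((1 : G), u⁻¹ * v) := by
      ext <;> simp
    rw [h3] at h2
    exact inv_mul_eq_one.mp (hk _ h2)
  -- existence of the second coordinate
  have hle : X ⊔ Y ≤ H.map (MonoidHom.fst G G') := by
    refine sup_le ?_ ?_
    · intro x hx
      exact ⟨(x, θ0 ⟨x, hx⟩), h0 ⟨x, hx⟩, rfl⟩
    · intro y hy
      exact ⟨(y, θ1 ⟨y, hy⟩), h1 ⟨y, hy⟩, rfl⟩
  have hex : ∀ g : ↥(X ⊔ Y), ∃ u : G', ((g : G), u) ∈ H := by
    intro g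
    obtain ⟨p, hp, hpe⟩ := hle g.2
    refine ⟨p.2, ?_⟩
    have h4 : ((g : G), p.2) = p := by
      ext
      · exact hpe.symm
      · rfl
    rw [h4]
    exact hp
  choose f hf using hex
  refine ⟨MonoidHom.mk' f ?_, ?_, ?_⟩
  · intro a b
    refine huniq ((a * b : ↥(X ⊔ Y)) : G) _ _ (hf _) ?_
    exact H.mul_mem (hf a) (hf b)
  · intro x
    exact huniq (x : G) _ _ (hf ⟨x, (le_sup_left : X ≤ X ⊔ Y) x.2⟩) (h0 x)
  · intro y
    exact huniq (y : G) _ _ (hf ⟨y, (le_sup_right : Y ≤ X ⊔ Y) y.2⟩) (h1 y)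

end Pool.Agent.P.MP_dba3d2_lc


end

section

/-! Step C_EXT2 of the stability project. -/

namespace Pool.Agent.P.MP_dba3d2_lc

open Filter

namespace C_ext2A

theorem mem_sup_of_swap {G : Type} [Group G] {A B : Subgroup G}
    (h : ∀ x ∈ A, ∀ y ∈ B, ∃ x' ∈ A, ∃ y' ∈ B, y * x = x' * y') {t : G} (ht : t ∈ A ⊔ B) :
    ∃ x ∈ A, ∃ y ∈ B, t = x * y := by
  let K : Subgroup G :=
    { carrier := {t | ∃ x ∈ A, ∃ y ∈ B, t = x * y}
      one_mem' := ⟨1, one_mem _, 1, one_mem _, (mul_one _).symm⟩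
      mul_mem' := by
        rintro _ _ ⟨x, hx, y, hy, rfl⟩ ⟨x', hx', y', hy', rfl⟩
        obtain ⟨u, hu, v, hv, e⟩ := h x' hx' y hy
        exact ⟨x * u, mul_mem hx hu, v * y', mul_mem hv hy', by
          rw [mul_assoc, ← mul_assoc y, e]; group⟩
      inv_mem' := by
        rintro _ ⟨x, hx, y, hy, rfl⟩
        obtain ⟨u, hu, v, hv, e⟩ := h x⁻¹ (inv_mem hx) y⁻¹ (inv_mem hy)
        exact ⟨u, hu, v, hv, by rw [mul_inv_rev, e]⟩ }
  exact (sup_le (fun x hx => ⟨x, hx, 1, one_mem _, (mul_one _).symm⟩)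
    (fun y hy => ⟨1, one_mem _, y, hy, (one_mul _).symm⟩) : A ⊔ B ≤ K) ht

variable {Γ : HG} {a : Amb} {F : Bool → Subgroup (MM Γ a)} {G : Type} [Group G]

/-- a pair of compatible graphs -/
structure Gr (F : Bool → Subgroup (MM Γ a)) (gr : Bool → Subgroup (MM Γ a × G)) : Prop where
  le : ∀ i, ∀ z ∈ gr i, z.1 ∈ F i
  sur : ∀ i, ∀ x ∈ F i, ∃ z ∈ gr i, z.1 = x
  uniq : ∀ i j, ∀ z ∈ gr i, ∀ z' ∈ gr j, z.1 = z'.1 → z = z'
  comm : ∀ c ∈ XF F none, ¬ IsOfFinOrder c → ∀ z ∈ gr false, ∀ z' ∈ gr true, z.1 ∈ Ep c →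
    z'.1 ∈ Ep c → Commute (z.2 ^ Γ.e) z'.2

/-- the part of a graph over an elementary group -/
def pe (A : Subgroup (MM Γ a × G)) (c : MM Γ a) : Subgroup (MM Γ a × G) :=
  A ⊓ (Ep c).comap (MonoidHom.fst _ _)

/-- the groups of the cover -/
def LL (gr : Bool → Subgroup (MM Γ a × G)) : Tg Γ a → Subgroup (MM Γ a × G)
  | .inl none => gr false ⊓ gr true
  | .inl (some i) => gr i
  | .inr c => pe (gr false) c ⊔ pe (gr true) c

variable {gr : Bool → Subgroup (MM Γ a × G)}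

theorem Gr.cross (h : Gr F gr) {i j : Bool} {z : MM Γ a × G} (hz : z ∈ gr i) (k : z.1 ∈ F j) :
    z ∈ gr j := by
  obtain ⟨z', h1, h2⟩ := h.sur j _ k
  rwa [h.uniq i j z hz z' h1 h2.symm]

theorem Gr.key (h : Gr F gr) (hE : S_ELEM) (hR : S_ROOT) (hF : TwoF F) {c : MM Γ a}
    (hc : c ∈ XF F none) (hp : Prim c) {t : MM Γ a × G} (ht : t ∈ LL gr (.inr c)) :
    ∃ x ∈ pe (gr false) c, ∃ y ∈ pe (gr true) c, t = x * y := by
  refine mem_sup_of_swap (fun x hx y hy => ?_) ht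
  obtain ⟨f, f1, f2, r, f3⟩ := (hF.gc false).pur c hc.1 hp x.1 (h.le _ x hx.1) hx.2 Γ.e Γ.good.pos
  obtain ⟨x', k1, rfl⟩ := h.sur false f f1
  have c1 : c ^ r ∈ Ep c := pow_mem (self_mem_Ep c) r
  have m := hF.root3 hR hc hp.1 (mul_mem (inv_mem hx.2) (mul_mem (pow_mem f2 _) c1)) f3
  have m1 : ((x' ^ Γ.e)⁻¹ * x).1 ∈ F true := by
    have e : ((x' ^ Γ.e)⁻¹ * x).1 = c ^ r * (x.1⁻¹ * (x'.1 ^ Γ.e * c ^ r))⁻¹ := by
      change (x'.1 ^ Γ.e)⁻¹ * x.1 = _
      group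
    rw [e]
    exact (mul_mem (pow_mem hc r) (inv_mem m)).2
  have k2 : x' ^ Γ.e ∈ pe (gr false) c := pow_mem (show x' ∈ pe (gr false) c from ⟨k1, f2⟩) _
  have k3 := mul_mem (inv_mem k2) hx
  have k4 : Commute (x' ^ Γ.e) y :=
    Prod.ext ((hE Γ a c hp.1).2.2.2.2.2.2.2.1 _ f2 _ hy.2) (h.comm c hc hp.1 x' k1 y hy.1 f2 hy.2)
  exact ⟨_, k2, _, mul_mem hy ⟨h.cross k3.1 m1, k3.2⟩, by
    rw [← mul_assoc, k4.eq, mul_assoc, mul_inv_cancel_left]⟩

theorem Gr.mem (h : Gr F gr) (hE : S_ELEM) (hR : S_ROOT) (hF : TwoF F) {t : Tg Γ a}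
    (ht : TOK F (fun _ => True) t) {x : MM Γ a × G} (hx : x ∈ LL gr t) (i : Bool) (k : x.1 ∈ F i) :
    x ∈ gr i := by
  rcases t with (_ | j) | c
  · exact h.cross hx.1 k
  · exact h.cross hx k
  obtain ⟨u, hu, v, hv, rfl⟩ := h.key hE hR hF ht.1 ht.2.1 hx
  cases i
  · exact mul_mem hu.1 (h.cross hv.1 ((mul_mem_cancel_left (h.le _ u hu.1)).1 k))
  · exact mul_mem (h.cross hu.1 ((mul_mem_cancel_right (h.le _ v hv.1)).1 k)) hv.1

theorem mem_LL (i : Bool) {c : MM Γ a} {x : MM Γ a × G} (h : x ∈ pe (gr i) c) :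
    x ∈ LL gr (.inr c) := by
  cases i
  exacts [Subgroup.mem_sup_left h, Subgroup.mem_sup_right h]

theorem LL_le {c : MM Γ a} {K : Subgroup (MM Γ a × G)} (h : ∀ i, pe (gr i) c ≤ K) :
    LL gr (.inr c) ≤ K := sup_le (h false) (h true)

/-- the cover defined by the graphs -/
def Gr.cv (h : Gr F gr) (hE : S_ELEM) (hR : S_ROOT) (hF : TwoF F) : Cv F (MM Γ a × G) where
  π := MonoidHom.fst _ _
  L := LL gr
  S := fun _ => True
  s0 := trivial
  le := by
    rintro ((_ | i) | c) - x hx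
    · exact ⟨h.le _ x hx.1, h.le _ x hx.2⟩
    · exact h.le i x hx
    · exact LL_le (K := (EF F c).comap (MonoidHom.fst _ _))
        (fun i z hz => mem_EF i (h.le i z hz.1) hz.2) hx
  sur := by
    rintro ((_ | i) | c) - y hy
    · obtain ⟨z, h1, rfl⟩ := h.sur false y hy.1
      exact ⟨z, ⟨h1, h.cross h1 hy.2⟩, rfl⟩
    · exact h.sur i y hy
    · have k : ∀ i, F i ⊓ Ep c ≤ (LL gr (.inr c)).map (MonoidHom.fst _ _) := fun i y hy => by
        obtain ⟨z, h1, rfl⟩ := h.sur i y hy.1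
        exact ⟨z, mem_LL i ⟨h1, hy.2⟩, rfl⟩
      exact (sup_le (k false) (k true) : EF F c ≤ _) hy
  inj x hx e := h.uniq false false x hx.1 1 (one_mem _) e
  mem := by
    rintro t (_ | i) ht - x hx k
    · exact ⟨h.mem hE hR hF ht hx false k.1, h.mem hE hR hF ht hx true k.2⟩
    · exact h.mem hE hR hF ht hx i k
  cj c d _ _ b hb e x hx := by
    refine LL_le (K := (LL gr (.inr d)).comap (MulAut.conj b).toMonoidHom) (fun i z hz => ?_) hx
    have k : b ∈ gr i := by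
      cases i
      exacts [hb.1, hb.2]
    exact mem_LL i ⟨(gr i).mul_mem ((gr i).mul_mem k hz.1) ((gr i).inv_mem k), e.mem_Ep hz.2⟩

end C_ext2A

open C_ext2A in
theorem p_C_EXT2 (hELEM : S_ELEM) (hROOT : S_ROOT) (hC_INJ : S_C_INJ) (hC_GRAPH : S_C_GRAPH) :
    S_C_EXT2 := by
  intro Γ a F hF G _ θ0 θ1 h1 h2
  obtain ⟨θ, rfl, rfl⟩ : ∃ θ : (i : Bool) → F i →* G, θ false = θ0 ∧ θ true = θ1 :=
    ⟨fun i => Bool.rec θ0 θ1 i, rfl, rfl⟩
  have h : Gr F fun i => ((F i).subtype.prod (θ i)).range := by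
    refine ⟨?_, fun i x hx => ⟨_, ⟨⟨x, hx⟩, rfl⟩, rfl⟩, ?_, ?_⟩
    · rintro i _ ⟨x, rfl⟩
      exact x.2
    · rintro i j _ ⟨x, rfl⟩ _ ⟨y, rfl⟩ e
      refine Prod.ext e ?_
      cases i <;> cases j
      · exact congrArg (θ false) (Subtype.ext e)
      · exact h1 x y e
      · exact (h1 y x (Eq.symm e)).symm
      · exact congrArg (θ true) (Subtype.ext e)
    · rintro c hc hn _ ⟨x, rfl⟩ _ ⟨y, rfl⟩ hx hy
      exact h2 c hc hn x y hx hy
  have k : ∀ i (x : F i), ((x : MM Γ a), θ i x) ∈ (h.cv hELEM hROOT hF).PP := fun i x =>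
    Cv.L_le_PP (C := h.cv hELEM hROOT hF) (t := .inl (some i)) trivial ⟨x, rfl⟩
  exact hC_GRAPH _ G _ _ _ _ _ (k false) (k true) fun g hg =>
    congrArg Prod.snd (hC_INJ Γ a F hF _ _ _ hg rfl)

end Pool.Agent.P.MP_dba3d2_lc


end

section

/-! Step C2_TREEFIX of the stability project. -/

namespace Pool.Agent.P.MP_dba3d2_lc

open Filter

namespace C2_treefix

open SimpleGraph

variable {X : Type} {Δ : SimpleGraph X} {y a b v z : X}

theorem parent (h : Δ.IsAcyclic) (ha : Δ.Adj a v) (hb : Δ.Adj b v) (hr : Δ.Reachable y v)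
    (h1 : Δ.dist y v = Δ.dist y a + 1) (h2 : Δ.dist y v = Δ.dist y b + 1) : a = b := by
  obtain ⟨p, hp⟩ := (hr.trans ha.symm.reachable).exists_walk_length_eq_dist
  obtain ⟨q, hq⟩ := (hr.trans hb.symm.reachable).exists_walk_length_eq_dist
  have e := congrArg (fun w : Δ.Path y v => w.1.penultimate) (h.path_unique
    ⟨p.concat ha, Walk.isPath_of_length_eq_dist _ (by rw [Walk.length_concat, hp, h1])⟩
    ⟨q.concat hb, Walk.isPath_of_length_eq_dist _ (by rw [Walk.length_concat, hq, h2])⟩)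
  simpa using e

theorem up (h : Δ.IsAcyclic) (q : Δ.Walk b z) : ∀ {a : X} (ha : Δ.Adj a b),
    (Walk.cons ha q).IsPath → Δ.Reachable y b → Δ.dist y b = Δ.dist y a + 1 →
      Δ.dist y z = Δ.dist y b + q.length := by
  induction q with
  | nil => simp
  | cons hb q ih =>
    intro a ha hp hr e
    rw [Walk.cons_isPath_iff] at hp
    rcases h.dist_eq_dist_add_one_of_adj_of_reachable y hb hr with e' | e'
    · obtain rfl := parent h ha hb.symm hr e e'
      simp at hp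
    · rw [ih hb hp.1 (hr.trans hb.reachable) e', e', Walk.length_cons]
      omega

end C2_treefix

open SimpleGraph C2_treefix in
theorem p_C2_TREEFIX :
    S_C2_TREEFIX := by
  intro G X _ _ Δ col K x₀ hΔ hK hA hc hb hr
  have := Fintype.ofFinite K
  have m1 : ∀ k ∈ K, ∀ u v, Δ.Reachable u v → Δ.Reachable (k • u) (k • v) ∧
      Δ.dist (k • u) (k • v) ≤ Δ.dist u v := fun k hk u v h => by
    obtain ⟨p, hp⟩ := h.exists_walk_length_eq_dist
    have q := p.map (G' := Δ) ⟨fun x => k • x, fun e => hA k hk _ _ e⟩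
    exact ⟨⟨q⟩, (dist_le (p.map (G' := Δ) ⟨fun x => k • x, fun e => hA k hk _ _ e⟩)).trans_eq
      ((Walk.length_map _ _).trans hp)⟩
  obtain ⟨x, hx, hm⟩ := (measure fun x => Finset.univ.sup fun k : K =>
    Δ.dist ((k : G) • x₀) x).wf.has_min {x | Δ.Reachable x₀ x} ⟨x₀, Reachable.refl _⟩
  refine ⟨x, hx, fun k hk => by_contra fun hne => ?_⟩
  have r1 : ∀ j ∈ K, Δ.Reachable (j • x₀) x := fun j hj => (hr j hj).symm.trans hx
  obtain ⟨p, hp, hl⟩ := ((r1 k hk).symm.trans (m1 k hk _ _ hx).1).exists_path_of_dist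
  have l2 := ((r1 k hk).symm.trans (m1 k hk _ _ hx).1).one_lt_dist_of_ne_of_not_adj
    (Ne.symm hne) fun e => hb _ _ e (hc k hk x).symm
  have le : ∀ j ∈ K, Δ.dist (j • x₀) x ≤ Finset.univ.sup fun k : K =>
      Δ.dist ((k : G) • x₀) x := fun j hj =>
    Finset.le_sup (f := fun k : K => Δ.dist ((k : G) • x₀) x) (Finset.mem_univ ⟨j, hj⟩)
  have le' : ∀ j ∈ K, Δ.dist (j • x₀) (k • x) ≤ Finset.univ.sup fun k : K =>
      Δ.dist ((k : G) • x₀) x := fun j hj => by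
    have h1 := K.mul_mem (K.inv_mem hk) hj
    have h2 := (m1 k hk _ _ (r1 _ h1)).2
    rw [smul_smul, mul_inv_cancel_left] at h2
    exact h2.trans (le _ h1)
  generalize k • x = z at p hp hl l2 le'
  cases p with
  | nil => simp at l2
  | @cons _ m _ ha q =>
    have key : ∀ j ∈ K, Δ.dist (j • x₀) m < Finset.univ.sup fun k : K =>
        Δ.dist ((k : G) • x₀) x := fun j hj => by
      have a1 := le j hj
      have a2 := le' j hj
      rcases hΔ.dist_eq_dist_add_one_of_adj_of_reachable _ ha (r1 j hj) with e | e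
      · omega
      · have := up hΔ q ha hp ((r1 j hj).trans ha.reachable) e
        rw [Walk.length_cons] at hl
        omega
    exact hm m (hx.trans ha.reachable) ((Finset.sup_lt_iff
      ((Nat.zero_le _).trans_lt (key 1 K.one_mem))).2 fun j _ => key j j.2)

end Pool.Agent.P.MP_dba3d2_lc


end

section

/-! Step C2_BIP of the stability project. -/

namespace Pool.Agent.P.MP_dba3d2_lc

open Filter

namespace C2_bip

variable {V W : Type}

/-- the incidence relation on the disjoint union -/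
def rel (adj : V → W → Prop) : V ⊕ W → V ⊕ W → Prop
  | .inl v, .inr w => adj v w
  | .inr w, .inl v => adj v w
  | _, _ => False

/-- the incidence graph -/
def gr (adj : V → W → Prop) : SimpleGraph (V ⊕ W) where
  Adj := rel adj
  symm := ⟨fun x y h => by cases x <;> cases y <;> exact h⟩
  loopless := ⟨fun x h => by cases x <;> exact h⟩

variable {adj : V → W → Prop}

theorem chain : ∀ (n : ℕ) (x y : V ⊕ W) (p : (gr adj).Walk x y), p.length ≤ n → p.edges.Nodup →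
    ∀ v v', x = .inl v → y = .inl v' → 0 < p.length →
      ∃ w, s(Sum.inl v, Sum.inr w) ∈ p.edges ∧ RCh adj v w v' := by
  intro n
  induction n with
  | zero => intro x y p h _ v v' _ _ h'; omega
  | succ n ih =>
    intro x y p hn hp v v' hx hy h0
    subst hx
    cases p with
    | nil => simp at h0
    | @cons _ z _ h q =>
      cases z with
      | inl _ => exact h.elim
      | inr w =>
        cases q with
        | nil => cases hy
        | @cons _ z' _ h' r =>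
          cases z' with
          | inr _ => exact h'.elim
          | inl v₁ =>
            simp only [SimpleGraph.Walk.edges_cons, List.nodup_cons, List.mem_cons, not_or] at hp
            have hv : v ≠ v₁ := by
              rintro rfl
              exact hp.1.1 Sym2.eq_swap
            refine ⟨w, by simp, ?_⟩
            by_cases hr : 0 < r.length
            · obtain ⟨w', h1, h2⟩ := ih _ _ r (by simp at hn; omega) hp.2.2 v₁ v' rfl hy hr
              refine RCh.cons h h' hv ?_ h2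
              rintro rfl
              exact hp.2.1 (Sym2.eq_swap ▸ h1)
            · have e := SimpleGraph.Walk.eq_of_length_eq_zero (p := r) (by omega)
              rw [hy] at e
              cases e
              exact RCh.one h h' hv

theorem acyclic (h : ∀ v w v', RCh adj v w v' → v ≠ v') : (gr adj).IsAcyclic := by
  intro x c hc
  have h1 := hc.isTrail.edges_nodup
  have h2 := hc.three_le_length
  cases x with
  | inl v =>
    obtain ⟨w, -, h3⟩ := chain _ _ _ c le_rfl h1 v v rfl rfl (by omega)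
    exact h _ _ _ h3 rfl
  | inr w =>
    cases c with
    | nil => simp at h2
    | @cons _ z _ a q =>
      cases z with
      | inr _ => exact a.elim
      | inl v =>
        obtain ⟨w, -, h3⟩ := chain _ _ _ (q.concat a) le_rfl (by
          rw [SimpleGraph.Walk.edges_concat, List.concat_eq_append]
          exact (List.perm_append_singleton _ _).nodup_iff.mpr h1) v v rfl rfl (by simp)
        exact h _ _ _ h3 rfl

theorem reach {v v' : V} (h : Conn adj v v') : (gr adj).Reachable (.inl v) (.inl v') := by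
  induction h with
  | refl => rfl
  | tail _ h ih =>
    obtain ⟨w, h1, h2⟩ := h
    exact (ih.trans (SimpleGraph.Adj.reachable (G := gr adj) (v := .inr w) h1)).trans
      (SimpleGraph.Adj.reachable (G := gr adj) (u := .inr w) h2)

theorem conn {v : V} {x : V ⊕ W} (h : (gr adj).Reachable (.inl v) x) :
    (∀ v', x = .inl v' → Conn adj v v') ∧
      ∀ w, x = .inr w → ∃ v', Conn adj v v' ∧ adj v' w := by
  rw [SimpleGraph.reachable_iff_reflTransGen] at h
  induction h with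
  | refl =>
    refine ⟨fun v' e => ?_, fun w e => by cases e⟩
    cases e
    exact Relation.ReflTransGen.refl
  | @tail y z _ h ih =>
    refine ⟨?_, ?_⟩
    · rintro v' rfl
      cases y with
      | inl _ => exact h.elim
      | inr w =>
        obtain ⟨v₁, h1, h2⟩ := ih.2 w rfl
        exact h1.tail ⟨w, h2, h⟩
    · rintro w rfl
      cases y with
      | inr _ => exact h.elim
      | inl v₁ => exact ⟨v₁, ih.1 v₁ rfl, h⟩

end C2_bip

open C2_bip in
theorem p_C2_BIP (hC2_TREEFIX : S_C2_TREEFIX) :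
    S_C2_BIP := by
  intro G V W _ _ _ adj K v₀ h1 h2 h3 h4
  obtain ⟨x, hx, hk⟩ := hC2_TREEFIX G (V ⊕ W) (gr adj) Sum.isLeft K (.inl v₀) (acyclic h1) h2
    (fun k hk x y h => by
      cases x <;> cases y
      · exact h.elim
      · exact h3 k hk _ _ h
      · exact h3 k hk _ _ h
      · exact h.elim)
    (fun k _ x => by cases x <;> rfl)
    (fun x y h => by
      cases x <;> cases y
      · exact h.elim
      · simp
      · simp
      · exact h.elim)
    (fun k hk => reach (h4 k hk))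
  cases x with
  | inl v => exact ⟨v, (conn hx).1 v rfl, Or.inl fun k h => Sum.inl_injective (hk k h)⟩
  | inr w =>
    obtain ⟨v, a1, a2⟩ := (conn hx).2 w rfl
    exact ⟨v, a1, Or.inr ⟨w, a2, fun k h => Sum.inr_injective (hk k h)⟩⟩

end Pool.Agent.P.MP_dba3d2_lc


end

section

/-! Step C2_STARFIN of the stability project. -/

namespace Pool.Agent.P.MP_dba3d2_lc

open Filter

namespace C2StarfinA

variable {G ι : Type} [Group G] {B : Subgroup G} {A : ι → Subgroup G} {Q : ι → G → ι → Prop}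

/-- the hypotheses on the pinch relation -/
structure Hyp (B : Subgroup G) (A : ι → Subgroup G) (Q : ι → G → ι → Prop) : Prop where
  h1 : ∀ i, ∀ b ∈ B, b ∈ A i ↔ Q i b i
  h2 : ∀ i b j, Q i b j → Q j b⁻¹ i
  h3 : ∀ i b j b' k, Q i b j → Q j b' k → Q i (b * b') k
  h4 : ∀ i b j, Q i b j → ∀ x ∈ A j, b * x * b⁻¹ ∈ A i

/-- the edge vertices are classes of pairs -/
def st (H : Hyp B A Q) : Setoid (G × ι) where
  r p q := ∃ x ∈ A p.2, ∃ b ∈ B, p.1⁻¹ * q.1 = x * b ∧ Q p.2 b q.2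
  iseqv :=
    { refl := fun p => ⟨1, one_mem _, 1, one_mem _, by simp, (H.h1 _ 1 (one_mem _)).1 (one_mem _)⟩
      symm := fun {p q} ⟨x, hx, b, hb, e, h⟩ =>
        ⟨b⁻¹ * x⁻¹ * b⁻¹⁻¹, H.h4 _ _ _ (H.h2 _ _ _ h) _ (inv_mem hx), b⁻¹, inv_mem hb,
          by rw [← inv_inj, mul_inv_rev, inv_inv, e]; group, H.h2 _ _ _ h⟩
      trans := fun {p q r} ⟨x, hx, b, hb, e, h⟩ ⟨x', hx', b', hb', e', h'⟩ =>
        ⟨x * (b * x' * b⁻¹), mul_mem hx (H.h4 _ _ _ h _ hx'), b * b', mul_mem hb hb',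
          by rw [show p.1⁻¹ * r.1 = p.1⁻¹ * q.1 * (q.1⁻¹ * r.1) by group, e, e']; group,
          H.h3 _ _ _ _ _ h h'⟩ }

/-- left multiplication on the edge vertices -/
@[reducible] def act (H : Hyp B A Q) : MulAction G (Quotient (st H)) where
  smul k := Quotient.map (fun p => (k * p.1, p.2)) fun p q ⟨x, hx, b, hb, e, h⟩ =>
    ⟨x, hx, b, hb, by rw [← e]; group, h⟩
  one_smul w := Quotient.inductionOn w fun p =>
    show Quotient.mk (st H) (1 * p.1, p.2) = _ by rw [one_mul]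
  mul_smul k k' w := Quotient.inductionOn w fun p =>
    show Quotient.mk (st H) (k * k' * p.1, p.2) = Quotient.mk (st H) (k * (k' * p.1), p.2) by
      rw [mul_assoc]

/-- incidence -/
def adj (H : Hyp B A Q) (v : G ⧸ B) (w : Quotient (st H)) : Prop :=
  ∃ (g : G) (i : ι), v = (g : G ⧸ B) ∧ w = Quotient.mk (st H) (g, i)

theorem step (H : Hyp B A Q) {v v' : G ⧸ B} {w : Quotient (st H)} (h : adj H v w)
    (h' : adj H v' w) (hne : v ≠ v') {g : G} (hg : v = (g : G ⧸ B)) :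
    ∃ b ∈ B, ∃ i, ∃ x ∈ A i, x ∉ B ∧ v' = ((g * b * x : G) : G ⧸ B) ∧
      w = Quotient.mk (st H) (g * b, i) := by
  obtain ⟨g1, i, rfl, rfl⟩ := h
  obtain ⟨g2, j, rfl, e⟩ := h'
  obtain ⟨x, hx, b, hb, e1, -⟩ := Quotient.exact e
  have e2 : g * (g⁻¹ * g1) = g1 := by group
  have e3 : g2 = g1 * x * b := by rw [mul_assoc, ← e1]; group
  refine ⟨g⁻¹ * g1, QuotientGroup.eq.1 hg.symm, i, x, hx, fun hxB => hne ?_, ?_, by rw [e2]⟩
  · exact QuotientGroup.eq.2 (e1 ▸ mul_mem hxB hb)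
  · rw [e2, e3]
    exact QuotientGroup.mk_mul_of_mem _ hb

theorem word (H : Hyp B A Q) {v v' : G ⧸ B} {w : Quotient (st H)} (h : RCh (adj H) v w v') :
    ∀ g : G, v = (g : G ⧸ B) → ∃ (s : G × ι × G) (l : List (G × ι × G)),
      (∀ t ∈ s :: l, t.1 ∈ B ∧ t.2.2 ∈ A t.2.1 ∧ t.2.2 ∉ B) ∧
      (s :: l).IsChain (fun t t' => ¬ Q t.2.1 t'.1 t'.2.1) ∧
      v' = ((g * ((s :: l).map fun t => t.1 * t.2.2).prod : G) : G ⧸ B) ∧
      w = Quotient.mk (st H) (g * s.1, s.2.1) := by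
  induction h with
  | one h h' hne =>
    intro g hg
    obtain ⟨b, hb, i, x, hx, hxB, e1, e2⟩ := step H h h' hne hg
    exact ⟨(b, i, x), [], by simpa using ⟨hb, hx, hxB⟩, by simp, by simpa [mul_assoc] using e1, e2⟩
  | cons h h' hne hw _ ih =>
    intro g hg
    obtain ⟨b, hb, i, x, hx, hxB, e1, e2⟩ := step H h h' hne hg
    obtain ⟨s, l, k1, k2, k3, k4⟩ := ih _ e1
    refine ⟨(b, i, x), s :: l, fun t ht => ?_, List.IsChain.cons_cons (fun hQ => hw ?_) k2, ?_, e2⟩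
    · rcases List.mem_cons.1 ht with rfl | ht
      exacts [⟨hb, hx, hxB⟩, k1 t ht]
    · rw [e2, k4]
      exact Quotient.sound ⟨x, hx, s.1, (k1 s List.mem_cons_self).1, by group, hQ⟩
    · rw [k3]
      simp only [List.map_cons, List.prod_cons, mul_assoc]

theorem conn_symm {V W : Type} {a : V → W → Prop} {v v' : V} (h : Conn a v v') : Conn a v' v := by
  induction h with
  | refl => exact Relation.ReflTransGen.refl
  | tail _ h ih =>
    obtain ⟨w, h1, h2⟩ := h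
    exact Relation.ReflTransGen.head ⟨w, h2, h1⟩ ih

theorem conn_of_mem (H : Hyp B A Q) {t : G} (ht : t ∈ B ⊔ ⨆ i, A i) (g : G) :
    Conn (adj H) (g : G ⧸ B) ((g * t : G) : G ⧸ B) := by
  let T : Subgroup G :=
    { carrier := {t | ∀ g : G, Conn (adj H) (g : G ⧸ B) ((g * t : G) : G ⧸ B)}
      one_mem' := fun g => by rw [mul_one]; exact Relation.ReflTransGen.refl
      mul_mem' := fun {a b} ha hb g => by
        rw [← mul_assoc]; exact Relation.ReflTransGen.trans (ha g) (hb _)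
      inv_mem' := fun {a} ha g => by
        have := conn_symm (ha (g * a⁻¹))
        rwa [inv_mul_cancel_right] at this }
  have hT : B ⊔ ⨆ i, A i ≤ T := sup_le (fun b hb g => by
      rw [QuotientGroup.mk_mul_of_mem _ hb]; exact Relation.ReflTransGen.refl)
    (iSup_le fun i x hx g => Relation.ReflTransGen.single
      ⟨Quotient.mk (st H) (g, i), ⟨g, i, rfl, rfl⟩, g * x, i, rfl, Quotient.sound
        ⟨x, hx, 1, one_mem _, by group, (H.h1 _ 1 (one_mem _)).1 (one_mem _)⟩⟩)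
  exact hT ht g

theorem mem_of_conn (H : Hyp B A Q) {v : G ⧸ B} (h : Conn (adj H) ((1 : G) : G ⧸ B) v) :
    ∃ p ∈ B ⊔ ⨆ i, A i, v = (p : G ⧸ B) := by
  induction h with
  | refl => exact ⟨1, one_mem _, rfl⟩
  | @tail v v' _ h ih =>
    obtain ⟨w, h1, h2⟩ := h
    obtain ⟨p, hp, e⟩ := ih
    by_cases hne : v = v'
    · exact ⟨p, hp, hne ▸ e⟩
    · obtain ⟨b, hb, i, x, hx, -, e1, -⟩ := step H h1 h2 hne e
      exact ⟨p * b * x, mul_mem (mul_mem hp (Subgroup.mem_sup_left hb))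
        (Subgroup.mem_sup_right (Subgroup.mem_iSup_of_mem i hx)), e1⟩

end C2StarfinA

open C2StarfinA in
theorem p_C2_STARFIN (hC2_BIP : S_C2_BIP) :
    S_C2_STARFIN := by
  intro G _ B ι A Q h1 h2 h3 h4 h5 K hK hfin
  have H : Hyp B A Q := ⟨h1, h2, h3, h4⟩
  let _ := act H
  obtain ⟨v, hv, hfix⟩ := hC2_BIP G (G ⧸ B) (Quotient (st H)) (adj H) K ((1 : G) : G ⧸ B)
    (fun v w v' h e => by
      obtain ⟨g, rfl⟩ := QuotientGroup.mk_surjective v
      obtain ⟨s, l, k1, k2, k3, -⟩ := word H h g rfl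
      refine h5 (s :: l) (List.cons_ne_nil _ _) k1 k2 ?_
      have := QuotientGroup.eq.1 (e.trans k3)
      rwa [inv_mul_cancel_left] at this) hfin
    (fun k _ v w h => by
      obtain ⟨g, i, rfl, rfl⟩ := h
      exact ⟨k * g, i, rfl, rfl⟩)
    (fun k hk => by
      have := conn_of_mem H (hK hk) 1
      rw [one_mul, ← mul_one k] at this
      exact this)
  obtain ⟨p, hp, rfl⟩ := mem_of_conn H hv
  rcases hfix with h | ⟨w, ⟨g, i, e, rfl⟩, h⟩
  · refine ⟨p, hp, Or.inl fun k hk => ?_⟩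
    have : (p : G ⧸ B) = ((k * p : G) : G ⧸ B) := (h k hk).symm
    rw [mul_assoc]
    exact QuotientGroup.eq.1 this
  · refine ⟨g, ?_, Or.inr ⟨i, fun k hk => ?_⟩⟩
    · have := mul_mem hp (Subgroup.mem_sup_left (QuotientGroup.eq.1 e))
      rwa [mul_inv_cancel_left] at this
    · have : Quotient.mk (st H) (g, i) = Quotient.mk (st H) (k * g, i) := (h k hk).symm
      obtain ⟨x, hx, b, hb, e1, hQ⟩ := Quotient.exact this
      rw [mul_assoc]
      exact e1 ▸ mul_mem hx ((h1 i b hb).2 hQ)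

end Pool.Agent.P.MP_dba3d2_lc


end

section

/-! Step C_AM2 of the stability project. -/

namespace Pool.Agent.P.MP_dba3d2_lc

open Filter

theorem p_C_AM2 (hC2_STARFIN : S_C2_STARFIN) :
    S_C_AM2 := by
  intro G _ A C hC hR K hK hF
  have e : C ⊔ ⨆ i, A i = A false ⊔ A true := by
    rw [iSup_bool_eq, sup_comm (A true)]
    exact sup_eq_right.2 ((hC false).trans le_sup_left)
  obtain ⟨p, hp, h⟩ := hC2_STARFIN G C Bool A (fun i b j => i = j ∧ b ∈ C)
    (fun i b hb => iff_of_true (hC i hb) ⟨rfl, hb⟩) (fun i b j h => ⟨h.1.symm, inv_mem h.2⟩)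
    (fun i b j b' k h h' => ⟨h.1.trans h'.1, mul_mem h.2 h'.2⟩)
    (fun i b j h x hx => mul_mem (mul_mem (hC i h.2) (h.1 ▸ hx)) (inv_mem (hC i h.2)))
    (fun l hl h1 h2 => by
      have k := hR (l.map fun s => (s.2.1, s.1 * s.2.2)) (by simpa using hl) (fun s hs => by
        obtain ⟨t, ht, rfl⟩ := List.mem_map.1 hs
        obtain ⟨a, b, c⟩ := h1 t ht
        exact ⟨mul_mem (hC _ a) b, fun k => c ((C.mul_mem_cancel_left a).1 k)⟩) (by
        rw [List.isChain_map]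
        exact h2.imp_of_mem_imp fun s s' _ hs' k e => k ⟨e, (h1 s' hs').1⟩)
      rwa [List.map_map] at k) K (e ▸ hK) hF
  refine ⟨p, e ▸ hp, ?_⟩
  rcases h with h | h
  exacts [⟨false, fun k hk => hC false (h k hk)⟩, h]

end Pool.Agent.P.MP_dba3d2_lc


end

section

/-! Step C_UP of the stability project. -/

namespace Pool.Agent.P.MP_dba3d2_lc

open Filter

namespace C_upA

/-- restriction of an extension to the join -/
theorem fin {H G : Type} [Group H] [Group G] {X Y Z C P : Subgroup H} (hP : X ⊔ Y ≤ P)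
    (hZ : Z ≤ Y) (hCX : C ≤ X) (hCY : C ≤ Y) (hY : Y ≤ Z ⊔ C) (θ0 : X →* G) (θ1 : Y →* G)
    (h : ∀ (x : X) (y : Y), (x : H) ∈ C → (x : H) = y → θ0 x = θ1 y) (θ : P →* G)
    (h0 : ∀ (x : X) (p : P), (p : H) = x → θ p = θ0 x)
    (h1 : ∀ (y : Y) (p : P), (y : H) ∈ Z → (p : H) = y → θ p = θ1 y) :
    ∃ θ' : ↥(X ⊔ Y) →* G, (∀ x : X, θ' ⟨x, (le_sup_left : X ≤ X ⊔ Y) x.2⟩ = θ0 x) ∧
      ∀ y : Y, θ' ⟨y, (le_sup_right : Y ≤ X ⊔ Y) y.2⟩ = θ1 y := by
  have hYP : Y ≤ P := le_sup_right.trans hP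
  refine ⟨θ.comp (Subgroup.inclusion hP), fun x => h0 x _ rfl, fun y => ?_⟩
  have k : Z ⊔ C ≤ ((θ.comp (Subgroup.inclusion hYP)).eqLocus θ1).map Y.subtype := by
    refine sup_le (fun z hz => ⟨⟨z, hZ hz⟩, h1 _ _ hz rfl, rfl⟩) fun z hz => ⟨⟨z, hCY hz⟩, ?_, rfl⟩
    exact (h0 ⟨z, hCX hz⟩ _ rfl).trans (h _ _ hz rfl)
  obtain ⟨y', e1, e2⟩ := k (hY y.2)
  obtain rfl : y' = y := Subtype.ext e2
  exact e1

variable {Γ : HG} {a : Amb} {F : Bool → Subgroup (MM Γ a)}

theorem mem_MI (hR : S_ROOT) (h : TwoF F) (i : Bool) {c x : MM Γ a} (hc : c ∈ XF F none)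
    (h1 : ¬ IsOfFinOrder c) (hx : x ∈ F i) (hx' : x ∈ Ep c) : x ∈ MI F i := by
  obtain ⟨c0, k1, k2, k3⟩ := (hR Γ a _ (h.gcx none)).1 c hc h1
  obtain ⟨p, p1, p2, p3, p4, p5⟩ := h.cenx k1 k2
  have a1 : p⁻¹ * x * p ∈ F i ⊓ Ep (p⁻¹ * c0 * p) :=
    ⟨(F i).mul_mem ((F i).mul_mem ((F i).inv_mem (M_le_F i p1)) hx) (M_le_F i p1),
      p5.mem_Ep' (k3 ▸ hx')⟩
  have a2 : p⁻¹ * x * p ∈ MI F i :=
    Subgroup.mem_sup_right
      ((le_iSup₂ (f := fun c (_ : c ∈ PM F) => F i ⊓ Ep c) (p⁻¹ * c0 * p) ⟨p2, p3, p4⟩) a1)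
  have a3 : p ∈ MI F i := Subgroup.mem_sup_left p1
  have e : x = p * (p⁻¹ * x * p) * p⁻¹ := by group
  rw [e]
  exact mul_mem (mul_mem a3 a2) (inv_mem a3)

theorem MI_le_F (i : Bool) : MI F i ≤ F i :=
  sup_le (M_le_F i) (iSup₂_le fun _ _ => inf_le_left)

theorem MI_le_NS (i : Bool) : MI F i ≤ NS F (PM F) :=
  sup_le_sup_left (iSup₂_mono fun _ _ _ hx => mem_EF i hx.1 hx.2) _

theorem NS_le (i : Bool) : NS F (PM F) ⊔ F (!i) ≤ F (!i) ⊔ MI F i := by
  refine sup_le (sup_le ((M_le_F _).trans le_sup_left) (iSup₂_le fun c hc => ?_)) le_sup_left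
  have k1 : F i ⊓ Ep c ≤ F (!i) ⊔ MI F i :=
    (le_iSup₂ (f := fun c (_ : c ∈ PM F) => F i ⊓ Ep c) c hc).trans
      (le_sup_right.trans le_sup_right)
  have k2 : F (!i) ⊓ Ep c ≤ F (!i) ⊔ MI F i := inf_le_left.trans le_sup_left
  cases i
  exacts [sup_le k1 k2, sup_le k2 k1]

theorem le_P (i : Bool) : F i ⊔ (NS F (PM F) ⊔ F (!i)) ≤ F false ⊔ F true :=
  sup_le (F_le_P i) ((NS_le i).trans (sup_le (F_le_P _) ((MI_le_F i).trans (F_le_P i))))

end C_upA

open C_upA in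
theorem p_C_UP (hELEM : S_ELEM) (hROOT : S_ROOT) (hC_EXT2 : S_C_EXT2) :
    S_C_UP := by
  intro Γ a F hF i G _ θ0 θ1 hθ
  have hCY : MI F i ≤ NS F (PM F) ⊔ F (!i) := (MI_le_NS i).trans le_sup_left
  have hZ : F (!i) ≤ NS F (PM F) ⊔ F (!i) := le_sup_right
  have ag : ∀ (x : F i) (y : F (!i)), (x : MM Γ a) = y →
      θ0 x = θ1.comp (Subgroup.inclusion hZ) y := fun x y e =>
    hθ x _ (Subgroup.mem_sup_left ((mem_M_iff i).2 ⟨x.2, e ▸ y.2⟩)) e
  have cm : ∀ c ∈ XF F none, ¬ IsOfFinOrder c → ∀ (x : F i) (y : F (!i)),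
      (x : MM Γ a) ∈ Ep c → (y : MM Γ a) ∈ Ep c →
      Commute (θ0 x ^ Γ.e) (θ1.comp (Subgroup.inclusion hZ) y) ∧
        Commute (θ1.comp (Subgroup.inclusion hZ) y ^ Γ.e) (θ0 x) := by
    intro c hc h1 x y hx hy
    have m := mem_MI hROOT hF i hc h1 x.2 hx
    have e8 := (hELEM Γ a c h1).2.2.2.2.2.2.2.1
    rw [hθ x ⟨x, hCY m⟩ m rfl, MonoidHom.comp_apply, ← map_pow, ← map_pow]
    refine ⟨Commute.map ?_ θ1, Commute.map ?_ θ1⟩
    · exact Subtype.ext (e8 _ hx _ hy).eq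
    · exact Subtype.ext (e8 _ hy _ hx).eq
  have key : ∃ θ : ↥(F false ⊔ F true) →* G,
      (∀ x : F i, θ ⟨x, F_le_P i x.2⟩ = θ0 x) ∧
      ∀ y : F (!i), θ ⟨y, F_le_P _ y.2⟩ = θ1.comp (Subgroup.inclusion hZ) y := by
    cases i
    · exact hC_EXT2 Γ a F hF G θ0 _ ag fun c hc h1 x y hx hy => (cm c hc h1 x y hx hy).1
    · obtain ⟨θ, k1, k2⟩ := hC_EXT2 Γ a F hF G _ θ0 (fun x y e => (ag y x e.symm).symm)
        fun c hc h1 x y hx hy => (cm c hc h1 y x hy hx).2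
      exact ⟨θ, k2, k1⟩
  obtain ⟨θ, k1, k2⟩ := key
  refine fin (le_P i) hZ (MI_le_F i) hCY (NS_le i) θ0 θ1 hθ θ (fun x p e => ?_) fun y p hy e => ?_
  · rw [← k1 x]
    exact congrArg θ (Subtype.ext e)
  · exact (congrArg θ (Subtype.ext e)).trans (k2 ⟨y, hy⟩)

end Pool.Agent.P.MP_dba3d2_lc


end
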