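import Pool.Agent.P.MP_dba3d2_lcM.Ab05
import Pool.Agent.P.MP_dba3d2_lcM.Bb10
import Pool.Agent.P.MP_dba3d2_lcM.Cb11
import Pool.Agent.P.MP_dba3d2_lcM.Cb12
import Pool.Agent.P.MP_dba3d2_lcM.Cb13
import Pool.Agent.P.MP_dba3d2_lcM.Cb18

section

/-! Step C_G20S of the stability project. -/

namespace Pool.Agent.P.MP_dba3d2_lc

open Filter

theorem p_C_G20S (hELEM : S_ELEM) (hLINE : S_LINE) (hPERC : S_PERC) (hC_ARC : S_C_ARC) (hC_REDX : S_C_REDX) (hC_NFE : S_C_NFE) :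
    S_C_G20S := by
  rintro Γ a F hF μ hμ h hh hl p q hn hp hq ⟨g, hg, sg⟩
  obtain ⟨w, hw, rfl⟩ := (hC_NFE Γ a F hF).1 h hh
  have fin : ∀ z b : MM Γ a, Prim b → Ep (z * b * z⁻¹) = Ep g → Stab μ p q (z * b * z⁻¹) :=
    fun z b hb e => ⟨(hb.conj z).fix hELEM hLINE hg e sg.1, (hb.conj z).fix hELEM hLINE hg e sg.2⟩
  obtain ⟨L₁, x, L₂, p', q', e, ⟨n', s'⟩, h1, h2⟩ := (Geo.cut hμ
    (fun p' q' => Ls μ (ds p' q') ∧ Stab μ p' q' g) False (fun _ _ k => k.1)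
    (fun p' q' m k hm => (Ls.add_cases (k.1.mono_right (ds_tri p' m q'))).imp
      (fun l => ⟨l, k.2.sub hμ (on_left hμ.pos.le _ _) hm⟩)
      fun l => .inl ⟨l, k.2.sub hμ hm (on_right hμ.pos.le _ _)⟩)
    _ 1 p q (hw.geo' hμ hl) (by rwa [idC_prod, one_mul]) (by rwa [idC_prod, one_mul])
    ⟨hn, sg⟩).resolve_left id
  obtain ⟨w1, w2, rfl, rfl, e2⟩ := List.map_eq_append_iff.1 e
  obtain ⟨⟨t, y⟩, w3, rfl, rfl, -⟩ := List.map_eq_cons_iff.1 e2
  have ez : (w1.map fun s => (idC F).π s.2).prod = vl w1 := idC_prod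
  rw [ez, one_mul, idC_π] at h1 h2
  have hz : vl w1 ∈ F false ⊔ F true := (Cv.wd_append.1 hw.wd).1.mem_P
  have ok := hw.wd (t, y) (by simp)
  have ly : Ls (ln y) μ := by
    refine Ls.mono_left ?_ (hw.ls hμ hl)
    simpa using Cv.sl_sub (C := idC F) (single_sub (show (t, y) ∈ w1 ++ (t, y) :: w3 by simp))
  have k1 : On μ ((vl w1)⁻¹ * p') 1 y := by simpa using h1.mul (vl w1)⁻¹
  have k2 : On μ ((vl w1)⁻¹ * q') 1 y := by simpa using h2.mul (vl w1)⁻¹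
  have n2 : Ls μ (ds ((vl w1)⁻¹ * p') ((vl w1)⁻¹ * q')) := by rwa [ds_mul_left]
  have key : ∀ b, Prim b → Stab μ ((vl w1)⁻¹ * p') ((vl w1)⁻¹ * q') b →
      Ep (vl w1 * b * (vl w1)⁻¹) = Ep g := fun b hb sb =>
    Ep_eq_of_stab hELEM hPERC hμ n' (hb.conj _).1 hg (by simpa using (stab_conj (vl w1)).2 sb) s'
  rcases t with o | c
  · obtain ⟨b, b1, b2, b3⟩ := (hF.gcx o).g20 μ hμ y ok.2 ly _ _ n2 k1 k2
      ((per_mul_iff _).2 ⟨g, hg, s'⟩)
    obtain ⟨o1, d, d1, -, u, hu, -, -, -, -, -, d2, -⟩ :=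
      hC_REDX Γ a F hF o o b b1 b b1 b2 b2 1 (Cj.one_iff.2 rfl)
    exact ⟨vl w1 * u, mul_mem hz (XF_le_P o hu), o1, d, d1,
      fin _ _ d1.2.1 (Cj.mul (key b b2 b3) d2)⟩
  · have nb := hw.nz.big (s := (.inr c, y)) (by simp) hμ (by simpa using On.nondeg hμ k1 k2 n2)
    have sc : Stab μ _ _ c := hC_ARC Γ a F hF μ (.inr c) y _ _ hμ ok.1 ok.2 nb ly k1 k2
    exact ⟨vl w1, hz, none, c, ⟨ok.1.1, ok.1.2.1, ok.1.2.2, fun k => absurd rfl k⟩,
      fin _ _ ok.1.2.1 (key c ok.1.2.1 sc)⟩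

end Pool.Agent.P.MP_dba3d2_lc


end

section

/-! Step C_DISP of the stability project. -/

namespace Pool.Agent.P.MP_dba3d2_lc

open Filter

namespace C_dispA

variable {Γ : HG} {a : Amb} {b c : MM Γ a} {k : a.Z}

theorem key (hE : S_ELEM) (hL : S_LINE) (hb : Prim b) (hc : c ∈ Ep b)
    (hk : IsOfFinOrder (c⁻¹ * ipow b k)) : Ls (md (ipow b k)) (md c) := by
  by_cases h0 : k = 0
  · subst h0
    rw [ipow_zero]
    exact Ls.of_le ((md_le_ln _).trans (by simpa using md_nonneg c))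
  · have h1 := md_pow_ls hE hL (ipow_inf hE hb.1 h0) (ee_ne_zero Γ)
    rw [← pow_sq_eq hE hb.1 hc (ipow_mem_Ep b k) hk] at h1
    exact h1.trans' ⟨_, md_pow_le c _⟩

end C_dispA

open C_dispA in
theorem p_C_DISP (hELEM : S_ELEM) (hLINE : S_LINE) :
    S_C_DISP := by
  intro Γ a b c hb hc
  obtain ⟨k, hk⟩ := hb.2 c hc
  have k0 := key hELEM hLINE hb hc hk
  have b1 := one_le_md' hb.1
  refine ⟨fun x => ?_, fun h => ?_, fun h => ?_⟩
  · obtain ⟨z, hz, hx⟩ := exists_centre hLINE hb.1 x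
    obtain ⟨⟨L, -, hL⟩, -, h3⟩ := hLINE Γ a b z hb.1 (Ls.of_le hz.le)
    obtain ⟨-, l2, l3⟩ := hL k
    have t : (c⁻¹ * ipow b k)⁻¹ ∈ Ep b := inv_mem (mul_mem (inv_mem hc) (ipow_mem_Ep b k))
    have l4 := h3 _ t hk.inv
    have e : c = ipow b k * (c⁻¹ * ipow b k)⁻¹ := by group
    have d1 := disp_le c x z
    have d2 := disp_mul (ipow b k) (c⁻¹ * ipow b k)⁻¹ z
    rw [← e] at d2
    have n1 := md_nonneg c
    have n2 := ds_nonneg x (b * x)
    have n3 := md_le_ds b x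
    have u1 : Ls (ds x z) (md c + ds x (b * x)) := hx.mono_right (by linarith)
    have u2 : Ls (md b) (md c + ds x (b * x)) := Ls.of_le (by linarith)
    have u3 : Ls (md (ipow b k)) (md c + ds x (b * x)) := k0.mono_right (by linarith)
    exact Ls.mono_left (by linarith)
      (((u1.two.add (l2.trans' u2)).add u3).add (l4.trans' u2))
  · obtain ⟨z, hz⟩ := exists_md_ds b
    obtain ⟨L, hL1, hL⟩ := (hLINE Γ a b z hb.1 (Ls.of_le hz.le)).1
    have L0 : 0 < L := hL1.2.pos (by linarith)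
    obtain ⟨n, hn⟩ := Ls.mono_left (hL k).2.2 ((k0.trans' h).trans' hL1.2)
    have hn' : |zK k| ≤ n := le_of_mul_le_mul_right hn L0
    obtain ⟨m, rfl⟩ := exists_int_of_not_big (k := k)
      (not_big_of_ls (Ls.of_le hn') (not_big_nat n))
    exact ⟨m, by rwa [ipow_intCast] at hk⟩
  · have hB : Big (md c) := big_iff_ll.2 (Ll.mono_left b1 h)
    have hi : ¬ IsOfFinOrder c := fun ho => by
      obtain ⟨z, hz⟩ := exists_md_ds b
      have := (hLINE Γ a b z hb.1 (Ls.of_le hz.le)).2.2 c hc ho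
      exact h.not_ls hB.pos (Ls.mono_left (md_le_ds c z) this)
    refine ⟨hi, hB, fun hcen => ?_⟩
    have hμ : Big (ln c) := hB.of_ls (Ls.of_le (md_le_ln c))
    obtain ⟨z, hz, h1⟩ := exists_centre hLINE hb.1 1
    have h2 := hb.disp hELEM hLINE hc hi 1
    rw [ds_one_mul c] at h2
    have h3 : Ls (ds 1 z) (ln c) := h1.trans' h2
    obtain ⟨N, -, hN⟩ := pow_long hLINE hi (D := 2 * ds 1 z + ln c + ln c)
      (((h3.two.add (Ls.refl' _)).add (Ls.refl' _)).trans' hcen)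
    have h4 := (hN N le_rfl).trans (md_le_ln _)
    obtain ⟨p, q, ho, -⟩ := exists_ov hμ (x := 1) (y := c ^ N) (x' := z) (y' := c ^ N * z)
      (D := ds 1 z) (T := ln c) le_rfl (by rw [ds_mul_right, ds_one_left]) le_rfl
      (by rwa [ds_one_left (c ^ N)])
    have hm : Ll (md b) (ln c) := h.mono_right (md_le_ln c)
    have f1 : Ll (ds z (b * z)) (ln c) := hz ▸ hm
    have f2 : Ll (ds (c ^ N * z) (b * (c ^ N * z))) (ln c) := by
      rw [← disp_conj']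
      exact (hb.conj' (c ^ N)).fix hELEM hLINE hb.1 (Ep_conj_mem' (pow_mem hc N)) f1
    exact ⟨N, p, q, ho.1, ho.2.1, ho.2.2.1, Stab.sub hμ ⟨f1, f2⟩ ho.2.2.2.1 ho.2.2.2.2⟩

end Pool.Agent.P.MP_dba3d2_lc


end

section

/-! Step C_CYC of the stability project. -/

namespace Pool.Agent.P.MP_dba3d2_lc

open Filter

namespace C_cycA

variable {Γ : HG} {a : Amb} {F : Bool → Subgroup (MM Γ a)}

/-- the conclusion for one element -/
def Goal (F : Bool → Subgroup (MM Γ a)) (γ : MM Γ a) : Prop := ∃ z ∈ F false ⊔ F true,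
  (∃ o b, Typ F o b ∧ z⁻¹ * γ * z ∈ Ep b) ∨ Cen (z⁻¹ * γ * z)

theorem Goal.conj {γ δ g : MM Γ a} (hg : g ∈ (idC F).PP) (e : δ = g⁻¹ * γ * g) (h : Goal F δ) :
    Goal F γ := by
  obtain ⟨z, hz, h⟩ := h
  refine ⟨g * z, mul_mem (idC_PP ▸ hg) hz, ?_⟩
  rwa [show (g * z)⁻¹ * γ * (g * z) = z⁻¹ * δ * z by rw [e]; group]

theorem goal_ep {γ c : MM Γ a} (hc : TOK F (idC F).S (.inr c)) (h : γ ∈ Ep c) : Goal F γ :=
  ⟨1, one_mem _, .inl ⟨none, c, ⟨hc.1, hc.2.1, hc.2.2, fun e => absurd rfl e⟩, by simpa using h⟩⟩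

theorem goal_cen {γ : MM Γ a} (h : Cen γ) : Goal F γ := ⟨1, one_mem _, .inr (by simpa using h)⟩

theorem ll_sl {ν : a.K} (h0 : 0 ≤ ν) {w : List (Tg Γ a × MM Γ a)} (h : ∀ s ∈ w, Ll (ln s.2) ν) :
    Ll ((idC F).sl w) ν := by
  induction w with
  | nil => exact Ll.zero h0
  | cons s w ih =>
    rw [Cv.sl_cons]
    exact (h s List.mem_cons_self).add (ih fun t ht => h t (List.mem_cons_of_mem _ ht))

theorem cen_of_geo {ν : a.K} (hν : Big ν) {y : MM Γ a} {L : List (MM Γ a)}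
    (h : Geo ν (y :: L ++ [y])) (hy : Ls ν (ln y)) : Ls ν (md (y * L.prod)) := by
  have h1 : On ν 1 (y * L.prod)⁻¹ y := on_one_iff'.2 (by simpa [mul_assoc] using h.on)
  have h2 : On ν y 1 (y * L.prod) := h.left.head
  have h3 := (On.glue hν h1 h2 (by simpa using hy)).1
  have h4 : Geo ν ([y * L.prod] ++ [y * L.prod]) :=
    geo_cons.2 ⟨by simpa using h3, geo_single hν.pos.le _⟩
  have h5 := h.left.ls_mem hν List.mem_cons_self hy
  simpa using h4.md hν (by simpa using h5)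

end C_cycA

open C_cycA

theorem p_C_CYC (hELEM : S_ELEM) (hROOT : S_ROOT) (hC_REDX : S_C_REDX) (hC_CYCG : S_C_CYCG) (hC_GEOP : S_C_GEOP) :
    S_C_CYC := by
  intro Γ a F hF γ hγ hfo
  change Goal F γ
  obtain ⟨w0, hw0, rfl⟩ := exists_wordP hγ
  obtain ⟨w, hw, hz, -, ⟨g, hg, e⟩, hc⟩ := hC_CYCG Γ a F hF _ (idC F) w0 hw0
  refine Goal.conj hg e ?_
  have hf : ¬ IsOfFinOrder (vl w) := by rwa [e, finOrder_conj']
  clear e hg hfo hγ hw0 g w0
  rcases hc with hc | ⟨c, e, m, hr, hj⟩ | hc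
  · rcases w with _ | ⟨⟨t, x⟩, _ | ⟨s, w⟩⟩
    · exact absurd IsOfFinOrder.one hf
    · have k := (Cv.wd_cons.1 hw).1
      simp only [vl_cons, vl_nil, mul_one] at hf ⊢
      rcases t with o | c
      · obtain ⟨c, c1, c2, c3⟩ := (hROOT Γ a _ (hF.gcx o)).1 x k.2 hf
        obtain ⟨o1, b1, t1, -, g, g1, -, -, -, -, -, g2, -⟩ :=
          hC_REDX Γ a F hF o o c c1 c c1 c2 c2 1 (Cj.one_iff.2 rfl)
        exact ⟨g, XF_le_P o g1, .inl ⟨o1, b1, t1, g2.mem_Ep' (c3 ▸ self_mem_Ep x)⟩⟩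
      · exact goal_ep k.1 (EF_le_Ep k.2)
    · simp at hc
  · obtain ⟨h1, -, -, g, hg, e1⟩ := hw.rot hr
    refine Goal.conj hg e1 ?_
    have k := (Cv.wd_cons.1 h1).1
    have hf' : ¬ IsOfFinOrder (vl [(Sum.inr c, e), ((Sum.inl none : Tg Γ a), m)]) := by
      rwa [e1, finOrder_conj']
    refine goal_ep k.1 (InE.mem hELEM k.1.2.1.1 ?_ hf')
    simp only [vl_cons, vl_nil, mul_one]
    exact (InE.of_mem (EF_le_Ep k.2)).mul (((hELEM Γ a c k.1.2.1.1).2.2.2.1 m).2 hj)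
  · by_cases hν : Big ((idC F).sl w)
    · obtain ⟨s, hs, hb⟩ : ∃ s ∈ w, Ls ((idC F).sl w) (ln s.2) := by
        by_contra hn
        exact ll_irrefl hν.pos (ll_sl hν.pos.le fun s hs =>
          (ll_or_ls hν.pos _).resolve_right fun k => hn ⟨s, hs, k⟩)
      have hl := Cv.ln_le_sl (C := idC F) hs
      obtain ⟨p, q, rfl⟩ := List.append_of_mem hs
      have hr : p ++ s :: q ~r s :: (q ++ p) := List.isRotated_append
      obtain ⟨h1, -, h2, g, hg, e1⟩ := hw.rot hr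
      refine Goal.conj hg e1 (goal_cen ?_)
      have h3 := (hC_GEOP Γ a F hF).1 _ (hc.2 s _ hr) (hz.nzE.sub fun t ht => by
        simp only [List.cons_append, List.mem_cons, List.mem_append] at ht ⊢
        tauto)
      have h4 := h3.geo _ hν ⟨2, by
        rw [Cv.sl_append, h2, Cv.sl_cons, Cv.sl_nil]
        push_cast
        linarith⟩
      rw [Cv.vs_append, Cv.vs_cons, Cv.vs_cons, Cv.vs_nil] at h4
      have h5 := cen_of_geo hν h4 hb
      rw [idC_prod] at h5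
      exact (Ls.of_le (h2 ▸ Cv.ln_vl_le (C := idC F))).trans' h5
    · exact goal_cen (ls_of_scale (one_le_md' hf) fun k _ =>
        hν (k.of_ls (Ls.of_le (Cv.ln_vl_le (C := idC F)))))

end Pool.Agent.P.MP_dba3d2_lc


end

section

/-! Step C_BRIDGE of the stability project. -/

namespace Pool.Agent.P.MP_dba3d2_lc

open Filter

theorem p_C_BRIDGE (hC_PROJ : S_C_PROJ) :
    S_C_BRIDGE := by
  intro Γ a b b' h hb cb hb' cb' n1 n2 q
  have p1 := ds_nonneg q (b * q)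
  have p2 := ds_nonneg q (h * b' * h⁻¹ * q)
  have m1 := md_le_ds b q
  have m2 := md_le_ds (h * b' * h⁻¹) q
  rw [md_conj'] at m2
  have o1 := one_le_md' hb.1
  have l1 : Ls (ln b) (ds q (b * q) + ds q (h * b' * h⁻¹ * q)) := Ls.mono_right cb (by linarith)
  have l2 : Ls (ln b') (ds q (b * q) + ds q (h * b' * h⁻¹ * q)) := Ls.mono_right cb' (by linarith)
  have l3 : Ls (ln h) (ds q (b * q) + ds q (h * b' * h⁻¹ * q)) := by
    refine ls_of_scale (by linarith) fun hB hl => ll_irrefl hB.pos ?_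
    have k1 := ((hC_PROJ Γ a b h⁻¹ hb cb n1).2 _ hB (hl.mono_left (by linarith))
      (Ls.of_le (ln_inv h).le)).1 q (hl.mono_left (by linarith))
    have e : ds (h⁻¹ * q) (b' * (h⁻¹ * q)) = ds q (h * b' * h⁻¹ * q) := by
      rw [← disp_conj h, mul_inv_cancel_left]
    have k2 := (((hC_PROJ Γ a b' h hb' cb' n2).2 _ hB (hl.mono_left (by linarith))
      (Ls.refl' _)).1 (h⁻¹ * q) (hl.mono_left (by linarith))).mul h
    rw [inv_inv] at k1
    rw [mul_one, mul_inv_cancel, mul_inv_cancel_left] at k2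
    have k := k1.symm.antisymm k2.symm
    rwa [ds_one_left] at k
  have t1 := ln_mul_le (h * b') h⁻¹
  have t2 := ln_mul_le h b'
  rw [ln_inv] at t1
  exact l1.add (Ls.mono_left (by linarith) (l3.two.add l2))

end Pool.Agent.P.MP_dba3d2_lc


end

section

/-! Step C_NA of the stability project. -/

namespace Pool.Agent.P.MP_dba3d2_lc

open Filter

theorem p_C_NA (hC_NFE : S_C_NFE) :
    S_C_NA := by
  intro Γ a F hF
  obtain ⟨-, h2, h3⟩ := hC_NFE Γ a F hF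
  have k : ∀ b, Anc F b → ∀ h ∈ F false ⊔ F true,
      ∃ f ∈ F false ⊔ F true, f ∈ Ep b ∧ NE b (h * f) := by
    rintro b ⟨-, -, ⟨o, hb⟩ | hb⟩ h hh
    · exact h2 o b hb h hh
    · exact ⟨1, one_mem _, one_mem _, hb _ (mul_mem hh (one_mem _))⟩
  refine ⟨k, fun b b' hb hb' h hh hj => ?_⟩
  rcases hb'.2.2 with ⟨o', t'⟩ | n'
  · rcases hb.2.2 with ⟨o, t⟩ | n
    · obtain ⟨w, hw, rfl⟩ := exists_wordP hh
      have e : vl ((.inl o, 1) :: w ++ [(.inl o', 1)]) = vl w := by simp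
      obtain ⟨w1, f, hf, f', hf', -, -, -, -, e1, e2, e3, e4, e5⟩ :=
        h3 o b o' b' ((.inl o, 1) :: w ++ [(.inl o', 1)]) t t'
          (Cv.wd_append.2 ⟨Cv.wd_cons.2 ⟨idC_ok (one_mem _), hw⟩,
            Cv.wd_single (idC_ok (one_mem _))⟩)
          (fun _ => ⟨(.inl o, 1), by simp, rfl⟩)
          (fun _ => ⟨sinv (.inl o', 1), by simp, rfl⟩) (e ▸ hj)
      rw [e5, e] at e3 e4
      exact ⟨f, hf, f', hf', e1, e2, e3, e4⟩
    · obtain ⟨f, hf, e1, e2⟩ := k b' hb' h hh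
      exact ⟨1, one_mem _, f, hf, one_mem _, e1,
        n _ (inv_mem (mul_mem (mul_mem (one_mem _) hh) hf)), by rwa [one_mul]⟩
  · obtain ⟨f, hf, e1, e2⟩ := k b hb h⁻¹ (inv_mem hh)
    exact ⟨f⁻¹, inv_mem hf, 1, one_mem _, inv_mem e1, one_mem _,
      by rwa [mul_one, mul_inv_rev, inv_inv],
      n' _ (mul_mem (mul_mem (inv_mem hf) hh) (one_mem _))⟩

end Pool.Agent.P.MP_dba3d2_lc


end

section

/-! Step C_E12 of the stability project. -/

namespace Pool.Agent.P.MP_dba3d2_lc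

open Filter

theorem p_C_E12 (hROOT : S_ROOT) (hC_EMEM : S_C_EMEM) (hC_T : S_C_T) :
    S_C_E12 := by
  intro Γ a F hF
  refine ⟨fun c hc hp f hf he => ?_, fun i c hc hp hn f hf he => ?_⟩
  · rcases hC_T Γ a F hF f hf none none c hc c hc hp hp (Cj.of_mem he) with
      ⟨c0, -, -, -, e, h4, g, h5, g', h6, h7, h8, -⟩ | ⟨i, h1, -⟩
    · have k1 : g * e * g⁻¹ ∈ EF F c := EF_conj h5 h8 h4
      have k2 : g * g'⁻¹ = (g * e * g⁻¹)⁻¹ * f := by rw [h7]; group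
      have k3 : g * g'⁻¹ ∈ EF F c := mem_EF' none (mul_mem h5 (inv_mem h6))
        (k2 ▸ mul_mem (inv_mem (EF_le_Ep k1)) he)
      have k4 : f = g * e * g⁻¹ * (g * g'⁻¹) := by rw [h7]; group
      exact k4 ▸ mul_mem k1 k3
    · cases h1
  · rcases hC_T Γ a F hF f hf (some i) (some i) c hc c hc hp hp (Cj.of_mem he) with
      ⟨c0, h1, h2, -, e, -, g, h5, g', -, -, h8, -⟩ | ⟨j, h1, -, h3⟩
    · exact absurd (M_le_F (!i) (hF.root4 hROOT h1 h2.1 (hp.conj' g) h8.ep)) (hn g h5)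
    · cases h1
      exact h3

end Pool.Agent.P.MP_dba3d2_lc


end

section

/-! Step C_TWOBR of the stability project. -/

namespace Pool.Agent.P.MP_dba3d2_lc

open Filter

theorem p_C_TWOBR (hELEM : S_ELEM) (hLINE : S_LINE) (hPERC : S_PERC) (hC_PROJ : S_C_PROJ) :
    S_C_TWOBR := by
  intro Γ a ν b d w w' f f' hb cb hd cd n1 n2 n3 n4 hf hf' e hcj hν mb md' hs
  have p1 := ln_nonneg f
  have p2 := ln_nonneg f'
  have p3 := ln_nonneg w
  have p4 := ln_nonneg w'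
  have sw : Ls (ln w) ν := Ls.mono_left (by linarith) hs
  have sw' : Ls (ln w') ν := Ls.mono_left (by linarith) hs
  have lb := cb.ll mb
  have ld := cd.ll md'
  have s1 := hb.stab_ep hELEM hLINE lb hf
  have s2 := hb.stab_ep hELEM hLINE lb (inv_mem hf)
  have s3 := hd.stab_ep hELEM hLINE ld hf'
  have s4 := hd.stab_ep hELEM hLINE ld (inv_mem hf')
  have o1 := ((hC_PROJ Γ a b w⁻¹ hb cb n1).2 ν hν mb (by rwa [ln_inv])).1 f s1.2
  have o2 := (((hC_PROJ Γ a b w'⁻¹ hb cb n2).2 ν hν mb (by rwa [ln_inv])).1 f⁻¹ s2.2).mul f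
  have o3 := (((hC_PROJ Γ a d w hd cd n3).2 ν hν md' sw).1 f' s3.2).mul w
  have o4 := (((hC_PROJ Γ a d w' hd cd n4).2 ν hν md' sw').1 f'⁻¹ s4.2).mul (f * w')
  rw [inv_inv] at o1 o2
  rw [mul_one, mul_inv_cancel] at o2 o3
  rw [← e] at o3
  rw [mul_one, mul_inv_cancel_right, show f * w' * f'⁻¹ = w by rw [e, mul_inv_cancel_right]] at o4
  have d1 : ds f (f * w') = ln w' := ds_mul_right f w'
  have d2 : ds w (f * w') = ln f' := by rw [e, ds_mul_right]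
  have d3 : ds (f * w') f = ln w' := by rw [ds_comm, d1]
  have d4 : ds (f * w') w = ln f' := by rw [ds_comm, d2]
  have h4 := ds_four 1 (f * w') f w
  unfold On at o1 o2 o3 o4
  rw [ds_comm w f] at o1
  simp only [ds_one_left, ds_one_right, d1, d2, d3, d4] at o1 o2 o3 o4 h4
  have hδ := (hν.ll_delta Γ).two
  rcases le_total (ln f + ln f') (ln w + ln w') with k | k
  · rw [max_eq_right k] at h4
    exact ⟨Ll.half (Ll.mono_left (by linarith) ((o1.add o2).add hδ)),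
      Ll.half (Ll.mono_left (by linarith) ((o3.add o4).add hδ))⟩
  · rw [max_eq_left k] at h4
    have hy : Ll (ln w + ln w') ν :=
      Ll.half (Ll.mono_left (by linarith) (((o1.add o2).add (o3.add o4)).add hδ.two))
    have hx : Ll (ln f) ν := by
      refine (ll_or_ls hν.pos _).resolve_right fun hl => hcj ?_
      refine Ep_eq_of_stab hELEM hPERC hν (p := 1) (q := f) (by rwa [ds_one_left])
        (mt (finOrder_conj w d).1 hd.1) hb.1 (((stab_conj w).2 s3).congr ?_ ?_) s1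
      · rw [mul_one, ds_one_right]
        exact Ll.mono_left (by linarith) hy
      · rw [← e, d3]
        exact Ll.mono_left (by linarith) hy
    refine ⟨hx, Ll.mono_left ?_ (hx.add hy)⟩
    have t1 := ds_tri w f (f * w')
    have t2 := ds_le_ln w f
    linarith

end Pool.Agent.P.MP_dba3d2_lc


end

section

/-! Step C_RSTEP of the stability project. -/

namespace Pool.Agent.P.MP_dba3d2_lc

open Filter

namespace C_rstepA

variable {Γ : HG} {a : Amb} {F : Bool → Subgroup (MM Γ a)} {ν : a.K} {g x p q : MM Γ a}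
  {z B : List (Tg Γ a × MM Γ a)} {s : Tg Γ a × MM Γ a} {o : Option Bool}

theorem cost (h : Ll ((idC F).sl z) ν) (s : Tg Γ a × MM Γ a) (B : List (Tg Γ a × MM Γ a))
    (g : MM Γ a) : ct (z ++ [(.inl (bt s.1), g)]) ≤ ct (z ++ s :: B) ∧
      (ct (z ++ [(.inl (bt s.1), g)]) < ct (z ++ s :: B) ∨ LastX F ν (z ++ s :: B)) := by
  have k := kx_bt_le s.1
  simp only [ct_append, ct_cons, ct_nil, kc_inl]
  refine ⟨by omega, ?_⟩
  by_cases hB : ct B ≤ 0
  · obtain rfl := ct_eq_zero hB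
    obtain ⟨o | c, y⟩ := s
    · exact .inr ⟨z, _, o, rfl, rfl, h⟩
    · exact .inl (by simp)
  · exact .inl (by omega)

theorem solL (h : SolL o (z ++ s :: B)) (g : MM Γ a) : SolL o (z ++ [(.inl (bt s.1), g)]) := by
  intro h0
  obtain ⟨t, h1, h2⟩ := h h0
  cases z with
  | nil =>
    obtain rfl : s = t := by simpa using h1
    exact ⟨_, rfl, by rw [h2]; rfl⟩
  | cons u z => exact ⟨t, h1, h2⟩

theorem solR (h : o ≠ none → bt s.1 = o) (g : MM Γ a) :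
    SolL o (winv (z ++ [(.inl (bt s.1), g)])) := fun h0 =>
  ⟨sinv (.inl (bt s.1), g), by simp, by rw [← h h0]; rfl⟩

theorem big_mul (hν : Big ν) (hx : Ll (ln x) ν) (h : Ls ν (ln q)) : Ls ν (ln (x * q)) :=
  h.of_le_add hx hν.pos 1 (by
    have := ln_mul_le x⁻¹ (x * q)
    rw [inv_mul_cancel_left, ln_inv] at this
    push_cast; linarith)

theorem on_mul (hx : Ll (ln x) ν) (h : On ν p 1 q) : On ν (x * p) 1 (x * q) :=
  (h.mul x).congr (FixA.ll_self hx.nonneg _) (by simpa using hx) (FixA.ll_self hx.nonneg _)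

theorem ll_mul (hx : Ll (ln x) ν) (hg : Ll (ln g) ν) : Ll (ln (x * g)) ν :=
  (hx.add hg).mono_left (ln_mul_le x g)

theorem ll_inv (hx : Ll (ln x) ν) : Ll (ln x⁻¹) ν := by rwa [ln_inv]

theorem first (hF : S_C_FIRST) {w : List (Tg Γ a × MM Γ a)} (hν : Big ν) (h : Nice F w)
    (h1 : Ls (ln (vl w)) ν) (h2 : Ls ν (ln q)) (h3 : On ν q 1 (vl w)) :
    ∃ z s B, w = z ++ s :: B ∧ Ll ((idC F).sl z) ν ∧ Ll (ln (vl z)) ν ∧ (idC F).Wd z ∧
      (idC F).ok s ∧ (∀ c, s.1 = .inr c → s.2 ∉ XF F none) ∧ Ls (ln s.2) ν ∧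
      ∃ q', Ls ν (ln q') ∧ On ν q' 1 q ∧ On ν ((vl z)⁻¹ * q') 1 s.2 := by
  obtain ⟨z, s, B, rfl, a1, a2, q', a3, a4, a5⟩ := hF Γ a ν _
    (fun s : Tg Γ a × MM Γ a => (idC F).π s.2) w q hν (h.geo' hν h1) h2
    (idC_prod (F := F) (w := w) ▸ h3)
  have hs : s ∈ z ++ s :: B := by simp
  exact ⟨z, s, B, rfl, a1, Ll.mono_left (Cv.ln_vl_le (C := idC F)) a1, (Cv.wd_append.1 h.wd).1,
    h.wd s hs, h.nz.big hs hν a2, Ls.mono_left (Cv.ln_le_sl hs) (h.ls hν h1), q', a3, a4,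
    idC_prod (F := F) (w := z) ▸ a5⟩

end C_rstepA

open C_rstepA

theorem p_C_RSTEP (hELEM : S_ELEM) (hLINE : S_LINE) (hC_FIRST : S_C_FIRST) (hC_ARC : S_C_ARC) (hC_J0 : S_C_J0) (hC_REDX : S_C_REDX) :
    S_C_RSTEP := by
  intro Γ a F hF ν o b o' d w w' f f' R hw hw' hN hν s1 s2 hf hf'
  have h0 := hν.pos.le
  obtain ⟨z, s, B, rfl, a0, a1, a2, a3, a4, a5, q1, a6, a7, a8⟩ :=
    first hC_FIRST hν hw s1.1 s1.2 (on_right h0 _ _)
  obtain ⟨z', s', B', rfl, b0, b1, b2, b3, b4, b5, q2, b6, b7, b8⟩ :=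
    first hC_FIRST (q := f⁻¹ * q1) hν hw' s2.1 (big_mul hν (ll_inv hf) a6)
      ((on_mul (ll_inv hf) a7).congr (FixA.ll_self h0 _) (FixA.ll_self h0 _) (by
        rw [eq_inv_mul_iff_mul_eq.2 R.eq, ← mul_assoc, ds_mul_right]; exact hf'))
  have c1 : On ν (f * q2) 1 q1 := by simpa using on_mul hf b7
  have c2 := (a8.sub (on_mul (ll_inv a1) c1)).1
  have c3 := ll_mul (ll_mul (ll_inv a1) hf) b1
  have c4 := big_mul hν hf b6
  rcases hC_J0 Γ a F hF ν s.1 s'.1 s.2 s'.2 ((vl z)⁻¹ * f * vl z') 1 ((vl z)⁻¹ * (f * q2)) hν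
    (by rw [ds_one_left]; exact big_mul hν (ll_inv a1) c4) a3.1 b3.1 a3.2 b3.2
    (hC_ARC Γ a F hF ν _ _ _ _ hν a3.1 a3.2 a4 a5 (on_left h0 _ _) c2)
    (hC_ARC Γ a F hF ν _ _ _ _ hν b3.1 b3.2 b4 b5
      (On.of_near (by rw [mul_one, ds_one_left]; exact ll_inv c3) _)
      (by
        rw [show ((vl z)⁻¹ * f * vl z')⁻¹ * ((vl z)⁻¹ * (f * q2)) = (vl z')⁻¹ * q2 by group]
        exact b8)) with ⟨_, _, -, -, g, hg, g', hg', e⟩ | ⟨c, c', d1, d2, d3⟩
  · refine .inl ?_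
    rw [show f = vl z * (g * g') * (vl z')⁻¹ by rw [← e]; group]
    exact mul_mem (mul_mem a2.mem_P (mul_mem (XF_le_P _ hg) (XF_le_P _ hg'))) (inv_mem b2.mem_P)
  obtain ⟨o1, b', e1, e2, g, hg, g', hg', f1, hf1, e3, e4, -⟩ :=
    hC_REDX Γ a F hF _ _ c d1.1 c' d2.1 d1.2.1 d2.2.1 _ d3
  obtain ⟨k1, k2⟩ := cost a0 s B g
  obtain ⟨k3, k4⟩ := cost b0 s' B' g'
  by_cases hL : LastX F ν (z ++ s :: B) ∧ LastX F ν (z' ++ s' :: B')
  · exact .inr (.inr hL)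
  refine .inr (.inl ⟨o1, b', z ++ [(.inl (bt s.1), g)], z' ++ [(.inl (bt s'.1), g')], f1,
    ⟨R.tb, e1, Cv.wd_append.2 ⟨a2, Cv.wd_single (idC_ok hg)⟩,
      Cv.wd_append.2 ⟨b2, Cv.wd_single (idC_ok hg')⟩, solL R.l g, solL R.l' g',
      solR (fun h => (e2 h).1) g, solR (fun h => (e2 h).2) g', R.eb, hf1, ?_, fun k => ?_⟩, ?_⟩)
  · simp only [vl_append, vl_cons, vl_nil, mul_one]
    calc _ = vl z * ((vl z)⁻¹ * f * vl z') * g' := by group
      _ = _ := by rw [e3]; group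
  · have k5 : Cj (vl z) c b := by simpa using k.mul e4.inv
    have k6 := ((stab_conj (vl z)).2 d1.2.2.1).congr (p' := 1) (q' := f * q2)
      (by simpa using a1) (by rw [mul_inv_cancel_left]; exact FixA.ll_self h0 _)
    have k7 := mt (finOrder_conj (vl z) c).1 d1.2.1.1
    refine hN.not_fol hν (by rw [ln_inv]; exact s1.1) ⟨f * q2, c4, ?_,
      R.tb.2.1.fix hELEM hLINE k7 k5.symm k6.1, R.tb.2.1.fix hELEM hLINE k7 k5.symm k6.2⟩
    rw [inv_inv]
    exact (a7.sub c1).1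
  · rcases k2 with k2 | k2
    · omega
    · have := k4.resolve_right fun h => hL ⟨k2, h⟩
      omega

end Pool.Agent.P.MP_dba3d2_lc


end

section

/-! Step C_RIGP of the stability project. -/

namespace Pool.Agent.P.MP_dba3d2_lc

open Filter

namespace C_rigpA

variable {Γ : HG} {a : Amb} {F : Bool → Subgroup (MM Γ a)} {o o' : Option Bool}
  {b d f f' x y g : MM Γ a} {w w' : List (Tg Γ a × MM Γ a)} {ν : a.K}

theorem cj_ep (hx : x ∈ Ep b) (hy : y ∈ Ep d) (h : Cj g d b) : Cj (x * g * y) d b :=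
  ((Cj.of_mem hx).mul h).mul (Cj.of_mem hy)

theorem ri_inv (h : RI F o b o' d w w' f f') : RI F o' d o b (winv w) (winv w') f' f := by
  refine ⟨h.td, h.tb, h.wd.winv, h.wd'.winv, h.r, h.r', by rw [winv_winv]; exact h.l,
    by rw [winv_winv]; exact h.l', h.ed, h.eb, ?_, fun k => h.nc ?_⟩
  · rw [vl_winv, vl_winv, eq_inv_mul_iff_mul_eq, ← mul_assoc, ← h.eq, mul_inv_cancel_right]
  · simpa only [vl_winv, inv_inv] using k.inv

theorem ri_nc (h : RI F o b o' d w w' f f') : ¬ Cj (vl w') d b := fun k => h.nc (by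
  have := cj_ep h.eb (inv_mem h.ed) k
  rwa [h.eq, mul_inv_cancel_right] at this)

theorem ri_mem (h : RI F o b o' d w w' f f') (k : f' ∈ F false ⊔ F true) :
    f ∈ F false ⊔ F true := by
  rw [eq_mul_inv_of_mul_eq h.eq]
  exact mul_mem (mul_mem h.wd.mem_P k) (inv_mem h.wd'.mem_P)

theorem single (hν : Big ν) (h1 : LastX F ν w) (h2 : LastX F ν (winv w)) (h3 : Ls ν (ln (vl w))) :
    ∃ t y, w = [(.inl t, y)] := by
  obtain ⟨z, ⟨t, y⟩, o, rfl, rfl, k1⟩ := h1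
  obtain ⟨z', s', -, e, -, k2⟩ := h2
  rcases z with _ | ⟨s, z⟩
  · exact ⟨_, _, rfl⟩
  rw [winv_append, winv_cons (s := s), ← List.append_assoc] at e
  obtain ⟨rfl, -⟩ := List.append_inj' e rfl
  rw [Cv.sl_append, Cv.sl_winv] at k2
  refine ((Ll.mono_left ?_ (k1.add k2)).not_ls hν.pos h3).elim
  have l1 := Cv.ln_vl_le (C := idC F) (w := s :: z ++ [(.inl o, y)])
  have l2 := Cv.sl_nonneg (C := idC F) (w := winv z)
  rw [Cv.sl_append, idC_π] at l1
  linarith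

theorem mem_tag {t : Option Bool} (h : Typ F o' d) (k : SolL o' (winv [(.inl t, y)])) :
    d ∈ XF F t := by
  by_cases e : o' = none
  · exact M_le_XF t (e ▸ h.1)
  · obtain ⟨s, h1, h2⟩ := k e
    obtain rfl : sinv (.inl t, y) = s := by simpa using h1
    obtain rfl : t = o' := by simpa using h2
    exact h.1

theorem base (hP : S_C_PROJ) (hA : S_C_R2A) (hF : TwoF F) {t t' : Option Bool} {y' : MM Γ a}
    (h : RI F o b o' d [(.inl t, y)] [(.inl t', y')] f f') (hn : NE d y) (h1 : Ll (ln f) ν)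
    (h2 : Ls ν (ln y)) : f ∈ F false ⊔ F true := by
  have hy : y ∈ XF F t := (h.wd _ List.mem_cons_self).2
  have hy' : y' ∈ XF F t' := (h.wd' _ List.mem_cons_self).2
  have e : f = y * f' * y'⁻¹ := by simpa using eq_mul_inv_of_mul_eq h.eq
  have p1 := ln_nonneg (y * d * y⁻¹)
  have p2 := ln_nonneg (y' * d * y'⁻¹)
  obtain ⟨g, hg, g', hg', rfl⟩ := hA _ _ F hF t t' (y * d * y⁻¹)
    (mul_mem (mul_mem hy (mem_tag h.td h.r)) (inv_mem hy)) (y' * d * y'⁻¹)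
    (mul_mem (mul_mem hy' (mem_tag h.td h.r')) (inv_mem hy')) (h.td.2.1.conj y) (h.td.2.1.conj y')
    f (by rw [e]; exact ((Cj.self y d).mul (Cj.of_mem h.ed)).mul (Cj.self y' d).inv)
    (h1.ls_right ((h2.trans' (hP _ _ d y h.td.2.1 h.td.2.2.1 hn).1).mono_right (by linarith))
      (by linarith))
  exact mul_mem (XF_le_P t hg) (XF_le_P t' hg')

theorem root (hR : S_ROOT) (hF : TwoF F) (h : Typ F o b) (hf : f ∈ Ep b) (k : Ls (ln f) (md b)) :
    f ∈ F false ⊔ F true :=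
  XF_le_P o (((hR _ _ _ (hF.gcx o)).2.1 b h.1 b h.1 h.2.1 h.2.1 f (Cj.of_mem hf)).2 h.2.2.1
    h.2.2.1 k)

theorem len_le (e : f * y = x * f') : ln x ≤ ln f + ln y + ln f' := by
  rw [← mul_inv_eq_iff_eq_mul.2 e, ← ln_inv f']
  exact (ln_mul_le _ _).trans (add_le_add (ln_mul_le _ _) le_rfl)

end C_rigpA

open C_rigpA in
theorem p_C_RIGP (hROOT : S_ROOT) (hC_PROJ : S_C_PROJ) (hC_TWOBR : S_C_TWOBR) (hC_R2A : S_C_R2A) (hC_NFE : S_C_NFE) (hC_RSTEP : S_C_RSTEP) :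
    S_C_RIGP := by
  intro Γ a F hF
  suffices H : ∀ n o b o' d w w' f f', ct w + ct w' < n → RI F o b o' d w w' f f' →
      f ∈ F false ⊔ F true from fun o b o' d w w' f f' h => H _ o b o' d w w' f f' (lt_add_one _) h
  intro n
  induction n with
  | zero => exact fun _ _ _ _ _ _ _ _ h => absurd h (Nat.not_lt_zero _)
  | succ n ih =>
  intro o b o' d v v' f0 f0' hn h0
  obtain ⟨w, φ, a1, φ', a2, a3, a4, a5, a6, a7, a8, a9, a10, a11⟩ :=
    (hC_NFE _ _ F hF).2.2 o b o' d v h0.tb h0.td h0.wd h0.l h0.r h0.nc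
  obtain ⟨w', ψ, b1, ψ', b2, b3, b4, b5, b6, b7, b8, b9, b10, b11⟩ :=
    (hC_NFE _ _ F hF).2.2 o b o' d v' h0.tb h0.td h0.wd' h0.l' h0.r' (ri_nc h0)
  suffices K : φ * f0 * ψ⁻¹ ∈ F false ⊔ F true by
    rwa [mul_mem_cancel_right (inv_mem b1), mul_mem_cancel_left a1] at K
  have h : RI F o b o' d w w' (φ * f0 * ψ⁻¹) (φ'⁻¹ * f0' * ψ') := by
    refine ⟨h0.tb, h0.td, a3.wd, b3.wd, a5, b5, a6, b6, mul_mem (mul_mem a7 h0.eb) (inv_mem b7),
      mul_mem (mul_mem (inv_mem a8) h0.ed) b8, ?_, fun k => h0.nc ?_⟩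
    · rw [a11, b11]
      calc _ = φ * (f0 * vl v') * ψ' := by group
        _ = _ := by rw [h0.eq]; group
    · have := cj_ep (inv_mem a7) (inv_mem a8) k
      rwa [a11, show φ⁻¹ * (φ * vl v * φ') * φ'⁻¹ = vl v by group] at this
  generalize φ * f0 * ψ⁻¹ = f at h ⊢
  generalize φ'⁻¹ * f0' * ψ' = f' at h
  have p1 := ln_nonneg f
  have p2 := ln_nonneg f'
  have p3 := ln_nonneg (vl w)
  have p4 := ln_nonneg (vl w')
  obtain ⟨ν, hν⟩ : ∃ ν, ν = ln f + ln f' + ln (vl w) + ln (vl w') := ⟨_, rfl⟩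
  have l1 : Ls (ln f) ν := Ls.of_le (by linarith)
  have l2 : Ls (ln f') ν := Ls.of_le (by linarith)
  by_cases hb : Big ν
  swap
  · exact XF_le_P none (std_le_M hF (not_big_of_ls l1 hb))
  rcases ll_or_ls hb.pos (md b) with m1 | m1
  swap
  · exact root hROOT hF h.tb h.eb (l1.trans' m1)
  rcases ll_or_ls hb.pos (md d) with m2 | m2
  swap
  · exact ri_mem h (root hROOT hF h.td h.ed (l2.trans' m2))
  obtain ⟨t1, t2⟩ := hC_TWOBR _ _ ν b d _ _ f f' h.tb.2.1 h.tb.2.2.1 h.td.2.1 h.td.2.2.1 a9 b9 a10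
    b10 h.eb h.ed h.eq h.nc hb m1 m2 (Ls.of_le hν.ge)
  have q1 := len_le h.eq
  have q2 := len_le (show f⁻¹ * vl w = vl w' * f'⁻¹ by
    rw [eq_mul_inv_iff_mul_eq, mul_assoc, ← h.eq, inv_mul_cancel_left])
  rw [ln_inv, ln_inv] at q2
  have s1 : Sim (ln (vl w)) ν := ⟨Ls.of_le (by linarith),
    (Ls.refl' ν).of_le_add (t1.add t2).two hb.pos 2 (by push_cast; linarith)⟩
  have s2 : Sim (ln (vl w')) ν := ⟨Ls.of_le (by linarith),
    (Ls.refl' ν).of_le_add (t1.add t2).two hb.pos 2 (by push_cast; linarith)⟩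
  rcases hC_RSTEP _ _ F hF ν _ _ _ _ _ _ _ _ h a3 b3 a9 hb s1 s2 t1 t2 with
    k | ⟨_, _, _, _, _, k, c⟩ | ⟨k1, k2⟩
  · exact k
  · exact ih _ _ _ _ _ _ _ _ (by omega) k
  rcases hC_RSTEP _ _ F hF ν _ _ _ _ _ _ _ _ (ri_inv h) a3.winv b3.winv
    (by rw [vl_winv, inv_inv]; exact a10) hb (by rw [vl_winv, ln_inv]; exact s1)
    (by rw [vl_winv, ln_inv]; exact s2) t2 t1 with k | ⟨_, _, _, _, _, k, c⟩ | ⟨k3, k4⟩
  · exact ri_mem h k
  · rw [ct_winv, ct_winv] at c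
    exact ri_mem h (ih _ _ _ _ _ _ _ _ (by omega) k)
  obtain ⟨t, y, rfl⟩ := single hb k1 k3 s1.2
  obtain ⟨t', y', rfl⟩ := single hb k2 k4 s2.2
  exact base hC_PROJ hC_R2A hF h (by simpa using a10) t1 (by simpa using s1.2)

end Pool.Agent.P.MP_dba3d2_lc


end

section

/-! Step C_RIGX of the stability project. -/

namespace Pool.Agent.P.MP_dba3d2_lc

open Filter

theorem C_rigxA.word {Γ : HG} {a : Amb} {F : Bool → Subgroup (MM Γ a)} (o o' : Option Bool)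
    {h : MM Γ a} (hh : h ∈ F false ⊔ F true) :
    ∃ w, (idC F).Wd w ∧ SolL o w ∧ SolL o' (winv w) ∧ vl w = h := by
  obtain ⟨w, h1, h2⟩ := exists_wordP hh
  refine ⟨(.inl o, 1) :: w ++ [(.inl o', 1)], Cv.wd_append.2 ⟨Cv.wd_cons.2 ⟨idC_ok (one_mem _), h1⟩,
    Cv.wd_single (idC_ok (one_mem _))⟩, fun _ => ⟨(.inl o, 1), by simp, rfl⟩,
    fun _ => ⟨sinv (.inl o', 1), by simp, rfl⟩, by simp [h2]⟩

theorem p_C_RIGX (hC_REDX : S_C_REDX) (hC_RIGP : S_C_RIGP) :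
    S_C_RIGX := by
  intro Γ a F hF x z hz z' hz' k hk k' hk' o o' o1 o1' b hb b' hb' d hd d' hd' pb pb' pd pd' c1 c2 hne
  obtain ⟨o2, b1, t1, -, g, hg, g', hg', f, hf, e1, j1, -⟩ :=
    hC_REDX Γ a F hF o o' b hb b' hb' pb pb' _ c1
  obtain ⟨o3, d1, t2, -, g2, hg2, g2', hg2', f', hf', e2, j2, -⟩ :=
    hC_REDX Γ a F hF o1 o1' d hd d' hd' pd pd' _ c2
  have m1 := mul_mem hz (XF_le_P _ hg)
  have m2 := mul_mem hz' (XF_le_P _ hg')
  obtain ⟨w, w1, w2, w3, w4⟩ :=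
    C_rigxA.word o2 o3 (mul_mem (inv_mem m1) (mul_mem hk (XF_le_P _ hg2)))
  obtain ⟨w', v1, v2, v3, v4⟩ :=
    C_rigxA.word o2 o3 (mul_mem (inv_mem m2) (mul_mem hk' (XF_le_P _ hg2')))
  have ef : f = g⁻¹ * (z⁻¹ * x * z') * g' := by rw [e1]; group
  have ef' : f' = g2⁻¹ * (k⁻¹ * x * k') * g2' := by rw [e2]; group
  have hP := hC_RIGP Γ a F hF o2 b1 o3 d1 w w' f f'
    ⟨t1, t2, w1, v1, w2, v2, w3, v3, hf, hf', by rw [w4, v4, ef, ef']; group, fun hc => by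
      have a1 := ((Cj.self z b).mul j1).mul hc
      rw [w4, mul_inv_cancel_left] at a1
      exact hne (a1.symm.trans ((Cj.self k d).mul j2))⟩
  have ex : x = z * g * f * (z' * g')⁻¹ := by rw [ef]; group
  rw [ex]
  exact mul_mem (mul_mem m1 hP) (inv_mem m2)

end Pool.Agent.P.MP_dba3d2_lc


end

section

/-! Step TWO of the stability project. -/

namespace Pool.Agent.P.MP_dba3d2_lc

open Filter

theorem p_TWO (hC_EMEM : S_C_EMEM) (hC_EXT2 : S_C_EXT2) (hC_FINP : S_C_FINP) (hC_NFE : S_C_NFE) (hC_G20S : S_C_G20S) (hC_ANC : S_C_ANC) (hC_CEN : S_C_CEN) (hC_EX : S_C_EX) (hC_E12 : S_C_E12) (hC_PUR : S_C_PUR) (hC_G2 : S_C_G2) :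
    S_TWO := by
  intro Γ a F hF
  refine ⟨⟨(hF.gc false).base.trans le_sup_left, hC_G2 Γ a F hF, fun μ hμ h hh l p q n hp hq hr => ?_,
    hC_EX Γ a F hF, hC_PUR Γ a F hF, hC_CEN Γ a F hF⟩, hC_FINP Γ a F hF, (hC_ANC Γ a F hF).1,
    hC_EXT2 Γ a F hF, fun g hg => ?_, fun c hc hp f hf he => ?_, (hC_E12 Γ a F hF).2 false,
    (hC_E12 Γ a F hF).2 true⟩
  · obtain ⟨z, hz, o, b, hb, hs⟩ := hC_G20S Γ a F hF μ hμ h hh l p q n hp hq hr
    exact ⟨_, mul_mem (mul_mem hz (XF_le_P o hb.1)) (inv_mem hz), hb.2.1.conj z, hs⟩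
  · by_cases hb : Big (ln g)
    · obtain ⟨w, hw, rfl⟩ := (hC_NFE Γ a F hF).1 g hg
      refine ⟨(idC F).vs w, fun x hx => ?_, idC_prod, fun _ => ?_, fun h => absurd hb h⟩
      · obtain ⟨⟨t, y⟩, hs, rfl⟩ := List.mem_map.1 hx
        obtain ⟨h1, h2⟩ := hw.wd _ hs
        rcases t with (_ | _ | _) | c
        · exact .inl h2.1
        · exact .inl h2
        · exact .inr (.inl h2)
        · obtain ⟨x, m1, y', m2, e1, e2, e⟩ := hC_EMEM Γ a F hF c h1.1 h1.2.1.1 false y h2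
          exact .inr (.inr ⟨c, h1.1, h1.2.1, h1.2.2, x, m1, y', m2, e1, e2, e⟩)
      · exact Cv.geo_iff.1 (hw.geo' hb (Ls.refl' _))
    · exact ⟨[g], fun x hx => .inl (by
        obtain rfl := List.mem_singleton.1 hx
        exact (std_le_M hF hb).1), by simp, fun h => absurd h hb, fun _ => rfl⟩
  · exact hC_EMEM Γ a F hF c hc hp.1 false f ((hC_E12 Γ a F hF).1 c hc hp f hf he)

end Pool.Agent.P.MP_dba3d2_lc


end

section

/-! Step C_GRTW of the stability project. -/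

namespace Pool.Agent.P.MP_dba3d2_lc

open Filter

namespace C_grtwA

variable {Γ : HG} {a : Amb} {H W : Subgroup (MM Γ a)}

theorem mem_of_ls (hs : Sep H W) {h w : MM Γ a} (hh : h ∈ H) (hw : w ∈ W) (h0 : 0 < ln w)
    (hl : Ls (ln h) (ln w)) : h ∈ W := by
  by_contra k
  have k1 := hs h hh k w hw
  have k2 : 0 < ln h := h0.trans_le (by simpa using k1 1)
  exact k1.not_ls k2 hl

theorem nb_one : ¬ Big (ln (1 : MM Γ a)) := fun h => by
  have := h.pos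
  rw [ln_one] at this
  exact lt_irrefl _ this

theorem nm (hs : Sep H W) (i : Bool) {y : MM Γ a} (hy : y ∈ (bif i then W else H))
    (hn : y ∉ H ⊓ W) : NM (bif !i then W else H) (H ⊓ W) y := by
  intro v hv hvn hb hsim _
  cases i
  · exact hn ⟨hy, mem_of_ls hs hy hv (hsim.2.pos hb.pos) hsim.2⟩
  · exact hvn ⟨hv, mem_of_ls hs hv hy hb.pos hsim.1⟩

end C_grtwA

open C_grtwA in
theorem p_C_GRTW (hELEM : S_ELEM) (hLINE : S_LINE) (hPERC : S_PERC) (hROOT : S_ROOT) (hNORM : S_NORM) (hTRUNC : S_TRUNC) :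
    S_C_GRTW := by
  intro Γ a H W hH hW hs
  have gc : ∀ i, GC0 (bif i then W else H) := fun i => by cases i; exacts [hH, hW]
  refine ⟨gc, hTRUNC Γ a H W hH hW.base hs, ?_, ?_, ?_, ?_, ?_, ?_⟩
  · intro μ hμ u hu v hv lu lv x p q ov np
    have k := On.nondeg hμ ov.2.2.2.1 ov.2.2.2.2 ov.1
    rw [ds_mul_right] at k
    have uW : u ∈ W := mem_of_ls hs hu hv (k.pos hμ.pos) (lu.trans' k)
    exact ⟨1, H.one_mem, x, hW.g2 μ hμ u uW v hv lu lv x p q ov np, (one_mul x).symm⟩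
  · intro c0 h0 c1 h1 p0 p1 x cj
    obtain ⟨p, hp, -, cen⟩ := hH.cen1 h0 p0.1
    have cH : p⁻¹ * c0 * p ∈ H := H.mul_mem (H.mul_mem (H.inv_mem hp) h0) hp
    have l1 := p0.md_ls hELEM hLINE (p1.conj x).1 (Eq.symm cj)
    rw [md_conj'] at l1
    have l2 : Ls (ln (p⁻¹ * c0 * p)) (ln c1) := by
      have := cen
      rw [Cen, md_conj] at this
      exact (this.trans' l1).mono_right (md_le_ln c1)
    have cW : p⁻¹ * c0 * p ∈ W := mem_of_ls hs cH h1
      (one_pos.trans_le ((one_le_md' p1.1).trans (md_le_ln c1))) l2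
    have j1 : Cj p (p⁻¹ * c0 * p) c0 := by
      rw [Cj]; congr 1; group
    have j2 := cj.inv.mul j1
    obtain ⟨h, hh, e⟩ := (hROOT Γ a W hW).2.2.2.2.2 c1 h1 _ cW p1.1 (p0.conj' p).1 _ j2
    have j3 := (Cj.of_mem (inv_mem e)).mul j2
    have e3 : (x⁻¹ * p * h⁻¹)⁻¹ * (x⁻¹ * p) = h := by group
    rw [e3] at j3
    exact ⟨_, ⟨cH, cW⟩, p0.conj' p, p, hp, h, hh, j1, j3⟩
  · intro i x hx hn c hc c' hc' pc pc' cj
    cases i
    · refine ⟨hc, ?_⟩
      by_contra k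
      have l := (hs c hc k x hx).mono_right (le_add_of_nonneg_right (ln_nonneg c'))
      exact hn ⟨((hROOT Γ a H hH).2.1 c hc c' hc' pc pc' x cj).1 l, hx⟩
    · refine ⟨?_, hc⟩
      have k : x ∉ W := fun k => hn ⟨hx, k⟩
      have l1 := hs x hx k c hc
      have l2 := hs x hx k c' hc'
      have hμ : Big (ln x) :=
        big_iff_ll.2 (Ll.mono_left ((one_le_md' pc.1).trans (md_le_ln c)) l1)
      have st : Stab (ln x) 1 x c := by
        refine ⟨by rwa [ds_one_mul], pc.fix hELEM hLINE (pc'.conj x).1 (Eq.symm cj) ?_⟩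
        rwa [inv_mul_cancel_right, ds_mul_right]
      have e : ds 1 x = ln x := ds_one_left x
      exact hH.per_mem hELEM hPERC hROOT hμ H.one_mem hx (e ▸ Ls.refl' _) (e ▸ Ls.refl' _)
        (on_left hμ.pos.le 1 x) (on_right hμ.pos.le 1 x) pc st
  · intro i y hy hn
    exact ⟨1, Subgroup.one_mem _, by rw [mul_one]; exact nm hs i hy hn⟩
  · intro i y hy hn _
    refine ⟨1, Subgroup.one_mem _, 1, Subgroup.one_mem _, ?_⟩
    rw [mul_one, one_mul]
    exact ⟨nm hs i hy hn, nm hs i (inv_mem hy) fun k => hn (inv_mem_iff.1 k)⟩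
  · intro i c hc pc cen y hy _
    obtain ⟨f, hf, fE, -, ne⟩ := (hNORM Γ a _ (gc i)).1 c hc pc cen y⁻¹ (inv_mem hy)
    refine ⟨f⁻¹, inv_mem hf, inv_mem fE, ?_⟩
    by_cases k : f⁻¹ * y ∈ H ⊓ W
    · refine ⟨_, inv_mem k, ?_⟩
      rw [mul_inv_cancel, inv_one]
      exact ⟨fun _ _ _ hb => (nb_one hb).elim, fun hb => (nb_one hb).elim⟩
    · refine ⟨1, Subgroup.one_mem _, ?_⟩
      rw [mul_one, mul_inv_rev, inv_inv]
      exact ⟨nm hs i (mul_mem (inv_mem hf) hy) k, ne⟩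

end Pool.Agent.P.MP_dba3d2_lc


end

section

/-! Step GRAFT of the stability project. -/

namespace Pool.Agent.P.MP_dba3d2_lc

open Filter

namespace Graft

variable {Γ : HG} {a : Amb} {H W M : Subgroup (MM Γ a)} {h w y : MM Γ a}

theorem pos (hn : h ∉ W) : 0 < ln h :=
  one_pos.trans_le (one_le_ln fun e => hn (e ▸ W.one_mem))

theorem split (S : Sep H W) {ν : a.K} (h0 : 0 ≤ ν) : ∀ l : List (MM Γ a),
    (∀ g ∈ l, Ls (ln g) ν ∧ (g ∈ H ∨ g ∈ W ∨ ∃ x ∈ H, ∃ y ∈ W, g = x * y)) →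
    ∃ l' : List (MM Γ a), (∀ g ∈ l', g ∈ H ∨ g ∈ W) ∧ l'.prod = l.prod ∧
      Ll ((l'.map ln).sum - (l.map ln).sum) ν
  | [], _ => ⟨[], by simp, rfl, by simpa using Ll.zero h0⟩
  | g :: l, hl => by
    obtain ⟨l', h1, h2, h3⟩ := split S h0 l fun x hx => hl x (List.mem_cons_of_mem _ hx)
    obtain ⟨b, e⟩ := hl g List.mem_cons_self
    by_cases c : g ∈ H ∨ g ∈ W
    · exact ⟨g :: l', List.forall_mem_cons.2 ⟨c, h1⟩, by simp [h2], by simpa using h3⟩
    obtain ⟨x, hx, y, hy, rfl⟩ := (e.resolve_left fun e => c (Or.inl e)).resolve_left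
      fun e => c (Or.inr e)
    have hn : x ∉ W := fun e => c (Or.inr (mul_mem e hy))
    have s := S x hx hn y hy
    have t : ln x ≤ ln (x * y) + ln y := by simpa using ln_mul_le (x * y) y⁻¹
    have u : Ls (ln x) (ln (x * y)) :=
      (Ls.refl' _).of_le_add s (pos hn) 1 (by simpa using t)
    refine ⟨x :: y :: l', List.forall_mem_cons.2 ⟨Or.inl hx, List.forall_mem_cons.2
      ⟨Or.inr hy, h1⟩⟩, by simp [h2, mul_assoc], ?_⟩
    refine ((s.ls_right (u.trans' b) h0).two.add h3).mono_left ?_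
    simp only [List.map_cons, List.sum_cons]
    linarith

end Graft

open Graft in
theorem p_GRAFT (hTWO : S_TWO) (hC_GRTW : S_C_GRTW) :
    S_GRAFT := by
  intro Γ a H W hH hW S
  have T := hC_GRTW Γ a H W hH hW S
  have O : TwoOut H W := hTWO Γ a _ T
  refine ⟨O, fun g hg => ?_⟩
  by_cases b : Big (ln g)
  · obtain ⟨l, h1, h2, h3, -⟩ := O.nf g hg
    have s : Ls (l.map ln).sum (ln g) := by
      have := ((h3 b).ls).add (Ls.refl' (ln g))
      rwa [sub_add_cancel] at this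
    obtain ⟨l', a1, a2, a3⟩ := split S (ln_nonneg g) l fun x hx => ⟨Ls.mono_left
      (List.single_le_sum (by simp [ln_nonneg]) _ (List.mem_map_of_mem hx)) s, by
        rcases h1 x hx with e | e | ⟨c, -, -, -, u, hu, v, hv, -, -, e⟩
        exacts [Or.inl e, Or.inr (Or.inl e), Or.inr (Or.inr ⟨u, hu, v, hv, e⟩)]⟩
    exact ⟨l', a1, a2.trans h2, fun _ => (a3.add (h3 b)).mono_left (by linarith),
      fun n => absurd b n⟩
  · exact ⟨[g], by simpa using Or.inl (hH.of_not_big b), by simp, fun n => absurd n b, fun _ => rfl⟩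

end Pool.Agent.P.MP_dba3d2_lc


end
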