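import Pool.Agent.P.MP_dba3d2_lcM.Ab05
import Pool.Agent.P.MP_dba3d2_lcM.Bb10
import Pool.Agent.P.MP_dba3d2_lcM.Cb12
import Pool.Agent.P.MP_dba3d2_lcM.Cb18

section

/-! Step C2_RW of the stability project. -/

namespace Pool.Agent.P.MP_dba3d2_lc

open Filter

namespace C2_rw

variable {G : Type} [Group G] {B : Subgroup G} {Λ : Type} {v : Λ → G} {P : Λ → G → Λ → Prop}

theorem wval_nil : wval v ([] : List (G × Λ)) = 1 := rfl

theorem wval_cons (s : G × Λ) (l : List (G × Λ)) :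
    wval v (s :: l) = s.1 * v s.2 * wval v l := by
  simp [wval]

theorem wval_append (l l' : List (G × Λ)) : wval v (l ++ l') = wval v l * wval v l' := by
  simp [wval]

/-- `t` has a word of length `n` -/
def Wd (B : Subgroup G) (v : Λ → G) (n : ℕ) (t : G) : Prop :=
  ∃ l : List (G × Λ), ∃ b ∈ B, l.length = n ∧ (∀ s ∈ l, s.1 ∈ B) ∧ t = wval v l * b

theorem Wd.base {b : G} (hb : b ∈ B) : Wd B v 0 b :=
  ⟨[], b, hb, rfl, by simp, by simp [wval_nil]⟩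

theorem Wd.letter (s : Λ) : Wd B v 1 (v s) :=
  ⟨[(1, s)], 1, B.one_mem, rfl, by simp, by simp [wval]⟩

theorem Wd.word {l : List (G × Λ)} (h : ∀ s ∈ l, s.1 ∈ B) : Wd B v l.length (wval v l) :=
  ⟨l, 1, B.one_mem, rfl, h, (mul_one _).symm⟩

theorem Wd.mul {n m : ℕ} {t t' : G} (h : Wd B v n t) (h' : Wd B v m t') :
    Wd B v (n + m) (t * t') := by
  obtain ⟨l, b, hb, rfl, hl, rfl⟩ := h
  obtain ⟨l', b', hb', rfl, hl', rfl⟩ := h'
  cases l' with
  | nil => exact ⟨l, b * b', B.mul_mem hb hb', rfl, hl, by simp [wval_nil, mul_assoc]⟩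
  | cons x l' =>
    refine ⟨l ++ (b * x.1, x.2) :: l', b', hb', by simp, fun s hs => ?_, ?_⟩
    · rcases List.mem_append.1 hs with hs | hs
      · exact hl s hs
      · rcases List.mem_cons.1 hs with rfl | hs
        · exact B.mul_mem hb (hl' x List.mem_cons_self)
        · exact hl' s (List.mem_cons_of_mem _ hs)
    · simp [wval_append, wval_cons, mul_assoc]

theorem ex (h : WS B v P) {t : G} (ht : t ∈ B ⊔ Subgroup.closure (Set.range v)) :
    ∃ n, Wd B v n t := by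
  rw [← Subgroup.closure_eq B, ← Subgroup.closure_union] at ht
  induction ht using Subgroup.closure_induction'' with
  | mem x hx =>
    rcases hx with hx | ⟨s, rfl⟩
    exacts [⟨_, .base hx⟩, ⟨_, .letter s⟩]
  | inv_mem x hx =>
    rcases hx with hx | ⟨s, rfl⟩
    · exact ⟨_, .base (B.inv_mem hx)⟩
    · obtain ⟨s', e⟩ := h.inv s
      exact ⟨1, e ▸ Wd.letter s'⟩
  | one => exact ⟨_, .base B.one_mem⟩
  | mul x y _ _ hx hy =>
    obtain ⟨n, hx⟩ := hx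
    obtain ⟨m, hy⟩ := hy
    exact ⟨_, hx.mul hy⟩

theorem short (h : WS B v P) {l : List (G × Λ)} (hl : ∀ s ∈ l, s.1 ∈ B)
    (hn : ∀ n < l.length, ¬ Wd B v n (wval v l)) : WRed B P l := by
  refine ⟨hl, List.isChain_iff_forall_rel_of_append_cons_cons.2 fun x y l₁ l₂ e hP => ?_⟩
  subst e
  have h1 : Wd B v _ _ := .word (l := l₁) fun s hs => hl s (by simp [hs])
  have h2 : Wd B v _ _ := .word (l := l₂) fun s hs => hl s (by simp [hs])
  have hx : Wd B v 0 x.1 := .base (hl x (by simp))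
  obtain ⟨k, hk, h3⟩ : ∃ k ≤ 1, Wd B v k (v x.2 * y.1 * v y.2) := by
    rcases h.red _ _ _ (hl y (by simp)) hP with k | ⟨s, p, hp, q, hq, e⟩
    · exact ⟨0, zero_le_one, .base k⟩
    · exact ⟨_, le_rfl, e ▸ ((Wd.base hp).mul (.letter s)).mul (.base hq)⟩
  refine hn (l₁.length + (0 + k + l₂.length)) (by simp; omega) ?_
  convert h1.mul ((hx.mul h3).mul h2) using 1
  simp [wval_append, wval_cons, mul_assoc]

end C2_rw

open C2_rw in
theorem p_C2_RW :
    S_C2_RW := by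
  classical
  intro G _ B Λ v P h t ht
  constructor
  · obtain ⟨l, b, hb, e, hl, e'⟩ := Nat.find_spec (ex h ht)
    refine ⟨l, b, hb, short h hl fun n hn k => Nat.find_min (ex h ht) (e ▸ hn) ?_, e'⟩
    exact e' ▸ k.mul (.base hb)
  have hex : ∃ n, ∃ g ∈ B ⊔ Subgroup.closure (Set.range v), Wd B v n (g⁻¹ * t * g) :=
    (ex h ht).imp fun n k => ⟨1, Subgroup.one_mem _, by simpa using k⟩
  have key : ∀ g ∈ B ⊔ Subgroup.closure (Set.range v), ∀ l : List (G × Λ),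
      l.length = Nat.find hex → (∀ s ∈ l, s.1 ∈ B) → g⁻¹ * t * g = wval v l → WRed B P l :=
    fun g hg l e hl e' => short h hl fun n hn k => Nat.find_min hex (e ▸ hn) ⟨g, hg, e' ▸ k⟩
  have hB : ∀ b ∈ B, b ∈ B ⊔ Subgroup.closure (Set.range v) := fun b => Subgroup.mem_sup_left
  obtain ⟨g₀, hg₀, l₀, b, hb, e₀, hl₀, e₀'⟩ := Nat.find_spec hex
  cases l₀ with
  | nil => exact ⟨g₀, hg₀, Or.inl (by rwa [e₀', _root_.Pool.Agent.P.MP_dba3d2_lc.C2_rw.wval_nil, one_mul])⟩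
  | cons x₀ l₀ =>
    obtain ⟨g, hg, l, hne, e, hl, e'⟩ : ∃ g ∈ B ⊔ Subgroup.closure (Set.range v),
        ∃ l : List (G × Λ), l ≠ [] ∧ l.length = Nat.find hex ∧ (∀ s ∈ l, s.1 ∈ B) ∧
          g⁻¹ * t * g = wval v l := by
      refine ⟨g₀ * b⁻¹, Subgroup.mul_mem _ hg₀ (hB _ (B.inv_mem hb)), (b * x₀.1, x₀.2) :: l₀,
        by simp, e₀, fun s hs => ?_, ?_⟩
      · rcases List.mem_cons.1 hs with rfl | hs
        · exact B.mul_mem hb (hl₀ x₀ List.mem_cons_self)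
        · exact hl₀ s (List.mem_cons_of_mem _ hs)
      · rw [show (g₀ * b⁻¹)⁻¹ * t * (g₀ * b⁻¹) = b * (g₀⁻¹ * t * g₀) * b⁻¹ by group, e₀']
        simp [_root_.Pool.Agent.P.MP_dba3d2_lc.C2_rw.wval_cons, mul_assoc]
    have hc := key g hg l e hl e'
    have fin : (∀ x ∈ l.getLast?, ∀ y ∈ l.head?, ¬ P x.2 y.1 y.2) → WRed B P (l ++ l ++ l) :=
      fun k => ⟨fun s hs => hl s (by simpa using hs),
        (hc.2.append hc.2 k).append hc.2 (by rwa [List.getLast?_append_of_ne_nil _ hne])⟩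
    refine ⟨g, hg, Or.inr ?_⟩
    obtain ⟨m, y, rfl⟩ := (List.eq_nil_or_concat' l).resolve_left hne
    have hy := hl y (by simp)
    cases m with
    | nil =>
      by_cases hP : P y.2 y.1 y.2
      · exact Or.inr ⟨y.1, hy, y.2, by simpa [wval] using e', hP⟩
      · exact Or.inl ⟨_, hne, e', fin (by simpa using hP)⟩
    | cons x m =>
      have := key (g * (y.1 * v y.2)⁻¹) (Subgroup.mul_mem _ hg (Subgroup.inv_mem _
        (Subgroup.mul_mem _ (hB _ hy)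
          (Subgroup.mem_sup_right (Subgroup.subset_closure ⟨_, rfl⟩))))) (y :: x :: m)
        (by simpa using e) (fun s hs => hl s (by
          rcases List.mem_cons.1 hs with rfl | hs
          · simp
          · exact List.mem_append_left _ hs)) (by
          rw [show (g * (y.1 * v y.2)⁻¹)⁻¹ * t * (g * (y.1 * v y.2)⁻¹) =
            y.1 * v y.2 * (g⁻¹ * t * g) * (y.1 * v y.2)⁻¹ by group, e', _root_.Pool.Agent.P.MP_dba3d2_lc.C2_rw.wval_append,
            C2_rw.wval_cons y, C2_rw.wval_cons y, C2_rw.wval_nil]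
          group)
      refine Or.inl ⟨_, hne, e', fin ?_⟩
      have h2 := (List.isChain_cons_cons.1 this.2).1
      rw [List.getLast?_concat]
      simpa using h2

end Pool.Agent.P.MP_dba3d2_lc


end

section

/-! Step C2_G2 of the stability project. -/

namespace Pool.Agent.P.MP_dba3d2_lc

open Filter

namespace C2_g2

variable {Γ : HG} {a : Amb} {μ : a.K} {B T : Subgroup (MM Γ a)} {W S : Set (MM Γ a)}
  {g h h' m p q x y c : MM Γ a}

theorem tr (h : On μ p g (g * x)) : On μ (g⁻¹ * p) 1 x := by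
  simpa using h.mul g⁻¹

theorem st (h : Stab μ (g⁻¹ * p) (g⁻¹ * q) c) : Stab μ p q (g * c * g⁻¹) := by
  simpa using (stab_conj g).2 h

theorem g20 (hE : S_ELEM) (hL : S_LINE) (hP : S_PERC) (D : TopD μ B T W S) (hh : h ∈ T)
    (hn : Ls μ (ds p q)) (hp : On μ p 1 h) (hq : On μ q 1 h) (hper : Per μ p q) :
    ∃ c ∈ T, Prim c ∧ Stab μ p q c := by
  have hμ := D.big
  obtain ⟨d, hd, sd⟩ := hper
  have key := D.cut (fun p' q' => On μ p' p q ∧ On μ q' p q ∧ Ls μ (ds p' q')) False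
    (fun _ _ e => e.2.2) (fun p' q' m e hm =>
      have om := On.conv hμ e.1 e.2.1 hm
      (Ls.add_cases (e.2.2.mono_right (ds_tri p' m q'))).elim (fun x => Or.inl ⟨e.1, om, x⟩)
        fun x => Or.inr (Or.inl ⟨om, e.2.1, x⟩)) hh 1 (by simpa using hp) (by simpa using hq)
    ⟨on_left hμ.pos.le _ _, on_right hμ.pos.le _ _, hn⟩
  obtain ⟨g, hg, w, hw, p', q', ⟨n1, n2, n3⟩, o1, o2⟩ := key.resolve_left id
  rw [one_mul] at o1 o2
  have sd' := sd.sub hμ n1 n2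
  obtain ⟨c, hc, pc, sc⟩ := D.w20 w hw _ _ (by rwa [ds_mul_left]) (tr o1) (tr o2)
    ((per_mul_iff _).2 ⟨d, hd, sd'⟩)
  have he := Ep_eq_of_stab hE hP hμ n3 (pc.conj g).1 hd (st sc) sd'
  exact ⟨g * c * g⁻¹, mul_mem (mul_mem hg hc) (inv_mem hg), pc.conj g,
    (pc.conj g).fix hE hL hd he sd.1, (pc.conj g).fix hE hL hd he sd.2⟩

/-- two periodic halves of a nonperiodic segment -/
theorem joint (hE : S_ELEM) (hL : S_LINE) (hP : S_PERC) (hR : S_RIG) (D : TopD μ B T W S)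
    (hh : h ∈ T) (hh' : h' ∈ T) (x1 : On μ x 1 h) (m1 : On μ m 1 h) (y1 : On μ y 1 h)
    (x2 : On μ x g (g * h')) (m2 : On μ m g (g * h')) (y2 : On μ y g (g * h'))
    (n1 : Ls μ (ds x m)) (n2 : Ls μ (ds m y)) (p1 : Per μ x m) (p2 : Per μ m y)
    (np : ¬ Per μ x y) : g ∈ T := by
  have hμ := D.big
  obtain ⟨c, hc, pc, sc⟩ := g20 hE hL hP D hh n1 x1 m1 p1
  obtain ⟨d, hd, pd, sd⟩ := g20 hE hL hP D hh n2 m1 y1 p2
  obtain ⟨c', hc', pc', sc'⟩ := g20 hE hL hP D hh' (by rwa [ds_mul_left]) (tr x2) (tr m2)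
    ((per_mul_iff _).2 p1)
  obtain ⟨d', hd', pd', sd'⟩ := g20 hE hL hP D hh' (by rwa [ds_mul_left]) (tr m2) (tr y2)
    ((per_mul_iff _).2 p2)
  have ne : Ep c ≠ Ep d := fun e => np ⟨c, pc.1, sc.1, pc.fix hE hL pd.1 e sd.2⟩
  obtain ⟨t, ht, t1, t2⟩ := D.star c hc d hd pc.1 pd.1 m sc.2 sd.1
  obtain ⟨t', ht', t1', t2'⟩ := D.star c' hc' d' hd' pc'.1 pd'.1 _ sc'.2 sd'.1
  have j1 : Cj g c' c := Ep_eq_of_stab hE hP hμ n1 (pc'.conj g).1 pc.1 (st sc') sc
  have j2 : Cj g d' d := Ep_eq_of_stab hE hP hμ n2 (pd'.conj g).1 pd.1 (st sd') sd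
  have := D.le ((hR Γ a B D.gc).1 _ t1 _ t2 _ t1' _ t2' (pc.conj' t).1 (pd.conj' t).1
    (pc'.conj' t').1 (pd'.conj' t').1 (fun e => ne ((Ep_conj_iff' t).1 e)) _ (j1.conj t t')
    (j2.conj t t'))
  simpa [mul_assoc] using mul_mem (mul_mem ht this) (inv_mem ht')

theorem g2 (hE : S_ELEM) (hL : S_LINE) (hP : S_PERC) (hR : S_RIG) (D : TopD μ B T W S)
    (hh : h ∈ T) (hh' : h' ∈ T) (ov : Ov μ p q 1 h g (g * h')) (np : ¬ Per μ p q) : g ∈ T := by
  have hμ := D.big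
  have h0 := hμ.pos.le
  obtain ⟨hn, a1, a2, b1, b2⟩ := ov
  have hc : ∀ p' q' m, (On μ p' p q ∧ On μ q' p q ∧ Ls μ (ds p' q') ∧ ¬ Per μ p' q') →
      On μ m p' q' → (On μ p' p q ∧ On μ m p q ∧ Ls μ (ds p' m) ∧ ¬ Per μ p' m) ∨
        (On μ m p q ∧ On μ q' p q ∧ Ls μ (ds m q') ∧ ¬ Per μ m q') ∨ g ∈ T := by
    rintro p' q' m ⟨e1, e2, e3, e4⟩ hm
    have om := On.conv hμ e1 e2 hm
    have tri := ds_tri p' m q'
    rcases ll_or_ls hμ.pos (ds p' m) with u | u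
    · exact Or.inr (Or.inl ⟨om, e2, e3.of_le_add u hμ.pos 1 (by push_cast; linarith),
        fun e => e4 (e.congr (FixA.ll_comm u) (FixA.ll_self h0 _))⟩)
    rcases ll_or_ls hμ.pos (ds m q') with v | v
    · exact Or.inl ⟨e1, om, u, fun e => e4 (e.congr (FixA.ll_self h0 _) v)⟩
    by_cases k1 : Per μ p' m
    · by_cases k2 : Per μ m q'
      · exact Or.inr (Or.inr (joint hE hL hP hR D hh hh' (a1.conv hμ a2 e1) (a1.conv hμ a2 om)
          (a1.conv hμ a2 e2) (b1.conv hμ b2 e1) (b1.conv hμ b2 om) (b1.conv hμ b2 e2) u v k1 k2 e4))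
      · exact Or.inr (Or.inl ⟨om, e2, v, k2⟩)
    · exact Or.inl ⟨e1, om, u, k1⟩
  rcases D.cut _ _ (fun _ _ e => e.2.2.1) hc hh 1 (by simpa using a1) (by simpa using a2)
    ⟨on_left h0 _ _, on_right h0 _ _, hn, np⟩ with e | ⟨g1, hg1, w, hw, p1, q1, n1, o1, o2⟩
  · exact e
  rw [one_mul] at o1 o2
  rcases D.cut (fun p' q' => (On μ p' p q ∧ On μ q' p q ∧ Ls μ (ds p' q') ∧ ¬ Per μ p' q') ∧
      On μ p' g1 (g1 * w) ∧ On μ q' g1 (g1 * w)) (g ∈ T) (fun _ _ e => e.1.2.2.1)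
    (fun p' q' m e hm =>
      have om := On.conv hμ e.2.1 e.2.2 hm
      (hc p' q' m e.1 hm).imp (fun x => ⟨x, e.2.1, om⟩) (Or.imp_left fun x => ⟨x, om, e.2.2⟩))
    hh' g (b1.conv hμ b2 n1.1) (b1.conv hμ b2 n1.2.1) ⟨n1, o1, o2⟩ with
    e | ⟨g2, hg2, w', hw', p2, q2, ⟨⟨-, -, n2, n3⟩, o3, o4⟩, o5, o6⟩
  · exact e
  have := D.w2 w hw w' hw' (g1⁻¹ * (g * g2)) (g1⁻¹ * p2) (g1⁻¹ * q2)
    ⟨by rwa [ds_mul_left], tr o3, tr o4, by simpa only [mul_assoc] using o5.mul g1⁻¹,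
      by simpa only [mul_assoc] using o6.mul g1⁻¹⟩ (mt (per_mul_iff _).1 n3)
  simpa [mul_assoc] using mul_mem (mul_mem hg1 this) (inv_mem hg2)

end C2_g2

theorem p_C2_G2 (hELEM : S_ELEM) (hLINE : S_LINE) (hPERC : S_PERC) (hRIG : S_RIG) :
    S_C2_G2 := fun _ _ _ _ _ _ _ D =>
  ⟨fun _ hh _ _ hn hp hq h => C2_g2.g20 hELEM hLINE hPERC D hh hn hp hq h,
    fun _ hh _ hh' _ _ _ ov np => C2_g2.g2 hELEM hLINE hPERC hRIG D hh hh' ov np⟩

end Pool.Agent.P.MP_dba3d2_lc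


end

section

/-! Step C2_TPC of the stability project. -/

namespace Pool.Agent.P.MP_dba3d2_lc

open Filter

namespace C2TpcA

variable {Γ : HG} {a : Amb} {μ : a.K} {B T : Subgroup (MM Γ a)} {W S : Set (MM Γ a)}
  {c f : MM Γ a}

theorem red (D : TopD μ B T W S) (hc : c ∈ T) (h : ¬ IsOfFinOrder c) (hm : Ll (md c) μ) :
    ∃ t ∈ T, t⁻¹ * c * t ∈ B := by
  obtain ⟨q, hq⟩ := exists_md_ds c
  obtain ⟨t, ht, h1, -⟩ := D.star c hc c hc h h q (hq ▸ hm) (hq ▸ hm)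
  exact ⟨t, ht, h1⟩

theorem int_exp (hE : S_ELEM) (hL : S_LINE) (hc : Prim c) (hf : f ∈ Ep c)
    (hm : Ls (md f) (md c)) : ∃ j : ℤ, IsOfFinOrder (f⁻¹ * c ^ j) := by
  obtain ⟨k, hk⟩ := hc.2 f hf
  have h1 := pow_sq_eq hE hc.1 hf (ipow_mem_Ep c k) hk
  rw [ipow_pow] at h1
  obtain ⟨q, hq⟩ := exists_md_ds c
  obtain ⟨L, hs, h2⟩ := (hL Γ a c q hc.1 (Ls.of_le hq.le)).1
  have h3 := (h2 (k * ((Γ.e * Γ.e : ℕ) : a.Z))).2.2
  have hL0 : 0 < L := hs.2.pos (zero_lt_one.trans_le (one_le_md' hc.1))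
  have he : (0 : a.K) < ((Γ.e * Γ.e : ℕ) : a.K) :=
    Nat.cast_pos.2 (Nat.pos_of_ne_zero (ee_ne_zero Γ))
  rw [← h1, zK_mul, zK_natCast, abs_mul, abs_of_pos he] at h3
  have h4 : |zK k| * L ≤ md f :=
    le_of_mul_le_mul_left (by linarith [md_pow_le f (Γ.e * Γ.e)]) he
  obtain ⟨n, hn⟩ := hm.trans' hs.2
  have h5 : |zK k| ≤ n := le_of_mul_le_mul_right (h4.trans hn) hL0
  obtain ⟨j, rfl⟩ := exists_int_of_not_big (not_big_of_ls (Ls.of_le h5) (not_big_nat n))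
  exact ⟨j, by rwa [ipow_intCast] at hk⟩

end C2TpcA

open C2TpcA in
theorem p_C2_TPC (hELEM : S_ELEM) (hLINE : S_LINE) :
    S_C2_TPC := by
  intro Γ a μ B T W S D
  have hμ := D.big
  have h0 := hμ.pos
  have hmd : ∀ f ∈ T, Ls (md f) μ := fun f hf => Ls.mono_left (md_le_ln f) (ball_ls hμ D.bd hf)
  refine ⟨fun c hc hp f hf _ hm => ?_, fun c hc hp f hf hfc n hn => ?_,
    fun c hc c' hc' h h' => ?_⟩
  · obtain ⟨t, ht, h1⟩ := red D hc hp.1 (hm.ls_right (hmd f hf) h0.le)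
    exact ⟨t, ht, Or.inl h1⟩
  · rcases ll_or_ls h0 (md c) with hm | hm
    · obtain ⟨t, ht, h1⟩ := red D hc hp.1 hm
      obtain ⟨g, hg, hg', r, hr⟩ := D.pur1 _ h1 (hp.conj' t) (t⁻¹ * f * t)
        (mul_mem (mul_mem (inv_mem ht) hf) ht)
        (mem_Ep_conj'.2 (by rwa [show t * (t⁻¹ * f * t) * t⁻¹ = f by group])) n hn
      refine ⟨t * g * t⁻¹, mul_mem (mul_mem ht hg) (inv_mem ht), mem_Ep_conj'.1 hg', r, ?_⟩
      have e : (t⁻¹ * c * t) ^ r = t⁻¹ * c ^ r * t := by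
        simpa using conj_pow (a := t⁻¹) (b := c) (i := r)
      rw [e, ← finOrder_conj t] at hr
      rw [conj_pow]
      exact (show t * ((t⁻¹ * f * t)⁻¹ * (g ^ n * (t⁻¹ * c ^ r * t))) * t⁻¹ =
        f⁻¹ * (t * g ^ n * t⁻¹ * c ^ r) by group) ▸ hr
    · obtain ⟨j, hj⟩ := int_exp hELEM hLINE hp hfc ((hmd f hf).trans' hm)
      refine ⟨c ^ (j / n), zpow_mem hc _, zpow_mem (self_mem_Ep c) _, (j % n).toNat, ?_⟩
      rw [← zpow_natCast, ← zpow_natCast c, ← zpow_mul, ← zpow_add,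
        Int.toNat_of_nonneg (Int.emod_nonneg _ (by exact_mod_cast hn.ne')),
        Int.ediv_mul_add_emod]
      exact hj
  · by_cases hB : c ∈ B ∧ c' ∈ B
    · obtain ⟨p, hp, k⟩ := D.gc.cen c hB.1 c' hB.2 h h'
      exact ⟨p, D.le hp, k⟩
    have hs : Ls μ (ln c + ln c') := by
      rcases not_and_or.1 hB with k | k
      · exact (D.top c hc k).mono_right (le_add_of_nonneg_right (ln_nonneg _))
      · exact (D.top c' hc' k).mono_right (le_add_of_nonneg_left (ln_nonneg _))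
    obtain ⟨q0, hq0, -⟩ := exists_min_disp c c'
    rcases ll_or_ls h0 (ds q0 (c * q0) + ds q0 (c' * q0)) with hm | hm
    · obtain ⟨t, ht, h1, h2⟩ := D.star c hc c' hc' h h' q0
        (Ll.mono_left (le_add_of_nonneg_right (ds_nonneg _ _)) hm)
        (Ll.mono_left (le_add_of_nonneg_left (ds_nonneg _ _)) hm)
      obtain ⟨p, hp, -, k⟩ := D.gc.cen _ h1 _ h2 (mt (finOrder_conj' t c).1 h)
        (mt (finOrder_conj' t c').1 h')
      have hpT := mul_mem ht (D.le hp)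
      refine ⟨t * p, hpT, (ball_ls hμ D.bd hpT).trans' hs, fun q => ?_⟩
      have e1 : ∀ x, p⁻¹ * (t⁻¹ * x * t) * p = (t * p)⁻¹ * x * (t * p) := fun x => by group
      have e2 : ∀ x, (t⁻¹ * q)⁻¹ * (t⁻¹ * x * t) * (t⁻¹ * q) = q⁻¹ * x * q := fun x => by group
      have := k (t⁻¹ * q)
      rwa [e1, e1, e2, e2] at this
    · refine ⟨1, one_mem _, ?_, fun q => ?_⟩
      · rw [ln_one]
        exact Ls.zero (add_nonneg (ln_nonneg _) (ln_nonneg _))
      · rw [inv_one, one_mul, one_mul, mul_one, mul_one, ← ds_conj, ← ds_conj]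
        exact (((ball_ls hμ D.bd hc).add (ball_ls hμ D.bd hc')).trans' hm).mono_right (hq0 q)

end Pool.Agent.P.MP_dba3d2_lc


end

section

/-! Step C2_TOP of the stability project. -/

namespace Pool.Agent.P.MP_dba3d2_lc

open Filter

namespace C2top

variable {Γ : HG} {a : Amb} {μ ν : a.K} {B T : Subgroup (MM Γ a)} {W S : Set (MM Γ a)}

theorem rx (hX : S_C2_RX) (D : TopD μ B T W S) {h : MM Γ a} (hh : h ∈ T) :
    ∀ d ∈ T, Prim d → Ll (md d) μ → Rx μ T d 1 h := by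
  have hT : ∀ x ∈ Subgroup.closure S, x ∈ T := fun x hx => D.gen ▸ hx
  have hh' : h ∈ Subgroup.closure S := D.gen ▸ hh
  clear hh
  induction hh' using Subgroup.closure_induction with
  | mem x hx => exact D.ex1 x hx
  | one =>
    intro d _ _ _
    refine ⟨1, one_mem _, one_mem _, Ll.of_nonpos ?_ D.big.pos.le⟩
    have := ds_nonneg 1 (d * 1)
    rw [mul_one (1 : MM Γ a), ds_self]
    linarith
  | mul x y hx hy ihx ihy =>
    intro d hd hp hm
    obtain ⟨-, r2, r3, -⟩ := hX Γ a μ T d D.big hp.1 hm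
    have hx' := hT x hx
    have k := r3 x hx' 1 y (ihy _ (mul_mem (mul_mem (inv_mem hx') hd) hx') (hp.conj' x)
      (by rwa [md_conj]))
    rw [mul_one] at k
    exact r2 _ _ _ (ihx d hd hp hm) k
  | inv x hx ih =>
    intro d hd hp hm
    obtain ⟨r1, -, r3, -⟩ := hX Γ a μ T d D.big hp.1 hm
    have hx' := hT x hx
    have k := r3 x⁻¹ (inv_mem hx') 1 x (ih _ (mul_mem (mul_mem (inv_mem (inv_mem hx')) hd)
      (inv_mem hx')) (hp.conj' x⁻¹) (by rwa [md_conj]))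
    rw [mul_one, inv_mul_cancel] at k
    exact r1 _ _ k

theorem small (D : TopD μ B T W S) (e : Ll ν μ) {h : MM Γ a} (hh : h ∈ T) (hl : Ls (ln h) ν) :
    h ∈ B :=
  by_contra fun k => (Ll.ls_left hl e).not_ls D.big.pos (D.top h hh k)

theorem sim (D : TopD μ B T W S) (hν : Big ν) (e : Ls μ ν) {h p q : MM Γ a} (hh : h ∈ T)
    (hn : Ls ν (ds p q)) (hp : On ν p 1 h) (hq : On ν q 1 h) : Sim μ ν :=
  ⟨e, (On.nondeg hν hp hq hn).trans' (by simpa using ball_ls D.big D.bd hh)⟩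

end C2top

open C2top in
theorem p_C2_TOP (hC2_RX : S_C2_RX) (hC2_G2 : S_C2_G2) (hC2_TPC : S_C2_TPC) :
    S_C2_TOP := by
  intro Γ a μ B T W S D
  obtain ⟨t1, t2, t3⟩ := hC2_TPC Γ a μ B T W S D
  obtain ⟨g1, g2⟩ := hC2_G2 Γ a μ B T W S D
  have h0 := D.big.pos
  refine ⟨⟨D.gc.base.trans D.le, ?_, ?_, ?_, t2, t3⟩, t1⟩
  · intro ν hν h hh h' hh' l l' g p q o n
    rcases ll_or_ls h0 ν with e | e
    · exact D.le (D.gc.g2 ν hν h (small D e hh l) h' (small D e hh' l') l l' g p q o n)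
    · have s := sim D hν e hh o.1 o.2.1 o.2.2.1
      exact g2 h hh h' hh' g p q ((s.ov_iff h0.le hν.pos.le).2 o)
        (mt (s.per_iff h0.le hν.pos.le).1 n)
  · intro ν hν h hh l p q hn hp hq n
    rcases ll_or_ls h0 ν with e | e
    · obtain ⟨c, hc, k⟩ := D.gc.g20 ν hν h (small D e hh l) l p q hn hp hq n
      exact ⟨c, D.le hc, k⟩
    · have s := sim D hν e hh hn hp hq
      obtain ⟨c, hc, k1, k2⟩ := g1 h hh p q (e.trans' hn) ((s.on_iff h0.le hν.pos.le).2 hp)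
        ((s.on_iff h0.le hν.pos.le).2 hq) ((s.per_iff h0.le hν.pos.le).2 n)
      exact ⟨c, hc, k1, (s.stab_iff h0.le hν.pos.le).1 k2⟩
  · intro ν hν h hh l c hc hp lc hm
    rcases ll_or_ls h0 ν with e | e
    · obtain ⟨f, hf, k⟩ := D.gc.ex ν hν h (small D e hh l) l c (small D e hc lc) hp lc hm
      exact ⟨f, D.le hf, k⟩
    rcases ll_or_ls hν.pos μ with e' | e'
    · refine ⟨1, one_mem _, one_mem _,
        (Ll.ls_left (ball_ls D.big D.bd hh) e').two.mono_left ?_⟩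
      have := ln_nonneg c
      have := ln_nonneg (h⁻¹ * c * h)
      rw [ds_one_left]
      linarith
    · obtain ⟨f, f1, f2, k⟩ := rx hC2_RX D hh c hc hp (hm.ls_right e' h0.le)
      rw [mul_one f, ds_one_mul, ds_conj] at k
      exact ⟨f, f1, f2, k.ls_right e hν.pos.le⟩

end Pool.Agent.P.MP_dba3d2_lc


end

section

/-! Step C2_HST of the stability project. -/

namespace Pool.Agent.P.MP_dba3d2_lc

open Filter

namespace C2hst

variable {Γ : HG} {a : Amb} {μ : a.K} {d d' m z : MM Γ a}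

/-- a segment with a nonperiodic germ is not covered by two periodic segments -/
theorem npg_two (hμ : Big μ) (hz : Npg μ z) (hd : ¬ IsOfFinOrder d) (hd' : ¬ IsOfFinOrder d')
    (hm : On μ m 1 z) (h1 : Stab μ 1 m d) (h2 : Stab μ m z d') : False := by
  obtain ⟨t, t', ht, ht', hb, N⟩ := hz
  have h0 := hμ.pos.le
  have fin : ∀ e, ¬ IsOfFinOrder e → Stab μ t t' e → False := fun e he hs =>
    N t' (on_right h0 _ _) hb ⟨e, he, hs⟩
  rcases On.total hμ ht hm with a1 | a1 <;> rcases On.total hμ ht' hm with a2 | a2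
  · exact fin d hd (h1.sub hμ a1.1 a2.1)
  · rcases ll_or_ls hμ.pos (ds t m) with e | e
    · exact fin d' hd' ⟨fix_congr h2.1 (FixA.ll_comm e), fix_conv hμ h2.1 h2.2 a2.2⟩
    · exact N m (On.sub a2.1 a1.1).2 e ⟨d, hd, h1.sub hμ a1.1 (on_right h0 _ _)⟩
  · rcases ll_or_ls hμ.pos (ds t m) with e | e
    · exact fin d hd ⟨fix_congr h1.2 (FixA.ll_comm e), fix_conv hμ h1.1 h1.2 a2.1⟩
    · exact N m (On.sub a1.1 a2.1).2.symm e ⟨d', hd', h2.sub hμ a1.2 (on_left h0 _ _)⟩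
  · exact fin d' hd' (h2.sub hμ a1.2 a2.2)

theorem centre {B T : Subgroup (MM Γ a)} (hB : GC0 B) (hBT : B ≤ T) {c g : MM Γ a}
    (hc : ¬ IsOfFinOrder c) (hm : Ll (md c) μ) (hg : g ∈ T) (h : g⁻¹ * c * g ∈ B) :
    ∃ u ∈ T, u⁻¹ * c * u ∈ B ∧ Ll (ds u (c * u)) μ := by
  obtain ⟨y, hy, -, hcen⟩ := hB.cen1 h (mt (finOrder_conj' g c).1 hc)
  have e : (g * y)⁻¹ * c * (g * y) = y⁻¹ * (g⁻¹ * c * g) * y := by group
  refine ⟨g * y, mul_mem hg (hBT hy), ?_, ?_⟩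
  · rw [e]
    exact mul_mem (mul_mem (inv_mem hy) h) hy
  · rw [ds_conj, e]
    exact hcen.ll (by rwa [md_conj, md_conj])

end C2hst

open C2hst in
theorem p_C2_HST (hELEM : S_ELEM) (hLINE : S_LINE) (hROOT : S_ROOT) :
    S_C2_HST := by
  intro Γ a μ B T hμ hB hBT hT hN
  refine ⟨fun t ht hn => ?_, fun c hc hp f hf hfc => ?_, fun H c hc c' hc' n n' x hx hx' => ?_⟩
  · obtain ⟨s, s', h1, h2, h3, -⟩ := hN t ht hn
    simpa using On.nondeg hμ h1 h2 h3
  · obtain ⟨y, hy, -, hcen⟩ := hB.cen1 hc hp.1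
    have hc0 : y⁻¹ * c * y ∈ B := mul_mem (mul_mem (inv_mem hy) hc) hy
    have hp0 := hp.conj' y
    have hf0 : y⁻¹ * f * y ∈ T := mul_mem (mul_mem (inv_mem (hBT hy)) hf) (hBT hy)
    have he : y⁻¹ * f * y ∈ Ep (y⁻¹ * c * y) := by
      rw [mem_Ep_conj']
      simpa [mul_assoc] using hfc
    have key : y⁻¹ * f * y ∈ B := by
      rcases ll_or_ls hμ.pos (md (y⁻¹ * c * y)) with e | e
      · by_contra hn
        have hs := hp0.stab_ep hELEM hLINE (hcen.ll e) he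
        exact npg_two hμ (hN _ hf0 hn) hp0.1 hp0.1 (on_right hμ.pos.le _ _) hs ⟨hs.2, hs.2⟩
      · exact ((hROOT Γ a B hB).2.1 _ hc0 _ hc0 hp0 hp0 _ (Cj.of_mem he)).2 hcen hcen
          ((ball_ls hμ hT hf0).trans' e)
    have e : f = y * (y⁻¹ * f * y) * y⁻¹ := by group
    rw [e]
    exact mul_mem (mul_mem hy key) (inv_mem hy)
  · have m1 : Ll (md c) μ := hx.mono_left (md_le_ds c x)
    have m2 : Ll (md c') μ := hx'.mono_left (md_le_ds c' x)
    obtain ⟨g, hg, b1⟩ := H c hc m1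
    obtain ⟨g', hg', b2⟩ := H c' hc' m2
    obtain ⟨u, hu, c1, c2⟩ := centre hB hBT n m1 hg b1
    obtain ⟨u', hu', d1, d2⟩ := centre hB hBT n' m2 hg' b2
    obtain ⟨m, o, s1, s2⟩ := two_fix hμ (u := u) (z := u') ⟨c2, hx⟩ ⟨d2, hx'⟩
    have hz : u⁻¹ * u' ∈ B := by
      by_contra hn
      refine npg_two (m := u⁻¹ * m) hμ (hN _ (mul_mem (inv_mem hu) hu') hn)
        (mt (finOrder_conj' u c).1 n) (mt (finOrder_conj' u c').1 n') ?_ ?_ ?_
      · simpa using o.mul u⁻¹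
      · rw [stab_conj']
        simpa using s1
      · rw [stab_conj']
        simpa using s2
    refine ⟨u, hu, c1, ?_⟩
    have e : u⁻¹ * c' * u = u⁻¹ * u' * (u'⁻¹ * c' * u') * (u⁻¹ * u')⁻¹ := by group
    rw [e]
    exact mul_mem (mul_mem hz d1) (inv_mem hz)

end Pool.Agent.P.MP_dba3d2_lc


end

section

/-! Step C2_HFIN of the stability project. -/

namespace Pool.Agent.P.MP_dba3d2_lc

open Filter

namespace C2hfin

variable {G : Type} [Group G] {B : Subgroup G} {ι : Type} {u : ι → G}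

/-- edges -/
abbrev W (B : Subgroup G) (ι : Type) : Type := Σ _ : ι, (G ⧸ B) × (G ⧸ B)

/-- the edge which starts at `g` -/
def ed (B : Subgroup G) (u : ι → G) (g : G) (i : ι) : W B ι := ⟨i, ((g : G ⧸ B), (g * u i : G))⟩

/-- incidence -/
def adj (B : Subgroup G) (u : ι → G) (v : G ⧸ B) (w : W B ι) : Prop :=
  (∃ g i, w = ed B u g i) ∧ (v = w.2.1 ∨ v = w.2.2)

/-- the edge crossed by a letter -/
def vx (B : Subgroup G) (u : ι → G) (y : G) (s : ι × Bool) : W B ι :=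
  bif s.2 then ed B u y s.1 else ed B u (y * (u s.1)⁻¹) s.1

theorem ed_eq {x : G} {i : ι} (y : G) (h1 : x ∈ B) (h2 : (u i)⁻¹ * x * u i ∈ B) :
    ed B u y i = ed B u (y * x) i := by
  have e1 : (y : G ⧸ B) = (y * x : G) := QuotientGroup.eq.2 (by rwa [inv_mul_cancel_left])
  have e2 : ((y * u i : G) : G ⧸ B) = (y * x * u i : G) := QuotientGroup.eq.2 (by
    rwa [show (y * u i)⁻¹ * (y * x * u i) = (u i)⁻¹ * x * u i by group])
  rw [ed, ed, ← e1, ← e2]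

theorem pinch {s s' : ι × Bool} {b : G} (y : G) (hb : b ∈ B) (h : HP B u s b s') :
    vx B u y s = vx B u (y * hv u s * b) s' := by
  obtain ⟨i, c⟩ := s
  obtain ⟨j, c'⟩ := s'
  obtain ⟨rfl, h1, h2⟩ : i = j ∧ c ≠ c' ∧ _ := h
  cases c <;> cases c'
  · exact absurd rfl h1
  · exact ed_eq _ hb h2
  · refine (ed_eq y h2 ?_).trans (congrArg (ed B u · i) ?_)
    · simpa [hv, mul_assoc] using hb
    · simp [hv, mul_assoc]
  · exact absurd rfl h1

theorem step {v v' : G ⧸ B} {w : W B ι} (h : adj B u v w) (h' : adj B u v' w) (hne : v ≠ v')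
    {g : G} (hg : v = g) : ∃ s : G × ι × Bool, s.1 ∈ B ∧ v' = (g * (s.1 * hv u s.2) : G) ∧
      w = vx B u (g * s.1) s.2 := by
  obtain ⟨⟨y, i, rfl⟩, h1⟩ := h
  rcases h1 with h1 | h1 <;> rcases h'.2 with h2 | h2
  · exact absurd (h1.trans h2.symm) hne
  · refine ⟨(g⁻¹ * y, i, true), QuotientGroup.eq.1 (hg.symm.trans h1), h2.trans ?_, ?_⟩
    · simp [hv, ed, mul_assoc]
    · simp [vx]
  · refine ⟨(g⁻¹ * (y * u i), i, false), QuotientGroup.eq.1 (hg.symm.trans h1), h2.trans ?_, ?_⟩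
    · simp [hv, ed, mul_assoc]
    · simp [vx]
  · exact absurd (h1.trans h2.symm) hne

theorem chain {v v' : G ⧸ B} {w : W B ι} (h : RCh (adj B u) v w v') : ∀ g : G, v = g →
    ∃ s l, WRed B (HP B u) (s :: l) ∧ v' = (g * wval (hv u) (s :: l) : G) ∧
      w = vx B u (g * s.1) s.2 := by
  induction h with
  | one h1 h2 h3 =>
    intro g hg
    obtain ⟨s, a1, a2, a3⟩ := step h1 h2 h3 hg
    exact ⟨s, [], ⟨by simpa using a1, List.IsChain.singleton _⟩, by simpa [wval] using a2, a3⟩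
  | cons h1 h2 h3 h4 _ ih =>
    intro g hg
    obtain ⟨s, a1, a2, a3⟩ := step h1 h2 h3 hg
    obtain ⟨s', l, b1, b2, b3⟩ := ih _ a2
    refine ⟨s, s' :: l, ⟨List.forall_mem_cons.2 ⟨a1, b1.1⟩, List.isChain_cons_cons.2
      ⟨fun hp => h4 ?_, b1.2⟩⟩, by simpa [wval, mul_assoc] using b2, a3⟩
    rw [a3, b3, pinch _ (b1.1 s' List.mem_cons_self) hp, mul_assoc g]

theorem symm {V W : Type} {A : V → W → Prop} {v v' : V} (h : Conn A v v') : Conn A v' v := by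
  induction h with
  | refl => exact Relation.ReflTransGen.refl
  | tail _ h ih =>
    obtain ⟨w, h1, h2⟩ := h
    exact Relation.ReflTransGen.head ⟨w, h2, h1⟩ ih

theorem conn (B : Subgroup G) (u : ι → G) {t : G} (ht : t ∈ B ⊔ Subgroup.closure (Set.range u))
    (g : G) : Conn (adj B u) (g : G ⧸ B) (g * t : G) := by
  let T : Subgroup G :=
    { carrier := {t | ∀ g : G, Conn (adj B u) (g : G ⧸ B) (g * t : G)}
      one_mem' := fun g => by rw [mul_one]; exact Relation.ReflTransGen.refl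
      mul_mem' := fun {a b} ha hb g => by
        rw [← mul_assoc]
        exact (ha g).trans (hb _)
      inv_mem' := fun {a} ha g => by
        have := ha (g * a⁻¹)
        rw [inv_mul_cancel_right] at this
        exact symm this }
  refine (sup_le (fun b hb g => ?_) ((Subgroup.closure_le _).2 ?_) : _ ≤ T) ht g
  · rw [QuotientGroup.mk_mul_of_mem g hb]
    exact Relation.ReflTransGen.refl
  · rintro _ ⟨i, rfl⟩ g
    exact Relation.ReflTransGen.single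
      ⟨ed B u g i, ⟨⟨g, i, rfl⟩, Or.inl rfl⟩, ⟨⟨g, i, rfl⟩, Or.inr rfl⟩⟩

theorem of_conn {v : G ⧸ B} (h : Conn (adj B u) ((1 : G) : G ⧸ B) v) :
    ∃ p ∈ B ⊔ Subgroup.closure (Set.range u), v = (p : G ⧸ B) := by
  induction h with
  | refl => exact ⟨1, one_mem _, rfl⟩
  | @tail v v' _ h ih =>
    obtain ⟨p, hp, e⟩ := ih
    obtain ⟨w, h1, h2⟩ := h
    by_cases hne : v = v'
    · exact ⟨p, hp, hne ▸ e⟩
    obtain ⟨⟨b, i, c⟩, a1, a2, -⟩ := step h1 h2 hne e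
    have m : u i ∈ B ⊔ Subgroup.closure (Set.range u) :=
      Subgroup.mem_sup_right (Subgroup.subset_closure ⟨i, rfl⟩)
    refine ⟨_, mul_mem hp (mul_mem (Subgroup.mem_sup_left a1) ?_), a2⟩
    cases c
    · exact inv_mem m
    · exact m

end C2hfin

open C2hfin in
theorem p_C2_HFIN (hC2_BIP : S_C2_BIP) :
    S_C2_HFIN := by
  intro G _ B ι u hB K hK hf
  obtain ⟨v, h1, h2⟩ := hC2_BIP G (G ⧸ B) (W B ι) (adj B u) K ((1 : G) : G ⧸ B)
    (fun v w v' h e => by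
      obtain ⟨g, rfl⟩ := QuotientGroup.mk_surjective v
      obtain ⟨s, l, a1, a2, -⟩ := chain h g rfl
      refine hB _ a1 (List.cons_ne_nil _ _) ?_
      simpa using QuotientGroup.eq.1 (e.trans a2)) hf
    (fun k _ v w h => by
      obtain ⟨⟨g, i, rfl⟩, h⟩ := h
      refine ⟨⟨k * g, i, ?_⟩, h.imp (congrArg (k • ·)) (congrArg (k • ·))⟩
      rw [ed, ed, mul_assoc]
      rfl)
    fun k hk => by
      have := conn B u (hK hk) 1
      rw [one_mul] at this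
      rwa [MulAction.Quotient.smul_mk, smul_eq_mul, mul_one]
  obtain ⟨p, hp, rfl⟩ := of_conn h1
  have h3 : ∀ k ∈ K, k • (p : G ⧸ B) = p := by
    rcases h2 with h2 | ⟨⟨i, x, y⟩, ⟨-, h | h⟩, h2⟩
    · exact h2
    · exact fun k hk => h ▸ congrArg (fun w : W B ι => w.2.1) (h2 k hk)
    · exact fun k hk => h ▸ congrArg (fun w : W B ι => w.2.2) (h2 k hk)
  refine ⟨p, hp, fun k hk => ?_⟩
  rw [mul_assoc]
  exact QuotientGroup.eq.1 (h3 k hk).symm

end Pool.Agent.P.MP_dba3d2_lc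


end

section

/-! Step C2_RW3 of the stability project. -/

namespace Pool.Agent.P.MP_dba3d2_lc

open Filter

theorem C2_rw3.fst_wval {G G' Λ : Type} [Group G] [Group G'] (v : Λ → G) (ν : Λ → G')
    (l : List ((G × G') × Λ)) :
    (wval (fun s => (v s, ν s)) l).1 = wval v (l.map fun s => (s.1.1, s.2)) := by
  induction l with
  | nil => rfl
  | cons s l ih =>
    simp only [wval, List.map_cons, List.prod_cons, Prod.fst_mul] at ih ⊢
    rw [ih]

theorem p_C2_RW3 (hC2_RW : S_C2_RW) :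
    S_C2_RW3 := by
  intro G G' _ _ B Λ v P θ0 ν hBr hinv hred T hT
  have hWS : WS (B.subtype.prod θ0).range (fun s => (v s, ν s)) fun s b s' => P s b.1 s' := by
    refine ⟨fun s => ?_, ?_⟩
    · obtain ⟨s', h1, h2⟩ := hinv s
      exact ⟨s', Prod.ext h1 h2⟩
    · rintro s _ s' ⟨b, rfl⟩ h
      rcases hred s b s' h with ⟨x, h1, h2⟩ | ⟨s'', x, y, h1, h2⟩
      · exact Or.inl ⟨x, Prod.ext h1.symm h2.symm⟩
      · exact Or.inr ⟨s'', _, ⟨x, rfl⟩, _, ⟨y, rfl⟩, Prod.ext h1 h2⟩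
  obtain ⟨T', hT'⟩ : ∃ T' : Subgroup (G × G'), T' = (B.subtype.prod θ0).range ⊔
    Subgroup.closure (Set.range fun s => (v s, ν s)) := ⟨_, rfl⟩
  have inj : ∀ t ∈ T', t.1 = 1 → t = 1 := by
    intro t ht h1
    obtain ⟨⟨l, _, ⟨b, rfl⟩, hl, e⟩, -⟩ := hC2_RW _ _ _ _ _ hWS t (hT' ▸ ht)
    have e1 : wval v (l.map fun s => (s.1.1, s.2)) * b = 1 := by
      rw [← C2_rw3.fst_wval v ν, ← h1, e]
      rfl
    have hn : l.map (fun s => (s.1.1, s.2)) = [] := by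
      by_contra hn
      refine hBr _ ⟨fun s hs => ?_, (List.isChain_map _).2 hl.2⟩ hn ?_
      · obtain ⟨s', hs', rfl⟩ := List.mem_map.1 hs
        obtain ⟨x, hx⟩ := hl.1 s' hs'
        rw [← hx]
        exact x.2
      · rw [eq_inv_of_mul_eq_one_left e1]
        exact B.inv_mem b.2
    rw [hn] at e1
    rw [List.map_eq_nil_iff.1 hn] at e
    have hb : b = 1 := Subtype.ext (by simpa [wval] using e1)
    rw [e, hb, map_one, mul_one]
    rfl
  have hmap : T'.map (MonoidHom.fst G G') = T := by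
    rw [hT', hT, Subgroup.map_sup, MonoidHom.map_closure, ← Set.range_comp,
      MonoidHom.map_range, MonoidHom.fst_comp_prod, Subgroup.range_subtype]
    rfl
  let f : T' →* T := ((MonoidHom.fst G G').comp T'.subtype).codRestrict T fun t =>
    hmap ▸ Subgroup.mem_map_of_mem _ t.2
  have hf : Function.Bijective f := by
    refine ⟨(injective_iff_map_eq_one f).2 fun t ht =>
      Subtype.ext (inj t t.2 (congrArg Subtype.val ht)), fun t => ?_⟩
    obtain ⟨x, hx, e⟩ := Subgroup.mem_map.1 (hmap.symm ▸ t.2 : (t : G) ∈ T'.map (MonoidHom.fst G G'))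
    exact ⟨⟨x, hx⟩, Subtype.ext e⟩
  have key : ∀ (t : T) (x : G × G'), x ∈ T' → (t : G) = x.1 →
      (((MulEquiv.ofBijective f hf).symm t : T') : G × G').2 = x.2 := fun t x hx e => by
    rw [(MulEquiv.ofBijective f hf).symm_apply_eq.2 (show t = f ⟨x, hx⟩ from Subtype.ext e)]
  refine ⟨((MonoidHom.snd G G').comp T'.subtype).comp (MulEquiv.ofBijective f hf).symm.toMonoidHom,
    fun t x e => key t (x, θ0 x) ?_ e, fun t s e => key t (v s, ν s) ?_ e⟩
  · rw [hT']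
    exact Subgroup.mem_sup_left ⟨x, rfl⟩
  · rw [hT']
    exact Subgroup.mem_sup_right (Subgroup.subset_closure ⟨s, rfl⟩)

end Pool.Agent.P.MP_dba3d2_lc


end

section

/-! Step C2_HEXT of the stability project. -/

namespace Pool.Agent.P.MP_dba3d2_lc

open Filter

theorem p_C2_HEXT (hC2_RW3 : S_C2_RW3) :
    S_C2_HEXT := by
  intro Γ a B r u hW G _ θ0 ν hν
  have hT : B ⊔ Subgroup.closure (Set.range u) = B ⊔ Subgroup.closure (Set.range (hv u)) := by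
    congr 1
    apply le_antisymm
    · refine (Subgroup.closure_le _).2 ?_
      rintro _ ⟨i, rfl⟩
      exact Subgroup.subset_closure ⟨(i, true), rfl⟩
    · refine (Subgroup.closure_le _).2 ?_
      rintro _ ⟨⟨i, _ | _⟩, rfl⟩
      · exact inv_mem (Subgroup.subset_closure ⟨i, rfl⟩ : u i ∈ Subgroup.closure (Set.range u))
      · exact Subgroup.subset_closure ⟨i, rfl⟩
  obtain ⟨θ, h1, h2⟩ := hC2_RW3 _ G B _ (hv u) (HP B u) θ0 (hv ν) hW
    (by
      rintro ⟨i, _ | _⟩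
      · exact ⟨(i, true), (inv_inv _).symm, (inv_inv _).symm⟩
      · exact ⟨(i, false), rfl, rfl⟩)
    (by
      rintro ⟨i, s⟩ b ⟨j, t⟩ ⟨e, hne, hm⟩
      obtain rfl : i = j := e
      refine Or.inl ⟨⟨_, hm⟩, rfl, ?_⟩
      cases s <;> cases t
      · exact absurd rfl hne
      · exact (hν i b ⟨_, hm⟩ rfl).symm
      · have := hν i ⟨_, hm⟩ b (by
          show (b : MM Γ a) = (u i)⁻¹ * (u i * b * (u i)⁻¹) * u i
          group)
        show ν i * θ0 b * (ν i)⁻¹ = _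
        rw [this]
        group
      · exact absurd rfl hne) _ hT
  exact ⟨θ, fun x => h1 _ x rfl, fun i => h2 _ (i, true) rfl⟩

end Pool.Agent.P.MP_dba3d2_lc


end

section

/-! Step C2_PJN of the stability project. -/

namespace Pool.Agent.P.MP_dba3d2_lc

open Filter

namespace C2_pjn

variable {Γ : HG} {a : Amb} {μ : a.K} {B : Subgroup (MM Γ a)} {p h α α' β β' g q y y' z : MM Γ a}

theorem not_mem (D : PtD μ B p h) : p ∉ B := fun hp =>
  (FixA.ll_self D.big.pos.le p).not_ls D.big.pos (D.far p hp)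

theorem on_h (D : PtD μ B p h) (hα : α = 1 ∨ α = p) : On μ α 1 h := by
  rcases hα with rfl | rfl
  exacts [on_left D.big.pos.le _ _, D.on]

theorem hl (D : PtD μ B p h) (hα : α = 1 ∨ α = p) (hα' : α' = 1 ∨ α' = p) (hβ : β ∈ B) :
    ∃ y ∈ B, ∃ y' ∈ B, On μ α y y' ∧ On μ (β * α') y y' := by
  obtain ⟨u, hu, w, hw, k⟩ := hull D.big (on_h D hα) ((on_h D hα').mul β)
  refine ⟨u, ?_, w, ?_, k⟩
  · rcases hu with rfl | rfl
    exacts [one_mem _, D.mem]
  · rcases hw with rfl | rfl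
    exacts [mul_mem hβ (one_mem _), mul_mem hβ D.mem]

theorem on_germ (D : PtD μ B p h) (hα : α = 1 ∨ α = p) (hβ : β ∈ B)
    (hq : On μ q 1 (p⁻¹ * β * α)) : ∃ y ∈ B, ∃ y' ∈ B, On μ p y y' ∧ On μ (p * q) y y' := by
  obtain ⟨y, hy, y', hy', k1, k2⟩ := hl D (Or.inr rfl) hα hβ
  have := hq.mul p
  rw [mul_one, mul_assoc, mul_inv_cancel_left] at this
  exact ⟨y, hy, y', hy', k1, On.conv D.big k1 k2 this⟩

theorem germ (D : PtD μ B p h) (hα : α = 1 ∨ α = p) (hβ : β ∈ B)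
    (hq : On μ q 1 (p⁻¹ * β * α)) (hb : Ls μ (ln q)) : ¬ Per μ p (p * q) := fun hP => by
  obtain ⟨y, hy, y', hy', k1, k2⟩ := on_germ D hα hβ hq
  obtain ⟨c, hc, c1, c2⟩ := D.gc.g20' D.big hy hy' (ball_ds D.big D.bd hy hy')
    (by rwa [ds_mul_right]) k1 k2 hP
  exact c1.1 (D.fix c hc c2.1).2

theorem key (D : PtD μ B p h) (hα : α = 1 ∨ α = p) (hβ : β ∈ B)
    (hq : On μ q 1 (p⁻¹ * β * α)) (hb : Ls μ (ln q)) (hy : y ∈ B) (hy' : y' ∈ B)
    (h1 : On μ p (g * y) (g * y')) (h2 : On μ (p * q) (g * y) (g * y')) : g ∈ B := by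
  obtain ⟨x, hx, x', hx', k1, k2⟩ := on_germ D hα hβ hq
  exact D.gc.g2' D.big hx hx' hy hy' (ball_ds D.big D.bd hx hx') (ball_ds D.big D.bd hy hy')
    ⟨by rwa [ds_mul_right], k1, k2, h1, h2⟩ (germ D hα hβ hq hb)

theorem jn1 (D : PtD μ B p h) (hα : α = 1 ∨ α = p) (hα' : α' = 1 ∨ α' = p) (hβ : β ∈ B)
    (hβ' : β' ∈ B) : On μ 1 (p⁻¹ * β * α) (β' * α') := by
  by_contra hn
  obtain ⟨q, hb, q1, q2⟩ := exists_ovl D.big hn
  obtain ⟨y, hy, y', hy', k1, k2⟩ := hl D (Or.inl rfl) hα' hβ'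
  exact not_mem D (key D hα hβ q1 hb hy hy' (by simpa using k1.mul p)
    ((On.conv D.big k1 k2 q2).mul p))

theorem jn2 (D : PtD μ B p h) (hα : α = 1 ∨ α = p) (hα' : α' = 1 ∨ α' = p) (hβ : β ∈ B)
    (hβ' : β' ∈ B) (hz : Ll (ln z) μ) (hz' : p * z * p⁻¹ ∉ B) :
    On μ 1 (p⁻¹ * β * α) (z * (p⁻¹ * β' * α')) := by
  have h0 := D.big.pos.le
  by_contra hn
  obtain ⟨q, hb, q1, q2⟩ := exists_ovl D.big hn
  obtain ⟨y, hy, y', hy', k1, k2⟩ := hl D (Or.inr rfl) hα' hβ'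
  have e : Ll (ds 1 z) μ := by rwa [ds_one_left]
  have a1 := (q2.congr (FixA.ll_self h0 _) e (FixA.ll_self h0 _)).mul p
  have a2 := (On.of_near (FixA.ll_comm e) (z * (p⁻¹ * β' * α'))).mul p
  have b1 := k1.mul (p * z * p⁻¹)
  have b2 := k2.mul (p * z * p⁻¹)
  rw [inv_mul_cancel_right] at b1
  rw [show p * z * p⁻¹ * (β' * α') = p * (z * (p⁻¹ * β' * α')) by simp only [mul_assoc]] at b2
  rw [mul_one] at a2
  exact hz' (key D hα hβ q1 hb hy hy' (On.conv D.big b1 b2 a2) (On.conv D.big b1 b2 a1))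

end C2_pjn

open C2_pjn in
theorem p_C2_PJN :
    S_C2_PJN := by
  intro Γ a μ B p h D
  refine ⟨?_, fun x hx => ⟨fun hy => ?_, fun k => D.gc.base (D.fix x hx k).1⟩,
    fun α α' hα hα' β hβ => ⟨hl D hα hα' hβ, fun r h1 h2 hP => germ D hα hβ h1 h2 ?_,
      fun β' hβ' => ⟨jn1 D hα hα' hβ hβ', fun z _ => jn2 D hα hα' hβ hβ'⟩⟩⟩
  · simpa only [ds_one_left] using D.on.ls_left (ball_ds D.big D.bd (one_mem _) D.mem)
  · have := jn1 D (Or.inr rfl) (Or.inl rfl) hx hy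
    rw [On, mul_one, ds_self, sub_zero, ds_comm _ 1, ds_one_left, ← two_mul] at this
    rw [ds, ← mul_assoc]
    exact this.half
  · simpa only [mul_one] using (per_mul_iff p).2 hP

end Pool.Agent.P.MP_dba3d2_lc


end
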