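import Pool.Agent.P.MP_dba3d2_lcM.Ab05
import Pool.Agent.P.MP_dba3d2_lcM.Bb10
import Pool.Agent.P.MP_dba3d2_lcM.Cb12
import Pool.Agent.P.MP_dba3d2_lcM.Cb18

section

/-! Step C2_PGEO of the stability project. -/

namespace Pool.Agent.P.MP_dba3d2_lc

open Filter

namespace C2_pgeo

section grp
variable {G : Type} [Group G] (p : G)

/-- outgoing part of a letter -/
def out : Bool → G
  | true => p
  | false => 1

/-- incoming part of a letter -/
def inn : Bool → G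
  | true => 1
  | false => p

/-- the pieces of a word -/
def pcs : Bool → List (G × (Fin 1 × Bool)) → G → List G
  | ε, [], b => [(inn p ε)⁻¹ * b * 1]
  | ε, s :: l, b => (inn p ε)⁻¹ * s.1 * out p s.2.2 :: pcs s.2.2 l b

/-- the pieces of a word, without the last one -/
def body : Bool → List (G × (Fin 1 × Bool)) → List G
  | _, [] => []
  | ε, s :: l => (inn p ε)⁻¹ * s.1 * out p s.2.2 :: body s.2.2 l

/-- the last letter -/
def last : Bool → List (G × (Fin 1 × Bool)) → Bool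
  | ε, [] => ε
  | _, s :: l => last s.2.2 l

theorem out_cases (ε : Bool) : out p ε = 1 ∨ out p ε = p := by cases ε <;> simp [out]
theorem inn_cases (ε : Bool) : inn p ε = 1 ∨ inn p ε = p := by cases ε <;> simp [inn]

theorem hv_eq (s : Fin 1 × Bool) : hv (fun _ : Fin 1 => p) s = out p s.2 * (inn p s.2)⁻¹ := by
  obtain ⟨i, ε⟩ := s
  cases ε <;> simp [out, inn]

theorem pcs_append (b : G) (l₂ : List (G × (Fin 1 × Bool))) :
    ∀ (l₁ : List (G × (Fin 1 × Bool))) (ε : Bool),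
      pcs p ε (l₁ ++ l₂) b = body p ε l₁ ++ pcs p (last ε l₁) l₂ b
  | [], _ => rfl
  | s :: l, ε => by
    simp only [List.cons_append, pcs, body, last, pcs_append b l₂ l]

theorem body_prod : ∀ (l : List (G × (Fin 1 × Bool))) (ε : Bool),
    (body p ε l).prod = (inn p ε)⁻¹ * wval (hv fun _ : Fin 1 => p) l * inn p (last ε l)
  | [], ε => by simp [body, last]
  | s :: l, ε => by
    simp only [body, last, List.prod_cons, body_prod l, wval_cons, hv_eq, mul_assoc]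

theorem pcs_prod (b : G) : ∀ (l : List (G × (Fin 1 × Bool))) (ε : Bool),
    (pcs p ε l b).prod = (inn p ε)⁻¹ * (wval (hv fun _ : Fin 1 => p) l * b)
  | [], ε => by simp [pcs]
  | s :: l, ε => by
    simp only [pcs, List.prod_cons, pcs_prod b l, wval_cons, hv_eq, mul_assoc]

theorem pcs_mem {B : Subgroup G} {b : G} (hb : b ∈ B) :
    ∀ (l : List (G × (Fin 1 × Bool))) (ε : Bool), (∀ s ∈ l, s.1 ∈ B) → ∀ x ∈ pcs p ε l b,
      ∃ α α', (α = 1 ∨ α = p) ∧ (α' = 1 ∨ α' = p) ∧ ∃ β ∈ B, x = α⁻¹ * β * α'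
  | [], ε, _, x, hx => by
    rw [pcs, List.mem_singleton] at hx
    exact ⟨_, 1, inn_cases p ε, Or.inl rfl, b, hb, hx⟩
  | s :: l, ε, h, x, hx => by
    rw [pcs, List.mem_cons] at hx
    rcases hx with hx | hx
    · exact ⟨_, _, inn_cases p ε, out_cases p _, s.1, h s List.mem_cons_self, hx⟩
    · exact pcs_mem hb l _ (fun t ht => h t (List.mem_cons_of_mem _ ht)) x hx

end grp

variable {Γ : HG} {a : Amb} {μ : a.K} {B : Subgroup (MM Γ a)} {p h : MM Γ a}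

theorem big1 (D : PtD μ B p h) {β : MM Γ a} (hβ : β ∈ B) : Ls μ (ln (p⁻¹ * β * 1)) := by
  rw [mul_one]
  exact D.far β hβ

theorem big2 (D : PtD μ B p h) {β : MM Γ a} (hβ : β ∈ B) : Ls μ (ln (1⁻¹ * β * p)) := by
  have := D.far β⁻¹ (inv_mem hβ)
  rw [ds_comm, ds, inv_inv] at this
  rwa [inv_one, one_mul]

theorem big3 (J : S_C2_PJN) (D : PtD μ B p h) {β : MM Γ a} (hβ : β ∈ B)
    (hn : p⁻¹ * β * p ∉ B) : Ls μ (ln (p⁻¹ * β * p)) := by
  rw [← ds_conj]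
  exact (ll_or_ls D.big.pos _).resolve_left fun e => hn (((J Γ a μ B p h D).2.1 β hβ).2 e)

theorem np {β : MM Γ a} {i : Fin 1} {ε : Bool} {s : MM Γ a × (Fin 1 × Bool)}
    {l : List (MM Γ a × (Fin 1 × Bool))}
    (hw : WRed B (HP B fun _ : Fin 1 => p) ((β, (i, ε)) :: s :: l)) (hne : ε ≠ s.2.2) :
    hv (fun _ : Fin 1 => p) (i, ε) * s.1 * hv (fun _ : Fin 1 => p) s.2 ∉ B :=
  fun hm => hw.np ⟨Subsingleton.elim _ _, hne, hm⟩

theorem head (J : S_C2_PJN) (D : PtD μ B p h) {β b : MM Γ a} {i : Fin 1} {ε : Bool}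
    {l : List (MM Γ a × (Fin 1 × Bool))}
    (hw : WRed B (HP B fun _ : Fin 1 => p) ((β, (i, ε)) :: l)) (hb : b ∈ B) :
    ∃ β' ∈ B, ∃ α', (α' = 1 ∨ α' = p) ∧ ∃ L, pcs p ε l b = ((inn p ε)⁻¹ * β' * α') :: L ∧
      (ε = false → Ls μ (ln (p⁻¹ * β' * α'))) := by
  cases l with
  | nil => exact ⟨b, hb, 1, Or.inl rfl, [], rfl, fun _ => big1 D hb⟩
  | cons s l =>
    refine ⟨s.1, hw.tail.mem, out p s.2.2, out_cases p _, _, rfl, ?_⟩
    rintro rfl
    obtain ⟨z, j, e⟩ := s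
    cases e
    · exact big1 D hw.tail.mem
    · exact big3 J D hw.tail.mem (np hw (by simp))

theorem junc (J : S_C2_PJN) (D : PtD μ B p h) {α α' β β' : MM Γ a} (hα : α = 1 ∨ α = p)
    (hα' : α' = 1 ∨ α' = p) (hβ : β ∈ B) (hβ' : β' ∈ B) (ε : Bool) :
    On μ 1 (α⁻¹ * β * out p ε)⁻¹ ((inn p ε)⁻¹ * β' * α') := by
  cases ε
  · have := (((J Γ a μ B p h D).2.2 α' α hα' hα β' hβ').2.2 β⁻¹ (inv_mem hβ)).1.symm
    simpa [out, inn] using this
  · have := (((J Γ a μ B p h D).2.2 α α' hα hα' β⁻¹ (inv_mem hβ)).2.2 β' hβ').1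
    simpa [out, inn, mul_assoc] using this

theorem key (J : S_C2_PJN) (D : PtD μ B p h) {b : MM Γ a} (hb : b ∈ B) :
    ∀ (l : List (MM Γ a × (Fin 1 × Bool))) (β : MM Γ a) (i : Fin 1) (ε : Bool) (α : MM Γ a),
      WRed B (HP B fun _ : Fin 1 => p) ((β, (i, ε)) :: l) → (α = 1 ∨ α = p) →
      Loc μ (α⁻¹ * β * out p ε :: pcs p ε l b)
  | [], β, i, ε, α, hw, hα => by
    refine ⟨junc J D hα (Or.inl rfl) hw.mem hb ε, fun _ w hw => ?_, trivial⟩
    simp at hw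
  | (z, j, e) :: l, β, i, ε, α, hw, hα => by
    have hz : z ∈ B := hw.tail.mem
    refine ⟨junc J D hα (out_cases p _) hw.mem hz ε, fun ht w hh => ?_,
      key J D hb l z j e _ hw.tail (inn_cases p ε)⟩
    have h0 := D.big.pos
    cases ε <;> cases e
    · exact absurd (big1 D hz) (ht.not_ls h0)
    · exact absurd (big3 J D hz (np hw (by simp))) (ht.not_ls h0)
    · obtain ⟨β', hβ', α', hα', L, e1, e2⟩ := head J D hw.tail hb
      dsimp only at hh
      rw [e1] at hh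
      obtain rfl : (inn p false)⁻¹ * β' * α' = w := by simpa using hh
      refine ⟨e2 rfl, ?_⟩
      have := (((J Γ a μ B p h D).2.2 α α' hα hα' β⁻¹ (inv_mem hw.mem)).2.2 β' hβ').2 z hz
        (by simpa [out, inn] using ht) (np hw (by simp))
      simpa [out, inn, mul_assoc] using this
    · exact absurd (big2 D hz) (ht.not_ls h0)

theorem germ {y : MM Γ a} (H : ∀ r, On μ r 1 y → Ls μ (ln r) → ¬ Per μ 1 r) (t r : MM Γ a)
    (h1 : On μ r t (t * y)) (h2 : Ls μ (ds t r)) : ¬ Per μ t r := fun hp =>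
  H (t⁻¹ * r) (by simpa using h1.mul t⁻¹) h2 (by simpa using (per_mul_iff t⁻¹).2 hp)

end C2_pgeo

open C2_pgeo in
theorem p_C2_PGEO (hC2_PJN : S_C2_PJN) :
    S_C2_PGEO := by
  intro Γ a μ B p h D
  have h0 := D.big.pos
  refine ⟨fun l hw b hb => ?_, fun l hl hw => ?_⟩
  · have hP : (pcs p true l b).prod = wval (hv fun _ : Fin 1 => p) l * b := by
      simp [pcs_prod, inn]
    cases l with
    | nil => exact ⟨_, hP, geo_single h0.le _, pcs_mem p hb _ _ hw.1, fun hn => absurd rfl hn⟩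
    | cons s l =>
      obtain ⟨z, j, e⟩ := s
      have hz : z ∈ B := hw.mem
      have hG : Geo μ (pcs p true ((z, j, e) :: l) b) :=
        Loc.geo D.big (key hC2_PJN D hb l z j e 1 hw (Or.inl rfl))
      refine ⟨_, hP, hG, pcs_mem p hb _ _ hw.1, fun _ => ?_⟩
      rw [← hP]
      cases e
      · obtain ⟨β', hβ', α', hα', L, e1, e2⟩ := head hC2_PJN D hw hb
        rw [pcs] at hG ⊢
        dsimp only at hG ⊢
        rw [e1] at hG ⊢
        have := hG.head2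
        rw [List.prod_cons, List.prod_cons]
        refine ⟨_, _, this.1, this.2.1, by rw [ds_mul_right]; exact e2 rfl, germ ?_ _⟩
        exact ((hC2_PJN Γ a μ B p h D).2.2 α' 1 hα' (Or.inl rfl) β' hβ').2.1
      · rw [pcs] at hG ⊢
        rw [List.prod_cons]
        refine ⟨_, 1, hG.head, on_left h0.le _ _, ?_, fun r h1 => germ
          ((hC2_PJN Γ a μ B p h D).2.2 1 1 (Or.inl rfl) (Or.inl rfl) z⁻¹ (inv_mem hz)).2.1 _ r ?_⟩
        · rw [ds_comm, ds_one_left]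
          exact big2 D hz
        · simpa [out, inn, mul_assoc] using h1
  · obtain ⟨⟨z, j, e⟩, l, rfl⟩ := List.exists_cons_of_ne_nil hl
    rw [List.append_assoc, List.cons_append] at hw
    have hG := Loc.geo D.big (key hC2_PJN D (one_mem B) _ z j e 1 hw (Or.inl rfl))
    refine ⟨inn p (last e l), inn_cases p _, body p (last e l) ((z, j, e) :: l),
      body_prod p _ _, ?_⟩
    have h1 := (geo_cons.1 hG).2
    rw [pcs_append, pcs_append, ← List.append_nil ((z, j, e) :: l), pcs_append,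
      List.append_nil] at h1
    have h2 := h1.right
    rw [← List.append_assoc] at h2
    exact h2.left

end Pool.Agent.P.MP_dba3d2_lc


end

section

/-! Step PT of the stability project. -/

namespace Pool.Agent.P.MP_dba3d2_lc

open Filter

theorem p_PT (hELEM : S_ELEM) (hPERC : S_PERC) (hROOT : S_ROOT) (hC2_RW : S_C2_RW) (hC2_RX : S_C2_RX) (hC2_TOP : S_C2_TOP) (hC2_HST : S_C2_HST) (hC2_HFIN : S_C2_HFIN) (hC2_HEXT : S_C2_HEXT) (hC2_PJN : S_C2_PJN) (hC2_PGEO : S_C2_PGEO) :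
    S_PT := by
  intro Γ a μ B p h hμ hB bd hh on far fix
  have D : PtD μ B p h := ⟨hμ, hB, bd, hh, on, far, fix⟩
  obtain ⟨j1, j2, j3⟩ := hC2_PJN Γ a μ B p h D
  obtain ⟨g1, g2⟩ := hC2_PGEO Γ a μ B p h D
  have rw := hC2_RW _ B _ _ _ (hws B fun _ : Fin 1 => p)
  rw [closure_hv] at rw
  have wb : WBr B (hv fun _ : Fin 1 => p) (HP B fun _ : Fin 1 => p) := fun l hl l0 hm => by
    obtain ⟨-, -, -, -, n⟩ := g1 l hl _ (inv_mem hm)
    obtain ⟨t, t', a1, a2, a3, -⟩ := n l0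
    rw [mul_inv_cancel] at a1 a2
    simpa using (On.nondeg hμ a1 a2 a3).pos hμ.pos
  have hf := hC2_HFIN _ B _ _ wb
  have gen : B ⊔ Subgroup.closure (Set.range fun _ : Fin 1 => p) =
      Subgroup.closure (B ∪ Set.range fun _ : Fin 1 => p) := by
    rw [Subgroup.closure_union, Subgroup.closure_eq]
  have pT : p ∈ B ⊔ Subgroup.closure (Set.range fun _ : Fin 1 => p) :=
    Subgroup.mem_sup_right (Subgroup.subset_closure ⟨0, rfl⟩)
  have bT : B ⊔ Subgroup.closure (Set.range fun _ : Fin 1 => p) ≤ ball Γ μ :=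
    sup_le bd ((Subgroup.closure_le _).2 (by
      rintro _ ⟨_, rfl⟩
      exact (mem_ball hμ.pos.le).2 j1))
  have le : B ≤ B ⊔ Subgroup.closure (Set.range fun _ : Fin 1 => p) := le_sup_left
  refine (fun H : _ ∧ _ => ⟨H.1, hC2_HEXT Γ a B 1 _ wb, fun x hx => (j2 x hx).1, H.2⟩) ?_
  generalize B ⊔ Subgroup.closure (Set.range fun _ : Fin 1 => p) = T at *
  have αT : ∀ α, α = 1 ∨ α = p → α ∈ T := by
    rintro _ (rfl | rfl)
    exacts [one_mem _, pT]
  obtain ⟨top, ep, star⟩ := hC2_HST Γ a μ B T hμ hB le bT fun z hz z0 => by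
    obtain ⟨l, b, hb, hl, rfl⟩ := (rw z hz).1
    obtain ⟨-, -, -, -, n⟩ := g1 l hl b hb
    exact n (by rintro rfl; exact z0 (by simpa using hb))
  have star := star fun c hc hm => by
    obtain ⟨g, hg, e | ⟨l, l0, e, hl⟩ | ⟨b, -, s, -, e⟩⟩ := (rw c hc).2
    · exact ⟨g, hg, e⟩
    · obtain ⟨α, hα, L, e1, e2⟩ := g2 l l0 hl
      have hα := αT α hα
      rw [← e] at e1
      by_cases hL : L.prod ∈ B
      · exact ⟨g * α, mul_mem hg hα, by simpa only [e1, mul_inv_rev, mul_assoc] using hL⟩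
      · have := e2.md hμ (top _ (e1 ▸ mul_mem (mul_mem (inv_mem hα)
          (mul_mem (mul_mem (inv_mem hg) hc) hg)) hα) hL)
        rw [e1, md_conj, md_conj] at this
        exact (hm.not_ls hμ.pos this).elim
    · exact (e.2.1 rfl).elim
  obtain ⟨gc, per⟩ := hC2_TOP Γ a μ B T B _
    { big := hμ, gc := hB, le := le, bd := bT, top := top, star := star, gen := gen
      cov := fun t ht => by
        obtain ⟨l, b, hb, hl, rfl⟩ := (rw t ht).1
        obtain ⟨L, e1, e2, e3, -⟩ := g1 l hl b hb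
        refine ⟨L, e1, e2, fun x hx => ?_⟩
        obtain ⟨α, α', a1, a2, β, hβ, rfl⟩ := e3 x hx
        obtain ⟨y, hy, y', hy', o1, o2⟩ := (j3 α α' a1 a2 β hβ).1
        refine ⟨mul_mem (mul_mem (inv_mem (αT _ a1)) (le hβ)) (αT _ a2), α⁻¹ * y,
          mul_mem (inv_mem (αT _ a1)) (le hy), y⁻¹ * y', mul_mem (inv_mem hy) hy', ?_, ?_⟩
        · simpa [mul_assoc] using o1.mul α⁻¹
        · simpa [mul_assoc] using o2.mul α⁻¹
      w2 := fun w hw w' hw' g r q o n =>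
        le (hB.g2 μ hμ w hw w' hw' (ball_ls hμ bd hw) (ball_ls hμ bd hw') g r q o n)
      w20 := fun w hw r q n o1 o2 e => by
        obtain ⟨c, hc, e⟩ := hB.g20 μ hμ w hw (ball_ls hμ bd hw) r q n o1 o2 e
        exact ⟨c, le hc, e⟩
      ex1 := fun s hs d _ hd hm => by
        obtain ⟨-, r2, -, r4, r5⟩ := hC2_RX Γ a μ T d hμ hd.1 hm
        have r5 := r5 B le hB bd hd
        obtain hs | ⟨_, rfl⟩ := hs
        · exact r5 s hs
        obtain e | ⟨r, r', n, o1, o2, st⟩ := r4 1 p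
        · exact e
        have dB := hB.per_mem hELEM hPERC hROOT hμ (one_mem _) hh (ball_ds hμ bd (one_mem _) hh) n
          (on.sub o1).1 (on.sub o2).1 hd st
        obtain e | ⟨q, -, -, o3, -, st', -⟩ := r4 h p
        · exact r2 _ _ _ (r5 h hh) e
        · exact (hd.1 (fix d dB (fix_conv hμ st.1 st' ((on.sub o1).2.sub' o3.symm).2)).2).elim
      pur1 := fun c hc h1 f hf h2 n hn => by
        obtain ⟨f', h3, e⟩ := hB.pur c hc h1 f (ep c hc h1 f hf h2) h2 n hn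
        exact ⟨f', le h3, e⟩ }
  refine ⟨⟨gc, bT, fun K k1 k2 => ?_, per, top⟩, ep⟩
  obtain ⟨q, hq, e⟩ := hf K k1 k2
  exact ⟨q, hq, Or.inl e⟩

end Pool.Agent.P.MP_dba3d2_lc


end

section

/-! Step C2_ELOC of the stability project. -/

namespace Pool.Agent.P.MP_dba3d2_lc

open Filter

theorem p_C2_ELOC (hELEM : S_ELEM) (hLINE : S_LINE) (hPERC : S_PERC) :
    S_C2_ELOC := by
  intro Γ a μ B c k D
  have hμ := D.big
  have h0 := hμ.pos.le
  have st : ∀ f ∈ Ep c, Stab μ 1 f c := fun f hf => D.prim.stab_ep hELEM hLINE D.short hf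
  have bg : ∀ e ∈ SE B c k, Ls μ (ln e) := by
    rintro _ ⟨f, h1, h2, q, hq, rfl⟩
    exact (D.long q hq f h1 h2).mono_right (md_le_ln _)
  refine ⟨st, bg, fun l hl b₀ hb₀ e he b hb => Loc.geo hμ ?_⟩
  have j1 : ∀ x, ¬ Fol μ x⁻¹ c → ∀ e ∈ SE B c k, On μ 1 x⁻¹ e := fun x hx e he =>
    on_of_not_fol hμ D.short hx (st e (SE.mem he).2).2
  have j2 : ∀ x, ¬ Fol μ x c → ∀ e ∈ SE B c k, On μ 1 e⁻¹ x := fun x hx e he =>
    (on_of_not_fol hμ D.short hx (st _ (inv_mem (SE.mem he).2)).2).symm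
  have j3 : ∀ x, ¬ InE c x → Ll (ln x) μ → ∀ e ∈ SE B c k, ∀ e' ∈ SE B c k,
      On μ 1 e⁻¹ (x * e') := by
    intro x hx t e he e' he'
    by_contra hn
    obtain ⟨q, q1, q2, q3⟩ := exists_ovl hμ hn
    have s1 : Stab μ 1 q c := (st _ (inv_mem (SE.mem he).2)).sub hμ (on_left h0 _ _) q2
    have q4 : On μ q x (x * e') :=
      q3.congr (FixA.ll_self h0 _) (by rwa [ds_one_left]) (FixA.ll_self h0 _)
    have q5 : On μ (x⁻¹ * q) 1 e' := by simpa using q4.mul x⁻¹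
    have s2 := st e' (SE.mem he').2
    have s3 : Stab μ (x⁻¹ * 1) (x⁻¹ * q) c :=
      ⟨fix_congr s2.1 (by rwa [mul_one, ds_one_left, ln_inv]), fix_conv hμ s2.1 s2.2 q5⟩
    have := (inE_of_stab hELEM hPERC hμ (by rwa [ds_one_left]) D.prim.1 s1 s3).inv
    rw [inv_inv] at this
    exact hx this
  induction l generalizing b₀ e with
  | nil =>
    exact ⟨j1 b₀ hb₀ e he, fun t => absurd (bg e he) (t.not_ls hμ.pos), j2 b hb e he,
      fun _ w hw => by simp at hw, trivial⟩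
  | cons s l ih =>
    obtain ⟨-, a2, a3, a4, a5⟩ := hl s List.mem_cons_self
    refine ⟨j1 b₀ hb₀ e he, fun t => absurd (bg e he) (t.not_ls hμ.pos), j2 _ a3 e he,
      fun t w hw => ?_, ih (fun x hx => hl x (List.mem_cons_of_mem _ hx)) s.1 a4 s.2 a5⟩
    obtain rfl : s.2 = w := by simpa using hw
    exact ⟨bg _ a5, j3 _ a2 t e he _ a5⟩

end Pool.Agent.P.MP_dba3d2_lc


end

section

/-! Step C2_ENRM of the stability project. -/

namespace Pool.Agent.P.MP_dba3d2_lc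

open Filter

namespace C2_enrm

variable {Γ : HG} {a : Amb} {μ : a.K} {B : Subgroup (MM Γ a)} {c y : MM Γ a} {k : ℚ →+ a.Z}

theorem nf (D : ExpD μ B c k) (hy : y ∈ B) (h : NE c y) : ¬ Fol μ y⁻¹ c := by
  intro hf
  have m0 := D.big.pos.le
  have h1 : Ls μ (ln y) := by
    obtain ⟨q, h1, h2, -⟩ := hf
    have := On.nondeg D.big (on_left m0 _ _) h2 (by rwa [ds_one_left])
    rwa [ds_one_left, ln_inv] at this
  have s : Sim (ln y) μ := ⟨(mem_ball m0).1 (D.bd hy), h1⟩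
  exact h (D.big.of_ls h1) ((s.ll_iff (ln_nonneg _) m0).2 D.md)
    ((s.fol_iff (ln_nonneg _) m0).2 hf)

end C2_enrm

open C2_enrm in
theorem p_C2_ENRM (hELEM : S_ELEM) (hNORM : S_NORM) :
    S_C2_ENRM := by
  intro Γ a μ B c k D
  obtain ⟨N1, N2⟩ := hNORM Γ a B D.gc
  have P2 : ∀ h ∈ B, ¬ InE c h → ∃ f ∈ B, ∃ f' ∈ B, ∃ y ∈ B, f ∈ Ep c ∧ f' ∈ Ep c ∧
      h = f * y * f' ∧ ¬ InE c y ∧ ¬ Fol μ y c ∧ ¬ Fol μ y⁻¹ c := fun h hh hn => by
    obtain ⟨f, f1, f', f2, f3, f4, n1, n2, -⟩ := N2 c D.mem c D.mem D.prim D.prim D.cen D.cen h hh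
      fun e => hn (((hELEM Γ a c D.prim.1).2.2.2.1 h).2 e)
    have hy : f * h * f' ∈ B := mul_mem (mul_mem f1 hh) f2
    have e : h = f⁻¹ * (f * h * f') * f'⁻¹ := by group
    refine ⟨f⁻¹, inv_mem f1, f'⁻¹, inv_mem f2, _, hy, inv_mem f3, inv_mem f4, e, fun k => hn ?_,
      by simpa only [inv_inv] using nf D (inv_mem hy) n1, nf D hy n2⟩
    rw [e]
    exact ((InE.of_mem f3).inv.mul k).mul (InE.of_mem f4).inv
  refine ⟨fun h hh => ?_, P2, fun l => ?_⟩
  · obtain ⟨f, f1, f2, -, n⟩ := N1 c D.mem D.prim D.cen h hh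
    exact ⟨f, f1, f2, nf D (mul_mem hh f1) n⟩
  · induction l with
    | nil => exact fun _ g g1 g2 => ⟨g, g1, g2, [], by simp [NW], by simp [wval]⟩
    | cons s l ih =>
      intro hl g g1 g2
      obtain ⟨f2, a1, a2, l2, a3, a4⟩ := ih (fun t ht => hl t (List.mem_cons_of_mem _ ht)) g g1 g2
      obtain ⟨f, b1, f', b2, y, b3, b4, b5, b6, b7, b8, b9⟩ :=
        P2 s.1 (hl s List.mem_cons_self).1 (hl s List.mem_cons_self).2
      refine ⟨f, b1, b4, (y, f' * ev c k s.2 * f2) :: l2, fun t ht => ?_, ?_⟩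
      · rcases List.mem_cons.1 ht with rfl | ht
        · exact ⟨b3, b7, b8, b9, SE.mul (ev_mem_SE B c k s.2) b2 b5 a1 a2⟩
        · exact a3 t ht
      · simp only [wval, List.map_cons, List.prod_cons, id] at a4 ⊢
        rw [mul_assoc, a4, b6]
        group

end Pool.Agent.P.MP_dba3d2_lc


end

section

/-! Step C2_EGEO of the stability project. -/

namespace Pool.Agent.P.MP_dba3d2_lc

open Filter

theorem p_C2_EGEO (hC2_ENRM : S_C2_ENRM) (hC2_ELOC : S_C2_ELOC) :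
    S_C2_EGEO := by
  intro Γ a μ B c k D
  obtain ⟨N1, N2, N3⟩ := hC2_ENRM Γ a μ B c k D
  obtain ⟨-, -, E3⟩ := hC2_ELOC Γ a μ B c k D
  refine ⟨fun l hl b hb => ?_, fun l h0 hl => ?_⟩
  · cases l with
    | nil =>
      exact ⟨⟨[b], by simp, geo_single D.big.pos.le b, by simp [hb]⟩, fun s l' e => by simp at e⟩
    | cons s l' =>
      obtain ⟨g, g1, g2, g3⟩ := N1 b⁻¹ (inv_mem hb)
      rw [mul_inv_rev, inv_inv] at g3
      obtain ⟨f2, a1, a2, l2, a3, a4⟩ := N3 l' hl.ep_tail g g1 g2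
      obtain ⟨f1, b1, b2, b3⟩ := N1 s.1 hl.mem
      have he : f1⁻¹ * ev c k s.2 * f2 ∈ SE B c k :=
        SE.mul (ev_mem_SE B c k s.2) (inv_mem b1) (inv_mem b2) a1 a2
      have hG := E3 l2 a3 _ b3 _ he _ g3
      have hp : s.1 * f1 * (f1⁻¹ * ev c k s.2 * f2 * (wflat id l2 ++ [g⁻¹ * b]).prod) =
          wval (ev c k) (s :: l') * b := by
        have e : wval id l2 = f2⁻¹ * (wval (ev c k) l' * g) := by rw [a4, inv_mul_cancel_left]
        rw [List.prod_append, wflat_prod, List.prod_singleton, wval_cons, e]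
        group
      refine ⟨⟨_, by rw [List.prod_cons, List.prod_cons, hp], hG, fun x hx => ?_⟩,
        fun s' l'' e => ?_⟩
      · rcases List.mem_cons.1 hx with rfl | hx
        · exact Or.inl (mul_mem hl.mem b1)
        rcases List.mem_cons.1 hx with rfl | hx
        · exact Or.inr he
        rcases List.mem_append.1 hx with hx | hx
        · obtain ⟨t, ht, rfl | rfl⟩ := mem_wflat hx
          exacts [Or.inl (a3 t ht).1, Or.inr (a3 t ht).2.2.2.2]
        · rw [List.mem_singleton.1 hx]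
          exact Or.inl (mul_mem (inv_mem g1) hb)
      · obtain ⟨rfl, -⟩ := List.cons.inj e
        have := hG.head2
        rw [hp] at this
        exact ⟨_, mul_mem hl.mem b1, by rwa [inv_mul_cancel_left], _, he, this⟩
  · cases l with
    | nil => exact absurd rfl h0
    | cons s l' =>
      have h1 : s.1 ∈ B ∧ ¬ InE c s.1 :=
        WRed.ep_tail (s := s) (l := l' ++ s :: l') hl s (by simp)
      obtain ⟨f, f1, f', f2, y, y1, f3, f4, e, y2, y3, y4⟩ := N2 s.1 h1.1 h1.2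
      obtain ⟨g, a1, a2, l2, a3, a4⟩ := N3 l' hl.left.ep_tail f f1 f3
      have he : f' * ev c k s.2 * g ∈ SE B c k := SE.mul (ev_mem_SE B c k s.2) f2 f4 a1 a2
      have h3 : NW μ B c k (l2 ++ (y, f' * ev c k s.2 * g) :: l2) := by
        intro t ht
        rcases List.mem_append.1 ht with ht | ht
        · exact a3 t ht
        rcases List.mem_cons.1 ht with rfl | ht
        · exact ⟨y1, y2, y3, y4, he⟩
        · exact a3 t ht
      have h4 : ¬ Fol μ 1 c := by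
        rintro ⟨q, q1, q2, -⟩
        have := On.nondeg D.big (on_left D.big.pos.le 1 1) q2 (by simpa using q1)
        rw [ds_self] at this
        exact (Ll.zero D.big.pos.le).not_ls D.big.pos this
      have hG := E3 _ h3 y y4 _ he 1 h4
      refine ⟨f, f1, wflat id ((y, f' * ev c k s.2 * g) :: l2), ?_, ?_⟩
      · have e2 : wval id l2 = g⁻¹ * (wval (ev c k) l' * f) := by rw [a4, inv_mul_cancel_left]
        rw [wflat_prod, wval_cons, wval_cons, e2, e]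
        simp only [id]
        group
      · rw [← wflat_append]
        exact Geo.left (L₂ := [1]) (by simpa using hG)

end Pool.Agent.P.MP_dba3d2_lc


end

section

/-! Step C2_EEP of the stability project. -/

namespace Pool.Agent.P.MP_dba3d2_lc

open Filter

theorem p_C2_EEP (hELEM : S_ELEM) (hLINE : S_LINE) (hPERC : S_PERC) (hROOT : S_ROOT) (hC2_RW : S_C2_RW) (hC2_ELOC : S_C2_ELOC) (hC2_EGEO : S_C2_EGEO) :
    S_C2_EEP := by
  intro Γ a μ B c k D
  have hμ := D.big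
  obtain ⟨L1, L2, -⟩ := hC2_ELOC Γ a μ B c k D
  have key : ∀ s l, WRed B (EP c) (s :: l) → ∀ b ∈ B, ∃ x ∈ B, s.1⁻¹ * x ∈ Ep c ∧ ∃ e,
      Ls μ (ln e) ∧ On μ x 1 (wval (ev c k) (s :: l) * b) ∧
      On μ (x * e) 1 (wval (ev c k) (s :: l) * b) ∧ Stab μ 1 e c := by
    intro s l h b hb
    obtain ⟨x, hx, h1, e, he, h2, h3, -⟩ := ((hC2_EGEO Γ a μ B c k D).1 _ h b hb).2 s l rfl
    exact ⟨x, hx, h1, e, L2 e he, h2, h3, L1 e (SE.mem he).2⟩
  have big : ∀ s l, WRed B (EP c) (s :: l) → ∀ b ∈ B, Ls μ (ln (wval (ev c k) (s :: l) * b)) := by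
    intro s l h b hb
    obtain ⟨x, -, -, e, h1, h2, h3, -⟩ := key s l h b hb
    simpa only [ds_one_left] using On.nondeg hμ h2 h3 (by rwa [ds_mul_right])
  have nf : ∀ t ∈ ET B c k, ∃ l, ∃ b ∈ B, WRed B (EP c) l ∧ t = wval (ev c k) l * b :=
    fun t ht => (hC2_RW _ B _ _ _ (ews B c k) t (ET_eq B c k ▸ ht)).1
  refine ⟨fun l hl h0 hB => ?_, fun t ht hB => ?_, fun d hd pd hx f hf hfd => ?_,
    fun f hf hfc => ?_⟩
  · obtain ⟨s, l, rfl⟩ := List.exists_cons_of_ne_nil h0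
    have := big s l hl _ (inv_mem hB)
    rw [mul_inv_cancel, ← ds_one_left, ds_self] at this
    exact (Ll.zero hμ.pos.le).not_ls hμ.pos this
  · obtain ⟨l, b, hb, hl, rfl⟩ := nf t ht
    cases l with
    | nil => exact absurd (by simpa using hb) hB
    | cons s l => exact big s l hl b hb
  · obtain ⟨y, hy, -, cen⟩ := D.gc.cen1 hd pd.1
    have d0 : y⁻¹ * d * y ∈ B := mul_mem (mul_mem (inv_mem hy) hd) hy
    have f0 : y⁻¹ * f * y ∈ ET B c k :=
      mul_mem (mul_mem (inv_mem (le_ET B c k hy)) hf) (le_ET B c k hy)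
    have e0 : y⁻¹ * f * y ∈ Ep (y⁻¹ * d * y) := mem_Ep_conj'.2 (by simpa [mul_assoc] using hfd)
    suffices h : y⁻¹ * f * y ∈ B by
      simpa [mul_assoc] using mul_mem (mul_mem hy h) (inv_mem hy)
    rcases ll_or_ls hμ.pos (md (y⁻¹ * d * y)) with h | h
    · have st := (pd.conj' y).stab_ep hELEM hLINE (cen.ll h) e0
      obtain ⟨l, b, hb, hl, e⟩ := nf _ f0
      rw [e] at st ⊢
      cases l with
      | nil => simpa using hb
      | cons s l =>
        obtain ⟨x, hxB, -, e, h1, h2, h3, h4⟩ := key s l hl b hb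
        have h5 := (stab_conj x).2 h4
        rw [mul_one] at h5
        have h6 : Cj x c (y⁻¹ * d * y) := Ep_eq_of_stab hELEM hPERC hμ (by rwa [ds_mul_right])
          (D.prim.conj x).1 (pd.conj' y).1 h5 (st.sub hμ h2 h3)
        have h7 : Cj y (y⁻¹ * d * y) d := by
          rw [Cj]; congr 1; group
        exact absurd (h7.mul h6) (hx _ (mul_mem hy hxB))
    · exact ((hROOT Γ a B D.gc).2.1 _ d0 _ d0 (pd.conj' y) (pd.conj' y) _ (Cj.of_mem e0)).2 cen cen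
        ((ball_ls hμ D.tb f0).trans' h)
  · obtain ⟨l, b, hb, hl, rfl⟩ := nf f hf
    have main : ∀ β ∈ B, β * wval (ev c k) l * b ∈ Ep c →
        ∃ f0 ∈ B, ∃ q, β * wval (ev c k) l * b = f0 * ipow c (k q) := by
      clear hf hfc
      induction l with
      | nil => exact fun β hβ _ => ⟨β * b, mul_mem hβ hb, 0, by rw [es_zero, wval_nil, mul_one, mul_one]⟩
      | cons s l ih =>
        intro β hβ hz
        have hβ' := mul_mem hβ hl.mem
        obtain ⟨x, -, h0, e, h1, h2, h3, h4⟩ := key _ l (hl.head hβ') b hb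
        have ez : wval (ev c k) ((β * s.1, s.2) :: l) * b = β * wval (ev c k) (s :: l) * b := by
          simp [mul_assoc]
        rw [ez] at h2 h3
        have h5 : InE c x := inE_of_stab hELEM hPERC hμ (by rwa [ds_one_left]) D.prim.1 h4
          (by rw [mul_one]; exact (L1 _ hz).sub hμ h2 h3)
        have h6 : InE c (β * s.1) := by simpa using h5.mul (InE.of_mem h0).inv
        obtain ⟨ε, -, h7⟩ := es_inE h6 k
        have ez' : β * wval (ev c k) (s :: l) * b =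
            ipow c (k (ε * s.2.1)) * (β * s.1 * wval (ev c k) l * b) := by
          rw [← mul_assoc, ← mul_assoc, ← h7, wval_cons, ev]
          simp only [mul_assoc]
        rw [ez'] at hz ⊢
        have hz' := (Subgroup.mul_mem_cancel_left _ (ipow_mem_Ep c _)).1 hz
        obtain ⟨f0, hf0, q, e'⟩ := ih hl.tail _ hβ' hz'
        rw [e'] at hz' ⊢
        have := (Subgroup.mul_mem_cancel_right _ (ipow_mem_Ep c _)).1 hz'
        exact ⟨f0, hf0, ε * s.2.1 + q, by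
          rw [es_add, ← mul_assoc, ← mul_assoc, (es_comm this k _).eq]⟩
    simpa using main 1 (one_mem _) (by simpa using hfc)

end Pool.Agent.P.MP_dba3d2_lc


end

section

/-! Step C2_EEXT of the stability project. -/

namespace Pool.Agent.P.MP_dba3d2_lc

open Filter

theorem p_C2_EEXT (hC2_RW3 : S_C2_RW3) :
    S_C2_EEXT := by
  intro Γ a B c k hW G _ θ0 ν n1 n2
  obtain ⟨θ, h1, h2⟩ := hC2_RW3 _ G B _ (ev c k) (EP c) θ0 (fun s => ν (.ofAdd s.1)) hW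
    (fun s => ⟨⟨-s.1, neg_ne_zero.2 s.2⟩, es_neg c k s.1, by rw [ofAdd_neg, map_inv]⟩)
    (fun s b s' h => by
      obtain ⟨q, e1, e2⟩ : ∃ q, (b : MM Γ a) * ipow c (k s'.1) = ipow c (k q) * b ∧
          θ0 b * ν (.ofAdd s'.1) = ν (.ofAdd q) * θ0 b := by
        by_cases e : (b : MM Γ a) ∈ Ep c
        · exact ⟨_, (es_comm e k _).eq, (n1 b _ e).eq⟩
        · exact ⟨-s'.1, by rw [← es_flip h e, inv_mul_cancel_right],
            by rw [← n2 b _ h e, inv_mul_cancel_right]⟩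
      have e3 : ev c k s * b * ev c k s' = ipow c (k (s.1 + q)) * b := by
        rw [es_add, mul_assoc, mul_assoc, ← e1]
        rfl
      have e4 : ν (.ofAdd s.1) * θ0 b * ν (.ofAdd s'.1) = ν (.ofAdd (s.1 + q)) * θ0 b := by
        rw [ofAdd_add, map_mul, mul_assoc, mul_assoc, e2]
      by_cases h0 : s.1 + q = 0
      · exact Or.inl ⟨b, by rw [e3, h0, es_zero, one_mul], by
          rw [e4, h0, ofAdd_zero, map_one, one_mul]⟩
      · exact Or.inr ⟨⟨_, h0⟩, 1, b, by rw [e3, OneMemClass.coe_one, one_mul]; rfl, by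
          rw [e4, map_one, one_mul]⟩) _ (ET_eq B c k)
  refine ⟨θ, fun x => h1 _ x rfl, fun q => ?_⟩
  by_cases h0 : q = 0
  · subst h0
    exact (h1 _ 1 (es_zero c k)).trans (by rw [ofAdd_zero, map_one, map_one])
  · exact h2 _ ⟨q, h0⟩ rfl

end Pool.Agent.P.MP_dba3d2_lc


end

section

/-! Step C2_ESTAR of the stability project. -/

namespace Pool.Agent.P.MP_dba3d2_lc

open Filter

namespace C2estar

variable {Γ : HG} {a : Amb} {μ : a.K} {B : Subgroup (MM Γ a)} {c d x : MM Γ a} {k : ℚ →+ a.Z}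

theorem fix_conj (g : MM Γ a) (h : Ll (ds x (d * x)) μ) :
    Ll (ds (g⁻¹ * x) (g⁻¹ * d * g * (g⁻¹ * x))) μ := by
  rwa [disp_conj', mul_inv_cancel_left]

theorem cen_fix (hB : GC0 B) (hd : d ∈ B) (hf : ¬ IsOfFinOrder d) (h : Ll (md d) μ) :
    ∃ y ∈ B, Ll (ds y (d * y)) μ := by
  obtain ⟨y, hy, -, hc⟩ := hB.cen1 hd hf
  exact ⟨y, hy, by rw [ds_conj]; exact hc.ll (by rwa [md_conj])⟩

/-- elliptic elements of infinite order are conjugate into the base -/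
theorem ell (hE : S_ELEM) (hRW : S_C2_RW) (hG : S_C2_EGEO) (hP : S_C2_EEP) (D : ExpD μ B c k)
    (hd : d ∈ ET B c k) (hf : ¬ IsOfFinOrder d) (hm : Ll (md d) μ) :
    ∃ g ∈ ET B c k, g⁻¹ * d * g ∈ B := by
  have hn := hm.not_ls D.big.pos
  obtain ⟨-, g, hg, h⟩ := hRW _ B _ (ev c k) (EP c) (ews B c k) d (ET_eq B c k ▸ hd)
  rw [← ET_eq] at hg
  rcases h with h | ⟨l, hl, e, hr⟩ | ⟨b, hb, s, e, hI⟩
  · exact ⟨g, hg, h⟩
  · obtain ⟨f, hfB, L, hL, hGeo⟩ := (hG Γ a μ B c k D).2 l hl hr.left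
    have hgf := mul_mem hg (le_ET B c k hfB)
    have e' : L.prod = (g * f)⁻¹ * d * (g * f) := by rw [hL, ← e]; group
    refine ⟨g * f, hgf, by_contra fun hB => hn ?_⟩
    have := hGeo.md D.big (e' ▸ (hP Γ a μ B c k D).2.1 _
      (mul_mem (mul_mem (inv_mem hgf) hd) hgf) hB)
    rwa [e', md_conj] at this
  · exfalso
    by_cases hbE : b ∈ Ep c
    · refine hn ?_
      rw [← md_conj d g, e]
      exact D.long s.1 s.2 b hb hbE
    · refine hf ((finOrder_conj' g d).1 (e ▸ (hE Γ a c D.prim.1).2.2.2.2.1 _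
        (InE.mul hI (InE.of_mem (ipow_mem_Ep c _))) fun h => hbE ?_))
      exact (Subgroup.mul_mem_cancel_right _ (ipow_mem_Ep c _)).1 h

/-- the induction along a reduced word -/
theorem es (hE : S_ELEM) (hPC : S_PERC) (hL : S_C2_ELOC) (hG : S_C2_EGEO) (hP : S_C2_EEP)
    (D : ExpD μ B c k) {b : MM Γ a} (hb : b ∈ B) (l : List (MM Γ a × {q : ℚ // q ≠ 0})) :
    WRed B (EP c) l → ∀ z, z = wval (ev c k) l * b → ∀ d' ∈ ET B c k, ¬ IsOfFinOrder d' →
      Ll (ds z (d' * z)) μ → z⁻¹ * d' * z ∈ B → ∀ d ∈ B, ¬ IsOfFinOrder d → ∀ x,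
      Ll (ds x (d * x)) μ → Ll (ds x (d' * x)) μ →
      ∃ t ∈ ET B c k, t⁻¹ * d * t ∈ B ∧ t⁻¹ * d' * t ∈ B := by
  have hμ := D.big
  induction l with
  | nil =>
    intro _ z hz d' _ _ _ h1 d hd _ x _ _
    rw [wval_nil, one_mul] at hz
    subst hz
    exact ⟨z, le_ET B c k hb, mul_mem (mul_mem (inv_mem hb) hd) hb, h1⟩
  | cons s l ih =>
    intro hr z hz d' hd' hf' hz' hzB d hd hf x hx hx'
    obtain ⟨y, hy, hyd⟩ := cen_fix D.gc hd hf (hx.mono_left (md_le_ds d x))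
    obtain ⟨x1, hx1, hE1, e, he, o1, o2, o3⟩ := ((hG Γ a μ B c k D).1 _
      (hr.head (mul_mem (inv_mem hy) hr.mem)) b hb).2 _ _ rfl
    have ez : y * (wval (ev c k) ((y⁻¹ * s.1, s.2) :: l) * b) = z := by
      rw [hz, wval_cons, wval_cons]
      group
    have p1 := o1.mul y
    have p2 := o2.mul y
    have p3 := o3.mul y
    rw [mul_one, ez] at p1 p2
    rw [mul_one] at p3
    rw [← mul_assoc] at p2 p3
    have hu : s.1⁻¹ * (y * x1) ∈ Ep c := by simpa [mul_assoc] using hE1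
    have hX : y * x1 ∈ B := mul_mem hy hx1
    generalize y * x1 = X at p1 p2 p3 hu hX
    have hbig : Ls μ (ds X (X * e)) := by
      rw [ds_mul_right]
      exact (hL Γ a μ B c k D).2.1 e he
    have hst : Stab μ X (X * e) (X * c * X⁻¹) := by
      simpa using (stab_conj X).2 ((hL Γ a μ B c k D).1 e (SE.mem he).2)
    have hcf : ¬ IsOfFinOrder (X * c * X⁻¹) := mt (finOrder_conj X c).1 D.prim.1
    have p4 := (On.sub p2 p3).2
    obtain ⟨m, m1, m2, m3⟩ := two_fix hμ (⟨hyd, hx⟩ : Stab μ y x d) (⟨hz', hx'⟩ : Stab μ z x d')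
    by_cases hA : Ll (ds X (d' * X)) μ
    · have h1 := mem_Ep_conj.1 (mem_Ep_of_stab hE hPC hμ hbig hcf hst
        ⟨hA, fix_conv hμ hA hz' p4⟩)
      have hXT := le_ET B c k hX
      obtain ⟨f0, hf0, q, eq⟩ := (hP Γ a μ B c k D).2.2.2 _
        (mul_mem (mul_mem (inv_mem hXT) hd') hXT) h1
      refine ⟨X, hXT, mul_mem (mul_mem (inv_mem hX) hd) hX, ?_⟩
      by_cases hq : q = 0
      · rwa [eq, hq, es_zero, mul_one]
      · have h2 := D.long q hq f0 hf0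
          ((Subgroup.mul_mem_cancel_right _ (ipow_mem_Ep c _)).1 (eq ▸ h1))
        rw [← eq, md_conj] at h2
        exact absurd h2 ((hx'.mono_left (md_le_ds d' x)).not_ls hμ.pos)
    · obtain ⟨a1, a2⟩ := (On.total hμ m1 p1).resolve_left fun h =>
        hA (fix_conv hμ m3.1 m3.2 h.2)
      have a3 : Ls μ (ds X m) := (ll_or_ls hμ.pos _).resolve_left fun h =>
        hA (fix_congr m3.1 (FixA.ll_comm h))
      have a4 := fix_conv hμ m2.1 m2.2 a1
      have h1 : X⁻¹ * d * X ∈ Ep c := mem_Ep_conj.1 (by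
        rcases On.total hμ a2 p4 with h | h
        · exact mem_Ep_of_stab hE hPC hμ a3 hcf ⟨hst.1, fix_conv hμ hst.1 hst.2 h.1⟩ ⟨a4, m2.2⟩
        · exact mem_Ep_of_stab hE hPC hμ hbig hcf hst ⟨a4, fix_conv hμ a4 m2.2 h.1⟩)
      have h2 : s.1⁻¹ * d * s.1 ∈ Ep c := by
        have := mul_mem (mul_mem hu h1) (inv_mem hu)
        convert this using 1
        group
      have ht0 : s.1 * ev c k s.2 ∈ ET B c k := mul_mem (le_ET B c k hr.mem) (es_mem B c k _)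
      have h3 : (s.1 * ev c k s.2)⁻¹ * d * (s.1 * ev c k s.2) ∈ B := by
        have e1 : s.1⁻¹ * d * s.1 * ev c k s.2 = ev c k s.2 * (s.1⁻¹ * d * s.1) :=
          (es_comm h2 k s.2.1).eq
        have e2 : (s.1 * ev c k s.2)⁻¹ * d * (s.1 * ev c k s.2) =
            (ev c k s.2)⁻¹ * (s.1⁻¹ * d * s.1 * ev c k s.2) := by group
        rw [e2, e1, inv_mul_cancel_left]
        exact mul_mem (mul_mem (inv_mem hr.mem) hd) hr.mem
      rw [wval_cons] at hz
      generalize s.1 * ev c k s.2 = t0 at hz ht0 h3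
      obtain ⟨t, ht, b1, b2⟩ := ih hr.tail (t0⁻¹ * z) (by rw [hz]; group) (t0⁻¹ * d' * t0)
        (mul_mem (mul_mem (inv_mem ht0) hd') ht0) (mt (finOrder_conj' t0 d').1 hf')
        (fix_conj t0 hz') (by convert hzB using 1; group) _ h3 (mt (finOrder_conj' t0 d).1 hf)
        (t0⁻¹ * x) (fix_conj t0 hx) (fix_conj t0 hx')
      exact ⟨t0 * t, mul_mem ht0 ht, by convert b1 using 1; group, by convert b2 using 1; group⟩

end C2estar

open C2estar in
theorem p_C2_ESTAR (hELEM : S_ELEM) (hPERC : S_PERC) (hC2_RW : S_C2_RW) (hC2_ELOC : S_C2_ELOC) (hC2_EGEO : S_C2_EGEO) (hC2_EEP : S_C2_EEP) :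
    S_C2_ESTAR := by
  intro Γ a μ B c k D d hd d' hd' hf hf' x hx hx'
  have hm' := hx'.mono_left (md_le_ds d' x)
  obtain ⟨g, hg, h1⟩ := ell hELEM hC2_RW hC2_EGEO hC2_EEP D hd hf (hx.mono_left (md_le_ds d x))
  obtain ⟨g', hg', h2⟩ := ell hELEM hC2_RW hC2_EGEO hC2_EEP D hd' hf' hm'
  obtain ⟨y, hy, h3⟩ := cen_fix (μ := μ) D.gc h2 (mt (finOrder_conj' g' d').1 hf')
    (by rwa [md_conj])
  rw [disp_conj'] at h3
  obtain ⟨⟨l, b, hb, hr, e⟩, -⟩ := hC2_RW _ B _ (ev c k) (EP c) (ews B c k) (g⁻¹ * (g' * y))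
    (ET_eq B c k ▸ mul_mem (inv_mem hg) (mul_mem hg' (le_ET B c k hy)))
  obtain ⟨t, ht, b1, b2⟩ := es hELEM hPERC hC2_ELOC hC2_EGEO hC2_EEP D hb l hr _ e (g⁻¹ * d' * g)
    (mul_mem (mul_mem (inv_mem hg) hd') hg) (mt (finOrder_conj' g d').1 hf') (fix_conj g h3)
    (by convert mul_mem (mul_mem (inv_mem hy) h2) hy using 1; group) _ h1
    (mt (finOrder_conj' g d).1 hf) (g⁻¹ * x) (fix_conj g hx) (fix_conj g hx')
  exact ⟨g * t, mul_mem hg ht, by convert b1 using 1; group, by convert b2 using 1; group⟩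

end Pool.Agent.P.MP_dba3d2_lc


end

section

/-! Step C2_EFIN of the stability project. -/

namespace Pool.Agent.P.MP_dba3d2_lc

open Filter

namespace C2_efin

variable {Γ : HG} {a : Amb} {B : Subgroup (MM Γ a)} {c : MM Γ a} {k : ℚ →+ a.Z}

theorem swap {i : MM Γ a} (h : InE c i) (k : ℚ →+ a.Z) (q : ℚ) :
    ∃ q', ipow c (k q) * i = i * ipow c (k q') := by
  obtain ⟨ε, -, e⟩ := es_inE h.inv k
  refine ⟨ε * q, ?_⟩
  rw [← inv_mul_eq_iff_eq_mul, ← mul_assoc, e, inv_mul_cancel_right]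

/-- the vertex group -/
def EA (B : Subgroup (MM Γ a)) (c : MM Γ a) (k : ℚ →+ a.Z) : Subgroup (MM Γ a) where
  carrier := {x | ∃ i ∈ B, InE c i ∧ ∃ q, x = i * ipow c (k q)}
  one_mem' := ⟨1, one_mem _, InE.of_mem (one_mem _), 0, by rw [es_zero, mul_one]⟩
  mul_mem' := by
    rintro _ _ ⟨i, i1, i2, q, rfl⟩ ⟨j, j1, j2, r, rfl⟩
    obtain ⟨q', e⟩ := swap j2 k q
    refine ⟨i * j, mul_mem i1 j1, i2.mul j2, q' + r, ?_⟩
    rw [es_add, mul_assoc, ← mul_assoc (ipow c (k q)), e]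
    simp only [mul_assoc]
  inv_mem' := by
    rintro _ ⟨i, i1, i2, q, rfl⟩
    obtain ⟨q', e⟩ := swap i2.inv k (-q)
    exact ⟨i⁻¹, inv_mem i1, i2.inv, q', by rw [mul_inv_rev, ← es_neg, e]⟩

theorem word : ∀ (l : List (MM Γ a × Unit × MM Γ a)) (s : MM Γ a × Unit × MM Γ a),
    (∀ y ∈ s :: l, y.1 ∈ B ∧ y.2.2 ∈ EA B c k ∧ y.2.2 ∉ B) →
    (s :: l).IsChain (fun _ s' => ¬ s'.1 ∈ EA B c k) →
    ∃ i ∈ B, InE c i ∧ ∃ q l', WRed B (EP c) ((s.1 * i, q) :: l') ∧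
      wval (ev c k) ((s.1 * i, q) :: l') = ((s :: l).map fun s => s.1 * s.2.2).prod := by
  intro l
  induction l with
  | nil =>
    intro s h _
    obtain ⟨h1, ⟨i, i1, i2, q, e⟩, h3⟩ := h s List.mem_cons_self
    have hq : q ≠ 0 := by
      rintro rfl
      exact h3 (by rw [e, es_zero, mul_one]; exact i1)
    refine ⟨i, i1, i2, ⟨q, hq⟩, [], ⟨?_, List.IsChain.singleton _⟩, ?_⟩
    · simpa using mul_mem h1 i1
    · simp [ev, e, mul_assoc]
  | cons y l ih =>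
    intro s h hc
    obtain ⟨h1, ⟨i, i1, i2, q, e⟩, h3⟩ := h s List.mem_cons_self
    have hq : q ≠ 0 := by
      rintro rfl
      exact h3 (by rw [e, es_zero, mul_one]; exact i1)
    obtain ⟨c1, c2⟩ := List.isChain_cons_cons.1 hc
    obtain ⟨j, j1, j2, r, l', w1, w2⟩ := ih y (fun z hz => h z (List.mem_cons_of_mem _ hz)) c2
    refine ⟨i, i1, i2, ⟨q, hq⟩, (y.1 * j, r) :: l', ⟨fun z hz => ?_, ?_⟩, ?_⟩
    · rcases List.mem_cons.1 hz with rfl | hz
      · exact mul_mem h1 i1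
      · exact w1.1 z hz
    · refine List.isChain_cons_cons.2 ⟨fun hp => c1 ?_, w1.2⟩
      have hy : InE c (y.1 * j * j⁻¹) := InE.mul hp j2.inv
      rw [mul_inv_cancel_right] at hy
      exact ⟨y.1, (h y (by simp)).1, hy, 0, by rw [es_zero, mul_one]⟩
    · rw [wval_cons, w2, List.map_cons (l := y :: l), List.prod_cons, e, ev, mul_assoc s.1]

theorem sup_eq : B ⊔ ⨆ _ : Unit, EA B c k = ET B c k := by
  rw [iSup_const]
  refine le_antisymm (sup_le (le_ET B c k) ?_) (sup_le_sup_left ((Subgroup.closure_le _).2 ?_) _)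
  · rintro _ ⟨i, i1, -, q, rfl⟩
    exact mul_mem (le_ET B c k i1) (es_mem B c k q)
  · rintro _ ⟨q, rfl⟩
    exact ⟨1, one_mem _, InE.of_mem (one_mem _), q, (one_mul _).symm⟩

theorem flip_mul {x y : MM Γ a} (h1 : InE c x) (h2 : x ∉ Ep c) (h3 : InE c y) (h4 : y ∉ Ep c) :
    x⁻¹ * y ∈ Ep c := by
  have e1 : x * c ^ Γ.e * x⁻¹ = (c ^ Γ.e)⁻¹ :=
    h1.resolve_left fun e => h2 (mem_Ep.2 (mul_inv_eq_iff_eq_mul.1 e))
  have e2 : y * c ^ Γ.e * y⁻¹ = (c ^ Γ.e)⁻¹ :=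
    h3.resolve_left fun e => h4 (mem_Ep.2 (mul_inv_eq_iff_eq_mul.1 e))
  refine mem_Ep.2 ?_
  calc x⁻¹ * y * c ^ Γ.e = x⁻¹ * (y * c ^ Γ.e * y⁻¹) * y := by group
    _ = x⁻¹ * (x * c ^ Γ.e * x⁻¹) * y := by rw [e1, e2]
    _ = c ^ Γ.e * (x⁻¹ * y) := by group

end C2_efin

open C2_efin

theorem p_C2_EFIN (hROOT : S_ROOT) (hC2_STARFIN : S_C2_STARFIN) :
    S_C2_EFIN := by
  intro Γ a B c k hB hc hi hW K hK hfin
  obtain ⟨p, hp, h⟩ := hC2_STARFIN (MM Γ a) B Unit (fun _ => EA B c k) (fun _ b _ => b ∈ EA B c k)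
    (fun _ _ _ => Iff.rfl) (fun _ _ _ h => inv_mem h) (fun _ _ _ _ _ h h' => mul_mem h h')
    (fun _ _ _ h _ hx => mul_mem (mul_mem h hx) (inv_mem h))
    (fun l hl h1 h2 => by
      obtain ⟨s, l, rfl⟩ := List.exists_cons_of_ne_nil hl
      obtain ⟨i, -, -, q, l', w1, w2⟩ := word l s h1 h2
      rw [← w2]
      exact hW _ w1 (List.cons_ne_nil _ _))
    K (by rwa [sup_eq]) hfin
  rw [sup_eq] at hp
  rcases h with h | ⟨-, h⟩
  · exact ⟨p, hp, Or.inl h⟩
  have Z : ∀ x ∈ K, p⁻¹ * x * p ∈ Ep c → p⁻¹ * x * p ∈ B := fun x hx he =>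
    (hROOT Γ a B hB).2.2.1 c hc hi _ he ((finOrder_conj' p x).2
      (K.subtype.isOfFinOrder (isOfFinOrder_of_finite (⟨x, hx⟩ : K))))
  have I : ∀ x ∈ K, InE c (p⁻¹ * x * p) := fun x hx => by
    obtain ⟨i, -, i2, q, e⟩ := h x hx
    rw [e]
    exact i2.mul (InE.of_mem (ipow_mem_Ep c _))
  by_cases hall : ∀ x ∈ K, p⁻¹ * x * p ∈ Ep c
  · exact ⟨p, hp, Or.inl fun x hx => Z x hx (hall x hx)⟩
  push Not at hall
  obtain ⟨x0, hx0, n0⟩ := hall
  obtain ⟨i, i1, i2, q, e⟩ := h x0 hx0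
  have i3 : i ∉ Ep c := fun hE => n0 (by rw [e]; exact mul_mem hE (ipow_mem_Ep c _))
  have fixed : ∀ y ∈ Ep c, (ipow c (k (-(q / 2))))⁻¹ * y * ipow c (k (-(q / 2))) = y := fun y hy => by
    rw [mul_assoc, (es_comm hy k _).eq, inv_mul_cancel_left]
  have e0 : (ipow c (k (-(q / 2))))⁻¹ * (p⁻¹ * x0 * p) * ipow c (k (-(q / 2))) = i := by
    rw [e, mul_assoc, mul_assoc, ← es_add, show q + -(q / 2) = q / 2 by ring, ← es_flip i2 i3]
    group
  refine ⟨p * ipow c (k (-(q / 2))), mul_mem hp (es_mem B c k _), Or.inl fun x hx => ?_⟩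
  generalize ipow c (k (-(q / 2))) = t at fixed e0
  by_cases hE : p⁻¹ * x * p ∈ Ep c
  · rw [show (p * t)⁻¹ * x * (p * t) = t⁻¹ * (p⁻¹ * x * p) * t by group, fixed _ hE]
    exact Z x hx hE
  · have hm := flip_mul (I x0 hx0) n0 (I x hx) hE
    rw [show (p⁻¹ * x0 * p)⁻¹ * (p⁻¹ * x * p) = p⁻¹ * (x0⁻¹ * x) * p by group] at hm
    rw [show (p * t)⁻¹ * x * (p * t) =
      t⁻¹ * (p⁻¹ * x0 * p) * t * (t⁻¹ * (p⁻¹ * (x0⁻¹ * x) * p) * t) by group, e0, fixed _ hm]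
    exact mul_mem i1 (Z _ (mul_mem (inv_mem hx0) hx) hm)

end Pool.Agent.P.MP_dba3d2_lc


end

section

/-! Step C2_EXP0 of the stability project. -/

namespace Pool.Agent.P.MP_dba3d2_lc

open Filter

theorem p_C2_EXP0 (hELEM : S_ELEM) (hPERC : S_PERC) (hC2_RW : S_C2_RW) (hC2_RX : S_C2_RX) (hC2_TOP : S_C2_TOP) (hC2_ELOC : S_C2_ELOC) (hC2_EGEO : S_C2_EGEO) (hC2_EEP : S_C2_EEP) (hC2_ESTAR : S_C2_ESTAR) (hC2_EFIN : S_C2_EFIN) :
    S_C2_EXP0 := by
  intro Γ a μ B c k D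
  have hμ := D.big
  have h0 := hμ.pos.le
  obtain ⟨e1, e2, e3, e4⟩ := hC2_EEP Γ a μ B c k D
  have nf : ∀ t ∈ ET B c k, ∃ L : List (MM Γ a), L.prod = t ∧ Geo μ L ∧
      ∀ x ∈ L, x ∈ B ∨ x ∈ SE B c k := fun t ht => by
    obtain ⟨⟨l, b, hb, hl, rfl⟩, -⟩ := hC2_RW _ B _ _ _ (ews B c k) t (ET_eq B c k ▸ ht)
    exact ((hC2_EGEO Γ a μ B c k D).1 l hl b hb).1
  have st : ∀ f ∈ Ep c, ∀ g p q, On μ p g (g * f) → On μ q g (g * f) → Stab μ p q (g * c * g⁻¹) :=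
    fun f hf g p q hp hq => ((stab_conj g).2 ((hC2_ELOC Γ a μ B c k D).1 f hf)).sub hμ
      (by rwa [mul_one]) (by rwa [mul_one])
  have st1 : ∀ f ∈ Ep c, ∀ p q, On μ p 1 f → On μ q 1 f → Stab μ p q c := fun f hf p q hp hq =>
    ((hC2_ELOC Γ a μ B c k D).1 f hf).sub hμ hp hq
  have bl : ∀ w ∈ B, Ls (ln w) μ := fun w hw => ball_ls hμ D.bd hw
  have T : TopD μ B (ET B c k) {g | g ∈ B ∨ g ∈ SE B c k}
      (B ∪ Set.range fun q => ipow c (k q)) := by
    refine ⟨hμ, D.gc, le_ET B c k, D.tb, e2, fun t ht => ?_, ?_, ?_, hC2_ESTAR Γ a μ B c k D, ?_, ?_,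
      fun d hd hp f hf hfd n hn => ?_⟩
    · obtain ⟨L, a1, a2, a3⟩ := nf t ht
      exact ⟨L, a1, a2, fun x hx => ⟨(a3 x hx).elim (fun h => le_ET B c k h) fun h => (SE.mem h).1,
        1, one_mem _, x, a3 x hx, on_left h0 _ _, by rw [one_mul]; exact on_right h0 _ _⟩⟩
    · rintro w (hw | hw) w' hw' g p q ho hn
      · rcases hw' with hw' | hw'
        · exact le_ET B c k (D.gc.g2 μ hμ w hw w' hw' (bl w hw) (bl w' hw') g p q ho hn)
        · exact absurd ⟨_, mt (finOrder_conj g c).1 D.prim.1,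
            st w' (SE.mem hw').2 g p q ho.2.2.2.1 ho.2.2.2.2⟩ hn
      · exact absurd ⟨c, D.prim.1, st1 w (SE.mem hw).2 p q ho.2.1 ho.2.2.1⟩ hn
    · rintro w (hw | hw) p q h1 h2 h3 h4
      · obtain ⟨d, a1, a2⟩ := D.gc.g20 μ hμ w hw (bl w hw) p q h1 h2 h3 h4
        exact ⟨d, le_ET B c k a1, a2⟩
      · exact ⟨c, le_ET B c k D.mem, D.prim, st1 w (SE.mem hw).2 p q h2 h3⟩
    · rw [Subgroup.closure_union, Subgroup.closure_eq]
      rfl
    · rintro s hs d hd hp hm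
      obtain ⟨-, -, -, r4, r5⟩ := hC2_RX Γ a μ (ET B c k) d hμ hp.1 hm
      rcases hs with hs | ⟨q, rfl⟩
      · exact r5 B (le_ET B c k) D.gc D.bd hp s hs
      refine (r4 1 _).elim id fun ⟨p', q', a1, a2, a3, a4⟩ => ⟨_, es_mem B c k q, ?_, ?_⟩
      · rw [Ep_eq_of_stab hELEM hPERC hμ a1 hp.1 D.prim.1 a4 (st1 _ (ipow_mem_Ep c _) p' q' a2 a3)]
        exact ipow_mem_Ep c _
      · refine Ll.of_nonpos ?_ h0
        rw [mul_one, ds_self, mul_zero, zero_sub, neg_nonpos]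
        exact add_nonneg (ds_nonneg _ _) (ds_nonneg _ _)
    by_cases hx : ∀ x ∈ B, ¬ Cj x c d
    · obtain ⟨f', a1, a2⟩ := D.gc.pur d hd hp f (e3 d hd hp hx f hf hfd) hfd n hn
      exact ⟨f', le_ET B c k a1, a2⟩
    push Not at hx
    obtain ⟨x, hx, cj⟩ := hx
    have xT := le_ET B c k hx
    have me : ∀ y, y ∈ Ep d ↔ x⁻¹ * y * x ∈ Ep c := fun y => by rw [← cj, mem_Ep_conj]
    have cm : ∀ y ∈ Ep d, ∀ q, Commute y (x * ipow c (k q) * x⁻¹) := fun y hy q => by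
      simpa [mul_assoc] using (es_comm ((me y).1 hy) k q).map (MulAut.conj x)
    have sm : ∀ q, x * ipow c (k q) * x⁻¹ ∈ Ep d := fun q =>
      (me _).2 (by simpa [mul_assoc] using ipow_mem_Ep c (k q))
    obtain ⟨f0, b0, q, e⟩ := e4 _ (mul_mem (mul_mem (inv_mem xT) hf) xT) ((me f).1 hfd)
    have e' : f = x * f0 * x⁻¹ * (x * ipow c (k q) * x⁻¹) := by
      rw [conj_mul, ← e]
      group
    have m1 : x * f0 * x⁻¹ ∈ Ep d := by
      rw [← mul_inv_eq_iff_eq_mul.2 e']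
      exact mul_mem hfd (inv_mem (sm q))
    obtain ⟨f', a1, a2, r, a3⟩ := D.gc.pur d hd hp _ (mul_mem (mul_mem hx b0) (inv_mem hx)) m1 n hn
    refine ⟨f' * (x * ipow c (k (q / n)) * x⁻¹), mul_mem (le_ET B c k a1)
      (mul_mem (mul_mem xT (es_mem B c k _)) (inv_mem xT)), mul_mem a2 (sm _), r, ?_⟩
    have e2 := (cm _ (mul_mem (inv_mem m1) (pow_mem a2 n)) q).eq
    rw [(cm f' a2 _).mul_pow, conj_pow, es_pow, mul_div_cancel₀ _ (Nat.cast_ne_zero.2 hn.ne'), e']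
    generalize x * ipow c (k q) * x⁻¹ = σ at e2 ⊢
    generalize x * f0 * x⁻¹ = f1 at e2 a3 ⊢
    rwa [show (f1 * σ)⁻¹ * (f' ^ n * σ * d ^ r) = σ⁻¹ * (f1⁻¹ * f' ^ n * σ) * d ^ r by group, e2,
      inv_mul_cancel_left, mul_assoc]
  obtain ⟨g1, g2⟩ := hC2_TOP Γ a μ B _ _ _ T
  exact ⟨⟨g1, D.tb, hC2_EFIN Γ a B c k D.gc D.mem D.prim.1 e1, g2, e2⟩,
    addNF_of hμ D.tb e2 (fun x hx => Or.inl hx) nf⟩

end Pool.Agent.P.MP_dba3d2_lc


end
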