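import Pool.Agent.P.MP_dba3d2_lcM.Ab05
import Pool.Agent.P.MP_dba3d2_lcM.Bb10
import Pool.Agent.P.MP_dba3d2_lcM.Cb12
import Pool.Agent.P.MP_dba3d2_lcM.Cb18
import Pool.Agent.P.MP_dba3d2_lcM.Cb23
import Pool.Agent.P.MP_dba3d2_lcM.Cb32

section

/-! Step C2_LGEO of the stability project. -/

namespace Pool.Agent.P.MP_dba3d2_lc

open Filter

namespace C2_lgeo

variable {Γ : HG} {a : Amb} {μ : a.K} {B : Subgroup (MM Γ a)} {r : ℕ} {K : Fin r → Subgroup Γ.G}
  {u : Fin r → MM Γ a} {p q x y x' y' z : MM Γ a}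

theorem rev2 (h : Ov μ p q x y x' y') : Ov μ p q x y y' x' :=
  ⟨h.1, h.2.1, h.2.2.1, h.2.2.2.1.symm, h.2.2.2.2.symm⟩

theorem flip (h : Ov μ p q 1 x⁻¹ x' y') : Ov μ (x * p) (x * q) 1 x (x * x') (x * y') := by
  simpa only [mul_inv_cancel, mul_one] using (rev2 h.symm).symm.mul x

theorem ov_one (hμ : Big μ) (h : Ls μ (ln q)) (h1 : On μ q 1 x) (h2 : On μ q 1 y)
    (hz : Ll (ln z) μ) : Ov μ 1 q 1 x z y :=
  ⟨by rwa [ds_one_left], on_left hμ.pos.le _ _, h1, On.of_near (by rwa [ds_one_right]) _,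
    h2.congr (FixA.ll_self hμ.pos.le _) (by rwa [ds_one_left]) (FixA.ll_self hμ.pos.le _)⟩

theorem ll_one (hμ : Big μ) : Ll (ln (1 : MM Γ a)) μ := Ll.of_nonpos ln_one.le hμ.pos.le

theorem no_ov (hμ : Big μ) (hb : B ≤ ball Γ μ) (hL : Letters μ B K u) (i : Fin r) (hx : x ∈ B)
    (h : Ls μ (ln q)) (h1 : On μ q 1 (u i)) (h2 : On μ q 1 x) : False :=
  hL.base i x hx (ball_ls hμ hb hx) 1 1 q (by rw [one_mul]; exact ov_one hμ h h1 h2 (ll_one hμ))

theorem not_mem (hμ : Big μ) (hb : B ≤ ball Γ μ) (hL : Letters μ B K u) (i : Fin r) : u i ∉ B :=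
  fun h => no_ov hμ hb hL i h (hL.sim i).2 (on_right hμ.pos.le _ _) (on_right hμ.pos.le _ _)

theorem on_base (hμ : Big μ) (hb : B ≤ ball Γ μ) (hL : Letters μ B K u) (i : Fin r) (hx : x ∈ B) :
    On μ 1 (u i) x ∧ On μ 1 (u i)⁻¹ x := by
  refine ⟨by_contra fun h => ?_, by_contra fun h => ?_⟩ <;>
    obtain ⟨q, h0, h1, h2⟩ := exists_ovl hμ h
  · exact no_ov hμ hb hL i hx h0 h1 h2
  · have := flip (ov_one hμ h0 h1 h2 (ll_one hμ))
    rw [mul_one] at this
    exact hL.base i x hx (ball_ls hμ hb hx) _ _ _ this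

theorem on_hv (hμ : Big μ) (hb : B ≤ ball Γ μ) (hL : Letters μ B K u) (s : Fin r × Bool)
    (hx : x ∈ B) : On μ 1 (hv u s) x ∧ On μ 1 (hv u s)⁻¹ x := by
  obtain ⟨i, _ | _⟩ := s
  · rw [hv_false, inv_inv]
    exact (on_base hμ hb hL i hx).symm
  · exact on_base hμ hb hL i hx

theorem big_hv (hL : Letters μ B K u) (s : Fin r × Bool) : Ls μ (ln (hv u s)) := by
  obtain ⟨i, _ | _⟩ := s
  · rw [hv_false, ln_inv]
    exact (hL.sim i).2
  · exact (hL.sim i).2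

theorem junction (hμ : Big μ) (hB : GC0 B) (hb : B ≤ ball Γ μ) (hL : Letters μ B K u)
    {s s' : Fin r × Bool} (hz : z ∈ B) (ht : Ll (ln z) μ) (hn : ¬ HP B u s z s') :
    On μ 1 (hv u s)⁻¹ (z * hv u s') := by
  by_contra h
  obtain ⟨q, h0, h1, h2⟩ := exists_ovl hμ h
  have o := ov_one hμ h0 h1 h2 ht
  have m : ∀ {i g}, g ∈ (K i).map (cst Γ a) → g ∈ B := fun ⟨k, _, e⟩ => hB.base ⟨k, e⟩
  obtain ⟨i, _ | _⟩ := s <;> obtain ⟨j, _ | _⟩ := s' <;>
    simp only [hv_false, hv_true, inv_inv] at o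
  · have := hL.self i j (z * (u j)⁻¹) _ _ (by rw [inv_mul_cancel_right]; exact rev2 o)
    exact not_mem hμ hb hL j (inv_mem_iff.1 ((mul_mem_cancel_left hz).1 (m this.2)))
  · obtain ⟨rfl, k, hk, rfl⟩ := hL.self i j z _ _ o
    refine hn ⟨rfl, by simp, ?_⟩
    rwa [hv_false, hv_true, mul_assoc, ← (hL.comm i k hk).eq, inv_mul_cancel_left]
  · have := hL.self i j (u i * z * (u j)⁻¹) _ _ (by
      rw [inv_mul_cancel_right, mul_assoc]; exact rev2 (flip o))
    exact hn ⟨this.1, by simp, m this.2⟩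
  · have := hL.self i j (u i * z) _ _ (by rw [mul_assoc]; exact flip o)
    exact not_mem hμ hb hL i ((mul_mem_cancel_right hz).1 (m this.2))

theorem loc (hμ : Big μ) (hB : GC0 B) (hb : B ≤ ball Γ μ) (hL : Letters μ B K u) (hz : z ∈ B)
    (l : List (MM Γ a × Fin r × Bool)) : ∀ s, WRed B (HP B u) (s :: l) →
      Loc μ (s.1 :: hv u s.2 :: (wflat (hv u) l ++ [z])) := by
  induction l with
  | nil =>
    exact fun s h => ⟨(on_hv hμ hb hL _ (inv_mem h.mem)).1.symm,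
      fun e => absurd (big_hv hL _) (e.not_ls hμ.pos), (on_hv hμ hb hL _ hz).2, by simp, trivial⟩
  | cons s' l ih =>
    refine fun s h => ⟨(on_hv hμ hb hL _ (inv_mem h.mem)).1.symm,
      fun e => absurd (big_hv hL _) (e.not_ls hμ.pos), ?_⟩
    rw [wflat_cons]
    refine ⟨(on_hv hμ hb hL _ h.tail.mem).2, fun e w hw => ?_, ih s' h.tail⟩
    obtain rfl : hv u s'.2 = w := by simpa using hw
    exact ⟨big_hv hL _, junction hμ hB hb hL h.tail.mem e h.np⟩

end C2_lgeo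

open C2_lgeo in
theorem p_C2_LGEO :
    S_C2_LGEO := by
  intro Γ a μ B r K u hμ hB hb hL
  refine ⟨not_mem hμ hb hL, fun i x hx hy => ?_, fun l hl b h => ?_⟩
  · have h1 := on_one_iff'.1 (on_base hμ hb hL i (inv_mem hx)).1.symm
    have h2 := on_one_iff'.1 (on_base hμ hb hL i hy).2
    have h3 := on_mul_self_iff.1 h2
    rw [mul_assoc, mul_inv_cancel_left] at h2 h3
    have t : Ll (ln x) μ := (ll_or_ls hμ.pos _).resolve_right fun e =>
      (On.total hμ h1 h2).elim (fun o => no_ov hμ hb hL i hx e o.1 (on_right hμ.pos.le _ _))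
        fun o => no_ov hμ hb hL i hx (hL.sim i).2 (on_right hμ.pos.le _ _) o.1
    have t' : Ll (ds (x * u i) (u i)) μ := by
      rw [ds_comm]
      refine (h3.add t).mono_left ?_
      have := ln_mul_le x (u i)
      rw [ds]
      linarith
    exact (hL.self i i x 1 (u i) ⟨by simpa using (hL.sim i).2, on_left hμ.pos.le _ _,
      on_right hμ.pos.le _ _, On.of_near (by rwa [ds_one_right]) _, (On.of_near t' x).symm⟩).2
  · cases l with
    | nil => exact geo_single hμ.pos.le b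
    | cons s l =>
      rw [wflat_cons]
      exact (loc hμ hB hb hL h l s hl).geo hμ

end Pool.Agent.P.MP_dba3d2_lc


end

section

/-! Step C2_LNF of the stability project. -/

namespace Pool.Agent.P.MP_dba3d2_lc

open Filter

namespace C2_lnf

variable {Γ : HG} {a : Amb} {μ : a.K} {B : Subgroup (MM Γ a)} {r : ℕ} {K : Fin r → Subgroup Γ.G}
  {u : Fin r → MM Γ a}

theorem big (h : Letters μ B K u) (s : Fin r × Bool) : Ls μ (ln (hv u s)) := by
  obtain ⟨i, _ | _⟩ := s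
  · rw [hv_false, ln_inv]
    exact (h.sim i).2
  · exact (h.sim i).2

theorem nper (h : Letters μ B K u) (s : Fin r × Bool) {g p q : MM Γ a} (hn : Ls μ (ds p q))
    (hp : On μ p g (g * hv u s)) (hq : On μ q g (g * hv u s)) : ¬ Per μ p q := by
  obtain ⟨i, _ | _⟩ := s
  · rw [← per_mul_iff (u i * g⁻¹)]
    refine h.nper i _ _ (by rwa [ds_mul_left]) ?_ ?_
    · simpa [mul_assoc] using (hp.mul (u i * g⁻¹)).symm
    · simpa [mul_assoc] using (hq.mul (u i * g⁻¹)).symm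
  · rw [← per_mul_iff g⁻¹]
    refine h.nper i _ _ (by rwa [ds_mul_left]) ?_ ?_
    · simpa using hp.mul g⁻¹
    · simpa using hq.mul g⁻¹

end C2_lnf

open C2_lnf in
theorem p_C2_LNF (hC2_RW : S_C2_RW) (hC2_LGEO : S_C2_LGEO) :
    S_C2_LNF := by
  intro Γ a μ B r K u hμ hB hb hL
  have geo := (hC2_LGEO Γ a μ B r K u hμ hB hb hL).2.2
  have rw1 := hC2_RW (MM Γ a) B _ (hv u) (HP B u) (hws B u)
  rw [closure_hv] at rw1
  have pr : ∀ (l : List (MM Γ a × (Fin r × Bool))) (b : MM Γ a),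
      (wflat (hv u) l ++ [b]).prod = wval (hv u) l * b := fun l b => by
    rw [List.prod_append, wflat_prod, List.prod_singleton]
  refine ⟨fun l hl hne hm => ?_, fun t ht => ?_, fun z hz hn => ?_, fun c hc hm => ?_⟩
  · obtain ⟨s, l, rfl⟩ := List.exists_cons_of_ne_nil hne
    have := (geo _ hl _ (inv_mem hm)).ls_mem hμ (x := hv u s.2) (by simp) (big hL s.2)
    rw [pr, mul_inv_cancel, ln_one] at this
    exact (Ll.zero hμ.pos.le).not_ls hμ.pos this
  · obtain ⟨l, b, h1, h2, rfl⟩ := (rw1 t ht).1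
    refine ⟨_, pr l b, geo l h2 b h1, fun x hx => ?_⟩
    rcases List.mem_append.1 hx with hx | hx
    · obtain ⟨⟨β, i, ε⟩, hs, rfl | rfl⟩ := mem_wflat hx
      · exact Or.inl (h2.1 _ hs)
      · cases ε
        exacts [Or.inr ⟨i, Or.inr rfl⟩, Or.inr ⟨i, Or.inl rfl⟩]
    · exact Or.inl (List.mem_singleton.1 hx ▸ h1)
  · obtain ⟨l, b, h1, h2, rfl⟩ := (rw1 z hz).1
    cases l with
    | nil => exact absurd (by simpa using h1) hn
    | cons s l =>
      have k := geo _ h2 b h1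
      rw [wflat_cons, List.cons_append, List.cons_append] at k
      have k2 := k.head2
      rw [pr] at k2
      rw [wval_cons, mul_assoc, mul_assoc]
      exact ⟨s.1, s.1 * hv u s.2, k2.1, k2.2.1, by rw [ds_mul_right]; exact big hL s.2,
        fun q h3 h4 => nper hL s.2 h4 (on_left hμ.pos.le _ _) h3⟩
  · obtain ⟨g, hg, h | ⟨l, hne, e, h⟩ | ⟨b, -, s, -, h⟩⟩ := (rw1 c hc).2
    · exact ⟨g, hg, h⟩
    · have k := (geo _ h.left 1 (one_mem _)).left
      rw [wflat_append] at k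
      obtain ⟨s, l, rfl⟩ := List.exists_cons_of_ne_nil hne
      have := k.md hμ (k.left.ls_mem hμ (x := hv u s.2) (by simp) (big hL s.2))
      rw [wflat_prod, ← e, md_conj] at this
      exact absurd this (hm.not_ls hμ.pos)
    · exact absurd rfl h.2.1

end Pool.Agent.P.MP_dba3d2_lc


end

section

/-! Step LET of the stability project. -/

namespace Pool.Agent.P.MP_dba3d2_lc

open Filter

theorem p_LET (hC2_RX : S_C2_RX) (hC2_TOP : S_C2_TOP) (hC2_HST : S_C2_HST) (hC2_HFIN : S_C2_HFIN) (hC2_HEXT : S_C2_HEXT) (hC2_LGEO : S_C2_LGEO) (hC2_LNF : S_C2_LNF) :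
    S_LET := by
  intro Γ a μ B r K u hμ hB hb hL
  obtain ⟨n1, n2, n3, n4⟩ := hC2_LNF Γ a μ B r K u hμ hB hb hL
  have hu : ∀ i, u i ∈ B ⊔ Subgroup.closure (Set.range u) := fun i =>
    Subgroup.mem_sup_right (Subgroup.subset_closure ⟨i, rfl⟩)
  have le : B ≤ B ⊔ Subgroup.closure (Set.range u) := le_sup_left
  have bd : B ⊔ Subgroup.closure (Set.range u) ≤ ball Γ μ :=
    sup_le hb ((Subgroup.closure_le _).2 (by
      rintro _ ⟨i, rfl⟩
      exact (mem_ball hμ.pos.le).2 (hL.sim i).1))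
  obtain ⟨s1, s2, s3⟩ := hC2_HST Γ a μ B _ hμ hB le bd n3
  have h0 := hμ.pos.le
  have D : TopD μ B (B ⊔ Subgroup.closure (Set.range u)) ((B : Set (MM Γ a)) ∪ Set.range u)
      ((B : Set (MM Γ a)) ∪ Set.range u) := by
    refine ⟨hμ, hB, le, bd, s1, fun t ht => ?_, ?_, ?_, s3 n4, ?_, ?_, ?_⟩
    · obtain ⟨L, a1, a2, a3⟩ := n2 t ht
      refine ⟨L, a1, a2, fun x hx => ?_⟩
      rcases a3 x hx with h | ⟨i, rfl | rfl⟩
      · exact ⟨le h, 1, one_mem _, x, Or.inl h, on_left h0 _ _, by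
          rw [one_mul]; exact on_right h0 _ _⟩
      · exact ⟨hu i, 1, one_mem _, u i, Or.inr ⟨i, rfl⟩, on_left h0 _ _, by
          rw [one_mul]; exact on_right h0 _ _⟩
      · exact ⟨inv_mem (hu i), _, inv_mem (hu i), u i, Or.inr ⟨i, rfl⟩, by
          rw [inv_mul_cancel]; exact on_right h0 _ _, on_left h0 _ _⟩
    · rintro w (hw | ⟨i, rfl⟩) w' (hw' | ⟨j, rfl⟩) g p q h hp
      · exact le (hB.g2 μ hμ w hw w' hw' (ball_ls hμ hb hw) (ball_ls hμ hb hw') g p q h hp)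
      · have := (h.mul g⁻¹).symm
        rw [inv_mul_cancel, inv_mul_cancel_left, mul_one] at this
        exact absurd this (hL.base j w hw (ball_ls hμ hb hw) _ _ _)
      · exact absurd h (hL.base i w' hw' (ball_ls hμ hb hw') _ _ _)
      · obtain ⟨-, k, -, rfl⟩ := hL.self i j g p q h
        exact le (hB.base ⟨k, rfl⟩)
    · rintro w (hw | ⟨i, rfl⟩) p q a1 a2 a3 a4
      · obtain ⟨c, c1, c2⟩ := hB.g20 μ hμ w hw (ball_ls hμ hb hw) p q a1 a2 a3 a4
        exact ⟨c, le c1, c2⟩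
      · exact absurd a4 (hL.nper i p q a1 a2 a3)
    · rw [Subgroup.closure_union, Subgroup.closure_eq]
    · rintro s (hs | ⟨i, rfl⟩) d _ hd hm
      · exact (hC2_RX Γ a μ _ d hμ hd.1 hm).2.2.2.2 B le hB hb hd s hs
      · refine ((hC2_RX Γ a μ _ d hμ hd.1 hm).2.2.2.1 1 (u i)).resolve_right ?_
        rintro ⟨p, q, a1, a2, a3, a4⟩
        exact hL.nper i p q a1 a2 a3 ⟨d, hd.1, a4⟩
    · intro c hc hp f hf he n hn
      obtain ⟨f', a1, a2⟩ := hB.pur c hc hp f (s2 c hc hp f hf he) he n hn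
      exact ⟨f', le a1, a2⟩
  obtain ⟨t1, t2⟩ := hC2_TOP Γ a μ B _ _ _ D
  refine ⟨⟨t1, bd, fun Z h1 h2 => ?_, t2, s1⟩, hC2_HEXT Γ a B r u n1,
    addNF_of hμ bd s1 (fun x hx => Or.inl hx) n2, (hC2_LGEO Γ a μ B r K u hμ hB hb hL).2.1, s2⟩
  obtain ⟨p, a1, a2⟩ := hC2_HFIN _ B _ u n1 Z h1 h2
  exact ⟨p, a1, Or.inl a2⟩

end Pool.Agent.P.MP_dba3d2_lc


end

section

/-! Step Q_JL of the stability project. -/

namespace Pool.Agent.P.MP_dba3d2_lc

open Filter

namespace Q_jl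

variable {Γ : HG} {a : Amb} {μ : a.K}

/-- a path whose sides do not cancel in pairs is geodesic -/
theorem seq (hμ : Big μ) (P : ℕ → MM Γ a) : ∀ n : ℕ,
    (∀ i j, i < j → j < n → ¬ Ovj μ (P i) (P (i + 1)) (P j) (P (j + 1))) →
    (∀ i ≤ n, On μ (P i) (P 0) (P n)) ∧
      Ll (∑ t ∈ Finset.range n, ds (P t) (P (t + 1)) - ds (P 0) (P n)) μ
  | 0, _ => ⟨fun i hi => by
      obtain rfl := Nat.le_zero.1 hi
      exact on_left hμ.pos.le _ _, by simpa using Ll.zero hμ.pos.le⟩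
  | n + 1, h => by
    classical
    have h0 := hμ.pos.le
    have z : ∀ x : MM Γ a, Ll (ds x x) μ := fun x => by simpa using Ll.zero h0
    obtain ⟨ih1, ih2⟩ := seq hμ P n fun i j a b => h i j a (by omega)
    have key : On μ (P n) (P 0) (P (n + 1)) := by
      by_contra hn
      obtain ⟨q, e, k⟩ := exists_median (P 0) (P (n + 1)) (P n)
      obtain ⟨k1, k2⟩ := k μ hμ
      have lq : Ls μ (ds q (P n)) := (ll_or_ls hμ.pos _).resolve_left fun e' =>
        hn ((On.of_eq h0 e).congr e' (z _) (z _))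
      have l0 : Ls μ (ds (P 0) (P n)) := On.nondeg hμ k1 (on_right h0 _ _) lq
      obtain ⟨i, hi, hin, hg⟩ : ∃ i, Ls μ (ds (P i) (P n)) ∧ i ≤ n ∧
          ∀ j, i < j → j ≤ n → ¬ Ls μ (ds (P j) (P n)) :=
        ⟨Nat.findGreatest (fun i => Ls μ (ds (P i) (P n))) n,
          Nat.findGreatest_spec (P := fun i => Ls μ (ds (P i) (P n))) (Nat.zero_le n) l0,
          Nat.findGreatest_le n, fun j a b => Nat.findGreatest_is_greatest a b⟩
      have hlt : i < n := lt_of_le_of_ne hin fun e => (z (P n)).not_ls hμ.pos (e ▸ hi)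
      have hs : Ll (ds (P (i + 1)) (P n)) μ :=
        (ll_or_ls hμ.pos _).resolve_right (hg _ (Nat.lt_succ_self i) hlt)
      have lg : ∀ r, Ls μ (ds r (P n)) → Ls μ (ds (P (i + 1)) r) := fun r hr =>
        hr.of_le_add hs hμ.pos 1 (by
          rw [Nat.cast_one]
          linarith [ds_tri r (P (i + 1)) (P n), ds_comm r (P (i + 1))])
      refine h i n hlt (Nat.lt_succ_self n) ⟨hs, ?_⟩
      rcases On.total hμ k1.symm (ih1 i hin).symm with o | o
      · exact ⟨q, lg q lq, o.1.congr (z _) (by rwa [ds_comm]) (z _), k2.symm⟩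
      · exact ⟨P i, lg _ hi, on_right h0 _ _, (On.sub k2.symm o.1).1⟩
    refine ⟨fun i hi => ?_, ?_⟩
    · rcases Nat.le_succ_iff_eq_or_le.1 hi with rfl | hi
      exacts [on_right h0 _ _, (On.sub key (ih1 i hi)).1]
    · rw [Finset.sum_range_succ]
      exact (ih2.add key).mono_left (by linarith)

/-- the interleaved sequence -/
def il (p v : ℕ → MM Γ a) (k : ℕ) : MM Γ a := if k % 2 = 0 then p (k / 2) else v (k / 2)

theorem il_even (p v : ℕ → MM Γ a) (s : ℕ) : il p v (2 * s) = p s := by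
  rw [il, if_pos (by omega), show 2 * s / 2 = s by omega]
theorem il_odd (p v : ℕ → MM Γ a) (s : ℕ) : il p v (2 * s + 1) = v s := by
  rw [il, if_neg (by omega), show (2 * s + 1) / 2 = s by omega]
theorem il_next (p v : ℕ → MM Γ a) (s : ℕ) : il p v (2 * s + 1 + 1) = p (s + 1) :=
  il_even p v (s + 1)

theorem il_sum (p v : ℕ → MM Γ a) : ∀ N : ℕ,
    ∑ t ∈ Finset.range (2 * N + 1), ds (il p v t) (il p v (t + 1)) = ds (p 0) (v 0) + per2 p v N
  | 0 => by simp [per2, il]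
  | N + 1 => by
    rw [show 2 * (N + 1) + 1 = 2 * N + 1 + 1 + 1 by ring, Finset.sum_range_succ,
      Finset.sum_range_succ, il_sum p v N, per2_succ, il_odd, il_next,
      show 2 * N + 1 + 1 + 1 = 2 * (N + 1) + 1 by ring, il_odd]
    ring

end Q_jl

open Q_jl in
theorem p_Q_JL :
    S_Q_JL := by
  intro Γ a μ p v N hμ h1 h2 h3 h4
  have k := (seq hμ (il p v) (2 * (N + 1) + 1) fun i j hij hj => ?_).2
  · rw [il_sum, il_odd, ← len2_eq] at k
    exact k
  · obtain ⟨s, rfl | rfl⟩ := Nat.even_or_odd' i <;> obtain ⟨t, rfl | rfl⟩ := Nat.even_or_odd' j <;>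
      simp only [il_even, il_odd, il_next]
    · exact h4 s t (by omega) (by omega)
    · exact h3 s t (by omega) (by omega)
    · exact h2 s t (by omega) (by omega)
    · exact h1 s t (by omega) (by omega)

end Pool.Agent.P.MP_dba3d2_lc


end

section

/-! Step Q_GEO of the stability project. -/

namespace Pool.Agent.P.MP_dba3d2_lc

open Filter

namespace Q_geo

variable {Γ : HG} {a : Amb} {μ : a.K} {d q r x x' y y' : MM Γ a} {ε : Nd Γ a}

theorem ax (hμ : Big μ) (h : Eo μ ε x y) (hn : Ls μ (ds r q)) (hr : On μ r x y)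
    (hq : On μ q x y) : ∃ d, ε = .inr d ∧ Stab μ r q d := by
  rcases h with h | ⟨d, e, s⟩
  · exact (h.not_ls hμ.pos (On.nondeg hμ hr hq hn)).elim
  · exact ⟨d, e, s.sub hμ hr hq⟩

theorem ov (hμ : Big μ) (h : Ovj μ x y x' y') : ∃ q, Ov μ y q x y x' y' ∧
    (∀ d, Stab μ y q d → Al μ d y x) ∧ ∀ d, Stab μ y q d → Al μ d x' y' := by
  obtain ⟨h0, q, h1, h2, h3⟩ := h
  have z := FixA.ll_self (Γ := Γ) hμ.pos.le
  refine ⟨q, ⟨h1, on_right hμ.pos.le _ _, h2.symm, On.of_near (FixA.ll_comm h0) _, h3⟩,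
    fun d s => ⟨q, h1, h2, s⟩, fun d s => ?_⟩
  exact Al.congr hμ ⟨q, h1, h3.congr (z _) (FixA.ll_comm h0) (z _), s⟩ h0 (z _)

end Q_geo

open Q_geo

theorem p_Q_GEO (hELEM : S_ELEM) (hLINE : S_LINE) (hPERC : S_PERC) (hROOT : S_ROOT) (hQ_JL : S_Q_JL) :
    S_Q_GEO := by
  intro Γ a μ H u g ε p v N hμ hH X F L E
  have hl : ∀ t ≤ N, ∀ d, ε t = .inr d → Aj H (g t) d := fun t ht d e => by
    have := X.l t ht
    rwa [e] at this
  have hr : ∀ t ≤ N, ∀ d, ε (t + 1) = .inr d → Aj H (g t) d := fun t ht d e => by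
    have := X.r t ht
    rwa [e] at this
  have hd : ∀ t ≤ N, ∀ d d', ε t = .inr d → ε (t + 1) = .inr d' → Ep d ≠ Ep d' :=
    fun t ht d d' e e' => by
      have := X.rd t ht
      rw [e, e'] at this
      exact this.ne
  have n1 : ∀ t ≤ N, ∀ d, ε t = .inr d → ¬ Al μ d (v t) (p (t + 1)) := fun t ht d e => by
    have := (F t ht).na
    rw [e] at this
    exact this μ hμ (L t ht)
  have n2 : ∀ t ≤ N, ∀ d, ε (t + 1) = .inr d → ¬ Al μ d (p (t + 1)) (v t) := fun t ht d e => by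
    have := (F t ht).na'
    rw [e] at this
    exact this μ hμ (ds_comm (v t) _ ▸ L t ht)
  refine hQ_JL Γ a μ p v N hμ ?_ ?_ ?_ ?_
  · intro s t h1 h2 o
    have h3 : s ≤ N := by omega
    obtain ⟨q, o, a1, -⟩ := ov hμ o
    rcases (F s h3).sd.ov hELEM hPERC hROOT hH hμ (F t h2).sd (L s h3) (L t h2) o with
      k | ⟨e, k1, k2, k3⟩
    · exact X.h0 s t h1 h2 k
    · obtain ⟨rfl, m⟩ := X.h2 s t h1 h2 e k1 k2
      obtain ⟨d, e1, e2⟩ := m.inr
      exact n2 s h3 d e1 ((a1 e k3).ep hELEM hLINE (hl _ h2 d e1).1 k1.1.1 e2.symm)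
  · intro s t h1 h2 o
    obtain ⟨t, rfl⟩ : ∃ t', t = t' + 1 := ⟨t - 1, by omega⟩
    have h3 : s ≤ N := by omega
    have h4 : t ≤ N := by omega
    obtain ⟨q, o, a1, -⟩ := ov hμ o
    obtain ⟨d, e1, k⟩ := ax hμ (E _ h2) o.1 o.2.2.2.1 o.2.2.2.2
    have b := hr t h4 d e1
    rcases (show s ≤ t by omega).eq_or_lt with rfl | h5
    · exact n2 s h3 d e1 (a1 d k)
    · obtain ⟨d', e2, e3⟩ := (X.h2 s t h5 h4 d ((F s h3).sd.aj hELEM hPERC hROOT hH hμ (L s h3)
        o.1 o.2.1 o.2.2.1 b.1 k) b).2.inr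
      exact hd t h4 d' d e2 e1 e3.symm
  · intro s t h1 h2 o
    have h3 : s ≤ N := by omega
    obtain ⟨q, o, -, a2⟩ := ov hμ o
    obtain ⟨d, e1, k⟩ := ax hμ (E s (by omega)) o.1 o.2.1 o.2.2.1
    have b := hl s h3 d e1
    rcases h1.eq_or_lt with rfl | h5
    · exact n1 s h3 d e1 (a2 d k)
    · obtain ⟨rfl, m⟩ := X.h2 s t h5 h2 d b ((F t h2).sd.aj hELEM hPERC hROOT hH hμ (L t h2)
        o.1 o.2.2.2.1 o.2.2.2.2 b.1 k)
      obtain ⟨d', e2, e3⟩ := m.inr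
      exact hd s h3 d d' e1 e2 e3
  · intro s t h1 h2 o
    obtain ⟨t, rfl⟩ : ∃ t', t = t' + 1 := ⟨t - 1, by omega⟩
    have h3 : s ≤ N := by omega
    have h4 : t ≤ N := by omega
    obtain ⟨q, o, -, -⟩ := ov hμ o
    obtain ⟨d, e1, k⟩ := ax hμ (E s (by omega)) o.1 o.2.1 o.2.2.1
    obtain ⟨d', e2, k'⟩ := ax hμ (E _ h2) o.1 o.2.2.2.1 o.2.2.2.2
    have b := hl s h3 d e1
    have b' := hr t h4 d' e2
    have e := Ep_eq_of_stab hELEM hPERC hμ o.1 b.1.1 b'.1.1 k k'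
    rcases (show s ≤ t by omega).eq_or_lt with rfl | h5
    · exact hd s h3 d d' e1 e2 e
    · obtain ⟨rfl, m⟩ := X.h2 s t h5 h4 d b (b'.ep hROOT hH b.1 e)
      obtain ⟨d'', e3, e4⟩ := m.inr
      exact hd s h3 d d'' e1 e3 e4

end Pool.Agent.P.MP_dba3d2_lc


end

section

/-! Step Q_FEET of the stability project. -/

namespace Pool.Agent.P.MP_dba3d2_lc

open Filter

namespace Q_feet

variable {Γ : HG} {a : Amb} {H : Subgroup (MM Γ a)} {d d' f g h u w w' x y z : MM Γ a}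

/-- moving a centre by an exponent -/
theorem shift (hE : S_ELEM) (hL : S_LINE) (hd : Prim d) (hx : Ct d x) (hf : f ∈ Ep (x⁻¹ * d * x))
    (n : NA (x⁻¹ * d * x) 1 z) : Ct d (x * f) ∧ NA d (x * f) (x * f * z) := by
  have p : Prim (x * f * (x⁻¹ * d * x) * (x * f)⁻¹) := (hd.conj' x).conj _
  have e : Ep (x * f * (x⁻¹ * d * x) * (x * f)⁻¹) = Ep d := by
    rw [← Ep_conj_iff' x, ← Ep_conj_mem hf]
    exact congrArg Ep (by group)
  have c : Ct (x * f * (x⁻¹ * d * x) * (x * f)⁻¹) (x * f) := by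
    have := ct_iff.1 hx
    rw [ct_iff]
    convert this using 1
    group
  refine ⟨c.of_prim hE hL p hd.1 e, fun μ hμ h1 h2 => ?_⟩
  have n' := (na_mv (x * f)).2 n
  rw [mul_one] at n'
  exact n' μ hμ h1 (h2.ep hE hL p hd.1 e)

theorem n1 (hE : S_ELEM) (hL : S_LINE) (hN : S_NORM) (hH : GC0 H) (hd : Aj H g d)
    (hy : g⁻¹ * y ∈ H) : ∃ x, g⁻¹ * x ∈ H ∧ Ct d x ∧ NA d x y := by
  obtain ⟨x, hx, c⟩ := hd.centre hH
  obtain ⟨f, hf, e, -, n⟩ := (hN Γ a H hH).1 _ (hd.foot hx) (hd.1.conj' x) (ct_iff.1 c) _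
    (co_trans (co_symm hy) hx)
  obtain ⟨k1, k2⟩ := shift hE hL hd.1 c e n.na
  refine ⟨x * f, by simpa [mul_assoc] using mul_mem hx hf, k1, ?_⟩
  convert k2 using 1
  group

theorem axes (hE : S_ELEM) (hL : S_LINE) (hN : S_NORM) (hH : GC0 H) (hd : Aj H g d)
    (hd' : Aj H g d') (ne : Ep d ≠ Ep d') : ∃ x y, Fe H g (.inr d) (.inr d') x y := by
  obtain ⟨x, hx, c⟩ := hd.centre hH
  obtain ⟨y, hy, c'⟩ := hd'.centre hH
  have nc : ¬ Cj (x⁻¹ * y) (y⁻¹ * d' * y) (x⁻¹ * d * x) := fun e => by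
    refine ne ((Ep_conj_iff' x).1 (Eq.trans (Eq.symm e) (congrArg Ep ?_)))
    group
  obtain ⟨f, hf, f', hf', e, e', n, n', -⟩ := (hN Γ a H hH).2 _ (hd.foot hx) _ (hd'.foot hy)
    (hd.1.conj' x) (hd'.1.conj' y) (ct_iff.1 c) (ct_iff.1 c') _ (co_trans (co_symm hx) hy) nc
  obtain ⟨k1, k2⟩ := shift hE hL hd.1 c (inv_mem e) n.na
  obtain ⟨l1, l2⟩ := shift hE hL hd'.1 c' e' n'.na
  have m : g⁻¹ * (x * f⁻¹) ∈ H := by simpa [mul_assoc] using mul_mem hx (inv_mem hf)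
  have m' : g⁻¹ * (y * f') ∈ H := by simpa [mul_assoc] using mul_mem hy hf'
  refine ⟨x * f⁻¹, y * f', ⟨m, k1⟩, ⟨m', l1⟩, Or.inl ⟨m, m'⟩, ?_, ?_⟩
  · change NA d _ _
    convert k2 using 1
    group
  · change NA d' _ _
    convert l2 using 1
    group

theorem near (hw : g⁻¹ * w * u⁻¹ ∈ H) (hh : h ∈ H) :
    ∃ k ∈ H, ds w (g * k) = ds u h :=
  ⟨_, mul_mem hw hh, congrArg ln (by group)⟩

theorem mixed (D : LimD H u) (hx : g⁻¹ * x ∈ H) (hw : g⁻¹ * w * u⁻¹ ∈ H) : Sd H g x w := by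
  obtain ⟨b, h, hh, k⟩ := D.a1 _ (mul_mem (inv_mem hw) hx)
  have e : ds ((g⁻¹ * w * u⁻¹)⁻¹ * (g⁻¹ * x)) u = ds x w := congrArg ln (by group)
  rw [e] at b k
  obtain ⟨h', hh', e'⟩ := near hw hh
  exact Or.inr ⟨b, _, hx, h', hh', by simpa using Ll.zero b.pos.le, e' ▸ k⟩

theorem limits (D : LimD H u) (hw : g⁻¹ * w * u⁻¹ ∈ H) (hw' : g⁻¹ * w' * u⁻¹ ∈ H)
    (n : ¬ Sm H u (.inl w) (.inl w')) : Sd H g w w' := by
  have m : u * (w⁻¹ * w') * u⁻¹ ∈ H := by simpa [mul_assoc] using mul_mem (inv_mem hw) hw'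
  have e : u⁻¹ * (u * (w⁻¹ * w') * u⁻¹) * u = w⁻¹ * w' := by group
  obtain ⟨b, h, hh, k⟩ := D.a2 _ m (Or.inl fun i => n ⟨e ▸ i, m⟩)
  rw [e] at b k
  obtain ⟨h1, m1, e1⟩ := near hw hh
  obtain ⟨h2, m2, e2⟩ := near hw' hh
  exact Or.inr ⟨b, h1, m1, h2, m2, e1 ▸ k, e2 ▸ k⟩

theorem axpt (hE : S_ELEM) (hL : S_LINE) (hN : S_NORM) (hH : GC0 H) (hd : Aj H g d)
    (hw : At H u g (.inl w)) : ∃ x y, Fe H g (.inr d) (.inl w) x y := by
  rcases hw with hw | ⟨D, hw⟩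
  · obtain ⟨x, hx, c, n⟩ := n1 hE hL hN hH hd hw
    exact ⟨x, w, ⟨hx, c⟩, rfl, Or.inl ⟨hx, hw⟩, n, trivial⟩
  have j : Aj H (w * u⁻¹) d := hd.congr (by rwa [← mul_assoc])
  obtain ⟨-, h, hh, k⟩ := D.a2 _ j.2 (Or.inr (hd.1.conj' _).1)
  have e : ln (u⁻¹ * ((w * u⁻¹)⁻¹ * d * (w * u⁻¹)) * u) = ds w (d * w) := congrArg ln (by group)
  rw [e] at k
  obtain ⟨h', hh', e'⟩ := near hw hh
  rw [← e'] at k
  obtain ⟨x, hx, c, n⟩ := n1 hE hL hN hH hd (y := g * h') (by simpa using hh')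
  refine ⟨x, w, ⟨hx, c⟩, rfl, mixed D hx hw, fun μ hμ h1 h2 => ?_, trivial⟩
  have s : Ll (ds x (d * x)) μ := let ⟨_, _, _, h3⟩ := h2; h3.1
  have t : Ll (ds w (g * h')) μ := k.ls_right
    (Ls.mono_left (disp_le d w x) ((Ls.two (ds_comm x w ▸ h1)).add s.ls)) hμ.pos.le
  exact n μ hμ (Ls.mono_left (ds_tri x w _) (h1.add t.ls))
    (h2.congr hμ (FixA.ll_self hμ.pos.le x) t)

theorem ptpt (k : Sd H g w w') : Fe H g (.inl w) (.inl w') w w' :=
  ⟨rfl, rfl, k, trivial, trivial⟩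

end Q_feet

open Q_feet in
theorem p_Q_FEET (hELEM : S_ELEM) (hLINE : S_LINE) (hNORM : S_NORM) :
    S_Q_FEET := by
  intro Γ a H u g ε ε' hH h h' r
  rcases ε with w | d <;> rcases ε' with w' | d'
  · refine ⟨w, w', ?_⟩
    rcases h with h | ⟨D, h⟩ <;> rcases h' with h' | ⟨D', h'⟩
    · exact ptpt (Or.inl ⟨h, h'⟩)
    · exact ptpt (mixed D' h h')
    · exact (ptpt (mixed D h' h)).symm
    · rcases r with r | ⟨_, e, r⟩ | ⟨_, e, r⟩
      · exact ptpt (limits D h h' r)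
      · cases e
        exact ptpt (mixed D r h')
      · cases e
        exact (ptpt (mixed D r h)).symm
  · obtain ⟨x, y, k⟩ := axpt hELEM hLINE hNORM hH h' h
    exact ⟨y, x, k.symm⟩
  · exact axpt hELEM hLINE hNORM hH h h'
  · exact axes hELEM hLINE hNORM hH h h' r.ne

end Pool.Agent.P.MP_dba3d2_lc


end

section

/-! Step Q_MIX2 of the stability project. -/

namespace Pool.Agent.P.MP_dba3d2_lc

open Filter

namespace Q_mix2A

variable {Γ : HG} {a : Amb} {H : Subgroup (MM Γ a)} {μ : a.K} {u g g' x y x' y' d e : MM Γ a}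
  {ε ε' : Nd Γ a}

theorem geo (hG : S_Q_GEO) (hμ : Big μ) (hH : GC0 H) (h1 : At H u g ε) (h2 : At H u g ε')
    (hn : ¬ Sm H u ε ε') (f : Fe H g ε ε' x y) (l : Ls (ds x y) μ) (e1 : Eo μ ε x' x)
    (e2 : Eo μ ε' y y') : Ll (ds x' x + ds x y + ds y y' - ds x' y') μ := by
  have := hG Γ a μ H u (fun _ => g) (fun t => t.casesOn ε fun _ => ε')
    (fun t => t.casesOn x' fun _ => y) (fun t => t.casesOn x fun _ => y') 0 hμ hH
    ⟨fun t ht => by obtain rfl := Nat.le_zero.1 ht; exact h1, fun _ _ => h2,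
      fun t ht => by obtain rfl := Nat.le_zero.1 ht; exact Or.inl hn,
      fun s t k1 k2 => by omega, fun s t k1 k2 => by omega⟩
    (fun t ht => by obtain rfl := Nat.le_zero.1 ht; exact f)
    (fun t ht => by obtain rfl := Nat.le_zero.1 ht; exact l)
    (fun t _ => by cases t; exacts [e1, e2])
  rwa [G2, len2_zero] at this

theorem core (hE : S_ELEM) (hL : S_LINE) (hP : S_PERC) (hR : S_ROOT) (hG : S_Q_GEO)
    (hF : S_Q_FEET) (hH : GC0 H) (ne : g⁻¹ * g' ∉ H) (a1 : At H u g ε) (a2 : At H u g' ε)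
    (a3 : At H u g ε') (a4 : At H u g' ε') (hn : ¬ Sm H u ε ε') :
    ∃ e, Aj H g e ∧ Aj H g' e ∧ ¬ Sm H u (.inr e) ε := by
  obtain ⟨x, y, f⟩ := hF Γ a H u g ε ε' hH a1 a3 (Or.inl hn)
  obtain ⟨x', y', f'⟩ := hF Γ a H u g' ε ε' hH a2 a4 (Or.inl hn)
  have ne' : g'⁻¹ * g ∉ H := fun k => ne (co_symm k)
  have p1 := ds_nonneg x y
  have p2 := ds_nonneg x' y'
  have p3 := ds_nonneg x x'
  have p4 := ds_nonneg y y'
  have c1 := ds_comm x' x
  have c2 := ds_comm y' y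
  obtain ⟨μ, hμ⟩ : ∃ μ, μ = ds x y + ds x' y' + ds x x' + ds y y' := ⟨_, rfl⟩
  have l1 : Ls (ds x y) μ := Ls.of_le (by linarith)
  have l2 : Ls (ds x' y') μ := Ls.of_le (by linarith)
  have l3 : Ls (ds x x') μ := Ls.of_le (by linarith)
  have l4 : Ls (ds y y') μ := Ls.of_le (by linarith)
  have hb : Big μ := by
    by_contra b
    exact ne (co_trans (co_trans (f.sd.co (not_big_of_ls l1 b)).1
      (hH.co_of_not_big (not_big_of_ls l3 b))) (co_symm (f'.sd.co (not_big_of_ls l2 b)).1))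
  have h0 := hb.pos.le
  have E1 := geo hG hb hH a1 a3 hn f l1 (Ft.eo hR hH a2 a1 f'.f f.f ne' h0 (c1 ▸ l3))
    (Ft.eo hR hH a3 a4 f.f' f'.f' ne h0 l4)
  have E2 := geo hG hb hH a2 a4 hn f' l2 (Ft.eo hR hH a1 a2 f.f f'.f ne h0 l3)
    (Ft.eo hR hH a4 a3 f'.f' f.f' ne' h0 (c2 ▸ l4))
  have t1 := ds_tri x' x y'
  have t2 := ds_tri x y y'
  have t3 := ds_tri x' x y
  have lg : Ls μ (ds x y) :=
    (Ls.refl' μ).of_le_add (E1.add E2) hb.pos 2 (by push_cast; linarith)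
  obtain ⟨e, k1, k2, k3⟩ := (Sd.ov hE hP hR hH hb f.sd f'.sd l1 l2 (p := x) (q := y)
    ⟨lg, on_left h0 _ _, on_right h0 _ _, E1.mono_left (by linarith),
      E1.mono_left (by linarith)⟩).resolve_left ne
  refine ⟨e, k1, k2, fun s => ?_⟩
  obtain ⟨d, rfl, k⟩ := s.inr
  exact f.na μ hb l1 (Al.ep hE hL ⟨y, lg, on_right h0 _ _, k3⟩ a1.1 k1.1.1 k.symm)

theorem fin (hR : S_RIG) (hH : GC0 H) (a1 : Aj H g d) (a2 : Aj H g' d) (a3 : Aj H g e)
    (a4 : Aj H g' e) (hn : Ep e ≠ Ep d) : g⁻¹ * g' ∈ H :=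
  (hR Γ a H hH).1 _ a3.2 _ a1.2 _ a4.2 _ a2.2 (a3.1.conj' g).1 (a1.1.conj' g).1 (a3.1.conj' g').1
    (a1.1.conj' g').1 (mt (Ep_conj_iff' g).1 hn) _ (congrArg Ep (by group))
    (congrArg Ep (by group))

end Q_mix2A

open Q_mix2A in
theorem p_Q_MIX2 (hELEM : S_ELEM) (hLINE : S_LINE) (hPERC : S_PERC) (hROOT : S_ROOT) (hRIG : S_RIG) (hQ_GEO : S_Q_GEO) (hQ_FEET : S_Q_FEET) :
    S_Q_MIX2 := by
  intro Γ a H u g g' ε ε' hH ne a1 a2 a3 a4
  by_contra hn
  obtain ⟨e, k1, k2, k3⟩ := core hELEM hLINE hPERC hROOT hQ_GEO hQ_FEET hH ne a1 a2 a3 a4 hn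
  rcases ε with w | d
  · obtain ⟨e', l1, l2, l3⟩ := core hELEM hLINE hPERC hROOT hQ_GEO hQ_FEET hH ne
      (ε := .inr e) k1 k2 a1 a2 k3
    exact ne (fin hRIG hH k1 k2 l1 l2 l3)
  · exact ne (fin hRIG hH a1 a2 k1 k2 k3)

end Pool.Agent.P.MP_dba3d2_lc


end

section

/-! Step Q_XCH of the stability project. -/

namespace Pool.Agent.P.MP_dba3d2_lc

open Filter

namespace Q_xch

variable {Γ : HG} {a : Amb} {H : Subgroup (MM Γ a)} {u e : MM Γ a} {g : ℕ → MM Γ a}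
  {ε : ℕ → Nd Γ a} {N n s t : ℕ}

theorem s1 (mx : Mx H u n) (c : MCh H u g ε N) (h1 : s < t) (h2 : t ≤ N) (h3 : t < s + n)
    (a1 : Aj H (g s) e) (a2 : Aj H (g t) e) : Sm H u (.inr e) (ε s) := by
  by_contra k
  obtain ⟨m, rfl⟩ : ∃ m, t = s + m := ⟨t - s, by omega⟩
  obtain ⟨G, E, c2, f1, f2, -⟩ := (c.shift s h2).cons (η := .inr e) a2 a1
    (fun e => mx.ne c h1 h2 h3.le (co_symm e)) fun _ => k
  exact mx G E (m + 1) (by omega) (by omega) c2 (by rw [f1, f2]; exact co_refl H _)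

theorem one (hR : S_ROOT) (hH : GC0 H) (mx : Mx H u n) (c : MCh H u g ε N) (h1 : s < t)
    (h2 : t ≤ N) (h3 : t < s + n) (a1 : Aj H (g s) e) (a2 : Aj H (g t) e) :
    t = s + 1 ∧ Sm H u (.inr e) (ε s) := by
  have k := s1 mx c h1 h2 h3 a1 a2
  refine ⟨by_contra fun ne => c.rd s (by omega) (k.symm.trans (s1 mx c (t := t) (by omega) h2
    (by omega) ((c.r s (by omega)).same hR hH (g' := g s) (ε' := .inr e) a1 k.symm) a2)), k⟩

end Q_xch

theorem p_Q_XCH (hROOT : S_ROOT) :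
    S_Q_XCH := by
  intro Γ a H u g ε N hH
  refine ⟨fun n mx c s t h1 h2 h3 e => Q_xch.one hROOT hH mx c h1 h2 h3,
    fun mx c a0 a1 r0 r1 => ⟨fun t ht => ?_, fun t ht => ?_, fun t ht => ?_,
      fun s t h1 h2 => mx.ne c h1 h2 (by omega), fun s t h1 h2 e b1 b2 => ?_⟩⟩
  · cases t with
    | zero => exact a0
    | succ t => exact c.r t ht
  · rcases ht.eq_or_lt with rfl | h
    exacts [a1, c.l t h]
  · rcases ht.eq_or_lt with rfl | h
    · exact r1
    · cases t with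
      | zero => exact r0
      | succ t => exact .inl (c.rd t h)
  · obtain ⟨rfl, k⟩ := Q_xch.one hROOT hH mx c h1 h2 (by omega) b1 b2
    exact ⟨rfl, k⟩

end Pool.Agent.P.MP_dba3d2_lc


end

section

/-! Step Q_PEXT of the stability project. -/

namespace Pool.Agent.P.MP_dba3d2_lc

open Filter

namespace Q_pext

variable {Γ : HG} {a : Amb}

/-- periodic extension of points -/
def ex (c : MM Γ a) (n : ℕ) (f : ℕ → MM Γ a) (t : ℕ) : MM Γ a := c ^ (t / n) * f (t % n)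

/-- periodic extension of ends -/
def ee (c : MM Γ a) (n : ℕ) (f : ℕ → Nd Γ a) (t : ℕ) : Nd Γ a := (f (t % n)).mv (c ^ (t / n))

theorem mv_one (ε : Nd Γ a) : ε.mv 1 = ε := by
  cases ε <;> simp [Nd.mv]

theorem ex_add (c : MM Γ a) (N : ℕ) (f : ℕ → MM Γ a) (t : ℕ) :
    ex c (N + 1) f (t + (N + 1)) = c * ex c (N + 1) f t := by
  unfold ex
  rw [Nat.add_div_right _ N.succ_pos, Nat.add_mod_right, pow_succ', mul_assoc]

theorem ee_add (c : MM Γ a) (N : ℕ) (f : ℕ → Nd Γ a) (t : ℕ) :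
    ee c (N + 1) f (t + (N + 1)) = (ee c (N + 1) f t).mv c := by
  unfold ee
  rw [Nat.add_div_right _ N.succ_pos, Nat.add_mod_right, pow_succ', mv_mv]

theorem ex_lt (c : MM Γ a) {n t : ℕ} (f : ℕ → MM Γ a) (h : t < n) : ex c n f t = f t := by
  unfold ex
  rw [Nat.div_eq_of_lt h, Nat.mod_eq_of_lt h, pow_zero, one_mul]

theorem ee_lt (c : MM Γ a) {n t : ℕ} (f : ℕ → Nd Γ a) (h : t < n) : ee c n f t = f t := by
  unfold ee
  rw [Nat.div_eq_of_lt h, Nat.mod_eq_of_lt h, pow_zero, mv_one]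

theorem ind {P : ℕ → Prop} (N : ℕ) (h0 : ∀ t < N + 1, P t) (h1 : ∀ t, P t → P (t + (N + 1))) :
    ∀ t, P t := by
  intro t
  induction t using Nat.strong_induction_on with
  | _ t ih =>
    rcases lt_or_ge t (N + 1) with h | h
    · exact h0 t h
    · obtain ⟨s, rfl⟩ := Nat.exists_eq_add_of_le' h
      exact h1 s (ih s (by omega))

end Q_pext

open Q_pext in
theorem p_Q_PEXT (hQ_FEET : S_Q_FEET) :
    S_Q_PEXT := by
  intro Γ a H T u c g ε N hH hM hs hr hc hT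
  have sh : ∀ t, t + (N + 1) + 1 = t + 1 + (N + 1) := fun t => by omega
  have gN : ex c (N + 1) g (N + 1) = c * g 0 := by
    have := ex_add c N g 0
    rwa [zero_add, ex_lt c g N.succ_pos] at this
  have eN : ee c (N + 1) ε (N + 1) = (ε 0).mv c := by
    have := ee_add c N ε 0
    rwa [zero_add, ee_lt c ε N.succ_pos] at this
  have co : ∀ t < N + 1, (g (t + 1))⁻¹ * ex c (N + 1) g (t + 1) ∈ H := by
    intro t ht
    rcases Nat.lt_succ_iff_lt_or_eq.1 ht with k | rfl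
    · rw [ex_lt c g (Nat.succ_lt_succ k)]
      exact co_refl H _
    · rw [gN]
      exact hs
  have a1 : ∀ t, At H u (ex c (N + 1) g t) (ee c (N + 1) ε t) := by
    refine ind N (fun t ht => ?_) fun t h => ?_
    · rw [ex_lt c g ht, ee_lt c ε ht]
      exact hM.l t ht
    · rw [ex_add, ee_add]
      exact h.mv c
  have a2 : ∀ t, At H u (ex c (N + 1) g (t + 1)) (ee c (N + 1) ε t) := by
    refine ind N (fun t ht => ?_) fun t h => ?_
    · rw [ee_lt c ε ht]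
      exact (hM.r t ht).congr (co t ht)
    · rw [sh, ex_add, ee_add]
      exact h.mv c
  have a3 : ∀ t, (ex c (N + 1) g t)⁻¹ * ex c (N + 1) g (t + 1) ∉ H := by
    refine ind N (fun t ht => ?_) fun t h => ?_
    · rw [ex_lt c g ht]
      exact fun k => hM.ne t ht (co_trans k (co_symm (co t ht)))
    · rw [sh, ex_add, ex_add, co_mv]
      exact h
  have a4 : ∀ t, ¬ Sm H u (ee c (N + 1) ε t) (ee c (N + 1) ε (t + 1)) := by
    refine ind N (fun t ht => ?_) fun t h => ?_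
    · rw [ee_lt c ε ht]
      rcases Nat.lt_succ_iff_lt_or_eq.1 ht with k | rfl
      · rw [ee_lt c ε (Nat.succ_lt_succ k)]
        exact hM.rd t (Nat.succ_lt_succ k)
      · rw [eN]
        exact hr
    · rw [sh, ee_add, ee_add, sm_mv]
      exact h
  choose x y hxy using fun t => hQ_FEET Γ a H u _ _ _ hH (a2 t) (a1 (t + 1)) (Or.inl (a4 t))
  refine ⟨ex c (N + 1) g, ee c (N + 1) ε, fun t => ex c (N + 1) y (t - 1), ex c (N + 1) x,
    ⟨N.succ_pos, fun M => ⟨fun t _ => a1 t, fun t _ => a2 t, fun t _ => a3 t, fun t _ => a4 t⟩,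
      ?_, ex_add c N x, fun t => ?_⟩, ?_⟩
  · simp only [Nat.add_sub_cancel]
    refine ind N (fun t ht => ?_) fun t h => ?_
    · rw [ex_lt c x ht, ex_lt c y ht]
      exact hxy t
    · rw [sh, ex_add, ex_add, ex_add, ee_add, ee_add]
      exact h.mv c
  · simp only [Nat.add_sub_cancel]
    exact ex_add c N y t
  · refine ind N (fun t ht => ?_) fun t h => ?_
    · rw [ex_lt c g ht]
      exact hT t (Nat.lt_succ_iff.1 ht)
    · rw [ex_add]
      exact mul_mem hc h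

end Pool.Agent.P.MP_dba3d2_lc


end

section

/-! Step Q_CYC of the stability project. -/

namespace Pool.Agent.P.MP_dba3d2_lc

open Filter

theorem p_Q_CYC (hROOT : S_ROOT) (hQ_GEO : S_Q_GEO) (hQ_XCH : S_Q_XCH) :
    S_Q_CYC := by
  intro Γ a H u c g ε p v N hH h
  let F : ℕ → a.K := fun t => ds (v t) (p (t + 1)) + ds (p (t + 1)) (v (t + 1))
  have hF : ∀ t, F (t + N) = F t := fun t => by
    have e := h.pv (t + 1)
    rw [show t + 1 + N = t + N + 1 by omega] at e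
    simp only [F, h.pv t, h.pp t, e, ds_mul_left]
  have sh : ∀ i, per2 (fun t => p (i + t)) (fun t => v (i + t)) N = per2 p v N := fun i => by
    induction i with
    | zero => simp
    | succ i ih =>
      rw [← ih]
      change ∑ t ∈ Finset.range N, F (i + 1 + t) = ∑ t ∈ Finset.range N, F (i + t)
      have e1 := Finset.sum_range_succ (fun t => F (i + t)) N
      have e2 := Finset.sum_range_succ' (fun t => F (i + t)) N
      simp only [hF, add_zero] at e1 e2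
      rw [e1] at e2
      rw [add_right_cancel e2]
      exact Finset.sum_congr rfl fun t _ => congrArg F (by omega)
  have le : ∀ t, ds (v t) (p (t + 1)) ≤ per2 p v N ∧ ds (p (t + 1)) (v (t + 1)) ≤ per2 p v N :=
    fun t => by
      have e : F t ≤ _ := (le_per2 (fun s => p (t + s)) (fun s => v (t + s)) h.pos).trans_eq (sh t)
      simp only [F] at e
      constructor <;> linarith [ds_nonneg (v t) (p (t + 1)), ds_nonneg (p (t + 1)) (v (t + 1))]
  have big : Big (per2 p v N) := by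
    by_contra b
    have nb : ∀ {s : a.K}, s ≤ per2 p v N → ¬ Big s := fun e k => b (k.of_ls (Ls.of_le e))
    exact (h.ch 2).ne 1 one_lt_two (co_trans (co_trans ((h.fe 0).sd.co (nb (le 0).1)).2
      (hH.co_of_not_big (nb (le 0).2))) (co_symm ((h.fe 1).sd.co (nb (le 1).1)).1))
  refine ⟨big, sh, fun i M hM => ?_⟩
  have l : ∀ t, At H u (g t) (ε t) := fun t => (h.ch (t + 1)).l t t.lt_succ_self
  have r : ∀ t, At H u (g (t + 1)) (ε t) := fun t => (h.ch (t + 1)).r t t.lt_succ_self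
  have ne : ∀ t, (g t)⁻¹ * g (t + 1) ∉ H := fun t => (h.ch (t + 1)).ne t t.lt_succ_self
  have rd : ∀ t, ¬ Sm H u (ε t) (ε (t + 1)) := fun t => (h.ch (t + 2)).rd t (t + 1).lt_succ_self
  refine hQ_GEO Γ a _ H u (fun t => g (i + 1 + t + 1)) (fun t => ε (i + 1 + t)) _ _ M big hH
    ((hQ_XCH Γ a H u _ _ M hH).2 hM ⟨fun t _ => l _, fun t _ => r (i + 1 + t + 1),
      fun t _ => ne _, fun t _ => rd (i + 1 + t + 1)⟩ (r _) (l _) (Or.inl (rd _)) (Or.inl (rd _)))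
    (fun t _ => h.fe _) (fun t _ => Ls.of_le (le _).1) fun t _ => ?_
  simp only [show i + 1 + t = i + t + 1 by omega]
  exact Ft.eo hROOT hH (l _) (r _) (h.fe (i + t)).f' (h.fe (i + t + 1)).f (ne _) big.pos.le
    (Ls.of_le (le _).2)

end Pool.Agent.P.MP_dba3d2_lc


end

section

/-! Step Q_MIX of the stability project. -/

namespace Pool.Agent.P.MP_dba3d2_lc

open Filter

namespace QMix

variable {Γ : HG} {a : Amb}

theorem per2_shift (p v : ℕ → MM Γ a) (i M : ℕ) :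
    per2 (fun t => p (i + t)) (fun t => v (i + t)) (M + 2) =
      ds (v i) (p (i + 1)) + len2 (fun t => p (i + 1 + t)) (fun t => v (i + 1 + t)) M := by
  have e : per2 (fun t => p (i + 1 + t)) (fun t => v (i + 1 + t)) (M + 1) =
      ∑ t ∈ Finset.range (M + 1), (ds (v (i + (t + 1))) (p (i + (t + 1 + 1))) +
        ds (p (i + (t + 1 + 1))) (v (i + (t + 1 + 1)))) := by
    refine Finset.sum_congr rfl fun t _ => ?_
    rw [show i + (t + 1) = i + 1 + t by omega, show i + (t + 1 + 1) = i + 1 + (t + 1) by omega]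
  rw [len2_eq, e, per2, Finset.sum_range_succ']
  simp only [add_zero, zero_add]
  ring

theorem three_le (p v : ℕ → MM Γ a) (M : ℕ) :
    ds (v 0) (p 1) + ds (v 1) (p 2) + ds (v 2) (p 3) ≤ per2 p v (M + 3) := by
  induction M with
  | zero =>
    rw [zero_add, per2_succ, per2_succ, per2_succ]
    linarith [per2_nonneg p v 0, ds_nonneg (p (0 + 1)) (v (0 + 1)),
      ds_nonneg (p (1 + 1)) (v (1 + 1)), ds_nonneg (p (2 + 1)) (v (2 + 1))]
  | succ M ih =>
    rw [show M + 1 + 3 = M + 3 + 1 from rfl, per2_succ]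
    linarith [ds_nonneg (v (M + 3)) (p (M + 3 + 1)), ds_nonneg (p (M + 3 + 1)) (v (M + 3 + 1))]

end QMix

open QMix in
theorem p_Q_MIX (hROOT : S_ROOT) (hQ_MIX2 : S_Q_MIX2) (hQ_PEXT : S_Q_PEXT) (hQ_CYC : S_Q_CYC) :
    S_Q_MIX := by
  intro Γ a H u hH n
  induction n with
  | zero => exact fun g ε N h1 h2 => by omega
  | succ n ih =>
    intro g ε N h1 h2 h k
    rcases h2.lt_or_eq with h2 | rfl
    · exact ih g ε N h1 (by omega) h k
    rcases n with _ | _ | M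
    · exact h.ne 0 (by omega) k
    · exact h.rd 0 (by omega) (hQ_MIX2 Γ a H u (g 0) (g 1) (ε 0) (ε 1) hH (h.ne 0 (by omega))
        (h.l 0 (by omega)) (h.r 0 (by omega)) ((h.r 1 (by omega)).congr (co_symm k))
        (h.l 1 (by omega)))
    by_cases s : Sm H u (ε (M + 2)) (ε 0)
    · have a1 : At H u (g (M + 2)) (ε (M + 2)) := h.l _ (by omega)
      have a2 : At H u (g 1) (ε (M + 2)) := At.same hROOT hH (h.r 0 (by omega)) a1 s.symm
      have ne : (g 1)⁻¹ * g (M + 2) ∉ H := ih.ne h (by omega) (by omega) (by omega)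
      have e : 1 + (M + 1) = M + 2 := by omega
      obtain ⟨G, E, c, g1, g2, -, -⟩ := (h.shift (M := M + 1) 1 (by omega)).snoc (g := g 1)
        (η := ε (M + 2)) (by rw [e]; exact a1) a2 (by rw [e]; exact fun b => ne (co_symm b))
        (fun j hj => by
          obtain rfl : M = j := by omega
          rw [add_comm 1 M]
          exact h.rd (M + 1) (by omega))
      refine ih G E _ (by omega) le_rfl c ?_
      rw [g1 0 (by omega), g2]
      exact co_refl H _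
    · obtain ⟨g', ε', p, v, q, -⟩ := hQ_PEXT Γ a H ⊤ u 1 g ε (M + 2) hH h
        (by rw [one_mul]; exact co_symm k) (by rwa [mv_one]) trivial fun _ _ => trivial
      obtain ⟨b, sh, ge⟩ := hQ_CYC Γ a H u 1 g' ε' p v _ hH q
      have key : ∀ i, Ll (per2 p v (M + 3) - 2 * ds (v i) (p (i + 1))) (per2 p v (M + 3)) := by
        intro i
        have e1 := ge i (M + 1) ih
        have e2 := (sh i).symm.trans (per2_shift p v i (M + 1))
        have e3 : v (i + 1 + (M + 1 + 1)) = v i := by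
          rw [show i + 1 + (M + 1 + 1) = i + (M + 2 + 1) by omega, q.pv, one_mul]
        rw [G2, e3, add_zero, ds_comm (p (i + 1))] at e1
        exact e1.mono_left (by linarith)
      refine ll_irrefl b.pos (Ll.mono_left ?_ (((key 0).add (key 1)).add (key 2)))
      linarith [three_le p v M]

end Pool.Agent.P.MP_dba3d2_lc


end
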