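import Pool.Agent.P.MP_dba3d2_lcM.Ab05
import Pool.Agent.P.MP_dba3d2_lcM.Bb10
import Pool.Agent.P.MP_dba3d2_lcM.Cb18
import Pool.Agent.P.MP_dba3d2_lcM.Cb23
import Pool.Agent.P.MP_dba3d2_lcM.Cb32

section

/-! Step Q_MINP of the stability project. -/

namespace Pool.Agent.P.MP_dba3d2_lc

open Filter

namespace Q_minp

variable {Γ : HG} {a : Amb} {H T : Subgroup (MM Γ a)} {u : MM Γ a}

theorem one (hR : S_ROOT) (D : Cn H u T) : ∀ n x y, x ∈ T → Wk H u T n x y →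
    (∀ m < n, ¬ Wk H u T m x y) →
    ∃ g ε, MCh H u g ε n ∧ g 0 = x ∧ (g n)⁻¹ * y ∈ H ∧ ∀ t ≤ n, g t ∈ T := by
  intro n
  induction n with
  | zero => exact fun x y hx h _ => ⟨fun _ => x, fun _ => .inl 1, .zero _ _ _ _, rfl, h.zero, fun _ _ => hx⟩
  | succ n ih =>
    intro x y hx h mn
    cases h with | @cons _ _ _ z ε a1 a2 hz w => ?_
    obtain ⟨G, E, c, rfl, e1, e2⟩ := ih z y hz w fun m hm k => mn (m + 1) (by omega) (.cons a1 a2 hz k)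
    obtain ⟨G₂, E₂, c2, f1, f2, -⟩ := c.cons a1 a2 (fun e => mn n (by omega) (w.left (co_symm e)))
      fun h0 s => by
        obtain ⟨m, rfl⟩ : ∃ m, n = m + 1 := ⟨n - 1, by omega⟩
        have k := c.wk e2 1 m (by omega)
        rw [add_comm] at k
        exact mn (m + 1) (by omega)
          (.cons a1 ((c.r 0 h0).same hR D.gc a1 s.symm) (e2 1 (by omega)) (k.right e1))
    refine ⟨G₂, E₂, c2, f1, f2 n ▸ e1, fun t ht => ?_⟩
    cases t with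
    | zero => exact f1 ▸ hx
    | succ t => exact f2 t ▸ e2 t (by omega)

end Q_minp

theorem p_Q_MINP (hROOT : S_ROOT) :
    S_Q_MINP := by
  intro Γ a H T u D
  refine ⟨Q_minp.one hROOT D, fun ε ε' ⟨x0, hx0, a0⟩ ⟨y0, hy0, b0⟩ => ?_⟩
  classical
  have ex : ∃ n, ∃ x ∈ T, ∃ y ∈ T, At0 H x ε ∧ At0 H y ε' ∧ Wk H u T n x y :=
    (D.conn x0 hx0 y0 hy0).imp fun n k => ⟨x0, hx0, y0, hy0, a0, b0, k⟩
  obtain ⟨x, hx, y, hy, a1, b1, w⟩ := Nat.find_spec ex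
  have mn := fun m => Nat.find_min ex (m := m)
  generalize Nat.find ex = N at w mn
  obtain ⟨g, η, c, rfl, e1, e2⟩ := Q_minp.one hROOT D N x y hx w fun m hm k =>
    mn m hm ⟨x, hx, y, hy, a1, b1, k⟩
  refine ⟨g, η, N, c, e2, a1, b1.congr (co_symm e1), ?_⟩
  rintro M rfl
  constructor
  · rintro d rfl s
    have k := c.wk e2 1 M (by omega)
    rw [add_comm] at k
    exact mn M (by omega) ⟨g 1, e2 1 (by omega), y, hy,
      (c.r 0 (by omega)).same hROOT D.gc (a1.at u) s.symm, b1, k.right e1⟩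
  · rintro d rfl s
    have k := c.wk e2 0 M (by omega)
    rw [zero_add] at k
    exact mn M (by omega) ⟨g 0, hx, g M, e2 M (by omega), a1,
      (c.l M (by omega)).same hROOT D.gc (b1.at u) s, k⟩

end Pool.Agent.P.MP_dba3d2_lc


end

section

/-! Step Q_PATH of the stability project. -/

namespace Pool.Agent.P.MP_dba3d2_lc

open Filter

theorem p_Q_PATH (hQ_FEET : S_Q_FEET) (hQ_XCH : S_Q_XCH) (hQ_MIX : S_Q_MIX) (hQ_MINP : S_Q_MINP) :
    S_Q_PATH := by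
  intro Γ a H T u D ε ε' h1 h2 hne
  obtain ⟨g, η0, N, ch, mem, a0, aN, red⟩ := (hQ_MINP Γ a H T u D).2 ε ε' h1 h2
  obtain ⟨η, e0, e1, e2⟩ : ∃ η : ℕ → Nd Γ a, η 0 = ε ∧ η (N + 1) = ε' ∧
      ∀ t < N, η (t + 1) = η0 t :=
    ⟨fun t => if t = 0 then ε else if t = N + 1 then ε' else η0 (t - 1), by simp, by simp,
      fun t ht => by simp [ht.ne]⟩
  have r0 : Rd H u (g 0) (η 0) (η 1) := by
    rw [e0]
    rcases ε with w | d
    · exact Or.inr (Or.inl ⟨w, rfl, a0⟩)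
    · rcases N with _ | M
      · rw [show η 1 = ε' from e1]
        rcases ε' with w' | d'
        · exact Or.inr (Or.inr ⟨w', rfl, aN⟩)
        · exact Or.inl (hne d d' rfl rfl)
      · rw [show η 1 = η0 0 from e2 0 (by omega)]
        exact Or.inl ((red M rfl).1 d rfl)
  have rN : Rd H u (g N) (η N) (η (N + 1)) := by
    rcases N with _ | M
    · exact r0
    · rw [e1, e2 M (by omega)]
      rcases ε' with w' | d'
      · exact Or.inr (Or.inr ⟨w', rfl, aN⟩)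
      · exact Or.inl ((red M rfl).2 d' rfl)
  have X : XCh H u g η N :=
    (hQ_XCH Γ a H u g η N D.gc).2 (hQ_MIX Γ a H u D.gc _) (ch.congr (fun _ _ => rfl) e2)
      (e0 ▸ a0.at u) (e1 ▸ aN.at u) r0 rN
  have F : ∀ t, ∃ x y, t ≤ N → Fe H (g t) (η t) (η (t + 1)) x y := fun t => by
    by_cases ht : t ≤ N
    · obtain ⟨x, y, k⟩ := hQ_FEET Γ a H u _ _ _ D.gc (X.l t ht) (X.r t ht) (X.rd t ht)
      exact ⟨x, y, fun _ => k⟩
    · exact ⟨1, 1, fun k => absurd k ht⟩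
  choose x y F using F
  refine ⟨g, η, fun t => Nat.casesOn t (x 0) y, fun t => if t ≤ N then x t else y N, N,
    ⟨X, mem, fun t ht => ?_, by simp, by simp⟩, e0, e1⟩
  simpa [ht] using F t ht

end Pool.Agent.P.MP_dba3d2_lc


end

section

/-! Step Q_TOP of the stability project. -/

namespace Pool.Agent.P.MP_dba3d2_lc

open Filter

namespace Q_top

variable {Γ : HG} {a : Amb} {H T : Subgroup (MM Γ a)} {u : MM Γ a} {g : ℕ → MM Γ a}
  {ε : ℕ → Nd Γ a} {p v : ℕ → MM Γ a} {N : ℕ} {μ : a.K}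

theorem lemA (hR : S_ROOT) (hG : S_Q_GEO) (hH : GC0 H) (D : NPa H u T g ε p v N) (hμ : Big μ)
    (hL : Ls (len2 p v N) μ) (p' v' : ℕ → MM Γ a) (hp : ∀ t, p' (t + 1) = p (t + 1))
    (hv : ∀ t ≤ N, v' t = v t) (e0 : Eo μ (ε 0) (p' 0) (v 0))
    (e1 : Eo μ (ε (N + 1)) (p (N + 1)) (v' (N + 1))) : G2 μ p' v' N := by
  refine hG Γ a μ H u g ε p' v' N hμ hH D.ch (fun t ht => ?_) (fun t ht => ?_) fun t ht => ?_
  · rw [hv t ht, hp t]; exact D.fe t ht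
  · rw [hv t ht, hp t]; exact Ls.mono_left (c_le_len2 p v ht) hL
  · rcases t with _ | s
    · rwa [hv 0 (Nat.zero_le _)]
    · rcases ht.eq_or_lt with e | e
      · obtain rfl : s = N := by omega
        rwa [hp]
      · have e' : s + 1 ≤ N := by omega
        rw [hp, hv _ e']
        exact Ft.eo hR hH (D.ch.r s (by omega)) (D.ch.l _ e') (D.fe s (by omega)).f'
          (D.fe _ e').f (D.ch.h0 s _ (by omega) e') hμ.pos.le
          (Ls.mono_left (a_le_len2 p v ht) hL)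

theorem lemA0 (hR : S_ROOT) (hG : S_Q_GEO) (hH : GC0 H) (D : NPa H u T g ε p v N) (hμ : Big μ)
    (hL : Ls (len2 p v N) μ) : G2 μ p v N :=
  lemA hR hG hH D hμ hL p v (fun _ => rfl) (fun _ _ => rfl)
    (Or.inl (by rw [D.e0]; exact FixA.ll_self hμ.pos.le _))
    (Or.inl (by rw [D.e1]; exact FixA.ll_self hμ.pos.le _))

theorem lemB (hR : S_ROOT) (hG : S_Q_GEO) (hH : GC0 H) (D : NPa H u T g ε p v N) (hμ : Big μ)
    (h : Ls (ds (v 0) (p (N + 1))) μ) : Ls (len2 p v N) μ := by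
  by_cases b : Big (len2 p v N)
  · have k := lemA0 hR hG hH D b (Ls.refl' _) 2
    rw [D.e0, D.e1] at k
    push_cast at k
    exact Ls.mono_left (by linarith) h.two
  · exact (hμ.ll_of_not_big b).ls

theorem last {P V : ℕ → MM Γ a} (h : G2 μ P V N) : On μ (P (N + 1)) (P 0) (V (N + 1)) := by
  cases N with
  | zero => exact h.zero.2
  | succ N => exact h.step.2.2

end Q_top

open Q_top in
theorem p_Q_TOP (hROOT : S_ROOT) (hQ_GEO : S_Q_GEO) :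
    S_Q_TOP := by
  intro Γ a H T u g ε p v N hH D
  refine ⟨fun μ hμ h => ?_, ?_, ?_⟩
  · have k := lemB hROOT hQ_GEO hH D hμ h
    exact ⟨lemA0 hROOT hQ_GEO hH D hμ k, k⟩
  · rcases e : ε 0 with w | d
    · trivial
    · rintro μ hμ h ⟨q, h1, h2, h3⟩
      have k := lemA hROOT hQ_GEO hH D hμ (lemB hROOT hQ_GEO hH D hμ h) (Function.update p 0 q) v
        (fun t => by simp) (fun _ _ => rfl) (Or.inr ⟨d, e, by simpa using ⟨h3.2, h3.1⟩⟩)
        (Or.inl (by rw [D.e1]; exact FixA.ll_self hμ.pos.le _))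
      have k2 := ds_le_per2 (Function.update p 0 q) v (N + 1)
      rw [G2, len2_eq, Function.update_self, D.e1] at k
      rw [D.e1] at k2
      refine Ll.not_ls (Ll.half ((k.add h2).mono_left ?_)) hμ.pos h1
      linarith [ds_comm q (v 0)]
  · rcases e : ε (N + 1) with w | d
    · trivial
    · rintro μ hμ h ⟨q, h1, h2, h3⟩
      rw [ds_comm] at h
      have k := last (lemA hROOT hQ_GEO hH D hμ (lemB hROOT hQ_GEO hH D hμ h) p
        (Function.update v (N + 1) q) (fun t => rfl)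
        (fun t ht => Function.update_of_ne (by omega) _ _)
        (Or.inl (by rw [D.e0]; exact FixA.ll_self hμ.pos.le _))
        (Or.inr ⟨d, e, by simpa using h3⟩))
      rw [Function.update_self, D.e0] at k
      refine Ll.not_ls (Ll.half ((Ll.add k h2).mono_left ?_)) hμ.pos h1
      linarith [ds_comm q (v 0), ds_comm (p (N + 1)) (v 0)]

end Pool.Agent.P.MP_dba3d2_lc


end

section

/-! Step Q_COV of the stability project. -/

namespace Pool.Agent.P.MP_dba3d2_lc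

open Filter

namespace Q_covA

variable {Γ : HG} {a : Amb} {H T : Subgroup (MM Γ a)} {μ : a.K} {g g' u x y : MM Γ a}
  {ε ε' : Nd Γ a}

theorem coset_side (D : Cn H u T) (h0 : 0 ≤ μ) (hg : g ∈ T) (h : At H u g ε) (h' : At H u g ε')
    (k : Fe H g ε ε' x y) (b : Ls (ds x y) μ) : Cvr μ (Pc H u T μ) x y := by
  by_cases hu : LimD H u
  · obtain ⟨m, hm, m', hm', a1, a2⟩ := k.sd.near h0 b
    have hx := k.f.mem D hg h
    have hy := k.f'.mem D hg h'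
    have c1 : Cvr μ (Pc H u T μ) x (g * m) :=
      .single h0 (.inr (.inr ⟨hu, mul_mem (inv_mem hx) (mul_mem hg (D.le hm)), a1⟩))
    have c2 : Cvr μ (Pc H u T μ) (g * m) (g * m') :=
      .single h0 (.inl (by rw [co_mv]; exact mul_mem (inv_mem hm) hm'))
    have c3 : Cvr μ (Pc H u T μ) (g * m') y :=
      .single h0 (.inr (.inr ⟨hu, mul_mem (inv_mem (mul_mem hg (D.le hm'))) hy, FixA.ll_comm a2⟩))
    exact (c1.trans c2 (On.of_near a1 _)).trans c3 (On.of_near a2 _).symm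
  · exact .single h0 (.inl (co_trans (co_symm (k.f.co hu h)) (k.f'.co hu h')))

theorem axis_side (hE : S_ELEM) (hL : S_LINE) (hR : S_ROOT) (D : Cn H u T) (h0 : 0 ≤ μ)
    (hg : g ∈ T) (hg' : g' ∈ T) (h : At H u g ε) (h' : At H u g' ε) (k : Ft H g ε x)
    (k' : Ft H g' ε y) (ne : g⁻¹ * g' ∉ H) (b : Ls (ds x y) μ) : Cvr μ (Pc H u T μ) x y := by
  have hx := k.mem D hg h
  have hy := k'.mem D hg' h'
  rcases ε with w | d
  · obtain rfl : x = w := k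
    obtain rfl : y = x := k'
    exact .refl h0 _ _
  have m : Ll (md (x⁻¹ * d * x)) μ := by
    rw [md_conj]
    exact (Ft.long hR D.gc h h' k k' ne).ls_right b h0
  have p1 := h.1.conj' x
  have p2 := h.1.conj' y
  have n1 := ct_iff.1 k.2
  have n2 := ct_iff.1 k'.2
  have cj : Cj (x⁻¹ * y) (y⁻¹ * d * y) (x⁻¹ * d * x) := congrArg Ep (by group)
  obtain ⟨j, l⟩ := short_conj hE hL p1 p2 n1 n2 cj
  have hz := ((hR Γ a H D.gc).2.1 _ (Aj.foot h k.1) _ (Aj.foot h' k'.1) p1 p2 _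
    ((Cj.of_mem (inv_mem (ipow_mem_Ep _ j))).mul cj)).2 n1 n2 l
  have hf := ipow_mem_Ep (x⁻¹ * d * x) j
  generalize ipow (x⁻¹ * d * x) j = f at l hz hf
  have e : (x * f)⁻¹ * y = f⁻¹ * (x⁻¹ * y) := by group
  have hT : f ∈ T := by
    simpa [mul_assoc] using mul_mem (mul_mem (inv_mem hx) hy) (inv_mem (D.le hz))
  have c1 : Cvr μ (Pc H u T μ) x (x * f) := .single h0 (by
    rw [inv_mul_cancel_left]
    exact .inr (.inl ⟨hT, _, Aj.foot h k.1, p1, n1, n1.ll m, hf⟩))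
  refine c1.trans (.single h0 (.inl (e ▸ hz))) (On.of_near (FixA.ll_comm ?_) _).symm
  rw [ds, e]
  exact Ll.ls_left l m

end Q_covA

open Q_covA

theorem p_Q_COV (hELEM : S_ELEM) (hLINE : S_LINE) (hROOT : S_ROOT) (hQ_PATH : S_Q_PATH) (hQ_TOP : S_Q_TOP) :
    S_Q_COV := by
  intro Γ a H T u D μ hμ t ht hl
  have h0 := hμ.pos.le
  obtain ⟨g, η, p, v, N, W, e0, e1⟩ := hQ_PATH Γ a H T u D (.inl 1) (.inl t)
    ⟨1, one_mem _, co_refl H 1⟩ ⟨t, ht, co_refl H t⟩ (fun _ _ e => by cases e)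
  have v0 : v 0 = 1 := by
    have := (W.fe 0 (Nat.zero_le _)).f
    rwa [e0] at this
  have p1 : p (N + 1) = t := by
    have := (W.fe N le_rfl).f'
    rwa [e1] at this
  obtain ⟨G, hL⟩ := (hQ_TOP Γ a H T u g η p v N D.gc W).1 μ hμ (by rwa [v0, p1, ds_one_left])
  have C : ∀ s ≤ N, Cvr μ (Pc H u T μ) (v s) (p (s + 1)) := fun s hs =>
    coset_side D h0 (W.mem s hs) (W.ch.l s hs) (W.ch.r s hs) (W.fe s hs)
      (Ls.mono_left (c_le_len2 p v hs) hL)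
  have A : ∀ s ≤ N, Cvr μ (Pc H u T μ) (p (s + 1)) (v (s + 1)) := fun s hs => by
    rcases hs.eq_or_lt with rfl | k
    · rw [W.e1]
      exact .refl h0 _ _
    · exact axis_side hELEM hLINE hROOT D h0 (W.mem s hs) (W.mem _ k) (W.ch.r s hs) (W.ch.l _ k)
        (W.fe s hs).f' (W.fe _ k).f (W.ch.h0 s _ (Nat.lt_succ_self s) k)
        (Ls.mono_left (a_le_len2 p v (by omega)) hL)
  have key : ∀ M ≤ N, G2 μ p v M → Cvr μ (Pc H u T μ) (p 0) (v (M + 1)) := by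
    intro M
    induction M with
    | zero => exact fun k G => Cvr.trans (W.e0 ▸ C 0 k) (A 0 k) G.zero.2
    | succ M ih =>
      intro k G
      exact ((ih (by omega) G.step.1).trans (C _ k) G.step.2.1).trans (A _ k) G.step.2.2
  have := key N le_rfl G
  rwa [W.e0, v0, W.e1, p1] at this

end Pool.Agent.P.MP_dba3d2_lc


end

section

/-! Step ADJ0 of the stability project. -/

namespace Pool.Agent.P.MP_dba3d2_lc

open Filter

namespace Adj0A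

variable {Γ : HG} {a : Amb} {μ : a.K} {B T : Subgroup (MM Γ a)} {g h h' p q β f b z : MM Γ a}

theorem cut (D : AdjD B T) (hμ : Big μ) (hh : h ∈ T) (hl : Ls (ln h) μ)
    (N : MM Γ a → MM Γ a → Prop) (hN : ∀ p q, N p q → Ls μ (ds p q))
    (hc : ∀ p q m, N p q → On μ m p q → N p m ∨ N m q) (x₀ : MM Γ a)
    (hp : On μ p x₀ (x₀ * h)) (hq : On μ q x₀ (x₀ * h)) (k : N p q) :
    ∃ z ∈ T, ∃ p' q', N p' q' ∧ ((∃ w ∈ B, Ls (ln w) μ ∧ On μ p' (x₀ * z) (x₀ * z * w) ∧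
      On μ q' (x₀ * z) (x₀ * z * w)) ∨
      ∃ d ∈ B, Prim d ∧ Stab μ p' q' (x₀ * z * d * (x₀ * z)⁻¹)) := by
  obtain ⟨L, rfl, hG, hL⟩ := D.cov μ hμ h hh hl
  obtain ⟨L₁, x, L₂, p', q', rfl, h1, h2, h3⟩ := (Geo.cut hμ N False hN
    (fun p q m k k' => (hc p q m k k').imp_right Or.inl) L x₀ p q hG hp hq k).resolve_left id
  obtain ⟨-, g, hg, e⟩ := hL x (by simp)
  refine ⟨L₁.prod * g, mul_mem (T.list_prod_mem fun y hy => (hL y (by simp [hy])).1) hg, p', q', h1,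
    e.imp ?_ fun e => ?_⟩
  · rintro ⟨w, hw, l, a1, a2⟩
    have b1 := a1.mul (x₀ * L₁.prod)
    have b2 := a2.mul (x₀ * L₁.prod)
    simp only [mul_one, ← mul_assoc] at b1 b2 ⊢
    exact ⟨w, hw, l, On.conv hμ b1 b2 h2, On.conv hμ b1 b2 h3⟩
  · obtain ⟨d, d1, d2, d3⟩ := e (by simpa only [ds_mul_right] using On.nondeg hμ h2 h3 (hN _ _ h1))
    have s := (stab_conj (x₀ * L₁.prod)).2 d3
    rw [mul_one] at s
    refine ⟨d, d1, d2, ?_⟩
    rw [show x₀ * (L₁.prod * g) * d * (x₀ * (L₁.prod * g))⁻¹ =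
      x₀ * L₁.prod * (g * d * g⁻¹) * (x₀ * L₁.prod)⁻¹ by group]
    exact s.sub hμ h2 h3

/-- the axis of `β` is a translate of a centred axis of the base -/
def Tc (B T : Subgroup (MM Γ a)) (β : MM Γ a) : Prop :=
  ∃ z ∈ T, ∃ b ∈ B, Prim b ∧ Cen b ∧ Cj z b β

theorem tc (D : AdjD B T) (hz : z ∈ T) (hb : b ∈ B) (pb : Prim b) (e : Cj z b β) : Tc B T β := by
  obtain ⟨x, hx, -, k⟩ := D.gc.cen1 hb pb.1
  exact ⟨z * x, mul_mem hz (D.le hx), _, mul_mem (mul_mem (inv_mem hx) hb) hx, pb.conj' x, k,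
    e.mul (Cj.self' x b)⟩

theorem Tc.conj (hz : z ∈ T) (k : Tc B T (z⁻¹ * β * z)) : Tc B T β := by
  obtain ⟨w, hw, b, t1, t2, t3, e⟩ := k
  exact ⟨z * w, mul_mem hz hw, b, t1, t2, t3, (Cj.self' z β).mul e⟩

theorem arc (hE : S_ELEM) (hP : S_PERC) (D : AdjD B T) (hβ : ¬ IsOfFinOrder β) (hμ : Big μ)
    (hh : h ∈ T) (hl : Ls (ln h) μ) (hn : Ls μ (ds p q)) (o1 : On μ p 1 h) (o2 : On μ q 1 h)
    (s : Stab μ p q β) : Tc B T β := by
  obtain ⟨z, hz, p', q', ⟨n', s'⟩, e⟩ := cut D hμ hh hl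
    (fun p' q' => Ls μ (ds p' q') ∧ Stab μ p' q' β) (fun _ _ k => k.1)
    (fun p' q' m k hm => (Ls.add_cases (k.1.mono_right (ds_tri p' m q'))).imp
      (fun l => ⟨l, k.2.sub hμ (on_left hμ.pos.le _ _) hm⟩)
      fun l => ⟨l, k.2.sub hμ hm (on_right hμ.pos.le _ _)⟩) 1 (by rwa [one_mul]) (by rwa [one_mul])
    ⟨hn, s⟩
  rw [one_mul] at e
  obtain ⟨d, d1, d2, d3⟩ : ∃ d ∈ B, Prim d ∧ Stab μ p' q' (z * d * z⁻¹) := by
    rcases e with ⟨w, hw, l, a1, a2⟩ | e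
    · obtain ⟨d, d1, d2, d3⟩ := D.gc.g20 μ hμ w hw l _ _ (by rwa [ds_mul_left]) (C_g2A.tr a1)
        (C_g2A.tr a2) ((per_mul_iff _).2 ⟨β, hβ, s'⟩)
      exact ⟨d, d1, d2, C_g2A.st d3⟩
    · exact e
  exact tc D hz d1 d2 (Ep_eq_of_stab hE hP hμ n' (d2.conj z).1 hβ d3 s')

theorem g20s (hE : S_ELEM) (hL : S_LINE) (hP : S_PERC) (D : AdjD B T) (hμ : Big μ) (hh : h ∈ T)
    (hl : Ls (ln h) μ) (hn : Ls μ (ds p q)) (o1 : On μ p 1 h) (o2 : On μ q 1 h) (s : Per μ p q) :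
    ∃ z ∈ T, ∃ b ∈ B, Prim b ∧ Cen b ∧ Stab μ p q (z * b * z⁻¹) := by
  obtain ⟨β, hβ, s⟩ := s
  obtain ⟨z, hz, b, t1, t2, t3, e⟩ := arc hE hP D hβ hμ hh hl hn o1 o2 s
  exact ⟨z, hz, b, t1, t2, t3, (t2.conj z).fix hE hL hβ e s.1, (t2.conj z).fix hE hL hβ e s.2⟩

theorem piece (hE : S_ELEM) (hL : S_LINE) (hP : S_PERC) (hR : S_ROOT) (D : AdjD B T) (hμ : Big μ)
    (hh : h ∈ T) (hh' : h' ∈ T) (hl : Ls (ln h) μ) (hl' : Ls (ln h') μ)
    (ov : Ov μ p q 1 h g (g * h')) (N : MM Γ a → MM Γ a → Prop)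
    (hN : ∀ p' q', N p' q' → Ls μ (ds p' q') ∧ On μ p' p q ∧ On μ q' p q)
    (hc : ∀ p q m, N p q → On μ m p q → N p m ∨ N m q) (k : N p q) :
    g ∈ T ∨ ∃ z ∈ T, ∃ z' ∈ T, ∃ b ∈ B, Prim b ∧ Cen b ∧ z⁻¹ * g * z' ∈ Ep b ∧
      ∃ p' q', N p' q' ∧ Stab μ p' q' (z * b * z⁻¹) := by
  obtain ⟨-, a1, a2, b1, b2⟩ := ov
  have per : ∀ p' q', N p' q' → Per μ p' q' → ∃ z ∈ T, ∃ z' ∈ T, ∃ b ∈ B, Prim b ∧ Cen b ∧
      z⁻¹ * g * z' ∈ Ep b ∧ ∃ p' q', N p' q' ∧ Stab μ p' q' (z * b * z⁻¹) := by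
    intro p' q' n s
    obtain ⟨n1, n2, n3⟩ := hN _ _ n
    obtain ⟨z, hz, b, t1, t2, t3, e⟩ := g20s hE hL hP D hμ hh hl n1 (a1.conv hμ a2 n2)
      (a1.conv hμ a2 n3) s
    obtain ⟨z', hz', b', u1, u2, -, e'⟩ := g20s hE hL hP D hμ hh' hl' (by rwa [ds_mul_left])
      (C_g2A.tr (b1.conv hμ b2 n2)) (C_g2A.tr (b1.conv hμ b2 n3)) ((per_mul_iff _).2 s)
    have j : Cj g (z' * b' * z'⁻¹) (z * b * z⁻¹) :=
      Ep_eq_of_stab hE hP hμ n1 ((u2.conj z').conj g).1 (t2.conj z).1 (C_g2A.st e') e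
    obtain ⟨y, hy, k⟩ := (hR Γ a B D.gc).2.2.2.2.2 b t1 b' u1 t2.1 u2.1 _
      (((Cj.self z b).inv.mul j).mul (Cj.self z' b'))
    exact ⟨z, hz, z' * y⁻¹, mul_mem hz' (inv_mem (D.le hy)), b, t1, t2, t3,
      by rwa [← mul_assoc], p', q', n, e⟩
  obtain ⟨z, hz, p1, q1, n1, ⟨y, hy, l, o1, o2⟩ | ⟨d, -, d2, d3⟩⟩ := cut D hμ hh hl N
    (fun _ _ k => (hN _ _ k).1) hc 1 (by rwa [one_mul]) (by rwa [one_mul]) k
  swap
  · exact .inr (per _ _ n1 ⟨_, (d2.conj _).1, d3⟩)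
  rw [one_mul] at o1 o2
  obtain ⟨z', hz', p2, q2, ⟨n2, o3, o4⟩, ⟨y', hy', l', o5, o6⟩ | ⟨d, -, d2, d3⟩⟩ := cut D hμ hh' hl'
    (fun p' q' => N p' q' ∧ On μ p' z (z * y) ∧ On μ q' z (z * y)) (fun _ _ k => (hN _ _ k.1).1)
    (fun p' q' m e hm =>
      have om := On.conv hμ e.2.1 e.2.2 hm
      (hc p' q' m e.1 hm).imp (fun x => ⟨x, e.2.1, om⟩) fun x => ⟨x, om, e.2.2⟩) g
    (b1.conv hμ b2 (hN _ _ n1).2.1) (b1.conv hμ b2 (hN _ _ n1).2.2) ⟨n1, o1, o2⟩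
  swap
  · exact .inr (per _ _ n2 ⟨_, (d2.conj _).1, d3⟩)
  by_cases s : Per μ p2 q2
  · exact .inr (per _ _ n2 s)
  have e := D.gc.g2 μ hμ y hy y' hy' l l' (z⁻¹ * (g * z')) (z⁻¹ * p2) (z⁻¹ * q2)
    ⟨by rw [ds_mul_left]; exact (hN _ _ n2).1, C_g2A.tr o3, C_g2A.tr o4,
      by simpa only [mul_assoc] using o5.mul z⁻¹, by simpa only [mul_assoc] using o6.mul z⁻¹⟩
    (mt (per_mul_iff _).1 s)
  have := D.le e
  rw [mul_mem_cancel_left (inv_mem hz), mul_mem_cancel_right hz'] at this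
  exact .inl this

theorem g2 (hE : S_ELEM) (hL : S_LINE) (hP : S_PERC) (hR : S_ROOT) (D : AdjD B T) (hμ : Big μ)
    (hh : h ∈ T) (hh' : h' ∈ T) (hl : Ls (ln h) μ) (hl' : Ls (ln h') μ)
    (ov : Ov μ p q 1 h g (g * h')) (np : ¬ Per μ p q) : g ∈ T := by
  have h0 := hμ.pos.le
  rcases piece hE hL hP hR D hμ hh hh' hl hl' ov
    (fun p' q' => Ls μ (ds p' q') ∧ On μ p' p q ∧ On μ q' p q) (fun _ _ k => k)
    (fun p' q' m e hm =>
      have om := On.conv hμ e.2.1 e.2.2 hm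
      (Ls.add_cases (e.1.mono_right (ds_tri p' m q'))).imp (fun x => ⟨x, e.2.1, om⟩)
        fun x => ⟨x, om, e.2.2⟩) ⟨ov.1, on_left h0 _ _, on_right h0 _ _⟩ with
    e | ⟨z, hz, z', hz', b, hb, p1, c1, j1, -⟩
  · exact e
  have ns : ¬ Stab μ p q (z * b * z⁻¹) := fun k => np ⟨_, (p1.conj z).1, k⟩
  rcases piece hE hL hP hR D hμ hh hh' hl hl' ov
    (fun p' q' => (Ls μ (ds p' q') ∧ On μ p' p q ∧ On μ q' p q) ∧ ¬ Stab μ p' q' (z * b * z⁻¹))
    (fun _ _ k => k.1) (by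
      rintro p' q' m ⟨⟨e1, e2, e3⟩, e4⟩ hm
      have om := On.conv hμ e2 e3 hm
      have tri := ds_tri p' m q'
      rcases ll_or_ls hμ.pos (ds p' m) with u | u
      · exact Or.inr ⟨⟨e1.of_le_add u hμ.pos 1 (by push_cast; linarith), om, e3⟩,
          fun e => e4 (e.congr (FixA.ll_comm u) (FixA.ll_self h0 _))⟩
      rcases ll_or_ls hμ.pos (ds m q') with v | v
      · exact Or.inl ⟨⟨u, e2, om⟩, fun e => e4 (e.congr (FixA.ll_self h0 _) v)⟩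
      by_cases k1 : Stab μ p' m (z * b * z⁻¹)
      · exact Or.inr ⟨⟨v, om, e3⟩, fun e => e4 ⟨k1.1, e.2⟩⟩
      · exact Or.inl ⟨⟨u, e2, om⟩, k1⟩) ⟨⟨ov.1, on_left h0 _ _, on_right h0 _ _⟩, ns⟩ with
    e | ⟨k, hk, k', hk', d, hd, q1, c2, j2, p', q', n, s⟩
  · exact e
  have := D.rig b hb d hd p1 c1 q1 c2 (z⁻¹ * k) (mul_mem (inv_mem hz) hk) (z'⁻¹ * k')
    (mul_mem (inv_mem hz') hk') _ j1 _ j2 (by group) fun j => by
      have e := (Cj.self z b).mul j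
      rw [mul_inv_cancel_left] at e
      exact n.2 ⟨(p1.conj z).fix hE hL (q1.conj k).1 (Eq.symm e) s.1,
        (p1.conj z).fix hE hL (q1.conj k).1 (Eq.symm e) s.2⟩
  rwa [mul_mem_cancel_right hz', mul_mem_cancel_left (inv_mem hz)] at this

theorem typ (hE : S_ELEM) (D : AdjD B T) (hβ : ¬ IsOfFinOrder β) (hf : ¬ IsOfFinOrder f)
    (hm : f ∈ Ep β) (hz : z ∈ T) (hb : b ∈ B) (pb : Prim b) (e : z⁻¹ * f * z ∈ Ep b) : Tc B T β :=
  tc D hz hb pb ((Ep_eq hE (pb.conj z).1 (mem_Ep_conj.2 e) hf).symm.trans (Ep_eq hE hβ hm hf))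

theorem pert (hE : S_ELEM) (hP : S_PERC) (hD : S_C_DISP) (D : AdjD B T) (hβ : Prim β) (hf : f ∈ T)
    (hm : f ∈ Ep β) (hl : Ll (md β) (md f)) : Tc B T β := by
  have fi := ((hD Γ a β f hβ hm).2.2 hl).1
  obtain ⟨z, hz, ⟨b, t1, t2, e⟩ | cen⟩ := D.cyc f hf fi
  · exact typ hE D hβ.1 fi hm hz t1 t2 e
  obtain ⟨-, big, k⟩ := (hD Γ a _ _ (hβ.conj' z) (C_ancA.mem_conj z hm)).2.2
    (by rw [md_conj, md_conj]; exact hl)
  obtain ⟨N, p, q, hn, o1, o2, s⟩ := k cen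
  exact Tc.conj hz (arc hE hP D (hβ.conj' z).1 (big.of_ls (Ls.of_le (md_le_ln _)))
    (pow_mem (mul_mem (mul_mem (inv_mem hz) hf) hz) N) ⟨N, ln_pow_le _ N⟩ hn o1 o2 s)

/-- anchored axes -/
def An (B T : Subgroup (MM Γ a)) (b : MM Γ a) : Prop :=
  Prim b ∧ Cen b ∧ (b ∈ B ∨ ∀ h ∈ T, NE b h)

theorem anc (hE : S_ELEM) (hL : S_LINE) (hP : S_PERC) (hD : S_C_DISP) (D : AdjD B T) (hγ : f ∈ T)
    (fi : ¬ IsOfFinOrder f) : ∃ z ∈ T, ∃ b, An B T b ∧ Cj z b f := by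
  obtain ⟨β, pβ, eβ⟩ := (hE Γ a f fi).1
  have hm : f ∈ Ep β := eβ ▸ self_mem_Ep f
  by_cases t : Tc B T β
  · obtain ⟨z, hz, b, t1, t2, t3, e⟩ := t
    exact ⟨z, hz, b, ⟨t2, t3, .inl t1⟩, Eq.trans e eβ⟩
  obtain ⟨z, hz, ⟨b, t1, t2, e⟩ | cen⟩ := D.cyc f hγ fi
  · exact (t (typ hE D pβ.1 fi hm hz t1 t2 e)).elim
  have pb := pβ.conj' z
  refine ⟨z, hz, z⁻¹ * β * z, ⟨pb, ?_, .inr fun h hh big _ ⟨q, hq, o1, s⟩ => t (Tc.conj hz ?_)⟩,
    Eq.trans (Cj.self' z β) eβ⟩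
  · have k := pb.disp hE hL (C_ancA.mem_conj z hm) (mt (finOrder_conj' z f).1 fi) 1
    rw [ds_one_mul, ds_one_mul] at k
    refine (k.trans' cen).trans' ?_
    rw [md_conj, md_conj]
    exact (ll_or_ls (one_pos.trans_le (one_le_md' fi)) _).resolve_left fun l =>
      t (pert hE hP hD D pβ hγ hm l)
  · exact arc hE hP D pb.1 big (inv_mem hh) (by rw [ln_inv]; exact Ls.refl' _)
      (by rwa [ds_one_left]) (on_left big.pos.le _ _) o1 s

theorem na1 (D : AdjD B T) (hb : An B T b) (hh : h ∈ T) : ∃ f ∈ T, f ∈ Ep b ∧ NE b (h * f) := by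
  rcases hb.2.2 with t | n
  · exact D.n1 b t hb.1 hb.2.1 h hh
  · exact ⟨1, one_mem _, one_mem _, n _ (mul_mem hh (one_mem _))⟩

theorem na2 {b' : MM Γ a} (D : AdjD B T) (hb : An B T b) (hb' : An B T b') (hh : h ∈ T)
    (hj : ¬ Cj h b' b) : ∃ f ∈ T, ∃ f' ∈ T, f ∈ Ep b ∧ f' ∈ Ep b' ∧ NE b (f * h * f')⁻¹ ∧
      NE b' (f * h * f') := by
  rcases hb'.2.2 with t' | n'
  · rcases hb.2.2 with t | n
    · exact D.n2 b t b' t' hb.1 hb.2.1 hb'.1 hb'.2.1 h hh hj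
    · obtain ⟨f, hf, e1, e2⟩ := na1 D hb' hh
      exact ⟨1, one_mem _, f, hf, one_mem _, e1,
        n _ (inv_mem (mul_mem (mul_mem (one_mem _) hh) hf)), by rwa [one_mul]⟩
  · obtain ⟨f, hf, e1, e2⟩ := na1 D hb (inv_mem hh)
    exact ⟨f⁻¹, inv_mem hf, 1, one_mem _, inv_mem e1, one_mem _,
      by rwa [mul_one, mul_inv_rev, inv_inv],
      n' _ (mul_mem (mul_mem (inv_mem hf) hh) (one_mem _))⟩

end Adj0A

open Adj0A in
theorem p_ADJ0 (hELEM : S_ELEM) (hLINE : S_LINE) (hPERC : S_PERC) (hROOT : S_ROOT) (hC_PROJ : S_C_PROJ) (hC_BRIDGE : S_C_BRIDGE) (hC_DISP : S_C_DISP) :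
    S_ADJ0 := by
  intro Γ a B T D
  have per : ∀ c, Prim c → ∀ f ∈ T, f ∈ Ep c → Ll (md c) (md f) → ∃ p ∈ T, p⁻¹ * c * p ∈ B := by
    intro c pc f hf hm hl
    obtain ⟨z, hz, b, t1, t2, -, e⟩ := pert hELEM hPERC hC_DISP D pc hf hm hl
    exact ⟨z, hz, (hROOT Γ a B D.gc).2.2.2.1 b t1 t2.1 _ (pc.conj' z) e.ep⟩
  refine ⟨⟨D.gc.base.trans D.le, fun μ hμ h hh h' hh' hl hl' g p q ov np =>
    g2 hELEM hLINE hPERC hROOT D hμ hh hh' hl hl' ov np, fun μ hμ h hh l p q n hp hq hr => ?_,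
    fun μ hμ h hh l1 c hc pc l2 l3 => ?_, fun c hc hp f hf he n hn => ?_,
    fun c mc c' mc' hc hc' => ?_⟩, fun c _ pc f hf hm hl =>
      (per c pc f hf hm hl).imp fun _ k => ⟨k.1, .inl k.2⟩⟩
  · obtain ⟨z, hz, b, t1, t2, -, hs⟩ := g20s hELEM hLINE hPERC D hμ hh l n hp hq hr
    exact ⟨_, mul_mem (mul_mem hz (D.le t1)) (inv_mem hz), t2.conj z, hs⟩
  · obtain ⟨z, hz, b, an, e0⟩ := anc hELEM hLINE hPERC hC_DISP D hc pc.1
    obtain ⟨f1, m1, e1, n1⟩ := na1 D an hz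
    obtain ⟨f2, m2, e2, n2⟩ := na1 D an (mul_mem (inv_mem hh) hz)
    have a1 := C_exA.aux hELEM hLINE hC_PROJ hμ an.1 an.2.1 pc n1 (e0.mul (Cj.of_mem e1)) l2 l3
    have l4 : Ls (ln (h⁻¹ * c * h)) μ := by
      refine Ls.mono_left ?_ ((l1.add l2).add l1)
      have b1 := ln_mul_le (h⁻¹ * c) h
      have b2 := ln_mul_le h⁻¹ c
      rw [ln_inv] at b2
      linarith
    have a2 := C_exA.aux hELEM hLINE hC_PROJ hμ an.1 an.2.1 (pc.conj' h) n2
      (((Cj.self' h c).inv.mul e0).mul (Cj.of_mem e2)) l4 (by rwa [md_conj])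
    refine ⟨z * (f2 * f1⁻¹) * z⁻¹, mul_mem (mul_mem hz (mul_mem m2 (inv_mem m1))) (inv_mem hz),
      e0.mem_Ep (mul_mem e2 (inv_mem e1)), Ll.mono_left ?_ (a1.add a2)⟩
    have b1 := ln_mul_le (z * f1) (h⁻¹ * z * f2)⁻¹
    have b2 : ds (z * (f2 * f1⁻¹) * z⁻¹) h = ln (z * f1 * (h⁻¹ * z * f2)⁻¹) := by
      rw [ds]; congr 1; group
    rw [ln_inv] at b1
    linarith
  · by_cases h : Ls (md f) (md c)
    · obtain ⟨m, hm⟩ := (hC_DISP Γ a c f hp he).2.1 h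
      have hn' : (n : ℤ) ≠ 0 := by omega
      obtain ⟨r, hr⟩ := Int.eq_ofNat_of_zero_le (Int.emod_nonneg m hn')
      refine ⟨c ^ (m / n), zpow_mem hc _, zpow_mem (self_mem_Ep c) _, r, ?_⟩
      rw [← zpow_natCast, ← zpow_natCast c, ← zpow_mul, ← zpow_add, ← hr, Int.ediv_mul_add_emod]
      exact hm
    · obtain ⟨p, h1, h2⟩ := per c hp f hf he fun n => (not_le.1 fun a => h ⟨n, a⟩).le
      exact C_purA.Pu.conj h1 (D.pur _ h2 (hp.conj' p) _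
        (mul_mem (mul_mem (inv_mem h1) hf) h1) (C_purA.conj_mem_Ep p he) n hn)
  · obtain ⟨z, mz, b, hb, eb⟩ := anc hELEM hLINE hPERC hC_DISP D mc hc
    obtain ⟨z', mz', b', hb', eb'⟩ := anc hELEM hLINE hPERC hC_DISP D mc' hc'
    obtain ⟨g, mg, eg, ng⟩ := na1 D hb mz
    have e1 : Cj (z * g) b c := eb.mul (Cj.of_mem eg)
    by_cases e : Ep c = Ep c'
    · refine ⟨z * g, mul_mem mz mg, ?_, C_cenA.two hELEM hLINE hC_DISP hb.1 hb.1 e1
        (Eq.trans e1 e) hc hc' fun q => ?_⟩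
      · have k := (hb.1.conj (z * g)).disp' hELEM hLINE hc e1 1
        rw [ds_one_mul, ds_one_mul] at k
        exact ((hC_PROJ Γ a b _ hb.1 hb.2.1 ng).1.trans' k).trans' (C_cenA.l1 _ _ (ln_nonneg c'))
      · have k : Ls (ln b) (ds q (b * q) + ds q (b * q)) :=
          (Ls.mono_right hb.2.1 (md_le_ds b q)).trans' (C_cenA.l1 _ _ (ds_nonneg _ _))
        exact k.add k
    · obtain ⟨f, mf, f', mf', ef, ef', n, n'⟩ := na2 D hb hb'
        (mul_mem (inv_mem (mul_mem mz mg)) mz') fun k => e (by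
          have := e1.mul k
          rw [mul_inv_cancel_left] at this
          exact Eq.trans (Eq.symm this) eb')
      have e2 : Cj (z * g * f⁻¹) b c := e1.mul (Cj.of_mem (inv_mem ef))
      have e3 : Cj (z * g * f⁻¹)
          (f * ((z * g)⁻¹ * z') * f' * b' * (f * ((z * g)⁻¹ * z') * f')⁻¹) c' := by
        have := eb'.mul (Cj.of_mem ef')
        rw [Cj, ← show Ep _ = _ from this]; congr 1; group
      have k := C_cenA.two hELEM hLINE hC_DISP hb.1 (hb'.1.conj _) e2 e3 hc hc'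
        (hC_BRIDGE Γ a b b' _ hb.1 hb.2.1 hb'.1 hb'.2.1 n n')
      refine ⟨_, mul_mem (mul_mem mz mg) (inv_mem mf), C_cenA.short hELEM hPERC hc hc' e ?_, k⟩
      simpa only [inv_one, one_mul, mul_one] using k 1

end Pool.Agent.P.MP_dba3d2_lc


end

section

/-! Step Q_RIGT of the stability project. -/

namespace Pool.Agent.P.MP_dba3d2_lc

open Filter

theorem p_Q_RIGT (hROOT : S_ROOT) (hQ_XCH : S_Q_XCH) (hQ_MIX : S_Q_MIX) (hQ_MINP : S_Q_MINP) :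
    S_Q_RIGT := by
  intro Γ a H T u D d d' e e' hd hd' he he' hne x c1 c2
  by_contra hx
  obtain ⟨G, E, N, h, hT, a0, a1, r⟩ := (hQ_MINP Γ a H T u D).2 (.inr d) (.inr d') hd hd'
  obtain ⟨G', E', M, h', hT', b0, b1, r'⟩ := (hQ_MINP Γ a H T u D).2 (.inr e) (.inr e') he he'
  have c1' : Ep (x * e * x⁻¹) = Ep d := c1
  have c2' : Ep (x * e' * x⁻¹) = Ep d' := c2
  have k0 : Aj H (x * G' 0) d := ((aj_mv x).2 b0).ep hROOT D.gc hd.prim c1'.symm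
  have k1 : Aj H (x * G' M) d' := ((aj_mv x).2 b1).ep hROOT D.gc hd'.prim c2'.symm
  have ne : (G N)⁻¹ * (x * G' (M - 0)) ∉ H := fun m => hx (by
    have := co_mem (D.le m) (hT N le_rfl)
    simpa using mul_mem this (inv_mem (hT' (M - 0) (by omega))))
  obtain ⟨G₂, E₂, k, g1, g2, -, e2, -⟩ := h.append (η := .inr d') (h'.mv x).rev a1 k1 ne
    (fun j ej => (r j ej).2 d' rfl) (fun p s => by
      obtain ⟨j, rfl⟩ : ∃ j, M = j + 1 := ⟨M - 1, by omega⟩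
      refine (r' j rfl).2 e' rfl ((sm_mv x).1 ?_)
      have s' : Sm H u (.inr (x * e' * x⁻¹)) (.inr d') := c2'
      exact (s'.trans s).symm)
  have A0 : Aj H (G₂ 0) d := by
    rw [g1 0 (Nat.zero_le _)]
    exact a0
  have A1 : Aj H (G₂ (N + 1 + M)) d := by
    rw [g2 M]
    simpa using k0
  obtain ⟨q1, q2⟩ := (hQ_XCH Γ a H u G₂ E₂ (N + 1 + M) D.gc).1 (N + M + 2)
    (hQ_MIX Γ a H u D.gc _) k 0 (N + 1 + M) (by omega) le_rfl (by omega) d A0 A1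
  obtain rfl : N = 0 := by omega
  rw [e2] at q2
  exact hne q2

end Pool.Agent.P.MP_dba3d2_lc


end

section

/-! Step Q_CR of the stability project. -/

namespace Pool.Agent.P.MP_dba3d2_lc

open Filter

namespace Q_cr
variable {Γ : HG} {a : Amb}

theorem per2_add (P V : ℕ → MM Γ a) (n m : ℕ) :
    per2 P V (n + m) = per2 P V n + per2 (fun t => P (n + t)) (fun t => V (n + t)) m :=
  Finset.sum_range_add _ _ _

theorem cyc (hQ_CYC : S_Q_CYC) (hQ_MIX : S_Q_MIX) {H : Subgroup (MM Γ a)} {u c : MM Γ a}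
    {g : ℕ → MM Γ a} {ε : ℕ → Nd Γ a} {p v : ℕ → MM Γ a} {N : ℕ} (hH : GC0 H)
    (h : QCh H u c g ε p v (N + 1)) : Ct c (v 1) := by
  obtain ⟨b, sh, k⟩ := hQ_CYC Γ a H u c g ε p v (N + 1) hH h
  have k1 := k 0 (N + 1 + N) (hQ_MIX Γ a H u hH _)
  rw [G2, len2_eq, show N + 1 + N + 1 = N + 1 + (N + 1) from rfl, per2_add] at k1
  have e1 := sh (0 + 1)
  have e2 := sh (0 + 1 + (N + 1))
  simp only [add_assoc] at e1 e2 k1
  rw [e1, e2] at k1
  have v1 : v (1 + (N + 1)) = c * v 1 := h.pv 1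
  have v2 : v (0 + (1 + (N + (1 + (N + 1))))) = c * (c * v 1) := by
    rw [← v1, ← h.pv]
    congr 1
    omega
  have d1 : ds (v 1) (c * v 1) ≤ per2 p v (N + 1) := by
    have := ds_le_per2 (fun t => p (1 + t)) (fun t => v (1 + t)) (N + 1)
    rwa [sh 1, v1] at this
  have m := md_ge ((v 1)⁻¹ * c * v 1)
  rw [md_conj, ← ds_conj, show ln ((v 1)⁻¹ * c * v 1 * ((v 1)⁻¹ * c * v 1)) =
    ds (v 1) (c * (c * v 1)) from congrArg ln (by group)] at m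
  rw [v2] at k1
  refine Ls.mono_left d1 ((Ls.refl' _).of_le_add (k1.add (b.ll_delta Γ).two) b.pos 1 ?_)
  have t := ds_tri (p 1) (v 1) (c * (c * v 1))
  simp only [zero_add, add_zero] at *
  push_cast
  linarith

end Q_cr

theorem p_Q_CR (hELEM : S_ELEM) (hLINE : S_LINE) (hROOT : S_ROOT) (hQ_PEXT : S_Q_PEXT) (hQ_CYC : S_Q_CYC) (hQ_MIX : S_Q_MIX) (hQ_MINP : S_Q_MINP) :
    S_Q_CR := by
  intro Γ a H T u D c hc hf
  classical
  have ex : ∃ n, ∃ x ∈ T, Wk H u T n x (c * x) :=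
    let ⟨n, k⟩ := D.conn 1 (one_mem T) (c * 1) (by simpa using hc)
    ⟨n, 1, one_mem T, k⟩
  obtain ⟨x, hx, w⟩ := Nat.find_spec ex
  have mn : ∀ m < Nat.find ex, ∀ y ∈ T, ¬ Wk H u T m y (c * y) := fun m hm y hy k =>
    Nat.find_min ex hm ⟨y, hy, k⟩
  generalize Nat.find ex = n at w mn
  cases n with
  | zero =>
    obtain ⟨p, hp, -, k⟩ := D.gc.cen1 (c := x⁻¹ * c * x) (by simpa [mul_assoc] using w.zero)
      ((finOrder_conj' x c).not.2 hf)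
    exact ⟨x * p, mul_mem hx (D.le hp), ct_iff.2 (by simpa [mul_assoc] using k)⟩
  | succ N =>
    obtain ⟨g, ε, ch, g0, gN, hT⟩ := (hQ_MINP Γ a H T u D).1 _ x _ hx w fun m hm => mn m hm x hx
    by_cases s : Sm H u (ε N) ((ε 0).mv c)
    · have a1 : At H u (c * g 1) (ε N) :=
        ((ch.r 0 (by omega)).mv c).same hROOT D.gc (ch.l N (by omega)) s.symm
      cases N with
      | succ M =>
        have k := (ch.wk hT 1 M (by omega)).trans (Wk.one (add_comm M 1 ▸ ch.l (M + 1) (by omega))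
          a1 (mul_mem hc (hT 1 (by omega))))
        exact (mn _ (by omega) _ (hT 1 (by omega)) k).elim
      | zero =>
        have a0 := ch.l 0 (by omega)
        generalize ε 0 = e at s a0
        rcases e with w | d
        · exact (mn 0 (by omega) w (Ft.mem D (hT 0 (by omega)) a0 rfl) (.nil s.1)).elim
        · have hd : Aj H (g 0) d := a0
          have m := InE.mem hELEM hd.1.1 (((hELEM Γ a d hd.1.1).2.2.2.1 c).2 (Eq.symm s)) hf
          obtain ⟨y, hy, k⟩ := hd.centre D.gc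
          exact ⟨y, co_mem (D.le hy) (hT 0 (by omega)),
            k.of_prim hELEM hLINE hd.1 hf (Ep_eq hELEM hd.1.1 m hf).symm⟩
    · obtain ⟨g', ε', p, v, q, hT'⟩ := hQ_PEXT Γ a H T u c g ε N D.gc ch (g0 ▸ gN) s hc
        fun t ht => hT t (by omega)
      exact ⟨v 1, Ft.mem D (hT' 2) ((q.ch 2).r 1 (by omega)) (q.fe 1).f,
        Q_cr.cyc hQ_CYC hQ_MIX D.gc q⟩

end Pool.Agent.P.MP_dba3d2_lc


end

section

/-! Step Q_ALL of the stability project. -/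

namespace Pool.Agent.P.MP_dba3d2_lc

open Filter

theorem p_Q_ALL (hELEM : S_ELEM) (hLINE : S_LINE) (hROOT : S_ROOT) (hNORM : S_NORM) (hADJ0 : S_ADJ0) (hQ_RIGT : S_Q_RIGT) (hQ_PATH : S_Q_PATH) (hQ_TOP : S_Q_TOP) (hQ_COV : S_Q_COV) (hQ_CR : S_Q_CR) :
    S_Q_ALL :=
  QAllB.all hELEM hLINE hROOT hNORM hADJ0 hQ_RIGT hQ_PATH hQ_TOP hQ_COV hQ_CR

end Pool.Agent.P.MP_dba3d2_lc


end

section

/-! Step Q_PCH of the stability project. -/

namespace Pool.Agent.P.MP_dba3d2_lc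

open Filter

namespace Q_pch

variable {Γ : HG} {a : Amb} {H : Subgroup (MM Γ a)} {u : MM Γ a}

theorem chain (hu : LimD H u) : ∀ l : List (MM Γ a × (Fin 1 × Bool)),
    WRed H (HP H fun _ : Fin 1 => u) l → ∀ g0 : MM Γ a, ∃ g ε, MCh H u g ε l.length ∧ g 0 = g0 ∧
      g l.length = g0 * wval (hv fun _ : Fin 1 => u) l ∧
      ∀ s l', l = s :: l' → ε 0 = .inl (g0 * s.1 * bif s.2.2 then u else 1)
  | [], _, g0 => ⟨fun _ => g0, fun _ => .inl 1, MCh.zero _ _ _ _, rfl, by simp, by simp⟩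
  | ⟨b, i, σ⟩ :: l, h, g0 => by
    have hb : b ∈ H := h.mem
    have hn := hu.not_mem
    obtain ⟨g, ε, k, e0, e1, e2⟩ :=
      chain hu l h.tail (g0 * b * hv (fun _ : Fin 1 => u) (i, σ))
    have a1 : At H u g0 (.inl (g0 * b * bif σ then u else 1)) := by
      cases σ
      · exact Or.inl (by simpa [mul_assoc] using hb)
      · exact Or.inr ⟨hu, by simpa [mul_assoc] using hb⟩
    have a2 : At H u (g 0) (.inl (g0 * b * bif σ then u else 1)) := by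
      rw [e0]
      cases σ
      · exact Or.inr ⟨hu, by simp [mul_assoc]⟩
      · exact Or.inl (by simp [mul_assoc])
    have ne : g0⁻¹ * g 0 ∉ H := by
      rw [e0]
      cases σ <;> simpa [mul_assoc, H.mul_mem_cancel_left hb] using hn
    have r : 0 < l.length → ¬ Sm H u (.inl (g0 * b * bif σ then u else 1)) (ε 0) := by
      intro hl
      obtain ⟨⟨b', j, τ⟩, l', rfl⟩ := List.exists_cons_of_length_pos hl
      have hb' : b' ∈ H := h.tail.mem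
      have np := h.np
      rw [e2 _ _ rfl]
      rintro ⟨s1, s2⟩
      cases σ <;> cases τ
      · exact hn (by simpa [mul_assoc, H.mul_mem_cancel_right hb'] using s1)
      · exact np ⟨Subsingleton.elim _ _, by simp, by simpa [mul_assoc] using s1⟩
      · exact np ⟨Subsingleton.elim _ _, by simp, by simpa [mul_assoc] using s2⟩
      · exact hn (by simpa [mul_assoc, H.mul_mem_cancel_left hb'] using s1)
    obtain ⟨G, E, k', g1, g2, f1, -⟩ := k.cons a1 a2 ne r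
    refine ⟨G, E, k', g1, ?_, ?_⟩
    · rw [List.length_cons, g2, e1, wval_cons]
      simp [mul_assoc]
    · rintro s l' ⟨⟩
      exact f1

end Q_pch

theorem p_Q_PCH (hROOT : S_ROOT) (hC2_RW : S_C2_RW) (hQ_XCH : S_Q_XCH) (hQ_MIX : S_Q_MIX) :
    S_Q_PCH := by
  intro Γ a H u hH hu
  refine ⟨fun l hl hne => ?_, fun c hc hp f hf hfc => ?_⟩
  · obtain ⟨g, ε, k, e0, e1, -⟩ := Q_pch.chain hu l hl 1
    have := hQ_MIX Γ a H u hH l.length g ε _ (List.length_pos_iff.2 hne) le_rfl k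
    simpa [e0, e1] using this
  · rw [← closure_hv] at hf
    obtain ⟨⟨l, b, hb, hl, rfl⟩, -⟩ := hC2_RW _ H _ _ _ (hws H fun _ : Fin 1 => u) f hf
    rcases l with _ | ⟨s, l⟩
    · simpa using hb
    obtain ⟨g, ε, k, e0, e1, e2⟩ := Q_pch.chain hu _ hl 1
    have a0 : Aj H (g 0) c := e0 ▸ aj_one.2 ⟨hp, hc⟩
    have a1 : Aj H (wval (hv fun _ : Fin 1 => u) (s :: l) * b) c :=
      ⟨hp, (hROOT Γ a H hH).2.2.2.1 c hc hp.1 _ (hp.conj' _) (Ep_conj_mem' hfc)⟩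
    have a2 : Aj H (g (s :: l).length) c := by
      rw [e1, one_mul]
      exact a1.congr (by simpa [mul_assoc, -wval_cons] using hb)
    have := ((hQ_XCH Γ a H u g ε _ hH).1 _ (hQ_MIX Γ a H u hH ((s :: l).length + 1)) k 0 _
      (by simp) le_rfl (by omega) c a0 a2).2
    rw [e2 _ _ rfl] at this
    exact this.elim

end Pool.Agent.P.MP_dba3d2_lc


end

section

/-! Step PA of the stability project. -/

namespace Pool.Agent.P.MP_dba3d2_lc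

open Filter

theorem p_PA (hELEM : S_ELEM) (hPERC : S_PERC) (hROOT : S_ROOT) (hC2_HFIN : S_C2_HFIN) (hC2_HEXT : S_C2_HEXT) (hQ_MIX2 : S_Q_MIX2) (hQ_COV : S_Q_COV) (hQ_ALL : S_Q_ALL) (hQ_PCH : S_Q_PCH) :
    S_PA := by
  intro Γ a H l u hH hl hk T
  have D : LimD H u := hl.limD hH hk
  have uT : u ∈ T := Subgroup.mem_sup_right (Subgroup.subset_closure ⟨0, rfl⟩)
  have a1 : At H u 1 (.inl u) := Or.inr ⟨D, by simp⟩
  have a2 : At H u u (.inl u) := Or.inl (co_refl H u)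
  have C : Cn H u T := Cn.of_gen hH rfl (by rintro _ ⟨_, rfl⟩; exact ⟨_, a1, a2⟩) fun _ => uT
  obtain ⟨b1, b2⟩ := hQ_PCH Γ a H u hH D
  refine ⟨hQ_ALL Γ a H T u C fun c hc hp f hf he n hn => ?_, fun K hK hf => ?_,
    hC2_HEXT Γ a H 1 _ b1, fun x hx hy n => ?_, fun t ht hb => ?_⟩
  · obtain ⟨f', k1, k2⟩ := hH.pur c hc hp f (b2 c hc hp f hf he) he n hn
    exact ⟨f', C.le k1, k2⟩
  · obtain ⟨p, k1, k2⟩ := hC2_HFIN _ H _ _ b1 K hK hf
    exact ⟨p, k1, Or.inl k2⟩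
  · by_contra k
    have e : Ll (l n) (ds u (x * u)) := fun m => by
      rw [ds_conj]
      exact (not_le.1 fun j => k ⟨m, j⟩).le
    have hμ := (hl.big n).of_ls e.ls
    obtain ⟨v, hv, k1⟩ := hl.apx n
    have k2 := Ll.ls_left k1 e
    have s1 : Sd H 1 u (x * u) := Or.inr ⟨hμ, v, hv, x * v, mul_mem hx hv, by rwa [one_mul],
      by rwa [one_mul, ds_mul_left]⟩
    have s2 : Sd H u u (x * u) := Or.inl ⟨co_refl H u, by rwa [← mul_assoc]⟩
    have o1 := on_left hμ.pos.le u (x * u)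
    have o2 := on_right hμ.pos.le u (x * u)
    have nm : (1 : MM Γ a)⁻¹ * u ∉ H := by simpa using D.not_mem
    rcases Sd.ov hELEM hPERC hROOT hH hμ s1 s2 (Ls.refl' _) (Ls.refl' _)
      ⟨Ls.refl' _, o1, o2, o1, o2⟩ with j | ⟨d, j1, j2, -⟩
    · exact nm j
    · exact hQ_MIX2 Γ a H u 1 u (.inl u) (.inr d) hH nm a1 a2 j1 j2
  · obtain ⟨L, e, hG, hL⟩ := hQ_COV Γ a H T u C _ hb t ht (Ls.refl' _)
    rw [inv_one, one_mul] at e
    obtain ⟨x, hx, k⟩ := exists_long hb (L := L) (e ▸ Ls.refl' _)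
    refine ⟨x, ?_, k, hG.le_mem (e ▸ Ls.refl' _) hx⟩
    rcases hL x hx with j | ⟨j, c, hc, hp, -, -, he⟩ | ⟨-, -, j⟩
    · exact j
    · exact b2 c hc hp x j he
    · exact absurd k (j.not_ls hb.pos)

end Pool.Agent.P.MP_dba3d2_lc


end
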