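import Pool.Agent.P.MP_dba3d2_lcM.Db47
import Pool.Agent.P.MP_dba3d2_lcM.Db48

section

/-! Chapter D, statements on systems realised in a tree: the first two outcomes. -/

namespace Pool.Agent.P.MP_dba3d2_lc

open Set Filter Topology

-- deps:
-- imports: Pool.Agent.P.MP_dba3d2_lc.D.MvB
def S_D_SECT : Prop := ∀ (R : RT) (A : Finset R.W), ∃ (P : ℝ → R.W) (a : R.W → ℝ),
  (∀ w ∈ A, 0 < R.ℓ w → P (a w) = 1) ∧ (∀ w ∈ A, 0 < R.ℓ w → P (a w + R.ℓ w) = w) ∧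
  (∀ w ∈ A, R.IsoOn P (a w) (a w + R.ℓ w)) ∧
  ∀ w ∈ A, ∀ w' ∈ A, ∀ t, t ∈ Icc (a w) (a w + R.ℓ w) → t ∈ Icc (a w') (a w' + R.ℓ w') → w = w'

-- deps: D_SECT
-- imports: Pool.Agent.P.MP_dba3d2_lc.D.MvB
def S_D_SETUP : Prop := ∀ (R : RT) (A : Finset R.W), ∃ (ι : Type) (_ : Fintype ι) (S : Sys ι)
  (P : ℝ → R.W) (g : ι → R.W) (a : R.W → ℝ), R.Setup P A S g a

-- deps:
-- imports: Pool.Agent.P.MP_dba3d2_lc.D.MvB
def S_D_BAD : Prop := ∀ (R : RT) (M : Subgroup R.W) (A : Finset R.W) (ι : Type) (S : Sys ι)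
  (P : ℝ → R.W) (g : ι → R.W) (a : R.W → ℝ), R.Setup P A S g a → ∀ x ∈ A, ¬R.Cov M x →
  ∃ γ ∈ R.sec a x, ¬R.HGm P M γ

-- deps:
-- imports: Pool.Agent.P.MP_dba3d2_lc.D.MvB
def S_D_STB : Prop := ∀ (R : RT) (e : ℕ), R.Ax e → ∀ (P : ℝ → R.W) (p q : ℝ), p < q →
  R.IsoOn P p q → (∀ u v, p ≤ u → u < v → v ≤ q → ¬R.Per (P u) (P v)) →
  ∃ p' q', p ≤ p' ∧ q' ≤ q ∧ R.Stb P p' q'

-- deps:
-- imports: Pool.Agent.P.MP_dba3d2_lc.D.MvB
/-- validity and lengths of a deformation given by cuts -/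
def S_D_LENS : Prop := ∀ (G : LG) (n : ℝ → G.W) (cut : Gm → G.W),
  (∀ γ : Gm, ∃ r > 0, ∀ s, 0 < s → s ≤ r → (n γ.c)⁻¹ * n (γ.ap s) = cut γ) →
  (∀ (g : G.W) (φ : Gm) (u v : ℝ), u ≤ v → (∀ γ ∈ GI u v, cut (φ * γ) = g * cut γ * g⁻¹) →
    n (φ.ap u) * g * (n u)⁻¹ = n (φ.ap v) * g * (n v)⁻¹) ∧
  ∀ (f : ℝ → G.W) (p q : ℝ), (∀ s ∈ Icc p q, ∀ t ∈ Icc p q, G.d (f s) (f t) ≤ |s - t|) →
    (∀ (T : Finset Gm) (w : ℝ), 0 ≤ w →
      (∀ γ ∈ GI p q, γ ∈ T → G.d (f γ.c) (cut γ * f γ.c) ≤ w) →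
      (∀ γ ∈ GI p q, γ ∉ T → G.d (f γ.c) (cut γ * f γ.c) = 0) →
      ∀ u ∈ Icc p q, ∀ v ∈ Icc p q, G.d (n u * f u) (n v * f v) ≤ |u - v| + T.card * w) ∧
    ∀ (ι : Type) (S : Sys ι) (F : Finset ℝ) (E : Finset Gm) (r : Gm → ℝ), S.Fam (GI p q) F E r →
      (∀ β, (S.orb β).Finite) → (∀ γ, γ ∉ E → cut γ = 1) →
      (∀ γ ∈ E, G.d (f γ.c) (cut γ * f (γ.ap (r γ))) = 0) →
      ∀ u ∈ F, ∀ v ∈ F, u ∈ Icc p q → v ∈ Icc p q → G.d (n u * f u) (n v * f v) = 0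

-- deps:
-- imports: Pool.Agent.P.MP_dba3d2_lc.D.MvB
/-- one letter for each family of finite orbits -/
def S_D_CUT0 : Prop := ∀ (R : LG) (P : ℝ → R.W) (p0 q0 p q : ℝ), R.Stb P p0 q0 → p0 ≤ p → q ≤ q0 →
  ∀ (ι : Type) (S : Sys ι) (F : Finset ℝ) (E : Finset Gm) (r : Gm → ℝ), S.In (GI p q) →
  S.Arcs (R.arc P p0 q0) → S.Fam (GI p q) F E r →
  ∃ (k : ℕ) (y : Fin k → R.W) (cut : Gm → Monoid.Coprod R.W (FreeGroup (Fin k))),
    (∀ i, 0 < R.ℓ (y i) ∧ ¬R.Per 1 (y i)) ∧ (∀ γ, γ ∉ E → cut γ = 1) ∧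
    (∀ γ, Monoid.Coprod.lift (MonoidHom.id _) 1 (cut γ) = 1) ∧
    ∀ (G : LG) (j : R.W →* G.W) (ν : Fin k → G.W), (∀ w, G.ℓ (j w) ≤ R.ℓ w) →
      (∀ i g, R.Stab 1 (y i) g → Commute (ν i) (j g)) →
      ∀ c : Gm → G.W, (∀ γ, c γ = Monoid.Coprod.lift j (FreeGroup.lift ν) (cut γ)) →
        (∀ γ ∈ GI p q, ∀ β g, S.Rel γ β → R.Mv P γ g β → c β = j g * c γ * (j g)⁻¹) ∧
        ((∀ i, G.ℓ (ν i) = 0) → ∀ γ : Gm, G.d (j (P γ.c)) (c γ * j (P γ.c)) = 0) ∧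
        ((∀ i, G.ℓ (ν i * j (y i)) = 0) →
          ∀ γ ∈ E, G.d (j (P γ.c)) (c γ * j (P (γ.ap (r γ)))) = 0)

-- deps: D_FAM D_LENS D_CUT0
-- imports: Pool.Agent.P.MP_dba3d2_lc.D.MvB
def S_D_GOODFIN : Prop := ∀ (R : LG) (P : ℝ → R.W) (p0 q0 p q : ℝ), R.Stb P p0 q0 → p0 ≤ p →
  q ≤ q0 → ∀ (ι : Type) [Fintype ι] (S : Sys ι), S.In (GI p q) → S.Arcs (R.arc P p0 q0) →
  (∀ β, (S.orb β).Finite) → R.Good1 P S p q

-- deps: D_FAM D_LENS D_CUT0
-- imports: Pool.Agent.P.MP_dba3d2_lc.D.MvB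
def S_D_GOODTHIN : Prop := ∀ (R : LG) (P : ℝ → R.W) (p0 q0 p q : ℝ), R.Stb P p0 q0 → p0 ≤ p →
  q ≤ q0 → ∀ (ι : Type) [Fintype ι] (S : Sys ι), S.In (GI p q) → S.Arcs (R.arc P p0 q0) →
  S.NoMob → S.Thin → R.Good1 P S p q

-- deps:
-- imports: Pool.Agent.P.MP_dba3d2_lc.D.MvB
def S_D_STRIP : Prop := ∀ (R : LG) (P : ℝ → R.W) (p0 q0 p q : ℝ), R.Stb P p0 q0 → p0 ≤ p →
  q ≤ q0 → ∀ (ι : Type) (S : Sys ι), S.In (GI p q) → S.Arcs (R.arc P p0 q0) →
  R.Good1 P S p q → R.GoodR P S.Rel p q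

/-- the support of a deformation: it misses the parameters and meets the variables -/
structure LG.Supp (R : LG) (M : Subgroup R.W) (A : Finset R.W) {k : ℕ} (x : Fin k → R.W)
    {ι : Type} (S : Sys ι) (a : R.W → ℝ) (C : Set Gm) : Prop where
  mem : ∀ i, x i ∈ A
  co : CO C
  inv : S.Inv C
  sub : C ⊆ R.secs a A
  par : ∀ m ∈ A, m ∈ M → Disjoint C (R.sec a m)
  hit : ∃ i, (C ∩ R.sec a (x i)).Nonempty

/-- A mesh `E` whose cells in `C` are moved by `ρ` to a model path `P'`, and the finite set `V` of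
moves in the model that the bands induce. -/
structure LG.Mesh (R : LG) (P P' : ℝ → R.W) (A : Finset R.W) {ι : Type} (S : Sys ι) (g : ι → R.W)
    (a : R.W → ℝ) (C : Set Gm) (E : Finset ℝ) (ρ : ℝ → R.W) (ψ : ℝ → Gm)
    (V : Set (R.W × Gm × ℝ × ℝ)) (F : Finset ℝ) : Prop where
  ends : ∀ w ∈ A, a w ∈ E ∧ a w + R.ℓ w ∈ E
  cell : ∀ s t, Free E s t → GI s t ⊆ C ∨ Disjoint (GI s t) C
  mv : ∀ s ∈ E, ∀ t ∈ E, s < t → Free E s t → GI s t ⊆ C →
    (∀ x ∈ Icc s t, R.d (ρ s * P x) (P' ((ψ s).ap x)) = 0) ∧ (ψ s).ap s ∈ F ∧ (ψ s).ap t ∈ F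
  band : ∀ i u v, u < v → S.dom i = GI u v → ∃ E' : Finset ℝ, ∀ x y, u ≤ x → x < y → y ≤ v →
    (x ∈ E' ∨ x = u) → (y ∈ E' ∨ y = v) → Free E' x y →
    ∃ s ∈ E, ∃ t ∈ E, ∃ s' ∈ E, ∃ t' ∈ E, s < t ∧ Free E s t ∧ s' < t' ∧ Free E s' t' ∧
      x ∈ Icc s t ∧ y ∈ Icc s t ∧ (S.φ i).ap x ∈ Icc s' t' ∧ (S.φ i).ap y ∈ Icc s' t' ∧
      ((¬GI s t ⊆ C ∧ ¬GI s' t' ⊆ C) ∨ (GI s t ⊆ C ∧ GI s' t' ⊆ C ∧
        (ρ s' * g i * (ρ s)⁻¹, ψ s' * S.φ i * (ψ s)⁻¹, min ((ψ s).ap x) ((ψ s).ap y),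
          max ((ψ s).ap x) ((ψ s).ap y)) ∈ V))

-- deps:
-- imports: Pool.Agent.P.MP_dba3d2_lc.D.MvB
def S_D_MESH : Prop := ∀ (R : LG) (A : Finset R.W) (ι : Type) [Fintype ι] (S : Sys ι)
  (P : ℝ → R.W) (g : ι → R.W) (a : R.W → ℝ) (C : Set Gm), R.Setup P A S g a → CO C → S.Inv C →
  ∀ (P' : ℝ → R.W) (J : Set ℝ) (Hm Rn : Gm → Gm → Prop),
  (∀ γ ∈ C, ∃ (ρ : R.W) (ψ : Gm), ∃ r > 0, (∀ s ∈ Icc 0 r,
    R.d (ρ * P (γ.ap s)) (P' (ψ.ap (γ.ap s))) = 0 ∧ ψ.ap (γ.ap s) ∈ J) ∧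
    ∀ β ∈ seg γ r, Hm β (ψ * β)) →
  (∀ γ γ' β β', S.Step γ γ' → Hm γ β → Hm γ' β' → Rn β β') →
  ∃ E ρ ψ V F, R.Mesh P P' A S g a C E ρ ψ V F ∧ V.Finite ∧ (∀ t ∈ F, t ∈ J) ∧
    ∀ h φ u v, (h, φ, u, v) ∈ V → u < v ∧ (∀ t ∈ Icc u v, t ∈ J ∧ φ.ap t ∈ J) ∧
      R.Rl P' h φ u v ∧ ∀ β ∈ GI u v, Rn β (φ * β)

-- deps:
-- imports: Pool.Agent.P.MP_dba3d2_lc.D.MvB
/-- pull back of a deformation of the model -/
def S_D_PBG : Prop := ∀ (R : LG) (M : Subgroup R.W) (A : Finset R.W) (k : ℕ) (x : Fin k → R.W)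
  (ι : Type) (S : Sys ι) (P P' : ℝ → R.W) (g : ι → R.W) (a : R.W → ℝ) (C : Set Gm) (E : Finset ℝ)
  (ρ : ℝ → R.W) (ψ : ℝ → Gm) (V : Set (R.W × Gm × ℝ × ℝ)) (F : Finset ℝ),
  R.Setup P A S g a → R.Supp M A x S a C → R.Mesh P P' A S g a C E ρ ψ V F →
  ∃ (n₀ : ℕ) (c : ℝ), 0 < c ∧ ∀ (H : Type) [Group H] (inl : R.W →* H) (N : ℝ → H),
    ∃ io : R.W → H,
      (∀ π : H →* R.W, (∀ w, π (inl w) = w) → (∀ t, π (N t) = 1) → ∀ w ∈ A, π (io w) = w) ∧
      ∀ (G : LG) (lam : H →* G.W), (∀ w, G.ℓ (lam (inl w)) ≤ R.ℓ w) →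
        (∀ h φ u v, (h, φ, u, v) ∈ V → lam (N (φ.ap u)) * lam (inl h) * (lam (N u))⁻¹ =
          lam (N (φ.ap v)) * lam (inl h) * (lam (N v))⁻¹) →
        PHom A M (fun w => lam (inl w)) (fun w => lam (io w)) ∧
        (∀ η, 0 ≤ η → (∀ u ∈ F, ∀ v ∈ F, G.d (lam (N u) * lam (inl (P' u)))
            (lam (N v) * lam (inl (P' v))) ≤ |u - v| + η) →
          ∀ w ∈ A, G.ℓ (lam (io w)) ≤ R.ℓ w + n₀ * η) ∧
        ∀ η, 0 ≤ η → (∀ u ∈ F, ∀ v ∈ F, G.d (lam (N u) * lam (inl (P' u)))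
            (lam (N v) * lam (inl (P' v))) ≤ η) →
          ∑ i, G.ℓ (lam (io (x i))) ≤ ∑ i, R.ℓ (x i) - c + n₀ * η

-- deps: D_MESH D_PBG
-- imports: Pool.Agent.P.MP_dba3d2_lc.D.MvB
def S_D_PB1 : Prop := ∀ (R : LG) (M : Subgroup R.W) (A : Finset R.W) (k : ℕ) (x : Fin k → R.W)
  (ι : Type) [Fintype ι] (S : Sys ι) (P : ℝ → R.W) (g : ι → R.W) (a : R.W → ℝ) (C : Set Gm),
  R.Setup P A S g a → R.Supp M A x S a C → ∀ (p q : ℝ) (Rn : Gm → Gm → Prop),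
  (∀ γ ∈ C, ∃ β ∈ GI p q, S.Rel γ β) → (∀ β ∈ GI p q, ∀ β' ∈ GI p q, S.Rel β β' → Rn β β') →
  R.GoodR P Rn p q → Out1 R M A x

-- deps: D_MESH D_PBG
-- imports: Pool.Agent.P.MP_dba3d2_lc.D.MvB
def S_D_PB2 : Prop := ∀ (R : RT) (e : ℕ), R.Ax e → ∀ (M : Subgroup R.W) (A : Finset R.W) (k : ℕ)
  (x : Fin k → R.W) (ι : Type) [Fintype ι] (S : Sys ι) (P : ℝ → R.W) (g : ι → R.W) (a : R.W → ℝ)
  (C : Set Gm), R.Setup P A S g a → R.Supp M A x S a C → ∀ u v : ℝ, u < v → R.IsoOn P u v →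
  R.Per (P u) (P v) → (∀ γ ∈ C, ∃ β ∈ GI u v, S.Rel γ β) → Out2 R.toLG M A x

-- deps: D_STB D_GOODFIN D_STRIP D_PB1 D_PB2
-- imports: Pool.Agent.P.MP_dba3d2_lc.D.MvB
/-- the bad germ has a finite orbit -/
def S_D_CASEF : Prop := ∀ (R : RT) (e : ℕ), R.Ax e → ∀ (M : Subgroup R.W) (A : Finset R.W) (k : ℕ)
  (x : Fin k → R.W) (ι : Type) [Fintype ι] (S : Sys ι) (P : ℝ → R.W) (g : ι → R.W) (a : R.W → ℝ),
  R.Setup P A S g a → (∀ i, x i ∈ A) → ∀ i, ∀ γ ∈ R.sec a (x i), ¬R.HGm P M γ →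
  (S.orb γ).Finite → Out1 R.toLG M A x ∨ Out2 R.toLG M A x

end Pool.Agent.P.MP_dba3d2_lc


end

section

/-! Chapter D toolbox: length groups and real trees. -/

namespace Pool.Agent.P.MP_dba3d2_lc

open Set

namespace LG

variable {R : LG} {x y z p q p' q' x' y' g h : R.W}

theorem l_nonneg (g : R.W) : 0 ≤ R.ℓ g := by
  have h := R.l_mul g g⁻¹
  rw [mul_inv_cancel, R.l_one, R.l_inv] at h
  linarith
theorem d_nonneg (x y : R.W) : 0 ≤ R.d x y := l_nonneg _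
@[simp] theorem d_self (x : R.W) : R.d x x = 0 := by
  rw [d, inv_mul_cancel, R.l_one]
theorem d_comm (x y : R.W) : R.d x y = R.d y x := by
  rw [d, d, ← R.l_inv, mul_inv_rev, inv_inv]
theorem d_triangle (x y z : R.W) : R.d x z ≤ R.d x y + R.d y z := by
  have h := R.l_mul (x⁻¹ * y) (y⁻¹ * z)
  rwa [mul_assoc, mul_inv_cancel_left] at h
@[simp] theorem d_mul_left (g x y : R.W) : R.d (g * x) (g * y) = R.d x y := by
  rw [d, d, mul_inv_rev, mul_assoc, inv_mul_cancel_left]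
theorem d_one (x : R.W) : R.d 1 x = R.ℓ x := by
  rw [d, inv_one, one_mul]
theorem d_inv_mul (g x y : R.W) : R.d (g⁻¹ * x) y = R.d x (g * y) := by
  rw [← d_mul_left g, mul_inv_cancel_left]
theorem d_zero_symm (h : R.d x y = 0) : R.d y x = 0 := (d_comm y x).trans h
theorem d_zero_trans (h : R.d x y = 0) (k : R.d y z = 0) : R.d x z = 0 := by
  have := d_triangle x y z
  have := d_nonneg x z
  linarith
theorem d_congr (h : R.d x x' = 0) (k : R.d y y' = 0) : R.d x y = R.d x' y' := by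
  have := d_triangle x x' y
  have := d_triangle x' y' y
  have := d_triangle x' x y'
  have := d_triangle x y y'
  have := d_comm y y'
  have := d_comm x x'
  linarith
theorem l_zero_mul (h1 : R.ℓ g = 0) (h2 : R.ℓ h = 0) : R.ℓ (g * h) = 0 := by
  have := R.l_mul g h
  have := l_nonneg (g * h)
  linarith
theorem l_zero_inv (h1 : R.ℓ g = 0) : R.ℓ g⁻¹ = 0 := (R.l_inv g).trans h1
theorem l_tiny_mul (h1 : R.ℓ z = 0) (g : R.W) : R.ℓ (z * g) = R.ℓ g := by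
  have a1 := R.l_mul z g
  have a2 := R.l_mul z⁻¹ (z * g)
  rw [inv_mul_cancel_left, R.l_inv] at a2
  linarith
theorem l_mul_tiny (g : R.W) (h1 : R.ℓ z = 0) : R.ℓ (g * z) = R.ℓ g := by
  have a1 := R.l_mul g z
  have a2 := R.l_mul (g * z) z⁻¹
  rw [mul_inv_cancel_right, R.l_inv] at a2
  linarith
/-- a Lipschitz homomorphism does not increase distances -/
theorem d_map_le {G : LG} (j : R.W →* G.W) (hj : ∀ w, G.ℓ (j w) ≤ R.ℓ w) (x y : R.W) :
    G.d (j x) (j y) ≤ R.d x y := by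
  rw [d, d, ← map_inv, ← map_mul]
  exact hj _
theorem d_map_zero {G : LG} (j : R.W →* G.W) (hj : ∀ w, G.ℓ (j w) ≤ R.ℓ w) (h : R.d x y = 0) :
    G.d (j x) (j y) = 0 := by
  have := d_map_le j hj x y
  have := d_nonneg (j x) (j y)
  linarith

theorem On.symm (h : R.On p x y) : R.On p y x := by
  unfold On at *
  rw [d_comm y p, d_comm p x, d_comm y x]
  linarith
theorem on_left (x y : R.W) : R.On x x y := by
  simp [On]
theorem on_right (x y : R.W) : R.On y x y := by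
  simp [On]
theorem on_mul_left (g : R.W) : R.On (g * p) (g * x) (g * y) ↔ R.On p x y := by
  simp only [On, d_mul_left]
theorem On.congr (h : R.On p x y) (h1 : R.d p p' = 0) (h2 : R.d x x' = 0) (h3 : R.d y y' = 0) :
    R.On p' x' y' := by
  unfold On at *
  rw [← d_congr h2 h1, ← d_congr h1 h3, ← d_congr h2 h3]
  exact h
theorem On.trans_left (h : R.On q x y) (k : R.On p x q) : R.On p x y ∧ R.On q p y := by
  unfold On at *
  have := d_triangle p q y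
  have := d_triangle x p y
  constructor <;> linarith
theorem On.trans_right (h : R.On p x y) (k : R.On q p y) : R.On q x y ∧ R.On p x q := by
  unfold On at *
  have := d_triangle x p q
  have := d_triangle x q y
  constructor <;> linarith
theorem on_one_one : R.On p 1 1 ↔ R.ℓ p = 0 := by
  unfold On
  rw [d_comm p 1, d_self, d_one]
  constructor <;> intro h <;> linarith

theorem stab_one (p q : R.W) : R.Stab p q 1 := by
  simp [Stab]
theorem Stab.symm (h : R.Stab p q g) : R.Stab q p g := ⟨h.2, h.1⟩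
theorem Stab.mul (h1 : R.Stab p q g) (h2 : R.Stab p q h) : R.Stab p q (g * h) := by
  refine ⟨d_zero_trans h1.1 ?_, d_zero_trans h1.2 ?_⟩
  · rw [mul_assoc, d_mul_left]
    exact h2.1
  · rw [mul_assoc, d_mul_left]
    exact h2.2
theorem Stab.inv (h1 : R.Stab p q g) : R.Stab p q g⁻¹ := by
  refine ⟨d_zero_symm ?_, d_zero_symm ?_⟩
  · rw [d_inv_mul]
    exact h1.1
  · rw [d_inv_mul]
    exact h1.2
theorem Stab.congr (h : R.Stab p q g) (h1 : R.d p p' = 0) (h2 : R.d q q' = 0) : R.Stab p' q' g := by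
  refine ⟨?_, ?_⟩
  · rw [← d_congr h1 ((d_mul_left g p p').trans h1)]
    exact h.1
  · rw [← d_congr h2 ((d_mul_left g q q').trans h2)]
    exact h.2
theorem stab_conj (w : R.W) : R.Stab (w * p) (w * q) (w * g * w⁻¹) ↔ R.Stab p q g := by
  have e : ∀ p : R.W, w * g * w⁻¹ * (w * p) = w * (g * p) := fun p => by group
  simp only [Stab, e, d_mul_left]
theorem stab_base : R.Stab 1 (p⁻¹ * q) (p⁻¹ * g * p) ↔ R.Stab p q g := by
  have h := stab_conj (p := p) (q := q) (g := g) p⁻¹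
  rwa [inv_mul_cancel, inv_inv] at h
theorem Per.symm (h : R.Per p q) : R.Per q p := by
  obtain ⟨g, h1, h2⟩ := h
  exact ⟨g, h1, h2.symm⟩
theorem Per.congr (h : R.Per p q) (h1 : R.d p p' = 0) (h2 : R.d q q' = 0) : R.Per p' q' := by
  obtain ⟨g, k1, k2⟩ := h
  exact ⟨g, k1, k2.congr h1 h2⟩
theorem per_mul_left (w : R.W) : R.Per (w * p) (w * q) ↔ R.Per p q := by
  have key : ∀ w p q : R.W, R.Per p q → R.Per (w * p) (w * q) := by
    rintro w p q ⟨g, k1, k2⟩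
    refine ⟨w * g * w⁻¹, fun k => k1 ?_, (stab_conj w).2 k2⟩
    have k3 := (MulAut.conj w⁻¹).toMonoidHom.isOfFinOrder k
    have e : (MulAut.conj w⁻¹).toMonoidHom (w * g * w⁻¹) = g := by
      simp [MulAut.conj_apply, mul_assoc]
    rwa [e] at k3
  refine ⟨fun h => ?_, key w p q⟩
  have k := key w⁻¹ _ _ h
  rwa [inv_mul_cancel_left, inv_mul_cancel_left] at k
theorem per_base : R.Per 1 (p⁻¹ * q) ↔ R.Per p q := by
  have h := per_mul_left (p := p) (q := q) p⁻¹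
  rwa [inv_mul_cancel] at h

variable {M : Subgroup R.W}
theorem HArc.symm (h : R.HArc M p q) : R.HArc M q p := by
  obtain ⟨g, k, k1, k2, k3⟩ := h
  exact ⟨g, k, k1, k3, k2⟩
theorem HArc.congr (h : R.HArc M p q) (h1 : R.d p p' = 0) (h2 : R.d q q' = 0) : R.HArc M p' q' := by
  obtain ⟨g, k, k1, k2, k3⟩ := h
  exact ⟨g, k, k1, k2.congr h1 (d_self _) (d_self _), k3.congr h2 (d_self _) (d_self _)⟩
theorem harc_mul_left (w : R.W) : R.HArc M (w * p) (w * q) ↔ R.HArc M p q := by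
  have key : ∀ w p q : R.W, R.HArc M p q → R.HArc M (w * p) (w * q) := by
    rintro w p q ⟨g, k, k1, k2, k3⟩
    refine ⟨w * g, k, k1, ?_, ?_⟩
    · rw [mul_assoc]
      exact (on_mul_left w).2 k2
    · rw [mul_assoc]
      exact (on_mul_left w).2 k3
  refine ⟨fun h => ?_, key w p q⟩
  have k := key w⁻¹ _ _ h
  rwa [inv_mul_cancel_left, inv_mul_cancel_left] at k

/-- on an isometric path the order of the parameters gives betweenness -/
theorem IsoOn.on {P : ℝ → R.W} {a b s t u : ℝ} (h : R.IsoOn P a b) (hs : s ∈ Icc a b)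
    (hu : u ∈ Icc a b) (ht : t ∈ uIcc s u) : R.On (P t) (P s) (P u) := by
  have ht' : t ∈ Icc a b := uIcc_subset_Icc hs hu ht
  unfold On
  rw [h s hs t ht', h t ht' u hu, h s hs u hu]
  rcases mem_uIcc.1 ht with ⟨k1, k2⟩ | ⟨k1, k2⟩
  · rw [abs_of_nonpos (by linarith), abs_of_nonpos (by linarith), abs_of_nonpos (by linarith)]
    ring
  · rw [abs_of_nonneg (by linarith), abs_of_nonneg (by linarith), abs_of_nonneg (by linarith)]
    ring
theorem IsoOn.mono {P : ℝ → R.W} {a b a' b' : ℝ} (h : R.IsoOn P a b) (h1 : a ≤ a') (h2 : b' ≤ b) :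
    R.IsoOn P a' b' := by
  intro s hs t ht
  exact h s (Icc_subset_Icc h1 h2 hs) t (Icc_subset_Icc h1 h2 ht)

end LG

namespace TreeBA

theorem abs_ap (φ : Gm) (s t : ℝ) : |φ.ap s - φ.ap t| = |s - t| := by
  rcases φ.h with k | k <;> simp only [Gm.ap, k]
  · congr 1
    ring
  · rw [← abs_neg]
    congr 1
    ring

theorem ap_mem (φ : Gm) {u v t : ℝ} (ht : t ∈ uIcc u v) : φ.ap t ∈ uIcc (φ.ap u) (φ.ap v) := by
  rw [mem_uIcc] at ht ⊢
  rcases φ.h with k | k <;> simp only [Gm.ap, k] <;> rcases ht with ⟨a, b⟩ | ⟨a, b⟩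
  · exact Or.inl ⟨by linarith, by linarith⟩
  · exact Or.inr ⟨by linarith, by linarith⟩
  · exact Or.inr ⟨by linarith, by linarith⟩
  · exact Or.inl ⟨by linarith, by linarith⟩

end TreeBA

namespace RT

variable (R : RT) {x y z p q m g : R.W}

/-- the four point condition -/
theorem four (x y z w : R.W) :
    R.d x y + R.d z w ≤ max (R.d x z + R.d y w) (R.d y z + R.d x w) := by
  have h := R.hyp (w⁻¹ * x) (w⁻¹ * y) (w⁻¹ * z)
  change R.d (w⁻¹ * x) (w⁻¹ * y) + R.d w z ≤ max (R.d (w⁻¹ * x) (w⁻¹ * z) + R.d w y)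
    (R.d (w⁻¹ * y) (w⁻¹ * z) + R.d w x) at h
  rwa [LG.d_mul_left, LG.d_mul_left, LG.d_mul_left, LG.d_comm w z, LG.d_comm w y,
    LG.d_comm w x] at h
theorem exists_on (x y : R.W) {t : ℝ} (h0 : 0 ≤ t) (h1 : t ≤ R.d x y) :
    ∃ p, R.d x p = t ∧ R.On p x y := by
  obtain ⟨p, k1, k2⟩ := R.geo (x⁻¹ * y) t h0 h1
  have e1 : R.d x (x * p) = t := by
    rw [LG.d, inv_mul_cancel_left]
    exact k1
  have e2 : R.d (x * p) y = R.d x y - t := by
    rw [LG.d, mul_inv_rev, mul_assoc]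
    exact k2
  refine ⟨x * p, e1, ?_⟩
  unfold LG.On
  rw [e1, e2]
  ring
/-- segments are isometric to intervals -/
theorem d_of_on (hp : R.On p x y) (hq : R.On q x y) : R.d p q = |R.d x p - R.d x q| := by
  unfold LG.On at hp hq
  have h4 := R.four p q x y
  have t1 := LG.d_triangle x p q
  have t2 := LG.d_triangle x q p
  rw [LG.d_comm p x, LG.d_comm q x] at h4
  rw [LG.d_comm q p] at t2
  have a1 := le_abs_self (R.d x p - R.d x q)
  have a2 := neg_abs_le (R.d x p - R.d x q)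
  refine le_antisymm ?_ (abs_le.2 ⟨by linarith, by linarith⟩)
  rcases le_max_iff.1 h4 with k | k <;> linarith
theorem on_of_le (hp : R.On p x y) (hq : R.On q x y) (h : R.d x p ≤ R.d x q) :
    R.On p x q ∧ R.On q p y := by
  have e := R.d_of_on hp hq
  rw [abs_of_nonpos (by linarith)] at e
  unfold LG.On at *
  constructor <;> linarith
/-- segments are convex -/
theorem on_sub (hp : R.On p x y) (hq : R.On q x y) (hm : R.On m p q) : R.On m x y := by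
  rcases le_total (R.d x p) (R.d x q) with h | h
  · have k := R.on_of_le hp hq h
    exact (hp.trans_right (k.2.trans_left hm).1).1
  · have k := R.on_of_le hq hp h
    exact (hq.trans_right (k.2.trans_left hm.symm).1).1
/-- the centre of a tripod -/
theorem exists_centre (x y z : R.W) : ∃ m, R.On m x y ∧ R.On m y z ∧ R.On m x z := by
  have t1 := LG.d_triangle y x z
  have t2 := LG.d_triangle x y z
  rw [LG.d_comm y x] at t1
  obtain ⟨m, k1, k2⟩ := R.exists_on x y (t := (R.d x y + R.d x z - R.d y z) / 2) (by linarith)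
    (by linarith)
  have h4 := R.four m z x y
  have t3 := LG.d_triangle x m z
  rw [LG.d_comm m x, LG.d_comm z y, LG.d_comm z x] at h4
  have e : R.d m z = R.d x z - R.d x m := by
    unfold LG.On at k2
    rcases le_max_iff.1 h4 with k | k <;> linarith
  refine ⟨m, k2, ?_, ?_⟩
  · unfold LG.On at *
    rw [LG.d_comm y m]
    linarith
  · unfold LG.On
    linarith
/-- a point of `[x, z]` lies on `[x, y]` or on `[y, z]` -/
theorem on_or_on (y : R.W) (h : R.On p x z) : R.On p x y ∨ R.On p y z := by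
  obtain ⟨m, k1, k2, k3⟩ := R.exists_centre x y z
  rcases le_total (R.d x p) (R.d x m) with e | e
  · exact Or.inl (k1.trans_left (R.on_of_le h k3 e).1).1
  · exact Or.inr (k2.trans_right (R.on_of_le k3 h e).2).1
theorem stab_sub (h : R.Stab x y g) (hp : R.On p x y) (hq : R.On q x y) : R.Stab p q g := by
  have key : ∀ p, R.On p x y → R.d p (g * p) = 0 := by
    intro p hp
    have k1 : R.On (g * p) x y := ((LG.on_mul_left g).2 hp).congr (LG.d_self _)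
      (LG.d_zero_symm h.1) (LG.d_zero_symm h.2)
    rw [R.d_of_on hp k1, LG.d_congr h.1 (LG.d_self (g * p)), LG.d_mul_left, sub_self, abs_zero]
  exact ⟨key p hp, key q hq⟩
theorem per_sub (h : R.Per x y) (hp : R.On p x y) (hq : R.On q x y) : R.Per p q := by
  obtain ⟨g, k1, k2⟩ := h
  exact ⟨g, k1, R.stab_sub k2 hp hq⟩
theorem harc_sub {M : Subgroup R.W} (h : R.HArc M x y) (hp : R.On p x y) (hq : R.On q x y) :
    R.HArc M p q := by
  obtain ⟨g, k, k1, k2, k3⟩ := h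
  exact ⟨g, k, k1, R.on_sub k2 k3 hp, R.on_sub k2 k3 hq⟩
/-- a parametrisation of the segment from `x` to `y` -/
theorem exists_path (x y : R.W) (a : ℝ) : ∃ P : ℝ → R.W, P a = x ∧
    (0 < R.d x y → P (a + R.d x y) = y) ∧ R.IsoOn P a (a + R.d x y) ∧
    ∀ t ∈ Icc a (a + R.d x y), R.On (P t) x y ∧ R.d x (P t) = t - a := by
  have key : ∀ t : ℝ, ∃ p, (t = a → p = x) ∧ (0 < R.d x y → t = a + R.d x y → p = y) ∧
      (t ∈ Icc a (a + R.d x y) → R.On p x y ∧ R.d x p = t - a) := by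
    intro t
    by_cases h1 : t = a
    · refine ⟨x, fun _ => rfl, fun k1 k2 => by linarith, fun _ => ⟨LG.on_left x y, ?_⟩⟩
      rw [h1, LG.d_self, sub_self]
    by_cases h2 : t = a + R.d x y
    · refine ⟨y, fun k => absurd k h1, fun _ _ => rfl, fun _ => ⟨LG.on_right x y, ?_⟩⟩
      rw [h2]
      ring
    by_cases h3 : t ∈ Icc a (a + R.d x y)
    · obtain ⟨p, k1, k2⟩ := R.exists_on x y (t := t - a) (by linarith [h3.1]) (by linarith [h3.2])
      exact ⟨p, fun k => absurd k h1, fun _ k => absurd k h2, fun _ => ⟨k2, k1⟩⟩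
    · exact ⟨x, fun k => absurd k h1, fun _ k => absurd k h2, fun k => absurd k h3⟩
  choose P h1 h2 h3 using key
  refine ⟨P, h1 a rfl, fun k => h2 _ k rfl, fun s hs t ht => ?_, h3⟩
  rw [R.d_of_on (h3 s hs).1 (h3 t ht).1, (h3 s hs).2, (h3 t ht).2]
  congr 1
  ring
/-- the points of the segment between two points of an isometric path lie on the path -/
theorem exists_param {P : ℝ → R.W} {a b s u : ℝ} (h : R.IsoOn P a b) (hs : s ∈ Icc a b)
    (hu : u ∈ Icc a b) (hp : R.On p (P s) (P u)) : ∃ t ∈ uIcc s u, R.d p (P t) = 0 := by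
  have e := h s hs u hu
  have n1 := LG.d_nonneg (P s) p
  have n2 := LG.d_nonneg p (P u)
  have hp' := hp
  unfold LG.On at hp'
  have key : ∀ t ∈ uIcc s u, |s - t| = R.d (P s) p → R.d p (P t) = 0 := by
    intro t ht k
    rw [R.d_of_on hp (h.on hs hu ht), h s hs t (uIcc_subset_Icc hs hu ht), k, sub_self, abs_zero]
  rcases le_total s u with k | k
  · rw [abs_of_nonpos (by linarith)] at e
    have ht : s + R.d (P s) p ∈ uIcc s u := mem_uIcc.2 (Or.inl ⟨by linarith, by linarith⟩)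
    refine ⟨_, ht, key _ ht ?_⟩
    rw [abs_of_nonpos (by linarith)]
    ring
  · rw [abs_of_nonneg (by linarith)] at e
    have ht : s - R.d (P s) p ∈ uIcc s u := mem_uIcc.2 (Or.inr ⟨by linarith, by linarith⟩)
    refine ⟨_, ht, key _ ht ?_⟩
    rw [abs_of_nonneg (by linarith)]
    ring
/-- an element that matches the ends of two isometric paths matches the paths -/
theorem match_ends {P P' : ℝ → R.W} {a b a' b' u v : ℝ} {φ : Gm} (h : R.IsoOn P a b)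
    (h' : R.IsoOn P' a' b') (hu : u ∈ Icc a b) (hv : v ∈ Icc a b) (hu' : φ.ap u ∈ Icc a' b')
    (hv' : φ.ap v ∈ Icc a' b') (e1 : R.d (g * P u) (P' (φ.ap u)) = 0)
    (e2 : R.d (g * P v) (P' (φ.ap v)) = 0) : ∀ t ∈ uIcc u v, R.d (g * P t) (P' (φ.ap t)) = 0 := by
  intro t ht
  have ht' := TreeBA.ap_mem φ ht
  have k1 : R.On (g * P t) (P' (φ.ap u)) (P' (φ.ap v)) :=
    ((LG.on_mul_left g).2 (h.on hu hv ht)).congr (LG.d_self _) e1 e2
  rw [R.d_of_on k1 (h'.on hu' hv' ht'), ← LG.d_congr e1 (LG.d_self (g * P t)), LG.d_mul_left,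
    h u hu t (uIcc_subset_Icc hu hv ht), h' _ hu' _ (uIcc_subset_Icc hu' hv' ht'),
    TreeBA.abs_ap, sub_self, abs_zero]
/-- the isometry of the parameters that such an element induces -/
theorem exists_gm {P P' : ℝ → R.W} {a b a' b' u v u' v' : ℝ} (h : R.IsoOn P a b)
    (h' : R.IsoOn P' a' b') (hu : u ∈ Icc a b) (hv : v ∈ Icc a b) (hu' : u' ∈ Icc a' b')
    (hv' : v' ∈ Icc a' b') (e1 : R.d (g * P u) (P' u') = 0) (e2 : R.d (g * P v) (P' v') = 0) :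
    ∃ φ : Gm, φ.ap u = u' ∧ φ.ap v = v' ∧
      ∀ t ∈ uIcc u v, φ.ap t ∈ uIcc u' v' ∧ R.d (g * P t) (P' (φ.ap t)) = 0 := by
  have e : |u - v| = |u' - v'| := by
    rw [← h u hu v hv, ← h' u' hu' v' hv', ← LG.d_congr e1 e2, LG.d_mul_left]
  have key : ∃ φ : Gm, φ.ap u = u' ∧ φ.ap v = v' := by
    rcases abs_eq_abs.1 e with k | k
    · refine ⟨⟨1, u' - u, Or.inl rfl⟩, ?_, ?_⟩ <;> simp only [Gm.ap] <;> linarith
    · refine ⟨⟨-1, u' + u, Or.inr rfl⟩, ?_, ?_⟩ <;> simp only [Gm.ap] <;> linarith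
  obtain ⟨φ, rfl, rfl⟩ := key
  exact ⟨φ, rfl, rfl, fun t ht =>
    ⟨TreeBA.ap_mem φ ht, R.match_ends h h' hu hv hu' hv' e1 e2 t ht⟩⟩

end RT

end Pool.Agent.P.MP_dba3d2_lc


end

section

/-! Chapter D toolbox: the length of compact open sets of germs. -/

namespace Pool.Agent.P.MP_dba3d2_lc

open Set Filter Topology MeasureTheory

variable {a b r : ℝ} {φ γ : Gm} {U V : Set Gm}

namespace MuA

theorem sh_GI (a b : ℝ) : {t : ℝ | Gm.tau t ∈ GI a b} = Ico a b := by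
  ext t
  exact tau_mem_GI

theorem meas (hU : CO U) : MeasurableSet {t : ℝ | Gm.tau t ∈ U} := by
  refine MeasurableSet.of_mem_nhdsGT fun x hx => ?_
  obtain ⟨r, h1, h2⟩ := hU.2 _ hx
  filter_upwards [Ioo_mem_nhdsGT (show x < x + r by linarith)] with y hy
  have := h2 (Gm.tau (y - x)) (by simpa using hy.1) (by simp only [Gm.tau_c]; linarith [hy.2])
  rwa [Gm.tau_mul_tau, add_sub_cancel] at this

theorem fin (hU : CO U) : volume {t : ℝ | Gm.tau t ∈ U} ≠ ⊤ := by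
  obtain ⟨a, b, -, h⟩ := hU.bdd
  refine measure_ne_top_of_subset (s := Ico a b) (fun t ht => tau_mem_GI.1 (h ht)) ?_
  simp

theorem mu_eq (hU : CO U) : mu U = ∫ t, {t : ℝ | Gm.tau t ∈ U}.indicator 1 t :=
  (integral_indicator_one (meas hU)).symm

theorem intg (hU : CO U) : Integrable ({t : ℝ | Gm.tau t ∈ U}.indicator (1 : ℝ → ℝ)) :=
  (integrable_indicator_iff (meas hU)).2 (integrableOn_const (fin hU))

theorem count {κ : Type} [Fintype κ] {W : κ → Set Gm} (h : ∀ i, CO (W i)) (hU : CO U) (hV : CO V)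
    (m : ℕ) (k1 : ∀ γ ∈ U, m ≤ {i | γ ∈ W i}.ncard) (k2 : ∀ γ ∈ V, 1 ≤ {i | γ ∈ W i}.ncard)
    (k3 : ∀ γ ∈ U, γ ∈ V → m + 1 ≤ {i | γ ∈ W i}.ncard) : m * mu U + mu V ≤ ∑ i, mu (W i) := by
  classical
  rw [Finset.sum_congr rfl fun i _ => mu_eq (h i), ← integral_finsetSum _ fun i _ => intg (h i),
    mu_eq hU, mu_eq hV, ← integral_const_mul, ← integral_add ((intg hU).const_mul _) (intg hV)]
  refine integral_mono (((intg hU).const_mul _).add (intg hV))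
    (integrable_finsetSum _ fun i _ => intg (h i)) fun t => ?_
  have e : ∑ i, {t : ℝ | Gm.tau t ∈ W i}.indicator (1 : ℝ → ℝ) t =
      ({i | Gm.tau t ∈ W i}.ncard : ℝ) := by
    simp [indicator_apply, Set.ncard_eq_toFinset_card']
  simp only [e]
  by_cases h1 : Gm.tau t ∈ U <;> by_cases h2 : Gm.tau t ∈ V
  · simpa [h1, h2] using (Nat.cast_le (α := ℝ)).2 (k3 _ h1 h2)
  · simpa [h1, h2] using k1 _ h1
  · simpa [h1, h2] using k2 _ h2
  · simp [h1, h2]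

end MuA

open MuA

theorem mu_nonneg (U : Set Gm) : 0 ≤ mu U := measureReal_nonneg
@[simp] theorem mu_empty : mu ∅ = 0 := by simp [mu]
theorem mu_GI (h : a ≤ b) : mu (GI a b) = b - a := by
  rw [mu, sh_GI, Real.volume_real_Ico_of_le h]
theorem mu_union (hU : CO U) (hV : CO V) (h : Disjoint U V) : mu (U ∪ V) = mu U + mu V :=
  measureReal_union (h.preimage Gm.tau) (meas hV) (fin hU) (fin hV)
theorem mu_mono (hV : CO V) (h : U ⊆ V) : mu U ≤ mu V :=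
  measureReal_mono (fun _ ht => h ht) (fin hV)
theorem mu_union_le (U V : Set Gm) : mu (U ∪ V) ≤ mu U + mu V :=
  measureReal_union_le (Gm.tau ⁻¹' U) (Gm.tau ⁻¹' V)
theorem mu_diff (hU : CO U) (hV : CO V) (h : V ⊆ U) : mu (U \ V) = mu U - mu V :=
  measureReal_sdiff (s₁ := Gm.tau ⁻¹' U) (s₂ := Gm.tau ⁻¹' V) (fun _ ht => h ht) (meas hV) (fin hU)
theorem mu_tr (hU : CO U) (φ : Gm) : mu (tr φ U) = mu U := by
  rcases φ.h with e | e
  · rw [mu, mu, ← (measurePreserving_sub_right volume φ.c).measureReal_preimage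
      (meas hU).nullMeasurableSet]
    congr 1
    ext t
    have : φ⁻¹ * Gm.tau t = Gm.tau (t - φ.c) := Gm.ext (by simp [e]) (by simp [e, sub_eq_add_neg])
    simp [this]
  · obtain ⟨E, -, hE, -⟩ := exists_ends (W := fun _ : Unit => U) fun _ => hU
    rw [mu, mu, ← (Measure.measurePreserving_sub_left volume φ.c).measureReal_preimage
      (meas hU).nullMeasurableSet]
    refine measureReal_congr ?_
    have h0 : ∀ᵐ t : ℝ, t ∉ (fun s => φ.c - s) '' E :=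
      (E.finite_toSet.image _).countable.ae_notMem _
    filter_upwards [h0] with t ht
    have : φ⁻¹ * Gm.tau t = (Gm.tau (φ.c - t)).opp :=
      Gm.ext (by simp [e]) (by simp [e, sub_eq_neg_add])
    refine propext ?_
    change φ⁻¹ * Gm.tau t ∈ U ↔ Gm.tau (φ.c - t) ∈ U
    rw [this]
    exact hE () _ fun hh => ht ⟨_, hh, by simp⟩
theorem mu_seg (h : 0 ≤ r) : mu (seg γ r) = r := by
  rw [seg, mu_tr co_GI, mu_GI h, sub_zero]
theorem mu_pos (hU : CO U) (h : U.Nonempty) : 0 < mu U := by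
  obtain ⟨a, b, h1, h2⟩ := exists_GI_subset hU.2 h
  have := mu_mono hU h2
  rw [mu_GI h1.le] at this
  linarith
theorem mu_lt (hU : CO U) (hV : CO V) (h : U ⊆ V) (h1 : γ ∈ V) (h2 : γ ∉ U) : mu U < mu V := by
  have := mu_pos (hV.diff hU) ⟨γ, h1, h2⟩
  rw [mu_diff hV hU h] at this
  linarith
theorem eq_of_mu_le (hU : CO U) (hV : CO V) (h : U ⊆ V) (k : mu V ≤ mu U) : U = V :=
  h.antisymm fun _ h1 => by_contra fun h2 => absurd (mu_lt hU hV h h1 h2) (not_lt.2 k)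
theorem mu_iUnion {κ : Type} [Fintype κ] {W : κ → Set Gm} (h : ∀ i, CO (W i))
    (hd : ∀ i j, i ≠ j → Disjoint (W i) (W j)) : mu (⋃ i, W i) = ∑ i, mu (W i) := by
  have := measureReal_iUnion_fintype (μ := volume) (f := fun i => Gm.tau ⁻¹' W i)
    (fun i j e => (hd i j e).preimage Gm.tau) (fun i => meas (h i)) fun i => fin (h i)
  rwa [← preimage_iUnion] at this
theorem mu_iUnion_le {κ : Type} [Fintype κ] (W : κ → Set Gm) : mu (⋃ i, W i) ≤ ∑ i, mu (W i) := by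
  have := measureReal_iUnion_fintype_le (μ := volume) fun i => Gm.tau ⁻¹' W i
  rwa [← preimage_iUnion] at this
/-- double counting, lower bound -/
theorem mu_count_ge {κ : Type} [Fintype κ] {W : κ → Set Gm} (h : ∀ i, CO (W i)) (hU : CO U) (m : ℕ)
    (k : ∀ γ ∈ U, m ≤ {i | γ ∈ W i}.ncard) : m * mu U ≤ ∑ i, mu (W i) := by
  simpa using count h hU CO.empty m k (fun _ e => e.elim) fun _ _ e => e.elim
/-- double counting, the case of equality -/
theorem mu_count_eq {κ : Type} [Fintype κ] {W : κ → Set Gm} (h : ∀ i, CO (W i)) (hU : CO U) (m : ℕ)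
    (k : ∀ γ ∈ U, m ≤ {i | γ ∈ W i}.ncard) (e : ∑ i, mu (W i) ≤ m * mu U) :
    (∀ γ ∈ U, {i | γ ∈ W i}.ncard = m) ∧ ∀ i, W i ⊆ U := by
  have h1 : CO {γ | γ ∈ U ∧ m + 1 ≤ {i | γ ∈ W i}.ncard} := hU.sep fun γ _ => by
    have : ∀ᶠ β in 𝓝 γ, ∀ i, (β ∈ W i ↔ γ ∈ W i) := eventually_all.2 fun i => by
      by_cases hi : γ ∈ W i
      · filter_upwards [(h i).2.mem_nhds hi] with β hβ using iff_of_true hβ hi
      · filter_upwards [(h i).isClosed.isOpen_compl.mem_nhds hi] with β hβ using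
          iff_of_false hβ hi
    filter_upwards [this] with β hβ
    simp only [hβ]
  have h2 := h1.union ((CO.iUnion h).diff hU)
  have h3 := count h hU h2 m k (fun γ hγ => ?_) fun γ h4 hγ => hγ.elim And.right fun h5 =>
    absurd h4 h5.2
  · have h4 := not_nonempty_iff_eq_empty.1 fun hh => absurd (mu_pos h2 hh) (by linarith)
    rw [eq_empty_iff_forall_notMem] at h4
    refine ⟨fun γ hγ => le_antisymm (not_lt.1 fun hh => h4 γ (Or.inl ⟨hγ, hh⟩)) (k γ hγ),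
      fun i γ hγ => by_contra fun hh => h4 γ (Or.inr ⟨mem_iUnion.2 ⟨i, hγ⟩, hh⟩)⟩
  · rcases hγ with h4 | h4
    · exact (Nat.le_add_left 1 m).trans h4.2
    · exact (ncard_pos (toFinite _)).2 (mem_iUnion.1 h4.1)

end Pool.Agent.P.MP_dba3d2_lc


end
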