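import Pool.Agent.P.MP_dba3d2_lcM.Db49

section

/-! Chapter D toolbox: systems. -/

namespace Pool.Agent.P.MP_dba3d2_lc

open Set Filter Topology

namespace SysBA

variable {ι : Type} {S : Sys ι} {α β γ : Gm} {X : Set Gm}

theorem tendsto_mul (γ β : Gm) : Tendsto (fun α => β * γ⁻¹ * α) (𝓝 γ) (𝓝 β) := by
  have h := (continuous_gm_mul (β * γ⁻¹)).tendsto γ
  rwa [inv_mul_cancel_right] at h

theorem step_ev (h : S.Step γ β) : ∀ᶠ α in 𝓝 γ, S.Step α (β * γ⁻¹ * α) := by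
  obtain ⟨i, hi, rfl⟩ := h
  filter_upwards [(S.co i).2.mem_nhds hi] with α hα
  exact ⟨i, hα, by rw [mul_inv_cancel_right]⟩

theorem step_ev' (h : S.Step α β) : ∀ᶠ a in 𝓝 γ, S.Step (α * γ⁻¹ * a) (β * γ⁻¹ * a) := by
  filter_upwards [(tendsto_mul γ α).eventually (step_ev h)] with a ha
  have e : β * γ⁻¹ * a = β * α⁻¹ * (α * γ⁻¹ * a) := by group
  rw [e]
  exact ha

theorem min_dense (hX : CO X) (hne : X.Nonempty) (h : S.Inv X)
    (k : ∀ γ ∈ X, X ⊆ closure (S.orb γ)) : S.Min X := by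
  refine ⟨hX, hne, h, fun γ hγ hf => ?_, k⟩
  have h1 := k γ hγ
  rw [hf.isClosed.closure_eq] at h1
  exact infinite_of_isOpen hX.2 hne (hf.subset h1)

end SysBA

namespace Sys

variable {ι : Type} {S T : Sys ι} {i j : ι} {α β γ δ : Gm} {C U V X : Set Gm} {n m : ℕ}

theorem inv_injective (S : Sys ι) : Function.Injective S.inv := by
  intro a b h
  rw [← S.inv_inv a, h, S.inv_inv]
theorem inv_eq_iff : S.inv i = j ↔ i = S.inv j := by
  constructor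
  · intro h
    rw [← h, S.inv_inv]
  · intro h
    rw [h, S.inv_inv]
theorem φ_inv_mul (S : Sys ι) (i : ι) (γ : Gm) : S.φ (S.inv i) * (S.φ i * γ) = γ := by
  rw [S.φ_inv, inv_mul_cancel_left]
theorem φ_mul_inv (S : Sys ι) (i : ι) (γ : Gm) : S.φ i * (S.φ (S.inv i) * γ) = γ := by
  rw [S.φ_inv, mul_inv_cancel_left]
theorem mem_dom_inv : S.φ i * γ ∈ S.dom (S.inv i) ↔ γ ∈ S.dom i := by
  constructor
  · intro h
    have k := S.map _ _ h
    rwa [S.φ_inv_mul, S.inv_inv] at k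
  · exact S.map i γ
theorem dom_inv (S : Sys ι) (i : ι) : S.dom (S.inv i) = tr (S.φ i) (S.dom i) := by
  ext β
  change _ ↔ (S.φ i)⁻¹ * β ∈ S.dom i
  rw [← mem_dom_inv (S := S) (i := i) (γ := (S.φ i)⁻¹ * β), mul_inv_cancel_left]
theorem mu_dom_inv (S : Sys ι) (i : ι) : mu (S.dom (S.inv i)) = mu (S.dom i) := by
  rw [S.dom_inv, mu_tr (S.co i)]
theorem Step.symm (h : S.Step γ β) : S.Step β γ := by
  obtain ⟨i, hi, rfl⟩ := h
  exact ⟨S.inv i, S.map i γ hi, (S.φ_inv_mul i γ).symm⟩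
theorem Step.rel (h : S.Step γ β) : S.Rel γ β := Relation.ReflTransGen.single h
theorem rel_φ (h : γ ∈ S.dom i) : S.Rel γ (S.φ i * γ) := Step.rel ⟨i, h, rfl⟩
theorem Rel.refl (S : Sys ι) (γ : Gm) : S.Rel γ γ := Relation.ReflTransGen.refl
theorem Rel.trans (h : S.Rel α β) (k : S.Rel β γ) : S.Rel α γ := Relation.ReflTransGen.trans h k
theorem Rel.symm (h : S.Rel γ β) : S.Rel β γ := by
  induction h with
  | refl => exact Relation.ReflTransGen.refl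
  | tail _ k ih => exact Relation.ReflTransGen.head k.symm ih
theorem mem_orb : β ∈ S.orb γ ↔ S.Rel γ β := Iff.rfl
theorem Rel.orb_eq (h : S.Rel γ β) : S.orb γ = S.orb β := by
  ext α
  exact ⟨fun k => Rel.trans h.symm k, fun k => Rel.trans h k⟩
theorem Rel.mem (h : S.Rel γ β) (hC : S.Inv C) (hγ : γ ∈ C) : β ∈ C := by
  induction h with
  | refl => exact hγ
  | tail _ k ih =>
    obtain ⟨i, hi, rfl⟩ := k
    exact hC i _ hi ih
theorem Inv.mem_iff (hC : S.Inv C) (h : γ ∈ S.dom i) : S.φ i * γ ∈ C ↔ γ ∈ C := by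
  exact ⟨fun k => (rel_φ h).symm.mem hC k, hC i γ h⟩
theorem In.inv (h : S.In X) : S.Inv X := by
  intro i γ hγ _
  exact h _ (S.map i γ hγ)
theorem Inv.diff (h : S.Inv C) (k : S.Inv U) : S.Inv (C \ U) := by
  intro i γ hγ hm
  exact ⟨h i γ hγ hm.1, fun e => hm.2 ((k.mem_iff hγ).1 e)⟩
theorem Inv.inter (h : S.Inv C) (k : S.Inv U) : S.Inv (C ∩ U) := by
  intro i γ hγ hm
  exact ⟨h i γ hγ hm.1, k i γ hγ hm.2⟩
theorem Inv.closure (h : S.Inv C) : S.Inv (closure C) := by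
  intro i γ hγ hm
  have h1 : γ ∈ _root_.closure (S.dom i ∩ C) := (S.co i).2.inter_closure ⟨hγ, hm⟩
  exact map_mem_closure (continuous_gm_mul (S.φ i)) h1 fun β hβ => h i β hβ.1 hβ.2
theorem inv_orb (S : Sys ι) (γ : Gm) : S.Inv (S.orb γ) := by
  intro i β hβ hm
  exact Rel.trans hm (rel_φ hβ)
theorem inv_finite (S : Sys ι) : S.Inv {γ | (S.orb γ).Finite} := by
  intro i γ hγ hm
  change (S.orb _).Finite
  rw [← (rel_φ hγ).orb_eq]
  exact hm
theorem inv_infinite (S : Sys ι) : S.Inv {γ | (S.orb γ).Infinite} := by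
  intro i γ hγ hm
  change (S.orb _).Infinite
  rw [← (rel_φ hγ).orb_eq]
  exact hm
theorem orb_eq_singleton (h : ∀ i, γ ∉ S.dom i) : S.orb γ = {γ} := by
  ext β
  constructor
  · intro k
    rcases Relation.ReflTransGen.cases_head k with e | ⟨α, ⟨i, hi, _⟩, _⟩
    · exact e.symm
    · exact absurd hi (h i)
  · rintro rfl
    exact Rel.refl S _
theorem exists_dom_of_infinite (h : (S.orb γ).Infinite) : ∃ i, γ ∈ S.dom i := by
  by_contra k
  push Not at k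
  rw [orb_eq_singleton k] at h
  exact h (finite_singleton γ)
/-- a relation between systems on different index types -/
theorem rel_of_step {κ : Type} {T : Sys κ} (h : ∀ γ β, S.Step γ β → T.Rel γ β) (k : S.Rel γ β) :
    T.Rel γ β := by
  induction k with
  | refl => exact Rel.refl T _
  | tail _ k ih => exact Rel.trans ih (h _ _ k)
/-- related germs have related neighbourhoods -/
theorem Rel.eventually (h : S.Rel γ β) : ∀ᶠ α in 𝓝 γ, S.Rel α (β * γ⁻¹ * α) := by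
  induction h with
  | refl => exact Eventually.of_forall fun α => by simpa using Rel.refl S α
  | @tail b c _ k ih =>
    filter_upwards [ih, SysBA.step_ev' (γ := γ) k] with α h1 h2
    exact Relation.ReflTransGen.tail h1 h2
theorem Near.mono (h : S.Near n γ β) (k : n ≤ m) : S.Near m γ β := by
  induction k with
  | refl => exact h
  | step _ ih => exact Or.inl ih
theorem Near.rel (h : S.Near n γ β) : S.Rel γ β := by
  induction n generalizing γ with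
  | zero =>
    have e : γ = β := h
    rw [e]
    exact Rel.refl S β
  | succ n ih =>
    rcases h with h | ⟨α, h1, h2⟩
    · exact ih h
    · exact Rel.trans h1.rel (ih h2)
theorem Rel.near (h : S.Rel γ β) : ∃ n, S.Near n γ β := by
  induction h using Relation.ReflTransGen.head_induction_on with
  | refl => exact ⟨0, rfl⟩
  | head k _ ih =>
    obtain ⟨n, hn⟩ := ih
    exact ⟨n + 1, Or.inr ⟨_, k, hn⟩⟩
theorem Near.tail (h : S.Near n α β) (k : S.Step β γ) : S.Near (n + 1) α γ := by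
  induction n generalizing α with
  | zero =>
    have e : α = β := h
    rw [e]
    exact Or.inr ⟨γ, k, rfl⟩
  | succ n ih =>
    rcases h with h | ⟨a, h1, h2⟩
    · exact Or.inl (ih h)
    · exact Or.inr ⟨a, h1, ih h2⟩
theorem Near.symm (h : S.Near n γ β) : S.Near n β γ := by
  induction n generalizing γ with
  | zero => exact Eq.symm h
  | succ n ih =>
    rcases h with h | ⟨a, h1, h2⟩
    · exact Or.inl (ih h)
    · exact (ih h2).tail h1.symm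
theorem Near.eventually (h : S.Near n γ β) : ∀ᶠ α in 𝓝 γ, S.Near n α (β * γ⁻¹ * α) := by
  induction n generalizing γ with
  | zero =>
    have e : γ = β := h
    rw [e]
    exact Eventually.of_forall fun α => by
      change α = β * β⁻¹ * α
      simp
  | succ n ih =>
    rcases h with h | ⟨a, h1, h2⟩
    · exact (ih h).mono fun α k => Or.inl k
    · have h3 := (SysBA.tendsto_mul γ a).eventually (ih h2)
      filter_upwards [h3, SysBA.step_ev h1] with α k1 k2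
      refine Or.inr ⟨_, k2, ?_⟩
      have e : β * γ⁻¹ * α = β * a⁻¹ * (a * γ⁻¹ * α) := by group
      rw [e]
      exact k1
theorem finite_near [Finite ι] (S : Sys ι) (n : ℕ) (γ : Gm) : {β | S.Near n γ β}.Finite := by
  induction n generalizing γ with
  | zero =>
    refine (finite_singleton γ).subset fun β h => ?_
    exact Eq.symm h
  | succ n ih =>
    refine ((ih γ).union (finite_iUnion fun i => ih (S.φ i * γ))).subset fun β h => ?_
    rcases h with h | ⟨a, ⟨i, _, rfl⟩, h2⟩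
    · exact Or.inl h
    · exact Or.inr (mem_iUnion.2 ⟨i, h2⟩)
/-- the set of germs that reach a compact open set within `n` steps is clopen -/
theorem isClopen_near [Finite ι] (S : Sys ι) (hU : CO U) (n : ℕ) :
    IsClopen {γ | ∃ β ∈ U, S.Near n γ β} := by
  induction n with
  | zero =>
    have e : {γ | ∃ β ∈ U, S.Near 0 γ β} = U := by
      ext γ
      constructor
      · rintro ⟨β, hβ, h⟩
        have e : γ = β := h
        rw [e]
        exact hβ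
      · exact fun h => ⟨γ, h, rfl⟩
    rw [e]
    exact ⟨hU.isClosed, hU.2⟩
  | succ n ih =>
    have e : {γ | ∃ β ∈ U, S.Near (n + 1) γ β} = {γ | ∃ β ∈ U, S.Near n γ β} ∪
        ⋃ i, (S.dom i ∩ (fun γ => S.φ i * γ) ⁻¹' {γ | ∃ β ∈ U, S.Near n γ β}) := by
      ext γ
      constructor
      · rintro ⟨β, hβ, h | ⟨a, ⟨i, hi, rfl⟩, h2⟩⟩
        · exact Or.inl ⟨β, hβ, h⟩
        · exact Or.inr (mem_iUnion.2 ⟨i, hi, β, hβ, h2⟩)
      · rintro (⟨β, hβ, h⟩ | h)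
        · exact ⟨β, hβ, Or.inl h⟩
        · obtain ⟨i, hi, β, hβ, h2⟩ := mem_iUnion.1 h
          exact ⟨β, hβ, Or.inr ⟨_, ⟨i, hi, rfl⟩, h2⟩⟩
    rw [e]
    refine ih.union (isClopen_iUnion_of_finite fun i => ?_)
    exact IsClopen.inter ⟨(S.co i).isClosed, (S.co i).2⟩ (ih.preimage (continuous_gm_mul _))
/-- uniform bound for the time to reach an open set -/
theorem exists_near_bound (hC : IsCompact C) (hU : IsOpen U) (h : ∀ γ ∈ C, ∃ β ∈ U, S.Rel γ β) :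
    ∃ n, ∀ γ ∈ C, ∃ β ∈ U, S.Near n γ β := by
  have h1 : ∀ γ ∈ C, ∃ n, {α | ∃ β ∈ U, S.Near n α β} ∈ 𝓝 γ := by
    intro γ hγ
    obtain ⟨β, hβ, k⟩ := h γ hγ
    obtain ⟨n, hn⟩ := k.near
    refine ⟨n, ?_⟩
    have h3 := (SysBA.tendsto_mul γ β).eventually (hU.mem_nhds hβ)
    filter_upwards [h3, hn.eventually] with α k1 k2
    exact ⟨_, k1, k2⟩
  choose! N hN using h1
  obtain ⟨t, _, ht⟩ := hC.elim_nhds_subcover (fun γ => {α | ∃ β ∈ U, S.Near (N γ) α β}) hN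
  refine ⟨t.sup N, fun γ hγ => ?_⟩
  obtain ⟨a, ha, β, hβ, k⟩ := mem_iUnion₂.1 (ht hγ)
  exact ⟨β, hβ, k.mono (Finset.le_sup ha)⟩
theorem Min.reach (h : S.Min C) (hU : IsOpen U) (hne : (U ∩ C).Nonempty) (hγ : γ ∈ C) :
    ∃ β ∈ U ∩ C, S.Rel γ β := by
  obtain ⟨a, ha, hb⟩ := hne
  obtain ⟨β, h1, h2⟩ := mem_closure_iff.1 (h.den γ hγ hb) U hU ha
  exact ⟨β, ⟨h1, Rel.mem h2 h.inv hγ⟩, h2⟩
/-- minimality passes to a system on an open part with a bigger relation -/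
theorem Min.of_rel {κ : Type} {T : Sys κ} (h : S.Min C) (hU : CO U) (hne : U.Nonempty) (hUC : U ⊆ C)
    (hT : T.In U) (k : ∀ γ ∈ U, ∀ β ∈ U, S.Rel γ β → T.Rel γ β) : T.Min U := by
  refine SysBA.min_dense hU hne hT.inv fun γ hγ β hβ => ?_
  have h1 : β ∈ closure (U ∩ S.orb γ) := hU.2.inter_closure ⟨hβ, h.den γ (hUC hγ) (hUC hβ)⟩
  exact closure_mono (fun a ha => k γ hγ a ha.1 ha.2) h1
theorem min_of_dense (hX : CO X) (hne : X.Nonempty) (h : S.Inv X)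
    (k : ∀ γ ∈ X, X ⊆ closure (S.orb γ)) : S.Min X := by
  exact SysBA.min_dense hX hne h k

end Sys

end Pool.Agent.P.MP_dba3d2_lc


end

section

/-! Chapter D toolbox: subsystems, constructions, collapsing. -/

namespace Pool.Agent.P.MP_dba3d2_lc

open Set Filter Topology

namespace SysCA

theorem co_ev {U : Set Gm} (hU : CO U) (γ : Gm) : ∀ᶠ β in 𝓝 γ, (β ∈ U ↔ γ ∈ U) := by
  by_cases h : γ ∈ U
  · filter_upwards [hU.2.mem_nhds h] with β k
    exact iff_of_true k h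
  · filter_upwards [hU.isClosed.isOpen_compl.mem_nhds h] with β k
    exact iff_of_false k h

theorem ev_small {p : ℝ → Prop} (h : ∃ r > 0, p r) (hm : ∀ r s, r ≤ s → p s → p r) :
    ∀ᶠ r in 𝓝[>] (0 : ℝ), p r := by
  obtain ⟨r, r0, hr⟩ := h
  filter_upwards [Ioo_mem_nhdsGT r0] with s hs
  exact hm s r hs.2.le hr

end SysCA

namespace Sys

variable {ι : Type} {S T : Sys ι} {i j : ι} {α β γ δ : Gm} {C U V X : Set Gm} {n m : ℕ}

theorem Sub.refl (S : Sys ι) : S.Sub S := ⟨rfl, rfl, fun _ => Subset.rfl⟩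
theorem Sub.trans {Z : Sys ι} (h : Z.Sub T) (k : T.Sub S) : Z.Sub S :=
  ⟨h.1.trans k.1, h.2.1.trans k.2.1, fun i => (h.2.2 i).trans (k.2.2 i)⟩
theorem Sub.step (h : T.Sub S) (k : T.Step γ β) : S.Step γ β := by
  obtain ⟨i, h1, h2⟩ := k
  exact ⟨i, h.2.2 i h1, h.2.1 ▸ h2⟩
theorem Sub.rel (h : T.Sub S) (k : T.Rel γ β) : S.Rel γ β :=
  rel_of_step (fun _ _ e => (h.step e).rel) k
theorem Sub.in' (h : T.Sub S) (k : S.In X) : T.In X := fun i => (h.2.2 i).trans (k i)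
theorem Sub.tot_le [Fintype ι] (h : T.Sub S) : T.tot ≤ S.tot :=
  Finset.sum_le_sum fun i _ => mu_mono (S.co i) (h.2.2 i)
theorem Sub.tot_lt [Fintype ι] (h : T.Sub S) (h1 : γ ∈ S.dom i) (h2 : γ ∉ T.dom i) :
    T.tot < S.tot :=
  Finset.sum_lt_sum (fun i _ => mu_mono (S.co i) (h.2.2 i))
    ⟨i, Finset.mem_univ i, mu_lt (T.co i) (S.co i) (h.2.2 i) h1 h2⟩
theorem Sub.arcs {A : Gm → ℝ → ℝ → Prop} (h : T.Sub S) (k : S.Arcs A) : T.Arcs A :=
  fun i u v h1 h2 => h.2.1 ▸ k i u v h1 (h2.trans (h.2.2 i))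
theorem Sub.weak {A : Gm → ℝ → ℝ → Prop} (h : T.Sub S) (k : S.Weak A) : T.Weak A :=
  fun i γ h1 => h.2.1 ▸ k i γ (h.2.2 i h1)
theorem Sub.tree (h : T.Sub S) (k : S.Tree) : T.Tree := by
  intro i γ h1 h2
  refine k i γ (h.2.2 i h1) ?_
  rw [← h.2.1]
  refine Relation.ReflTransGen.mono ?_ _ _ h2
  rintro α β ⟨j, a1, a2⟩
  rw [h.1, h.2.1] at a2
  exact ⟨j, h.2.2 j a1, a2⟩
theorem IsCut.sub (h : T.IsCut S i U) : T.Sub S :=
  ⟨h.1, h.2.1, fun j γ k => ((h.2.2 j γ).1 k).1⟩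
theorem exists_sub (S : Sys ι) (D : ι → Set Gm) (h1 : ∀ i, CO (D i)) (h2 : ∀ i, D i ⊆ S.dom i)
    (h3 : ∀ i, ∀ γ ∈ D i, S.φ i * γ ∈ D (S.inv i)) : ∃ T : Sys ι, T.Sub S ∧ T.dom = D :=
  ⟨{ S with dom := D, co := h1, map := h3 }, ⟨rfl, rfl, h2⟩, rfl⟩
theorem exists_cut (S : Sys ι) (i : ι) (hU : CO U) : ∃ T : Sys ι, T.IsCut S i U := by
  obtain ⟨T, h1, h2⟩ := S.exists_sub
    (fun j => {γ | γ ∈ S.dom j ∧ ¬(j = i ∧ γ ∈ U) ∧ ¬(j = S.inv i ∧ S.φ j * γ ∈ U)})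
    (fun j => (S.co j).sep fun γ _ => by
      filter_upwards [SysCA.co_ev hU γ,
        ((continuous_gm_mul (S.φ j)).tendsto γ).eventually (SysCA.co_ev hU _)] with β x y
      rw [x, y])
    (fun j γ k => k.1) fun j γ k => ⟨S.map j γ k.1,
      fun e => k.2.2 ⟨inv_eq_iff.1 e.1, e.2⟩,
      fun e => k.2.1 ⟨S.inv_injective e.1, S.φ_inv_mul j γ ▸ e.2⟩⟩
  exact ⟨T, h1.1, h1.2.1, fun j γ => by rw [h2]; rfl⟩
/-- restriction to an invariant compact open set -/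
theorem exists_res (S : Sys ι) (hC : CO C) (h : S.Inv C) : ∃ T : Sys ι, T.Sub S ∧ T.In C ∧
    (∀ i, T.dom i = S.dom i ∩ C) ∧ ∀ γ ∈ C, T.orb γ = S.orb γ := by
  obtain ⟨T, h1, h2⟩ := S.exists_sub (fun i => S.dom i ∩ C) (fun i => (S.co i).inter hC)
    (fun i => inter_subset_left) fun i γ k => ⟨S.map i γ k.1, h i γ k.1 k.2⟩
  refine ⟨T, h1, fun i => h2 ▸ inter_subset_right, fun i => congrFun h2 i, fun γ hγ =>
    Subset.antisymm (fun β k => h1.rel k) fun β k => ?_⟩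
  induction k with
  | refl => exact Rel.refl T γ
  | @tail α β k1 k2 ih =>
    obtain ⟨i, a1, a2⟩ := k2
    exact Relation.ReflTransGen.tail ih ⟨i, h2 ▸ ⟨a1, Rel.mem k1 h hγ⟩, h1.2.1 ▸ a2⟩
/-- the system generated by a family of isometries with domains -/
theorem exists_mk {κ : Type} (ψ : κ → Gm) (W : κ → Set Gm) (h : ∀ k, CO (W k)) :
    ∃ T : Sys (κ × Bool), (∀ k b, T.inv (k, b) = (k, !b)) ∧ (∀ k, T.φ (k, true) = ψ k) ∧
      (∀ k, T.φ (k, false) = (ψ k)⁻¹) ∧ (∀ k, T.dom (k, true) = W k) ∧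
      (∀ k, T.dom (k, false) = tr (ψ k) (W k)) ∧
      ∀ γ β, T.Step γ β ↔ ∃ k, (γ ∈ W k ∧ β = ψ k * γ) ∨ (β ∈ W k ∧ γ = ψ k * β) := by
  refine ⟨⟨fun p => (p.1, !p.2), fun p => bif p.2 then ψ p.1 else (ψ p.1)⁻¹,
    fun p => bif p.2 then W p.1 else tr (ψ p.1) (W p.1), ?_, ?_, ?_, ?_⟩, fun _ _ => rfl,
    fun _ => rfl, fun _ => rfl, fun _ => rfl, fun _ => rfl, fun γ β => ⟨?_, ?_⟩⟩
  · rintro ⟨k, _ | _⟩ <;> rfl
  · rintro ⟨k, _ | _⟩
    · exact (_root_.inv_inv _).symm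
    · rfl
  · rintro ⟨k, _ | _⟩
    · exact (h k).tr _
    · exact h k
  · rintro ⟨k, _ | _⟩ γ hγ
    · exact hγ
    · exact mul_mem_tr.2 hγ
  · rintro ⟨⟨k, _ | _⟩, h1, rfl⟩
    · exact ⟨k, Or.inr ⟨h1, (mul_inv_cancel_left _ _).symm⟩⟩
    · exact ⟨k, Or.inl ⟨h1, rfl⟩⟩
  · rintro ⟨k, ⟨h1, rfl⟩ | ⟨h1, rfl⟩⟩
    · exact ⟨(k, true), h1, rfl⟩
    · exact ⟨(k, false), mul_mem_tr.2 h1, (inv_mul_cancel_left _ _).symm⟩
/-- the empty domains can be dropped -/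
theorem exists_drop [Fintype ι] (S : Sys ι) : ∃ (κ : Type) (_ : Fintype κ) (T : Sys κ) (e : κ → ι),
    Function.Injective e ∧ (∀ i, i ∈ range e ↔ (S.dom i).Nonempty) ∧
    Fintype.card κ = {i | (S.dom i).Nonempty}.ncard ∧ (∀ k, e (T.inv k) = S.inv (e k)) ∧
    (∀ k, T.φ k = S.φ (e k)) ∧ (∀ k, T.dom k = S.dom (e k)) ∧ (∀ γ β, T.Step γ β ↔ S.Step γ β) ∧
    T.tot = S.tot := by
  classical
  have e : ∀ i, i ∈ range (Subtype.val : {i // (S.dom i).Nonempty} → ι) ↔ (S.dom i).Nonempty :=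
    fun i => by rw [Subtype.range_val_subtype]; rfl
  refine ⟨{i // (S.dom i).Nonempty}, inferInstance,
    ⟨fun k => ⟨S.inv k.1, k.2.elim fun γ hγ => ⟨_, S.map _ γ hγ⟩⟩, fun k => S.φ k.1,
      fun k => S.dom k.1, fun k => Subtype.ext (S.inv_inv k.1), fun k => S.φ_inv k.1,
      fun k => S.co k.1, fun k => S.map k.1⟩, Subtype.val, Subtype.val_injective, e,
    ?_, fun _ => rfl, fun _ => rfl, fun _ => rfl,
    fun γ β => ⟨fun ⟨k, h⟩ => ⟨k.1, h⟩, fun ⟨i, h⟩ => ⟨⟨i, γ, h.1⟩, h⟩⟩, ?_⟩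
  · rw [← Nat.card_eq_fintype_card]
    exact Nat.card_coe_set_eq {i | (S.dom i).Nonempty}
  · refine Fintype.sum_of_injective _ Subtype.val_injective _ _ (fun i hi => ?_) fun _ => rfl
    rw [not_nonempty_iff_eq_empty.1 (mt (e i).2 hi), mu_empty]
/-- near a finite orbit the system is a product -/
theorem exists_box [Finite ι] (h : (S.orb γ).Finite) : ∃ r > 0,
    (∀ α ∈ S.orb γ, ∀ i, ∀ β ∈ seg α r, (β ∈ S.dom i ↔ α ∈ S.dom i)) ∧
    (∀ α ∈ S.orb γ, ∀ β ∈ S.orb γ, α ≠ β → Disjoint (seg α r) (seg β r)) ∧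
    ∀ δ ∈ GI 0 r, S.orb (γ * δ) = (· * δ) '' S.orb γ := by
  have e1 : ∀ᶠ r in 𝓝[>] (0 : ℝ), ∀ α ∈ S.orb γ, ∀ i, ∀ β ∈ seg α r,
      (β ∈ S.dom i ↔ α ∈ S.dom i) :=
    (eventually_all_finite h).2 fun α _ => eventually_all.2 fun i =>
      SysCA.ev_small (mem_nhds_gm.1 (SysCA.co_ev (S.co i) α))
        fun r s x y β k => y β (seg_mono x k)
  have e2 : ∀ᶠ r in 𝓝[>] (0 : ℝ), ∀ α ∈ S.orb γ, ∀ β ∈ S.orb γ, α ≠ β →
      Disjoint (seg α r) (seg β r) :=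
    (eventually_all_finite h).2 fun α _ => (eventually_all_finite h).2 fun β _ =>
      eventually_imp_distrib_left.2 fun hne => SysCA.ev_small (exists_seg_disjoint hne)
        fun r s x y => y.mono (seg_mono x) (seg_mono x)
  obtain ⟨r, r0, h1, h2⟩ := ((eventually_mem_nhdsWithin.and (e1.and e2))).exists
  refine ⟨r, r0, h1, h2, fun δ hδ => Subset.antisymm (fun β k => ?_) ?_⟩
  · induction k with
    | refl => exact ⟨γ, Rel.refl S γ, rfl⟩
    | tail _ k2 ih =>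
      obtain ⟨α, a1, rfl⟩ := ih
      obtain ⟨i, a2, rfl⟩ := k2
      exact ⟨S.φ i * α, Rel.trans a1 (rel_φ ((h1 α a1 i _ (mul_mem_seg.2 hδ)).1 a2)),
        mul_assoc _ _ _⟩
  · rintro _ ⟨α, k, rfl⟩
    induction k with
    | refl => exact Rel.refl S _
    | tail k1 k2 ih =>
      obtain ⟨i, a2, rfl⟩ := k2
      exact Relation.ReflTransGen.tail ih
        ⟨i, (h1 _ k1 i _ (mul_mem_seg.2 hδ)).2 a2, mul_assoc _ _ _⟩
theorem isOpen_finite [Finite ι] (S : Sys ι) : IsOpen {γ | (S.orb γ).Finite} := by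
  refine isOpen_iff_seg.2 fun γ h => ?_
  obtain ⟨r, r0, -, -, k⟩ := exists_box h
  refine ⟨r, r0, fun β hβ => ?_⟩
  have e := k _ (mem_seg.1 hβ)
  rw [mul_inv_cancel_left] at e
  show (S.orb β).Finite
  rw [e]
  exact Finite.image _ h
/-- collapsing a forest does not change the relation on the roots -/
theorem collapse {par : Gm → ι} {h : Gm → ℕ} (hF : S.Forest U V par h) (hS : S.In (U ∪ V))
    (hφ : T.φ = S.φ) (hc : S.Cls T V par) (hT : T.In U) (hγ : γ ∈ U) (hβ : β ∈ U)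
    (k : S.Rel γ β) : T.Rel γ β := by
  have hUV : ∀ α ∈ U, α ∉ V := fun α h1 h2 => by
    have := hF.lt α h2
    rw [hF.zero α h1] at this
    exact Nat.not_lt_zero _ this
  have key : ∃ ρ, Relation.ReflTransGen (fun a b => a ∈ V ∧ b = S.φ (par a) * a) β ρ ∧ ρ ∉ V ∧
      T.Rel γ ρ := by
    clear hβ
    induction k with
    | refl => exact ⟨γ, Relation.ReflTransGen.refl, hUV γ hγ, Rel.refl T γ⟩
    | @tail α β _ k2 ih =>
      obtain ⟨ρ, a1, a2, a3⟩ := ih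
      obtain ⟨i, b1, rfl⟩ := k2
      rcases hc i α b1 with c | ⟨c, rfl⟩ | ⟨c, c'⟩
      · rcases a1.cases_head with rfl | ⟨_, e, -⟩
        · rw [← hφ]
          exact ⟨_, Relation.ReflTransGen.refl, hUV _ (hT _ (T.map i α c)), a3.trans (rel_φ c)⟩
        · exact absurd e.1 (hUV α (hT i c))
      · rcases a1.cases_head with rfl | ⟨_, ⟨-, rfl⟩, e⟩
        · exact absurd c a2
        · exact ⟨ρ, e, a2, a3⟩
      · exact ⟨ρ, a1.head ⟨c, by rw [← c', φ_inv_mul]⟩, a2, a3⟩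
  obtain ⟨ρ, a1, -, a3⟩ := key
  rcases a1.cases_head with rfl | ⟨_, e, -⟩
  · exact a3
  · exact absurd e.1 (hUV β hβ)

end Sys

end Pool.Agent.P.MP_dba3d2_lc


end

section

/-! Chapter D toolbox: pseudogroups of arcs. -/

namespace Pool.Agent.P.MP_dba3d2_lc

open Set Filter Topology

variable {A : Gm → ℝ → ℝ → Prop} {α β γ δ φ : Gm} {u v r : ℝ}

namespace PgBA

theorem icc_of_tr {a b : ℝ} (h : u < v) (k : tr φ (GI u v) ⊆ GI a b) :
    ∀ t ∈ Icc u v, φ.ap t ∈ Icc a b := by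
  intro t ht
  rcases ht.2.lt_or_eq with e | e
  · have := c_mem_of_GI (k (mul_mem_tr.2 (tau_mem_GI.2 ⟨ht.1, e⟩)))
    rwa [Gm.mul_c', Gm.tau_c] at this
  · have := c_mem_of_GI (k (mul_mem_tr.2 (opp_tau_mem_GI.2 ⟨e ▸ h, ht.2⟩)))
    rwa [Gm.mul_c', Gm.opp_c, Gm.tau_c] at this

theorem ioo_iff : u < γ.c ∧ γ.c < v ↔ γ ∈ GI u v ∧ γ.opp ∈ GI u v := by
  refine ⟨fun h => ⟨mem_GI_of_Ioo h.1 h.2, mem_GI_of_Ioo (by simpa using h.1) (by simpa using h.2)⟩,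
    fun h => ?_⟩
  rcases γ.h with e | e
  · have e' : γ.opp.ε = -1 := by rw [Gm.opp_eps, e]
    rw [mem_GI_pos e, mem_GI_neg e', Gm.opp_c] at h
    exact ⟨h.2.1, h.1.2⟩
  · have e' : γ.opp.ε = 1 := by rw [Gm.opp_eps, e, neg_neg]
    rw [mem_GI_neg e, mem_GI_pos e', Gm.opp_c] at h
    exact ⟨h.1.1, h.2.2⟩

theorem exists_tr (φ : Gm) (h : u < v) : ∃ a b, tr φ (GI u v) = GI a b := ⟨_, _, tr_GI h.le⟩

end PgBA

open PgBA

theorem RW2.rw (h : RW2 A γ β) : RW A γ β := by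
  obtain ⟨u, v, h1, h2, h3⟩ := h
  exact ⟨u, v, mem_GI_of_Ioo h1 h2, h3⟩
theorem RW2.opp (h : RW2 A γ β) : RW2 A γ.opp β.opp := by
  obtain ⟨u, v, h1, h2, h3⟩ := h
  have e : β.opp * γ.opp⁻¹ = β * γ⁻¹ := by
    unfold Gm.opp
    group
  exact ⟨u, v, by simpa using h1, by simpa using h2, e ▸ h3⟩
theorem RW.eventually (h : RW A γ β) : ∀ᶠ α in 𝓝 γ, RW A α (β * γ⁻¹ * α) := by
  obtain ⟨u, v, h1, h2⟩ := h
  filter_upwards [isOpen_GI.mem_nhds h1] with α hα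
  exact ⟨u, v, hα, by rwa [mul_inv_cancel_right]⟩
/-- a little further along the germ the move is two sided -/
theorem RW.rw2 (h : RW A γ β) : ∃ r > 0, ∀ δ : Gm, 0 < δ.c → δ.c < r → RW2 A (γ * δ) (β * δ) := by
  obtain ⟨u, v, h1, h2⟩ := h
  obtain ⟨r, hr, k⟩ := mem_GI_iff.1 h1
  refine ⟨r, hr, fun δ d1 d2 => ?_⟩
  have e : β * δ * (γ * δ)⁻¹ = β * γ⁻¹ := by group
  have m : ∀ d : Gm, d ∈ GI 0 r → γ * d ∈ GI u v := fun d hd => mul_mem_GI hd k
  have k2 := ioo_iff.1 (⟨d1, d2⟩ : (0 : ℝ) < δ.c ∧ δ.c < r)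
  have k3 := ioo_iff.2 (⟨m _ k2.1, by rw [← Gm.mul_opp]; exact m _ k2.2⟩ :
    γ * δ ∈ GI u v ∧ (γ * δ).opp ∈ GI u v)
  exact ⟨u, v, k3.1, k3.2, e ▸ h2⟩
theorem rw_of_arc (h : A φ u v) (k : γ ∈ GI u v) : RW A γ (φ * γ) :=
  ⟨u, v, k, by rwa [mul_inv_cancel_right]⟩
theorem rw2_of_arc (h : A φ u v) (h1 : u < γ.c) (h2 : γ.c < v) : RW2 A γ (φ * γ) :=
  ⟨u, v, h1, h2, by rwa [mul_inv_cancel_right]⟩

namespace PgBA

theorem arc_of_subset (P : PG A) (h : A φ u v) {a b : ℝ} (h1 : a < b) (h2 : GI a b ⊆ GI u v) :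
    A φ a b :=
  P.sub _ _ _ _ _ h ((GI_subset_iff h1).1 h2).1 h1 ((GI_subset_iff h1).1 h2).2

theorem arc_inv (P : PG A) (h : A φ u v) {a b : ℝ} (h1 : a < b) (h2 : GI a b ⊆ tr φ (GI u v)) :
    A φ⁻¹ a b := by
  refine P.inv _ _ _ _ _ h h1 (icc_of_tr h1 ?_)
  have := tr_mono (φ := φ⁻¹) h2
  rwa [tr_tr, inv_mul_cancel, tr_one] at this

theorem arc_comp (P : PG A) {ψ : Gm} {a b : ℝ} (h : A φ u v) (k : A ψ a b)
    (h2 : tr φ (GI u v) ⊆ GI a b) : A (ψ * φ) u v :=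
  P.comp _ _ _ _ _ _ h k (icc_of_tr (P.lt _ _ _ h) h2)

theorem symm_aux (P : PG A) (h : A φ u v) :
    ∃ a b, (∀ γ ∈ GI u v, φ * γ ∈ GI a b) ∧ ∀ γ ∈ GI u v, A φ⁻¹ a b := by
  obtain ⟨a, b, e⟩ := exists_tr φ (P.lt _ _ _ h)
  have m : ∀ γ ∈ GI u v, φ * γ ∈ GI a b := fun γ hγ => e ▸ mul_mem_tr.2 hγ
  exact ⟨a, b, m, fun γ hγ => arc_inv P h (lt_of_mem_GI (m γ hγ)) e.ge⟩

theorem trans_aux (P : PG A) {ψ : Gm} {a b : ℝ} (h : A φ u v) (k : A ψ a b) :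
    ∃ s t, (∀ γ ∈ GI u v, φ * γ ∈ GI a b → γ ∈ GI s t) ∧ (s < t → A (ψ * φ) s t) := by
  obtain ⟨a', b', e⟩ := exists_tr φ⁻¹ (P.lt _ _ _ k)
  refine ⟨max u a', min v b', fun γ h1 h2 => ?_, fun hst => ?_⟩
  · rw [← GI_inter, ← e]
    exact ⟨h1, mem_tr.2 (by rwa [inv_inv])⟩
  · refine arc_comp P (arc_of_subset P h hst ?_) k ?_
    · rw [← GI_inter]
      exact inter_subset_left
    · rw [← GI_inter, ← e]
      have := tr_mono (φ := φ) (inter_subset_right : GI u v ∩ tr φ⁻¹ (GI a b) ⊆ _)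
      rwa [tr_tr, mul_inv_cancel, tr_one] at this

end PgBA

namespace PG

theorem rw_symm (P : PG A) (h : RW A γ β) : RW A β γ := by
  obtain ⟨u, v, h1, h2⟩ := h
  obtain ⟨a, b, k1, k2⟩ := symm_aux P h2
  have m := k1 γ h1
  have k3 := k2 γ h1
  rw [inv_mul_cancel_right] at m
  rw [mul_inv_rev, inv_inv] at k3
  exact ⟨a, b, m, k3⟩
theorem rw_trans (P : PG A) (h : RW A α β) (k : RW A β γ) : RW A α γ := by
  obtain ⟨u, v, h1, h2⟩ := h
  obtain ⟨a, b, k1, k2⟩ := k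
  obtain ⟨s, t, m1, m2⟩ := trans_aux P h2 k2
  have m := m1 α h1 (by rwa [inv_mul_cancel_right])
  have e : γ * β⁻¹ * (β * α⁻¹) = γ * α⁻¹ := by group
  exact ⟨s, t, m, e ▸ m2 (lt_of_mem_GI m)⟩
theorem rw2_symm (P : PG A) (h : RW2 A γ β) : RW2 A β γ := by
  obtain ⟨u, v, h0, h1, h2⟩ := h
  obtain ⟨a, b, k1, k2⟩ := symm_aux P h2
  have o := ioo_iff.1 ⟨h0, h1⟩
  have m := k1 γ o.1
  have m' := k1 _ o.2
  have k3 := k2 γ o.1
  rw [Gm.mul_opp] at m'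
  rw [inv_mul_cancel_right] at m m'
  rw [mul_inv_rev, inv_inv] at k3
  have o' := ioo_iff.2 ⟨m, m'⟩
  exact ⟨a, b, o'.1, o'.2, k3⟩
theorem rw2_trans (P : PG A) (h : RW2 A α β) (k : RW2 A β γ) : RW2 A α γ := by
  obtain ⟨u, v, h0, h1, h2⟩ := h
  obtain ⟨a, b, k0, k1, k2⟩ := k
  obtain ⟨s, t, m1, m2⟩ := trans_aux P h2 k2
  have o := ioo_iff.1 ⟨h0, h1⟩
  have o1 := ioo_iff.1 ⟨k0, k1⟩
  have m := m1 α o.1 (by rw [inv_mul_cancel_right]; exact o1.1)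
  have m' := m1 _ o.2 (by rw [Gm.mul_opp, inv_mul_cancel_right]; exact o1.2)
  have e : γ * β⁻¹ * (β * α⁻¹) = γ * α⁻¹ := by group
  have o' := ioo_iff.2 ⟨m, m'⟩
  exact ⟨s, t, o'.1, o'.2, e ▸ m2 (lt_of_mem_GI m)⟩
theorem rw_seg (P : PG A) (h : RW A γ β) :
    ∃ r > 0, ∀ u v, u < v → GI u v ⊆ seg γ r → A (β * γ⁻¹) u v := by
  obtain ⟨a, b, h1, h2⟩ := h
  obtain ⟨r, hr, k⟩ := isOpen_iff_seg.1 isOpen_GI γ h1
  exact ⟨r, hr, fun u v h3 h4 => PgBA.arc_of_subset P h2 h3 (h4.trans k)⟩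
theorem arc_of_subset (P : PG A) (h : A φ u v) {a b : ℝ} (h1 : a < b) (h2 : GI a b ⊆ GI u v) :
    A φ a b :=
  PgBA.arc_of_subset P h h1 h2
/-- inverses and composites in terms of sets of germs -/
theorem arc_inv (P : PG A) (h : A φ u v) {a b : ℝ} (h1 : a < b) (h2 : GI a b ⊆ tr φ (GI u v)) :
    A φ⁻¹ a b :=
  PgBA.arc_inv P h h1 h2
theorem arc_comp (P : PG A) {ψ : Gm} {a b : ℝ} (h : A φ u v) (k : A ψ a b)
    (h2 : tr φ (GI u v) ⊆ GI a b) : A (ψ * φ) u v :=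
  PgBA.arc_comp P h k h2
/-- local arcs glue -/
theorem arc_of_local (P : PG A) (h : u < v) (h1 : ∀ γ ∈ GI u v, RW A γ (φ * γ))
    (h2 : ∀ γ : Gm, u < γ.c → γ.c < v → RW2 A γ (φ * γ)) : A φ u v := by
  have key : v = u ∨ A φ u v := by
    refine real_ind (p := fun t => t = u ∨ A φ u t) h.le (Or.inl rfl) ?_ ?_
    · intro t t1 t2 ht
      rcases t1.eq_or_lt with e | e
      · subst e
        obtain ⟨a, b, k1, k2⟩ := h1 _ (tau_mem_GI.2 ⟨le_rfl, h⟩)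
        rw [mul_inv_cancel_right] at k2
        rw [tau_mem_GI] at k1
        refine ⟨b - u, sub_pos.2 k1.2, fun s s1 s2 => Or.inr ?_⟩
        exact P.sub _ _ _ _ _ k2 k1.1 (by linarith) (by linarith)
      · have ht' : A φ u t := ht.resolve_left e.ne'
        obtain ⟨a, b, k1, k2, k3⟩ := h2 (Gm.tau t) e t2
        rw [mul_inv_cancel_right] at k3
        rw [Gm.tau_c] at k1 k2
        refine ⟨b - t, sub_pos.2 k2, fun s s1 s2 => Or.inr ?_⟩
        have m : max u a < t := max_lt e k1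
        refine P.glue _ _ _ (max u a) _ ht' ?_ (le_max_left _ _) m (by linarith)
        exact P.sub _ _ _ _ _ k3 (le_max_right _ _) (by linarith) (by linarith)
    · intro t t1 t2 ht
      obtain ⟨a, b, k1, k2⟩ := h1 _ (opp_tau_mem_GI.2 ⟨t1, t2⟩)
      rw [mul_inv_cancel_right] at k2
      rw [opp_tau_mem_GI] at k1
      have m : max u a < t := max_lt t1 k1.1
      obtain ⟨s, s1, s2⟩ := exists_between m
      have s0 : u < s := (le_max_left _ _).trans_lt s1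
      refine Or.inr (P.glue _ _ s (max u a) _ ((ht s s0.le s2).resolve_left s0.ne') ?_
        (le_max_left _ _) s1 s2.le)
      exact P.sub _ _ _ _ _ k2 (le_max_right _ _) m k1.2
  exact key.resolve_left h.ne'
theorem arcs_of_intv (P : PG A) {ι : Type} {S : Sys ι} (h : S.Intv A) : S.Arcs A := by
  intro i u v h1 h2
  rcases h i with e | ⟨a, b, e, k⟩
  · rw [e] at h2
    obtain ⟨γ, hγ⟩ := GI_nonempty.2 h1
    exact absurd (h2 hγ) (notMem_empty _)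
  · exact P.arc_of_subset k h1 (e ▸ h2)
theorem rw_of_rel (P : PG A) {ι : Type} {S : Sys ι} (h : S.Weak A) (k : S.Rel γ β)
    (h0 : RW A γ γ) : RW A γ β := by
  induction k with
  | refl => exact h0
  | tail _ s ih =>
    obtain ⟨i, h1, rfl⟩ := s
    exact P.rw_trans ih (h i _ h1)
theorem rw_of_rel' (P : PG A) {ι : Type} {S : Sys ι} (h : S.Weak A) (k : S.Rel γ β)
    (h0 : ∃ i, γ ∈ S.dom i) : RW A γ β := by
  obtain ⟨i, hi⟩ := h0
  exact P.rw_of_rel h k (P.rw_trans (h i γ hi) (P.rw_symm (h i γ hi)))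

end PG

theorem Sys.Intv.weak {ι : Type} {S : Sys ι} (h : S.Intv A) : S.Weak A := by
  intro i γ hγ
  rcases h i with e | ⟨a, b, e, k⟩
  · rw [e] at hγ
    exact absurd hγ (notMem_empty _)
  · exact rw_of_arc k (e ▸ hγ)
theorem Sys.Arcs.weak {ι : Type} {S : Sys ι} (h : S.Arcs A) : S.Weak A := by
  intro i γ hγ
  obtain ⟨r, hr, k⟩ := isOpen_iff_seg.1 (S.co i).2 γ hγ
  have m : γ ∈ seg γ r := self_mem_seg hr
  rw [seg_eq_GI hr.le] at k m
  exact rw_of_arc (h i _ _ (lt_of_mem_GI m) k) m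

end Pool.Agent.P.MP_dba3d2_lc


end
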