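import Pool.Agent.P.MP_dba3d2_lcM.Db47
import Pool.Agent.P.MP_dba3d2_lcM.Db48
import Pool.Agent.P.MP_dba3d2_lcM.Db49
import Pool.Agent.P.MP_dba3d2_lcM.Db51

section

/-! Step D_SECT of the stability project. -/

namespace Pool.Agent.P.MP_dba3d2_lc

open Set Filter Topology

theorem p_D_SECT :
    S_D_SECT := by
  classical
  intro R A
  choose P0 h1 h2 h3 _ using fun (w : R.W) (s : ℝ) => R.exists_path 1 w s
  have e : ∀ w : R.W, R.d 1 w = R.ℓ w := fun w => by rw [LG.d, inv_one, one_mul]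
  simp only [e] at h2 h3
  set B : ℝ := 1 + ∑ w ∈ A, R.ℓ w with hB
  have lt : ∀ w ∈ A, R.ℓ w < B := fun w hw => by
    have := Finset.single_le_sum (f := R.ℓ) (fun x _ => LG.l_nonneg x) hw
    linarith
  let n : R.W → ℕ := fun w => if h : w ∈ A then (A.equivFin ⟨w, h⟩ : ℕ) else 0
  have inj : ∀ w ∈ A, ∀ w' ∈ A, n w = n w' → w = w' := fun w hw w' hw' h => by
    simp only [n, dif_pos hw, dif_pos hw'] at h
    exact congrArg Subtype.val (A.equivFin.injective (Fin.ext h))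
  have dj : ∀ w ∈ A, ∀ w' ∈ A, ∀ t, t ∈ Icc (B * n w) (B * n w + R.ℓ w) →
      t ∈ Icc (B * n w') (B * n w' + R.ℓ w') → w = w' := by
    have key : ∀ w ∈ A, ∀ w' ∈ A, ∀ t, t ∈ Icc (B * n w) (B * n w + R.ℓ w) →
        t ∈ Icc (B * n w') (B * n w' + R.ℓ w') → n w' ≤ n w := by
      intro w hw w' _ t k k'
      by_contra c
      have c1 : (n w : ℝ) + 1 ≤ n w' := by exact_mod_cast not_le.1 c
      have b0 : 0 < B := (LG.l_nonneg w).trans_lt (lt w hw)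
      have := mul_le_mul_of_nonneg_left c1 b0.le
      linarith [k.2, k'.1, lt w hw]
    exact fun w hw w' hw' t k k' =>
      inj w hw w' hw' (le_antisymm (key w' hw' w hw t k' k) (key w hw w' hw' t k k'))
  let P : ℝ → R.W := fun t =>
    if h : ∃ w ∈ A, t ∈ Icc (B * n w) (B * n w + R.ℓ w) then P0 h.choose (B * n h.choose) t else 1
  have hP : ∀ w ∈ A, ∀ t ∈ Icc (B * n w) (B * n w + R.ℓ w), P t = P0 w (B * n w) t := by
    intro w hw t ht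
    have h : ∃ w ∈ A, t ∈ Icc (B * n w) (B * n w + R.ℓ w) := ⟨w, hw, ht⟩
    simp only [P, dif_pos h]
    rw [dj _ h.choose_spec.1 w hw t h.choose_spec.2 ht]
  refine ⟨P, fun w => B * n w, fun w hw h => ?_, fun w hw h => ?_, fun w hw s hs t ht => ?_, dj⟩
  · rw [hP w hw _ ⟨le_rfl, by linarith⟩, h1]
  · rw [hP w hw _ ⟨by linarith, le_rfl⟩, h2 w _ h]
  · rw [hP w hw s hs, hP w hw t ht]
    exact h3 w _ s hs t ht

end Pool.Agent.P.MP_dba3d2_lc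


end

section

/-! Step D_SETUP of the stability project. -/

namespace Pool.Agent.P.MP_dba3d2_lc

open Set Filter Topology

namespace D_setupA

open Classical in
/-- the point of the section of `w` at distance `s` -/
noncomputable def pt (R : LG) (P : ℝ → R.W) (a : R.W → ℝ) (w : R.W) (s : ℝ) : R.W :=
  if R.ℓ w = 0 then 1 else P (a w + s)

open Classical in
/-- the value at this point -/
noncomputable def val (R : LG) (a : R.W → ℝ) {G : Type} [Group G] (n : ℝ → G) (w : R.W) (s : ℝ) :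
    G :=
  if R.ℓ w = 0 then 1 else (n (a w))⁻¹ * n (a w + s)

/-- the sections -/
structure Sec (R : LG) (P : ℝ → R.W) (a : R.W → ℝ) (A : Finset R.W) : Prop where
  start : ∀ w ∈ A, 0 < R.ℓ w → P (a w) = 1
  stop : ∀ w ∈ A, 0 < R.ℓ w → P (a w + R.ℓ w) = w
  iso : ∀ w ∈ A, R.IsoOn P (a w) (a w + R.ℓ w)

/-- the data of a band -/
structure Bd (R : LG) where
  w : R.W
  w' : R.W
  g : R.W
  φ : Gm
  s : ℝ
  t : ℝ
  s' : ℝ
  t' : ℝ

structure Bd.Ok {R : LG} (b : Bd R) (P : ℝ → R.W) (a : R.W → ℝ) (A : Finset R.W) : Prop where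
  hw : b.w ∈ A
  hw' : b.w' ∈ A
  s0 : 0 ≤ b.s
  st : b.s ≤ b.t
  t1 : b.t ≤ R.ℓ b.w
  hs' : b.s' ∈ Icc 0 (R.ℓ b.w')
  ht' : b.t' ∈ Icc 0 (R.ℓ b.w')
  es : b.φ.ap (a b.w + b.s) = a b.w' + b.s'
  et : b.φ.ap (a b.w + b.t) = a b.w' + b.t'
  ds : R.d (b.g * pt R P a b.w b.s) (pt R P a b.w' b.s') = 0
  dt : R.d (b.g * pt R P a b.w b.t) (pt R P a b.w' b.t') = 0

/-- the relation that a band imposes -/
def Bd.Eq {R : LG} (b : Bd R) (P : ℝ → R.W) (a : R.W → ℝ) {G : Type} [Group G] (j : R.W → G)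
    (n : ℝ → G) : Prop :=
  val R a n b.w' b.s' * j ((pt R P a b.w' b.s')⁻¹ * b.g * pt R P a b.w b.s) *
      (val R a n b.w b.s)⁻¹ =
    val R a n b.w' b.t' * j ((pt R P a b.w' b.t')⁻¹ * b.g * pt R P a b.w b.t) *
      (val R a n b.w b.t)⁻¹

section
variable {R : LG} {P : ℝ → R.W} {a : R.W → ℝ} {A : Finset R.W} {w : R.W} {s : ℝ} {b : Bd R}
  {G : Type} [Group G] {j : R.W → G} {n : ℝ → G}

theorem pos_of_ne (h : R.ℓ w ≠ 0) : 0 < R.ℓ w := lt_of_le_of_ne (LG.l_nonneg w) h.symm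

theorem Sec.pt_zero (H : Sec R P a A) (hw : w ∈ A) : pt R P a w 0 = 1 := by
  unfold pt
  split_ifs with h
  · rfl
  · rw [add_zero, H.start w hw (pos_of_ne h)]

theorem val_zero : val R a n w 0 = 1 := by
  unfold val
  split_ifs <;> simp

theorem Sec.on (H : Sec R P a A) (hw : w ∈ A) (h0 : 0 ≤ s) (h1 : s ≤ R.ℓ w) :
    R.On (pt R P a w s) 1 w ∧ R.d 1 (pt R P a w s) = s := by
  unfold pt
  split_ifs with h
  · exact ⟨LG.on_left _ _, by rw [LG.d_self]; linarith⟩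
  · have h2 := pos_of_ne h
    have m1 : a w ∈ Icc (a w) (a w + R.ℓ w) := ⟨le_rfl, by linarith⟩
    have m2 : a w + R.ℓ w ∈ Icc (a w) (a w + R.ℓ w) := ⟨by linarith, le_rfl⟩
    have m3 : a w + s ∈ Icc (a w) (a w + R.ℓ w) := ⟨by linarith, by linarith⟩
    have e1 := (H.iso w hw).on m1 m2 (Icc_subset_uIcc m3)
    have e2 := H.iso w hw _ m1 _ m3
    rw [H.start w hw h2] at e1 e2
    rw [H.stop w hw h2] at e1
    exact ⟨e1, by rw [e2, abs_of_nonpos (by linarith)]; ring⟩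

theorem Sec.d_end (H : Sec R P a A) (hw : w ∈ A) : R.d (pt R P a w (R.ℓ w)) w = 0 := by
  obtain ⟨h1, h2⟩ := H.on hw (LG.l_nonneg w) le_rfl
  unfold LG.On at h1
  rw [h2, LG.d_one] at h1
  linarith

theorem Sec.io_eq (H : Sec R P a A) (hw : w ∈ A) (h1 : j 1 = 1) :
    R.io a j n w = val R a n w (R.ℓ w) * j ((pt R P a w (R.ℓ w))⁻¹ * w) := by
  unfold LG.io val pt
  split_ifs with h
  · simp
  · rw [H.stop w hw (pos_of_ne h), inv_mul_cancel, h1, mul_one]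

theorem Bd.Ok.ne (h : b.Ok P a A) (hst : b.s < b.t) :
    b.s' ≠ b.t' ∧ R.ℓ b.w ≠ 0 ∧ R.ℓ b.w' ≠ 0 := by
  have h1 : b.s' ≠ b.t' := fun e => by
    have := b.φ.ap_injective (h.es.trans (e ▸ h.et.symm))
    linarith
  exact ⟨h1, by linarith [h.s0, h.t1, hst] |> fun (k : 0 < R.ℓ b.w) => k.ne', fun e => h1 (by
    linarith [h.hs'.1, h.hs'.2, h.ht'.1, h.ht'.2])⟩

theorem Bd.Ok.eq (h : b.Ok P a A)
    (k : b.s < b.t → n (b.φ.ap (a b.w + b.s)) * j (R.zeta P b.g b.φ (a b.w + b.s)) *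
      (n (a b.w + b.s))⁻¹ = n (b.φ.ap (a b.w + b.t)) * j (R.zeta P b.g b.φ (a b.w + b.t)) *
      (n (a b.w + b.t))⁻¹) : b.Eq P a j n := by
  rcases h.st.eq_or_lt with e | e
  · have e' : b.s' = b.t' := by
      have := h.es
      rw [e, h.et] at this
      linarith
    rw [Bd.Eq, e, e']
  · obtain ⟨-, h1, h2⟩ := h.ne e
    have k' := k e
    simp only [LG.zeta, h.es, h.et] at k'
    simp only [Bd.Eq, val, pt, if_neg h1, if_neg h2, mul_inv_rev, inv_inv]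
    calc _ = (n (a b.w'))⁻¹ * (n (a b.w' + b.s') *
          j ((P (a b.w' + b.s'))⁻¹ * b.g * P (a b.w + b.s)) * (n (a b.w + b.s))⁻¹) * n (a b.w) := by
          simp only [mul_assoc]
      _ = _ := by rw [k']; simp only [mul_assoc]

end

variable {R : RT} {P : ℝ → R.W} {a : R.W → ℝ} {A : Finset R.W} {w w' : R.W} {b : Bd R.toLG}

theorem Bd.Ok.rl (H : Sec R.toLG P a A) (h : b.Ok P a A) (hst : b.s < b.t) :
    R.Rl P b.g b.φ (a b.w + b.s) (a b.w + b.t) := by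
  obtain ⟨-, h1, h2⟩ := h.ne hst
  have e1 := h.ds
  have e2 := h.dt
  simp only [pt, if_neg h1, if_neg h2, ← h.es, ← h.et] at e1 e2
  intro t ht
  refine R.match_ends (H.iso _ h.hw) (H.iso _ h.hw') ?_ ?_ ?_ ?_ e1 e2 t (Icc_subset_uIcc ht)
  · exact ⟨by linarith [h.s0], by linarith [h.t1]⟩
  · exact ⟨by linarith [h.s0], by linarith [h.t1]⟩
  · rw [h.es]; exact ⟨by linarith [h.hs'.1], by linarith [h.hs'.2]⟩
  · rw [h.et]; exact ⟨by linarith [h.ht'.1], by linarith [h.ht'.2]⟩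

/-- the three bands of a triangle -/
theorem tri (H : Sec R.toLG P a A) (hw : w ∈ A) (hw' : w' ∈ A) (hw'' : w * w' ∈ A) :
    ∃ b : Fin 3 → Bd R.toLG, (∀ i, (b i).Ok P a A) ∧
      ∀ (G : Type) [Group G] (j : R.W → G) (n : ℝ → G),
        (∀ z z', R.ℓ z = 0 → R.ℓ z' = 0 → j (z * z') = j z * j z') → (∀ i, (b i).Eq P a j n) →
        R.io a j n (w * w') = R.io a j n w * R.io a j n w' := by
  obtain ⟨m, m1, m2, m3⟩ := R.exists_centre 1 w (w * w')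
  have a0 : 0 ≤ R.d 1 m := LG.d_nonneg _ _
  have b0 : 0 ≤ R.d w m := LG.d_nonneg _ _
  have c0 : 0 ≤ R.d m (w * w') := LG.d_nonneg _ _
  have l1 : R.d 1 m + R.d w m = R.ℓ w := by rw [LG.d_comm w m, ← LG.d_one]; exact m1
  have l2 : R.d w m + R.d m (w * w') = R.ℓ w' := by
    rw [← LG.d_one, ← LG.d_mul_left w 1 w', mul_one]; exact m2
  have l3 : R.d 1 m + R.d m (w * w') = R.ℓ (w * w') := by rw [← LG.d_one]; exact m3
  generalize hα : R.d 1 m = α at *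
  generalize hβ : R.d w m = β at *
  generalize R.d m (w * w') = γ at *
  obtain ⟨o1, d1⟩ := H.on (s := α) hw a0 (by linarith)
  obtain ⟨o2, d2⟩ := H.on (s := β) hw' b0 (by linarith)
  obtain ⟨o3, d3⟩ := H.on (s := α) hw'' a0 (by linarith)
  have z1 : R.d (pt R.toLG P a w α) m = 0 := by rw [R.d_of_on o1 m1, d1, hα, sub_self, abs_zero]
  have z3 : R.d (pt R.toLG P a (w * w') α) m = 0 := by
    rw [R.d_of_on o3 m3, d3, hα, sub_self, abs_zero]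
  have z2 : R.d (w * pt R.toLG P a w' β) m = 0 := by
    have o2' := (LG.on_mul_left w).2 o2
    have d2' := (LG.d_mul_left w _ _).trans d2
    rw [mul_one] at o2' d2'
    rw [R.d_of_on o2' m2, d2', hβ, sub_self, abs_zero]
  have z13 := LG.d_zero_trans z1 (LG.d_zero_symm z3)
  have z21 := LG.d_zero_trans z2 (LG.d_zero_symm z1)
  have z23 := LG.d_zero_trans z2 (LG.d_zero_symm z3)
  have ze : R.d (w * pt R.toLG P a w' (R.ℓ w')) (pt R.toLG P a (w * w') (R.ℓ (w * w'))) = 0 :=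
    LG.d_zero_trans ((LG.d_mul_left w _ _).trans (H.d_end hw')) (LG.d_zero_symm (H.d_end hw''))
  refine ⟨![⟨w, w * w', 1, Gm.tau (a (w * w') - a w), 0, α, 0, α⟩,
    ⟨w', w, w, ⟨-1, a w + R.ℓ w + a w', Or.inr rfl⟩, 0, β, R.ℓ w, α⟩,
    ⟨w', w * w', w, Gm.tau (a (w * w') + α - a w' - β), β, R.ℓ w', α, R.ℓ (w * w')⟩],
    fun i => ?_, fun G _ j n hj hE => ?_⟩
  · fin_cases i
    · refine ⟨hw, hw'', le_rfl, a0, ?_, ⟨le_rfl, LG.l_nonneg _⟩, ⟨a0, ?_⟩, ?_, ?_, ?_, ?_⟩ <;>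
        dsimp
      · linarith
      · linarith
      · rw [Gm.tau_ap]; ring
      · rw [Gm.tau_ap]; ring
      · rw [H.pt_zero hw, H.pt_zero hw'', one_mul, LG.d_self]
      · rw [one_mul]; exact z13
    · refine ⟨hw', hw, le_rfl, b0, ?_, ⟨LG.l_nonneg _, le_rfl⟩, ⟨a0, ?_⟩, ?_, ?_, ?_, z21⟩ <;>
        dsimp
      · linarith
      · linarith
      · simp only [Gm.ap]; ring
      · simp only [Gm.ap]; linarith
      · rw [H.pt_zero hw', mul_one]; exact LG.d_zero_symm (H.d_end hw)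
    · refine ⟨hw', hw'', b0, ?_, le_rfl, ⟨a0, ?_⟩, ⟨LG.l_nonneg _, le_rfl⟩, ?_, ?_, z23, ze⟩ <;>
        dsimp
      · linarith
      · linarith
      · rw [Gm.tau_ap]; ring
      · rw [Gm.tau_ap]; linarith
  have j1 : j 1 = 1 := by
    have := hj 1 1 R.l_one R.l_one
    rw [mul_one] at this
    exact left_eq_mul.1 this
  have E1 := hE 0
  have E2 := hE 1
  have E3 := hE 2
  simp only [Bd.Eq, Matrix.cons_val_zero, Matrix.cons_val_one, Matrix.cons_val, val_zero,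
    H.pt_zero hw, H.pt_zero hw', H.pt_zero hw'', inv_one, mul_one, one_mul, j1] at E1 E2 E3
  have J1 := hj _ _ (LG.d_zero_symm z13) (LG.d_zero_symm z21)
  have J2 := hj _ _ (LG.d_zero_symm ze) (H.d_end hw')
  rw [H.io_eq hw j1, H.io_eq hw' j1, H.io_eq hw'' j1, E2]
  simp only [mul_assoc, mul_inv_cancel_left] at J1 J2 E1 E3 ⊢
  rw [J1] at E3
  rw [J2]
  generalize val R.toLG a n (w * w') α = X3 at *
  generalize val R.toLG a n w α = X1 at *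
  generalize j ((pt R.toLG P a (w * w') α)⁻¹ * pt R.toLG P a w α) = c at *
  have e : X1 = X3 * c := by
    rw [← mul_assoc, eq_mul_inv_iff_mul_eq, one_mul] at E1
    exact E1
  have key : ∀ V'' q V' r c' X2 : G, X3 * (c * c' * X2⁻¹) = V'' * (q * V'⁻¹) →
      V'' * (q * r) = X3 * c * (c' * (X2⁻¹ * (V' * r))) := fun V'' q V' r c' X2 h => by
    calc V'' * (q * r) = V'' * (q * V'⁻¹) * (V' * r) := by group
      _ = _ := by rw [← h]; group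
  rw [e]
  exact key _ _ _ _ _ _ E3

end D_setupA

open D_setupA in
theorem p_D_SETUP (hD_SECT : S_D_SECT) :
    S_D_SETUP := by
  intro R A
  obtain ⟨P, a, h1, h2, h3, h4⟩ := hD_SECT R A
  have H : Sec R.toLG P a A := ⟨h1, h2, h3⟩
  let T := {p : R.W × R.W | p.1 ∈ A ∧ p.2 ∈ A ∧ p.1 * p.2 ∈ A}
  have hT : T.Finite := (A.finite_toSet.prod A.finite_toSet).subset fun p hp => ⟨hp.1, hp.2.1⟩
  haveI := hT.to_subtype
  choose b hb hE using fun p : T => tri H p.2.1 p.2.2.1 p.2.2.2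
  obtain ⟨S, -, e1, e2, e3, e4, -⟩ := Sys.exists_mk (κ := T × Fin 3) (fun k => (b k.1 k.2).φ)
    (fun k => GI (a (b k.1 k.2).w + (b k.1 k.2).s) (a (b k.1 k.2).w + (b k.1 k.2).t))
    fun _ => co_GI
  refine ⟨_, Fintype.ofFinite _, S, P,
    fun i => cond i.2 (b i.1.1 i.1.2).g (b i.1.1 i.1.2).g⁻¹, a, h1, h2, h3, h4, ?_,
    fun G _ j n hj hn w hw w' hw' hw'' => hE ⟨(w, w'), hw, hw', hw''⟩ G j n hj fun i =>
      (hb _ i).eq fun hst => ?_⟩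
  · rintro ⟨k, c⟩
    have ok := hb k.1 k.2
    rcases ok.st.eq_or_lt with e | e
    · left
      have e0 : GI (a (b k.1 k.2).w + (b k.1 k.2).s) (a (b k.1 k.2).w + (b k.1 k.2).t) = ∅ :=
        GI_eq_empty (by rw [e])
      cases c
      · rw [e4, e0]; rfl
      · rw [e3, e0]
    right
    have hrl := ok.rl H e
    have hle : a (b k.1 k.2).w + (b k.1 k.2).s ≤ a (b k.1 k.2).w + (b k.1 k.2).t := by linarith
    cases c
    · refine ⟨_, _, ?_, by rw [e4, tr_GI hle], fun t ht => ?_, _, ok.hw', ?_, ?_⟩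
      · rw [ok.es, ok.et]
        exact min_lt_max.2 fun x => (ok.ne e).1 (add_left_cancel x)
      · have m : (b k.1 k.2).φ⁻¹.ap t ∈ Icc (a (b k.1 k.2).w + (b k.1 k.2).s)
            (a (b k.1 k.2).w + (b k.1 k.2).t) := by
          rw [← uIcc_of_le hle, ← (b k.1 k.2).φ.ap_mem_uIcc, Gm.ap_inv_ap]
          exact ht
        have := hrl _ m
        rw [Gm.ap_inv_ap] at this
        rw [e2, cond_false, LG.d_inv_mul]
        exact LG.d_zero_symm this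
      · rw [ok.es, ok.et]
        exact le_min (by linarith [ok.hs'.1]) (by linarith [ok.ht'.1])
      · rw [ok.es, ok.et]
        exact max_le (by linarith [ok.hs'.2]) (by linarith [ok.ht'.2])
    · exact ⟨_, _, by linarith, e3 k, by rw [e1]; exact hrl, _, ok.hw, by linarith [ok.s0],
        by linarith [ok.t1]⟩
  · have := hn ((⟨(w, w'), hw, hw', hw''⟩, i), true) _ _ (by linarith) (e3 _)
    rw [e1] at this
    exact this

end Pool.Agent.P.MP_dba3d2_lc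


end

section

/-! Step D_BAD of the stability project. -/

namespace Pool.Agent.P.MP_dba3d2_lc

open Set Filter Topology

theorem p_D_BAD :
    S_D_BAD := by
  intro R M A ι S P g a H x hx hn
  by_contra hc
  push Not at hc
  refine hn ?_
  rcases (LG.l_nonneg x).eq_or_lt with h0 | h0
  · exact ⟨1, fun i => if i = 0 then 1 else x, rfl, rfl, by simp [LG.d_one], fun i hi =>
      ⟨1, 1, M.one_mem, by simp [Nat.lt_one_iff.1 hi, LG.on_left], by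
        simpa using LG.on_one_one.2 h0.symm⟩⟩
  have iso := H.iso x hx
  obtain ⟨E, hE⟩ := (co_GI (a := a x) (b := a x + R.ℓ x)).subdiv'
    (Q := fun u v => R.HArc M (P u) (P v)) fun γ hγ => by
      obtain ⟨r, r0, hr⟩ := hc γ hγ
      obtain ⟨s, s0, hs⟩ := mem_GI_iff.1 hγ
      have m0 := lt_min r0 s0
      refine ⟨min r s, m0, fun u v huv h => ?_⟩
      rw [seg_eq_GI m0.le, GI_subset_iff huv] at h
      have k := fun t => iso.on (c_mem_of_GI hγ) (hs _ ⟨m0.le, min_le_right r s⟩) (t := t)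
      exact R.harc_sub (hr _ ⟨m0.le, min_le_left r s⟩) (k u ⟨h.1, huv.le.trans h.2⟩)
        (k v ⟨h.1.trans huv.le, h.2⟩)
  obtain ⟨n, p, p0, pn, hp⟩ := exists_chain E.finite_toSet (le_add_of_nonneg_right h0.le)
    (u := a x)
  refine ⟨n, fun i => P (p i), by simp only [p0, H.start x hx h0], by simp only [pn, H.stop x hx h0],
    ?_, fun i hi => ?_⟩
  · rw [Finset.sum_congr rfl (g := fun i => p (i + 1) - p i) fun i hi => ?_, Finset.sum_range_sub,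
      p0, pn, add_sub_cancel_left]
    obtain ⟨a1, a2, a3, -⟩ := hp i (Finset.mem_range.1 hi)
    rw [iso _ ⟨a2, a1.le.trans a3⟩ _ ⟨a2.trans a1.le, a3⟩, abs_sub_comm, abs_of_pos (sub_pos.2 a1)]
  · obtain ⟨a1, a2, a3, -, -, a4⟩ := hp i hi
    exact (hE _ _ a4 ⟨_, tau_mem_GI.2 ⟨le_rfl, a1⟩, tau_mem_GI.2 ⟨a2, a1.trans_le a3⟩⟩).1

end Pool.Agent.P.MP_dba3d2_lc


end

section

/-! Step D_STB of the stability project. -/

namespace Pool.Agent.P.MP_dba3d2_lc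

open Set Filter Topology

namespace D_stbA

variable {R : RT} {e : ℕ} {P : ℝ → R.W} {p q : ℝ}

theorem d_pos (hP : R.IsoOn P p q) {u v : ℝ} (h1 : p ≤ u) (h2 : u < v) (h3 : v ≤ q) :
    0 < R.d (P u) (P v) := by
  rw [hP u ⟨h1, h2.le.trans h3⟩ v ⟨h1.trans h2.le, h3⟩]
  exact abs_pos.2 (sub_ne_zero.2 h2.ne)

theorem stab_of_rl {g : R.W} {u v : ℝ} (h : R.Rl P g 1 u v) (huv : u ≤ v) :
    R.Stab (P u) (P v) g :=
  ⟨LG.d_zero_symm (by simpa using h u ⟨le_rfl, huv⟩),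
    LG.d_zero_symm (by simpa using h v ⟨huv, le_rfl⟩)⟩

theorem small (hA : R.Ax e) (hP : R.IsoOn P p q)
    (np : ∀ u v, p ≤ u → u < v → v ≤ q → ¬R.Per (P u) (P v)) {ε₀ : ℝ} (h0 : 0 < ε₀) :
    ∃ ε₁ > 0, ∀ t u v, R.arc P p q (Gm.tau t) u v → ε₀ ≤ v - u → |t| ≤ ε₁ → t = 0 := by
  obtain ⟨l, hl, rfl⟩ : ∃ l > 0, ε₀ = 3 * l := ⟨ε₀ / 3, by positivity, by ring⟩
  have key : ∀ m : ℕ, ∃ ε > 0, p + m * l + l ≤ q → ∀ g r, R.On r (P (p + m * l)) (P (p + m * l + l)) →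
      R.d (P (p + m * l)) (g * P (p + m * l)) ≤ ε →
      R.d (P (p + m * l + l)) (g * P (p + m * l + l)) ≤ ε →
      R.d (P (p + m * l)) (g * P (p + m * l)) ≤ R.d (P (p + m * l)) r →
      R.d (P (p + m * l + l)) (g * P (p + m * l + l)) ≤ R.d (P (p + m * l + l)) r →
      R.d r (g * r) = 0 := fun m => by
    by_cases h : p + m * l + l ≤ q
    · have h1 : p ≤ p + m * l := le_add_of_nonneg_right (by positivity)
      have h2 : p + m * l < p + m * l + l := lt_add_of_pos_right _ hl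
      obtain ⟨ε, k1, k2⟩ := hA.small _ _ (d_pos hP h1 h2 h) (np _ _ h1 h2 h)
      exact ⟨ε, k1, fun _ => k2⟩
    · exact ⟨1, one_pos, fun k => absurd k h⟩
  choose ε hε hs using key
  obtain ⟨m0, -, hm0⟩ := (Finset.range (⌈(q - p) / l⌉₊ + 1)).exists_min_image ε ⟨0, by simp⟩
  refine ⟨min (l / 2) (ε m0), lt_min (by positivity) (hε m0), ?_⟩
  rintro t u v ⟨g, huv, hm, hr⟩ hlen ht
  have hu := (hm u ⟨le_rfl, huv.le⟩).1
  have hv := (hm v ⟨huv.le, le_rfl⟩).1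
  have hd : ∀ s ∈ Icc u v, R.d (P s) (g * P s) = |t| := fun s hs' => by
    rw [LG.d_congr (LG.d_self _) (hr s hs'), hP _ (hm s hs').1 _ (hm s hs').2]
    simp
  set m := ⌈(u - p) / l⌉₊ with hmd
  have h1 : (u - p) / l ≤ m := Nat.le_ceil _
  have h2 : (m : ℝ) < (u - p) / l + 1 := Nat.ceil_lt_add_one (div_nonneg (by linarith [hu.1]) hl.le)
  rw [div_le_iff₀ hl] at h1
  rw [← sub_lt_iff_lt_add, lt_div_iff₀ hl] at h2
  have h3 : ε m0 ≤ ε m := hm0 m (Finset.mem_range.2 (Nat.lt_succ_of_le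
    (Nat.ceil_mono (div_le_div_of_nonneg_right (by linarith [hu.2]) hl.le))))
  have a1 : p + m * l ∈ Icc u v := ⟨by linarith, by linarith⟩
  have a2 : p + m * l + l ∈ Icc u v := ⟨by linarith, by linarith⟩
  have a3 : p + m * l + l / 2 ∈ Icc u v := ⟨by linarith, by linarith⟩
  have t1 := (le_min_iff.1 ht).1
  have t2 := (le_min_iff.1 ht).2
  have := hs m (a2.2.trans hv.2) g (P (p + m * l + l / 2))
    (LG.IsoOn.on hP (hm _ a1).1 (hm _ a2).1 (mem_uIcc_of_le (by linarith) (by linarith)))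
    (by rw [hd _ a1]; linarith) (by rw [hd _ a2]; linarith)
    (by rw [hd _ a1, hP _ (hm _ a1).1 _ (hm _ a3).1, abs_sub_comm,
      abs_of_nonneg (a := _ - _) (by linarith)]; linarith)
    (by rw [hd _ a2, hP _ (hm _ a2).1 _ (hm _ a3).1,
      abs_of_nonneg (a := _ - _) (by linarith)]; linarith)
  rwa [hd _ a3, abs_eq_zero] at this

end D_stbA

open D_stbA in
theorem p_D_STB :
    S_D_STB := by
  intro R e hA P p q hpq hP np
  let s : Set ℕ := {n | ∃ u v, p ≤ u ∧ u < v ∧ v ≤ q ∧ n = {g | R.Stab (P u) (P v) g}.ncard}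
  have hb : BddAbove s := ⟨e, by
    rintro _ ⟨u, v, h1, h2, h3, rfl⟩
    exact (hA.fin _ _ (d_pos hP h1 h2 h3) (np _ _ h1 h2 h3)).2⟩
  obtain ⟨p', q', h1, h2, h3, hmax⟩ := Nat.sSup_mem (s := s) ⟨_, p, q, le_rfl, hpq, le_rfl, rfl⟩ hb
  have hP' := LG.IsoOn.mono hP h1 h3
  have np' : ∀ u v, p' ≤ u → u < v → v ≤ q' → ¬R.Per (P u) (P v) := fun u v a1 a2 a3 =>
    np u v (h1.trans a1) a2 (a3.trans h3)
  have hp' : p' ∈ Icc p' q' := ⟨le_rfl, h2.le⟩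
  have hq' : q' ∈ Icc p' q' := ⟨h2.le, le_rfl⟩
  refine ⟨p', q', h1, h3, h2, hP', np',
    (hA.fin _ _ (d_pos hP h1 h2 h3) (np _ _ h1 h2 h3)).1.subset fun g hg => stab_of_rl hg h2.le,
    fun u v a1 a2 a3 g hg => ?_, fun _ h0 => small hA hP' np' h0⟩
  have e1 : {g | R.Stab (P p') (P q') g} = {g | R.Stab (P u) (P v) g} := by
    refine Set.eq_of_subset_of_ncard_le (fun g hg => R.stab_sub hg
      (LG.IsoOn.on hP' hp' hq' (mem_uIcc_of_le a1 (a2.le.trans a3)))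
      (LG.IsoOn.on hP' hp' hq' (mem_uIcc_of_le (a1.trans a2.le) a3))) ?_
      (hA.fin _ _ (d_pos hP' a1 a2 a3) (np' _ _ a1 a2 a3)).1
    rw [← hmax]
    exact le_csSup hb ⟨u, v, h1.trans a1, a2, a3.trans h3, rfl⟩
  have e2 : g ∈ {g | R.Stab (P p') (P q') g} := e1 ▸ stab_of_rl hg a2.le
  intro t ht
  exact R.match_ends (φ := 1) hP' hP' hp' hq' (by simpa using h2.le) (by simpa using h2.le)
    (by simpa using LG.d_zero_symm e2.1) (by simpa using LG.d_zero_symm e2.2) t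
    (mem_uIcc_of_le ht.1 ht.2)

end Pool.Agent.P.MP_dba3d2_lc


end

section

/-! Step D_IMAN of the stability project. -/

namespace Pool.Agent.P.MP_dba3d2_lc

open Set Filter Topology

namespace D_imanA

variable {Y E : Set ℝ} {γ β δ δ' : Gm} {l l' a b s : ℝ}

/-- `δ` starts a gap of `Y` of length `l` -/
def Gap (Y : Set ℝ) (δ : Gm) (l : ℝ) : Prop :=
  0 < l ∧ δ.c ∈ Y ∧ δ.ap l ∈ Y ∧ ∀ s ∈ Ioo 0 l, δ.ap s ∉ Y

/-- `δ` starts a bounded or unbounded gap of `Y` -/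
def End (Y : Set ℝ) : Set Gm := {δ | δ.c ∈ Y ∧ ∃ r > 0, ∀ s ∈ Ioo 0 r, δ.ap s ∉ Y}

theorem inv_mul_c (h : β.c = γ.ap s) : (γ⁻¹ * β).c = s := by
  rw [Gm.mul_c', h, Gm.inv_ap_ap]

theorem eq_of_free (he : δ.ε = δ'.ε) (h : δ.c ∈ Y) (h' : δ'.c ∈ Y) {d : ℝ} (hd : δ'.c = δ.ap d)
    (k : 0 < d → δ.ap d ∉ Y) (k' : 0 < -d → δ'.ap (-d) ∉ Y) : δ = δ' := by
  have e : δ'.ap (-d) = δ.c := by
    simp only [Gm.ap] at hd ⊢
    rw [hd, ← he]
    ring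
  rcases lt_trichotomy d 0 with c | c | c
  · exact absurd (e ▸ h) (k' (by linarith))
  · rw [c, Gm.ap_zero] at hd
    exact Gm.ext he hd.symm
  · exact absurd (hd ▸ h') (k c)

theorem finite_of_eps {W : Set Gm} (h : ∀ δ ∈ W, ∀ δ' ∈ W, δ.ε = δ'.ε → δ = δ') : W.Finite :=
  Set.Finite.of_injOn (f := Gm.ε) (t := {1, -1}) (fun δ _ => δ.h)
    (fun δ hδ δ' hδ' e => h δ hδ δ' hδ' e) (Set.toFinite _)

theorem Gap.unique (h : Gap Y δ l) (h' : Gap Y δ l') : l = l' := by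
  rcases lt_trichotomy l l' with c | c | c
  · exact absurd h.2.2.1 (h'.2.2.2 l ⟨h.1, c⟩)
  · exact c
  · exact absurd h'.2.2.1 (h.2.2.2 l' ⟨h'.1, c⟩)

theorem ap_diff (δ : Gm) (t : ℝ) : t = δ.ap (δ.ε * (t - δ.c)) := by
  simp only [Gm.ap]
  rw [← mul_assoc, δ.eps_sq]
  ring

theorem finite_len (hY : Y ⊆ Icc a b) (l : ℝ) : {δ | Gap Y δ l}.Finite := by
  rcases le_or_gt l 0 with hl | hl
  · exact Set.finite_empty.subset fun δ h => absurd h.1 (not_lt.2 hl)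
  refine Set.Finite.of_injOn (f := fun δ : Gm => (δ.ε, ⌊δ.c / l⌋))
    (t := ({1, -1} : Set ℝ) ×ˢ Icc ⌊a / l⌋ ⌊b / l⌋) (fun δ h => ⟨δ.h, ?_, ?_⟩) ?_
    ((Set.toFinite _).prod (Set.finite_Icc _ _))
  · exact Int.floor_le_floor (div_le_div_of_nonneg_right (hY h.2.1).1 hl.le)
  · exact Int.floor_le_floor (div_le_div_of_nonneg_right (hY h.2.1).2 hl.le)
  · intro δ h δ' h' e
    obtain ⟨e1, e2⟩ := Prod.mk.inj e
    have e3 := Int.abs_sub_lt_one_of_floor_eq_floor e2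
    rw [← sub_div, abs_div, abs_of_pos hl, div_lt_one hl, abs_sub_comm] at e3
    have e4 : |δ.ε * (δ'.c - δ.c)| < l := by rwa [abs_mul, δ.abs_eps, one_mul]
    rw [abs_lt] at e4
    exact eq_of_free e1 h.2.1 h'.2.1 (ap_diff δ δ'.c) (fun c => h.2.2.2 _ ⟨c, e4.2⟩)
      fun c => h'.2.2.2 _ ⟨c, by linarith [e4.1]⟩

theorem finite_unb (Y : Set ℝ) : {δ : Gm | δ.c ∈ Y ∧ ∀ s > 0, δ.ap s ∉ Y}.Finite :=
  finite_of_eps fun δ h δ' h' e =>
    eq_of_free e h.1 h'.1 (ap_diff δ δ'.c) (fun c => h.2 _ c) fun c => h'.2 _ c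

/-- the gaps whose closure meets `E` -/
def Sp (Y E : Set ℝ) : Set Gm := {δ | ∃ l, Gap Y δ l ∧ ∃ s ∈ Icc 0 l, δ.ap s ∈ E}

theorem finite_sp (Y : Set ℝ) (hE : E.Finite) : (Sp Y E).Finite := by
  have h1 : ∀ z ∈ E, {δ | ∃ l, Gap Y δ l ∧ ∃ s ∈ Ioc 0 l, δ.ap s = z}.Finite := by
    intro z _
    refine finite_of_eps ?_
    rintro δ ⟨l, h, s, hs, e⟩ δ' ⟨l', h', s', hs', e'⟩ he
    have hd : δ'.c = δ.ap (s - s') := by
      simp only [Gm.ap] at e e' ⊢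
      rw [← he] at e'
      linarith
    exact eq_of_free he h.2.1 h'.2.1 hd (fun c => h.2.2.2 _ ⟨c, by linarith [hs.2, hs'.1]⟩)
      fun c => h'.2.2.2 _ ⟨c, by linarith [hs'.2, hs.1]⟩
  refine ((Gm.finite_over hE).union (hE.biUnion h1)).subset ?_
  rintro δ ⟨l, h, s, hs, e⟩
  rcases hs.1.eq_or_lt with c | c
  · left
    rwa [← c, Gm.ap_zero] at e
  · exact Or.inr (mem_iUnion₂.2 ⟨_, e, l, h, s, ⟨c, hs.2⟩, rfl⟩)

theorem gap_or_unb (hY : IsClosed Y) (h : δ ∈ End Y) :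
    (∃ l, Gap Y δ l) ∨ (δ.c ∈ Y ∧ ∀ s > 0, δ.ap s ∉ Y) := by
  obtain ⟨h0, r, hr, h1⟩ := h
  by_cases c : ∀ s > 0, δ.ap s ∉ Y
  · exact Or.inr ⟨h0, c⟩
  push Not at c
  obtain ⟨s, hs, c⟩ := c
  have hc : IsClosed (Ici r ∩ δ.ap ⁻¹' Y) := isClosed_Ici.inter (hY.preimage δ.continuous_ap)
  have hne : (Ici r ∩ δ.ap ⁻¹' Y).Nonempty := ⟨s, not_lt.1 fun k => h1 s ⟨hs, k⟩ c, c⟩
  have hb : BddBelow (Ici r ∩ δ.ap ⁻¹' Y) := ⟨r, fun x hx => hx.1⟩
  have hm := hc.csInf_mem hne hb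
  refine Or.inl ⟨_, hr.trans_le hm.1, h0, hm.2, fun t ht k => ?_⟩
  have : t ∈ Ici r ∩ δ.ap ⁻¹' Y := ⟨not_lt.1 fun j => h1 t ⟨ht.1, j⟩ k, k⟩
  exact absurd (csInf_le hb this) (not_le.2 ht.2)

theorem free_real (hE : E.Finite) {p q : ℝ} (hpq : p ≤ q) (h : ∀ t ∈ Icc p q, t ∉ E) :
    ∃ u v, u < p ∧ q < v ∧ Free E u v := by
  obtain ⟨r, hr, h1, -, -⟩ := exists_free hE p
  obtain ⟨r', hr', -, h2, -⟩ := exists_free hE q
  refine ⟨p - r, q + r', by linarith, by linarith, fun t ht k => ?_⟩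
  rcases lt_or_ge t p with c | c
  · exact h1 t ht ⟨k.1, c⟩
  rcases le_or_gt t q with d | d
  · exact h t ⟨c, d⟩ ht
  · exact h2 t ht ⟨d, k.2⟩

theorem free_ext (hE : E.Finite) (hl : 0 < l) (h : ∀ s ∈ Icc 0 l, δ.ap s ∉ E) :
    ∃ u v, Free E u v ∧ ∀ s ∈ Icc 0 l, δ.ap s ∈ Ioo u v := by
  rcases δ.h with e | e
  · obtain ⟨u, v, h1, h2, h3⟩ := free_real hE (p := δ.c) (q := δ.c + l) (by linarith) fun t ht => by
      rw [ap_diff δ t]
      refine h _ ?_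
      rw [e]
      constructor <;> linarith [ht.1, ht.2]
    refine ⟨u, v, h3, fun s hs => ?_⟩
    simp only [Gm.ap, e]
    constructor <;> linarith [hs.1, hs.2]
  · obtain ⟨u, v, h1, h2, h3⟩ := free_real hE (p := δ.c - l) (q := δ.c) (by linarith) fun t ht => by
      rw [ap_diff δ t]
      refine h _ ?_
      rw [e]
      constructor <;> linarith [ht.1, ht.2]
    refine ⟨u, v, h3, fun s hs => ?_⟩
    simp only [Gm.ap, e]
    constructor <;> linarith [hs.1, hs.2]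

variable {ι : Type} {S : Sys ι} {X : Set Gm} {i : ι}

theorem mem_iff_of_GI (hX : S.Inv X) {u v t : ℝ} (h : GI u v ⊆ S.dom i) (ht : t ∈ Ioo u v) :
    (S.φ i).ap t ∈ Gm.c '' X ↔ t ∈ Gm.c '' X := by
  constructor
  · rintro ⟨β, hβ, e⟩
    have e1 : ((S.φ i)⁻¹ * β).c = t := inv_mul_c e
    have h1 : (S.φ i)⁻¹ * β ∈ S.dom i := h (mem_GI_of_Ioo (e1 ▸ ht.1) (e1 ▸ ht.2))
    refine ⟨_, (hX.mem_iff h1).1 ?_, e1⟩
    rwa [mul_inv_cancel_left]
  · rintro ⟨β, hβ, rfl⟩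
    exact ⟨_, hX i β (h (mem_GI_of_Ioo ht.1 ht.2)) hβ, rfl⟩

theorem gap_map (hX : S.Inv X) (hE : E.Finite)
    (hd : ∀ u v, Free E u v → GI u v ⊆ S.dom i ∨ Disjoint (GI u v) (S.dom i))
    (h : Gap (Gm.c '' X) δ l) (hs : δ ∉ Sp (Gm.c '' X) E) (hβ : β ∈ S.dom i) (e : β.c = δ.c) :
    Gap (Gm.c '' X) (S.φ i * δ) l := by
  obtain ⟨u, v, h1, h2⟩ := free_ext (δ := δ) hE h.1 fun s k j => hs ⟨l, h, s, k, j⟩
  have h0 := h2 0 ⟨le_rfl, h.1.le⟩
  rw [Gm.ap_zero] at h0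
  have h3 : GI u v ⊆ S.dom i := (hd u v h1).resolve_right fun k =>
    Set.disjoint_left.1 k (mem_GI_of_Ioo (e ▸ h0.1) (e ▸ h0.2)) hβ
  refine ⟨h.1, ?_, ?_, fun s k => ?_⟩
  · rw [Gm.mul_c']
    exact (mem_iff_of_GI hX h3 h0).2 h.2.1
  · rw [Gm.mul_ap]
    exact (mem_iff_of_GI hX h3 (h2 l ⟨h.1.le, le_rfl⟩)).2 h.2.2.1
  · rw [Gm.mul_ap, mem_iff_of_GI hX h3 (h2 s ⟨k.1.le, k.2.le⟩)]
    exact h.2.2.2 s k

theorem not_mem_of_finite (hinf : ∀ γ ∈ X, (S.orb γ).Infinite) {W : Set Gm} (hW : W.Finite)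
    (k : S.Inv W) (hγ : γ ∈ X) : γ ∉ W :=
  fun h => hinf γ hγ (hW.subset fun _ hβ => Sys.Rel.mem hβ k h)

theorem finite_gaps (hX : S.Inv X) (hinf : ∀ γ ∈ X, (S.orb γ).Infinite) (hE : E.Finite)
    (hd : ∀ i u v, Free E u v → GI u v ⊆ S.dom i ∨ Disjoint (GI u v) (S.dom i))
    (hb : Gm.c '' X ⊆ Icc a b) : {δ | ∃ l, Gap (Gm.c '' X) δ l}.Finite := by
  have h1 : {l | ∃ δ ∈ Sp (Gm.c '' X) E, Gap (Gm.c '' X) δ l}.Finite := by
    have h2 : ∀ δ ∈ Sp (Gm.c '' X) E, {l | Gap (Gm.c '' X) δ l}.Finite := fun δ _ =>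
      Set.Subsingleton.finite fun l h l' h' => Gap.unique h h'
    refine ((finite_sp _ hE).biUnion h2).subset ?_
    rintro l ⟨δ, h, k⟩
    exact mem_iUnion₂.2 ⟨δ, h, k⟩
  refine (h1.biUnion fun l _ => finite_len hb l).subset ?_
  rintro δ ⟨l, h⟩
  refine mem_iUnion₂.2 ⟨l, ?_, h⟩
  by_contra c
  obtain ⟨γ, hγ, e⟩ := h.2.1
  refine not_mem_of_finite hinf (Gm.finite_over ((finite_len hb l).image Gm.c)) ?_ hγ ⟨δ, h, e.symm⟩
  rintro i β hβ ⟨δ', h', e'⟩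
  refine ⟨_, gap_map hX hE (hd i) h' (fun k => c ⟨δ', k, h'⟩) hβ e'.symm, ?_⟩
  rw [Gm.mul_c', Gm.mul_c', e']

/-- the isolated germs of `X` -/
def Iso (X : Set Gm) : Set Gm := {γ | γ ∈ X ∧ ∀ᶠ α in 𝓝 γ, α ∈ X → α = γ}

theorem iso_subset : Iso X ⊆ End (Gm.c '' X) := by
  rintro γ ⟨h, k⟩
  obtain ⟨-, r, hr, k⟩ := eventually_gm'.1 k
  refine ⟨⟨γ, h, rfl⟩, r, hr, ?_⟩
  rintro s hs ⟨β, hβ, e⟩
  have e1 : (γ⁻¹ * β).c = s := inv_mul_c e
  have e2 := k (γ⁻¹ * β) (e1 ▸ hs.1) (e1 ▸ hs.2)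
  rw [mul_inv_cancel_left] at e2
  rw [e2 hβ, inv_mul_cancel, Gm.one_c] at e1
  exact hs.1.ne e1

theorem inv_iso (hX : S.Inv X) : S.Inv (Iso X) := by
  rintro i γ hγ ⟨h, k⟩
  refine ⟨hX i γ hγ h, ?_⟩
  have h1 := (continuous_gm_mul (S.φ i)⁻¹).tendsto (S.φ i * γ)
  rw [inv_mul_cancel_left] at h1
  filter_upwards [h1.eventually k, h1.eventually ((S.co i).2.mem_nhds hγ)] with α k1 k2 hα
  have h2 : (S.φ i)⁻¹ * α ∈ X := (hX.mem_iff k2).1 (by rwa [mul_inv_cancel_left])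
  rw [← k1 h2, mul_inv_cancel_left]

theorem isOpen_of_finite (hc : IsClosed X) (hY : IsClosed (Gm.c '' X))
    (hf : (End (Gm.c '' X)).Finite) (hi : ∀ γ ∈ X, γ ∉ Iso X) : IsOpen X := by
  refine isOpen_gm.2 fun γ hγ => ?_
  obtain ⟨r, hr, h1⟩ := exists_seg_avoid hf γ
  have h2 : ∀ s ∈ Ioo 0 r, γ.ap s ∈ Gm.c '' X := by
    intro s hs
    by_contra c
    have hK : IsCompact (Icc 0 s ∩ γ.ap ⁻¹' (Gm.c '' X)) :=
      isCompact_Icc.inter_right (hY.preimage γ.continuous_ap)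
    obtain ⟨m, hm, hg⟩ := hK.exists_isGreatest
      ⟨0, ⟨le_rfl, hs.1.le⟩, γ, hγ, (Gm.ap_zero γ).symm⟩
    have hms : m < s := hm.1.2.lt_of_ne fun e => c (e ▸ hm.2)
    have h3 : ∀ t, m < t → t < s → γ.ap t ∉ Gm.c '' X := fun t t1 t2 k =>
      absurd (hg ⟨⟨hm.1.1.trans t1.le, t2.le⟩, k⟩) (not_le.2 t1)
    rcases hm.1.1.eq_or_lt with e | e
    · refine hi γ hγ ⟨hγ, eventually_gm'.2 ⟨fun _ => rfl, s, hs.1, fun δ d1 d2 k => ?_⟩⟩
      exact absurd ⟨_, k, rfl⟩ (h3 δ.c (e ▸ d1) d2)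
    · have h4 : γ * Gm.tau m ∈ End (Gm.c '' X) := by
        refine ⟨hm.2, s - m, sub_pos.2 hms, fun t ht => ?_⟩
        rw [Gm.mul_ap, Gm.tau_ap]
        exact h3 _ (by linarith [ht.1]) (by linarith [ht.2])
      have h5 := h1 _ (mul_mem_seg.2 (mem_GI_of_Ioo e (hms.trans hs.2))) h4
      have h6 := congrArg Gm.c (mul_eq_left.1 h5)
      exact e.ne' h6
  refine ⟨r, hr, fun δ d1 d2 => ?_⟩
  rw [← hc.closure_eq, mem_closure_gm]
  intro r' hr'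
  obtain ⟨s, s0, s1, s2, s3⟩ : ∃ s, 0 < s ∧ s < r' ∧ s < δ.c ∧ s < r - δ.c := by
    have p : 0 < min r' (min δ.c (r - δ.c)) := lt_min hr' (lt_min d1 (sub_pos.2 d2))
    have p1 := min_le_left r' (min δ.c (r - δ.c))
    have p2 := (min_le_right r' _).trans (min_le_left δ.c (r - δ.c))
    have p3 := (min_le_right r' _).trans (min_le_right δ.c (r - δ.c))
    exact ⟨min r' (min δ.c (r - δ.c)) / 2, by linarith, by linarith, by linarith, by linarith⟩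
  have h3 : δ.ap s ∈ Ioo 0 r := by
    rcases δ.h with e | e <;> simp only [Gm.ap, e] <;> constructor <;> linarith
  obtain ⟨β, hβ, e⟩ := h2 _ h3
  rw [← Gm.mul_ap] at e
  have e1 := inv_mul_c e
  exact ⟨β, hβ, mem_seg.2 (mem_GI_of_Ioo (e1 ▸ s0) (e1 ▸ s1))⟩

end D_imanA

open D_imanA in
theorem p_D_IMAN :
    S_D_IMAN := by
  intro ι _ S X hc hX hinf
  obtain ⟨E, hd, -, a, -, b, -, -, hb⟩ := exists_ends S.co
  have h1 : X ⊆ GI a b := fun γ hγ => by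
    obtain ⟨i, hi⟩ := Sys.exists_dom_of_infinite (hinf γ hγ)
    exact hb i hi
  have hY : IsClosed (Gm.c '' X) :=
    ((isCompact_GI.of_isClosed_subset hc h1).image continuous_c).isClosed
  have h2 : Gm.c '' X ⊆ Icc a b := by
    rintro t ⟨γ, hγ, rfl⟩
    exact c_mem_of_GI (h1 hγ)
  have hf : (End (Gm.c '' X)).Finite :=
    ((finite_gaps hX hinf E.finite_toSet hd h2).union (finite_unb _)).subset fun δ h =>
      gap_or_unb hY h
  exact isOpen_of_finite hc hY hf fun γ hγ =>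
    not_mem_of_finite hinf (hf.subset iso_subset) (inv_iso hX) hγ

end Pool.Agent.P.MP_dba3d2_lc


end

section

/-! Step D_MINC of the stability project. -/

namespace Pool.Agent.P.MP_dba3d2_lc

open Set Filter Topology

theorem p_D_MINC (hD_IMAN : S_D_IMAN) :
    S_D_MINC := by
  intro ι _ S
  have hcl : IsClosed {γ | (S.orb γ).Infinite} := by
    have h := (S.isOpen_finite).isClosed_compl
    exact h
  have hop : IsOpen {γ | (S.orb γ).Infinite} :=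
    hD_IMAN ι S _ hcl S.inv_infinite fun γ h => h
  have hco : CO {γ | (S.orb γ).Infinite} :=
    (CO.iUnion S.co).of_subset
      (fun γ h => mem_iUnion.2 (Sys.exists_dom_of_infinite h)) hcl hop
  have hsub : ∀ γ, (S.orb γ).Infinite → closure (S.orb γ) ⊆ {γ | (S.orb γ).Infinite} := by
    intro γ h
    refine closure_minimal (fun β hβ => ?_) hcl
    have e : S.orb γ = S.orb β := Sys.Rel.orb_eq hβ
    show (S.orb β).Infinite
    rwa [← e]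
  have hopen : ∀ γ, (S.orb γ).Infinite → IsOpen (closure (S.orb γ)) := fun γ h =>
    hD_IMAN ι S _ isClosed_closure (S.inv_orb γ).closure (hsub γ h)
  refine ⟨hco, fun γ h => ⟨hco.of_subset (hsub γ h) isClosed_closure (hopen γ h),
    ⟨γ, subset_closure (Sys.Rel.refl S γ)⟩, (S.inv_orb γ).closure, hsub γ h, ?_⟩⟩
  intro β hβ
  have hb : β ∈ closure (S.orb β) := subset_closure (Sys.Rel.refl S β)
  obtain ⟨α, h1, h2⟩ := mem_closure_iff.1 hβ _ (hopen β (hsub γ h hβ)) hb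
  refine closure_minimal (fun δ hδ => ?_) isClosed_closure
  exact Sys.Rel.mem ((Sys.Rel.symm h2).trans hδ) (S.inv_orb β).closure h1

end Pool.Agent.P.MP_dba3d2_lc


end

section

/-! Step D_FAM of the stability project. -/

namespace Pool.Agent.P.MP_dba3d2_lc

open Set Filter Topology

namespace D_famA

/-- `s` is the distance from `γ` to the next point of `E` -/
def Nx (E : Set ℝ) (γ : Gm) (s : ℝ) : Prop :=
  0 < s ∧ γ.ap s ∈ E ∧ ∀ t, 0 < t → γ.ap t ∈ E → s ≤ t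

variable {E : Set ℝ} {γ : Gm} {s s' a b : ℝ}

theorem Nx.uniq (h : Nx E γ s) (h' : Nx E γ s') : s = s' :=
  (h.2.2 _ h'.1 h'.2.1).antisymm (h'.2.2 _ h.1 h.2.1)

theorem exists_nx (hE : E.Finite) (ha : a ∈ E) (hb : b ∈ E) (h : γ ∈ GI a b) :
    ∃ s, Nx E γ s := by
  obtain ⟨s, h1, h2⟩ := exists_min_image {s | 0 < s ∧ γ.ap s ∈ E} id
    ((hE.preimage γ.ap_injective.injOn).subset fun _ h => h.2) (by
      rcases γ.h with e | e
      · exact ⟨b - γ.c, sub_pos.2 ((mem_GI_pos e).1 h).2, by simpa [Gm.ap, e] using hb⟩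
      · exact ⟨γ.c - a, sub_pos.2 ((mem_GI_neg e).1 h).1, by simpa [Gm.ap, e] using ha⟩)
  exact ⟨s, h1.1, h1.2, fun t t1 t2 => h2 t ⟨t1, t2⟩⟩

theorem Nx.cell (h : Nx E γ s) (hc : γ.c ∈ E) : ∃ u ∈ E, ∃ v ∈ E, Free E u v ∧
    seg γ s = GI u v ∧ (γ = Gm.tau u ∧ seg γ (s / 2) = GI u ((u + v) / 2) ∨
      γ = (Gm.tau v).opp ∧ seg γ (s / 2) = GI ((u + v) / 2) v) := by
  rcases γ.h with e | e
  · refine ⟨_, hc, γ.c + s, by simpa [Gm.ap, e, add_comm] using h.2.1, fun t ht k => ?_,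
      seg_pos e, Or.inl ⟨Gm.eq_tau e, (seg_pos e).trans (by congr 1; ring)⟩⟩
    linarith [h.2.2 (t - γ.c) (by linarith [k.1]) (by simpa [Gm.ap, e] using ht), k.2]
  · refine ⟨γ.c - s, by simpa [Gm.ap, e, neg_add_eq_sub] using h.2.1, _, hc, fun t ht k => ?_,
      seg_neg e, Or.inr ⟨Gm.ext (by simp [e]) (by simp), (seg_neg e).trans (by congr 1; ring)⟩⟩
    linarith [h.2.2 (γ.c - t) (by linarith [k.2]) (by simpa [Gm.ap, e] using ht), k.1]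

end D_famA

open D_famA in
theorem p_D_FAM (hD_MINC : S_D_MINC) :
    S_D_FAM := by
  intro ι _ S X F hX hS
  obtain ⟨O, hO⟩ : ∃ O, O = X \ {γ | (S.orb γ).Infinite} := ⟨_, rfl⟩
  have mO : ∀ γ, γ ∈ O ↔ γ ∈ X ∧ (S.orb γ).Finite := fun γ => by simp [hO]
  have iO : S.Inv O := hO ▸ hS.inv.diff S.inv_infinite
  obtain ⟨E0, e1, e2, a, ha, b, hb, -, e3⟩ := exists_ends
    (W := fun o : Option ι => o.elim O S.dom) (by
      rintro (_ | i)
      exacts [hO ▸ hX.diff (hD_MINC ι S).1, S.co i])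
  obtain ⟨E, hE, s0, sF, K⟩ : ∃ E : Set ℝ, E.Finite ∧ ↑E0 ⊆ E ∧ ↑F ⊆ E ∧
      ∀ γ ∈ O, γ.c ∈ E → ∀ i, γ ∈ S.dom i → (S.φ i * γ).c ∈ E := by
    have f0 : ((E0 : Set ℝ) ∪ F).Finite := E0.finite_toSet.union F.finite_toSet
    refine ⟨(E0 ∪ F) ∪ Gm.c '' ⋃ α ∈ {α | α ∈ O ∧ α.c ∈ (E0 : Set ℝ) ∪ F}, S.orb α,
      f0.union (Finite.image _ (((Gm.finite_over f0).subset fun _ h => h.2).biUnion
        fun α h => ((mO α).1 h.1).2)), fun _ h => Or.inl (Or.inl h), fun _ h => Or.inl (Or.inr h),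
      fun γ h1 h2 i hi => Or.inr ?_⟩
    by_cases h0 : γ.c ∈ (E0 : Set ℝ) ∪ F
    · exact ⟨_, mem_biUnion ⟨h1, h0⟩ (Sys.rel_φ hi), rfl⟩
    obtain ⟨β, h3, h4⟩ := h2.resolve_left h0
    obtain ⟨α, h5, h6⟩ := mem_iUnion₂.1 h3
    rcases Gm.eq_or_opp h4 with rfl | rfl
    · exact ⟨_, mem_biUnion h5 (Sys.Rel.trans h6 (Sys.rel_φ hi)), rfl⟩
    · exact ⟨_, mem_biUnion h5 (Sys.Rel.trans h6 (Sys.rel_φ
        ((e2 (some i) γ fun h => h0 (Or.inl h)).2 hi))), by rw [Gm.mul_opp, Gm.opp_c]⟩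
  have same : ∀ u v, Free E u v → ∀ γ ∈ GI u v, ∀ β ∈ GI u v, ∀ o : Option ι,
      γ ∈ o.elim O S.dom → β ∈ o.elim O S.dom := fun u v h γ h1 β h2 o h3 =>
    (e1 o u v (h.mono s0)).elim (fun k => k h2) fun k => (disjoint_left.1 k h1 h3).elim
  choose! N hN using fun γ (h : γ ∈ O) => exists_nx hE (s0 ha) (s0 hb) (e3 none h)
  have sm : ∀ γ ∈ O, γ.c ∈ E → ∀ β ∈ seg γ (N γ), ∀ o : Option ι,
      (β ∈ o.elim O S.dom ↔ γ ∈ o.elim O S.dom) := fun γ h1 h2 β h3 o => by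
    obtain ⟨u, -, v, -, k1, k2, -⟩ := (hN γ h1).cell h2
    have h4 := self_mem_seg (γ := γ) (hN γ h1).1
    rw [k2] at h3 h4
    exact ⟨same u v k1 _ h3 _ h4 o, same u v k1 _ h4 _ h3 o⟩
  have half : ∀ γ ∈ O, seg γ (N γ / 2) ⊆ seg γ (N γ) := fun γ h =>
    seg_mono (half_le_self (hN γ h).1.le)
  have le : ∀ γ ∈ O, γ.c ∈ E → ∀ i, γ ∈ S.dom i → N (S.φ i * γ) ≤ N γ := fun γ h1 h2 i hi => by
    have k : γ * (Gm.tau (N γ)).opp ∈ seg γ (N γ) :=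
      mul_mem_seg.2 (opp_tau_mem_GI.2 ⟨(hN γ h1).1, le_rfl⟩)
    refine (hN _ (iO i γ hi h1)).2.2 _ (hN γ h1).1 ?_
    rw [Gm.mul_ap]
    simpa [Gm.ap] using K _ ((sm γ h1 h2 _ k none).2 h1)
      (by simpa [Gm.ap] using (hN γ h1).2.1) i ((sm γ h1 h2 _ k (some i)).2 hi)
  have fE : {γ | γ ∈ O ∧ γ.c ∈ E}.Finite := (Gm.finite_over hE).subset fun _ h => h.2
  refine ⟨fE.toFinset, fun γ => N γ / 2, ?_, ?_, ?_, ?_, ?_, ?_, ?_⟩ <;>
    simp only [Finite.mem_toFinset, mem_ofPred_eq]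
  · exact fun γ h => half_pos (hN γ h.1).1
  · exact fun γ h β k => (mO β).1 ((sm γ h.1 h.2 β (half γ h.1 k) none).2 h.1)
  · intro β h1 h2
    have h3 := (mO β).2 ⟨h1, h2⟩
    obtain ⟨u, hu, v, hv, -, uv, -, k1, k2⟩ := exists_cell hE (s0 ha) (s0 hb) (e3 none h3)
    have m1 := same u v k1 β k2 _ (tau_mem_GI.2 ⟨le_rfl, uv⟩) none h3
    have m2 := same u v k1 β k2 _ (opp_tau_mem_GI.2 ⟨uv, le_rfl⟩) none h3
    have n1 : N (Gm.tau u) = v - u := (hN _ m1).uniq ⟨sub_pos.2 uv, by simpa using hv,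
      fun t t1 t2 => not_lt.1 fun t3 => k1 (t + u) (by simpa using t2) ⟨by linarith, by linarith⟩⟩
    have n2 : N (Gm.tau v).opp = v - u := (hN _ m2).uniq ⟨sub_pos.2 uv, by simpa using hu,
      fun t t1 t2 => not_lt.1 fun t3 => k1 (-t + v) (by simpa using t2) ⟨by linarith, by linarith⟩⟩
    rw [← GI_union (t := (u + v) / 2) (by linarith) (by linarith)] at k2
    rcases k2 with k2 | k2
    · refine ⟨_, ⟨m1, hu⟩, ?_⟩
      rwa [seg_pos rfl, n1, Gm.tau_c, show u + (v - u) / 2 = (u + v) / 2 by ring]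
    · refine ⟨_, ⟨m2, by simpa using hv⟩, ?_⟩
      rwa [seg_neg (by simp), n2, Gm.opp_c, Gm.tau_c, show v - (v - u) / 2 = (u + v) / 2 by ring]
  · intro γ h γ' h' β k k'
    obtain ⟨u, hu, v, hv, k1, k2, k3⟩ := (hN γ h.1).cell h.2
    obtain ⟨u', hu', v', hv', k1', k2', k3'⟩ := (hN γ' h'.1).cell h'.2
    obtain ⟨rfl, rfl⟩ := cell_unique hu hv hu' hv' k1 k1' (k2 ▸ half γ h.1 k) (k2' ▸ half γ' h'.1 k')
    rcases k3 with ⟨a1, a2⟩ | ⟨a1, a2⟩ <;> rcases k3' with ⟨b1, b2⟩ | ⟨b1, b2⟩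
    · exact a1.trans b1.symm
    · exact (disjoint_left.1 (GI_disjoint le_rfl) (a2 ▸ k) (b2 ▸ k')).elim
    · exact (disjoint_left.1 (GI_disjoint le_rfl) (b2 ▸ k') (a2 ▸ k)).elim
    · exact a1.trans b1.symm
  · exact fun γ h i β k => sm γ h.1 h.2 β (half γ h.1 k) (some i)
  · intro γ h i hi
    have h1 := iO i γ hi h.1
    have h2 := K γ h.1 h.2 i hi
    have h3 := le _ h1 h2 _ (S.map i γ hi)
    rw [S.φ_inv_mul] at h3
    exact ⟨⟨h1, h2⟩, by rw [(le γ h.1 h.2 i hi).antisymm h3]⟩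
  · exact fun γ h1 h2 h3 => ⟨(mO γ).2 ⟨h1, h2⟩, sF h3⟩

end Pool.Agent.P.MP_dba3d2_lc


end
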