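import Pool.Agent.P.MP_dba3d2_lcM.Db49
import Pool.Agent.P.MP_dba3d2_lcM.Db51

section

/-! Chapter D toolbox: moves of germs in a tree, stable segments, the system of triangles. -/

namespace Pool.Agent.P.MP_dba3d2_lc

open Set Filter Topology

namespace MvBA

variable {R : LG} {g g' x y z : R.W} {γ : Gm} {u v r t : ℝ}

theorem dz_mul (h1 : R.d (g * x) y = 0) (h2 : R.d (g' * y) z = 0) : R.d (g' * g * x) z = 0 :=
  LG.d_zero_trans (by rw [mul_assoc, LG.d_mul_left]; exact h1) h2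

theorem dz_inv (h : R.d (g * x) y = 0) : R.d (g⁻¹ * y) x = 0 := by
  rw [LG.d_inv_mul]
  exact LG.d_zero_symm h

theorem param (h : u < v) (k : GI u v ⊆ seg γ r) (ht : t ∈ Icc u v) : γ⁻¹.ap t ∈ Icc 0 r := by
  rcases γ.h with e | e
  · rw [seg_pos e, GI_subset_iff h] at k
    simp only [Gm.ap, Gm.inv_eps, Gm.inv_c, e]
    exact ⟨by linarith [k.1, ht.1], by linarith [k.2, ht.2]⟩
  · rw [seg_neg e, GI_subset_iff h] at k
    simp only [Gm.ap, Gm.inv_eps, Gm.inv_c, e]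
    exact ⟨by linarith [k.2, ht.2], by linarith [k.1, ht.1]⟩

theorem seg_eq (γ : Gm) (hr : 0 < r) : ∃ u v, u < v ∧ seg γ r = GI u v :=
  ⟨_, _, lt_of_mem_GI (seg_eq_GI hr.le ▸ self_mem_seg (γ := γ) hr), seg_eq_GI hr.le⟩

end MvBA

namespace LG

variable {R : LG} {P P' P'' : ℝ → R.W} {g g' k : R.W} {φ ψ α β γ δ : Gm} {p q u v u' v' a b : ℝ}

theorem Rl.mono (h : R.Rl P g φ u v) (h1 : u ≤ a) (h2 : b ≤ v) : R.Rl P g φ a b := by
  exact fun t ht => h t (Icc_subset_Icc h1 h2 ht)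
theorem rl_one (P : ℝ → R.W) (u v : ℝ) : R.Rl P 1 1 u v := by
  intro t _
  simp
theorem Rl.comp (h : R.Rl P g φ u v) (h' : R.Rl P g' ψ u' v')
    (e : ∀ t ∈ Icc u v, φ.ap t ∈ Icc u' v') : R.Rl P (g' * g) (ψ * φ) u v := by
  intro t ht
  rw [Gm.mul_ap]
  exact MvBA.dz_mul (h t ht) (h' _ (e t ht))
theorem Rl.inv (h : R.Rl P g φ u v) (e : ∀ t ∈ Icc u' v', φ⁻¹.ap t ∈ Icc u v) :
    R.Rl P g⁻¹ φ⁻¹ u' v' := by
  intro t ht
  have k := h _ (e t ht)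
  rw [Gm.ap_inv_ap] at k
  exact MvBA.dz_inv k
theorem Rl.zeta (h : R.Rl P g φ u v) {t : ℝ} (ht : t ∈ Icc u v) : R.ℓ (R.zeta P g φ t) = 0 := by
  have k := d_zero_symm (h t ht)
  rw [d, ← mul_assoc] at k
  exact k
theorem Rl.mv (h : R.Rl P g φ u v) (hγ : γ ∈ GI u v) : R.Mv P γ g (φ * γ) := by
  obtain ⟨r, h1, h2⟩ := mem_GI_iff.1 hγ
  exact ⟨r, h1, fun s hs => by rw [Gm.mul_ap]; exact h _ (h2 s hs)⟩
theorem Mv2.trans (h : R.Mv2 P P' α g β) (h' : R.Mv2 P' P'' β g' γ) : R.Mv2 P P'' α (g' * g) γ := by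
  obtain ⟨r, h1, h2⟩ := h
  obtain ⟨r', k1, k2⟩ := h'
  exact ⟨min r r', lt_min h1 k1, fun s hs =>
    MvBA.dz_mul (h2 s ⟨hs.1, hs.2.trans (min_le_left _ _)⟩)
      (k2 s ⟨hs.1, hs.2.trans (min_le_right _ _)⟩)⟩
theorem Mv2.symm (h : R.Mv2 P P' γ g β) : R.Mv2 P' P β g⁻¹ γ := by
  obtain ⟨r, h1, h2⟩ := h
  exact ⟨r, h1, fun s hs => MvBA.dz_inv (h2 s hs)⟩
theorem Mv2.pt (h : R.Mv2 P P' γ g β) : R.d (g * P γ.c) (P' β.c) = 0 := by
  obtain ⟨r, h1, h2⟩ := h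
  simpa only [Gm.ap_zero] using h2 0 ⟨le_rfl, h1.le⟩
theorem Mv2.eventually (h : R.Mv2 P P' γ g β) : ∀ᶠ α in 𝓝 γ, R.Mv2 P P' α g (β * γ⁻¹ * α) := by
  obtain ⟨r, h1, h2⟩ := h
  refine eventually_gm.2 ⟨r, h1, fun δ hδ => ?_⟩
  obtain ⟨r', k1, k2⟩ := mem_GI_iff.1 hδ
  refine ⟨r', k1, fun s hs => ?_⟩
  rw [mul_assoc, inv_mul_cancel_left, Gm.mul_ap, Gm.mul_ap]
  exact h2 _ (k2 s hs)
theorem mv_one (P : ℝ → R.W) (γ : Gm) : R.Mv P γ 1 γ := by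
  exact ⟨1, one_pos, fun s _ => by simp⟩
theorem Mv.trans (h : R.Mv P α g β) (h' : R.Mv P β g' γ) : R.Mv P α (g' * g) γ := Mv2.trans h h'
theorem Mv.symm (h : R.Mv P γ g β) : R.Mv P β g⁻¹ γ := Mv2.symm h
theorem Mv.eventually (h : R.Mv P γ g β) : ∀ᶠ α in 𝓝 γ, R.Mv P α g (β * γ⁻¹ * α) :=
  Mv2.eventually h
theorem Mv.rl (h : R.Mv P γ g β) :
    ∃ r > 0, ∀ u v, u < v → GI u v ⊆ seg γ r → R.Rl P g (β * γ⁻¹) u v := by
  obtain ⟨r, h1, h2⟩ := h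
  refine ⟨r, h1, fun u v huv k t ht => ?_⟩
  have e := h2 _ (MvBA.param huv k ht)
  rwa [Gm.ap_inv_ap, ← Gm.mul_ap] at e
/-- a move between germs of `[p, q]` is a mover on a short segment -/
theorem Mv.mover (h : R.Mv P γ g β) (hγ : γ ∈ GI p q) (hβ : β ∈ GI p q) :
    ∃ u v, γ ∈ GI u v ∧ R.Mover P p q g (β * γ⁻¹) u v := by
  obtain ⟨r1, a1, a2⟩ := h
  obtain ⟨r2, b1, b2⟩ := mem_GI_iff.1 hγ
  obtain ⟨r3, c1, c2⟩ := mem_GI_iff.1 hβ
  have hr : 0 < min r1 (min r2 r3) := lt_min a1 (lt_min b1 c1)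
  obtain ⟨u, v, huv, e⟩ := MvBA.seg_eq γ hr
  refine ⟨u, v, e ▸ self_mem_seg hr, huv, fun t ht => ?_, fun t ht => ?_⟩
  · have k := MvBA.param huv e.ge ht
    have k2 := b2 _ ⟨k.1, k.2.trans ((min_le_right _ _).trans (min_le_left _ _))⟩
    have k3 := c2 _ ⟨k.1, k.2.trans ((min_le_right _ _).trans (min_le_right _ _))⟩
    rw [Gm.ap_inv_ap] at k2
    rw [← Gm.mul_ap] at k3
    exact ⟨k2, k3⟩
  · have k := MvBA.param huv e.ge ht
    have k1 := a2 _ ⟨k.1, k.2.trans (min_le_left _ _)⟩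
    rwa [Gm.ap_inv_ap, ← Gm.mul_ap] at k1
theorem Mv.mem_QJ (h : R.Mv P γ g β) (hγ : γ ∈ GI p q) (hβ : β ∈ GI p q) : g ∈ R.QJ P p q := by
  obtain ⟨u, v, -, k⟩ := h.mover hγ hβ
  exact Subgroup.subset_closure ⟨_, u, v, k⟩
theorem Mover.mem (h : R.Mover P p q g φ u v) (hγ : γ ∈ GI u v) :
    γ ∈ GI p q ∧ φ * γ ∈ GI p q ∧ R.Mv P γ g (φ * γ) := by
  exact ⟨GI_mono (h.2.1 u ⟨le_rfl, h.1.le⟩).1.1 (h.2.1 v ⟨h.1.le, le_rfl⟩).1.2 hγ,
    mul_mem_GI hγ fun t ht => (h.2.1 t ht).2, h.2.2.mv hγ⟩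
theorem Mover.mono (h : R.Mover P p q g φ u v) (h1 : a ≤ p) (h2 : q ≤ b) :
    R.Mover P a b g φ u v := by
  exact ⟨h.1, fun t ht => ⟨Icc_subset_Icc h1 h2 (h.2.1 t ht).1, Icc_subset_Icc h1 h2 (h.2.1 t ht).2⟩,
    h.2.2⟩
theorem QJ_mono (h1 : a ≤ p) (h2 : q ≤ b) : R.QJ P p q ≤ R.QJ P a b := by
  refine Subgroup.closure_mono ?_
  rintro g ⟨φ, u, v, k⟩
  exact ⟨φ, u, v, k.mono h1 h2⟩
theorem rw_arc_iff : RW (R.arc P p q) γ β ↔ γ ∈ GI p q ∧ β ∈ GI p q ∧ ∃ g, R.Mv P γ g β := by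
  constructor
  · rintro ⟨u, v, h1, g, h2⟩
    have k := h2.mem h1
    rw [inv_mul_cancel_right] at k
    exact ⟨k.1, k.2.1, g, k.2.2⟩
  · rintro ⟨h1, h2, g, h3⟩
    obtain ⟨u, v, k1, k2⟩ := h3.mover h1 h2
    exact ⟨u, v, k1, g, k2⟩
theorem rw2_arc (h : RW2 (R.arc P p q) γ β) : ∃ g, R.Mv P γ g β ∧ R.Mv P γ.opp g β.opp := by
  obtain ⟨u, v, h1, h2, g, h3⟩ := h
  have k1 := h3.2.2.mv (mem_GI_of_Ioo h1 h2)
  have k2 := h3.2.2.mv (γ := γ.opp) (mem_GI_of_Ioo (by simpa using h1) (by simpa using h2))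
  rw [inv_mul_cancel_right] at k1
  rw [Gm.mul_opp, inv_mul_cancel_right] at k2
  exact ⟨g, k1, k2⟩
theorem HGm.eventually {R : RT} {M : Subgroup R.W} {P : ℝ → R.W} (hP : R.IsoOn P a b)
    (hγ : γ ∈ GI a b) (h : R.HGm P M γ) : ∀ᶠ α in 𝓝 γ, R.HGm P M α := by
  obtain ⟨r1, a1, a2⟩ := h
  obtain ⟨r2, b1, b2⟩ := mem_GI_iff.1 hγ
  have hr : 0 < min r1 r2 := lt_min a1 b1
  have k0 := a2 _ ⟨hr.le, min_le_left _ _⟩
  have hon : ∀ x ∈ Icc 0 (min r1 r2), R.On (P (γ.ap x)) (P γ.c) (P (γ.ap (min r1 r2))) := by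
    intro x hx
    refine hP.on (c_mem_of_GI hγ) (b2 _ ⟨hr.le, min_le_right _ _⟩) ?_
    rw [← γ.ap_zero, Gm.ap_mem_uIcc, uIcc_of_le hr.le]
    exact hx
  refine eventually_gm.2 ⟨_, hr, fun δ hδ => ?_⟩
  obtain ⟨r', k1, k2⟩ := mem_GI_iff.1 hδ
  refine ⟨r', k1, fun s hs => ?_⟩
  rw [Gm.mul_c', Gm.mul_ap]
  exact R.harc_sub k0 (hon _ (c_mem_of_GI hδ)) (hon _ (k2 s hs))
theorem HGm.mv {M : Subgroup R.W} (h : R.HGm P M γ) (k : R.Mv P γ g β) : R.HGm P M β := by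
  have k0 := Mv2.pt k
  obtain ⟨r, h1, h2⟩ := h
  obtain ⟨r', k1, k2⟩ := k
  exact ⟨min r r', lt_min h1 k1, fun s hs =>
    ((harc_mul_left g).2 (h2 s ⟨hs.1, hs.2.trans (min_le_left _ _)⟩)).congr k0
      (k2 s ⟨hs.1, hs.2.trans (min_le_right _ _)⟩)⟩

namespace Stb

theorem one_mem (P : ℝ → R.W) (p q : ℝ) : 1 ∈ R.KK P p q := rl_one P p q
theorem mul_mem (h : g ∈ R.KK P p q) (h' : g' ∈ R.KK P p q) : g * g' ∈ R.KK P p q := by
  have k := Rl.comp h' h fun t ht => by simpa using ht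
  rwa [mul_one] at k
theorem inv_mem (h : g ∈ R.KK P p q) : g⁻¹ ∈ R.KK P p q := by
  have k := Rl.inv (u' := p) (v' := q) h fun t ht => by simpa using ht
  rwa [inv_one] at k
theorem mv_of_mem (h : k ∈ R.KK P p q) (hγ : γ ∈ GI p q) : R.Mv P γ k γ := by
  have e := Rl.mv h hγ
  rwa [one_mul] at e
theorem mem_of_mv (S : R.Stb P p q) (hγ : γ ∈ GI p q) (h : R.Mv P γ k γ) : k ∈ R.KK P p q := by
  obtain ⟨u, v, -, h1, h2, h3⟩ := h.mover hγ hγ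
  rw [mul_inv_cancel] at h3
  exact S.stab u v (h2 u ⟨le_rfl, h1.le⟩).1.1 h1 (h2 v ⟨h1.le, le_rfl⟩).1.2 k h3
/-- movers are determined modulo the stabiliser -/
theorem coset (S : R.Stb P p q) (hγ : γ ∈ GI p q) (h : R.Mv P γ g β) (h' : R.Mv P γ g' β) :
    g⁻¹ * g' ∈ R.KK P p q := by
  exact S.mem_of_mv hγ (h'.trans h.symm)
theorem coset' (S : R.Stb P p q) (hβ : β ∈ GI p q) (h : R.Mv P γ g β) (h' : R.Mv P γ g' β) :
    g' * g⁻¹ ∈ R.KK P p q := by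
  exact S.mem_of_mv hβ (h.symm.trans h')
theorem conj (S : R.Stb P p q) (hγ : γ ∈ GI p q) (hβ : β ∈ GI p q) (h : R.Mv P γ g β) :
    k ∈ R.KK P p q ↔ g * k * g⁻¹ ∈ R.KK P p q := by
  constructor
  · intro e
    rw [mul_assoc]
    exact S.mem_of_mv hβ ((h.symm.trans (mv_of_mem e hγ)).trans h)
  · intro e
    have k1 := S.mem_of_mv hγ ((h.trans (mv_of_mem e hβ)).trans h.symm)
    rwa [inv_mul_cancel_right, inv_mul_cancel_left] at k1
theorem finite_mv (S : R.Stb P p q) (hγ : γ ∈ GI p q) (β : Gm) : {g | R.Mv P γ g β}.Finite := by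
  rcases {g | R.Mv P γ g β}.eq_empty_or_nonempty with e | ⟨g0, h0⟩
  · rw [e]
    exact finite_empty
  · exact (S.fin.image (g0 * ·)).subset fun g hg =>
      ⟨g0⁻¹ * g, S.coset hγ h0 hg, mul_inv_cancel_left g0 g⟩
/-- a mover of one germ of an arc realises the whole arc -/
theorem rl_of_mv (S : R.Stb P p q) (h : R.arc P p q φ u v) (hγ : γ ∈ GI u v)
    (hg : R.Mv P γ g (φ * γ)) : R.Rl P g φ u v := by
  obtain ⟨g0, h0⟩ := h
  have k := h0.mem hγ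
  have k1 : R.Rl P (g0⁻¹ * g) 1 u v := Rl.mono (S.coset k.1 k.2.2 hg)
    (h0.2.1 u ⟨le_rfl, h0.1.le⟩).1.1 (h0.2.1 v ⟨h0.1.le, le_rfl⟩).1.2
  have k2 := k1.comp h0.2.2 fun t ht => by simpa using ht
  rwa [mul_inv_cancel_left, mul_one] at k2
theorem mv_opp (S : R.Stb P p q) (h : RW2 (R.arc P p q) γ β) (hg : R.Mv P γ g β) :
    R.Mv P γ.opp g β.opp := by
  obtain ⟨u, v, h1, h2, h3⟩ := h
  have k1 := S.rl_of_mv (g := g) h3 (mem_GI_of_Ioo h1 h2) (by rwa [inv_mul_cancel_right])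
  have k2 := k1.mv (γ := γ.opp) (mem_GI_of_Ioo (by simpa using h1) (by simpa using h2))
  rwa [Gm.mul_opp, inv_mul_cancel_right] at k2
theorem pg (S : R.Stb P p q) : PG (R.arc P p q) := by
  refine ⟨?_, ?_, ?_, ?_, ?_, S.small⟩
  · rintro φ u v ⟨g, h⟩
    exact h.1
  · rintro φ u v u' v' ⟨g, h⟩ h1 h2 h3
    exact ⟨g, h2, fun t ht => h.2.1 t (Icc_subset_Icc h1 h3 ht), h.2.2.mono h1 h3⟩
  · rintro φ u v u' v' ⟨g, h⟩ h1 e
    refine ⟨g⁻¹, h1, fun t ht => ⟨?_, (h.2.1 _ (e t ht)).1⟩, h.2.2.inv e⟩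
    simpa using (h.2.1 _ (e t ht)).2
  · rintro φ ψ u v u' v' ⟨g, h⟩ ⟨g', h'⟩ e
    refine ⟨g' * g, h.1, fun t ht => ⟨(h.2.1 t ht).1, ?_⟩, h.2.2.comp h'.2.2 e⟩
    rw [Gm.mul_ap]
    exact (h'.2.1 _ (e t ht)).2
  · rintro φ u v u' v' ⟨g, h⟩ ⟨g', h'⟩ h1 h2 h3
    have k := S.rl_of_mv ⟨g', h'⟩ (tau_mem_GI.2 ⟨le_rfl, h'.1⟩)
      (h.2.2.mv (tau_mem_GI.2 ⟨h1, h2⟩))
    refine ⟨g, h.1.trans_le h3, fun t ht => ?_, fun t ht => ?_⟩
    · rcases le_total t v with e | e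
      exacts [h.2.1 t ⟨ht.1, e⟩, h'.2.1 t ⟨h2.le.trans e, ht.2⟩]
    · rcases le_total t v with e | e
      exacts [h.2.2 t ⟨ht.1, e⟩, k t ⟨h2.le.trans e, ht.2⟩]
theorem stab_of_mem (h : k ∈ R.KK P p q) (hu : u ∈ Icc p q) (hv : v ∈ Icc p q) :
    R.Stab (P u) (P v) k := by
  exact ⟨d_zero_symm (by simpa using h u hu), d_zero_symm (by simpa using h v hv)⟩

end Stb

namespace Setup

variable {A : Finset R.W} {ι : Type} {S : Sys ι} {gg : ι → R.W} {s : R.W → ℝ} {w w' : R.W}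

theorem co_sec (R : LG) (s : R.W → ℝ) (w : R.W) : CO (R.sec s w) := co_GI
theorem co_secs (R : LG) (s : R.W → ℝ) (A : Finset R.W) : CO (R.secs s A) := by
  have e : R.secs s A = ⋃ w ∈ (A : Set R.W), R.sec s w := by
    ext γ
    simp [secs]
  rw [e]
  exact CO.biUnion A.finite_toSet fun w _ => co_sec R s w
theorem pos_of_mem (h : γ ∈ R.sec s w) : 0 < R.ℓ w := by
  have k := lt_of_mem_GI h
  linarith
theorem in' (H : R.Setup P A S gg s) : S.In (R.secs s A) := by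
  intro i γ hγ
  rcases H.band i with e | ⟨u, v, -, e, -, w, hw, h1, h2⟩
  · rw [e] at hγ
    exact hγ.elim
  · rw [e] at hγ
    exact ⟨w, hw, GI_mono h1 h2 hγ⟩
theorem mv (H : R.Setup P A S gg s) {i : ι} (h : γ ∈ S.dom i) : R.Mv P γ (gg i) (S.φ i * γ) := by
  rcases H.band i with e | ⟨u, v, -, e, k, -⟩
  · rw [e] at h
    exact h.elim
  · rw [e] at h
    exact k.mv h
theorem mv_of_rel (H : R.Setup P A S gg s) (h : S.Rel γ β) : ∃ g, R.Mv P γ g β := by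
  induction h with
  | refl => exact ⟨1, mv_one P γ⟩
  | tail _ k ih =>
    obtain ⟨g, hg⟩ := ih
    obtain ⟨i, hi, rfl⟩ := k
    exact ⟨_, hg.trans (H.mv hi)⟩
theorem sec_unique (H : R.Setup P A S gg s) (hw : w ∈ A) (hw' : w' ∈ A) (h : γ ∈ R.sec s w)
    (h' : γ ∈ R.sec s w') : w = w' := by
  exact H.disj w hw w' hw' γ.c (c_mem_of_GI h) (c_mem_of_GI h')
/-- a segment inside the union of the sections lies in one section -/
theorem seg_in_sec (H : R.Setup P A S gg s) (h : u < v) (k : GI u v ⊆ R.secs s A) :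
    ∃ w ∈ A, s w ≤ u ∧ v ≤ s w + R.ℓ w := by
  obtain ⟨w, hw, h1⟩ := k (tau_mem_GI.2 ⟨le_rfl, h⟩)
  obtain ⟨a1, a2⟩ := tau_mem_GI.1 h1
  refine ⟨w, hw, a1, le_of_not_gt fun e => ?_⟩
  obtain ⟨w', hw', h2⟩ := k (tau_mem_GI.2 ⟨a2.le, e⟩)
  obtain ⟨b1, b2⟩ := tau_mem_GI.1 h2
  obtain rfl := H.disj w hw w' hw' _ ⟨a1.trans a2.le, le_rfl⟩ ⟨b1, b2.le⟩
  exact lt_irrefl _ b2
theorem on_sec (H : R.Setup P A S gg s) (hw : w ∈ A) (h0 : 0 < R.ℓ w) {t : ℝ}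
    (ht : t ∈ Icc (s w) (s w + R.ℓ w)) : R.On (P t) 1 w := by
  have hle : s w ≤ s w + R.ℓ w := by linarith
  have k := (H.iso w hw).on ⟨le_rfl, hle⟩ ⟨hle, le_rfl⟩ (by rwa [uIcc_of_le hle])
  rwa [H.start w hw h0, H.stop w hw h0] at k
theorem hgm_of_mem (H : R.Setup P A S gg s) {M : Subgroup R.W} (hw : w ∈ A) (hM : w ∈ M)
    (h : γ ∈ R.sec s w) : R.HGm P M γ := by
  obtain ⟨r, h1, h2⟩ := mem_GI_iff.1 h
  have h0 := pos_of_mem h
  refine ⟨r, h1, fun t ht => ⟨1, w, hM, ?_, ?_⟩⟩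
  · rw [one_mul]
    exact H.on_sec hw h0 (c_mem_of_GI h)
  · rw [one_mul]
    exact H.on_sec hw h0 (h2 t ht)
/-- a whole segment that the domains do not cut is moved along the orbit -/
theorem rl_of_rel (H : R.Setup P A S gg s) {r : ℝ} (hr : 0 < r)
    (hd : ∀ α ∈ S.orb γ, ∀ i, α ∈ S.dom i → seg α r ⊆ S.dom i) (h : S.Rel γ β) :
    ∃ g, ∀ t ∈ Icc 0 r, R.d (g * P (γ.ap t)) (P (β.ap t)) = 0 := by
  induction h with
  | refl => exact ⟨1, fun t _ => by simp⟩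
  | tail k0 k ih =>
    obtain ⟨g, hg⟩ := ih
    obtain ⟨i, hi, rfl⟩ := k
    have k1 := hd _ k0 i hi
    rcases H.band i with e | ⟨u, v, -, e, k2, -⟩
    · rw [e] at hi
      exact hi.elim
    · rw [e, seg_subset_GI hr] at k1
      refine ⟨gg i * g, fun t ht => ?_⟩
      rw [Gm.mul_ap]
      exact MvBA.dz_mul (hg t ht) (k2 _ (k1 t ht))

end Setup

end LG

end Pool.Agent.P.MP_dba3d2_lc


end

section

/-! Chapter D toolbox: the sides of an edge when the leaves are trees. -/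

namespace Pool.Agent.P.MP_dba3d2_lc

open Set Filter Topology

namespace Sys

variable {ι : Type} {S : Sys ι} {i j : ι} {α β γ δ : Gm}

theorem StepX.step (h : S.StepX i γ α β) : S.Step α β := by
  obtain ⟨j, h1, h2, -⟩ := h
  exact ⟨j, h1, h2⟩
theorem StepX.symm (h : S.StepX i γ α β) : S.StepX i γ β α := by
  obtain ⟨j, h1, rfl, h3, h4⟩ := h
  refine ⟨S.inv j, S.map j α h1, (S.φ_inv_mul j α).symm, ?_, ?_⟩
  · rintro ⟨rfl, rfl⟩
    exact h4 ⟨(S.inv_inv j).symm, (S.φ_inv_mul j α).symm⟩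
  · rintro ⟨a, b⟩
    obtain rfl := S.inv_injective a
    exact h3 ⟨rfl, mul_left_cancel b⟩
theorem SideBA.symm (h : Relation.ReflTransGen (S.StepX i γ) α β) :
    Relation.ReflTransGen (S.StepX i γ) β α := by
  induction h with
  | refl => exact Relation.ReflTransGen.refl
  | tail _ k ih => exact Relation.ReflTransGen.head k.symm ih
theorem stepX_rev : S.StepX (S.inv i) (S.φ i * γ) α β ↔ S.StepX i γ α β := by
  simp only [StepX, S.inv_inv, S.φ_inv_mul]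
  exact exists_congr fun j => ⟨fun ⟨a, b, c, d⟩ => ⟨a, b, d, c⟩, fun ⟨a, b, c, d⟩ => ⟨a, b, d, c⟩⟩
theorem self_mem_side (S : Sys ι) (i : ι) (γ : Gm) : γ ∈ S.Side i γ := Relation.ReflTransGen.refl
theorem side_subset_orb (S : Sys ι) (i : ι) (γ : Gm) : S.Side i γ ⊆ S.orb γ := by
  intro β h
  induction h with
  | refl => exact Rel.refl S γ
  | tail _ k ih => exact Rel.trans ih k.step.rel
theorem side_step (h : α ∈ S.Side i γ) (k : α ∈ S.dom j) (h1 : ¬(j = i ∧ α = γ))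
    (h2 : ¬(j = S.inv i ∧ α = S.φ i * γ)) : S.φ j * α ∈ S.Side i γ := by
  exact Relation.ReflTransGen.tail h ⟨j, k, rfl, h1, h2⟩
theorem side_step_iff (k : α ∈ S.dom j) (h1 : ¬(j = i ∧ α = γ))
    (h2 : ¬(j = S.inv i ∧ α = S.φ i * γ)) : α ∈ S.Side i γ ↔ S.φ j * α ∈ S.Side i γ := by
  exact ⟨fun h => side_step h k h1 h2, fun h =>
    Relation.ReflTransGen.tail h (StepX.symm ⟨j, k, rfl, h1, h2⟩)⟩
theorem orb_eq_sides (h : γ ∈ S.dom i) :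
    S.orb γ = S.Side i γ ∪ S.Side (S.inv i) (S.φ i * γ) := by
  refine Subset.antisymm (fun β hβ => ?_) (union_subset (S.side_subset_orb i γ)
    fun β hβ => (rel_φ h).trans (S.side_subset_orb _ _ hβ))
  induction hβ with
  | refl => exact Or.inl (S.self_mem_side i γ)
  | @tail α β _ k ih =>
    obtain ⟨j, k1, rfl⟩ := k
    by_cases h1 : j = i ∧ α = γ
    · rw [h1.1, h1.2]
      exact Or.inr (S.self_mem_side _ _)
    by_cases h2 : j = S.inv i ∧ α = S.φ i * γ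
    · rw [h2.1, h2.2, S.φ_inv_mul]
      exact Or.inl (S.self_mem_side _ _)
    exact ih.imp (fun a => side_step a k1 h1 h2) fun a =>
      Relation.ReflTransGen.tail a (stepX_rev.2 ⟨j, k1, rfl, h1, h2⟩)
theorem Tree.ne (T : S.Tree) (h : γ ∈ S.dom i) : S.φ i * γ ≠ γ := by
  intro e
  exact T i γ h (by rw [e]; exact S.self_mem_side i γ)
theorem Tree.disjoint (T : S.Tree) (h : γ ∈ S.dom i) :
    Disjoint (S.Side i γ) (S.Side (S.inv i) (S.φ i * γ)) := by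
  refine Set.disjoint_left.2 fun β h1 h2 => T i γ h ?_
  have e : S.StepX (S.inv i) (S.φ i * γ) = S.StepX i γ := by
    funext a b
    exact propext stepX_rev
  have h3 : Relation.ReflTransGen (S.StepX i γ) (S.φ i * γ) β := e ▸ h2
  exact Relation.ReflTransGen.trans h1 (SideBA.symm h3)
theorem SideBA.sub (T : S.Tree) (h : γ ∈ S.dom i) (k : δ ∈ S.Side i γ) (n : γ ∉ S.Side j δ) :
    S.Side j δ ⊆ S.Side i γ := by
  intro β hβ
  induction hβ with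
  | refl => exact k
  | @tail α β m1 m2 ih =>
    obtain ⟨l, l1, rfl, -⟩ := m2
    exact side_step ih l1 (fun a => n (a.2 ▸ m1)) fun a => T i γ h (a.2 ▸ ih)
/-- different edges at a germ lead to different germs -/
theorem Tree.idx (T : S.Tree) (h : γ ∈ S.dom i) (k : γ ∈ S.dom j) (e : S.φ i * γ = S.φ j * γ) :
    i = j := by
  by_contra n
  refine T i γ h ?_
  rw [e]
  exact side_step (S.self_mem_side i γ) k (fun a => n a.1.symm) fun a => T.ne h a.2.symm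
/-- the branch behind another edge at the source lies in the source side -/
theorem Tree.nest (T : S.Tree) (h : γ ∈ S.dom i) (k : γ ∈ S.dom j) (e : j ≠ i) :
    S.Side (S.inv j) (S.φ j * γ) ⊆ S.Side i γ ∧ γ ∉ S.Side (S.inv j) (S.φ j * γ) := by
  have n : γ ∉ S.Side (S.inv j) (S.φ j * γ) :=
    Set.disjoint_left.1 (T.disjoint k) (S.self_mem_side j γ)
  exact ⟨SideBA.sub T h (side_step (S.self_mem_side i γ) k (fun a => e a.1)
    fun a => T.ne h a.2.symm) n, n⟩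
theorem Tree.side_rec (T : S.Tree) (h : γ ∈ S.dom i) : β ∈ S.Side i γ ↔
    β = γ ∨ ∃ j, j ≠ i ∧ γ ∈ S.dom j ∧ β ∈ S.Side (S.inv j) (S.φ j * γ) := by
  refine ⟨fun hβ => ?_, ?_⟩
  · induction hβ with
    | refl => exact Or.inl rfl
    | @tail α β _ k ih =>
      obtain ⟨l, k1, rfl, k2, k3⟩ := k
      by_cases a : α = γ
      · subst a
        exact Or.inr ⟨l, fun b => k2 ⟨b, rfl⟩, k1, S.self_mem_side _ _⟩
      obtain ⟨j, j1, j2, j3⟩ := ih.resolve_left a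
      by_cases b : l = S.inv j ∧ α = S.φ j * γ
      · rw [b.1, b.2, S.φ_inv_mul]
        exact Or.inl rfl
      refine Or.inr ⟨j, j1, j2, side_step j3 k1 b fun c => a ?_⟩
      rw [c.2, S.φ_inv_mul]
  · rintro (rfl | ⟨j, j1, j2, j3⟩)
    · exact S.self_mem_side _ _
    · exact (T.nest h j2 j1).1 j3
/-- one of the two sides of an edge inside a side lies in that side -/
theorem Tree.side_sub (T : S.Tree) (h : γ ∈ S.dom i) (k : β ∈ S.dom j) (hβ : β ∈ S.Side i γ)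
    (e : ¬(j = i ∧ β = γ)) : S.φ j * β ∈ S.Side i γ ∧
    ((S.Side j β ⊆ S.Side i γ ∧ γ ∈ S.Side (S.inv j) (S.φ j * β)) ∨
      (S.Side (S.inv j) (S.φ j * β) ⊆ S.Side i γ ∧ γ ∈ S.Side j β)) := by
  have a : S.φ j * β ∈ S.Side i γ := side_step hβ k e fun b => T i γ h (b.2 ▸ hβ)
  refine ⟨a, ?_⟩
  have b : γ ∈ S.orb β := Rel.symm (S.side_subset_orb i γ hβ)
  rw [orb_eq_sides k] at b
  rcases b with b | b
  · exact Or.inr ⟨SideBA.sub T h a (Set.disjoint_left.1 (T.disjoint k) b), b⟩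
  · exact Or.inl ⟨SideBA.sub T h hβ (Set.disjoint_right.1 (T.disjoint k) b), b⟩
theorem Tree.am_iff [Finite ι] (T : S.Tree) : γ ∈ S.Am i ↔
    γ ∈ S.dom i ∧ ∃ j, j ≠ i ∧ γ ∈ S.dom j ∧ S.φ j * γ ∈ S.Am (S.inv j) := by
  refine ⟨fun ⟨h, k⟩ => ⟨h, ?_⟩, fun ⟨h, j, j1, j2, j3⟩ => ⟨h, j3.2.mono (T.nest h j2 j1).1⟩⟩
  by_contra n
  refine k (((finite_singleton γ).union (Set.Finite.biUnion (toFinite {j | j ≠ i ∧ γ ∈ S.dom j})
    (t := fun j => S.Side (S.inv j) (S.φ j * γ)) fun j hj => ?_)).subset fun β hβ => ?_)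
  · by_contra m
    exact n ⟨j, hj.1, hj.2, S.map j γ hj.2, m⟩
  · rcases (T.side_rec h).1 hβ with a | ⟨j, j1, j2, j3⟩
    · exact Or.inl a
    · exact Or.inr (mem_biUnion (t := fun j => S.Side (S.inv j) (S.φ j * γ))
        (show j ∈ {j | j ≠ i ∧ γ ∈ S.dom j} from ⟨j1, j2⟩) j3)
theorem am_or (h : γ ∈ S.dom i) (k : (S.orb γ).Infinite) :
    γ ∈ S.Am i ∨ S.φ i * γ ∈ S.Am (S.inv i) := by
  rw [orb_eq_sides h, infinite_union] at k
  exact k.imp (fun a => ⟨h, a⟩) fun a => ⟨S.map i γ h, a⟩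
theorem alive_rev : S.φ i * γ ∈ S.Alive (S.inv i) ↔ γ ∈ S.Alive i := by
  simp only [Alive, mem_ofPred_eq, S.inv_inv, S.φ_inv_mul]
  exact and_comm
/-- finite sides persist -/
theorem side_eventually [Finite ι] (k : (S.Side i γ).Finite) :
    ∀ᶠ α in 𝓝 γ, S.Side i α ⊆ (· * (γ⁻¹ * α)) '' S.Side i γ := by
  have a : ∀ᶠ α in 𝓝 γ, ∀ β ∈ S.Side i γ, ∀ j, β * (γ⁻¹ * α) ∈ S.dom j → β ∈ S.dom j := by
    refine (eventually_all_finite k).2 fun β _ => eventually_all.2 fun j => ?_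
    by_cases b : β ∈ S.dom j
    · exact Eventually.of_forall fun _ _ => b
    have c : IsOpen ((fun α => β * γ⁻¹ * α) ⁻¹' (S.dom j)ᶜ) :=
      (S.co j).isClosed.isOpen_compl.preimage (continuous_gm_mul _)
    filter_upwards [c.mem_nhds (x := γ) (by simpa using b)] with α h1 h2
    exact absurd h2 (by simpa [mul_assoc] using h1)
  filter_upwards [a] with α hα δ hδ
  induction hδ with
  | refl => exact ⟨γ, S.self_mem_side i γ, by simp⟩
  | @tail δ δ' _ m ih =>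
    obtain ⟨β, b1, rfl⟩ := ih
    obtain ⟨j, m1, rfl, m2, m3⟩ := m
    refine ⟨S.φ j * β, side_step b1 (hα β b1 j m1) (fun c => m2 ⟨c.1, ?_⟩)
      (fun c => m3 ⟨c.1, ?_⟩), mul_assoc _ _ _⟩
    · simp [c.2]
    · simp [c.2, mul_assoc]
theorem isClosed_am [Finite ι] (S : Sys ι) (i : ι) : IsClosed (S.Am i) := by
  refine isOpen_compl_iff.1 (isOpen_iff_mem_nhds.2 fun γ h => ?_)
  by_cases a : γ ∈ S.dom i
  · have b : (S.Side i γ).Finite := by_contra fun b => h ⟨a, b⟩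
    filter_upwards [side_eventually b] with α h1 h2
    exact h2.2 ((b.image _).subset h1)
  · filter_upwards [(S.co i).isClosed.isOpen_compl.mem_nhds a] with α h1 h2
    exact h1 h2.1
theorem isClosed_alive [Finite ι] (S : Sys ι) (i : ι) : IsClosed (S.Alive i) := by
  exact (S.isClosed_am i).inter ((S.isClosed_am (S.inv i)).preimage (continuous_gm_mul (S.φ i)))
theorem SideBA.ball (h : γ ∈ S.dom i) (n : ℕ) : ∀ α ∈ S.Side i γ, ¬S.Near n γ α →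
    ∀ β, S.Near n α β → β ∈ S.Side i γ := by
  induction n with
  | zero =>
    intro α a1 _ β b
    exact (show α = β from b) ▸ a1
  | succ n ih =>
    intro α a1 a2 β b
    rcases b with b | ⟨δ, b1, b2⟩
    · exact ih α a1 (fun c => a2 (c.mono n.le_succ)) β b
    · refine ih δ ?_ (fun c => a2 (c.tail b1.symm)) β b2
      obtain ⟨l, l1, rfl⟩ := b1
      have c0 : S.Near 0 γ γ := rfl
      refine side_step a1 l1 (fun c => a2 ?_) fun c => a2 ?_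
      · rw [c.2]
        exact c0.mono (Nat.zero_le _)
      · rw [c.2]
        exact (c0.tail ⟨i, h, rfl⟩).mono (by omega)
/-- an infinite side contains balls of every radius -/
theorem exists_ball_in_side [Finite ι] (h : γ ∈ S.Am i) (n : ℕ) :
    ∃ α ∈ S.Side i γ, ∀ β, S.Near n α β → β ∈ S.Side i γ := by
  obtain ⟨α, a1, a2⟩ := (h.2.sdiff (S.finite_near n γ)).nonempty
  exact ⟨α, a1, SideBA.ball h.1 n α a1 a2⟩

end Sys

end Pool.Agent.P.MP_dba3d2_lc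


end

section

/-! Chapter D toolbox: line systems. -/

namespace Pool.Agent.P.MP_dba3d2_lc

open Set Filter Topology

variable {A : Gm → ℝ → ℝ → Prop} {α β γ δ φ : Gm} {u v r : ℝ}

@[simp] theorem fl_fl (y : Gm × Bool) : fl (fl y) = y := by simp [fl]
@[simp] theorem fl_fst (y : Gm × Bool) : (fl y).1 = y.1 := rfl
@[simp] theorem fl_snd (y : Gm × Bool) : (fl y).2 = !y.2 := rfl

namespace LS

variable {X U : Set Gm} (L : LS X) {y : Gm × Bool} {m n : ℤ}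

theorem inv_apply (y : Gm × Bool) : L.f⁻¹ y = fl (L.f (fl y)) := by
  rw [Equiv.Perm.inv_eq_iff_eq, L.rev, fl_fl]
theorem zpow_fl (n : ℤ) (y : Gm × Bool) : (L.f ^ n) (fl y) = fl ((L.f ^ (-n)) y) := by
  have h : SemiconjBy (Function.Involutive.toPerm fl fl_fl) L.f⁻¹ L.f :=
    Equiv.ext fun y => (congrArg fl (L.inv_apply y)).trans (fl_fl _)
  have k := Equiv.congr_fun (h.zpow_right n).eq y
  rw [inv_zpow'] at k
  exact k.symm
theorem zpow_add (m n : ℤ) (y : Gm × Bool) : (L.f ^ (m + n)) y = (L.f ^ m) ((L.f ^ n) y) := by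
  rw [_root_.zpow_add, Equiv.Perm.mul_apply]
@[simp] theorem at_zero (y : Gm × Bool) : L.at' y 0 = y.1 := by
  simp [at']
theorem at_one (y : Gm × Bool) : L.at' y 1 = (L.f y).1 := by
  simp [at']
theorem at_nat (y : Gm × Bool) (k : ℕ) : L.at' y k = ((L.f ^ k) y).1 := by
  rw [at', zpow_natCast]
theorem at_fl (y : Gm × Bool) (n : ℤ) : L.at' (fl y) n = L.at' y (-n) := by
  rw [at', zpow_fl, fl_fst, at']
theorem at_add (y : Gm × Bool) (m n : ℤ) : L.at' ((L.f ^ n) y) m = L.at' y (m + n) := by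
  rw [at', at', zpow_add]
theorem LsBA.succ (y : Gm × Bool) (n : ℤ) : (L.f ^ (n + 1)) y = L.f ((L.f ^ n) y) := by
  rw [add_comm, zpow_add, zpow_one]
theorem LsBA.pred (y : Gm × Bool) (n : ℤ) : (L.f ^ (n - 1)) y = L.f⁻¹ ((L.f ^ n) y) := by
  rw [sub_eq_neg_add, zpow_add, zpow_neg_one]
theorem LsBA.ind {Q : Gm → Prop} (h0 : Q y.1) (h1 : ∀ z : Gm × Bool, Q z.1 → Q (L.f z).1)
    (n : ℤ) : Q (L.at' y n) := by
  induction n using Int.induction_on with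
  | zero => rwa [at_zero]
  | succ i ih =>
    rw [at', LsBA.succ]
    exact h1 _ ih
  | pred i ih =>
    rw [at', LsBA.pred, inv_apply]
    exact h1 (fl _) ih
theorem at_mem (h : y.1 ∈ X) (n : ℤ) : L.at' y n ∈ X :=
  LsBA.ind L (Q := (· ∈ X)) h (fun z k => (L.mem z).2 k) n
theorem at_inj (h : y.1 ∈ X) (e : L.at' y m = L.at' y n) : m = n := L.inj y h e
theorem rel_iff (e : Bool) : L.Rel γ β ↔ ∃ n, L.at' (γ, e) n = β := by
  cases e
  · exact ⟨fun ⟨n, h⟩ => ⟨-n, (L.at_fl (γ, true) (-n)).trans (by rwa [neg_neg])⟩,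
      fun ⟨n, h⟩ => ⟨-n, (L.at_fl (γ, true) n).symm.trans h⟩⟩
  · rfl
theorem rel_at (y : Gm × Bool) (m n : ℤ) : L.Rel (L.at' y m) (L.at' y n) :=
  (L.rel_iff ((L.f ^ m) y).2).2 ⟨n - m, (L.at_add y (n - m) m).trans (by rw [sub_add_cancel])⟩
theorem rel_refl (γ : Gm) : L.Rel γ γ :=
  ⟨0, L.at_zero _⟩
theorem Rel.symm {L : LS X} (h : L.Rel γ β) : L.Rel β γ := by
  obtain ⟨n, rfl⟩ := h
  simpa using L.rel_at (γ, true) n 0
theorem Rel.trans {L : LS X} (h : L.Rel α β) (k : L.Rel β γ) : L.Rel α γ := by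
  obtain ⟨n, rfl⟩ := h
  obtain ⟨m, rfl⟩ := (L.rel_iff ((L.f ^ n) (α, true)).2).1 k
  exact ⟨m + n, (L.at_add (α, true) m n).symm⟩
theorem Rel.mem {L : LS X} (h : L.Rel γ β) (k : γ ∈ X) : β ∈ X := by
  obtain ⟨n, rfl⟩ := h
  exact L.at_mem k n
theorem LsBA.loc1 (h : y.1 ∈ X) :
    ∀ᶠ δ in 𝓝 (1 : Gm), L.f (y.1 * δ, y.2) = ((L.f y).1 * δ, (L.f y).2) :=
  eventually_gm'.2 ⟨by simp, by simpa using L.loc y h⟩
/-- iterates are locally left multiplications -/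
theorem zpow_eventually (h : y.1 ∈ X) (n : ℤ) : ∃ r > 0, ∀ δ ∈ GI 0 r, y.1 * δ ∈ X ∧
    (L.f ^ n) (y.1 * δ, y.2) = (((L.f ^ n) y).1 * δ, ((L.f ^ n) y).2) := by
  have k : ∀ᶠ δ in 𝓝 (1 : Gm),
      (L.f ^ n) (y.1 * δ, y.2) = (((L.f ^ n) y).1 * δ, ((L.f ^ n) y).2) := by
    induction n using Int.induction_on with
    | zero => simp
    | succ i ih =>
      filter_upwards [ih, LsBA.loc1 L (y := (L.f ^ (i : ℤ)) y) (L.at_mem h i)] with δ a b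
      rw [LsBA.succ, LsBA.succ, a, b]
    | pred i ih =>
      filter_upwards [ih, LsBA.loc1 L (y := fl ((L.f ^ (-i : ℤ)) y)) (L.at_mem h (-i))] with δ a b
      rw [LsBA.pred, LsBA.pred, a, inv_apply, inv_apply]
      exact congrArg fl b
  have k' : ∀ᶠ δ in 𝓝 (1 : Gm), y.1 * δ ∈ X :=
    (L.co.2.preimage (continuous_gm_mul y.1)).mem_nhds (by simpa using h)
  simpa using eventually_gm.1 (k'.and k)
/-- half leaves visit every open set with bounded gaps -/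
theorem exists_visit (hU : IsOpen U) (hne : (U ∩ X).Nonempty) :
    ∃ B : ℕ, ∀ y : Gm × Bool, y.1 ∈ X → ∃ n : ℕ, 0 < n ∧ n ≤ B ∧ L.at' y n ∈ U := by
  obtain ⟨B, hB⟩ := L.co.exists_bound
    (p := fun B γ => ∃ n : ℤ, |n| ≤ B ∧ L.at' (γ, true) n ∈ U)
    (fun a b γ h ⟨n, h1, h2⟩ => ⟨n, h1.trans (by exact_mod_cast h), h2⟩) fun γ hγ => by
      obtain ⟨x, h1, h2⟩ := hne
      obtain ⟨_, h3, n, rfl⟩ := mem_closure_iff.1 (L.den γ hγ h2) U hU h1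
      obtain ⟨r, r0, hr⟩ := L.zpow_eventually (y := (γ, true)) hγ n
      obtain ⟨s, s0, hs⟩ := eventually_gm.1 (hU.mem_nhds h3)
      refine ⟨n.natAbs, eventually_gm.2 ⟨min r s, lt_min r0 s0, fun δ hδ => ⟨n, by simp, ?_⟩⟩⟩
      rw [at', (hr δ (GI_mono le_rfl (min_le_left _ _) hδ)).2]
      exact hs δ (GI_mono le_rfl (min_le_right _ _) hδ)
  refine ⟨2 * B + 1, fun y hy => ?_⟩
  obtain ⟨n, h1, h2⟩ : ∃ n : ℤ, |n| ≤ B ∧ L.at' ((L.f ^ (B + 1 : ℤ)) y) n ∈ U := by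
    have := hB _ (L.at_mem hy (B + 1))
    rw [at'] at this
    generalize (L.f ^ (B + 1 : ℤ)) y = z at this ⊢
    obtain ⟨n, h1, h2⟩ := this
    obtain ⟨γ, _ | _⟩ := z
    · exact ⟨-n, by rwa [abs_neg], L.at_fl (γ, false) n ▸ h2⟩
    · exact ⟨n, h1, h2⟩
  rw [at_add] at h2
  rw [abs_le] at h1
  refine ⟨(n + (B + 1)).toNat, by omega, by omega, ?_⟩
  rwa [Int.toNat_of_nonneg (by omega)]
theorem countable_leaf (γ : Gm) : {β | L.Rel γ β}.Countable :=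
  countable_range (L.at' (γ, true))
/-- the steps of a line system form a finite system -/
theorem exists_sys : ∃ (κ : Type) (_ : Fintype κ) (ψ : κ → Gm) (W : κ → Set Gm),
    (∀ k, CO (W k) ∧ W k ⊆ X ∧ ∀ γ ∈ W k, ∃ e, (L.f (γ, e)).1 = ψ k * γ) ∧
    ∀ y : Gm × Bool, y.1 ∈ X → ∃ k, y.1 ∈ W k ∧ (L.f y).1 = ψ k * y.1 := by
  have h1 : ∀ e, ∀ γ ∈ X, ∀ᶠ β in 𝓝 γ, (L.f (β, e)).1 * β⁻¹ = (L.f (γ, e)).1 * γ⁻¹ :=
    fun e γ hγ => by
      obtain ⟨r, r0, hr⟩ := L.loc (γ, e) hγ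
      exact eventually_gm'.2 ⟨rfl, r, r0, fun δ a b => by rw [hr δ a b]; group⟩
  have h2 : {k : Gm × Bool | k.1 ∈ (fun γ => (L.f (γ, k.2)).1 * γ⁻¹) '' X}.Finite :=
    (((L.co.finite_image (h1 true)).union (L.co.finite_image (h1 false))).prod
      (finite_univ (α := Bool))).subset fun k hk => by
        obtain ⟨a, _ | _⟩ := k
        exacts [⟨Or.inr hk, trivial⟩, ⟨Or.inl hk, trivial⟩]
  refine ⟨_, h2.fintype, fun k => k.1.1, fun k => {γ | γ ∈ X ∧ (L.f (γ, k.1.2)).1 * γ⁻¹ = k.1.1},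
    fun k => ⟨L.co.sep fun γ hγ => (h1 _ γ hγ).mono fun β e => by rw [e], fun γ h => h.1,
      fun γ h => ⟨_, eq_mul_of_mul_inv_eq h.2⟩⟩, fun y hy => ?_⟩
  exact ⟨⟨((L.f y).1 * y.1⁻¹, y.2), y.1, hy, rfl⟩, ⟨hy, rfl⟩, (inv_mul_cancel_right _ _).symm⟩
/-- a system that contains the steps relates the germs of a leaf -/
theorem rel_sys {ι : Type} {S : Sys ι} (h : ∀ y : Gm × Bool, y.1 ∈ X → S.Rel y.1 (L.f y).1)
    (hγ : γ ∈ X) (k : L.Rel γ β) : S.Rel γ β := by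
  obtain ⟨n, rfl⟩ := k
  exact (LsBA.ind L (Q := fun β => β ∈ X ∧ S.Rel γ β) ⟨hγ, Sys.Rel.refl S γ⟩
    (fun z k => ⟨(L.mem z).2 k.1, k.2.trans (h z k.1)⟩) n).2
theorem Weak.rw {L : LS X} (P : PG A) (h : L.Weak A) (hγ : γ ∈ X) (k : L.Rel γ β) : RW A γ β := by
  obtain ⟨n, rfl⟩ := k
  exact (LsBA.ind L (Q := fun β => β ∈ X ∧ RW A γ β)
    ⟨hγ, P.rw_trans (h (γ, true) hγ) (P.rw_symm (h (γ, true) hγ))⟩
    (fun z k => ⟨(L.mem z).2 k.1, P.rw_trans k.2 (h z k.1)⟩) n).2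
theorem LsBA.rel_nat (y : Gm × Bool) (k : ℕ) : L.Rel y.1 ((L.f ^ k) y).1 := by
  simpa [at_nat] using L.rel_at y 0 k
theorem LsBA.rel_f (y : Gm × Bool) : L.Rel y.1 (L.f y).1 := by
  simpa using LsBA.rel_nat L y 1
theorem Sat.weak {L : LS X} (h : L.Sat A) : L.Weak A := fun y hy =>
  (h _ hy _ ((L.mem y).2 hy)).1 (LsBA.rel_f L y)
/-- only finitely many steps are one sided -/
theorem Weak.finite_sing {L : LS X} (h : L.Weak A) :
    {y : Gm × Bool | y.1 ∈ X ∧ ¬RW2 A y.1 (L.f y).1}.Finite := by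
  have k : ∀ e, {γ | γ ∈ X ∧ ¬RW2 A γ (L.f (γ, e)).1}.Finite := fun e =>
    L.co.finite_of_isolated fun γ hγ => by
      obtain ⟨r, r0, hr⟩ := L.loc (γ, e) hγ
      obtain ⟨s, s0, hs⟩ := (h (γ, e) hγ).rw2
      refine ⟨min r s, lt_min r0 s0, fun δ a b => not_not.2 ?_⟩
      rw [hr δ a (b.trans_le (min_le_left _ _))]
      exact hs δ a (b.trans_le (min_le_right _ _))
  refine (((k true).union (k false)).prod (finite_univ (α := Bool))).subset fun y hy => ?_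
  obtain ⟨a, _ | _⟩ := y
  exacts [⟨Or.inr hy, trivial⟩, ⟨Or.inl hy, trivial⟩]
/-- a stretch of two sided steps is two sided -/
theorem rw2_stretch (P : PG A) (hmn : m < n)
    (h : ∀ k, m ≤ k → k < n → RW2 A ((L.f ^ k) y).1 (L.f ((L.f ^ k) y)).1) :
    RW2 A (L.at' y m) (L.at' y n) := by
  have k : ∀ j, m ≤ j → j < n → RW2 A (L.at' y j) (L.at' y (j + 1)) := fun j a b => by
    rw [at', at', LsBA.succ]
    exact h j a b
  clear h
  induction n, hmn using Int.leInduction with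
  | base => exact k m le_rfl (by omega)
  | succ n hn ih =>
    exact P.rw2_trans (ih fun j a b => k j a (by omega)) (k n (by omega) (by omega))
theorem IsRet.rel {X0 : Set Gm} {L0 : LS X0} {L : LS X} (h : L.IsRet L0) (hγ : γ ∈ X) (hβ : β ∈ X) :
    L.Rel γ β ↔ L0.Rel γ β := by
  constructor
  · rintro ⟨n, rfl⟩
    refine (LsBA.ind L (Q := fun β => β ∈ X ∧ L0.Rel γ β) ⟨hγ, L0.rel_refl γ⟩
      (fun z k => ⟨(L.mem z).2 k.1, k.2.trans ?_⟩) n).2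
    obtain ⟨r, -, e, -⟩ := h.2 z k.1
    exact e ▸ LsBA.rel_nat L0 z r
  have k : ∀ (n : ℕ) (y : Gm × Bool), y.1 ∈ X → ((L0.f ^ n) y).1 ∈ X →
      L.Rel y.1 ((L0.f ^ n) y).1 := by
    intro n
    induction n using Nat.strong_induction_on with
    | _ n ih =>
      intro y hy hn
      rcases Nat.eq_zero_or_pos n with rfl | n0
      · exact L.rel_refl _
      obtain ⟨r, r0, e, hr⟩ := h.2 y hy
      obtain ⟨j, rfl⟩ := Nat.exists_eq_add_of_le' (not_lt.1 fun c => hr n n0 c hn)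
      rw [pow_add, Equiv.Perm.mul_apply, ← e] at hn ⊢
      exact (LsBA.rel_f L y).trans (ih j (by omega) _ ((L.mem y).2 hy) hn)
  rintro ⟨n, rfl⟩
  obtain ⟨j, rfl | rfl⟩ := n.eq_nat_or_neg
  · rw [at_nat] at hβ ⊢
    exact k j (γ, true) hγ hβ
  · rw [← at_fl, at_nat] at hβ ⊢
    exact k j (fl (γ, true)) hγ hβ
theorem IsRet.weak {X0 : Set Gm} {L0 : LS X0} {L : LS X} (P : PG A) (h : L.IsRet L0)
    (k : L0.Weak A) : L.Weak A := fun y hy =>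
  k.rw P (h.1 hy) ((h.rel hy ((L.mem y).2 hy)).1 (LsBA.rel_f L y))
theorem IsRet.sat {X0 : Set Gm} {L0 : LS X0} {L : LS X} (h : L.IsRet L0) (k : L0.Sat A) :
    L.Sat A := fun γ hγ β hβ =>
  (h.rel hγ hβ).trans (k γ (h.1 hγ) β (h.1 hβ))

end LS

end Pool.Agent.P.MP_dba3d2_lc


end
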