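import Pool.Agent.P.MP_dba3d2_lcM.Db47
import Pool.Agent.P.MP_dba3d2_lcM.Db48
import Pool.Agent.P.MP_dba3d2_lcM.Db49
import Pool.Agent.P.MP_dba3d2_lcM.Db51
import Pool.Agent.P.MP_dba3d2_lcM.Db53

section

/-! Step D_LENS of the stability project. -/

namespace Pool.Agent.P.MP_dba3d2_lc

open Set Filter Topology

namespace D_lensA

variable {G : LG} {n : ℝ → G.W} {cut : Gm → G.W}

theorem jump (h : ∀ γ : Gm, ∃ r > 0, ∀ s, 0 < s → s ≤ r → (n γ.c)⁻¹ * n (γ.ap s) = cut γ)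
    (γ : Gm) : ∃ r > 0, ∀ s, 0 < s → s ≤ r → n (γ.ap s) = n γ.c * cut γ := by
  obtain ⟨r, r0, hr⟩ := h γ
  exact ⟨r, r0, fun s a b => by rw [← hr s a b, mul_inv_cancel_left]⟩

theorem valid (h : ∀ γ : Gm, ∃ r > 0, ∀ s, 0 < s → s ≤ r → n (γ.ap s) = n γ.c * cut γ)
    (g : G.W) (φ : Gm) (u v : ℝ) (huv : u ≤ v)
    (hc : ∀ γ ∈ GI u v, cut (φ * γ) = g * cut γ * g⁻¹) :
    n (φ.ap u) * g * (n u)⁻¹ = n (φ.ap v) * g * (n v)⁻¹ := by
  refine const_of_germs (c := fun t => n (φ.ap t) * g * (n t)⁻¹) huv fun γ hγ => ?_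
  obtain ⟨r, r0, hr⟩ := h γ
  obtain ⟨r', r0', hr'⟩ := h (φ * γ)
  refine ⟨min r r', lt_min r0 r0', fun s hs => ?_⟩
  rcases hs.1.eq_or_lt with e | e
  · rw [← e, Gm.ap_zero]
  have k1 := hr s e (hs.2.trans (min_le_left _ _))
  have k2 := hr' s e (hs.2.trans (min_le_right _ _))
  rw [Gm.mul_ap, Gm.mul_c', hc γ hγ] at k2
  simp only [k1, k2]
  group

theorem len (h : ∀ γ : Gm, ∃ r > 0, ∀ s, 0 < s → s ≤ r → n (γ.ap s) = n γ.c * cut γ)
    {f : ℝ → G.W} {p q : ℝ} (hf : ∀ s ∈ Icc p q, ∀ t ∈ Icc p q, G.d (f s) (f t) ≤ |s - t|)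
    (T : Finset Gm) (w : ℝ) (hw : 0 ≤ w)
    (h1 : ∀ γ ∈ GI p q, γ ∈ T → G.d (f γ.c) (cut γ * f γ.c) ≤ w)
    (h2 : ∀ γ ∈ GI p q, γ ∉ T → G.d (f γ.c) (cut γ * f γ.c) = 0) {u v : ℝ}
    (hu : p ≤ u) (huv : u ≤ v) (hv : v ≤ q) :
    G.d (n u * f u) (n v * f v) ≤ v - u + T.card * w := by
  classical
  have k := len_of_germs (d := G.d) LG.d_self LG.d_comm LG.d_triangle (f := fun t => n t * f t)
    (w := fun γ => if γ ∈ T then w else 0) T (fun γ => by split_ifs; exacts [hw, le_rfl])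
    (fun γ e => if_neg e) huv fun γ hγ => by
      have hγ' := GI_mono hu hv hγ
      obtain ⟨r, r0, hr⟩ := h γ
      obtain ⟨r', r0', hr'⟩ := mem_GI_iff.1 hγ'
      refine ⟨min r r', lt_min r0 r0', fun s s0 s1 => ?_⟩
      have a1 := hr s s0 (s1.trans (min_le_left _ _))
      have a2 := hr' s ⟨s0.le, s1.trans (min_le_right _ _)⟩
      have a3 := hf _ (c_mem_of_GI hγ') _ a2
      have a4 : |γ.c - γ.ap s| = s := by
        rw [← γ.ap_zero, Gm.abs_ap_sub, zero_sub, abs_neg, abs_of_pos s0]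
      have a5 := LG.d_triangle (f γ.c) (cut γ * f γ.c) (cut γ * f (γ.ap s))
      rw [LG.d_mul_left] at a5
      simp only [a1, mul_assoc, LG.d_mul_left]
      split_ifs with e
      · linarith [h1 γ hγ' e]
      · linarith [h2 γ hγ' e]
  rwa [Finset.sum_congr rfl fun γ e => if_pos e, Finset.sum_const, nsmul_eq_mul] at k

variable {ι : Type} {S : Sys ι} {F : Finset ℝ} {E : Finset Gm} {r : Gm → ℝ} {X : Set Gm}

theorem piece (h : ∀ γ : Gm, ∃ r > 0, ∀ s, 0 < s → s ≤ r → n (γ.ap s) = n γ.c * cut γ)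
    (hS : S.Fam X F E r) (h1 : ∀ γ, γ ∉ E → cut γ = 1) {γ : Gm} (hγ : γ ∈ E) :
    n (γ.ap (r γ)) = n γ.c * cut γ := by
  obtain ⟨ρ, ρ0, hρ⟩ := h γ
  have m0 : 0 < min ρ (r γ) := lt_min ρ0 (hS.pos γ hγ)
  rw [← hρ _ m0 (min_le_left _ _)]
  refine (const_of_germs (c := fun t => n (γ.ap t)) (min_le_right ρ (r γ)) fun δ hδ => ?_).symm
  have a1 : γ * δ ∉ E := fun e => by
    have a2 : γ * δ ∈ seg γ (r γ) := mul_mem_seg.2 (GI_mono m0.le le_rfl hδ)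
    have a3 := hS.disj γ hγ _ e _ a2 (self_mem_seg (hS.pos _ e))
    have a4 : δ = 1 := by simpa using a3
    have a5 := hδ.1
    rw [a4, Gm.one_c] at a5
    exact a5.not_gt m0
  obtain ⟨σ, σ0, hσ⟩ := h (γ * δ)
  refine ⟨σ, σ0, fun s hs => ?_⟩
  rcases hs.1.eq_or_lt with e | e
  · rw [← e, Gm.ap_zero]
  have k := hσ s e hs.2
  rwa [h1 _ a1, mul_one, Gm.mul_ap, Gm.mul_c'] at k

theorem inside (hS : S.Fam X F E r) {γ : Gm} (hγ : γ ∈ E) {z : ℝ}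
    (hz : z ∈ (F : Set ℝ) ∪ (Gm.c '' E ∪ (fun γ : Gm => γ.ap (r γ)) '' E))
    (z1 : min γ.c (γ.ap (r γ)) < z) (z2 : z < max γ.c (γ.ap (r γ))) : False := by
  have m : ∀ β : Gm, β.c = z → β ∈ seg γ (r γ) := fun β e => by
    rw [seg_eq_GI (hS.pos γ hγ).le]
    exact mem_GI_of_Ioo (e ▸ z1) (e ▸ z2)
  have k : ∀ β ∈ E, β.c = z → γ = β := fun β hβ e =>
    hS.disj γ hγ β hβ β (m β e) (self_mem_seg (hS.pos β hβ))
  rw [min_lt_iff] at z1
  rw [lt_max_iff] at z2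
  rcases hz with hz | ⟨β, hβ, e⟩ | ⟨β, hβ, e⟩
  · have t : ∀ β : Gm, β.c = z → γ = β := fun β e =>
      k β (hS.top β (hS.sub γ hγ β (m β e)).1 (hS.sub γ hγ β (m β e)).2 (e ▸ hz)) e
    exact Gm.opp_ne _ ((t (Gm.tau z).opp (by simp)).symm.trans (t (Gm.tau z) rfl))
  · have e' := k β hβ e
    subst e'
    rcases z1 with a | a <;> rcases z2 with b | b <;> linarith
  · have a1 : β * (Gm.tau (r β)).opp ∈ seg β (r β) :=
      mul_mem_seg.2 (opp_tau_mem_GI.2 ⟨hS.pos β hβ, le_rfl⟩)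
    have e' := hS.disj γ hγ β hβ _ (m _ (by rw [Gm.mul_c', Gm.opp_c, Gm.tau_c]; exact e)) a1
    subst e'
    simp only at e
    rcases z1 with a | a <;> rcases z2 with b | b <;> linarith

theorem zero (h : ∀ γ : Gm, ∃ r > 0, ∀ s, 0 < s → s ≤ r → n (γ.ap s) = n γ.c * cut γ)
    {f : ℝ → G.W} {p q : ℝ} (hS : S.Fam (GI p q) F E r) (h0 : ∀ β, (S.orb β).Finite)
    (h1 : ∀ γ, γ ∉ E → cut γ = 1) (h2 : ∀ γ ∈ E, G.d (f γ.c) (cut γ * f (γ.ap (r γ))) = 0)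
    {u v : ℝ} (hu : u ∈ F) (hv : v ∈ F) (pu : p ≤ u) (huv : u ≤ v) (vq : v ≤ q) :
    G.d (n u * f u) (n v * f v) = 0 := by
  have fin : ((F : Set ℝ) ∪ (Gm.c '' E ∪ (fun γ : Gm => γ.ap (r γ)) '' E)).Finite :=
    F.finite_toSet.union ((E.finite_toSet.image _).union (E.finite_toSet.image _))
  refine chain_ind fin (Q := fun u t => G.d (n u * f u) (n t * f t) = 0) huv (LG.d_self _) ?_
  intro s t k1 k2 k3 k4 k5 k6 ih
  have s1 := k4.elim id fun e => e ▸ Or.inl hu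
  have t1 := k5.elim id fun e => e ▸ Or.inl hv
  obtain ⟨γ, hγ, m⟩ := hS.cov (Gm.tau s) (tau_mem_GI.2 ⟨pu.trans k1, k2.trans_le (k3.trans vq)⟩)
    (h0 _)
  rw [seg_eq_GI (hS.pos γ hγ).le] at m
  have c1 : γ.c ∈ (F : Set ℝ) ∪ (Gm.c '' E ∪ (fun γ : Gm => γ.ap (r γ)) '' E) :=
    Or.inr (Or.inl ⟨γ, hγ, rfl⟩)
  have c2 : γ.ap (r γ) ∈ (F : Set ℝ) ∪ (Gm.c '' E ∪ (fun γ : Gm => γ.ap (r γ)) '' E) :=
    Or.inr (Or.inr ⟨γ, hγ, rfl⟩)
  obtain ⟨b1, b2⟩ := (GI_subset_iff k2).1 (GI_subset_of_free k6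
    (min_rec' (· ∈ _) c1 c2) (max_rec' (· ∈ _) c1 c2) ⟨_, tau_mem_GI.2 ⟨le_rfl, k2⟩, m⟩)
  have e1 : s = min γ.c (γ.ap (r γ)) :=
    le_antisymm (not_lt.1 fun e => inside hS hγ s1 e (k2.trans_le b2)) b1
  have e2 : t = max γ.c (γ.ap (r γ)) :=
    le_antisymm b2 (not_lt.1 fun e => inside hS hγ t1 (b1.trans_lt k2) e)
  have z : G.d (n γ.c * f γ.c) (n (γ.ap (r γ)) * f (γ.ap (r γ))) = 0 := by
    rw [piece h hS h1 hγ, mul_assoc, LG.d_mul_left, h2 γ hγ]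
  refine LG.d_zero_trans ih ?_
  rcases le_total γ.c (γ.ap (r γ)) with e | e
  · rw [e1, e2, min_eq_left e, max_eq_right e]
    exact z
  · rw [e1, e2, min_eq_right e, max_eq_left e]
    exact LG.d_zero_symm z

end D_lensA

open D_lensA in
theorem p_D_LENS :
    S_D_LENS := by
  intro G n cut h
  have h' := jump h
  refine ⟨valid h', fun f p q hf => ⟨fun T w hw h1 h2 u hu v hv => ?_,
    fun ι S F E r hS h0 h1 h2 u hu v hv hu' hv' => ?_⟩⟩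
  · rcases le_total u v with e | e
    · rw [abs_sub_comm, abs_of_nonneg (sub_nonneg.2 e)]
      exact len h' hf T w hw h1 h2 hu.1 e hv.2
    · rw [abs_of_nonneg (sub_nonneg.2 e), LG.d_comm]
      exact len h' hf T w hw h1 h2 hv.1 e hu.2
  · rcases le_total u v with e | e
    · exact zero h' hS h0 h1 h2 hu hv hu'.1 e hv'.2
    · exact LG.d_zero_symm (zero h' hS h0 h1 h2 hv hu hv'.1 e hu'.2)

end Pool.Agent.P.MP_dba3d2_lc


end

section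

/-! Step D_CUT0 of the stability project. -/

namespace Pool.Agent.P.MP_dba3d2_lc

open Set Filter Topology

namespace D_cut0A

variable {R : LG} {P : ℝ → R.W} {p0 q0 : ℝ} {ι : Type} {S : Sys ι} {X : Set Gm} {F : Finset ℝ}
  {E : Finset Gm} {r : Gm → ℝ}

/-- the whole segment of a family is moved along the orbit -/
theorem orbE (hA : S.Arcs (R.arc P p0 q0)) (hF : S.Fam X F E r) {γ β : Gm} (hγ : γ ∈ E)
    (h : S.Rel γ β) : β ∈ E ∧ r β = r γ ∧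
      ∃ g, ∀ s ∈ Icc 0 (r γ), R.d (g * P (γ.ap s)) (P (β.ap s)) = 0 := by
  induction h with
  | refl => exact ⟨hγ, rfl, 1, fun s _ => by rw [one_mul, LG.d_self]⟩
  | @tail α β _ k ih =>
    obtain ⟨i, hi, rfl⟩ := k
    obtain ⟨h1, h2, g, h3⟩ := ih
    have hr := hF.pos α h1
    have e := seg_eq_GI (γ := α) hr.le
    obtain ⟨g', -, -, h4⟩ := hA i _ _ (lt_of_mem_GI (e ▸ self_mem_seg hr))
      (e ▸ fun δ hδ => (hF.dom α h1 i δ hδ).2 hi)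
    refine ⟨(hF.inv α h1 i hi).1, (hF.inv α h1 i hi).2.trans h2, g' * g, fun s hs => ?_⟩
    rw [Gm.mul_ap, mul_assoc]
    exact LG.d_zero_trans ((LG.d_mul_left g' _ _).trans (h3 s hs))
      (h4 _ ((seg_subset_GI hr).1 e.le s (h2 ▸ hs)))

theorem mv_trans {α β γ : Gm} {g g' : R.W} (h : R.Mv P α g β) (h' : R.Mv P β g' γ) :
    R.Mv P α (g' * g) γ := by
  obtain ⟨a, a0, ha⟩ := h
  obtain ⟨b, b0, hb⟩ := h'
  refine ⟨min a b, lt_min a0 b0, fun s hs => ?_⟩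
  rw [mul_assoc]
  exact LG.d_zero_trans
    ((LG.d_mul_left g' _ _).trans (ha s ⟨hs.1, hs.2.trans (min_le_left _ _)⟩))
    (hb s ⟨hs.1, hs.2.trans (min_le_right _ _)⟩)

theorem mv_symm {β γ : Gm} {g : R.W} (h : R.Mv P γ g β) : R.Mv P β g⁻¹ γ := by
  obtain ⟨a, a0, ha⟩ := h
  refine ⟨a, a0, fun s hs => ?_⟩
  rw [LG.d_inv_mul]
  exact LG.d_zero_symm (ha s hs)

theorem mem_of_mv {γ : Gm} {k : R.W} (hS : R.Stb P p0 q0) (hγ : γ ∈ GI p0 q0)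
    (h : R.Mv P γ k γ) : k ∈ R.KK P p0 q0 := by
  obtain ⟨a, a0, ha⟩ := h
  obtain ⟨b, b0, hb⟩ := mem_GI_iff.1 hγ
  have h0 := lt_min a0 b0
  have e := seg_eq_GI (γ := γ) h0.le
  have h1 := lt_of_mem_GI (e ▸ self_mem_seg h0)
  have h2 := (GI_subset_iff h1).1 (e ▸ (seg_subset_GI h0).2 fun s hs =>
    hb s ⟨hs.1, hs.2.trans (min_le_right _ _)⟩)
  refine hS.stab _ _ h2.1 h1 h2.2 k fun t ht => ?_
  have h3 : γ⁻¹.ap t ∈ uIcc 0 (min a b) := by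
    rw [← Gm.ap_mem_uIcc (φ := γ), Gm.ap_inv_ap, Gm.ap_zero]
    exact ht
  rw [uIcc_of_le h0.le] at h3
  simpa using ha _ ⟨h3.1, h3.2.trans (min_le_left _ _)⟩

theorem stab_of_mem {k : R.W} {u v : ℝ} (h : k ∈ R.KK P p0 q0) (hu : u ∈ Icc p0 q0)
    (hv : v ∈ Icc p0 q0) : R.Stab (P u) (P v) k :=
  ⟨LG.d_zero_symm (by simpa using h u hu), LG.d_zero_symm (by simpa using h v hv)⟩

theorem conj_d {G : LG} {x z v w n : G.W} (h1 : G.d z x = 0) (h2 : G.d (z * w) v = 0)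
    (h3 : G.ℓ (n * w) = 0) : G.d x (z * n * z⁻¹ * v) = 0 := by
  rw [← LG.d_congr h1 ((LG.d_mul_left (z * n * z⁻¹) _ _).trans h2), ← h3, LG.d]
  congr 1
  group

theorem conj_eq {G : Type} [Group G] {g a b m n : G} (e : g * a = b * m) (h : Commute n m) :
    b * n * b⁻¹ = g * (a * n * a⁻¹) * g⁻¹ := by
  have e1 : g * (a * n * a⁻¹) * g⁻¹ = (g * a) * n * (g * a)⁻¹ := by group
  rw [e1, e, mul_assoc b m n, ← h.eq]
  group

end D_cut0A

open D_cut0A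

theorem p_D_CUT0 :
    S_D_CUT0 := by
  classical
  intro R P p0 q0 p q hS hp hq ι S F E r hIn hA hF
  let rep : Gm → Gm := fun γ => Classical.epsilon (· ∈ S.orb γ)
  have hrel : ∀ γ, S.Rel γ (rep γ) := fun γ =>
    Classical.epsilon_spec (p := (· ∈ S.orb γ)) ⟨γ, Sys.Rel.refl S γ⟩
  have hrep : ∀ γ β, S.Rel γ β → rep γ = rep β := fun γ β h => by
    simp only [rep, h.orb_eq]
  have hE : ∀ γ ∈ E, rep γ ∈ E := fun γ h => (orbE hA hF h (hrel γ)).1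
  have hr : ∀ γ ∈ E, r (rep γ) = r γ := fun γ h => (orbE hA hF h (hrel γ)).2.1
  have hex : ∀ γ, ∃ g, γ ∈ E →
      ∀ s ∈ Icc 0 (r γ), R.d (g * P (γ.ap s)) (P ((rep γ).ap s)) = 0 := fun γ => by
    by_cases h : γ ∈ E
    · obtain ⟨g, hg⟩ := (orbE hA hF h (hrel γ)).2.2
      exact ⟨g, fun _ => hg⟩
    · exact ⟨1, fun k => (h k).elim⟩
  choose ρ hρ using hex
  have hsub : ∀ γ ∈ E, seg γ (r γ) ⊆ GI p0 q0 := fun γ h β hβ =>
    GI_mono hp hq (hF.sub γ h β hβ).1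
  have hI : ∀ γ ∈ E, γ.c ∈ Icc p0 q0 ∧ γ.ap (r γ) ∈ Icc p0 q0 := fun γ h =>
    have k := (seg_subset_GI (hF.pos γ h)).1 (hsub γ h)
    ⟨by simpa using k 0 ⟨le_rfl, (hF.pos γ h).le⟩, k _ ⟨(hF.pos γ h).le, le_rfl⟩⟩
  let Y : Gm → R.W := fun γ => (P γ.c)⁻¹ * P (γ.ap (r γ))
  let z : Gm → R.W := fun γ => (ρ γ)⁻¹ * P (rep γ).c
  have hz : ∀ γ ∈ E, R.d (z γ) (P γ.c) = 0 ∧ R.d (z γ * Y (rep γ)) (P (γ.ap (r γ))) = 0 := by
    intro γ h
    have h0 := (hF.pos γ h).le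
    constructor
    · rw [LG.d_inv_mul]
      simpa using LG.d_zero_symm (hρ γ h 0 ⟨le_rfl, h0⟩)
    · rw [mul_assoc, mul_inv_cancel_left, LG.d_inv_mul, hr γ h]
      exact LG.d_zero_symm (hρ γ h _ ⟨h0, le_rfl⟩)
  refine ⟨E.card, fun i => Y (E.equivFin.symm i), fun γ => if h : γ ∈ E then
    Monoid.Coprod.inl (z γ) * Monoid.Coprod.inr (FreeGroup.of (E.equivFin ⟨rep γ, hE γ h⟩)) *
      (Monoid.Coprod.inl (z γ))⁻¹ else 1, fun i => ?_, fun γ h => dif_neg h, fun γ => ?_, ?_⟩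
  · obtain ⟨⟨γ, h⟩, rfl⟩ := E.equivFin.surjective i
    simp only [Equiv.symm_apply_apply]
    have h0 := hF.pos γ h
    have e : |γ.c - γ.ap (r γ)| = r γ := by
      rw [← Gm.ap_zero, Gm.abs_ap_sub, zero_sub, abs_neg, abs_of_pos h0]
    refine ⟨h0.trans_eq (e.symm.trans (hS.iso _ (hI γ h).1 _ (hI γ h).2).symm), fun k => ?_⟩
    have k' := LG.per_base.1 k
    rcases lt_trichotomy γ.c (γ.ap (r γ)) with a | a | a
    · exact hS.np _ _ (hI γ h).1.1 a (hI γ h).2.2 k'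
    · rw [← a, sub_self, abs_zero] at e
      exact h0.ne e
    · exact hS.np _ _ (hI γ h).2.1 a (hI γ h).1.2 k'.symm
  · dsimp only
    split_ifs <;> simp
  intro G j ν hj hν c hc
  dsimp only at hc
  have c0 : ∀ γ, γ ∉ E → c γ = 1 := fun γ h => by rw [hc, dif_neg h, map_one]
  have c1 : ∀ γ (h : γ ∈ E),
      c γ = j (z γ) * ν (E.equivFin ⟨rep γ, hE γ h⟩) * (j (z γ))⁻¹ := fun γ h => by
    rw [hc, dif_pos h]
    simp
  refine ⟨fun γ _ β g h1 h2 => ?_, fun h0 γ => ?_, fun h0 γ h => ?_⟩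
  · by_cases h : γ ∈ E
    · have hβ := (orbE hA hF h h1).1
      have e := hrep γ β h1
      have m1 : R.Mv P γ (ρ γ) (rep γ) := ⟨_, hF.pos γ h, hρ γ h⟩
      have m2 : R.Mv P β (ρ β) (rep γ) := e ▸ ⟨_, hF.pos β hβ, hρ β hβ⟩
      have k1 := mem_of_mv hS (hsub _ (hE γ h) (self_mem_seg (hF.pos _ (hE γ h))))
        (mv_trans (mv_trans (mv_symm m1) h2) m2)
      have k2 := hν (E.equivFin ⟨rep γ, hE γ h⟩) _ (by
        simp only [Equiv.symm_apply_apply]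
        exact LG.stab_base.2 (stab_of_mem k1 (hI _ (hE γ h)).1 (hI _ (hE γ h)).2))
      have e2 : j g * j (z γ) = j (z β) *
          j ((P (rep γ).c)⁻¹ * (ρ β * (g * (ρ γ)⁻¹)) * P (rep γ).c) := by
        rw [← map_mul, ← map_mul]
        simp only [z, ← e]
        congr 1
        group
      have e3 : (⟨rep β, hE β hβ⟩ : E) = ⟨rep γ, hE γ h⟩ := Subtype.ext e.symm
      rw [c1 β hβ, c1 γ h, e3]
      exact conj_eq e2 k2
    · rw [c0 γ h, c0 β fun k => h (orbE hA hF k h1.symm).1]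
      simp
  · by_cases h : γ ∈ E
    · have k := LG.d_map_zero j hj (hz γ h).1
      rw [c1 γ h]
      exact conj_d (w := 1) k (by rwa [mul_one]) (by rw [mul_one, h0])
    · rw [c0 γ h, one_mul, LG.d_self]
  · rw [c1 γ h]
    refine conj_d (w := j (Y (rep γ))) (LG.d_map_zero j hj (hz γ h).1) ?_ ?_
    · rw [← map_mul]
      exact LG.d_map_zero j hj (hz γ h).2
    · simpa using h0 (E.equivFin ⟨rep γ, hE γ h⟩)

end Pool.Agent.P.MP_dba3d2_lc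


end

section

/-! Step D_GOODFIN of the stability project. -/

namespace Pool.Agent.P.MP_dba3d2_lc

open Set Filter Topology

theorem p_D_GOODFIN (hD_FAM : S_D_FAM) (hD_LENS : S_D_LENS) (hD_CUT0 : S_D_CUT0) :
    S_D_GOODFIN := by
  intro R P p0 q0 p q hS hp hq ι _ S hIn hArcs hfin η hη F hF
  obtain ⟨E, r, hFam⟩ := hD_FAM ι S (GI p q) F co_GI hIn
  obtain ⟨k, y, cut, hy, hE, hret, hmain⟩ :=
    hD_CUT0 R P p0 q0 p q hS hp hq ι S F E r hIn hArcs hFam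
  obtain ⟨N, hK, hN⟩ := exists_cuts cut
    (E.finite_toSet.subset fun γ h => by_contra fun e => h (hE γ e))
  refine ⟨k, y, N, hy, fun t => hK (MonoidHom.ker _) (fun γ => hret γ) t, ?_⟩
  intro G j ν hj hc n hn
  obtain ⟨m1, m2, m3⟩ := hmain G j ν hj hc
    (fun γ => Monoid.Coprod.lift j (FreeGroup.lift ν) (cut γ)) fun _ => rfl
  obtain ⟨l1, l2⟩ := hD_LENS G n (fun γ => Monoid.Coprod.lift j (FreeGroup.lift ν) (cut γ))
    fun γ => by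
      obtain ⟨s0, hs0, h⟩ := hN γ
      exact ⟨s0, hs0, fun s a b => by rw [hn, hn, ← map_inv, ← map_mul, h s a b]⟩
  have hf : ∀ s ∈ Icc p q, ∀ t ∈ Icc p q, G.d (j (P s)) (j (P t)) ≤ |s - t| := fun s hs t ht =>
    (LG.d_map_le j hj _ _).trans_eq
      (hS.iso s ⟨hp.trans hs.1, hs.2.trans hq⟩ t ⟨hp.trans ht.1, ht.2.trans hq⟩)
  obtain ⟨l3, l4⟩ := l2 (fun t => j (P t)) p q hf
  refine ⟨?_, fun h u hu v hv => ?_, fun h u hu v hv => ?_⟩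
  · rintro g φ u v ⟨hu, hv, -, -, huv, hR, hφ⟩
    refine l1 (j g) φ u v huv.le fun γ hγ => ?_
    refine m1 γ (GI_mono (hF u hu).1 (hF v hv).2 hγ) (φ * γ) g ?_ (LG.Rl.mv hR hγ)
    rcases hφ with h | ⟨i, h, hd⟩
    · have h' : φ = 1 := h
      rw [h', one_mul]
      exact Sys.Rel.refl S γ
    · have h' : φ = S.φ i := h
      rw [h']
      exact Sys.rel_φ (hd hγ)
  · have := l3 ∅ 0 le_rfl (fun γ _ e => absurd e (Finset.notMem_empty _))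
      (fun γ _ _ => m2 h γ) u (hF u hu) v (hF v hv)
    rw [mul_zero, add_zero] at this
    exact this.trans (le_add_of_nonneg_right hη.le)
  · exact (l4 ι S F E r hFam hfin (fun γ e => by rw [hE γ e, map_one]) (m3 h) u hu v hv
      (hF u hu) (hF v hv)).trans_le hη.le

end Pool.Agent.P.MP_dba3d2_lc


end

section

/-! Step D_STRIP of the stability project. -/

namespace Pool.Agent.P.MP_dba3d2_lc

open Set Filter Topology

namespace D_stripA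

/-- the move is respected by `j`, `n` -/
def Val {W G : Type} [Group W] [Group G] (j : W →* G) (n : ℝ → G) (g : W) (φ : Gm) (u v : ℝ) :
    Prop := n (φ.ap u) * j g * (n u)⁻¹ = n (φ.ap v) * j g * (n v)⁻¹

variable {R : LG} {ι : Type} (P : ℝ → R.W) (S : Sys ι) (p q : ℝ)

/-- the basic moves with points in `F` -/
def Bas (F : Finset ℝ) : Set (R.W × Gm × ℝ × ℝ) :=
  {m | m.2.2.1 ∈ F ∧ m.2.2.2 ∈ F ∧ m.2.1.ap m.2.2.1 ∈ F ∧ m.2.1.ap m.2.2.2 ∈ F ∧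
    m.2.2.1 < m.2.2.2 ∧ R.Rl P m.1 m.2.1 m.2.2.1 m.2.2.2 ∧
    (m.2.1 = 1 ∨ ∃ i, m.2.1 = S.φ i ∧ GI m.2.2.1 m.2.2.2 ⊆ S.dom i)}

/-- the move follows from finitely many basic moves -/
def Der (g : R.W) (φ : Gm) (u v : ℝ) : Prop :=
  ∃ F : Finset ℝ, (∀ t ∈ F, t ∈ Icc p q) ∧ ∀ F', F ⊆ F' →
    ∀ (G : Type) [Group G] (j : R.W →* G) (n : ℝ → G),
      (∀ g φ u v, (g, φ, u, v) ∈ Bas P S F' → Val j n g φ u v) → Val j n g φ u v

variable {P S p q} {g g' : R.W} {φ ψ : Gm} {u v w : ℝ}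

theorem Der.refl : Der P S p q g φ u u := ⟨∅, by simp, fun _ _ _ _ _ _ _ => rfl⟩

theorem Der.one : Der P S p q 1 1 u v := ⟨∅, by simp, fun _ _ _ _ _ _ _ => by simp [Val]⟩

theorem Der.symm (h : Der P S p q g φ u v) : Der P S p q g φ v u := by
  obtain ⟨F, h1, h2⟩ := h
  exact ⟨F, h1, fun F' a G _ j n b => (h2 F' a G j n b).symm⟩

theorem Der.two {g₁ g₂ : R.W} {φ₁ φ₂ : Gm} {u₁ v₁ u₂ v₂ : ℝ} (h : Der P S p q g₁ φ₁ u₁ v₁)
    (k : Der P S p q g₂ φ₂ u₂ v₂)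
    (e : ∀ (G : Type) [Group G] (j : R.W →* G) (n : ℝ → G), Val j n g₁ φ₁ u₁ v₁ →
      Val j n g₂ φ₂ u₂ v₂ → Val j n g φ u v) : Der P S p q g φ u v := by
  classical
  obtain ⟨F, h1, h2⟩ := h
  obtain ⟨E, k1, k2⟩ := k
  exact ⟨F ∪ E, fun t ht => (Finset.mem_union.1 ht).elim (h1 t) (k1 t), fun F' a G _ j n b =>
    e G j n (h2 F' (Finset.subset_union_left.trans a) G j n b)
      (k2 F' (Finset.subset_union_right.trans a) G j n b)⟩

theorem Der.trans (h : Der P S p q g φ u v) (k : Der P S p q g φ v w) : Der P S p q g φ u w :=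
  h.two k fun _ _ _ _ a b => a.trans b

theorem Der.comp (h : Der P S p q g φ u v) (k : Der P S p q g' ψ (φ.ap u) (φ.ap v)) :
    Der P S p q (g' * g) (ψ * φ) u v :=
  h.two k fun _ _ j n a b => by
    have e : ∀ t, n ((ψ * φ).ap t) * j (g' * g) * (n t)⁻¹ =
        n (ψ.ap (φ.ap t)) * j g' * (n (φ.ap t))⁻¹ * (n (φ.ap t) * j g * (n t)⁻¹) := fun t => by
      rw [Gm.mul_ap, map_mul]
      group
    rw [Val, e, e, a, b]

theorem Der.bas (h : u < v) (h1 : u ∈ Icc p q) (h2 : v ∈ Icc p q) (h3 : φ.ap u ∈ Icc p q)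
    (h4 : φ.ap v ∈ Icc p q) (hr : R.Rl P g φ u v)
    (hφ : φ = 1 ∨ ∃ i, φ = S.φ i ∧ GI u v ⊆ S.dom i) : Der P S p q g φ u v := by
  classical
  refine ⟨{u, v, φ.ap u, φ.ap v}, fun t ht => ?_, fun F' a G _ j n b =>
    b g φ u v ⟨a (by simp), a (by simp), a (by simp), a (by simp), h, hr, hφ⟩⟩
  simp only [Finset.mem_insert, Finset.mem_singleton] at ht
  rcases ht with rfl | rfl | rfl | rfl <;> assumption

theorem ends (h : u < v) (k : tr φ (GI u v) ⊆ GI p q) : φ.ap u ∈ Icc p q ∧ φ.ap v ∈ Icc p q := by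
  rw [tr_GI h.le, GI_subset_iff (min_lt_max.2 fun e => h.ne (φ.ap_injective e))] at k
  exact ⟨⟨k.1.trans (min_le_left _ _), (le_max_left _ _).trans k.2⟩,
    k.1.trans (min_le_right _ _), (le_max_right _ _).trans k.2⟩

theorem germ {p0 q0 : ℝ} (hI : S.In (GI p q)) (hA : S.Arcs (R.arc P p0 q0)) {γ β : Gm}
    (h : S.Rel γ β) : ∃ r > 0, ∀ x y, x < y → GI x y ⊆ seg γ r →
      ∃ g, R.Rl P g (β * γ⁻¹) x y ∧ Der P S p q g (β * γ⁻¹) x y := by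
  induction h with
  | refl =>
    refine ⟨1, one_pos, fun x y _ _ => ⟨1, ?_⟩⟩
    rw [mul_inv_cancel]
    exact ⟨fun t _ => by simp, Der.one⟩
  | @tail β β' _ hs ih =>
    obtain ⟨r, hr, ih⟩ := ih
    obtain ⟨i, hi, rfl⟩ := hs
    obtain ⟨r', hr', hd⟩ := isOpen_iff_seg.1 (S.co i).2 β hi
    refine ⟨min r r', lt_min hr hr', fun x y hxy hs => ?_⟩
    obtain ⟨g1, a1, a2⟩ := ih x y hxy (hs.trans (seg_mono (min_le_left _ _)))
    set ψ := β * γ⁻¹ with hψ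
    have e1 : tr ψ (GI x y) ⊆ S.dom i := by
      refine (tr_mono (hs.trans (seg_mono (min_le_right _ _)))).trans ?_
      rwa [tr_seg, hψ, inv_mul_cancel_right]
    rw [tr_GI hxy.le] at e1
    have lt := min_lt_max.2 fun e => hxy.ne (ψ.ap_injective e)
    obtain ⟨g2, -, -, b⟩ := hA i _ _ lt e1
    have c1 := ends (φ := 1) lt (p := p) (q := q) (by rw [tr_one]; exact e1.trans (hI i))
    have c2 := ends (φ := S.φ i) lt (p := p) (q := q) (by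
      rw [tr_eq_image]
      rintro _ ⟨α, hα, rfl⟩
      exact hI _ (S.map i α (e1 hα)))
    rw [Gm.one_ap, Gm.one_ap] at c1
    have d := Der.bas lt c1.1 c1.2 c2.1 c2.2 b (Or.inr ⟨i, rfl, e1⟩)
    rw [mul_assoc]
    refine ⟨g2 * g1, fun t ht => ?_, a2.comp ?_⟩
    · rw [mul_assoc, Gm.mul_ap]
      refine LG.d_zero_trans (y := g2 * P (ψ.ap t)) ?_ (b _ ?_)
      · rw [LG.d_mul_left]
        exact a1 t ht
      · exact (Gm.ap_mem_uIcc ψ).2 (Icc_subset_uIcc ht)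
    · rcases le_total (ψ.ap x) (ψ.ap y) with l | l
      · rwa [min_eq_left l, max_eq_right l] at d
      · rw [min_eq_right l, max_eq_left l] at d
        exact d.symm

theorem move {p0 q0 : ℝ} (hI : S.In (GI p q)) (hA : S.Arcs (R.arc P p0 q0))
    (h : R.Mover P p q g φ u v) (k : ∀ γ ∈ GI u v, S.Rel γ (φ * γ)) : Der P S p q g φ u v := by
  obtain ⟨E, hE⟩ := (co_GI (a := u) (b := v)).subdiv'
    (Q := fun x y => ∃ g, R.Rl P g φ x y ∧ Der P S p q g φ x y) fun γ hγ => by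
      simpa only [mul_inv_cancel_right] using germ hI hA (k γ hγ)
  refine chain_ind (Q := fun u t => Der P S p q g φ u t) E.finite_toSet h.1.le Der.refl
    fun s t h1 h2 h3 _ _ hf ih => ih.trans ?_
  obtain ⟨⟨g1, a1, a2⟩, -⟩ := hE s t hf
    ((GI_nonempty.2 h2).mono (subset_inter le_rfl (GI_mono h1 h3)))
  have d : Der P S p q (g1⁻¹ * g) 1 s t := by
    have b1 := (h.2.1 s ⟨h1, h2.le.trans h3⟩).1
    have b2 := (h.2.1 t ⟨h1.trans h2.le, h3⟩).1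
    refine Der.bas h2 b1 b2 (by rwa [Gm.one_ap]) (by rwa [Gm.one_ap]) (fun x hx => ?_) (Or.inl rfl)
    rw [mul_assoc, LG.d_inv_mul, Gm.one_ap]
    exact LG.d_zero_trans (h.2.2 x ⟨h1.trans hx.1, hx.2.trans h3⟩) (LG.d_zero_symm (a1 x hx))
  have := d.comp (g' := g1) (ψ := φ) (by rwa [Gm.one_ap, Gm.one_ap])
  rwa [mul_inv_cancel_left, mul_one] at this

end D_stripA

open D_stripA in
theorem p_D_STRIP :
    S_D_STRIP := by
  classical
  intro R P p0 q0 p q _ _ _ ι S hI hA hG η hη V hV hM F hF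
  have hD : ∀ m : V, Der P S p q m.1.1 m.1.2.1 m.1.2.2.1 m.1.2.2.2 := fun m =>
    move hI hA (hM _ _ _ _ m.2).1 (hM _ _ _ _ m.2).2
  choose E h1 h2 using hD
  have := hV.fintype
  obtain ⟨r, y, N, a1, a2, a3⟩ := hG η hη (F ∪ Finset.univ.biUnion E) fun t ht => by
    rcases Finset.mem_union.1 ht with a | a
    · exact hF t a
    · obtain ⟨m, -, b⟩ := Finset.mem_biUnion.1 a
      exact h1 m t b
  refine ⟨r, y, N, a1, a2, fun G j ν b1 b2 n hn => ?_⟩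
  obtain ⟨c1, c2, c3⟩ := a3 G j ν b1 b2 n hn
  have s : ∀ t ∈ (F : Set ℝ), t ∈ ((F ∪ Finset.univ.biUnion E : Finset ℝ) : Set ℝ) :=
    fun t ht => Finset.mem_union_left _ ht
  exact ⟨fun g φ u v hm => h2 ⟨_, hm⟩ _ ((Finset.subset_biUnion_of_mem E (Finset.mem_univ _)).trans
      Finset.subset_union_right) G.W j n c1,
    fun e u hu v hv => c2 e u (s u hu) v (s v hv), fun e u hu v hv => c3 e u (s u hu) v (s v hv)⟩

end Pool.Agent.P.MP_dba3d2_lc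


end

section

/-! Step D_MESH of the stability project. -/

namespace Pool.Agent.P.MP_dba3d2_lc

open Set Filter Topology

namespace D_meshA

/-- the cells of the mesh inside `C` -/
def Cl (E : Finset ℝ) (C : Set Gm) (s t : ℝ) : Prop :=
  s ∈ E ∧ t ∈ E ∧ s < t ∧ Free E s t ∧ GI s t ⊆ C

/-- the segment `[s, t]` is moved to the model -/
def Qm (R : LG) (P P' : ℝ → R.W) (J : Set ℝ) (Hm : Gm → Gm → Prop) (ρ : R.W) (ψ : Gm)
    (s t : ℝ) : Prop :=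
  (∀ x ∈ Icc s t, R.d (ρ * P x) (P' (ψ.ap x)) = 0 ∧ ψ.ap x ∈ J) ∧ ∀ β ∈ GI s t, Hm β (ψ * β)

theorem ap_mem {φ : Gm} {x y z a b : ℝ} (hz : z ∈ Icc x y) (hx : φ.ap x ∈ Icc a b)
    (hy : φ.ap y ∈ Icc a b) : φ.ap z ∈ Icc a b :=
  uIcc_subset_Icc hx hy (φ.ap_mem_uIcc.2 (Icc_subset_uIcc hz))

theorem inv_ap_mem {φ : Gm} {x y t : ℝ} (h : x ≤ y)
    (ht : t ∈ Icc (min (φ.ap x) (φ.ap y)) (max (φ.ap x) (φ.ap y))) : φ⁻¹.ap t ∈ Icc x y := by
  rw [← uIcc_of_le h, ← φ.ap_mem_uIcc, Gm.ap_inv_ap]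
  exact ht

theorem cell_of {E : Finset ℝ} {u v x y : ℝ} {γ : Gm} (hu : u ∈ E) (hv : v ∈ E)
    (h : γ ∈ GI u v) (h' : γ ∈ GI x y) (hf : Free E x y) :
    ∃ s ∈ E, ∃ t ∈ E, s < t ∧ Free E s t ∧ γ ∈ GI s t ∧ s ≤ x ∧ y ≤ t := by
  obtain ⟨s, hs, t, ht, -, st, -, k1, k2⟩ := exists_cell E.finite_toSet hu hv h
  exact ⟨s, hs, t, ht, st, k1, k2,
    (GI_subset_iff (lt_of_mem_GI h')).1 (GI_subset_of_free hf hs ht ⟨γ, h', k2⟩)⟩

theorem free_tr {E G : Set ℝ} {φ : Gm} {x y : ℝ} (h : x ≤ y) (hG : ∀ e ∈ E, φ⁻¹.ap e ∈ G)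
    (hf : Free G x y) : Free E (min (φ.ap x) (φ.ap y)) (max (φ.ap x) (φ.ap y)) := by
  intro e he k
  have k1 := inv_ap_mem h ⟨k.1.le, k.2.le⟩
  refine hf _ (hG e he) ⟨lt_of_le_of_ne k1.1 fun z => ?_, lt_of_le_of_ne k1.2 fun z => ?_⟩
  · have e1 : φ.ap x = e := by rw [z, Gm.ap_inv_ap]
    rw [e1, min_lt_iff, lt_max_iff] at k
    rcases k with ⟨a | a, b | b⟩ <;> linarith
  · have e1 : φ.ap y = e := by rw [← z, Gm.ap_inv_ap]
    rw [e1, min_lt_iff, lt_max_iff] at k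
    rcases k with ⟨a | a, b | b⟩ <;> linarith

variable {R : LG} {A : Finset R.W} {ι : Type} {S : Sys ι} {P P' : ℝ → R.W} {g : ι → R.W}
  {a : R.W → ℝ} {C : Set Gm} {J : Set ℝ} {Hm Rn : Gm → Gm → Prop}

theorem exists_mesh (hC : CO C) (A : Finset R.W) (a : R.W → ℝ)
    (h : ∀ γ ∈ C, ∃ (ρ : R.W) (ψ : Gm), ∃ r > 0, (∀ s ∈ Icc 0 r,
      R.d (ρ * P (γ.ap s)) (P' (ψ.ap (γ.ap s))) = 0 ∧ ψ.ap (γ.ap s) ∈ J) ∧
      ∀ β ∈ seg γ r, Hm β (ψ * β)) :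
    ∃ (E : Finset ℝ) (ρ : ℝ → R.W) (ψ : ℝ → Gm), (∀ w ∈ A, a w ∈ E ∧ a w + R.ℓ w ∈ E) ∧
      (∀ s t, Free E s t → GI s t ⊆ C ∨ Disjoint (GI s t) C) ∧
      ∀ s t, Cl E C s t → Qm R P P' J Hm (ρ s) (ψ s) s t := by
  classical
  obtain ⟨E0, hE0⟩ := hC.subdiv' (Q := fun u v => ∃ ρ ψ, Qm R P P' J Hm ρ ψ u v) fun γ hγ => by
    obtain ⟨ρ, ψ, r, r0, h1, h2⟩ := h γ hγ
    refine ⟨r, r0, fun u v uv k => ⟨ρ, ψ, fun x hx => ?_, fun β hβ => h2 β (k hβ)⟩⟩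
    rw [seg_eq_GI r0.le, GI_subset_iff uv, ← γ.ap_zero] at k
    simpa using h1 _ (inv_ap_mem r0.le ⟨k.1.trans hx.1, hx.2.trans k.2⟩)
  obtain ⟨E, k1, k2⟩ : ∃ E : Finset ℝ, (E0 : Set ℝ) ⊆ E ∧ ∀ w ∈ A, a w ∈ E ∧ a w + R.ℓ w ∈ E :=
    ⟨E0 ∪ (A.image a ∪ A.image fun w => a w + R.ℓ w), Finset.coe_subset.2 Finset.subset_union_left,
      fun w hw => ⟨Finset.mem_union_right _
        (Finset.mem_union_left _ (Finset.mem_image_of_mem _ hw)),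
        Finset.mem_union_right _ (Finset.mem_union_right _ (Finset.mem_image_of_mem _ hw))⟩⟩
  have k3 : ∀ s, ∃ ρ ψ, ∀ t, Cl E C s t → Qm R P P' J Hm ρ ψ s t := fun s => by
    by_cases e : ∃ t, Cl E C s t
    · obtain ⟨t, hs, ht, st, hf, hc⟩ := e
      have m : Gm.tau s ∈ GI s t := tau_mem_GI.2 ⟨le_rfl, st⟩
      obtain ⟨⟨ρ, ψ, hq⟩, -⟩ := hE0 s t (hf.mono k1) ⟨_, m, hc m⟩
      refine ⟨ρ, ψ, fun t' ⟨_, ht', st', hf', _⟩ => ?_⟩
      rw [(cell_unique hs ht' hs ht hf' hf (tau_mem_GI.2 ⟨le_rfl, st'⟩) m).2]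
      exact hq
    · exact ⟨1, 1, fun t ht => absurd ⟨t, ht⟩ e⟩
  choose ρ ψ k3 using k3
  refine ⟨E, ρ, ψ, k2, fun s t hf => ?_, k3⟩
  rcases (GI s t ∩ C).eq_empty_or_nonempty with e | e
  · exact Or.inr (disjoint_iff_inter_eq_empty.2 e)
  · exact Or.inl (hE0 s t (hf.mono k1) e).2

theorem dom_sec (H : R.Setup P A S g a) {i : ι} {γ : Gm} (h : γ ∈ S.dom i) :
    ∃ w ∈ A, γ ∈ GI (a w) (a w + R.ℓ w) := by
  rcases H.band i with e | ⟨u, v, -, e, -, w, hw, k1, k2⟩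
  · rw [e] at h; exact h.elim
  · rw [e] at h; exact ⟨w, hw, GI_mono k1 k2 h⟩

theorem dom_rl (H : R.Setup P A S g a) {i : ι} {x y : ℝ} (h : x < y) (k : GI x y ⊆ S.dom i) :
    R.Rl P (g i) (S.φ i) x y := by
  rcases H.band i with e | ⟨u, v, -, e, hr, -⟩
  · rw [e] at k; exact (k (tau_mem_GI.2 ⟨le_rfl, h⟩)).elim
  · rw [e, GI_subset_iff h] at k
    exact fun t ht => hr t ⟨k.1.trans ht.1, ht.2.trans k.2⟩

theorem exists_pts [Fintype ι] (S : Sys ι) (E : Finset ℝ) : ∃ G : Finset ℝ, (E : Set ℝ) ⊆ G ∧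
    (∀ i, ∀ e ∈ (E : Set ℝ), (S.φ i)⁻¹.ap e ∈ (G : Set ℝ)) ∧
    ∀ i u v, u < v → S.dom i = GI u v → u ∈ G ∧ v ∈ G := by
  classical
  have k : ∀ i, ∃ B : Finset ℝ, ∀ u v, u < v → S.dom i = GI u v → u ∈ B ∧ v ∈ B := fun i => by
    by_cases e : ∃ u v, u < v ∧ S.dom i = GI u v
    · obtain ⟨u, v, uv, e⟩ := e
      refine ⟨{u, v}, fun u' v' _ e' => ?_⟩
      obtain ⟨rfl, rfl⟩ := GI_inj uv (e.symm.trans e')
      simp
    · exact ⟨∅, fun u v uv e' => absurd ⟨u, v, uv, e'⟩ e⟩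
  choose B hB using k
  have m : ∀ i, E.image (S.φ i)⁻¹.ap ∪ B i ⊆
      E ∪ Finset.univ.biUnion fun i => E.image (S.φ i)⁻¹.ap ∪ B i := fun i =>
    (Finset.subset_biUnion_of_mem (fun i => E.image (S.φ i)⁻¹.ap ∪ B i)
      (Finset.mem_univ i)).trans Finset.subset_union_right
  exact ⟨E ∪ Finset.univ.biUnion fun i => E.image (S.φ i)⁻¹.ap ∪ B i,
    Finset.coe_subset.2 Finset.subset_union_left,
    fun i e he => m i (Finset.mem_union_left _ (Finset.mem_image_of_mem _ he)),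
    fun i u v uv e => ⟨m i (Finset.mem_union_right _ (hB i u v uv e).1),
      m i (Finset.mem_union_right _ (hB i u v uv e).2)⟩⟩

/-- the move in the model that a piece of a band induces -/
theorem move (H : R.Setup P A S g a)
    (hR : ∀ γ γ' β β', S.Step γ γ' → Hm γ β → Hm γ' β' → Rn β β') {i : ι} {x y s t s' t' : ℝ}
    {ρ ρ' : R.W} {ψ ψ' : Gm} (xy : x < y) (hd : GI x y ⊆ S.dom i)
    (q : Qm R P P' J Hm ρ ψ s t) (q' : Qm R P P' J Hm ρ' ψ' s' t') (hx : x ∈ Icc s t)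
    (hy : y ∈ Icc s t) (hx' : (S.φ i).ap x ∈ Icc s' t') (hy' : (S.φ i).ap y ∈ Icc s' t') :
    min (ψ.ap x) (ψ.ap y) < max (ψ.ap x) (ψ.ap y) ∧
      (∀ z ∈ Icc (min (ψ.ap x) (ψ.ap y)) (max (ψ.ap x) (ψ.ap y)),
        z ∈ J ∧ (ψ' * S.φ i * ψ⁻¹).ap z ∈ J) ∧
      R.Rl P' (ρ' * g i * ρ⁻¹) (ψ' * S.φ i * ψ⁻¹) (min (ψ.ap x) (ψ.ap y))
        (max (ψ.ap x) (ψ.ap y)) ∧
      ∀ β ∈ GI (min (ψ.ap x) (ψ.ap y)) (max (ψ.ap x) (ψ.ap y)),
        Rn β (ψ' * S.φ i * ψ⁻¹ * β) := by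
  have sub : ∀ z ∈ Icc x y, z ∈ Icc s t := fun z hz => ⟨hx.1.trans hz.1, hz.2.trans hy.2⟩
  refine ⟨min_lt_max.2 fun e => xy.ne (ψ.ap_injective e), fun z hz => ?_, fun z hz => ?_,
    fun β hβ => ?_⟩
  · have k := inv_ap_mem xy.le hz
    refine ⟨by simpa using (q.1 _ (sub _ k)).2, ?_⟩
    rw [Gm.mul_ap, Gm.mul_ap]
    exact (q'.1 _ (ap_mem k hx' hy')).2
  · have k := inv_ap_mem xy.le hz
    have k1 := (q.1 _ (sub _ k)).1
    have k2 := dom_rl H xy hd _ k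
    have k3 := (q'.1 _ (ap_mem k hx' hy')).1
    rw [Gm.ap_inv_ap, ← LG.d_mul_left (ρ' * g i * ρ⁻¹), mul_assoc, inv_mul_cancel_left] at k1
    rw [← LG.d_mul_left ρ', ← mul_assoc] at k2
    rw [Gm.mul_ap, Gm.mul_ap]
    exact LG.d_zero_trans (LG.d_zero_trans (LG.d_zero_symm k1) k2) k3
  · rw [← tr_GI xy.le, mem_tr] at hβ
    have k1 := q.2 _ (GI_mono hx.1 hy.2 hβ)
    have k2 := q'.2 _ (mul_mem_GI (φ := S.φ i) hβ fun z hz => ap_mem hz hx' hy')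
    rw [mul_inv_cancel_left] at k1
    rw [mul_assoc, mul_assoc]
    exact hR _ _ _ _ ⟨i, hd hβ, rfl⟩ k1 k2

end D_meshA

open D_meshA in
theorem p_D_MESH :
    S_D_MESH := by
  intro R A ι _ S P g a C H hC hI P' J Hm Rn h hR
  classical
  obtain ⟨E, ρ, ψ, e1, e2, e3⟩ := exists_mesh hC A a h
  obtain ⟨G, g1, g2, g3⟩ := exists_pts S E
  obtain ⟨F, hF⟩ : ∃ F : Finset ℝ, ∀ z, z ∈ F ↔
      ∃ s t, Cl E C s t ∧ (z = (ψ s).ap s ∨ z = (ψ s).ap t) := by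
    refine ⟨((E ×ˢ E).filter fun p => Cl E C p.1 p.2).biUnion
      fun p => {(ψ p.1).ap p.1, (ψ p.1).ap p.2}, fun z => ?_⟩
    simp only [Finset.mem_biUnion, Finset.mem_filter, Finset.mem_product, Finset.mem_insert,
      Finset.mem_singleton]
    exact ⟨fun ⟨p, k1, k2⟩ => ⟨p.1, p.2, k1.2, k2⟩,
      fun ⟨s, t, k1, k2⟩ => ⟨(s, t), ⟨⟨k1.1, k1.2.1⟩, k1⟩, k2⟩⟩
  refine ⟨E, ρ, ψ, (fun p : ι × ℝ × ℝ × ℝ × ℝ => (ρ p.2.2.2.2 * g p.1 * (ρ p.2.2.2.1)⁻¹,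
      ψ p.2.2.2.2 * S.φ p.1 * (ψ p.2.2.2.1)⁻¹,
      min ((ψ p.2.2.2.1).ap p.2.1) ((ψ p.2.2.2.1).ap p.2.2.1),
      max ((ψ p.2.2.2.1).ap p.2.1) ((ψ p.2.2.2.1).ap p.2.2.1))) ''
    {p | p.2.1 ∈ G ∧ p.2.2.1 ∈ G ∧ p.2.1 < p.2.2.1 ∧ GI p.2.1 p.2.2.1 ⊆ S.dom p.1 ∧
      ∃ t t', Cl E C p.2.2.2.1 t ∧ Cl E C p.2.2.2.2 t' ∧ p.2.1 ∈ Icc p.2.2.2.1 t ∧
        p.2.2.1 ∈ Icc p.2.2.2.1 t ∧ (S.φ p.1).ap p.2.1 ∈ Icc p.2.2.2.2 t' ∧
        (S.φ p.1).ap p.2.2.1 ∈ Icc p.2.2.2.2 t'}, F,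
    ⟨e1, e2, fun s hs t ht st hf hc => ?_, fun i u v uv hd => ⟨G, fun x y ux xy yv hx hy hf => ?_⟩⟩,
    Finite.image _ ?_, fun z hz => ?_, ?_⟩
  · have c : Cl E C s t := ⟨hs, ht, st, hf, hc⟩
    exact ⟨fun x hx => ((e3 s t c).1 x hx).1, (hF _).2 ⟨s, t, c, Or.inl rfl⟩,
      (hF _).2 ⟨s, t, c, Or.inr rfl⟩⟩
  · have hx' : x ∈ G := hx.elim id fun e => e ▸ (g3 i u v uv hd).1
    have hy' : y ∈ G := hy.elim id fun e => e ▸ (g3 i u v uv hd).2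
    have m : Gm.tau x ∈ GI x y := tau_mem_GI.2 ⟨le_rfl, xy⟩
    have sub : GI x y ⊆ S.dom i := hd ▸ GI_mono ux yv
    obtain ⟨w, hw, k⟩ := dom_sec H (sub m)
    obtain ⟨w', hw', k'⟩ := dom_sec H (S.map i _ (sub m))
    obtain ⟨s, hs, t, ht, st, a1, a2, a3, a4⟩ :=
      cell_of (e1 w hw).1 (e1 w hw).2 k m (hf.mono g1)
    obtain ⟨s', hs', t', ht', st', b1, b2, b3, b4⟩ := cell_of (e1 w' hw').1 (e1 w' hw').2 k'
      (tr_GI (φ := S.φ i) xy.le ▸ mul_mem_tr.2 m) (free_tr xy.le (g2 i) hf)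
    have c1 : x ∈ Icc s t := ⟨a3, xy.le.trans a4⟩
    have c2 : y ∈ Icc s t := ⟨a3.trans xy.le, a4⟩
    have c3 : (S.φ i).ap x ∈ Icc s' t' :=
      ⟨b3.trans (min_le_left _ _), (le_max_left _ _).trans b4⟩
    have c4 : (S.φ i).ap y ∈ Icc s' t' :=
      ⟨b3.trans (min_le_right _ _), (le_max_right _ _).trans b4⟩
    refine ⟨s, hs, t, ht, s', hs', t', ht', st, a1, st', b1, c1, c2, c3, c4, ?_⟩
    by_cases z : Gm.tau x ∈ C
    · have d1 := (e2 s t a1).resolve_right fun e => disjoint_left.1 e a2 z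
      have d2 := (e2 s' t' b1).resolve_right fun e => disjoint_left.1 e b2 (hI i _ (sub m) z)
      exact Or.inr ⟨d1, d2, (i, x, y, s, s'), ⟨hx', hy', xy, sub, t, t', ⟨hs, ht, st, a1, d1⟩,
        ⟨hs', ht', st', b1, d2⟩, c1, c2, c3, c4⟩, rfl⟩
    · exact Or.inl ⟨fun e => z (e a2), fun e => z ((hI.mem_iff (sub m)).1 (e b2))⟩
  · refine ((finite_univ (α := ι)).prod (G.finite_toSet.prod (G.finite_toSet.prod
      (E.finite_toSet.prod E.finite_toSet)))).subset ?_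
    rintro p ⟨k1, k2, -, -, t, t', k3, k4, -⟩
    exact ⟨trivial, k1, k2, k3.1, k4.1⟩
  · obtain ⟨s, t, c, rfl | rfl⟩ := (hF z).1 hz
    · exact ((e3 s t c).1 s ⟨le_rfl, c.2.2.1.le⟩).2
    · exact ((e3 s t c).1 t ⟨c.2.2.1.le, le_rfl⟩).2
  · rintro _ _ _ _ ⟨⟨i, x, y, s, s'⟩, ⟨-, -, xy, hd, t, t', c, c', k1, k2, k3, k4⟩, e⟩
    obtain ⟨rfl, rfl, rfl, rfl⟩ := e
    exact move H hR xy hd (e3 s t c) (e3 s' t' c') k1 k2 k3 k4

end Pool.Agent.P.MP_dba3d2_lc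


end

section

/-! Step D_PBG of the stability project. -/

namespace Pool.Agent.P.MP_dba3d2_lc

open Set Filter Topology

namespace D_pbgA

theorem grp_out {K : Type} [Group K] {nx ny nx' ny' px py px' py' : K} (g : K)
    (h1 : nx⁻¹ * ny = px⁻¹ * py) (h2 : nx'⁻¹ * ny' = px'⁻¹ * py') :
    nx' * (px'⁻¹ * g * px) * nx⁻¹ = ny' * (py'⁻¹ * g * py) * ny⁻¹ := by
  rw [inv_mul_eq_iff_eq_mul] at h1 h2
  rw [h1, h2]
  group

theorem grp_in {K : Type} [Group K] {nx ny nx' ny' px py px' py' g Nx Ny Nx' Ny' r r' : K}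
    (h1 : nx⁻¹ * ny = (Nx * (r * px))⁻¹ * (Ny * (r * py)))
    (h2 : nx'⁻¹ * ny' = (Nx' * (r' * px'))⁻¹ * (Ny' * (r' * py')))
    (h3 : Nx' * (r' * g * r⁻¹) * Nx⁻¹ = Ny' * (r' * g * r⁻¹) * Ny⁻¹) :
    nx' * (px'⁻¹ * g * px) * nx⁻¹ = ny' * (py'⁻¹ * g * py) * ny⁻¹ := by
  have k := grp_out (Nx' * (r' * g * r⁻¹) * Nx⁻¹) h1 h2
  have e1 : (Nx' * (r' * px'))⁻¹ * (Nx' * (r' * g * r⁻¹) * Nx⁻¹) * (Nx * (r * px)) =
      px'⁻¹ * g * px := by group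
  have e2 : (Ny' * (r' * py'))⁻¹ * (Nx' * (r' * g * r⁻¹) * Nx⁻¹) * (Ny * (r * py)) =
      py'⁻¹ * g * py := by rw [h3]; group
  rwa [e1, e2] at k

/-- induction along the cells between two points of a mesh -/
theorem cell_ind {E : Finset ℝ} {u v : ℝ} (hu : u ∈ E) (hv : v ∈ E) (h : u ≤ v) {Q : ℝ → Prop}
    (h0 : Q u) (h1 : ∀ s ∈ E, ∀ t ∈ E, u ≤ s → s < t → t ≤ v → Free E s t → Q s → Q t) : Q v :=
  chain_ind E.finite_toSet (Q := fun _ t => Q t) h h0 fun s t k1 k2 k3 k4 k5 k6 =>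
    h1 s (k4.elim id fun e => e ▸ hu) t (k5.elim id fun e => e ▸ hv) k1 k2 k3 k6

theorem chain_eq {K : Type} [Group K] {E : Finset ℝ} {u v : ℝ} (hu : u ∈ E) (hv : v ∈ E)
    (h : u ≤ v) (p q : ℝ → K) (h1 : ∀ s ∈ E, ∀ t ∈ E, u ≤ s → s < t → t ≤ v → Free E s t →
      (p s)⁻¹ * p t = (q s)⁻¹ * q t) : (p u)⁻¹ * p v = (q u)⁻¹ * q v := by
  refine cell_ind hu hv h (Q := fun t => (p u)⁻¹ * p t = (q u)⁻¹ * q t) (by simp)
    fun s hs t ht k1 k2 k3 k4 ih => ?_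
  have e1 : (p u)⁻¹ * p t = (p u)⁻¹ * p s * ((p s)⁻¹ * p t) := by group
  rw [e1, ih, h1 s hs t ht k1 k2 k3 k4]
  group

theorem chain_len {G : LG} {E : Finset ℝ} {u v η : ℝ} (hu : u ∈ E) (hv : v ∈ E) (h : u ≤ v)
    (hη : 0 ≤ η) (f : ℝ → G.W) (h1 : ∀ s ∈ E, ∀ t ∈ E, u ≤ s → s < t → t ≤ v → Free E s t →
      G.d (f s) (f t) ≤ t - s + η) : G.d (f u) (f v) ≤ v - u + E.card * η := by
  have k := cell_ind hu hv h
    (Q := fun t => G.d (f u) (f t) ≤ t - u + (E.filter fun z => z ≤ t).card * η)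
    (by rw [LG.d_self, sub_self, zero_add]; positivity) fun s hs t ht k1 k2 k3 k4 ih => ?_
  · have : ((E.filter fun z => z ≤ v).card : ℝ) ≤ E.card :=
      Nat.cast_le.2 (Finset.card_filter_le _ _)
    linarith only [k, mul_le_mul_of_nonneg_right this hη]
  · have a1 : (E.filter fun z => z ≤ s).card < (E.filter fun z => z ≤ t).card := by
      refine Finset.card_lt_card ((Finset.ssubset_iff_of_subset fun z hz => ?_).2
        ⟨t, Finset.mem_filter.2 ⟨ht, le_rfl⟩, fun e => k2.not_ge (Finset.mem_filter.1 e).2⟩)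
      exact Finset.mem_filter.2 ⟨(Finset.mem_filter.1 hz).1, (Finset.mem_filter.1 hz).2.trans k2.le⟩
    have a2 : ((E.filter fun z => z ≤ s).card : ℝ) + 1 ≤ (E.filter fun z => z ≤ t).card := by
      exact_mod_cast a1
    have a3 := mul_le_mul_of_nonneg_right a2 hη
    linarith only [ih, a3, h1 s hs t ht k1 k2 k3 k4, LG.d_triangle (f u) (f s) (f t)]

/-- the cocycle glued from the cells -/
theorem exists_n {H : Type} [Group H] (E : Finset ℝ) (C : Set Gm) (m1 : ℝ → ℝ → H) (m2 : ℝ → H) :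
    ∃ n : ℝ → H, ∀ s ∈ E, ∀ t ∈ E, s < t → Free E s t → ∀ x ∈ Icc s t, ∀ y ∈ Icc s t,
      (GI s t ⊆ C → (n x)⁻¹ * n y = (m1 s x)⁻¹ * m1 s y) ∧
      (¬GI s t ⊆ C → (n x)⁻¹ * n y = (m2 x)⁻¹ * m2 y) := by
  classical
  obtain ⟨n, hn⟩ := exists_glue E fun s x =>
    if ∃ t ∈ E, s < t ∧ Free E s t ∧ GI s t ⊆ C then m1 s x else m2 x
  refine ⟨n, fun s hs t ht k1 k2 x hx y hy => ⟨fun k => ?_, fun k => ?_⟩⟩
  · rw [hn s hs t ht k1 k2 x hx y hy, if_pos ⟨t, ht, k1, k2, k⟩, if_pos ⟨t, ht, k1, k2, k⟩]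
  · have e : ¬∃ t ∈ E, s < t ∧ Free E s t ∧ GI s t ⊆ C := by
      rintro ⟨t', a1, a2, a3, a4⟩
      exact k ((GI_mono le_rfl (not_lt.1 fun z => k2 t' a1 ⟨a2, z⟩)).trans a4)
    rw [hn s hs t ht k1 k2 x hx y hy, if_neg e, if_neg e]

end D_pbgA

open D_pbgA

theorem p_D_PBG :
    S_D_PBG := by
  classical
  intro R M A k x ι S P P' g a C E ρ ψ V F hS hC hM
  obtain ⟨i0, γ, hγ1, hγ2⟩ := hC.hit
  obtain ⟨s0, hs0, t0, ht0, b1, b2, b3, b4, b5⟩ := exists_cell E.finite_toSet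
    (hM.ends _ (hC.mem i0)).1 (hM.ends _ (hC.mem i0)).2 hγ2
  have b6 : GI s0 t0 ⊆ C := (hM.cell s0 t0 b4).resolve_right fun e => disjoint_left.1 e b5 hγ1
  refine ⟨(k + 1) * E.card + 1, t0 - s0, sub_pos.2 b2, fun H _ inl N => ?_⟩
  obtain ⟨n, hn⟩ := exists_n E C (fun s z => N ((ψ s).ap z) * inl (ρ s * P z)) fun z => inl (P z)
  have hn' : ∀ s ∈ E, ∀ t ∈ E, s < t → Free E s t →
      (GI s t ⊆ C → (n s)⁻¹ * n t =
        (N ((ψ s).ap s) * inl (ρ s * P s))⁻¹ * (N ((ψ s).ap t) * inl (ρ s * P t))) ∧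
      (¬GI s t ⊆ C → (n s)⁻¹ * n t = (inl (P s))⁻¹ * inl (P t)) := fun s hs t ht k1 k2 =>
    hn s hs t ht k1 k2 s ⟨le_rfl, k1.le⟩ t ⟨k1.le, le_rfl⟩
  have pos : ∀ w, R.ℓ w ≠ 0 → 0 < R.ℓ w := fun w h => (LG.l_nonneg w).lt_of_ne' h
  have le : ∀ w, a w ≤ a w + R.ℓ w := fun w => le_add_of_nonneg_right (LG.l_nonneg w)
  refine ⟨R.io a inl n, fun π h1 h2 w hw => ?_, fun G lam hl hV => ?_⟩
  · unfold LG.io
    split_ifs with e
    · exact h1 w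
    have := chain_eq (hM.ends w hw).1 (hM.ends w hw).2 (le w) (fun t => π (n t)) P
      fun s hs t ht k1 k2 k3 k4 => by
        rw [← map_inv, ← map_mul]
        by_cases z : GI s t ⊆ C
        · rw [(hn' s hs t ht k2 k4).1 z]
          simp only [map_mul, map_inv, h1, h2]
          group
        · rw [(hn' s hs t ht k2 k4).2 z, map_mul, map_inv, h1, h1]
    rw [map_mul, map_inv, this, hS.start w hw (pos w e), hS.stop w hw (pos w e), inv_one, one_mul]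
  have eio : ∀ w, lam (R.io a inl n w) = R.io a (fun w => lam (inl w)) (fun t => lam (n t)) w :=
    fun w => by
      unfold LG.io
      split_ifs
      · rfl
      · rw [map_mul, map_inv]
  -- the length of a cell in the support
  have lin : ∀ s ∈ E, ∀ t ∈ E, s < t → Free E s t → GI s t ⊆ C → G.d (lam (n s)) (lam (n t)) =
      G.d (lam (N ((ψ s).ap s)) * lam (inl (P' ((ψ s).ap s))))
        (lam (N ((ψ s).ap t)) * lam (inl (P' ((ψ s).ap t)))) := fun s hs t ht k1 k2 z => by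
    have c := (hM.mv s hs t ht k1 k2 z).1
    have c1 := LG.d_map_zero (lam.comp inl) hl (c s ⟨le_rfl, k1.le⟩)
    have c2 := LG.d_map_zero (lam.comp inl) hl (c t ⟨k1.le, le_rfl⟩)
    rw [MonoidHom.comp_apply, MonoidHom.comp_apply] at c1 c2
    rw [← LG.d_congr ((LG.d_mul_left _ _ _).trans c1) ((LG.d_mul_left _ _ _).trans c2), LG.d,
      ← map_inv, ← map_mul, (hn' s hs t ht k1 k2).1 z]
    simp only [LG.d, map_mul, map_inv]
  have len : ∀ η, 0 ≤ η → (∀ u ∈ F, ∀ v ∈ F, G.d (lam (N u) * lam (inl (P' u)))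
      (lam (N v) * lam (inl (P' v))) ≤ |u - v| + η) → ∀ w ∈ A, ∀ u ∈ E, ∀ v ∈ E, a w ≤ u → u ≤ v →
      v ≤ a w + R.ℓ w → G.d (lam (n u)) (lam (n v)) ≤ v - u + E.card * η := by
    intro η hη h w hw u hu v hv c1 c2 c3
    refine chain_len hu hv c2 hη (fun t => lam (n t)) fun s hs t ht k1 k2 k3 k4 => ?_
    have e : |s - t| = t - s := by rw [abs_sub_comm, abs_of_pos (sub_pos.2 k2)]
    by_cases z : GI s t ⊆ C
    · have c := (hM.mv s hs t ht k2 k4 z).2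
      have := h _ c.1 _ c.2
      rw [Gm.abs_ap_sub, e, ← lin s hs t ht k2 k4 z] at this
      exact this
    · have c := hS.iso w hw s ⟨c1.trans k1, (k2.le.trans k3).trans c3⟩ t
        ⟨(c1.trans k1).trans k2.le, k3.trans c3⟩
      have c' := hl ((P s)⁻¹ * P t)
      rw [map_mul inl, map_inv, ← (hn' s hs t ht k2 k4).2 z, map_mul, map_inv] at c'
      have c'' : G.d (lam (n s)) (lam (n t)) ≤ R.d (P s) (P t) := c'
      linarith only [c, c'', e, hη]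
  have len2 : ∀ η, 0 ≤ η → (∀ u ∈ F, ∀ v ∈ F, G.d (lam (N u) * lam (inl (P' u)))
      (lam (N v) * lam (inl (P' v))) ≤ |u - v| + η) → ∀ w ∈ A,
      G.ℓ (lam (R.io a inl n w)) ≤ R.ℓ w + E.card * η := by
    intro η hη h w hw
    unfold LG.io
    split_ifs with e
    · exact (hl w).trans (le_add_of_nonneg_right (by positivity))
    · have := len η hη h w hw _ (hM.ends w hw).1 _ (hM.ends w hw).2 le_rfl (le w) le_rfl
      rw [add_sub_cancel_left] at this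
      rw [map_mul, map_inv]
      exact this
  refine ⟨⟨fun w hw w' hw' hww => ?_, fun w hw h => ?_⟩, fun η hη h w hw => ?_, fun η hη h => ?_⟩
  · simp only [eio]
    refine hS.tri G.W _ _ (fun z z' _ _ => by rw [map_mul, map_mul]) (fun i u v huv hd => ?_)
      w hw w' hw' hww
    obtain ⟨E', hE'⟩ := hM.band i u v huv hd
    refine chain_ind E'.finite_toSet (Q := fun u t =>
      lam (n ((S.φ i).ap u)) * lam (inl (R.zeta P (g i) (S.φ i) u)) * (lam (n u))⁻¹ =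
        lam (n ((S.φ i).ap t)) * lam (inl (R.zeta P (g i) (S.φ i) t)) * (lam (n t))⁻¹) huv.le rfl
      fun y z k1 k2 k3 k4 k5 k6 ih => ih.trans ?_
    obtain ⟨s, hs, t, ht, s', hs', t', ht', c1, c2, c3, c4, c5, c6, c7, c8, c9⟩ :=
      hE' y z k1 k2 k3 k4 k5 k6
    have d1 := hn s hs t ht c1 c2 y c5 z c6
    have d2 := hn s' hs' t' ht' c3 c4 _ c7 _ c8
    simp only [LG.zeta, map_mul, map_inv]
    rcases c9 with ⟨e1, e2⟩ | ⟨e1, e2, e3⟩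
    · have f1 := congrArg lam (d1.2 e1)
      have f2 := congrArg lam (d2.2 e2)
      simp only [map_mul, map_inv] at f1 f2
      exact grp_out _ f1 f2
    · have f1 := congrArg lam (d1.1 e1)
      have f2 := congrArg lam (d2.1 e2)
      have f3 := hV _ _ _ _ e3
      simp only [map_mul, map_inv] at f1 f2 f3
      refine grp_in f1 f2 ?_
      rcases le_total ((ψ s).ap y) ((ψ s).ap z) with e | e
      · simpa only [min_eq_left e, max_eq_right e, Gm.mul_ap, Gm.inv_ap_ap] using f3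
      · simpa only [min_eq_right e, max_eq_left e, Gm.mul_ap, Gm.inv_ap_ap] using f3.symm
  · refine congrArg lam ?_
    unfold LG.io
    split_ifs with e
    · rfl
    have := chain_eq (hM.ends w hw).1 (hM.ends w hw).2 (le w) n (fun t => inl (P t))
      fun s hs t ht k1 k2 k3 k4 => (hn' s hs t ht k2 k4).2 fun z => by
        obtain ⟨β, hβ⟩ := GI_nonempty.2 k2
        exact disjoint_left.1 (hC.par w hw (h.resolve_right e)) (z hβ) (GI_mono k1 k3 hβ)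
    rw [this, hS.start w hw (pos w e), hS.stop w hw (pos w e), map_one, inv_one, one_mul]
  · refine (len2 η hη h w hw).trans (add_le_add le_rfl (mul_le_mul_of_nonneg_right ?_ hη))
    exact Nat.cast_le.2 (by nlinarith)
  · have h' : ∀ u ∈ F, ∀ v ∈ F, G.d (lam (N u) * lam (inl (P' u)))
        (lam (N v) * lam (inl (P' v))) ≤ |u - v| + η := fun u hu v hv =>
      (h u hu v hv).trans (le_add_of_nonneg_left (abs_nonneg _))
    have key : ∀ i, G.ℓ (lam (R.io a inl n (x i))) ≤ R.ℓ (x i) + E.card * η +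
        if i = i0 then (E.card + 1) * η - (t0 - s0) else 0 := fun i => by
      split_ifs with e
      · rw [e]
        have hw := hC.mem i0
        have l0 : R.ℓ (x i0) ≠ 0 := fun z => by linarith only [z, b1, b2, b3]
        have c1 := len η hη h' _ hw _ (hM.ends _ hw).1 _ hs0 le_rfl b1 (b2.le.trans b3)
        have c2 := len η hη h' _ hw _ ht0 _ (hM.ends _ hw).2 (b1.trans b2.le) b3 le_rfl
        have c := (hM.mv s0 hs0 t0 ht0 b2 b4 b6).2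
        have c3 := h _ c.1 _ c.2
        rw [← lin s0 hs0 t0 ht0 b2 b4 b6] at c3
        have c4 : G.ℓ (lam (R.io a inl n (x i0))) =
            G.d (lam (n (a (x i0)))) (lam (n (a (x i0) + R.ℓ (x i0)))) := by
          rw [LG.io, if_neg l0, map_mul, map_inv, LG.d]
        have c5 := LG.d_triangle (lam (n (a (x i0)))) (lam (n s0)) (lam (n (a (x i0) + R.ℓ (x i0))))
        have c6 := LG.d_triangle (lam (n s0)) (lam (n t0)) (lam (n (a (x i0) + R.ℓ (x i0))))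
        linarith only [c1, c2, c3, c4, c5, c6]
      · rw [add_zero]
        exact len2 η hη h' _ (hC.mem i)
    have := Finset.sum_le_sum fun i (_ : i ∈ Finset.univ) => key i
    rw [Finset.sum_add_distrib, Finset.sum_add_distrib, Finset.sum_ite_eq', if_pos (Finset.mem_univ _),
      Finset.sum_const, Finset.card_univ, Fintype.card_fin, nsmul_eq_mul] at this
    push_cast
    linarith only [this]

end Pool.Agent.P.MP_dba3d2_lc


end
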