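import Pool.Agent.P.MP_dba3d2_lcM.Db47
import Pool.Agent.P.MP_dba3d2_lcM.Db48
import Pool.Agent.P.MP_dba3d2_lcM.Db49
import Pool.Agent.P.MP_dba3d2_lcM.Db51
import Pool.Agent.P.MP_dba3d2_lcM.Db53

section

/-! Step D_PB1 of the stability project. -/

namespace Pool.Agent.P.MP_dba3d2_lc

open Set Filter Topology

theorem p_D_PB1 (hD_MESH : S_D_MESH) (hD_PBG : S_D_PBG) :
    S_D_PB1 := by
  intro R M A k x ι _ S P g a C hS hC p q Rn h1 h2 h3
  obtain ⟨E, ρ, ψ, V, F, m1, m2, m3, m4⟩ := hD_MESH R A ι S P g a C hS hC.co hC.inv P (Icc p q)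
    (fun γ β => S.Rel γ β ∧ β ∈ GI p q) Rn
    (fun γ hγ => by
      obtain ⟨β, b1, b2⟩ := h1 γ hγ
      obtain ⟨w, r1, r1p, hr1⟩ := hS.mv_of_rel b2
      obtain ⟨r2, r2p, hr2⟩ := mem_GI_iff.1 b1
      obtain ⟨r3, r3p, hr3⟩ := mem_nhds_gm.1 b2.eventually
      have e : ∀ s, (β * γ⁻¹).ap (γ.ap s) = β.ap s := fun s => by simp
      refine ⟨w, β * γ⁻¹, min r1 (min r2 r3), lt_min r1p (lt_min r2p r3p), fun s hs => ?_,
        fun α hα => ⟨hr3 (seg_mono ((min_le_right _ _).trans (min_le_right _ _)) hα), ?_⟩⟩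
      · rw [e]
        exact ⟨hr1 s ⟨hs.1, hs.2.trans (min_le_left _ _)⟩,
          hr2 s ⟨hs.1, hs.2.trans ((min_le_right _ _).trans (min_le_left _ _))⟩⟩
      · have k1 : α ∈ seg γ r2 := seg_mono ((min_le_right _ _).trans (min_le_left _ _)) hα
        have k2 := (mul_mem_seg_mul (φ := β * γ⁻¹)).2 k1
        rw [inv_mul_cancel_right] at k2
        exact (seg_subset_GI r2p).2 hr2 k2)
    (fun γ γ' β β' s b b' => h2 β b.2 β' b'.2 (b.1.symm.trans (s.rel.trans b'.1)))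
  obtain ⟨n₀, c, c0, hp⟩ := hD_PBG R M A k x ι S P P g a C E ρ ψ V F hS hC m1
  intro η hη
  have hn : (0 : ℝ) < n₀ + 1 := by positivity
  have hm : 0 < min η (c / 2) := lt_min hη (half_pos c0)
  have e0 : 0 < min η (c / 2) / (n₀ + 1) := div_pos hm hn
  have e1 : n₀ * (min η (c / 2) / (n₀ + 1)) ≤ min η (c / 2) := by
    rw [← mul_div_assoc, div_le_iff₀ hn]
    nlinarith
  obtain ⟨r, y, N, g1, g2, g3⟩ := h3 _ e0 V m2
    (fun h φ u v hv => by
      obtain ⟨a1, a2, a3, a4⟩ := m4 h φ u v hv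
      exact ⟨⟨a1, a2, a3⟩, a4⟩) F m3
  obtain ⟨io, i1, i2⟩ := hp (Monoid.Coprod R.W (FreeGroup (Fin r))) Monoid.Coprod.inl N
  refine ⟨r, y, io, c / 2, half_pos c0, g1, i1 _ (fun w => by simp) g2, fun G j ν hj hν => ?_⟩
  obtain ⟨f1, f2, f3⟩ := g3 G j ν hj hν _ fun _ => rfl
  obtain ⟨d1, d2, d3⟩ := i2 G (Monoid.Coprod.lift j (FreeGroup.lift ν)) (fun w => by simpa using hj w)
    (fun h φ u v hv => by simpa using f1 h φ u v hv)
  refine ⟨by simpa using d1, fun h0 w hw => ?_, fun h0 => ?_⟩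
  · have := d2 _ e0.le (fun u hu v hv => by simpa using f2 h0 u hu v hv) w hw
    linarith [min_le_left η (c / 2)]
  · have := d3 _ e0.le (fun u hu v hv => by simpa using f3 h0 u hu v hv)
    linarith [min_le_right η (c / 2)]

end Pool.Agent.P.MP_dba3d2_lc


end

section

/-! Step D_PB2 of the stability project. -/

namespace Pool.Agent.P.MP_dba3d2_lc

open Set Filter Topology

namespace D_pb2A

theorem exists_theta (F : Finset ℝ) {η : ℝ} (hη : 0 < η) :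
    ∃ θ : ℝ →ₗ[ℚ] ℚ, ∀ t ∈ F, |t - θ t| ≤ η := by
  let b := Module.Basis.ofVectorSpace ℚ ℝ
  let K : ℝ → ℝ := fun t => ∑ i ∈ (b.repr t).support, |(b.repr t i : ℝ)|
  have K0 : ∀ t, 0 ≤ K t := fun t => Finset.sum_nonneg fun i _ => abs_nonneg _
  have S0 : 0 ≤ ∑ t ∈ F, K t := Finset.sum_nonneg fun t _ => K0 t
  have e0 : 0 < η / (∑ t ∈ F, K t + 1) := by positivity
  choose q hq using fun i => exists_rat_near (b i) e0
  refine ⟨b.constr ℚ q, fun t ht => ?_⟩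
  have e1 : t = ∑ i ∈ (b.repr t).support, (b.repr t i : ℝ) * b i := by
    conv_lhs => rw [← b.linearCombination_repr t, Finsupp.linearCombination_apply, Finsupp.sum]
    simp only [Rat.smul_def]
  have e2 : ((b.constr ℚ q t : ℚ) : ℝ) = ∑ i ∈ (b.repr t).support, (b.repr t i : ℝ) * q i := by
    rw [Module.Basis.constr_apply, Finsupp.sum]
    simp
  have e3 : t - ((b.constr ℚ q t : ℚ) : ℝ) =
      ∑ i ∈ (b.repr t).support, (b.repr t i : ℝ) * (b i - q i) := by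
    rw [e2]
    conv_lhs => arg 1; rw [e1]
    rw [← Finset.sum_sub_distrib]
    exact Finset.sum_congr rfl fun i _ => by ring
  rw [e3]
  refine (Finset.abs_sum_le_sum_abs _ _).trans ?_
  calc ∑ i ∈ (b.repr t).support, |(b.repr t i : ℝ) * (b i - q i)|
      ≤ ∑ i ∈ (b.repr t).support, |(b.repr t i : ℝ)| * (η / (∑ t ∈ F, K t + 1)) :=
        Finset.sum_le_sum fun i _ => by
          rw [abs_mul]
          exact mul_le_mul_of_nonneg_left (hq i).le (abs_nonneg _)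
    _ = K t * (η / (∑ t ∈ F, K t + 1)) := (Finset.sum_mul _ _ _).symm
    _ ≤ (∑ t ∈ F, K t + 1) * (η / (∑ t ∈ F, K t + 1)) := by
        have := Finset.single_le_sum (f := K) (fun t _ => K0 t) ht
        exact mul_le_mul_of_nonneg_right (by linarith) e0.le
    _ = η := by field_simp

theorem valid {W : Type} [Group W] (ν : Multiplicative ℚ →* W) (θ : ℝ →ₗ[ℚ] ℚ) {h : W} {ε : ℚ}
    (hc : ∀ q : ℚ, h * ν (.ofAdd q) * h⁻¹ = ν (.ofAdd (ε * q))) (b t : ℝ) :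
    ν (.ofAdd (θ (ε * t + b))) * h * (ν (.ofAdd (θ t)))⁻¹ = ν (.ofAdd (θ b)) * h := by
  rw [add_comm, map_add, ← Rat.smul_def, map_smul, smul_eq_mul, ofAdd_add, map_mul, ← hc]
  group

end D_pb2A

open D_pb2A in
theorem p_D_PB2 (hD_MESH : S_D_MESH) (hD_PBG : S_D_PBG) :
    S_D_PB2 := by
  intro R e hA M A k x ι _ S P g a C hS hC u v huv hP hper hrel
  obtain ⟨L, hL, s0, t0, e1, e2⟩ := hA.line (P u) (P v)
    (by rw [hP u ⟨le_rfl, huv.le⟩ v ⟨huv.le, le_rfl⟩]; exact abs_pos.2 (sub_ne_zero.2 huv.ne)) hper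
  obtain ⟨φ0, -, -, h0⟩ := R.exists_gm (g := 1) (P' := L) (a' := min s0 t0) (b' := max s0 t0) hP
    (fun s _ t _ => hL.iso s t) ⟨le_rfl, huv.le⟩ ⟨huv.le, le_rfl⟩ ⟨min_le_left _ _, le_max_left _ _⟩
    ⟨min_le_right _ _, le_max_right _ _⟩ (by rwa [one_mul]) (by rwa [one_mul])
  obtain ⟨E, ρ, ψ, V, F, hM, -, -, hV⟩ := hD_MESH R.toLG A ι S P g a C hS hC.co hC.inv L univ
    (fun _ _ => True) (fun _ _ => True) (fun γ hγ => by
      obtain ⟨β, hβ, hr⟩ := hrel γ hγ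
      obtain ⟨ρ, r, r0, h1⟩ := hS.mv_of_rel hr
      obtain ⟨r', r0', h2⟩ := mem_GI_iff.1 hβ
      refine ⟨ρ, φ0 * β * γ⁻¹, min r r', lt_min r0 r0', fun s hs => ⟨?_, trivial⟩,
        fun _ _ => trivial⟩
      have k1 := h1 s ⟨hs.1, hs.2.trans (min_le_left _ _)⟩
      have k2 := h0 _ (by
        rw [uIcc_of_le huv.le]; exact h2 s ⟨hs.1, hs.2.trans (min_le_right _ _)⟩)
      rw [one_mul] at k2
      simpa using LG.d_zero_trans k1 k2.2) (fun _ _ _ _ _ _ _ => trivial)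
  obtain ⟨n₀, c, c0, H⟩ := hD_PBG R.toLG M A k x ι S P L g a C E ρ ψ V F hS hC hM
  have η0 : 0 < c / (4 * (n₀ + 1)) := by positivity
  obtain ⟨θ, hθ⟩ := exists_theta F η0
  obtain ⟨io, i1, i2⟩ := H (Monoid.Coprod R.W (Multiplicative ℚ)) Monoid.Coprod.inl
    fun t => Monoid.Coprod.inr (.ofAdd (θ t))
  refine ⟨L, io, c / 2, half_pos c0, hL, i1 _ (fun _ => rfl) (fun _ => rfl), fun G j ν hj hν => ?_⟩
  obtain ⟨j1, j2, j3⟩ := i2 G (Monoid.Coprod.lift j ν) hj (fun h φ u' v' hm => by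
    obtain ⟨lt, -, rl, -⟩ := hV h φ u' v' hm
    have a1 := rl u' ⟨le_rfl, lt.le⟩
    have a2 := rl v' ⟨lt.le, le_rfl⟩
    obtain ⟨ε, b, hε, hb⟩ := hL.rig h u' v' _ _ lt a1 a2
    obtain ⟨ε', hε', rfl⟩ : ∃ ε' : ℚ, (ε' = 1 ∨ ε' = -1) ∧ (ε' : ℝ) = ε := by
      rcases hε with rfl | rfl
      exacts [⟨1, Or.inl rfl, by simp⟩, ⟨-1, Or.inr rfl, by simp⟩]
    have b1 : ∀ t, R.d (h * L t) (L (φ.ap t)) = 0 → φ.ap t = ε' * t + b := fun t ht => by
      have := LG.d_zero_trans (LG.d_zero_symm ht) (hb t)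
      rwa [hL.iso, abs_eq_zero, sub_eq_zero] at this
    rw [b1 _ a1, b1 _ a2]
    exact (valid ν θ (hν h ε' b hε' hb) b u').trans (valid ν θ (hν h ε' b hε' hb) b v').symm)
  refine ⟨j1, fun hf w hw => ?_, fun hf => ?_⟩
  · simpa using j2 0 le_rfl (fun s _ t _ => by
      rw [add_zero, ← hL.iso]
      exact (LG.d_congr (hf _ _) (hf _ _)).trans_le (LG.d_map_le j hj _ _)) w hw
  · have k := j3 (2 * (c / (4 * (n₀ + 1)))) (by positivity) fun s hs t ht => by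
      refine (LG.d_congr (hf _ _) (hf _ _)).trans_le ((LG.d_map_le j hj _ _).trans ?_)
      rw [hL.iso]
      linarith [abs_sub (s - θ s) (t - θ t), hθ s hs, hθ t ht]
    have e : (n₀ + 1 : ℝ) * (2 * (c / (4 * (n₀ + 1)))) = c / 2 := by field_simp; ring
    linarith

end Pool.Agent.P.MP_dba3d2_lc


end

section

/-! Step D_CASEF of the stability project. -/

namespace Pool.Agent.P.MP_dba3d2_lc

open Set Filter Topology

namespace D_casefA

/-- short segments at finitely many germs do not cross finitely many compact open sets -/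
theorem exists_unif {T : Set Gm} (hT : T.Finite) {κ : Type} (A : Finset κ) (W : κ → Set Gm)
    (hW : ∀ w, CO (W w)) : ∃ r > 0, ∀ α ∈ T, ∀ w ∈ A, ∀ β ∈ seg α r, (β ∈ W w ↔ α ∈ W w) := by
  have k : ∀ α w, ∀ᶠ r in 𝓝[>] (0 : ℝ), ∀ β ∈ seg α r, (β ∈ W w ↔ α ∈ W w) := fun α w => by
    have e : ∃ r > 0, ∀ β ∈ seg α r, (β ∈ W w ↔ α ∈ W w) := by
      by_cases c : α ∈ W w
      · obtain ⟨r, r0, hr⟩ := mem_nhds_gm.1 ((hW w).2.mem_nhds c)
        exact ⟨r, r0, fun β hβ => iff_of_true (hr hβ) c⟩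
      · obtain ⟨r, r0, hr⟩ := mem_nhds_gm.1 ((hW w).isClosed.isOpen_compl.mem_nhds c)
        exact ⟨r, r0, fun β hβ => iff_of_false (hr hβ) c⟩
    obtain ⟨r, r0, hr⟩ := e
    filter_upwards [Ioc_mem_nhdsGT r0] with s hs β hβ using hr β (seg_mono hs.2 hβ)
  have e : ∀ᶠ r in 𝓝[>] (0 : ℝ), ∀ α ∈ T, ∀ w ∈ A, ∀ β ∈ seg α r, (β ∈ W w ↔ α ∈ W w) :=
    (eventually_all_finite hT).2 fun α _ => (eventually_all_finset A).2 fun w _ => k α w
  obtain ⟨r, h1, h2⟩ := (e.and self_mem_nhdsWithin).exists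
  exact ⟨r, h2, h1⟩

/-- the system without bands -/
def S0 : Sys Empty where
  inv := id
  φ i := i.elim
  dom i := i.elim
  inv_inv _ := rfl
  φ_inv i := i.elim
  co i := i.elim
  map i := i.elim

end D_casefA

open D_casefA in
theorem p_D_CASEF (hD_STB : S_D_STB) (hD_GOODFIN : S_D_GOODFIN) (hD_STRIP : S_D_STRIP) (hD_PB1 : S_D_PB1) (hD_PB2 : S_D_PB2) :
    S_D_CASEF := by
  intro R e hA M A k x ι _ S P g a H hx i γ hγ hb hf
  obtain ⟨r0, p0, b1, b2, b3⟩ := Sys.exists_box hf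
  obtain ⟨r1, p1, b4⟩ := exists_unif hf A (R.sec a) (LG.Setup.co_sec R.toLG a)
  obtain ⟨r, pr, l0, l1⟩ : ∃ r > 0, r ≤ r0 ∧ r ≤ r1 :=
    ⟨min r0 r1, lt_min p0 p1, min_le_left _ _, min_le_right _ _⟩
  have g0 : γ ∈ S.orb γ := Sys.Rel.refl S γ
  obtain ⟨u, v, huv⟩ : ∃ u v, seg γ r = GI u v := ⟨_, _, seg_eq_GI pr.le⟩
  have lt : u < v := lt_of_mem_GI (huv ▸ self_mem_seg pr)
  have hsec : GI u v ⊆ R.sec a (x i) := fun β hβ =>
    (b4 γ g0 _ (hx i) β (seg_mono l1 (huv ▸ hβ))).2 hγ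
  have iso : R.IsoOn P u v :=
    (H.iso _ (hx i)).mono ((GI_subset_iff lt).1 hsec).1 ((GI_subset_iff lt).1 hsec).2
  have dl : ∀ δ, γ * δ ∈ GI u v → δ ∈ GI 0 r := fun δ h => mul_mem_seg.1 (huv ▸ h)
  have key : ∀ u' v', u ≤ u' → u' < v' → v' ≤ v → ∃ C, R.Supp M A x S a C ∧
      (∀ β ∈ C, ∃ β' ∈ GI u' v', S.Rel β β') := fun u' v' h1 h2 h3 => by
    have sub : GI u' v' ⊆ GI u v := GI_mono h1 h3
    have mem : ∀ β, β ∈ ⋃ α ∈ S.orb γ, tr (α * γ⁻¹) (GI u' v') ↔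
        ∃ α ∈ S.orb γ, ∃ δ, β = α * δ ∧ γ * δ ∈ GI u' v' := fun β => by
      simp only [mem_iUnion, mem_tr, exists_prop]
      refine exists_congr fun α => and_congr_right fun _ => ⟨fun h => ⟨α⁻¹ * β, by simp, ?_⟩, ?_⟩
      · simpa [mul_assoc] using h
      · rintro ⟨δ, rfl, h⟩
        simpa [mul_assoc] using h
    refine ⟨⋃ α ∈ S.orb γ, tr (α * γ⁻¹) (GI u' v'), ⟨hx, CO.biUnion hf fun α _ => co_GI.tr _,
      fun j β hβ hC => ?_, fun β hC => ?_, fun m hm hM => disjoint_left.2 fun β hC hβ => ?_, i, ?_⟩,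
      fun β hC => ?_⟩
    · obtain ⟨α, hα, δ, rfl, hδ⟩ := (mem β).1 hC
      have c : α ∈ S.dom j :=
        (b1 α hα j _ (seg_mono l0 (mul_mem_seg.2 (dl δ (sub hδ))))).1 hβ
      exact (mem _).2 ⟨S.φ j * α, Sys.Rel.trans hα (Sys.rel_φ c), δ, (mul_assoc _ _ _).symm, hδ⟩
    · obtain ⟨α, hα, δ, rfl, hδ⟩ := (mem β).1 hC
      obtain ⟨w, hw, c⟩ : α ∈ R.secs a A := Sys.Rel.mem hα H.in'.inv ⟨x i, hx i, hγ⟩
      exact ⟨w, hw, (b4 α hα w hw _ (seg_mono l1 (mul_mem_seg.2 (dl δ (sub hδ))))).2 c⟩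
    · obtain ⟨α, hα, δ, rfl, hδ⟩ := (mem β).1 hC
      have c := (b4 α hα m hm _ (seg_mono l1 (mul_mem_seg.2 (dl δ (sub hδ))))).1 hβ
      obtain ⟨y, hy⟩ := H.mv_of_rel (Sys.Rel.symm hα)
      exact hb ((H.hgm_of_mem hm hM c).mv hy)
    · obtain ⟨β, hβ⟩ := GI_nonempty.2 h2
      exact ⟨β, (mem β).2 ⟨γ, g0, γ⁻¹ * β, by simp, by simpa using hβ⟩, hsec (sub hβ)⟩
    · obtain ⟨α, hα, δ, rfl, hδ⟩ := (mem β).1 hC
      refine ⟨γ * δ, hδ, Sys.Rel.symm (Sys.mem_orb.1 ?_)⟩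
      rw [b3 δ (GI_mono le_rfl l0 (dl δ (sub hδ)))]
      exact ⟨α, hα, rfl⟩
  have uniq : ∀ β ∈ GI u v, ∀ β' ∈ GI u v, S.Rel β β' → β = β' := fun β hβ β' hβ' h => by
    obtain ⟨δ, rfl⟩ : ∃ δ, β = γ * δ := ⟨γ⁻¹ * β, by simp⟩
    have c := GI_mono le_rfl l0 (dl δ hβ)
    have d : β' ∈ S.orb (γ * δ) := h
    rw [b3 δ c] at d
    obtain ⟨α, hα, rfl⟩ := d
    by_contra ne
    have ne' : α ≠ γ := fun z => ne (by rw [z])
    exact disjoint_left.1 (b2 α hα γ g0 ne') (mul_mem_seg.2 c) (seg_mono l0 (huv ▸ hβ'))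
  by_cases per : ∃ u' v', u ≤ u' ∧ u' < v' ∧ v' ≤ v ∧ R.Per (P u') (P v')
  · obtain ⟨u', v', h1, h2, h3, h4⟩ := per
    obtain ⟨C, c1, c2⟩ := key u' v' h1 h2 h3
    exact Or.inr (hD_PB2 R e hA M A k x ι S P g a C H c1 u' v' h2 (iso.mono h1 h3) h4 c2)
  · obtain ⟨p, q, h1, h3, st⟩ := hD_STB R e hA P u v lt iso fun u' v' h1 h2 h3 h4 =>
      per ⟨u', v', h1, h2, h3, h4⟩
    obtain ⟨C, c1, c2⟩ := key p q h1 st.lt h3
    have gd := hD_STRIP R.toLG P p q p q st le_rfl le_rfl Empty S0 (fun j => j.elim)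
      (fun j => j.elim) (hD_GOODFIN R.toLG P p q p q st le_rfl le_rfl Empty S0 (fun j => j.elim)
        (fun j => j.elim) fun β => by
          rw [Sys.orb_eq_singleton fun j => j.elim]
          exact finite_singleton β)
    refine Or.inl (hD_PB1 R.toLG M A k x ι S P g a C H c1 p q S0.Rel c2
      (fun β hβ β' hβ' h => ?_) gd)
    rw [uniq β (GI_mono h1 h3 hβ) β' (GI_mono h1 h3 hβ') h]
    exact Sys.Rel.refl S0 β'

end Pool.Agent.P.MP_dba3d2_lc


end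

section

/-! Step D_INDUCE of the stability project. -/

namespace Pool.Agent.P.MP_dba3d2_lc

open Set Filter Topology

namespace D_induceA

theorem cover {ι : Type} (S : Sys ι) {C U : Set Gm} (hC : CO C) (hU : CO U) (hUC : U ⊆ C)
    (h : ∀ γ ∈ C, ∃ β ∈ U, S.Rel γ β) :
    ∃ (κ : Type) (_ : Fintype κ) (W : κ → Set Gm) (ψ : κ → Gm) (k0 : κ), (∀ k, CO (W k)) ∧
      (∀ k, ∀ γ ∈ W k, γ ∈ C ∧ ψ k * γ ∈ U ∧ S.Rel γ (ψ k * γ)) ∧ (∀ γ ∈ C, ∃ k, γ ∈ W k) ∧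
      W k0 = U ∧ ψ k0 = 1 := by
  have key : ∀ γ : Gm, ∃ r > 0, ∃ ψ : Gm, γ ∈ C →
      seg γ r ⊆ {α | α ∈ C ∧ ψ * α ∈ U ∧ S.Rel α (ψ * α)} := fun γ => by
    by_cases hγ : γ ∈ C
    · obtain ⟨β, hβ, hr⟩ := h γ hγ
      have h1 : ∀ᶠ α in 𝓝 γ, α ∈ C := hC.2.mem_nhds hγ
      have h2 : ∀ᶠ α in 𝓝 γ, β * γ⁻¹ * α ∈ U :=
        (continuous_gm_mul (β * γ⁻¹)).continuousAt.eventually
          (hU.2.mem_nhds (by simpa using hβ))
      obtain ⟨r, h0, hr'⟩ := mem_nhds_gm.1 (h1.and (h2.and hr.eventually))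
      exact ⟨r, h0, β * γ⁻¹, fun _ => hr'⟩
    · exact ⟨1, one_pos, 1, fun k => absurd k hγ⟩
  choose r h0 ψ hψ using key
  obtain ⟨t, ht, hc⟩ := hC.1.elim_nhds_subcover (fun γ => seg γ (r γ)) fun γ _ =>
    seg_mem_nhds (h0 γ)
  refine ⟨Option t, inferInstance, fun k => k.elim U fun γ => seg γ (r γ),
    fun k => k.elim 1 fun γ => ψ γ, none, ?_, ?_, fun γ hγ => ?_, rfl, rfl⟩
  · rintro (_ | k)
    exacts [hU, co_seg]
  · rintro (_ | k) γ hγ
    · simpa using ⟨hUC hγ, hγ, Sys.Rel.refl S γ⟩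
    · exact hψ k (ht k k.2) hγ
  · obtain ⟨α, hα, k⟩ := mem_iUnion₂.1 (hc hγ)
    exact ⟨some ⟨α, hα⟩, k⟩

end D_induceA

theorem p_D_INDUCE :
    S_D_INDUCE := by
  intro ι _ S C U hC hI hU hUC h
  obtain ⟨κ, _, W, ψ, k0, hW, hW', hcov, e1, e2⟩ := D_induceA.cover S hC hU hUC h
  let φ : Option ι → Gm := fun o => o.elim 1 S.φ
  let dm : Option ι → Set Gm := fun o => o.elim C S.dom
  have hdm : ∀ o, CO (dm o) := by
    rintro (_ | i)
    exacts [hC, S.co i]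
  have hφ : ∀ o, ∀ γ ∈ dm o, S.Rel γ (φ o * γ) := by
    rintro (_ | i) γ hγ
    · exact (one_mul γ).symm ▸ Sys.Rel.refl S γ
    · exact Sys.rel_φ hγ
  let D : Option ι × κ × κ → Set Gm := fun x =>
    tr (ψ x.2.1) (W x.2.1 ∩ dm x.1 ∩ tr (φ x.1)⁻¹ (W x.2.2))
  let f : Option ι × κ × κ → Gm := fun x => ψ x.2.2 * φ x.1 * (ψ x.2.1)⁻¹
  have hD : ∀ x, ∀ β ∈ D x, β ∈ U ∧ f x * β ∈ U ∧ S.Rel β (f x * β) := by
    rintro ⟨o, k, k'⟩ β ⟨⟨a1, a2⟩, a3⟩
    rw [mem_tr, inv_inv] at a3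
    obtain ⟨-, b1, b2⟩ := hW' k _ a1
    obtain ⟨-, b3, b4⟩ := hW' k' _ a3
    rw [mul_inv_cancel_left] at b1 b2
    have e : f (o, k, k') * β = ψ k' * (φ o * ((ψ k)⁻¹ * β)) := by simp only [f, mul_assoc]
    rw [e]
    exact ⟨b1, b3, b2.symm.trans ((hφ o _ a2).trans b4)⟩
  obtain ⟨T, -, -, -, d1, d2, hT⟩ := Sys.exists_mk f D fun x =>
    (((hW _).inter (hdm _)).inter ((hW _).tr _)).tr _
  have hs : ∀ o k k' γ, γ ∈ W k → γ ∈ dm o → φ o * γ ∈ W k' →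
      T.Rel (ψ k * γ) (ψ k' * (φ o * γ)) := fun o k k' γ a1 a2 a3 =>
    Sys.Step.rel ((hT _ _).2 ⟨(o, k, k'), Or.inl ⟨mul_mem_tr.2 ⟨⟨a1, a2⟩, by
      rw [mem_tr, inv_inv]; exact a3⟩, by simp only [f, mul_assoc, inv_mul_cancel_left]⟩⟩)
  refine ⟨(Option ι × κ × κ) × Bool, inferInstance, T, ?_, fun γ β hst => ?_,
    fun γ hγ β hβ hr => ?_⟩
  · rintro ⟨x, _ | _⟩ β hβ
    · rw [d2] at hβ
      have := (hD x _ hβ).2.1
      rwa [mul_inv_cancel_left] at this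
    · rw [d1] at hβ
      exact (hD x _ hβ).1
  · obtain ⟨x, ⟨a1, rfl⟩ | ⟨a1, rfl⟩⟩ := (hT _ _).1 hst
    exacts [(hD x _ a1).2.2, (hD x _ a1).2.2.symm]
  · have key : ∀ α, S.Rel γ α → ∀ k, α ∈ W k → T.Rel γ (ψ k * α) := by
      intro α hα
      induction hα with
      | refl =>
        intro k hk
        have := hs none k0 k γ (e1 ▸ hγ) (hUC hγ) ((one_mul γ).symm ▸ hk)
        simpa only [e2, φ, Option.elim, one_mul] using this
      | tail h1 h2 ih =>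
        intro k hk
        obtain ⟨i, hi, rfl⟩ := h2
        obtain ⟨k', hk'⟩ := hcov _ (Sys.Rel.mem h1 hI (hUC hγ))
        exact (ih k' hk').trans (hs (some i) k' k _ hk' hi hk)
    simpa only [e2, one_mul] using key β hr k0 (e1 ▸ hβ)

end Pool.Agent.P.MP_dba3d2_lc


end

section

/-! Step D_REFINE of the stability project. -/

namespace Pool.Agent.P.MP_dba3d2_lc

open Set Filter Topology

namespace D_refineA

variable {ι : Type} {A : Gm → ℝ → ℝ → Prop}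

theorem rw_seg' (P : PG A) {γ β : Gm} (h : RW A γ β) :
    ∃ r > 0, ∀ u v, u < v → GI u v ⊆ seg γ r → A (β * γ⁻¹) u v := by
  obtain ⟨a, b, x, y⟩ := h
  obtain ⟨r, r0, hr⟩ := isOpen_iff_seg.1 isOpen_GI γ x
  refine ⟨r, r0, fun u v uv k => ?_⟩
  obtain ⟨k1, k2⟩ := (GI_subset_iff uv).1 (k.trans hr)
  exact P.sub _ a b u v y k1 uv k2

theorem mu_iUnion' {κ : Type} [Fintype κ] {W : κ → Set Gm} (h : ∀ i, ∃ u v, W i = GI u v)
    (hd : ∀ i j, i ≠ j → Disjoint (W i) (W j)) : mu (⋃ i, W i) = ∑ i, mu (W i) := by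
  have e : ∀ i, ∃ u v, {t : ℝ | Gm.tau t ∈ W i} = Ico u v := fun i => by
    obtain ⟨u, v, e⟩ := h i
    exact ⟨u, v, by ext t; rw [e]; exact tau_mem_GI⟩
  have e2 : {t : ℝ | Gm.tau t ∈ ⋃ i, W i} = ⋃ i, {t : ℝ | Gm.tau t ∈ W i} := by
    ext t; simp
  rw [mu, e2]
  refine MeasureTheory.measureReal_iUnion_fintype
    (fun i j ne => disjoint_left.2 fun t x y => disjoint_left.1 (hd i j ne) x y)
    (fun i => ?_) fun i => ?_ <;> obtain ⟨u, v, e⟩ := e i <;> rw [e]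
  · exact measurableSet_Ico
  · exact measure_Ico_lt_top.ne

/-- meshes that are compatible with the isometries -/
theorem exists_mesh (P : PG A) (S : Sys ι) (h : S.Weak A) : ∃ E : ι → Set ℝ,
    (∀ i, (E i).Finite) ∧
    (∀ i u v, Free (E i) u v → (GI u v ∩ S.dom i).Nonempty → A (S.φ i) u v ∧ GI u v ⊆ S.dom i) ∧
    (∀ i, ∃ a ∈ E i, ∃ b ∈ E i, S.dom i ⊆ GI a b) ∧ (∀ i, (S.φ i).c / 2 ∈ E i) ∧
    ∀ i t, (S.φ i).ap t ∈ E (S.inv i) ↔ t ∈ E i := by
  have k : ∀ i, ∃ E : Finset ℝ, ∀ u v, Free E u v → (GI u v ∩ S.dom i).Nonempty →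
      A (S.φ i) u v ∧ GI u v ⊆ S.dom i := fun i =>
    (S.co i).subdiv' fun γ hγ => by simpa using rw_seg' P (h i γ hγ)
  choose E hE using k
  choose a b _ hab using fun i => (S.co i).bdd
  let F : ι → Set ℝ := fun i => insert (a i) (insert (b i) (insert ((S.φ i).c / 2) (E i)))
  have hF : ∀ i, (F i).Finite := fun i => (((E i).finite_toSet.insert _).insert _).insert _
  refine ⟨fun i => F i ∪ (S.φ i).ap ⁻¹' F (S.inv i),
    fun i => (hF i).union ((hF _).preimage (S.φ i).ap_injective.injOn),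
    fun i u v x => hE i u v (x.mono fun t ht => Or.inl (Or.inr (Or.inr (Or.inr ht)))),
    fun i => ⟨a i, Or.inl (Or.inl rfl), b i, Or.inl (Or.inr (Or.inl rfl)), hab i⟩,
    fun i => Or.inl (Or.inr (Or.inr (Or.inl rfl))), fun i t => ?_⟩
  simp only [mem_union, mem_preimage, S.inv_inv, S.φ_inv, Gm.inv_ap_ap]
  exact Or.comm

/-- the cells of a mesh -/
def Cell (E : Set ℝ) (U : Set Gm) : Prop := ∃ u ∈ E, ∃ v ∈ E, u < v ∧ Free E u v ∧ U = GI u v

theorem Cell.tr {E E' : Set ℝ} {φ : Gm} (h : ∀ t, φ.ap t ∈ E' ↔ t ∈ E) {U : Set Gm}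
    (k : Cell E U) : Cell E' (tr φ U) := by
  obtain ⟨u, hu, v, hv, uv, f, rfl⟩ := k
  have m : ∀ t ∈ E', φ⁻¹.ap t ∈ E := fun t ht => (h _).1 (by rwa [Gm.ap_inv_ap])
  rcases φ.h with e | e
  · refine ⟨_, (h u).2 hu, _, (h v).2 hv, ?_, fun t ht x => f _ (m t ht) ?_, tr_GI_pos e⟩
    · simp only [Gm.ap, e]; linarith
    · simp only [Gm.ap, e, Gm.inv_eps, Gm.inv_c] at x ⊢
      constructor <;> linarith [x.1, x.2]
  · refine ⟨_, (h v).2 hv, _, (h u).2 hu, ?_, fun t ht x => f _ (m t ht) ?_, tr_GI_neg e⟩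
    · simp only [Gm.ap, e]; linarith
    · simp only [Gm.ap, e, Gm.inv_eps, Gm.inv_c] at x ⊢
      constructor <;> linarith [x.1, x.2]

theorem Cell.one {E : Set ℝ} {φ : Gm} (h : φ.c / 2 ∈ E) {U : Set Gm} (k : Cell E U)
    (e : Pool.Agent.P.MP_dba3d2_lc.tr φ U = U) : φ = 1 := by
  obtain ⟨u, -, v, -, uv, f, rfl⟩ := k
  rcases φ.h with z | z
  · rw [tr_GI_pos z] at e
    have := (GI_inj uv e.symm).1
    simp only [Gm.ap, z] at this
    exact Gm.ext z (by rw [Gm.one_c]; linarith)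
  · rw [tr_GI_neg z] at e
    have := (GI_inj uv e.symm).1
    simp only [Gm.ap, z] at this
    exact absurd ⟨by linarith, by linarith⟩ (f _ h)

end D_refineA

open D_refineA

theorem p_D_REFINE :
    S_D_REFINE := by
  classical
  intro A P ι _ S h
  obtain ⟨E, hf, hA, hb, hc, hi⟩ := exists_mesh P S h
  let K : Set (ι × Set Gm) := {p | Cell (E p.1) p.2 ∧ p.2 ⊆ S.dom p.1}
  have hK : K.Finite := by
    refine (finite_iUnion fun i =>
      ((hf i).prod (hf i)).image fun q : ℝ × ℝ => (i, GI q.1 q.2)).subset ?_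
    rintro ⟨i, U⟩ ⟨⟨u, hu, v, hv, -, -, e⟩, -⟩
    exact mem_iUnion.2 ⟨i, (u, v), ⟨hu, hv⟩, Prod.ext rfl e.symm⟩
  have hco : ∀ p : K, CO p.1.2 := fun p => by
    obtain ⟨u, -, v, -, -, -, e⟩ := p.2.1
    rw [e]; exact co_GI
  let T : Sys K :=
    { inv := fun p => ⟨(S.inv p.1.1, tr (S.φ p.1.1) p.1.2), p.2.1.tr (hi _), fun β hβ => by
        simpa using S.map _ _ (p.2.2 hβ)⟩
      φ := fun p => S.φ p.1.1
      dom := fun p => p.1.2
      inv_inv := fun p => Subtype.ext (Prod.ext (S.inv_inv _) (by simp [tr_tr, S.φ_inv]))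
      φ_inv := fun p => S.φ_inv _
      co := hco
      map := fun p γ hγ => mul_mem_tr.2 hγ }
  have cov : ∀ i, ∀ γ ∈ S.dom i, ∃ U, (i, U) ∈ K ∧ γ ∈ U := fun i γ hγ => by
    obtain ⟨a, ha, b, hb', hab⟩ := hb i
    obtain ⟨s, hs, t, ht, -, st, -, f, x⟩ := exists_cell (hf i) ha hb' (hab hγ)
    exact ⟨GI s t, ⟨⟨s, hs, t, ht, st, f, rfl⟩, (hA i s t f ⟨γ, x, hγ⟩).2⟩, x⟩
  have : Fintype K := hK.fintype
  refine ⟨K, this, T, fun p => Or.inr ?_, fun p e => ?_, fun γ β => ⟨?_, ?_⟩, ?_,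
    fun X hX p => p.2.2.trans (hX _)⟩
  · obtain ⟨u, -, v, -, uv, f, e⟩ := p.2.1
    obtain ⟨γ, hγ⟩ := GI_nonempty.2 uv
    exact ⟨u, v, e, (hA _ u v f ⟨γ, hγ, p.2.2 (e ▸ hγ)⟩).1⟩
  · exact p.2.1.one (hc _) (congrArg (fun q : K => q.1.2) e)
  · rintro ⟨p, x, e⟩
    exact ⟨p.1.1, p.2.2 x, e⟩
  · rintro ⟨i, x, e⟩
    obtain ⟨U, y, z⟩ := cov i γ x
    exact ⟨⟨(i, U), y⟩, z, e⟩
  · rw [Sys.tot, Sys.tot, ← Fintype.sum_fiberwise (fun p : K => p.1.1)]
    refine Finset.sum_congr rfl fun i _ => ?_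
    rw [← mu_iUnion' (W := fun p : {p : K // p.1.1 = i} => T.dom p.1) fun p => by
      obtain ⟨u, -, v, -, -, -, e⟩ := p.1.2.1
      exact ⟨u, v, e⟩]
    · congr 1
      refine Subset.antisymm (iUnion_subset fun p => p.1.2.2.trans (by rw [p.2])) fun γ hγ => ?_
      obtain ⟨U, y, z⟩ := cov i γ hγ
      exact mem_iUnion.2 ⟨⟨⟨(i, U), y⟩, rfl⟩, z⟩
    · intro p q ne
      obtain ⟨u, hu, v, hv, -, f, e⟩ := p.1.2.1
      obtain ⟨u', hu', v', hv', -, f', e'⟩ := q.1.2.1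
      rw [p.2] at hu hv f
      rw [q.2] at hu' hv' f'
      refine disjoint_left.2 fun γ k k' => ne ?_
      obtain ⟨e1, e2⟩ := cell_unique hu hv hu' hv' f f' (e.le k) (e'.le k')
      exact Subtype.ext (Subtype.ext (Prod.ext (p.2.trans q.2.symm) (by rw [e, e', e1, e2])))

end Pool.Agent.P.MP_dba3d2_lc


end

section

/-! Step D_LPCLEAN of the stability project. -/

namespace Pool.Agent.P.MP_dba3d2_lc

open Set Filter Topology

namespace D_lpcleanA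

variable {A : Gm → ℝ → ℝ → Prop} {Rn : Gm → Gm → Prop} {p q z : ℝ} {ι : Type} [Fintype ι]

theorem all_ne {T : Sys ι} (hz : p ≤ z) (hT : T.St A Rn z q)
    (hm : LPMin A Rn p q (Fintype.card ι)) (i : ι) : (T.dom i).Nonempty := by
  have h := hm ι T z hz hT
  have e : {i | (T.dom i).Nonempty} = univ :=
    eq_of_subset_of_ncard_le (subset_univ _) (by rwa [ncard_univ, Nat.card_eq_fintype_card])
  exact (e.symm ▸ mem_univ i : i ∈ {i | (T.dom i).Nonempty})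

theorem no_less {S T : Sys ι} (hz : p ≤ z) (hS : S.St A Rn z q)
    (hm : LPMin A Rn p q (Fintype.card ι)) (hφ : T.φ = S.φ)
    (hd : ∀ k, T.dom k = S.dom k ∨ T.dom k = ∅) (hs : ∀ γ β, S.Step γ β → T.Rel γ β) {j : ι}
    (hj : T.dom j = ∅) : False := by
  have sub : ∀ k, T.dom k ⊆ S.dom k := fun k => by
    rcases hd k with h | h <;> rw [h]
    exact empty_subset _
  refine (all_ne (T := T) hz ⟨hS.1, fun k => (sub k).trans (hS.2.1 k), fun k => ?_,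
    fun γ h1 β h2 => Iff.trans ⟨?_, Sys.rel_of_step hs⟩ (hS.2.2.2 γ h1 β h2)⟩ hm j).ne_empty hj
  · rcases hd k with h | h
    · rw [h, hφ]; exact hS.2.2.1 k
    · exact Or.inl h
  · refine Sys.rel_of_step ?_
    rintro γ β ⟨k, h, rfl⟩
    exact Sys.Step.rel ⟨k, sub k h, by rw [hφ]⟩

/-- removal of a band and its inverse -/
theorem drop {S : Sys ι} (hz : p ≤ z) (hS : S.St A Rn z q)
    (hm : LPMin A Rn p q (Fintype.card ι)) (j : ι)
    (hs : ∀ T : Sys ι, T.φ = S.φ → (∀ k, k ≠ j → k ≠ S.inv j → T.dom k = S.dom k) →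
      ∀ γ ∈ S.dom j, T.Rel γ (S.φ j * γ)) : False := by
  classical
  obtain ⟨T, h1, h2⟩ := S.exists_sub (fun k => if k = j ∨ k = S.inv j then ∅ else S.dom k)
    (fun k => by
      split_ifs
      exacts [CO.empty, S.co k])
    (fun k => by
      split_ifs
      exacts [empty_subset _, subset_rfl])
    (fun k γ h => by
      by_cases c : k = j ∨ k = S.inv j
      · rw [if_pos c] at h; exact h.elim
      · rw [if_neg c] at h
        rw [if_neg]
        · exact S.map k γ h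
        · rintro (e | e)
          · exact c (Or.inr (Sys.inv_eq_iff.1 e))
          · exact c (Or.inl (S.inv_injective e)))
  have k1 : ∀ k, k ≠ j → k ≠ S.inv j → T.dom k = S.dom k := fun k a b => by
    rw [h2]; exact if_neg (not_or.2 ⟨a, b⟩)
  have k2 := hs T h1.2.1 k1
  refine no_less hz hS hm h1.2.1 (fun k => ?_) ?_ (j := j) (by rw [h2]; exact if_pos (Or.inl rfl))
  · rw [h2]; dsimp only
    split_ifs
    exacts [Or.inr rfl, Or.inl rfl]
  · rintro γ β ⟨k, h, rfl⟩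
    by_cases c : k = j
    · subst c; exact k2 γ h
    by_cases c' : k = S.inv j
    · subst c'
      have := k2 _ (S.inv_inv j ▸ S.map _ γ h)
      rw [S.φ_mul_inv] at this
      exact this.symm
    · exact Sys.Step.rel ⟨k, (k1 k c c').symm ▸ h, by rw [h1.2.1]⟩

theorem mob {S : Sys ι} (hz : p ≤ z) (hS : S.St A Rn z q)
    (hm : LPMin A Rn p q (Fintype.card ι)) {i : ι} (hi : i ≠ S.inv i) (e : S.φ i = S.φ (S.inv i))
    (hd : S.dom (S.inv i) ⊆ S.dom i) : False := by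
  classical
  have c1 : ∀ k, ¬(k = i ∨ k = S.inv i) → ¬(S.inv k = i ∨ S.inv k = S.inv i) := by
    rintro k c (h | h)
    · exact c (Or.inr (Sys.inv_eq_iff.1 h))
    · exact c (Or.inl (S.inv_injective h))
  let T : Sys ι :=
    { inv := fun k => if k = i ∨ k = S.inv i then k else S.inv k
      φ := S.φ
      dom := fun k => if k = S.inv i then ∅ else S.dom k
      inv_inv := fun k => by
        by_cases c : k = i ∨ k = S.inv i
        · simp only [if_pos c]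
        · simp only [if_neg c, if_neg (c1 k c), S.inv_inv]
      φ_inv := fun k => by
        by_cases c : k = i ∨ k = S.inv i
        · rw [if_pos c]
          rcases c with rfl | rfl
          · rw [← S.φ_inv, ← e]
          · rw [← S.φ_inv, S.inv_inv, ← e]
        · rw [if_neg c, S.φ_inv]
      co := fun k => by
        split_ifs
        exacts [CO.empty, S.co k]
      map := fun k γ h => by
        by_cases c : k = S.inv i
        · rw [if_pos c] at h; exact h.elim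
        rw [if_neg c] at h
        by_cases c' : k = i
        · subst c'
          rw [if_pos (Or.inl rfl), if_neg c]
          exact hd (S.map _ γ h)
        · rw [if_neg (not_or.2 ⟨c', c⟩), if_neg fun h => c' (S.inv_injective h)]
          exact S.map _ γ h }
  refine no_less (T := T) hz hS hm rfl (fun k => ?_) ?_ (j := S.inv i) (if_pos rfl)
  · by_cases c : k = S.inv i
    · exact Or.inr (if_pos c)
    · exact Or.inl (if_neg c)
  · rintro γ β ⟨k, h, rfl⟩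
    by_cases c : k = S.inv i
    · subst c
      exact Sys.Step.rel ⟨i, (if_neg hi : T.dom i = S.dom i).ge (hd h), by rw [← e]⟩
    · exact Sys.Step.rel ⟨k, (if_neg c : T.dom k = S.dom k).ge h, rfl⟩

end D_lpcleanA

open D_lpcleanA in
theorem p_D_LPCLEAN :
    S_D_LPCLEAN := by
  intro A Rn p q z ι _ S hz hS hm
  refine ⟨⟨fun i hi => drop hz hS hm i fun T _ _ γ _ => ?_, fun i j hij e hd => ?_⟩, ?_⟩
  · rw [hi, one_mul]; exact Sys.Rel.refl T γ
  · by_cases c : j = S.inv i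
    · subst c; exact mob hz hS hm hij e hd
    · refine drop hz hS hm j fun T h1 h2 γ h => Sys.Step.rel ⟨i, ?_, by rw [h1, e]⟩
      rw [h2 i hij fun k => c (Sys.inv_eq_iff.2 k).symm]
      exact hd h
  · have : ∀ i, ∃ u v, z ≤ u ∧ u < v ∧ v ≤ q ∧ S.dom i = GI u v ∧ A (S.φ i) u v := by
      intro i
      have ne := all_ne hz hS hm i
      rcases hS.2.2.1 i with h | ⟨u, v, h, k⟩
      · exact (ne.ne_empty h).elim
      · have lt : u < v := GI_nonempty.1 (h ▸ ne)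
        have := (GI_subset_iff lt).1 (h ▸ hS.2.1 i)
        exact ⟨u, v, this.1, lt, this.2, h, k⟩
    choose α β h using this
    exact ⟨α, β, h⟩

end Pool.Agent.P.MP_dba3d2_lc


end

section

/-! Step D_SLIDE of the stability project. -/

namespace Pool.Agent.P.MP_dba3d2_lc

open Set Filter Topology

namespace D_slideA

variable {A : Gm → ℝ → ℝ → Prop} {φ ψ : Gm} {U V : Set Gm}

/-- `φ` is realised on every segment inside `U` -/
def Ar (A : Gm → ℝ → ℝ → Prop) (φ : Gm) (U : Set Gm) : Prop :=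
  ∀ a b, a < b → GI a b ⊆ U → A φ a b

theorem tr_GI' (φ : Gm) {a b : ℝ} (h : a < b) : ∃ u v, u < v ∧ tr φ (GI a b) = GI u v := by
  refine ⟨_, _, ?_, tr_GI h.le⟩
  obtain ⟨γ, k⟩ := GI_nonempty.2 h
  exact lt_of_mem_GI (tr_GI (φ := φ) h.le ▸ mul_mem_tr.2 k)

theorem Ar.inv (P : PG A) (h : Ar A φ U) : Ar A φ⁻¹ (tr φ U) := by
  intro a b h1 h2
  obtain ⟨u, v, k1, k2⟩ := tr_GI' φ⁻¹ h1
  refine P.arc_inv (h u v k1 ?_) h1 ?_
  · rw [← k2]
    intro γ k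
    simpa using h2 k
  · rw [← k2, tr_tr, mul_inv_cancel, tr_one]

theorem Ar.comp (P : PG A) (h : Ar A φ U) (k : Ar A ψ V) (e : tr φ U ⊆ V) : Ar A (ψ * φ) U := by
  intro a b h1 h2
  obtain ⟨u, v, k1, k2⟩ := tr_GI' φ h1
  exact P.arc_comp (h a b h1 h2) (k u v k1 (k2 ▸ (tr_mono h2).trans e)) k2.le

/-- the system obtained by moving the base of `i` with `L i` -/
def mv {ι : Type} (S : Sys ι) (L : ι → Gm) : Sys ι where
  inv := S.inv
  φ i := L (S.inv i) * S.φ i * (L i)⁻¹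
  dom i := tr (L i) (S.dom i)
  inv_inv := S.inv_inv
  φ_inv i := by rw [S.inv_inv, S.φ_inv]; group
  co i := (S.co i).tr _
  map i γ h := by simpa [mul_assoc] using S.map i _ h

theorem mv_rel {ι : Type} (S : Sys ι) (L : ι → Gm)
    (h1 : ∀ i, ∀ γ ∈ S.dom i, S.Rel γ (L i * γ))
    (h2 : ∀ i, ∀ γ ∈ S.dom i, (mv S L).Rel γ (L i * γ)) (γ β : Gm) :
    (mv S L).Rel γ β ↔ S.Rel γ β := by
  refine ⟨Sys.rel_of_step ?_, Sys.rel_of_step ?_⟩
  · rintro γ _ ⟨i, k, rfl⟩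
    have k1 : (L i)⁻¹ * γ ∈ S.dom i := k
    have k2 := h1 i _ k1
    rw [mul_inv_cancel_left] at k2
    have k3 := (k2.symm.trans (Sys.rel_φ k1)).trans (h1 _ _ (S.map i _ k1))
    simpa [mv, mul_assoc] using k3
  · rintro γ _ ⟨i, k, rfl⟩
    have k1 : L i * γ ∈ (mv S L).dom i := mul_mem_tr.2 k
    have k2 := (h2 i γ k).trans (Sys.rel_φ k1)
    have e : (mv S L).φ i * (L i * γ) = L (S.inv i) * (S.φ i * γ) := by simp [mv, mul_assoc]
    rw [e] at k2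
    exact k2.trans (h2 _ _ (S.map i γ k)).symm

end D_slideA

open D_slideA in
theorem p_D_SLIDE :
    S_D_SLIDE := by
  classical
  intro A P ι _ S k B hk hk' hB hI
  obtain ⟨L, L1, L0⟩ : ∃ L : ι → Gm, (∀ i ∈ B, L i = S.φ k) ∧ ∀ i, i ∉ B → L i = 1 :=
    ⟨fun i => if i ∈ B then S.φ k else 1, fun i h => if_pos h, fun i h => if_neg h⟩
  have d0 : ∀ i, i ∉ B → (mv S L).dom i = S.dom i := fun i h => by
    change tr (L i) _ = _
    rw [L0 i h, tr_one]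
  have f0 : ∀ i, i ∉ B → S.inv i ∉ B → (mv S L).φ i = S.φ i := fun i h h' => by
    change L (S.inv i) * S.φ i * (L i)⁻¹ = _
    rw [L0 i h, L0 _ h']
    simp
  have ar : ∀ i, Ar A (S.φ i) (S.dom i) := P.arcs_of_intv hI
  have ar' : ∀ i ∈ B, Ar A (S.φ k) (S.dom i) := fun i h a b x y => ar k a b x (y.trans (hB i h))
  have a1 : ∀ i, Ar A (S.φ i * (L i)⁻¹) (tr (L i) (S.dom i)) := fun i => by
    by_cases h : i ∈ B
    · rw [L1 i h]
      exact ((ar' i h).inv P).comp P (ar i) (by rw [tr_tr, inv_mul_cancel, tr_one])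
    · rw [L0 i h, inv_one, mul_one, tr_one]
      exact ar i
  have a2 : ∀ i, Ar A ((mv S L).φ i) ((mv S L).dom i) := fun i => by
    change Ar A (L (S.inv i) * S.φ i * (L i)⁻¹) (tr (L i) (S.dom i))
    by_cases h : S.inv i ∈ B
    · rw [L1 _ h, mul_assoc]
      exact (a1 i).comp P (ar' _ h) (by rw [tr_tr, inv_mul_cancel_right, S.dom_inv])
    · rw [L0 _ h, one_mul]
      exact a1 i
  refine ⟨mv S L, rfl, fun i h => ?_, d0, f0, fun i => ?_, mv_rel S L (fun i γ h => ?_)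
    fun i γ h => ?_, Finset.sum_congr rfl fun i _ => mu_tr (S.co i) _⟩
  · change tr (L i) _ = _
    rw [L1 i h]
  · rcases hI i with h | ⟨u, v, h1, h2⟩
    · refine Or.inl ?_
      change tr (L i) (S.dom i) = ∅
      rw [h]
      rfl
    · obtain ⟨a, b, k1, k2⟩ := tr_GI' (L i) (P.lt _ _ _ h2)
      have e : (mv S L).dom i = GI a b := by rw [← k2, ← h1]; rfl
      exact Or.inr ⟨a, b, e, a2 i a b k1 e.ge⟩
  · by_cases c : i ∈ B
    · rw [L1 i c]
      exact Sys.rel_φ (hB i c h)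
    · rw [L0 i c, one_mul]
      exact Sys.Rel.refl _ _
  · by_cases c : i ∈ B
    · rw [L1 i c, ← f0 k hk hk']
      exact Sys.rel_φ (by rw [d0 k hk]; exact hB i c h)
    · rw [L0 i c, one_mul]
      exact Sys.Rel.refl _ _

end Pool.Agent.P.MP_dba3d2_lc


end

section

/-! Step D_TRIM of the stability project. -/

namespace Pool.Agent.P.MP_dba3d2_lc

open Set Filter Topology

namespace D_trimA

theorem mem_right {a t b : ℝ} {γ : Gm} (h1 : a ≤ t) (h2 : t ≤ b) :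
    γ ∈ GI t b ↔ γ ∈ GI a b ∧ γ ∉ GI a t := by
  refine ⟨fun h => ⟨GI_mono h1 le_rfl h, fun k => disjoint_left.1 (GI_disjoint le_rfl) k h⟩,
    fun h => ?_⟩
  have k := h.1
  rw [← GI_union h1 h2] at k
  exact k.resolve_left h.2

theorem mem_left {a t b : ℝ} {γ : Gm} (h1 : a ≤ t) (h2 : t ≤ b) :
    γ ∈ GI a t ↔ γ ∈ GI a b ∧ γ ∉ GI t b := by
  refine ⟨fun h => ⟨GI_mono le_rfl h2 h, fun k => disjoint_left.1 (GI_disjoint le_rfl) h k⟩,
    fun h => ?_⟩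
  have k := h.1
  rw [← GI_union h1 h2] at k
  exact k.resolve_right h.2

theorem intv_of_sub {A : Gm → ℝ → ℝ → Prop} {ι : Type} {S T : Sys ι} (h : T.Sub S)
    (k : S.Arcs A) (e : ∀ i, ∃ u v, T.dom i = GI u v) : T.Intv A := fun i => by
  obtain ⟨u, v, e1⟩ := e i
  rcases lt_or_ge u v with c | c
  · exact Or.inr ⟨u, v, e1, h.arcs k i u v c e1.ge⟩
  · exact Or.inl (e1.trans (GI_eq_empty c))

theorem arcs_of_intv {A : Gm → ℝ → ℝ → Prop} (P : PG A) {ι : Type} {S : Sys ι} (h : S.Intv A) :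
    S.Arcs A := fun i u v c k => by
  rcases h i with e | ⟨a, b, e, x⟩
  · exact absurd (GI_nonempty.2 c) (not_nonempty_iff_eq_empty.2 (subset_eq_empty k e))
  · have y := (GI_subset_iff c).1 (k.trans e.le)
    exact P.sub _ _ _ _ _ x y.1 c y.2

end D_trimA

open D_trimA in
theorem p_D_TRIM :
    S_D_TRIM := by
  classical
  intro A P Rn ι _ S k z z' b q hS hk zz zb zq ho hm
  obtain ⟨_, hIn, hI, hR⟩ := hS
  obtain ⟨T, hT⟩ := S.exists_cut k (U := GI z z') co_GI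
  have hsub : T.Sub S := hT.sub
  obtain ⟨e1, e2, hd⟩ := hT
  have hoth : ∀ i, i ≠ k → i ≠ S.inv k → T.dom i = S.dom i := fun i a c => by
    ext γ
    rw [hd]
    exact ⟨fun h => h.1, fun h => ⟨h, fun x => a x.1, fun x => c x.1⟩⟩
  have hne : S.inv k ≠ k → T.dom k = GI z' b := fun a => by
    ext γ
    rw [hd, hk, mem_right zz.le zb]
    exact ⟨fun h => ⟨h.1, fun x => h.2.1 ⟨rfl, x⟩⟩,
      fun h => ⟨h.1, fun x => h.2 x.2, fun x => a x.1.symm⟩⟩
  have hb : S.inv k = k → (S.φ k).ap z = b := fun a => by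
    have e := S.dom_inv k
    rw [a, hk, tr_GI_neg (hm a).1] at e
    exact (GI_inj (zz.trans_le zb) e).2.symm
  have hb' : S.inv k = k → b - (S.φ k).ap z' = z' - z := fun a => by
    rw [← hb a, Gm.ap_sub, (hm a).1]
    ring
  have hv : S.inv k = k → ∀ γ, S.φ k * γ ∈ GI z z' ↔ γ ∈ GI ((S.φ k).ap z') b := fun a γ => by
    have e : (S.φ k)⁻¹ = S.φ k := by rw [← S.φ_inv k, a]
    rw [← hb a, ← tr_GI_neg (hm a).1, mem_tr, e]
  have heq : S.inv k = k → T.dom k = GI z' ((S.φ k).ap z') := fun a => by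
    have c : (S.φ k).ap z' ≤ b := by linarith [hb' a]
    ext γ
    rw [hd, hk, hv a, mem_left (hm a).2 c, mem_right zz.le zb]
    exact ⟨fun h => ⟨⟨h.1, fun x => h.2.1 ⟨rfl, x⟩⟩, fun x => h.2.2 ⟨a.symm, x⟩⟩,
      fun h => ⟨h.1.1, fun x => h.1.2 x.2, fun x => h.2 x.2⟩⟩
  have hTin : T.In (GI z' q) := fun i γ h => by
    by_cases a : i = k
    · rw [hd] at h
      exact (mem_right zz.le zq.le).2 ⟨hIn i h.1, fun x => h.2.1 ⟨a, x⟩⟩
    · exact ho i a (hsub.2.2 i h)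
  have hdi : T.dom (S.inv k) = tr (S.φ k) (T.dom k) := by
    have e := T.dom_inv k
    rwa [e1, e2] at e
  have hmi : mu (T.dom (S.inv k)) = mu (T.dom k) := by
    have e := T.mu_dom_inv k
    rwa [e1] at e
  refine ⟨T, e1, e2, ⟨zq, hTin, intv_of_sub hsub (arcs_of_intv P hI) fun i => ?_,
    fun γ hγ β hβ => ?_⟩, ?_, hoth, hne, heq⟩
  · by_cases a : S.inv k = k
    · by_cases c : i = k
      · exact ⟨_, _, c ▸ heq a⟩
      · rw [hoth i c (a.symm ▸ c)]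
        rcases hI i with x | ⟨u, v, x, _⟩
        exacts [⟨0, 0, x.trans (GI_eq_empty le_rfl).symm⟩, ⟨u, v, x⟩]
    · by_cases c : i = k
      · exact ⟨_, _, c ▸ hne a⟩
      by_cases d : i = S.inv k
      · rw [d, hdi, hne a, tr_GI zb]
        exact ⟨_, _, rfl⟩
      · rw [hoth i c d]
        rcases hI i with x | ⟨u, v, x, _⟩
        exacts [⟨0, 0, x.trans (GI_eq_empty le_rfl).symm⟩, ⟨u, v, x⟩]
  · rw [← hR γ (GI_mono zz.le le_rfl hγ) β (GI_mono zz.le le_rfl hβ)]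
    refine ⟨hsub.rel, fun r => ?_⟩
    have hF : S.Forest (GI z' q) (GI z z') (fun _ => k) fun γ => if γ ∈ GI z z' then 1 else 0 := by
      refine ⟨fun α h => hk ▸ GI_mono le_rfl zb h, fun α h => ?_, fun α h => ?_⟩
      · have x : S.φ k * α ∉ GI z z' := fun x => by
          by_cases a : S.inv k = k
          · exact disjoint_left.1 (GI_disjoint (hm a).2) h ((hv a α).1 x)
          · exact disjoint_left.1 (GI_disjoint le_rfl) x
              (ho _ a (S.map k α (hk ▸ GI_mono le_rfl zb h)))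
        simp only [if_pos h, if_neg x, zero_lt_one]
      · exact if_neg fun x => disjoint_left.1 (GI_disjoint le_rfl) x h
    refine Sys.collapse hF ?_ e2 (fun i α h => ?_) hTin hγ hβ r
    · rw [union_comm, GI_union zz.le zq.le]
      exact hIn
    · by_cases x : i = k ∧ α ∈ GI z z'
      · exact Or.inr (Or.inl ⟨x.2, x.1⟩)
      by_cases y : i = S.inv k ∧ S.φ i * α ∈ GI z z'
      · exact Or.inr (Or.inr ⟨y.2, by rw [y.1, S.inv_inv]⟩)
      · exact Or.inl ((hd i α).2 ⟨h, x, y⟩)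
  · have e : ∑ i, (mu (S.dom i) - mu (T.dom i)) = 2 * (z' - z) := by
      by_cases a : S.inv k = k
      · rw [Finset.sum_eq_single k (fun i _ c => by rw [hoth i c (a.symm ▸ c), sub_self])
          fun x => absurd (Finset.mem_univ k) x, hk, heq a, mu_GI (zz.le.trans zb), mu_GI (hm a).2]
        linarith [hb' a]
      · rw [Finset.sum_eq_add_of_mem k (S.inv k) (Finset.mem_univ _) (Finset.mem_univ _)
          (Ne.symm a) fun i _ c => by rw [hoth i c.1 c.2, sub_self], hmi, S.mu_dom_inv, hk, hne a,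
          mu_GI (zz.le.trans zb), mu_GI zb]
        ring
    rw [Finset.sum_sub_distrib] at e
    unfold Sys.tot
    linarith

end Pool.Agent.P.MP_dba3d2_lc


end
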