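import Pool.Agent.P.MP_dba3d2_lcM.Db47
import Pool.Agent.P.MP_dba3d2_lcM.Db48
import Pool.Agent.P.MP_dba3d2_lcM.Db49
import Pool.Agent.P.MP_dba3d2_lcM.Db51

section

/-! Step D_LPSTEP of the stability project. -/

namespace Pool.Agent.P.MP_dba3d2_lc

open Set Filter Topology

namespace D_lpstepA

variable {A : Gm → ℝ → ℝ → Prop} {Rn : Gm → Gm → Prop} {p q z : ℝ} {ι : Type} {S : Sys ι}
  {α β : ι → ℝ} {i k : ι}

theorem dom_inv (S : Sys ι) (i : ι) : S.dom (S.inv i) = tr (S.φ i) (S.dom i) := by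
  ext γ
  refine ⟨fun h => ?_, fun h => ?_⟩
  · have := S.map _ _ h
    rwa [S.inv_inv, S.φ_inv] at this
  · simpa using S.map _ _ h

theorem tr_pos {φ : Gm} {a b u v : ℝ} (e : φ.ε = 1) (h : u < v) (k : GI u v = tr φ (GI a b)) :
    u = a + φ.c ∧ v = b + φ.c := by
  rw [tr_GI_pos e] at k
  simpa [Gm.ap, e] using GI_inj h k

theorem tr_neg {φ : Gm} {a b u v : ℝ} (e : φ.ε = -1) (h : u < v) (k : GI u v = tr φ (GI a b)) :
    u = φ.c - b ∧ v = φ.c - a := by
  rw [tr_GI_neg e] at k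
  have := GI_inj h k
  simp only [Gm.ap, e] at this
  constructor <;> linarith [this.1, this.2]

theorem ends_inv (E : S.Ends A z q α β) (i : ι) :
    GI (α (S.inv i)) (β (S.inv i)) = tr (S.φ i) (GI (α i) (β i)) := by
  rw [← (E _).2.2.2.1, ← (E _).2.2.2.1, dom_inv]

/-- a band whose two bases start at the same point is a reflection -/
theorem refl (E : S.Ends A z q α β) (C : S.Clean) (h : α (S.inv i) = α i) :
    (S.φ i).ε = -1 ∧ (S.φ i).c = α i + β i ∧ S.inv i = i := by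
  rcases (S.φ i).h with e | e
  · have := (tr_pos e (E _).2.1 (ends_inv E i)).1
    exact absurd (Gm.ext e (by simp only [Gm.one_c]; linarith)) (C.1 i)
  · obtain ⟨h1, h2⟩ := tr_neg e (E _).2.1 (ends_inv E i)
    refine ⟨e, by linarith, by_contra fun n => C.2 _ _ n ?_ ?_⟩
    · rw [S.φ_inv]
      exact Gm.ext rfl (by simp [e])
    · rw [(E _).2.2.2.1, (E _).2.2.2.1]
      exact GI_mono h.le (by linarith)

theorem start (hp : p ≤ z) (D : Dns Rn p q) (H : S.St A Rn z q) (E : S.Ends A z q α β) :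
    ∃ i, α i = z := by
  have h := H.1
  obtain ⟨γ, h1, h2⟩ := D (Gm.tau z) (tau_mem_GI.2 ⟨hp, h⟩) ((z + q) / 2) q (by linarith)
    (by linarith) le_rfl
  have r := (H.2.2.2 _ (tau_mem_GI.2 ⟨le_rfl, h⟩) γ (GI_mono (by linarith) le_rfl h1)).2 h2
  rcases Relation.ReflTransGen.cases_head r with e | ⟨_, ⟨i, hi, -⟩, -⟩
  · have := h1.1
    rw [← e, Gm.tau_c] at this
    linarith
  · rw [(E i).2.2.2.1] at hi
    exact ⟨i, le_antisymm (tau_mem_GI.1 hi).1 (E i).1⟩

theorem carrier [Finite ι] (S : Sys ι) (β : ι → ℝ) (h : ∃ i, α i = z) :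
    ∃ k, α k = z ∧ (∀ i, α i = z → β i ≤ β k) ∧
      (S.inv k = k → ∀ i, α i = z → β i = β k → S.inv i = i) := by
  obtain ⟨k, h1, h2⟩ := Set.exists_max_image {i | α i = z} β (Set.toFinite _) h
  by_cases e : ∃ i, α i = z ∧ β i = β k ∧ S.inv i ≠ i
  · obtain ⟨i, a, b, c⟩ := e
    exact ⟨i, a, fun j hj => b ▸ h2 j hj, fun n => absurd n c⟩
  · exact ⟨k, h1, h2, fun _ i a b => by_contra fun c => e ⟨i, a, b, c⟩⟩

/-- after the slide all other bases start to the right of `z` -/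
theorem right (E : S.Ends A z q α β) (C : S.Clean) (h1 : α k = z) (h2 : β i ≤ β k)
    (h3 : S.inv k = k → β i = β k → S.inv i = i) (hi : i ≠ k) (h4 : α i = z) {u v : ℝ}
    (h : u < v) (e : GI u v = tr (S.φ k) (GI (α i) (β i))) : z < u := by
  have z1 := (E (S.inv k)).1
  rcases (S.φ k).h with s | s
  · have a := (tr_pos s h e).1
    have b := (tr_pos s (E _).2.1 (ends_inv E k)).1
    refine lt_of_le_of_ne (by linarith) fun n => ?_
    have := (refl E C (i := k) (by linarith)).1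
    linarith
  · have a := (tr_neg s h e).1
    have b := (tr_neg s (E _).2.1 (ends_inv E k)).1
    refine lt_of_le_of_ne (by linarith) fun n => ?_
    obtain ⟨-, k2, k3⟩ := refl E C (i := k) (by linarith)
    have c : β i = β k := by linarith
    obtain ⟨i1, i2, -⟩ := refl E C (i := i) (by rw [h3 k3 c])
    refine C.2 i k hi (Gm.ext (i1.trans s.symm) (by linarith)) ?_
    rw [(E _).2.2.2.1, (E _).2.2.2.1]
    exact GI_mono (by linarith) c.ge

end D_lpstepA

open D_lpstepA in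
theorem p_D_LPSTEP (hD_LPCLEAN : S_D_LPCLEAN) (hD_SLIDE : S_D_SLIDE) (hD_TRIM : S_D_TRIM) :
    S_D_LPSTEP := by
  intro A hA Rn p q z ι _ S α β hp D H M E
  classical
  have C := (hD_LPCLEAN A Rn p q z ι S hp H M).1
  obtain ⟨k, k1, k2, k3⟩ := carrier S β (start hp D H E)
  have kB : k ∉ {i | i ≠ k ∧ α i = z} := fun h => h.1 rfl
  have iB : S.inv k ∉ {i | i ≠ k ∧ α i = z} := fun h =>
    h.1 (refl E C (h.2.trans k1.symm)).2.2
  have sub : ∀ i ∈ {i | i ≠ k ∧ α i = z}, S.dom i ⊆ S.dom k := fun i h => by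
    rw [(E _).2.2.2.1, (E _).2.2.2.1]
    exact GI_mono (k1.trans h.2.symm).le (k2 i h.2)
  obtain ⟨U, u1, u2, u3, u4, u5, u6, u7⟩ := hD_SLIDE A hA ι S k _ kB iB sub H.2.2.1
  have HU : U.St A Rn z q := by
    refine ⟨H.1, fun i => ?_, u5, fun γ a δ b => (u6 γ δ).trans (H.2.2.2 γ a δ b)⟩
    by_cases h : i ∈ {i | i ≠ k ∧ α i = z}
    · rw [u2 i h]
      exact (tr_mono (sub i h)).trans (dom_inv S k ▸ H.2.1 _)
    · exact u3 i h ▸ H.2.1 i
  obtain ⟨-, a, b, EU⟩ := hD_LPCLEAN A Rn p q z ι U hp HU M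
  have same : ∀ i, i ∉ {i | i ≠ k ∧ α i = z} → a i = α i ∧ b i = β i := fun i h =>
    GI_inj (EU i).2.1 (by rw [← (EU i).2.2.2.1, u3 i h, (E i).2.2.2.1])
  have rt : ∀ i, i ≠ k → z < a i := fun i hi => by
    by_cases h : α i = z
    · exact right E C k1 (k2 i h) (fun e => k3 e i h) hi h (EU i).2.1
        (by rw [← (EU i).2.2.2.1, u2 i ⟨hi, h⟩, (E i).2.2.2.1])
    · rw [(same i fun e => h e.2).1]
      exact lt_of_le_of_ne (E i).1 (Ne.symm h)
  have zk : z < β k := k1 ▸ (E k).2.1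
  obtain ⟨m, m1, m2⟩ : ∃ m, (S.inv k ≠ k → m = β k) ∧ (S.inv k = k → m = (z + β k) / 2) := by
    by_cases h : S.inv k = k
    · exact ⟨_, fun e => absurd h e, fun _ => rfl⟩
    · exact ⟨_, fun _ => rfl, fun e => absurd e h⟩
  have zm : z < m ∧ m ≤ β k := by
    by_cases h : S.inv k = k
    · rw [m2 h]; constructor <;> linarith
    · rw [m1 h]; exact ⟨zk, le_rfl⟩
  have : Nonempty ι := ⟨k⟩
  obtain ⟨j, hj⟩ := Finite.exists_min fun i => if i = k then m else a i
  obtain ⟨y, y1, y2, y3, y4⟩ : ∃ y, z < y ∧ y ≤ m ∧ (∀ i, i ≠ k → y ≤ a i) ∧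
      (y = m ∨ ∃ i, i ≠ k ∧ a i = y) := by
    refine ⟨if j = k then m else a j, ?_, by simpa using hj k, fun i h => by simpa [h] using hj i,
      ?_⟩
    · split_ifs with h
      exacts [zm.1, rt j h]
    · split_ifs with h
      exacts [Or.inl rfl, Or.inr ⟨j, h, rfl⟩]
  have φk : U.φ k = S.φ k := u4 k kB iB
  have rf : S.inv k = k → (S.φ k).ε = -1 ∧ (S.φ k).ap y = 2 * m - y := fun h => by
    obtain ⟨r1, r2, -⟩ := refl E C (i := k) (by rw [h])
    exact ⟨r1, by simp only [Gm.ap, r1, r2, m2 h, k1]; ring⟩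
  have yq : y < q := by
    by_cases h : S.inv k = k
    · linarith [m2 h, (E k).2.2.1]
    · exact (y3 _ h).trans_lt ((EU _).2.1.trans_le (EU _).2.2.1)
  obtain ⟨T, t1, t2, t3, t4, t5, t6, t7⟩ := hD_TRIM A hA Rn ι U k z y (β k) q HU
    (by rw [u3 k kB, (E k).2.2.2.1, k1]) y1 (y2.trans zm.2) yq
    (fun i h => by rw [(EU i).2.2.2.1]; exact GI_mono (y3 i h) (EU i).2.2.1)
    (fun h => by
      rw [u1] at h
      rw [φk, (rf h).2]
      exact ⟨(rf h).1, by linarith⟩)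
  rw [u1] at t5 t6 t7
  rw [φk] at t7
  obtain ⟨-, α', β', ET⟩ := hD_LPCLEAN A Rn p q y ι T (hp.trans y1.le) t3 M
  have c1 := fun h => GI_inj (ET k).2.1 ((ET k).2.2.2.1.symm.trans (t6 h))
  have c2 := fun h => GI_inj (ET k).2.1 ((ET k).2.2.2.1.symm.trans (t7 h))
  have c3 : ∀ i, i ≠ k → i ≠ S.inv k → α' i = a i ∧ β' i = b i := fun i h h' =>
    GI_inj (ET i).2.1 (by rw [← (ET i).2.2.2.1, t5 i h h', (EU i).2.2.2.1])
  have ne : y ≠ m := fun e => by
    have := (ET k).2.1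
    by_cases h : S.inv k = k
    · linarith [(c2 h).1, (c2 h).2, (rf h).2]
    · linarith [(c1 h).1, (c1 h).2, m1 h]
  refine ⟨T, α', β', y, k, t3, ET, t1.trans u1, y1, k1, k2, by rw [t2, φk],
    (em (S.inv k = k)).elim (fun h => (c2 h).1) fun h => (c1 h).1, fun h => (c1 h).2,
    fun h => (c2 h).2, fun i h h' => ?_, fun i h h' h'' => ?_,
    fun i h h' => by rw [t2, u4 i (fun e => h e.2) fun e => h' e.2], ?_, by rw [t4, u7]⟩
  · have n : i ≠ S.inv k := fun e => iB (e ▸ ⟨h, h'⟩)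
    exact ⟨n, by rw [t5 i h n, u2 i ⟨h, h'⟩]⟩
  · have := same i fun e => h'' e.2
    exact ⟨(c3 i h h').1.trans this.1, (c3 i h h').2.trans this.2⟩
  · obtain ⟨i, h, e⟩ := y4.resolve_left ne
    by_cases n : i = S.inv k
    · exact Or.inr ⟨n ▸ h, by rw [← (same _ iB).1, ← n, e]⟩
    · exact Or.inl ⟨i, h, (c3 i h n).1.trans e⟩

end Pool.Agent.P.MP_dba3d2_lc


end

section

/-! Step D_LPA of the stability project. -/

namespace Pool.Agent.P.MP_dba3d2_lc

open Set Filter Topology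

namespace D_lpaA

variable {A : Gm → ℝ → ℝ → Prop} {ι : Type}

theorem dinv (S : Sys ι) (i : ι) : S.dom (S.inv i) = tr (S.φ i) (S.dom i) := by
  ext γ
  constructor
  · intro h
    have := S.map _ _ h
    rw [S.inv_inv, S.φ_inv] at this
    exact this
  · intro h
    have := S.map _ _ (mem_tr.1 h)
    simpa using this

theorem tr_pos {φ : Gm} {a b u v : ℝ} (e : φ.ε = 1) (h : u < v) (k : GI u v = tr φ (GI a b)) :
    u = a + φ.c ∧ v = b + φ.c := by
  rw [tr_GI_pos e] at k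
  have := GI_inj h k
  simpa [Gm.ap, e] using this

theorem tr_neg {φ : Gm} {a b u v : ℝ} (e : φ.ε = -1) (h : u < v) (k : GI u v = tr φ (GI a b)) :
    u = φ.c - b ∧ v = φ.c - a := by
  rw [tr_GI_neg e] at k
  have := GI_inj h k
  simp only [Gm.ap, e] at this
  exact ⟨by linarith [this.1], by linarith [this.2]⟩

/-- the hypotheses on the process -/
structure Pr (A : Gm → ℝ → ℝ → Prop) (q : ℝ) [Fintype ι] (S : ℕ → Sys ι) (α β : ℕ → ι → ℝ)
    (z : ℕ → ℝ) (k : ℕ → ι) : Prop where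
  pg : PG A
  en : ∀ n, (S n).Ends A (z n) q (α n) (β n)
  cl : ∀ n, (S n).Clean
  st : ∀ n, LPStep (S n) (α n) (β n) (z n) (S (n + 1)) (α (n + 1)) (β (n + 1)) (z (n + 1)) (k n)

variable [Fintype ι] {q : ℝ} {S : ℕ → Sys ι} {α β : ℕ → ι → ℝ} {z : ℕ → ℝ} {k : ℕ → ι}

namespace Pr

theorem inv_eq (H : Pr A q S α β z k) (n : ℕ) : (S n).inv = (S 0).inv := by
  induction n with
  | zero => rfl
  | succ n ih => rw [(H.st n).inv, ih]

theorem lo (H : Pr A q S α β z k) (n : ℕ) (i : ι) : z n ≤ α n i := (H.en n i).1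
theorem ab (H : Pr A q S α β z k) (n : ℕ) (i : ι) : α n i < β n i := (H.en n i).2.1
theorem hi (H : Pr A q S α β z k) (n : ℕ) (i : ι) : β n i ≤ q := (H.en n i).2.2.1
theorem dm (H : Pr A q S α β z k) (n : ℕ) (i : ι) : (S n).dom i = GI (α n i) (β n i) :=
  (H.en n i).2.2.2.1
theorem ar (H : Pr A q S α β z k) (n : ℕ) (i : ι) : A ((S n).φ i) (α n i) (β n i) :=
  (H.en n i).2.2.2.2

theorem pos (H : Pr A q S α β z k) {n : ℕ} {i : ι} (e : ((S n).φ i).ε = 1) :
    α n ((S 0).inv i) = α n i + ((S n).φ i).c ∧ β n ((S 0).inv i) = β n i + ((S n).φ i).c := by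
  refine tr_pos e (H.ab n _) ?_
  rw [← H.dm, ← H.dm, ← H.inv_eq n, dinv]

theorem neg (H : Pr A q S α β z k) {n : ℕ} {i : ι} (e : ((S n).φ i).ε = -1) :
    α n ((S 0).inv i) = ((S n).φ i).c - β n i ∧ β n ((S 0).inv i) = ((S n).φ i).c - α n i := by
  refine tr_neg e (H.ab n _) ?_
  rw [← H.dm, ← H.dm, ← H.inv_eq n, dinv]

theorem zmono (H : Pr A q S α β z k) : StrictMono z :=
  strictMono_nat_of_lt_succ fun n => (H.st n).lt

theorem zle (H : Pr A q S α β z k) (n : ℕ) : z n ≤ q :=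
  (H.lo n (k n)).trans ((H.ab n _).le.trans (H.hi n _))

theorem self_neg (H : Pr A q S α β z k) {n : ℕ} {i : ι} (h : (S 0).inv i = i) :
    ((S n).φ i).ε = -1 := by
  refine ((S n).φ i).h.resolve_left fun e => (H.cl n).1 i ?_
  have := (H.pos e).1
  rw [h] at this
  exact Gm.ext e (by simpa using this)

theorem slpos (H : Pr A q S α β z k) {n : ℕ} {i : ι} (h1 : i ≠ k n) (h2 : α n i = z n)
    (e : ((S n).φ (k n)).ε = 1) : α (n + 1) i = α n i + ((S n).φ (k n)).c := by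
  refine (tr_pos (b := β n i) e (H.ab (n + 1) i) ?_).1
  rw [← H.dm, ← H.dm, ((H.st n).sl i h1 h2).2]

theorem slneg (H : Pr A q S α β z k) {n : ℕ} {i : ι} (h1 : i ≠ k n) (h2 : α n i = z n)
    (e : ((S n).φ (k n)).ε = -1) :
    α (n + 1) i = ((S n).φ (k n)).c - β n i ∧ β (n + 1) i = ((S n).φ (k n)).c - α n i := by
  refine tr_neg e (H.ab (n + 1) i) ?_
  rw [← H.dm, ← H.dm, ((H.st n).sl i h1 h2).2]

theorem cb (H : Pr A q S α β z k) {n : ℕ} (h : (S 0).inv (k n) ≠ k n) :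
    β (n + 1) (k n) = β n (k n) := (H.st n).cβ (by rwa [H.inv_eq n])

/-- an orientation reversing carrier keeps the left end of its dual base -/
theorem keep (H : Pr A q S α β z k) {n : ℕ} (h : (S 0).inv (k n) ≠ k n)
    (e : ((S n).φ (k n)).ε = -1) : α (n + 1) ((S 0).inv (k n)) = α n ((S 0).inv (k n)) := by
  have e' : ((S (n + 1)).φ (k n)).ε = -1 := by rw [(H.st n).cφ, e]
  rw [(H.neg e').1, (H.neg e).1, (H.st n).cφ, H.cb h]

theorem stay (H : Pr A q S α β z k) {n : ℕ} {i : ι} (h1 : α n i ≠ z n)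
    (h2 : k n ≠ (S 0).inv i) : α (n + 1) i = α n i ∧ β (n + 1) i = β n i := by
  refine (H.st n).st i (fun e => h1 (e ▸ (H.st n).at')) (fun e => h2 ?_) h1
  rw [e, H.inv_eq n, (S 0).inv_inv]

theorem amono (H : Pr A q S α β z k) (i : ι) : Monotone fun n => α n i := by
  refine monotone_nat_of_le_succ fun n => ?_
  by_cases h1 : α n i = z n
  · rw [h1]; exact (H.st n).lt.le.trans (H.lo _ _)
  by_cases h2 : k n = (S 0).inv i
  · have h3 : i = (S 0).inv (k n) := by rw [h2, (S 0).inv_inv]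
    have h4 : (S 0).inv (k n) ≠ k n := fun e => h1 (by rw [h3, e]; exact (H.st n).at')
    rcases ((S n).φ (k n)).h with e | e
    · have e' : ((S (n + 1)).φ (k n)).ε = 1 := by rw [(H.st n).cφ, e]
      rw [h3, (H.pos e').1, (H.pos e).1, (H.st n).cφ, (H.st n).cα, (H.st n).at']
      linarith [(H.st n).lt]
    · rw [h3, H.keep h4 e]
  · exact (H.stay h1 h2).1.ge

end Pr

/-- the late part of the process, with the limit `w` of the left ends -/
structure Cx (A : Gm → ℝ → ℝ → Prop) (q : ℝ) (S : ℕ → Sys ι) (α β : ℕ → ι → ℝ)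
    (z : ℕ → ℝ) (k : ℕ → ι) (w e₀ : ℝ) (M : ℕ) : Prop extends Pr A q S α β z k where
  zw : ∀ n, z n < w
  lim : ∀ x, x < w → ∃ n, x < z n
  low : ∀ n, M ≤ n → ∀ i, α n i < w → ∀ m, α m i < w
  sm : ∀ t u v, A (Gm.tau t) u v → e₀ / 4 ≤ v - u → |t| ≤ 10 * (w - z M) → t = 0
  dd : 20 * (w - z M) ≤ e₀

variable {w e₀ : ℝ} {M : ℕ}

namespace Cx

theorem zM (H : Cx A q S α β z k w e₀ M) {m : ℕ} (h : M ≤ m) (i : ι) : z M ≤ α m i :=
  (H.toPr.zmono.monotone h).trans (H.toPr.lo m i)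

theorem F1 (H : Cx A q S α β z k w e₀ M) {m : ℕ} {i : ι} (hm : M ≤ m) (h1 : α m i < w)
    (h2 : α m ((S 0).inv i) < w) (h3 : e₀ / 4 ≤ β m i - α m i) : ((S m).φ i).ε = -1 := by
  refine ((S m).φ i).h.resolve_left fun e => (H.cl m).1 i ?_
  have k1 := (H.toPr.pos e).1
  have k2 := H.zM hm i
  have k3 := H.zM hm ((S 0).inv i)
  have k4 := H.zw M
  have k5 := H.toPr.ar m i
  rw [Gm.eq_tau e] at k5
  have := H.sm _ _ _ k5 h3 (abs_le.2 ⟨by linarith, by linarith⟩)
  exact Gm.ext e this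

theorem F2 (H : Cx A q S α β z k w e₀ M) {m n : ℕ} {i j : ι} (hm : M ≤ m) (hn : M ≤ n)
    (h1 : α m i < w) (h2 : α m ((S 0).inv i) < w) (g1 : α n j < w) (g2 : α n ((S 0).inv j) < w)
    (h3 : e₀ ≤ β n j - α n j) (h4 : β n j - α n j - (w - z M) ≤ β m i - α m i)
    (h5 : β m i - α m i ≤ β n j - α n j + (w - z M)) :
    (S m).φ i = (S n).φ j := by
  have k4 := H.zw M
  have k5 := H.dd
  have e := H.F1 hm h1 h2 (by linarith)
  have e' := H.F1 hn g1 g2 (by linarith)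
  have a1 := H.toPr.neg e
  have a2 := H.toPr.neg e'
  have b1 := H.zM hm i
  have b2 := H.zM hm ((S 0).inv i)
  have b3 := H.zM hn j
  have b4 := H.zM hn ((S 0).inv j)
  have c1 : A ((S n).φ j) (((S n).φ j).c - (w + (β n j - α n j) - 2 * (w - z M)))
      (((S n).φ j).c - w) :=
    H.pg.sub _ _ _ _ _ (H.toPr.ar n j) (by linarith [a2.1]) (by linarith) (by linarith [a2.1])
  have c2 := H.pg.comp _ _ _ _ _ _ c1 (H.toPr.ar m i) fun t ht => by
    simp only [Gm.ap, e']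
    exact ⟨by linarith [ht.2], by linarith [ht.1]⟩
  have c3 : (S m).φ i * (S n).φ j = Gm.tau (((S m).φ i).c - ((S n).φ j).c) :=
    Gm.ext (by simp [e, e']) (by simp [e]; ring)
  rw [c3] at c2
  have := H.sm _ _ _ c2 (by linarith)
    (abs_le.2 ⟨by linarith [a1.1, a2.1], by linarith [a1.1, a2.1]⟩)
  exact Gm.ext (e.trans e'.symm) (by linarith)

theorem F3a (H : Cx A q S α β z k w e₀ M) {m : ℕ} (hm : M ≤ m)
    (h : e₀ / 2 ≤ β (m + 1) (k (m + 1)) - α (m + 1) (k (m + 1))) :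
    ∃ B, B ≠ k (m + 1) ∧ α (m + 1) B = z (m + 1) := by
  by_cases h0 : k m = k (m + 1)
  swap
  · exact ⟨k m, h0, (H.st m).cα⟩
  rcases (H.st m).nx with ⟨i, h1, h2⟩ | ⟨h1, h2⟩
  · exact ⟨i, h0 ▸ h1, h2⟩
  · rw [H.toPr.inv_eq m] at h1 h2
    have k1 := (H.st m).at'
    have k2 := (H.st m).cα
    have k3 := H.toPr.cb h1
    have k4 := (H.st m).lt
    have k5 := H.zw M
    have k6 := H.dd
    rw [← h0] at h
    have e := H.F1 (i := k m) hm (by rw [k1]; exact H.zw m) (by rw [h2]; exact H.zw _)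
      (by linarith)
    exact ⟨(S 0).inv (k m), h0 ▸ h1, (H.toPr.keep h1 e).trans h2⟩

theorem F3b (H : Cx A q S α β z k w e₀ M) {m : ℕ} (hm : M ≤ m)
    (h : e₀ / 2 ≤ β m (k m) - α m (k m)) {B : ι} (h1 : B ≠ k m) (h2 : α m B = z m) :
    α m ((S 0).inv (k m)) < w ∧ β m (k m) - (w - z M) ≤ β m B := by
  have k1 := (H.st m).at'
  have k2 := H.low m hm B (by rw [h2]; exact H.zw m) (m + 1)
  have k5 := H.zw M
  have k6 := H.dd
  have e : ((S m).φ (k m)).ε = -1 := by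
    refine ((S m).φ (k m)).h.resolve_left fun e => ?_
    have a1 := H.toPr.slpos h1 h2 e
    have a2 := (H.toPr.pos e).1
    have := H.F1 (i := k m) hm (by rw [k1]; exact H.zw m) (by linarith) (by linarith)
    rw [e] at this
    norm_num at this
  have a1 := (H.toPr.slneg h1 h2 e).1
  have a2 := (H.toPr.neg e).1
  have a3 := (H.st m).max B h2
  have a4 := H.zM hm ((S 0).inv (k m))
  exact ⟨by linarith, by linarith⟩

/-- a low base does not rest for ever -/
theorem wake (H : Cx A q S α β z k w e₀ M) {n : ℕ} {B : ι} (h : α n B < w) :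
    ∃ m, n ≤ m ∧ α m B = α n B ∧ β m B = β n B ∧ (α m B = z m ∨ k m = (S 0).inv B) := by
  by_contra hc
  have key : ∀ j, α (n + j) B = α n B ∧ β (n + j) B = β n B := by
    intro j
    induction j with
    | zero => exact ⟨rfl, rfl⟩
    | succ j ih =>
      have := H.toPr.stay (n := n + j) (i := B)
        (fun e => hc ⟨n + j, Nat.le_add_right _ _, ih.1, ih.2, Or.inl e⟩)
        (fun e => hc ⟨n + j, Nat.le_add_right _ _, ih.1, ih.2, Or.inr e⟩)
      exact ⟨this.1.trans ih.1, this.2.trans ih.2⟩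
  obtain ⟨j, hj⟩ := H.lim _ h
  have k1 := H.toPr.lo (n + j) B
  have k2 := H.toPr.zmono.monotone (Nat.le_add_left j n)
  have k3 := (key j).1
  linarith

theorem short (H : Cx A q S α β z k w e₀ M) {p : ℕ} (hp : M ≤ p) :
    β (p + 1) (k (p + 1)) - α (p + 1) (k (p + 1)) < e₀ := by
  by_contra hl
  rw [not_lt] at hl
  have k5 := H.zw M
  have k6 := H.dd
  obtain ⟨B, b1, b2⟩ := H.F3a hp (by linarith)
  have hn : M ≤ p + 1 := hp.trans (Nat.le_succ p)
  generalize p + 1 = n at hl b1 b2 hn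
  have a0 := (H.st n).at'
  have a0' : α n (k n) < w := by rw [a0]; exact H.zw n
  obtain ⟨a1, a2⟩ := H.F3b hn (by linarith) b1 b2
  have a3 := (H.st n).max B b2
  have e := H.F1 hn a0' a1 (by linarith)
  have lB : ∀ m, α m B < w := H.low n hn B (by rw [b2]; exact H.zw n)
  obtain ⟨s1, s2⟩ := H.toPr.slneg b1 b2 e
  obtain ⟨m, m1, m2, m3, m4⟩ := H.wake (lB (n + 1))
  have hm : M ≤ m := hn.trans ((Nat.le_succ n).trans m1)
  have zz : z n < z m := H.toPr.zmono m1
  have c0 := (H.st m).at'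
  have c0' : α m (k m) < w := by rw [c0]; exact H.zw m
  rcases m4 with m4 | m4
  · have c3 := (H.st m).max B m4
    have c1 : α m ((S 0).inv (k m)) < w ∧ β m (k m) - (w - z M) ≤ β m B := by
      by_cases hk : B = k m
      · obtain ⟨r, rfl⟩ : ∃ r, m = r + 1 := ⟨m - 1, by omega⟩
        obtain ⟨B', b1', b2'⟩ := H.F3a (m := r) (by omega) (by linarith)
        exact ⟨(H.F3b hm (by linarith) b1' b2').1, by rw [hk]; linarith⟩
      · exact H.F3b hm (by linarith) hk m4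
    have c2 := H.F2 hm hn c0' c1.1 a0' a1 hl (by linarith) (by linarith [c1.2])
    have e' : ((S m).φ (k m)).ε = -1 := by rw [c2, e]
    have c4 := (H.toPr.neg e').1
    have c5 := H.toPr.lo m ((S 0).inv (k m))
    rw [c2] at c4
    linarith
  · have c2 := H.F2 (i := B) hm hn (lB m) (by rw [← m4]; exact c0') a0' a1 hl (by linarith)
      (by linarith)
    have e' : ((S m).φ B).ε = -1 := by rw [c2, e]
    have c4 := (H.toPr.neg e').1
    rw [c2, ← m4] at c4
    linarith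

end Cx

end D_lpaA

open D_lpaA in
theorem p_D_LPA :
    S_D_LPA := by
  intro A hA q ι _ S α β z k h1 h2 h3
  have H : Pr A q S α β z k := ⟨hA, h1, h2, h3⟩
  have hb : BddAbove (range z) := ⟨q, by rintro _ ⟨n, rfl⟩; exact H.zle n⟩
  have zw : ∀ n, z n < ⨆ n, z n := fun n => (h3 n).lt.trans_le (le_ciSup hb (n + 1))
  have lim : ∀ x, x < ⨆ n, z n → ∃ n, x < z n := fun x hx => exists_lt_of_lt_ciSup hx
  generalize ⨆ n, z n = w at zw lim
  have h0 : ∀ i, ∃ N, ∀ n, N ≤ n → α n i < w → ∀ m, α m i < w := by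
    intro i
    by_cases hc : ∀ m, α m i < w
    · exact ⟨0, fun _ _ _ => hc⟩
    · push Not at hc
      obtain ⟨N, hN⟩ := hc
      exact ⟨N, fun n hn k => absurd (hN.trans (H.amono i hn)) (not_le.2 k)⟩
  choose N hN using h0
  refine Metric.tendsto_atTop.2 fun e₀ he => ?_
  obtain ⟨e₁, he1, hs⟩ := hA.small (e₀ / 4) (by positivity)
  obtain ⟨M₁, hM⟩ := lim (w - min (e₀ / 20) (e₁ / 10)) (sub_lt_self _ (by positivity))
  have hm := H.zmono.monotone (le_max_left M₁ (Finset.univ.sup N))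
  have k1 := min_le_left (e₀ / 20) (e₁ / 10)
  have k2 := min_le_right (e₀ / 20) (e₁ / 10)
  have C : Cx A q S α β z k w e₀ (max M₁ (Finset.univ.sup N)) :=
    { H with
      zw := zw
      lim := lim
      low := fun n hn i => hN i n
        ((Finset.le_sup (f := N) (Finset.mem_univ i)).trans ((le_max_right _ _).trans hn))
      sm := fun t u v a b c => hs t u v a b (by linarith)
      dd := by linarith }
  refine ⟨max M₁ (Finset.univ.sup N) + 1, fun n hn => ?_⟩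
  obtain ⟨p, rfl⟩ : ∃ p, n = p + 1 := ⟨n - 1, by omega⟩
  rw [Real.dist_eq, sub_zero, abs_of_pos (sub_pos.2 (H.ab _ _))]
  exact C.short (by omega)

end Pool.Agent.P.MP_dba3d2_lc


end

section

/-! Step D_FOREST of the stability project. -/

namespace Pool.Agent.P.MP_dba3d2_lc

open Set Filter Topology

namespace D_forestA

variable {ι : Type} {S : Sys ι} {U V : Set Gm} {γ : Gm}

/-- the distance to `U` -/
noncomputable def ht (S : Sys ι) (U : Set Gm) (γ : Gm) : ℕ := sInf {n | ∃ β ∈ U, S.Near n γ β}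

/-- the edges that go down -/
def Dn (S : Sys ι) (U : Set Gm) (γ : Gm) (i : ι) : Prop :=
  γ ∈ S.dom i ∧ ht S U (S.φ i * γ) < ht S U γ

theorem ht_zero (h : γ ∈ U) : ht S U γ = 0 :=
  Nat.eq_zero_of_le_zero (Nat.sInf_le ⟨γ, h, rfl⟩)

theorem ht_loc [Finite ι] (hU : CO U) (h : ∃ β ∈ U, S.Rel γ β) :
    ∀ᶠ α in 𝓝 γ, ht S U α = ht S U γ := by
  obtain ⟨β, h1, h2⟩ := h
  obtain ⟨n, h3⟩ := h2.near
  have hm : ht S U γ ∈ {n | ∃ β ∈ U, S.Near n γ β} := Nat.sInf_mem ⟨n, β, h1, h3⟩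
  have e1 : ∀ᶠ α in 𝓝 γ, ∃ β ∈ U, S.Near (ht S U γ) α β :=
    (S.isClopen_near hU _).isOpen.mem_nhds hm
  have e2 : ∀ᶠ α in 𝓝 γ, ∀ m ∈ Iio (ht S U γ), ¬∃ β ∈ U, S.Near m α β :=
    (eventually_all_finite (finite_Iio _)).2 fun m hm' =>
      (S.isClopen_near hU m).isClosed.isOpen_compl.mem_nhds (Nat.notMem_of_lt_sInf hm')
  filter_upwards [e1, e2] with α a1 a2
  refine le_antisymm (Nat.sInf_le a1) (not_lt.1 fun a => a2 _ a ?_)
  exact Nat.sInf_mem (s := {n | ∃ β ∈ U, S.Near n α β}) ⟨_, a1⟩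

theorem exists_dn (h0 : γ ∉ U) (h : ∃ β ∈ U, S.Rel γ β) : ∃ i, Dn S U γ i := by
  obtain ⟨β, h1, h2⟩ := h
  obtain ⟨n, h3⟩ := h2.near
  obtain ⟨β', k1, k2⟩ : ht S U γ ∈ {n | ∃ β ∈ U, S.Near n γ β} := Nat.sInf_mem ⟨n, β, h1, h3⟩
  rcases e : ht S U γ with _ | m
  · rw [e] at k2
    exact absurd ((show γ = β' from k2) ▸ k1) h0
  · rw [e] at k2
    rcases k2 with k2 | ⟨α, ⟨i, a1, rfl⟩, k2⟩
    · have : ht S U γ ≤ m := Nat.sInf_le ⟨β', k1, k2⟩
      omega
    · have : ht S U (S.φ i * γ) ≤ m := Nat.sInf_le ⟨β', k1, k2⟩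
      exact ⟨i, a1, by omega⟩

theorem dn_loc [Finite ι] (hU : CO U) (h : ∃ β ∈ U, S.Rel γ β) :
    ∀ᶠ α in 𝓝 γ, Dn S U α = Dn S U γ := by
  have key : ∀ i, ∀ᶠ α in 𝓝 γ, (Dn S U α i ↔ Dn S U γ i) := by
    intro i
    by_cases hi : γ ∈ S.dom i
    · obtain ⟨β, h1, h2⟩ := h
      have e1 := (continuous_gm_mul (S.φ i)).continuousAt.eventually
        (ht_loc hU ⟨β, h1, (Sys.rel_φ hi).symm.trans h2⟩)
      filter_upwards [e1, ht_loc hU ⟨β, h1, h2⟩, (S.co i).2.mem_nhds hi] with α a1 a2 a3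
      simp only [Dn, a1, a2, hi, show α ∈ S.dom i from a3]
    · filter_upwards [(S.co i).isClosed.isOpen_compl.mem_nhds hi] with α a1
      exact ⟨fun a => absurd a.1 a1, fun a => absurd a.1 hi⟩
  filter_upwards [eventually_all.2 key] with α a
  exact funext fun i => propext (a i)

end D_forestA

open D_forestA in
theorem p_D_FOREST :
    S_D_FOREST := by
  intro ι _ _ S U V hU hV hUV _ hr
  let par : Gm → ι := fun γ => Classical.epsilon (Dn S U γ)
  have hpar : ∀ γ ∈ V, Dn S U γ (par γ) := fun γ h =>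
    Classical.epsilon_spec (exists_dn (fun a => disjoint_left.1 hUV a h) (hr γ h))
  refine ⟨par, ht S U, ⟨fun γ h => (hpar γ h).1, fun γ h => (hpar γ h).2, fun γ h => ht_zero h⟩,
    fun T hT hTU => ?_⟩
  let F : ι → Set Gm := fun i => {γ | γ ∈ V ∧ par γ = i}
  have hF : ∀ i, CO (F i) := fun i => hV.sep fun γ h => by
    filter_upwards [dn_loc hU (hr γ h)] with α a
    simp only [par, a]
  have hFd : ∀ i, ∀ γ ∈ F i, Dn S U γ i := fun i γ h => h.2 ▸ hpar γ h.1
  let G : ι → Set Gm := fun i => tr (S.φ i)⁻¹ (F (S.inv i))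
  have hG : ∀ i γ, γ ∈ G i ↔ S.φ i * γ ∈ F (S.inv i) := fun i γ => by simp [G]
  have hGc : ∀ i, CO (G i) := fun i => (hF _).tr _
  have hsum : ∑ i, mu (F i) = mu V := by
    rw [← mu_iUnion hF fun i j hij => disjoint_left.2 fun γ a b => hij (a.2.symm.trans b.2)]
    congr 1
    ext γ
    simp [F]
  have hsum2 : ∑ i, mu (G i) = mu V := by
    rw [← hsum, ← Equiv.sum_comp (Function.Involutive.toPerm S.inv S.inv_inv) fun i => mu (F i)]
    exact Finset.sum_congr rfl fun i _ => mu_tr (hF _) _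
  have hco : ∀ i, CO (T.dom i ∪ F i ∪ G i) := fun i => ((T.co i).union (hF i)).union (hGc i)
  have hsub : ∀ i, T.dom i ∪ F i ∪ G i ⊆ S.dom i := fun i =>
    union_subset (union_subset (hT.2.2 i) fun γ h => (hFd i γ h).1) fun γ h =>
      Sys.mem_dom_inv.1 (hFd _ _ ((hG i γ).1 h)).1
  have hmu : ∀ i, mu (T.dom i ∪ F i ∪ G i) = mu (T.dom i) + mu (F i) + mu (G i) := by
    intro i
    rw [mu_union ((T.co i).union (hF i)) (hGc i), mu_union (T.co i) (hF i)]
    · exact disjoint_left.2 fun γ a b => disjoint_left.1 hUV (hTU i a) b.1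
    · refine disjoint_left.2 fun γ a b => ?_
      have b' := (hG i γ).1 b
      rcases a with a | a
      · have := hTU _ (T.map i γ a)
        rw [hT.2.1] at this
        exact disjoint_left.1 hUV this b'.1
      · have h1 := (hFd _ _ b').2
        rw [S.φ_inv_mul] at h1
        exact lt_asymm h1 (hFd _ _ a).2
  have htot : ∑ i, mu (T.dom i ∪ F i ∪ G i) = T.tot + 2 * mu V := by
    simp only [hmu, Finset.sum_add_distrib, hsum, hsum2, Sys.tot]
    ring
  have hle : ∀ i ∈ Finset.univ, mu (T.dom i ∪ F i ∪ G i) ≤ mu (S.dom i) := fun i _ =>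
    mu_mono (S.co i) (hsub i)
  refine ⟨htot ▸ Finset.sum_le_sum hle, fun h i γ hγ => ?_⟩
  have e := (Finset.sum_eq_sum_iff_of_le hle).1
    (le_antisymm (Finset.sum_le_sum hle) (htot ▸ h)) i (Finset.mem_univ i)
  rw [← eq_of_mu_le (hco i) (S.co i) (hsub i) e.ge] at hγ
  rcases hγ with (a | a) | a
  · exact Or.inl a
  · exact Or.inr (Or.inl ⟨a.1, a.2.symm⟩)
  · have a' := (hG i γ).1 a
    exact Or.inr (Or.inr ⟨a'.1, a'.2.symm⟩)

end Pool.Agent.P.MP_dba3d2_lc


end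

section

/-! Step D_LPB of the stability project. -/

namespace Pool.Agent.P.MP_dba3d2_lc

open Set Filter Topology

namespace D_lpbA

variable {ι : Type} {A : Gm → ℝ → ℝ → Prop} {S T : Sys ι} {α β α' β' : ι → ℝ} {z z' q : ℝ} {k : ι}

theorem mu_dom (h : S.Ends A z q α β) (i : ι) : mu (S.dom i) = β i - α i := by
  rw [(h i).2.2.2.1, mu_GI (h i).2.1.le]

theorem len_inv (h : S.Ends A z q α β) (i : ι) : β (S.inv i) - α (S.inv i) = β i - α i := by
  rw [← mu_dom h, ← mu_dom h, S.mu_dom_inv]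

/-- the bands do not become longer -/
theorem len_le [Fintype ι] (h : S.Ends A z q α β) (h' : T.Ends A z' q α' β')
    (H : LPStep S α β z T α' β' z' k) (i : ι) : β' i - α' i ≤ β i - α i := by
  have hk : β' k - α' k ≤ β k - α k := by
    have a1 := H.lt
    have a2 := H.at'
    have a3 := H.cα
    by_cases e : S.inv k = k
    · have a4 := H.cm e
      have a5 := (h' k).2.1
      have a6 := S.dom_inv k
      rw [e, (h k).2.2.2.1] at a6
      rcases (S.φ k).h with b | b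
      · have := (GI_inj (h k).2.1 (a6.trans (tr_GI_pos b))).1
        simp only [Gm.ap, b] at this a4
        linarith
      · have := (GI_inj (h k).2.1 (a6.trans (tr_GI_neg b))).2
        simp only [Gm.ap, b] at this a4
        linarith
    · linarith [H.cβ e]
  by_cases e : i = k
  · rwa [e]
  by_cases e' : i = S.inv k
  · rwa [e', len_inv h, ← H.inv, len_inv h']
  by_cases e'' : α i = z
  · rw [← mu_dom h, ← mu_dom h', (H.sl i e e'').2, mu_tr (S.co i)]
  · rw [(H.st i e e' e'').1, (H.st i e e' e'').2]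

end D_lpbA

open D_lpbA in
theorem p_D_LPB (hD_FOREST : S_D_FOREST) :
    S_D_LPB := by
  classical
  intro A Rn p q ι _ S α β z k hp hD hM hS hE H hc
  have : Nonempty ι := ⟨k 0⟩
  have hi : ∀ n, (S n).inv = (S 0).inv := fun n => by
    induction n with
    | zero => rfl
    | succ n ih => rw [(H n).inv, ih]
  have hz : StrictMono z := strictMono_nat_of_lt_succ fun n => (H n).lt
  have hb : BddAbove (range z) := ⟨q, by rintro _ ⟨n, rfl⟩; exact (hS n).1.le⟩
  have hl := tendsto_atTop_ciSup hz.monotone hb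
  have h1 : ∀ n, z n < ⨆ n, z n := fun n => (H n).lt.trans_le (le_ciSup hb (n + 1))
  have h2 : ⨆ n, z n ≤ q := ciSup_le fun n => (hS n).1.le
  generalize ⨆ n, z n = y at hl h1 h2
  have ht : ∀ n, (S n).tot = (S 0).tot - 2 * (z n - z 0) := fun n => by
    induction n with
    | zero => simp
    | succ n ih => rw [(H n).tot, ih]; ring
  have ha : ∀ i, Antitone fun n => β n i - α n i := fun i =>
    antitone_nat_of_succ_le fun n => len_le (hE n) (hE (n + 1)) (H n) i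
  have h3 : ∀ i n, α n i < y → ∃ m, n ≤ m ∧ β m i - α m i ≤ β m (k m) - α m (k m) := by
    intro i n hn
    by_contra hh
    push Not at hh
    have a : ∀ m, n ≤ m → α m i = α n i := fun m hm => by
      induction m, hm using Nat.le_induction with
      | base => rfl
      | succ m hm ih =>
        have b := hh m hm
        refine ((H m).st i (fun e => ?_) (fun e => ?_) fun e => ?_).1.trans ih
        · exact b.ne (by rw [e])
        · exact b.ne (by rw [e, len_inv (hE m)])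
        · linarith [(H m).max i e, (H m).at']
    exact absurd (le_of_tendsto hl (eventually_atTop.2 ⟨n, fun m hm => a m hm ▸ (hE m i).1⟩))
      (not_le.2 hn)
  obtain ⟨F, hF⟩ : ∃ F : Set ι, ∀ i, i ∈ F ↔ ∀ᶠ n in atTop, y ≤ α n i ∧ y ≤ α n ((S 0).inv i) :=
    ⟨{i | ∀ᶠ n in atTop, y ≤ α n i ∧ y ≤ α n ((S 0).inv i)}, fun _ => Iff.rfl⟩
  obtain ⟨N, hN⟩ := eventually_atTop.1
    ((eventually_all_finite (toFinite F)).2 fun i h => (hF i).1 h)
  have h4 : ∀ i ∈ F, (S N).inv i ∈ F := fun i h => by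
    rw [hF, hi N, (S 0).inv_inv]
    exact ((hF i).1 h).mono fun n => And.symm
  have h5 : ∀ i ∈ F, ∀ n, N ≤ n → β n i - α n i = β N i - α N i := fun i h n hn => by
    induction n, hn using Nat.le_induction with
    | base => rfl
    | succ n hn ih =>
      have b := hN n hn i h
      have c := h1 n
      have := (H n).st i (fun e => by linarith [(H n).at', e ▸ b.1])
        (fun e => by
          rw [e, ← hi n, (S n).inv_inv] at b
          linarith [(H n).at', b.2]) fun e => by linarith [b.1]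
      rw [this.1, this.2, ih]
  obtain ⟨T, hT, hd⟩ := (S N).exists_sub (fun i => if i ∈ F then (S N).dom i else ∅)
    (fun i => by split_ifs; exacts [(S N).co i, CO.empty])
    (fun i => by split_ifs; exacts [Subset.rfl, empty_subset _])
    fun i γ h => by
      by_cases e : i ∈ F
      · rw [if_pos e] at h
        rw [if_pos (h4 i e)]
        exact (S N).map i γ h
      · rw [if_neg e] at h
        exact h.elim
  have h6 : ∀ i, Tendsto (fun n => mu ((S n).dom i)) atTop (𝓝 (mu (T.dom i))) := fun i => by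
    simp only [mu_dom (hE _), hd]
    split_ifs with e
    · rw [mu_dom (hE N)]
      exact tendsto_const_nhds.congr' (eventually_atTop.2 ⟨N, fun n hn => (h5 i e n hn).symm⟩)
    · rw [mu_empty]
      refine tendsto_order.2 ⟨fun a h => Eventually.of_forall fun n => ?_, fun a h => ?_⟩
      · linarith [(hE n i).2.1]
      · obtain ⟨M, hM⟩ := eventually_atTop.1 (hc.eventually (gt_mem_nhds h))
        obtain ⟨n, hn, b⟩ := frequently_atTop.1 (not_eventually.1 (mt (hF i).2 e)) M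
        obtain ⟨m, hm, c⟩ : ∃ m, n ≤ m ∧ β m i - α m i ≤ β m (k m) - α m (k m) := by
          rcases not_and_or.1 b with b | b
          · exact h3 i n (not_le.1 b)
          · refine (h3 _ n (not_le.1 b)).imp fun m c => ⟨c.1, ?_⟩
            rw [← len_inv (hE m), hi m]
            exact c.2
        exact eventually_atTop.2 ⟨m, fun l hl => ((ha i hl).trans c).trans_lt (hM m (hn.trans hm))⟩
  have h7 : T.tot = (S 0).tot - 2 * (y - z 0) :=
    tendsto_nhds_unique (tendsto_finsetSum Finset.univ fun i _ => h6 i)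
      ((((hl.sub_const _).const_mul 2).const_sub _).congr fun n => (ht n).symm)
  have hU : T.In (GI y q) := fun i => by
    rw [hd]
    dsimp only
    split_ifs with e
    · rw [(hE N i).2.2.2.1]
      exact GI_mono (hN N le_rfl i e).1 (hE N i).2.2.1
    · exact empty_subset _
  rcases h2.eq_or_lt with e | e
  · have : T.tot = 0 := Finset.sum_eq_zero fun i _ => by
      rw [subset_eq_empty (hU i) (GI_eq_empty e.ge), mu_empty]
    rw [← e]
    linarith
  exfalso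
  have p1 : p ≤ z N := hp.trans (hz.monotone N.zero_le)
  have sU : GI y q ⊆ GI (z N) q := GI_mono (h1 N).le le_rfl
  have hin : (S N).In (GI y q ∪ GI (z N) y) := by
    rw [union_comm, GI_union (h1 N).le h2]
    exact (hS N).2.1
  obtain ⟨par, h, f1, f2⟩ := hD_FOREST ι (S N) _ _ co_GI co_GI (GI_disjoint le_rfl).symm hin
    fun γ hγ => by
      obtain ⟨δ, b1, b2⟩ := hD γ (GI_mono p1 h2 hγ) y q (p1.trans (h1 N).le) e le_rfl
      exact ⟨δ, b1, ((hS N).2.2.2 γ (GI_mono le_rfl h2 hγ) δ (sU b1)).2 b2⟩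
  have hC := (f2 T hT hU).2 (by rw [mu_GI (h1 N).le, h7, ht N]; linarith)
  have hSt : T.St A Rn y q := ⟨e, hU, fun i => by
      rw [hd, hT.2.1]
      dsimp only
      split_ifs
      exacts [(hS N).2.2.1 i, Or.inl rfl],
    fun γ hγ δ hδ => Iff.trans ⟨hT.rel, Sys.collapse f1 hin hT.2.1 hC hU hγ hδ⟩
      ((hS N).2.2.2 γ (sU hγ) δ (sU hδ))⟩
  refine absurd (hM ι T y (p1.trans (h1 N).le) hSt) (not_le.2 ?_)
  rw [← Nat.card_eq_fintype_card, ← ncard_univ]
  refine ncard_lt_ncard (ssubset_univ_iff.2 fun b => ?_)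
  have c : (T.dom (k N)).Nonempty := (eq_univ_iff_forall.1 b) (k N)
  rw [hd] at c
  dsimp only at c
  split_ifs at c with d
  · linarith [(hN N le_rfl _ d).1, (H N).at', h1 N]
  · exact c.ne_empty rfl

end Pool.Agent.P.MP_dba3d2_lc


end

section

/-! Step D_LP of the stability project. -/

namespace Pool.Agent.P.MP_dba3d2_lc

open Set Filter Topology

namespace D_lpA

theorem rel_congr {ι κ : Type} {S : Sys ι} {T : Sys κ} (h : ∀ γ β, T.Step γ β ↔ S.Step γ β)
    (γ β : Gm) : T.Rel γ β ↔ S.Rel γ β :=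
  ⟨Sys.rel_of_step fun _ _ k => ((h _ _).1 k).rel, Sys.rel_of_step fun _ _ k => ((h _ _).2 k).rel⟩

theorem weak {ι : Type} {S : Sys ι} {A : Gm → ℝ → ℝ → Prop} (h : S.Intv A) : S.Weak A := by
  intro i γ hγ
  rcases h i with e | ⟨u, v, e, k⟩
  · rw [e] at hγ; exact hγ.elim
  · exact ⟨u, v, e ▸ hγ, by rwa [mul_inv_cancel_right]⟩

theorem seq {X K : Type} (P : X → Prop) (R : X → X → K → Prop) (x0 : X) (h0 : P x0)
    (h : ∀ x, P x → ∃ y k, P y ∧ R x y k) :
    ∃ (x : ℕ → X) (k : ℕ → K), x 0 = x0 ∧ (∀ n, P (x n)) ∧ ∀ n, R (x n) (x (n + 1)) (k n) := by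
  choose f k h1 h2 using h
  let g : {x // P x} → {x // P x} := fun x => ⟨f x.1 x.2, h1 x.1 x.2⟩
  refine ⟨fun n => (g^[n] ⟨x0, h0⟩).1, fun n => k _ (g^[n] ⟨x0, h0⟩).2, rfl,
    fun n => (g^[n] ⟨x0, h0⟩).2, fun n => ?_⟩
  simp only [Function.iterate_succ_apply']
  exact h2 _ _

end D_lpA

open D_lpA in
theorem p_D_LP (hD_REFINE : S_D_REFINE) (hD_LPCLEAN : S_D_LPCLEAN) (hD_LPSTEP : S_D_LPSTEP) (hD_LPA : S_D_LPA) (hD_LPB : S_D_LPB) :
    S_D_LP := by
  classical
  intro A hA ι _ S p q hin hmin hw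
  have hpq : p < q := GI_nonempty.1 hmin.ne
  have hex : ∃ N, ∃ (κ : Type) (_ : Fintype κ) (T : Sys κ) (z : ℝ), p ≤ z ∧ T.St A S.Rel z q ∧
      {i | (T.dom i).Nonempty}.ncard = N := by
    obtain ⟨κ, _, T, h1, -, h3, -, h5⟩ := hD_REFINE A hA ι S hw
    exact ⟨_, κ, inferInstance, T, p, le_rfl,
      ⟨hpq, h5 _ hin, h1, fun γ _ β _ => rel_congr h3 γ β⟩, rfl⟩
  obtain ⟨κ, _, T, z, hz, hT, hN⟩ := Nat.find_spec hex
  obtain ⟨ι0, _, T0, e, -, -, hc, -, hφ, hd, hs, -⟩ := T.exists_drop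
  have hM : LPMin A S.Rel p q (Fintype.card ι0) := by
    intro κ' _ T' z' hz' hT'
    rw [hc, hN]
    exact Nat.find_min' hex ⟨κ', inferInstance, T', z', hz', hT', rfl⟩
  have hT0 : T0.St A S.Rel z q := by
    refine ⟨hT.1, fun i => ?_, fun i => ?_, fun γ hγ β hβ => ?_⟩
    · rw [hd]; exact hT.2.1 _
    · rw [hd, hφ]; exact hT.2.2.1 _
    · exact (rel_congr hs γ β).trans (hT.2.2.2 γ hγ β hβ)
  have hD : Dns S.Rel p q := by
    intro γ hγ u v h1 h2 h3
    obtain ⟨β, hβ, k⟩ := hmin.reach (U := GI u v) isOpen_GI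
      (by rw [inter_eq_left.2 (GI_mono h1 h3)]; exact GI_nonempty.2 h2) hγ
    exact ⟨β, hβ.1, k⟩
  obtain ⟨-, α0, β0, hE0⟩ := hD_LPCLEAN A S.Rel p q z ι0 T0 hz hT0 hM
  obtain ⟨x, k, hx0, hP, hR⟩ := seq (X := Sys ι0 × (ι0 → ℝ) × (ι0 → ℝ) × ℝ) (K := ι0)
    (fun x => p ≤ x.2.2.2 ∧ x.1.St A S.Rel x.2.2.2 q ∧ x.1.Ends A x.2.2.2 q x.2.1 x.2.2.1)
    (fun x y k => LPStep x.1 x.2.1 x.2.2.1 x.2.2.2 y.1 y.2.1 y.2.2.1 y.2.2.2 k)
    (T0, α0, β0, z) ⟨hz, hT0, hE0⟩ (by
      rintro ⟨T1, α, β, z1⟩ ⟨h1, h2, h3⟩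
      obtain ⟨T2, α', β', z', k, k1, k2, k3⟩ :=
        hD_LPSTEP A hA S.Rel p q z1 ι0 T1 α β h1 hD h2 hM h3
      exact ⟨(T2, α', β', z'), k, ⟨h1.trans k3.lt.le, k1, k2⟩, k3⟩)
  have hlim := hD_LPA A hA q ι0 (fun n => (x n).1) (fun n => (x n).2.1) (fun n => (x n).2.2.1)
    (fun n => (x n).2.2.2) k (fun n => (hP n).2.2)
    (fun n => (hD_LPCLEAN A S.Rel p q _ ι0 _ (hP n).1 (hP n).2.1 hM).1) hR
  have htot := hD_LPB A S.Rel p q ι0 (fun n => (x n).1) (fun n => (x n).2.1)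
    (fun n => (x n).2.2.1) (fun n => (x n).2.2.2) k (hP 0).1 hD hM (fun n => (hP n).2.1)
    (fun n => (hP n).2.2) hR hlim
  simp only [hx0] at htot
  obtain ⟨κ', _, T', h1, h2, h3, h4, h5⟩ := hD_REFINE A hA ι0 T0 (weak hT0.2.2.1)
  exact ⟨z, κ', inferInstance, T', hz, ⟨hT0.1, h5 _ hT0.2.1, h1,
    fun γ hγ β hβ => (rel_congr h3 γ β).trans (hT0.2.2.2 γ hγ β hβ)⟩, h2, h4.trans htot⟩

end Pool.Agent.P.MP_dba3d2_lc


end

section

/-! Step D_EGE of the stability project. -/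

namespace Pool.Agent.P.MP_dba3d2_lc

open Set Filter Topology

theorem p_D_EGE (hD_MINC : S_D_MINC) (hD_FOREST : S_D_FOREST) :
    S_D_EGE := by
  intro ι _ S X hX hin hinf
  have tot0 : ∀ T : Sys ι, 0 ≤ T.tot := fun T => Finset.sum_nonneg fun i _ => mu_nonneg _
  rcases X.eq_empty_or_nonempty with rfl | ⟨γ0, hγ0⟩
  · have : mu (∅ : Set Gm) = 0 := by simp [mu]
    rw [this, mul_zero]
    exact tot0 S
  obtain ⟨i0, -⟩ := Sys.exists_dom_of_infinite (hinf γ0 hγ0)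
  haveI : Nonempty ι := ⟨i0⟩
  have hmin : ∀ γ ∈ X, S.Min (closure (S.orb γ)) := fun γ h => (hD_MINC ι S).2 γ (hinf γ h)
  have hself : ∀ γ, γ ∈ closure (S.orb γ) := fun γ =>
    subset_closure (Sys.mem_orb.2 (Sys.Rel.refl S γ))
  obtain ⟨t, ht1, ht2⟩ := hX.1.elim_nhds_subcover (fun γ => closure (S.orb γ)) fun γ h =>
    (hmin γ h).co.2.mem_nhds (hself γ)
  refine le_of_forall_pos_le_add fun e he => ?_
  set r : ℝ := e / (2 * (t.card + 1)) with hr
  have hr0 : 0 < r := by positivity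
  set W : Set Gm := ⋃ γ : t, seg γ.1 r with hW
  have cW : CO W := CO.iUnion fun _ => co_seg
  have cU : CO (W ∩ X) := cW.inter hX
  have mU : mu (W ∩ X) ≤ t.card * r := by
    refine (mu_mono cW inter_subset_left).trans ((mu_iUnion_le _).trans ?_)
    simp [mu_seg hr0.le]
  have reach : ∀ γ ∈ X \ (W ∩ X), ∃ β ∈ W ∩ X, S.Rel γ β := by
    intro γ hγ
    obtain ⟨α, hα, hγα⟩ := mem_iUnion₂.1 (ht2 hγ.1)
    have hαW : α ∈ W ∩ X :=
      ⟨mem_iUnion.2 ⟨⟨α, hα⟩, self_mem_seg hr0⟩, ht1 α hα⟩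
    obtain ⟨β, hβ, k⟩ := (hmin α (ht1 α hα)).reach cU.2 ⟨α, hαW, hself α⟩ hγα
    exact ⟨β, hβ.1, k⟩
  obtain ⟨par, h, -, hT⟩ := hD_FOREST ι S (W ∩ X) (X \ (W ∩ X)) cU (hX.diff cU)
    disjoint_sdiff_right (by rwa [union_diff_cancel inter_subset_right]) reach
  obtain ⟨T, hT1, hT2⟩ := S.exists_sub (fun _ => ∅) (fun _ => CO.empty) (fun _ => empty_subset _)
    fun _ _ k => k.elim
  have k1 := (hT T hT1 fun i => by rw [hT2]; exact empty_subset _).1
  rw [mu_diff hX cU inter_subset_right] at k1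
  have k2 := tot0 T
  have k3 : 2 * (t.card * r) ≤ e := by
    have : r * (2 * (t.card + 1)) = e := by
      rw [hr]
      field_simp
    nlinarith
  linarith

end Pool.Agent.P.MP_dba3d2_lc


end
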