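import Pool.Agent.P.MP_dba3d2_lcM.Db47
import Pool.Agent.P.MP_dba3d2_lcM.Db53

section

/-! Step D_TREE of the stability project. -/

namespace Pool.Agent.P.MP_dba3d2_lc

open Set Filter Topology

namespace D_treeA

variable {ι : Type} {S : Sys ι} {i : ι} {γ β : Gm}

theorem disj_if (c : Prop) {α γ : Gm} (h : c → α ≠ γ) :
    ∃ r > 0, c → Disjoint (seg α r) (seg γ r) := by
  by_cases e : c
  · obtain ⟨r, h1, h2⟩ := exists_seg_disjoint (h e)
    exact ⟨r, h1, fun _ => h2⟩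
  · exact ⟨1, one_pos, fun k => absurd k e⟩

/-- paths that avoid an edge survive the removal of a short band next to it -/
theorem claim (h : β ∈ S.Side i γ) : ∃ r0 > 0, ∀ r, r ≤ r0 → ∀ T : Sys ι,
    T.IsCut S i (seg γ r) → ∀ δ ∈ GI 0 r, T.Rel (γ * δ) (β * δ) := by
  induction h with
  | refl => exact ⟨1, one_pos, fun r _ T _ δ _ => Sys.Rel.refl T _⟩
  | @tail α β _ k ih =>
    obtain ⟨r0, a0, b0⟩ := ih
    obtain ⟨j, hj, rfl, n1, n2⟩ := k
    obtain ⟨r1, a1, b1⟩ := isOpen_iff_seg.1 (S.co j).2 α hj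
    obtain ⟨r2, a2, b2⟩ := disj_if (j = i) (α := α) (γ := γ) fun e k => n1 ⟨e, k⟩
    obtain ⟨r3, a3, b3⟩ := disj_if (j = S.inv i) (α := S.φ j * α) (γ := γ) fun e k =>
      n2 ⟨e, by rw [← k, e, S.φ_mul_inv]⟩
    refine ⟨min (min r0 r1) (min r2 r3), lt_min (lt_min a0 a1) (lt_min a2 a3),
      fun r hr T hT δ hδ => ?_⟩
    simp only [le_min_iff] at hr
    refine (b0 r hr.1.1 T hT δ hδ).trans (Sys.Step.rel ⟨j, (hT.2.2 j _).2 ⟨?_, ?_, ?_⟩, ?_⟩)
    · exact b1 (seg_mono hr.1.2 (mul_mem_seg.2 hδ))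
    · exact fun e => disjoint_left.1 (b2 e.1) (seg_mono hr.2.1 (mul_mem_seg.2 hδ))
        (seg_mono hr.2.1 e.2)
    · refine fun e => disjoint_left.1 (b3 e.1) (seg_mono hr.2.2 (mul_mem_seg.2 hδ))
        (seg_mono hr.2.2 ?_)
      rw [mul_assoc]
      exact e.2
    · rw [hT.2.1, mul_assoc]

end D_treeA

theorem p_D_TREE (hD_EGE : S_D_EGE) :
    S_D_TREE := by
  intro ι _ S X hX hin hinf htot i γ hγ hs
  obtain ⟨r, hr, h⟩ := D_treeA.claim hs
  obtain ⟨T, hT⟩ := S.exists_cut i (co_seg (γ := γ) (r := r))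
  have key : ∀ α ∈ seg γ r, T.Rel α (S.φ i * α) := by
    intro α hα
    have k := h r le_rfl T hT _ (mem_seg.1 hα)
    rwa [mul_inv_cancel_left, mul_assoc, mul_inv_cancel_left] at k
  have hst : ∀ α β, S.Step α β → T.Rel α β := by
    rintro α _ ⟨j, hj, rfl⟩
    by_cases e1 : j = i ∧ α ∈ seg γ r
    · rw [e1.1]
      exact key α e1.2
    by_cases e2 : j = S.inv i ∧ S.φ j * α ∈ seg γ r
    · have k := key _ e2.2
      rw [e2.1, S.φ_mul_inv] at k
      rw [e2.1]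
      exact k.symm
    · exact Sys.Step.rel ⟨j, (hT.2.2 j α).2 ⟨hj, e1, e2⟩, by rw [hT.2.1]⟩
  have h1 := hD_EGE ι T X hX (hT.sub.in' hin) fun α hα =>
    (hinf α hα).mono fun β hβ => Sys.rel_of_step hst hβ
  have h2 := hT.sub.tot_lt hγ fun k => ((hT.2.2 i γ).1 k).2.1 ⟨rfl, self_mem_seg hr⟩
  linarith

end Pool.Agent.P.MP_dba3d2_lc


end

section

/-! Step D_NOISO of the stability project. -/

namespace Pool.Agent.P.MP_dba3d2_lc

open Set Filter Topology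

namespace D_noisoA

variable {ι : Type} {S : Sys ι} {i : ι} {γ : Gm} {E : Set ℝ}

/-- isolated edges with infinite source side -/
def Iso (S : Sys ι) (i : ι) (γ : Gm) : Prop :=
  γ ∈ S.Am i ∧ ∃ r > 0, ∀ δ : Gm, 0 < δ.c → δ.c < r → γ * δ ∉ S.Am i

theorem back [Finite ι] (T : S.Tree) (h : Iso S i γ) :
    ∃ j, j ≠ i ∧ γ ∈ S.dom j ∧ Iso S (S.inv j) (S.φ j * γ) := by
  obtain ⟨h1, r, r0, h2⟩ := h
  obtain ⟨h3, j, a1, a2, a3⟩ := T.am_iff.1 h1
  obtain ⟨r1, p1, k1⟩ := isOpen_gm.1 (S.co i).2 γ h3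
  refine ⟨j, a1, a2, a3, min r r1, lt_min r0 p1, fun δ x y z => ?_⟩
  rw [mul_assoc] at z
  exact h2 δ x (y.trans_le (min_le_left _ _)) (T.am_iff.2
    ⟨k1 δ x (y.trans_le (min_le_right _ _)), j, a1, Sys.mem_dom_inv.1 z.1, z⟩)

/-- the obstacles ahead of a germ -/
def Ob (S : Sys ι) (E : Set ℝ) (i : ι) (γ : Gm) : Set ℝ :=
  {s | 0 < s ∧ (γ.ap s ∈ E ∨ ∃ δ : Gm, δ.c = s ∧ γ * δ ∈ S.Am i)}

theorem least [Finite ι] (hE : E.Finite) {a b : ℝ} (ha : a ∈ E) (hb : b ∈ E) (hγ : γ ∈ GI a b)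
    (h : Iso S i γ) : ∃ g, IsLeast (Ob S E i γ) g := by
  obtain ⟨-, r, r0, h2⟩ := h
  have f1 : (γ.ap ⁻¹' E).Finite := hE.preimage γ.ap_injective.injOn
  obtain ⟨r1, p1, -, k1, -⟩ := exists_free f1 0
  have c1 : IsCompact (S.Am i) :=
    (S.co i).1.of_isClosed_subset (S.isClosed_am i) fun _ h => h.1
  have c2 : IsCompact ((γ.ap ⁻¹' E ∪ Gm.c '' tr γ⁻¹ (S.Am i)) ∩ Ici (min r r1)) :=
    (f1.isCompact.union ((isCompact_tr c1).image continuous_c)).inter_right isClosed_Ici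
  have e : Ob S E i γ = (γ.ap ⁻¹' E ∪ Gm.c '' tr γ⁻¹ (S.Am i)) ∩ Ici (min r r1) := by
    ext s
    constructor
    · rintro ⟨s0, k | ⟨δ, rfl, k⟩⟩
      · exact ⟨Or.inl k, (min_le_right _ _).trans (not_lt.1 fun l : s < r1 => k1 s k ⟨s0, by linarith⟩)⟩
      · exact ⟨Or.inr ⟨δ, by simpa [tr] using k, rfl⟩,
          (min_le_left _ _).trans (not_lt.1 fun l => h2 δ s0 l k)⟩
    · rintro ⟨k, s0⟩
      refine ⟨(lt_min r0 p1).trans_le s0, k.imp id ?_⟩
      rintro ⟨δ, k', rfl⟩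
      exact ⟨δ, rfl, by simpa [tr] using k'⟩
  refine (e ▸ c2).exists_isLeast ?_
  rcases γ.h with k | k
  · exact ⟨b - γ.c, sub_pos.2 ((mem_GI_pos k).1 hγ).2, Or.inl (by simpa [Gm.ap, k] using hb)⟩
  · exact ⟨γ.c - a, sub_pos.2 ((mem_GI_neg k).1 hγ).1, Or.inl (by simpa [Gm.ap, k] using ha)⟩

theorem seg_sub {U : Set Gm} {g : ℝ} (hU : ∀ u v, Free E u v → GI u v ⊆ U ∨ Disjoint (GI u v) U)
    (g0 : 0 < g) (h : ∀ s, 0 < s → s < g → γ.ap s ∉ E) (hγ : γ ∈ U) : seg γ g ⊆ U := by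
  have h1 := self_mem_seg (γ := γ) g0
  rcases γ.h with k | k
  · rw [seg_pos k] at h1 ⊢
    refine (hU _ _ fun t ht l => ?_).resolve_right fun d => disjoint_left.1 d h1 hγ
    exact h (t - γ.c) (by linarith [l.1]) (by linarith [l.2]) (by simpa [Gm.ap, k] using ht)
  · rw [seg_neg k] at h1 ⊢
    refine (hU _ _ fun t ht l => ?_).resolve_right fun d => disjoint_left.1 d h1 hγ
    exact h (γ.c - t) (by linarith [l.2]) (by linarith [l.1]) (by simpa [Gm.ap, k] using ht)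

end D_noisoA

open D_noisoA in
theorem p_D_NOISO :
    S_D_NOISO := by
  intro ι _ S T i0 γ0 h0 r0 hr0
  by_contra hn
  have I0 : Iso S i0 γ0 := ⟨h0, r0, hr0, fun δ x y z => hn ⟨δ, x, y, z⟩⟩
  obtain ⟨E, e1, -, a, ha, b, hb, -, e3⟩ := exists_ends S.co
  choose J j1 j2 j3 using fun x : {x : ι × Gm // Iso S x.1 x.2} => back T x.2
  obtain ⟨x, hx⟩ : ∃ x : ℕ → {x : ι × Gm // Iso S x.1 x.2},
      ∀ n, (x (n + 1)).1 = (S.inv (J (x n)), S.φ (J (x n)) * (x n).1.2) :=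
    ⟨fun n => Nat.rec ⟨(i0, γ0), I0⟩ (fun _ y => ⟨(_, _), j3 y⟩) n, fun _ => rfl⟩
  obtain ⟨i, γ, j, h1, h2, h3, h4, h5⟩ : ∃ (i : ℕ → ι) (γ : ℕ → Gm) (j : ℕ → ι),
      (∀ n, Iso S (i n) (γ n)) ∧ (∀ n, j n ≠ i n) ∧ (∀ n, γ n ∈ S.dom (j n)) ∧
      (∀ n, i (n + 1) = S.inv (j n)) ∧ ∀ n, γ (n + 1) = S.φ (j n) * γ n :=
    ⟨fun n => (x n).1.1, fun n => (x n).1.2, fun n => J (x n), fun n => (x n).2, fun n => j1 _,
      fun n => j2 _, fun n => congrArg Prod.fst (hx n), fun n => congrArg Prod.snd (hx n)⟩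
  clear hx x j1 j2 j3 J
  have nest : ∀ n, S.Side (i (n + 1)) (γ (n + 1)) ⊆ S.Side (i n) (γ n) ∧
      γ n ∉ S.Side (i (n + 1)) (γ (n + 1)) := fun n => by
    rw [h4, h5]
    exact T.nest (h1 n).1.1 (h3 n) (h2 n)
  have anti : Antitone fun n => S.Side (i n) (γ n) := antitone_nat_of_succ_le fun n => (nest n).1
  have inj : Function.Injective γ := Function.Injective.of_lt_imp_ne fun n m l e =>
    (nest n).2 (anti (show n + 1 ≤ m from l) (e ▸ S.self_mem_side (i m) (γ m)))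
  choose g hg using fun n => least E.finite_toSet ha hb (e3 _ (h1 n).1.1) (h1 n)
  have key : ∀ n m, i n = i m → 0 < (γ m).ε * ((γ n).c - (γ m).c) →
      g m ≤ (γ m).ε * ((γ n).c - (γ m).c) := fun n m e l =>
    (hg m).2 ⟨l, Or.inr ⟨(γ m)⁻¹ * γ n, by simp; ring, by simpa [← e] using (h1 n).1⟩⟩
  have pig : ∀ (X : Set ℕ) (κ : Type) (f : ℕ → κ) (K : Set κ), K.Finite → MapsTo f X K →
      (∀ n ∈ X, ∀ m ∈ X, f n = f m → (γ n).ε = (γ m).ε →
        (γ m).ε * ((γ n).c - (γ m).c) < g m) → X.Finite := by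
    intro X κ f K hK hf H
    by_contra hX
    obtain ⟨n, hn, m, hm, ne, e⟩ := Set.Infinite.exists_ne_map_eq_of_mapsTo hX
      (f := fun n => (i n, (γ n).ε, f n)) (t := univ ×ˢ ({1, -1} : Set ℝ) ×ˢ K)
      (fun n hn => ⟨trivial, (γ n).h, hf hn⟩) (finite_univ.prod ((toFinite _).prod hK))
    obtain ⟨k1, k2, k3⟩ : i n = i m ∧ (γ n).ε = (γ m).ε ∧ f n = f m := by simpa using e
    rcases lt_trichotomy 0 ((γ m).ε * ((γ n).c - (γ m).c)) with l | l | l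
    · exact (key n m k1 l).not_gt (H n hn m hm k3 k2)
    · exact ne (inj (Gm.ext k2 (sub_eq_zero.1 ((mul_eq_zero.1 l.symm).resolve_left (γ m).eps_ne))))
    · exact (key m n k1.symm (by rw [k2]; linarith)).not_gt (H m hm n hn k3.symm k2.symm)
  have fa : {n | (γ n).ap (g n) ∈ E}.Finite := by
    refine pig _ ℝ (fun n => (γ n).ap (g n)) E E.finite_toSet (fun n hn => hn)
      fun n _ m _ k1 k2 => ?_
    have := (hg n).1.1
    simp only [Gm.ap, k2] at k1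
    rcases (γ m).h with k | k <;> rw [k] at k1 ⊢ <;> linarith
  obtain ⟨N, hN⟩ := fa.bddAbove
  have mono : ∀ n, N ≤ n → g n ≤ g (n + 1) := by
    intro n hn
    by_contra l
    rw [not_le] at l
    obtain ⟨g0, k | ⟨δ, k1, k2⟩⟩ := (hg (n + 1)).1
    · exact absurd (hN k) (by omega)
    rw [h4, h5, mul_assoc] at k2
    rw [← k1] at l g0
    have d : γ n * δ ∈ S.dom (i n) :=
      seg_sub (e1 (i n)) (hg n).1.1 (fun s s0 s1 k => s1.not_ge ((hg n).2 ⟨s0, Or.inl k⟩))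
        (h1 n).1.1 (mul_mem_seg.2 (mem_GI_of_Ioo g0 l))
    exact l.not_ge ((hg n).2 ⟨g0, Or.inr ⟨δ, rfl,
      T.am_iff.2 ⟨d, j n, h2 n, Sys.mem_dom_inv.1 k2.1, k2⟩⟩⟩)
  have low : ∀ n, N ≤ n → g N ≤ g n := fun n hn => by
    induction n, hn using Nat.le_induction with
    | base => exact le_rfl
    | succ n hn ih => exact ih.trans (mono n hn)
  have g0 := (hg N).1.1
  refine Set.Ici_infinite N (pig _ ℤ (fun n => ⌊(γ n).c / g N⌋) (Icc ⌊a / g N⌋ ⌊b / g N⌋)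
    (finite_Icc _ _) (fun n _ => ?_) fun n _ m hm k1 _ => ?_)
  · have := c_mem_of_GI (e3 _ (h1 n).1.1)
    exact ⟨Int.floor_mono (by gcongr; exact this.1), Int.floor_mono (by gcongr; exact this.2)⟩
  · have := Int.abs_sub_lt_one_of_floor_eq_floor k1
    rw [← sub_div, abs_div, abs_of_pos g0, div_lt_one g0] at this
    refine (le_abs_self _).trans_lt ?_
    rw [abs_mul, Gm.abs_eps, one_mul]
    exact this.trans_le (low m hm)

end Pool.Agent.P.MP_dba3d2_lc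


end

section

/-! Step D_SWITCH of the stability project. -/

namespace Pool.Agent.P.MP_dba3d2_lc

open Set Filter Topology

namespace D_switchA

variable {ι : Type} {S : Sys ι} {E : Set ℝ} {i : ι} {γ γ' β β' σ : Gm}

theorem opp_step (hE : ∀ j (γ : Gm), γ.c ∉ E → (γ.opp ∈ S.dom j ↔ γ ∈ S.dom j)) (hβ : β.c ∉ E)
    (h : S.StepX i γ β β') : S.StepX i γ.opp β.opp β'.opp := by
  obtain ⟨j, h1, rfl, h2, h3⟩ := h
  refine ⟨j, (hE j β hβ).2 h1, (Gm.mul_opp _ _).symm,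
    fun k => h2 ⟨k.1, Gm.opp_injective k.2⟩, fun k => h3 ⟨k.1, Gm.opp_injective ?_⟩⟩
  rw [k.2, Gm.mul_opp]

theorem meets (hE : ∀ j (γ : Gm), γ.c ∉ E → (γ.opp ∈ S.dom j ↔ γ ∈ S.dom j))
    (h1 : (S.Side i γ).Finite) (h2 : (S.Side i γ.opp).Infinite) : ∃ σ ∈ S.Side i γ, σ.c ∈ E := by
  by_contra k
  refine h2 ((h1.preimage Gm.opp_injective.injOn).subset fun β hβ => ?_)
  induction hβ with
  | refl => simpa using S.self_mem_side i γ
  | @tail β _ _ h ih =>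
    have := opp_step hE (fun e => k ⟨β.opp, ih, by rwa [Gm.opp_c]⟩) h
    rw [Gm.opp_opp] at this
    exact Relation.ReflTransGen.tail ih this

theorem nested (T : S.Tree) (h : γ ∈ S.dom i) (h' : γ' ∈ S.dom i) (k : σ ∈ S.Side i γ)
    (k' : σ ∈ S.Side i γ') (n : γ' ∉ S.Side i γ) : S.φ i * γ ∈ S.Side i γ' ∧
      S.Side i γ ⊆ S.Side i γ' ∧ γ' ∈ S.Side (S.inv i) (S.φ i * γ) := by
  have a : γ ∈ S.Side i γ' := by
    by_contra a
    have b : γ ∈ S.orb γ' :=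
      Sys.Rel.trans (S.side_subset_orb i γ' k') (Sys.Rel.symm (S.side_subset_orb i γ k))
    rw [Sys.orb_eq_sides h'] at b
    have c : ∀ β ∈ S.Side i γ, β ∈ S.Side (S.inv i) (S.φ i * γ') := fun β hβ => by
      induction hβ with
      | refl => exact b.resolve_left a
      | tail p q ih =>
        have r := Relation.ReflTransGen.tail p q
        obtain ⟨j, q1, rfl, -⟩ := q
        refine Sys.side_step ih q1 (fun e => n ?_) fun e => n ?_
        · rwa [e.1, e.2, S.φ_inv_mul] at r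
        · rwa [e.2, S.φ_inv_mul] at p
    exact disjoint_left.1 (T.disjoint h') k' (c σ k)
  obtain ⟨b, c⟩ := T.side_sub h' h a fun e => n (e.2 ▸ S.self_mem_side i γ)
  exact ⟨b, c.resolve_right fun e => n e.2⟩

theorem follow (hE : ∀ j (γ : Gm), γ.c ∉ E → (γ.opp ∈ S.dom j ↔ γ ∈ S.dom j)) (T : S.Tree)
    (h : γ ∈ S.dom i) (h' : γ' ∈ S.dom i) (a : S.φ i * γ ∈ S.Side i γ')
    (b : γ' ∈ S.Side (S.inv i) (S.φ i * γ)) (c : ∀ β ∈ S.Side i γ', β.c ∈ E → β ∈ S.Side i γ) :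
    γ'.opp ∈ S.Side (S.inv i) (S.φ i * γ).opp := by
  have key : ∀ β ∈ S.Side (S.inv i) (S.φ i * γ),
      (β ∈ S.Side i γ' ∧ β.opp ∈ S.Side (S.inv i) (S.φ i * γ).opp) ∨
        γ'.opp ∈ S.Side (S.inv i) (S.φ i * γ).opp := fun β hβ => by
    induction hβ with
    | refl => exact Or.inl ⟨a, S.self_mem_side _ _⟩
    | @tail β β' p q ih =>
      rcases ih with ⟨k1, k2⟩ | k
      · by_cases e : β = γ'
        · exact Or.inr (e ▸ k2)
        · refine Or.inl ⟨?_, Relation.ReflTransGen.tail k2 (opp_step hE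
            (fun k => disjoint_left.1 (T.disjoint h) (c β k1 k) p) q)⟩
          obtain ⟨j, q1, rfl, -⟩ := q
          exact Sys.side_step k1 q1 (fun k => e k.2) fun k => T i γ' h' (k.2 ▸ k1)
      · exact Or.inr k
  exact (key γ' b).elim And.right id

end D_switchA

open D_switchA in
theorem p_D_SWITCH :
    S_D_SWITCH := by
  intro ι _ S T i
  obtain ⟨E, -, hE, -⟩ := exists_ends S.co
  have hS := Gm.finite_over E.finite_toSet
  refine (hS.biUnion (t := fun σ => {γ | (γ ∈ S.dom i ∧ (S.Side i γ).Finite ∧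
    (S.Side (S.inv i) (S.φ i * γ).opp).Finite) ∧ σ ∈ S.Side i γ}) fun σ _ => ?_).subset ?_
  · by_contra hinf
    obtain ⟨γ, ⟨⟨g1, g2, g3⟩, g4⟩, hm⟩ := Set.Finite.exists_maximalFor'
      (fun γ => {β : Gm | β.c ∈ (E : Set ℝ)} ∩ S.Side i γ) _
      (hS.finite_subsets.subset (by
        rintro _ ⟨γ, -, rfl⟩
        exact inter_subset_left)) (Set.Infinite.nonempty hinf)
    refine hinf ((g2.union (g3.preimage Gm.opp_injective.injOn)).subset fun γ' h' => ?_)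
    refine (em _).imp_right fun n => ?_
    obtain ⟨a, b, c⟩ := nested T g1 h'.1.1 g4 h'.2 n
    exact follow (E := E) hE T g1 h'.1.1 a c fun β k1 k2 =>
      (hm h' (inter_subset_inter_right _ b) ⟨k2, k1⟩).2
  · rintro γ ⟨h1, -, h2, h3, h4⟩
    have f1 : (S.Side i γ).Finite := not_infinite.1 fun k => h2 ⟨h1, k⟩
    obtain ⟨σ, s1, s2⟩ := meets (E := E) hE f1 h3.2
    refine mem_biUnion s2 ⟨⟨h1, f1, not_infinite.1 fun k => h4 ⟨Sys.mem_dom_inv.2 h3.1, ?_⟩⟩, s1⟩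
    rwa [Gm.mul_opp]

end Pool.Agent.P.MP_dba3d2_lc


end

section

/-! Step D_THINFIN of the stability project. -/

namespace Pool.Agent.P.MP_dba3d2_lc

open Set Filter Topology

namespace D_thinfinA

variable {ι : Type} {S T : Sys ι} {C V : Set Gm} {par : Gm → ι} {γ : Gm}

/-- the source side of a forest edge lies in the forest -/
theorem side_sub (hT : T.In C) (hd : Disjoint C V) (hc : S.Cls T V par) (hγ : γ ∈ V) :
    S.Side (par γ) γ ⊆ V := by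
  have hV : ∀ α, Relation.ReflTransGen (fun a b => a ∈ V ∧ b = S.φ (par a) * a) α γ → α ∈ V :=
    fun α h => by
      rcases h.cases_head with e | ⟨_, e, _⟩
      · exact e ▸ hγ
      · exact e.1
  intro β hβ
  refine hV β ?_
  induction hβ with
  | refl => exact Relation.ReflTransGen.refl
  | @tail α β _ h ih =>
    obtain ⟨j, h1, rfl, h2, -⟩ := h
    rcases hc j α h1 with a | ⟨-, a⟩ | ⟨a, b⟩
    · exact absurd (hV α ih) (disjoint_left.1 hd (hT j a))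
    · rcases ih.cases_head with e | ⟨_, ⟨-, rfl⟩, e⟩
      · exact absurd ⟨e ▸ a, e⟩ h2
      · exact a ▸ e
    · exact Relation.ReflTransGen.head ⟨a, by rw [← b, S.φ_inv_mul]⟩ ih

end D_thinfinA

theorem p_D_THINFIN (hD_MINC : S_D_MINC) (hD_EGE : S_D_EGE) (hD_FOREST : S_D_FOREST) :
    S_D_THINFIN := by
  intro ι _ S T X U i γ hX hM htot hA hU hcut β0
  by_contra hinf
  have : Nonempty ι := ⟨i⟩
  have hTS := hcut.sub
  obtain ⟨C, hCd⟩ : ∃ C : Set Gm, C = {β | (T.orb β).Infinite} := ⟨_, rfl⟩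
  have hC : CO C := hCd ▸ (hD_MINC ι T).1
  have hI : T.Inv C := hCd ▸ T.inv_infinite
  have hCX : C ⊆ X := fun β h => by
    obtain ⟨j, hj⟩ := Sys.exists_dom_of_infinite (S := T) (γ := β) (by rw [hCd] at h; exact h)
    exact hX j (hTS.2.2 j hj)
  have h0 : β0 ∈ C := hCd ▸ hinf
  obtain ⟨T', s1, s2, -, s4⟩ := T.exists_res hC hI
  have e1 := hD_EGE ι T' C hC s2 fun β h => by
    rw [s4 β h]
    rw [hCd] at h
    exact h
  have reach : ∀ α ∈ X, ∃ β ∈ C, S.Rel α β := fun α h => by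
    obtain ⟨β, a, b⟩ := hM.reach hC.2 ⟨β0, h0, hCX h0⟩ h
    exact ⟨β, a.1, b⟩
  have hd : Disjoint C (X \ C) := disjoint_sdiff_right
  obtain ⟨par, ht, -, hF⟩ := hD_FOREST ι S C (X \ C) hC (hM.co.diff hC) hd
    (by rw [union_sdiff_cancel hCX]; exact hX) fun α h => reach α h.1
  have hc : S.Cls T' (X \ C) par := (hF T' (s1.trans hTS) s2).2 (by
    rw [mu_diff hM.co hC hCX]
    linarith)
  obtain ⟨n, hn⟩ := Sys.exists_near_bound hM.co.1 hC.2 reach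
  have key : ∀ j α, α ∈ S.Am j → α ∈ X \ C → j = par α → False := fun j α a b e => by
    have hs := D_thinfinA.side_sub s2 hd hc b
    rw [← e] at hs
    obtain ⟨α', a1, a2⟩ := Sys.exists_ball_in_side a n
    obtain ⟨β, b1, b2⟩ := hn α' (hs a1).1
    exact (hs (a2 β b2)).2 b1
  rcases hc i γ hA.1.1 with a | ⟨a, b⟩ | ⟨a, b⟩
  · exact ((hcut.2.2 i γ).1 (s1.2.2 i a)).2.1 ⟨rfl, hU⟩
  · exact key i γ hA.1 a b
  · exact key _ _ hA.2 a b

end Pool.Agent.P.MP_dba3d2_lc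


end

section

/-! Step D_DICH of the stability project. -/

namespace Pool.Agent.P.MP_dba3d2_lc

open Set Filter Topology

namespace D_dichA

variable {ι : Type} {S : Sys ι} {i : ι} {γ : Gm}

/-- the boundary germs of the set of alive edges -/
def Bd (S : Sys ι) (i : ι) : Set Gm := {γ | γ ∈ S.Alive i ∧ γ.opp ∈ S.dom i ∧ γ.opp ∉ S.Alive i}

/-- a closed set without isolated germs that does not see directions near `γ` is open at `γ` -/
theorem open_at {A : Set Gm} (hA : IsClosed A) {r : ℝ}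
    (h1 : ∀ β ∈ A, ∀ s > 0, ∃ δ : Gm, 0 < δ.c ∧ δ.c < s ∧ β * δ ∈ A)
    (h2 : ∀ δ : Gm, 0 < δ.c → δ.c < r → γ * δ.opp ∈ A → γ * δ ∈ A) (hγ : γ ∈ A)
    (δ : Gm) (d0 : 0 < δ.c) (d1 : δ.c < r) : γ * δ ∈ A := by
  have h3 : ∀ δ : Gm, 0 < δ.c → δ.c < r → γ * δ ∈ A → γ * Gm.tau δ.c ∈ A := fun δ x y z => by
    rcases Gm.eq_or_opp (γ := Gm.tau δ.c) (β := δ) rfl with e | e
    · rwa [← e]
    · exact h2 _ x y (e ▸ z)
  have h4 : ∀ δ : Gm, 0 < δ.c → δ.c < r → γ * Gm.tau δ.c ∈ A → γ * δ ∈ A := fun δ x y z => by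
    rcases Gm.eq_or_opp (γ := δ) (β := Gm.tau δ.c) rfl with e | e
    · rwa [← e]
    · exact h2 _ x y (e ▸ z)
  by_contra hn
  have key := real_ind (u := 0) (v := δ.c) (p := fun u => γ * Gm.tau (δ.c - u) ∉ A) d0.le
    (by simpa using fun k => hn (h4 δ d0 d1 k)) (fun t t0 t1 ht => ?_) (fun t t0 t1 ht k => ?_)
  · simp only [sub_self, Gm.tau_zero, mul_one] at key
    exact key hγ
  · have k : γ * (Gm.tau (δ.c - t)).opp ∈ Aᶜ := fun k =>
      ht (h2 _ (by simp; linarith) (by simp; linarith) k)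
    obtain ⟨ρ, r0, hρ⟩ := isOpen_gm.1 hA.isOpen_compl _ k
    refine ⟨ρ / 2, half_pos r0, fun s s0 s1 => ?_⟩
    have k2 := hρ (Gm.tau s).opp (by simpa using s0) (by simp; linarith)
    have e : (Gm.tau (δ.c - t)).opp * (Gm.tau s).opp = Gm.tau (δ.c - (t + s)) :=
      Gm.ext (by simp) (by simp; ring)
    rw [mul_assoc, e] at k2
    exact k2
  · obtain ⟨η, e0, e1, e2⟩ := h1 _ k t t0
    rw [mul_assoc] at e2
    have c : (Gm.tau (δ.c - t) * η).c = δ.c - (t - η.c) := by simp; ring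
    have k3 := h3 _ (by rw [c]; linarith) (by rw [c]; linarith) e2
    rw [c] at k3
    exact ht (t - η.c) (by linarith) (by linarith) k3

theorem isOpen_am [Fintype ι] (hN : S_D_NOISO) (hS : S_D_SWITCH) {X : Set Gm} (hX : S.In X)
    (hM : S.Min X) (T : S.Tree) (hB : (Bd S i).Finite) : IsOpen (S.Am i) := by
  refine isOpen_gm.2 fun γ hγ => ?_
  obtain ⟨r1, p1, q1⟩ := isOpen_gm.1 (S.co i).2 γ hγ.1
  obtain ⟨r2, p2, q2⟩ := exists_seg_avoid (hB.union (hS ι S T i)) γ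
  refine ⟨min r1 r2, lt_min p1 p2, open_at (S.isClosed_am i) (hN ι S T i) (fun δ x y z => ?_) hγ⟩
  have y1 := y.trans_le (min_le_left _ _)
  have y2 := y.trans_le (min_le_right _ _)
  have ne : ∀ η : Gm, η.c = δ.c → γ * η ≠ γ := fun η c e => by
    have : η = 1 := mul_left_cancel (e.trans (mul_one γ).symm)
    rw [this, Gm.one_c] at c
    exact x.ne c
  have av : ∀ η : Gm, η.c = δ.c → γ * η ∉ _ := fun η c e =>
    ne η c (q2 _ (mul_mem_seg.2 (mem_GI_of_Ioo (c ▸ x) (c ▸ y2))) e)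
  by_contra hn
  have d1 := q1 δ x y1
  have b : S.φ i * (γ * δ).opp ∈ S.Am (S.inv i) := by
    by_contra hb
    exact av δ rfl (Or.inr ⟨d1, hM.inf _ (hX i d1), hn, by rwa [← Gm.mul_opp], hb⟩)
  refine av δ.opp (by simp) (Or.inl ⟨⟨z, by rwa [Gm.mul_opp]⟩, ?_, ?_⟩)
  · rwa [Gm.mul_opp, Gm.opp_opp]
  · rw [Gm.mul_opp, Gm.opp_opp]
    exact fun k => hn k.1

/-- the thin data at a boundary germ whose opposite germ has a finite source side -/
theorem thin_at [Fintype ι] (hT : S_D_THINFIN) {X : Set Gm} (hX : S.In X) (hM : S.Min X)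
    (hE : S.tot ≤ 2 * mu X) (T : S.Tree) (h1 : γ ∈ S.Alive i) (h2 : γ.opp ∈ S.dom i)
    (h3 : γ.opp ∉ S.Am i) : ∃ Tr : Set Gm, γ ∈ S.dom i ∧ γ.opp ∈ S.dom i ∧
    (S.φ i * γ).c ≠ γ.c ∧ Tr.Finite ∧ γ.opp ∈ Tr ∧ Tr ⊆ S.orb γ.opp ∧ γ ∉ Tr ∧ S.φ i * γ ∉ Tr ∧
    S.φ i * γ.opp ∉ Tr ∧
    (∀ j, ∀ β ∈ S.dom j, ¬(j = i ∧ β = γ.opp) → ¬(j = S.inv i ∧ β = S.φ i * γ.opp) →
      (β ∈ Tr ↔ S.φ j * β ∈ Tr)) ∧
    ∀ δ > 0, ∀ T : Sys ι, T.IsCut S i (seg γ δ) → ∀ β, (T.orb β).Finite := by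
  have d : γ ∈ S.dom i := h1.1.1
  have fin : (S.Side i γ.opp).Finite := not_infinite.1 fun k => h3 ⟨h2, k⟩
  have c : (S.φ i * γ).c ≠ γ.c := fun e => by
    rcases Gm.eq_or_opp e with k | k
    · exact T.ne d k
    · have k1 : γ.opp ∈ S.dom (S.inv i) := k ▸ S.map i γ d
      have k2 : S.φ i * γ.opp = S.φ (S.inv i) * γ.opp := by
        rw [Gm.mul_opp, k, Gm.opp_opp, ← k, S.φ_inv_mul]
      have k3 := T.idx h2 k1 k2
      have k4 := h1.2
      rw [k, ← k3] at k4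
      exact h3 k4
  refine ⟨S.Side i γ.opp, d, h2, c, fin, S.self_mem_side _ _, S.side_subset_orb _ _, fun k => ?_,
    fun k => ?_, T i _ h2, fun j β a b c => Sys.side_step_iff a b c,
    fun δ d0 Z hZ => hT ι S Z X _ i γ hX hM hE h1 (self_mem_seg d0) hZ⟩
  · rcases (T.side_sub h2 d k fun e => γ.opp_ne e.2.symm).2 with a | a
    · exact h1.1.2 (fin.subset a.1)
    · exact h1.2.2 (fin.subset a.1)
  · rcases (T.side_sub h2 (S.map i γ d) k fun e => c (by rw [e.2, Gm.opp_c])).2 with a | a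
    · exact h1.2.2 (fin.subset a.1)
    · rw [S.inv_inv, S.φ_inv_mul] at a
      exact h1.1.2 (fin.subset a.1)

theorem thin [Fintype ι] (hT : S_D_THINFIN) {X : Set Gm} (hX : S.In X) (hM : S.Min X)
    (hE : S.tot ≤ 2 * mu X) (T : S.Tree) (hB : (Bd S i).Infinite) : S.Thin := by
  intro F
  have f1 := Gm.finite_over F.finite_toSet
  have f2 : {γ : Gm | (S.φ i * γ).c ∈ (F : Set ℝ)}.Finite :=
    f1.preimage (f := fun γ => S.φ i * γ) (mul_right_injective _).injOn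
  obtain ⟨γ, ⟨h1, h2, h3⟩, h4⟩ := (hB.sdiff (f1.union f2)).nonempty
  by_cases a : γ.opp ∈ S.Am i
  · have b : (S.φ i * γ).opp ∉ S.Am (S.inv i) := fun k => h3 ⟨a, by rwa [Gm.mul_opp]⟩
    obtain ⟨Tr, k⟩ := thin_at hT hX hM hE T (Sys.alive_rev.2 h1)
      (by rw [← Gm.mul_opp]; exact S.map i _ h2) b
    exact ⟨S.inv i, _, Tr, fun e => h4 (Or.inr e), k⟩
  · obtain ⟨Tr, k⟩ := thin_at hT hX hM hE T h1 h2 a
    exact ⟨i, γ, Tr, fun e => h4 (Or.inl e), k⟩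

end D_dichA

theorem p_D_DICH (hD_NOISO : S_D_NOISO) (hD_SWITCH : S_D_SWITCH) (hD_THINFIN : S_D_THINFIN) :
    S_D_DICH := by
  intro ι _ S X hX hM hE T
  by_cases h : ∀ i, (D_dichA.Bd S i).Finite
  · refine Or.inr fun i => ?_
    have k := fun j => D_dichA.isOpen_am hD_NOISO hD_SWITCH hX hM T (h j)
    exact (k i).inter ((k (S.inv i)).preimage (continuous_gm_mul (S.φ i)))
  · obtain ⟨i, hi⟩ := not_forall.1 h
    exact Or.inl (D_dichA.thin hD_THINFIN hX hM hE T hi)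

end Pool.Agent.P.MP_dba3d2_lc


end

section

/-! Step D_SURF1 of the stability project. -/

namespace Pool.Agent.P.MP_dba3d2_lc

open Set Filter Topology

namespace D_surf1A

variable {ι : Type} {S : Sys ι} {i j : ι} {γ : Gm} {X : Set Gm}

/-- edges with finite source side -/
def Dd (S : Sys ι) (i : ι) : Set Gm := S.dom i \ S.Am i

theorem dfin (h : γ ∈ Dd S i) : (S.Side i γ).Finite := by
  by_contra k
  exact h.2 ⟨h.1, k⟩

theorem mem_rev : γ ∈ tr (S.φ (S.inv i)) (Dd S (S.inv i)) ↔ S.φ i * γ ∈ Dd S (S.inv i) := by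
  rw [mem_tr, S.φ_inv, inv_inv]

theorem not_both (hX : ∀ γ ∈ S.dom i, (S.orb γ).Infinite) (h : γ ∈ Dd S i)
    (k : S.φ i * γ ∈ Dd S (S.inv i)) : False :=
  (Sys.am_or h.1 (hX γ h.1)).elim h.2 k.2

theorem dom_eq (S : Sys ι) (i : ι) :
    S.dom i = S.Alive i ∪ (Dd S i ∪ tr (S.φ (S.inv i)) (Dd S (S.inv i))) := by
  ext γ
  rw [mem_union, mem_union, mem_rev]
  constructor
  · intro h
    by_cases a : γ ∈ S.Am i
    · by_cases b : S.φ i * γ ∈ S.Am (S.inv i)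
      · exact Or.inl ⟨a, b⟩
      · exact Or.inr (Or.inr ⟨S.map i γ h, b⟩)
    · exact Or.inr (Or.inl ⟨h, a⟩)
  · rintro (h | h | h)
    · exact h.1.1
    · exact h.1
    · exact Sys.mem_dom_inv.1 h.1

theorem open_Dd [Finite ι] (S : Sys ι) (i : ι) : IsOpen (Dd S i) :=
  (S.co i).2.sdiff (S.isClosed_am i)

theorem co_alive [Finite ι] (h : IsOpen (S.Alive i)) : CO (S.Alive i) :=
  (S.co i).of_subset (fun _ k => k.1.1) (S.isClosed_alive i) h

theorem co_Dd [Finite ι] (hX : ∀ γ ∈ S.dom i, (S.orb γ).Infinite) (h : IsOpen (S.Alive i)) :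
    CO (Dd S i) := by
  refine ⟨?_, open_Dd S i⟩
  have e : Dd S i = S.dom i \ (S.Alive i ∪ tr (S.φ (S.inv i)) (Dd S (S.inv i))) := by
    ext γ
    constructor
    · intro k
      refine ⟨k.1, ?_⟩
      rintro (a | a)
      · exact k.2 a.1
      · exact not_both hX k (mem_rev.1 a)
    · rintro ⟨a, b⟩
      rw [dom_eq] at a
      rcases a with a | a | a
      · exact absurd (Or.inl a) b
      · exact a
      · exact absurd (Or.inr a) b
  rw [e]
  exact (S.co i).1.diff (h.union (isOpen_tr (open_Dd S _)))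

/-- the other edges at a germ with a finite source side lead into finite branches -/
theorem other (T : S.Tree) (h : γ ∈ Dd S i) (k : γ ∈ S.dom j) (e : j ≠ i) :
    S.φ j * γ ∉ S.Am (S.inv j) := fun a =>
  a.2 ((dfin h).subset (T.nest h.1 k e).1)

theorem not_alive (T : S.Tree) (h : γ ∈ Dd S i) : γ ∉ S.Alive j := fun a => by
  by_cases e : j = i
  · subst e
    exact h.2 a.1
  · exact other T h a.1.1 e a.2

theorem uniq (T : S.Tree) (hγ : (S.orb γ).Infinite) (h : γ ∈ Dd S i) (k : γ ∈ Dd S j) : i = j := by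
  by_contra e
  exact (Sys.am_or h.1 hγ).elim h.2 (other T k h.1 e)

theorem exists_Dd [Finite ι] (T : S.Tree) (hγ : (S.orb γ).Infinite) (h : ∀ i, γ ∉ S.Alive i) :
    ∃ j, γ ∈ Dd S j := by
  obtain ⟨i, hi⟩ := Sys.exists_dom_of_infinite hγ
  rcases Sys.am_or hi hγ with a | a
  · obtain ⟨-, j, -, b, c⟩ := T.am_iff.1 a
    exact ⟨j, b, fun d => h j ⟨d, c⟩⟩
  · exact ⟨i, hi, fun d => h i ⟨d, a⟩⟩

theorem two_le [Finite ι] (T : S.Tree) (h : γ ∈ S.Alive i) : 2 ≤ {j | γ ∈ S.Alive j}.ncard := by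
  obtain ⟨a, j, e, b, c⟩ := T.am_iff.1 h.1
  have d : γ ∈ S.Am j := ⟨b, h.2.2.mono (T.nest b a e.symm).1⟩
  exact (Set.one_lt_ncard (toFinite _)).2 ⟨i, h, j, ⟨d, c⟩, e.symm⟩

theorem bound [Finite ι] (h : ∀ i, CO (Dd S i)) :
    ∃ B, ∀ i, ∀ γ ∈ Dd S i, (S.Side i γ).ncard ≤ B := by
  have key : ∀ i, ∃ B, ∀ γ ∈ Dd S i, (S.Side i γ).ncard ≤ B := fun i => by
    refine (h i).exists_bound (p := fun n γ => (S.Side i γ).ncard ≤ n)
      (fun _ _ _ a b => b.trans a) fun γ hγ => ⟨(S.Side i γ).ncard, ?_⟩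
    filter_upwards [Sys.side_eventually (dfin hγ)] with α a
    exact (ncard_le_ncard a ((dfin hγ).image _)).trans (ncard_image_le (dfin hγ))
  choose B hB using key
  obtain ⟨M, hM⟩ := (finite_range B).bddAbove
  exact ⟨M, fun i γ a => (hB i γ a).trans (hM ⟨i, rfl⟩)⟩

/-- the side grows along the parent edge -/
theorem grow (T : S.Tree) (hγ : (S.orb γ).Infinite) (h : γ ∈ Dd S i) (k : S.φ i * γ ∈ Dd S j) :
    (S.Side i γ).ncard < (S.Side j (S.φ i * γ)).ncard := by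
  have e : S.inv i ≠ j := by
    rintro rfl
    exact (Sys.am_or h.1 hγ).elim h.2 k.2
  have n := T.nest k.1 (S.map i γ h.1) e
  rw [S.inv_inv, S.φ_inv_mul] at n
  exact ncard_lt_ncard ((ssubset_iff_of_subset n.1).2 ⟨_, S.self_mem_side _ _, n.2⟩) (dfin k)

theorem tot_eq [Fintype ι] (hX : ∀ i, ∀ γ ∈ S.dom i, (S.orb γ).Infinite)
    (h : ∀ i, IsOpen (S.Alive i)) :
    S.tot = ∑ i, mu (S.Alive i) + 2 * ∑ i, mu (Dd S i) := by
  have c := fun i => co_Dd (hX i) (h i)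
  have e : ∀ i, mu (S.dom i) = mu (S.Alive i) + (mu (Dd S i) + mu (Dd S (S.inv i))) := fun i => by
    have d1 : Disjoint (Dd S i) (tr (S.φ (S.inv i)) (Dd S (S.inv i))) :=
      disjoint_left.2 fun γ a b => not_both (hX i) a (mem_rev.1 b)
    have d2 : Disjoint (S.Alive i) (Dd S i ∪ tr (S.φ (S.inv i)) (Dd S (S.inv i))) :=
      disjoint_left.2 fun γ a b => b.elim (fun b => b.2 a.1) fun b => (mem_rev.1 b).2 a.2
    rw [← mu_tr (c (S.inv i)) (S.φ (S.inv i)), ← mu_union (c i) ((c _).tr _) d1,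
      ← mu_union (co_alive (h i)) ((c i).union ((c _).tr _)) d2, ← dom_eq]
  have e2 : ∑ i, mu (Dd S (S.inv i)) = ∑ i, mu (Dd S i) :=
    Equiv.sum_comp (Function.Involutive.toPerm S.inv S.inv_inv) fun i => mu (Dd S i)
  rw [Sys.tot, Finset.sum_congr rfl fun i _ => e i, Finset.sum_add_distrib,
    Finset.sum_add_distrib, e2]
  ring

end D_surf1A

open D_surf1A in
theorem p_D_SURF1 :
    S_D_SURF1 := by
  intro ι _ S X hIn hM htot T hop
  classical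
  have hX : ∀ i, ∀ γ ∈ S.dom i, (S.orb γ).Infinite := fun i γ h => hM.inf γ (hIn i h)
  have cA := fun i => co_alive (hop i)
  have cD := fun i => co_Dd (hX i) (hop i)
  obtain ⟨Z, hZ, hD⟩ := S.exists_sub S.Alive cA (fun _ _ k => k.1.1)
    fun _ _ k => Sys.alive_rev.2 k
  have cY : CO (⋃ i, S.Alive i) := CO.iUnion cA
  have hYX : (⋃ i, S.Alive i) ⊆ X := iUnion_subset fun i _ k => hIn i k.1.1
  have hV : ∀ γ, γ ∈ X \ ⋃ i, S.Alive i ↔ ∃ j, γ ∈ Dd S j := fun γ => by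
    constructor
    · intro k
      exact exists_Dd T (hM.inf γ k.1) fun i a => k.2 (mem_iUnion.2 ⟨i, a⟩)
    · rintro ⟨j, k⟩
      refine ⟨hIn j k.1, fun a => ?_⟩
      obtain ⟨i, a⟩ := mem_iUnion.1 a
      exact not_alive T k a
  have eV : X \ ⋃ i, S.Alive i = ⋃ j, Dd S j := Set.ext fun γ => (hV γ).trans mem_iUnion.symm
  have m1 : mu (X \ ⋃ i, S.Alive i) = ∑ j, mu (Dd S j) := by
    rw [eV]
    exact mu_iUnion cD fun i j e =>
      disjoint_left.2 fun γ a b => e (uniq T (hX i γ a.1) a b)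
  have m2 := mu_diff hM.co cY hYX
  have m3 := tot_eq hX hop
  have val := (mu_count_eq cA cY 2 (fun γ k => by
    obtain ⟨i, a⟩ := mem_iUnion.1 k
    exact two_le T a) (by push_cast; linarith)).1
  obtain ⟨B, hB⟩ := bound cD
  obtain ⟨γ₀, h₀⟩ := hM.ne
  obtain ⟨i₀, -⟩ := Sys.exists_dom_of_infinite (hM.inf γ₀ h₀)
  have hp : ∀ γ, ∃ j, γ ∈ X \ ⋃ i, S.Alive i → γ ∈ Dd S j := fun γ => by
    by_cases k : γ ∈ X \ ⋃ i, S.Alive i
    · obtain ⟨j, a⟩ := (hV γ).1 k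
      exact ⟨j, fun _ => a⟩
    · exact ⟨i₀, fun a => absurd a k⟩
  choose par hpar using hp
  have hF : S.Forest (⋃ i, S.Alive i) (X \ ⋃ i, S.Alive i) par
      fun γ => if γ ∈ X \ ⋃ i, S.Alive i then B + 1 - (S.Side (par γ) γ).ncard else 0 := by
    refine ⟨fun γ k => (hpar γ k).1, fun γ k => ?_, fun γ k => if_neg fun a => a.2 k⟩
    have b1 := hB _ γ (hpar γ k)
    rw [if_pos k]
    split_ifs with a
    · have b2 := hB _ _ (hpar _ a)
      have b3 := grow T (hM.inf γ k.1) (hpar γ k) (hpar _ a)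
      omega
    · omega
  have hZY : Z.In (⋃ i, S.Alive i) := fun i γ k => mem_iUnion.2 ⟨i, hD ▸ k⟩
  refine ⟨⋃ i, S.Alive i, Z, cY, ?_, hYX, hZ, hZY, by rw [hD]; exact val,
    fun γ a β b k => Sys.collapse hF ?_ hZ.2.1 ?_ hZY a b k⟩
  · by_contra hn
    have e0 : ∀ γ ∈ X, γ ∈ X \ ⋃ i, S.Alive i := fun γ k => ⟨k, fun a => hn ⟨γ, a⟩⟩
    obtain ⟨γ, k, hmin⟩ := (measure fun γ => if γ ∈ X \ ⋃ i, S.Alive i then
      B + 1 - (S.Side (par γ) γ).ncard else 0).wf.has_min X ⟨γ₀, h₀⟩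
    exact hmin _ (hIn _ (S.map _ γ (hF.mem γ (e0 γ k)))) (hF.lt γ (e0 γ k))
  · intro i γ' k'
    rw [union_sdiff_cancel hYX]
    exact hIn i k'
  · intro i α k'
    rw [dom_eq] at k'
    rcases k' with c | c | c
    · exact Or.inl (hD ▸ c)
    · have v := (hV α).2 ⟨i, c⟩
      exact Or.inr (Or.inl ⟨v, uniq T (hM.inf α v.1) c (hpar α v)⟩)
    · have c' := mem_rev.1 c
      have v := (hV _).2 ⟨_, c'⟩
      exact Or.inr (Or.inr ⟨v, uniq T (hM.inf _ v.1) c' (hpar _ v)⟩)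

end Pool.Agent.P.MP_dba3d2_lc


end

section

/-! Step D_SURF2 of the stability project. -/

namespace Pool.Agent.P.MP_dba3d2_lc

open Set Filter Topology

namespace D_surf2A

theorem flfl (y : Gm × Bool) : fl (fl y) = y := by simp [fl]

theorem exists_idx (ι : Type) [Nonempty ι] : ∃ (I : Set ι → Bool → ι) (E : Set ι → ι → Bool),
    ∀ s : Set ι, s.ncard = 2 → (∀ e, I s e ∈ s) ∧ (∀ i ∈ s, I s (E s i) = i) ∧
      ∀ e, E s (I s e) = e := by
  classical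
  have h : ∀ s : Set ι, ∃ (I : Bool → ι) (E : ι → Bool), s.ncard = 2 →
      (∀ e, I e ∈ s) ∧ (∀ i ∈ s, I (E i) = i) ∧ ∀ e, E (I e) = e := by
    intro s
    by_cases hs : s.ncard = 2
    · obtain ⟨x, y, hxy, rfl⟩ := ncard_eq_two.1 hs
      refine ⟨fun e => bif e then x else y, fun i => decide (i = x), fun _ => ⟨?_, ?_, ?_⟩⟩
      · rintro (_ | _) <;> simp
      · rintro i (rfl | rfl)
        · simp
        · have : ¬ i = x := fun e => hxy e.symm
          simp [this]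
      · rintro (_ | _) <;> simp [hxy.symm]
    · exact ⟨fun _ => Classical.arbitrary ι, fun _ => true, fun h => absurd h hs⟩
  choose I E h using h
  exact ⟨I, E, h⟩

theorem lc {ι : Type} [Finite ι] (T : Sys ι) (γ : Gm) : ∃ r > 0, ∀ δ : Gm, 0 < δ.c → δ.c < r →
    {i | γ * δ ∈ T.dom i} = {i | γ ∈ T.dom i} := by
  refine ((eventually_gm' (p := fun α => {i | α ∈ T.dom i} = {i | γ ∈ T.dom i})).1 ?_).2
  have h : ∀ i, ∀ᶠ α in 𝓝 γ, (α ∈ T.dom i ↔ γ ∈ T.dom i) := fun i => by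
    by_cases h : γ ∈ T.dom i
    · filter_upwards [(T.co i).2.mem_nhds h] with α k using iff_of_true k h
    · filter_upwards [(T.co i).isClosed.isOpen_compl.mem_nhds h] with α k using iff_of_false k h
  filter_upwards [eventually_all.2 h] with α k using Set.ext k

theorem zpow_mem {Y : Set Gm} {f : Equiv.Perm (Gm × Bool)} (h : ∀ y, (f y).1 ∈ Y ↔ y.1 ∈ Y)
    {y : Gm × Bool} (hy : y.1 ∈ Y) (n : ℤ) : ((f ^ n) y).1 ∈ Y := by
  induction n using Int.induction_on with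
  | zero => exact hy
  | succ n ih => rwa [add_comm, zpow_add, zpow_one, Equiv.Perm.mul_apply, h]
  | pred n ih =>
    rw [← h, ← Equiv.Perm.mul_apply, ← zpow_one_add]
    simpa using ih

theorem inj {Y : Set Gm} {f : Equiv.Perm (Gm × Bool)} (h : ∀ y, (f y).1 ∈ Y ↔ y.1 ∈ Y)
    (Sd : Gm × Bool → Set Gm)
    (hS : ∀ y : Gm × Bool, y.1 ∈ Y → y.1 ∈ Sd y ∧ (f y).1 ∉ Sd y ∧ Sd y ⊆ Sd (f y))
    {y : Gm × Bool} (hy : y.1 ∈ Y) : Function.Injective fun n : ℤ => ((f ^ n) y).1 := by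
  have k1 : ∀ y : Gm × Bool, y.1 ∈ Y → ∀ n : ℕ, Sd y ⊆ Sd ((f ^ (n : ℤ)) y) := by
    intro y hy n
    induction n with
    | zero => exact Subset.rfl
    | succ n ih =>
      rw [Nat.cast_succ, add_comm, zpow_add, zpow_one, Equiv.Perm.mul_apply]
      exact ih.trans (hS _ (zpow_mem h hy n)).2.2
  have k2 : ∀ m n : ℤ, m < n → ((f ^ m) y).1 ≠ ((f ^ n) y).1 := by
    intro m n hmn e
    obtain ⟨k, rfl⟩ : ∃ k : ℕ, n = 1 + k + m := ⟨(n - m - 1).toNat, by omega⟩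
    have hm := zpow_mem h hy m
    rw [zpow_add, zpow_add, zpow_one, Equiv.Perm.mul_apply, Equiv.Perm.mul_apply] at e
    exact (hS _ (zpow_mem h hm k)).2.1 (e ▸ k1 _ hm k (hS _ hm).1)
  intro m n e
  rcases lt_trichotomy m n with k | k | k
  exacts [absurd e (k2 m n k), k, absurd e.symm (k2 n m k)]

end D_surf2A

open D_surf2A in
theorem p_D_SURF2 :
    S_D_SURF2 := by
  classical
  intro ι _ T Y hI hM hT h2
  obtain ⟨γ0, h0⟩ := hM.ne
  have : Nonempty ι := ⟨(nonempty_of_ncard_ne_zero (by rw [h2 γ0 h0]; norm_num)).some⟩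
  obtain ⟨I, E, H⟩ := exists_idx ι
  let s : Gm → Set ι := fun γ => {i | γ ∈ T.dom i}
  let ix : Gm × Bool → ι := fun y => I (s y.1) y.2
  let g : Gm × Bool → Gm × Bool := fun y =>
    if y.1 ∈ Y then (T.φ (ix y) * y.1, E (s (T.φ (ix y) * y.1)) (T.inv (ix y))) else y
  have d1 : ∀ y : Gm × Bool, y.1 ∈ Y → y.1 ∈ T.dom (ix y) := fun y hy => (H _ (h2 _ hy)).1 _
  have g1 : ∀ y : Gm × Bool, y.1 ∈ Y →
      g y = (T.φ (ix y) * y.1, E (s (T.φ (ix y) * y.1)) (T.inv (ix y))) := fun y hy => if_pos hy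
  have g2 : ∀ y : Gm × Bool, y.1 ∈ Y → (g y).1 ∈ Y ∧ ix (g y) = T.inv (ix y) := fun y hy => by
    have k := T.map _ _ (d1 y hy)
    rw [g1 y hy]
    exact ⟨hI _ k, (H _ (h2 _ (hI _ k))).2.1 _ k⟩
  have gg : Function.Involutive g := fun y => by
    by_cases hy : y.1 ∈ Y
    · have e : T.φ (T.inv (ix y)) * (g y).1 = y.1 := by rw [g1 y hy]; exact T.φ_inv_mul _ _
      rw [g1 _ (g2 y hy).1, (g2 y hy).2, e, T.inv_inv]
      exact Prod.ext rfl ((H _ (h2 _ hy)).2.2 _)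
    · have e : g y = y := if_neg hy
      rw [e, e]
  let f : Equiv.Perm (Gm × Bool) := Function.Involutive.toPerm fl flfl * gg.toPerm g
  have f1 : ∀ y, f y = fl (g y) := fun y => rfl
  have f2 : ∀ y, f⁻¹ y = g (fl y) := fun y => rfl
  have f3 : ∀ y : Gm × Bool, y.1 ∈ Y → (f y).1 = T.φ (ix y) * y.1 := fun y hy => by
    rw [f1, g1 y hy]; rfl
  have mem : ∀ y, (f y).1 ∈ Y ↔ y.1 ∈ Y := fun y => by
    by_cases hy : y.1 ∈ Y
    · exact iff_of_true (g2 y hy).1 hy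
    · rw [f1, show g y = y from if_neg hy]; rfl
  have rel : ∀ γ ∈ Y, ∀ β, T.Rel γ β → ∃ n : ℤ, ((f ^ n) (γ, true)).1 = β := by
    intro γ hγ β h
    induction h with
    | refl => exact ⟨0, rfl⟩
    | tail _ st ih =>
      obtain ⟨n, rfl⟩ := ih
      obtain ⟨i, hi, rfl⟩ := st
      have hn := zpow_mem mem (y := (γ, true)) hγ n
      have e := (H _ (h2 _ hn)).2.1 i hi
      by_cases c : E (s ((f ^ n) (γ, true)).1) i = ((f ^ n) (γ, true)).2
      · refine ⟨1 + n, ?_⟩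
        rw [zpow_add, zpow_one, Equiv.Perm.mul_apply, f3 _ hn, ← e]
        exact congrArg (fun b => T.φ (I _ b) * _) c.symm
      · refine ⟨-1 + n, ?_⟩
        rw [zpow_add, zpow_neg_one, Equiv.Perm.mul_apply, f2, g1 (fl _) hn, ← e]
        exact congrArg (fun b => T.φ (I _ b) * _) (Bool.eq_not.2 c).symm
  refine ⟨⟨f, hM.co, hM.ne, fun y => ?_, mem, fun y hy => ?_, fun y hy => ?_, fun γ hγ => ?_⟩,
    fun y hy => ⟨ix y, d1 y hy, f3 y hy⟩, rel⟩
  · rw [f1, f1, flfl, gg]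
  · obtain ⟨r, r0, hr⟩ := lc T y.1
    obtain ⟨r', r0', hr'⟩ := lc T (T.φ (ix y) * y.1)
    refine ⟨min r r', lt_min r0 r0', fun δ a b => ?_⟩
    have e1 : s (y.1 * δ) = s y.1 := hr δ a (b.trans_le (min_le_left _ _))
    have e2 : s (T.φ (ix y) * y.1 * δ) = s (T.φ (ix y) * y.1) :=
      hr' δ a (b.trans_le (min_le_right _ _))
    have e3 : ix (y.1 * δ, y.2) = ix y := congrArg (fun t => I t y.2) e1
    have e4 : y.1 * δ ∈ Y := hI (ix y) (show ix y ∈ s (y.1 * δ) from e1 ▸ d1 y hy)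
    rw [f1, f1, g1 _ e4, g1 _ hy, e3, ← mul_assoc, e2]
    rfl
  · refine inj mem (fun y => T.Side (ix y) y.1) (fun y hy => ⟨T.self_mem_side _ _, ?_, ?_⟩) hy
    · rw [f3 y hy]
      exact hT _ _ (d1 y hy)
    · have k := T.map _ _ (d1 y hy)
      rw [← f3 y hy] at k
      have ne : T.inv (ix y) ≠ ix (f y) := fun e => by
        have a := (H _ (h2 _ (g2 y hy).1)).2.2
        have b := congrArg (E (s (g y).1)) ((g2 y hy).2.trans e)
        exact Bool.eq_not_self _ |>.1 ((a _).symm.trans (b.trans (a _)))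
      have := (hT.nest (d1 _ ((mem y).2 hy)) k ne).1
      rwa [T.inv_inv, f3 y hy, T.φ_inv_mul, ← f3 y hy] at this
  · exact (hM.den γ hγ).trans (closure_mono fun β hβ => rel γ hγ β hβ)

end Pool.Agent.P.MP_dba3d2_lc


end
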