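import Pool.Agent.P.MP_dba3d2_lcM.Ab00
import Pool.Agent.P.MP_dba3d2_lcM.Db49
import Pool.Agent.P.MP_dba3d2_lcM.Db53

section

/-! Chapter D, statements for the third outcome: the shortening automorphism. -/

namespace Pool.Agent.P.MP_dba3d2_lc

open Set Filter Topology

/-! ### Extension to the convex subgroup -/

-- deps:
-- imports: Pool.Agent.P.MP_dba3d2_lc.D.TreeB
/-- additive functions on a hereditary class of arcs extend to homomorphisms -/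
def S_D_EXTC : Prop := ∀ (R : RT) (Ad : R.W → Prop) (G : Type) [Group G] (Φ : R.W → G),
  (∀ g p, Ad g → R.On p 1 g → Ad p ∧ Ad (p⁻¹ * g) ∧ Φ g = Φ p * Φ (p⁻¹ * g)) →
  (∀ g, Ad g → Ad g⁻¹ ∧ Φ g⁻¹ = (Φ g)⁻¹) → (∀ z, R.ℓ z = 0 → Ad z) →
  (∀ h ∈ Subgroup.closure {g | Ad g}, ∀ p, R.On p 1 h → p ∈ Subgroup.closure {g | Ad g}) ∧
  ∃ σ : Subgroup.closure {g | Ad g} →* G, ∀ t : Subgroup.closure {g | Ad g}, Ad t → σ t = Φ t

-- deps: D_EXTC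
-- imports: Pool.Agent.P.MP_dba3d2_lc.D.T0B
def S_D_EXT : Prop := ∀ (R : RT) (P : ℝ → R.W) (p q : ℝ), R.IsoOn P p q →
  (∀ h ∈ R.T0 P p q, ∀ x, R.On x 1 h → x ∈ R.T0 P p q) ∧
  ∀ N : ℝ → R.W, R.Eqv P p q N → ∃ σ : R.T0 P p q →* R.W,
    (∀ t : R.T0 P p q, R.Fr P p q 1 t → σ t = t) ∧
    ∀ u ∈ Icc p q, ∀ v ∈ Icc p q, ∀ t : R.T0 P p q, (t : R.W) = (P u)⁻¹ * P v →
      σ t = (P u)⁻¹ * ((N u)⁻¹ * N v) * P v

-- deps: D_EXT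
-- imports: Pool.Agent.P.MP_dba3d2_lc.D.T0B
/-- the homomorphism induced on the group of moves -/
def S_D_SHOM : Prop := ∀ (R : RT) (P : ℝ → R.W) (p q : ℝ), p < q → R.IsoOn P p q →
  ∀ N : ℝ → R.W, R.Eqv P p q N → ∃ (σ : R.T0 P p q →* R.W) (s : R.QJ P p q →* R.W),
    (∀ t : R.T0 P p q, R.Fr P p q 1 t → σ t = t) ∧
    (∀ u ∈ Icc p q, ∀ v ∈ Icc p q, ∀ (g : R.QJ P p q) (t : R.T0 P p q),
      (t : R.W) = (P u)⁻¹ * g * P v → σ t = (P u)⁻¹ * ((N u)⁻¹ * s g * N v) * P v) ∧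
    ∀ u ∈ Icc p q, ∀ v ∈ Icc p q, ∀ g : R.QJ P p q, R.d (g * P u) (P v) = 0 →
      s g = N v * g * (N u)⁻¹

-- deps: D_SHOM
-- imports: Pool.Agent.P.MP_dba3d2_lc.D.T0B
def S_D_AUT : Prop := ∀ (R : RT) (P : ℝ → R.W) (p q : ℝ), p < q → R.IsoOn P p q →
  ∀ N : ℝ → R.W, R.Eqv P p q N → (∀ t, N t ∈ R.QJ P p q) → ∀ s : R.QJ P p q ≃* R.QJ P p q,
  (∀ (g : R.QJ P p q) φ u v, R.Mover P p q g φ u v → (s g : R.W) = N (φ.ap u) * g * (N u)⁻¹) →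
  ∃ σ : R.T0 P p q ≃* R.T0 P p q, (∀ t : R.T0 P p q, R.Fr P p q 1 t → σ t = t) ∧
    ∀ u ∈ Icc p q, ∀ v ∈ Icc p q, ∀ (g : R.QJ P p q) (t : R.T0 P p q),
      (t : R.W) = (P u)⁻¹ * g * P v → (σ t : R.W) = (P u)⁻¹ * ((N u)⁻¹ * s g * N v) * P v

-- deps:
-- imports: Pool.Agent.P.MP_dba3d2_lc.D.T0B
def S_D_T0EQ : Prop := ∀ (R : RT) (P : ℝ → R.W) (p q p' q' : ℝ), R.IsoOn P p q → p ≤ p' → q' ≤ q →
  (∀ γ ∈ GI p q, ∃ g, ∃ β ∈ GI p' q', R.Mv P γ g β) →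
  (∀ x y, R.Fr P p' q' x y ↔ R.Fr P p q x y) ∧ R.T0 P p' q' = R.T0 P p q

-- deps:
-- imports: Pool.Agent.P.MP_dba3d2_lc.D.T0B
def S_D_QEQ : Prop := ∀ (R : LG) (P : ℝ → R.W) (p q p' q' : ℝ), p ≤ p' → p' < q' → q' ≤ q →
  (∀ γ ∈ GI p q, ∃ g, ∃ β ∈ GI p' q', R.Mv P γ g β) →
  (∀ γ : Gm, p < γ.c → γ.c < q → ∃ (g : R.W) (β : Gm), p' < β.c ∧ β.c < q' ∧ R.Mv P γ g β ∧
    R.Mv P γ.opp g β.opp) → R.QJ P p' q' = R.QJ P p q

/-! ### First return systems -/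

-- deps:
-- imports: Pool.Agent.P.MP_dba3d2_lc.D.LsB
def S_D_HULL : Prop := ∀ (A : Gm → ℝ → ℝ → Prop) (X : Set Gm) (L : LS X), L.Weak A →
  ∀ Ω₀ : Finset ℝ, ∃ Ω : Finset ℝ, Ω₀ ⊆ Ω ∧ L.Hull A Ω

-- deps:
-- imports: Pool.Agent.P.MP_dba3d2_lc.D.HullB
/-- short segments whose ends lie on two fixed regular leaves -/
def S_D_HULLN : Prop := ∀ (A : Gm → ℝ → ℝ → Prop), PG A → ∀ (X : Set Gm) (L : LS X) (Ω : Finset ℝ),
  L.Hull A Ω → ∃ Ω' : Finset ℝ, Ω ⊆ Ω' ∧ ∀ u v, u < v → GI u v ⊆ X →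
    ∃ z z', u < z ∧ z < z' ∧ z' < v ∧ (∀ t ∈ Icc z z', t ∉ Ω) ∧
      L.Hull A (insert z (insert z' Ω)) ∧
      ∀ β : Gm, β.c = z ∨ β.c = z' → ∃ α : Gm, α.c ∈ Ω' ∧ RW2 A α β

/-- the first return system `L` on `[z, z']`, whose ends belong to the singular set `Ω` -/
structure RCtx (A : Gm → ℝ → ℝ → Prop) {X : Set Gm} (L0 : LS X) {z z' : ℝ} (L : LS (GI z z'))
    (Ω : Finset ℝ) : Prop where
  pg : PG A
  weak : L0.Weak A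
  hull : L0.Hull A Ω
  ret : L.IsRet L0
  left : z ∈ Ω
  right : z' ∈ Ω
  free : Free Ω z z'

/-- the excursion of the state `y` up to its first return to `U` meets `Ω` -/
def Disc {X : Set Gm} (L0 : LS X) (U : Set Gm) (Ω : Finset ℝ) (y : Gm × Bool) : Prop :=
  ∃ k : ℕ, (L0.at' y k).c ∈ Ω ∧ ∀ j : ℕ, 0 < j → j < k → L0.at' y j ∉ U

-- deps:
-- imports: Pool.Agent.P.MP_dba3d2_lc.D.HullB
def S_D_DISC : Prop := ∀ (A : Gm → ℝ → ℝ → Prop) (X : Set Gm) (L0 : LS X) (z z' : ℝ)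
  (L : LS (GI z z')) (Ω : Finset ℝ), RCtx A L0 L Ω →
  (∀ y : Gm × Bool, y.1 ∈ GI z z' → Disc L0 (GI z z') Ω y → Disc L0 (GI z z') Ω (fl (L.f y))) ∧
  (∀ y : Gm × Bool, y.1 ∈ GI z z' → y.1.c ∉ Ω → Disc L0 (GI z z') Ω y →
    Disc L0 (GI z z') Ω (y.1.opp, y.2)) ∧
  (∀ y : Gm × Bool, y.1 ∈ GI z z' → ¬Disc L0 (GI z z') Ω y → z < y.1.c ∧ y.1.c < z' ∧
    L.f (y.1.opp, y.2) = ((L.f y).1.opp, (L.f y).2) ∧ RW2 A y.1 (L.f y).1) ∧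
  ∃ V : Finset ℝ, V.card ≤ 4 * Ω.card + 2 ∧
    ∀ t, t ∈ V ↔ ∃ y : Gm × Bool, y.1 ∈ GI z z' ∧ y.1.c = t ∧ Disc L0 (GI z z') Ω y

/-- the states between special points -/
def LS.DS {X : Set Gm} (L : LS X) (V : Finset ℝ) : Set (Gm × Bool) :=
  {y | y.1 ∈ X ∧ y.1.c ∈ V ∧ (L.f y).1.c ∈ V}

/-- every state lies in a band with a state between special points -/
def LS.Cov {X : Set Gm} (L : LS X) (A : Gm → ℝ → ℝ → Prop) (V : Finset ℝ) : Prop :=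
  ∀ y : Gm × Bool, y.1 ∈ X → ∃ y₁ ∈ L.DS V, ∃ φ u v, A φ u v ∧ y.1 ∈ GI u v ∧ y₁.1 ∈ GI u v ∧
    (L.f y).1 = φ * y.1 ∧ (L.f y₁).1 = φ * y₁.1

/-- outside the special points the graph of points is a forest -/
def LS.Ht {X : Set Gm} (L : LS X) (A : Gm → ℝ → ℝ → Prop) (V : Finset ℝ) : Prop :=
  ∃ h : ℝ → ℕ, (∀ t ∈ V, h t = 0) ∧
    (∀ y : Gm × Bool, y.1 ∈ X → y ∈ L.DS V ∨ h y.1.c ≠ h (L.f y).1.c) ∧
    ∀ y y' : Gm × Bool, y.1 ∈ X → y'.1 ∈ X → y.1.c = y'.1.c → h (L.f y).1.c < h y.1.c →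
      h (L.f y').1.c < h y'.1.c →
      y' = y ∨ (y'.1 = y.1.opp ∧ (L.f y').1 = (L.f y).1.opp ∧ RW2 A y.1 (L.f y).1)

-- deps: D_DISC
-- imports: Pool.Agent.P.MP_dba3d2_lc.D.HullB
def S_D_STAGE1 : Prop := ∀ (A : Gm → ℝ → ℝ → Prop) (X : Set Gm) (L0 : LS X) (z z' : ℝ)
  (L : LS (GI z z')) (Ω V : Finset ℝ), RCtx A L0 L Ω →
  (∀ t, t ∈ V ↔ ∃ y : Gm × Bool, y.1 ∈ GI z z' ∧ y.1.c = t ∧ Disc L0 (GI z z') Ω y) →
  (∀ t ∈ V, ∃ y ∈ L.DS V, y.1.c = t) ∧ L.Cov A V ∧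
  (∀ t ∈ V, t = z ∨ t = z' ∨ ∃ α β : Gm, α.c ∈ Ω ∧ β.c = t ∧ RW2 A α β) ∧
  ∀ α ∈ X, α.c ∈ Ω → ∃ β ∈ GI z z', β.c ∈ V ∧ L0.Rel α β

-- deps: D_DISC
-- imports: Pool.Agent.P.MP_dba3d2_lc.D.HullB
def S_D_STAGE2 : Prop := ∀ (A : Gm → ℝ → ℝ → Prop) (X : Set Gm) (L0 : LS X) (z z' : ℝ)
  (L : LS (GI z z')) (Ω V : Finset ℝ), RCtx A L0 L Ω →
  (∀ t, t ∈ V ↔ ∃ y : Gm × Bool, y.1 ∈ GI z z' ∧ y.1.c = t ∧ Disc L0 (GI z z') Ω y) → L.Ht A V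

/-- A stage: a saturated line system on a short segment with special points and anchors. -/
structure Stg (R : LG) (P : ℝ → R.W) (p q : ℝ) (Ω : Finset ℝ) (c : ℕ) where
  z : ℝ
  z' : ℝ
  L : LS (GI z z')
  V : Finset ℝ
  s : ℝ → R.W
  lo : p ≤ z
  hi : z' ≤ q
  sat : L.Sat (R.arc P p q)
  card : V.card ≤ c
  src : ∀ t ∈ V, ∃ y ∈ L.DS V, y.1.c = t
  cov : L.Cov (R.arc P p q) V
  ht : L.Ht (R.arc P p q) V
  anc : ∀ t ∈ V, ∃ α β : Gm, α.c ∈ Ω ∧ p < α.c ∧ α.c < q ∧ β.c = t ∧ R.Mv P α (s t) β ∧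
    R.Mv P α.opp (s t) β.opp

-- deps: D_HULLN D_RET D_DISC D_STAGE1 D_STAGE2
-- imports: Pool.Agent.P.MP_dba3d2_lc.D.HullB Pool.Agent.P.MP_dba3d2_lc.D.MvB
def S_D_STG : Prop := ∀ (R : LG) (P : ℝ → R.W) (p q : ℝ), R.Stb P p q → ∀ (X : Set Gm) (L0 : LS X)
  (Ω : Finset ℝ), L0.Sat (R.arc P p q) → L0.Hull (R.arc P p q) Ω →
  ∃ (Ω' : Finset ℝ) (c : ℕ), ∀ u v, u < v → GI u v ⊆ X → ∃ T : Stg R P p q Ω' c,
    u < T.z ∧ T.z' < v ∧ ∀ α ∈ X, α.c ∈ Ω → ∃ β ∈ GI T.z T.z', β.c ∈ T.V ∧ L0.Rel α β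

/-- One half of a matching of two stages. -/
structure Stg.Half {R : LG} {P : ℝ → R.W} {p q : ℝ} {Ω : Finset ℝ} {c : ℕ} (T T' : Stg R P p q Ω c)
    (N : ℝ → R.W) (θ θ' : R.W → R.W) : Prop where
  comm : ∀ t ∈ T.V, ∀ k ∈ R.KK P p q, Commute (N t) k
  mv : ∀ t ∈ T.V, ∃ β β' : Gm, β.c = t ∧ β'.c ∈ T'.V ∧ R.Mv P β (N t) β' ∧
    R.Mv P β.opp (N t) β'.opp
  val : ∀ y ∈ T.L.DS T.V, ∀ g, R.Mv P y.1 g (T.L.f y).1 →
    θ g = N (T.L.f y).1.c * g * (N y.1.c)⁻¹ ∧ θ' (θ g) = g ∧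
      ∃ y' ∈ T'.L.DS T'.V, R.Mv P y'.1 (θ g) (T'.L.f y').1

-- deps:
-- imports: Pool.Agent.P.MP_dba3d2_lc.D.MvB Pool.Agent.P.MP_dba3d2_lc.D.LsB
/-- one combinatorial type occurs infinitely often -/
def S_D_CODE : Prop := ∀ (R : LG) (P : ℝ → R.W) (p q : ℝ), R.Stb P p q → ∀ (Ω : Finset ℝ) (c : ℕ)
  (T : ℕ → Stg R P p q Ω c), ∃ n, ∀ m₀, ∃ m ≥ m₀, ∃ N N' θ θ',
    (T n).Half (T m) N θ θ' ∧ (T m).Half (T n) N' θ' θ

-- deps: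
def S_D_EXTEND : Prop := ∀ (G : Type) [Group G] (Vx E : Type) (src tgt : E → Vx) (a a' : E → G)
  (rev : E → E) (V : Set Vx) (Z : Subgroup G) (h : Vx → ℕ) (N₀ : Vx → G),
  (∀ e, src (rev e) = tgt e ∧ tgt (rev e) = src e ∧ a (rev e) = (a e)⁻¹ ∧ a' (rev e) = (a' e)⁻¹) →
  (∀ v ∈ V, h v = 0 ∧ N₀ v ∈ Z) →
  (∀ e, (src e ∈ V ∧ tgt e ∈ V ∧ N₀ (tgt e) * a e * (N₀ (src e))⁻¹ = a' e) ∨
    h (src e) ≠ h (tgt e)) →
  (∀ e, ∀ x ∈ Z, (a' e)⁻¹ * x * a e ∈ Z) →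
  (∀ e e', src e = src e' → h (tgt e) < h (src e) → h (tgt e') < h (src e') →
    tgt e = tgt e' ∧ ∀ x ∈ Z, (a' e)⁻¹ * x * a e = (a' e')⁻¹ * x * a e') →
  ∃ N : Vx → G, (∀ v ∈ V, N v = N₀ v) ∧ (∀ v, N v ∈ Z) ∧
    ∀ e, N (tgt e) * a e * (N (src e))⁻¹ = a' e

-- deps: D_EXTEND
-- imports: Pool.Agent.P.MP_dba3d2_lc.D.T0B Pool.Agent.P.MP_dba3d2_lc.D.LsB
def S_D_DEFORM : Prop := ∀ (R : LG) (P : ℝ → R.W) (p q : ℝ), R.Stb P p q → ∀ (Ω : Finset ℝ) (c : ℕ)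
  (T T' : Stg R P p q Ω c) (N₀ : ℝ → R.W) (θ θ' : R.W → R.W), T.Half T' N₀ θ θ' →
  (∀ t ∈ T.V, N₀ t ∈ R.QJ P T.z T.z') →
  ∃ N : ℝ → R.W, (∀ t ∈ T.V, N t = N₀ t) ∧ (∀ t, N t ∈ R.QJ P T.z T.z') ∧
    (∀ t, ∀ k ∈ R.KK P p q, Commute (N t) k) ∧ R.Eqv P T.z T.z' N

/-- the generators of the group of moves at a stage -/
def Stg.gens {R : LG} {P : ℝ → R.W} {p q : ℝ} {Ω : Finset ℝ} {c : ℕ} (T : Stg R P p q Ω c) :
    Set R.W := {g | g ∈ R.KK P p q ∨ ∃ y ∈ T.L.DS T.V, R.Mv P y.1 g (T.L.f y).1}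

-- deps:
-- imports: Pool.Agent.P.MP_dba3d2_lc.D.T0B Pool.Agent.P.MP_dba3d2_lc.D.LsB
def S_D_GENQ : Prop := ∀ (R : LG) (P : ℝ → R.W) (p q : ℝ), R.Stb P p q → ∀ (Ω : Finset ℝ) (c : ℕ)
  (T : Stg R P p q Ω c), Subgroup.closure T.gens = R.QJ P T.z T.z' ∧
    ∀ g ∈ R.QJ P T.z T.z', ∃ l : List R.W, (∀ x ∈ l, x ∈ T.gens) ∧ l.prod = g

-- deps: D_DEFORM D_GENQ D_SHOM D_AUT
-- imports: Pool.Agent.P.MP_dba3d2_lc.D.T0B Pool.Agent.P.MP_dba3d2_lc.D.LsB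
/-- matched stages give an automorphism that is short on words in the generators -/
def S_D_MATCH : Prop := ∀ (R : RT) (P : ℝ → R.W) (p q : ℝ), R.Stb P p q → ∀ (Ω : Finset ℝ) (c : ℕ)
  (T T' : Stg R.toLG P p q Ω c) (N N' : ℝ → R.W) (θ θ' : R.W → R.W), T.Half T' N θ θ' →
  T'.Half T N' θ' θ → R.QJ P T'.z T'.z' = R.QJ P T.z T.z' →
  (∀ t ∈ T.V, N t ∈ R.QJ P T.z T.z') → (∀ t ∈ T'.V, N' t ∈ R.QJ P T.z T.z') →
  ∃ σ : R.T0 P T.z T.z' ≃* R.T0 P T.z T.z',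
    (∀ t : R.T0 P T.z T.z', R.Fr P T.z T.z' 1 t → σ t = t) ∧
    ∀ u ∈ T.V, ∀ v ∈ T.V, ∀ l : List R.W, (∀ x ∈ l, x ∈ T.gens) → ∀ t : R.T0 P T.z T.z',
      (t : R.W) = (P u)⁻¹ * l.prod * P v → R.ℓ (σ t) ≤ (2 * l.length + 1) * (T'.z' - T'.z)

/-- shortening automorphisms of the convex subgroup of `[p, q]` -/
def LG.Short (R : LG) (P : ℝ → R.W) (p q : ℝ) : Prop :=
  ∀ (F : Finset ℝ) (η : ℝ), 0 < η → (∀ t ∈ F, t ∈ Icc p q) →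
    ∃ σ : R.T0 P p q ≃* R.T0 P p q, (∀ t : R.T0 P p q, R.Fr P p q 1 t → σ t = t) ∧
      ∀ u ∈ F, ∀ v ∈ F, ∀ t : R.T0 P p q, (t : R.W) = (P u)⁻¹ * P v → R.ℓ (σ t) ≤ η

-- deps: D_HULL D_STG D_CODE D_MATCH D_GENQ D_T0EQ D_QEQ
-- imports: Pool.Agent.P.MP_dba3d2_lc.D.T0B Pool.Agent.P.MP_dba3d2_lc.D.HullB
def S_D_TYPE : Prop := ∀ (R : RT) (P : ℝ → R.W) (p q : ℝ), R.Stb P p q → ∀ (X : Set Gm) (L : LS X),
  L.Sat (R.arc P p q) → ∃ p' q', p ≤ p' ∧ p' < q' ∧ q' ≤ q ∧ GI p' q' ⊆ X ∧ R.Short P p' q'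

/-! ### The third outcome -/

/-- A mesh whose cells are pieces of families of finite orbits, arcs of `[p, q]` or free. -/
structure LG.Part (R : LG) (P : ℝ → R.W) (A : Finset R.W) {ι : Type} (S : Sys ι) (a : R.W → ℝ)
    (p q : ℝ) (E : Finset ℝ) (EG : Finset Gm) (r : Gm → ℝ) : Prop where
  fam : S.Fam (R.secs a A) ∅ EG r
  ends : ∀ w ∈ A, a w ∈ E ∧ a w + R.ℓ w ∈ E
  piece : ∀ γ ∈ EG, ∃ s ∈ E, ∃ t ∈ E, s < t ∧ Free E s t ∧ seg γ (r γ) = GI s t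
  cell : ∀ s ∈ E, ∀ t ∈ E, s < t → Free E s t → GI s t ⊆ R.secs a A →
    (∃ γ ∈ EG, seg γ (r γ) = GI s t) ∨ R.JA P p q (P s) (P t) ∨ R.Fr P p q (P s) (P t)

-- deps: D_MINC D_FAM
-- imports: Pool.Agent.P.MP_dba3d2_lc.D.T0B
def S_D_PART : Prop := ∀ (R : RT) (A : Finset R.W) (ι : Type) [Fintype ι] (S : Sys ι)
  (P : ℝ → R.W) (g : ι → R.W) (a : R.W → ℝ) (p q : ℝ), R.Setup P A S g a → R.IsoOn P p q →
  ∃ E EG r, R.Part P A S a p q E EG r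

/-- The values of the cells: elements of the convex subgroup, or letters. -/
structure LG.Vals (R : LG) (P : ℝ → R.W) (A : Finset R.W) (a : R.W → ℝ) (p q : ℝ) (E : Finset ℝ)
    {k : ℕ} (y : Fin k → R.W) (n : ℝ → Monoid.Coprod (R.T0 P p q) (FreeGroup (Fin k))) : Prop where
  np : ∀ i, 0 < R.ℓ (y i) ∧ ¬R.Per 1 (y i)
  arc : ∀ s ∈ E, ∀ t ∈ E, s < t → Free E s t → GI s t ⊆ R.secs a A →
    R.JA P p q (P s) (P t) ∨ R.Fr P p q (P s) (P t) →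
    ∃ x : R.T0 P p q, (x : R.W) = (P s)⁻¹ * P t ∧ (n s)⁻¹ * n t = Monoid.Coprod.inl x
  lett : ∀ s ∈ E, ∀ t ∈ E, s < t → Free E s t → GI s t ⊆ R.secs a A →
    ¬(R.JA P p q (P s) (P t) ∨ R.Fr P p q (P s) (P t)) →
    ∃ (i : Fin k) (z z' : R.T0 P p q) (s' t' : ℝ), (s' = s ∧ t' = t ∨ s' = t ∧ t' = s) ∧
      R.ℓ z = 0 ∧ R.ℓ z' = 0 ∧ R.ℓ (y i) = t - s ∧ (P s')⁻¹ * P t' = z * y i * z' ∧
      (n s')⁻¹ * n t' =
        Monoid.Coprod.inl z * Monoid.Coprod.inr (FreeGroup.of i) * Monoid.Coprod.inl z'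

-- deps: D_EXT
-- imports: Pool.Agent.P.MP_dba3d2_lc.D.T0B
def S_D_IOTA : Prop := ∀ (R : RT) (A : Finset R.W) (ι : Type) (S : Sys ι) (P : ℝ → R.W)
  (g : ι → R.W) (a : R.W → ℝ) (p q : ℝ) (E : Finset ℝ) (EG : Finset Gm) (r : Gm → ℝ),
  R.Setup P A S g a → R.IsoOn P p q → (∀ u v, p ≤ u → u < v → v ≤ q → ¬R.Per (P u) (P v)) →
  R.Part P A S a p q E EG r →
  ∃ (k : ℕ) (y : Fin k → R.W) (n : ℝ → Monoid.Coprod (R.T0 P p q) (FreeGroup (Fin k))),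
    R.Vals P A a p q E y n ∧
    ∀ (G : Type) [Group G] (j : R.T0 P p q →* G) (u : Fin k → G),
      (∀ i (h h' : R.T0 P p q), R.Stab 1 (y i) h → (h' : R.W) = (y i)⁻¹ * h * y i →
        (u i)⁻¹ * j h * u i = j h') →
      ∀ (j' : R.W → G) (m : ℝ → G), (∀ z : R.T0 P p q, j' z = j z) →
        (∀ t, m t = Monoid.Coprod.lift j (FreeGroup.lift u) (n t)) →
        ∀ i s t, s < t → S.dom i = GI s t →
          m ((S.φ i).ap s) * j' (R.zeta P (g i) (S.φ i) s) * (m s)⁻¹ =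
            m ((S.φ i).ap t) * j' (R.zeta P (g i) (S.φ i) t) * (m t)⁻¹

-- deps: D_EXT D_PART D_IOTA
-- imports: Pool.Agent.P.MP_dba3d2_lc.D.T0B
def S_D_OUT3 : Prop := ∀ (R : RT) (M : Subgroup R.W) (A : Finset R.W) (k : ℕ) (x : Fin k → R.W)
  (ι : Type) [Fintype ι] (S : Sys ι) (P : ℝ → R.W) (g : ι → R.W) (a : R.W → ℝ) (p q : ℝ),
  R.Setup P A S g a → (∀ i, x i ∈ A) → R.IsoOn P p q →
  (∀ u v, p ≤ u → u < v → v ≤ q → ¬R.Per (P u) (P v)) → (∀ β ∈ GI p q, ¬R.HGm P M β) →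
  (∃ i, ∃ γ ∈ R.sec a (x i), (S.orb γ).Infinite ∧ ∃ β ∈ GI p q, S.Rel γ β) →
  R.Short P p q → Out3 R.toLG M A x

-- deps: D_MINC D_STB D_INDUCE D_SAT D_GOODTHIN D_STRIP D_PB1 D_PB2 D_TYPE D_OUT3
-- imports: Pool.Agent.P.MP_dba3d2_lc.D.T0B Pool.Agent.P.MP_dba3d2_lc.D.LsB
/-- the bad germ has an infinite orbit -/
def S_D_CASEI : Prop := ∀ (R : RT) (e : ℕ), R.Ax e → ∀ (M : Subgroup R.W) (A : Finset R.W) (k : ℕ)
  (x : Fin k → R.W) (ι : Type) [Fintype ι] (S : Sys ι) (P : ℝ → R.W) (g : ι → R.W) (a : R.W → ℝ),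
  R.Setup P A S g a → (∀ i, x i ∈ A) → ∀ i, ∀ γ ∈ R.sec a (x i), ¬R.HGm P M γ →
  (S.orb γ).Infinite → Out1 R.toLG M A x ∨ Out2 R.toLG M A x ∨ Out3 R.toLG M A x

end Pool.Agent.P.MP_dba3d2_lc


end

section

/-! Chapter D toolbox: leaves away from the singular points. -/

namespace Pool.Agent.P.MP_dba3d2_lc

open Set Filter Topology

namespace LS.Hull

variable {A : Gm → ℝ → ℝ → Prop} {X : Set Gm} {L : LS X} {Ω : Finset ℝ} {y : Gm × Bool} {γ : Gm}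

/-- the opposite germ follows along a stretch that misses `Ω` -/
theorem par_pow (H : L.Hull A Ω) (hy : y.1 ∈ X) (n : ℕ) (h : ∀ k : ℕ, k < n → (L.at' y k).c ∉ Ω) :
    (L.f ^ n) (y.1.opp, y.2) = (((L.f ^ n) y).1.opp, ((L.f ^ n) y).2) := by
  induction n with
  | zero => rfl
  | succ n ih =>
    have h1 := (H.par ((L.f ^ n) y) (by rw [← L.at_nat]; exact L.at_mem hy n)
      (by rw [← L.at_nat]; exact h n (Nat.lt_succ_self n))).2.1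
    rw [pow_succ', Equiv.Perm.mul_apply, Equiv.Perm.mul_apply,
      ih fun k hk => h k (hk.trans (Nat.lt_succ_self n)), h1]
theorem at_opp (H : L.Hull A Ω) (hy : y.1 ∈ X) (n : ℕ) (h : ∀ k : ℕ, k < n → (L.at' y k).c ∉ Ω) :
    L.at' (y.1.opp, y.2) n = (L.at' y n).opp := by
  rw [L.at_nat, L.at_nat, H.par_pow hy n h]
theorem rw2_pow (P : PG A) (H : L.Hull A Ω) (hy : y.1 ∈ X) {n : ℕ} (hn : 0 < n)
    (h : ∀ k : ℕ, k < n → (L.at' y k).c ∉ Ω) : RW2 A y.1 (L.at' y n) := by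
  have := L.rw2_stretch (y := y) (m := 0) (n := n) P (by exact_mod_cast hn) fun k h0 h1 => by
    lift k to ℕ using h0
    exact (H.par _ (L.at_mem hy k) (h k (by exact_mod_cast h1))).2.2.1
  rwa [L.at_zero] at this
theorem rw2_refl (P : PG A) (H : L.Hull A Ω) (hγ : γ ∈ X) (h : γ.c ∉ Ω) : RW2 A γ γ := by
  have k := (H.par (γ, true) hγ h).2.2.1
  exact P.rw2_trans k (P.rw2_symm k)
/-- such a stretch does not come back to its first point -/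
theorem pt_ne (H : L.Hull A Ω) (hy : y.1 ∈ X) {n : ℕ} (hn : 0 < n)
    (h : ∀ k : ℕ, k < n → (L.at' y k).c ∉ Ω) : (L.at' y n).c ≠ y.1.c := by
  intro e
  have e1 : L.at' y n = y.1.opp := by
    refine (Gm.eq_or_opp e).resolve_left fun k => ?_
    have := L.at_inj hy (k.trans (L.at_zero y).symm)
    omega
  have e2 := H.par_pow hy n h
  rw [L.at_nat] at e1
  rw [e1, Gm.opp_opp] at e2
  by_cases hb : ((L.f ^ n) y).2 = y.2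
  · have e3 : (L.f ^ n) y = (y.1.opp, y.2) := Prod.ext e1 hb
    have e4 : L.at' y (n + n) = L.at' y 0 := by
      rw [← L.at_add, L.at_zero, zpow_natCast, e3, L.at_nat, e2]
    have := L.at_inj hy e4
    omega
  · have e3 : (L.f ^ (n : ℤ)) y = fl (y.1.opp, y.2) := by
      rw [zpow_natCast]
      exact Prod.ext e1 (Bool.eq_not.2 hb)
    have key : ∀ m : ℕ, m ≤ n → L.at' y (n - m) = (L.at' y m).opp := fun m hm => by
      rw [← H.at_opp hy m fun k hk => h k (hk.trans_le hm), sub_eq_neg_add, ← L.at_add, e3,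
        L.at_fl, neg_neg]
    obtain ⟨m, rfl | rfl⟩ := Nat.even_or_odd' n
    · have k := key m (by omega)
      rw [show ((2 * m : ℕ) : ℤ) - m = m by push_cast; ring] at k
      exact Gm.opp_ne _ k.symm
    · have k := key m (by omega)
      rw [show ((2 * m + 1 : ℕ) : ℤ) - m = 1 + m by push_cast; ring, ← L.at_add, L.at_one] at k
      refine (H.par ((L.f ^ (m : ℤ)) y) (L.at_mem hy m) (h m (by omega))).2.2.2 ?_
      rw [k, Gm.opp_c]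
      rfl
/-- one of the two half leaves misses `Ω` -/
theorem half_free (H : L.Hull A Ω) (hγ : γ ∈ X) (h : γ.c ∉ Ω) :
    ∃ e, ∀ n : ℕ, (L.at' (γ, e) n).c ∉ Ω := by
  by_contra hc
  push Not at hc
  obtain ⟨m, hm⟩ := hc false
  obtain ⟨n, hn⟩ := hc true
  rw [show (γ, false) = fl (γ, true) from rfl, L.at_fl] at hm
  have := H.cvx (γ, true) hγ (-m) 0 n (by omega) (by omega) hm hn
  rw [L.at_zero] at this
  exact h this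
/-- leaves that miss `Ω` -/
theorem at_opp_int (H : L.Hull A Ω) (hy : y.1 ∈ X) (h : ∀ n : ℤ, (L.at' y n).c ∉ Ω) (n : ℤ) :
    L.at' (y.1.opp, y.2) n = (L.at' y n).opp := by
  obtain ⟨m, rfl | rfl⟩ := Int.eq_nat_or_neg n
  · exact H.at_opp hy m fun k _ => h k
  · rw [← L.at_fl, ← L.at_fl]
    exact H.at_opp (y := fl y) hy m fun k _ => by rw [L.at_fl]; exact h _
theorem pt_inj (H : L.Hull A Ω) (hy : y.1 ∈ X) (h : ∀ n : ℤ, (L.at' y n).c ∉ Ω) {m n : ℤ}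
    (e : (L.at' y m).c = (L.at' y n).c) : m = n := by
  have key : ∀ a b : ℤ, a < b → (L.at' y b).c ≠ (L.at' y a).c := fun a b hab => by
    obtain ⟨k, rfl⟩ := Int.le.dest hab.le
    have := H.pt_ne (y := (L.f ^ a) y) (L.at_mem hy a) (n := k) (by omega)
      fun j _ => by rw [L.at_add]; exact h _
    rwa [L.at_add, add_comm] at this
  rcases lt_trichotomy m n with k | k | k
  · exact absurd e.symm (key _ _ k)
  · exact k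
  · exact absurd e (key _ _ k)
theorem rw2_int (P : PG A) (H : L.Hull A Ω) (hy : y.1 ∈ X) (h : ∀ n : ℤ, (L.at' y n).c ∉ Ω)
    (m n : ℤ) : RW2 A (L.at' y m) (L.at' y n) := by
  have key : ∀ a b : ℤ, a < b → RW2 A (L.at' y a) (L.at' y b) := fun a b hab =>
    L.rw2_stretch P hab fun k _ _ => (H.par _ (L.at_mem hy k) (h k)).2.2.1
  rcases lt_trichotomy m n with k | rfl | k
  · exact key _ _ k
  · exact H.rw2_refl P (L.at_mem hy m) (h m)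
  · exact P.rw2_symm (key _ _ k)
/-- every turn off `Ω` recurs in every segment -/
theorem turn (P : PG A) (H : L.Hull A Ω) (hγ : γ ∈ X) (h : γ.c ∉ Ω) {u v : ℝ} (huv : u < v)
    (hX : GI u v ⊆ X) : ∃ β : Gm, u < β.c ∧ β.c < v ∧ L.Rel γ β ∧ RW2 A γ β := by
  obtain ⟨e, he⟩ := H.half_free hγ h
  have hs : GI ((2 * u + v) / 3) ((u + 2 * v) / 3) ⊆ X :=
    (GI_mono (by linarith) (by linarith)).trans hX
  obtain ⟨B, hB⟩ := L.exists_visit (U := GI ((2 * u + v) / 3) ((u + 2 * v) / 3)) isOpen_GI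
    (by rw [inter_eq_left.2 hs]; exact GI_nonempty.2 (by linarith))
  obtain ⟨n, h0, -, h1⟩ := hB (γ, e) hγ
  exact ⟨_, by linarith [h1.1], by linarith [h1.2.1], (L.rel_iff e).2 ⟨n, rfl⟩,
    H.rw2_pow (y := (γ, e)) P hγ h0 fun k _ => he k⟩

end LS.Hull

end Pool.Agent.P.MP_dba3d2_lc


end

section

/-! Chapter D toolbox: arcs of a segment, free arcs, the convex subgroup. -/

namespace Pool.Agent.P.MP_dba3d2_lc

open Set Filter Topology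

namespace LG

variable {R : LG} {P P' : ℝ → R.W} {g x y x' y' z : R.W} {φ β γ : Gm} {p q u v a b : ℝ}

theorem JA.symm (h : R.JA P p q x y) : R.JA P p q y x := by
  obtain ⟨w, u, hu, v, hv, h1, h2⟩ := h
  exact ⟨w, v, hv, u, hu, h2, h1⟩
theorem JA.congr (h : R.JA P p q x y) (h1 : R.d x x' = 0) (h2 : R.d y y' = 0) : R.JA P p q x' y' := by
  obtain ⟨w, u, hu, v, hv, k1, k2⟩ := h
  exact ⟨w, u, hu, v, hv, d_zero_trans (d_zero_symm h1) k1, d_zero_trans (d_zero_symm h2) k2⟩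
theorem ja_mul_left (g : R.W) : R.JA P p q (g * x) (g * y) ↔ R.JA P p q x y := by
  have key : ∀ g x y : R.W, R.JA P p q x y → R.JA P p q (g * x) (g * y) := by
    rintro g x y ⟨w, u, hu, v, hv, k1, k2⟩
    exact ⟨g * w, u, hu, v, hv, by rwa [mul_assoc, d_mul_left], by rwa [mul_assoc, d_mul_left]⟩
  refine ⟨fun h => ?_, key g x y⟩
  have k := key g⁻¹ _ _ h
  rwa [inv_mul_cancel_left, inv_mul_cancel_left] at k
theorem ja_self (hu : u ∈ Icc p q) (hv : v ∈ Icc p q) : R.JA P p q (P u) (P v) :=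
  ⟨1, u, hu, v, hv, by simp, by simp⟩
theorem JA.mono (h : R.JA P p q x y) (h1 : a ≤ p) (h2 : q ≤ b) : R.JA P a b x y := by
  obtain ⟨w, u, hu, v, hv, k⟩ := h
  exact ⟨w, u, Icc_subset_Icc h1 h2 hu, v, Icc_subset_Icc h1 h2 hv, k⟩
theorem Fr.symm (h : R.Fr P p q x y) : R.Fr P p q y x :=
  fun x' y' h1 h2 => h x' y' h1.symm h2.symm
theorem Fr.congr (h : R.Fr P p q x y) (h1 : R.d x x' = 0) (h2 : R.d y y' = 0) : R.Fr P p q x' y' :=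
  fun s t k1 k2 => h s t (k1.congr (d_self _) (d_zero_symm h1) (d_zero_symm h2))
    (k2.congr (d_self _) (d_zero_symm h1) (d_zero_symm h2))
theorem fr_mul_left (g : R.W) : R.Fr P p q (g * x) (g * y) ↔ R.Fr P p q x y := by
  have key : ∀ g x y : R.W, R.Fr P p q (g * x) (g * y) → R.Fr P p q x y :=
    fun g x y h s t k1 k2 k3 => (d_mul_left g s t).symm.trans
      (h _ _ ((on_mul_left g).2 k1) ((on_mul_left g).2 k2) ((ja_mul_left g).2 k3))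
  refine ⟨key g x y, fun h => key g⁻¹ _ _ ?_⟩
  rwa [inv_mul_cancel_left, inv_mul_cancel_left]
theorem fr_of_d_zero (h : R.d x y = 0) : R.Fr P p q x y := by
  have key : ∀ s, R.On s x y → R.d x s = 0 := fun s k => by
    unfold On at k
    linarith [d_nonneg x s, d_nonneg s y]
  exact fun s t k1 k2 _ => d_zero_trans (d_zero_symm (key s k1)) (key t k2)
theorem fr_tiny (h : R.ℓ z = 0) : R.Fr P p q 1 z :=
  fr_of_d_zero ((d_one z).trans h)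
theorem Fr.d_zero (h : R.Fr P p q x y) (k : R.JA P p q x y) : R.d x y = 0 :=
  h x y (on_left x y) (on_right x y) k
theorem JA.mem_T0 (h : R.JA P p q x y) : x⁻¹ * y ∈ R.T0 P p q := by
  have k := (ja_mul_left x⁻¹).2 h
  rw [inv_mul_cancel] at k
  exact Subgroup.subset_closure (Or.inl k)
theorem Fr.mem_T0 (h : R.Fr P p q x y) : x⁻¹ * y ∈ R.T0 P p q := by
  have k := (fr_mul_left x⁻¹).2 h
  rw [inv_mul_cancel] at k
  exact Subgroup.subset_closure (Or.inr k)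
theorem tiny_mem_T0 (h : R.ℓ z = 0) : z ∈ R.T0 P p q :=
  Subgroup.subset_closure (Or.inr (fr_tiny h))
theorem path_mem_T0 (hu : u ∈ Icc p q) (hv : v ∈ Icc p q) : (P u)⁻¹ * P v ∈ R.T0 P p q :=
  (ja_self hu hv).mem_T0
theorem conj_mem_T0 (hg : g ∈ R.QJ P p q) (hu : u ∈ Icc p q) (hv : v ∈ Icc p q) :
    (P u)⁻¹ * g * P v ∈ R.T0 P p q := by
  induction hg using Subgroup.closure_induction generalizing u v with
  | mem g hg =>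
    obtain ⟨φ, s, t, h1, h2, h3⟩ := hg
    have hs : s ∈ Icc s t := ⟨le_rfl, h1.le⟩
    have e : (P u)⁻¹ * g * P v =
        (P u)⁻¹ * P (φ.ap s) * R.zeta P g φ s * ((P s)⁻¹ * P v) := by
      rw [zeta]; group
    rw [e]
    exact mul_mem (mul_mem (path_mem_T0 hu (h2 s hs).2) (tiny_mem_T0 (h3.zeta hs)))
      (path_mem_T0 (h2 s hs).1 hv)
  | one => rw [mul_one]; exact path_mem_T0 hu hv
  | mul g g' _ _ h1 h2 =>
    have e : (P u)⁻¹ * (g * g') * P v = (P u)⁻¹ * g * P u * ((P u)⁻¹ * g' * P v) := by group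
    rw [e]
    exact mul_mem (h1 hu hu) (h2 hu hv)
  | inv g _ h1 =>
    have e : (P u)⁻¹ * g⁻¹ * P v = ((P v)⁻¹ * g * P u)⁻¹ := by group
    rw [e]
    exact inv_mem (h1 hv hu)
theorem kk_mem_QJ {p0 q0 : ℝ} (hg : g ∈ R.KK P p0 q0) (h0 : p0 ≤ p) (h : p < q) (h1 : q ≤ q0) :
    g ∈ R.QJ P p q :=
  Subgroup.subset_closure ⟨1, p, q, h, fun t ht => ⟨ht, by rwa [Gm.one_ap]⟩, Rl.mono hg h0 h1⟩
/-- a germ that moves into `[p, q]` starts an arc -/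
theorem Mv2.ja (h : R.Mv2 P' P γ g β) (hβ : β ∈ GI p q) :
    ∃ r > 0, ∀ s ∈ Icc 0 r, ∀ t ∈ Icc 0 r, R.JA P p q (P' (γ.ap s)) (P' (γ.ap t)) := by
  obtain ⟨r, h1, h2⟩ := h
  obtain ⟨r', k1, k2⟩ := mem_GI_iff.1 hβ
  have key : ∀ s ∈ Icc 0 (min r r'),
      β.ap s ∈ Icc p q ∧ R.d (P' (γ.ap s)) (g⁻¹ * P (β.ap s)) = 0 := fun s hs =>
    ⟨k2 s ⟨hs.1, hs.2.trans (min_le_right _ _)⟩, by
      rw [← d_inv_mul, inv_inv]
      exact h2 s ⟨hs.1, hs.2.trans (min_le_left _ _)⟩⟩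
  exact ⟨min r r', lt_min h1 k1, fun s hs t ht =>
    ⟨g⁻¹, _, (key s hs).1, _, (key t ht).1, (key s hs).2, (key t ht).2⟩⟩

end LG

namespace RT

variable {R : RT} {P P' : ℝ → R.W} {g x y x' y' : R.W} {β γ : Gm} {p q u v a b : ℝ}

theorem ja_sub (hP : R.IsoOn P p q) (h : R.JA P p q x y) (h1 : R.On x' x y) (h2 : R.On y' x y) :
    R.JA P p q x' y' := by
  obtain ⟨w, u, hu, v, hv, k1, k2⟩ := h
  have key : ∀ z, R.On z x y → ∃ t ∈ Icc p q, R.d z (w * P t) = 0 := fun z hz => by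
    have a1 := (LG.on_mul_left w⁻¹).2 (hz.congr (LG.d_self _) k1 k2)
    rw [inv_mul_cancel_left, inv_mul_cancel_left] at a1
    obtain ⟨t, ht, e⟩ := R.exists_param hP hu hv a1
    exact ⟨t, uIcc_subset_Icc hu hv ht, (LG.d_inv_mul _ _ _).symm.trans e⟩
  obtain ⟨s, hs, e1⟩ := key x' h1
  obtain ⟨t, ht, e2⟩ := key y' h2
  exact ⟨w, s, hs, t, ht, e1, e2⟩
theorem fr_sub (h : R.Fr P p q x y) (h1 : R.On x' x y) (h2 : R.On y' x y) : R.Fr P p q x' y' :=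
  fun s t k1 k2 => h s t (R.on_sub h1 h2 k1) (R.on_sub h1 h2 k2)
theorem fr_of_per (hP : ∀ u v, p ≤ u → u < v → v ≤ q → ¬R.Per (P u) (P v)) (h : R.Per x y) :
    R.Fr P p q x y := by
  rintro s t k1 k2 ⟨w, u, hu, v, hv, e1, e2⟩
  have k := (LG.per_mul_left w).1 ((R.per_sub h k1 k2).congr e1 e2)
  rcases lt_trichotomy u v with e | rfl | e
  · exact (hP u v hu.1 e hv.2 k).elim
  · exact LG.d_zero_trans e1 (LG.d_zero_symm e2)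
  · exact (hP v u hv.1 e hu.2 k.symm).elim
/-- a segment of an isometric path is free iff none of its germs moves into `[p, q]` -/
theorem fr_iff (hP : R.IsoOn P p q) (hP' : R.IsoOn P' a b) (hu : a ≤ u) (huv : u ≤ v) (hv : v ≤ b) :
    R.Fr P p q (P' u) (P' v) ↔ ∀ γ ∈ GI u v, ∀ g, ∀ β ∈ GI p q, ¬R.Mv2 P' P γ g β := by
  have hu' : u ∈ Icc a b := ⟨hu, huv.trans hv⟩
  have hv' : v ∈ Icc a b := ⟨hu.trans huv, hv⟩
  constructor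
  · intro h γ hγ g β hβ k
    obtain ⟨r, h1, h2⟩ := k.ja hβ
    obtain ⟨r', k1, k2⟩ := mem_GI_iff.1 hγ
    have m0 := lt_min h1 k1
    have a1 := k2 0 ⟨le_rfl, k1.le⟩
    have a2 := k2 (min r r') ⟨m0.le, min_le_right _ _⟩
    have e := h _ _ (hP'.on hu' hv' (Icc_subset_uIcc a1)) (hP'.on hu' hv' (Icc_subset_uIcc a2))
      (h2 0 ⟨le_rfl, h1.le⟩ (min r r') ⟨m0.le, min_le_left _ _⟩)
    rw [hP' _ (Icc_subset_Icc hu hv a1) _ (Icc_subset_Icc hu hv a2), Gm.abs_ap_sub, zero_sub,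
      abs_neg, abs_of_pos m0] at e
    exact m0.ne' e
  · rintro h x y k1 k2 ⟨w, s', hs', t', ht', e1, e2⟩
    obtain ⟨s, hs, a1⟩ := R.exists_param hP' hu' hv' k1
    obtain ⟨t, ht, a2⟩ := R.exists_param hP' hu' hv' k2
    by_contra hne
    have hst : min s t < max s t := min_lt_max.2 fun e =>
      hne (LG.d_zero_trans a1 (LG.d_zero_symm (e ▸ a2)))
    obtain ⟨φ, -, -, k⟩ := R.exists_gm (g := w⁻¹) hP' hP (uIcc_subset_Icc hu' hv' hs)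
      (uIcc_subset_Icc hu' hv' ht) hs' ht'
      ((LG.d_inv_mul _ _ _).trans (LG.d_zero_trans (LG.d_zero_symm a1) e1))
      ((LG.d_inv_mul _ _ _).trans (LG.d_zero_trans (LG.d_zero_symm a2) e2))
    rw [uIcc_of_le huv] at hs ht
    have hγ : Gm.tau (min s t) ∈ GI (min s t) (max s t) := tau_mem_GI.2 ⟨le_rfl, hst⟩
    refine h _ (GI_mono (le_min hs.1 ht.1) (max_le hs.2 ht.2) hγ) w⁻¹ _
      (mul_mem_GI hγ fun z hz => uIcc_subset_Icc hs' ht' (k z hz).1)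
      ⟨max s t - min s t, sub_pos.2 hst, fun z hz => ?_⟩
    rw [Gm.mul_ap, Gm.tau_ap]
    exact (k _ ⟨by linarith [hz.1], by linarith [hz.2]⟩).2
theorem fr_of_not_hgm {M : Subgroup R.W} (hP : R.IsoOn P p q) (h : ∀ β ∈ GI p q, ¬R.HGm P M β)
    (k : R.HArc M x y) : R.Fr P p q x y := by
  rintro s t k1 k2 ⟨w, u, hu, v, hv, e1, e2⟩
  have a := (LG.harc_mul_left w).1 ((R.harc_sub k k1 k2).congr e1 e2)
  by_contra hne
  have huv : min u v < max u v := min_lt_max.2 fun e =>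
    hne (LG.d_zero_trans e1 (LG.d_zero_symm (e ▸ e2)))
  refine h (Gm.tau (min u v)) (tau_mem_GI.2 ⟨le_min hu.1 hv.1, huv.trans_le (max_le hu.2 hv.2)⟩)
    ⟨max u v - min u v, sub_pos.2 huv, fun z hz => ?_⟩
  rw [Gm.tau_ap, Gm.tau_c]
  exact R.harc_sub a (hP.on hu hv ⟨le_rfl, huv.le⟩)
    (hP.on hu hv ⟨by linarith [hz.1], by linarith [hz.2]⟩)

end RT

end Pool.Agent.P.MP_dba3d2_lc


end

section

/-! Interface, chapter D: the machine for systems of isometries of a real tree. -/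

namespace Pool.Agent.P.MP_dba3d2_lc

-- deps: D_SETUP D_BAD D_CASEF D_CASEI
def S_MACH : Prop := ∀ (R : RT) (e : ℕ), R.Ax e → ∀ (M : Subgroup R.W) (A : Finset R.W) (k : ℕ)
  (x : Fin k → R.W), (∀ i, x i ∈ A) → ¬ (∀ i, R.Cov M (x i)) →
  Out1 R.toLG M A x ∨ Out2 R.toLG M A x ∨ Out3 R.toLG M A x

end Pool.Agent.P.MP_dba3d2_lc


end
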