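import Pool.Agent.P.MP_dba3d2_lcM.Db47
import Pool.Agent.P.MP_dba3d2_lcM.Db49
import Pool.Agent.P.MP_dba3d2_lcM.Db53
import Pool.Agent.P.MP_dba3d2_lcM.Db59

section

/-! Step D_STAGE2 of the stability project. -/

namespace Pool.Agent.P.MP_dba3d2_lc

open Set Filter Topology

namespace D_stage2A

variable {A : Gm → ℝ → ℝ → Prop} {X : Set Gm} {L0 : LS X} {z z' : ℝ} {L : LS (GI z z')}
  {Ω V : Finset ℝ} {W : Set ℝ} {y : Gm × Bool} {γ β : Gm}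

/-- germs whose leaf misses `Ω` -/
def Reg (L0 : LS X) (Ω : Finset ℝ) (γ : Gm) : Prop := γ ∈ X ∧ ∀ β, L0.Rel γ β → β.c ∉ Ω
/-- the points of the leaf inside the segment -/
def PL (L0 : LS X) (z z' : ℝ) (γ : Gm) : Set ℝ :=
  {t | z < t ∧ t < z' ∧ ∃ β, L0.Rel γ β ∧ β.c = t}

theorem Reg.rel (h : Reg L0 Ω γ) (k : L0.Rel γ β) : Reg L0 Ω β :=
  ⟨k.mem h.1, fun α e => h.2 α (k.trans e)⟩

theorem PL_rel (k : L0.Rel γ β) : PL L0 z z' γ = PL L0 z z' β :=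
  Set.ext fun _ => and_congr_right fun _ => and_congr_right fun _ =>
    ⟨fun ⟨α, a, b⟩ => ⟨α, k.symm.trans a, b⟩, fun ⟨α, a, b⟩ => ⟨α, k.trans a, b⟩⟩

theorem Reg.opp (H : L0.Hull A Ω) (h : Reg L0 Ω γ) :
    Reg L0 Ω γ.opp ∧ PL L0 z z' γ.opp = PL L0 z z' γ := by
  have k := H.at_opp_int (y := (γ, true)) h.1 fun n => h.2 _ ⟨n, rfl⟩
  refine ⟨⟨(H.par (γ, true) h.1 (h.2 _ (L0.rel_refl γ))).1, ?_⟩, Set.ext fun t =>
    and_congr_right fun _ => and_congr_right fun _ => ⟨?_, ?_⟩⟩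
  · rintro _ ⟨n, rfl⟩
    rw [k n, Gm.opp_c]
    exact h.2 _ ⟨n, rfl⟩
  · rintro ⟨_, ⟨n, rfl⟩, e⟩
    exact ⟨_, ⟨n, rfl⟩, by rwa [k n, Gm.opp_c] at e⟩
  · rintro ⟨_, ⟨n, rfl⟩, e⟩
    exact ⟨_, ⟨n, rfl⟩, by rwa [k n, Gm.opp_c]⟩

/-- `W` contains `Ω` and one point of every regular leaf -/
structure Rt (L0 : LS X) (z z' : ℝ) (Ω : Finset ℝ) (W : Set ℝ) : Prop where
  sub : ∀ t ∈ Ω, t ∈ W
  ne : ∀ y : Gm × Bool, y.1 ∈ X → ∃ n, (L0.at' y n).c ∈ W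
  alt : ∀ y : Gm × Bool, y.1 ∈ X → ∀ n, (L0.at' y n).c ∈ W → (L0.at' y n).c ∈ Ω ∨
    (L0.at' y n ∈ GI z z' ∧ ∀ m, (L0.at' y m).c ∈ W → m = n)

theorem exists_rt (C : RCtx A L0 L Ω) : ∃ W, Rt L0 z z' Ω W := by
  obtain ⟨rt, h1, h2⟩ : ∃ rt : Gm → ℝ, (∀ γ, Reg L0 Ω γ → rt γ ∈ PL L0 z z' γ) ∧
      ∀ γ β, PL L0 z z' γ = PL L0 z z' β → rt γ = rt β := by
    refine ⟨fun γ => Classical.epsilon (· ∈ PL L0 z z' γ), fun γ h => Classical.epsilon_spec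
      (p := (· ∈ PL L0 z z' γ)) ?_, fun γ β e => by simp only [e]⟩
    obtain ⟨β, a, b, c, -⟩ := C.hull.turn C.pg h.1 (h.2 _ (L0.rel_refl γ))
      (GI_nonempty.1 L.ne) C.ret.1
    exact ⟨_, a, b, β, c, rfl⟩
  have h3 : ∀ γ β, Reg L0 Ω γ → rt γ = β.c → Reg L0 Ω β ∧ rt β = β.c := fun γ β h e => by
    obtain ⟨-, -, α, a, b⟩ := h1 γ h
    rcases Gm.eq_or_opp (e.symm.trans b.symm) with k | k
    · exact ⟨k ▸ h.rel a, by rw [← e, k]; exact h2 _ _ (PL_rel a).symm⟩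
    · obtain ⟨k1, k2⟩ := Reg.opp (z := z) (z' := z') C.hull (h.rel a)
      exact ⟨k ▸ k1, by rw [← e, k]; exact h2 _ _ (k2.trans (PL_rel a).symm)⟩
  have r0 : ∀ (y : Gm × Bool) n, L0.Rel y.1 (L0.at' y n) := fun y n =>
    (L0.rel_iff y.2).2 ⟨n, rfl⟩
  refine ⟨{t | t ∈ Ω ∨ ∃ γ, Reg L0 Ω γ ∧ rt γ = t}, fun t ht => Or.inl ht, fun y hy => ?_,
    fun y hy n hn => hn.imp_right ?_⟩
  · by_cases h : Reg L0 Ω y.1
    · obtain ⟨-, -, α, a, b⟩ := h1 _ h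
      obtain ⟨n, rfl⟩ := (L0.rel_iff y.2).1 a
      exact ⟨n, Or.inr ⟨_, h, b.symm⟩⟩
    · by_contra hc
      refine h ⟨hy, fun α a b => ?_⟩
      obtain ⟨n, rfl⟩ := (L0.rel_iff y.2).1 a
      exact hc ⟨n, Or.inl b⟩
  · rintro ⟨γ, h, e⟩
    obtain ⟨k1, k2⟩ := h3 γ _ h e
    have k3 := k1.rel (r0 y n).symm
    have k4 := h1 γ h
    refine ⟨mem_GI_of_Ioo (e ▸ k4.1) (e ▸ k4.2.1), fun m hm => ?_⟩
    rcases hm with hm | ⟨γ', h', e'⟩
    · exact absurd hm (k3.2 _ (r0 y m))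
    · refine C.hull.pt_inj hy (fun j => k3.2 _ (r0 y j)) ?_
      rw [← k2, ← (h3 γ' _ h' e').2]
      exact h2 _ _ (PL_rel (L0.rel_at y m n))

/-- the distance to `W` along the leaf -/
noncomputable def D (L0 : LS X) (W : Set ℝ) (y : Gm × Bool) : ℕ :=
  sInf {k : ℕ | (L0.at' y k).c ∈ W ∨ (L0.at' y (-k)).c ∈ W}

theorem D_fl : D L0 W (fl y) = D L0 W y := by
  simp only [D, L0.at_fl, neg_neg, or_comm]

theorem D_le {k : ℕ} (h : (L0.at' y k).c ∈ W) : D L0 W y ≤ k := Nat.sInf_le (Or.inl h)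

theorem D_spec (R : Rt L0 z z' Ω W) (hy : y.1 ∈ X) :
    (L0.at' y (D L0 W y)).c ∈ W ∨ (L0.at' y (-D L0 W y)).c ∈ W := by
  refine Nat.sInf_mem (s := {k : ℕ | (L0.at' y k).c ∈ W ∨ (L0.at' y (-k)).c ∈ W}) ?_
  obtain ⟨n, hn⟩ := R.ne y hy
  obtain ⟨m, rfl | rfl⟩ := Int.eq_nat_or_neg n
  exacts [⟨m, Or.inl hn⟩, ⟨m, Or.inr hn⟩]

theorem D_opp_le (H : L0.Hull A Ω) (R : Rt L0 z z' Ω W) (hy : y.1 ∈ X) :
    D L0 W (y.1.opp, y.2) ≤ D L0 W y := by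
  have key : ∀ y : Gm × Bool, y.1 ∈ X → (L0.at' y (D L0 W y)).c ∈ W →
      D L0 W (y.1.opp, y.2) ≤ D L0 W y := fun y hy h => by
    refine D_le ?_
    rwa [H.at_opp hy _ fun k hk e => absurd (D_le (R.sub _ e)) (not_le.2 hk), Gm.opp_c]
  rcases D_spec R hy with h | h
  · exact key y hy h
  · have := key (fl y) hy (by rwa [D_fl, L0.at_fl])
    rwa [D_fl, show ((fl y).1.opp, (fl y).2) = fl (y.1.opp, y.2) from rfl, D_fl] at this

theorem D_snd (e e' : Bool) : D L0 W (γ, e) = D L0 W (γ, e') := by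
  cases e <;> cases e'
  exacts [rfl, D_fl (y := (γ, true)), D_fl (y := (γ, false)), rfl]

theorem D_tau (H : L0.Hull A Ω) (R : Rt L0 z z' Ω W) (hy : y.1 ∈ X) (hy' : y.1.opp ∈ X) :
    D L0 W (Gm.tau y.1.c, true) = D L0 W y := by
  rcases Gm.eq_or_opp (γ := y.1) (β := Gm.tau y.1.c) rfl with e | e <;> rw [e, D_snd true y.2]
  refine le_antisymm (D_opp_le H R hy) ?_
  simpa using D_opp_le (y := (y.1.opp, y.2)) H R hy'

/-- the return time -/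
theorem ret (C : RCtx A L0 L Ω) (hy : y.1 ∈ GI z z') : ∃ r : ℕ, 0 < r ∧
    (∀ m, L0.at' (L.f y) m = L0.at' y (m + r)) ∧
    ∀ k : ℕ, 0 < k → k < r → L0.at' y k ∉ GI z z' := by
  obtain ⟨r, r0, r1, r2⟩ := C.ret.2 y hy
  exact ⟨r, r0, fun m => by rw [r1, ← L0.at_add, zpow_natCast],
    fun k a b => by rw [L0.at_nat]; exact r2 k a b⟩

/-- `W` lies ahead of the excursion -/
def Fw (L0 : LS X) (L : LS (GI z z')) (W : Set ℝ) (y : Gm × Bool) : Prop :=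
  ∃ r : ℕ, 0 < r ∧ (∀ m, L0.at' (L.f y) m = L0.at' y (m + r)) ∧
    ∀ n, (L0.at' y n).c ∈ W → (r : ℤ) ≤ n

theorem fw_or (C : RCtx A L0 L Ω) (R : Rt L0 z z' Ω W) (hy : y.1 ∈ GI z z')
    (hd : ¬Disc L0 (GI z z') Ω y) : Fw L0 L W y ∨ Fw L0 L W (fl (L.f y)) := by
  obtain ⟨r, r0, r1, r2⟩ := ret C hy
  have hX := C.ret.1 hy
  by_cases h : ∀ n, (L0.at' y n).c ∈ W → (r : ℤ) ≤ n
  · exact Or.inl ⟨r, r0, r1, h⟩
  refine Or.inr ⟨r, r0, fun m => ?_, fun n hn => ?_⟩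
  · rw [L.rev, L0.at_fl, L0.at_fl, r1]
    congr 1
    ring
  rw [L0.at_fl, r1] at hn
  by_contra hc
  push Not at h
  obtain ⟨a, ha, ar⟩ := h
  generalize hb : -n + r = b at hn
  have b0 : 0 < b := by omega
  have k1 : ∀ k : ℤ, 0 < k → k < r → L0.at' y k ∉ GI z z' := fun k x x' => by
    lift k to ℕ using x.le
    exact r2 k (by omega) (by omega)
  have k2 : ∀ k : ℤ, 0 ≤ k → k < r → (L0.at' y k).c ∉ Ω := fun k x x' e => by
    lift k to ℕ using x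
    exact hd ⟨k, e, fun j p q => r2 j p (by omega)⟩
  rcases R.alt y hX a ha with p | p
  · rcases R.alt y hX b hn with q | q
    · rcases le_or_gt 0 a with s | s
      · exact k2 a s ar p
      · exact k2 0 le_rfl (by omega) (C.hull.cvx y hX a 0 b s.le b0.le p q)
    · exact k1 b b0 (q.2 a ha ▸ ar) q.1
  · exact k1 a (p.2 b hn ▸ b0) ar p.1

theorem Fw.lt (R : Rt L0 z z' Ω W) (hy : y.1 ∈ X) (h : Fw L0 L W y) :
    D L0 W (L.f y) < D L0 W y := by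
  obtain ⟨r, r0, r1, r2⟩ := h
  rcases D_spec R hy with k | k
  · have k1 := r2 _ k
    obtain ⟨m, hm⟩ : ∃ m, D L0 W y = m + r := ⟨D L0 W y - r, by omega⟩
    have k2 : D L0 W (L.f y) ≤ m := D_le (by rw [r1]; rw [hm] at k; exact_mod_cast k)
    omega
  · have := r2 _ k
    omega

end D_stage2A

open D_stage2A in
theorem p_D_STAGE2 (hD_DISC : S_D_DISC) :
    S_D_STAGE2 := by
  intro A X L0 z z' L Ω V C hV
  obtain ⟨d1, d2, d3, -⟩ := hD_DISC A X L0 z z' L Ω C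
  obtain ⟨W, R⟩ := exists_rt C
  have sub := C.ret.1
  have nd : ∀ y : Gm × Bool, y.1 ∈ GI z z' → y.1.c ∉ V → ¬Disc L0 (GI z z') Ω y :=
    fun y hy h k => h ((hV _).2 ⟨y, hy, rfl, k⟩)
  obtain ⟨h, h0, h1⟩ : ∃ h : ℝ → ℕ, (∀ t ∈ V, h t = 0) ∧
      ∀ y : Gm × Bool, y.1 ∈ GI z z' → y.1.c ∉ V → h y.1.c = D L0 W y := by
    classical
    refine ⟨fun t => if t ∈ V then 0 else D L0 W (Gm.tau t, true), fun t ht => if_pos ht,
      fun y hy k => (if_neg k).trans (D_tau C.hull R (sub hy) (sub ?_))⟩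
    have := d3 y hy (nd y hy k)
    exact mem_GI_of_Ioo (by simpa using this.1) (by simpa using this.2.1)
  have dn : ∀ y : Gm × Bool, y.1 ∈ GI z z' → ¬Disc L0 (GI z z') Ω y → Fw L0 L W y →
      h (L.f y).1.c < h y.1.c := fun y hy hd hf => by
    have k0 := hf.lt R (sub hy)
    obtain ⟨r, r0, -, r2⟩ := hf
    have k1 : y.1.c ∉ V := fun k => by
      obtain ⟨y', a, b, c⟩ := (hV _).1 k
      have c' : Disc L0 (GI z z') Ω (y.1, y'.2) := by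
        rcases Gm.eq_or_opp b with e | e
        · rwa [← e]
        · have n0 : y.1.c ∉ Ω := fun x => by
            have := r2 0 (by rw [L0.at_zero]; exact R.sub _ x)
            omega
          have := d2 y' a (b ▸ n0) c
          rwa [e, Gm.opp_opp] at this
      by_cases e : y'.2 = y.2
      · exact hd (by rwa [e] at c')
      · obtain ⟨j, p, -⟩ := c'
        rw [Bool.eq_not.2 e, show (y.1, !y.2) = fl y from rfl, L0.at_fl] at p
        have := r2 _ (R.sub _ p)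
        omega
    rw [h1 y hy k1]
    by_cases k2 : (L.f y).1.c ∈ V
    · rw [h0 _ k2]; omega
    · rwa [h1 _ ((L.mem y).2 hy) k2]
  have up : ∀ y : Gm × Bool, y.1 ∈ GI z z' → ¬Disc L0 (GI z z') Ω y → Fw L0 L W (fl (L.f y)) →
      h y.1.c < h (L.f y).1.c := fun y hy hd hf => by
    have m : (fl (L.f y)).1 ∈ GI z z' := (L.mem y).2 hy
    have := dn _ m (fun k => hd (by simpa [L.rev] using d1 _ m k)) hf
    rwa [L.rev] at this
  have nv : ∀ y : Gm × Bool, h (L.f y).1.c < h y.1.c → y.1.c ∉ V := fun y k e => by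
    rw [h0 _ e] at k
    omega
  have fw : ∀ y : Gm × Bool, y.1 ∈ GI z z' → h (L.f y).1.c < h y.1.c → Fw L0 L W y :=
    fun y hy k => (fw_or C R hy (nd y hy (nv y k))).resolve_right fun e =>
      absurd (up y hy (nd y hy (nv y k)) e) (not_lt.2 k.le)
  have un : ∀ y y' : Gm × Bool, y.1 ∈ GI z z' → y'.1 = y.1 → h (L.f y).1.c < h y.1.c →
      h (L.f y').1.c < h y'.1.c → y' = y := fun y y' hy e k k' => by
    by_contra hc
    obtain rfl : y' = fl y := Prod.ext e (Bool.eq_not.2 fun x => hc (Prod.ext e x))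
    obtain ⟨r, r0, -, r2⟩ := fw y hy k
    obtain ⟨r', r0', -, r2'⟩ := fw (fl y) hy k'
    obtain ⟨n, hn⟩ := R.ne y (sub hy)
    have a := r2 n hn
    have b := r2' (-n) (by rwa [L0.at_fl, neg_neg])
    omega
  refine ⟨h, h0, fun y hy => ?_, fun y y' hy hy' e k k' => ?_⟩
  · by_cases hd : Disc L0 (GI z z') Ω y
    · exact Or.inl ⟨hy, (hV _).2 ⟨y, hy, rfl, hd⟩,
        (hV _).2 ⟨fl (L.f y), (L.mem y).2 hy, rfl, d1 y hy hd⟩⟩
    · exact Or.inr ((fw_or C R hy hd).elim (fun a => (dn y hy hd a).ne') fun a => (up y hy hd a).ne)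
  · rcases Gm.eq_or_opp e.symm with x | x
    · exact Or.inl (un y y' hy x k k')
    · obtain ⟨-, -, p, q⟩ := d3 y hy (nd y hy (nv y k))
      obtain rfl := un (y.1.opp, y.2) y' (x ▸ hy') x (by simpa [p] using k) k'
      exact Or.inr ⟨rfl, by rw [p], q⟩

end Pool.Agent.P.MP_dba3d2_lc


end

section

/-! Step D_STG of the stability project. -/

namespace Pool.Agent.P.MP_dba3d2_lc

open Set Filter Topology

namespace D_stgA

theorem anchor {R : LG} {P : ℝ → R.W} {p q : ℝ} {α β : Gm} (h : RW2 (R.arc P p q) α β) :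
    ∃ g, p < α.c ∧ α.c < q ∧ R.Mv P α g β ∧ R.Mv P α.opp g β.opp := by
  obtain ⟨g, h1, h2⟩ := LG.rw2_arc h
  obtain ⟨u, v, k1, k2, g', k3⟩ := h
  exact ⟨g, (k3.2.1 u ⟨le_rfl, k3.1.le⟩).1.1.trans_lt k1,
    k2.trans_le (k3.2.1 v ⟨k3.1.le, le_rfl⟩).1.2, h1, h2⟩

end D_stgA

theorem p_D_STG (hD_HULLN : S_D_HULLN) (hD_RET : S_D_RET) (hD_DISC : S_D_DISC) (hD_STAGE1 : S_D_STAGE1) (hD_STAGE2 : S_D_STAGE2) :
    S_D_STG := by
  classical
  intro R P p q S X L0 Ω hsat hull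
  have hX : X ⊆ GI p q := fun γ hγ => (LG.rw_arc_iff.1 ((hsat γ hγ γ hγ).1 (L0.rel_refl γ))).1
  obtain ⟨Ω', hΩ, hN⟩ := hD_HULLN _ S.pg X L0 Ω hull
  refine ⟨Ω', 4 * (Ω.card + 2) + 2, fun u v huv hsub => ?_⟩
  obtain ⟨z, z', h1, h2, h3, h4, h5, h6⟩ := hN u v huv hsub
  have hz : GI z z' ⊆ X := (GI_mono h1.le h3.le).trans hsub
  have hpq := (GI_subset_iff h2).1 (hz.trans hX)
  obtain ⟨L, hL⟩ := hD_RET X (GI z z') L0 co_GI (GI_nonempty.2 h2) hz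
  have ctx : RCtx (R.arc P p q) L0 L (insert z (insert z' Ω)) :=
    { pg := S.pg
      weak := hsat.weak
      hull := h5
      ret := hL
      left := Finset.mem_insert_self _ _
      right := Finset.mem_insert_of_mem (Finset.mem_insert_self _ _)
      free := fun t ht k => by
        rcases Finset.mem_insert.1 (Finset.mem_coe.1 ht) with rfl | ht
        · exact lt_irrefl _ k.1
        rcases Finset.mem_insert.1 ht with rfl | ht
        · exact lt_irrefl _ k.2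
        exact h4 t ⟨k.1.le, k.2.le⟩ ht }
  obtain ⟨-, -, -, V, hc, hV⟩ := hD_DISC _ X L0 z z' L _ ctx
  obtain ⟨a1, a2, a3, a4⟩ := hD_STAGE1 _ X L0 z z' L _ V ctx hV
  have a5 := hD_STAGE2 _ X L0 z z' L _ V ctx hV
  have hcard : (insert z (insert z' Ω)).card ≤ Ω.card + 2 :=
    (Finset.card_insert_le _ _).trans (Nat.succ_le_succ (Finset.card_insert_le _ _))
  have key : ∀ t ∈ V, ∃ α β : Gm, α.c ∈ Ω' ∧ β.c = t ∧ RW2 (R.arc P p q) α β := by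
    intro t ht
    rcases a3 t ht with e | e | ⟨α, β, b1, b2, b3⟩
    · obtain ⟨α, c1, c2⟩ := h6 (Gm.tau t) (Or.inl e)
      exact ⟨α, _, c1, rfl, c2⟩
    · obtain ⟨α, c1, c2⟩ := h6 (Gm.tau t) (Or.inr e)
      exact ⟨α, _, c1, rfl, c2⟩
    · rcases Finset.mem_insert.1 b1 with e | b1
      · obtain ⟨α', c1, c2⟩ := h6 α (Or.inl e)
        exact ⟨α', β, c1, b2, S.pg.rw2_trans c2 b3⟩
      rcases Finset.mem_insert.1 b1 with e | b1
      · obtain ⟨α', c1, c2⟩ := h6 α (Or.inr e)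
        exact ⟨α', β, c1, b2, S.pg.rw2_trans c2 b3⟩
      exact ⟨α, β, hΩ b1, b2, b3⟩
  have key2 : ∀ t, ∃ g : R.W, t ∈ V → ∃ α β : Gm, α.c ∈ Ω' ∧ p < α.c ∧ α.c < q ∧ β.c = t ∧
      R.Mv P α g β ∧ R.Mv P α.opp g β.opp := by
    intro t
    by_cases ht : t ∈ V
    · obtain ⟨α, β, b1, b2, b3⟩ := key t ht
      obtain ⟨g, c1, c2, c3, c4⟩ := D_stgA.anchor b3
      exact ⟨g, fun _ => ⟨α, β, b1, c1, c2, b2, c3, c4⟩⟩
    · exact ⟨1, fun h => absurd h ht⟩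
  choose s hs using key2
  exact ⟨⟨z, z', L, V, s, hpq.1, hpq.2, hL.sat hsat, hc.trans (by omega), a1, a2, a5, hs⟩, h1, h3,
    fun α hα h => a4 α hα (Finset.mem_insert_of_mem (Finset.mem_insert_of_mem h))⟩

end Pool.Agent.P.MP_dba3d2_lc


end

section

/-! Step D_CODE of the stability project. -/

namespace Pool.Agent.P.MP_dba3d2_lc

open Set Filter Topology

namespace D_codeA

/-- `g` moves a two sided germ at `w` to a two sided germ at `t` -/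
def Bi (R : LG) (P : ℝ → R.W) (g : R.W) (w t : ℝ) : Prop :=
  ∃ α β : Gm, α.c = w ∧ β.c = t ∧ R.Mv P α g β ∧ R.Mv P α.opp g β.opp

variable {R : LG} {P : ℝ → R.W} {p q : ℝ} {Ω : Finset ℝ} {c : ℕ}

theorem Bi.symm {g : R.W} {w t : ℝ} (h : Bi R P g w t) : Bi R P g⁻¹ t w := by
  obtain ⟨α, β, h1, h2, h3, h4⟩ := h
  exact ⟨β, α, h2, h1, h3.symm, h4.symm⟩

theorem Bi.left {g : R.W} {w t : ℝ} (h : Bi R P g w t) {γ : Gm} (hγ : γ.c = w) :
    ∃ β : Gm, β.c = t ∧ R.Mv P γ g β ∧ R.Mv P γ.opp g β.opp := by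
  obtain ⟨α, β, h1, h2, h3, h4⟩ := h
  rcases Gm.eq_or_opp (γ := α) (β := γ) (hγ.trans h1.symm) with e | e
  · exact ⟨β, h2, e ▸ h3, e ▸ h4⟩
  · refine ⟨β.opp, by simpa using h2, e ▸ h4, ?_⟩
    rw [e, Gm.opp_opp, Gm.opp_opp]
    exact h3

theorem Bi.trans {g g' : R.W} {w t u : ℝ} (h : Bi R P g w t) (h' : Bi R P g' t u) :
    Bi R P (g' * g) w u := by
  obtain ⟨α, β, h1, h2, h3, h4⟩ := h
  obtain ⟨γ, k1, k2, k3⟩ := h'.left h2
  exact ⟨α, γ, h1, k1, h3.trans k2, h4.trans k3⟩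

/-- the moves between germs over `Ω` -/
def Lam (R : LG) (P : ℝ → R.W) (p q : ℝ) (Ω : Finset ℝ) : Set R.W :=
  {l | ∃ α α' : Gm, α.c ∈ Ω ∧ p < α.c ∧ α.c < q ∧ α'.c ∈ Ω ∧ R.Mv P α l α'}

theorem lam_finite (S : R.Stb P p q) (Ω : Finset ℝ) : (Lam R P p q Ω).Finite := by
  have h1 : {γ : Gm | γ.c ∈ (Ω : Set ℝ)}.Finite := Gm.finite_over Ω.finite_toSet
  have h2 : {γ : Gm | γ.c ∈ (Ω : Set ℝ) ∧ p < γ.c ∧ γ.c < q}.Finite := h1.subset fun γ h => h.1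
  refine (h2.biUnion fun α hα => h1.biUnion fun α' _ =>
    S.finite_mv (mem_GI_of_Ioo hα.2.1 hα.2.2) α').subset ?_
  rintro l ⟨α, α', a1, a2, a3, a4, a5⟩
  simp only [mem_iUnion]
  exact ⟨α, ⟨a1, a2, a3⟩, α', a4, a5⟩

/-- a stage with an enumeration of its special states -/
structure En (R : LG) (P : ℝ → R.W) (p q : ℝ) (Ω : Finset ℝ) (c : ℕ) (I : Type) where
  T : Stg R P p q Ω c
  e : I → Gm × Bool
  mem : ∀ i, e i ∈ T.L.DS T.V
  sur : ∀ y ∈ T.L.DS T.V, ∃ i, e i = y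

theorem exists_en (T : Stg R P p q Ω c) :
    ∃ E : En R P p q Ω c (Fin c × Bool × Bool), E.T = T := by
  classical
  obtain ⟨γ0, h0⟩ := T.L.ne
  obtain ⟨y0, hy0, -⟩ := T.cov (γ0, true) h0
  obtain ⟨j⟩ : Nonempty (T.V ↪ Fin c) :=
    Function.Embedding.nonempty_of_card_le (by simpa using T.card)
  let v : Fin c → ℝ := Function.extend j (fun t => (t : ℝ)) fun _ => 0
  have hv : ∀ t : T.V, v (j t) = t := fun t => j.injective.extend_apply _ _ t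
  let d : Fin c × Bool × Bool → Gm × Bool := fun i =>
    (if i.2.1 then Gm.tau (v i.1) else (Gm.tau (v i.1)).opp, i.2.2)
  refine ⟨⟨T, fun i => if d i ∈ T.L.DS T.V then d i else y0, fun i => ?_, fun y hy => ?_⟩, rfl⟩
  · split_ifs with h
    · exact h
    · exact hy0
  · have k : ∃ i, d i = y := by
      rcases Gm.eq_or_opp (γ := Gm.tau y.1.c) (β := y.1) rfl with e | e
      · refine ⟨(j ⟨_, hy.2.1⟩, true, y.2), Prod.ext ?_ rfl⟩
        simp only [d, hv, if_true]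
        exact e.symm
      · refine ⟨(j ⟨_, hy.2.1⟩, false, y.2), Prod.ext ?_ rfl⟩
        simp only [d, hv, Bool.false_eq_true, if_false]
        exact e.symm
    obtain ⟨i, hi⟩ := k
    exact ⟨i, by rw [hi, if_pos hy]⟩

namespace En

variable {I : Type} (E E' : En R P p q Ω c I)

/-- source point -/
def a (i : I) : ℝ := (E.e i).1.c
/-- target point -/
def b (i : I) : ℝ := (E.T.L.f (E.e i)).1.c
/-- `g` is a mover of the state `i` -/
def M (i : I) (g : R.W) : Prop := R.Mv P (E.e i).1 g (E.T.L.f (E.e i)).1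
/-- the element with the label `l` -/
def w (i : I) (l : R.W) : R.W := E.T.s (E.b i) * l * (E.T.s (E.a i))⁻¹
/-- the label of `g` -/
def lab (i : I) (g : R.W) : R.W := (E.T.s (E.b i))⁻¹ * g * E.T.s (E.a i)
/-- anchors -/
def An (i : I) (x : ℝ) : Prop := p < x ∧ x < q ∧ Bi R P (E.T.s (E.a i)) x (E.a i)

theorem w_lab (i : I) (g : R.W) : E.w i (E.lab i g) = g := by
  simp only [w, lab]
  group
theorem lab_w (i : I) (l : R.W) : E.lab i (E.w i l) = l := by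
  simp only [w, lab]
  group
theorem a_mem (i : I) : E.a i ∈ E.T.V := (E.mem i).2.1
theorem b_mem (i : I) : E.b i ∈ E.T.V := (E.mem i).2.2
theorem exists_a {t : ℝ} (ht : t ∈ E.T.V) : ∃ i, E.a i = t := by
  obtain ⟨y, h1, h2⟩ := E.T.src t ht
  obtain ⟨i, rfl⟩ := E.sur y h1
  exact ⟨i, h2⟩
theorem anc {t : ℝ} (ht : t ∈ E.T.V) : ∃ x ∈ Ω, p < x ∧ x < q ∧ Bi R P (E.T.s t) x t := by
  obtain ⟨α, β, h1, h2, h3, h4, h5, h6⟩ := E.T.anc t ht
  exact ⟨α.c, h1, h2, h3, α, β, rfl, h4, h5, h6⟩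
theorem lab_mem {i : I} {g : R.W} (h : E.M i g) : E.lab i g ∈ Lam R P p q Ω := by
  obtain ⟨x, h1, h2, h3, h4⟩ := E.anc (E.a_mem i)
  obtain ⟨x', k1, -, -, k4⟩ := E.anc (E.b_mem i)
  obtain ⟨α, e1, e2, -⟩ := h4.symm.left (γ := (E.e i).1) rfl
  obtain ⟨α', f1, f2, -⟩ := k4.symm.left (γ := (E.T.L.f (E.e i)).1) rfl
  have e3 := e2.symm
  rw [inv_inv] at e3
  refine ⟨α, α', e1 ▸ h1, e1 ▸ h2, e1 ▸ h3, f1 ▸ k1, ?_⟩
  rw [lab, mul_assoc]
  exact (e3.trans h).trans f2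

/-- the combinatorial type -/
def code : (I → I → Prop) × (I → I → Prop) × (I → Ω → Prop) × (I → Lam R P p q Ω → Prop) ×
    (I → I → Lam R P p q Ω → Lam R P p q Ω → Prop) × (I → R.KK P p q → R.KK P p q → Prop) :=
  (fun i j => E.a i = E.a j, fun i j => E.b i = E.a j, fun i x => E.An i x,
    fun i l => E.M i (E.w i l), fun i j l m => E.w i l = E.w j m,
    fun i k k' => E.T.s (E.a i) * k * (E.T.s (E.a i))⁻¹ = k')

open Classical in
/-- the deformation -/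
noncomputable def N (t : ℝ) : R.W :=
  if h : ∃ i, E.a i = t then E'.T.s (E'.a h.choose) * (E.T.s t)⁻¹ else 1

open Classical in
/-- the map on movers -/
noncomputable def th (g : R.W) : R.W :=
  if h : ∃ i, E.M i g then E'.w h.choose (E.lab h.choose g) else 1

variable {E E'}

theorem N_a (H : E.code = E'.code) (i : I) :
    E.N E' (E.a i) = E'.T.s (E'.a i) * (E.T.s (E.a i))⁻¹ := by
  have h : ∃ j, E.a j = E.a i := ⟨i, rfl⟩
  have k : (E.a h.choose = E.a i) = (E'.a h.choose = E'.a i) :=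
    congrArg (fun x => x.1 h.choose i) H
  rw [N, dif_pos h, k.mp h.choose_spec]

theorem N_b (H : E.code = E'.code) (i : I) :
    E.N E' (E.b i) = E'.T.s (E'.b i) * (E.T.s (E.b i))⁻¹ := by
  obtain ⟨j, h⟩ := E.exists_a (E.b_mem i)
  have k : (E.b i = E.a j) = (E'.b i = E'.a j) := congrArg (fun x => x.2.1 i j) H
  rw [k.mp h.symm, ← h, N_a H]

theorem th_eq (H : E.code = E'.code) {i : I} {g : R.W} (hg : E.M i g) :
    E.th E' g = E'.w i (E.lab i g) := by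
  have h : ∃ j, E.M j g := ⟨i, hg⟩
  have k : (E.w h.choose (E.lab h.choose g) = E.w i (E.lab i g)) =
      (E'.w h.choose (E.lab h.choose g) = E'.w i (E.lab i g)) :=
    congrArg (fun x => x.2.2.2.2.1 h.choose i ⟨_, E.lab_mem h.choose_spec⟩ ⟨_, E.lab_mem hg⟩) H
  rw [th, dif_pos h]
  exact k.mp (by rw [w_lab, w_lab])

theorem th_mv (H : E.code = E'.code) {i : I} {g : R.W} (hg : E.M i g) : E'.M i (E.th E' g) := by
  have k : E.M i (E.w i (E.lab i g)) = E'.M i (E'.w i (E.lab i g)) :=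
    congrArg (fun x => x.2.2.2.1 i ⟨_, E.lab_mem hg⟩) H
  rw [th_eq H hg]
  exact k.mp (by rwa [w_lab])

theorem half (S : R.Stb P p q) (H : E.code = E'.code) :
    E.T.Half E'.T (E.N E') (E.th E') (E'.th E) := by
  refine ⟨fun t ht k hk => ?_, fun t ht => ?_, fun y hy g hg => ?_⟩
  · obtain ⟨i, rfl⟩ := E.exists_a ht
    obtain ⟨x, -, h2, h3, h4⟩ := E.anc ht
    obtain ⟨α, e1, e2, -⟩ := h4.symm.left (γ := (E.e i).1) rfl
    have hκ : (E.T.s (E.a i))⁻¹ * k * (E.T.s (E.a i))⁻¹⁻¹ ∈ R.KK P p q :=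
      (S.conj (GI_mono E.T.lo E.T.hi (E.mem i).1) (mem_GI_of_Ioo (e1 ▸ h2) (e1 ▸ h3)) e2).1 hk
    have k1 : (E.T.s (E.a i) * ((E.T.s (E.a i))⁻¹ * k * (E.T.s (E.a i))⁻¹⁻¹) *
        (E.T.s (E.a i))⁻¹ = k) = (E'.T.s (E'.a i) * ((E.T.s (E.a i))⁻¹ * k * (E.T.s (E.a i))⁻¹⁻¹) *
        (E'.T.s (E'.a i))⁻¹ = k) := congrArg (fun x => x.2.2.2.2.2 i ⟨_, hκ⟩ ⟨k, hk⟩) H
    have k2 := k1.mp (by group)
    rw [N_a H, Commute, SemiconjBy]
    calc E'.T.s (E'.a i) * (E.T.s (E.a i))⁻¹ * k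
        = E'.T.s (E'.a i) * ((E.T.s (E.a i))⁻¹ * k * (E.T.s (E.a i))⁻¹⁻¹) *
          (E'.T.s (E'.a i))⁻¹ * (E'.T.s (E'.a i) * (E.T.s (E.a i))⁻¹) := by group
      _ = k * (E'.T.s (E'.a i) * (E.T.s (E.a i))⁻¹) := by rw [k2]
  · obtain ⟨i, rfl⟩ := E.exists_a ht
    obtain ⟨x, h1, h2⟩ := E.anc ht
    have k : E.An i x = E'.An i x := congrArg (fun z => z.2.2.1 i ⟨x, h1⟩) H
    obtain ⟨β, β', e1, e2, e3, e4⟩ := h2.2.2.symm.trans (k.mp h2).2.2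
    rw [N_a H]
    exact ⟨β, β', e1, e2 ▸ E'.a_mem i, e3, e4⟩
  · obtain ⟨i, rfl⟩ := E.sur y hy
    have hg' : E.M i g := hg
    refine ⟨?_, ?_, E'.e i, E'.mem i, th_mv H hg'⟩
    · change _ = E.N E' (E.b i) * g * (E.N E' (E.a i))⁻¹
      rw [th_eq H hg', N_a H, N_b H, w, lab]
      group
    · rw [th_eq H.symm (th_mv H hg'), th_eq H hg', lab_w, w_lab]

end En

theorem fin_code (I A B C : Type) [Finite I] [Finite A] [Finite B] [Finite C] :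
    Finite ((I → I → Prop) × (I → I → Prop) × (I → A → Prop) × (I → B → Prop) ×
      (I → I → B → B → Prop) × (I → C → C → Prop)) := by
  have h1 : Finite (I → I → Prop) := inferInstance
  have h2 : Finite (I → A → Prop) := inferInstance
  have h3 : Finite (I → B → Prop) := inferInstance
  have h4 : Finite (I → I → B → B → Prop) := inferInstance
  have h5 : Finite (I → C → C → Prop) := inferInstance
  infer_instance

end D_codeA

open D_codeA in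
theorem p_D_CODE :
    S_D_CODE := by
  intro R P p q S Ω c T
  choose E hE using fun n => exists_en (T n)
  have : Finite (Lam R P p q Ω) := (lam_finite S Ω).to_subtype
  have : Finite (R.KK P p q) := S.fin.to_subtype
  have := fin_code (Fin c × Bool × Bool) Ω (Lam R P p q Ω) (R.KK P p q)
  obtain ⟨x, hx⟩ := Finite.exists_infinite_fiber fun n => (E n).code
  have hinf : ((fun n => (E n).code) ⁻¹' {x}).Infinite := infinite_coe_iff.1 hx
  obtain ⟨n, hn⟩ := hinf.nonempty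
  refine ⟨n, fun m₀ => ?_⟩
  obtain ⟨m, hm, hlt⟩ := hinf.exists_gt m₀
  have H : (E n).code = (E m).code := (mem_singleton_iff.1 hn).trans (mem_singleton_iff.1 hm).symm
  refine ⟨m, hlt.le, (E n).N (E m), (E m).N (E n), (E n).th (E m), (E m).th (E n), ?_⟩
  rw [← hE n, ← hE m]
  exact ⟨En.half S H, En.half S H.symm⟩

end Pool.Agent.P.MP_dba3d2_lc


end

section

/-! Step D_EXTEND of the stability project. -/

namespace Pool.Agent.P.MP_dba3d2_lc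

open Set Filter Topology

theorem p_D_EXTEND :
    S_D_EXTEND := by
  classical
  intro G _ Vx E src tgt a a' rev V Z h N₀ h1 h2 h3 h4 h5
  obtain ⟨N, hN⟩ : ∃ N : Vx → G, ∀ v, N v = if hv : ∃ e, src e = v ∧ h (tgt e) < h v then
      (a' hv.choose)⁻¹ * N (tgt hv.choose) * a hv.choose else if v ∈ V then N₀ v else 1 :=
    ⟨(InvImage.wf h wellFounded_lt).fix fun v ih =>
      if hv : ∃ e, src e = v ∧ h (tgt e) < h v then
        (a' hv.choose)⁻¹ * ih (tgt hv.choose) hv.choose_spec.2 * a hv.choose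
      else if v ∈ V then N₀ v else 1, fun v => by rw [WellFounded.fix_eq]⟩
  have k1 : ∀ v ∈ V, N v = N₀ v := fun v hv => by
    rw [hN, dif_neg, if_pos hv]
    rintro ⟨e, -, he⟩
    rw [(h2 v hv).1] at he
    exact Nat.not_lt_zero _ he
  have k2 : ∀ v, N v ∈ Z := fun v => by
    induction v using (InvImage.wf h wellFounded_lt).induction with
    | _ v ih =>
      rw [hN]
      split_ifs with c d
      · exact h4 _ _ (ih _ c.choose_spec.2)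
      · exact (h2 v d).2
      · exact Z.one_mem
  have k3 : ∀ e, h (tgt e) < h (src e) → N (src e) = (a' e)⁻¹ * N (tgt e) * a e := fun e he => by
    have c : ∃ e', src e' = src e ∧ h (tgt e') < h (src e) := ⟨e, rfl, he⟩
    obtain ⟨c1, c2⟩ := h5 c.choose e c.choose_spec.1
      (by rw [c.choose_spec.1]; exact c.choose_spec.2) he
    rw [hN, dif_pos c, c2 _ (k2 _), c1]
  refine ⟨N, k1, k2, fun e => ?_⟩
  rcases h3 e with ⟨c1, c2, c3⟩ | c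
  · rw [k1 _ c1, k1 _ c2, c3]
  · rcases lt_or_gt_of_ne c with d | d
    · obtain ⟨r1, r2, r3, r4⟩ := h1 e
      have k := k3 (rev e) (by rwa [r1, r2])
      rw [r1, r2, r3, r4] at k
      rw [k]
      group
    · rw [k3 e d]
      group

end Pool.Agent.P.MP_dba3d2_lc


end

section

/-! Step D_DEFORM of the stability project. -/

namespace Pool.Agent.P.MP_dba3d2_lc

open Set Filter Topology

namespace D_deformA

variable {R : LG} {P : ℝ → R.W} {p q : ℝ} {Ω : Finset ℝ} {c : ℕ} {T T' : Stg R P p q Ω c}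
  {N₀ N : ℝ → R.W} {θ θ' : R.W → R.W} {y : Gm × Bool} {g : R.W} {α β γ : Gm}

/-- every edge has a parallel edge between special points -/
theorem key (S : R.Stb P p q) (H : T.Half T' N₀ θ θ') (hy : y.1 ∈ GI T.z T.z')
    (hg : R.Mv P y.1 g (T.L.f y).1) : ∃ s ∈ T.V, ∃ t ∈ T.V, θ g = N₀ t * g * (N₀ s)⁻¹ ∧
      θ g⁻¹ = (θ g)⁻¹ ∧ ∀ k ∈ R.KK P p q, θ (k * g) = k * θ g := by
  obtain ⟨x, hx, φ, u, v, h1, h2, h3, h4, h5⟩ := T.cov y hy
  have k1 : R.Mv P x.1 g (T.L.f x).1 := h5 ▸ (S.rl_of_mv h1 h2 (h4 ▸ hg)).mv h3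
  have k2 := (H.val x hx g k1).1
  have k3 : (T.L.f x).1 ∈ GI T.z T.z' := (T.L.mem x).2 hx.1
  refine ⟨_, hx.2.1, _, hx.2.2, k2, ?_, fun k hk => ?_⟩
  · have k4 := (H.val (fl (T.L.f x)) ⟨k3, hx.2.2, by rw [T.L.rev]; exact hx.2.1⟩ g⁻¹
      (by rw [T.L.rev]; exact k1.symm)).1
    rw [k4, k2, T.L.rev, fl_fst, fl_fst]
    group
  · rw [(H.val x hx _ (k1.trans (LG.Stb.mv_of_mem hk (GI_mono T.lo T.hi k3)))).1, k2,
      ← mul_assoc, (H.comm _ hx.2.2 k hk).eq]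
    group

/-- the deformed mover is locally constant -/
def Lc (R : LG) (P N : ℝ → R.W) (γ β : Gm) : Prop := ∃ g, R.Mv P γ g β ∧ ∃ r > 0, ∀ s ∈ Icc 0 r,
  N (β.ap s) * g * (N (γ.ap s))⁻¹ = N β.c * g * (N γ.c)⁻¹

theorem Lc.refl (γ : Gm) : Lc R P N γ γ :=
  ⟨1, LG.mv_one P γ, 1, one_pos, fun s _ => by group⟩

theorem Lc.trans (h : Lc R P N α β) (k : Lc R P N β γ) : Lc R P N α γ := by
  obtain ⟨g, h1, r, r0, h2⟩ := h
  obtain ⟨g', k1, r', r0', k2⟩ := k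
  refine ⟨g' * g, h1.trans k1, min r r', lt_min r0 r0', fun s hs => ?_⟩
  calc N (γ.ap s) * (g' * g) * (N (α.ap s))⁻¹
      = (N (γ.ap s) * g' * (N (β.ap s))⁻¹) * (N (β.ap s) * g * (N (α.ap s))⁻¹) := by group
    _ = _ := by
      rw [h2 s ⟨hs.1, hs.2.trans (min_le_left _ _)⟩, k2 s ⟨hs.1, hs.2.trans (min_le_right _ _)⟩]
      group

theorem step (hN : ∀ (y : Gm × Bool) g, y.1 ∈ GI T.z T.z' → R.Mv P y.1 g (T.L.f y).1 →
    N (T.L.f y).1.c * g * (N y.1.c)⁻¹ = θ g) (hy : y.1 ∈ GI T.z T.z') :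
    Lc R P N y.1 (T.L.f y).1 := by
  obtain ⟨-, -, g, hg⟩ := LG.rw_arc_iff.1 (T.sat.weak y hy)
  obtain ⟨r, r0, hr⟩ := T.L.zpow_eventually hy 1
  obtain ⟨r', r0', hr'⟩ := eventually_gm.1 hg.eventually
  have m0 : 0 < min r r' := lt_min r0 r0'
  refine ⟨g, hg, min r r' / 2, half_pos m0, fun s hs => ?_⟩
  have hδ : Gm.tau s ∈ GI 0 (min r r') := tau_mem_GI.2 ⟨hs.1, by linarith [hs.2]⟩
  obtain ⟨k1, k2⟩ := hr _ (GI_mono le_rfl (min_le_left _ _) hδ)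
  have k3 := hr' _ (GI_mono le_rfl (min_le_right _ _) hδ)
  rw [zpow_one] at k2
  rw [mul_assoc, inv_mul_cancel_left] at k3
  have k4 := hN (y.1 * Gm.tau s, y.2) g k1 (by rw [k2]; exact k3)
  rw [k2] at k4
  exact k4.trans (hN y g hy hg).symm

end D_deformA

open D_deformA in
theorem p_D_DEFORM (hD_EXTEND : S_D_EXTEND) :
    S_D_DEFORM := by
  intro R P p q S Ω c T T' N₀ θ θ' H hQ
  obtain ⟨h, h0, h1, h2⟩ := T.ht
  have sub : GI T.z T.z' ⊆ GI p q := GI_mono T.lo T.hi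
  have cen : ∀ x, x ∈ Subgroup.centralizer (R.KK P p q) ↔ ∀ k ∈ R.KK P p q, Commute x k :=
    fun x => Subgroup.mem_centralizer_iff.trans
      (forall₂_congr fun k _ => ⟨fun e => e.symm, fun e => e.symm⟩)
  obtain ⟨N, N1, N2, N3⟩ := hD_EXTEND R.W ℝ
    {e : (Gm × Bool) × R.W // e.1.1 ∈ GI T.z T.z' ∧ R.Mv P e.1.1 e.2 (T.L.f e.1).1}
    (fun e => e.1.1.1.c) (fun e => (T.L.f e.1.1).1.c) (fun e => e.1.2) (fun e => θ e.1.2)
    (fun e => ⟨(fl (T.L.f e.1.1), e.1.2⁻¹), (T.L.mem _).2 e.2.1, by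
      rw [T.L.rev]; exact e.2.2.symm⟩)
    T.V (R.QJ P T.z T.z' ⊓ Subgroup.centralizer (R.KK P p q)) h N₀
    (fun e => ⟨rfl, by simp only [T.L.rev, fl_fst], rfl,
      let ⟨_, _, _, _, _, k, _⟩ := key S H e.2.1 e.2.2; k⟩)
    (fun v hv => ⟨h0 v hv, hQ v hv, (cen _).2 (H.comm v hv)⟩)
    (fun e => (h1 _ e.2.1).imp_left fun k => ⟨k.2.1, k.2.2, (H.val _ k _ e.2.2).1.symm⟩)
    (by
      rintro ⟨⟨y, g⟩, hy, hg⟩ x ⟨x1, x2⟩
      obtain ⟨s, hs, t, ht, k, -⟩ := key S H hy hg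
      have hf := (T.L.mem y).2 hy
      have hg' := hg.mem_QJ hy hf
      have e : (θ g)⁻¹ * x * g = N₀ s * (g⁻¹ * ((N₀ t)⁻¹ * x) * g) := by
        rw [k]; group
      refine e ▸ Subgroup.mul_mem _ ⟨hQ s hs, (cen _).2 (H.comm s hs)⟩ ⟨Subgroup.mul_mem _
        (Subgroup.mul_mem _ (Subgroup.inv_mem _ hg')
          (Subgroup.mul_mem _ (Subgroup.inv_mem _ (hQ t ht)) x1)) hg', (cen _).2 fun k hk => ?_⟩
      have hk' := (S.conj (sub hy) (sub hf) hg).1 hk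
      have e' := ((H.comm t ht _ hk').inv_left.mul_left ((cen x).1 x2 _ hk')).eq
      calc g⁻¹ * ((N₀ t)⁻¹ * x) * g * k = g⁻¹ * ((N₀ t)⁻¹ * x * (g * k * g⁻¹)) * g := by group
        _ = k * (g⁻¹ * ((N₀ t)⁻¹ * x) * g) := by rw [e']; group)
    (by
      rintro ⟨⟨y, g⟩, hy, hg⟩ ⟨⟨y', g'⟩, hy', hg'⟩ e a b
      have k : (T.L.f y).1.c = (T.L.f y').1.c ∧ R.Mv P y'.1 g (T.L.f y').1 := by
        rcases h2 y y' hy hy' e a b with k | ⟨k1, k2, k3⟩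
        · rw [k]; exact ⟨rfl, hg⟩
        · rw [k1, k2]; exact ⟨(Gm.opp_c _).symm, S.mv_opp k3 hg⟩
      refine ⟨k.1, fun x hx => ?_⟩
      have hk := S.coset' (sub ((T.L.mem y').2 hy')) k.2 hg'
      obtain ⟨-, -, -, -, -, -, k3⟩ := key S H hy hg
      have k4 := k3 _ hk
      have k5 := ((cen x).1 hx.2 _ hk).eq
      rw [inv_mul_cancel_right] at k4
      change (θ g)⁻¹ * x * g = (θ g')⁻¹ * x * g'
      calc (θ g)⁻¹ * x * g = (θ g)⁻¹ * (g' * g⁻¹)⁻¹ * (g' * g⁻¹ * x) * g := by group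
        _ = _ := by rw [← k5, k4]; group)
  have hc : ∀ t, ∀ k ∈ R.KK P p q, Commute (N t) k := fun t => (cen _).1 (N2 t).2
  refine ⟨N, N1, fun t => (N2 t).1, hc, fun g φ u v hm => ?_⟩
  refine const_of_germs (c := fun t => N (φ.ap t) * g * (N t)⁻¹) hm.1.le fun γ hγ => ?_
  obtain ⟨a1, a2, a3⟩ := hm.mem hγ
  obtain ⟨n, hn⟩ := (T.sat γ a1 _ a2).2 (LG.rw_arc_iff.2 ⟨sub a1, sub a2, g, a3⟩)
  have k := (LS.LsBA.ind T.L (y := (γ, true)) (Q := fun β => β ∈ GI T.z T.z' ∧ Lc R P N γ β)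
    ⟨a1, Lc.refl γ⟩ (fun z k => ⟨(T.L.mem z).2 k.1,
      k.2.trans (step (fun y g a b => N3 ⟨(y, g), a, b⟩) k.1)⟩) n).2
  rw [hn] at k
  obtain ⟨g₀, b1, r, r0, b2⟩ := k
  have hk := S.coset' (sub a2) b1 a3
  have e : ∀ a b, N a * g * (N b)⁻¹ = g * g₀⁻¹ * (N a * g₀ * (N b)⁻¹) := fun a b => by
    calc N a * g * (N b)⁻¹ = N a * (g * g₀⁻¹) * g₀ * (N b)⁻¹ := by group
      _ = _ := by rw [(hc a _ hk).eq]; group
  refine ⟨r, r0, fun s hs => ?_⟩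
  have b3 := b2 s hs
  rw [Gm.mul_ap, Gm.mul_c'] at b3
  rw [e, e (φ.ap γ.c), b3]

end Pool.Agent.P.MP_dba3d2_lc


end

section

/-! Step D_GENQ of the stability project. -/

namespace Pool.Agent.P.MP_dba3d2_lc

open Set Filter Topology

namespace D_genqA

variable {R : LG} {P : ℝ → R.W} {p q : ℝ} {Ω : Finset ℝ} {c : ℕ} (T : Stg R P p q Ω c)

theorem inv_gens {g : R.W} (h : g ∈ T.gens) : g⁻¹ ∈ T.gens := by
  rcases h with h | ⟨y, ⟨h1, h2, h3⟩, h⟩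
  · exact Or.inl (LG.Stb.inv_mem h)
  · refine Or.inr ⟨fl (T.L.f y), ⟨(T.L.mem y).2 h1, h3, ?_⟩, ?_⟩ <;> rw [T.L.rev]
    exacts [h2, h.symm]

theorem step (S : R.Stb P p q) {y : Gm × Bool} (hy : y.1 ∈ GI T.z T.z') {g : R.W}
    (h : R.Mv P y.1 g (T.L.f y).1) : g ∈ T.gens := by
  obtain ⟨y₁, h1, φ, u, v, h2, h3, h4, h5, h6⟩ := T.cov y hy
  exact Or.inr ⟨y₁, h1, h6 ▸ (S.rl_of_mv h2 h3 (h5 ▸ h)).mv h4⟩

theorem chain (S : R.Stb P p q) {γ : Gm} (hγ : γ ∈ GI T.z T.z') (n : ℤ) :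
    ∃ g ∈ Subgroup.closure T.gens, R.Mv P γ g (T.L.at' (γ, true) n) := by
  refine (LS.LsBA.ind T.L (y := (γ, true))
    (Q := fun β => β ∈ GI T.z T.z' ∧ ∃ g ∈ Subgroup.closure T.gens, R.Mv P γ g β)
    ⟨hγ, 1, one_mem _, LG.mv_one P γ⟩ ?_ n).2
  rintro y ⟨hy, g, h1, h2⟩
  obtain ⟨-, -, g', h3⟩ := LG.rw_arc_iff.1 (T.sat.weak y hy)
  exact ⟨(T.L.mem y).2 hy, g' * g, mul_mem (Subgroup.subset_closure (step T S hy h3)) h1,
    h2.trans h3⟩

end D_genqA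

open D_genqA

theorem p_D_GENQ :
    S_D_GENQ := by
  intro R P p q S Ω c T
  have sub : GI T.z T.z' ⊆ GI p q := GI_mono T.lo T.hi
  have e : Subgroup.closure T.gens = R.QJ P T.z T.z' := by
    refine le_antisymm ((Subgroup.closure_le _).2 ?_) ((Subgroup.closure_le _).2 ?_)
    · rintro g (h | ⟨y, hy, h⟩)
      · exact LG.kk_mem_QJ h T.lo (GI_nonempty.1 T.L.ne) T.hi
      · exact h.mem_QJ hy.1 ((T.L.mem y).2 hy.1)
    · rintro g ⟨φ, u, v, h⟩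
      obtain ⟨h1, h2, h3⟩ := h.mem (tau_mem_GI.2 ⟨le_rfl, h.1⟩)
      obtain ⟨n, hn⟩ := (T.sat _ h1 _ h2).2 (LG.rw_arc_iff.2 ⟨sub h1, sub h2, g, h3⟩)
      obtain ⟨g0, k1, k2⟩ := chain T S h1 n
      have k3 := S.coset (sub h1) (hn ▸ k2) h3
      have k4 := mul_mem k1 (Subgroup.subset_closure (k := T.gens) (Or.inl k3))
      rwa [mul_inv_cancel_left] at k4
  refine ⟨e, fun g hg => ?_⟩
  rw [← e, ← Subgroup.mem_toSubmonoid, Subgroup.closure_toSubmonoid] at hg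
  obtain ⟨l, h1, h2⟩ := Submonoid.exists_list_of_mem_closure hg
  refine ⟨l, fun x hx => (h1 x hx).elim id fun k => ?_, h2⟩
  simpa using inv_gens T (Set.mem_inv.1 k)

end Pool.Agent.P.MP_dba3d2_lc


end

section

/-! Step D_EXTC of the stability project. -/

namespace Pool.Agent.P.MP_dba3d2_lc

open Set Filter Topology

namespace D_extcA

variable {R : RT} {Ad : R.W → Prop} {G : Type} [Group G] {Φ : R.W → G}

/-- geodesic chains of admissible arcs with their values -/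
inductive Gc (Ad : R.W → Prop) (Φ : R.W → G) (x : R.W) : R.W → G → Prop
  | nil : Gc Ad Φ x x 1
  | snoc {y z : R.W} {a : G} : Gc Ad Φ x y a → Ad (y⁻¹ * z) → R.On y x z →
      Gc Ad Φ x z (a * Φ (y⁻¹ * z))

/-- the hypotheses for pairs of points -/
structure Hy (Ad : R.W → Prop) (Φ : R.W → G) : Prop where
  split : ∀ x z m, Ad (x⁻¹ * z) → R.On m x z →
    Ad (x⁻¹ * m) ∧ Ad (m⁻¹ * z) ∧ Φ (x⁻¹ * z) = Φ (x⁻¹ * m) * Φ (m⁻¹ * z)
  inv : ∀ x y, Ad (x⁻¹ * y) → Ad (y⁻¹ * x) ∧ Φ (y⁻¹ * x) = (Φ (x⁻¹ * y))⁻¹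
  zero : ∀ x y, R.d x y = 0 → Ad (x⁻¹ * y)

variable {x y z m : R.W} {a b : G}

theorem Gc.one (h : Ad (x⁻¹ * y)) : Gc Ad Φ x y (Φ (x⁻¹ * y)) := by
  simpa only [one_mul] using Gc.snoc (Φ := Φ) Gc.nil h (LG.on_left x y)

theorem Gc.shift (h : Gc Ad Φ x y a) (g : R.W) : Gc Ad Φ (g * x) (g * y) a := by
  induction h with
  | nil => exact Gc.nil
  | @snoc y z a _ h2 h3 ih =>
    have e : y⁻¹ * z = (g * y)⁻¹ * (g * z) := by group
    rw [e] at h2 ⊢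
    exact ih.snoc h2 ((LG.on_mul_left g).2 h3)

theorem Gc.mem (h : Gc Ad Φ 1 y a) : y ∈ Subgroup.closure {g | Ad g} := by
  induction h with
  | nil => exact one_mem _
  | @snoc y z a _ h2 _ ih =>
    simpa only [mul_inv_cancel_left] using mul_mem ih (Subgroup.subset_closure h2)

variable (H : Hy Ad Φ)
include H

theorem Hy.self (x : R.W) : Φ (x⁻¹ * x) = 1 :=
  left_eq_mul.1 (H.split x x x (H.zero x x (LG.d_self x)) (LG.on_left x x)).2.2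

theorem Hy.val (h : Gc Ad Φ x y a) (k : Ad (x⁻¹ * y)) : a = Φ (x⁻¹ * y) := by
  induction h with
  | nil => exact (H.self x).symm
  | snoc _ _ h3 ih =>
    obtain ⟨k1, -, k3⟩ := H.split _ _ _ k h3
    rw [k3, ih k1]

theorem Hy.cut (h : Gc Ad Φ x y a) (k : R.On m x y) :
    ∃ a1 a2, Gc Ad Φ x m a1 ∧ Gc Ad Φ m y a2 ∧ a = a1 * a2 := by
  induction h with
  | nil =>
    have e : R.d x m = 0 := by
      unfold LG.On at k
      rw [LG.d_self, LG.d_comm m x] at k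
      linarith
    have k1 := H.zero _ _ e
    obtain ⟨k2, k3⟩ := H.inv _ _ k1
    exact ⟨_, _, Gc.one k1, Gc.one k2, by rw [k3, mul_inv_cancel]⟩
  | @snoc y z a h1 h2 h3 ih =>
    rcases le_total (R.d x m) (R.d x y) with l | l
    · obtain ⟨k1, k2⟩ := R.on_of_le k h3 l
      obtain ⟨a1, a2, g1, g2, e⟩ := ih k1
      exact ⟨a1, _, g1, g2.snoc h2 k2, by rw [e, mul_assoc]⟩
    · obtain ⟨k1, k2⟩ := R.on_of_le h3 k l
      obtain ⟨g1, g2, e⟩ := H.split _ _ _ h2 k2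
      exact ⟨_, _, h1.snoc g1 k1, Gc.one g2, by rw [e, mul_assoc]⟩

theorem Hy.app (h : Gc Ad Φ x y a) (k : Ad (y⁻¹ * z)) : Gc Ad Φ x z (a * Φ (y⁻¹ * z)) := by
  obtain ⟨m, k1, k2, k3⟩ := R.exists_centre x y z
  obtain ⟨a1, a2, g1, g2, e⟩ := H.cut h k1
  obtain ⟨l1, l2, l3⟩ := H.split _ _ _ k k2
  obtain ⟨l4, l5⟩ := H.inv _ _ l1
  rw [e, l3, H.val g2 l4, l5, mul_assoc, inv_mul_cancel_left]
  exact g1.snoc l2 k3

theorem Hy.trans (h : Gc Ad Φ x y a) (k : Gc Ad Φ y z b) : Gc Ad Φ x z (a * b) := by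
  induction k with
  | nil => rwa [mul_one]
  | snoc _ h2 _ ih =>
    rw [← mul_assoc]
    exact H.app ih h2

theorem Hy.symm (h : Gc Ad Φ x y a) : Gc Ad Φ y x a⁻¹ := by
  induction h with
  | nil => rw [inv_one]; exact Gc.nil
  | snoc _ h2 _ ih =>
    obtain ⟨k1, k2⟩ := H.inv _ _ h2
    rw [mul_inv_rev, ← k2]
    exact H.trans (Gc.one k1) ih

theorem Hy.uniq (h : Gc Ad Φ x y a) (k : Gc Ad Φ x y b) : a = b :=
  mul_inv_eq_one.1 ((H.val (H.trans h (H.symm k)) (H.zero x x (LG.d_self x))).trans (H.self x))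

theorem Hy.mul (h : Gc Ad Φ 1 x a) (k : Gc Ad Φ 1 y b) : Gc Ad Φ 1 (x * y) (a * b) :=
  H.trans h (by simpa only [mul_one] using k.shift x)

theorem Hy.ex (h : x ∈ Subgroup.closure {g | Ad g}) : ∃ a, Gc Ad Φ 1 x a := by
  induction h using Subgroup.closure_induction with
  | mem x hx => exact ⟨_, Gc.one (by rw [inv_one, one_mul]; exact hx)⟩
  | one => exact ⟨1, Gc.nil⟩
  | mul x y _ _ hx hy => exact let ⟨_, a⟩ := hx; let ⟨_, b⟩ := hy; ⟨_, H.mul a b⟩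
  | inv x _ hx =>
    obtain ⟨a, h⟩ := hx
    exact ⟨a⁻¹, by simpa only [inv_mul_cancel, mul_one] using (H.symm h).shift x⁻¹⟩

end D_extcA

open D_extcA in
theorem p_D_EXTC :
    S_D_EXTC := by
  intro R Ad G _ Φ h1 h2 h3
  have H : Hy Ad Φ := by
    refine ⟨fun x z m k l => ?_, fun x y k => ?_, fun x y k => h3 _ k⟩
    · have e : m⁻¹ * z = (x⁻¹ * m)⁻¹ * (x⁻¹ * z) := by group
      rw [e]
      refine h1 _ _ k ?_
      rw [← inv_mul_cancel x]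
      exact (LG.on_mul_left _).2 l
    · have e : y⁻¹ * x = (x⁻¹ * y)⁻¹ := by group
      rw [e]
      exact h2 _ k
  refine ⟨fun h hh p hp => ?_, ?_⟩
  · obtain ⟨a, k⟩ := H.ex hh
    obtain ⟨_, _, k1, -, -⟩ := H.cut k hp
    exact k1.mem
  · choose σ hσ using fun t : Subgroup.closure {g | Ad g} => H.ex t.2
    refine ⟨MonoidHom.mk' σ fun s t => H.uniq (hσ (s * t)) (H.mul (hσ s) (hσ t)), fun t ht => ?_⟩
    have e := H.val (hσ t) (by rw [inv_one, one_mul]; exact ht)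
    rwa [inv_one, one_mul] at e

end Pool.Agent.P.MP_dba3d2_lc


end
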