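import Pool.Agent.P.MP_dba3d2_lcM.Db47
import Pool.Agent.P.MP_dba3d2_lcM.Db51
import Pool.Agent.P.MP_dba3d2_lcM.Db53
import Pool.Agent.P.MP_dba3d2_lcM.Db59

section

/-! Step D_EXT of the stability project. -/

namespace Pool.Agent.P.MP_dba3d2_lc

open Set Filter Topology

namespace D_extA

variable {R : RT} {P N : ℝ → R.W} {p q u v u' v' : ℝ} {w w' : R.W}

theorem uniq (hP : R.IsoOn P p q) (hN : R.Eqv P p q N) (hu : u ∈ Icc p q) (hv : v ∈ Icc p q)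
    (hu' : u' ∈ Icc p q) (hv' : v' ∈ Icc p q) (e1 : R.d (w * P u) (w' * P u') = 0)
    (e2 : R.d (w * P v) (w' * P v') = 0) :
    w * ((N u)⁻¹ * N v) * w⁻¹ = w' * ((N u')⁻¹ * N v') * w'⁻¹ := by
  obtain ⟨φ, rfl, rfl, k⟩ := R.exists_gm (g := w'⁻¹ * w) hP hP hu hv hu' hv'
    (by rwa [mul_assoc, LG.d_inv_mul]) (by rwa [mul_assoc, LG.d_inv_mul])
  have e : N (φ.ap u) * (w'⁻¹ * w) * (N u)⁻¹ = N (φ.ap v) * (w'⁻¹ * w) * (N v)⁻¹ := by
    rcases lt_trichotomy u v with h | rfl | h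
    · rw [uIcc_of_le h.le] at k
      exact hN _ φ u v ⟨h, fun t ht => ⟨Icc_subset_Icc hu.1 hv.2 ht,
        uIcc_subset_Icc hu' hv' (k t ht).1⟩, fun t ht => (k t ht).2⟩
    · rfl
    · rw [uIcc_of_ge h.le] at k
      exact (hN _ φ v u ⟨h, fun t ht => ⟨Icc_subset_Icc hv.1 hu.2 ht,
        uIcc_subset_Icc hu' hv' (k t ht).1⟩, fun t ht => (k t ht).2⟩).symm
  calc w * ((N u)⁻¹ * N v) * w⁻¹
      = w' * (N (φ.ap u))⁻¹ * (N (φ.ap u) * (w'⁻¹ * w) * (N u)⁻¹) * N v * w⁻¹ := by group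
    _ = _ := by rw [e]; group

theorem exists_val (hP : R.IsoOn P p q) (hN : R.Eqv P p q N) : ∃ Φ : R.W → R.W,
    (∀ g w, ∀ u ∈ Icc p q, ∀ v ∈ Icc p q, R.d 1 (w * P u) = 0 → R.d g (w * P v) = 0 →
      Φ g = w * ((N u)⁻¹ * N v) * w⁻¹ * g) ∧ ∀ g, R.Fr P p q 1 g → Φ g = g := by
  have key : ∀ g, ∃ y, (∀ w, ∀ u ∈ Icc p q, ∀ v ∈ Icc p q, R.d 1 (w * P u) = 0 →
      R.d g (w * P v) = 0 → y = w * ((N u)⁻¹ * N v) * w⁻¹ * g) ∧ (R.Fr P p q 1 g → y = g) := by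
    intro g
    by_cases h : R.JA P p q 1 g
    · obtain ⟨w, u, hu, v, hv, h1, h2⟩ := id h
      refine ⟨w * ((N u)⁻¹ * N v) * w⁻¹ * g, fun w' u' hu' v' hv' k1 k2 => ?_, fun k => ?_⟩
      · rw [uniq hP hN hu hv hu' hv' (LG.d_zero_trans (LG.d_zero_symm h1) k1)
          (LG.d_zero_trans (LG.d_zero_symm h2) k2)]
      · have e := k.d_zero h
        rw [LG.d_congr h1 h2, LG.d_mul_left, hP u hu v hv, abs_eq_zero, sub_eq_zero] at e
        rw [e]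
        group
    · exact ⟨g, fun w u hu v hv k1 k2 => (h ⟨w, u, hu, v, hv, k1, k2⟩).elim, fun _ => rfl⟩
  choose Φ h1 h2 using key
  exact ⟨Φ, h1, h2⟩

theorem main (hC : S_D_EXTC) (hP : R.IsoOn P p q) (hN : R.Eqv P p q N) :
    (∀ h ∈ R.T0 P p q, ∀ x, R.On x 1 h → x ∈ R.T0 P p q) ∧ ∃ σ : R.T0 P p q →* R.W,
    (∀ t : R.T0 P p q, R.Fr P p q 1 t → σ t = t) ∧
    ∀ u ∈ Icc p q, ∀ v ∈ Icc p q, ∀ t : R.T0 P p q, (t : R.W) = (P u)⁻¹ * P v →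
      σ t = (P u)⁻¹ * ((N u)⁻¹ * N v) * P v := by
  obtain ⟨Φ, h1, h2⟩ := exists_val hP hN
  obtain ⟨k1, σ, k2⟩ := hC R (fun g => R.JA P p q 1 g ∨ R.Fr P p q 1 g) R.W Φ
    (by
      rintro g x (⟨w, u, hu, v, hv, a1, a2⟩ | a) hx
      · have b1 := (LG.on_mul_left w⁻¹).2 (hx.congr (LG.d_self _) a1 a2)
        rw [inv_mul_cancel_left, inv_mul_cancel_left] at b1
        obtain ⟨t, ht, e⟩ := R.exists_param hP hu hv b1
        rw [LG.d_inv_mul] at e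
        have ht' := uIcc_subset_Icc hu hv ht
        have b2 : R.d 1 (x⁻¹ * w * P t) = 0 := by
          rwa [← LG.d_mul_left x, mul_one, mul_assoc, mul_inv_cancel_left]
        have b3 : R.d (x⁻¹ * g) (x⁻¹ * w * P v) = 0 := by rwa [mul_assoc, LG.d_mul_left]
        refine ⟨Or.inl ⟨w, u, hu, t, ht', a1, e⟩, Or.inl ⟨_, t, ht', v, hv, b2, b3⟩, ?_⟩
        rw [h1 g w u hu v hv a1 a2, h1 x w u hu t ht' a1 e, h1 _ _ t ht' v hv b2 b3]
        group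
      · have b1 := RT.fr_sub a (LG.on_left _ _) hx
        have b2 := (LG.fr_mul_left x⁻¹).2 (RT.fr_sub a hx (LG.on_right _ _))
        rw [inv_mul_cancel] at b2
        refine ⟨Or.inr b1, Or.inr b2, ?_⟩
        rw [h2 g a, h2 x b1, h2 _ b2, mul_inv_cancel_left])
    (by
      rintro g (⟨w, u, hu, v, hv, a1, a2⟩ | a)
      · have b2 : R.d 1 (g⁻¹ * w * P v) = 0 := by
          rwa [← LG.d_mul_left g, mul_one, mul_assoc, mul_inv_cancel_left]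
        have b3 : R.d g⁻¹ (g⁻¹ * w * P u) = 0 := by
          rwa [← LG.d_mul_left g, mul_inv_cancel, mul_assoc, mul_inv_cancel_left]
        refine ⟨Or.inl ⟨_, v, hv, u, hu, b2, b3⟩, ?_⟩
        rw [h1 g w u hu v hv a1 a2, h1 _ _ v hv u hu b2 b3]
        group
      · have b2 := (LG.fr_mul_left g⁻¹).2 a.symm
        rw [inv_mul_cancel, mul_one] at b2
        exact ⟨Or.inr b2, by rw [h2 g a, h2 _ b2]⟩)
    fun z hz => Or.inr (LG.fr_tiny hz)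
  refine ⟨k1, σ, fun t ht => (k2 t (Or.inr ht)).trans (h2 _ ht), fun u hu v hv t ht => ?_⟩
  have b2 : R.d 1 ((P u)⁻¹ * P u) = 0 := by rw [inv_mul_cancel, LG.d_self]
  have b3 : R.d t ((P u)⁻¹ * P v) = 0 := by rw [ht, LG.d_self]
  refine (k2 t (Or.inl ⟨_, u, hu, v, hv, b2, b3⟩)).trans ?_
  rw [h1 _ _ u hu v hv b2 b3, ht]
  group

end D_extA

theorem p_D_EXT (hD_EXTC : S_D_EXTC) :
    S_D_EXT := fun _ _ _ _ hP =>
  ⟨(D_extA.main (N := fun _ => 1) hD_EXTC hP fun _ _ _ _ _ => rfl).1,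
    fun _ hN => (D_extA.main hD_EXTC hP hN).2⟩

end Pool.Agent.P.MP_dba3d2_lc


end

section

/-! Step D_SHOM of the stability project. -/

namespace Pool.Agent.P.MP_dba3d2_lc

open Set Filter Topology

theorem p_D_SHOM (hD_EXT : S_D_EXT) :
    S_D_SHOM := by
  intro R P p q hpq hP N hN
  obtain ⟨σ, h1, h2⟩ := (hD_EXT R P p q hP).2 N hN
  have hp : p ∈ Icc p q := ⟨le_rfl, hpq.le⟩
  let c : R.QJ P p q →* R.T0 P p q := MonoidHom.mk'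
    (fun g => ⟨(P p)⁻¹ * g * P p, LG.conj_mem_T0 g.2 hp hp⟩) fun g g' => Subtype.ext (by
      simp only [Subgroup.coe_mul]
      group)
  let s : R.QJ P p q →* R.W := MonoidHom.mk'
    (fun g => N p * P p * σ (c g) * (N p * P p)⁻¹) fun g g' => by
      rw [map_mul, map_mul]
      group
  have key : ∀ u ∈ Icc p q, ∀ v ∈ Icc p q, ∀ (g : R.QJ P p q) (t : R.T0 P p q),
      (t : R.W) = (P u)⁻¹ * g * P v → σ t = (P u)⁻¹ * ((N u)⁻¹ * s g * N v) * P v := by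
    intro u hu v hv g t ht
    have e : t = ⟨_, LG.path_mem_T0 hu hp⟩ * c g * ⟨_, LG.path_mem_T0 hp hv⟩ := Subtype.ext (by
      change _ = (P u)⁻¹ * P p * ((P p)⁻¹ * g * P p) * ((P p)⁻¹ * P v)
      rw [ht]
      group)
    rw [e, map_mul, map_mul, h2 u hu p hp ⟨_, LG.path_mem_T0 hu hp⟩ rfl,
      h2 p hp v hv ⟨_, LG.path_mem_T0 hp hv⟩ rfl]
    change _ = (P u)⁻¹ * ((N u)⁻¹ * (N p * P p * σ (c g) * (N p * P p)⁻¹) * N v) * P v
    group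
  refine ⟨σ, s, h1, key, fun u hu v hv g hg => ?_⟩
  have hz : R.ℓ ((P v)⁻¹ * g * P u) = 0 := by
    rw [mul_assoc]
    exact LG.d_zero_symm hg
  have e := key v hv u hu g ⟨_, LG.tiny_mem_T0 hz⟩ rfl
  rw [h1 _ (LG.fr_tiny hz)] at e
  have e' : (g : R.W) = (N v)⁻¹ * s g * N u := mul_left_cancel (mul_right_cancel e)
  conv_rhs => rw [e']
  group

end Pool.Agent.P.MP_dba3d2_lc


end

section

/-! Step D_AUT of the stability project. -/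

namespace Pool.Agent.P.MP_dba3d2_lc

open Set Filter Topology

namespace D_autA

variable {R : RT} {P : ℝ → R.W} {p q : ℝ}

/-- generators of the convex subgroup -/
theorem top (H : Subgroup (R.T0 P p q)) (h1 : ∀ t : R.T0 P p q, R.Fr P p q 1 t → t ∈ H)
    (h2 : ∀ u ∈ Icc p q, ∀ v ∈ Icc p q, ∀ t : R.T0 P p q, (t : R.W) = (P u)⁻¹ * P v → t ∈ H)
    (t : R.T0 P p q) : t ∈ H := by
  have e : (⊤ : Subgroup (R.T0 P p q)) ≤ H := by
    refine Subgroup.closure_closure_coe_preimage.symm.trans_le ((Subgroup.closure_le H).2 ?_)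
    rintro t (⟨w, u, hu, v, hv, k1, k2⟩ | k)
    · rw [LG.d_one] at k1
      have a := H.mul_mem (H.mul_mem (h1 ⟨_, LG.tiny_mem_T0 k1⟩ (LG.fr_tiny k1))
        (h2 u hu v hv ⟨_, LG.path_mem_T0 hu hv⟩ rfl))
        (H.inv_mem (h1 ⟨_, LG.tiny_mem_T0 k2⟩ (LG.fr_tiny k2)))
      refine (Subtype.ext ?_ : _ = t) ▸ a
      simp only [Subgroup.coe_mul, Subgroup.coe_inv]
      group
    · exact h1 t k
  exact e trivial

/-- the endomorphism of the convex subgroup -/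
theorem hom (h : S_D_SHOM) (hpq : p < q) (hP : R.IsoOn P p q) (n : ℝ → R.QJ P p q)
    (s : R.QJ P p q →* R.QJ P p q)
    (hs : ∀ (g : R.QJ P p q) φ u v, R.Mover P p q g φ u v →
      s g = n (φ.ap u) * g * (n u)⁻¹ ∧ s g = n (φ.ap v) * g * (n v)⁻¹) :
    ∃ σ : R.T0 P p q →* R.T0 P p q, (∀ t : R.T0 P p q, R.Fr P p q 1 t → σ t = t) ∧
      ∀ u ∈ Icc p q, ∀ v ∈ Icc p q, ∀ (g : R.QJ P p q) (t : R.T0 P p q),
        (t : R.W) = (P u)⁻¹ * g * P v →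
          (σ t : R.W) = (P u)⁻¹ * ((n u)⁻¹ * s g * n v : R.QJ P p q) * P v := by
  obtain ⟨σ, s0, h1, h2, h3⟩ := h R P p q hpq hP (fun t => n t) fun g φ u v k => by
    have a := hs ⟨g, Subgroup.subset_closure ⟨φ, u, v, k⟩⟩ φ u v k
    exact congrArg Subtype.val (a.1.symm.trans a.2)
  have e : s0 = (R.QJ P p q).subtype.comp s := by
    refine MonoidHom.eq_of_eqOn_dense Subgroup.closure_closure_coe_preimage ?_
    rintro g ⟨φ, u, v, k⟩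
    have hu : u ∈ Icc u v := ⟨le_rfl, k.1.le⟩
    exact (h3 u (k.2.1 u hu).1 _ (k.2.1 u hu).2 g (k.2.2 u hu)).trans
      (congrArg Subtype.val (hs g φ u v k).1.symm)
  subst e
  have m : ∀ t, σ t ∈ R.T0 P p q := top ((R.T0 P p q).comap σ)
    (fun t k => Subgroup.mem_comap.2 (h1 t k ▸ t.2)) fun u hu v hv t k => by
      rw [Subgroup.mem_comap, h2 u hu v hv 1 t (by simpa using k)]
      exact LG.conj_mem_T0 ((n u)⁻¹ * s 1 * n v).2 hu hv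
  exact ⟨σ.codRestrict _ m, fun t k => Subtype.ext (h1 t k), h2⟩

end D_autA

open D_autA in
theorem p_D_AUT (hD_SHOM : S_D_SHOM) :
    S_D_AUT := by
  intro R P p q hpq hP N hN hQ s hs
  obtain ⟨n, rfl⟩ : ∃ n : ℝ → R.QJ P p q, N = fun t => (n t : R.W) := ⟨fun t => ⟨_, hQ t⟩, rfl⟩
  have h0 : ∀ (g : R.QJ P p q) φ u v, R.Mover P p q g φ u v →
      s g = n (φ.ap u) * g * (n u)⁻¹ ∧ s g = n (φ.ap v) * g * (n v)⁻¹ := fun g φ u v k =>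
    ⟨Subtype.ext (hs g φ u v k), Subtype.ext ((hs g φ u v k).trans (hN g φ u v k))⟩
  have key : ∀ g a b : R.QJ P p q, s g = a * g * b⁻¹ →
      s.symm g = (s.symm a)⁻¹ * g * ((s.symm b)⁻¹)⁻¹ := fun g a b k => by
    apply s.injective
    simp only [map_mul, map_inv, s.apply_symm_apply, k]
    group
  obtain ⟨σ0, a1, a2⟩ := hom hD_SHOM hpq hP n s h0
  obtain ⟨σ1, b1, b2⟩ := hom hD_SHOM hpq hP (fun t => (s.symm (n t))⁻¹) s.symm
    fun g φ u v k => ⟨key _ _ _ (h0 g φ u v k).1, key _ _ _ (h0 g φ u v k).2⟩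
  refine ⟨MonoidHom.toMulEquiv σ0 σ1 (MonoidHom.ext ?_) (MonoidHom.ext ?_), a1, a2⟩
  · refine top ((σ1.comp σ0).eqLocus (MonoidHom.id _)) (fun t k => ?_) fun u hu v hv t k => ?_
    · show σ1 (σ0 t) = t
      rw [a1 t k, b1 t k]
    · refine Subtype.ext ((b2 u hu v hv _ _ (a2 u hu v hv 1 t (by simpa using k))).trans ?_)
      simp [k]
  · refine top ((σ0.comp σ1).eqLocus (MonoidHom.id _)) (fun t k => ?_) fun u hu v hv t k => ?_
    · show σ0 (σ1 t) = t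
      rw [b1 t k, a1 t k]
    · refine Subtype.ext ((a2 u hu v hv _ _ (b2 u hu v hv 1 t (by simpa using k))).trans ?_)
      simp [k]

end Pool.Agent.P.MP_dba3d2_lc


end

section

/-! Step D_MATCH of the stability project. -/

namespace Pool.Agent.P.MP_dba3d2_lc

open Set Filter Topology

namespace D_matchA

theorem ind {G : Type} [Group G] {Q : Subgroup G} {A : Set G} (hA : Subgroup.closure A = Q)
    (H : Subgroup Q) (h : ∀ g : Q, (g : G) ∈ A → g ∈ H) (g : Q) : g ∈ H := by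
  subst hA
  have e : (⊤ : Subgroup (Subgroup.closure A)) ≤ H :=
    Subgroup.closure_closure_coe_preimage.symm.trans_le ((Subgroup.closure_le H).2 h)
  exact e trivial

theorem equiv {G : Type} [Group G] {Q : Subgroup G} {A A' : Set G} (hA : Subgroup.closure A = Q)
    (hA' : Subgroup.closure A' = Q) (s s' : Q →* G)
    (h : ∀ g : Q, (g : G) ∈ A → s g ∈ A' ∧ ∀ g' : Q, (g' : G) = s g → s' g' = g)
    (h' : ∀ g : Q, (g : G) ∈ A' → s' g ∈ A ∧ ∀ g' : Q, (g' : G) = s' g → s g' = g) :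
    ∃ e : Q ≃* Q, ∀ g, (e g : G) = s g := by
  have m : ∀ g, s g ∈ Q := ind hA (Q.comap s) fun g k =>
    Subgroup.mem_comap.2 (hA'.le (Subgroup.subset_closure (h g k).1))
  have m' : ∀ g, s' g ∈ Q := ind hA' (Q.comap s') fun g k =>
    Subgroup.mem_comap.2 (hA.le (Subgroup.subset_closure (h' g k).1))
  refine ⟨MonoidHom.toMulEquiv (s.codRestrict Q m) (s'.codRestrict Q m') (MonoidHom.ext ?_)
    (MonoidHom.ext ?_), fun g => rfl⟩
  · exact ind hA (((s'.codRestrict Q m').comp (s.codRestrict Q m)).eqLocus (MonoidHom.id _))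
      fun g k => Subtype.ext ((h g k).2 _ rfl)
  · exact ind hA' (((s.codRestrict Q m).comp (s'.codRestrict Q m')).eqLocus (MonoidHom.id _))
      fun g k => Subtype.ext ((h' g k).2 _ rfl)

variable {R : RT} {P : ℝ → R.W} {p q : ℝ} {Ω : Finset ℝ} {c : ℕ}

theorem lt (T : Stg R.toLG P p q Ω c) : T.z < T.z' := by
  obtain ⟨γ, h⟩ := T.L.ne
  exact lt_of_mem_GI h

theorem memV (T : Stg R.toLG P p q Ω c) {t : ℝ} (h : t ∈ T.V) : t ∈ Icc T.z T.z' := by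
  obtain ⟨y, h1, rfl⟩ := T.src t h
  exact c_mem_of_GI h1.1

theorem half (hD : S_D_DEFORM) (hS : S_D_SHOM) (S : R.Stb P p q) (T T' : Stg R.toLG P p q Ω c)
    {N : ℝ → R.W} {θ θ' : R.W → R.W} (H : T.Half T' N θ θ')
    (hN : ∀ t ∈ T.V, N t ∈ R.QJ P T.z T.z') :
    ∃ (M : ℝ → R.W) (s : R.QJ P T.z T.z' →* R.W), (∀ t ∈ T.V, M t = N t) ∧
      (∀ t, M t ∈ R.QJ P T.z T.z') ∧ R.Eqv P T.z T.z' M ∧
      (∀ (g : R.QJ P T.z T.z') φ u v, R.Mover P T.z T.z' g φ u v →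
        s g = M (φ.ap u) * g * (M u)⁻¹) ∧
      (∀ g : R.QJ P T.z T.z', (g : R.W) ∈ R.KK P p q → s g = g) ∧
      ∀ y ∈ T.L.DS T.V, ∀ g : R.QJ P T.z T.z', R.Mv P y.1 g (T.L.f y).1 → s g = θ g := by
  obtain ⟨M, m1, m2, m3, m4⟩ := hD R.toLG P p q S Ω c T T' N θ θ' H hN
  obtain ⟨_, s, _, _, h3⟩ := hS R P T.z T.z' (lt T) (S.iso.mono T.lo T.hi) M m4
  refine ⟨M, s, m1, m2, m4, fun g φ u v k => ?_, fun g k => ?_, fun y hy g k => ?_⟩
  · have hu : u ∈ Icc u v := ⟨le_rfl, k.1.le⟩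
    exact h3 u (k.2.1 u hu).1 _ (k.2.1 u hu).2 g (k.2.2 u hu)
  · have hz : T.z ∈ Icc T.z T.z' := ⟨le_rfl, (lt T).le⟩
    have e := k T.z ⟨T.lo, (lt T).le.trans T.hi⟩
    rw [Gm.one_ap] at e
    rw [h3 _ hz _ hz g e, (m3 T.z g k).eq, mul_inv_cancel_right]
  · rw [h3 _ (memV T hy.2.1) _ (memV T hy.2.2) g (LG.Mv2.pt k), m1 _ hy.2.1, m1 _ hy.2.2]
    exact (H.val y hy g k).1.symm

theorem dist_le (S : R.Stb P p q) (T : Stg R.toLG P p q Ω c) {s t : ℝ} (hs : s ∈ Icc T.z T.z')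
    (ht : t ∈ Icc T.z T.z') : R.d (P s) (P t) ≤ T.z' - T.z := by
  rw [S.iso.mono T.lo T.hi s hs t ht, abs_le]
  constructor <;> linarith [hs.1, hs.2, ht.1, ht.2]

theorem gen_le (S : R.Stb P p q) (T : Stg R.toLG P p q Ω c) {x : R.W} (hx : x ∈ T.gens) {t : ℝ}
    (ht : t ∈ Icc T.z T.z') : R.d (P t) (x * P t) ≤ 2 * (T.z' - T.z) := by
  rcases hx with k | ⟨y, hy, k⟩
  · have e := k t (Icc_subset_Icc T.lo T.hi ht)
    rw [Gm.one_ap] at e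
    rw [LG.d_zero_symm e]
    linarith [lt T]
  · have e := LG.d_zero_symm (LG.Mv2.pt k)
    have a1 := dist_le S T ht (memV T hy.2.2)
    have a2 := dist_le S T (memV T hy.2.1) ht
    have a3 := LG.d_mul_left x (P y.1.c) (P t)
    have a4 := LG.d_triangle (P t) (P (T.L.f y).1.c) (x * P t)
    have a5 := LG.d_triangle (P (T.L.f y).1.c) (x * P y.1.c) (x * P t)
    linarith

theorem list_le (S : R.Stb P p q) (T' : Stg R.toLG P p q Ω c) {Q : Subgroup R.W} {A : Set R.W}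
    (hA : Subgroup.closure A = Q) (s : Q →* R.W) (h : ∀ g : Q, (g : R.W) ∈ A → s g ∈ T'.gens)
    {t : ℝ} (ht : t ∈ Icc T'.z T'.z') (l : List R.W) (hl : ∀ x ∈ l, x ∈ A) :
    ∃ g : Q, (g : R.W) = l.prod ∧ R.d (P t) (s g * P t) ≤ 2 * l.length * (T'.z' - T'.z) := by
  induction l with
  | nil => exact ⟨1, rfl, by simp⟩
  | cons x l ih =>
    obtain ⟨g, h1, h2⟩ := ih fun y hy => hl y (List.mem_cons_of_mem _ hy)
    have hx : x ∈ A := hl x List.mem_cons_self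
    have hx' : x ∈ Q := hA.le (Subgroup.subset_closure hx)
    refine ⟨⟨x, hx'⟩ * g, by rw [Subgroup.coe_mul, h1, List.prod_cons], ?_⟩
    have a1 := gen_le S T' (h ⟨x, hx'⟩ hx) ht
    have a2 := LG.d_triangle (P t) (s ⟨x, hx'⟩ * P t) (s ⟨x, hx'⟩ * (s g * P t))
    have a3 := LG.d_mul_left (s ⟨x, hx'⟩) (P t) (s g * P t)
    rw [map_mul, mul_assoc, List.length_cons]
    push_cast
    linarith

end D_matchA

open D_matchA in
theorem p_D_MATCH (hD_DEFORM : S_D_DEFORM) (hD_GENQ : S_D_GENQ) (hD_SHOM : S_D_SHOM) (hD_AUT : S_D_AUT) :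
    S_D_MATCH := by
  intro R P p q S Ω c T T' N N' θ θ' H H' hQ hN hN'
  obtain ⟨M, s, m1, m2, m3, m4, m5, m6⟩ := half hD_DEFORM hD_SHOM S T T' H hN
  obtain ⟨M', s0, -, -, -, -, n5, n6⟩ := half hD_DEFORM hD_SHOM S T' T H' fun t ht => hQ.ge (hN' t ht)
  let s' : R.QJ P T.z T.z' →* R.W := s0.comp (Subgroup.inclusion hQ.ge)
  have k5 : ∀ g : R.QJ P T.z T.z', (g : R.W) ∈ R.KK P p q → s' g = g := fun g k =>
    n5 (Subgroup.inclusion hQ.ge g) k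
  have k6 : ∀ y ∈ T'.L.DS T'.V, ∀ g : R.QJ P T.z T.z', R.Mv P y.1 g (T'.L.f y).1 → s' g = θ' g :=
    fun y hy g k => n6 y hy (Subgroup.inclusion hQ.ge g) k
  have g1 := (hD_GENQ R.toLG P p q S Ω c T).1
  have g2 := (hD_GENQ R.toLG P p q S Ω c T').1.trans hQ
  have f1 : ∀ g : R.QJ P T.z T.z', (g : R.W) ∈ T.gens →
      s g ∈ T'.gens ∧ ∀ g' : R.QJ P T.z T.z', (g' : R.W) = s g → s' g' = g := by
    rintro g (k | ⟨y, hy, k⟩)
    · rw [m5 g k]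
      exact ⟨Or.inl k, fun g' e => by rw [k5 g' (e ▸ k), e]⟩
    · obtain ⟨-, a2, y', a3, a4⟩ := H.val y hy g k
      rw [m6 y hy g k]
      exact ⟨Or.inr ⟨y', a3, a4⟩, fun g' e => by rw [k6 y' a3 g' (e ▸ a4), e, a2]⟩
  have f2 : ∀ g : R.QJ P T.z T.z', (g : R.W) ∈ T'.gens →
      s' g ∈ T.gens ∧ ∀ g' : R.QJ P T.z T.z', (g' : R.W) = s' g → s g' = g := by
    rintro g (k | ⟨y, hy, k⟩)
    · rw [k5 g k]
      exact ⟨Or.inl k, fun g' e => by rw [m5 g' (e ▸ k), e]⟩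
    · obtain ⟨-, a2, y', a3, a4⟩ := H'.val y hy g k
      rw [k6 y hy g k]
      exact ⟨Or.inr ⟨y', a3, a4⟩, fun g' e => by rw [m6 y' a3 g' (e ▸ a4), e, a2]⟩
  obtain ⟨e, he⟩ := equiv g1 g2 s s' f1 f2
  obtain ⟨σ, b1, b2⟩ := hD_AUT R P T.z T.z' (lt T) (S.iso.mono T.lo T.hi) M m3 m2 e
    fun g φ u v k => (he g).trans (m4 g φ u v k)
  refine ⟨σ, b1, fun u hu v hv l hl t ht => ?_⟩
  obtain ⟨β, β', rfl, c1, c2, -⟩ := H.mv u hu
  obtain ⟨α, α', rfl, d1, d2, -⟩ := H.mv v hv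
  obtain ⟨g, e1, e2⟩ := list_le S T' g1 s (fun g k => (f1 g k).1) (memV T' d1) l hl
  rw [b2 _ (memV T hu) _ (memV T hv) g t (by rw [ht, e1]), he, m1 _ hu, m1 _ hv]
  have e3 : R.ℓ ((P β.c)⁻¹ * ((N β.c)⁻¹ * s g * N α.c) * P α.c) =
      R.d (N β.c * P β.c) (s g * (N α.c * P α.c)) := by
    rw [LG.d]
    congr 1
    group
  have e4 : R.d (N β.c * P β.c) (s g * (N α.c * P α.c)) = R.d (P β'.c) (s g * P α'.c) :=
    LG.d_congr (LG.Mv2.pt c2) ((LG.d_mul_left _ _ _).trans (LG.Mv2.pt d2))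
  have a1 := dist_le S T' (memV T' c1) (memV T' d1)
  have a2 := LG.d_triangle (P β'.c) (P α'.c) (s g * P α'.c)
  rw [e3, e4]
  linarith

end Pool.Agent.P.MP_dba3d2_lc


end

section

/-! Step D_T0EQ of the stability project. -/

namespace Pool.Agent.P.MP_dba3d2_lc

open Set Filter Topology

namespace D_t0eqA

variable {R : RT} {P : ℝ → R.W} {p q p' q' u v : ℝ} {w x y x' y' : R.W}

theorem fwd (H : ∀ γ ∈ GI p q, ∃ g, ∃ β ∈ GI p' q', R.Mv P γ g β) (h1 : p ≤ u) (h2 : u < q) :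
    ∃ r > 0, ∀ s, 0 < s → s ≤ r → R.JA P p' q' (P u) (P (u + s)) := by
  obtain ⟨g, β, hβ, k⟩ := H _ (tau_mem_GI.2 ⟨h1, h2⟩)
  obtain ⟨r, r0, hr⟩ := LG.Mv2.ja k hβ
  refine ⟨r, r0, fun s s0 s1 => ?_⟩
  simpa [add_comm] using hr 0 ⟨le_rfl, r0.le⟩ s ⟨s0.le, s1⟩

theorem bwd (H : ∀ γ ∈ GI p q, ∃ g, ∃ β ∈ GI p' q', R.Mv P γ g β) (h1 : p < u) (h2 : u ≤ q) :
    ∃ r > 0, ∀ s, 0 < s → s ≤ r → R.JA P p' q' (P (u - s)) (P u) := by
  obtain ⟨g, β, hβ, k⟩ := H _ (opp_tau_mem_GI.2 ⟨h1, h2⟩)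
  obtain ⟨r, r0, hr⟩ := LG.Mv2.ja k hβ
  refine ⟨r, r0, fun s s0 s1 => ?_⟩
  simpa [neg_add_eq_sub] using hr s ⟨s0.le, s1⟩ 0 ⟨le_rfl, r0.le⟩

theorem no_arc (hP : R.IsoOn P p q) (H : ∀ γ ∈ GI p q, ∃ g, ∃ β ∈ GI p' q', R.Mv P γ g β)
    (h : R.Fr P p' q' x y) (k1 : R.On x' x y) (k2 : R.On y' x y) (hu : u ∈ Icc p q)
    (hv : v ∈ Icc p q) (e1 : R.d x' (w * P u) = 0) (e2 : R.d y' (w * P v) = 0) : ¬u < v := by
  intro huv
  obtain ⟨r, r0, hr⟩ := fwd H hu.1 (huv.trans_le hv.2)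
  have s0 : 0 < min r (v - u) := lt_min r0 (sub_pos.2 huv)
  have s1 : u + min r (v - u) ∈ Icc u v :=
    ⟨by linarith, by linarith [min_le_right r (v - u)]⟩
  have a1 : R.On (w * P (u + min r (v - u))) x' y' :=
    ((LG.on_mul_left w).2 (hP.on hu hv (Icc_subset_uIcc s1))).congr (LG.d_self _)
      (LG.d_zero_symm e1) (LG.d_zero_symm e2)
  have a2 := h _ _ k1 (R.on_sub k1 k2 a1) (((LG.ja_mul_left w).2
    (hr _ s0 (min_le_left _ _))).congr (LG.d_zero_symm e1) (LG.d_self _))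
  rw [LG.d_congr e1 (LG.d_self _), LG.d_mul_left, hP _ hu _ (Icc_subset_Icc hu.1 hv.2 s1),
    abs_eq_zero] at a2
  linarith

theorem path (H : ∀ γ ∈ GI p q, ∃ g, ∃ β ∈ GI p' q', R.Mv P γ g β) (hu : u ∈ Icc p q)
    (hv : v ∈ Icc p q) (huv : u ≤ v) : (P u)⁻¹ * P v ∈ R.T0 P p' q' := by
  have tr : ∀ {s t : ℝ}, (P u)⁻¹ * P s ∈ R.T0 P p' q' → R.JA P p' q' (P s) (P t) →
      (P u)⁻¹ * P t ∈ R.T0 P p' q' := fun a b => by
    simpa [mul_assoc] using mul_mem a b.mem_T0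
  refine real_ind (p := fun t => (P u)⁻¹ * P t ∈ R.T0 P p' q') huv (by simp)
    (fun t a b c => ?_) fun t a b c => ?_
  · obtain ⟨r, r0, hr⟩ := fwd H (hu.1.trans a) (b.trans_le hv.2)
    exact ⟨r, r0, fun s s0 s1 => tr c (hr s s0 s1)⟩
  · obtain ⟨r, r0, hr⟩ := bwd H (hu.1.trans_lt a) (b.trans hv.2)
    have s0 : 0 < min r (t - u) := lt_min r0 (sub_pos.2 a)
    exact tr (c _ (by linarith [min_le_right r (t - u)]) (by linarith)) (hr _ s0 (min_le_left _ _))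

end D_t0eqA

open D_t0eqA in
theorem p_D_T0EQ :
    S_D_T0EQ := by
  intro R P p q p' q' hP h1 h2 H
  have key : ∀ x y, R.Fr P p' q' x y ↔ R.Fr P p q x y := fun x y => by
    refine ⟨fun h x' y' k1 k2 ⟨w, u, hu, v, hv, e1, e2⟩ => ?_,
      fun h x' y' k1 k2 k => h x' y' k1 k2 (k.mono h1 h2)⟩
    have e : u = v := le_antisymm (not_lt.1 (no_arc hP H h k2 k1 hv hu e2 e1))
      (not_lt.1 (no_arc hP H h k1 k2 hu hv e1 e2))
    exact LG.d_zero_trans e1 (LG.d_zero_symm (e ▸ e2))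
  refine ⟨key, le_antisymm (Subgroup.closure_mono fun g hg =>
    hg.imp (fun k => k.mono h1 h2) (key 1 g).1) ((Subgroup.closure_le _).2 ?_)⟩
  rintro g (⟨w, u, hu, v, hv, e1, e2⟩ | hg)
  · have a : (P u)⁻¹ * P v ∈ R.T0 P p' q' := by
      rcases le_total u v with k | k
      · exact path H hu hv k
      · simpa using inv_mem (path H hv hu k)
    have e : g = 1⁻¹ * (w * P u) * ((P u)⁻¹ * P v) * (g⁻¹ * (w * P v))⁻¹ := by group
    rw [SetLike.mem_coe, e]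
    exact mul_mem (mul_mem (LG.tiny_mem_T0 e1) a) (inv_mem (LG.tiny_mem_T0 e2))
  · exact Subgroup.subset_closure (Or.inr ((key 1 g).2 hg))

end Pool.Agent.P.MP_dba3d2_lc


end

section

/-! Step D_QEQ of the stability project. -/

namespace Pool.Agent.P.MP_dba3d2_lc

open Set Filter Topology

namespace D_qeqA

variable {R : LG} {P : ℝ → R.W} {p q : ℝ} {γ β : Gm} {g : R.W}

/-- all elements that move the germ into the segment lie in the group of the segment -/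
def f (R : LG) (P : ℝ → R.W) (p q : ℝ) (γ : Gm) : Prop :=
  ∀ ρ, ∀ β ∈ GI p q, R.Mv P γ ρ β → ρ ∈ R.QJ P p q

theorem f_iff (hβ : β ∈ GI p q) (h : R.Mv P γ g β) : f R P p q γ ↔ g ∈ R.QJ P p q := by
  refine ⟨fun k => k g β hβ h, fun k ρ α hα k' => ?_⟩
  have e := mul_mem ((h.symm.trans k').mem_QJ hβ hα) k
  rwa [inv_mul_cancel_right] at e

end D_qeqA

theorem p_D_QEQ :
    S_D_QEQ := by
  intro R P p q p' q' h1 h2 h3 hin htwo
  have hall : ∀ γ ∈ GI p q, D_qeqA.f R P p' q' γ := by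
    intro γ hγ
    have h0 : Gm.tau p' ∈ GI p' q' := tau_mem_GI.2 ⟨le_rfl, h2⟩
    have e := const_on_GI (f := D_qeqA.f R P p' q') (fun γ hγ => ?_) (fun γ x y => ?_) hγ
      (GI_mono h1 h3 h0)
    · rw [e, D_qeqA.f_iff h0 (LG.mv_one P _)]
      exact one_mem _
    · obtain ⟨g, β, hβ, hg⟩ := hin γ hγ
      have k : ∀ᶠ α in 𝓝 γ, β * γ⁻¹ * α ∈ GI p' q' :=
        (isOpen_GI.preimage (continuous_gm_mul (β * γ⁻¹))).mem_nhds (by simpa using hβ)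
      filter_upwards [hg.eventually, k] with α a1 a2
      rw [D_qeqA.f_iff a2 a1, D_qeqA.f_iff hβ hg]
    · obtain ⟨g, β, b1, b2, k1, k2⟩ := htwo γ x y
      rw [D_qeqA.f_iff (mem_GI_of_Ioo b1 b2) k1,
        D_qeqA.f_iff (mem_GI_of_Ioo (by simpa using b1) (by simpa using b2)) k2]
  refine le_antisymm (LG.QJ_mono h1 h3) ((Subgroup.closure_le _).2 ?_)
  rintro g ⟨φ, u, v, hg⟩
  obtain ⟨k1, k2, k3⟩ := hg.mem (tau_mem_GI.2 ⟨le_rfl, hg.1⟩)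
  obtain ⟨ρ, β, hβ, hρ⟩ := hin _ k2
  have e := mul_mem (inv_mem (hall _ k2 ρ β hβ hρ)) (hall _ k1 _ β hβ (k3.trans hρ))
  rwa [inv_mul_cancel_left] at e

end Pool.Agent.P.MP_dba3d2_lc


end

section

/-! Step D_TYPE of the stability project. -/

namespace Pool.Agent.P.MP_dba3d2_lc

open Set Filter Topology

namespace D_typeA

variable {R : LG} {P : ℝ → R.W} {p q u v : ℝ} {X : Set Gm} {L : LS X} {γ β : Gm}

theorem mv_of_rel (h : L.Sat (R.arc P p q)) (hγ : γ ∈ X) (k : L.Rel γ β) : ∃ g, R.Mv P γ g β :=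
  (LG.rw_arc_iff.1 ((h γ hγ β (k.mem hγ)).1 k)).2.2

theorem visit (h : L.Sat (R.arc P p q)) (huv : u < v) (hX : GI u v ⊆ X) (hγ : γ ∈ X) :
    ∃ g, ∃ β ∈ GI u v, R.Mv P γ g β := by
  obtain ⟨B, hB⟩ := L.exists_visit (isOpen_GI (a := u) (b := v))
    ((GI_nonempty.2 huv).mono fun x hx => ⟨hx, hX hx⟩)
  obtain ⟨n, -, -, hn⟩ := hB (γ, true) hγ
  obtain ⟨g, hg⟩ := mv_of_rel h hγ ⟨n, rfl⟩
  exact ⟨g, _, hn, hg⟩

theorem germ_at (h : p < q) (hu : u ∈ Icc p q) : ∃ α ∈ GI p q, α.c = u := by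
  rcases hu.2.lt_or_eq with k | k
  · exact ⟨Gm.tau u, tau_mem_GI.2 ⟨hu.1, k⟩, rfl⟩
  · exact ⟨(Gm.tau u).opp, opp_tau_mem_GI.2 ⟨k ▸ h, hu.2⟩, by simp⟩

variable {Ω : Finset ℝ} {c : ℕ}

theorem stg_lt (T : Stg R P p q Ω c) : T.z < T.z' :=
  let ⟨_, h⟩ := T.L.ne
  lt_of_mem_GI h

theorem stg_mem (T : Stg R P p q Ω c) (h1 : u < T.z) (h2 : T.z' < v) (h : γ.c ∈ T.V) :
    γ ∈ GI u v := by
  obtain ⟨y, hy, e⟩ := T.src _ h
  have k := c_mem_of_GI hy.1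
  rw [e] at k
  exact mem_GI_of_Ioo (h1.trans_le k.1) (k.2.trans_lt h2)

theorem half_mem {T T' : Stg R P p q Ω c} {N : ℝ → R.W} {θ θ' : R.W → R.W} (H : T.Half T' N θ θ')
    (h1 : u < T.z) (h2 : T.z' < v) (h1' : u < T'.z) (h2' : T'.z' < v) :
    ∀ t ∈ T.V, N t ∈ R.QJ P u v := by
  intro t ht
  obtain ⟨β, β', a1, a2, a3, -⟩ := H.mv t ht
  exact a3.mem_QJ (stg_mem T h1 h2 (a1 ▸ ht)) (stg_mem T' h1' h2' a2)

/-- tiny factors are fixed and do not change lengths -/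
theorem len_eq (σ : R.T0 P p q ≃* R.T0 P p q) (hσ : ∀ t : R.T0 P p q, R.Fr P p q 1 t → σ t = t)
    (t : R.T0 P p q) {z z' : R.W} (hz : R.ℓ z = 0) (hz' : R.ℓ z' = 0) :
    ∃ t' : R.T0 P p q, (t' : R.W) = z * t * z' ∧ R.ℓ (σ t') = R.ℓ (σ t) := by
  refine ⟨⟨z, LG.tiny_mem_T0 hz⟩ * t * ⟨z', LG.tiny_mem_T0 hz'⟩, rfl, ?_⟩
  rw [map_mul, map_mul, hσ _ (LG.fr_tiny hz), hσ ⟨z', _⟩ (LG.fr_tiny hz')]
  exact (LG.l_mul_tiny _ hz').trans (LG.l_tiny_mul hz _)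

end D_typeA

open D_typeA

theorem p_D_TYPE (hD_HULL : S_D_HULL) (hD_STG : S_D_STG) (hD_CODE : S_D_CODE) (hD_MATCH : S_D_MATCH) (hD_GENQ : S_D_GENQ) (hD_T0EQ : S_D_T0EQ) (hD_QEQ : S_D_QEQ) :
    S_D_TYPE := by
  intro R P p q S X L sat
  have hXI : X ⊆ GI p q := fun γ h => (LG.rw_arc_iff.1 ((sat γ h γ h).1 (L.rel_refl γ))).1
  obtain ⟨Ωs, -, Hs⟩ := hD_HULL _ X L sat.weak ∅
  obtain ⟨a, b, hab, hX⟩ := exists_GI_subset L.co.2 L.ne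
  obtain ⟨pa, bq⟩ := (GI_subset_iff hab).1 (hX.trans hXI)
  obtain ⟨p', q', ap, hpq, qb, av⟩ := exists_Icc_avoid Ωs.finite_toSet hab
  have hX' : GI p' q' ⊆ X := (GI_mono ap.le qb.le).trans hX
  have iso : R.IsoOn P p' q' := S.iso.mono (pa.trans ap.le) (qb.le.trans bq)
  refine ⟨p', q', pa.trans ap.le, hpq, qb.le.trans bq, hX', fun F η hη hF => ?_⟩
  have hm : ∀ z z', p' ≤ z → z < z' → z' ≤ q' → ∀ γ ∈ GI p' q', ∃ g, ∃ β ∈ GI z z',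
      R.Mv P γ g β := fun z z' h1 h2 h3 γ hγ => visit sat h2 ((GI_mono h1 h3).trans hX') (hX' hγ)
  have hQ : ∀ z z', p' ≤ z → z < z' → z' ≤ q' → R.QJ P z z' = R.QJ P p' q' := by
    intro z z' h1 h2 h3
    refine hD_QEQ R.toLG P p' q' z z' h1 h2 h3 (hm z z' h1 h2 h3) fun γ k1 k2 => ?_
    obtain ⟨β, b1, b2, -, b3⟩ := Hs.turn S.pg (hX' (mem_GI_of_Ioo k1 k2)) (av _ ⟨k1.le, k2.le⟩) h2
      ((GI_mono h1 h3).trans hX')
    obtain ⟨g, g1, g2⟩ := LG.rw2_arc b3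
    exact ⟨g, β, b1, b2, g1, g2⟩
  obtain ⟨Ω, hFΩ, H⟩ := hD_HULL _ X L sat.weak F
  obtain ⟨Ω', c, hT⟩ := hD_STG R.toLG P p q S X L Ω sat H
  have w0 : ∀ m : ℕ, 0 < (q' - p') / (m + 2) := fun m => div_pos (sub_pos.2 hpq) (by positivity)
  have w1 : ∀ m : ℕ, p' + (q' - p') / (m + 2) ≤ q' := fun m => by
    have : (q' - p') / (m + 2) ≤ q' - p' :=
      div_le_self (sub_pos.2 hpq).le (by linarith [m.cast_nonneg (α := ℝ)])
    linarith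
  choose T t1 t2 t3 using fun m : ℕ => hT p' (p' + (q' - p') / (m + 2)) (by linarith [w0 m])
    ((GI_mono le_rfl (w1 m)).trans hX')
  have t4 : ∀ m, (T m).z' < q' := fun m => (t2 m).trans_le (w1 m)
  have tQ : ∀ m, R.QJ P (T m).z (T m).z' = R.QJ P p' q' := fun m =>
    hQ _ _ (t1 m).le (stg_lt _) (t4 m).le
  obtain ⟨n, hn⟩ := hD_CODE R.toLG P p q S Ω' c T
  have ha : ∀ u ∈ F, ∃ t ∈ (T n).V, ∃ g ∈ R.QJ P p' q', R.d (g * P u) (P t) = 0 := by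
    intro u hu
    obtain ⟨α, a1, rfl⟩ := germ_at hpq (hF u hu)
    obtain ⟨β, b1, b2, b3⟩ := t3 n α (hX' a1) (hFΩ hu)
    obtain ⟨g, hg⟩ := mv_of_rel sat (hX' a1) b3
    exact ⟨β.c, b2, g, hg.mem_QJ a1 (GI_mono (t1 n).le (t4 n).le b1), LG.Mv2.pt hg⟩
  choose! s s1 h h1 h2 using ha
  have hl : ∀ x ∈ F ×ˢ F, ∃ l : List R.W, (∀ y ∈ l, y ∈ (T n).gens) ∧ l.prod = h x.1 * (h x.2)⁻¹ :=
    fun x hx => (hD_GENQ R.toLG P p q S Ω' c (T n)).2 _ (tQ n ▸ mul_mem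
      (h1 _ (Finset.mem_product.1 hx).1) (inv_mem (h1 _ (Finset.mem_product.1 hx).2)))
  choose! l l1 l2 using hl
  obtain ⟨k, hk⟩ : ∃ k : ℕ, ∀ x ∈ F ×ˢ F, (l x).length ≤ k :=
    ⟨_, fun x hx => Finset.le_sup (f := fun x => (l x).length) hx⟩
  obtain ⟨m₀, hm₀⟩ := exists_nat_ge ((2 * k + 1) * (q' - p') / η)
  obtain ⟨m, mm, N, N', θ, θ', H1, H2⟩ := hn m₀
  have hM := hD_MATCH R P p q S Ω' c (T n) (T m) N N' θ θ' H1 H2 ((tQ m).trans (tQ n).symm)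
    (tQ n ▸ half_mem H1 (t1 n) (t4 n) (t1 m) (t4 m)) (tQ n ▸ half_mem H2 (t1 m) (t4 m) (t1 n) (t4 n))
  obtain ⟨e1, e2⟩ := hD_T0EQ R P p' q' _ _ iso (t1 n).le (t4 n).le
    (hm _ _ (t1 n).le (stg_lt _) (t4 n).le)
  simp only [e1] at hM
  rw [e2] at hM
  obtain ⟨σ, σ1, σ2⟩ := hM
  refine ⟨σ, σ1, fun u hu v hv t ht => ?_⟩
  have huv : (u, v) ∈ F ×ˢ F := Finset.mem_product.2 ⟨hu, hv⟩
  obtain ⟨t', e3, e4⟩ := len_eq σ σ1 t (LG.d_zero_symm (h2 u hu)) (h2 v hv)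
  have e5 := σ2 _ (s1 u hu) _ (s1 v hv) (l (u, v)) (l1 _ huv) t' (by rw [e3, ht, l2 _ huv]; group)
  have e6 : ((l (u, v)).length : ℝ) ≤ k := Nat.cast_le.2 (hk _ huv)
  have e7 : (m₀ : ℝ) ≤ m := Nat.cast_le.2 mm
  have e8 : (T m).z' - (T m).z ≤ (q' - p') / (m + 2) := by linarith [t1 m, t2 m]
  rw [div_le_iff₀ hη] at hm₀
  calc R.ℓ (σ t) ≤ _ := e4 ▸ e5
    _ ≤ (2 * k + 1) * ((q' - p') / (m + 2)) :=
      mul_le_mul (by linarith) e8 (sub_pos.2 (stg_lt _)).le (by positivity)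
    _ ≤ η := by
      rw [← mul_div_assoc, div_le_iff₀ (by positivity)]
      nlinarith

end Pool.Agent.P.MP_dba3d2_lc


end

section

/-! Step D_PART of the stability project. -/

namespace Pool.Agent.P.MP_dba3d2_lc

open Set Filter Topology

namespace D_partA

/-- the germs that move into `[p, q]` form an open set -/
theorem isOpen_mv (R : LG) (P : ℝ → R.W) (p q : ℝ) :
    IsOpen {β : Gm | ∃ g, ∃ β' ∈ GI p q, R.Mv P β g β'} := by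
  refine isOpen_iff_mem_nhds.2 ?_
  rintro β ⟨g, β', h1, h2⟩
  have k : ∀ᶠ α in 𝓝 β, β' * β⁻¹ * α ∈ GI p q := by
    have c : Tendsto (fun α => β' * β⁻¹ * α) (𝓝 β) (𝓝 (β' * β⁻¹ * β)) :=
      (continuous_gm_mul (β' * β⁻¹)).tendsto β
    rw [inv_mul_cancel_right] at c
    exact c (isOpen_GI.mem_nhds h1)
  filter_upwards [k, h2.eventually] with α a b using ⟨g, _, a, b⟩

/-- near a germ with infinite orbit, segments are arcs or free -/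
theorem loc (hM : S_D_MINC) {R : RT} {A : Finset R.W} {ι : Type} [Fintype ι] {S : Sys ι}
    {P : ℝ → R.W} {g : ι → R.W} {a : R.W → ℝ} {p q : ℝ} (H : R.Setup P A S g a)
    (hP : R.IsoOn P p q) {γ : Gm} (h1 : γ ∈ R.secs a A) (h2 : (S.orb γ).Infinite) :
    ∃ r > 0, ∀ u v, u < v → GI u v ⊆ seg γ r →
      R.JA P p q (P u) (P v) ∨ R.Fr P p q (P u) (P v) := by
  by_cases hγ : ∃ g, ∃ β' ∈ GI p q, R.Mv P γ g β'
  · obtain ⟨g', β', k1, k2⟩ := hγ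
    obtain ⟨r, r0, hr⟩ := LG.Mv2.ja k2 k1
    refine ⟨r, r0, fun u v huv k => Or.inl ?_⟩
    have e := hr _ (MvBA.param huv k ⟨le_rfl, huv.le⟩) _ (MvBA.param huv k ⟨huv.le, le_rfl⟩)
    rwa [Gm.ap_inv_ap, Gm.ap_inv_ap] at e
  · have hC := (hM ι S).2 γ h2
    have hγC : γ ∈ closure (S.orb γ) := subset_closure (Sys.Rel.refl S γ)
    obtain ⟨w, hw, hs⟩ := h1
    obtain ⟨r, r0, hr⟩ := isOpen_iff_seg.1 (hC.co.2.inter (LG.Setup.co_sec R.toLG a w).2) γ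
      ⟨hγC, hs⟩
    refine ⟨r, r0, fun u v huv k => Or.inr ?_⟩
    have k1 : GI u v ⊆ GI (a w) (a w + R.ℓ w) := fun β hβ => (hr (k hβ)).2
    obtain ⟨b1, b2⟩ := (GI_subset_iff huv).1 k1
    refine (RT.fr_iff hP (H.iso w hw) b1 huv.le b2).2 fun β hβ g' β' hβ' hm => hγ ?_
    obtain ⟨α, ⟨⟨g1, α', x1, x2⟩, -⟩, x3⟩ := hC.reach (isOpen_mv R.toLG P p q)
      ⟨β, ⟨g', β', hβ', hm⟩, (hr (k hβ)).1⟩ hγC
    obtain ⟨g2, x4⟩ := H.mv_of_rel x3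
    exact ⟨_, α', x1, x4.trans x2⟩

theorem ends_lt (γ : Gm) {r : ℝ} (h : 0 < r) : min γ.c (γ.ap r) < max γ.c (γ.ap r) := by
  have k := self_mem_seg (γ := γ) h
  rw [seg_eq_GI h.le] at k
  exact lt_of_mem_GI k

end D_partA

open D_partA in
theorem p_D_PART (hD_MINC : S_D_MINC) (hD_FAM : S_D_FAM) :
    S_D_PART := by
  classical
  intro R A ι _ S P g a p q H hP
  have hX := LG.Setup.co_secs R.toLG a A
  have hU : CO (R.secs a A ∩ {γ | (S.orb γ).Infinite}) := hX.inter (hD_MINC ι S).1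
  obtain ⟨E1, hE1⟩ := hU.subdiv'
    (Q := fun u v => R.JA P p q (P u) (P v) ∨ R.Fr P p q (P u) (P v))
    fun γ hγ => loc hD_MINC H hP hγ.1 hγ.2
  obtain ⟨EG, r, hF⟩ := hD_FAM ι S (R.secs a A)
    (E1 ∪ (A.image a ∪ A.image fun w => a w + R.ℓ w)) hX H.in'
  obtain ⟨E, hE⟩ : ∃ E : Finset ℝ, ∀ x, x ∈ E ↔
      x ∈ E1 ∪ (A.image a ∪ A.image fun w => a w + R.ℓ w) ∨
      (∃ γ ∈ EG, min γ.c (γ.ap (r γ)) = x) ∨ ∃ γ ∈ EG, max γ.c (γ.ap (r γ)) = x :=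
    ⟨(E1 ∪ (A.image a ∪ A.image fun w => a w + R.ℓ w)) ∪
      (EG.image (fun γ => min γ.c (γ.ap (r γ))) ∪ EG.image fun γ => max γ.c (γ.ap (r γ))),
      fun x => by simp only [Finset.mem_union, Finset.mem_image]⟩
  have piece : ∀ γ ∈ EG, ∃ s ∈ E, ∃ t ∈ E, s < t ∧ Free E s t ∧ seg γ (r γ) = GI s t := by
    intro γ hγ
    have r0 := hF.pos γ hγ
    have e := seg_eq_GI (γ := γ) r0.le
    refine ⟨_, (hE _).2 (Or.inr (Or.inl ⟨γ, hγ, rfl⟩)), _, (hE _).2 (Or.inr (Or.inr ⟨γ, hγ, rfl⟩)),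
      ends_lt γ r0, fun x hx hh => ?_, e⟩
    have m1 : Gm.tau x ∈ seg γ (r γ) := by
      rw [e]; exact tau_mem_GI.2 ⟨hh.1.le, hh.2⟩
    have m2 : (Gm.tau x).opp ∈ seg γ (r γ) := by
      rw [e]; exact opp_tau_mem_GI.2 ⟨hh.1, hh.2.le⟩
    rcases (hE x).1 (Finset.mem_coe.1 hx) with k | ⟨γ', k, rfl⟩ | ⟨γ', k, rfl⟩
    · have k1 := hF.sub γ hγ _ m1
      have k2 := hF.top _ k1.1 k1.2 k
      have k3 := hF.disj γ hγ _ k2 _ m1 (self_mem_seg (hF.pos _ k2))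
      have k4 : γ.c = x := by rw [k3]; rfl
      rcases le_total γ.c (γ.ap (r γ)) with l | l
      · rw [min_eq_left l] at hh; exact hh.1.ne k4
      · rw [max_eq_left l] at hh; exact hh.2.ne k4.symm
    · have k3 := hF.disj γ hγ γ' k _ m1 (by
        rw [seg_eq_GI (hF.pos _ k).le]
        exact tau_mem_GI.2 ⟨le_rfl, ends_lt γ' (hF.pos _ k)⟩)
      rw [k3] at hh
      exact lt_irrefl _ hh.1
    · have k3 := hF.disj γ hγ γ' k _ m2 (by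
        rw [seg_eq_GI (hF.pos _ k).le]
        exact opp_tau_mem_GI.2 ⟨ends_lt γ' (hF.pos _ k), le_rfl⟩)
      rw [k3] at hh
      exact lt_irrefl _ hh.2
  refine ⟨E, EG, r, ⟨hF.pos, hF.sub, hF.cov, hF.disj, hF.dom, hF.inv,
    fun γ _ _ h => absurd h (Finset.notMem_empty _)⟩, fun w hw => ⟨?_, ?_⟩, piece,
    fun s hs t ht hst hfree hsub => ?_⟩
  · exact (hE _).2 (Or.inl (Finset.mem_union_right _
      (Finset.mem_union_left _ (Finset.mem_image_of_mem _ hw))))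
  · exact (hE _).2 (Or.inl (Finset.mem_union_right _
      (Finset.mem_union_right _ (Finset.mem_image_of_mem (fun w => a w + R.ℓ w) hw))))
  · have m : Gm.tau s ∈ GI s t := tau_mem_GI.2 ⟨le_rfl, hst⟩
    by_cases hi : (S.orb (Gm.tau s)).Finite
    · obtain ⟨γ, hγ, k⟩ := hF.cov _ (hsub m) hi
      obtain ⟨s', hs', t', ht', -, k2, k3⟩ := piece γ hγ
      rw [k3] at k
      obtain ⟨rfl, rfl⟩ := cell_unique (Finset.mem_coe.2 hs) (Finset.mem_coe.2 ht)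
        (Finset.mem_coe.2 hs') (Finset.mem_coe.2 ht') hfree k2 m k
      exact Or.inl ⟨γ, hγ, k3⟩
    · exact Or.inr (hE1 s t (hfree.mono fun x hx => Finset.mem_coe.2 ((hE x).2
        (Or.inl (Finset.mem_union_left _ (Finset.mem_coe.1 hx))))) ⟨_, m, hsub m, hi⟩).1

end Pool.Agent.P.MP_dba3d2_lc


end
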