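import Pool.Agent.P.MP_dba3d2_lcM.Db47
import Pool.Agent.P.MP_dba3d2_lcM.Db49
import Pool.Agent.P.MP_dba3d2_lcM.Db53
import Pool.Agent.P.MP_dba3d2_lcM.Db59

section

/-! Step D_IOTA of the stability project. -/

namespace Pool.Agent.P.MP_dba3d2_lc

open Set Filter Topology

namespace D_iotaA

variable {R : RT} {A : Finset R.W} {ι : Type} {S : Sys ι} {P : ℝ → R.W} {g : ι → R.W}
  {a : R.W → ℝ} {p q s t c d x y : ℝ} {E : Finset ℝ} {EG : Finset Gm} {r : Gm → ℝ} {γ β : Gm}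

/-- admissible cells -/
def Adm (R : RT) (P : ℝ → R.W) (p q s t : ℝ) : Prop :=
  R.JA P p q (P s) (P t) ∨ R.Fr P p q (P s) (P t)

/-- pieces that are letters -/
def LP (R : RT) (P : ℝ → R.W) (p q : ℝ) (EG : Finset Gm) (r : Gm → ℝ) (γ : Gm) : Prop :=
  γ ∈ EG ∧ ¬Adm R P p q γ.c (γ.ap (r γ))

/-- two points of one admissible cell -/
def AA (R : RT) (P : ℝ → R.W) (A : Finset R.W) (a : R.W → ℝ) (p q : ℝ) (E : Finset ℝ)
    (x y : ℝ) : Prop :=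
  ∃ c ∈ E, ∃ d ∈ E, c < d ∧ Free E c d ∧ GI c d ⊆ R.secs a A ∧ Adm R P p q c d ∧
    x ∈ Icc c d ∧ y ∈ Icc c d

theorem Adm.symm (h : Adm R P p q s t) : Adm R P p q t s := h.imp LG.JA.symm LG.Fr.symm

theorem ends {ρ : ℝ} (h0 : 0 < ρ) (h : seg γ ρ = GI s t) :
    γ.c = s ∧ γ.ap ρ = t ∨ γ.c = t ∧ γ.ap ρ = s := by
  rcases γ.h with e | e
  · rw [seg_pos e] at h
    obtain ⟨h1, h2⟩ := GI_inj (by linarith) h
    exact Or.inl ⟨h1, by rw [Gm.ap, e]; linarith⟩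
  · rw [seg_neg e] at h
    obtain ⟨h1, h2⟩ := GI_inj (by linarith) h
    exact Or.inr ⟨h2, by rw [Gm.ap, e]; linarith⟩

theorem adm_iff {ρ : ℝ} (h0 : 0 < ρ) (h : seg γ ρ = GI s t) :
    Adm R P p q γ.c (γ.ap ρ) ↔ Adm R P p q s t := by
  rcases ends h0 h with ⟨e1, e2⟩ | ⟨e1, e2⟩ <;> rw [e1, e2]
  exact ⟨Adm.symm, Adm.symm⟩

theorem iso (H : R.Setup P A S g a) (h : c < d) (k : GI c d ⊆ R.secs a A) : R.IsoOn P c d := by
  obtain ⟨w, hw, h1, h2⟩ := H.seg_in_sec h k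
  exact (H.iso w hw).mono h1 h2

theorem adm_mem (hP : R.IsoOn P p q) (hI : R.IsoOn P c d) (h : Adm R P p q c d)
    (hx : x ∈ Icc c d) (hy : y ∈ Icc c d) : (P x)⁻¹ * P y ∈ R.T0 P p q := by
  have h0 := hx.1.trans hx.2
  have k1 := hI.on ⟨le_rfl, h0⟩ ⟨h0, le_rfl⟩ (Icc_subset_uIcc hx)
  have k2 := hI.on ⟨le_rfl, h0⟩ ⟨h0, le_rfl⟩ (Icc_subset_uIcc hy)
  exact h.elim (fun h => (RT.ja_sub hP h k1 k2).mem_T0) fun h => (RT.fr_sub h k1 k2).mem_T0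

theorem piece_sub (Q : R.Part P A S a p q E EG r) (h : γ ∈ EG) : seg γ (r γ) ⊆ R.secs a A :=
  fun β k => (Q.fam.sub γ h β k).1

theorem inner (Q : R.Part P A S a p q E EG r) (h : γ ∈ EG) (h1 : β ∈ seg γ (r γ))
    (h2 : β.opp ∈ seg γ (r γ)) : β.c ∉ E := by
  obtain ⟨s, -, t, -, -, hF, e⟩ := Q.piece γ h
  rw [e] at h1 h2
  refine fun k => hF _ k ?_
  rcases β.h with e | e
  · rw [mem_GI_pos e] at h1
    rw [mem_GI_neg (by simp [e]), Gm.opp_c] at h2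
    exact ⟨h2.1, h1.2⟩
  · rw [mem_GI_neg e] at h1
    rw [mem_GI_pos (by simp [e]), Gm.opp_c] at h2
    exact ⟨h1.1, h2.2⟩

theorem rel_mem (Q : R.Part P A S a p q E EG r) (h : γ ∈ EG) (k : S.Rel γ β) :
    β ∈ EG ∧ r β = r γ := by
  induction k with
  | refl => exact ⟨h, rfl⟩
  | tail _ k ih =>
    obtain ⟨i, h1, rfl⟩ := k
    exact (Q.fam.inv _ ih.1 i h1).imp_right fun e => e.trans ih.2

theorem move (H : R.Setup P A S g a) (Q : R.Part P A S a p q E EG r) (h : γ ∈ EG)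
    (k : S.Rel γ β) : ∃ w, R.d (w * P γ.c) (P β.c) = 0 ∧
      R.d (w * P (γ.ap (r γ))) (P (β.ap (r β))) = 0 := by
  have h0 := Q.fam.pos γ h
  obtain ⟨w, hw⟩ := H.rl_of_rel h0 (fun α hα i hi δ hδ => by
    obtain ⟨k1, k2⟩ := rel_mem Q h hα
    exact (Q.fam.dom α k1 i δ (k2 ▸ hδ)).2 hi) k
  refine ⟨w, by simpa using hw 0 ⟨le_rfl, h0.le⟩, ?_⟩
  rw [(rel_mem Q h k).2]
  exact hw _ ⟨h0.le, le_rfl⟩

theorem LP.rel (H : R.Setup P A S g a) (Q : R.Part P A S a p q E EG r) (h : LP R P p q EG r γ)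
    (k : S.Rel γ β) : LP R P p q EG r β := by
  obtain ⟨w, h1, h2⟩ := move H Q h.1 k
  refine ⟨(rel_mem Q h.1 k).1, fun e => h.2 (e.imp (fun e => ?_) fun e => ?_)⟩
  · exact (LG.ja_mul_left w).1 (e.congr (LG.d_zero_symm h1) (LG.d_zero_symm h2))
  · exact (LG.fr_mul_left w).1 (e.congr (LG.d_zero_symm h1) (LG.d_zero_symm h2))

/-- the letters -/
theorem letters (H : R.Setup P A S g a) (Q : R.Part P A S a p q E EG r)
    (hn : ∀ u v, p ≤ u → u < v → v ≤ q → ¬R.Per (P u) (P v)) :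
    ∃ (k : ℕ) (y : Fin k → R.W) (e : Fin k → Gm) (rep : Gm → Gm), Function.Injective e ∧
      (∀ γ β, S.Rel γ β → rep γ = rep β) ∧ (∀ i, 0 < R.ℓ (y i) ∧ ¬R.Per 1 (y i)) ∧
      ∀ γ, LP R P p q EG r γ → ∃ (i : Fin k) (z z' : R.T0 P p q), e i = rep γ ∧ R.ℓ z = 0 ∧
        R.ℓ z' = 0 ∧ (P γ.c)⁻¹ * P (γ.ap (r γ)) = z * y i * z' := by
  classical
  have : Nonempty Gm := ⟨1⟩
  let L := EG.filter (LP R P p q EG r)
  have hL : ∀ γ, γ ∈ L ↔ LP R P p q EG r γ := fun γ =>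
    Finset.mem_filter.trans ⟨fun h => h.2, fun h => ⟨h.1, h⟩⟩
  let e : Fin L.card → Gm := fun i => L.equivFin.symm i
  refine ⟨L.card, fun i => (P (e i).c)⁻¹ * P ((e i).ap (r (e i))), e,
    fun γ => Classical.epsilon (· ∈ S.orb γ), Subtype.val_injective.comp L.equivFin.symm.injective,
    fun γ β h => by simp only [h.orb_eq], fun i => ?_, fun γ h => ?_⟩
  · have h := (hL _).1 (L.equivFin.symm i).2
    refine ⟨?_, fun k => h.2 (Or.inr (RT.fr_of_per hn (LG.per_base.1 k)))⟩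
    obtain ⟨s, -, t, -, h1, -, h2⟩ := Q.piece _ h.1
    have hI := iso H h1 (h2 ▸ piece_sub Q h.1)
    have hs : s ∈ Icc s t := ⟨le_rfl, h1.le⟩
    have ht : t ∈ Icc s t := ⟨h1.le, le_rfl⟩
    show 0 < R.d (P (e i).c) (P ((e i).ap (r (e i))))
    rcases ends (Q.fam.pos _ h.1) h2 with ⟨e1, e2⟩ | ⟨e1, e2⟩
    · rw [show (e i).c = s from e1, show (e i).ap (r (e i)) = t from e2, hI _ hs _ ht]
      exact abs_pos.2 (sub_ne_zero.2 h1.ne)
    · rw [show (e i).c = t from e1, show (e i).ap (r (e i)) = s from e2, hI _ ht _ hs]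
      exact abs_pos.2 (sub_ne_zero.2 h1.ne')
  · have k : S.Rel γ (Classical.epsilon (· ∈ S.orb γ)) :=
      Classical.epsilon_spec (p := (· ∈ S.orb γ)) ⟨γ, Sys.Rel.refl S γ⟩
    dsimp only
    generalize Classical.epsilon (· ∈ S.orb γ) = β at k
    obtain ⟨w, h1, h2⟩ := move H Q h.1 k
    have e1 : e (L.equivFin ⟨β, (hL _).2 (h.rel H Q k)⟩) = β :=
      congrArg Subtype.val (L.equivFin.symm_apply_apply _)
    have k1 : R.ℓ ((w * P γ.c)⁻¹ * P β.c) = 0 := h1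
    have k2 : R.ℓ ((P (β.ap (r β)))⁻¹ * (w * P (γ.ap (r γ)))) = 0 := LG.d_zero_symm h2
    refine ⟨_, ⟨_, LG.tiny_mem_T0 k1⟩, ⟨_, LG.tiny_mem_T0 k2⟩, e1, k1, k2, ?_⟩
    simp only [e1]
    group

/-- the function on the sections -/
theorem glue (H : R.Setup P A S g a) (hP : R.IsoOn P p q) (Q : R.Part P A S a p q E EG r)
    {G : Type} [Group G] (j : R.T0 P p q →* G) (val : Gm → G) : ∃ n : ℝ → G,
    (∀ x y, AA R P A a p q E x y →
      ∃ τ : R.T0 P p q, (τ : R.W) = (P x)⁻¹ * P y ∧ (n x)⁻¹ * n y = j τ) ∧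
    ∀ γ, LP R P p q EG r γ → (n γ.c)⁻¹ * n (γ.ap (r γ)) = val γ := by
  classical
  let C : ℝ → Gm → Prop := fun s γ => LP R P p q EG r γ ∧ Gm.tau s ∈ seg γ (r γ)
  obtain ⟨n, hn⟩ := exists_glue E fun s x =>
    if h : ∃ γ, C s γ then (if x = h.choose.c then 1 else val h.choose)
    else if h' : (P s)⁻¹ * P x ∈ R.T0 P p q then j ⟨_, h'⟩ else 1
  refine ⟨n, ?_, fun γ h => ?_⟩
  · rintro x y ⟨c, hc, d, hd, h1, h2, h3, h4, hx, hy⟩
    have hI := iso H h1 h3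
    have hc' : c ∈ Icc c d := ⟨le_rfl, h1.le⟩
    have k : ¬∃ γ, C c γ := by
      rintro ⟨γ, k1, k2⟩
      obtain ⟨s, hs, t, ht, -, k3, k4⟩ := Q.piece _ k1.1
      obtain ⟨rfl, rfl⟩ := cell_unique hc hd hs ht h2 k3 (tau_mem_GI.2 ⟨le_rfl, h1⟩) (k4 ▸ k2)
      exact k1.2 ((adm_iff (Q.fam.pos _ k1.1) k4).2 h4)
    refine ⟨⟨_, adm_mem hP hI h4 hx hy⟩, rfl, ?_⟩
    rw [hn c hc d hd h1 h2 x hx y hy, dif_neg k, dif_neg k, dif_pos (adm_mem hP hI h4 hc' hx),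
      dif_pos (adm_mem hP hI h4 hc' hy), ← map_inv, ← map_mul]
    exact congrArg j (Subtype.ext (by simp [mul_assoc]))
  · obtain ⟨s, hs, t, ht, h1, h2, h3⟩ := Q.piece _ h.1
    have h0 := Q.fam.pos _ h.1
    have k0 : Gm.tau s ∈ seg γ (r γ) := h3 ▸ tau_mem_GI.2 ⟨le_rfl, h1⟩
    have k : ∃ γ, C s γ := ⟨γ, h, k0⟩
    have e : k.choose = γ := Q.fam.disj _ k.choose_spec.1.1 _ h.1 _ k.choose_spec.2 k0
    have k1 : γ.c ∈ Icc s t ∧ γ.ap (r γ) ∈ Icc s t ∧ γ.ap (r γ) ≠ γ.c := by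
      rcases ends h0 h3 with ⟨e1, e2⟩ | ⟨e1, e2⟩ <;> rw [e1, e2]
      exacts [⟨⟨le_rfl, h1.le⟩, ⟨h1.le, le_rfl⟩, h1.ne'⟩, ⟨⟨h1.le, le_rfl⟩, ⟨le_rfl, h1.le⟩, h1.ne⟩]
    rw [hn s hs t ht h1 h2 _ k1.1 _ k1.2.1, dif_pos k, dif_pos k, e, if_pos rfl, if_neg k1.2.2,
      inv_one, one_mul]

theorem aa_of (Q : R.Part P A S a p q E EG r) (h : β ∈ R.secs a A)
    (hn : ∀ γ, LP R P p q EG r γ → β ∉ seg γ (r γ)) (h1 : β ∈ GI s t) (h2 : Free E s t)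
    (hx : x ∈ Icc s t) (hy : y ∈ Icc s t) : AA R P A a p q E x y := by
  obtain ⟨w, hw, h⟩ := h
  obtain ⟨c, hc, d, hd, k1, k2, k3, k4, k5⟩ :=
    exists_cell E.finite_toSet (Q.ends w hw).1 (Q.ends w hw).2 h
  have k6 : GI c d ⊆ R.secs a A := fun δ k => ⟨w, hw, GI_mono k1 k3 k⟩
  obtain ⟨a1, a2⟩ := (GI_subset_iff (lt_of_mem_GI h1)).1 (GI_subset_of_free h2 hc hd ⟨β, h1, k5⟩)
  refine ⟨c, hc, d, hd, k2, k4, k6, ?_, Icc_subset_Icc a1 a2 hx, Icc_subset_Icc a1 a2 hy⟩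
  rcases Q.cell c hc d hd k2 k4 k6 with ⟨γ, b1, b2⟩ | b
  · by_contra e
    exact hn γ ⟨b1, fun e' => e ((adm_iff (Q.fam.pos _ b1) b2).1 e')⟩ (b2 ▸ k5)
  · exact b

/-- a function that is constant on the steps is constant on the band -/
theorem chain (H : R.Setup P A S g a) (Q : R.Part P A S a p q E EG r) {i : ι} (hst : s < t)
    (hd : S.dom i = GI s t) {α : Type} (K : ℝ → α)
    (h1 : ∀ γ, LP R P p q EG r γ → seg γ (r γ) ⊆ S.dom i → K γ.c = K (γ.ap (r γ)))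
    (h2 : ∀ x ∈ Icc s t, ∀ y ∈ Icc s t, AA R P A a p q E x y →
      AA R P A a p q E ((S.φ i).ap x) ((S.φ i).ap y) → K x = K y) : K s = K t := by
  have hE : ((E : Set ℝ) ∪ (S.φ i).ap ⁻¹' E).Finite :=
    E.finite_toSet.union (E.finite_toSet.preimage (S.φ i).ap_injective.injOn)
  refine chain_ind hE (Q := fun u v => K u = K v) hst.le rfl
    fun x y a1 a2 a3 a4 a5 a6 ih => ih.trans ?_
  have b0 : Gm.tau x ∈ GI x y := tau_mem_GI.2 ⟨le_rfl, a2⟩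
  have b1 : Gm.tau x ∈ S.dom i := hd ▸ GI_mono a1 a3 b0
  have b2 : Free E x y := a6.mono subset_union_left
  by_cases hc : ∃ γ, LP R P p q EG r γ ∧ Gm.tau x ∈ seg γ (r γ)
  · obtain ⟨γ, k1, k2⟩ := hc
    have k3 := (Q.fam.dom γ k1.1 i _ k2).1 b1
    have k4 : seg γ (r γ) ⊆ S.dom i := fun β k => (Q.fam.dom γ k1.1 i β k).2 k3
    obtain ⟨k5, k6⟩ := Q.fam.inv γ k1.1 i k3
    obtain ⟨c, hc, d, hd', c1, c2, c3⟩ := Q.piece γ k1.1
    obtain ⟨d1, d2⟩ := (GI_subset_iff a2).1 (GI_subset_of_free b2 hc hd' ⟨_, b0, c3 ▸ k2⟩)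
    obtain ⟨d3, d4⟩ := (GI_subset_iff c1).1 (show GI c d ⊆ GI s t from c3 ▸ hd ▸ k4)
    have hF : Free ((E : Set ℝ) ∪ (S.φ i).ap ⁻¹' E) c d := by
      rintro z (hz | hz) k
      · exact c2 z hz k
      · refine inner Q k5 (β := S.φ i * Gm.tau z) ?_ ?_ hz
        · rw [k6, mul_mem_seg_mul, c3]
          exact tau_mem_GI.2 ⟨k.1.le, k.2⟩
        · rw [k6, ← Gm.mul_opp, mul_mem_seg_mul, c3]
          exact opp_tau_mem_GI.2 ⟨k.1, k.2.le⟩
    have e1 : x = c := by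
      refine le_antisymm (a4.elim (fun k => ?_) fun k => k ▸ d3) d1
      exact not_lt.1 fun e => hF x k ⟨e, a2.trans_le d2⟩
    have e2 : y = d := by
      refine le_antisymm d2 (a5.elim (fun k => ?_) fun k => k ▸ d4)
      exact not_lt.1 fun e => hF y k ⟨d1.trans_lt a2, e⟩
    have e := h1 γ k1 k4
    rcases ends (Q.fam.pos _ k1.1) c3 with ⟨e3, e4⟩ | ⟨e3, e4⟩ <;> rw [e3, e4] at e <;>
      rw [e1, e2, e]
  · have b3 := S.map i _ b1
    refine h2 x ⟨a1, a2.le.trans a3⟩ y ⟨a1.trans a2.le, a3⟩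
      (aa_of Q (H.in' i b1) (fun γ k k' => hc ⟨γ, k, k'⟩) b0 b2 ⟨le_rfl, a2.le⟩ ⟨a2.le, le_rfl⟩)
      (aa_of Q (H.in' _ b3) (fun γ k k' => hc ?_) (tr_GI a2.le ▸ mul_mem_tr.2 b0) ?_
        left_mem_uIcc right_mem_uIcc)
    · have k3 := (Q.fam.dom γ k.1 _ _ k').1 b3
      refine ⟨_, k.rel H Q (Sys.rel_φ k3), ?_⟩
      rw [(Q.fam.inv γ k.1 _ k3).2, ← S.φ_inv_mul i (Gm.tau x), mul_mem_seg_mul]
      exact k'
    · intro z hz k
      obtain ⟨z, rfl⟩ : ∃ z', (S.φ i).ap z' = z := ⟨_, (S.φ i).ap_inv_ap z⟩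
      have k1 : z ∈ uIcc x y := (S.φ i).ap_mem_uIcc.1 ⟨k.1.le, k.2.le⟩
      rw [uIcc_of_le a2.le] at k1
      refine a6 z (Or.inr hz) ⟨lt_of_le_of_ne k1.1 fun e => ?_, lt_of_le_of_ne k1.2 fun e => ?_⟩
      · subst e
        rcases le_total ((S.φ i).ap x) ((S.φ i).ap y) with e | e
        · exact absurd k.1 (by rw [min_eq_left e]; exact lt_irrefl _)
        · exact absurd k.2 (by rw [max_eq_left e]; exact lt_irrefl _)
      · subst e
        rcases le_total ((S.φ i).ap x) ((S.φ i).ap z) with e | e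
        · exact absurd k.2 (by rw [max_eq_right e]; exact lt_irrefl _)
        · exact absurd k.1 (by rw [min_eq_right e]; exact lt_irrefl _)

theorem alg {G : Type} [Group G] {m0 m1 n0 n1 u v : G} (h : u * (m0⁻¹ * m1) = n0⁻¹ * n1 * v) :
    n0 * u * m0⁻¹ = n1 * v * m1⁻¹ := by
  calc _ = n0 * (u * (m0⁻¹ * m1)) * m1⁻¹ := by group
    _ = _ := by rw [h]; group

end D_iotaA

open D_iotaA Monoid

theorem p_D_IOTA (hD_EXT : S_D_EXT) :
    S_D_IOTA := by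
  intro R A ι S P g a p q E EG r H hP hn Q
  obtain ⟨k, y, e, rep, he, hrep, hy, hl⟩ := letters H Q hn
  have hv : ∀ γ, ∃ v : Coprod (R.T0 P p q) (FreeGroup (Fin k)), LP R P p q EG r γ →
      ∃ (i : Fin k) (z z' : R.T0 P p q), e i = rep γ ∧ R.ℓ z = 0 ∧ R.ℓ z' = 0 ∧
        (P γ.c)⁻¹ * P (γ.ap (r γ)) = z * y i * z' ∧
        v = Coprod.inl z * Coprod.inr (FreeGroup.of i) * Coprod.inl z' := fun γ => by
    by_cases h : LP R P p q EG r γ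
    · obtain ⟨i, z, z', h1, h2, h3, h4⟩ := hl γ h
      exact ⟨_, fun _ => ⟨i, z, z', h1, h2, h3, h4, rfl⟩⟩
    · exact ⟨1, fun k => (h k).elim⟩
  choose val hval using hv
  obtain ⟨n, n1, n2⟩ := glue H hP Q Coprod.inl val
  refine ⟨k, y, n, ⟨hy, fun s hs t ht h1 h2 h3 h4 =>
    n1 s t ⟨s, hs, t, ht, h1, h2, h3, h4, ⟨le_rfl, h1.le⟩, ⟨h1.le, le_rfl⟩⟩,
    fun s hs t ht h1 h2 h3 h4 => ?_⟩, fun G _ j u hu j' m hj hm i s t hst hd => ?_⟩
  · obtain ⟨γ, b1, b2⟩ := (Q.cell s hs t ht h1 h2 h3).resolve_right h4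
    have h0 := Q.fam.pos _ b1
    have k1 : LP R P p q EG r γ := ⟨b1, fun e' => h4 ((adm_iff h0 b2).1 e')⟩
    obtain ⟨i, z, z', -, c1, c2, c3, c4⟩ := hval γ k1
    refine ⟨i, z, z', _, _, ends h0 b2, c1, c2, ?_, c3, (n2 γ k1).trans c4⟩
    have hI := iso H h1 h3
    have hs' : s ∈ Icc s t := ⟨le_rfl, h1.le⟩
    have ht' : t ∈ Icc s t := ⟨h1.le, le_rfl⟩
    rw [← LG.l_tiny_mul c1, ← LG.l_mul_tiny _ c2, ← c3]
    show R.d (P γ.c) (P (γ.ap (r γ))) = _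
    rcases ends h0 b2 with ⟨e1, e2⟩ | ⟨e1, e2⟩ <;> rw [e1, e2]
    · rw [hI _ hs' _ ht', abs_sub_comm, abs_of_pos (sub_pos.2 h1)]
    · rw [hI _ ht' _ hs', abs_of_pos (sub_pos.2 h1)]
  have hR : R.Rl P (g i) (S.φ i) s t := by
    rcases H.band i with k | ⟨u, v, -, k1, k2, -⟩
    · exact absurd (hd ▸ k) (GI_nonempty.2 hst).ne_empty
    · obtain ⟨rfl, rfl⟩ := GI_inj hst (hd.symm.trans k1)
      exact k2
  have hz : ∀ x ∈ Icc s t, ∃ ζ : R.T0 P p q, R.ℓ ζ = 0 ∧ j' (R.zeta P (g i) (S.φ i) x) = j ζ ∧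
      (ζ : R.W) = (P ((S.φ i).ap x))⁻¹ * g i * P x := fun x hx =>
    ⟨⟨_, LG.tiny_mem_T0 (hR.zeta hx)⟩, hR.zeta hx, hj ⟨_, LG.tiny_mem_T0 (hR.zeta hx)⟩, rfl⟩
  have hm' : ∀ x x', (m x)⁻¹ * m x' = Coprod.lift j (FreeGroup.lift u) ((n x)⁻¹ * n x') :=
    fun x x' => by rw [map_mul, map_inv, hm, hm]
  refine chain H Q hst hd
    (fun x => m ((S.φ i).ap x) * j' (R.zeta P (g i) (S.φ i) x) * (m x)⁻¹) (fun γ k1 k2 => ?_)
    fun x hx x' hx' k1 k2 => ?_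
  · have h0 := Q.fam.pos _ k1.1
    have k3 := k2 (self_mem_seg h0)
    have k4 := k1.rel H Q (Sys.rel_φ k3)
    have k5 := (seg_subset_GI h0).1 (hd ▸ k2)
    obtain ⟨ζ, a1, a2, a3⟩ := hz γ.c (by simpa using k5 0 ⟨le_rfl, h0.le⟩)
    obtain ⟨ζ', b1, b2, b3⟩ := hz _ (k5 _ ⟨h0.le, le_rfl⟩)
    obtain ⟨l, z, z', c0, c1, c2, c3, c4⟩ := hval γ k1
    obtain ⟨l', w, w', d0, d1, d2, d3, d4⟩ := hval _ k4
    obtain rfl : l = l' := he (c0.trans ((hrep _ _ (Sys.rel_φ k3)).trans d0.symm))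
    have e1 := n2 _ k4
    rw [(Q.fam.inv γ k1.1 i k3).2, Gm.mul_ap, Gm.mul_c'] at e1 d3
    refine alg ?_
    rw [a2, b2, hm', hm', n2 γ k1, e1, c4, d4]
    have e2 : ((w' * ζ' * z'⁻¹ : R.T0 P p q) : R.W) =
        (y l)⁻¹ * (w⁻¹ * ζ * z : R.T0 P p q) * y l := by
      have : (ζ : R.W) * (z * y l * z') = w * y l * w' * ζ' := by
        rw [← c3, ← d3, a3, b3]; group
      push_cast
      calc _ = (y l)⁻¹ * ((w : R.W)⁻¹ * (w * y l * w' * ζ') * (z' : R.W)⁻¹) := by group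
        _ = _ := by rw [← this]; group
    have e3 := hu l (w⁻¹ * ζ * z) _ ⟨by
      rw [mul_one, LG.d_one]
      exact LG.l_zero_mul (LG.l_zero_mul (LG.l_zero_inv d1) a1) c1, by
      rw [LG.d, ← mul_assoc, ← e2]
      exact LG.l_zero_mul (LG.l_zero_mul d2 b1) (LG.l_zero_inv c2)⟩ e2
    simp only [map_mul, map_inv, Coprod.lift_apply_inl, Coprod.lift_apply_inr,
      FreeGroup.lift_apply_of] at e3 ⊢
    calc _ = j w * u l * ((u l)⁻¹ * ((j w)⁻¹ * j ζ * j z) * u l) * j z' := by group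
      _ = _ := by rw [e3]; group
  · obtain ⟨ζ, -, a2, a3⟩ := hz x hx
    obtain ⟨ζ', -, b2, b3⟩ := hz x' hx'
    obtain ⟨τ, c1, c2⟩ := n1 _ _ k1
    obtain ⟨τ', d1, d2⟩ := n1 _ _ k2
    refine alg ?_
    rw [a2, b2, hm', hm', c2, d2, Coprod.lift_apply_inl, Coprod.lift_apply_inl, ← map_mul,
      ← map_mul]
    refine congrArg j (Subtype.ext ?_)
    push_cast
    rw [a3, b3, c1, d1]
    group

end Pool.Agent.P.MP_dba3d2_lc


end

section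

/-! Step D_OUT3 of the stability project. -/

namespace Pool.Agent.P.MP_dba3d2_lc

open Set Filter Topology Monoid

namespace D_out3A

theorem chain_len {G : LG} (f : ℝ → G.W) (E : Finset ℝ) {u v : ℝ} (hu : u ∈ E) (hv : v ∈ E)
    (huv : u ≤ v) (ψ : ℝ → ℝ)
    (h : ∀ s ∈ E, ∀ t ∈ E, u ≤ s → s < t → t ≤ v → Free E s t → G.d (f s) (f t) ≤ ψ t - ψ s) :
    G.d (f u) (f v) ≤ ψ v - ψ u := by
  refine chain_ind (Q := fun a b => G.d (f a) (f b) ≤ ψ b - ψ a) E.finite_toSet huv (by simp) ?_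
  intro s t h1 h2 h3 h4 h5 h6 h7
  have := h s (h4.elim id fun e => e ▸ hu) t (h5.elim id fun e => e ▸ hv) h1 h2 h3 h6
  linarith [LG.d_triangle (f u) (f s) (f t)]

theorem card_step (E : Finset ℝ) {s t : ℝ} (ht : t ∈ E) (h : s < t) :
    ((E.filter (· ≤ s)).card : ℝ) + 1 ≤ (E.filter (· ≤ t)).card := by
  have : (E.filter (· ≤ s)).card < (E.filter (· ≤ t)).card := by
    refine Finset.card_lt_card ⟨fun x hx => ?_, fun k => ?_⟩
    · rw [Finset.mem_filter] at hx ⊢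
      exact ⟨hx.1, hx.2.trans h.le⟩
    · exact absurd (Finset.mem_filter.1 (k (Finset.mem_filter.2 ⟨ht, le_rfl⟩))).2 (not_le.2 h)
  exact_mod_cast this

variable {R : RT} {P : ℝ → R.W} {p q : ℝ}

theorem exists_F (E : Finset ℝ) : ∃ F : Finset ℝ, (∀ t ∈ F, t ∈ Icc p q) ∧ ∀ s ∈ E, ∀ t ∈ E,
    R.JA P p q (P s) (P t) →
      ∃ w, ∃ u ∈ F, ∃ v ∈ F, R.d (P s) (w * P u) = 0 ∧ R.d (P t) (w * P v) = 0 := by
  classical
  have h : ∀ z : ℝ × ℝ, ∃ F : Finset ℝ, (∀ t ∈ F, t ∈ Icc p q) ∧ (R.JA P p q (P z.1) (P z.2) →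
      ∃ w, ∃ u ∈ F, ∃ v ∈ F, R.d (P z.1) (w * P u) = 0 ∧ R.d (P z.2) (w * P v) = 0) := by
    intro z
    by_cases k : R.JA P p q (P z.1) (P z.2)
    · obtain ⟨w, u, hu, v, hv, k⟩ := k
      exact ⟨{u, v}, by simpa using ⟨hu, hv⟩, fun _ => ⟨w, u, by simp, v, by simp, k⟩⟩
    · exact ⟨∅, by simp, fun e => (k e).elim⟩
  choose F h1 h2 using h
  refine ⟨(E ×ˢ E).biUnion F, fun t ht => ?_, fun s hs t ht k => ?_⟩
  · obtain ⟨z, -, hz⟩ := Finset.mem_biUnion.1 ht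
    exact h1 z t hz
  · obtain ⟨w, u, hu, v, hv, k⟩ := h2 (s, t) k
    have m : (s, t) ∈ E ×ˢ E := Finset.mem_product.2 ⟨hs, ht⟩
    exact ⟨w, u, Finset.mem_biUnion.2 ⟨_, m, hu⟩, v, Finset.mem_biUnion.2 ⟨_, m, hv⟩, k⟩

variable {A : Finset R.W} {a : R.W → ℝ} {E : Finset ℝ} {k : ℕ} {y : Fin k → R.W}
  {n : ℝ → Coprod (R.T0 P p q) (FreeGroup (Fin k))}

/-- the value of a cell retracts to the arc -/
theorem cell_ret (hv : R.Vals P A a p q E y n) {s t : ℝ} (hs : s ∈ E) (ht : t ∈ E) (h : s < t)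
    (hf : Free E s t) (hA : GI s t ⊆ R.secs a A) :
    Coprod.lift (R.T0 P p q).subtype (FreeGroup.lift y) ((n s)⁻¹ * n t) = (P s)⁻¹ * P t := by
  by_cases c : R.JA P p q (P s) (P t) ∨ R.Fr P p q (P s) (P t)
  · obtain ⟨x, h1, h2⟩ := hv.arc s hs t ht h hf hA c
    rw [h2, Coprod.lift_apply_inl, ← h1]
    rfl
  · obtain ⟨i, z, z', s', t', h1, -, -, -, h2, h3⟩ := hv.lett s hs t ht h hf hA c
    have e : Coprod.lift (R.T0 P p q).subtype (FreeGroup.lift y) ((n s')⁻¹ * n t') =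
        (P s')⁻¹ * P t' := by
      rw [h3, h2]
      simp
    rcases h1 with ⟨rfl, rfl⟩ | ⟨rfl, rfl⟩
    · exact e
    · have := congrArg (·⁻¹) e
      simpa using this

/-- the length of a cell -/
theorem cell_len (hv : R.Vals P A a p q E y n) {G : LG} (j : R.T0 P p q →* G.W) (u : Fin k → G.W)
    (hj : ∀ z : R.T0 P p q, R.ℓ z = 0 → G.ℓ (j z) = 0) (hu : ∀ i, G.ℓ (u i) ≤ R.ℓ (y i))
    {s t c : ℝ} (hs : s ∈ E) (ht : t ∈ E) (h : s < t) (hf : Free E s t)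
    (hA : GI s t ⊆ R.secs a A)
    (h1 : ¬(R.JA P p q (P s) (P t) ∨ R.Fr P p q (P s) (P t)) → t - s ≤ c)
    (h2 : R.JA P p q (P s) (P t) ∨ R.Fr P p q (P s) (P t) → ∀ x : R.T0 P p q,
      (x : R.W) = (P s)⁻¹ * P t → G.ℓ (j x) ≤ c) :
    G.d (Coprod.lift j (FreeGroup.lift u) (n s)) (Coprod.lift j (FreeGroup.lift u) (n t)) ≤ c := by
  have e : ∀ s t, G.d (Coprod.lift j (FreeGroup.lift u) (n s))
      (Coprod.lift j (FreeGroup.lift u) (n t)) =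
        G.ℓ (Coprod.lift j (FreeGroup.lift u) ((n s)⁻¹ * n t)) := fun s t => by
    rw [map_mul, map_inv]; rfl
  by_cases c : R.JA P p q (P s) (P t) ∨ R.Fr P p q (P s) (P t)
  · obtain ⟨x, k1, k2⟩ := hv.arc s hs t ht h hf hA c
    rw [e, k2, Coprod.lift_apply_inl]
    exact h2 c x k1
  · obtain ⟨i, z, z', s', t', k1, k2, k3, k4, -, k5⟩ := hv.lett s hs t ht h hf hA c
    have e' : G.d (Coprod.lift j (FreeGroup.lift u) (n s'))
        (Coprod.lift j (FreeGroup.lift u) (n t')) ≤ t - s := by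
      rw [e, k5, map_mul, map_mul, Coprod.lift_apply_inl, Coprod.lift_apply_inl,
        Coprod.lift_apply_inr, FreeGroup.lift_apply_of, LG.l_mul_tiny _ (hj z' k3),
        LG.l_tiny_mul (hj z k2), ← k4]
      exact hu i
    refine le_trans ?_ (h1 c)
    rcases k1 with ⟨rfl, rfl⟩ | ⟨rfl, rfl⟩
    · exact e'
    · rwa [LG.d_comm]

end D_out3A

open D_out3A in
theorem p_D_OUT3 (hD_EXT : S_D_EXT) (hD_PART : S_D_PART) (hD_IOTA : S_D_IOTA) :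
    S_D_OUT3 := by
  classical
  intro R M A k x ι _ S P g a p q H hx hP hnp hgm ⟨i0, γ, hγ, hinf, β, hβ, hrel⟩ hS
  obtain ⟨E, EG, r, hpt⟩ := hD_PART R A ι S P g a p q H hP
  obtain ⟨kk, y, n, hv, hio⟩ := hD_IOTA R A ι S P g a p q E EG r H hP hnp hpt
  have frM : ∀ m ∈ M, R.Fr P p q 1 m := fun m hm => R.fr_of_not_hgm hP hgm
    ⟨1, m, hm, LG.on_left _ _, by rw [one_mul]; exact LG.on_right _ _⟩
  have sub : ∀ w ∈ A, ∀ s t, a w ≤ s → t ≤ a w + R.ℓ w → GI s t ⊆ R.secs a A :=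
    fun w hw s t h1 h2 α hα => ⟨w, hw, GI_mono h1 h2 hα⟩
  have le0 : ∀ w, a w ≤ a w + R.ℓ w := fun w => le_add_of_nonneg_right (LG.l_nonneg w)
  have dist : ∀ w ∈ A, ∀ s t, a w ≤ s → s < t → t ≤ a w + R.ℓ w → R.ℓ ((P s)⁻¹ * P t) = t - s :=
    fun w hw s t h1 h2 h3 => by
      have := H.iso w hw s ⟨h1, h2.le.trans h3⟩ t ⟨h1.trans h2.le, h3⟩
      rwa [abs_sub_comm, abs_of_pos (sub_pos.2 h2)] at this
  obtain ⟨s0, hs0, t0, ht0, a1, a2, a3, a4, a5⟩ := exists_cell E.finite_toSet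
    (hpt.ends _ (hx i0)).1 (hpt.ends _ (hx i0)).2 hγ
  have ja0 : R.JA P p q (P s0) (P t0) := by
    rcases hpt.cell s0 hs0 t0 ht0 a2 a4 (sub _ (hx i0) _ _ a1 a3) with ⟨γ', h1, h2⟩ | h | h
    · exact (hinf (hpt.fam.sub γ' h1 γ (h2 ▸ a5)).2).elim
    · exact h
    · obtain ⟨w, hw⟩ := H.mv_of_rel hrel
      exact ((R.fr_iff hP (H.iso _ (hx i0)) a1 a2.le a3).1 h γ a5 w β hβ hw).elim
  obtain ⟨F, hF, hF'⟩ := exists_F (R := R) (P := P) (p := p) (q := q) E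
  obtain ⟨η, η0, hη⟩ : ∃ η : ℝ, 0 < η ∧ k * (η * E.card) ≤ (t0 - s0) / 2 := by
    have h0 : (0 : ℝ) < k * E.card + 1 := by positivity
    refine ⟨(t0 - s0) / 2 / (k * E.card + 1), div_pos (by linarith) h0, ?_⟩
    rw [mul_comm _ (E.card : ℝ), ← mul_assoc, ← mul_div_assoc, div_le_iff₀ h0]
    nlinarith
  obtain ⟨σ, hσ, hσ'⟩ := hS F η η0 hF
  let j0 : R.W → Coprod (R.T0 P p q) (FreeGroup (Fin kk)) := fun w =>
    if h : w ∈ R.T0 P p q then Coprod.inl ⟨w, h⟩ else 1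
  have io0 : ∀ w (h : R.ℓ w = 0), R.io a j0 n w = Coprod.inl ⟨w, LG.tiny_mem_T0 h⟩ := fun w h => by
    rw [LG.io, if_pos h]; exact dif_pos _
  have io1 : ∀ w, R.ℓ w ≠ 0 → R.io a j0 n w = (n (a w))⁻¹ * n (a w + R.ℓ w) := fun w h => by
    rw [LG.io, if_neg h]
  have pos : ∀ w, R.ℓ w ≠ 0 → 0 < R.ℓ w := fun w h => (LG.l_nonneg w).lt_of_ne' h
  refine ⟨R.T0 P p q, σ, kk, y, R.io a j0 n, (t0 - s0) / 2, by linarith,
    fun m hm => Subgroup.subset_closure (Or.inr (frM m hm)), (hD_EXT R P p q hP).1,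
    fun t ht => hσ t (ht.elim (frM _) LG.fr_tiny), hv.np, fun w hw => ?_, fun G j u hu => ?_⟩
  · by_cases h : R.ℓ w = 0
    · rw [io0 w h, Coprod.lift_apply_inl]; rfl
    rw [io1 w h]
    have := chain_ind (Q := fun s t => Coprod.lift (R.T0 P p q).subtype (FreeGroup.lift y)
      ((n s)⁻¹ * n t) = (P s)⁻¹ * P t) E.finite_toSet (le0 w) (by simp) (by
        intro s t h1 h2 h3 h4 h5 h6 h7
        have h8 := cell_ret hv (h4.elim id fun e => e ▸ (hpt.ends w hw).1)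
          (h5.elim id fun e => e ▸ (hpt.ends w hw).2) h2 h6 (sub w hw _ _ h1 h3)
        have e : (n (a w))⁻¹ * n t = (n (a w))⁻¹ * n s * ((n s)⁻¹ * n t) := by group
        rw [e, map_mul, h7, h8]
        group)
    rw [this, H.start w hw (pos w h), H.stop w hw (pos w h), inv_one, one_mul]
  refine ⟨fun w hw w' hw' hww => ?_, fun t ht htM => ?_, fun hj hu' => ?_⟩
  · let j' : R.W → G.W := fun w => if h : w ∈ R.T0 P p q then j ⟨w, h⟩ else 1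
    have hj' : ∀ z : R.T0 P p q, j' z = j z := fun z => dif_pos z.2
    have e : ∀ w, Coprod.lift j (FreeGroup.lift u) (R.io a j0 n w) =
        R.io a j' (fun t => Coprod.lift j (FreeGroup.lift u) (n t)) w := fun w => by
      by_cases h : R.ℓ w = 0
      · rw [io0 w h, Coprod.lift_apply_inl, LG.io, if_pos h]
        exact (hj' ⟨w, _⟩).symm
      · rw [io1 w h, LG.io, if_neg h, map_mul, map_inv]
    rw [e, e, e]
    refine H.tri G.W j' _ (fun z z' h h' => ?_) (hio G.W j u hu j' _ hj' fun _ => rfl)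
      w hw w' hw' hww
    have := hj' (⟨z, LG.tiny_mem_T0 h⟩ * ⟨z', LG.tiny_mem_T0 h'⟩)
    rw [map_mul, ← hj', ← hj'] at this
    exact this
  · by_cases h : R.ℓ t = 0
    · rw [io0 _ h, Coprod.lift_apply_inl]
    have hM := frM _ (htM.resolve_right h)
    obtain ⟨x', h1, h2⟩ := chain_ind (Q := fun s s' => ∃ x' : R.T0 P p q,
      (x' : R.W) = (P s)⁻¹ * P s' ∧ (n s)⁻¹ * n s' = Coprod.inl x') E.finite_toSet (le0 t)
      ⟨1, by simp, by simp⟩ (by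
        rintro s s' h1 h2 h3 h4 h5 h6 ⟨x1, h7, h8⟩
        obtain ⟨x2, h9, h10⟩ := hv.arc s (h4.elim id fun e => e ▸ (hpt.ends _ ht).1) s'
          (h5.elim id fun e => e ▸ (hpt.ends _ ht).2) h2 h6 (sub _ ht _ _ h1 h3)
          (Or.inr (R.fr_sub hM (H.on_sec ht (pos _ h) ⟨h1, h2.le.trans h3⟩)
            (H.on_sec ht (pos _ h) ⟨h1.trans h2.le, h3⟩)))
        refine ⟨x1 * x2, ?_, ?_⟩
        · rw [Subgroup.coe_mul, h7, h9]; group
        · rw [map_mul, ← h8, ← h10]; group)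
    rw [H.start _ ht (pos _ h), H.stop _ ht (pos _ h), inv_one, one_mul] at h1
    rw [io1 _ h, h2, Coprod.lift_apply_inl, Subtype.ext h1]
  have e : ∀ (jj : R.T0 P p q →* G.W) w, R.ℓ w ≠ 0 →
      G.ℓ (Coprod.lift jj (FreeGroup.lift u) (R.io a j0 n w)) =
        G.d (Coprod.lift jj (FreeGroup.lift u) (n (a w)))
          (Coprod.lift jj (FreeGroup.lift u) (n (a w + R.ℓ w))) := fun jj w h => by
    rw [io1 w h, map_mul, map_inv]; rfl
  have tiny : ∀ z : R.T0 P p q, R.ℓ z = 0 → G.ℓ (j z) = 0 := fun z h =>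
    le_antisymm (h ▸ hj z) (LG.l_nonneg _)
  refine ⟨fun w hw => ?_, ?_⟩
  · by_cases h : R.ℓ w = 0
    · rw [io0 _ h, Coprod.lift_apply_inl]
      exact hj ⟨w, _⟩
    rw [e j w h]
    refine (chain_len (fun t => Coprod.lift j (FreeGroup.lift u) (n t)) E (hpt.ends w hw).1
      (hpt.ends w hw).2 (le0 w) id fun s hs t ht h1 h2 h3 h4 => ?_).trans (by simp)
    exact cell_len hv j u tiny hu' hs ht h2 h4 (sub w hw _ _ h1 h3) (fun _ => le_rfl)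
      fun _ x' hx' => (hj x').trans (by rw [hx', dist w hw s t h1 h2 h3]; rfl)
  have tiny' : ∀ z : R.T0 P p q, R.ℓ z = 0 → G.ℓ (j.comp σ.toMonoidHom z) = 0 := fun z h => by
    change G.ℓ (j (σ z)) = 0
    rw [hσ z (LG.fr_tiny h)]
    exact tiny z h
  have short : ∀ s ∈ E, ∀ t ∈ E, R.JA P p q (P s) (P t) → ∀ x' : R.T0 P p q,
      (x' : R.W) = (P s)⁻¹ * P t → G.ℓ (j.comp σ.toMonoidHom x') ≤ η := by
    intro s hs t ht h x' hx'
    obtain ⟨w, b, hb, c, hc, h1, h2⟩ := hF' s hs t ht h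
    have h2' : R.ℓ ((w * P c)⁻¹ * P t) = 0 := LG.d_zero_symm h2
    have h1' : R.ℓ ((P s)⁻¹ * (w * P b)) = 0 := h1
    have e' : x' = ⟨_, LG.tiny_mem_T0 h1'⟩ * ⟨_, LG.path_mem_T0 (hF b hb) (hF c hc)⟩ *
        ⟨_, LG.tiny_mem_T0 h2'⟩ := Subtype.ext (by rw [hx']; simp [mul_assoc])
    rw [e', map_mul, map_mul, LG.l_mul_tiny _ (tiny' _ h2'), LG.l_tiny_mul (tiny' ⟨_, LG.tiny_mem_T0 h1'⟩ h1')]
    exact (hj _).trans (hσ' b hb c hc _ rfl)
  have long : ∀ w ∈ A, ∀ s ∈ E, ∀ t ∈ E, a w ≤ s → s < t → t ≤ a w + R.ℓ w → Free E s t →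
      G.d (Coprod.lift (j.comp σ.toMonoidHom) (FreeGroup.lift u) (n s))
        (Coprod.lift (j.comp σ.toMonoidHom) (FreeGroup.lift u) (n t)) ≤ t - s + η := by
    intro w hw s hs t ht h1 h2 h3 h4
    refine cell_len hv _ u tiny' hu' hs ht h2 h4 (sub w hw _ _ h1 h3) (fun _ => by linarith)
      fun c x' hx' => ?_
    rcases c with c | c
    · linarith [short s hs t ht c x' hx']
    · have c' := (LG.fr_mul_left (P s)⁻¹).2 c
      rw [inv_mul_cancel, ← hx'] at c'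
      change G.ℓ (j (σ x')) ≤ _
      rw [hσ x' c']
      have := hj x'
      rw [hx', dist w hw s t h1 h2 h3] at this
      linarith
  have cb : ∀ s t : ℝ, η * ((E.filter (· ≤ t)).card : ℝ) - η * (E.filter (· ≤ s)).card ≤
      η * E.card := fun s t => by
    have h1 : ((E.filter (· ≤ t)).card : ℝ) ≤ E.card := by exact_mod_cast Finset.card_filter_le _ _
    have h2 : (0 : ℝ) ≤ (E.filter (· ≤ s)).card := Nat.cast_nonneg _
    nlinarith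
  have key : ∀ i, G.ℓ (Coprod.lift (j.comp σ.toMonoidHom) (FreeGroup.lift u)
      (R.io a j0 n (x i))) ≤ R.ℓ (x i) + η * E.card - if i = i0 then t0 - s0 else 0 := by
    intro i
    split_ifs with hi
    · subst hi
      rw [e _ _ (LG.Setup.pos_of_mem hγ).ne']
      refine (chain_len (fun t => Coprod.lift (j.comp σ.toMonoidHom) (FreeGroup.lift u) (n t)) E
        (hpt.ends _ (hx i)).1 (hpt.ends _ (hx i)).2 (le0 _)
        (fun t => t + η * (E.filter (· ≤ t)).card - if t0 ≤ t then t0 - s0 else 0)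
        fun s hs t ht h1 h2 h3 h4 => ?_).trans ?_
      · have c1 := mul_le_mul_of_nonneg_left (card_step E ht h2) η0.le
        have c2 := long _ (hx i) s hs t ht h1 h2 h3 h4
        by_cases b1 : t0 ≤ s
        · rw [if_pos b1, if_pos (b1.trans h2.le)]
          linarith
        by_cases b2 : t0 ≤ t
        · have e1 : t0 = t := le_antisymm b2 (not_lt.1 fun b => h4 t0 ht0 ⟨not_le.1 b1, b⟩)
          subst e1
          have e2 : s0 = s := le_antisymm (not_lt.1 fun b => h4 s0 hs0 ⟨b, a2⟩)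
            (not_lt.1 fun b => a4 s hs ⟨b, h2⟩)
          subst e2
          have c3 := cell_len hv _ u tiny' hu' hs ht h2 h4 (sub _ (hx i) _ _ h1 h3) (c := η)
            (fun c => (c (Or.inl ja0)).elim) fun _ => short _ hs _ ht ja0
          rw [if_pos le_rfl, if_neg b1]
          linarith
        · rw [if_neg b1, if_neg b2]
          linarith
      · rw [if_pos a3, if_neg (not_le.2 (a1.trans_lt a2))]
        linarith [cb (a (x i)) (a (x i) + R.ℓ (x i))]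
    · by_cases h : R.ℓ (x i) = 0
      · rw [io0 _ h, Coprod.lift_apply_inl, tiny' _ h, h]
        have : 0 ≤ η * E.card := by positivity
        linarith
      rw [e _ _ h]
      refine (chain_len (fun t => Coprod.lift (j.comp σ.toMonoidHom) (FreeGroup.lift u) (n t)) E
        (hpt.ends _ (hx i)).1 (hpt.ends _ (hx i)).2 (le0 _)
        (fun t => t + η * (E.filter (· ≤ t)).card) fun s hs t ht h1 h2 h3 h4 => ?_).trans ?_
      · have c1 := mul_le_mul_of_nonneg_left (card_step E ht h2) η0.le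
        have c2 := long _ (hx i) s hs t ht h1 h2 h3 h4
        linarith
      · linarith [cb (a (x i)) (a (x i) + R.ℓ (x i))]
  refine (Finset.sum_le_sum fun i _ => key i).trans ?_
  rw [Finset.sum_sub_distrib, Finset.sum_add_distrib, Finset.sum_ite_eq' _ i0,
    if_pos (Finset.mem_univ _), Finset.sum_const, Finset.card_univ, Fintype.card_fin, nsmul_eq_mul]
  linarith

end Pool.Agent.P.MP_dba3d2_lc


end

section

/-! Step D_CASEI of the stability project. -/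

namespace Pool.Agent.P.MP_dba3d2_lc

open Set Filter Topology

theorem p_D_CASEI (hD_MINC : S_D_MINC) (hD_STB : S_D_STB) (hD_INDUCE : S_D_INDUCE) (hD_SAT : S_D_SAT) (hD_GOODTHIN : S_D_GOODTHIN) (hD_STRIP : S_D_STRIP) (hD_PB1 : S_D_PB1) (hD_PB2 : S_D_PB2) (hD_TYPE : S_D_TYPE) (hD_OUT3 : S_D_OUT3) :
    S_D_CASEI := by
  intro R e ax M A k x ι _ S P g a H hx i γ hγ hn hi
  have hm := (hD_MINC ι S).2 γ hi
  have hγC : γ ∈ closure (S.orb γ) := subset_closure (Sys.Rel.refl S γ)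
  have hsub : closure (S.orb γ) ⊆ R.secs a A :=
    closure_minimal (fun β hβ => Sys.Rel.mem hβ H.in'.inv ⟨x i, hx i, hγ⟩)
      (LG.Setup.co_secs _ a A).isClosed
  generalize closure (S.orb γ) = C at hm hγC hsub
  have nh : ∀ β ∈ C, ¬R.HGm P M β := fun β hβ k => by
    obtain ⟨w, hw, h1⟩ := hsub hβ
    have ev := LG.HGm.eventually (H.iso w hw) h1 k
    obtain ⟨β', ⟨h2, -⟩, h3⟩ := hm.reach (U := interior {α | R.HGm P M α}) isOpen_interior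
      ⟨β, mem_interior_iff_mem_nhds.2 ev, hβ⟩ hγC
    obtain ⟨g', h4⟩ := H.mv_of_rel h3.symm
    exact hn (LG.HGm.mv (interior_subset (s := {α | R.HGm P M α}) h2) h4)
  have sp : R.Supp M A x S a C :=
    ⟨hx, hm.co, hm.inv, hsub, fun m h1 h2 =>
      disjoint_left.2 fun β hβ h3 => nh β hβ (H.hgm_of_mem h1 h2 h3), i, γ, hγC, hγ⟩
  have rc : ∀ p q, p < q → GI p q ⊆ C → ∀ α ∈ C, ∃ β ∈ GI p q, S.Rel α β := fun p q h1 h2 α hα =>
    let ⟨β, h3⟩ := GI_nonempty.2 h1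
    let ⟨β', h4, h5⟩ := hm.reach isOpen_GI ⟨β, h3, h2 h3⟩ hα
    ⟨β', h4.1, h5⟩
  obtain ⟨u, v, huv, hI⟩ := exists_GI_subset (hm.co.2.inter (LG.Setup.co_sec _ a (x i)).2)
    ⟨γ, hγC, hγ⟩
  have hC : ∀ p q, u ≤ p → q ≤ v → GI p q ⊆ C := fun p q h1 h2 β hβ => (hI (GI_mono h1 h2 hβ)).1
  have hb := (GI_subset_iff huv).1 fun β hβ => (hI hβ).2
  have iso : R.IsoOn P u v := (H.iso _ (hx i)).mono hb.1 hb.2
  by_cases hp : ∃ s t, u ≤ s ∧ s < t ∧ t ≤ v ∧ R.Per (P s) (P t)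
  · obtain ⟨s, t, h1, h2, h3, h4⟩ := hp
    exact Or.inr (Or.inl (hD_PB2 R e ax M A k x ι S P g a C H sp s t h2 (iso.mono h1 h3) h4
      (rc s t h2 (hC s t h1 h3))))
  obtain ⟨p, q, hp1, hq1, st⟩ := hD_STB R e ax P u v huv iso
    fun s t h1 h2 h3 h4 => hp ⟨s, t, h1, h2, h3, h4⟩
  obtain ⟨κ, _, T, t1, t2, t3⟩ := hD_INDUCE ι S C (GI p q) hm.co hm.inv co_GI (hC p q hp1 hq1)
    (rc p q st.lt (hC p q hp1 hq1))
  have tm := hm.of_rel co_GI (GI_nonempty.2 st.lt) (hC p q hp1 hq1) t1 t3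
  have tw : T.Weak (R.arc P p q) := fun j β hβ =>
    LG.rw_arc_iff.2 ⟨t1 j hβ, t1 _ (T.map j β hβ), H.mv_of_rel (t2 _ _ ⟨j, hβ, rfl⟩)⟩
  obtain ⟨p', q', a1, a2, a3, ⟨κ', _, T', b1, b2, b3, b4, b5⟩ | ⟨L, hL⟩⟩ :=
    hD_SAT _ st.pg κ T p q t1 tm tw
  · exact Or.inl (hD_PB1 _ M A k x ι S P g a C H sp p' q' T'.Rel
      (rc p' q' a2 (hC _ _ (hp1.trans a1) (a3.trans hq1)))
      (fun β h1 β' h2 h3 => b5 β h1 β' h2 (t3 β (GI_mono a1 a3 h1) β' (GI_mono a1 a3 h2) h3))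
      (hD_STRIP _ P p q p' q' st a1 a3 κ' T' b1 b2
        (hD_GOODTHIN _ P p q p' q' st a1 a3 κ' T' b1 b2 b3 b4)))
  · obtain ⟨s, t, c1, c2, c3, -, c4⟩ := hD_TYPE R P p q st _ L hL
    have hs := hC s t (hp1.trans c1) (c3.trans hq1)
    exact Or.inr (Or.inr (hD_OUT3 R M A k x ι S P g a s t H hx (st.iso.mono c1 c3)
      (fun s' t' h1 h2 h3 => st.np s' t' (c1.trans h1) h2 (h3.trans c3)) (fun β hβ => nh β (hs hβ))
      ⟨i, γ, hγ, hi, rc s t c2 hs γ hγC⟩ c4))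

end Pool.Agent.P.MP_dba3d2_lc


end

section

/-! Step MACH of the stability project. -/

namespace Pool.Agent.P.MP_dba3d2_lc



theorem p_MACH (hD_SETUP : S_D_SETUP) (hD_BAD : S_D_BAD) (hD_CASEF : S_D_CASEF) (hD_CASEI : S_D_CASEI) :
    S_MACH := by
  intro R e he M A k x hx hc
  obtain ⟨i, hi⟩ := not_forall.1 hc
  obtain ⟨ι, _, S, P, g, a, H⟩ := hD_SETUP R A
  obtain ⟨γ, h1, h2⟩ := hD_BAD R M A ι S P g a H (x i) (hx i) hi
  rcases (S.orb γ).finite_or_infinite with h | h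
  · exact (hD_CASEF R e he M A k x ι S P g a H hx i γ h1 h2 h).imp_right Or.inl
  · exact hD_CASEI R e he M A k x ι S P g a H hx i γ h1 h2 h

end Pool.Agent.P.MP_dba3d2_lc


end
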