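import Pool.Agent.P.MP_dba3d2_lcM.Ab00
import Pool.Agent.P.MP_dba3d2_lcM.Ab04
import Pool.Agent.P.MP_dba3d2_lcM.Bb10
import Pool.Agent.P.MP_dba3d2_lcM.Cb18
import Pool.Agent.P.MP_dba3d2_lcM.Gb27

section

/-! Definitions for chapter E: ultraproducts of subgroups, limit retractions, generic exponents. -/

namespace Pool.Agent.P.MP_dba3d2_lc

open Filter

variable {Γ : HG} {a b : Amb}

/-- the ultraproduct of a family of subgroups -/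
def UT {J : Type} (U : Ultrafilter J) (T : J → Subgroup (MM Γ b)) : Subgroup (MM Γ (b.pow U)) where
  carrier := {g | ∃ t : J → MM Γ b, (∀ j, t j ∈ T j) ∧ g = b.mk' U t}
  one_mem' := ⟨fun _ => 1, fun j => (T j).one_mem, by rw [mk'_hom, map_one]⟩
  mul_mem' := by
    rintro _ _ ⟨s, hs, rfl⟩ ⟨t, ht, rfl⟩
    exact ⟨fun j => s j * t j, fun j => (T j).mul_mem (hs j) (ht j), (mk'_mul U s t).symm⟩
  inv_mem' := by
    rintro _ ⟨s, hs, rfl⟩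
    exact ⟨fun j => (s j)⁻¹, fun j => (T j).inv_mem (hs j), (mk'_inv U s).symm⟩

/-- `R` is the ultraproduct of the homomorphisms `ρ j` -/
def IsUR {J : Type} (U : Ultrafilter J) (T : J → Subgroup (MM Γ b))
    (ρ : (j : J) → T j →* MM Γ a) (R : UT U T →* MM Γ (a.pow U)) : Prop :=
  ∀ (t : (j : J) → T j) (x : UT U T),
    (x : MM Γ (b.pow U)) = b.mk' U (fun j => (t j : MM Γ b)) → R x = a.mk' U fun j => ρ j (t j)

/-- `ρ` does not increase the length of `t`, up to a negligible error -/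
def Lip (E : Ext a b) (T : Subgroup (MM Γ b)) (ρ : T →* MM Γ a) (t : T) : Prop :=
  (Big (ln (t : MM Γ b)) → Ll (E.kh (ln (ρ t)) - ln (t : MM Γ b)) (ln (t : MM Γ b))) ∧
    (¬ Big (ln (t : MM Γ b)) → ¬ Big (ln (ρ t)))

/-- internal powers of `t` of scale at most `μ` lie in `T` and are sent to powers -/
def PowC (T : Subgroup (MM Γ b)) (ρ : T →* MM Γ a) (μ : b.K) (t : T) : Prop :=
  ∀ k : b.Z, Ls (|zK k| * md (t : MM Γ b)) μ →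
    ∃ t' : T, (t' : MM Γ b) = ipow (t : MM Γ b) k ∧ ∃ k' : a.Z, ρ t' = ipow (ρ t) k'

/-- A section `θ` over `S` of a retraction `ρ`, both almost length preserving at the scales of `S`. -/
structure Rf (E : Ext a b) (S : Subgroup (MM Γ a)) (θ : S →* MM Γ b) (T : Subgroup (MM Γ b))
    (ρ : T →* MM Γ a) : Prop where
  gc : GC S
  mem : ∀ s : S, θ s ∈ T
  sec : ∀ (s : S) (t : T), (t : MM Γ b) = θ s → ρ t = s
  st : ∀ (s : S) (x : Γ.G), (s : MM Γ a) = cst Γ a x → θ s = cst Γ b x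
  ni : ∀ s : S, Big (ln (s : MM Γ a)) →
    Ll (ln (θ s) - E.kh (ln (s : MM Γ a))) (E.kh (ln (s : MM Γ a)))
  lip : ∀ s : S, Big (ln (s : MM Γ a)) → ∀ t : T, Ls (ln (t : MM Γ b)) (E.kh (ln (s : MM Γ a))) →
    Ll (E.kh (ln (ρ t)) - ln (t : MM Γ b)) (E.kh (ln (s : MM Γ a)))
  tor : ∀ t : T, IsOfFinOrder t → ρ t = 1 → t = 1

/-- The extra properties of the limit retraction. -/
structure Rf2 (E : Ext a b) (S : Subgroup (MM Γ a)) (θ : S →* MM Γ b) (T : Subgroup (MM Γ b))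
    (ρ : T →* MM Γ a) : Prop extends Rf E S θ T ρ where
  g2 : ∀ s s' : S, Big (ln (s : MM Γ a)) → Ls (ln (s' : MM Γ a)) (ln (s : MM Γ a)) → ∀ g p q,
    Ov (E.kh (ln (s : MM Γ a))) p q 1 (θ s) g (g * θ s') → ¬ Per (E.kh (ln (s : MM Γ a))) p q →
    g ∈ T
  per : ∀ s : S, Big (ln (s : MM Γ a)) → ∀ p q d, Ls (E.kh (ln (s : MM Γ a))) (ds p q) →
    On (E.kh (ln (s : MM Γ a))) p 1 (θ s) → On (E.kh (ln (s : MM Γ a))) q 1 (θ s) → Prim d →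
    Stab (E.kh (ln (s : MM Γ a))) p q d → ∃ t : T, (t : MM Γ b) = d ∧ ¬ IsOfFinOrder (ρ t)
  prim : ∀ s : S, Prim (s : MM Γ a) → Prim (θ s)

/-- `P` on the segment from `1` to `s` corresponds to `p` on the segment from `1` to `s'`. -/
structure Cor (E : Ext a b) (l : a.K) (s : MM Γ a) (s' : MM Γ b) (P : MM Γ a) (p : MM Γ b) :
    Prop where
  dn : On l P 1 s
  up : On (E.kh l) p 1 s'
  eq : Ll |ln p - E.kh (ln P)| (E.kh l)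

/-- a generic family of exponents: infinite, but just above the old scales -/
structure GenK (E : Ext a b) (k : ℚ →+ b.Z) : Prop where
  big : Big (zK (k 1))
  up : ∀ q, Ls |zK (k q)| (zK (k 1))
  lo : ∀ q, q ≠ 0 → Ls (zK (k 1)) |zK (k q)|
  gap : ∀ x ν : a.K, Ll x ν → Ll (zK (k 1) * E.kh x) (E.kh ν)

end Pool.Agent.P.MP_dba3d2_lc


end

section

/-! Interface, chapter E, second layer. -/

namespace Pool.Agent.P.MP_dba3d2_lc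

open Filter

-- deps: ELEM
-- imports: Pool.Agent.P.MP_dba3d2_lc.B.Axis2
def S_E_CHI : Prop := ∀ (Γ : HG) (a : Amb) (c : MM Γ a), Prim c → ∃ χ : MM Γ a → a.Z,
  (∀ f ∈ Ep c, ∀ k, χ f = k ↔ IsOfFinOrder (f⁻¹ * ipow c k)) ∧
  (∀ f ∈ Ep c, ∀ g ∈ Ep c, χ (f * g) = χ f + χ g) ∧
  (∀ f ∈ Ep c, χ f⁻¹ = - χ f) ∧
  (∀ f ∈ Ep c, χ f = 0 ↔ IsOfFinOrder f) ∧
  (∀ f ∈ Ep c, ∀ n : ℕ, χ (f ^ n) = (n : a.Z) * χ f) ∧
  (∀ f ∈ Ep c, ∀ n : ℤ, χ (f ^ n) = (n : a.Z) * χ f) ∧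
  (∀ f ∈ Ep c, ∀ k, ipow f k ∈ Ep c ∧ χ (ipow f k) = χ f * k) ∧
  (∀ k, χ (ipow c k) = k) ∧ χ c = 1 ∧
  (∀ f ∈ Ep c, Prim f ↔ χ f = 1 ∨ χ f = -1)

-- deps: ELEM LINE
-- imports: Pool.Agent.P.MP_dba3d2_lc.B.Axis2
def S_E_SZ : Prop := ∀ (Γ : HG) (a : Amb) (c f : MM Γ a) (k : a.Z), ¬ IsOfFinOrder c → f ∈ Ep c →
  IsOfFinOrder (f⁻¹ * ipow c k) →
  Ls (|zK k| * md c) (md f) ∧ ∀ p, ds p (ipow c k * p) ≤ |zK k| * ds p (c * p) ∧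
    Ls (ds p (f * p)) ((|zK k| + 1) * ds p (c * p))

-- deps:
-- imports: Pool.Agent.P.MP_dba3d2_lc.B.Fix
def S_E_GEO : Prop := ∀ (Γ : HG) (a : Amb) (μ : a.K), Big μ →
  (∀ w : MM Γ a, Ll |md w - max (ln (w * w) - ln w) 0| μ) ∧
  ∀ c c' : MM Γ a, Ll (md c) μ → Ll (md c') μ → Ll (md (c * c')) μ →
    ∃ z, Ll (ds z (c * z)) μ ∧ Ll (ds z (c' * z)) μ

-- deps:
-- imports: Pool.Agent.P.MP_dba3d2_lc.B.Sc
def S_E_LIP : Prop := ∀ (Γ : HG) (a b : Amb) (E : Ext a b) (T : Subgroup (MM Γ b))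
  (ρ : T →* MM Γ a),
  (∀ (P : Subgroup (MM Γ b)) (Y : Set (MM Γ b)), AddNF P Y → Y ⊆ T →
    (∀ t : T, (t : MM Γ b) ∈ Y → Lip E T ρ t) → ∀ t : T, (t : MM Γ b) ∈ P → Lip E T ρ t) ∧
  ∀ H : Subgroup (MM Γ a), H.map (E.hom Γ) ≤ T →
    (∀ (t : T) (h : MM Γ a), h ∈ H → (t : MM Γ b) = E.hom Γ h → ρ t = h) →
    (∀ t : T, (t : MM Γ b) ∈ H.map (E.hom Γ) → Lip E T ρ t) ∧
    (FinRed T (H.map (E.hom Γ)) (H.map (E.hom Γ)) → PerRed T (H.map (E.hom Γ)) (H.map (E.hom Γ)) →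
      (∀ t : T, Lip E T ρ t) → ∀ n, Retr E T ρ n)

-- deps: ELEM PERC ROOT TRUNC LET GRAFT
-- imports: Pool.Agent.P.MP_dba3d2_lc.E.Bas
def S_E_GL : Prop := ∀ (Γ : HG) (a : Amb) (μ : a.K) (X : Subgroup (MM Γ a)) (r : ℕ)
  (K : Fin r → Subgroup Γ.G) (u : Fin r → MM Γ a), Big μ → GC0 X → Letters μ (X ⊓ ball Γ μ) K u →
  let C := Subgroup.closure (Set.range u)
  GC0 (X ⊔ C) ∧ FinRed (X ⊔ C) X X ∧ PerRed (X ⊔ C) X X ∧
  AddNF (X ⊔ C) {g | g ∈ X ∨ g ∈ (X ⊓ ball Γ μ) ⊔ C} ∧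
  AddNF ((X ⊓ ball Γ μ) ⊔ C) {g | g ∈ X ⊓ ball Γ μ ∨ ∃ i, g = u i ∨ g = (u i)⁻¹} ∧
  (∀ i, ∀ x ∈ X, (u i)⁻¹ * x * u i ∈ X → x ∈ (K i).map (cst Γ a)) ∧
  ∀ c ∈ X, Prim c → ∀ f ∈ X ⊔ C, f ∈ Ep c → f ∈ X

-- deps: ELEM ROOT TRUNC LET GRAFT
-- imports: Pool.Agent.P.MP_dba3d2_lc.E.Bas
def S_E_GLX : Prop := ∀ (Γ : HG) (a : Amb) (μ : a.K) (X : Subgroup (MM Γ a)) (r : ℕ)
  (K : Fin r → Subgroup Γ.G) (u : Fin r → MM Γ a), Big μ → GC0 X → Letters μ (X ⊓ ball Γ μ) K u →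
  ExtL X u

-- deps: ELEM ROOT TRUNC EXP GRAFT
-- imports: Pool.Agent.P.MP_dba3d2_lc.E.Bas
def S_E_GE : Prop := ∀ (Γ : HG) (a : Amb) (μ : a.K) (X : Subgroup (MM Γ a)) (c : MM Γ a)
  (k : ℚ →+ a.Z), Big μ → GC0 X → c ∈ X ⊓ ball Γ μ → Prim c → Ll (md c) μ →
  (∀ q, ipow c (k q) ∈ ball Γ μ) →
  (∀ q, q ≠ 0 → ∀ f ∈ X ⊓ ball Γ μ, f ∈ Ep c → Ls μ (md (f * ipow c (k q)))) →
  let C := Subgroup.closure (Set.range fun q => ipow c (k q))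
  GC0 (X ⊔ C) ∧ FinRed (X ⊔ C) X X ∧ PerRed (X ⊔ C) X X ∧ ExtE X c k ∧
  AddNF (X ⊔ C) {g | g ∈ X ∨ g ∈ (X ⊓ ball Γ μ) ⊔ C} ∧
  AddNF ((X ⊓ ball Γ μ) ⊔ C) {g | g ∈ X ⊓ ball Γ μ ∨ ∃ x ∈ X ⊓ ball Γ μ, ∃ f ∈ X ⊓ ball Γ μ,
    f ∈ Ep c ∧ Cen (x⁻¹ * c * x) ∧ ∃ q, g = x⁻¹ * (f * ipow c (k q)) * x} ∧
  ∀ g ∈ X ⊔ C, Big (ln g) → ∃ h ∈ X, Sim (ln g) (ln h) ∨ Ls (ln g) μ

-- deps:
-- imports: Pool.Agent.P.MP_dba3d2_lc.B.Sc
def S_E_EXC : Prop := ∀ (Γ : HG) (a : Amb) (X : Subgroup (MM Γ a)) (c p : MM Γ a) (k : ℚ →+ a.Z),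
  p ∈ X → X ⊔ Subgroup.closure (Set.range fun q => ipow (p⁻¹ * c * p) (k q)) =
      X ⊔ Subgroup.closure (Set.range fun q => ipow c (k q)) ∧
    (ExtE X (p⁻¹ * c * p) k → ExtE X c k)

-- deps:
-- imports: Pool.Agent.P.MP_dba3d2_lc.G.Tb
def S_E_ME1 : Prop := ∃ κ : ℚ → ℕ → ℤ, ∀ a : Amb, ∃ k : ℚ →+ (a.pow U0).Z,
  (∀ q, k q = a.mk' U0 fun n => (κ q n : a.Z)) ∧ GenK (a.dg U0) k

-- deps: E_CHI E_SZ
-- imports: Pool.Agent.P.MP_dba3d2_lc.G.Tb Pool.Agent.P.MP_dba3d2_lc.B.Axis2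
def S_E_ME2 : Prop := ∀ (Γ : HG) (a b : Amb) (E : Ext a b) (c : MM Γ a) (k : ℚ →+ b.Z),
  GenK E k → Prim c → Cen c →
  let μ := zK (k 1) * E.kh (md c)
  Big μ ∧ E.hom Γ c ∈ ball Γ μ ∧ Ll (md (E.hom Γ c)) μ ∧ (∀ q, ipow (E.hom Γ c) (k q) ∈ ball Γ μ) ∧
  ∀ f ∈ (E.hom Γ).range ⊓ ball Γ μ, f ∈ Ep (E.hom Γ c) →
    (∀ q, q ≠ 0 → Ls μ (md (f * ipow (E.hom Γ c) (k q)))) ∧
    ∀ x : MM Γ b, Cen (x⁻¹ * E.hom Γ c * x) → Ll (ln (x⁻¹ * f * x)) μ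

-- deps: REFL1 MOVE
-- imports: Pool.Agent.P.MP_dba3d2_lc.E.Bas
def S_E_END : Prop := ∀ (Γ : HG) (a b : Amb) (E : Ext a b) (H : Subgroup (MM Γ a)) (μ : a.K)
  (m k : ℕ) (Q : (Fin m ⊕ Fin k → Γ.G) → Prop) (h : Fin m → MM Γ a) (x : Fin k → ball Γ μ),
  GC H → Big μ → Tr Q → (∀ i, h i ∈ H) → NMin Q h μ (fun i => (x i : MM Γ a)) →
  ∃ (A0 : Finset (MM Γ a)) (η : ℝ), (∀ w ∈ A0, w ∈ ball Γ μ) ∧ 0 < η ∧
    ∀ (R : RT) (φ : R.W ≃* ball Γ μ), (∀ g, R.ℓ g = rl μ (ln (φ g : MM Γ a))) →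
    ∀ A : Finset R.W, (∀ w : R.W, (φ w : MM Γ a) ∈ A0 → w ∈ A) →
    ∀ (T : Subgroup (MM Γ b)) (ψ : R.W → T) (ρ : T →* MM Γ a) (σ : T →* T),
      GC T → T ≤ ball Γ (E.kh μ) → (H ⊓ ball Γ μ).map (E.hom Γ) ≤ T → (∀ n, Retr E T ρ n) →
      (∀ w ∈ A, ∀ w' ∈ A, w * w' ∈ A → ψ (w * w') = ψ w * ψ w') →
      (∀ w ∈ A, (φ w : MM Γ a) ∈ H ∨ R.ℓ w = 0 → (ψ w : MM Γ b) = E.hom Γ (φ w)) →
      (∀ w ∈ A, ρ (ψ w) = φ w) →
      (∀ w ∈ A, rl (E.kh μ) (ln (ψ w : MM Γ b)) ≤ R.ℓ w + η) →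
      Function.Bijective σ → (∀ t : T, (t : MM Γ b) ∈ H.map (E.hom Γ) → σ t = t) →
      ∑ i, R.ℓ (φ.symm (x i)) ≤ ∑ i, rl (E.kh μ) (ln (σ (ψ (φ.symm (x i))) : MM Γ b))

-- deps: LINE
-- imports: Pool.Agent.P.MP_dba3d2_lc.B.Axis2
def S_E_TRL : Prop := ∀ (Γ : HG) (a : Amb) (μ : a.K) (L : ℝ → MM Γ a) (c : MM Γ a), Big μ →
  (∀ s t : ℝ, Ll |ds (L s) (L t) - ((|s - t| : ℝ) : a.K) * μ| μ) → ¬ IsOfFinOrder c →
  (∀ t, Ll (ds (L t) (c * L t)) μ) →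
  ∃ κ : ℚ →+ a.Z, ∀ (q : ℚ) (t : ℝ), Ll (ds (ipow c (κ q) * L t) (L (t + q))) μ

-- deps: ELEM PERC E_TRL
-- imports: Pool.Agent.P.MP_dba3d2_lc.E.Bas
def S_E_ORI : Prop := ∀ (Γ : HG) (a : Amb) (μ : a.K) (R : RT) (φ : R.W ≃* ball Γ μ)
  (L : ℝ → R.W), Big μ → (∀ g, R.ℓ g = rl μ (ln (φ g : MM Γ a))) → R.Line L →
  ∃ c ∈ ball Γ μ, Prim c ∧ (∀ t, Ll (ds (φ (L t) : MM Γ a) (c * (φ (L t) : MM Γ a))) μ) ∧
    (∃ κ : ℚ →+ a.Z, (∀ q, ipow c (κ q) ∈ ball Γ μ) ∧ ∀ (q : ℚ) (t : ℝ),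
      Ll (ds (ipow c (κ q) * (φ (L t) : MM Γ a)) (φ (L (t + q)) : MM Γ a)) μ) ∧
    ∀ (g : R.W) (ε β : ℝ), (ε = 1 ∨ ε = -1) → (∀ t, R.d (g * L t) (L (ε * t + β)) = 0) →
      InE c (φ g : MM Γ a) ∧ ((φ g : MM Γ a) ∈ Ep c ↔ ε = 1)

-- deps: EXTGC
-- imports: Pool.Agent.P.MP_dba3d2_lc.E.Bas
def S_E_LIM : Prop := ∀ (Γ : HG) (a b : Amb) (E : Ext a b) (S : Subgroup (MM Γ a))
  (D : Set (MM Γ a)) (J : Type) (U : Ultrafilter J) (A : J → Finset (MM Γ a)) (n : J → ℕ)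
  (T : J → Subgroup (MM Γ b)) (ι : (j : J) → MM Γ a → T j) (ρ : (j : J) → T j →* MM Γ a),
  GC S → (∀ s ∈ S, ∀ᶠ j in (U : Filter J), s ∈ A j) → Tendsto n (U : Filter J) atTop →
  (∀ j, Adm E (A j) D (n j) (T j) (ι j) (ρ j)) →
  ∃ (θ : S.map ((a.dg U).hom Γ) →* MM Γ (b.pow U)) (R : UT U T →* MM Γ (a.pow U)),
    IsUR U T ρ R ∧ Rf (E.pow U) (S.map ((a.dg U).hom Γ)) θ (UT U T) R ∧
    ∀ s ∈ S, ∀ s' : S.map ((a.dg U).hom Γ), (s' : MM Γ (a.pow U)) = (a.dg U).hom Γ s →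
      θ s' = b.mk' U fun j => (ι j s : MM Γ b)

-- deps: ELEM LINE PERC
-- imports: Pool.Agent.P.MP_dba3d2_lc.E.Bas
def S_E_G2U : Prop := ∀ (Γ : HG) (b : Amb) (J : Type) (U : Ultrafilter J)
  (T : J → Subgroup (MM Γ b)) (Λ : b.K), (∀ j, GC0 (T j)) → Big Λ →
  ∀ h ∈ UT U T, ∀ h' ∈ UT U T, Ls (ln h) ((b.dg U).kh Λ) → Ls (ln h') ((b.dg U).kh Λ) →
    ∀ g p q, Ov ((b.dg U).kh Λ) p q 1 h g (g * h') → ¬ Per ((b.dg U).kh Λ) p q → g ∈ UT U T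

-- deps: ELEM LINE PERC ROOT
-- imports: Pool.Agent.P.MP_dba3d2_lc.B.Axis2
def S_E_PJ1 : Prop := ∀ (Γ : HG) (a b : Amb) (E : Ext a b) (T : Subgroup (MM Γ b))
  (ρ : T →* MM Γ a) (n : ℕ) (l : a.K) (D : b.K) (h p q d : MM Γ b), GC0 T → Retr E T ρ n → Big l →
  h ∈ T → Ls (ln h) (E.kh l) → On (E.kh l) p 1 h → On (E.kh l) q 1 h → Ls (E.kh l) (ds p q) →
  ds p (d * p) ≤ D → ds q (d * q) ≤ D → 20 * D ≤ ds p q → Prim d → Ll (md d) (E.kh l) →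
  ∃ t : T, (t : MM Γ b) = d ∧ ¬ IsOfFinOrder (ρ t)

-- deps: ELEM LINE PERC
-- imports: Pool.Agent.P.MP_dba3d2_lc.B.Axis2
def S_E_PJ2 : Prop := ∀ (Γ : HG) (b : Amb) (T : Subgroup (MM Γ b)) (Λ D : b.K) (h p q d : MM Γ b),
  GC0 T → Big Λ → h ∈ T → Ls (ln h) Λ → On Λ p 1 h → On Λ q 1 h →
  ds p (d * p) ≤ D → ds q (d * q) ≤ D → 20 * D ≤ ds p q → Prim d → Ls Λ (md d) → d ∈ T

-- deps: E_PJ1 E_PJ2
-- imports: Pool.Agent.P.MP_dba3d2_lc.E.Bas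
def S_E_PU : Prop := ∀ (Γ : HG) (a b : Amb) (E : Ext a b) (J : Type) (U : Ultrafilter J)
  (T : J → Subgroup (MM Γ b)) (ρ : (j : J) → T j →* MM Γ a) (n : J → ℕ)
  (R : UT U T →* MM Γ (a.pow U)) (l : a.K),
  (∀ j, GC0 (T j)) → (∀ j, Retr E (T j) (ρ j) (n j)) → IsUR U T ρ R → Big l →
  let μ := (b.dg U).kh (E.kh l)
  ∀ h ∈ UT U T, ∀ p q d, Ls (ln h) μ → Ls μ (ds p q) → On μ p 1 h → On μ q 1 h → Prim d →
    Stab μ p q d → ∃ t : UT U T, (t : MM Γ (b.pow U)) = d ∧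
      (¬ IsOfFinOrder (R t) ∨ PowC (UT U T) R μ t)

-- deps:
-- imports: Pool.Agent.P.MP_dba3d2_lc.E.Bas
def S_E_COR : Prop := ∀ (Γ : HG) (a b : Amb) (E : Ext a b) (S : Subgroup (MM Γ a))
  (θ : S →* MM Γ b) (T : Subgroup (MM Γ b)) (ρ : T →* MM Γ a), Rf E S θ T ρ →
  ∀ s0 : S, Big (ln (s0 : MM Γ a)) →
  let l := ln (s0 : MM Γ a)
  ∀ s : S, Ls (ln (s : MM Γ a)) l →
    (∀ p, On (E.kh l) p 1 (θ s) → ∃ P, Cor E l s (θ s) P p) ∧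
    (∀ P p Q q, Cor E l s (θ s) P p → Cor E l s (θ s) Q q →
      Ll |ds p q - E.kh (ds P Q)| (E.kh l)) ∧
    ∀ s' : S, Ls (ln (s' : MM Γ a)) l → ∀ P p P' p', Cor E l s (θ s) P p → Cor E l s' (θ s') P' p' →
      (∀ t : T, Ll (ds p ((t : MM Γ b) * p')) (E.kh l) → Ll (ds P (ρ t * P')) l) ∧
      ∀ y : S, Ll (ds P ((y : MM Γ a) * P')) l → Ll (ds p (θ y * p')) (E.kh l)

-- deps: LINE E_COR
-- imports: Pool.Agent.P.MP_dba3d2_lc.E.Bas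
def S_E_PW : Prop := ∀ (Γ : HG) (a b : Amb) (E : Ext a b) (S : Subgroup (MM Γ a))
  (θ : S →* MM Γ b) (T : Subgroup (MM Γ b)) (ρ : T →* MM Γ a), Rf E S θ T ρ →
  ∀ (s : S) (t : T) (p q : MM Γ b), Big (ln (s : MM Γ a)) →
  let μ := E.kh (ln (s : MM Γ a))
  Ls μ (ds p q) → On μ p 1 (θ s) → On μ q 1 (θ s) → Prim (t : MM Γ b) → Stab μ p q t →
  PowC T ρ μ t → ¬ IsOfFinOrder (ρ t)

-- deps: ELEM LINE ROOT E_CHI E_SZ
-- imports: Pool.Agent.P.MP_dba3d2_lc.B.Axis2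
def S_E_PRJ : Prop := ∀ (Γ : HG) (a b : Amb) (E : Ext a b) (T : Subgroup (MM Γ b))
  (ρ : T →* MM Γ a) (n : ℕ) (γ : T), GC0 T → Retr E T ρ n → 1 ≤ n → Prim (ρ γ) →
  Big (md (ρ γ)) → Ls (md (γ : MM Γ b)) (E.kh (md (ρ γ))) → Prim (γ : MM Γ b)

-- deps: PERC E_COR
-- imports: Pool.Agent.P.MP_dba3d2_lc.E.Bas
def S_E_TG2 : Prop := ∀ (Γ : HG) (a b : Amb) (E : Ext a b) (S : Subgroup (MM Γ a))
  (θ : S →* MM Γ b) (T : Subgroup (MM Γ b)) (ρ : T →* MM Γ a), Rf2 E S θ T ρ →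
  (∀ μ, Big μ → ∀ h ∈ θ.range, ∀ h' ∈ θ.range, Ls (ln h) μ → Ls (ln h') μ → ∀ g p q,
    Ov μ p q 1 h g (g * h') → ¬ Per μ p q → g ∈ θ.range) ∧
  ∀ μ, Big μ → ∀ h ∈ θ.range, Ls (ln h) μ → ∀ p q, Ls μ (ds p q) → On μ p 1 h → On μ q 1 h →
    Per μ p q → ∃ c ∈ θ.range, Prim c ∧ Stab μ p q c

-- deps: E_GEO
-- imports: Pool.Agent.P.MP_dba3d2_lc.E.Bas
def S_E_TMD : Prop := ∀ (Γ : HG) (a b : Amb) (E : Ext a b) (S : Subgroup (MM Γ a))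
  (θ : S →* MM Γ b) (T : Subgroup (MM Γ b)) (ρ : T →* MM Γ a), Rf E S θ T ρ →
  (∀ s0 w : S, Big (ln (s0 : MM Γ a)) → Ls (ln (w : MM Γ a)) (ln (s0 : MM Γ a)) →
    Ll |md (θ w) - E.kh (md (w : MM Γ a))| (E.kh (ln (s0 : MM Γ a)))) ∧
  ∀ c : S, ¬ IsOfFinOrder (c : MM Γ a) → Sim (md (θ c)) (E.kh (md (c : MM Γ a)))

-- deps: ELEM ROOT E_CHI E_TMD
-- imports: Pool.Agent.P.MP_dba3d2_lc.E.Bas
def S_E_TEX : Prop := ∀ (Γ : HG) (a b : Amb) (E : Ext a b) (S : Subgroup (MM Γ a))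
  (θ : S →* MM Γ b) (T : Subgroup (MM Γ b)) (ρ : T →* MM Γ a), Rf2 E S θ T ρ →
  (∀ μ, Big μ → ∀ h ∈ θ.range, Ls (ln h) μ → ∀ c ∈ θ.range, Prim c → Ls (ln c) μ → Ll (md c) μ →
    ∃ f ∈ θ.range, f ∈ Ep c ∧ Ll (2 * ds f h - (ln c + ln (h⁻¹ * c * h))) μ) ∧
  ∀ c ∈ θ.range, Prim c → ∀ f ∈ θ.range, f ∈ Ep c → ∀ n : ℕ, 0 < n →
    ∃ f' ∈ θ.range, f' ∈ Ep c ∧ ∃ r : ℕ, IsOfFinOrder (f⁻¹ * (f' ^ n * c ^ r))

-- deps: E_GEO E_TMD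
-- imports: Pool.Agent.P.MP_dba3d2_lc.E.Bas
def S_E_TCEN : Prop := ∀ (Γ : HG) (a b : Amb) (E : Ext a b) (S : Subgroup (MM Γ a))
  (θ : S →* MM Γ b) (T : Subgroup (MM Γ b)) (ρ : T →* MM Γ a), Rf E S θ T ρ →
  std Γ b ≤ θ.range ∧ FinC θ.range ∧
  ∀ c ∈ θ.range, ∀ c' ∈ θ.range, ¬ IsOfFinOrder c → ¬ IsOfFinOrder c' →
    ∃ p ∈ θ.range, Ls (ln p) (ln c + ln c') ∧ ∀ q : MM Γ b,
      Ls (ln (p⁻¹ * c * p) + ln (p⁻¹ * c' * p)) (ln (q⁻¹ * c * q) + ln (q⁻¹ * c' * q))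

end Pool.Agent.P.MP_dba3d2_lc


end

section

/-! Toolbox for chapter E. -/

namespace Pool.Agent.P.MP_dba3d2_lc

open Filter

namespace ET

variable {Γ : HG} {a b : Amb}

section balls
variable {μ : a.K} {H W X B P : Subgroup (MM Γ a)}

theorem ll_of_not_mem_ball (hμ : Big μ) {h : MM Γ a} (hh : h ∉ ball Γ μ) : Ll μ (ln h) := by
  rw [mem_ball hμ.pos.le] at hh
  rcases ll_or_ls hμ.pos (ln h) with k | k
  · exact (hh k.ls).elim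
  · exact (not_ls_iff hμ.pos.le (k.pos hμ.pos)).1 hh

/-- a subgroup between `H ⊓ ball` and the ball is separated from `H` -/
theorem sep_of_le (hμ : Big μ) (h1 : H ⊓ ball Γ μ ≤ W) (h2 : W ≤ ball Γ μ) : Sep H W :=
  fun _ hh hn _ hw => Ll.ls_left ((mem_ball hμ.pos.le).1 (h2 hw))
    (ll_of_not_mem_ball hμ fun k => hn (h1 ⟨hh, k⟩))

theorem sep_ball (hμ : Big μ) (H : Subgroup (MM Γ a)) : Sep H (ball Γ μ) :=
  sep_of_le hμ inf_le_right le_rfl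

theorem inf_of_le (h1 : H ⊓ ball Γ μ ≤ W) (h2 : W ≤ ball Γ μ) : H ⊓ W = H ⊓ ball Γ μ :=
  le_antisymm (inf_le_inf_left _ h2) (le_inf inf_le_left h1)

theorem std_le_ball (hμ : Big μ) : std Γ a ≤ ball Γ μ :=
  (std_le_tiny hμ).trans (tiny_le_ball hμ.pos.le)

theorem cvx_ball (hμ : Big μ) : Cvx (ball Γ μ) := by
  refine ⟨std_le_ball hμ, fun h hh p hp => (mem_ball hμ.pos.le).2 ?_⟩
  have h1 := (mem_ball hμ.pos.le).1 hh
  refine Ls.mono_left ?_ (h1.add (hμ.ll_of_not_big hp).ls)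
  linarith [ds_nonneg p h]

theorem gc_ball (hC : S_CVX) (hμ : Big μ) : GC (ball Γ μ) := hC _ _ _ (cvx_ball hμ)

theorem gc0_trunc (hT : S_TRUNC) (hμ : Big μ) (hH : GC0 H) : GC0 (H ⊓ ball Γ μ) :=
  hT _ _ _ _ hH (std_le_ball hμ) (sep_ball hμ H)

theorem finC_of_finRed (h : FinRed P X W) (hX : X ≤ P) (hW : W ≤ P) (fX : FinC X) (fW : FinC W) :
    FinC P := by
  have key : ∀ Y : Subgroup (MM Γ a), Y ≤ P → FinC Y → ∀ K : Subgroup (MM Γ a), Finite K →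
      ∀ p ∈ P, (∀ k ∈ K, p⁻¹ * k * p ∈ Y) → ∃ p ∈ P, ∀ k ∈ K, p⁻¹ * k * p ∈ std Γ a := by
    intro Y hY fY K hK p hp hk
    have : Finite (K.map (MulAut.conj p⁻¹).toMonoidHom) :=
      Finite.of_equiv _ (K.equivMapOfInjective _ (MulAut.conj p⁻¹).injective).toEquiv
    obtain ⟨q, hq, h2⟩ := fY (K.map (MulAut.conj p⁻¹).toMonoidHom) (by
      rintro _ ⟨k, h1, rfl⟩
      simpa using hk k h1) this
    refine ⟨p * q, P.mul_mem hp (hY hq), fun k h1 => ?_⟩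
    have := h2 _ ⟨k, h1, rfl⟩
    simpa [mul_assoc] using this
  intro K hK hf
  obtain ⟨p, hp, k | k⟩ := h K hK hf
  · exact key X hX fX K hf p hp k
  · exact key W hW fW K hf p hp k

theorem gc_sup (hG : S_GRAFT) (hH : GC H) (hW : GC W) (hs : Sep H W) : GC (H ⊔ W) :=
  have o := (hG _ _ H W hH.toGC0 hW.toGC0 hs).1
  ⟨o.gc, finC_of_finRed o.fin le_sup_left le_sup_right hH.finc hW.finc⟩

/-- two reductions in a row -/
theorem red_two (o : TwoOut X W) (hB : B ≤ X) (hf : FinRed W B B) (hp : PerRed W B B) :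
    FinRed (X ⊔ W) X X ∧ PerRed (X ⊔ W) X X := by
  have lW : W ≤ X ⊔ W := le_sup_right
  constructor
  · intro K hK hfin
    obtain ⟨p, h0, k | k⟩ := o.fin K hK hfin
    · exact ⟨p, h0, Or.inl k⟩
    have : Finite (K.map (MulAut.conj p⁻¹).toMonoidHom) :=
      Finite.of_equiv _ (K.equivMapOfInjective _ (MulAut.conj p⁻¹).injective).toEquiv
    obtain ⟨q, hq, h2⟩ := hf (K.map (MulAut.conj p⁻¹).toMonoidHom) (by
      rintro _ ⟨x, h1, rfl⟩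
      simpa using k x h1) this
    refine ⟨p * q, (X ⊔ W).mul_mem h0 (lW hq), Or.inl fun x h1 => ?_⟩
    have := hB (h2.elim id id _ ⟨x, h1, rfl⟩)
    simpa [mul_assoc] using this
  · intro c hc pc f hfm hE hl
    obtain ⟨p, h0, k | k⟩ := o.per c hc pc f hfm hE hl
    · exact ⟨p, h0, Or.inl k⟩
    by_cases h1 : ∀ g ∈ W, g⁻¹ * (p⁻¹ * c * p) * g ∉ X
    · have e1 : p⁻¹ * f * p ∈ Ep (p⁻¹ * c * p) := mem_Ep_conj'.2 (by simpa [mul_assoc] using hE)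
      have f1 := o.e3 _ k (pc.conj' p) h1 (p⁻¹ * f * p)
        ((X ⊔ W).mul_mem ((X ⊔ W).mul_mem ((X ⊔ W).inv_mem h0) hfm) h0) e1
      obtain ⟨q, hq, h2⟩ := hp _ k (pc.conj' p) _ f1 e1 (by rwa [md_conj, md_conj])
      refine ⟨p * q, (X ⊔ W).mul_mem h0 (lW hq), Or.inl ?_⟩
      simpa [mul_assoc] using hB (h2.elim id id)
    · push Not at h1
      obtain ⟨g, hg, h2⟩ := h1
      refine ⟨p * g, (X ⊔ W).mul_mem h0 (lW hg), Or.inl ?_⟩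
      simpa [mul_assoc] using h2

end balls

/-- homomorphisms on `B ⊔ ⟨u⟩` are determined by the generators -/
theorem hom_ext_sup {M G ι : Type} [Group M] [Group G] {B : Subgroup M} {u : ι → M}
    {f g : ↥(B ⊔ Subgroup.closure (Set.range u)) →* G}
    (h1 : ∀ t : ↥(B ⊔ Subgroup.closure (Set.range u)), (t : M) ∈ B → f t = g t)
    (h2 : ∀ (t : ↥(B ⊔ Subgroup.closure (Set.range u))) i, (t : M) = u i → f t = g t) : f = g := by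
  ext ⟨t, ht⟩
  have e : B ⊔ Subgroup.closure (Set.range u) = Subgroup.closure ((B : Set M) ∪ Set.range u) := by
    rw [Subgroup.closure_union, Subgroup.closure_eq]
  have key : ∀ x (hx : x ∈ Subgroup.closure ((B : Set M) ∪ Set.range u)),
      f ⟨x, e ▸ hx⟩ = g ⟨x, e ▸ hx⟩ := by
    intro x hx
    induction hx using Subgroup.closure_induction with
    | mem x hx =>
      rcases hx with hx | ⟨i, rfl⟩
      · exact h1 _ hx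
      · exact h2 _ i rfl
    | one => exact (map_one f).trans (map_one g).symm
    | mul x y hx hy ix iy =>
      exact (map_mul f ⟨x, e ▸ hx⟩ ⟨y, e ▸ hy⟩).trans
        ((congrArg₂ (· * ·) ix iy).trans (map_mul g ⟨x, e ▸ hx⟩ ⟨y, e ▸ hy⟩).symm)
    | inv x hx ix =>
      exact (map_inv f ⟨x, e ▸ hx⟩).trans
        ((congrArg (·⁻¹) ix).trans (map_inv g ⟨x, e ▸ hx⟩).symm)
  exact key t (e ▸ ht)

theorem finOrder_coe {M : Type} [Group M] {T : Subgroup M} (t : T) :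
    IsOfFinOrder (t : M) ↔ IsOfFinOrder t :=
  (Subtype.val_injective).isOfFinOrder_iff (f := T.subtype)

section lg
variable {ν : b.K}

/-- a subgroup of a ball as a group with a real length -/
noncomputable def lgOn (ν : b.K) (hν : Big ν) (T : Subgroup (MM Γ b)) (hT : T ≤ ball Γ ν) : LG where
  W := T
  ℓ t := rl ν (ln (t : MM Γ b))
  l_one := (rtAt Γ ν hν).l_one
  l_inv g := (rtAt Γ ν hν).l_inv ⟨g, hT g.2⟩
  l_mul g h := (rtAt Γ ν hν).l_mul ⟨g, hT g.2⟩ ⟨h, hT h.2⟩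

theorem lg_l (hν : Big ν) {T : Subgroup (MM Γ b)} (hT : T ≤ ball Γ ν) (t : T) :
    (lgOn ν hν T hT).ℓ t = rl ν (ln (t : MM Γ b)) := rfl

theorem lg_l_zero (hν : Big ν) {T : Subgroup (MM Γ b)} (hT : T ≤ ball Γ ν) (t : T) :
    (lgOn ν hν T hT).ℓ t = 0 ↔ Ll (ln (t : MM Γ b)) ν :=
  rl_eq_zero_iff hν.pos (ln_nonneg _) (ls_ln hν ⟨t, hT t.2⟩)

theorem lg_d_zero (hν : Big ν) {T : Subgroup (MM Γ b)} (hT : T ≤ ball Γ ν) (s t : T) :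
    (lgOn ν hν T hT).d s t = 0 ↔ Ll (ds (s : MM Γ b) t) ν :=
  lg_l_zero hν hT (s⁻¹ * t)

/-- real values only depend on the class modulo negligible errors -/
theorem rl_le_of_ll (hν : 0 < ν) {x y : b.K} (hx : Ls |x| ν) (hy : Ls |y| ν) (h : Ll (x - y) ν) :
    rl ν x ≤ rl ν y := by
  have := (rl_nonpos_iff hν (ls_abs_sub hx hy)).2 h
  rw [rl_sub hν hx hy] at this
  linarith

theorem ll_of_rl_le (hν : 0 < ν) {x y : b.K} (hx : Ls |x| ν) (hy : Ls |y| ν)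
    (h : rl ν x ≤ rl ν y) : Ll (x - y) ν :=
  (rl_nonpos_iff hν (ls_abs_sub hx hy)).1 (by rw [rl_sub hν hx hy]; linarith)

theorem ls_abs_sum {ι : Type} (s : Finset ι) (f : ι → b.K) (hν : 0 ≤ ν)
    (h : ∀ i ∈ s, Ls |f i| ν) : Ls |∑ i ∈ s, f i| ν :=
  Ls.mono_left (Finset.abs_sum_le_sum_abs _ _) (ls_sum s _ hν h)

theorem rl_sum {ι : Type} (s : Finset ι) (f : ι → b.K) (hν : 0 < ν)
    (h : ∀ i ∈ s, Ls |f i| ν) : rl ν (∑ i ∈ s, f i) = ∑ i ∈ s, rl ν (f i) := by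
  classical
  induction s using Finset.induction_on with
  | empty => simp [rl_zero]
  | insert i s hi ih =>
    rw [Finset.sum_insert hi, Finset.sum_insert hi,
      rl_add hν (h i (by simp)) (ls_abs_sum s f hν.le fun j hj => h j (by simp [hj])),
      ih fun j hj => h j (by simp [hj])]

theorem ls_real (hν : 0 ≤ ν) (r : ℝ) : Ls |(r : b.K) * ν| ν := by
  obtain ⟨n, hn⟩ := exists_nat_ge |r|
  refine ⟨n, ?_⟩
  rw [abs_mul, abs_of_nonneg hν]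
  refine mul_le_mul_of_nonneg_right ?_ hν
  have h1 : ((|r| : ℝ) : b.K) ≤ ((n : ℝ) : b.K) := Germ.const_le hn
  have h2 : ((|r| : ℝ) : b.K) = |(r : b.K)| := (Germ.const_abs r)
  rw [← h2]; exact h1

/-- a quantity of scale at most `ν` is a real multiple of `ν` up to a negligible error -/
theorem ll_sub_rl (hν : 0 < ν) {x : b.K} (hx : Ls |x| ν) : Ll |x - (rl ν x : b.K) * ν| ν := by
  have h := ls_real hν.le (rl ν x)
  refine Ll.abs (ll_of_rl_le hν hx h (rl_real hν _).ge) ?_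
  rw [neg_sub]
  exact ll_of_rl_le hν h hx (rl_real hν _).le

/-- approximation of a new length by an old one -/
theorem exists_old (E : Ext a b) {l : a.K} (hl : 0 < l) {x : b.K} (hx : Ls |x| (E.kh l)) :
    ∃ y : a.K, Ll |x - E.kh y| (E.kh l) :=
  ⟨(rl (E.kh l) x : a.K) * l, by
    rw [map_mul, E.kh_real]; exact ll_sub_rl ((GT.kh_pos E).2 hl) hx⟩

end lg

section phi
variable {μ : a.K} {R : RT} {φ : R.W ≃* ball Γ μ}

theorem phi_d (hφ : ∀ g, R.ℓ g = rl μ (ln (φ g : MM Γ a))) (p q : R.W) :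
    R.d p q = rl μ (ds (φ p : MM Γ a) (φ q)) := by
  rw [LG.d, hφ, map_mul, map_inv]; rfl

theorem phi_l_zero (hμ : Big μ) (hφ : ∀ g, R.ℓ g = rl μ (ln (φ g : MM Γ a))) (g : R.W) :
    R.ℓ g = 0 ↔ Ll (ln (φ g : MM Γ a)) μ := by
  rw [hφ]; exact rl_eq_zero_iff hμ.pos (ln_nonneg _) (ls_ln hμ _)

theorem phi_l_pos (hμ : Big μ) (hφ : ∀ g, R.ℓ g = rl μ (ln (φ g : MM Γ a))) (g : R.W) :
    0 < R.ℓ g ↔ Ls μ (ln (φ g : MM Γ a)) := by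
  rw [hφ]; exact rl_pos_iff hμ.pos (ls_ln hμ _)

theorem phi_d_zero (hμ : Big μ) (hφ : ∀ g, R.ℓ g = rl μ (ln (φ g : MM Γ a))) (p q : R.W) :
    R.d p q = 0 ↔ Ll (ds (φ p : MM Γ a) (φ q)) μ := by
  rw [phi_d hφ]; exact rt_d_zero hμ _ _

theorem phi_d_pos (hμ : Big μ) (hφ : ∀ g, R.ℓ g = rl μ (ln (φ g : MM Γ a))) (p q : R.W) :
    0 < R.d p q ↔ Ls μ (ds (φ p : MM Γ a) (φ q)) := by
  rw [phi_d hφ]; exact rt_d_pos hμ _ _

theorem phi_d_ll (hμ : Big μ) (hφ : ∀ g, R.ℓ g = rl μ (ln (φ g : MM Γ a))) (p q : R.W) :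
    Ll |ds (φ p : MM Γ a) (φ q) - (R.d p q : a.K) * μ| μ := by
  rw [phi_d hφ]; exact ll_sub_rl hμ.pos (ls_ds hμ _ _)

theorem phi_on (hμ : Big μ) (hφ : ∀ g, R.ℓ g = rl μ (ln (φ g : MM Γ a))) (p x y : R.W) :
    R.On p x y ↔ On μ (φ p : MM Γ a) (φ x) (φ y) := by
  rw [LG.On, phi_d hφ, phi_d hφ, phi_d hφ]; exact rt_on hμ _ _ _

theorem phi_stab (hμ : Big μ) (hφ : ∀ g, R.ℓ g = rl μ (ln (φ g : MM Γ a))) (p q g : R.W) :
    R.Stab p q g ↔ Stab μ (φ p : MM Γ a) (φ q) (φ g) := by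
  rw [LG.Stab, phi_d_zero hμ hφ, phi_d_zero hμ hφ, map_mul, map_mul]; rfl

theorem phi_per (hμ : Big μ) (hφ : ∀ g, R.ℓ g = rl μ (ln (φ g : MM Γ a))) (p q : R.W) :
    R.Per p q ↔ Per μ (φ p : MM Γ a) (φ q) := by
  rw [← rt_per hμ]
  constructor
  · rintro ⟨g, h1, h2⟩
    exact ⟨φ g, fun k => h1 ((φ.injective.isOfFinOrder_iff (f := φ.toMonoidHom)).1 k),
      (rt_stab hμ _ _ _).2 ((phi_stab hμ hφ _ _ _).1 h2)⟩
  · rintro ⟨g, h1, h2⟩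
    obtain ⟨g, rfl⟩ := φ.surjective g
    exact ⟨g, fun k => h1 ((φ.injective.isOfFinOrder_iff (f := φ.toMonoidHom)).2 k),
      (phi_stab hμ hφ _ _ _).2 ((rt_stab hμ _ _ _).1 h2)⟩

end phi

section einv
variable (E : Ext a b) (H : Subgroup (MM Γ a))

/-- the inverse of the embedding on the image of `H` -/
noncomputable def Einv : H.map (E.hom Γ) →* MM Γ a :=
  H.subtype.comp (H.equivMapOfInjective _ E.hom_injective).symm.toMonoidHom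

theorem hom_Einv (x : H.map (E.hom Γ)) : E.hom Γ (Einv E H x) = x := by
  obtain ⟨y, rfl⟩ := (H.equivMapOfInjective _ E.hom_injective).surjective x
  simp [Einv]

theorem Einv_eq (x : H.map (E.hom Γ)) {h : MM Γ a} (e : (x : MM Γ b) = E.hom Γ h) :
    Einv E H x = h := E.hom_injective ((hom_Einv E H x).trans e)

theorem Einv_mem (x : H.map (E.hom Γ)) : Einv E H x ∈ H := Subtype.property _

theorem map_ball_le {μ : a.K} (h0 : 0 ≤ μ) : (ball Γ μ).map (E.hom Γ) ≤ ball Γ (E.kh μ) := by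
  rintro _ ⟨g, hg, rfl⟩
  rw [mem_ball ((GT.kh_nonneg E).2 h0), E.ln_hom, E.ls_iff]
  exact (mem_ball h0).1 hg

theorem hom_mem_ball {μ : a.K} (h0 : 0 ≤ μ) {g : MM Γ a} :
    E.hom Γ g ∈ ball Γ (E.kh μ) ↔ g ∈ ball Γ μ := by
  rw [mem_ball ((GT.kh_nonneg E).2 h0), E.ln_hom, E.ls_iff, mem_ball h0]

theorem hom_std {g : MM Γ a} : E.hom Γ g ∈ std Γ b ↔ g ∈ std Γ a := by
  rw [mem_std_iff, mem_std_iff, E.ln_hom, E.big_iff]

end einv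

/-- a common point of two segments is detected by the four cross distances -/
theorem four {μ : a.K} {P X Y P' X' Y' : MM Γ a} (hμ : Big μ) (h : On μ P X Y) (h' : On μ P' X' Y')
    (h1 : Ll (ds X X' - (ds X P + ds X' P')) μ) (h2 : Ll (ds X Y' - (ds X P + ds Y' P')) μ)
    (h3 : Ll (ds Y X' - (ds Y P + ds X' P')) μ) (h4 : Ll (ds Y Y' - (ds Y P + ds Y' P')) μ) :
    Ll (ds P P') μ := by
  have key : ∀ Z Z' : MM Γ a, On μ P Z P' → On μ P' Z' Z →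
      Ll (ds Z Z' - (ds Z P + ds Z' P')) μ → Ll (ds P P') μ := by
    intro Z Z' k1 k2 k3
    refine Ll.mono_left (le_of_eq ?_) ((k1.add k2).add k3)
    rw [ds_comm Z' Z, ds_comm P' Z]; ring
  rcases h.cases hμ P' with k | k
  · rcases h'.cases hμ X with k' | k'
    · exact key _ _ k k' h1
    · exact key _ _ k k' h2
  · rcases h'.cases hμ Y with k' | k'
    · exact key _ _ k k' h3
    · exact key _ _ k k' h4

section expo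
variable {c g : MM Γ a} (k : ℚ →+ a.Z)

theorem k_div (Γ : HG) (q : ℚ) : k q = (Γ.e : a.Z) * k (q / Γ.e) := by
  have h : (Γ.e : ℚ) ≠ 0 := Nat.cast_ne_zero.2 Γ.good.pos.ne'
  rw [← nsmul_eq_mul, ← map_nsmul, nsmul_eq_mul, mul_div_cancel₀ _ h]

theorem ipow_k (c : MM Γ a) (q : ℚ) : ipow c (k q) = ipow (c ^ Γ.e) (k (q / Γ.e)) := by
  rw [k_div k Γ q, ipow_mul, ipow_natCast]

/-- divisible exponents are central in the elementary closure -/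
theorem commute_k (h : g ∈ Ep c) (q : ℚ) : Commute g (ipow c (k q)) := by
  rw [ipow_k]; exact commute_ipow (mem_Ep.1 h) _

/-- divisible exponents are inverted by orientation reversing elements -/
theorem invert_k (h : InE c g) (hn : g ∉ Ep c) (q : ℚ) :
    g * ipow c (k q) * g⁻¹ = ipow c (k (-q)) := by
  rcases h with h | h
  · exact (hn (mem_Ep.2 (mul_inv_eq_iff_eq_mul.1 h))).elim
  · rw [ipow_k, ← ipow_conj, h, ipow_inv, map_neg, ipow_neg, ipow_neg, ← ipow_k]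

end expo

section ultra
variable {J : Type} (U : Ultrafilter J)

theorem mem_UT {T : J → Subgroup (MM Γ b)} {t : J → MM Γ b}
    (h : ∀ᶠ j in (U : Filter J), t j ∈ T j) : (b.mk' U t : MM Γ (b.pow U)) ∈ UT U T := by
  classical
  refine ⟨fun j => if t j ∈ T j then t j else 1, fun j => ?_, (mk'_eq_iff U _ _).2 ?_⟩
  · dsimp only
    split_ifs with k
    exacts [k, (T j).one_mem]
  · filter_upwards [h] with j hj
    rw [if_pos hj]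

theorem UT_rep {T : J → Subgroup (MM Γ b)} {x : MM Γ (b.pow U)} (h : x ∈ UT U T) :
    ∃ t : (j : J) → T j, x = b.mk' U fun j => (t j : MM Γ b) := by
  obtain ⟨t, ht, e⟩ := h
  exact ⟨fun j => ⟨t j, ht j⟩, e⟩

theorem mk'_mem_UT {T : J → Subgroup (MM Γ b)} (t : (j : J) → T j) :
    (b.mk' U fun j => (t j : MM Γ b) : MM Γ (b.pow U)) ∈ UT U T := ⟨_, fun j => (t j).2, rfl⟩

theorem exists_UR (T : J → Subgroup (MM Γ b)) (ρ : (j : J) → T j →* MM Γ a) :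
    ∃ R, IsUR U T ρ R := by
  choose t ht using fun x : UT U T => UT_rep U x.2
  have key : ∀ (s : (j : J) → T j) (x : UT U T),
      (x : MM Γ (b.pow U)) = b.mk' U (fun j => (s j : MM Γ b)) →
      (a.mk' U fun j => ρ j (t x j) : MM Γ (a.pow U)) = a.mk' U fun j => ρ j (s j) := by
    intro s x e
    have := (mk'_eq_iff U _ _).1 ((ht x).symm.trans e)
    refine (mk'_eq_iff U _ _).2 ?_
    filter_upwards [this] with j hj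
    rw [Subtype.ext hj]
  refine ⟨MonoidHom.mk' (fun x => a.mk' U fun j => ρ j (t x j)) fun x y => ?_, key⟩
  rw [key (fun j => t x j * t y j) (x * y) (by
    rw [Subgroup.coe_mul, ht x, ht y, ← mk'_mul]; rfl), ← mk'_mul]
  simp only [map_mul]

theorem pow_dg_kh (E : Ext a b) (x : a.K) :
    (E.pow U).kh ((a.dg U).kh x) = (b.dg U).kh (E.kh x) := by
  rw [← mk'_kh, ← mk'_kh]; exact E.pow_mk' U fun _ => x

theorem pow_dg_hom (E : Ext a b) (x : MM Γ a) :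
    (E.pow U).hom Γ ((a.dg U).hom Γ x) = (b.dg U).hom Γ (E.hom Γ x) := by
  rw [← mk'_hom, ← mk'_hom]; exact E.pow_mk' U fun _ => x

theorem pow_kh_mk' (E : Ext a b) (x : J → a.K) :
    (E.pow U).kh (a.mk' U x) = b.mk' U fun j => E.kh (x j) := E.pow_mk' U _

/-- negligible at every index implies negligible in the ultrapower -/
theorem ll_mk'_kh {x : J → a.K} {l : a.K} (h : ∀ᶠ j in (U : Filter J), Ll (x j) l) :
    Ll (a.mk' U x) ((a.dg U).kh l) := fun n => by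
  rw [← GT.nmul_mk', GT.mk'_le_kh]
  filter_upwards [h] with j hj using hj n

theorem ll_mk'_iff {x : J → a.K} {l : a.K} :
    Ll (a.mk' U x) ((a.dg U).kh l) ↔ ∀ n : ℕ, ∀ᶠ j in (U : Filter J), n * x j ≤ l := by
  refine forall_congr' fun n => ?_
  rw [← GT.nmul_mk', GT.mk'_le_kh]

theorem kh_ls_mk' {x : J → a.K} {l : a.K} :
    Ls ((a.dg U).kh l) (a.mk' U x) ↔ ∃ n : ℕ, ∀ᶠ j in (U : Filter J), l ≤ n * x j := by
  refine exists_congr fun n => ?_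
  rw [← GT.nmul_mk', GT.kh_le_mk']

theorem zK_mk' (k : J → a.Z) : zK (a := a.pow U) (a.mk' U k) = a.mk' U fun j => zK (k j) :=
  mk'_map U _ k

theorem abs_mk' (x : J → a.K) : |(a.mk' U x : (a.pow U).K)| = a.mk' U fun j => |x j| := by
  simp only [Germ.abs_def]
  exact mk'_map U _ x

end ultra

end ET

section rf
variable {Γ : HG} {a b : Amb} {E : Ext a b} {S : Subgroup (MM Γ a)} {θ : S →* MM Γ b}
  {T : Subgroup (MM Γ b)} {ρ : T →* MM Γ a}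

theorem Rf.rho (h : Rf E S θ T ρ) (s : S) : ρ ⟨θ s, h.mem s⟩ = s := h.sec s _ rfl

theorem Rf.inj (h : Rf E S θ T ρ) : Function.Injective θ := fun x y e =>
  Subtype.ext ((h.rho x).symm.trans (h.sec y _ e))

theorem Rf.std (h : Rf E S θ T ρ) (s : S) (hs : ¬ Big (ln (s : MM Γ a))) : θ s = E.hom Γ s := by
  obtain ⟨x, hx⟩ := mem_std_iff.2 hs
  rw [h.st s x hx.symm, ← hx, E.hom_cst]

theorem Rf.fin (h : Rf E S θ T ρ) (s : S) : IsOfFinOrder (θ s) ↔ IsOfFinOrder (s : MM Γ a) :=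
  h.inj.isOfFinOrder_iff.trans (ET.finOrder_coe s).symm

theorem Rf.memEp (h : Rf E S θ T ρ) (f c : S) :
    θ f ∈ Ep (θ c) ↔ (f : MM Γ a) ∈ Ep (c : MM Γ a) := by
  rw [mem_Ep, mem_Ep, Commute, Commute, SemiconjBy, SemiconjBy, ← map_pow, ← map_mul, ← map_mul,
    h.inj.eq_iff, Subtype.ext_iff]
  simp

theorem Rf.ls (h : Rf E S θ T ρ) (s : S) : Ls (ln (θ s)) (E.kh (ln (s : MM Γ a))) := by
  by_cases k : Big (ln (s : MM Γ a))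
  · exact Ls.mono_left (by linarith) ((h.ni s k).ls.add (Ls.refl' _))
  · rw [h.std s k, E.ln_hom]; exact Ls.refl' _

/-- lengths are preserved up to a negligible error -/
theorem Rf.len (h : Rf E S θ T ρ) (s0 w : S) (h0 : Big (ln (s0 : MM Γ a)))
    (hw : Ls (ln (w : MM Γ a)) (ln (s0 : MM Γ a))) :
    Ll |ln (θ w) - E.kh (ln (w : MM Γ a))| (E.kh (ln (s0 : MM Γ a))) := by
  have p0 := (E.big_iff.2 h0).pos.le
  have hw' := E.ls_iff.2 hw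
  refine Ll.abs ?_ ?_
  · by_cases k : Big (ln (w : MM Γ a))
    · exact (h.ni w k).ls_right hw' p0
    · rw [h.std w k, E.ln_hom, sub_self]; exact Ll.zero p0
  · have := h.lip s0 h0 ⟨θ w, h.mem w⟩ ((h.ls w).trans' hw')
    rwa [h.rho, ← neg_sub] at this

theorem Rf.sim (h : Rf E S θ T ρ) (s : S) : Sim (ln (θ s)) (E.kh (ln (s : MM Γ a))) := by
  refine ⟨h.ls s, ?_⟩
  by_cases k : Big (ln (s : MM Γ a))
  · have := h.len s s k (Ls.refl' _)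
    refine Ls.of_le_add (Ls.refl' _) this (E.big_iff.2 k).pos 1 ?_
    have := neg_abs_le (ln (θ s) - E.kh (ln (s : MM Γ a)))
    push_cast; linarith
  · rw [h.std s k, E.ln_hom]; exact Ls.refl' _

/-- the scale of a nondegenerate piece of a segment of the image is a scale of `S` -/
theorem Rf.scale (h : Rf E S θ T ρ) (s : S) {μ : b.K} {p q : MM Γ b} (hμ : Big μ)
    (hl : Ls (ln (θ s)) μ) (hp : On μ p 1 (θ s)) (hq : On μ q 1 (θ s)) (hn : Ls μ (ds p q)) :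
    Sim μ (E.kh (ln (s : MM Γ a))) ∧ Big (ln (s : MM Γ a)) := by
  have k := On.nondeg hμ hp hq hn
  rw [ds_one_left] at k
  have e : Sim μ (E.kh (ln (s : MM Γ a))) := Sim.trans' ⟨k, hl⟩ (h.sim s)
  exact ⟨e, E.big_iff.1 (hμ.of_ls e.1)⟩

end rf

end Pool.Agent.P.MP_dba3d2_lc


end
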