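import Pool.Agent.P.MP_dba3d2_lcM.Ab00
import Pool.Agent.P.MP_dba3d2_lcM.Ab05
import Pool.Agent.P.MP_dba3d2_lcM.Bb10
import Pool.Agent.P.MP_dba3d2_lcM.Cb18
import Pool.Agent.P.MP_dba3d2_lcM.Eb26

section

/-! Interface, chapter E: generic micro letters, reflection and one scale. -/

namespace Pool.Agent.P.MP_dba3d2_lc

open Filter

-- deps: EXTGC GMIC E_GL E_GLX E_LIP
-- imports: Pool.Agent.P.MP_dba3d2_lc.E.Bas
def S_MICL : Prop := ∀ (Γ : HG) (r : ℕ) (K : Fin r → Subgroup Γ.G), (∀ i, Legal Γ (K i)) →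
  ∃ t : Fin r → ℕ → Γ.G, (∀ i n, ∀ k ∈ K i, Commute (t i n) k) ∧
  ∀ (a : Amb) (H : Subgroup (MM Γ a)), GC0 H →
    let E := a.dg U0
    let u : Fin r → MM Γ (a.pow U0) := fun i => a.mk' U0 fun n => cst Γ a (t i n)
    let T := H.map (E.hom Γ) ⊔ Subgroup.closure (Set.range u)
    GC0 T ∧ (FinC H → FinC T) ∧ ExtL (H.map (E.hom Γ)) u ∧
    (∀ i, ∀ x ∈ H.map (E.hom Γ), (u i)⁻¹ * x * u i ∈ H.map (E.hom Γ) →
      x ∈ (K i).map (cst Γ (a.pow U0))) ∧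
    (∀ i (ν : a.K), Big ν → Ll (ln (u i)) (E.mp ν)) ∧
    (∀ c ∈ H.map (E.hom Γ), Prim c → ∀ f ∈ T, f ∈ Ep c → f ∈ H.map (E.hom Γ)) ∧
    ∀ ρ : T →* MM Γ a, (∀ (t : T) (h : MM Γ a), (t : MM Γ (a.pow U0)) = E.hom Γ h → ρ t = h) →
      (∀ (t : T) i, (t : MM Γ (a.pow U0)) = u i → ρ t = 1) → ∀ n, Retr E T ρ n

-- deps: EXTGC E_SZ E_GE E_EXC E_ME1 E_ME2 E_LIP
-- imports: Pool.Agent.P.MP_dba3d2_lc.E.Bas
def S_MICE : Prop := ∀ (Γ : HG) (a : Amb) (H : Subgroup (MM Γ a)) (c : MM Γ a), GC0 H → c ∈ H →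
  Prim c → ∃ κ : ℚ → ℕ → ℤ, ∃ k : ℚ →+ (a.pow U0).Z,
    (∀ q, k q = a.mk' U0 fun n => (κ q n : a.Z)) ∧
    let E := a.dg U0
    let T := H.map (E.hom Γ) ⊔ Subgroup.closure (Set.range fun q => ipow (E.hom Γ c) (k q))
    GC0 T ∧ (FinC H → FinC T) ∧ ExtE (H.map (E.hom Γ)) (E.hom Γ c) k ∧
    (∀ q, q ≠ 0 → ipow (E.hom Γ c) (k q) ∉ H.map (E.hom Γ)) ∧
    (∀ q (ν : a.K), Ll (md c) ν → Ll (md (ipow (E.hom Γ c) (k q))) (E.mp ν)) ∧
    (∀ g ∈ T, Big (ln g) → ∃ h ∈ H, Sim (ln g) (E.mp (ln h)) ∨ Ls (ln g) (zK (k 1) * E.mp (md c))) ∧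
    ∀ ρ : T →* MM Γ a, (∀ (t : T) (h : MM Γ a), (t : MM Γ (a.pow U0)) = E.hom Γ h → ρ t = h) →
      (∀ (t : T) q, (t : MM Γ (a.pow U0)) = ipow (E.hom Γ c) (k q) → ρ t = 1) → ∀ n, Retr E T ρ n

-- deps: E_LIM E_G2U E_PU E_PW E_PRJ E_TG2 E_TEX E_TCEN
-- imports: Pool.Agent.P.MP_dba3d2_lc.E.Bas
def S_REFL0 : Prop := ∀ (Γ : HG) (a b : Amb) (E : Ext a b) (S : Subgroup (MM Γ a))
  (D : Set (MM Γ a)) (J : Type) (U : Ultrafilter J) (A : J → Finset (MM Γ a)) (n : J → ℕ)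
  (T : J → Subgroup (MM Γ b)) (ι : (j : J) → MM Γ a → T j) (ρ : (j : J) → T j →* MM Γ a),
  GC S → (∀ s ∈ S, ∀ᶠ j in (U : Filter J), s ∈ A j) → Tendsto n (U : Filter J) atTop →
  (∀ j, Adm E (A j) D (n j) (T j) (ι j) (ρ j)) →
  ∃ θ : S →* MM Γ (b.pow U), Function.Injective θ ∧ GC θ.range ∧
    (∀ s : S, θ s = b.mk' U fun j => (ι j s : MM Γ b)) ∧
    ∀ s : S, Sim (ln (θ s)) ((b.dg U).mp (E.mp (ln (s : MM Γ a))))

-- deps: REFL0
-- imports: Pool.Agent.P.MP_dba3d2_lc.E.Bas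
def S_REFL2 : Prop := ∀ (Γ : HG) (a b : Amb) (E : Ext a b) (S : Subgroup (MM Γ a)) (m k : ℕ)
  (Q : (Fin m ⊕ Fin k → Γ.G) → Prop) (h : Fin m → MM Γ a) (x : Fin k → MM Γ a),
  GC S → Tr Q → (∀ i, h i ∈ S) → (∀ i, x i ∈ S) → St Q (Sum.elim h x) →
  ∃ (A : Finset (MM Γ a)) (n : ℕ), (∀ w ∈ A, w ∈ S) ∧ (∀ i, x i ∈ A) ∧
    ∀ (T : Subgroup (MM Γ b)) (ι : MM Γ a → T) (ρ : T →* MM Γ a),
      Adm E A (Set.range h) n T ι ρ →
      St Q (Sum.elim (fun i => E.hom Γ (h i)) fun i => (ι (x i) : MM Γ b))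

-- deps: CVX EXTGC REFL0 GRAFT GISO
-- imports: Pool.Agent.P.MP_dba3d2_lc.E.Bas
def S_REFL1 : Prop := ∀ (Γ : HG) (a b : Amb) (E : Ext a b) (H : Subgroup (MM Γ a)) (μ : a.K)
  (m k : ℕ) (Q : (Fin m ⊕ Fin k → Γ.G) → Prop) (h : Fin m → MM Γ a) (x : Fin k → MM Γ a),
  GC H → Big μ → Tr Q → (∀ i, h i ∈ H) → (∀ i, x i ∈ ball Γ μ) → St Q (Sum.elim h x) →
  ∃ (A : Finset (MM Γ a)) (n : ℕ), (∀ w ∈ A, w ∈ ball Γ μ) ∧ (∀ i, x i ∈ A) ∧
    ∀ (T : Subgroup (MM Γ b)) (ι : MM Γ a → T) (ρ : T →* MM Γ a),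
      Adm E A H n T ι ρ →
      St Q (Sum.elim (fun i => E.hom Γ (h i)) fun i => (ι (x i) : MM Γ b))

-- deps: EXTGC GRAFT GISO
-- imports: Pool.Agent.P.MP_dba3d2_lc.E.Bas
def S_MOVE : Prop := ∀ (Γ : HG) (a b : Amb) (E : Ext a b) (H : Subgroup (MM Γ a)) (μ : a.K)
  (m k : ℕ) (Q : (Fin m ⊕ Fin k → Γ.G) → Prop) (h : Fin m → MM Γ a) (x : Fin k → MM Γ a)
  (T : Subgroup (MM Γ b)) (σ : T →* T) (y : Fin k → T),
  GC H → Big μ → Tr Q → (∀ i, h i ∈ H) → NMin Q h μ x → GC T → T ≤ ball Γ (E.mp μ) →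
  (H ⊓ ball Γ μ).map (E.hom Γ) ≤ T → Function.Bijective σ →
  (∀ t : T, (t : MM Γ b) ∈ H.map (E.hom Γ) → σ t = t) →
  St Q (Sum.elim (fun i => E.hom Γ (h i)) fun i => (y i : MM Γ b)) →
  Ll (E.mp (tl x) - tl fun i => (σ (y i) : MM Γ b)) (E.mp μ)

-- deps: FRAME CVX MICL E_END
-- imports: Pool.Agent.P.MP_dba3d2_lc.E.Bas
def S_NO1 : Prop := ∀ (Γ : HG) (a : Amb) (H : Subgroup (MM Γ a)) (μ : a.K) (m k : ℕ)
  (Q : (Fin m ⊕ Fin k → Γ.G) → Prop) (h : Fin m → MM Γ a) (x : Fin k → ball Γ μ),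
  GC H → Big μ → Tr Q → (∀ i, h i ∈ H) → NMin Q h μ (fun i => (x i : MM Γ a)) →
  ∃ A0 : Finset (MM Γ a), (∀ w ∈ A0, w ∈ ball Γ μ) ∧
    ∀ (R : RT) (φ : R.W ≃* ball Γ μ), (∀ g, R.ℓ g = rl μ (ln (φ g : MM Γ a))) →
    ∀ A : Finset R.W, (∀ w : R.W, (φ w : MM Γ a) ∈ A0 → w ∈ A) →
      ¬ Out1 R.toLG ((H.subgroupOf (ball Γ μ)).comap φ.toMonoidHom) A fun i => φ.symm (x i)

-- deps: ELEM LINE CVX MICE E_END E_ORI
-- imports: Pool.Agent.P.MP_dba3d2_lc.E.Bas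
def S_NO2 : Prop := ∀ (Γ : HG) (a : Amb) (H : Subgroup (MM Γ a)) (μ : a.K) (m k : ℕ)
  (Q : (Fin m ⊕ Fin k → Γ.G) → Prop) (h : Fin m → MM Γ a) (x : Fin k → ball Γ μ),
  GC H → Big μ → Tr Q → (∀ i, h i ∈ H) → NMin Q h μ (fun i => (x i : MM Γ a)) →
  ∃ A0 : Finset (MM Γ a), (∀ w ∈ A0, w ∈ ball Γ μ) ∧
    ∀ (R : RT) (φ : R.W ≃* ball Γ μ), (∀ g, R.ℓ g = rl μ (ln (φ g : MM Γ a))) →
    ∀ A : Finset R.W, (∀ w : R.W, (φ w : MM Γ a) ∈ A0 → w ∈ A) →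
      ¬ Out2 R.toLG ((H.subgroupOf (ball Γ μ)).comap φ.toMonoidHom) A fun i => φ.symm (x i)

-- deps: FRAME GMAC CVX EXTGC LET E_END E_LIP
-- imports: Pool.Agent.P.MP_dba3d2_lc.E.Bas
def S_NO3 : Prop := ∀ (Γ : HG) (a : Amb) (H : Subgroup (MM Γ a)) (μ : a.K) (m k : ℕ)
  (Q : (Fin m ⊕ Fin k → Γ.G) → Prop) (h : Fin m → MM Γ a) (x : Fin k → ball Γ μ),
  GC H → Big μ → Tr Q → (∀ i, h i ∈ H) → NMin Q h μ (fun i => (x i : MM Γ a)) →
  ∃ A0 : Finset (MM Γ a), (∀ w ∈ A0, w ∈ ball Γ μ) ∧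
    ∀ (R : RT) (φ : R.W ≃* ball Γ μ), (∀ g, R.ℓ g = rl μ (ln (φ g : MM Γ a))) →
    ∀ A : Finset R.W, (∀ w : R.W, (φ w : MM Γ a) ∈ A0 → w ∈ A) →
      ¬ Out3 R.toLG ((H.subgroupOf (ball Γ μ)).comap φ.toMonoidHom) A fun i => φ.symm (x i)

-- deps: RTA MACH NO1 NO2 NO3
-- imports: Pool.Agent.P.MP_dba3d2_lc.E.Bas
def S_S1 : Prop := ∀ (Γ : HG) (a : Amb) (H : Subgroup (MM Γ a)) (μ : a.K) (m k : ℕ)
  (Q : (Fin m ⊕ Fin k → Γ.G) → Prop) (h : Fin m → MM Γ a) (x : Fin k → MM Γ a),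
  GC H → Big μ → Tr Q → (∀ i, h i ∈ H) → (∀ i, x i ∈ ball Γ μ) → NMin Q h μ x →
  ∀ i, Cov μ H (x i)

end Pool.Agent.P.MP_dba3d2_lc


end

section

/-! Step E_SZ of the stability project. -/

namespace Pool.Agent.P.MP_dba3d2_lc

open Filter

namespace E_szA

variable {Γ : HG} {a : Amb}

theorem len_pow (g : Γ.G) (n : ℕ) : Γ.len (g ^ n) ≤ n * Γ.len g := by
  induction n with
  | zero => rw [pow_zero, (Γ.len_eq_zero 1).2 rfl]; exact Nat.zero_le _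
  | succ n ih =>
    have := Γ.len_mul (g ^ n) g
    rw [← pow_succ] at this
    rw [Nat.succ_mul]
    omega

theorem len_zpow (g : Γ.G) (n : ℤ) : (Γ.len (g ^ n) : ℝ) ≤ |(n : ℝ)| * Γ.len g := by
  obtain ⟨m, rfl | rfl⟩ := n.eq_nat_or_neg
  · rw [zpow_natCast, Int.cast_natCast, Nat.abs_cast]
    exact_mod_cast len_pow g m
  · rw [zpow_neg, zpow_natCast, Γ.len_inv, Int.cast_neg, abs_neg, Int.cast_natCast, Nat.abs_cast]
    exact_mod_cast len_pow g m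

theorem ln_ipow (g : MM Γ a) (k : a.Z) : ln (ipow g k) ≤ |zK k| * ln g := by
  induction g using Germ.inductionOn with | h f => ?_
  induction k using Germ.inductionOn with | h l => ?_
  rw [Germ.abs_def]
  exact Bas1.gle fun i => len_zpow (f i) (l i)

theorem disp_ipow_le (c p : MM Γ a) (k : a.Z) : ds p (ipow c k * p) ≤ |zK k| * ds p (c * p) := by
  have := ipow_conj p⁻¹ c k
  rw [inv_inv] at this
  rw [ds_conj, ds_conj, ← this]
  exact ln_ipow _ k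

end E_szA

open E_szA

theorem p_E_SZ (hELEM : S_ELEM) (hLINE : S_LINE) :
    S_E_SZ := by
  intro Γ a c f k hc hf h
  refine ⟨?_, fun p => ⟨disp_ipow_le c p k, ?_⟩⟩
  · obtain ⟨q, hq⟩ := exists_md_ds c
    obtain ⟨L, hL1, hL2⟩ := (hLINE Γ a c q hc (Ls.of_le hq.le)).1
    have e := pow_sq_eq hELEM hc hf (ipow_mem_Ep c k) h
    have h1 := (hL2 (k * ((Γ.e * Γ.e : ℕ) : a.Z))).2.2
    rw [← ipow_pow, ← e, zK_mul, zK_natCast, abs_mul, Nat.abs_cast] at h1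
    have h2 := h1.trans (md_pow_le f _)
    have h0 : (0 : a.K) < ((Γ.e * Γ.e : ℕ) : a.K) := Nat.cast_pos.2 (Nat.pos_of_ne_zero (ee_ne_zero Γ))
    have h3 : |zK k| * L ≤ md f := le_of_mul_le_mul_left (by linarith only [h2]) h0
    obtain ⟨n, hn⟩ := hL1.2
    refine Ls.trans' ⟨n, ?_⟩ (Ls.of_le h3)
    have := mul_le_mul_of_nonneg_left hn (abs_nonneg (zK k))
    linarith only [this]
  · have e : f = ipow c k * (f⁻¹ * ipow c k)⁻¹ := by group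
    have h1 := disp_mul (ipow c k) (f⁻¹ * ipow c k)⁻¹ p
    rw [← e, disp_inv] at h1
    have h2 := tors_disp hLINE hc (mul_mem (inv_mem hf) (ipow_mem_Ep c k)) h p
    have h3 := disp_ipow_le c p k
    have h4 := ds_nonneg p (c * p)
    have h5 := mul_nonneg (abs_nonneg (zK k)) h4
    exact Ls.mono_left h1 ((Ls.of_le (by linarith only [h3, h4])).add
      (h2.mono_right (by linarith only [h5])))

end Pool.Agent.P.MP_dba3d2_lc


end

section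

/-! Step E_GE of the stability project. -/

namespace Pool.Agent.P.MP_dba3d2_lc

open Filter ET

namespace E_geA

variable {Γ : HG} {a : Amb}

theorem ll_prod {y : a.K} (hy : 0 ≤ y) (l : List (MM Γ a)) (h : ∀ x ∈ l, Ll (ln x) y) :
    Ll (ln l.prod) y := by
  induction l with
  | nil => exact Ll.of_nonpos ln_one.le hy
  | cons x l ih =>
    rw [List.prod_cons]
    exact Ll.mono_left (ln_mul_le _ _) ((h x (by simp)).add (ih fun z hz => h z (by simp [hz])))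

/-- an almost geodesic product has a letter of the same scale -/
theorem letter {g : MM Γ a} (hg : Big (ln g)) (l : List (MM Γ a)) (e : l.prod = g)
    (h : Ll ((l.map ln).sum - ln g) (ln g)) : ∃ x ∈ l, Sim (ln g) (ln x) := by
  have h1 : ∃ x ∈ l, Ls (ln g) (ln x) := by
    by_contra hh
    have := ll_prod hg.pos.le l fun x hx =>
      (not_ls_iff (ln_nonneg x) hg.pos).1 fun k => hh ⟨x, hx, k⟩
    rw [e] at this
    exact this.not_ls hg.pos (Ls.refl' _)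
  obtain ⟨x, hx, k⟩ := h1
  refine ⟨x, hx, k, Ls.mono_left ?_ (h.ls.add (Ls.refl' _))⟩
  rw [sub_add_cancel]
  refine List.single_le_sum (fun z hz => ?_) _ (List.mem_map_of_mem hx)
  obtain ⟨w, -, rfl⟩ := List.mem_map.1 hz
  exact ln_nonneg w

theorem comm (hE : S_ELEM) {X : Subgroup (MM Γ a)} {G : Type} [Group G] (θ : X →* G) {d : MM Γ a}
    (hd : ¬ IsOfFinOrder d) (x y : X) (hx : (x : MM Γ a) ∈ Ep d) (hy : (y : MM Γ a) ∈ Ep d) :
    Commute (θ x ^ Γ.e) (θ y) := by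
  rw [← map_pow]
  refine Commute.map ?_ θ
  exact Subtype.ext ((hE Γ a d hd).2.2.2.2.2.2.2.1 x hx y hy).eq

end E_geA

open E_geA in
theorem p_E_GE (hELEM : S_ELEM) (hROOT : S_ROOT) (hTRUNC : S_TRUNC) (hEXP : S_EXP) (hGRAFT : S_GRAFT) :
    S_E_GE := by
  intro Γ a μ X c k hμ hX hc pc hm h1 h2 C
  have hB := gc0_trunc hTRUNC hμ hX
  obtain ⟨T, ext, nf, e4, e5⟩ := hEXP Γ a μ _ c k hμ hB inf_le_right hc pc hm h1 h2
  obtain ⟨o, nf2⟩ := hGRAFT Γ a X _ hX T.gc (sep_of_le hμ le_sup_left T.bd)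
  have eI : X ⊓ (X ⊓ ball Γ μ ⊔ C) = X ⊓ ball Γ μ := inf_of_le le_sup_left T.bd
  have eS : X ⊔ (X ⊓ ball Γ μ ⊔ C) = X ⊔ C := by rw [← sup_assoc, sup_inf_self]
  have red := red_two o inf_le_left T.fin T.per
  refine ⟨eS ▸ o.gc, eS ▸ red.1, eS ▸ red.2, ?_, eS ▸ nf2, nf, fun g hg hb => ?_⟩
  · intro G _ θ0 ν c1 c2
    obtain ⟨θ1, t1, t2⟩ := ext G (θ0.comp (Subgroup.inclusion inf_le_left)) ν
      (fun x q hx => c1 _ q hx) fun x q h h' => c2 _ q h h'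
    have agree : ∀ (x : X) (y : ↥(X ⊓ ball Γ μ ⊔ C)), (x : MM Γ a) = y → θ0 x = θ1 y := by
      intro x y e
      have hx : (x : MM Γ a) ∈ X ⊓ ball Γ μ := eI.le ⟨x.2, e ▸ y.2⟩
      exact (t1 ⟨x, hx⟩).symm.trans (congrArg θ1 (Subtype.ext e))
    obtain ⟨θ, s1, s2⟩ := o.ext G θ0 θ1 agree fun d0 hd0 n0 x y hx hy => by
      obtain ⟨d, hd, pd, e⟩ := (hROOT Γ a _ hB).1 d0 (eI.le hd0) n0
      rw [← e] at hx hy
      by_cases hz : ∃ z ∈ X ⊓ ball Γ μ, Cj z c d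
      · obtain ⟨z, hz, cj⟩ := hz
        have cj' : Ep (z * c * z⁻¹) = Ep d := cj
        rw [← cj', mem_Ep_conj] at hx hy
        let zX : X := ⟨z, hz.1⟩
        let zW : ↥(X ⊓ ball Γ μ ⊔ C) := ⟨z, (le_sup_left : _ ≤ X ⊓ ball Γ μ ⊔ C) hz⟩
        obtain ⟨f0, hf0, q, ef⟩ := e5 _ (zW⁻¹ * y * zW).2 hy
        have ef' : z⁻¹ * y * z = f0 * ipow c (k q) := ef
        have f1 : f0 ∈ Ep c := by
          rw [← mul_inv_eq_iff_eq_mul] at ef'
          exact ef' ▸ (Ep c).mul_mem hy ((Ep c).inv_mem (ipow_mem_Ep c _))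
        have a1 : θ1 (zW⁻¹ * y * zW) = θ0 ⟨f0, hf0.1⟩ * ν (.ofAdd q) := by
          rw [agree ⟨f0, hf0.1⟩ ⟨f0, (le_sup_left : _ ≤ X ⊓ ball Γ μ ⊔ C) hf0⟩ rfl, ← t2 q,
            ← map_mul]
          exact congrArg θ1 (Subtype.ext ef')
        have a2 : Commute (θ0 (zX⁻¹ * x * zX) ^ Γ.e) (θ1 (zW⁻¹ * y * zW)) := by
          rw [a1]
          exact (comm hELEM θ0 pc.1 _ ⟨f0, hf0.1⟩ hx f1).mul_right ((c1 _ q hx).pow_left _)
        have a3 := a2.conj (θ0 zX)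
        rw [← conj_pow, map_mul, map_mul, map_mul, map_mul, map_inv, map_inv,
          ← agree zX zW rfl] at a3
        simpa [mul_assoc] using a3
      · have hy' := e4 d hd pd (fun z h h' => hz ⟨z, h, h'⟩) _ y.2 hy
        rw [← agree ⟨y, hy'.1⟩ y rfl]
        exact comm hELEM θ0 pd.1 _ _ hx hy
    refine ⟨θ.comp (Subgroup.inclusion eS.ge), fun x => s1 x, fun q => ?_⟩
    exact (s2 ⟨ipow c (k q), (le_sup_right : C ≤ _) (Subgroup.subset_closure ⟨q, rfl⟩)⟩).trans (t2 q)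
  · obtain ⟨l, l1, l2, l3, -⟩ := nf2 g (eS.ge hg)
    obtain ⟨x, hx, s⟩ := letter hb l l2 (l3 hb)
    rcases l1 x hx with h | h
    · exact ⟨x, h, Or.inl s⟩
    · exact ⟨1, X.one_mem, Or.inr (s.1.trans' ((mem_ball hμ.pos.le).1 (T.bd h)))⟩

end Pool.Agent.P.MP_dba3d2_lc


end

section

/-! Step E_CHI of the stability project. -/

namespace Pool.Agent.P.MP_dba3d2_lc

open Filter

namespace E_chi

variable {Γ : HG} {a : Amb} {c f g h f' g' : MM Γ a}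

theorem symm (k : IsOfFinOrder (f⁻¹ * g)) : IsOfFinOrder (g⁻¹ * f) := by
  have := isOfFinOrder_inv_iff.2 k
  rwa [mul_inv_rev, inv_inv] at this

theorem trans (hE : S_ELEM) (hc : ¬ IsOfFinOrder c) (hf : f ∈ Ep c) (hg : g ∈ Ep c) (hh : h ∈ Ep c)
    (k1 : IsOfFinOrder (f⁻¹ * g)) (k2 : IsOfFinOrder (g⁻¹ * h)) : IsOfFinOrder (f⁻¹ * h) := by
  have := tors_mul hE hc (mul_mem (inv_mem hf) hg) (mul_mem (inv_mem hg) hh) k1 k2
  have e : f⁻¹ * g * (g⁻¹ * h) = f⁻¹ * h := by group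
  rwa [e] at this

theorem mul (hE : S_ELEM) (hc : ¬ IsOfFinOrder c) (hf : f ∈ Ep c) (hg : g ∈ Ep c)
    (hf' : f' ∈ Ep c) (hg' : g' ∈ Ep c) (k1 : IsOfFinOrder (f⁻¹ * f'))
    (k2 : IsOfFinOrder (g⁻¹ * g')) : IsOfFinOrder ((f * g)⁻¹ * (f' * g')) := by
  have := tors_mul hE hc (mul_mem (mul_mem (inv_mem hg) (mul_mem (inv_mem hf) hf')) hg)
    (mul_mem (inv_mem hg) hg') ((finOrder_conj' g _).2 k1) k2
  have e : g⁻¹ * (f⁻¹ * f') * g * (g⁻¹ * g') = (f * g)⁻¹ * (f' * g') := by group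
  rwa [e] at this

theorem uniq (hE : S_ELEM) (hc : ¬ IsOfFinOrder c) (hf : f ∈ Ep c) {k l : a.Z}
    (k1 : IsOfFinOrder (f⁻¹ * ipow c k)) (k2 : IsOfFinOrder (f⁻¹ * ipow c l)) : k = l := by
  have := trans hE hc (ipow_mem_Ep c k) hf (ipow_mem_Ep c l) (symm k1) k2
  rw [← ipow_neg, ← ipow_add] at this
  by_contra hne
  refine ipow_inf hE hc (fun e => hne ?_) this
  exact neg_add_eq_zero.1 e

end E_chi

open E_chi

theorem p_E_CHI (hELEM : S_ELEM) :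
    S_E_CHI := by
  intro Γ a c hc
  classical
  choose! χ hχ using hc.2
  have key : ∀ f ∈ Ep c, ∀ k, χ f = k ↔ IsOfFinOrder (f⁻¹ * ipow c k) := fun f hf k =>
    ⟨fun e => e ▸ hχ f hf, fun e => uniq hELEM hc.1 hf (hχ f hf) e⟩
  have add : ∀ f ∈ Ep c, ∀ g ∈ Ep c, χ (f * g) = χ f + χ g := fun f hf g hg => by
    rw [key _ (mul_mem hf hg), ipow_add]
    exact mul hELEM hc.1 hf hg (ipow_mem_Ep _ _) (ipow_mem_Ep _ _) (hχ f hf) (hχ g hg)
  have ker : ∀ f ∈ Ep c, χ f = 0 ↔ IsOfFinOrder f := fun f hf => by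
    rw [key f hf, ipow_zero, mul_one, isOfFinOrder_inv_iff]
  have one : χ 1 = 0 := (ker 1 (one_mem _)).2 IsOfFinOrder.one
  have inv : ∀ f ∈ Ep c, χ f⁻¹ = - χ f := fun f hf => by
    have := add f hf f⁻¹ (inv_mem hf)
    rw [mul_inv_cancel, one] at this
    exact (neg_eq_of_add_eq_zero_right this.symm).symm
  have pw : ∀ f ∈ Ep c, ∀ n : ℕ, χ (f ^ n) = (n : a.Z) * χ f := fun f hf n => by
    induction n with
    | zero => rw [pow_zero, one, Nat.cast_zero, zero_mul]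
    | succ n ih => rw [pow_succ, add _ (pow_mem hf n) f hf, ih, Nat.cast_succ, add_mul, one_mul]
  have zpw : ∀ f ∈ Ep c, ∀ n : ℤ, χ (f ^ n) = (n : a.Z) * χ f := fun f hf n => by
    obtain ⟨m, rfl | rfl⟩ := n.eq_nat_or_neg
    · rw [zpow_natCast, pw f hf, Int.cast_natCast]
    · rw [zpow_neg, zpow_natCast, inv _ (pow_mem hf m), pw f hf, Int.cast_neg, Int.cast_natCast,
        neg_mul]
  have ip : ∀ k, χ (ipow c k) = k := fun k => by
    rw [key _ (ipow_mem_Ep c k), inv_mul_cancel]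
    exact IsOfFinOrder.one
  have c1 : χ c = 1 := by
    have := ip 1
    rwa [ipow_one] at this
  have ipf : ∀ f ∈ Ep c, ∀ k, ipow f k ∈ Ep c ∧ χ (ipow f k) = χ f * k := fun f hf k => by
    have m : ipow f k ∈ Ep c := mem_Ep.2 (commute_ipow (mem_Ep.1 hf).symm k).symm
    refine ⟨m, ?_⟩
    have e1 := pow_sq_eq hELEM hc.1 hf (ipow_mem_Ep c (χ f)) (hχ f hf)
    have e2 := pw _ m (Γ.e * Γ.e)
    rw [← ipow_pow', e1, ipow_pow, ← ipow_mul, ip] at e2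
    by_contra hne
    refine mul_ne_zero_Z (natCast_ne_zero_Z (a := a) (ee_ne_zero Γ)) (sub_ne_zero.2 hne) ?_
    rw [mul_sub, ← e2]
    ring
  refine ⟨χ, key, add, inv, ker, pw, zpw, ipf, ip, c1, fun f hf => ⟨fun hp => ?_, fun hp => ?_⟩⟩
  · obtain ⟨k, hk⟩ := hp.2 c (by rw [Ep_eq hELEM hc.1 hf hp.1]; exact self_mem_Ep c)
    have e := (key _ (ipf f hf k).1 1).2 (by rw [ipow_one]; exact symm hk)
    rw [(ipf f hf k).2] at e
    exact unit_Z e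
  · have sq : χ f * χ f = 1 := by rcases hp with e | e <;> rw [e] <;> ring
    have nt : ¬ IsOfFinOrder f := fun t => by
      rw [(ker f hf).2 t, mul_zero] at sq
      exact natCast_ne_zero_Z (a := a) one_ne_zero (by rw [Nat.cast_one, sq])
    refine ⟨nt, fun g hg => ⟨χ f * χ g, ?_⟩⟩
    rw [Ep_eq hELEM hc.1 hf nt] at hg
    have m := ipf f hf (χ f * χ g)
    have e : χ (ipow f (χ f * χ g)) = χ g := by rw [m.2, ← mul_assoc, sq, one_mul]
    exact trans hELEM hc.1 hg (ipow_mem_Ep c (χ g)) m.1 (hχ g hg) (symm ((key _ m.1 _).1 e))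

end Pool.Agent.P.MP_dba3d2_lc


end

section

/-! Step E_TRL of the stability project. -/

namespace Pool.Agent.P.MP_dba3d2_lc

open Filter

namespace Etrl

variable {a : Amb} {μ : a.K}

theorem real_zero (hμ : 0 < μ) {r : ℝ} (h : Ll |cR a r * μ| μ) : r = 0 := by
  have k : ∀ r : ℝ, Ll |cR a r * μ| μ → r ≤ 0 := fun r h => by
    have := (rl_nonpos_iff hμ h.ls).2 (Ll.mono_left (le_abs_self _) h)
    rwa [cR_apply, rl_real hμ] at this
  refine (k r h).antisymm (neg_nonpos.1 (k (-r) ?_))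
  rwa [map_neg, neg_mul, abs_neg]

theorem cR_abs (r : ℝ) : cR a |r| = |cR a r| := Germ.const_abs r

/-- an isometry of the line at scale `μ` is affine -/
theorem affine (hμ : 0 < μ) (x : ℝ → a.K) (h : ∀ s t, Ll |(|x s - x t| - cR a |s - t| * μ)| μ) :
    ∃ ε : ℝ, ∀ t, Ll |x t - x 0 - cR a (ε * t) * μ| μ := by
  have b : ∀ t, Ls |x t - x 0| μ := fun t => by
    refine Ls.mono_left ?_ ((h t 0).ls.add (ET.ls_real hμ.le |t - 0|))
    have k1 := le_abs_self (|x t - x 0| - cR a |t - 0| * μ)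
    have k2 := le_abs_self (cR a |t - 0| * μ)
    rw [← cR_apply]
    linarith
  have c : ∀ t, Ll |x t - x 0 - cR a (rl μ (x t - x 0)) * μ| μ := fun t => ET.ll_sub_rl hμ (b t)
  set f : ℝ → ℝ := fun t => rl μ (x t - x 0) with hf
  have f0 : f 0 = 0 := by simp only [hf, sub_self, rl_zero]
  have iso : ∀ s t, |f s - f t| = |s - t| := fun s t => by
    refine sub_eq_zero.1 (real_zero hμ (Ll.mono_left ?_ (((c s).add (c t)).add (h s t))))
    have e : cR a (|f s - f t| - |s - t|) * μ =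
        (|cR a (f s) * μ - cR a (f t) * μ| - |x s - x t|) + (|x s - x t| - cR a |s - t| * μ) := by
      rw [map_sub, cR_abs (f s - f t), map_sub, ← sub_mul, abs_mul, abs_of_pos hμ]
      ring
    rw [e]
    refine (abs_add_le _ _).trans (add_le_add ((abs_abs_sub_abs_le _ _).trans ?_) le_rfl)
    rw [show cR a (f s) * μ - cR a (f t) * μ - (x s - x t) =
      (x t - x 0 - cR a (f t) * μ) - (x s - x 0 - cR a (f s) * μ) by ring, add_comm]
    exact abs_sub _ _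
  refine ⟨f 1, fun t => ?_⟩
  have e : f t = f 1 * t := by
    have k1 := sq_eq_sq_iff_abs_eq_abs _ _ |>.2 (iso 1 0)
    have k2 := sq_eq_sq_iff_abs_eq_abs _ _ |>.2 (iso t 0)
    have k3 := sq_eq_sq_iff_abs_eq_abs _ _ |>.2 (iso t 1)
    rw [f0] at k1 k2
    have k4 : f 1 * f t = t := by nlinarith
    calc f t = (f 1 * f 1) * f t := by rw [show f 1 * f 1 = 1 by nlinarith, one_mul]
      _ = f 1 * t := by rw [mul_assoc, k4]
  rw [← e]
  exact c t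

/-- rational multiples of a divisible exponent -/
theorem exists_hom (k : a.Z) (hk : ∀ n : ℕ, 0 < n → ∃ l : a.Z, k = (n : a.Z) * l) :
    ∃ κ : ℚ →+ a.Z, ∀ q, zK (κ q) = (q : a.K) * zK k := by
  have ex : ∀ q : ℚ, ∃ m : a.Z, zK m = (q : a.K) * zK k := fun q => by
    obtain ⟨l, hl⟩ := hk q.den q.den_pos
    refine ⟨(q.num : a.Z) * l, ?_⟩
    rw [hl, zK_mul, zK_mul, zK_intCast, zK_natCast, ← mul_assoc]
    congr 1
    exact_mod_cast (Rat.mul_den_eq_num q).symm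
  choose κ hκ using ex
  refine ⟨AddMonoidHom.mk' κ fun q r => ?_, hκ⟩
  have : zK (κ (q + r)) = zK (κ q + κ r) := by rw [zK_add, hκ, hκ, hκ, Rat.cast_add, add_mul]
  exact le_antisymm (zK_le.1 this.le) (zK_le.1 this.ge)

theorem ll_rat {y : a.K} (h : Ll |y| μ) (q : ℚ) : Ll |(q : a.K) * y| μ := by
  obtain ⟨n, hn⟩ := exists_nat_ge |q|
  refine Ll.mono_left ?_ (h.nat_mul n)
  rw [abs_mul]
  exact mul_le_mul_of_nonneg_right (by exact_mod_cast hn) (abs_nonneg _)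

end Etrl

theorem p_E_TRL (hLINE : S_LINE) :
    S_E_TRL := by
  intro Γ a μ L c hμ hL hc hfix
  obtain ⟨z, hz⟩ := exists_md_ds c
  obtain ⟨Lc, hL1, hL2⟩ := exists_coord hLINE hc (Ls.of_le hz.le)
  have hm : Ll (md c) μ := Ll.mono_left (md_le_ds c _) (hfix 0)
  obtain ⟨h1, -, h3⟩ := hL2 μ hm
  have L0 : 0 < Lc := hL1.2.pos (one_pos.trans_le (one_le_md' hc))
  choose i hi using fun t => (h3 (L t)).1 (hfix t)
  have habs : ∀ k l : a.Z, |zK k - zK l| * Lc = |zK k * Lc - zK l * Lc| := fun k l => by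
    rw [← sub_mul, abs_mul, abs_of_pos L0]
  obtain ⟨ε, hε⟩ := Etrl.affine hμ.pos (fun t => zK (i t) * Lc) fun s t => by
    have k0 := hL s t
    rw [← cR_apply] at k0
    obtain ⟨k1, k2⟩ := h1 (i s) (i t)
    rw [habs] at k1 k2
    have k3 := ds_tri (L s) (ipow c (i s) * z) (L t)
    have k4 := ds_tri (ipow c (i s) * z) (ipow c (i t) * z) (L t)
    have k5 := ds_tri (ipow c (i s) * z) (L s) (ipow c (i t) * z)
    have k6 := ds_tri (L s) (L t) (ipow c (i t) * z)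
    rw [ds_comm (ipow c (i t) * z) (L t)] at k4
    rw [ds_comm _ (L s)] at k5
    have k7 := le_abs_self (ds (L s) (L t) - cR a |s - t| * μ)
    have k8 := neg_abs_le (ds (L s) (L t) - cR a |s - t| * μ)
    exact Ll.abs (Ll.mono_left (by linarith) (((hi s).add (hi t)).add k0))
      (Ll.mono_left (by linarith) ((((hi s).add (hi t)).add k0).add k1))
  have hν : Big (μ / Lc) := fun n => (le_div_iff₀ L0).2 (Ll.ls_left hL1.1 hm n)
  obtain ⟨k, hk1, hk2⟩ := exists_divisible (cR a ε * μ / Lc) (μ / Lc) hν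
  have hk3 : Ll |zK k * Lc - cR a ε * μ| μ := fun n => by
    have := (le_div_iff₀ L0).1 (hk2 n)
    rwa [mul_assoc, ← abs_of_pos L0, ← abs_mul, abs_of_pos L0, sub_mul,
      div_mul_cancel₀ _ L0.ne'] at this
  obtain ⟨κ, hκ⟩ := Etrl.exists_hom k hk1
  refine ⟨κ, fun q t => ?_⟩
  obtain ⟨k1, -⟩ := h1 (κ q + i t) (i (t + q))
  rw [habs, zK_add, hκ, ipow_add, mul_assoc] at k1
  have k2 := ds_tri (ipow c (κ q) * L t) (ipow c (κ q) * (ipow c (i t) * z)) (L (t + q))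
  have k3 := ds_tri (ipow c (κ q) * (ipow c (i t) * z)) (ipow c (i (t + q)) * z) (L (t + q))
  rw [ds_mul_left] at k2
  rw [ds_comm (ipow c (i (t + q)) * z) (L (t + q))] at k3
  have k4 : |((q : a.K) * zK k + zK (i t)) * Lc - zK (i (t + q)) * Lc| ≤
      |(q : a.K) * (zK k * Lc - cR a ε * μ)| + |zK (i t) * Lc - zK (i 0) * Lc - cR a (ε * t) * μ| +
        |zK (i (t + q)) * Lc - zK (i 0) * Lc - cR a (ε * (t + q)) * μ| := by
    refine le_trans (le_of_eq (congrArg _ ?_)) ((abs_sub _ _).trans (add_le_add (abs_add_le _ _) le_rfl))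
    simp only [map_mul, map_add, map_ratCast]
    ring
  exact Ll.mono_left (by linarith)
    ((((((hi t).add (hi (t + q))).add k1).add (Etrl.ll_rat hk3 q)).add (hε t)).add (hε (t + q)))

end Pool.Agent.P.MP_dba3d2_lc


end

section

/-! Step NO1 of the stability project. -/

namespace Pool.Agent.P.MP_dba3d2_lc

open Filter

namespace No1

open ET

variable {Γ : HG} {a b : Amb} {r : ℕ}

/-- the group generated by the image of `B` and the letters -/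
abbrev TT (E : Ext a b) (B : Subgroup (MM Γ a)) (u : Fin r → MM Γ b) : Subgroup (MM Γ b) :=
  B.map (E.hom Γ) ⊔ Subgroup.closure (Set.range u)

/-- generic small letters -/
structure Mic (E : Ext a b) (μ : a.K) (B : Subgroup (MM Γ a)) (K : Fin r → Subgroup Γ.G)
    (u : Fin r → MM Γ b) : Prop where
  com : ∀ i, ∀ x ∈ (K i).map (cst Γ b), Commute (u i) x
  gc : GC (TT E B u)
  ext : ExtL (B.map (E.hom Γ)) u
  int : ∀ i, ∀ x ∈ B.map (E.hom Γ), (u i)⁻¹ * x * u i ∈ B.map (E.hom Γ) → x ∈ (K i).map (cst Γ b)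
  sm : ∀ i, Ll (ln (u i)) (E.kh μ)
  ret : ∀ ρ : TT E B u →* MM Γ a,
    (∀ (t : TT E B u) (h : MM Γ a), (t : MM Γ b) = E.hom Γ h → ρ t = h) →
    (∀ (t : TT E B u) i, (t : MM Γ b) = u i → ρ t = 1) → ∀ n, Retr E (TT E B u) ρ n

theorem mic (hMICL : S_MICL) {μ : a.K} (hμ : Big μ) {B : Subgroup (MM Γ a)} (hB : GC B)
    (K : Fin r → Subgroup Γ.G) (hK : ∀ i, Legal Γ (K i)) : ∃ u, Mic (a.dg U0) μ B K u := by
  obtain ⟨t, ht, hM⟩ := hMICL Γ r K hK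
  obtain ⟨g0, fc, hx, hk, hu, -, hr⟩ := hM a B hB.toGC0
  refine ⟨_, ?_, ⟨g0, fc hB.finc⟩, hx, hk, fun i => hu i μ hμ, hr⟩
  rintro i _ ⟨k, h1, rfl⟩
  rw [← (a.dg U0).hom_cst, ← mk'_hom, Commute, SemiconjBy, ← mk'_mul, ← mk'_mul]
  exact congrArg _ (funext fun n => ((ht i n k h1).map (cst Γ a)).eq)

variable {E : Ext a b} {μ : a.K} {B : Subgroup (MM Γ a)} {K : Fin r → Subgroup Γ.G}
  {u : Fin r → MM Γ b}

/-- the embedding of `B` -/
def emb (E : Ext a b) (B : Subgroup (MM Γ a)) (u : Fin r → MM Γ b) : B →* TT E B u :=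
  (Subgroup.inclusion le_sup_left).comp ((E.hom Γ).subgroupMap B)

theorem emb_coe (x : B) : (emb E B u x : MM Γ b) = E.hom Γ x := rfl

/-- the letters -/
def uT (E : Ext a b) (B : Subgroup (MM Γ a)) (u : Fin r → MM Γ b) (i : Fin r) : TT E B u :=
  ⟨u i, (le_sup_right : _ ≤ TT E B u) (Subgroup.subset_closure ⟨i, rfl⟩)⟩

theorem exists_emb {t : TT E B u} (h : (t : MM Γ b) ∈ B.map (E.hom Γ)) : ∃ x, t = emb E B u x := by
  obtain ⟨x, h1, h2⟩ := h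
  exact ⟨⟨x, h1⟩, Subtype.ext h2.symm⟩

theorem tt_ext {G : Type} [Group G] {f g : TT E B u →* G}
    (h1 : ∀ x, f (emb E B u x) = g (emb E B u x)) (h2 : ∀ i, f (uT E B u i) = g (uT E B u i)) :
    f = g :=
  hom_ext_sup (fun t ht => by
    obtain ⟨x, rfl⟩ := exists_emb ht
    exact h1 x) fun t i e => by
    obtain rfl : t = uT E B u i := Subtype.ext e
    exact h2 i

theorem Mic.lift (h : Mic E μ B K u) {G : Type} [Group G] (θ0 : B →* G) (ν : Fin r → G)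
    (hc : ∀ i (x : B), (x : MM Γ a) ∈ (K i).map (cst Γ a) → Commute (ν i) (θ0 x)) :
    ∃ θ : TT E B u →* G, (∀ x, θ (emb E B u x) = θ0 x) ∧ ∀ i, θ (uT E B u i) = ν i := by
  obtain ⟨θ, h1, h2⟩ := h.ext G
    (θ0.comp (B.equivMapOfInjective _ E.hom_injective).symm.toMonoidHom) ν fun i x y e => by
      have k := h.int i x x.2 (e ▸ y.2)
      obtain rfl : y = x := Subtype.ext (by
        rw [e, mul_assoc, ← (h.com i x k).eq, inv_mul_cancel_left])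
      obtain ⟨x, rfl⟩ := (B.equivMapOfInjective _ E.hom_injective).surjective y
      obtain ⟨k, k1, k2⟩ := k
      have c := hc i x ⟨k, k1, E.hom_injective ((E.hom_cst k).trans k2)⟩
      simp only [MonoidHom.comp_apply, MulEquiv.coe_toMonoidHom, MulEquiv.symm_apply_apply]
      rw [mul_assoc, ← c.eq, inv_mul_cancel_left]
  refine ⟨θ, fun x => (h1 (B.equivMapOfInjective _ E.hom_injective x)).trans ?_, h2⟩
  simp

theorem Mic.comm (h : Mic E μ B K u) (i : Fin r) {x : B}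
    (hx : (x : MM Γ a) ∈ (K i).map (cst Γ a)) : Commute (uT E B u i) (emb E B u x) := by
  obtain ⟨k, k1, k2⟩ := hx
  exact Subtype.ext (h.com i _ ⟨k, k1, by rw [emb_coe, ← k2, E.hom_cst]⟩).eq

theorem Mic.rho (h : Mic E μ B K u) : ∃ ρ : TT E B u →* MM Γ a, (∀ x, ρ (emb E B u x) = x) ∧
    (∀ i, ρ (uT E B u i) = 1) := h.lift B.subtype (fun _ => 1) fun _ _ _ => Commute.one_left _

theorem Mic.sigma (h : Mic E μ B K u) (y : Fin r → B)
    (hy : ∀ i, ∀ k ∈ K i, Commute (y i : MM Γ a) (cst Γ a k)) :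
    ∃ σ : TT E B u →* TT E B u, Function.Bijective σ ∧ (∀ x, σ (emb E B u x) = emb E B u x) ∧
      ∀ i, σ (uT E B u i) = uT E B u i * (emb E B u (y i))⁻¹ := by
  have c : ∀ i (x : B), (x : MM Γ a) ∈ (K i).map (cst Γ a) →
      Commute (emb E B u (y i)) (emb E B u x) := by
    rintro i x ⟨k, k1, k2⟩
    exact Commute.map (show Commute (y i) x from Subtype.ext (k2 ▸ hy i k k1).eq) _
  obtain ⟨σ, a1, a2⟩ := h.lift (emb E B u) (fun i => uT E B u i * (emb E B u (y i))⁻¹)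
    fun i x hx => (h.comm i hx).mul_left (c i x hx).inv_left
  obtain ⟨σ', b1, b2⟩ := h.lift (emb E B u) (fun i => uT E B u i * emb E B u (y i))
    fun i x hx => (h.comm i hx).mul_left (c i x hx)
  have e1 : σ'.comp σ = MonoidHom.id _ :=
    tt_ext (fun x => by simp [a1, b1]) fun i => by simp [a2, b1, b2]
  have e2 : σ.comp σ' = MonoidHom.id _ :=
    tt_ext (fun x => by simp [a1, b1]) fun i => by simp [a1, a2, b2]
  exact ⟨σ, Function.bijective_iff_has_inverse.2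
    ⟨σ', DFunLike.congr_fun e1, DFunLike.congr_fun e2⟩, a1, a2⟩

theorem Mic.small (h : Mic E μ B K u) (i : Fin r) {p q : B} (hp : Ll (ln (p : MM Γ a)) μ)
    (hq : Ll (ln (q : MM Γ a)) μ) :
    Ll (ln ((emb E B u p * uT E B u i * (emb E B u q)⁻¹ : TT E B u) : MM Γ b)) (E.kh μ) := by
  refine (((E.ll_iff.2 hp).add (h.sm i)).add (E.ll_iff.2 hq)).mono_left ?_
  rw [← E.ln_hom, ← E.ln_hom, ← ln_inv (E.hom Γ q)]
  change ln (E.hom Γ p * u i * (E.hom Γ q)⁻¹) ≤ _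
  linarith [ln_mul_le (E.hom Γ p * u i) (E.hom Γ q)⁻¹, ln_mul_le (E.hom Γ p) (u i)]

theorem comp_lift {W G G' : Type} [Group W] [Group G] [Group G'] (f : G →* G') (j : W →* G)
    (ν : Fin r → G) (w : Monoid.Coprod W (FreeGroup (Fin r))) :
    f (Monoid.Coprod.lift j (FreeGroup.lift ν) w) =
      Monoid.Coprod.lift (f.comp j) (FreeGroup.lift fun i => f (ν i)) w := by
  refine DFunLike.congr_fun (show f.comp (Monoid.Coprod.lift j (FreeGroup.lift ν)) = _ from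
    Monoid.Coprod.hom_ext ?_ (FreeGroup.ext_hom _ _ fun i => ?_)) w
  · ext x
    simp
  · simp

theorem lift_one {W G : Type} [Group W] [Group G] (j : W →* G)
    (w : Monoid.Coprod W (FreeGroup (Fin r))) :
    Monoid.Coprod.lift j (FreeGroup.lift fun _ => 1) w =
      j (Monoid.Coprod.lift (MonoidHom.id W) 1 w) := by
  refine DFunLike.congr_fun (show _ = j.comp (Monoid.Coprod.lift (MonoidHom.id W) 1) from
    Monoid.Coprod.hom_ext ?_ (FreeGroup.ext_hom _ _ fun i => ?_)) w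
  · ext x
    simp
  · simp

end No1

open No1 ET in
theorem p_NO1 (hFRAME : S_FRAME) (hCVX : S_CVX) (hMICL : S_MICL) (hE_END : S_E_END) :
    S_NO1 := by
  intro Γ a H μ m k Q h x hH hμ hQ hh hx
  have hM := fun (r : ℕ) (K : Fin r → Subgroup Γ.G) => mic hMICL hμ (gc_ball hCVX hμ) K
  generalize a.dg U0 = E at hM
  generalize a.pow U0 = b at E hM
  obtain ⟨A0, η, a1, a2, hend⟩ := hE_END Γ a b E H μ m k Q h x hH hμ hQ hh hx
  refine ⟨A0, a1, fun R φ hφ A hA ho => ?_⟩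
  obtain ⟨r, y, ι, c, c0, hy, hid, hout⟩ := ho η a2
  have h0 := hμ.pos.le
  choose z z' hz hz' K hK hc hs using fun i => hFRAME Γ a μ (φ (y i)) hμ
    ((phi_l_pos hμ hφ _).1 (hy i).1) fun p => (hy i).2 ((phi_per hμ hφ _ _).2 (by simpa using p))
  obtain ⟨u, M⟩ := hM r K hK
  lift z to Fin r → ball Γ μ using fun i => (mem_ball h0).2 (hz i).ls
  lift z' to Fin r → ball Γ μ using fun i => (mem_ball h0).2 (hz' i).ls
  obtain ⟨ρ, r1, r2⟩ := M.rho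
  obtain ⟨σ, s0, s1, s2⟩ := M.sigma (fun i => (z i)⁻¹ * φ (y i) * z' i) hc
  have hν : Big (E.kh μ) := E.big_iff.2 hμ
  have hT : TT E (ball Γ μ) u ≤ ball Γ (E.kh μ) := sup_le (map_ball_le E h0)
    ((Subgroup.closure_le _).2 (by
      rintro _ ⟨i, rfl⟩
      exact (mem_ball hν.pos.le).2 (M.sm i).ls))
  have old : ∀ (t : TT E (ball Γ μ) u) (g : MM Γ a), (t : MM Γ b) = E.hom Γ g →
      ∃ p : ball Γ μ, (p : MM Γ a) = g ∧ t = emb E _ u p := fun t g e =>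
    ⟨⟨g, (hom_mem_ball E h0).1 (e ▸ hT t.2)⟩, rfl, Subtype.ext e⟩
  obtain ⟨j, hj⟩ : ∃ j : R.W →* TT E (ball Γ μ) u, ∀ w, j w = emb E _ u (φ w) :=
    ⟨(emb E _ u).comp φ.toMonoidHom, fun _ => rfl⟩
  obtain ⟨ν, hn⟩ : ∃ ν : Fin r → TT E (ball Γ μ) u,
      ∀ i, ν i = emb E _ u (z i) * uT E _ u i * (emb E _ u (z i))⁻¹ := ⟨_, fun _ => rfl⟩
  have l1 : ∀ w, rl (E.kh μ) (ln (j w : MM Γ b)) ≤ R.ℓ w := fun w => by
    rw [hj, emb_coe, E.ln_hom, E.rl_kh, hφ]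
  have c1 : ∀ i g, R.Stab 1 (y i) g → Commute (ν i) (j g) := fun i g hg => by
    have k1 := (hs i (φ g)).1 (by simpa using (phi_stab hμ hφ _ _ _).1 hg)
    have k2 := (M.comm i (x := (z i)⁻¹ * φ g * z i) k1).conj (emb E _ u (z i))
    rw [hn, hj]
    simpa [mul_assoc] using k2
  have sj : σ.comp j = j := MonoidHom.ext fun w => by rw [MonoidHom.comp_apply, hj, s1]
  obtain ⟨o1, o2, -⟩ := hout (lgOn _ hν _ hT) j ν l1 c1
  obtain ⟨-, -, o3⟩ := hout (lgOn _ hν _ hT) j (fun i => σ (ν i)) l1 fun i g hg =>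
    (DFunLike.congr_fun sj g) ▸ (c1 i g hg).map σ
  have o4 : ∑ i, rl (E.kh μ)
      (ln (Monoid.Coprod.lift j (FreeGroup.lift fun i => σ (ν i)) (ι (φ.symm (x i))) : MM Γ b)) ≤
      ∑ i, R.ℓ (φ.symm (x i)) - c := o3 fun i => (lg_l_zero hν hT _).2 (by
    have e : σ (ν i) * j (y i) = emb E _ u (z i) * uT E _ u i * (emb E _ u (z' i))⁻¹ := by
      simp [hn, hj, s1, s2, mul_assoc]
    exact e ▸ M.small i (hz i) (hz' i))
  have := hend R φ hφ A hA _ (fun w => Monoid.Coprod.lift j (FreeGroup.lift ν) (ι w)) ρ σ M.gc hT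
    ((Subgroup.map_mono inf_le_right).trans le_sup_left)
    (M.ret ρ (fun t g e => by
      obtain ⟨p, rfl, rfl⟩ := old t g e
      exact r1 p) fun t i e => by
      obtain rfl : t = uT E _ u i := Subtype.ext e
      exact r2 i)
    o1.mul (fun w hw e => congrArg Subtype.val ((o1.par w hw e).trans (hj w)))
    (fun w hw => by
      have e : (fun i => ρ (ν i)) = fun _ => 1 := funext fun i => by simp [hn, r1, r2]
      rw [comp_lift, e, lift_one, hid w hw, MonoidHom.comp_apply, hj, r1])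
    (o2 fun i => (lg_l_zero hν hT _).2 (hn i ▸ M.small i (hz i) (hz i))) s0
    (by
      rintro t ⟨g, -, e⟩
      obtain ⟨p, -, rfl⟩ := old t g e.symm
      exact s1 p)
  simp only [comp_lift, sj] at this
  linarith

end Pool.Agent.P.MP_dba3d2_lc


end
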