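import Pool.Agent.P.MP_dba3d2_lcM.Ab05
import Pool.Agent.P.MP_dba3d2_lcM.Bb07
import Pool.Agent.P.MP_dba3d2_lcM.Bb10
import Pool.Agent.P.MP_dba3d2_lcM.Cb18
import Pool.Agent.P.MP_dba3d2_lcM.Eb26
import Pool.Agent.P.MP_dba3d2_lcM.Gb27
import Pool.Agent.P.MP_dba3d2_lcM.Eb29

section

/-! Step E_GL of the stability project. -/

namespace Pool.Agent.P.MP_dba3d2_lc

open Filter ET

namespace E_gl

variable {Γ : HG} {a : Amb} {X B W P : Subgroup (MM Γ a)}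

/-- exponents of primitive elements of the first factor after grafting -/
theorem expo (o : TwoOut X W) (hI : X ⊓ W = B)
    (hB : ∀ c ∈ B, Prim c → ∀ f ∈ W, f ∈ Ep c → f ∈ B) :
    ∀ c ∈ X, Prim c → ∀ f ∈ X ⊔ W, f ∈ Ep c → f ∈ X := by
  intro c hc pc f hf hE
  by_cases h1 : ∀ g ∈ X, g⁻¹ * c * g ∉ W
  · exact o.e2 c hc pc h1 f hf hE
  push Not at h1
  obtain ⟨g, hg, h2⟩ := h1
  have lX : X ≤ X ⊔ W := le_sup_left
  have m1 : g⁻¹ * c * g ∈ X ⊓ W := ⟨X.mul_mem (X.mul_mem (X.inv_mem hg) hc) hg, h2⟩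
  have e1 : g⁻¹ * f * g ∈ Ep (g⁻¹ * c * g) := mem_Ep_conj'.2 (by simpa [mul_assoc] using hE)
  obtain ⟨x, hx, y, hy, -, ey, e⟩ := o.e1 _ m1 (pc.conj' g) (g⁻¹ * f * g)
    ((X ⊔ W).mul_mem ((X ⊔ W).mul_mem ((X ⊔ W).inv_mem (lX hg)) hf) (lX hg)) e1
  have yB : y ∈ X ⊓ W := hI ▸ hB _ (hI ▸ m1) (pc.conj' g) y hy ey
  have e2 : f = g * (x * y) * g⁻¹ := by rw [← e]; group
  rw [e2]
  exact X.mul_mem (X.mul_mem hg (X.mul_mem hx yB.1)) (X.inv_mem hg)

/-- a short element conjugating a long element of `X` into `X` lies in `X` -/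
theorem conj_long (hE : S_ELEM) (hP : S_PERC) (hR : S_ROOT) (hX : GC0 X) (hXP : X ≤ P)
    (he : ∀ c ∈ X, Prim c → ∀ f ∈ P, f ∈ Ep c → f ∈ X) {u x : MM Γ a} (hu : u ∈ P) (hx : x ∈ X)
    (hx' : u⁻¹ * x * u ∈ X) (hb : Big (ln x)) (hl : Ll (ln u) (ln x)) : u ∈ X := by
  have h0 := hb.pos.le
  have d1 : Ll (ds u 1) (ln x) := by rwa [ds_one_right]
  have d2 : Ll (ds (u * (u⁻¹ * x * u)) x) (ln x) := by
    rwa [show u * (u⁻¹ * x * u) = x * u by group, ds_comm, ds_mul_right]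
  have d0 : Ls (ln x) (ds 1 x) := by rw [ds_one_left]; exact Ls.refl' _
  have o1 : On (ln x) 1 u (u * (u⁻¹ * x * u)) := On.of_near d1 _
  have o2 : On (ln x) x u (u * (u⁻¹ * x * u)) := (On.of_near d2 _).symm
  have l1 : Ls (ln (u⁻¹ * x * u)) (ln x) := by
    refine Ls.mono_left ?_ ((hl.ls.add (Ls.refl' _)).add hl.ls)
    linarith [ln_mul_le (u⁻¹ * x) u, ln_mul_le u⁻¹ x, ln_inv u]
  by_cases hp : Per (ln x) 1 x
  swap
  · exact hX.g2 _ hb x hx _ hx' (Ls.refl' _) l1 u 1 x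
      ⟨d0, on_left h0 _ _, on_right h0 _ _, o1, o2⟩ hp
  obtain ⟨c, hc, pc, sc⟩ := hX.g20 _ hb x hx (Ls.refl' _) 1 x d0 (on_left h0 _ _)
    (on_right h0 _ _) hp
  have d3 : Ll (ds (u * 1) 1) (ln x) := by rwa [mul_one]
  have hp' : Per (ln x) 1 (u⁻¹ * x * u) :=
    (per_mul_iff u).1 (hp.congr (FixA.ll_comm d3) (FixA.ll_comm d2))
  have d4 : Ls (ln x) (ds 1 (u⁻¹ * x * u)) := by
    have := On.nondeg hb o1 o2 d0
    rwa [ds_mul_right, ← ds_one_left (u⁻¹ * x * u)] at this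
  obtain ⟨c', hc', pc', sc'⟩ := hX.g20 _ hb _ hx' l1 1 _ d4 (on_left h0 _ _)
    (on_right h0 _ _) hp'
  have cj : Cj u c' c := Ep_eq_of_stab hE hP hb d0 (pc'.conj u).1 pc.1
    (((stab_conj u).2 sc').congr d3 d2) sc
  obtain ⟨h, hh, k⟩ := (hR Γ a X hX).2.2.2.2.2 c hc c' hc' pc.1 pc'.1 u cj
  have := he c hc pc _ (P.mul_mem hu (P.inv_mem (hXP hh))) k
  simpa using X.mul_mem this hh

end E_gl

open E_gl

theorem p_E_GL (hELEM : S_ELEM) (hPERC : S_PERC) (hROOT : S_ROOT) (hTRUNC : S_TRUNC) (hLET : S_LET) (hGRAFT : S_GRAFT) :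
    S_E_GL := by
  intro Γ a μ X r K u hμ hX hL C
  have h0 := hμ.pos.le
  obtain ⟨top, -, nf, cj, ex⟩ :=
    hLET Γ a μ _ r K u hμ (gc0_trunc hTRUNC hμ hX) inf_le_right hL
  obtain ⟨o, nf2⟩ := hGRAFT Γ a X _ hX top.gc (sep_of_le hμ le_sup_left top.bd)
  have e : X ⊔ (X ⊓ ball Γ μ ⊔ C) = X ⊔ C := by rw [← sup_assoc, sup_inf_self]
  have hI : X ⊓ (X ⊓ ball Γ μ ⊔ C) = X ⊓ ball Γ μ := inf_of_le le_sup_left top.bd
  have red := red_two o inf_le_left top.fin top.per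
  have he := expo o hI ex
  have gc := o.gc
  change X ⊔ (X ⊓ ball Γ μ ⊔ C) = _ at e
  rw [e] at gc red he nf2
  refine ⟨gc, red.1, red.2, nf2, nf, fun i x hx hx' => ?_, he⟩
  have ub : u i ∈ ball Γ μ := (mem_ball h0).2 (hL.sim i).1
  by_cases hb : x ∈ ball Γ μ
  · exact cj i x ⟨hx, hb⟩ ⟨hx', (ball Γ μ).mul_mem ((ball Γ μ).mul_mem (inv_mem ub) hb) ub⟩
  have l := ll_of_not_mem_ball hμ hb
  have uX : u i ∈ X := conj_long hELEM hPERC hROOT hX le_sup_left he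
    ((le_sup_right : C ≤ X ⊔ C) (Subgroup.subset_closure ⟨i, rfl⟩)) hx hx' (hμ.of_ls l.ls)
    (Ll.ls_left (hL.sim i).1 l)
  refine (hL.base i (u i) ⟨uX, ub⟩ (hL.sim i).1 1 1 (u i)
    ⟨?_, on_left h0 _ _, on_right h0 _ _, on_left h0 _ _, ?_⟩).elim
  · rw [ds_one_left]; exact (hL.sim i).2
  · rw [one_mul]; exact on_right h0 _ _

end Pool.Agent.P.MP_dba3d2_lc


end

section

/-! Step E_GLX of the stability project. -/

namespace Pool.Agent.P.MP_dba3d2_lc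

open Filter ET

theorem p_E_GLX (hELEM : S_ELEM) (hROOT : S_ROOT) (hTRUNC : S_TRUNC) (hLET : S_LET) (hGRAFT : S_GRAFT) :
    S_E_GLX := by
  intro Γ a μ X r K u hμ hX hL G _ θ0 ν hν
  have hB := gc0_trunc hTRUNC hμ hX
  obtain ⟨top, eL, -, -, last⟩ := hLET Γ a μ _ r K u hμ hB inf_le_right hL
  have sep := sep_of_le (H := X) hμ le_sup_left top.bd
  have e := inf_of_le (H := X) le_sup_left top.bd
  obtain ⟨θ1, h1, h2⟩ := eL G (θ0.comp (Subgroup.inclusion inf_le_left)) ν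
    fun i x y h => hν i ⟨x, x.2.1⟩ ⟨y, y.2.1⟩ h
  obtain ⟨θ, t0, t1⟩ := (hGRAFT Γ a X _ hX top.gc sep).1.ext G θ0 θ1
    (fun x y h => by
      have hy : (y : MM Γ a) ∈ X ⊓ ball Γ μ := e.le ⟨h ▸ x.2, y.2⟩
      exact (congrArg θ0 (Subtype.ext h)).trans (h1 ⟨y, hy⟩).symm)
    (fun c hc hf x y hx hy => by
      rw [e] at hc
      obtain ⟨c0, m0, p0, e0⟩ := (hROOT Γ a _ hB).1 c hc hf
      have hy' : (y : MM Γ a) ∈ X ⊓ ball Γ μ := last c0 m0 p0 y y.2 (e0 ▸ hy)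
      have k : Commute (x ^ Γ.e) ⟨y, hy'.1⟩ :=
        Subtype.ext ((hELEM Γ a c hf).2.2.2.2.2.2.2.1 x hx y hy)
      rw [← map_pow, show θ1 y = θ0 ⟨y, hy'.1⟩ from h1 ⟨y, hy'⟩]
      exact k.map θ0)
  exact ⟨θ.comp (Subgroup.inclusion (sup_le_sup_left le_sup_right X)), t0,
    fun i => (t1 ⟨u i, _⟩).trans (h2 i)⟩

end Pool.Agent.P.MP_dba3d2_lc


end

section

/-! Step E_LIP of the stability project. -/

namespace Pool.Agent.P.MP_dba3d2_lc

open Filter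

namespace ELip

variable {Γ : HG} {a b : Amb} {E : Ext a b} {T : Subgroup (MM Γ b)} {ρ : T →* MM Γ a}

theorem one_letter {lam : b.K} (hl : Big lam) {t : T} (h : Lip E T ρ t)
    (hs : Ls (ln (t : MM Γ b)) lam) : Ll (E.kh (ln (ρ t)) - ln (t : MM Γ b)) lam := by
  by_cases hb : Big (ln (t : MM Γ b))
  · exact (h.1 hb).ls_right hs hl.pos.le
  · have h1 : ¬ Big (E.kh (ln (ρ t))) := fun k => h.2 hb (E.big_iff.1 k)
    refine Ll.mono_left ?_ (hl.ll_of_not_big h1)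
    linarith [ln_nonneg (t : MM Γ b)]

theorem sum_nonneg' (l : List (MM Γ b)) : 0 ≤ (l.map ln).sum := by
  induction l with
  | nil => simp
  | cons x l ih =>
    rw [List.map_cons, List.sum_cons]
    linarith [ln_nonneg x]

theorem word {Y : Set (MM Γ b)} (hY : Y ⊆ T) (hL : ∀ t : T, (t : MM Γ b) ∈ Y → Lip E T ρ t)
    {lam : b.K} (hl : Big lam) (l : List (MM Γ b)) (h : ∀ x ∈ l, x ∈ Y)
    (hs : Ls (l.map ln).sum lam) :
    ∃ t : T, (t : MM Γ b) = l.prod ∧ Ll (E.kh (ln (ρ t)) - (l.map ln).sum) lam := by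
  induction l with
  | nil => exact ⟨1, by simp, by simpa using Ll.zero hl.pos.le⟩
  | cons x l ih =>
    rw [List.map_cons, List.sum_cons] at hs ⊢
    have hx : x ∈ Y := h x List.mem_cons_self
    obtain ⟨t, e, k⟩ := ih (fun y hy => h y (List.mem_cons_of_mem _ hy))
      (Ls.mono_left (by linarith [ln_nonneg x]) hs)
    have k1 := one_letter hl (hL ⟨x, hY hx⟩ hx)
      (Ls.mono_left (by linarith [sum_nonneg' l]) hs)
    refine ⟨⟨x, hY hx⟩ * t, by rw [List.prod_cons, ← e]; rfl, Ll.mono_left ?_ (k1.add k)⟩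
    have := E.kh_le.2 (ln_mul_le (ρ ⟨x, hY hx⟩) (ρ t))
    rw [map_add, ← map_mul] at this
    dsimp only
    linarith

theorem coe_fin (t : T) : IsOfFinOrder (t : MM Γ b) ↔ IsOfFinOrder t :=
  (Subtype.val_injective).isOfFinOrder_iff (f := T.subtype)

end ELip

open ELip in
theorem p_E_LIP :
    S_E_LIP := by
  intro Γ a b E T ρ
  refine ⟨fun P Y hP hY hL t ht => ?_, fun H hH hρ => ⟨fun t ht => ?_, fun hf hp hL n => ?_⟩⟩
  · obtain ⟨l, h1, h2, h3, h4⟩ := hP _ ht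
    refine ⟨fun hb => ?_, fun hb => ?_⟩
    · have k := h3 hb
      obtain ⟨s, e, k'⟩ := word hY hL hb l h1
        (Ls.mono_left (by linarith) (k.ls.add (Ls.refl' (ln (t : MM Γ b)))))
      obtain rfl : s = t := Subtype.ext (e.trans h2)
      exact Ll.mono_left (le_of_eq (by ring)) (k'.add k)
    · exact (hL t (h1 _ (by rw [h4 hb]; exact List.mem_cons_self))).2 hb
  · obtain ⟨h, hh, e⟩ := ht
    have e1 : E.kh (ln (ρ t)) = ln (t : MM Γ b) := by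
      rw [hρ t h hh e.symm, ← e, E.ln_hom]
    refine ⟨fun hb => ?_, fun hb k => hb ?_⟩
    · rw [e1, sub_self]; exact Ll.zero hb.pos.le
    · rw [← e1]; exact E.big_iff.2 k
  · have key : ∀ (c : T) (p : MM Γ b) (hp : p ∈ T), p⁻¹ * c * p ∈ H.map (E.hom Γ) →
        ∃ h, p⁻¹ * c * p = E.hom Γ h ∧ (ρ ⟨p, hp⟩)⁻¹ * ρ c * ρ ⟨p, hp⟩ = h := by
      rintro c p hp ⟨h, hh, e⟩
      refine ⟨h, e.symm, ?_⟩
      rw [← map_inv, ← map_mul, ← map_mul]
      exact hρ _ h hh e.symm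
    refine ⟨fun t => ?_, fun t ht h1 => ?_, fun c f hc hE hl _ k => ?_⟩
    · change ¬ Big (n * E.kh (ln (ρ t)) - (n + 1) * ln (t : MM Γ b))
      by_cases hb : Big (ln (t : MM Γ b))
      · have := (hL t).1 hb n
        exact not_big_iff.2 ⟨1, by push_cast; linarith⟩
      · have h1 : ¬ Big (E.kh (ln (ρ t))) := fun k => (hL t).2 hb (E.big_iff.1 k)
        refine not_big_of_ls (Ls.mono_left ?_ ⟨n, le_rfl⟩) h1
        have := mul_nonneg (by positivity : (0 : b.K) ≤ n + 1) (ln_nonneg (t : MM Γ b))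
        linarith
    · have hfin : Finite (Subgroup.zpowers (t : MM Γ b)) :=
        (finite_zpowers.2 ((coe_fin t).2 ht)).to_subtype
      obtain ⟨p, hp, k⟩ := hf (Subgroup.zpowers (t : MM Γ b))
        ((Subgroup.zpowers_le).2 t.2) hfin
      obtain ⟨h, e1, e2⟩ := key t p hp (k.elim id id _ (Subgroup.mem_zpowers _))
      rw [h1, mul_one, inv_mul_cancel] at e2
      rw [← e2, map_one] at e1
      refine Subtype.ext ?_
      simpa [mul_assoc] using congrArg (fun z => p * z * p⁻¹) e1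
    · obtain ⟨p, hp', k'⟩ := hp c c.2 hc f f.2 hE hl
      obtain ⟨h, e1, e2⟩ := key c p hp' (k'.elim id id)
      refine hc.1 ((finOrder_conj' p _).1 ?_)
      rw [e1, E.finOrder_iff, ← e2, finOrder_conj']
      exact k

end Pool.Agent.P.MP_dba3d2_lc


end

section

/-! Step MICL of the stability project. -/

namespace Pool.Agent.P.MP_dba3d2_lc

open Filter

namespace Micl

open ET

theorem not_big_real (a : Amb) (r : ℝ) : ¬ Big (r : a.K) := by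
  obtain ⟨n, hn⟩ := exists_nat_ge r
  refine not_big_of_ls (Ls.of_le ?_) (not_big_nat n)
  have h1 : ((r : ℝ) : a.K) ≤ ((n : ℝ) : a.K) := Germ.const_le hn
  exact h1

theorem micro (a : Amb) (τ : ℕ → ℝ) {ν : a.K} (hν : Big ν) :
    Ll (a.mk' U0 fun n => (τ n : a.K)) ((a.dg U0).kh ν) :=
  ll_mk'_kh U0 (Eventually.of_forall fun n => hν.ll_of_not_big (not_big_real a (τ n)))

theorem ev_comm {Γ : HG} (a : Amb) {K : Subgroup Γ.G} (hK : Finite K) (t : ℕ → Γ.G)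
    (h : ∀ k ∈ K, Commute (a.mk' U0 fun n => cst Γ a (t n) : MM Γ (a.pow U0))
      (cst Γ (a.pow U0) k)) :
    ∀ᶠ n in (U0 : Filter ℕ), ∀ k ∈ K, Commute (t n) k := by
  have hf : (K : Set Γ.G).Finite := Set.toFinite _
  refine (eventually_all_finite hf).2 fun k hk => ?_
  have h1 := (h k hk).eq
  rw [← (a.dg U0).hom_cst, ← mk'_hom, ← mk'_mul, ← mk'_mul, mk'_eq_iff] at h1
  filter_upwards [h1] with n hn
  rw [← map_mul, ← map_mul] at hn
  exact cst_injective hn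

theorem lip_one {Γ : HG} {a b : Amb} {E : Ext a b} {T : Subgroup (MM Γ b)} {ρ : T →* MM Γ a}
    {t : T} (h : ρ t = 1) : Lip E T ρ t := by
  refine ⟨fun hb => Ll.of_nonpos ?_ hb.pos.le, fun _ => ?_⟩
  · rw [h, ln_one, map_zero, zero_sub, neg_nonpos]
    exact ln_nonneg _
  · rw [h, ln_one]
    simpa using not_big_nat (K := a.K) 0

end Micl

open ET Micl

theorem p_MICL (hEXTGC : S_EXTGC) (hGMIC : S_GMIC) (hE_GL : S_E_GL) (hE_GLX : S_E_GLX) (hE_LIP : S_E_LIP) :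
    S_MICL := by
  classical
  intro Γ r K hK
  obtain ⟨t0, τ, h0⟩ := hGMIC Γ r K hK
  refine ⟨fun i n => if ∀ k ∈ K i, Commute (t0 i n) k then t0 i n else 1, fun i n k hk => ?_, ?_⟩
  · dsimp only
    split_ifs with h
    exacts [h k hk, Commute.one_left k]
  intro a H hH E u T
  obtain ⟨hμ, hL0⟩ := h0 a
  set μ : (a.pow U0).K := a.mk' U0 fun n => (τ n : a.K) with hμdef
  have eu : u = fun i => a.mk' U0 fun n => cst Γ a (t0 i n) := by
    funext i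
    refine (mk'_eq_iff U0 _ _).2 ?_
    filter_upwards [ev_comm a (hK i).1 (t0 i) (hL0.comm i)] with n hn
    rw [if_pos hn]
  rw [← eu] at hL0
  have small : ∀ ν : a.K, Big ν → Ll μ (E.kh ν) := fun ν hν => micro a τ hν
  have hX : GC0 (H.map (E.hom Γ)) := (hEXTGC Γ a _ E H).1 hH
  have hstd : ∀ w ∈ H.map (E.hom Γ) ⊓ ball Γ μ, w ∈ std Γ (a.pow U0) := by
    rintro _ ⟨⟨h, -, rfl⟩, hb⟩
    rw [hom_std, mem_std_iff]
    intro hh
    have h1 := (mem_ball hμ.pos.le).1 hb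
    rw [E.ln_hom] at h1
    exact (small _ hh).not_ls (E.big_iff.2 hh).pos h1
  have hL : Letters μ (H.map (E.hom Γ) ⊓ ball Γ μ) K u :=
    ⟨hL0.fin, hL0.sim, hL0.comm, hL0.nper, hL0.self, fun i w hw => hL0.base i w (hstd w hw)⟩
  obtain ⟨g0, fr, pr, nf1, nf2, cj, ep⟩ := hE_GL Γ _ μ _ r K u hμ hX hL
  refine ⟨g0, fun hf => ?_, hE_GLX Γ _ μ _ r K u hμ hX hL, cj,
    fun i ν hν => Ll.ls_left (hL0.sim i).1 (small ν hν), ep, fun ρ h1 h2 => ?_⟩
  · have fX := ((hEXTGC Γ a _ E H).2 ⟨hH, hf⟩).finc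
    exact finC_of_finRed fr le_sup_left le_sup_left fX fX
  obtain ⟨l1, l2⟩ := hE_LIP Γ a _ E T ρ
  obtain ⟨lx, lr⟩ := l2 H le_sup_left fun t h _ e => h1 t h e
  have uT : ∀ i, u i ∈ T := fun i => (le_sup_right : _ ≤ T) (Subgroup.subset_closure ⟨i, rfl⟩)
  have lP : H.map (E.hom Γ) ⊓ ball Γ μ ⊔ Subgroup.closure (Set.range u) ≤ T :=
    sup_le_sup_right inf_le_left _
  have lw := l1 _ _ nf2 (by
    rintro g (hg | ⟨i, rfl | rfl⟩)
    exacts [(le_sup_left : _ ≤ T) hg.1, uT i, T.inv_mem (uT i)]) (by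
    rintro t (ht | ⟨i, e | e⟩)
    · exact lx t ht.1
    · exact lip_one (h2 t i e)
    · refine lip_one ?_
      have := h2 t⁻¹ i (by rw [Subgroup.coe_inv, e, inv_inv])
      rwa [map_inv, inv_eq_one] at this)
  have la := l1 _ _ nf1 (by
    rintro g (hg | hg)
    exacts [(le_sup_left : _ ≤ T) hg, lP hg]) (by
    rintro t (ht | ht)
    exacts [lx t ht, lw t ht])
  exact lr fr pr fun t => la t t.2

end Pool.Agent.P.MP_dba3d2_lc


end

section

/-! Step E_EXC of the stability project. -/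

namespace Pool.Agent.P.MP_dba3d2_lc

open Filter

namespace E_exc

variable {Γ : HG} {a : Amb}

theorem ipow_conj' (c p : MM Γ a) (k : a.Z) : ipow (p⁻¹ * c * p) k = p⁻¹ * ipow c k * p := by
  simpa using ipow_conj p⁻¹ c k

theorem inE {c p x : MM Γ a} (h : InE (p⁻¹ * c * p) x) : InE c (p * x * p⁻¹) := by
  have e : (p⁻¹ * c * p) ^ Γ.e = p⁻¹ * c ^ Γ.e * p := by
    simpa using conj_pow (a := p⁻¹) (b := c) (i := Γ.e)
  have k : p * x * p⁻¹ * c ^ Γ.e * (p * x * p⁻¹)⁻¹ =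
      p * (x * (p⁻¹ * c ^ Γ.e * p) * x⁻¹) * p⁻¹ := by group
  unfold InE at h ⊢
  rw [e] at h
  rw [k]
  refine h.imp (fun h => ?_) fun h => ?_
  · rw [h]; group
  · rw [h]; group

theorem sup_eq (X : Subgroup (MM Γ a)) (c p : MM Γ a) (k : ℚ →+ a.Z) (hp : p ∈ X) :
    X ⊔ Subgroup.closure (Set.range fun q => ipow (p⁻¹ * c * p) (k q)) =
      X ⊔ Subgroup.closure (Set.range fun q => ipow c (k q)) := by
  refine le_antisymm (sup_le le_sup_left ((Subgroup.closure_le _).2 ?_))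
    (sup_le le_sup_left ((Subgroup.closure_le _).2 ?_))
  · rintro _ ⟨q, rfl⟩
    have h1 := Subgroup.mem_sup_left
      (T := Subgroup.closure (Set.range fun q => ipow c (k q))) hp
    have h2 := Subgroup.mem_sup_right (S := X)
      (Subgroup.subset_closure (k := Set.range fun q => ipow c (k q)) ⟨q, rfl⟩)
    simp only [ipow_conj']
    exact mul_mem (mul_mem (inv_mem h1) h2) h1
  · rintro _ ⟨q, rfl⟩
    have h1 := Subgroup.mem_sup_left
      (T := Subgroup.closure (Set.range fun q => ipow (p⁻¹ * c * p) (k q))) hp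
    have h2 := Subgroup.mem_sup_right (S := X)
      (Subgroup.subset_closure (k := Set.range fun q => ipow (p⁻¹ * c * p) (k q)) ⟨q, rfl⟩)
    have e : ipow c (k q) = p * ipow (p⁻¹ * c * p) (k q) * p⁻¹ := by rw [ipow_conj']; group
    change ipow c (k q) ∈ _
    rw [e]
    exact mul_mem (mul_mem h1 h2) (inv_mem h1)

end E_exc

theorem p_E_EXC :
    S_E_EXC := by
  intro Γ a X c p k hp
  have E := E_exc.sup_eq X c p k hp
  refine ⟨E, fun h G _ θ0 ν h1 h2 => ?_⟩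
  obtain ⟨P, hP⟩ : ∃ P : X, (P : MM Γ a) = p := ⟨⟨p, hp⟩, rfl⟩
  have cx : ∀ x : X, ((P * x * P⁻¹ : X) : MM Γ a) = p * x * p⁻¹ := fun x => by simp [hP]
  obtain ⟨θ, t1, t2⟩ := h G θ0 ((MulAut.conj (θ0 P)⁻¹).toMonoidHom.comp ν)
    (fun x q hx => by
      have k1 := (h1 (P * x * P⁻¹) q (by rw [cx]; exact mem_Ep_conj'.1 hx)).map
        (MulAut.conj (θ0 P)⁻¹)
      simpa [mul_assoc] using k1)
    (fun x q hx hn => by
      have k1 := h2 (P * x * P⁻¹) q (by rw [cx]; exact E_exc.inE hx)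
        (by rw [cx]; exact fun m => hn (mem_Ep_conj'.2 m))
      simp only [MonoidHom.comp_apply, MulEquiv.coe_toMonoidHom, MulAut.conj_apply]
      rw [← k1, map_mul, map_mul, map_inv]
      group)
  refine ⟨θ.comp (Subgroup.inclusion E.ge), fun x => t1 x, fun q => ?_⟩
  have e : Subgroup.inclusion E.ge ⟨ipow c (k q),
      (le_sup_right : _ ≤ X ⊔ _) (Subgroup.subset_closure ⟨q, rfl⟩)⟩ =
      ⟨P, (le_sup_left : X ≤ _) P.2⟩ * ⟨ipow (p⁻¹ * c * p) (k q),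
        (le_sup_right : _ ≤ X ⊔ _) (Subgroup.subset_closure ⟨q, rfl⟩)⟩ *
        (⟨P, (le_sup_left : X ≤ _) P.2⟩)⁻¹ := by
    refine Subtype.ext ?_
    change ipow c (k q) = P * ipow (p⁻¹ * c * p) (k q) * (P : MM Γ a)⁻¹
    rw [E_exc.ipow_conj', hP]
    group
  rw [MonoidHom.comp_apply, e, map_mul, map_mul, map_inv, t1, t2]
  simp [mul_assoc]

end Pool.Agent.P.MP_dba3d2_lc


end

section

/-! Step E_ME1 of the stability project. -/

namespace Pool.Agent.P.MP_dba3d2_lc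

open Filter

theorem p_E_ME1 :
    S_E_ME1 := by
  refine ⟨fun q n => ⌊q * n.factorial⌋, fun a => ?_⟩
  have ge : ∀ k, ∀ᶠ n in (U0 : Filter ℕ), k ≤ n := fun k =>
    (eventually_ge_atTop k).filter_mono Nat.hyperfilter_le_atTop
  have fl : ∀ q : ℚ, ∀ᶠ n : ℕ in (U0 : Filter ℕ),
      ((⌊q * n.factorial⌋ : ℤ) : ℚ) = q * n.factorial := fun q => (ge q.den).mono fun n hn => by
    obtain ⟨m, e⟩ := Nat.dvd_factorial q.pos hn
    have : q * n.factorial = (q.num * m : ℤ) := by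
      rw [e]
      push_cast
      rw [← mul_assoc, Rat.mul_den_eq_num]
    rw [this, Int.floor_intCast]
  let k : ℚ →+ (a.pow U0).Z := AddMonoidHom.mk'
    (fun q => a.mk' U0 fun n => ((⌊q * n.factorial⌋ : ℤ) : a.Z)) fun q q' => by
      refine Eq.trans ((mk'_eq_iff U0 _ _).2 ?_) (mk'_map₂ U0 (· + ·) _ _).symm
      filter_upwards [fl q, fl q', fl (q + q')] with n h1 h2 h3
      rw [show ⌊(q + q') * n.factorial⌋ = ⌊q * n.factorial⌋ + ⌊q' * n.factorial⌋ by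
        rw [← Int.cast_inj (α := ℚ), Int.cast_add, h1, h2, h3, add_mul]]
      rfl
  have z : ∀ q, zK (k q) = a.mk' U0 fun n : ℕ => (q : a.K) * (n.factorial : a.K) := fun q => by
    refine (mk'_map U0 (fun n : ℤ => (n : ℝ)) fun n : ℕ => ((⌊q * n.factorial⌋ : ℤ) : a.Z)).trans
      ((mk'_eq_iff U0 _ _).2 ((fl q).mono fun n h => ?_))
    refine (zK_intCast _).trans ?_
    exact_mod_cast congrArg (fun x : ℚ => (x : a.K)) h
  have z1 : zK (k 1) = a.mk' U0 fun n : ℕ => (n.factorial : a.K) := by simp [z]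
  have zq : ∀ q, |zK (k q)| = (|q| : ℚ) * |zK (k 1)| := fun q => by
    rw [z, mk'_mulK, mk'_kh, map_ratCast, ← z1, abs_mul, Rat.cast_abs]
  have big : Big (zK (k 1)) := fun N => by
    rw [z1, ← GT.natCast_mk' U0, mk'_le_iff]
    exact (ge N).mono fun n hn => Nat.cast_le.2 (hn.trans n.self_le_factorial)
  have p := big.pos.le
  refine ⟨k, fun _ => rfl, big, fun q => ?_, fun q hq => ?_, fun x ν h N => ?_⟩
  · refine ⟨⌈|q|⌉₊, ?_⟩
    rw [zq, abs_of_nonneg p]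
    exact mul_le_mul_of_nonneg_right (by exact_mod_cast Nat.le_ceil |q|) p
  · refine ⟨⌈|q|⁻¹⌉₊, ?_⟩
    rw [zq, abs_of_nonneg p, ← mul_assoc]
    refine le_mul_of_one_le_left p ?_
    exact_mod_cast (inv_le_iff_one_le_mul₀ (abs_pos.2 hq)).1 (Nat.le_ceil |q|⁻¹)
  · rw [z1, ← mk'_kh U0 x, ← mk'_mulK, ← GT.nmul_mk', GT.mk'_le_kh]
    exact Eventually.of_forall fun n => by simpa [mul_assoc] using h (N * n.factorial)

end Pool.Agent.P.MP_dba3d2_lc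


end

section

/-! Step E_ME2 of the stability project. -/

namespace Pool.Agent.P.MP_dba3d2_lc

open Filter

theorem E_me2.ls_mul {K : Type} [Field K] [LinearOrder K] [IsStrictOrderedRing K] {x y x' y' : K}
    (h : Ls x y) (h' : Ls x' y') (h0 : 0 ≤ x') (h1 : 0 ≤ y) : Ls (x * x') (y * y') := by
  obtain ⟨n, h⟩ := h
  obtain ⟨m, h'⟩ := h'
  refine ⟨n * m, ?_⟩
  calc x * x' ≤ (n * y) * (m * y') := mul_le_mul h h' h0 (by positivity)
    _ = _ := by push_cast; ring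

open E_me2 in
theorem p_E_ME2 (hE_CHI : S_E_CHI) (hE_SZ : S_E_SZ) :
    S_E_ME2 := by
  intro Γ a b E c k hk hc hcen μ
  have hc' : Prim (E.hom Γ c) := E.prim_iff.2 hc
  have hM : md (E.hom Γ c) = E.kh (md c) := E.md_hom c
  have h1 : 1 ≤ E.kh (md c) := hM ▸ one_le_md' hc'.1
  have hκ := hk.big.pos
  have hκ1 : 1 ≤ zK (k 1) := by simpa using hk.big 1
  have hμ : Big μ := hk.big.of_ls (Ls.of_le (le_mul_of_one_le_right hκ.le h1))
  have hcen' : Ls (ln (E.hom Γ c)) (E.kh (md c)) := hM ▸ (GT.cen_hom E).2 hcen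
  have hll : Ll (E.kh (md c)) μ := fun n =>
    mul_le_mul_of_nonneg_right (hk.big n) (by linarith)
  refine ⟨hμ, (mem_ball hμ.pos.le).2 (hcen'.trans' hll.ls), hM ▸ hll, fun q => ?_, ?_⟩
  · have := ((hE_SZ Γ b _ _ (k q) hc'.1 (ipow_mem_Ep _ (k q))
      (by rw [inv_mul_cancel]; exact IsOfFinOrder.one)).2 1).1
    rw [ds_one_mul, ds_one_mul] at this
    exact (mem_ball hμ.pos.le).2 (Ls.mono_left this (ls_mul (hk.up q) hcen' (ln_nonneg _) hκ.le))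
  rintro _ ⟨⟨f, rfl⟩, hf⟩ hE
  have hf1 : Ls (ln (E.hom Γ f)) μ := (mem_ball hμ.pos.le).1 hf
  have hE0 : f ∈ Ep c := (GT.memEp_hom E).1 hE
  obtain ⟨m, hm⟩ := hc.2 f hE0
  have hm' : IsOfFinOrder ((E.hom Γ f)⁻¹ * ipow (E.hom Γ c) (E.zh m)) := by
    rw [← E.hom_ipow, ← map_inv, ← map_mul]
    exact E.finOrder_iff.2 hm
  have s1 := hE_SZ Γ b _ _ _ hc'.1 hE hm'
  have nb : ¬ Big |zK (E.zh m)| := by
    intro hb
    obtain ⟨n, hn⟩ := (s1.1.mono_right (md_le_ln _)).trans' hf1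
    have l : Ls |zK (E.zh m)| (zK (k 1)) := by
      refine ⟨n, le_of_mul_le_mul_right ?_ (show 0 < E.kh (md c) by linarith)⟩
      rw [hM] at hn
      rw [mul_assoc]
      exact hn
    rw [E.zK_zh, ← E.kh_abs] at hb l
    have g := hk.gap 1 _ (big_iff_ll.1 (E.big_iff.1 hb))
    rw [map_one E.kh, mul_one] at g
    exact g.not_ls hb.pos l
  refine ⟨fun q hq => ?_, fun x hx => ?_⟩
  · obtain ⟨χ, c1, c2, -, -, -, -, -, c3, -⟩ := hE_CHI Γ b _ hc'
    have hE2 := (Ep _).mul_mem hE (ipow_mem_Ep (E.hom Γ c) (k q))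
    have e : χ (E.hom Γ f * ipow (E.hom Γ c) (k q)) = E.zh m + k q := by
      rw [c2 _ hE _ (ipow_mem_Ep _ _), c3, (c1 _ hE _).2 hm']
    have s2 := (hE_SZ Γ b _ _ _ hc'.1 hE2 ((c1 _ hE2 _).1 e)).1
    have l : Ls (zK (k 1)) |zK (E.zh m + k q)| := by
      refine Ls.of_le_add (hk.lo q hq) (hk.big.ll_of_not_big nb) hκ 1 ?_
      rw [Nat.cast_one, one_mul, zK_add]
      have := abs_sub (zK (E.zh m) + zK (k q)) (zK (E.zh m))
      rwa [add_sub_cancel_left] at this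
    rw [hM] at s2
    exact (ls_mul l (Ls.refl' _) (by linarith) (abs_nonneg _)).trans' s2
  · have s2 := (s1.2 x).2
    rw [ds_conj, ds_conj] at s2
    rw [Cen, md_conj, hM] at hx
    obtain ⟨n, hn⟩ := not_big_iff.1 nb
    have l : Ls (|zK (E.zh m)| + 1) 1 := ⟨n + 1, by push_cast; linarith⟩
    have l2 := ls_mul l hx (ln_nonneg _) zero_le_one
    rw [one_mul] at l2
    exact Ll.ls_left (s2.trans' l2) hll

end Pool.Agent.P.MP_dba3d2_lc


end

section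

/-! Step MICE of the stability project. -/

namespace Pool.Agent.P.MP_dba3d2_lc

open Filter

namespace Mice

variable {Γ : HG} {a b : Amb}

theorem ipow_conj' (g c : MM Γ a) (k : a.Z) : ipow (g⁻¹ * c * g) k = g⁻¹ * ipow c k * g := by
  simpa using ipow_conj g⁻¹ c k

theorem md_ipow (hS : S_E_SZ) {c : MM Γ a} (hc : ¬ IsOfFinOrder c) (k : a.Z) :
    md (ipow c k) ≤ |zK k| * md c := by
  obtain ⟨z, hz⟩ := exists_md_ds c
  have h := ((hS Γ a c (ipow c k) k hc (ipow_mem_Ep c k)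
    (by rw [inv_mul_cancel]; exact IsOfFinOrder.one)).2 z).1
  rw [hz] at h
  exact (md_le_ds _ z).trans h

theorem ls_mul {x y z : a.K} (h : Ls x y) (hz : 0 ≤ z) : Ls (x * z) (y * z) := by
  obtain ⟨n, hn⟩ := h
  exact ⟨n, by rw [← mul_assoc]; exact mul_le_mul_of_nonneg_right hn hz⟩

theorem main (hEXTGC : S_EXTGC) (hE_SZ : S_E_SZ) (hE_GE : S_E_GE) (hE_EXC : S_E_EXC)
    (hE_ME2 : S_E_ME2) (hE_LIP : S_E_LIP) (E : Ext a b) (H : Subgroup (MM Γ a)) (c : MM Γ a)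
    (k : ℚ →+ b.Z) (hk : GenK E k) (hH : GC0 H) (hc : c ∈ H) (hp : Prim c)
    (T : Subgroup (MM Γ b))
    (hT : H.map (E.hom Γ) ⊔ Subgroup.closure (Set.range fun q => ipow (E.hom Γ c) (k q)) = T) :
    GC0 T ∧ (FinC H → FinC T) ∧ ExtE (H.map (E.hom Γ)) (E.hom Γ c) k ∧
    (∀ q, q ≠ 0 → ipow (E.hom Γ c) (k q) ∉ H.map (E.hom Γ)) ∧
    (∀ q (ν : a.K), Ll (md c) ν → Ll (md (ipow (E.hom Γ c) (k q))) (E.kh ν)) ∧
    (∀ g ∈ T, Big (ln g) → ∃ h ∈ H, Sim (ln g) (E.kh (ln h)) ∨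
      Ls (ln g) (zK (k 1) * E.kh (md c))) ∧
    ∀ ρ : T →* MM Γ a, (∀ (t : T) (h : MM Γ a), (t : MM Γ b) = E.hom Γ h → ρ t = h) →
      (∀ (t : T) q, (t : MM Γ b) = ipow (E.hom Γ c) (k q) → ρ t = 1) → ∀ n, Retr E T ρ n := by
  obtain ⟨p, hpH, -, hcen⟩ := hH.cen1 hc hp.1
  have hp0 : Prim (p⁻¹ * c * p) := hp.conj' p
  obtain ⟨hμ, hb, hmd, hq, hf⟩ := hE_ME2 Γ a b E (p⁻¹ * c * p) k hk hp0 hcen
  rw [md_conj] at hμ hb hmd hq hf
  have hX : GC0 (H.map (E.hom Γ)) := (hEXTGC Γ a b E H).1 hH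
  have hXr : H.map (E.hom Γ) ≤ (E.hom Γ).range := Subgroup.map_le_range _ _
  have hpX : E.hom Γ p ∈ H.map (E.hom Γ) := ⟨p, hpH, rfl⟩
  have hc0 : E.hom Γ (p⁻¹ * c * p) ∈ H.map (E.hom Γ) :=
    ⟨_, H.mul_mem (H.mul_mem (H.inv_mem hpH) hc) hpH, rfl⟩
  have e0 : E.hom Γ (p⁻¹ * c * p) = (E.hom Γ p)⁻¹ * E.hom Γ c * E.hom Γ p := by
    rw [map_mul, map_mul, map_inv]
  obtain ⟨g1, g2, g3, g4, g5, g6, g7⟩ := hE_GE Γ b _ (H.map (E.hom Γ)) (E.hom Γ (p⁻¹ * c * p)) k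
    hμ hX ⟨hc0, hb⟩ (E.prim_iff.2 hp0) hmd hq
    (fun q hq0 f hf' hfE => (hf f ⟨hXr hf'.1, hf'.2⟩ hfE).1 q hq0)
  obtain ⟨x1, x2⟩ := hE_EXC Γ b (H.map (E.hom Γ)) (E.hom Γ c) (E.hom Γ p) k hpX
  rw [← e0] at x1 x2
  have hT0 := x1.trans hT
  have lX : H.map (E.hom Γ) ≤ T := hT ▸ le_sup_left
  have lC : ∀ q, ipow (E.hom Γ c) (k q) ∈ T := fun q =>
    hT ▸ (le_sup_right : _ ≤ H.map (E.hom Γ) ⊔ _) (Subgroup.subset_closure ⟨q, rfl⟩)
  have lC0 : Subgroup.closure (Set.range fun q => ipow (E.hom Γ (p⁻¹ * c * p)) (k q)) ≤ T :=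
    hT0 ▸ le_sup_right
  have es : ∀ q, ipow (E.hom Γ (p⁻¹ * c * p)) (k q) =
      (E.hom Γ p)⁻¹ * ipow (E.hom Γ c) (k q) * E.hom Γ p := fun q => by rw [e0, ipow_conj']
  rw [hT0] at g1 g2 g3 g5 g7
  refine ⟨g1, fun fH => ?_, x2 g4, fun q hq0 hm => ?_, fun q ν hν => ?_, fun g hg hB => ?_,
    fun ρ hρ hρ1 => ?_⟩
  · have fX := ((hEXTGC Γ a b E H).2 ⟨hH, fH⟩).finc
    exact ET.finC_of_finRed g2 lX lX fX fX
  · have hs : ipow (E.hom Γ (p⁻¹ * c * p)) (k q) ∈ H.map (E.hom Γ) := by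
      rw [es]
      exact Subgroup.mul_mem _ (Subgroup.mul_mem _ (Subgroup.inv_mem _ hpX) hm) hpX
    have := (hf _ (Subgroup.inv_mem _ ⟨hXr hs, hq q⟩)
      (Subgroup.inv_mem _ (ipow_mem_Ep _ (k q)))).1 q hq0
    rw [inv_mul_cancel] at this
    have h1 := this.pos hμ.pos
    have h2 := md_le_ln (1 : MM Γ b)
    rw [ln_eq_zero.2 rfl] at h2
    exact absurd h1 (not_lt.2 h2)
  · have h1 := md_ipow hE_SZ (E.prim_iff.2 hp).1 (k q)
    rw [E.md_hom] at h1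
    exact Ll.mono_left h1 (Ll.ls_left
      (ls_mul (hk.up q) ((GT.kh_nonneg E).2 (md_nonneg c))) (hk.gap _ _ hν))
  · obtain ⟨_, ⟨h, hh, rfl⟩, h2⟩ := g7 g hg hB
    rw [E.ln_hom] at h2
    exact ⟨h, hh, h2⟩
  · obtain ⟨l1, l2⟩ := hE_LIP Γ a b E T ρ
    obtain ⟨l3, l4⟩ := l2 H lX fun t h _ e => hρ t h e
    have r0 : ∀ (t : T) q, (t : MM Γ b) = ipow (E.hom Γ (p⁻¹ * c * p)) (k q) → ρ t = 1 := by
      intro t q e
      have : t = (⟨_, lX hpX⟩ : T)⁻¹ * ⟨_, lC q⟩ * ⟨_, lX hpX⟩ := Subtype.ext (e.trans (es q))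
      rw [this, map_mul, map_mul, hρ1 ⟨_, lC q⟩ q rfl, mul_one, map_inv, inv_mul_cancel]
    refine l4 g2 g3 (l1 T _ g5 ?_ ?_ · (Subtype.property _))
    · rintro g (hg | hg)
      · exact lX hg
      · exact sup_le (inf_le_left.trans lX) lC0 hg
    · rintro t (ht | ht)
      · exact l3 t ht
      refine l1 _ _ g6 ?_ ?_ t ht
      · rintro g (hg | ⟨x, hx, f, hf', -, -, q, rfl⟩)
        · exact lX hg.1
        · exact T.mul_mem (T.mul_mem (T.inv_mem (lX hx.1)) (T.mul_mem (lX hf'.1)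
            (lC0 (Subgroup.subset_closure ⟨q, rfl⟩)))) (lX hx.1)
      · rintro s (hs | ⟨x, hx, f, hf', hfE, hxc, q, es'⟩)
        · exact l3 s hs.1
        have hm : x⁻¹ * f * x ∈ H.map (E.hom Γ) :=
          Subgroup.mul_mem _ (Subgroup.mul_mem _ (Subgroup.inv_mem _ hx.1) hf'.1) hx.1
        by_cases hq0 : q = 0
        · refine l3 s ?_
          rw [es', hq0, map_zero, ipow_zero, mul_one]
          exact hm
        obtain ⟨f1, f2⟩ := hf f ⟨hXr hf'.1, hf'.2⟩ hfE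
        have h1 : Ls (zK (k 1) * E.kh (md c)) (ln (s : MM Γ b)) := by
          rw [es']
          exact (f1 q hq0).mono_right (md_le _ x)
        obtain ⟨h, -, eh⟩ := id hm
        have hs0 := lC0 (Subgroup.subset_closure ⟨q, rfl⟩)
        have h2 : ρ s = h := by
          have : s = ⟨_, lX hm⟩ * ((⟨x, lX hx.1⟩ : T)⁻¹ * ⟨_, hs0⟩ * ⟨x, lX hx.1⟩) := by
            refine Subtype.ext (es'.trans ?_)
            simp [mul_assoc]
          rw [this, map_mul, map_mul, map_mul, r0 ⟨_, hs0⟩ q rfl, mul_one, map_inv,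
            inv_mul_cancel, mul_one]
          exact hρ _ h eh.symm
        have h3 := (f2 x hxc).ls_right h1 (ln_nonneg _)
        rw [← eh, E.ln_hom, ← h2] at h3
        exact ⟨fun _ => Ll.mono_left (by linarith [ln_nonneg (s : MM Γ b)]) h3,
          fun hn => (hn (hμ.of_ls h1)).elim⟩

end Mice

theorem p_MICE (hEXTGC : S_EXTGC) (hE_SZ : S_E_SZ) (hE_GE : S_E_GE) (hE_EXC : S_E_EXC) (hE_ME1 : S_E_ME1) (hE_ME2 : S_E_ME2) (hE_LIP : S_E_LIP) :
    S_MICE := by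
  intro Γ a H c hH hc hp
  obtain ⟨κ, hκ⟩ := hE_ME1
  obtain ⟨k, h1, hk⟩ := hκ a
  exact ⟨κ, k, h1, Mice.main hEXTGC hE_SZ hE_GE hE_EXC hE_ME2 hE_LIP (a.dg U0) H c k hk hH hc hp _
    rfl⟩

end Pool.Agent.P.MP_dba3d2_lc


end

section

/-! Step E_GEO of the stability project. -/

namespace Pool.Agent.P.MP_dba3d2_lc

open Filter

namespace EgeoA

variable {Γ : HG} {a : Amb}

theorem lower (w : MM Γ a) : ln (w * w) - ln w ≤ md w + 2 * (Γ.δ : a.K) := by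
  obtain ⟨q, hq⟩ := exists_md_ds w
  have h := ds_four 1 (w * w) w (w * q)
  have e1 : ds w (w * q) = ds 1 q := by rw [ds_mul_right, ds_one_left]
  have e2 : ds (w * w) w = ln w := by rw [ds_comm, ds_mul_right]
  have e3 := ds_tri w (w * q) q
  have e4 := ds_tri 1 q (w * q)
  have e5 := ds_comm (w * q) q
  rw [ds_mul_left w w q, ds_one_left (w * w), ds_one_left w] at h
  rcases max_choice (ln w + ds w q) (ds 1 (w * q) + ds (w * w) w) with e | e <;> rw [e] at h <;>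
    linarith

theorem upper (w : MM Γ a) : md w ≤ max (ln (w * w) - ln w) 0 + (2 + 2 * (2 * (Γ.δ : a.K))) := by
  obtain ⟨m, a1, a2, a3⟩ := exists_mid 1 w
  have h0 := md_le_ds w m
  have h1 := ds_four m (w * m) 1 w
  have h2 := ds_four 1 (w * m) w (w * w)
  have e1 : ds (w * m) w = ds 1 m := by rw [ds_comm, ds_mul_right, ds_one_left]
  have e2 : ds w (w * w) = ds 1 w := by rw [ds_mul_right, ds_one_left]
  have e3 := ds_comm m 1
  have e4 := ds_comm (w * m) 1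
  have e5 := ds_mul_left w m w
  have e6 := ds_one_left w
  have e7 := ds_one_left (w * w)
  have k1 := le_max_left (ln (w * w) - ln w) 0
  have k2 := le_max_right (ln (w * w) - ln w) 0
  have d0 : (0 : a.K) ≤ Γ.δ := Nat.cast_nonneg _
  rcases max_choice (ds m 1 + ds (w * m) w) (ds m w + ds (w * m) 1) with e | e <;> rw [e] at h1
  · linarith
  · rcases max_choice (ds 1 w + ds (w * m) (w * w)) (ds 1 (w * w) + ds (w * m) w) with e | e <;>
      rw [e] at h2 <;> linarith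

end EgeoA

open EgeoA FixA

theorem p_E_GEO :
    S_E_GEO := by
  intro Γ a μ hμ
  have k := (hμ.ll_delta Γ).two
  have t := ll_two hμ
  have h0 := hμ.pos.le
  refine ⟨fun w => Ll.abs (Ll.mono_left ?_ (t.add k.two)) (Ll.mono_left ?_ k),
    fun c c' hc hc' hcc => ?_⟩
  · linarith [upper w]
  · have d0 : (0 : a.K) ≤ Γ.δ := Nat.cast_nonneg _
    have := lower w
    have := md_nonneg w
    rcases max_choice (ln (w * w) - ln w) 0 with e | e <;> rw [e] <;> linarith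
  · obtain ⟨z, hz⟩ := exists_md_ds (c * c')
    obtain ⟨q, hq⟩ := exists_md_ds c⁻¹
    obtain ⟨q', hq'⟩ := exists_md_ds c'
    obtain ⟨m, a1, a2, a3⟩ := exists_mid z (c' * z)
    have n : Ll (ds (c' * z) (c⁻¹ * z)) μ := by
      rwa [← ds_mul_left c, mul_inv_cancel_left, ← mul_assoc, ds_comm, hz]
    have o := On.of_eq h0 a1
    have f1 := (fix_mid hμ (hq' ▸ hc') o (Ll.of_nonpos (by linarith) h0)
      (Ll.mono_left (by linarith) t)).1
    have e1 := ds_tri z (c' * z) (c⁻¹ * z)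
    have e2 := ds_tri z (c⁻¹ * z) (c' * z)
    have e3 := ds_comm (c⁻¹ * z) (c' * z)
    have f2 := (fix_mid hμ (show Ll (ds q (c⁻¹ * q)) μ by rwa [hq, md_inv])
      (o.congr (ll_self h0 _) (ll_self h0 _) n) (Ll.mono_left (by linarith) n)
      (Ll.mono_left (by linarith) (t.add n))).1
    exact ⟨m, by rwa [disp_inv] at f2, f1⟩

end Pool.Agent.P.MP_dba3d2_lc


end

section

/-! Step E_LIM of the stability project. -/

namespace Pool.Agent.P.MP_dba3d2_lc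

open Filter

namespace E_lim

theorem num {b : Amb} {x y Λ : b.K} {n N M : ℕ} (h : ¬ Big (n * x - (n + 1) * y)) (hΛ : Big Λ)
    (hy : y ≤ M * Λ) (hn : N * (M + 1) ≤ n) : N * (x - y) ≤ Λ := by
  unfold Big at h
  push Not at h
  obtain ⟨C, hC⟩ := h
  have h1 := hΛ C
  have h0 := hΛ.pos
  rcases le_total (x - y) 0 with k | k
  · exact (mul_nonpos_of_nonneg_of_nonpos (Nat.cast_nonneg N) k).trans h0.le
  · have h2 : (N : b.K) * (M + 1) ≤ n := by exact_mod_cast hn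
    have h3 := mul_le_mul_of_nonneg_right h2 k
    have h4 : (0 : b.K) < M + 1 := by positivity
    refine le_of_mul_le_mul_left ?_ h4
    linarith

end E_lim

open E_lim ET in
theorem p_E_LIM (hEXTGC : S_EXTGC) :
    S_E_LIM := by
  intro Γ a b E S D J U A n T ι ρ hS hA hn hAd
  obtain ⟨R, hR⟩ := exists_UR U T ρ
  let θ : S.map ((a.dg U).hom Γ) →* MM Γ (b.pow U) := MonoidHom.mk'
    (fun s => b.mk' U fun j => (ι j (Einv (a.dg U) S s) : MM Γ b)) fun s s' => by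
      rw [← mk'_mul, mk'_eq_iff]
      filter_upwards [hA _ (Einv_mem _ S s), hA _ (Einv_mem _ S s'), hA _ (Einv_mem _ S (s * s'))]
        with j h1 h2 h3
      rw [map_mul] at h3 ⊢
      rw [(hAd j).mul _ h1 _ h2 h3]
      rfl
  have hθ : ∀ s, θ s = b.mk' U fun j => (ι j (Einv (a.dg U) S s) : MM Γ b) := fun _ => rfl
  have sc : ∀ s : S.map ((a.dg U).hom Γ), (E.pow U).kh (ln (s : MM Γ (a.pow U))) =
      (b.dg U).kh (E.kh (ln (Einv (a.dg U) S s))) := fun s => by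
    rw [← pow_dg_kh, ← (a.dg U).ln_hom, hom_Einv]
  have bg : ∀ s : S.map ((a.dg U).hom Γ), Big (ln (s : MM Γ (a.pow U))) →
      Big (E.kh (ln (Einv (a.dg U) S s))) := fun s h => by
    rw [← hom_Einv (a.dg U) S s, Ext.ln_hom, Ext.big_iff] at h
    exact E.big_iff.2 h
  refine ⟨θ, R, hR, ⟨(hEXTGC Γ a _ (a.dg U) S).2 hS,
    fun s => mk'_mem_UT U fun j => ι j (Einv (a.dg U) S s), fun s t e => ?_,
    fun s x e => ?_, fun s h => ?_, fun s h t ht => ?_, fun t h1 h2 => ?_⟩, fun s _ s' e => ?_⟩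
  · rw [hR (fun j => ι j (Einv (a.dg U) S s)) t e, ← hom_Einv (a.dg U) S s, ← mk'_hom, mk'_eq_iff]
    filter_upwards [hA _ (Einv_mem _ S s)] with j hj using (hAd j).sec _ hj
  · have e' : Einv (a.dg U) S s = cst Γ a x := Einv_eq _ S s e
    rw [hθ, ← (b.dg U).hom_cst, ← mk'_hom, mk'_eq_iff]
    filter_upwards [hA _ (Einv_mem _ S s)] with j hj
    rw [(hAd j).fix _ hj (Or.inr ⟨x, e'.symm⟩), e', E.hom_cst]
  · have e : ln (θ s) - (b.dg U).kh (E.kh (ln (Einv (a.dg U) S s))) =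
        b.mk' U fun j => ln (ι j (Einv (a.dg U) S s) : MM Γ b) - E.kh (ln (Einv (a.dg U) S s)) := by
      rw [mk'_sub, mk'_kh, hθ, ln_mk']
    rw [sc, e, ll_mk'_iff]
    intro N
    filter_upwards [hA _ (Einv_mem _ S s), hn.eventually (eventually_ge_atTop (N * (1 + 1)))]
      with j h1 h2
    exact num ((hAd j).ni _ h1) (bg s h) (by simp) h2
  · obtain ⟨u, hu⟩ := UT_rep U t.2
    have e : (E.pow U).kh (ln (R t)) - ln (t : MM Γ (b.pow U)) =
        b.mk' U fun j => E.kh (ln (ρ j (u j))) - ln (u j : MM Γ b) := by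
      rw [mk'_sub, hR u t hu, hu, ln_mk', ln_mk', pow_kh_mk']
    rw [sc, hu, ln_mk', GT.ls_mk'_kh] at ht
    obtain ⟨M, hM⟩ := ht
    rw [sc, e, ll_mk'_iff]
    intro N
    filter_upwards [hM, hn.eventually (eventually_ge_atTop (N * (M + 1)))] with j h1 h2
    exact num ((hAd j).retr.lip (u j)) (bg s h) h1 h2
  · obtain ⟨u, hu⟩ := UT_rep U t.2
    rw [← finOrder_coe, hu, finOrder_mk'] at h1
    rw [hR u t hu, ← map_one ((a.dg U).hom Γ), ← mk'_hom, mk'_eq_iff] at h2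
    refine Subtype.ext ?_
    rw [hu, Subgroup.coe_one, ← map_one ((b.dg U).hom Γ), ← mk'_hom, mk'_eq_iff]
    filter_upwards [h1, h2] with j k1 k2
    rw [(hAd j).retr.tor _ ((finOrder_coe _).1 k1) k2, Subgroup.coe_one]
  · rw [hθ, Einv_eq _ S s' e]

end Pool.Agent.P.MP_dba3d2_lc


end

section

/-! Step E_G2U of the stability project. -/

namespace Pool.Agent.P.MP_dba3d2_lc

open Filter

namespace E_g2u

variable {Γ : HG} {b : Amb} {J : Type} (U : Ultrafilter J)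

theorem exact_mk' (x m y : J → MM Γ b)
    (h : ds (a := b.pow U) (b.mk' U x) (b.mk' U m) + ds (a := b.pow U) (b.mk' U m) (b.mk' U y) =
      ds (a := b.pow U) (b.mk' U x) (b.mk' U y)) :
    ∀ᶠ j in (U : Filter J), ds (x j) (m j) + ds (m j) (y j) = ds (x j) (y j) := by
  rw [ds_mk', ds_mk', ds_mk', ← mk'_add, mk'_eq_iff] at h
  exact h

theorem fin_mk' (x y : J → MM Γ b) (h : ¬ Big (ds (a := b.pow U) (b.mk' U x) (b.mk' U y))) :
    ∀ᶠ j in (U : Filter J), ¬ Big (ds (x j) (y j)) := by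
  obtain ⟨n, hn⟩ := not_big_iff.1 h
  have k := hn.le
  rw [ds_mk', ← GT.natCast_mk', mk'_le_iff] at k
  filter_upwards [k] with j hj
  exact not_big_iff.2 ⟨n + 1, by push_cast; linarith⟩

theorem per_mk' {Λ : b.K} (x y : J → MM Γ b) (h : ∀ᶠ j in (U : Filter J), Per Λ (x j) (y j)) :
    Per (a := b.pow U) ((b.dg U).kh Λ) (b.mk' U x) (b.mk' U y) := by
  obtain ⟨d, hd⟩ := h.choice
  refine ⟨b.mk' U d, ?_, ?_, ?_⟩
  · rw [finOrder_mk', ← Ultrafilter.eventually_not]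
    exact hd.mono fun j hj => hj.1
  · rw [← mk'_mul, ds_mk']
    exact ET.ll_mk'_kh U (hd.mono fun j hj => hj.2.1)
  · rw [← mk'_mul, ds_mk']
    exact ET.ll_mk'_kh U (hd.mono fun j hj => hj.2.2)

theorem one_mk' : (1 : MM Γ (b.pow U)) = b.mk' U fun _ => (1 : MM Γ b) :=
  ((mk'_hom U 1).trans (map_one _)).symm

end E_g2u

open E_g2u FixA in
theorem p_E_G2U (hELEM : S_ELEM) (hLINE : S_LINE) (hPERC : S_PERC) :
    S_E_G2U := by
  intro Γ b J U T Λ hT hΛ h hh h' hh' l1 l2 g p q ho hp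
  have hμ : Big ((b.dg U).kh Λ) := (b.dg U).big_iff.2 hΛ
  obtain ⟨r, s, a1, a2, a3, a4, a5, a6, a7, a8⟩ := inner_nper hELEM hLINE hPERC hμ ho.1 hp
  obtain ⟨n0, o1, o2, o3, o4⟩ := ho
  obtain ⟨m1, m1', e1, e1', f1, c1, -, -⟩ :=
    Ov.fin hμ ⟨a5, o1, On.conv hμ o1 o2 a1, o3, On.conv hμ o3 o4 a1⟩
  obtain ⟨m2, m2', e2, e2', f2, c2, -, -⟩ :=
    Ov.fin hμ ⟨a7, On.conv hμ o1 o2 a2, o2, On.conv hμ o3 o4 a2, o4⟩
  obtain ⟨k1, k2⟩ := On.glue hμ (On.sub a3 c1).2 (On.sub' a4 c2).2 a6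
  have np : ¬ Per ((b.dg U).kh Λ) m1 m2 := fun e => a8 (e.sub hμ k1 k2)
  have nd := On.nondeg hμ k1 k2 a6
  obtain ⟨t, ht, rfl⟩ := hh
  obtain ⟨t', ht', rfl⟩ := hh'
  obtain ⟨g, rfl⟩ := mk'_surjective U g
  obtain ⟨m1, rfl⟩ := mk'_surjective U m1
  obtain ⟨m1', rfl⟩ := mk'_surjective U m1'
  obtain ⟨m2, rfl⟩ := mk'_surjective U m2
  obtain ⟨m2', rfl⟩ := mk'_surjective U m2'
  rw [one_mk'] at e1 e2
  rw [← mk'_mul] at e1' e2'
  rw [ln_mk', GT.ls_mk'_kh] at l1 l2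
  rw [ds_mk', ET.kh_ls_mk'] at nd
  obtain ⟨n1, l1⟩ := l1
  obtain ⟨n2, l2⟩ := l2
  obtain ⟨n3, nd⟩ := nd
  have np' := Ultrafilter.eventually_not.2 (mt (per_mk' U m1 m2) np)
  refine ET.mem_UT U ?_
  filter_upwards [exact_mk' U _ _ _ e1, exact_mk' U _ _ _ e1', exact_mk' U _ _ _ e2,
    exact_mk' U _ _ _ e2', fin_mk' U _ _ f1, fin_mk' U _ _ f2, l1, l2, nd, np']
    with j x1 x1' x2 x2' y1 y2 z1 z2 z3 z4
  have h0 := hΛ.pos.le
  refine (hT j).g2 Λ hΛ _ (ht j) _ (ht' j) ⟨n1, z1⟩ ⟨n2, z2⟩ _ (m1 j) (m2 j)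
    ⟨⟨n3, z3⟩, On.of_eq h0 x1, On.of_eq h0 x2, ?_, ?_⟩ z4
  · exact (On.of_eq h0 x1').congr (ll_comm (hΛ.ll_of_not_big y1)) (ll_self h0 _) (ll_self h0 _)
  · exact (On.of_eq h0 x2').congr (ll_comm (hΛ.ll_of_not_big y2)) (ll_self h0 _) (ll_self h0 _)

end Pool.Agent.P.MP_dba3d2_lc


end

section

/-! Step E_PJ1 of the stability project. -/

namespace Pool.Agent.P.MP_dba3d2_lc

open Filter

namespace E_pj1

variable {Γ : HG} {a : Amb} {μ D : a.K} {d f h p q r s : MM Γ a}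

theorem pt (hμ : Big μ) (hd : Ll (md d) μ) (h1 : ds p (d * p) ≤ D) (h2 : ds q (d * q) ≤ D)
    (h3 : 20 * D ≤ ds p q) : ∃ r, On μ r p q ∧ Ll (ds r (d * r)) μ ∧ ds p r ≤ D := by
  have h0 : 0 ≤ D := (ds_nonneg _ _).trans h1
  obtain ⟨m, -, a1, -, a2, -⟩ := exists_proj hμ hd p
  obtain ⟨m', -, b1, -, b2, -⟩ := exists_proj hμ hd q
  obtain ⟨r, c1, c2, c3, c4⟩ := exists_on hμ p q D h0 (by linarith)
  exact ⟨r, c1, fix_conv hμ a2 b2 (c1.shift hμ (hμ.ll_one.mono_left (by linarith))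
    (hμ.ll_one.mono_left (by linarith))), c2⟩

theorem key (hμ : Big μ) (hn : Ls μ (ds r s)) (h1 : On μ r 1 s) (h2 : On μ s r h)
    (hd : Stab μ r s d) (hf : Stab μ r s f)
    (h3 : Ll (2 * ds f h - (ln d + ln (h⁻¹ * d * h))) μ) : False := by
  have a1 : On μ r f s := (h1.mul f).congr (FixA.ll_comm hf.1)
    (by rw [mul_one]; exact FixA.ll_self hμ.pos.le f) (FixA.ll_comm hf.2)
  have a2 := (a1.glue hμ h2 hn).1
  have a3 := disp_le d 1 r
  have a4 := disp_le d h s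
  have a5 := ds_mul_left f 1 r
  rw [mul_one] at a5
  rw [ds_one_mul] at a3
  rw [ds_conj] at a4
  refine Ll.not_ls (Ll.half (((((h3.add (Ll.two a2)).add (Ll.two h2)).add hf.1.two).add hd.1).add
    hd.2 |>.mono_left ?_)) hμ.pos hn
  linarith [ds_tri f r (f * r), ds_comm h s]

end E_pj1

open E_pj1

theorem p_E_PJ1 (hELEM : S_ELEM) (hLINE : S_LINE) (hPERC : S_PERC) (hROOT : S_ROOT) :
    S_E_PJ1 := by
  intro Γ a b E T ρ n l D h p q d hT hR hl hh hls hp hq hn h1 h2 h3 hd hm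
  have hμ : Big (E.kh l) := E.big_iff.2 hl
  obtain ⟨r, r1, r2, r3⟩ := pt hμ hm h1 h2 h3
  obtain ⟨s, s1, s2, s3⟩ := pt hμ hm h2 h1 (by rwa [ds_comm])
  have hr := hp.conv hμ hq r1
  have hs := hq.conv hμ hp s1
  have hn' : Ls (E.kh l) (ds r s) := hn.of_le_add (Ll.zero hμ.pos.le) hμ.pos 2 (by
    rw [Nat.cast_two]
    linarith [ds_tri p r q, ds_tri r s q, ds_comm q s, ds_nonneg r s])
  have hst : Stab (E.kh l) r s d := ⟨r2, s2⟩
  obtain ⟨c, c1, c2, c3⟩ := hT.g20 _ hμ h hh hls r s hn' hr hs ⟨d, hd.1, hst⟩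
  have hdT : d ∈ T := (hROOT Γ b T hT).2.2.2.1 c c1 c2.1 d hd
    (Ep_eq_of_stab hELEM hPERC hμ hn' hd.1 c2.1 hst c3)
  have hld : Ls (ln d) (E.kh l) :=
    ((hr.ls_left (by rwa [ds_one_left])).two.add r2.ls).mono_left
      (by rw [← ds_one_mul]; exact disp_le d 1 r)
  obtain ⟨f, f1, f2, f3⟩ := hT.ex _ hμ h hh hls d hdT hd hld hm
  have hf : Ls (E.kh l) (md f) := (ll_or_ls hμ.pos _).resolve_left fun e => by
    have hsf : Stab (E.kh l) r s f :=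
      ⟨fix_of_fix hELEM hLINE hd.1 f2 r2 e, fix_of_fix hELEM hLINE hd.1 f2 s2 e⟩
    rcases hr.total hμ hs with e | e
    · exact key hμ hn' e.1 e.2 hst hsf f3
    · exact key hμ (by rwa [ds_comm]) e.1 e.2 hst.symm hsf.symm f3
  exact ⟨⟨d, hdT⟩, rfl, hR.per ⟨d, hdT⟩ ⟨f, f1⟩ hd f2 (hm.ls_right hf (md_nonneg f))
    ⟨l, hl, hm, hf⟩⟩

end Pool.Agent.P.MP_dba3d2_lc


end
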