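import Pool.Agent.P.MP_dba3d2_lcM.Ab05
import Pool.Agent.P.MP_dba3d2_lcM.Bb10
import Pool.Agent.P.MP_dba3d2_lcM.Eb26
import Pool.Agent.P.MP_dba3d2_lcM.Eb29

section

/-! Step E_PJ2 of the stability project. -/

namespace Pool.Agent.P.MP_dba3d2_lc

open Filter

theorem p_E_PJ2 (hELEM : S_ELEM) (hLINE : S_LINE) (hPERC : S_PERC) :
    S_E_PJ2 := by
  intro Γ b T Λ D h p q d hT hΛ hh l hp hq dp dq hl hd hm
  have m : md d ≤ D := (md_le_ds d p).trans dp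
  have s : Ls Λ D := hm.mono_right m
  have hD : Big D := hΛ.of_ls s
  have h0 := hD.pos
  have hp' : On D p 1 h := Ll.ls_right hp s h0.le
  have hq' : On D q 1 h := Ll.ls_right hq s h0.le
  have ld : Ls D (md d) := by
    have a1 : Ls (ds 1 p) Λ := by
      simpa using hp.le_left.ls.add (show Ls (ds 1 h) Λ by simpa using l)
    have a2 : Ls (ds 1 q) Λ := by
      simpa using hq.le_left.ls.add (show Ls (ds 1 h) Λ by simpa using l)
    refine Ls.trans' (Ls.mono_left ?_ (a1.add a2)) hm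
    linarith [ds_tri p 1 q, ds_comm p 1]
  obtain ⟨r, t, o, e⟩ := exists_ov hD dp dq (T := 7 * D) (by linarith) (by linarith)
  refine hT.g2 D hD h hh h hh (l.trans' s) (l.trans' s) d r t ⟨o.1, hp'.conv hD hq' o.2.1,
    hp'.conv hD hq' o.2.2.1, ?_, ?_⟩ ?_
  · simpa using (hp'.mul d).conv hD (hq'.mul d) o.2.2.2.1
  · simpa using (hp'.mul d).conv hD (hq'.mul d) o.2.2.2.2
  · rintro ⟨d', k1, k2⟩
    have k := long_per hELEM hPERC hD hd.1 dp dq o.2.1 o.2.2.1 (by linarith) k1 k2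
    exact (Ll.ls_left (hd.md_ls hELEM hLINE k1 k.symm) k2.md).not_ls h0 ld

end Pool.Agent.P.MP_dba3d2_lc


end

section

/-! Step E_PU of the stability project. -/

namespace Pool.Agent.P.MP_dba3d2_lc

open Filter

namespace Epu

variable {Γ : HG} {a : Amb}

/-- a point of a segment at scale `μ` is close to an exact point of the segment -/
theorem exact_pt {μ : a.K} (hμ : Big μ) {p h : MM Γ a} (hp : On μ p 1 h) :
    ∃ P, ds 1 P + ds P h = ds 1 h ∧ Ll (ds p P) μ := by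
  obtain ⟨P, h1, h2, h3, h4⟩ := exists_on hμ 1 h (min (ds 1 p) (ds 1 h))
    (le_min (ds_nonneg _ _) (ds_nonneg _ _)) (min_le_right _ _)
  refine ⟨P, h4, hp.close hμ h1 ?_ ?_⟩
  · rcases min_choice (ds 1 p) (ds 1 h) with e | e <;> rw [e] at h3
    · exact Ll.mono_left (by linarith) hμ.ll_one
    · exact Ll.mono_left (by linarith) (hp.le_left.add hμ.ll_one)
  · exact Ll.of_nonpos (by linarith [min_le_left (ds 1 p) (ds 1 h)]) hμ.pos.le

/-- an exponent of bounded size is a standard integer -/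
theorem int_of_ls {k : a.Z} {m Λ : a.K} (hm : 0 < m) (h1 : Ls (|zK k| * m) Λ) (h2 : Ls Λ m) :
    ∃ n : ℤ, k = (n : a.Z) := by
  obtain ⟨N, hN⟩ := h1.trans' h2
  exact exists_int_of_not_big
    (not_big_of_ls (Ls.of_le (le_of_mul_le_mul_right hN hm)) (not_big_nat N))

end Epu

theorem p_E_PU (hE_PJ1 : S_E_PJ1) (hE_PJ2 : S_E_PJ2) :
    S_E_PU := by
  intro Γ a b E J U T ρ n R l hT hR hU hl μ h hh p q d h1 h2 hp hq hd hs
  have hΛ : Big (E.kh l) := E.big_iff.2 hl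
  have hμ : Big μ := (b.dg U).big_iff.2 hΛ
  obtain ⟨P, eP, cP⟩ := Epu.exact_pt hμ hp
  obtain ⟨Q, eQ, cQ⟩ := Epu.exact_pt hμ hq
  have hs' := hs.congr cP cQ
  have h2' : Ls μ (ds P Q) := by
    refine Ls.of_le_add h2 (cP.add cQ) hμ.pos 1 ?_
    have k1 := ds_tri p P q
    have k2 := ds_tri P Q q
    rw [ds_comm Q q] at k2
    push_cast
    linarith
  have h20 := ((hs'.1.add hs'.2).lt_of_ls h2' hμ.pos 20).le
  obtain ⟨h, rfl⟩ := ET.UT_rep U hh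
  obtain ⟨P, rfl⟩ := mk'_surjective U P
  obtain ⟨Q, rfl⟩ := mk'_surjective U Q
  obtain ⟨d, rfl⟩ := mk'_surjective U d
  have e1 : (1 : MM Γ (b.pow U)) = b.mk' U fun _ => (1 : MM Γ b) :=
    ((mk'_hom U 1).trans (map_one _)).symm
  rw [e1, ds_mk', ds_mk', ds_mk', ← mk'_add, mk'_eq_iff] at eP eQ
  rw [← mk'_mul, ← mk'_mul, ds_mk', ds_mk', ds_mk', ← mk'_add, ← GT.nmul_mk', mk'_le_iff] at h20
  rw [ln_mk'] at h1
  obtain ⟨n1, h1⟩ := (GT.ls_mk'_kh U _ _).1 h1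
  rw [ds_mk'] at h2'
  obtain ⟨n2, h2'⟩ := (ET.kh_ls_mk' U).1 h2'
  rw [prim_mk'] at hd
  have ex : ∀ j, ∃ t : T j, d j ∈ T j → (t : MM Γ b) = d j := fun j => by
    by_cases k : d j ∈ T j
    exacts [⟨⟨_, k⟩, fun _ => rfl⟩, ⟨1, fun k' => (k k').elim⟩]
  choose t ht using ex
  have hRt := hU t ⟨_, ET.mk'_mem_UT U t⟩ rfl
  refine ⟨⟨_, ET.mk'_mem_UT U t⟩, ?_⟩
  rcases U.em fun j => Ll (md (d j)) (E.kh l) with c | c
  · have k : ∀ᶠ j in (U : Filter J), (t j : MM Γ b) = d j ∧ ¬ IsOfFinOrder (ρ j (t j)) := by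
      filter_upwards [eP, eQ, h20, h1, h2', hd, c] with j a1 a2 a3 a4 a5 a6 a7
      obtain ⟨s, s1, s2⟩ := hE_PJ1 Γ a b E (T j) (ρ j) (n j) l _ (h j) (P j) (Q j) (d j) (hT j)
        (hR j) hl (h j).2 ⟨n1, a4⟩ (On.of_eq hΛ.pos.le a1) (On.of_eq hΛ.pos.le a2) ⟨n2, a5⟩
        (le_add_of_nonneg_right (ds_nonneg _ _)) (le_add_of_nonneg_left (ds_nonneg _ _))
        (by exact_mod_cast a3) a6 a7
      have e := ht j (s1 ▸ s.2)
      exact ⟨e, by rwa [Subtype.ext (e.trans s1.symm)]⟩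
    refine ⟨(mk'_eq_iff U _ _).2 (k.mono fun j => And.left), Or.inl ?_⟩
    rw [hRt, finOrder_mk', ← Ultrafilter.eventually_not]
    exact k.mono fun j => And.right
  · have k : ∀ᶠ j in (U : Filter J), (t j : MM Γ b) = d j ∧ Ls (E.kh l) (md (d j)) := by
      filter_upwards [eP, eQ, h20, h1, hd, c] with j a1 a2 a3 a4 a6 a7
      have a8 := (not_ll_iff' hΛ.pos).1 a7
      exact ⟨ht j (hE_PJ2 Γ b (T j) (E.kh l) _ (h j) (P j) (Q j) (d j) (hT j) hΛ (h j).2 ⟨n1, a4⟩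
        (On.of_eq hΛ.pos.le a1) (On.of_eq hΛ.pos.le a2)
        (le_add_of_nonneg_right (ds_nonneg _ _)) (le_add_of_nonneg_left (ds_nonneg _ _))
        (by exact_mod_cast a3) a6 a8), a8⟩
    refine ⟨(mk'_eq_iff U _ _).2 (k.mono fun j => And.left), Or.inr fun κ hκ => ?_⟩
    obtain ⟨κ, rfl⟩ := mk'_surjective U κ
    rw [ET.zK_mk', ET.abs_mk', md_mk', ← mk'_mulK] at hκ
    obtain ⟨n3, hκ⟩ := (GT.ls_mk'_kh U _ _).1 hκ
    have k2 : ∀ᶠ j in (U : Filter J), ∃ N : ℤ, κ j = (N : b.Z) := by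
      filter_upwards [k, hκ, hd] with j a1 a2 a3
      rw [a1.1] at a2
      exact Epu.int_of_ls (one_pos.trans_le (one_le_md' a3.1)) ⟨n3, a2⟩ a1.2
    obtain ⟨N, hN⟩ := k2.choice
    refine ⟨⟨_, ET.mk'_mem_UT U fun j => t j ^ N j⟩, ?_, a.mk' U fun j => (N j : a.Z), ?_⟩
    · rw [ipow_mk']
      refine (mk'_eq_iff U (fun j => ((t j ^ N j : T j) : MM Γ b)) _).2 (hN.mono fun j hj => ?_)
      rw [hj, ipow_intCast, Subgroup.coe_zpow]
    · rw [hU (fun j => t j ^ N j) _ rfl, hRt, ipow_mk']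
      simp only [ipow_intCast, map_zpow]

end Pool.Agent.P.MP_dba3d2_lc


end

section

/-! Step E_COR of the stability project. -/

namespace Pool.Agent.P.MP_dba3d2_lc

open Filter ET

namespace EcorA

variable {Γ : HG} {a b : Amb} {E : Ext a b} {S : Subgroup (MM Γ a)} {θ : S →* MM Γ b}
  {T : Subgroup (MM Γ b)} {ρ : T →* MM Γ a}

/-- the distance of two points of a segment from `1` -/
theorem seg {μ : a.K} (hμ : Big μ) {p q x : MM Γ a} (hp : On μ p 1 x) (hq : On μ q 1 x) :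
    Ll (ds p q - |ln p - ln q|) μ ∧ |ln p - ln q| ≤ ds p q := by
  constructor
  · refine ((Ll.add hp hq).add (hμ.ll_delta Γ).two).mono_left ?_
    have := close_le 1 x p q
    simp only [ds_one_left] at this ⊢
    linarith
  · have h1 := ds_tri 1 p q
    have h2 := ds_tri 1 q p
    simp only [ds_one_left] at h1 h2
    rw [ds_comm q p] at h2
    exact abs_le.2 ⟨by linarith, by linarith⟩

/-- the distances to `z` and to its image agree -/
def Gd (E : Ext a b) (θ : S →* MM Γ b) (l : a.K) (z : S) (P : MM Γ a) (p : MM Γ b) : Prop :=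
  Ll |ds (θ z) p - E.kh (ds (z : MM Γ a) P)| (E.kh l) ∧ Ls (ds (z : MM Γ a) P) l

theorem Gd.up {l : a.K} {z : S} {P : MM Γ a} {p : MM Γ b} (h : Gd E θ l z P p) :
    Ls (ds (θ z) p) (E.kh l) :=
  (h.1.ls.add (E.ls_iff.2 h.2)).mono_left (by
    linarith [le_abs_self (ds (θ z) p - E.kh (ds (z : MM Γ a) P))])

theorem ends (h : Rf E S θ T ρ) {s0 s : S} (h0 : Big (ln (s0 : MM Γ a)))
    (hs : Ls (ln (s : MM Γ a)) (ln (s0 : MM Γ a))) {P : MM Γ a} {p : MM Γ b}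
    (c : Cor E (ln (s0 : MM Γ a)) s (θ s) P p) :
    Gd E θ (ln (s0 : MM Γ a)) 1 P p ∧ Gd E θ (ln (s0 : MM Γ a)) s P p := by
  have hs' : Ls (ds 1 (s : MM Γ a)) (ln (s0 : MM Γ a)) := by rwa [ds_one_left]
  refine ⟨⟨by simpa using c.eq, c.dn.ls_left hs'⟩, ?_, by rw [ds_comm]; exact c.dn.ls_right hs'⟩
  have h1 := h.len s0 s h0 hs
  have h2 : Ll (ds 1 p + ds p (θ s) - ds 1 (θ s)) _ := c.up
  have h3 := E.ll_iff.2 (show Ll (ds 1 P + ds P s - ds 1 (s : MM Γ a)) _ from c.dn)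
  have h4 := ds_tri 1 p (θ s)
  have h5 := E.kh_le.2 (ds_tri 1 P (s : MM Γ a))
  simp only [ds_one_left, map_add, map_sub] at h2 h3 h4 h5
  refine (((h1.add h2).add h3).add c.eq).mono_left ?_
  rw [ds_comm (θ s), ds_comm (s : MM Γ a)]
  have a1 := abs_le.1 (le_refl |ln (θ s) - E.kh (ln (s : MM Γ a))|)
  have a2 := abs_le.1 (le_refl |ln p - E.kh (ln P)|)
  exact abs_le.2 ⟨by linarith [a1.1, a2.2], by linarith [a1.2, a2.1]⟩

theorem down (h : Rf E S θ T ρ) {s0 z z' : S} (h0 : Big (ln (s0 : MM Γ a))) {P P' : MM Γ a}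
    {p p' : MM Γ b} (g : Gd E θ (ln (s0 : MM Γ a)) z P p) (g' : Gd E θ (ln (s0 : MM Γ a)) z' P' p')
    (t : T) (ht : Ll (ds p ((t : MM Γ b) * p')) (E.kh (ln (s0 : MM Γ a)))) :
    Ll (ds (z : MM Γ a) (ρ t * (z' : MM Γ a)) -
      (ds (z : MM Γ a) P + ds (ρ t * (z' : MM Γ a)) (ρ t * P'))) (ln (s0 : MM Γ a)) := by
  let u : T := (⟨θ z, h.mem z⟩ : T)⁻¹ * (t * ⟨θ z', h.mem z'⟩)
  have e1 : ln (u : MM Γ b) = ds (θ z) (t * θ z') := rfl
  have e2 : ln (ρ u) = ds (z : MM Γ a) (ρ t * z') := by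
    rw [map_mul, map_mul, map_inv, h.rho, h.rho, ds]
  have b1 : ds (θ z) (t * θ z') ≤ ds (θ z) p + ds p (t * p') + ds (θ z') p' := by
    have a1 := ds_tri (θ z) p (t * θ z')
    have a2 := ds_tri p (t * p') (t * θ z')
    rw [ds_mul_left, ds_comm p'] at a2
    linarith
  have h1 := h.lip s0 h0 u (by
    rw [e1]
    exact ((g.up.add ht.ls).add g'.up).mono_left b1)
  rw [e1, e2] at h1
  rw [← E.ll_iff, ds_mul_left, map_sub, map_add]
  refine (((h1.add ht).add g.1).add g'.1).mono_left ?_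
  linarith [le_abs_self (ds (θ z) p - E.kh (ds (z : MM Γ a) P)),
    le_abs_self (ds (θ z') p' - E.kh (ds (z' : MM Γ a) P'))]

theorem upp (h : Rf E S θ T ρ) {s0 z z' : S} (h0 : Big (ln (s0 : MM Γ a))) {P P' : MM Γ a}
    {p p' : MM Γ b} (g : Gd E θ (ln (s0 : MM Γ a)) z P p) (g' : Gd E θ (ln (s0 : MM Γ a)) z' P' p')
    (y : S) (hy : Ll (ds P ((y : MM Γ a) * P')) (ln (s0 : MM Γ a))) :
    Ll (ds (θ z) (θ y * θ z') - (ds (θ z) p + ds (θ y * θ z') (θ y * p')))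
      (E.kh (ln (s0 : MM Γ a))) := by
  have e1 : ln ((z⁻¹ * (y * z') : S) : MM Γ a) = ds (z : MM Γ a) (y * z') := rfl
  have e2 : ln (θ (z⁻¹ * (y * z'))) = ds (θ z) (θ y * θ z') := by
    rw [map_mul, map_mul, map_inv, ds]
  have b1 : ds (z : MM Γ a) (y * z') ≤
      ds (z : MM Γ a) P + ds P (y * P') + ds (z' : MM Γ a) P' := by
    have a1 := ds_tri (z : MM Γ a) P (y * z')
    have a2 := ds_tri P (y * P') (y * z')
    rw [ds_mul_left, ds_comm P'] at a2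
    linarith
  have h1 := h.len s0 (z⁻¹ * (y * z')) h0 (by
    rw [e1]
    exact ((g.2.add hy.ls).add g'.2).mono_left b1)
  rw [e1, e2] at h1
  have b2 := E.kh_le.2 b1
  rw [map_add, map_add] at b2
  rw [ds_mul_left]
  refine (((h1.add (E.ll_iff.2 hy)).add g.1).add g'.1).mono_left ?_
  linarith [neg_abs_le (ds (θ z) p - E.kh (ds (z : MM Γ a) P)),
    neg_abs_le (ds (θ z') p' - E.kh (ds (z' : MM Γ a) P')),
    le_abs_self (ds (θ z) (θ y * θ z') - E.kh (ds (z : MM Γ a) (y * z')))]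

end EcorA

open EcorA in
theorem p_E_COR :
    S_E_COR := by
  intro Γ a b E S θ T ρ h s0 h0 l s hs
  have hμ : Big (E.kh l) := E.big_iff.2 h0
  refine ⟨fun p hp => ?_, fun P p Q q c c' => ?_, fun s' hs' P p P' p' c c' => ?_⟩
  · have h1 : Ls |ln p| (E.kh l) := by
      rw [abs_of_nonneg (ln_nonneg p), ← ds_one_left]
      exact hp.ls_left (by rw [ds_one_left]; exact (h.ls s).trans' (E.ls_iff.2 hs))
    obtain ⟨y, hy⟩ := exists_old E h0.pos h1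
    obtain ⟨t, t0, t1, t2⟩ : ∃ t : a.K, 0 ≤ t ∧ t ≤ ln (s : MM Γ a) ∧
        Ll |ln p - E.kh t| (E.kh l) := by
      rcases le_total y 0 with k | k
      · refine ⟨0, le_rfl, ln_nonneg _, hy.mono_left ?_⟩
        have := E.kh_le.2 k
        rw [map_zero] at this ⊢
        rw [sub_zero, abs_of_nonneg (ln_nonneg p)]
        linarith [le_abs_self (ln p - E.kh y)]
      rcases le_total y (ln (s : MM Γ a)) with k' | k'
      · exact ⟨y, k, k', hy⟩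
      · refine ⟨_, ln_nonneg _, le_rfl, Ll.abs ?_ (hy.mono_left ?_)⟩
        · have a1 := hp.le_left
          simp only [ds_one_left] at a1
          refine (a1.add (h.len s0 s h0 hs)).mono_left ?_
          linarith [le_abs_self (ln (θ s) - E.kh (ln (s : MM Γ a)))]
        · linarith [E.kh_le.2 k', neg_abs_le (ln p - E.kh y)]
    obtain ⟨P, a1, a2, a3, -⟩ := exists_on h0 1 (s : MM Γ a) t t0 (by rwa [ds_one_left])
    refine ⟨P, a1, hp, (t2.add hμ.ll_one).mono_left ?_⟩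
    have b2 := E.kh_le.2 a2
    have b3 := E.kh_le.2 a3
    rw [ds_one_left] at b2 b3
    rw [map_add, map_one] at b3
    have := abs_le.1 (le_refl |ln p - E.kh t|)
    exact abs_le.2 ⟨by linarith [this.1], by linarith [this.2]⟩
  · obtain ⟨a1, a2⟩ := seg hμ c.up c'.up
    obtain ⟨b1, b2⟩ := seg h0 c.dn c'.dn
    have b3 := E.ll_iff.2 b1
    have b4 := E.kh_le.2 b2
    rw [map_sub, E.kh_abs, map_sub] at b3
    rw [E.kh_abs, map_sub] at b4
    have k : |(|ln p - ln q| - |E.kh (ln P) - E.kh (ln Q)|)| ≤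
        |ln p - E.kh (ln P)| + |ln q - E.kh (ln Q)| := by
      refine (abs_abs_sub_abs_le_abs_sub _ _).trans ?_
      rw [show ln p - ln q - (E.kh (ln P) - E.kh (ln Q)) =
        ln p - E.kh (ln P) - (ln q - E.kh (ln Q)) by ring]
      exact abs_sub _ _
    have k' := abs_le.1 k
    exact Ll.abs (((a1.add c.eq).add c'.eq).mono_left (by linarith [k'.2]))
      (((b3.add c.eq).add c'.eq).mono_left (by linarith [k'.1]))
  · obtain ⟨g1, g2⟩ := ends h h0 hs c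
    obtain ⟨g3, g4⟩ := ends h h0 hs' c'
    refine ⟨fun t ht => ?_, fun y hy => ?_⟩
    · exact four h0 c.dn (c'.dn.mul (ρ t)) (down h h0 g1 g3 t ht) (down h h0 g1 g4 t ht)
        (down h h0 g2 g3 t ht) (down h h0 g2 g4 t ht)
    · have e : θ 1 = 1 := map_one θ
      exact four hμ (e ▸ c.up) ((e ▸ c'.up : On _ p' (θ 1) (θ s')).mul (θ y))
        (upp h h0 g1 g3 y hy) (upp h h0 g1 g4 y hy) (upp h h0 g2 g3 y hy) (upp h h0 g2 g4 y hy)

end Pool.Agent.P.MP_dba3d2_lc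


end

section

/-! Step E_PW of the stability project. -/

namespace Pool.Agent.P.MP_dba3d2_lc

open Filter

namespace EPwA

theorem shift {Γ : HG} {b : Amb} (hL : S_LINE) {μ : b.K} {d p q : MM Γ b}
    (hd : ¬ IsOfFinOrder d) (hs : Stab μ p q d) (hpq : Ls (ds p q) μ) :
    ∃ k : b.Z, Ls (|zK k| * md d) μ ∧ Ll (ds q (ipow d k * p)) μ := by
  obtain ⟨z, hz⟩ := exists_md_ds d
  obtain ⟨L, hL1, hL2⟩ := exists_coord hL hd (Ls.of_le hz.le)
  obtain ⟨h1, -, h3⟩ := hL2 μ hs.md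
  obtain ⟨i, hi⟩ := (h3 p).1 hs.1
  obtain ⟨j, hj⟩ := (h3 q).1 hs.2
  refine ⟨j - i, ?_, ?_⟩
  · obtain ⟨n, hn⟩ := hL1.2
    have h4 := (h1 j i).2
    have h5 := ds_tri (ipow d j * z) q (ipow d i * z)
    have h6 := ds_tri q p (ipow d i * z)
    rw [ds_comm _ q] at h5
    rw [ds_comm q p] at h6
    have h7 : Ls (|zK j - zK i| * L) μ :=
      Ls.mono_left (by linarith) ((hj.ls.add hpq).add hi.ls)
    refine Ls.mono_left ?_ (h7.nat_mul n)
    rw [zK_sub, mul_left_comm]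
    exact mul_le_mul_of_nonneg_left hn (abs_nonneg _)
  · refine Ll.mono_left ?_ (hj.add hi)
    have e : ipow d j * z = ipow d (j - i) * (ipow d i * z) := by
      rw [← mul_assoc, ← ipow_add, sub_add_cancel]
    have := ds_tri q (ipow d j * z) (ipow d (j - i) * p)
    rwa [show ds (ipow d j * z) (ipow d (j - i) * p) = ds p (ipow d i * z) by
      rw [e, ds_mul_left, ds_comm]] at this

end EPwA

theorem p_E_PW (hLINE : S_LINE) (hE_COR : S_E_COR) :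
    S_E_PW := by
  intro Γ a b E S θ T ρ hR s t p q hb μ hn hp hq ht hs hw hfin
  have hμ : Big μ := (E.big_iff).2 hb
  have h1 : Ls (ds 1 (θ s)) μ := by rw [ds_one_left]; exact hR.ls s
  have hpq : Ls (ds p q) μ := by
    have a1 := hp.ls_left h1
    have a2 := hq.ls_left h1
    rw [ds_one_left] at a1 a2
    exact Ls.mono_left (ds_le_ln p q) (a1.add a2)
  obtain ⟨k, hk, hk'⟩ := EPwA.shift hLINE ht.1 hs hpq
  obtain ⟨t', e1, k', e2⟩ := hw k hk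
  obtain ⟨l, r, -, rfl⟩ := exists_divmod k' Γ.e Γ.good.pos
  have e3 : ipow (1 : MM Γ a) l = 1 := by simpa using ipow_pow' (1 : MM Γ a) 0 l
  rw [ipow_add, ipow_mul, ipow_natCast, ipow_natCast, isOfFinOrder_iff.1 hfin, e3, one_mul] at e2
  obtain ⟨c1, c2, c3⟩ := hE_COR Γ a b E S θ T ρ hR s hb s (Ls.refl' _)
  obtain ⟨P, hP⟩ := c1 p hp
  obtain ⟨Q, hQ⟩ := c1 q hq
  have f1 := fix_pow ((c3 s (Ls.refl' _) P p P p hP hP).1 t hs.1) r
  have f2 := (c3 s (Ls.refl' _) Q q P p hQ hP).1 t' (e1 ▸ hk')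
  rw [e2, ds_comm] at f2
  have f3 : Ll (E.kh (ds P Q)) μ := (E.ll_iff).2 (Ll.mono_left (ds_tri _ _ _) (f1.add f2))
  refine Ll.not_ls (Ll.mono_left ?_ ((c2 P p Q q hP hQ).add f3)) hμ.pos hn
  linarith [le_abs_self (ds p q - E.kh (ds P Q))]

end Pool.Agent.P.MP_dba3d2_lc


end

section

/-! Step E_PRJ of the stability project. -/

namespace Pool.Agent.P.MP_dba3d2_lc

open Filter

theorem E_prj.int_unit {a : Amb} {n : ℤ} {l : a.Z} (h : (n : a.Z) * l = 1) : n = 1 ∨ n = -1 := by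
  refine (unit_Z h).imp (fun e => ?_) fun e => ?_
  · have k : zK (n : a.Z) = zK ((1 : ℤ) : a.Z) := by rw [e, Int.cast_one]
    rw [zK_intCast, zK_intCast] at k
    exact Int.cast_injective k
  · have k : zK (n : a.Z) = zK ((-1 : ℤ) : a.Z) := by rw [e, Int.cast_neg, Int.cast_one]
    rw [zK_intCast, zK_intCast] at k
    exact Int.cast_injective k

theorem p_E_PRJ (hELEM : S_ELEM) (hLINE : S_LINE) (hROOT : S_ROOT) (hE_CHI : S_E_CHI) (hE_SZ : S_E_SZ) :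
    S_E_PRJ := by
  intro Γ a b E T ρ n γ hT hR hn hc hB hls
  have hγ : ¬ IsOfFinOrder (γ : MM Γ b) := fun e =>
    hc.1 (ρ.isOfFinOrder ((ET.finOrder_coe γ).1 e))
  obtain ⟨d, hdT, hd, he⟩ := (hROOT Γ b T hT).1 γ γ.2 hγ
  have hγd : (γ : MM Γ b) ∈ Ep d := he ▸ self_mem_Ep _
  have hρ : ∀ t : T, (t : MM Γ b) ∈ Ep d → ρ t ∈ Ep (ρ γ) := fun t ht => by
    rw [he, mem_Ep] at ht
    have k : Commute t (γ ^ Γ.e) := Subtype.ext ht.eq
    rw [mem_Ep, ← map_pow]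
    exact k.map ρ
  obtain ⟨χ, x1, -, -, -, -, -, -, -, -, x2⟩ := hE_CHI Γ b d hd
  obtain ⟨ψ, -, y2, y3, y4, y5, y6, -, -, y9, -⟩ := hE_CHI Γ a (ρ γ) hc
  let D : T := ⟨d, hdT⟩
  have hD : ρ D ∈ Ep (ρ γ) := hρ D (self_mem_Ep d)
  have sc := self_mem_Ep (ρ γ)
  have key : ∀ t : T, ρ t ∈ Ep (ρ γ) → IsOfFinOrder ((γ : MM Γ b)⁻¹ * t) → ψ (ρ t) = 1 :=
    fun t ht h => by
    have k : IsOfFinOrder (ρ (γ⁻¹ * t)) := ρ.isOfFinOrder ((ET.finOrder_coe (γ⁻¹ * t)).1 h)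
    rw [map_mul, map_inv] at k
    have z := (y4 _ (mul_mem (inv_mem sc) ht)).2 k
    rw [y2 _ (inv_mem sc) _ ht, y3 _ sc, y9] at z
    exact (neg_add_eq_zero.1 z).symm
  have tor := (x1 _ hγd _).1 rfl
  by_cases big : Big |zK (χ γ)|
  · exfalso
    have M0 : Big (E.kh (md (ρ γ))) := E.big_iff.2 hB
    have l0 : Ll (md d) (|zK (χ γ)| * md d) := fun m =>
      mul_le_mul_of_nonneg_right (big m) (md_nonneg d)
    have l1 : Ll (md d) (E.kh (md (ρ γ))) :=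
      l0.ls_right ((hE_SZ Γ b d γ _ hd.1 hγd tor).1.trans' hls) M0.pos.le
    have inf : ¬ IsOfFinOrder (ρ D) := fun e => by
      obtain ⟨f, hf, hfe, r, h⟩ := hT.pur d hdT hd γ γ.2 hγd 2 two_pos
      let F : T := ⟨f, hf⟩
      have hF : ρ F ∈ Ep (ρ γ) := hρ F hfe
      have z := key (F ^ 2 * D ^ r) (by
        rw [map_mul, map_pow, map_pow]; exact mul_mem (pow_mem hF _) (pow_mem hD _)) h
      rw [map_mul, map_pow, map_pow, y2 _ (pow_mem hF _) _ (pow_mem hD _), y5 _ hF, y5 _ hD,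
        (y4 _ hD).2 e, mul_zero, add_zero, ← Int.cast_natCast] at z
      have := E_prj.int_unit z
      omega
    have l2 : Ls (md (ρ γ)) (md (ρ D)) :=
      Prim.md_ls hELEM hLINE hc inf (Ep_eq hELEM hc.1 hD inf).symm
    obtain ⟨x, hx, -, hcen⟩ := hT.cen1 hdT hd.1
    let X : T := ⟨x, hx⟩
    have l3 : Ll (ln (x⁻¹ * d * x)) (E.kh (md (ρ γ))) := by
      refine Ll.ls_left ?_ l1
      have := hcen
      rwa [Cen, md_conj] at this
    have l4 : md (ρ D) ≤ ln (ρ (X⁻¹ * D * X)) := by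
      rw [map_mul, map_mul, map_inv]; exact md_le _ _
    have l5 : Ll (n * E.kh (ln (ρ (X⁻¹ * D * X))) - (n + 1) * ln (x⁻¹ * d * x))
      (E.kh (md (ρ γ))) := M0.ll_of_not_big (hR.lip (X⁻¹ * D * X))
    have l6 := l5.add (l3.nat_mul (n + 1))
    have A0 : 0 ≤ E.kh (ln (ρ (X⁻¹ * D * X))) := (GT.kh_nonneg E).2 (ln_nonneg _)
    have n1 : (1 : b.K) ≤ n := by exact_mod_cast hn
    have l7 : Ll (E.kh (ln (ρ (X⁻¹ * D * X)))) (E.kh (md (ρ γ))) := by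
      refine Ll.mono_left ?_ l6
      have := mul_le_mul_of_nonneg_right n1 A0
      push_cast
      linarith
    exact l7.not_ls M0.pos (E.ls_iff.2 (l2.mono_right l4))
  · obtain ⟨m, hm⟩ := exists_int_of_not_big big
    rw [hm, ipow_intCast] at tor
    have z := key (D ^ m) (by rw [map_zpow]; exact zpow_mem hD _) tor
    rw [map_zpow, y6 _ hD] at z
    refine (x2 _ hγd).2 ((E_prj.int_unit z).imp (fun e => ?_) fun e => ?_)
    · rw [hm, e, Int.cast_one]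
    · rw [hm, e, Int.cast_neg, Int.cast_one]

end Pool.Agent.P.MP_dba3d2_lc


end

section

/-! Step E_TG2 of the stability project. -/

namespace Pool.Agent.P.MP_dba3d2_lc

open Filter ET

namespace E_tg2

variable {Γ : HG} {a b : Amb} {E : Ext a b} {S : Subgroup (MM Γ a)} {θ : S →* MM Γ b}
  {T : Subgroup (MM Γ b)} {ρ : T →* MM Γ a}

theorem core (hC : S_E_COR) (h : Rf E S θ T ρ) (s : S) (hb : Big (ln (s : MM Γ a)))
    {p q : MM Γ b} (hn : Ls (E.kh (ln (s : MM Γ a))) (ds p q))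
    (hp : On (E.kh (ln (s : MM Γ a))) p 1 (θ s)) (hq : On (E.kh (ln (s : MM Γ a))) q 1 (θ s)) :
    ∃ P Q, Cor E (ln (s : MM Γ a)) s (θ s) P p ∧ Cor E (ln (s : MM Γ a)) s (θ s) Q q ∧
      Ls (ln (s : MM Γ a)) (ds P Q) ∧ (Per (ln (s : MM Γ a)) P Q →
        ∃ c : S, Prim (c : MM Γ a) ∧ Stab (E.kh (ln (s : MM Γ a))) p q (θ c)) := by
  obtain ⟨c1, c2, c3⟩ := hC Γ a b E S θ T ρ h s hb s (Ls.refl' _)
  obtain ⟨P, hP⟩ := c1 p hp
  obtain ⟨Q, hQ⟩ := c1 q hq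
  have nd : Ls (ln (s : MM Γ a)) (ds P Q) := E.ls_iff.1 (hn.of_le_add (c2 P p Q q hP hQ)
    (E.big_iff.2 hb).pos 1 (by
      have := le_abs_self (ds p q - E.kh (ds P Q))
      rw [Nat.cast_one, one_mul]
      linarith))
  refine ⟨P, Q, hP, hQ, nd, fun hper => ?_⟩
  obtain ⟨c, hc, h1, h2⟩ := h.gc.g20 _ hb s s.2 (Ls.refl' _) P Q nd hP.dn hQ.dn hper
  exact ⟨⟨c, hc⟩, h1, (c3 s (Ls.refl' _) P p P p hP hP).2 ⟨c, hc⟩ h2.1,
    (c3 s (Ls.refl' _) Q q Q q hQ hQ).2 ⟨c, hc⟩ h2.2⟩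

end E_tg2

theorem p_E_TG2 (hPERC : S_PERC) (hE_COR : S_E_COR) :
    S_E_TG2 := by
  intro Γ a b E S θ T ρ h
  constructor
  · rintro μ hμ _ ⟨s, rfl⟩ _ ⟨s', rfl⟩ h1 h2 g p q hov hn
    obtain ⟨hs, hb⟩ := h.toRf.scale s hμ h1 hov.2.1 hov.2.2.1 hov.1
    have hν := E.big_iff.2 hb
    rw [hs.ov_iff hμ.pos.le hν.pos.le] at hov
    rw [hs.per_iff hμ.pos.le hν.pos.le] at hn
    have hs' : Ls (ln (s' : MM Γ a)) (ln (s : MM Γ a)) :=
      E.ls_iff.1 (((h.toRf.sim s').2.trans' h2).trans' hs.1)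
    have hg : g ∈ T := h.g2 s s' hb hs' g p q hov hn
    obtain ⟨P, Q, hP, hQ, nd, hA⟩ := E_tg2.core hE_COR h.toRf s hb hov.1 hov.2.1 hov.2.2.1
    have c1 := (hE_COR Γ a b E S θ T ρ h.toRf s hb s' hs').1
    have c3 := (hE_COR Γ a b E S θ T ρ h.toRf s hb s (Ls.refl' _)).2.2 s' hs'
    obtain ⟨P', hP'⟩ := c1 (g⁻¹ * p) (by simpa using hov.2.2.2.1.mul g⁻¹)
    obtain ⟨Q', hQ'⟩ := c1 (g⁻¹ * q) (by simpa using hov.2.2.2.2.mul g⁻¹)
    have d1 := (c3 P p P' _ hP hP').1 ⟨g, hg⟩ (by simpa using Ll.zero hν.pos.le)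
    have d2 := (c3 Q q Q' _ hQ hQ').1 ⟨g, hg⟩ (by simpa using Ll.zero hν.pos.le)
    have hy : ρ ⟨g, hg⟩ ∈ S := by
      refine h.gc.g2 _ hb s s.2 s' s'.2 (Ls.refl' _) hs' _ P Q ⟨nd, hP.dn, hQ.dn, ?_, ?_⟩
        fun hper => ?_
      · exact (hP'.dn.mul _).congr (FixA.ll_comm d1) (by simpa using Ll.zero hb.pos.le)
          (FixA.ll_self hb.pos.le _)
      · exact (hQ'.dn.mul _).congr (FixA.ll_comm d2) (by simpa using Ll.zero hb.pos.le)
          (FixA.ll_self hb.pos.le _)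
      · obtain ⟨c, hc, h3⟩ := hA hper
        exact hn ⟨θ c, fun f => hc.1 ((h.toRf.fin c).1 f), h3⟩
    have u1 := (c3 P p P' _ hP hP').2 ⟨_, hy⟩ d1
    have u2 := (c3 Q q Q' _ hQ hQ').2 ⟨_, hy⟩ d2
    rw [← mul_assoc] at u1 u2
    have hf : IsOfFinOrder (θ ⟨_, hy⟩ * g⁻¹) := by
      by_contra f
      exact hn ⟨_, f, u1, u2⟩
    have e := h.tor (⟨θ ⟨_, hy⟩, h.mem _⟩ * (⟨g, hg⟩ : T)⁻¹) ((finOrder_coe _).1 hf)
      (by rw [map_mul, map_inv, h.toRf.rho, mul_inv_cancel])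
    exact ⟨⟨_, hy⟩, congrArg Subtype.val (mul_inv_eq_one.1 e)⟩
  · rintro μ hμ _ ⟨s, rfl⟩ h1 p q hn hp hq hper
    obtain ⟨hs, hb⟩ := h.toRf.scale s hμ h1 hp hq hn
    have hν := E.big_iff.2 hb
    rw [hs.on_iff hμ.pos.le hν.pos.le] at hp hq
    rw [hs.per_iff hμ.pos.le hν.pos.le] at hper
    have hn' := hs.2.trans' hn
    obtain ⟨P, Q, hP, hQ, -, hA⟩ := E_tg2.core hE_COR h.toRf s hb hn' hp hq
    have c3 := (hE_COR Γ a b E S θ T ρ h.toRf s hb s (Ls.refl' _)).2.2 s (Ls.refl' _)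
    obtain ⟨d, hd, h2, -⟩ := hPERC Γ b _ p q hν hn' hper
    obtain ⟨t, rfl, ht⟩ := h.per s hb p q d hn' hp hq hd h2
    obtain ⟨c, hc, h3⟩ := hA ⟨ρ t, ht, (c3 P p P p hP hP).1 t h2.1, (c3 Q q Q q hQ hQ).1 t h2.2⟩
    exact ⟨θ c, ⟨c, rfl⟩, h.prim c hc, (hs.stab_iff hμ.pos.le hν.pos.le).2 h3⟩

end Pool.Agent.P.MP_dba3d2_lc


end

section

/-! Step E_TMD of the stability project. -/

namespace Pool.Agent.P.MP_dba3d2_lc

open Filter

namespace E_tmd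

variable {Γ : HG} {a b : Amb}

theorem kh_max (E : Ext a b) (x y : a.K) : E.kh (max x y) = max (E.kh x) (E.kh y) := by
  rcases le_total x y with h | h
  · rw [max_eq_right h, max_eq_right (E.kh_le.2 h)]
  · rw [max_eq_left h, max_eq_left (E.kh_le.2 h)]

theorem one {E : Ext a b} {S : Subgroup (MM Γ a)} {θ : S →* MM Γ b} {T : Subgroup (MM Γ b)}
    {ρ : T →* MM Γ a} (hG : S_E_GEO) (h : Rf E S θ T ρ) (s0 w : S) (h0 : Big (ln (s0 : MM Γ a)))
    (hw : Ls (ln (w : MM Γ a)) (ln (s0 : MM Γ a))) :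
    Ll |md (θ w) - E.kh (md (w : MM Γ a))| (E.kh (ln (s0 : MM Γ a))) := by
  have a1 := E.ll_iff.2 ((hG Γ a _ h0).1 (w : MM Γ a))
  have a2 := (hG Γ b _ (E.big_iff.2 h0)).1 (θ w)
  have a3 := h.len s0 w h0 hw
  have a4 := h.len s0 (w * w) h0 (Ls.mono_left (ln_mul_le _ _) (hw.add hw))
  rw [E.kh_abs, map_sub, kh_max, map_sub, map_zero] at a1
  rw [map_mul, Subgroup.coe_mul] at a4
  refine Ll.mono_left ?_ ((a1.add a2).add (a3.add a4))
  have b1 := abs_max_sub_max_le_abs (ln (θ w * θ w) - ln (θ w))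
    (E.kh (ln ((w : MM Γ a) * (w : MM Γ a))) - E.kh (ln (w : MM Γ a))) 0
  set A := max (ln (θ w * θ w) - ln (θ w)) 0
  set B := max (E.kh (ln ((w : MM Γ a) * (w : MM Γ a))) - E.kh (ln (w : MM Γ a))) 0
  have b2 : |ln (θ w * θ w) - ln (θ w) - (E.kh (ln ((w : MM Γ a) * (w : MM Γ a))) - E.kh (ln (w : MM Γ a)))| ≤
      |ln (θ w) - E.kh (ln (w : MM Γ a))| + |ln (θ w * θ w) - E.kh (ln ((w : MM Γ a) * (w : MM Γ a)))| := by
    have c1 := le_abs_self (ln (θ w) - E.kh (ln (w : MM Γ a)))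
    have c2 := neg_abs_le (ln (θ w) - E.kh (ln (w : MM Γ a)))
    have c3 := le_abs_self (ln (θ w * θ w) - E.kh (ln ((w : MM Γ a) * (w : MM Γ a))))
    have c4 := neg_abs_le (ln (θ w * θ w) - E.kh (ln ((w : MM Γ a) * (w : MM Γ a))))
    exact abs_le.2 ⟨by linarith, by linarith⟩
  have c1 := le_abs_self (E.kh (md (w : MM Γ a)) - B)
  have c2 := neg_abs_le (E.kh (md (w : MM Γ a)) - B)
  have c3 := le_abs_self (md (θ w) - A)
  have c4 := neg_abs_le (md (θ w) - A)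
  have c5 := le_abs_self (A - B)
  have c6 := neg_abs_le (A - B)
  exact abs_le.2 ⟨by linarith, by linarith⟩

end E_tmd

theorem p_E_TMD (hE_GEO : S_E_GEO) :
    S_E_TMD := by
  intro Γ a b E S θ T ρ h
  refine ⟨fun s0 w h0 hw => E_tmd.one hE_GEO h s0 w h0 hw, fun c hc => ?_⟩
  obtain ⟨p, hp, -, hcen⟩ := h.gc.toGC0.cen1 c.2 hc
  let P : S := ⟨p, hp⟩
  have e1 : md (θ c) = md (θ (P⁻¹ * c * P)) := by
    rw [map_mul, map_mul, map_inv, md_conj]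
  have e2 : md (c : MM Γ a) = md ((P⁻¹ * c * P : S) : MM Γ a) := (md_conj _ p).symm
  have hc0 : Ls (ln ((P⁻¹ * c * P : S) : MM Γ a)) (md ((P⁻¹ * c * P : S) : MM Γ a)) := hcen
  rw [e1, e2]
  generalize P⁻¹ * c * P = c0 at hc0
  by_cases k : Big (ln (c0 : MM Γ a))
  · have a1 := E_tmd.one hE_GEO h c0 c0 k (Ls.refl' _)
    have a2 := E.ls_iff.2 hc0
    have a3 : E.kh (md (c0 : MM Γ a)) ≤ E.kh (ln (c0 : MM Γ a)) := E.kh_le.2 (md_le_ln _)
    have p0 := (E.big_iff.2 k).pos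
    have c1 := le_abs_self (md (θ c0) - E.kh (md (c0 : MM Γ a)))
    have c2 := neg_abs_le (md (θ c0) - E.kh (md (c0 : MM Γ a)))
    constructor
    · exact Ls.mono_left (by linarith) ((Ls.refl' _).add (a1.ls.trans' a2))
    · refine Ls.mono_left a3 (Ls.of_le_add a2 a1 p0 1 ?_)
      push_cast; linarith
  · rw [h.std c0 k, E.md_hom]; exact Sim.refl' _

end Pool.Agent.P.MP_dba3d2_lc


end

section

/-! Step E_TEX of the stability project. -/

namespace Pool.Agent.P.MP_dba3d2_lc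

open Filter

namespace E_tex

theorem prim (hELEM : S_ELEM) (hROOT : S_ROOT) (hE_CHI : S_E_CHI) {Γ : HG} {a b : Amb}
    {E : Ext a b} {S : Subgroup (MM Γ a)} {θ : S →* MM Γ b} {T : Subgroup (MM Γ b)}
    {ρ : T →* MM Γ a} (h : Rf2 E S θ T ρ) (c : S) (hc : Prim (θ c)) : Prim (c : MM Γ a) := by
  have n1 : ¬ IsOfFinOrder (c : MM Γ a) := fun e => hc.1 ((h.toRf.fin c).2 e)
  obtain ⟨c0, m0, p0, e0⟩ := (hROOT Γ a S h.gc.toGC0).1 c c.2 n1
  have p1 := h.prim ⟨c0, m0⟩ p0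
  have m1 : (c : MM Γ a) ∈ Ep c0 := e0 ▸ self_mem_Ep _
  obtain ⟨χ, x1, -, -, -, -, -, -, -, -, x2⟩ := hE_CHI Γ a c0 p0
  refine (x2 c m1).2 ((Prim.pm hELEM p1 hc
    (Ep_eq hELEM p1.1 ((h.toRf.memEp c ⟨c0, m0⟩).2 m1) hc.1)).imp (fun e => ?_) fun e => ?_)
  · rw [← map_inv, ← map_mul, h.toRf.fin] at e
    rw [x1 c m1, ipow_one]
    exact e
  · rw [← map_inv, ← map_inv, ← map_mul, h.toRf.fin] at e
    rw [x1 c m1, ipow_neg, ipow_one]
    exact e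

end E_tex

theorem p_E_TEX (hELEM : S_ELEM) (hROOT : S_ROOT) (hE_CHI : S_E_CHI) (hE_TMD : S_E_TMD) :
    S_E_TEX := by
  intro Γ a b E S θ T ρ h
  constructor
  · rintro μ hμ _ ⟨s, rfl⟩ hs _ ⟨c, rfl⟩ hc hl hm
    have pc := E_tex.prim hELEM hROOT hE_CHI h c hc
    obtain ⟨s0, l1, l2, l3⟩ : ∃ s0 : S, ln (s : MM Γ a) ≤ ln (s0 : MM Γ a) ∧
        ln (c : MM Γ a) ≤ ln (s0 : MM Γ a) ∧ Ls (ln (θ s0)) μ := by
      rcases le_total (ln (s : MM Γ a)) (ln (c : MM Γ a)) with e | e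
      · exact ⟨c, e, le_rfl, hl⟩
      · exact ⟨s, le_rfl, e, hs⟩
    rcases ll_or_ls hμ.pos (E.kh (ln (s0 : MM Γ a))) with e | e
    · refine ⟨1, one_mem _, one_mem _, ?_⟩
      have k := Ll.ls_left ((h.toRf.ls s).mono_right (E.kh_le.2 l1)) e
      refine k.two.mono_left ?_
      rw [ds_one_left]
      linarith [ln_nonneg (θ c), ln_nonneg ((θ s)⁻¹ * θ c * θ s)]
    · have e' : Ls (E.kh (ln (s0 : MM Γ a))) μ := (h.toRf.sim s0).2.trans' l3
      have b1 : Big (E.kh (ln (s0 : MM Γ a))) := hμ.of_ls e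
      have b0 := E.big_iff.1 b1
      have m1 : Ll (md (c : MM Γ a)) (ln (s0 : MM Γ a)) := E.ll_iff.1
        (Ll.ls_left ((hE_TMD Γ a b E S θ T ρ h.toRf).2 c pc.1).2 (hm.ls_right e b1.pos.le))
      obtain ⟨f, f1, f2, f3⟩ := h.gc.ex _ b0 s s.2 (Ls.of_le l1) c c.2 pc (Ls.of_le l2) m1
      have q1 : ln ((s : MM Γ a)⁻¹ * (c : MM Γ a) * (s : MM Γ a)) ≤ 3 * ln (s0 : MM Γ a) := by
        have := ln_mul_le ((s : MM Γ a)⁻¹ * (c : MM Γ a)) s
        have := ln_mul_le (s : MM Γ a)⁻¹ c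
        rw [ln_inv] at this
        linarith
      have q2 : Ls (ln ((s : MM Γ a)⁻¹ * (c : MM Γ a) * (s : MM Γ a))) (ln (s0 : MM Γ a)) := ⟨3, by push_cast; exact q1⟩
      have q3 : Ls (ds f s) (ln (s0 : MM Γ a)) :=
        ((f3.ls.add (Ls.of_le l2)).add q2).mono_left (by linarith [ds_nonneg f s])
      have r1 := h.toRf.len s0 ((⟨f, f1⟩ : S)⁻¹ * s) b0 q3
      have r2 := h.toRf.len s0 c b0 (Ls.of_le l2)
      have r3 := h.toRf.len s0 (s⁻¹ * c * s) b0 q2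
      have r4 := E.ll_iff.2 f3
      refine ⟨θ ⟨f, f1⟩, ⟨_, rfl⟩, (h.toRf.memEp _ _).2 f2,
        Ll.ls_right ?_ e' hμ.pos.le⟩
      refine (((r4.add r1.two).add r2).add r3).mono_left ?_
      have t1 := le_abs_self (ln (θ ((⟨f, f1⟩ : S)⁻¹ * s)) -
        E.kh (ln (((⟨f, f1⟩ : S)⁻¹ * s : S) : MM Γ a)))
      have t2 := neg_abs_le (ln (θ c) - E.kh (ln (c : MM Γ a)))
      have t3 := neg_abs_le (ln (θ (s⁻¹ * c * s)) - E.kh (ln ((s⁻¹ * c * s : S) : MM Γ a)))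
      have t4 : ds (θ ⟨f, f1⟩) (θ s) = ln (θ ((⟨f, f1⟩ : S)⁻¹ * s)) := by
        rw [map_mul, map_inv, ds]
      have t5 : ln ((θ s)⁻¹ * θ c * θ s) = ln (θ (s⁻¹ * c * s)) := by
        rw [map_mul, map_mul, map_inv]
      have t6 : E.kh (2 * ds f s - (ln (c : MM Γ a) + ln ((s : MM Γ a)⁻¹ * (c : MM Γ a) * (s : MM Γ a)))) =
          2 * E.kh (ln (((⟨f, f1⟩ : S)⁻¹ * s : S) : MM Γ a)) - (E.kh (ln (c : MM Γ a)) +
            E.kh (ln ((s⁻¹ * c * s : S) : MM Γ a))) := by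
        rw [map_sub, map_mul, map_add, map_ofNat]
        rfl
      rw [t4, t5, t6]
      linarith
  · rintro _ ⟨c, rfl⟩ hc _ ⟨f, rfl⟩ hf n hn
    obtain ⟨g, g1, g2, r, g3⟩ := h.gc.pur c c.2 (E_tex.prim hELEM hROOT hE_CHI h c hc) f f.2
      ((h.toRf.memEp _ _).1 hf) n hn
    refine ⟨θ ⟨g, g1⟩, ⟨_, rfl⟩, (h.toRf.memEp _ _).2 g2, r, ?_⟩
    rw [← map_pow, ← map_pow, ← map_inv, ← map_mul, ← map_mul, h.toRf.fin]
    exact g3

end Pool.Agent.P.MP_dba3d2_lc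


end

section

/-! Step E_TCEN of the stability project. -/

namespace Pool.Agent.P.MP_dba3d2_lc

open Filter

namespace E_tcen

variable {Γ : HG} {a b : Amb} {E : Ext a b} {S : Subgroup (MM Γ a)} {θ : S →* MM Γ b}
  {T : Subgroup (MM Γ b)} {ρ : T →* MM Γ a}

theorem sim_add (h : Rf E S θ T ρ) (d d' : S) :
    Sim (ln (θ d) + ln (θ d')) (E.kh (ln (d : MM Γ a) + ln (d' : MM Γ a))) := by
  rw [map_add]
  have p1 := ln_nonneg (θ d)
  have p2 := ln_nonneg (θ d')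
  have p3 := (GT.kh_nonneg E).2 (ln_nonneg (d : MM Γ a))
  have p4 := (GT.kh_nonneg E).2 (ln_nonneg (d' : MM Γ a))
  exact ⟨((h.sim d).1.mono_right (by linarith)).add ((h.sim d').1.mono_right (by linarith)),
    ((h.sim d).2.mono_right (by linarith)).add ((h.sim d').2.mono_right (by linarith))⟩

theorem key (hG : S_E_GEO) (hT : S_E_TMD) (h : Rf E S θ T ρ) (d d' s0 : S)
    (hd : ¬ IsOfFinOrder (d : MM Γ a))
    (l1 : ln (d : MM Γ a) ≤ ln (s0 : MM Γ a)) (l2 : ln (d' : MM Γ a) ≤ ln (s0 : MM Γ a))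
    (l3 : ln (s0 : MM Γ a) ≤ ln (d : MM Γ a) + ln (d' : MM Γ a))
    (hc : ∀ z : MM Γ a, Ls (ln (d : MM Γ a) + ln (d' : MM Γ a))
      (ln (z⁻¹ * (d : MM Γ a) * z) + ln (z⁻¹ * (d' : MM Γ a) * z))) (q : MM Γ b) :
    Ls (ln (θ d) + ln (θ d')) (ln (q⁻¹ * θ d * q) + ln (q⁻¹ * θ d' * q)) := by
  have p1 := ln_nonneg (q⁻¹ * θ d * q)
  have p2 := ln_nonneg (q⁻¹ * θ d' * q)
  have s1 : Ls (ln (θ d) + ln (θ d')) (E.kh (ln (s0 : MM Γ a))) :=
    (sim_add h d d').1.trans' (E.ls_iff.2 ((Ls.of_le l1).add (Ls.of_le l2)))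
  refine s1.trans' ?_
  by_cases hb : Big (ln (s0 : MM Γ a))
  swap
  · have o := (one_le_md' fun k => hd ((h.fin d).1 k)).trans (md_le (θ d) q)
    exact ls_of_scale (by linarith) fun k _ => hb (E.big_iff.1 k)
  have fin : ∀ w : S, Ls (ln (w : MM Γ a)) (ln (s0 : MM Γ a)) →
      Ls (ln (s0 : MM Γ a)) (md (w : MM Γ a)) → Ls (E.kh (ln (s0 : MM Γ a))) (md (θ w)) := by
    intro w h1 h2
    have k := (hT _ _ _ E S θ T ρ h).1 s0 w hb h1
    refine Ls.of_le_add (E.ls_iff.2 h2) k (E.big_iff.2 hb).pos 1 ?_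
    have := neg_abs_le (md (θ w) - E.kh (md (w : MM Γ a)))
    push_cast; linarith
  rcases ll_or_ls hb.pos (md (d : MM Γ a)) with k1 | k1
  swap
  · exact (fin d (Ls.of_le l1) k1).mono_right ((md_le _ q).trans (by linarith))
  rcases ll_or_ls hb.pos (md (d' : MM Γ a)) with k2 | k2
  swap
  · exact (fin d' (Ls.of_le l2) k2).mono_right ((md_le _ q).trans (by linarith))
  rcases ll_or_ls hb.pos (md ((d : MM Γ a) * (d' : MM Γ a))) with k3 | k3
  · obtain ⟨z, z1, z2⟩ := (hG Γ a _ hb).2 _ _ k1 k2 k3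
    rw [ds_conj] at z1 z2
    exact ((z1.add z2).not_ls hb.pos ((hc z).mono_left l3)).elim
  · refine (fin (d * d') (Ls.mono_left (ln_mul_le _ _) ((Ls.of_le l1).add (Ls.of_le l2)))
      k3).mono_right ((md_le _ q).trans ?_)
    have e : q⁻¹ * θ (d * d') * q = (q⁻¹ * θ d * q) * (q⁻¹ * θ d' * q) := by
      rw [map_mul]; group
    rw [e]; exact ln_mul_le _ _

end E_tcen

theorem p_E_TCEN (hE_GEO : S_E_GEO) (hE_TMD : S_E_TMD) :
    S_E_TCEN := by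
  intro Γ a b E S θ T ρ h
  refine ⟨?_, ?_, ?_⟩
  · rintro _ ⟨x, rfl⟩
    exact ⟨⟨cst Γ a x, h.gc.base ⟨x, rfl⟩⟩, h.st _ x rfl⟩
  · intro K hK hf
    have f1 : Finite (K.comap θ) :=
      Finite.of_injective (fun x : K.comap θ => (⟨θ x, x.2⟩ : K)) fun x y e =>
        Subtype.ext (h.inj (congrArg Subtype.val e))
    have f2 : Finite ((K.comap θ).map S.subtype) :=
      Finite.of_equiv _ ((K.comap θ).equivMapOfInjective _ S.subtype_injective).toEquiv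
    obtain ⟨p, hp, k⟩ := h.gc.finc _ (by rintro _ ⟨x, -, rfl⟩; exact x.2) f2
    refine ⟨θ ⟨p, hp⟩, ⟨_, rfl⟩, fun y hy => ?_⟩
    obtain ⟨x, rfl⟩ := hK hy
    obtain ⟨g, hg⟩ := k x ⟨x, hy, rfl⟩
    refine ⟨g, ?_⟩
    rw [← map_inv, ← map_mul, ← map_mul]
    exact (h.st _ g hg.symm).symm
  · rintro _ ⟨c, rfl⟩ _ ⟨c', rfl⟩ hc hc'
    rw [h.fin] at hc hc'
    obtain ⟨p, hp, k1, k2⟩ := h.gc.cen c c.2 c' c'.2 hc hc'
    refine ⟨θ ⟨p, hp⟩, ⟨_, rfl⟩, ((h.ls _).trans' (E.ls_iff.2 k1)).trans'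
      (E_tcen.sim_add h c c').2, fun q => ?_⟩
    set P : S := ⟨p, hp⟩
    have e1 : ∀ x : S, (θ P)⁻¹ * θ x * θ P = θ (P⁻¹ * x * P) := fun x => by
      rw [map_mul, map_mul, map_inv]
    have e2 : ∀ x : S, q⁻¹ * θ x * q = ((θ P)⁻¹ * q)⁻¹ * θ (P⁻¹ * x * P) * ((θ P)⁻¹ * q) :=
      fun x => by rw [← e1]; group
    have e3 : ∀ (x : S) (z : MM Γ a), z⁻¹ * ((P⁻¹ * x * P : S) : MM Γ a) * z =
        (p * z)⁻¹ * x * (p * z) := fun x z => by
      change z⁻¹ * (p⁻¹ * x * p) * z = _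
      group
    rw [e1, e1, e2, e2]
    have hd : ¬ IsOfFinOrder ((P⁻¹ * c * P : S) : MM Γ a) := fun k =>
      hc ((finOrder_conj' p c).1 k)
    have hz : ∀ z : MM Γ a, Ls (ln ((P⁻¹ * c * P : S) : MM Γ a) + ln ((P⁻¹ * c' * P : S) : MM Γ a))
        (ln (z⁻¹ * ((P⁻¹ * c * P : S) : MM Γ a) * z) +
          ln (z⁻¹ * ((P⁻¹ * c' * P : S) : MM Γ a) * z)) := fun z => by
      rw [e3, e3]; exact k2 _
    have p1 := ln_nonneg ((P⁻¹ * c * P : S) : MM Γ a)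
    have p2 := ln_nonneg ((P⁻¹ * c' * P : S) : MM Γ a)
    rcases le_total (ln ((P⁻¹ * c * P : S) : MM Γ a)) (ln ((P⁻¹ * c' * P : S) : MM Γ a)) with l | l
    · exact E_tcen.key hE_GEO hE_TMD h _ _ _ hd l le_rfl (by linarith) hz _
    · exact E_tcen.key hE_GEO hE_TMD h _ _ _ hd le_rfl l (by linarith) hz _

end Pool.Agent.P.MP_dba3d2_lc


end

section

/-! Step REFL0 of the stability project. -/

namespace Pool.Agent.P.MP_dba3d2_lc

open Filter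

namespace Refl0

open ET

variable {Γ : HG} {a b : Amb}

theorem prim (hP : S_E_PRJ) (E : Ext a b) (S : Subgroup (MM Γ a)) (D : Set (MM Γ a)) {J : Type}
    (U : Ultrafilter J) (A : J → Finset (MM Γ a)) (n : J → ℕ) (T : J → Subgroup (MM Γ b))
    (ι : (j : J) → MM Γ a → T j) (ρ : (j : J) → T j →* MM Γ a)
    (hA : ∀ s ∈ S, ∀ᶠ j in (U : Filter J), s ∈ A j) (hn : Tendsto n (U : Filter J) atTop)
    (hd : ∀ j, Adm E (A j) D (n j) (T j) (ι j) (ρ j)) {c : MM Γ a} (hc : c ∈ S) (pc : Prim c)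
    (cc : Cen c) (hb : Big (ln c)) :
    Prim (a := b.pow U) (b.mk' U fun j => (ι j c : MM Γ b)) := by
  rw [prim_mk']
  filter_upwards [hA c hc, hn.eventually_ge_atTop 1] with j h1 h2
  have e := (hd j).sec c h1
  refine hP _ _ _ E _ (ρ j) (n j) _ (hd j).gc (hd j).retr h2 (e.symm ▸ pc)
    (e.symm ▸ hb.of_ls cc) ?_
  rw [e]
  refine Ls.mono_left (md_le_ln _) (Ls.trans' ?_ (E.ls_iff.2 cc))
  have b1 := E.big_iff.2 hb
  have k := (b1.ll_of_not_big ((hd j).ni c h1)) 1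
  have n1 : (1 : b.K) ≤ n j := by exact_mod_cast h2
  refine ⟨3, ?_⟩
  change ((1 : ℕ) : b.K) * (_ - _ * E.kh (ln c)) ≤ _ at k
  push_cast at k ⊢
  by_contra hh
  have := mul_lt_mul_of_pos_left (not_le.1 hh) (zero_lt_one.trans_le n1)
  nlinarith [b1.pos]

end Refl0

open ET in
theorem p_REFL0 (hE_LIM : S_E_LIM) (hE_G2U : S_E_G2U) (hE_PU : S_E_PU) (hE_PW : S_E_PW) (hE_PRJ : S_E_PRJ) (hE_TG2 : S_E_TG2) (hE_TEX : S_E_TEX) (hE_TCEN : S_E_TCEN) :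
    S_REFL0 := by
  intro Γ a b E S D J U A n T ι ρ hS hA hn hd
  obtain ⟨θ, R, hR, hf, hθ⟩ := hE_LIM Γ a b E S D J U A n T ι ρ hS hA hn hd
  have sc : ∀ s : MM Γ a, (E.pow U).kh (ln ((a.dg U).hom Γ s)) = (b.dg U).kh (E.kh (ln s)) :=
    fun s => by rw [Ext.ln_hom, pow_dg_kh]
  have h2 : Rf2 (E.pow U) _ θ (UT U T) R := by
    refine ⟨hf, ?_, ?_, ?_⟩
    · rintro ⟨_, s, hs, rfl⟩ s' hb hl g p q
      have l1 := hf.ls ⟨_, s, hs, rfl⟩
      have l2 := (hf.ls s').trans' ((E.pow U).ls_iff.2 hl)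
      dsimp only at hb l1 l2 ⊢
      rw [sc] at l1 l2 ⊢
      rw [Ext.ln_hom, Ext.big_iff] at hb
      exact hE_G2U Γ b J U T _ (fun j => (hd j).gc) (E.big_iff.2 hb) _ (hf.mem _) _ (hf.mem _)
        l1 l2 g p q
    · rintro ⟨_, s, hs, rfl⟩ hb p q d h1 h2 h3 pd h4
      have l1 := hf.ls ⟨_, s, hs, rfl⟩
      have w := hE_PW _ _ _ _ _ _ _ _ hf ⟨_, s, hs, rfl⟩
      dsimp only at hb l1 h1 h2 h3 h4 w
      have hb' := hb
      rw [sc] at l1 h1 h2 h3 h4 w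
      rw [Ext.ln_hom, Ext.big_iff] at hb
      obtain ⟨t, rfl, k | k⟩ := hE_PU Γ a b E J U T ρ n R _ (fun j => (hd j).gc)
        (fun j => (hd j).retr) hR hb _ (hf.mem _) p q d l1 h1 h2 h3 pd h4
      · exact ⟨t, rfl, k⟩
      · exact ⟨t, rfl, w t p q hb' h1 h2 h3 pd h4 k⟩
    · rintro ⟨_, s, hs, rfl⟩ ps
      have ps0 : Prim s := (a.dg U).prim_iff.1 ps
      obtain ⟨p, hp, -, cc⟩ := hS.toGC0.cen1 hs ps0.1
      have hc : p⁻¹ * s * p ∈ S := S.mul_mem (S.mul_mem (S.inv_mem hp) hs) hp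
      have key : Prim (θ ⟨_, _, hc, rfl⟩) := by
        by_cases hb : Big (ln (p⁻¹ * s * p))
        · rw [hθ _ hc _ rfl]
          exact Refl0.prim hE_PRJ E S D U A n T ι ρ hA hn hd hc (ps0.conj' p) cc hb
        · rw [hf.std _ (by rwa [Ext.ln_hom, Ext.big_iff]), Ext.prim_iff, Ext.prim_iff]
          exact ps0.conj' p
      have e : (⟨_, s, hs, rfl⟩ : S.map ((a.dg U).hom Γ)) =
          ⟨_, p, hp, rfl⟩ * ⟨_, _, hc, rfl⟩ * (⟨_, p, hp, rfl⟩ : S.map ((a.dg U).hom Γ))⁻¹ :=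
        Subtype.ext (by simp [mul_assoc])
      rw [e, map_mul, map_mul, map_inv]
      exact key.conj _
  obtain ⟨g2, g20⟩ := hE_TG2 _ _ _ _ _ _ _ _ h2
  obtain ⟨ex, pur⟩ := hE_TEX _ _ _ _ _ _ _ _ h2
  obtain ⟨base, finc, cen⟩ := hE_TCEN _ _ _ _ _ _ _ _ hf
  let e := S.equivMapOfInjective ((a.dg U).hom Γ) (a.dg U).hom_injective
  refine ⟨θ.comp e.toMonoidHom, hf.inj.comp e.injective, ?_, fun s => hθ s s.2 _ rfl, fun s => ?_⟩
  · have : (θ.comp e.toMonoidHom).range = θ.range := by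
      rw [MonoidHom.range_comp, MonoidHom.range_eq_top.2 e.surjective, ← MonoidHom.range_eq_map]
    rw [this]
    exact ⟨⟨base, g2, g20, ex, pur, cen⟩, finc⟩
  · have := hf.sim (e s)
    rwa [show ((e s : S.map ((a.dg U).hom Γ)) : MM Γ (a.pow U)) = (a.dg U).hom Γ s from rfl,
      sc] at this

end Pool.Agent.P.MP_dba3d2_lc


end

section

/-! Step REFL2 of the stability project. -/

namespace Pool.Agent.P.MP_dba3d2_lc

open Filter

theorem p_REFL2 (hREFL0 : S_REFL0) :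
    S_REFL2 := by
  classical
  intro Γ a b E S m k Q h x hS hQ hh hx hSt
  by_contra hc
  simp only [not_exists, not_and, not_forall] at hc
  let A : Finset S × ℕ → Finset (MM Γ a) := fun j =>
    j.1.image Subtype.val ∪ Finset.univ.image x
  have hA : ∀ j, ∀ w ∈ A j, w ∈ S := by
    intro j w hw
    rcases Finset.mem_union.1 hw with hw | hw
    · obtain ⟨s, -, rfl⟩ := Finset.mem_image.1 hw
      exact s.2
    · obtain ⟨i, -, rfl⟩ := Finset.mem_image.1 hw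
      exact hx i
  have hAx : ∀ j i, x i ∈ A j := fun j i =>
    Finset.mem_union_right _ (Finset.mem_image_of_mem _ (Finset.mem_univ i))
  choose T ι ρ hAdm hn using fun j : Finset S × ℕ => hc (A j) j.2 (hA j) (hAx j)
  let U : Ultrafilter (Finset S × ℕ) := Ultrafilter.of atTop
  have hU : (U : Filter (Finset S × ℕ)) ≤ atTop := Ultrafilter.of_le _
  have hev : ∀ s ∈ S, ∀ᶠ j in (U : Filter (Finset S × ℕ)), s ∈ A j := fun s hs =>
    ((eventually_ge_atTop (({⟨s, hs⟩} : Finset S), 0)).filter_mono hU).mono fun j hj =>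
      Finset.mem_union_left _
        (Finset.mem_image.2 ⟨⟨s, hs⟩, hj.1 (Finset.mem_singleton_self _), rfl⟩)
  have hn' : Tendsto (fun j : Finset S × ℕ => j.2) (U : Filter (Finset S × ℕ)) atTop :=
    tendsto_atTop.2 fun n =>
      ((eventually_ge_atTop ((∅ : Finset S), n)).filter_mono hU).mono fun j hj => hj.2
  obtain ⟨θ, inj, gc, e, -⟩ :=
    hREFL0 Γ a b E S (Set.range h) _ U A (fun j => j.2) T ι ρ hS hev hn' hAdm
  let v : Fin m ⊕ Fin k → S := Sum.elim (fun i => ⟨h i, hh i⟩) fun i => ⟨x i, hx i⟩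
  have e1 : (fun i => (v i : MM Γ a)) = Sum.elim h x := by
    funext i
    rcases i with i | i <;> rfl
  have e2 : (fun i => θ (v i)) = fun i => b.mk' U fun j =>
      Sum.elim (fun i => E.hom Γ (h i)) (fun i => (ι j (x i) : MM Γ b)) i := by
    funext i
    rw [e]
    rcases i with i | i
    · refine (mk'_eq_iff U _ _).2 ?_
      filter_upwards [hev _ (hh i)] with j hj
      exact (hAdm j).fix _ hj (Or.inl ⟨i, rfl⟩)
    · rfl
  have h1 := (hQ a (b.pow U) S θ hS gc inj v).1 (by rwa [e1])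
  rw [e2, st_mk'] at h1
  obtain ⟨j, hj⟩ := h1.exists
  exact hn j hj

end Pool.Agent.P.MP_dba3d2_lc


end
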