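import Pool.Agent.P.MP_dba3d2_lcM.Ab05
import Pool.Agent.P.MP_dba3d2_lcM.Bb10
import Pool.Agent.P.MP_dba3d2_lcM.Cb18
import Pool.Agent.P.MP_dba3d2_lcM.Eb26
import Pool.Agent.P.MP_dba3d2_lcM.Eb29
import Pool.Agent.P.MP_dba3d2_lcM.Db59

section

/-! Step REFL1 of the stability project. -/

namespace Pool.Agent.P.MP_dba3d2_lc

open Filter ET

namespace Refl1

variable {Γ : HG} {a b c : Amb}

/-- gluing an embedding of a ball with the embedding of `H` given by the extension -/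
theorem glue (hCVX : S_CVX) (hEXTGC : S_EXTGC) (hGRAFT : S_GRAFT) (hGISO : S_GISO)
    (E : Ext a b) (F : Ext b c) {H : Subgroup (MM Γ a)} {μ : a.K} (hH : GC H) (hμ : Big μ)
    (θ : ball Γ μ →* MM Γ c) (inj : Function.Injective θ) (gc : GC θ.range)
    (fix : ∀ w : ball Γ μ, (w : MM Γ a) ∈ H → θ w = F.hom Γ (E.hom Γ w))
    (len : ∀ s : ball Γ μ, Sim (ln (θ s)) (F.kh (E.kh (ln (s : MM Γ a))))) :
    ∃ Θ : ↥(H ⊔ ball Γ μ) →* MM Γ c, Function.Injective Θ ∧ GC Θ.range ∧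
      (∀ x : H, Θ ⟨x, (le_sup_left : H ≤ H ⊔ ball Γ μ) x.2⟩ = F.hom Γ (E.hom Γ x)) ∧
      ∀ y : ball Γ μ, Θ ⟨y, (le_sup_right : ball Γ μ ≤ H ⊔ ball Γ μ) y.2⟩ = θ y := by
  let θ0 : H →* MM Γ c := ((F.hom Γ).comp (E.hom Γ)).comp H.subtype
  have e0 : ∀ x : H, θ0 x = F.hom Γ (E.hom Γ x) := fun _ => rfl
  have r0 : θ0.range = (H.map (E.hom Γ)).map (F.hom Γ) := by
    rw [Subgroup.map_map, MonoidHom.range_comp, Subgroup.range_subtype]
  have g0 : GC θ0.range := r0 ▸ (hEXTGC _ _ _ F _).2 ((hEXTGC _ _ _ E _).2 hH)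
  have i0 : Function.Injective θ0 :=
    (F.hom_injective.comp E.hom_injective).comp Subtype.val_injective
  have l0 : ∀ x : H, ln (θ0 x) = F.kh (E.kh (ln (x : MM Γ a))) := fun x => by
    rw [e0, F.ln_hom, E.ln_hom]
  have key : ∀ x : H, θ0 x ∈ θ.range → (x : MM Γ a) ∈ ball Γ μ := by
    rintro x ⟨w, hw⟩
    have k' := (len w).1
    rw [hw, l0, F.ls_iff, E.ls_iff] at k'
    exact (mem_ball hμ.pos.le).2 (k'.trans' ((mem_ball hμ.pos.le).1 w.2))
  have sep : Sep θ0.range θ.range := by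
    rintro _ ⟨x, rfl⟩ hn _ ⟨w, rfl⟩
    have hx : (x : MM Γ a) ∉ ball Γ μ := fun k =>
      hn ⟨⟨x, k⟩, (fix ⟨x, k⟩ x.2).trans (e0 x).symm⟩
    have k := sep_ball hμ H x x.2 hx w w.2
    rw [l0]
    exact Ll.ls_left (len w).1 (F.ll_iff.2 (E.ll_iff.2 k))
  have hW : GC (ball Γ μ) := gc_ball hCVX hμ
  obtain ⟨Θ, h1, h2, h3, h4⟩ := hGISO Γ a c H (ball Γ μ) θ0 θ hH.toGC0 hW.toGC0 (sep_ball hμ H)
    g0.toGC0 gc.toGC0 sep i0 inj (fun x y => ⟨fun e => by
      rw [fix y (e ▸ x.2), e0, e], fun e => by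
      have k := key x ⟨y, e.symm⟩
      have e' : θ ⟨x, k⟩ = θ y := (fix ⟨x, k⟩ x.2).trans e
      exact congrArg Subtype.val (inj e')⟩) key
  exact ⟨Θ, h1, h2 ▸ gc_sup hGRAFT g0 gc sep, h3, h4⟩

end Refl1

theorem p_REFL1 (hCVX : S_CVX) (hEXTGC : S_EXTGC) (hREFL0 : S_REFL0) (hGRAFT : S_GRAFT) (hGISO : S_GISO) :
    S_REFL1 := by
  classical
  intro Γ a b E H μ m k Q h x hH hμ hQ hh hx hst
  by_contra hne
  push Not at hne
  let J := Finset (ball Γ μ) × ℕ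
  let A : J → Finset (MM Γ a) := fun j =>
    j.1.image Subtype.val ∪ Finset.univ.image x
  have hA : ∀ j, ∀ w ∈ A j, w ∈ ball Γ μ := by
    intro j w hw
    rcases Finset.mem_union.1 hw with k | k
    · obtain ⟨v, -, rfl⟩ := Finset.mem_image.1 k
      exact v.2
    · obtain ⟨i, -, rfl⟩ := Finset.mem_image.1 k
      exact hx i
  have hxA : ∀ j i, x i ∈ A j := fun j i =>
    Finset.mem_union_right _ (Finset.mem_image_of_mem _ (Finset.mem_univ i))
  choose T ι ρ adm bad using fun j : J => hne (A j) j.2 (hA j) (hxA j)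
  let U : Ultrafilter J := Ultrafilter.of atTop
  have hU : (U : Filter J) ≤ atTop := Ultrafilter.of_le _
  have ev : ∀ s ∈ ball Γ μ, ∀ᶠ j in (U : Filter J), s ∈ A j := fun s hs => by
    filter_upwards [hU (eventually_ge_atTop (({⟨s, hs⟩} : Finset (ball Γ μ)), 0))] with j hj
    exact Finset.mem_union_left _
      (Finset.mem_image.2 ⟨⟨s, hs⟩, hj.1 (Finset.mem_singleton_self _), rfl⟩)
  have tn : Tendsto (fun j : J => j.2) (U : Filter J) atTop :=
    tendsto_atTop.2 fun n => by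
      filter_upwards [hU (eventually_ge_atTop ((∅ : Finset (ball Γ μ)), n))] with j hj
      exact hj.2
  obtain ⟨θ, inj, gc, rep, len⟩ := hREFL0 Γ a b E (ball Γ μ) H J U A (fun j => j.2) T ι ρ
    (gc_ball hCVX hμ) ev tn adm
  have fix : ∀ w : ball Γ μ, (w : MM Γ a) ∈ H → θ w = (b.dg U).hom Γ (E.hom Γ w) := fun w hw => by
    rw [rep, ← mk'_hom, mk'_eq_iff]
    filter_upwards [ev w w.2] with j hj
    exact (adm j).fix w hj (Or.inl hw)
  obtain ⟨Θ, h1, h2, h3, h4⟩ := Refl1.glue hCVX hEXTGC hGRAFT hGISO E (b.dg U) hH hμ θ inj gc fix len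
  let v : Fin m ⊕ Fin k → ↥(H ⊔ ball Γ μ) := Sum.elim
    (fun i => ⟨h i, (le_sup_left : H ≤ H ⊔ ball Γ μ) (hh i)⟩)
    fun i => ⟨x i, (le_sup_right : ball Γ μ ≤ H ⊔ ball Γ μ) (hx i)⟩
  have e1 : (fun i => (v i : MM Γ a)) = Sum.elim h x := by
    funext i; cases i <;> rfl
  have e2 : (fun i => Θ (v i)) = fun i => b.mk' U fun j =>
      Sum.elim (fun i => E.hom Γ (h i)) (fun i => (ι j (x i) : MM Γ b)) i := by
    funext i
    cases i with
    | inl i => exact (h3 ⟨h i, hh i⟩).trans (mk'_hom U _).symm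
    | inr i => exact (h4 ⟨x i, hx i⟩).trans (rep _)
  have k1 := (hQ a (b.pow U) _ Θ (gc_sup hGRAFT hH (gc_ball hCVX hμ) (sep_ball hμ H)) h2 h1 v).1
    (e1 ▸ hst)
  rw [e2, st_mk'] at k1
  obtain ⟨j, hj⟩ := k1.exists
  exact bad j hj

end Pool.Agent.P.MP_dba3d2_lc


end

section

/-! Step MOVE of the stability project. -/

namespace Pool.Agent.P.MP_dba3d2_lc

open Filter

namespace MoveA

variable {Γ : HG} {a b : Amb}

theorem tl_coe {k : ℕ} (g : Fin k → a.I → Γ.G) : tl (fun i => (Germ.ofFun (g i) : MM Γ a)) =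
    Germ.ofFun fun j => ∑ i, (Γ.len (g i j) : ℝ) :=
  Bas2A.sum_coe Finset.univ fun i j => (Γ.len (g i j) : ℝ)

theorem st_elim {m k : ℕ} (Q : (Fin m ⊕ Fin k → Γ.G) → Prop) (f : Fin m → a.I → Γ.G)
    (g : Fin k → a.I → Γ.G) :
    St Q (Sum.elim (fun i => (Germ.ofFun (f i) : MM Γ a)) fun i => (Germ.ofFun (g i) : MM Γ a)) ↔
      ∀ᶠ j in (a.V : Filter a.I), Q (Sum.elim (fun i => f i j) fun i => g i j) := by
  have e := st_coe (a := a) Q (Sum.elim f g)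
  have e1 : (fun i => (Germ.ofFun (Sum.elim f g i) : MM Γ a)) =
      Sum.elim (fun i => (Germ.ofFun (f i) : MM Γ a)) fun i => (Germ.ofFun (g i) : MM Γ a) :=
    funext fun i => by cases i <;> rfl
  have e2 : ∀ j, (fun i => Sum.elim f g i j) = Sum.elim (fun i => f i j) fun i => g i j :=
    fun j => funext fun i => by cases i <;> rfl
  rw [e1] at e
  simpa only [e2] using e

/-- a witness of least length, also among the witnesses of the extension -/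
theorem exists_least (E : Ext a b) {m k : ℕ} (Q : (Fin m ⊕ Fin k → Γ.G) → Prop)
    (h : Fin m → MM Γ a) (x : Fin k → MM Γ a) (hx : St Q (Sum.elim h x)) :
    ∃ x0 : Fin k → MM Γ a, St Q (Sum.elim h x0) ∧ ∀ y : Fin k → MM Γ b,
      St Q (Sum.elim (fun i => E.hom Γ (h i)) y) → E.kh (tl x0) ≤ tl y := by
  obtain ⟨f, rfl⟩ := Bas2A.rep h
  obtain ⟨g, rfl⟩ := Bas2A.rep x
  obtain ⟨z, hz⟩ := (((st_elim Q f g).1 hx).mono fun j hj =>
    (show ∃ z, Q (Sum.elim (fun i => f i j) z) ∧ ∀ y, Q (Sum.elim (fun i => f i j) y) →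
      ∑ i, Γ.len (z i) ≤ ∑ i, Γ.len (y i) from
    ⟨_, Function.argminOn_mem (fun z : Fin k → Γ.G => ∑ i, Γ.len (z i))
      {z | Q (Sum.elim (fun i => f i j) z)} ⟨_, hj⟩,
      fun y hy => Function.argminOn_le (fun z : Fin k → Γ.G => ∑ i, Γ.len (z i)) _ hy⟩)).choice
  refine ⟨_, (st_elim Q f fun i j => z j i).2 (hz.mono fun j h => h.1), fun y hy => ?_⟩
  obtain ⟨w, rfl⟩ := Bas2A.rep y
  have hw := (st_elim Q (fun i j => f i (E.π j)) w).1 hy
  rw [tl_coe, tl_coe]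
  refine Germ.coe_le.2 ?_
  filter_upwards [E.hπ.eventually hz, hw] with j h1 h2
  change ∑ i, (Γ.len (z (E.π j) i) : ℝ) ≤ ∑ i, (Γ.len (w i j) : ℝ)
  exact_mod_cast h1.2 _ h2

end MoveA

open ET in
theorem p_MOVE (hEXTGC : S_EXTGC) (hGRAFT : S_GRAFT) (hGISO : S_GISO) :
    S_MOVE := by
  intro Γ a b E H μ m k Q h x T σ y hH hμ hQ hh hmin hT hTb hHT hσ hfix hy
  have hX : GC (H.map (E.hom Γ)) := (hEXTGC Γ a b E H).2 hH
  have hμ' : Big (E.kh μ) := E.big_iff.2 hμ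
  have sep : Sep (H.map (E.hom Γ)) T := by
    refine sep_of_le hμ' ?_ hTb
    rintro _ ⟨⟨g, hg, rfl⟩, h2⟩
    exact hHT ⟨g, ⟨hg, (hom_mem_ball E hμ.pos.le).1 h2⟩, rfl⟩
  have r0 : (H.map (E.hom Γ)).subtype.range = H.map (E.hom Γ) := Subgroup.range_subtype _
  have r1 : (T.subtype.comp σ).range = T := by
    rw [MonoidHom.range_comp, MonoidHom.range_eq_top.2 hσ.2, ← MonoidHom.range_eq_map,
      Subgroup.range_subtype]
  obtain ⟨θ, i1, r2, e0, e1⟩ := hGISO Γ b b (H.map (E.hom Γ)) T (H.map (E.hom Γ)).subtype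
    (T.subtype.comp σ) hX.toGC0 hT.toGC0 sep (by rw [r0]; exact hX.toGC0)
    (by rw [r1]; exact hT.toGC0) (by rw [r0, r1]; exact sep) (Subgroup.subtype_injective _)
    ((Subgroup.subtype_injective _).comp hσ.1)
    (fun s t => by
      change _ ↔ (s : MM Γ b) = (σ t : MM Γ b)
      refine ⟨fun e => ?_, fun e => ?_⟩
      · rw [hfix t (e ▸ s.2), e]
      · rw [e, hσ.1 (hfix (σ t) (e ▸ s.2))])
    (fun s hs => by rw [r1] at hs; exact hs)
  have gc := gc_sup hGRAFT hX hT sep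
  have tr := hQ b b _ θ gc (by rw [r2, r0, r1]; exact gc) i1
    (Sum.elim (fun i => ⟨E.hom Γ (h i), (le_sup_left : H.map (E.hom Γ) ≤ _) ⟨h i, hh i, rfl⟩⟩)
      fun i => ⟨y i, (le_sup_right : T ≤ _) (y i).2⟩)
  have hs : St Q (Sum.elim (fun i => E.hom Γ (h i)) fun i => (σ (y i) : MM Γ b)) := by
    convert tr.1 ?_ using 2 with i
    · rcases i with i | i
      · exact (e0 ⟨E.hom Γ (h i), h i, hh i, rfl⟩).symm
      · exact (e1 (y i)).symm
    · convert hy using 2 with i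
      rcases i with i | i <;> rfl
  obtain ⟨x0, h0, h1⟩ := MoveA.exists_least E Q h x hmin.1
  have h2 := E.ll_iff.2 (hmin.2 x0 h0)
  rw [map_sub] at h2
  exact Ll.mono_left (sub_le_sub_left (h1 _ hs) _) h2

end Pool.Agent.P.MP_dba3d2_lc


end

section

/-! Step E_END of the stability project. -/

namespace Pool.Agent.P.MP_dba3d2_lc

open Filter

namespace E_end

variable {b : Amb} {ν x y : b.K}

theorem ls_nmul (hx : Ls |x| ν) (n : ℕ) : Ls |(n : b.K) * x| ν := by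
  rw [abs_mul, Nat.abs_cast]
  exact hx.nat_mul n

theorem rl_nmul (hν : 0 < ν) (hx : Ls |x| ν) (n : ℕ) : rl ν (n * x) = n * rl ν x := by
  have := ET.rl_sum (Finset.range n) (fun _ => x) hν fun _ _ => hx
  simpa using this

theorem nmul_le (hν : 0 < ν) (hx : Ls |x| ν) (hy : Ls |y| ν) (n : ℕ)
    (h : n * rl ν x < (n + 1) * rl ν y) : (n : b.K) * x - (n + 1) * y ≤ 0 := by
  by_contra e
  have e' : ((n + 1 : ℕ) : b.K) * y ≤ n * x := by
    push_cast
    linarith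
  have := rl_mono hν (ls_nmul hy _) (ls_nmul hx _) e'
  rw [rl_nmul hν hy, rl_nmul hν hx] at this
  push_cast at this
  linarith

theorem exists_eta {ι : Type} (A : Finset ι) (f : ι → ℝ) (n : ℕ) :
    ∃ η : ℝ, 0 < η ∧ ∀ w ∈ A, 0 < f w → n * η < f w := by
  have h : ∀ᶠ η in nhdsWithin (0 : ℝ) (Set.Ioi 0), ∀ w ∈ A, 0 < f w → n * η < f w := by
    refine (eventually_all_finset A).2 fun w _ => ?_
    by_cases hw : 0 < f w
    · have c : Tendsto (fun η : ℝ => n * η) (nhds 0) (nhds (n * 0)) := tendsto_id.const_mul _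
      rw [mul_zero] at c
      exact ((c.eventually (gt_mem_nhds hw)).filter_mono nhdsWithin_le_nhds).mono
        fun η k _ => k
    · exact Eventually.of_forall fun η k => absurd k hw
  obtain ⟨η, h1, h2⟩ := (h.and self_mem_nhdsWithin).exists
  exact ⟨η, h2, h1⟩

end E_end

open E_end ET in
theorem p_E_END (hREFL1 : S_REFL1) (hMOVE : S_MOVE) :
    S_E_END := by
  classical
  intro Γ a b E H μ m k Q h x hH hμ hQ hh hx
  obtain ⟨A0, n, hA0, hxA, HR⟩ := hREFL1 Γ a b E H μ m k Q h (fun i => (x i : MM Γ a)) hH hμ hQ hh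
    (fun i => (x i).2) hx.1
  obtain ⟨η, hη, hη'⟩ := exists_eta A0 (fun w => rl μ (ln w)) n
  refine ⟨A0, η, hA0, hη, ?_⟩
  intro R φ hφ A hA T ψ ρ σ hT hTb hHT hρ hmul hfix hsec hlen hσ hσf
  have hν : Big (E.kh μ) := E.big_iff.2 hμ
  obtain ⟨ι, hι⟩ : ∃ ι : MM Γ a → T, ∀ g : R.W, ι (φ g) = ψ g :=
    ⟨fun w => if hw : w ∈ ball Γ μ then ψ (φ.symm ⟨w, hw⟩) else 1, fun g => by
      simp only [dif_pos (φ g).2, Subtype.coe_eta, MulEquiv.symm_apply_apply]⟩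
  have rep : ∀ w ∈ A0, ∃ g ∈ A, (φ g : MM Γ a) = w := fun w hw =>
    ⟨φ.symm ⟨w, hA0 w hw⟩, hA _ (by simpa using hw), by simp⟩
  have lT : ∀ t : T, Ls |ln (t : MM Γ b)| (E.kh μ) := fun t => ls_ln hν ⟨t, hTb t.2⟩
  have lE : ∀ g : ball Γ μ, Ls |E.kh (ln (g : MM Γ a))| (E.kh μ) := fun g => by
    rw [← E.kh_abs]; exact E.ls_iff.2 (ls_ln hμ g)
  have hS := HR T ι ρ ⟨hT.toGC0, hρ n, fun w hw w' hw' hww => ?_, fun w hw hc => ?_,
    fun w hw => ?_, fun w hw => ?_⟩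
  · have k := hMOVE Γ a b E H μ m k Q h (fun i => (x i : MM Γ a)) T σ (fun i => ι (x i)) hH hμ hQ
      hh hx hT hTb hHT hσ hσf hS
    change Ll (E.kh _ - _) (E.kh μ) at k
    rw [tl, tl, map_sum] at k
    have k2 := rl_le_of_ll hν.pos (ls_abs_sum _ _ hν.pos.le fun i _ => lE (x i))
      (ls_abs_sum _ _ hν.pos.le fun i _ => lT _) k
    rw [rl_sum _ _ hν.pos fun i _ => lE (x i), rl_sum _ _ hν.pos fun i _ => lT _] at k2
    refine le_of_eq_of_le (Finset.sum_congr rfl fun i _ => ?_)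
      (k2.trans_eq (Finset.sum_congr rfl fun i _ => ?_))
    · rw [hφ, E.rl_kh, MulEquiv.apply_symm_apply]
    · rw [← hι, MulEquiv.apply_symm_apply]
  · obtain ⟨g, hg, rfl⟩ := rep w hw
    obtain ⟨g', hg', rfl⟩ := rep w' hw'
    rw [← Subgroup.coe_mul, ← map_mul] at hww ⊢
    rw [hι, hι, hι, hmul g hg g' hg' (hA _ hww)]
  · obtain ⟨g, hg, rfl⟩ := rep w hw
    rw [hι]
    refine hfix g hg (hc.imp id fun e => ?_)
    exact (phi_l_zero hμ hφ g).2 (hμ.ll_of_not_big (mem_std_iff.1 e))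
  · obtain ⟨g, hg, rfl⟩ := rep w hw
    rw [hι, hsec g hg]
  · obtain ⟨g, hg, rfl⟩ := rep w hw
    rw [hι]
    refine Tre.nb_le (not_big_nat 0) ?_
    rw [Nat.cast_zero]
    change _ - _ * E.kh _ ≤ _
    rcases (rl_nonneg hμ.pos (ln_nonneg (φ g : MM Γ a))).lt_or_eq with e | e
    · refine nmul_le hν.pos (lT _) (lE _) n ?_
      have k1 := hη' _ hw e
      have k2 := mul_le_mul_of_nonneg_left (hlen g hg) (Nat.cast_nonneg (α := ℝ) n)
      rw [hφ] at k2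
      rw [E.rl_kh]
      linarith
    · rw [hfix g hg (Or.inr (by rw [hφ, e])), E.ln_hom]
      have := (GT.kh_nonneg E).2 (ln_nonneg (φ g : MM Γ a))
      linarith

end Pool.Agent.P.MP_dba3d2_lc


end

section

/-! Step E_ORI of the stability project. -/

namespace Pool.Agent.P.MP_dba3d2_lc

open Filter ET

namespace E_oriA

variable {Γ : HG} {a : Amb} {μ : a.K} {g x y z : MM Γ a}

theorem eu (h : Ll (ds x y) μ) (h' : Ll (ds x z) μ) : Ll (ds y z) μ :=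
  Ll.mono_left (by linarith [ds_tri y x z, ds_comm x y]) (h.add h')

theorem tr (h : Ll (ds x y) μ) (h' : Ll (ds y z) μ) : Ll (ds x z) μ :=
  Ll.mono_left (ds_tri x y z) (h.add h')

theorem mem (hμ : Big μ) (hx : x ∈ ball Γ μ) (hy : y ∈ ball Γ μ) (h : Ll (ds (g * x) y) μ) :
    g ∈ ball Γ μ := by
  have := mul_mem (mul_mem hy (inv_mem ((mem_ball hμ.pos.le).2 h.ls))) (inv_mem hx)
  simpa using this

end E_oriA

open E_oriA in
theorem p_E_ORI (hELEM : S_ELEM) (hPERC : S_PERC) (hE_TRL : S_E_TRL) :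
    S_E_ORI := by
  intro Γ a μ R φ L hμ hφ hL
  have key : ∀ {s t}, Ll (ds (φ (L s) : MM Γ a) (φ (L t))) μ → s = t := fun {s t} h => by
    have := (phi_d_zero hμ hφ _ _).2 h
    rwa [hL.iso, abs_eq_zero, sub_eq_zero] at this
  have hg : ∀ g s t, R.d (g * L s) (L t) = 0 ↔
      Ll (ds ((φ g : MM Γ a) * (φ (L s) : MM Γ a)) (φ (L t))) μ := fun g s t => by
    rw [phi_d_zero hμ hφ, map_mul, Subgroup.coe_mul]
  have n : Ls μ (ds (φ (L 0) : MM Γ a) (φ (L 1))) :=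
    (phi_d_pos hμ hφ _ _).1 (by rw [hL.iso]; simp)
  obtain ⟨c, pc, st, -⟩ := hPERC Γ a μ _ _ hμ n ((phi_per hμ hφ _ _).1 (hL.per 0 1 one_pos))
  have s0 := ds_comm _ _ ▸ st.1
  have s1 := ds_comm _ _ ▸ st.2
  have hc : c ∈ ball Γ μ := mem hμ (φ (L 0)).2 (φ (L 0)).2 s0
  have fx : ∀ t, Ll (ds (φ (L t) : MM Γ a) (c * (φ (L t) : MM Γ a))) μ := fun t => by
    have e := hg (φ.symm ⟨c, hc⟩)
    simp only [MulEquiv.apply_symm_apply] at e
    obtain ⟨ε, b, -, h⟩ := hL.rig _ 0 1 0 1 one_pos ((e _ _).2 s0) ((e _ _).2 s1)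
    have e0 := key (eu s0 ((e _ _).1 (h 0)))
    have e1 := key (eu s1 ((e _ _).1 (h 1)))
    have := (e _ _).1 (h t)
    rwa [show ε * t + b = t by linear_combination (t - 1) * e0 - t * e1, ds_comm] at this
  obtain ⟨κ, hκ⟩ := hE_TRL Γ a μ (fun t => φ (L t)) c hμ
    (fun s t => hL.iso s t ▸ phi_d_ll hμ hφ _ _) pc.1 fx
  refine ⟨c, hc, pc, fx, ⟨κ, fun q => mem hμ (φ (L 0)).2 (φ (L _)).2 (hκ q 0), hκ⟩,
    fun g ε β _ h => ?_⟩
  replace h := fun t => (hg g _ _).1 (h t)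
  have i : InE c (φ g : MM Γ a) := inE_of_stab hELEM hPERC hμ n pc.1 st
    ⟨fix_congr (fx _) (ds_comm _ _ ▸ h 0), fix_congr (fx _) (ds_comm _ _ ▸ h 1)⟩
  have k : ∀ q : ℚ, (φ g : MM Γ a) * ipow c (κ 1) = ipow c (κ q) * (φ g : MM Γ a) → ε = q := fun q e => by
    have a1 := hκ 1 0
    have a2 := h 0
    rw [← ds_mul_left (φ g : MM Γ a), ← mul_assoc, e, mul_assoc] at a1
    rw [← ds_mul_left (ipow c (κ q))] at a2
    have := key (eu (E_oriA.tr a1 (h _)) (E_oriA.tr a2 (hκ q _)))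
    push_cast at this
    linarith
  refine ⟨i, fun e => by simpa using k 1 (commute_k κ e 1).eq, fun e => by_contra fun e' => ?_⟩
  have := k (-1) (mul_inv_eq_iff_eq_mul.1 (invert_k κ i e' 1))
  push_cast at this
  linarith

end Pool.Agent.P.MP_dba3d2_lc


end

section

/-! Step NO3 of the stability project. -/

namespace Pool.Agent.P.MP_dba3d2_lc

open Filter ET

namespace No3

variable {Γ : HG} {a b : Amb}

/-- extension of homomorphisms from a parametrised base to the letters -/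
theorem ext_key {G0 : Type} [Group G0] (j0 : G0 →* MM Γ b) (hj : Function.Injective j0)
    {B : Subgroup (MM Γ b)} (hB : j0.range = B) {r : ℕ} {K : Fin r → Subgroup Γ.G}
    {u : Fin r → MM Γ b} (hX : ExtL B u)
    (hcj : ∀ i, ∀ x ∈ B, (u i)⁻¹ * x * u i ∈ B → x ∈ (K i).map (cst Γ b))
    (hcm : ∀ i, ∀ k ∈ K i, Commute (u i) (cst Γ b k)) {G : Type} [Group G] (θ0 : G0 →* G)
    (ν : Fin r → G) (h : ∀ i, ∀ k ∈ K i, ∀ t, j0 t = cst Γ b k → Commute (ν i) (θ0 t)) :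
    ∃ θ : ↥(B ⊔ Subgroup.closure (Set.range u)) →* G,
      (∀ (x : ↥(B ⊔ Subgroup.closure (Set.range u))) t, (x : MM Γ b) = j0 t → θ x = θ0 t) ∧
      ∀ (x : ↥(B ⊔ Subgroup.closure (Set.range u))) i, (x : MM Γ b) = u i → θ x = ν i := by
  subst hB
  let e : G0 ≃* j0.range := MonoidHom.ofInjective hj
  have he : ∀ x : j0.range, j0 (e.symm x) = x := fun x => by
    have := MonoidHom.ofInjective_apply hj (x := e.symm x)
    rw [← this]
    exact congrArg Subtype.val (e.apply_symm_apply x)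
  obtain ⟨θ, h1, h2⟩ := hX G (θ0.comp e.symm.toMonoidHom) ν (by
    intro i x y exy
    obtain ⟨k, hk, ek⟩ := hcj i x x.2 (exy ▸ y.2)
    have e1 : y = x := Subtype.ext (by
      rw [exy, ← ek, mul_assoc, ← (hcm i k hk).eq, inv_mul_cancel_left])
    have c := h i k hk (e.symm x) ((he x).trans ek.symm)
    rw [e1]
    show θ0 (e.symm x) = (ν i)⁻¹ * θ0 (e.symm x) * ν i
    rw [mul_assoc, ← c.eq, inv_mul_cancel_left])
  refine ⟨θ, fun x t ex => ?_, fun x i ex => ?_⟩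
  · have := h1 ⟨j0 t, t, rfl⟩
    have e1 : e.symm ⟨j0 t, t, rfl⟩ = t := hj (he _)
    rw [show x = ⟨j0 t, (le_sup_left : j0.range ≤ _) ⟨t, rfl⟩⟩ from Subtype.ext ex, this]
    exact congrArg θ0 e1
  · rw [← h2 i]
    exact congrArg θ (Subtype.ext ex)

theorem lip_inv {E : Ext a b} {T : Subgroup (MM Γ b)} {ρ : T →* MM Γ a} {t : T}
    (h : Lip E T ρ t) : Lip E T ρ t⁻¹ := by
  rw [Lip, map_inv, Subgroup.coe_inv, ln_inv, ln_inv]
  exact h

theorem ln3 (x y z : MM Γ a) : ln (x * y * z) ≤ ln x + ln y + ln z :=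
  (ln_mul_le _ _).trans (by linarith [ln_mul_le x y])

section base
variable {μ : a.K} {R : RT} {φ : R.W ≃* ball Γ μ} {T0 : Subgroup R.W}

/-- the embedding of the tree group -/
def F (φ : R.W ≃* ball Γ μ) : R.W →* MM Γ a := (ball Γ μ).subtype.comp φ.toMonoidHom

theorem F_inj (φ : R.W ≃* ball Γ μ) : Function.Injective (F φ) :=
  Subtype.val_injective.comp φ.injective

theorem F_symm (φ : R.W ≃* ball Γ μ) (g : ball Γ μ) : F φ (φ.symm g) = g :=
  congrArg Subtype.val (φ.apply_symm_apply g)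

theorem zero_mem (hcv : ∀ h ∈ T0, ∀ p, R.On p 1 h → p ∈ T0) {p : R.W} (hp : R.ℓ p = 0) :
    p ∈ T0 := by
  refine hcv 1 T0.one_mem p ?_
  simp [LG.On, LG.d, R.l_inv, R.l_one, hp]

theorem tiny_mem (hμ : Big μ) (hφ : ∀ g, R.ℓ g = rl μ (ln (φ g : MM Γ a)))
    (hcv : ∀ h ∈ T0, ∀ p, R.On p 1 h → p ∈ T0) {z : MM Γ a} (hz : Ll (ln z) μ) :
    ∃ t : T0, F φ t = z ∧ R.ℓ t = 0 := by
  have h1 : z ∈ ball Γ μ := (mem_ball hμ.pos.le).2 hz.ls
  have h2 : R.ℓ (φ.symm ⟨z, h1⟩) = 0 := by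
    rw [phi_l_zero hμ hφ, φ.apply_symm_apply]; exact hz
  exact ⟨⟨_, zero_mem hcv h2⟩, F_symm φ _, h2⟩

theorem cvx_base (hμ : Big μ) (hφ : ∀ g, R.ℓ g = rl μ (ln (φ g : MM Γ a)))
    (hcv : ∀ h ∈ T0, ∀ p, R.On p 1 h → p ∈ T0) : Cvx ((F φ).comp T0.subtype).range := by
  constructor
  · intro g hg
    obtain ⟨t, e, -⟩ := tiny_mem hμ hφ hcv ((mem_tiny hμ.pos.le).1 (std_le_tiny hμ hg))
    exact ⟨t, e⟩
  · rintro _ ⟨t, rfl⟩ p hp
    have h1 : p ∈ ball Γ μ := (cvx_ball hμ).2 _ (φ t).2 p hp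
    refine ⟨⟨φ.symm ⟨p, h1⟩, hcv t t.2 _ ?_⟩, F_symm φ _⟩
    rw [phi_on hμ hφ, φ.apply_symm_apply, map_one]
    have := hμ.ll_of_not_big hp
    rw [On]
    show Ll (ds 1 p + ds p (φ t : MM Γ a) - ds 1 (φ t : MM Γ a)) μ
    rw [ds_one_left, ds_one_left]
    exact this

end base

end No3

open No3

theorem p_NO3 (hFRAME : S_FRAME) (hGMAC : S_GMAC) (hCVX : S_CVX) (hEXTGC : S_EXTGC) (hLET : S_LET) (hE_END : S_E_END) (hE_LIP : S_E_LIP) :
    S_NO3 := by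
  intro Γ a H μ m k Q h x hH hμ hQ hh hN
  obtain ⟨A0, η, hA0, hη, hE⟩ := hE_END Γ a (a.pow U0) (a.dg U0) H μ m k Q h x hH hμ hQ hh hN
  refine ⟨A0, hA0, fun R φ hφ A hA ⟨T0, σ0, r, y, ι, c, hc, hM, hcv, hσ, hy, hι, hO⟩ => ?_⟩
  replace hE := hE R φ hφ A hA
  -- frames
  choose z z' hz hz' K hK hcm hst using fun i => hFRAME Γ a μ (F φ (y i)) hμ
    ((phi_l_pos hμ hφ _).1 (hy i).1) (fun e => (hy i).2 ((phi_per hμ hφ _ _).2 (by
      rw [map_one]; exact e)))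
  have hY : ∀ i, Ls (ln (F φ (y i))) μ := fun i => (mem_ball hμ.pos.le).1 (φ (y i)).2
  have hsim : ∀ i, Sim (ln ((z i)⁻¹ * F φ (y i) * z' i)) μ := fun i => by
    constructor
    · refine Ls.mono_left (ln3 _ _ _) ?_
      rw [ln_inv]
      exact ((hz i).ls.add (hY i)).add (hz' i).ls
    · refine Ls.of_le_add ((phi_l_pos hμ hφ _).1 (hy i).1) ((hz i).add (hz' i)) hμ.pos 1 ?_
      have := ln3 (z i) ((z i)⁻¹ * F φ (y i) * z' i) (z' i)⁻¹
      rw [ln_inv, show z i * ((z i)⁻¹ * F φ (y i) * z' i) * (z' i)⁻¹ = F φ (y i) by group] at this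
      push_cast
      show ln (F φ (y i)) ≤ _
      linarith
  obtain ⟨u', hL, hu'⟩ := hGMAC Γ a μ r K _ hμ hK hsim
  generalize a.dg U0 = E at hE hL hu'
  generalize a.pow U0 = b at E u' hE hL hu'
  change Letters (E.kh μ) _ K u' at hL
  change ∀ i, Ll |ln (u' i) - E.kh (ln ((z i)⁻¹ * F φ (y i) * z' i))| (E.kh μ) at hu'
  have hν : Big (E.kh μ) := E.big_iff.2 hμ
  choose tz etz ltz using fun i => tiny_mem hμ hφ hcv (hz i)
  choose tz' etz' ltz' using fun i => tiny_mem hμ hφ hcv (hz' i)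
  -- the base
  let f : T0 →* MM Γ a := (F φ).comp T0.subtype
  let j0 : T0 →* MM Γ b := (E.hom Γ).comp f
  have hj0 : Function.Injective j0 :=
    E.hom_injective.comp ((F_inj φ).comp Subtype.val_injective)
  have hB : j0.range = f.range.map (E.hom Γ) := (MonoidHom.range_comp _ _)
  have gB : GC (f.range.map (E.hom Γ)) :=
    (hEXTGC Γ a b E _).2 (hCVX Γ a _ (cvx_base hμ hφ hcv))
  have bB : f.range.map (E.hom Γ) ≤ ball Γ (E.kh μ) := by
    rintro _ ⟨_, ⟨t, rfl⟩, rfl⟩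
    exact (hom_mem_ball E hμ.pos.le).2 (φ t).2
  obtain ⟨o, hX, hNF, hcj, -⟩ := hLET Γ b (E.kh μ) _ r K u' hν gB.toGC0 bB
    ⟨hL.fin, hL.sim, hL.comm, hL.nper, hL.self, fun i w hw =>
      hL.base i w (Subgroup.map_le_range _ _ hw)⟩
  have key := fun (G : Type) [Group G] (θ0 : T0 →* G) (ν : Fin r → G) =>
    ext_key j0 hj0 hB hX hcj hL.comm θ0 ν
  have uniq := fun (G : Type) [Group G] g g' =>
    hom_ext_sup (G := G) (B := f.range.map (E.hom Γ)) (u := u') (f := g) (g := g')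
  have lB : f.range.map (E.hom Γ) ≤ f.range.map (E.hom Γ) ⊔ Subgroup.closure (Set.range u') :=
    le_sup_left
  have mU : ∀ i, u' i ∈ f.range.map (E.hom Γ) ⊔ Subgroup.closure (Set.range u') := fun i =>
    (le_sup_right : _ ≤ f.range.map (E.hom Γ) ⊔ _) (Subgroup.subset_closure ⟨i, rfl⟩)
  generalize f.range.map (E.hom Γ) ⊔ Subgroup.closure (Set.range u') = T at o hNF key uniq lB mU
  have mj : ∀ t, j0 t ∈ T := fun t => lB ⟨_, ⟨t, rfl⟩, rfl⟩
  let j : T0 →* T := j0.codRestrict T mj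
  let U : Fin r → T := fun i => ⟨u' i, mU i⟩
  let u : Fin r → T := fun i => j (tz i) * U i * (j (tz' i))⁻¹
  have eu : ∀ i, (u i : MM Γ b) = E.hom Γ (z i) * u' i * (E.hom Γ (z' i))⁻¹ := fun i => by
    rw [← etz, ← etz']; rfl
  -- the retraction
  obtain ⟨ρ, hρ1, hρ2⟩ := key (MM Γ a) f (fun i => (z i)⁻¹ * F φ (y i) * z' i) (by
    intro i k hk t e
    rw [show f t = cst Γ a k from E.hom_injective e]
    exact hcm i k hk)
  have hretr : ∀ n, Retr E T ρ n := by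
    obtain ⟨l1, l2⟩ := hE_LIP Γ a b E T ρ
    obtain ⟨l2, l3⟩ := l2 f.range lB (by
      rintro t _ ⟨s, rfl⟩ e
      exact hρ1 t s e)
    have lU : ∀ i, Lip E T ρ (U i) := fun i => by
      refine ⟨fun hb => ?_, fun hb => (hb (hν.of_ls (hL.sim i).2)).elim⟩
      rw [hρ2 (U i) i rfl]
      refine Ll.ls_right (Ll.mono_left ?_ (hu' i)) (hL.sim i).2 (ln_nonneg _)
      rw [abs_sub_comm]
      exact le_abs_self _
    refine l3 o.fin o.per fun t => l1 T _ hNF ?_ ?_ t t.2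
    · rintro g (hg | ⟨i, rfl | rfl⟩)
      exacts [lB hg, mU i, T.inv_mem (mU i)]
    · rintro t (hg | ⟨i, e | e⟩)
      · exact l2 t hg
      · rw [show t = U i from Subtype.ext e]; exact lU i
      · rw [show t = (U i)⁻¹ from Subtype.ext e]; exact lip_inv (lU i)
  -- the automorphism
  have hat : ∀ s : T0 →* T0, (∀ t : T0, R.ℓ t = 0 → s t = t) →
      ∃ s' : T →* T, (∀ t, s' (j t) = j (s t)) ∧ ∀ i, s' (U i) = U i := by
    intro s hs
    obtain ⟨s', h1, h2⟩ := key T (j.comp s) U (by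
      intro i k hk t e
      have e1 : f t = cst Γ a k := E.hom_injective e
      have e2 : R.ℓ t = 0 := (phi_l_zero hμ hφ _).2 (by
        show Ll (ln (f t)) μ
        rw [e1]
        exact (mem_tiny hμ.pos.le).1 (std_le_tiny hμ ⟨k, rfl⟩))
      rw [MonoidHom.comp_apply, hs t e2]
      refine Subtype.ext ?_
      show u' i * j0 t = j0 t * u' i
      rw [e]
      exact (hL.comm i k hk).eq)
    exact ⟨s', fun t => h1 (j t) t rfl, fun i => h2 (U i) i rfl⟩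
  obtain ⟨σ, s1, s2⟩ := hat σ0.toMonoidHom fun t e => hσ t (Or.inr e)
  obtain ⟨τ, t1, t2⟩ := hat σ0.symm.toMonoidHom fun t e =>
    σ0.symm_apply_eq.2 (hσ t (Or.inr e)).symm
  have idext : ∀ g : T →* T, (∀ t, g (j t) = j t) → (∀ i, g (U i) = U i) → ∀ t, g t = t := by
    intro g h1 h2 t
    refine DFunLike.congr_fun (uniq T g (MonoidHom.id T) ?_ ?_) t
    · rintro t ⟨_, ⟨s, rfl⟩, e⟩
      rw [show t = j s from Subtype.ext e.symm]
      exact h1 s
    · intro t i e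
      rw [show t = U i from Subtype.ext e]
      exact h2 i
  have hbij : Function.Bijective σ := Function.bijective_iff_has_inverse.2 ⟨τ,
    idext (τ.comp σ) (fun t => by simp [s1, t1]) (fun i => by simp [s2, t2]),
    idext (σ.comp τ) (fun t => by simp [s1, t1]) (fun i => by simp [s2, t2])⟩
  have su : ∀ i, σ (u i) = u i := fun i => by
    have e1 : σ0.toMonoidHom (tz i) = tz i := hσ _ (Or.inr (ltz i))
    have e2 : σ0.toMonoidHom (tz' i) = tz' i := hσ _ (Or.inr (ltz' i))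
    simp only [u, map_mul, map_inv, s1, s2, e1, e2]
  -- the outcome of the machine
  obtain ⟨o1, o2, o3⟩ := hO (lgOn (E.kh μ) hν T o.bd) j u (by
    intro i g g' hs e
    obtain ⟨k, hk, ek⟩ := (hst i (f g)).1 (by
      have := (phi_stab hμ hφ _ _ _).1 hs
      rwa [map_one] at this)
    have e1 : f g = z i * cst Γ a k * (z i)⁻¹ := by rw [ek]; group
    have e2 : f g' = z' i * cst Γ a k * (z' i)⁻¹ := by
      have c1 := (hcm i k hk).eq
      have : f g' = (F φ (y i))⁻¹ * f g * F φ (y i) := by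
        show F φ g' = _ * F φ g * _
        rw [e, map_mul, map_mul, map_inv]
      rw [this, e1]
      calc _ = z' i * (((z i)⁻¹ * F φ (y i) * z' i)⁻¹ *
            (cst Γ a k * ((z i)⁻¹ * F φ (y i) * z' i))) * (z' i)⁻¹ := by group
        _ = _ := by rw [← c1, inv_mul_cancel_left]
    refine Subtype.ext ?_
    show (u i : MM Γ b)⁻¹ * E.hom Γ (f g) * u i = E.hom Γ (f g')
    rw [eu, e1, e2]
    simp only [map_mul, map_inv, E.hom_cst]
    calc _ = E.hom Γ (z' i) * ((u' i)⁻¹ * (cst Γ b k * u' i)) * (E.hom Γ (z' i))⁻¹ := by group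
      _ = _ := by rw [← (hL.comm i k hk).eq, inv_mul_cancel_left])
  obtain ⟨o3, o4⟩ := o3 (fun t => by
      show rl (E.kh μ) (ln (E.hom Γ (f t))) ≤ _
      rw [E.ln_hom, E.rl_kh, hφ]
      exact le_rfl) (fun i => by
      rw [hφ, ← E.rl_kh]
      refine rl_le_of_ll hν.pos (ls_ln hν ⟨u i, o.bd (u i).2⟩) ?_ ?_
      · rw [← E.kh_abs, E.ls_iff]; exact ls_ln hμ _
      · have a1 := ln3 (E.hom Γ (z i)) (u' i) (E.hom Γ (z' i))⁻¹
        have a2 := E.kh_le.2 (ln3 (z i)⁻¹ (F φ (y i)) (z' i))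
        rw [ln_inv, E.ln_hom, E.ln_hom, ← eu] at a1
        rw [ln_inv, map_add, map_add] at a2
        have a3 := E.ll_iff.2 (hz i)
        have a4 := E.ll_iff.2 (hz' i)
        refine Ll.mono_left ?_ (((a3.add a4).two).add (hu' i))
        have a5 := le_abs_self (ln (u' i) - E.kh (ln ((z i)⁻¹ * F φ (y i) * z' i)))
        show ln (u i : MM Γ b) - E.kh (ln (F φ (y i))) ≤ _
        linarith)
  let Ψ : Monoid.Coprod T0 (FreeGroup (Fin r)) →* T := Monoid.Coprod.lift j (FreeGroup.lift u)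
  have e1 : ρ.comp Ψ = (F φ).comp (Monoid.Coprod.lift T0.subtype (FreeGroup.lift y)) := by
    refine Monoid.Coprod.hom_ext (MonoidHom.ext fun t => ?_) (FreeGroup.ext_hom _ _ fun i => ?_)
    · exact hρ1 (j t) t rfl
    · simp only [Ψ, MonoidHom.comp_apply, Monoid.Coprod.lift_apply_inr, FreeGroup.lift_apply_of, u,
        map_mul, map_inv, hρ1 (j _) _ rfl, hρ2 (U i) i rfl]
      rw [show f (tz i) = z i from etz i, show f (tz' i) = z' i from etz' i]
      group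
  have e2 : σ.comp Ψ = Monoid.Coprod.lift (j.comp σ0.toMonoidHom) (FreeGroup.lift u) := by
    refine Monoid.Coprod.hom_ext (MonoidHom.ext fun t => ?_) (FreeGroup.ext_hom _ _ fun i => ?_)
    · exact s1 t
    · simp only [Ψ, MonoidHom.comp_apply, Monoid.Coprod.lift_apply_inr, FreeGroup.lift_apply_of, su]
  have mM : ∀ g : ball Γ μ, (g : MM Γ a) ∈ H →
      φ.symm g ∈ (H.subgroupOf (ball Γ μ)).comap φ.toMonoidHom := fun g hg => by
    show ((φ (φ.symm g) : ball Γ μ) : MM Γ a) ∈ H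
    rwa [φ.apply_symm_apply]
  have fin := hE T (fun w => Ψ (ι w)) ρ σ
    ⟨o.gc, finC_of_finRed o.fin lB lB gB.finc gB.finc⟩ o.bd
    (by
      rintro _ ⟨g, ⟨h1, h2⟩, rfl⟩
      exact lB ⟨_, ⟨⟨φ.symm ⟨g, h2⟩, hM (mM _ h1)⟩, F_symm φ _⟩, rfl⟩)
    hretr o1
    (by
      intro w hw e
      have hT : w ∈ T0 := e.elim (fun e => hM e) (zero_mem hcv)
      exact congrArg Subtype.val (o2 ⟨w, hT⟩ hw e))
    (fun w hw => (DFunLike.congr_fun e1 (ι w)).trans (congrArg (F φ) (hι w hw)))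
    (fun w hw => (o3 w hw).trans (by linarith))
    hbij
    (by
      rintro t ⟨g, hg, e⟩
      have h2 : g ∈ ball Γ μ := (hom_mem_ball E hμ.pos.le).1 (e ▸ o.bd t.2)
      have e3 : t = j ⟨φ.symm ⟨g, h2⟩, hM (mM _ hg)⟩ :=
        Subtype.ext (e.symm.trans (congrArg (E.hom Γ) (F_symm φ ⟨g, h2⟩).symm))
      rw [e3, s1]
      exact congrArg j (hσ _ (Or.inl (mM _ hg))))
  have o5 : ∑ i, rl (E.kh μ) (ln (σ (Ψ (ι (φ.symm (x i)))) : MM Γ b)) ≤
      ∑ i, R.ℓ (φ.symm (x i)) - c := by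
    refine le_of_eq_of_le (Finset.sum_congr rfl fun i _ => ?_) o4
    exact congrArg (fun t : T => rl (E.kh μ) (ln (t : MM Γ b))) (DFunLike.congr_fun e2 _)
  linarith

end Pool.Agent.P.MP_dba3d2_lc


end

section

/-! Step S1 of the stability project. -/

namespace Pool.Agent.P.MP_dba3d2_lc

open Filter ET

namespace S1

theorem cov {Γ : HG} {a : Amb} {H : Subgroup (MM Γ a)} {μ : a.K} (hμ : Big μ) {y : ball Γ μ}
    (h : (rtAt Γ μ hμ).Cov (H.subgroupOf (ball Γ μ)) y) : Cov μ H (y : MM Γ a) := by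
  obtain ⟨n, p, h0, hn, hs, ha⟩ := h
  let p' : ℕ → ball Γ μ := p
  have hd : ∀ i ∈ Finset.range n, Ls |ds (p' i : MM Γ a) (p' (i + 1))| μ :=
    fun i _ => ls_ds hμ _ _
  refine ⟨n, fun i => p' i, congrArg Subtype.val h0, congrArg Subtype.val hn, ?_, fun i hi => ?_⟩
  · refine ll_of_rl_le hμ.pos (ls_abs_sum _ _ hμ.pos.le hd) (ls_ln hμ y) ?_
    rw [rl_sum _ _ hμ.pos hd]
    exact hs.le
  · obtain ⟨g, k, hk, h1, h2⟩ := ha i hi
    let g' : ball Γ μ := g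
    let k' : ball Γ μ := k
    have e1 := (rt_on hμ (p' i) g' (g' * k')).1 h1
    have e2 := (rt_on hμ (p' (i + 1)) g' (g' * k')).1 h2
    rw [Subgroup.coe_mul] at e1 e2
    exact ⟨g', k', hk, (mem_ball hμ.pos.le).1 k'.2, e1, e2⟩

end S1

theorem p_S1 (hRTA : S_RTA) (hMACH : S_MACH) (hNO1 : S_NO1) (hNO2 : S_NO2) (hNO3 : S_NO3) :
    S_S1 := by
  classical
  intro Γ a H μ m k Q h x hH hμ hQ hh hx hN
  by_contra hc
  let x' : Fin k → ball Γ μ := fun i => ⟨x i, hx i⟩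
  obtain ⟨A1, -, h1⟩ := hNO1 Γ a H μ m k Q h x' hH hμ hQ hh hN
  obtain ⟨A2, -, h2⟩ := hNO2 Γ a H μ m k Q h x' hH hμ hQ hh hN
  obtain ⟨A3, -, h3⟩ := hNO3 Γ a H μ m k Q h x' hH hμ hQ hh hN
  let A : Finset (ball Γ μ) :=
    Finset.univ.image x' ∪ (A1 ∪ A2 ∪ A3).preimage Subtype.val Subtype.val_injective.injOn
  have hA : ∀ w : ball Γ μ, (w : MM Γ a) ∈ A1 ∪ A2 ∪ A3 → w ∈ A := fun w hw =>
    Finset.mem_union_right _ (Finset.mem_preimage.2 hw)
  have hx' : ∀ i, x' i ∈ A := fun i =>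
    Finset.mem_union_left _ (Finset.mem_image_of_mem _ (Finset.mem_univ i))
  let φ : (rtAt Γ μ hμ).W ≃* ball Γ μ := MulEquiv.refl _
  have hφ : ∀ g, (rtAt Γ μ hμ).ℓ g = rl μ (ln (φ g : MM Γ a)) := fun _ => rfl
  have eM : (H.subgroupOf (ball Γ μ)).comap φ.toMonoidHom = H.subgroupOf (ball Γ μ) :=
    Subgroup.ext fun _ => Iff.rfl
  have n1 := h1 _ φ hφ A
    fun w hw => hA w (Finset.mem_union_left _ (Finset.mem_union_left _ hw))
  have n2 := h2 _ φ hφ A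
    fun w hw => hA w (Finset.mem_union_left _ (Finset.mem_union_right _ hw))
  have n3 := h3 _ φ hφ A fun w hw => hA w (Finset.mem_union_right _ hw)
  refine (hMACH _ Γ.e (hRTA Γ a μ _ φ hμ hφ) _ A k _ hx' fun e => hc fun i => ?_).elim n1
    fun o => o.elim n2 n3
  have e' := e i
  rw [eM] at e'
  exact S1.cov hμ e'

end Pool.Agent.P.MP_dba3d2_lc


end
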