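import Pool.Agent.P.MP_dba3d2_lcM.Ab00
import Pool.Agent.P.MP_dba3d2_lcM.Ab05
import Pool.Agent.P.MP_dba3d2_lcM.Cb12
import Pool.Agent.P.MP_dba3d2_lcM.Cb23
import Pool.Agent.P.MP_dba3d2_lcM.Eb26
import Pool.Agent.P.MP_dba3d2_lcM.Eb29

section

/-! Interface, chapter F: adjunctions, the limit stage and the key lemma. -/

namespace Pool.Agent.P.MP_dba3d2_lc

open Filter

-- deps:
-- imports: Pool.Agent.P.MP_dba3d2_lc.F.TbA
def S_WC0 : Prop := ∀ (Γ : HG) (a : Amb) (H H' : Subgroup (MM Γ a))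
  (θ : H' →* MM Γ (a.pow U0)), H ≤ H' → GC H' → GC θ.range → Function.Injective θ →
  (∀ x : H', (x : MM Γ a) ∈ H → θ x = (a.dg U0).hom Γ x) →
  (∀ x : H', ∃ f : ℕ → MM Γ a, (∀ n, f n ∈ H) ∧ θ x = a.mk' U0 f) → Wc H H'

-- deps: TORS ELEM MICL
-- imports: Pool.Agent.P.MP_dba3d2_lc.F.AdjB
def S_WCL : Prop := ∀ (Γ : HG) (a : Amb) (H : Subgroup (MM Γ a)) (u : MM Γ a), GC H → u ∉ H →
  GC (H ⊔ Subgroup.closure (Set.range fun _ : Fin 1 => u)) → ExtL H (fun _ : Fin 1 => u) →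
  (∀ x ∈ H, u⁻¹ * x * u ∈ H → u⁻¹ * x * u ∈ std Γ a ∧ IsOfFinOrder x) →
  Wc H (H ⊔ Subgroup.closure (Set.range fun _ : Fin 1 => u))

-- deps: MICE
-- imports: Pool.Agent.P.MP_dba3d2_lc.F.AdjA
def S_WCE : Prop := ∀ (Γ : HG) (a : Amb) (H : Subgroup (MM Γ a)) (c : MM Γ a) (k : ℚ →+ a.Z),
  GC H → c ∈ H → Prim c → GC (H ⊔ Subgroup.closure (Set.range fun q => ipow c (k q))) →
  ExtE H c k → Wc H (H ⊔ Subgroup.closure (Set.range fun q => ipow c (k q)))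

-- deps: TORS FINM ELEM LINE ROOT TRUNC GRAFT PT EXP MICL MICE E_CHI E_SZ E_GE
-- imports: Pool.Agent.P.MP_dba3d2_lc.F.AdjA Pool.Agent.P.MP_dba3d2_lc.F.AdjB
def S_ADJ : Prop := ∀ (Γ : HG) (a : Amb) (H : Subgroup (MM Γ a)) (μ : a.K) (p h : MM Γ a),
  GC H → Big μ → h ∈ H → Sim (ln h) μ → On μ p 1 h →
  ∃ H' : Subgroup (MM Γ a), GC H' ∧ Wc H H' ∧ Sc H' H ∧ ∃ p' ∈ H', Ll (ds p p') μ

-- deps: TORS FINM ELEM LINE ROOT NORM PA EADJ WCL WCE
def S_LIM : Prop := ∀ (Γ : HG) (a : Amb) (H : Subgroup (MM Γ a)) (l : ℕ → a.K) (u : MM Γ a),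
  GC H → (∀ n, Big (l n)) → (∀ n, Ll (l (n + 1)) (l n)) → (∀ n, ∃ v ∈ H, Ls (ds u v) (l n)) →
  ∃ H' : Subgroup (MM Γ a), GC H' ∧ Wc H H' ∧ Sc H' H ∧ ∃ u' ∈ H', ∀ n, Ls (ds u u') (l n)

-- deps: ELEM ROOT GRAFT
def S_GT : Prop := ∀ (Γ : HG) (a : Amb) (H W : Subgroup (MM Γ a))
  (l : List (MM Γ a × MM Γ a)), GC0 H → GC0 W → Sep H W → l ≠ [] →
  (∀ s ∈ l, s.1 ∈ hatH H W ∧ s.2 ∈ W ∧ s.2 ∉ hatM H W) → (∀ s ∈ l.tail, s.1 ∉ hatM H W) →
  (l.map fun s => s.1 * s.2).prod ∉ hatH H W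

-- deps: FC_CAP
def S_CAP : Prop := ∀ (Γ : HG) (a : Amb) (H : Subgroup (MM Γ a)) (l : ℕ → a.K)
  (Y : Set (MM Γ a)), GC H → (∀ n, Big (l n)) → (∀ n, Ll (l (n + 1)) (l n)) →
  (∀ n, Y ⊆ (H ⊔ ((H ⊔ Subgroup.closure Y) ⊓ ball Γ (l n)) : Subgroup (MM Γ a))) →
  ∃ X : Subgroup (MM Γ a), GC X ∧ H ≤ X ∧ Y ⊆ X ∧ ∀ n, X = H ⊔ (X ⊓ ball Γ (l n))

-- deps: FINM ELEM LINE PERC FRAME CVX MICL MICE
def S_CUT : Prop := ∀ (Γ : HG) (a : Amb) (μ : a.K) (p q : MM Γ a), Big μ → Sim (ds p q) μ →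
  let E := a.dg U0
  ∃ (T : Subgroup (MM Γ (a.pow U0))) (j : MM Γ a →* T) (ν : T) (ρ : T →* MM Γ a) (σ : T →* T),
    GC T ∧ (∀ g, (j g : MM Γ (a.pow U0)) = E.hom Γ g) ∧ (∀ g, ρ (j g) = g) ∧ ρ ν = 1 ∧
    (∀ n, Retr E T ρ n) ∧ Function.Bijective σ ∧ (∀ g, σ (j g) = j g) ∧
    (∀ g, Stab μ p q g → Commute (j g) ν) ∧
    Ll (ds (E.hom Γ p) ((ν : MM Γ (a.pow U0)) * E.hom Γ p)) (E.mp μ) ∧
    Ll (ds (E.hom Γ p) ((σ ν : MM Γ (a.pow U0)) * E.hom Γ q)) (E.mp μ)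

-- deps: S2_ENV S2_TR0 S2_TR1 S2_TR2 S2_TR3 S2_PART1 S2_PART2
-- imports: Pool.Agent.P.MP_dba3d2_lc.F.TbS
def S_S2 : Prop := ∀ (Γ : HG) (a : Amb) (H : Subgroup (MM Γ a)) (l : ℕ → a.K) (S : Shape Γ a)
  (ty : (n : ℕ) → Fin (S.k n) → Option (MM Γ a))
  (m : ℕ) (Q : (Fin m ⊕ Fin (S.k 0) → Γ.G) → Prop) (h : Fin m → MM Γ a)
  (y : (n : ℕ) → Fin (S.k n) → MM Γ a),
  GC H → (∀ n, Big (l n)) → (∀ n, Ll (l (n + 1)) (l n)) → Tr Q → (∀ i, h i ∈ H) →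
  (∀ i, ty 0 i = none) → (∀ n i, Ls (ln (y n i)) (l n)) →
  (∀ n i, TDec (l n) H (ty n i) (y n i) (S.r n i) (S.h n i) (fun j => y (n + 1) (S.e n ⟨i, j⟩))
    fun j => ty (n + 1) (S.e n ⟨i, j⟩)) →
  St Q (Sum.elim h (y 0)) →
  (∀ n z, (∀ i, HasT (ty n i) (z i)) → St Q (Sum.elim h (S.top n z)) →
    Ll (tl (y n) - tl z) (l n)) →
  (∀ n z, (∀ i, HasT (ty n i) (z i)) → St Q (Sum.elim h (S.top n z)) →
    Ll (tl z - tl (y n)) (l n) →
    ∀ (r' : Fin (S.k n) → ℕ) (h' : (i : Fin (S.k n)) → Fin (r' i + 1) → MM Γ a)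
      (z' : (i : Fin (S.k n)) → Fin (r' i) → MM Γ a)
      (ty' : (i : Fin (S.k n)) → Fin (r' i) → Option (MM Γ a)),
      (∀ i, TDec (l n) H (ty n i) (z i) (r' i) (h' i) (z' i) (ty' i)) →
      nG (ty (n + 1)) < ∑ i, nG (ty' i) ∨
        (nG (ty (n + 1)) = ∑ i, nG (ty' i) ∧ S.k (n + 1) ≤ ∑ i, r' i)) →
  ∃ n0, ∀ n ≥ n0, ∀ i, S.r n i ≤ 1

-- deps: COUNT FK_MAX FK_CORE
-- imports: Pool.Agent.P.MP_dba3d2_lc.F.TbK
def S_KEY : Prop := ∀ (Γ : HG) (a : Amb) (H : Subgroup (MM Γ a)), GC H → Wc H ⊤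

end Pool.Agent.P.MP_dba3d2_lc


end

section

/-! Definitions for the limit of the grafts `H ⊔ ball (l n)`. -/

namespace Pool.Agent.P.MP_dba3d2_lc

open Filter

variable {Γ : HG} {a : Amb}

/-- a descending sequence of infinite scales -/
structure Desc (l : ℕ → a.K) : Prop where
  big : ∀ n, Big (l n)
  ll : ∀ n, Ll (l (n + 1)) (l n)

/-- the intersection of the grafts -/
def capS (H : Subgroup (MM Γ a)) (l : ℕ → a.K) : Subgroup (MM Γ a) := ⨅ n, H ⊔ ball Γ (l n)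

/-- closed subgroups between `H` and the intersection of the grafts -/
structure Cg (H : Subgroup (MM Γ a)) (l : ℕ → a.K) (X : Subgroup (MM Γ a)) : Prop where
  gc : GC0 X
  le : H ≤ X
  sub : X ≤ capS H l
  ex : ∀ c ∈ X, ¬ IsOfFinOrder c → ∀ f ∈ capS H l, f ∈ Ep c → f ∈ X
  cpl : ∀ (u : MM Γ a) (v : ℕ → MM Γ a), (∀ n, v n ∈ X) → (∀ n, Ls (ds u (v n)) (l n)) → u ∈ X

/-- `p` and `q` lie on a segment of scale at most `D` between two points of `X` -/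
def XArc (D : a.K) (X : Subgroup (MM Γ a)) (p q : MM Γ a) : Prop :=
  ∃ x ∈ X, ∃ y ∈ X, Ls (ds x y) D ∧ On D p x y ∧ On D q x y

end Pool.Agent.P.MP_dba3d2_lc


end

section

/-! Toolbox for the limit of the grafts. -/

namespace Pool.Agent.P.MP_dba3d2_lc

open Filter

variable {Γ : HG} {a : Amb} {H X : Subgroup (MM Γ a)} {l : ℕ → a.K} {ν D : a.K}
  {c g x y u : MM Γ a} {m n : ℕ}

theorem mem_capS : g ∈ capS H l ↔ ∀ n, g ∈ H ⊔ ball Γ (l n) := Subgroup.mem_iInf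

theorem capS_le (H : Subgroup (MM Γ a)) (l : ℕ → a.K) (n : ℕ) : capS H l ≤ H ⊔ ball Γ (l n) :=
  iInf_le _ n

theorem le_capS (H : Subgroup (MM Γ a)) (l : ℕ → a.K) : H ≤ capS H l :=
  le_iInf fun _ => le_sup_left

theorem Desc.pos (h : Desc l) (n : ℕ) : 0 < l n := (h.big n).pos

theorem Desc.ls (h : Desc l) (k : m ≤ n) : Ls (l n) (l m) := by
  induction k with
  | refl => exact Ls.refl' _
  | step _ ih => exact (h.ll _).ls.trans' ih

theorem Desc.lt (h : Desc l) (k : m < n) : Ll (l n) (l m) := Ll.ls_left (h.ls k) (h.ll m)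

theorem Desc.ball_le (h : Desc l) (k : m ≤ n) : ball Γ (l n) ≤ ball Γ (l m) := fun _ e =>
  (mem_ball (h.pos m).le).2 (((mem_ball (h.pos n).le).1 e).trans' (h.ls k))

theorem Desc.sup_le (h : Desc l) (H : Subgroup (MM Γ a)) (k : m ≤ n) :
    H ⊔ ball Γ (l n) ≤ H ⊔ ball Γ (l m) := sup_le_sup_left (h.ball_le k) H

/-- membership in the intersection only depends on the tail -/
theorem Desc.mem_capS (h : Desc l) (n : ℕ) (k : ∀ m, n ≤ m → g ∈ H ⊔ ball Γ (l m)) :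
    g ∈ capS H l := Pool.Agent.P.MP_dba3d2_lc.mem_capS.2 fun m =>
  (le_total n m).elim (k m) fun e => h.sup_le H e (k n le_rfl)

/-- a length is below all scales or above some scale -/
theorem Desc.cases (h : Desc l) (D : a.K) : (∀ n, Ll D (l n)) ∨ ∃ n, Ll (l n) D ∧ Big D := by
  by_cases k : ∀ n, Ll D (l n)
  · exact Or.inl k
  obtain ⟨n, k⟩ := not_forall.1 k
  have e := (not_ll_iff' (h.pos n)).1 k
  have b := (h.big n).of_ls e
  exact Or.inr ⟨n + 1, (h.ll n).ls_right e b.pos.le, b⟩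

theorem mem_of_near (h0 : 0 ≤ ν) (hX : ball Γ ν ≤ X) (hx : x ∈ X) (h : Ls (ds x y) ν) : y ∈ X := by
  simpa using X.mul_mem hx (hX ((mem_ball h0).2 h))

theorem mem_sup_near (h0 : 0 ≤ ν) (hx : x ∈ H ⊔ ball Γ ν) (h : Ls (ds x y) ν) :
    y ∈ H ⊔ ball Γ ν := mem_of_near h0 le_sup_right hx h

theorem graft_ball (hC : S_CVX) (hG : S_GRAFT) (hH : GC0 H) (hν : Big ν) :
    TwoOut H (ball Γ ν) ∧ AddNF (H ⊔ ball Γ ν) {g | g ∈ H ∨ g ∈ ball Γ ν} :=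
  hG Γ a H _ hH (ET.gc_ball hC hν).toGC0 (ET.sep_ball hν H)

theorem gc0_sup_ball (hC : S_CVX) (hG : S_GRAFT) (hH : GC0 H) (hν : Big ν) :
    GC0 (H ⊔ ball Γ ν) := (graft_ball hC hG hH hν).1.gc

/-- points near a point of a closed subgroup at all scales -/
theorem Cg.near (h : Cg H l X) (hx : x ∈ X) (k : ∀ n, Ls (ds u x) (l n)) : u ∈ X :=
  h.cpl u (fun _ => x) (fun _ => hx) k

theorem capS_cpl (h : Desc l) {v : ℕ → MM Γ a} (h1 : ∀ n, v n ∈ H ⊔ ball Γ (l n))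
    (h2 : ∀ n, Ls (ds u (v n)) (l n)) : u ∈ capS H l :=
  mem_capS.2 fun n => mem_sup_near (h.pos n).le (h1 n) (ds_comm u _ ▸ h2 n)

theorem inf_of_big_md (hF : S_FINM) (h : Big (md c)) : ¬ IsOfFinOrder c := fun e => by
  obtain ⟨p, h1, -⟩ := hF Γ a (Subgroup.zpowers c) (finite_zpowers.2 e).to_subtype
  exact mem_std_iff.1 (h1 c (Subgroup.mem_zpowers c)) (h.of_ls (Ls.of_le (md_le c p)))

/-- Cauchy sequences have limits -/
theorem Desc.cauchy (h : Desc l) (g : ℕ → MM Γ a) (k : ∀ n, Ls (ds (g n) (g (n + 1))) (l n)) :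
    ∃ u, ∀ n, Ls (ds u (g n)) (l n) := by
  choose N hN using k
  have key : ∀ d m, ds (g m) (g (m + d)) ≤ (N m + 1) * l m := by
    intro d
    induction d with
    | zero => intro m; simpa using mul_nonneg (by positivity) (h.pos m).le
    | succ d ih =>
      intro m
      have h1 := ih (m + 1)
      have h2 := h.ll m (N (m + 1) + 1)
      have h3 := ds_tri (g m) (g (m + 1)) (g (m + 1 + d))
      rw [show m + (d + 1) = m + 1 + d by omega]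
      push_cast at h2
      linarith [hN m]
  obtain ⟨u, hu⟩ := GT.sat_ball g (fun m => (N m + 1) * l m) fun n => ⟨g n, fun m e => by
    obtain ⟨d, rfl⟩ := Nat.exists_eq_add_of_le e
    rw [ds_comm]; exact key d m⟩
  exact ⟨u, fun n => ⟨N n + 1, by push_cast; exact hu n⟩⟩

/-- the letters of an almost geodesic word -/
theorem AddNF.geo {P : Subgroup (MM Γ a)} {Y : Set (MM Γ a)} (h : AddNF P Y) (hg : g ∈ P)
    (hD : Big D) (s : Sim (ln g) D) :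
    ∃ L : List (MM Γ a), (∀ x ∈ L, x ∈ Y ∧ Ls (ln x) D) ∧ L.prod = g ∧ Geo D L := by
  obtain ⟨L, h1, h2, h3, -⟩ := h g hg
  have k : Ll ((L.map ln).sum - ln g) D := (h3 (hD.of_ls s.2)).ls_right s.1 hD.pos.le
  refine ⟨L, fun x hx => ⟨h1 x hx, Ls.mono_left ?_ (k.ls.add s.1)⟩, h2, by rwa [Geo, h2]⟩
  rw [sub_add_cancel]
  refine List.single_le_sum (fun z hz => ?_) _ (List.mem_map_of_mem hx)
  obtain ⟨w, -, rfl⟩ := List.mem_map.1 hz
  exact ln_nonneg w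

/-- an element of scale at most `D` is a product of letters of scale at most `D` -/
theorem AddNF.mem {P Z : Subgroup (MM Γ a)} {Y : Set (MM Γ a)} (h : AddNF P Y) (hg : g ∈ P)
    (s : Ls (ln g) D) (k : ∀ x ∈ Y, Ls (ln x) D → x ∈ Z) : g ∈ Z := by
  by_cases b : Big (ln g)
  · obtain ⟨L, h1, h2, -⟩ := h.geo hg b (Sim.refl' _)
    exact h2 ▸ Z.list_prod_mem fun x hx => k x (h1 x hx).1 ((h1 x hx).2.trans' s)
  · obtain ⟨L, h1, -, -, h4⟩ := h g hg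
    exact k g (h1 g (by simp [h4 b])) s

end Pool.Agent.P.MP_dba3d2_lc


end

section

/-! Toolbox for adjunctions. -/

namespace Pool.Agent.P.MP_dba3d2_lc

open Filter

namespace FA

/-- two homomorphisms that are inverse on generators -/
theorem iso {M M' ι : Type} [Group M] [Group M'] {B : Subgroup M} (φ : M →* M') {u z w : ι → M}
    {u' : ι → M'} (hz : ∀ i, z i ∈ B) (hw : ∀ i, w i ∈ B)
    (θ : ↥(B ⊔ Subgroup.closure (Set.range u)) →* M')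
    (ρ : ↥(B.map φ ⊔ Subgroup.closure (Set.range u')) →* M)
    (h1 : ∀ t : ↥(B ⊔ Subgroup.closure (Set.range u)), (t : M) ∈ B → θ t = φ t)
    (h2 : ∀ (t : ↥(B ⊔ Subgroup.closure (Set.range u))) i, (t : M) = u i →
      θ t = φ (z i) * u' i * φ (w i))
    (h3 : ∀ (t : ↥(B.map φ ⊔ Subgroup.closure (Set.range u'))) x, x ∈ B → (t : M') = φ x → ρ t = x)
    (h4 : ∀ (t : ↥(B.map φ ⊔ Subgroup.closure (Set.range u'))) i, (t : M') = u' i →
      ρ t = (z i)⁻¹ * u i * (w i)⁻¹) :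
    Function.Injective θ ∧ θ.range = B.map φ ⊔ Subgroup.closure (Set.range u') := by
  have m1 : ∀ x ∈ B, φ x ∈ B.map φ ⊔ Subgroup.closure (Set.range u') := fun x hx =>
    Subgroup.mem_sup_left ⟨x, hx, rfl⟩
  have m2 : ∀ i, u' i ∈ B.map φ ⊔ Subgroup.closure (Set.range u') := fun i =>
    Subgroup.mem_sup_right (Subgroup.subset_closure ⟨i, rfl⟩)
  have m3 : ∀ i, u i ∈ B ⊔ Subgroup.closure (Set.range u) := fun i =>
    Subgroup.mem_sup_right (Subgroup.subset_closure ⟨i, rfl⟩)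
  have mem : ∀ t, θ t ∈ B.map φ ⊔ Subgroup.closure (Set.range u') := by
    have : B ⊔ Subgroup.closure (Set.range u) ≤
        ((B.map φ ⊔ Subgroup.closure (Set.range u')).comap θ).map (Subgroup.subtype _) := by
      refine sup_le (fun x hx => ⟨⟨x, Subgroup.mem_sup_left hx⟩, ?_, rfl⟩)
        ((Subgroup.closure_le _).2 ?_)
      · exact Subgroup.mem_comap.2 (h1 ⟨x, _⟩ hx ▸ m1 x hx)
      · rintro _ ⟨i, rfl⟩
        exact ⟨⟨u i, m3 i⟩, Subgroup.mem_comap.2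
          (h2 ⟨u i, _⟩ i rfl ▸ mul_mem (mul_mem (m1 _ (hz i)) (m2 i)) (m1 _ (hw i))), rfl⟩
    intro t
    obtain ⟨s, hs, e⟩ := this t.2
    exact (Subtype.ext e : s = t) ▸ hs
  have e : ρ.comp (θ.codRestrict _ mem) = Subgroup.subtype _ := by
    refine ET.hom_ext_sup (fun t ht => h3 _ _ ht (h1 t ht)) fun t i ht => ?_
    have : θ.codRestrict _ mem t = ⟨_, m1 _ (hz i)⟩ * ⟨_, m2 i⟩ * ⟨_, m1 _ (hw i)⟩ :=
      Subtype.ext (h2 t i ht)
    rw [MonoidHom.comp_apply, this, map_mul, map_mul, h3 _ _ (hz i) rfl, h4 _ i rfl,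
      h3 _ _ (hw i) rfl, Subgroup.coe_subtype, ht]
    group
  refine ⟨fun s t h => Subtype.ext ?_, le_antisymm ?_ (sup_le ?_ ((Subgroup.closure_le _).2 ?_))⟩
  · have : θ.codRestrict _ mem s = θ.codRestrict _ mem t := Subtype.ext h
    exact (DFunLike.congr_fun e s).symm.trans ((congrArg ρ this).trans (DFunLike.congr_fun e t))
  · rintro _ ⟨t, rfl⟩
    exact mem t
  · rintro _ ⟨x, hx, rfl⟩
    exact ⟨⟨x, Subgroup.mem_sup_left hx⟩, h1 _ hx⟩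
  · rintro _ ⟨i, rfl⟩
    refine ⟨(⟨z i, Subgroup.mem_sup_left (hz i)⟩ : ↥(B ⊔ Subgroup.closure (Set.range u)))⁻¹ *
      ⟨u i, m3 i⟩ *
      (⟨w i, Subgroup.mem_sup_left (hw i)⟩ : ↥(B ⊔ Subgroup.closure (Set.range u)))⁻¹, ?_⟩
    rw [map_mul, map_mul, map_inv, map_inv, h1 _ (hz i), h2 _ i rfl, h1 _ (hw i)]
    group

variable {Γ : HG} {a : Amb} {μ : a.K} {H H' W P : Subgroup (MM Γ a)} {c h y : MM Γ a}

/-- an embedding over `H` into the ultrapower of `H` shows that `H` is witness closed -/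
theorem wc_of_hom (hle : H ≤ H') (hG : GC H') (θ : H' →* MM Γ (a.pow U0))
    (hi : Function.Injective θ) (hr : GC θ.range)
    (h1 : ∀ x : H', (x : MM Γ a) ∈ H → θ x = (a.dg U0).hom Γ x)
    (h2 : θ.range ≤ UT U0 fun _ => H) : Wc H H' := by
  refine ⟨hle, fun m k Q hQ h hh x hx hs => ?_⟩
  choose y hy ey using fun i => h2 ⟨⟨x i, hx i⟩, rfl⟩
  have k := (hQ a _ H' θ hG hr hi
    (Sum.elim (fun i => ⟨h i, hle (hh i)⟩) fun i => ⟨x i, hx i⟩)).1 (by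
      convert hs using 2 with i
      cases i <;> rfl)
  have e : (fun i => θ (Sum.elim (fun i => ⟨h i, hle (hh i)⟩) (fun i => ⟨x i, hx i⟩) i)) =
      fun i => a.mk' U0 fun j => Sum.elim h (fun i => y i j) i := by
    funext i
    cases i with
    | inl i => exact (h1 _ (hh i)).trans (mk'_hom U0 _).symm
    | inr i => exact ey i
  rw [e, st_mk'] at k
  obtain ⟨j, hj⟩ := k.exists
  exact ⟨fun i => y i j, fun i => hy i j, hj⟩

theorem map_le_UT (H : Subgroup (MM Γ a)) : H.map ((a.dg U0).hom Γ) ≤ UT U0 fun _ => H := by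
  rintro _ ⟨x, hx, rfl⟩
  exact ⟨fun _ => x, fun _ => hx, (mk'_hom U0 x).symm⟩

theorem sc_of (hμ : Big μ) (nf : AddNF P {g | g ∈ H ∨ g ∈ W}) (top : TopOut μ (H ⊓ ball Γ μ) W)
    (hh : h ∈ H) (hs : Sim (ln h) μ) : Sc P H := by
  intro g hg hb
  obtain ⟨l, l1, l2, l3, -⟩ := nf g hg
  obtain ⟨x, hx, s⟩ := E_geA.letter hb l l2 (l3 hb)
  by_cases e : x ∈ H
  · exact ⟨x, e, s⟩
  have w := (l1 x hx).resolve_left e
  exact ⟨h, hh, s.trans' (Sim.trans' ⟨ball_ls hμ top.bd w, top.top x w fun k => e k.1⟩ hs.symm')⟩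

/-- the exponents as a homomorphism -/
def expH (c : MM Γ a) (k : ℚ →+ a.Z) : Multiplicative ℚ →* MM Γ a :=
  MonoidHom.mk' (fun q => ipow c (k q.toAdd)) fun q r => es_add c k q.toAdd r.toAdd

open A_fr2 in
theorem legal (hT : S_TORS) (hE : S_ELEM) {K : Subgroup Γ.G} (hy : y ∉ std Γ a) (hK : Finite K)
    (hc : ∀ k ∈ K, Commute y (cst Γ a k))
    (hs : ∀ g ∈ std Γ a, y⁻¹ * g * y ∈ std Γ a → g ∈ K.map (cst Γ a)) : Legal Γ K := by
  induction y using Germ.inductionOn with | h f => ?_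
  have hZ : ∀ᶠ j in (a.V : Filter a.I), f j ∈ Subgroup.centralizer (K : Set Γ.G) := by
    have h1 : ∀ᶠ j in (a.V : Filter a.I), ∀ k ∈ (K : Set Γ.G), k * f j = f j * k :=
      (eventually_all_finite (Set.toFinite _)).2 fun k hk => Germ.coe_eq.1 (hc k hk).symm.eq
    exact h1
  refine ⟨hK, ?_, fun R hR hn r hr => ?_⟩
  · obtain ⟨x, hx, hxi⟩ : ∃ x ∈ Subgroup.centralizer (K : Set Γ.G), ¬ IsOfFinOrder x := by
      by_contra hne
      push Not at hne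
      have h1 := (hT Γ a ((Subgroup.centralizer (K : Set Γ.G)).map (cst Γ a)) (by
        rintro _ ⟨x, hx, rfl⟩
        exact fin_cst.2 (hne x hx))).1
      have h2 : (cst Γ a '' (Subgroup.centralizer (K : Set Γ.G) : Set Γ.G)).Finite :=
        Set.toFinite ((Subgroup.centralizer (K : Set Γ.G)).map (cst Γ a) : Set (MM Γ a))
      exact hy (std_of_fin (h2.of_finite_image cst_injective.injOn) hZ)
    by_contra hne
    have h1 : ∀ γ ∈ Subgroup.centralizer (K : Set Γ.G),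
        Commute (x ^ Γ.e) ((γ * x * γ⁻¹) ^ Γ.e) := fun γ hγ => by
      by_contra h
      exact hne ⟨x, hx, γ * x * γ⁻¹, mul_mem (mul_mem hγ hx) (inv_mem hγ), hxi,
        fun h' => hxi (by simpa [mul_assoc] using (MulAut.conj γ⁻¹).toMonoidHom.isOfFinOrder h'), h⟩
    have h2 : Commute (cst Γ a x ^ Γ.e)
        (((Germ.ofFun f : MM Γ a) * cst Γ a x * (Germ.ofFun f : MM Γ a)⁻¹) ^ Γ.e) :=
      Germ.coe_eq.2 (hZ.mono fun j hj => (h1 _ hj).eq)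
    generalize (Germ.ofFun f : MM Γ a) = y at *
    have hc1 : ¬ IsOfFinOrder (cst Γ a x) := fun h => hxi (fin_cst.1 h)
    have hc2 : ¬ IsOfFinOrder (y * cst Γ a x * y⁻¹) := mt (finOrder_conj _ _).1 hc1
    obtain ⟨hc3, e2⟩ := Ep_pow hE hc2 Γ.good.pos.ne'
    have e1 := Ep_eq hE hc1 (mem_Ep.2 h2.symm) hc3
    have h3 : InE (cst Γ a x) y := ((hE Γ a _ hc1).2.2.2.1 y).2 (e2.symm.trans e1)
    have h4 : cst Γ a x ^ Γ.e ∈ std Γ a := ⟨x ^ Γ.e, map_pow _ _ _⟩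
    have h5 : y⁻¹ * cst Γ a x ^ Γ.e * y ∈ std Γ a := by
      have := h3.inv
      rw [InE, inv_inv] at this
      rcases this with h | h <;> rw [h]
      exacts [h4, inv_mem h4]
    obtain ⟨k, hk, e⟩ := hs _ h4 h5
    refine (Ep_pow hE hc1 Γ.good.pos.ne').1 ?_
    rw [← e]
    exact fin_cst.2 (K.subtype.isOfFinOrder (isOfFinOrder_of_finite (⟨k, hk⟩ : K)))
  · have h1 : (Germ.ofFun f : MM Γ a)⁻¹ * cst Γ a r * Germ.ofFun f ∈ std Γ a :=
      std_of_fin (s := R) (f := fun j => (f j)⁻¹ * r * f j) (Set.toFinite _)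
        (hZ.mono fun j hj => by simpa using hn _ (inv_mem hj) r hr)
    obtain ⟨k, hk, e⟩ := hs _ ⟨r, rfl⟩ h1
    rwa [← cst_injective e]

end FA

end Pool.Agent.P.MP_dba3d2_lc


end

section

/-! Adjunction of exponents. -/

namespace Pool.Agent.P.MP_dba3d2_lc

open Filter ET

namespace FA

variable {Γ : HG} {a : Amb} {μ : a.K} {H : Subgroup (MM Γ a)} {c h p x : MM Γ a}

/-- `H` is witness closed in an adjunction of exponents -/
theorem wc_exp (hM : S_MICE) (hH : GC H) (hc : c ∈ H) (pc : Prim c) (k : ℚ →+ a.Z)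
    (hG : GC (H ⊔ Subgroup.closure (Set.range fun q => ipow c (k q)))) (ext : ExtE H c k) :
    Wc H (H ⊔ Subgroup.closure (Set.range fun q => ipow c (k q))) := by
  obtain ⟨κ, k', e, g0, fc, ext', -⟩ := hM Γ a H c hH.toGC0 hc pc
  obtain ⟨θ, t1, t2⟩ := ext _ (((a.dg U0).hom Γ).comp H.subtype) (expH ((a.dg U0).hom Γ c) k')
    (fun x q hx => commute_k k' ((GT.memEp_hom _).2 hx) q)
    fun x q h1 h2 => invert_k k' ((GT.inE_hom _).2 h1) (mt (GT.memEp_hom _).1 h2) q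
  obtain ⟨ρ, r1, r2⟩ := ext' _ (Einv (a.dg U0) H) (expH c k)
    (fun x q hx => commute_k k ((GT.memEp_hom (a.dg U0)).1 (by rwa [hom_Einv])) q)
    fun x q h1 h2 => invert_k k ((GT.inE_hom (a.dg U0)).1 (by rwa [hom_Einv]))
      (fun h => h2 (by rw [← hom_Einv (a.dg U0) H x]; exact (GT.memEp_hom _).2 h)) q
  have t1' : ∀ t : ↥(H ⊔ Subgroup.closure (Set.range fun q => ipow c (k q))), (t : MM Γ a) ∈ H →
      θ t = (a.dg U0).hom Γ t := fun t ht => t1 ⟨t, ht⟩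
  obtain ⟨i1, i2⟩ := iso ((a.dg U0).hom Γ) (z := fun _ => 1) (w := fun _ => 1)
    (fun _ => H.one_mem) (fun _ => H.one_mem) θ ρ t1'
    (fun t q ht => by
      rw [map_one, one_mul, mul_one]; exact (congrArg θ (Subtype.ext ht)).trans (t2 q))
    (fun t x hx ht => ((congrArg ρ (Subtype.ext ht)).trans (r1 ⟨_, x, hx, rfl⟩)).trans
      (Einv_eq _ _ _ rfl))
    fun t q ht => by
      rw [inv_one, one_mul, mul_one]; exact (congrArg ρ (Subtype.ext ht)).trans (r2 q)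
  refine wc_of_hom le_sup_left hG θ i1 (i2 ▸ ⟨g0, fc hH.finc⟩) t1' ?_
  rw [i2]
  refine sup_le (map_le_UT H) ((Subgroup.closure_le _).2 ?_)
  rintro _ ⟨q, rfl⟩
  refine ⟨fun n => ipow c (κ q n : a.Z), fun n => ?_, ?_⟩
  · beta_reduce
    rw [ipow_intCast]
    exact H.zpow_mem hc _
  · rw [← ipow_mk', mk'_hom, ← e]

theorem ll_mul {s t u : a.K} (h : Ll (s * t) μ) (h0 : 0 ≤ s) (e : Ls u t) : Ll (s * u) μ := by
  obtain ⟨n, e⟩ := e
  refine Ll.mono_left ?_ (h.nat_mul n)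
  nlinarith [mul_le_mul_of_nonneg_left e h0]

/-- the new exponents are long -/
theorem long (hC : S_E_CHI) (hS : S_E_SZ) (hμ : Big μ) (hH : GC0 H) (hc : c ∈ H) (pc : Prim c)
    (hm : Ll (md c) μ) (hx : x ∈ H) (cx : Ls (ds x (c * x)) (md c)) (k : ℚ →+ a.Z)
    (far : ∀ y ∈ H, Ls μ (ds (ipow c (k 1) * x) y)) {q : ℚ} (hq : q ≠ 0) {f : MM Γ a}
    (hf : f ∈ H) (ef : f ∈ Ep c) : Ls μ (md (f * ipow c (k q))) := by
  refine (ll_or_ls hμ.pos _).resolve_left fun hl => ?_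
  obtain ⟨χ, c1, c2, c3, c4, c5, c6, -, c8, c9, -⟩ := hC Γ a c pc
  have m0 := md_nonneg c
  have e1 := mul_mem ef (ipow_mem_Ep c (k q))
  have s1 := Ll.ls_left (hS Γ a c _ _ pc.1 e1 ((c1 _ e1 _).1 rfl)).1 hl
  rw [c2 _ ef _ (ipow_mem_Ep _ _), c8, zK_add] at s1
  have N0 : 0 < q.num.natAbs ^ 2 := pow_pos (Int.natAbs_pos.2 (Rat.num_ne_zero.2 hq)) 2
  obtain ⟨g, hg, eg, r, t⟩ := hH.pur c hc pc f hf ef _ N0
  have e2 := pow_mem eg (q.num.natAbs ^ 2)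
  have e3 := pow_mem (self_mem_Ep c) r
  have t1 := congrArg zK ((c4 _ (mul_mem (inv_mem ef) (mul_mem e2 e3))).2 t)
  rw [c2 _ (inv_mem ef) _ (mul_mem e2 e3), c2 _ e2 _ e3, c3 _ ef, c5 _ eg, c5 _ (self_mem_Ep c), c9,
    mul_one, zK_add, zK_add, zK_neg, zK_mul, zK_natCast, zK_natCast, zK_zero] at t1
  set s : ℤ := -(q.num * q.den) with hs
  have e4 := inv_mem (ipow_mem_Ep c (k 1))
  have e5 := zpow_mem eg s
  have e6 := mul_mem e4 e5
  have t2 : zK (χ ((ipow c (k 1))⁻¹ * g ^ s)) = -zK (k 1) + s * zK (χ g) := by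
    rw [c2 _ e4 _ e5, c3 _ (ipow_mem_Ep _ _), c8, c6 _ eg, zK_add, zK_neg, zK_mul, zK_intCast]
  have t3 : (s : a.K) * zK (k q) = -((q.num.natAbs ^ 2 : ℕ) : a.K) * zK (k 1) := by
    have : s • k q = (-((q.num.natAbs ^ 2 : ℕ) : ℤ)) • k 1 := by
      rw [← map_zsmul, ← map_zsmul, zsmul_eq_mul, zsmul_eq_mul, hs]
      push_cast
      rw [sq_abs, neg_mul, mul_assoc, Rat.den_mul_eq_num]
      ring_nf
    have := congrArg zK this
    rw [zsmul_eq_mul, zsmul_eq_mul, zK_mul, zK_mul, zK_intCast, zK_intCast] at this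
    exact_mod_cast this
  have t4 : ((q.num.natAbs ^ 2 : ℕ) : a.K) * zK (χ ((ipow c (k 1))⁻¹ * g ^ s)) =
      s * (zK (χ f) + zK (k q)) - s * r := by
    rw [t2]; linear_combination (s : a.K) * t1 - t3
  have s2 : Ll (|zK (χ ((ipow c (k 1))⁻¹ * g ^ s))| * md c) μ := by
    refine Ll.mono_left ?_ ((s1.nat_mul s.natAbs).add ((hm.nat_mul r).nat_mul s.natAbs))
    have u1 : (1 : a.K) ≤ ((q.num.natAbs ^ 2 : ℕ) : a.K) := by exact_mod_cast N0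
    have u2 := congrArg abs t4
    rw [abs_mul, abs_of_nonneg (Nat.cast_nonneg _)] at u2
    have u3 := abs_sub ((s : a.K) * (zK (χ f) + zK (k q))) (s * r)
    rw [abs_mul, abs_mul, Nat.abs_cast] at u3
    have u4 := mul_le_mul_of_nonneg_right u1 (abs_nonneg (zK (χ ((ipow c (k 1))⁻¹ * g ^ s))))
    rw [Nat.cast_natAbs, Int.cast_abs]
    nlinarith [mul_le_mul_of_nonneg_right (u4.trans (u2.le.trans u3)) m0]
  have s3 := ((hS Γ a c _ _ pc.1 e6 ((c1 _ e6 _).1 rfl)).2 x).2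
  rw [add_mul, one_mul] at s3
  have s4 := Ll.ls_left s3 ((ll_mul s2 (abs_nonneg _) cx).add (Ll.ls_left cx hm))
  rw [← ds_mul_left (ipow c (k 1)), mul_assoc, mul_inv_cancel_left] at s4
  exact s4.not_ls hμ.pos (far _ (mul_mem (zpow_mem hg s) hx))

theorem adjA (hE : S_ELEM) (hL : S_LINE) (hR : S_ROOT) (hT : S_TRUNC) (hX : S_EXP) (hM : S_MICE)
    (hC : S_E_CHI) (hS : S_E_SZ) (hGE : S_E_GE) (hH : GC H) (hμ : Big μ) (hh : h ∈ H)
    (hs : Sim (ln h) μ) (lp : Ls (ln p) μ) (far : ∀ y ∈ H, Ls μ (ds p y)) {γ : MM Γ a}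
    (hγ : γ ∈ H) (inf : ¬ IsOfFinOrder γ) (fx : Ll (ds p (γ * p)) μ) :
    ∃ H' : Subgroup (MM Γ a), GC H' ∧ Wc H H' ∧ Sc H' H ∧
      ∃ p' ∈ H', Ll (ds p p') μ := by
  have h0 := hμ.pos.le
  obtain ⟨c, hc, pc, ec⟩ := (hR Γ a H hH.toGC0).1 γ hγ inf
  have fc := pc.fix hE hL inf ec fx
  have lc : Ls (ln c) μ := by
    refine Ls.mono_left ?_ (lp.two.add fc.ls)
    simpa using disp_le c 1 p
  have hm : Ll (md c) μ := Ll.mono_left (md_le_ds c p) fc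
  obtain ⟨x, hx, lx, cx⟩ := hH.cen1 hc pc.1
  rw [Cen, md_conj, ← ds_conj] at cx
  obtain ⟨k0, hk0⟩ := (hL Γ a c x pc.1 cx).2.1 p
  have dx : Ll (ds x (c * x)) μ := Ll.ls_left cx hm
  have d0 : 0 < ds x (c * x) := one_pos.trans_le ((one_le_md' pc.1).trans (md_le_ds c x))
  obtain ⟨k1, dv, hk1⟩ := exists_divisible (zK k0) (μ / ds x (c * x)) fun n =>
    (le_div_iff₀ d0).2 (dx n)
  obtain ⟨k, hk⟩ := Etrl.exists_hom k1 dv
  have sz := fun j : a.Z => hS Γ a c _ j pc.1 (ipow_mem_Ep c j) (by simp)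
  have near : Ll (ds p (ipow c (k 1) * x)) μ := by
    refine Ll.mono_left (ds_tri _ (ipow c k0 * x) _) ((Ll.ls_left hk0 fc).add fun n => ?_)
    have u1 := ((sz (k 1 - k0)).2 x).1
    rw [← ds_ipow, zK_sub, hk, Rat.cast_one, one_mul] at u1
    have u2 := (le_div_iff₀ d0).1 (hk1 n)
    nlinarith [mul_le_mul_of_nonneg_left u1 (Nat.cast_nonneg (α := a.K) n)]
  have lx' := lx.trans' lc
  have b1 : Ls (|zK k1| * md c) μ := by
    have := (sz (k 1)).1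
    rw [hk, Rat.cast_one, one_mul] at this
    refine this.trans' (Ls.mono_left ?_ ((lx'.add lp).add near.ls))
    linarith [md_le_ds (ipow c (k 1)) x, ds_tri x p (ipow c (k 1) * x), ds_le_ln x p]
  have bd : ∀ q, ipow c (k q) ∈ ball Γ μ := fun q => by
    obtain ⟨n, hn⟩ := exists_nat_ge |q|
    obtain ⟨m, hm⟩ := cx
    refine (mem_ball h0).2 (Ls.mono_left ?_ (lx'.two.add ((b1.nat_mul m).nat_mul n)))
    have u1 := ((sz (k q)).2 x).1
    have u2 := disp_le (ipow c (k q)) 1 x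
    have u3 : |(q : a.K)| ≤ n := by exact_mod_cast hn
    rw [hk, abs_mul] at u1
    rw [ds_one_mul, ds_one_left] at u2
    have u4 := mul_le_mul u3 (mul_le_mul_of_nonneg_left hm (abs_nonneg (zK k1)))
      (mul_nonneg (abs_nonneg _) d0.le) (Nat.cast_nonneg _)
    nlinarith
  have lg : ∀ q, q ≠ 0 → ∀ f ∈ H ⊓ ball Γ μ, f ∈ Ep c → Ls μ (md (f * ipow c (k q))) :=
    fun q hq f hf ef => long hC hS hμ hH.toGC0 hc pc hm hx cx k (fun y hy =>
      (far y hy).of_le_add near hμ.pos 1 (by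
        push_cast; linarith [ds_tri p (ipow c (k 1) * x) y])) hq hf.1 ef
  have hc' : c ∈ H ⊓ ball Γ μ := ⟨hc, (mem_ball h0).2 lc⟩
  obtain ⟨g0, fr, -, ext, nf, -⟩ := hGE Γ a μ H c k hμ hH.toGC0 hc' pc hm bd lg
  have top := (hX Γ a μ _ c k hμ (gc0_trunc hT hμ hH.toGC0) inf_le_right hc' pc hm bd lg).1
  have hG : GC _ := ⟨g0, finC_of_finRed fr le_sup_left le_sup_left hH.finc hH.finc⟩
  exact ⟨_, hG, wc_exp hM hH hc pc k hG ext, sc_of hμ nf top hh hs, _,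
    mul_mem (Subgroup.mem_sup_right (Subgroup.subset_closure ⟨1, rfl⟩)) (Subgroup.mem_sup_left hx),
    near⟩

end FA

end Pool.Agent.P.MP_dba3d2_lc


end

section

/-! Adjunction of a point with finite stabiliser. -/

namespace Pool.Agent.P.MP_dba3d2_lc

open Filter ET

namespace FA

variable {Γ : HG} {a : Amb} {μ : a.K} {H : Subgroup (MM Γ a)} {c h p x : MM Γ a}

/-- extension of homomorphisms to a graft of letters -/
theorem ext_graft (hE : S_ELEM) (hR : S_ROOT) (hT : S_TRUNC) (hG : S_GRAFT) (hμ : Big μ)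
    (hH : GC0 H) {r : ℕ} {u : Fin r → MM Γ a}
    (top : TopOut μ (H ⊓ ball Γ μ) (H ⊓ ball Γ μ ⊔ Subgroup.closure (Set.range u)))
    (eL : ExtL (H ⊓ ball Γ μ) u)
    (last : ∀ c ∈ H ⊓ ball Γ μ, Prim c → ∀ f ∈ H ⊓ ball Γ μ ⊔ Subgroup.closure (Set.range u),
      f ∈ Ep c → f ∈ H ⊓ ball Γ μ) {G : Type} [Group G] (θ0 : H →* G) (ν : Fin r → G)
    (hν : ∀ i (x y : H), (x : MM Γ a) ∈ ball Γ μ → (y : MM Γ a) ∈ ball Γ μ →
      (y : MM Γ a) = (u i)⁻¹ * x * u i → θ0 y = (ν i)⁻¹ * θ0 x * ν i) :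
    ∃ θ : ↥(H ⊔ Subgroup.closure (Set.range u)) →* G,
      (∀ x : H, θ ⟨x, (le_sup_left : H ≤ _) x.2⟩ = θ0 x) ∧
      ∀ i, θ ⟨u i, (le_sup_right : _ ≤ H ⊔ _) (Subgroup.subset_closure ⟨i, rfl⟩)⟩ = ν i := by
  have hB := gc0_trunc hT hμ hH
  have sep := sep_of_le (H := H) hμ le_sup_left top.bd
  have e := inf_of_le (H := H) le_sup_left top.bd
  obtain ⟨θ1, h1, h2⟩ := eL G (θ0.comp (Subgroup.inclusion inf_le_left)) ν
    fun i x y h => hν i ⟨x, x.2.1⟩ ⟨y, y.2.1⟩ x.2.2 y.2.2 h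
  obtain ⟨θ, t0, t1⟩ := (hG Γ a H _ hH top.gc sep).1.ext G θ0 θ1
    (fun x y h => by
      have hy : (y : MM Γ a) ∈ H ⊓ ball Γ μ := e.le ⟨h ▸ x.2, y.2⟩
      exact (congrArg θ0 (Subtype.ext h)).trans (h1 ⟨y, hy⟩).symm)
    (fun c hc hf x y hx hy => by
      rw [e] at hc
      obtain ⟨c0, m0, p0, e0⟩ := (hR Γ a _ hB).1 c hc hf
      have hy' : (y : MM Γ a) ∈ H ⊓ ball Γ μ := last c0 m0 p0 y y.2 (e0 ▸ hy)
      have k : Commute (x ^ Γ.e) ⟨y, hy'.1⟩ :=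
        Subtype.ext ((hE Γ a c hf).2.2.2.2.2.2.2.1 x hx y hy)
      rw [← map_pow, show θ1 y = θ0 ⟨y, hy'.1⟩ from h1 ⟨y, hy'⟩]
      exact k.map θ0)
  exact ⟨θ.comp (Subgroup.inclusion (sup_le_sup_left le_sup_right H)), t0,
    fun i => (t1 ⟨u i, _⟩).trans (h2 i)⟩

/-- a frame at a point with finite stabiliser -/
theorem frame (hT : S_TORS) (hF : S_FINM) (hH : GC H) (hμ : Big μ)
    (tor : ∀ γ ∈ H, Ll (ds p (γ * p)) μ → IsOfFinOrder γ) :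
    ∃ p' : MM Γ a, ∃ z ∈ H, ∃ K : Subgroup Γ.G, Ll (ds p p') μ ∧ Finite K ∧
      (∀ k ∈ K, Commute (z⁻¹ * p') (cst Γ a k)) ∧
      ∀ x ∈ H, Ll (ds p' (x * p')) μ → z⁻¹ * x * z ∈ K.map (cst Γ a) := by
  have h0 := hμ.pos.le
  have mem : ∀ x, x ∈ H ⊓ StabG μ p p ↔ x ∈ H ∧ Ll (ds p (x * p)) μ := fun x => by
    rw [Subgroup.mem_inf, mem_stabG h0, Stab, and_self]
  have f0 : Finite ↥(H ⊓ StabG μ p p) :=
    (hT Γ a _ fun k hk => tor k ((mem k).1 hk).1 ((mem k).1 hk).2).1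
  obtain ⟨z, hz, e1⟩ := hH.finc _ inf_le_left f0
  obtain ⟨w, e2, lw⟩ := Frame.finm hF hμ ((H ⊓ StabG μ p p).comap (MulAut.conj p).toMonoidHom)
    (Frame.fin_comap _ (MulAut.conj p).injective _ f0) fun k hk => by
      have := ((mem _).1 hk).2
      rw [ds_conj] at this
      simpa [mul_assoc] using this
  let K : Subgroup Γ.G := (H ⊓ StabG μ p p).comap ((MulAut.conj z).toMonoidHom.comp (cst Γ a))
  have hK : ∀ x, x ∈ K ↔ z * cst Γ a x * z⁻¹ ∈ H ⊓ StabG μ p p := fun _ => Iff.rfl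
  have fK : Finite K := Frame.fin_comap _ ((MulAut.conj z).injective.comp cst_injective) _ f0
  obtain ⟨γ, hγ⟩ := Frame.fix (z⁻¹ * (p * w)) K fK fun k hk => by
    have := e2 (p⁻¹ * (z * cst Γ a k * z⁻¹) * p) (by
      simpa [Subgroup.mem_comap, mul_assoc] using (hK k).1 hk)
    simpa [mul_assoc] using this
  have near : Ll (ds p (p * w * (cst Γ a γ)⁻¹)) μ := by
    rw [mul_assoc, ds_mul_right]
    exact Frame.ll_mul lw (Frame.ll_inv ((mem_tiny h0).1 (std_le_tiny hμ ⟨γ, rfl⟩)))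
  refine ⟨_, z, hz, K, near, fK, fun k hk => ?_, fun x hx fx => ?_⟩
  · have h1 := hγ k hk
    rw [map_mul, map_mul, map_inv] at h1
    rw [← mul_assoc]
    generalize z⁻¹ * (p * w) = u at h1
    have h2 : cst Γ a k * u = u * ((cst Γ a γ)⁻¹ * cst Γ a k * cst Γ a γ) := by
      rw [← h1]; group
    rw [Commute, SemiconjBy, ← mul_assoc, h2]
    group
  · have m := (mem x).2 ⟨hx, fix_congr fx (FixA.ll_comm near)⟩
    obtain ⟨k, e⟩ := e1 x m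
    refine ⟨k, (hK k).2 ?_, e⟩
    rw [e]
    simpa [mul_assoc] using m

/-- `H` is witness closed in the adjunction of a letter over a finite group -/
theorem wc_let (hTo : S_TORS) (hE : S_ELEM) (hM : S_MICL) (hH : GC H) {u z w : MM Γ a}
    {K : Subgroup Γ.G} (hu : u ∉ H) (hz : z ∈ H) (hw : w ∈ H) (fK : Finite K)
    (cm : ∀ k ∈ K, Commute (z⁻¹ * u * w⁻¹) (cst Γ a k))
    (mx : ∀ g ∈ std Γ a, (z⁻¹ * u * w⁻¹)⁻¹ * g * (z⁻¹ * u * w⁻¹) ∈ std Γ a → g ∈ K.map (cst Γ a))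
    (gc : GC (H ⊔ Subgroup.closure (Set.range fun _ : Fin 1 => u)))
    (ext : ∀ (G : Type) [Group G] (θ0 : H →* G) (ν : Fin 1 → G),
      (∀ i (x y : H), z⁻¹ * x * z ∈ K.map (cst Γ a) → (y : MM Γ a) = u⁻¹ * x * u →
        θ0 y = (ν i)⁻¹ * θ0 x * ν i) →
      ∃ θ : ↥(H ⊔ Subgroup.closure (Set.range fun _ : Fin 1 => u)) →* G,
        (∀ x : H, θ ⟨x, (le_sup_left : H ≤ _) x.2⟩ = θ0 x) ∧
        ∀ i, θ ⟨u, (le_sup_right : _ ≤ H ⊔ _) (Subgroup.subset_closure ⟨i, rfl⟩)⟩ = ν i) :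
    Wc H (H ⊔ Subgroup.closure (Set.range fun _ : Fin 1 => u)) := by
  have lg : Legal Γ K := legal hTo hE
    (fun e => hu (by simpa [mul_assoc] using mul_mem (mul_mem hz (hH.base e)) hw)) fK cm mx
  obtain ⟨t, ct, hM'⟩ := hM Γ 1 (fun _ => K) fun _ => lg
  obtain ⟨g1, fc, ext', c4, -⟩ := hM' a H hH.toGC0
  set v : Fin 1 → MM Γ (a.pow U0) := fun i => a.mk' U0 fun n => cst Γ a (t i n) with hv
  have cu : ∀ i, ∀ k ∈ K, (v i)⁻¹ * cst Γ (a.pow U0) k * v i = cst Γ (a.pow U0) k := fun i k hk => by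
    have : Commute (v i) (cst Γ (a.pow U0) k) := by
      rw [← (a.dg U0).hom_cst, ← mk'_hom, Commute, SemiconjBy, ← mk'_mul, ← mk'_mul]
      exact congrArg _ (funext fun n => ((ct i n k hk).map (cst Γ a)).eq)
    exact this.inv_mul_cancel
  obtain ⟨θ, t1, t2⟩ := ext _ (((a.dg U0).hom Γ).comp H.subtype)
    (fun i => (a.dg U0).hom Γ z * v i * (a.dg U0).hom Γ w) fun i x y ⟨k, hk, e1⟩ e => by
      have e3 : (x : MM Γ a) = z * cst Γ a k * z⁻¹ := by rw [e1]; group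
      have e2 : (y : MM Γ a) = w⁻¹ * cst Γ a k * w := by
        rw [e, e3]
        conv_rhs => rw [← (cm k hk).inv_mul_cancel]
        group
      simp only [MonoidHom.comp_apply, Subgroup.coe_subtype, e3, e2, map_mul, map_inv,
        Ext.hom_cst]
      conv_lhs => rw [← cu i k hk]
      group
  obtain ⟨ρ, r1, r2⟩ := ext' _ (Einv (a.dg U0) H) (fun _ => z⁻¹ * u * w⁻¹) fun i x y e => by
    obtain ⟨k, hk, e1⟩ := c4 i x x.2 (e ▸ y.2)
    rw [Einv_eq _ _ x (h := cst Γ a k) e1.symm, Einv_eq _ _ y (h := cst Γ a k) (by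
      rw [e, ← e1, cu i k hk]; rfl)]
    exact (cm k hk).inv_mul_cancel.symm
  have t1' : ∀ t : ↥(H ⊔ Subgroup.closure (Set.range fun _ : Fin 1 => u)), (t : MM Γ a) ∈ H →
      θ t = (a.dg U0).hom Γ t := fun t ht => t1 ⟨t, ht⟩
  obtain ⟨i1, i2⟩ := iso ((a.dg U0).hom Γ) (z := fun _ => z) (w := fun _ => w) (fun _ => hz)
    (fun _ => hw) θ ρ t1' (fun t q ht => (congrArg θ (Subtype.ext ht)).trans (t2 q))
    (fun t x hx ht => ((congrArg ρ (Subtype.ext ht)).trans (r1 ⟨_, x, hx, rfl⟩)).trans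
      (Einv_eq _ _ _ rfl))
    fun t q ht => (congrArg ρ (Subtype.ext ht)).trans (r2 q)
  refine wc_of_hom le_sup_left gc θ i1 (i2 ▸ ⟨g1, fc hH.finc⟩) t1' ?_
  rw [i2]
  refine sup_le (map_le_UT H) ((Subgroup.closure_le _).2 ?_)
  rintro _ ⟨i, rfl⟩
  exact ⟨_, fun n => hH.base ⟨t i n, rfl⟩, rfl⟩

theorem adjB (hTo : S_TORS) (hF : S_FINM) (hE : S_ELEM) (hR : S_ROOT) (hT : S_TRUNC)
    (hG : S_GRAFT) (hP : S_PT) (hM : S_MICL) (hH : GC H) (hμ : Big μ) (hh : h ∈ H)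
    (hs : Sim (ln h) μ) (hp : On μ p 1 h) (far : ∀ y ∈ H, Ls μ (ds p y))
    (tor : ∀ γ ∈ H, Ll (ds p (γ * p)) μ → IsOfFinOrder γ) :
    ∃ H' : Subgroup (MM Γ a), GC H' ∧ Wc H H' ∧ Sc H' H ∧ ∃ p' ∈ H', Ll (ds p p') μ := by
  have h0 := hμ.pos.le
  obtain ⟨p', z, hz, K, near, fK, cm, st⟩ := frame hTo hF hH hμ tor
  have far' : ∀ y ∈ H, Ls μ (ds p' y) := fun y hy =>
    (far y hy).of_le_add near hμ.pos 1 (by push_cast; linarith [ds_tri p p' y])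
  obtain ⟨top, eL, c3, last⟩ := hP Γ a μ _ p' h hμ (gc0_trunc hT hμ hH.toGC0) inf_le_right
    ⟨hh, (mem_ball h0).2 hs.1⟩ (hp.congr near (FixA.ll_self h0 _) (FixA.ll_self h0 _))
    (fun x hx => far' x hx.1) fun x hx fx => by
      obtain ⟨k, hk, e⟩ := st x hx.1 fx
      refine ⟨⟨k, ?_⟩, tor x hx.1 (fix_congr fx (FixA.ll_comm near))⟩
      rw [← (cm k hk).inv_mul_cancel, e]
      group
  obtain ⟨o, nf⟩ := hG Γ a H _ hH.toGC0 top.gc (sep_of_le hμ le_sup_left top.bd)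
  have red := (red_two o inf_le_left top.fin top.per).1
  have g0 := o.gc
  rw [← sup_assoc, sup_inf_self] at g0 red
  have sc := sc_of hμ nf top hh hs
  rw [← sup_assoc, sup_inf_self] at sc
  have gc : GC _ := ⟨g0, finC_of_finRed red le_sup_left le_sup_left hH.finc hH.finc⟩
  refine ⟨_, gc, wc_let hTo hE hM hH (w := 1)
    (fun e => (FixA.ll_self h0 p').not_ls hμ.pos (far' p' e)) hz H.one_mem fK (by simpa using cm)
    (fun g hg e => ?_) gc fun G _ θ0 ν hν => ext_graft hE hR hT hG hμ hH.toGC0 top eL last θ0 ν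
      fun i x y hx hy e => hν i x y (st x x.2 (c3 x ⟨x.2, hx⟩ (e ▸ ⟨y.2, hy⟩))) e, sc, p',
    Subgroup.mem_sup_right (Subgroup.subset_closure ⟨0, rfl⟩), near⟩
  have := st (z * g * z⁻¹) (mul_mem (mul_mem hz (hH.base hg)) (inv_mem hz)) (by
    rw [ds_conj]
    exact hμ.ll_of_not_big (mem_std_iff.1 (by simpa [mul_assoc] using e)))
  simpa [mul_assoc] using this

end FA

end Pool.Agent.P.MP_dba3d2_lc


end

section

/-! Definitions for the key lemma. -/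

namespace Pool.Agent.P.MP_dba3d2_lc

open Filter

variable {Γ : HG} {a : Amb}

/-- sets of tuples defined over `H` by a predicate that transfers -/
def TD (H : Subgroup (MM Γ a)) {k : ℕ} (W : Set (Fin k → MM Γ a)) : Prop :=
  ∃ (m : ℕ) (Q : (Fin m ⊕ Fin k → Γ.G) → Prop) (h : Fin m → MM Γ a), Tr Q ∧ (∀ i, h i ∈ H) ∧
    ∀ z, z ∈ W ↔ St Q (Sum.elim h z)

/-- word maps with coefficients in `H` -/
def WM (H : Subgroup (MM Γ a)) (k : ℕ) : Subgroup ((Fin k → MM Γ a) → MM Γ a) :=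
  Subgroup.closure ({F | ∃ h ∈ H, F = fun _ => h} ∪ {F | ∃ i, F = fun z => z i})

/-- geometrically closed subgroups with countably many scales that admit no adjunction -/
structure Clo (H : Subgroup (MM Γ a)) : Prop where
  gc : GC H
  adj : ∀ (μ : a.K) (p h : MM Γ a), Big μ → h ∈ H → Sim (ln h) μ → On μ p 1 h →
    ∃ p' ∈ H, Ll (ds p p') μ
  lim : ∀ (l : ℕ → a.K) (u : MM Γ a), (∀ n, Big (l n)) → (∀ n, Ll (l (n + 1)) (l n)) →
    (∀ n, ∃ v ∈ H, Ls (ds u v) (l n)) → ∃ u' ∈ H, ∀ n, Ls (ds u u') (l n)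
  cnt : ∃ Λ : Set a.K, Λ.Countable ∧ ∀ h ∈ H, Big (ln h) → ∃ l ∈ Λ, Sim (ln h) l

/-- a tuple of least total length -/
def MinT {k : ℕ} (W : Set (Fin k → MM Γ a)) (x : Fin k → MM Γ a) : Prop :=
  x ∈ W ∧ ∀ y ∈ W, tl x ≤ tl y

/-- subgroups that contain a limit of each convergent sequence -/
def LimC (P : Subgroup (MM Γ a)) : Prop :=
  ∀ (l : ℕ → a.K) (u : MM Γ a), (∀ n, Big (l n)) → (∀ n, Ll (l (n + 1)) (l n)) →
    (∀ n, ∃ v ∈ P, Ls (ds u v) (l n)) → ∃ u' ∈ P, ∀ n, Ls (ds u u') (l n)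

/-- the elements of `H` of type `t` -/
def TG (H : Subgroup (MM Γ a)) (t : Option (MM Γ a)) : Subgroup (MM Γ a) := H ⊓ Ep (t.getD 1)

/-- multiplying the coordinates on both sides by elements of `H` does not lower the scale -/
def Irr (H : Subgroup (MM Γ a)) {k : ℕ} (ty : Fin k → Option (MM Γ a))
    (W : Set (Fin k → MM Γ a)) : Prop :=
  ∀ x, MinT W x → Big (tl x) → ∀ g g' z : Fin k → MM Γ a,
    (∀ i, g i ∈ TG H (ty i) ∧ g' i ∈ TG H (ty i) ∧ Ls (ln (g i)) (tl x) ∧ Ls (ln (g' i)) (tl x)) →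
    (fun i => g i * z i * g' i) ∈ W → ¬ Ll (tl z) (tl x)

/-- the substitution given by blocks -/
def upW {k : ℕ} (r : Fin k → ℕ) (h : (i : Fin k) → Fin (r i + 1) → MM Γ a)
    (z : Fin (∑ i, r i) → MM Γ a) : Fin k → MM Γ a :=
  fun i => weave (r i) (h i) fun j => z (finSigmaFinEquiv ⟨i, j⟩)

/-- one step of the descent from the set `W` with minimal element `x` -/
structure Stp (H : Subgroup (MM Γ a)) {k : ℕ} (ty : Fin k → Option (MM Γ a))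
    (W : Set (Fin k → MM Γ a)) (x : Fin k → MM Γ a) (r : Fin k → ℕ)
    (h : (i : Fin k) → Fin (r i + 1) → MM Γ a) (ty' : Fin (∑ i, r i) → Option (MM Γ a)) : Prop where
  mem : ∀ i j, h i j ∈ TG H (ty i)
  bd : ∀ i j, Ls (ln (h i j)) (tl x)
  add : Ll (∑ i, ∑ j, ln (h i j) - tl x) (tl x)
  ok : ∀ s, TyOk H (ty' s)
  one : ∀ i c, ty i = some c → r i ≤ 1 ∧ ∀ j, ty' (finSigmaFinEquiv ⟨i, j⟩) = some c
  low : ∃ z, ((∀ s, HasT (ty' s) (z s)) ∧ upW r h z ∈ W) ∧ Ll (tl z) (tl x)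
  irr : Irr H ty' {z | (∀ s, HasT (ty' s) (z s)) ∧ upW r h z ∈ W}
  opt : ∀ y ∈ W, Ll (tl y - tl x) (tl x) → ∀ (r' : Fin k → ℕ)
    (h' : (i : Fin k) → Fin (r' i + 1) → MM Γ a) (z' : (i : Fin k) → Fin (r' i) → MM Γ a)
    (t' : (i : Fin k) → Fin (r' i) → Option (MM Γ a)),
    (∀ i, TDec (tl x) H (ty i) (y i) (r' i) (h' i) (z' i) (t' i)) →
    nG ty' < ∑ i, nG (t' i) ∨ (nG ty' = ∑ i, nG (t' i) ∧ ∑ i, r i ≤ ∑ i, r' i)

end Pool.Agent.P.MP_dba3d2_lc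


end
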