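import Pool.Agent.P.MP_dba3d2_lcM.Ab04
import Pool.Agent.P.MP_dba3d2_lcM.Bb07
import Pool.Agent.P.MP_dba3d2_lcM.Cb23
import Pool.Agent.P.MP_dba3d2_lcM.Gb27
import Pool.Agent.P.MP_dba3d2_lcM.Fb30

section

/-! Interface, chapter F, the steps of the key lemma. -/

namespace Pool.Agent.P.MP_dba3d2_lc

open Filter

-- deps: UNION ADJ LIM
-- imports: Pool.Agent.P.MP_dba3d2_lc.F.TbK
def S_FK_MAX : Prop := ∀ (Γ : HG) (a : Amb) (H : Subgroup (MM Γ a)), GC H →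
  (H : Set (MM Γ a)).Countable → ∃ H', Clo H' ∧ Wc H H'

-- deps:
-- imports: Pool.Agent.P.MP_dba3d2_lc.F.TbK
def S_FK_SUB : Prop := ∀ (Γ : HG) (a : Amb) (H : Subgroup (MM Γ a)) (k k' : ℕ)
  (W : Set (Fin k → MM Γ a)) (F : Fin k → (Fin k' → MM Γ a) → MM Γ a), TD H W →
  (∀ i, F i ∈ WM H k') → TD H {z | (fun i => F i z) ∈ W}

-- deps: S1
-- imports: Pool.Agent.P.MP_dba3d2_lc.F.TbK Pool.Agent.P.MP_dba3d2_lc.B.Tre
def S_FK_DEC : Prop := ∀ (Γ : HG) (a : Amb) (H : Subgroup (MM Γ a)) (k : ℕ)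
  (W : Set (Fin k → MM Γ a)) (x : Fin k → MM Γ a), Clo H → TD H W → MinT W x → Big (tl x) →
  (∀ i, ∃ r h z, Dec (tl x) H (x i) r h z) ∧ ∃ h ∈ H, Sim (ln h) (tl x)

-- deps: CVX ROOT GRAFT
-- imports: Pool.Agent.P.MP_dba3d2_lc.F.TbK Pool.Agent.P.MP_dba3d2_lc.F.TbC
def S_FK_EXP : Prop := ∀ (Γ : HG) (a : Amb) (H : Subgroup (MM Γ a)) (μ : a.K)
  (t : Option (MM Γ a)) (y : MM Γ a), GC H → Big μ → TyOk H t → HasT t y → Ls (ln y) μ →
  (∃ r h z, Dec μ H y r h z) → ∃ r h z ty, TDec μ H t y r h z ty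

-- deps: TORS ELEM LINE NORM
-- imports: Pool.Agent.P.MP_dba3d2_lc.F.TbK Pool.Agent.P.MP_dba3d2_lc.B.Axis2
def S_FK_ELIM : Prop := ∀ (Γ : HG) (a : Amb) (H : Subgroup (MM Γ a)) (t : Option (MM Γ a)),
  Clo H → TyOk H t → LimC (TG H t)

-- deps:
-- imports: Pool.Agent.P.MP_dba3d2_lc.F.TbK
def S_FK_ZORN : Prop := ∀ (Γ : HG) (a : Amb) (H : Subgroup (MM Γ a)) (ι : Type)
  (P : ι → Subgroup (MM Γ a)) (D : (ι → MM Γ a) → a.K) (x0 : ι → MM Γ a), Clo H →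
  (∀ i, LimC (P i)) → (∀ i, x0 i ∈ P i) → (∀ x, 0 ≤ D x) →
  (∀ x, (∀ i, x i ∈ P i) → Big (D x) → ∃ h ∈ H, Sim (ln h) (D x)) →
  (∀ x y, (∀ i, Ls (ds (x i) (y i)) (D y)) → Ls (D x) (D y)) →
  ∃ x, (∀ i, x i ∈ P i) ∧ (∀ i, Ls (ds (x0 i) (x i)) (D x0)) ∧
    ∀ y, (∀ i, y i ∈ P i) → Big (D x) → (∀ i, Ls (ds (x i) (y i)) (D x)) → ¬ Ll (D y) (D x)

-- deps: FK_SUB FK_DEC FK_ELIM FK_ZORN
-- imports: Pool.Agent.P.MP_dba3d2_lc.F.TbK
def S_FK_NB : Prop := ∀ (Γ : HG) (a : Amb) (H : Subgroup (MM Γ a)) (k : ℕ)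
  (ty : Fin k → Option (MM Γ a)) (W : Set (Fin k → MM Γ a)) (x : Fin k → MM Γ a), Clo H →
  (∀ i, TyOk H (ty i)) → TD H W → MinT W x → ∃ g g' : Fin k → MM Γ a,
    (∀ i, g i ∈ TG H (ty i) ∧ g' i ∈ TG H (ty i) ∧ Ls (ln (g i)) (tl x) ∧ Ls (ln (g' i)) (tl x)) ∧
    Irr H ty {z : Fin k → MM Γ a | (fun i => g i * z i * g' i) ∈ W}

-- deps: FK_SUB FK_DEC FK_EXP FK_NB
-- imports: Pool.Agent.P.MP_dba3d2_lc.F.TbK
def S_FK_STEP : Prop := ∀ (Γ : HG) (a : Amb) (H : Subgroup (MM Γ a)) (k : ℕ)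
  (ty : Fin k → Option (MM Γ a)) (W : Set (Fin k → MM Γ a)) (x : Fin k → MM Γ a), Clo H →
  (∀ i, TyOk H (ty i)) → (∀ i, HasT (ty i) (x i)) → TD H W → MinT W x → Big (tl x) →
  ∃ r h ty', Stp H ty W x r h ty'

-- deps: S2 FK_SUB FK_STEP
-- imports: Pool.Agent.P.MP_dba3d2_lc.F.TbK
def S_FK_CORE : Prop := ∀ (Γ : HG) (a : Amb) (H : Subgroup (MM Γ a)) (k : ℕ)
  (W : Set (Fin k → MM Γ a)), Clo H → TD H W → W.Nonempty → ∃ y ∈ W, ∀ i, y i ∈ H

end Pool.Agent.P.MP_dba3d2_lc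


end

section

/-! Toolbox for the key lemma: total length, products of blocks and joints, definable sets. -/

namespace Pool.Agent.P.MP_dba3d2_lc

open Filter

namespace FK

variable {Γ : HG} {a : Amb} {H : Subgroup (MM Γ a)} {k : ℕ} {μ : a.K}

theorem tl_nonneg (x : Fin k → MM Γ a) : 0 ≤ tl x := Finset.sum_nonneg fun _ _ => ln_nonneg _

theorem ln_le_tl (x : Fin k → MM Γ a) (i : Fin k) : ln (x i) ≤ tl x :=
  Finset.single_le_sum (f := fun i => ln (x i)) (fun _ _ => ln_nonneg _) (Finset.mem_univ i)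

theorem ll_tl (h0 : 0 ≤ μ) {x : Fin k → MM Γ a} (h : ∀ i, Ll (ln (x i)) μ) : Ll (tl x) μ :=
  ll_sum _ _ h0 fun i _ => h i

theorem ls_tl (h0 : 0 ≤ μ) {x : Fin k → MM Γ a} (h : ∀ i, Ls (ln (x i)) μ) : Ls (tl x) μ :=
  ls_sum _ _ h0 fun i _ => h i

theorem tl_sigma (r : Fin k → ℕ) (z : Fin (∑ i, r i) → MM Γ a) :
    ∑ i, ∑ j, ln (z (finSigmaFinEquiv ⟨i, j⟩)) = tl z := by
  rw [tl, ← Equiv.sum_comp finSigmaFinEquiv, Fintype.sum_sigma]

theorem map_weave {G G' : Type} [Group G] [Group G'] (φ : G →* G') (r : ℕ) :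
    ∀ (h : Fin (r + 1) → G) (z : Fin r → G),
      φ (weave r h z) = weave r (fun i => φ (h i)) fun i => φ (z i) := by
  induction r with
  | zero => exact fun _ _ => rfl
  | succ r ih =>
    intro h z
    rw [weave, weave, map_mul, map_mul, ih]
    rfl

theorem weave_mem {G : Type} [Group G] (S : Subgroup G) (r : ℕ) :
    ∀ (h : Fin (r + 1) → G) (z : Fin r → G), (∀ i, h i ∈ S) → (∀ i, z i ∈ S) → weave r h z ∈ S := by
  induction r with
  | zero => exact fun _ _ h _ => h 0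
  | succ r ih =>
    exact fun h z h1 h2 => S.mul_mem (S.mul_mem (h1 0) (h2 0)) (ih _ _ (fun _ => h1 _) fun _ => h2 _)

theorem ln_weave_le (r : ℕ) : ∀ (h : Fin (r + 1) → MM Γ a) (z : Fin r → MM Γ a),
    ln (weave r h z) ≤ ∑ i, ln (h i) + ∑ i, ln (z i) := by
  induction r with
  | zero => exact fun h z => by simp [weave]
  | succ r ih =>
    intro h z
    have h1 := ih (Fin.tail h) (Fin.tail z)
    have h2 := ln_mul_le (h 0 * z 0) (weave r (Fin.tail h) (Fin.tail z))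
    have h3 := ln_mul_le (h 0) (z 0)
    rw [weave, Fin.sum_univ_succ, Fin.sum_univ_succ (f := fun i => ln (z i))]
    simp only [Fin.tail] at h1 h2 ⊢
    linarith

theorem tl_upW_le (r : Fin k → ℕ) (h : (i : Fin k) → Fin (r i + 1) → MM Γ a)
    (z : Fin (∑ i, r i) → MM Γ a) : tl (upW r h z) ≤ ∑ i, ∑ j, ln (h i j) + tl z := by
  rw [← tl_sigma r z, ← Finset.sum_add_distrib]
  exact Finset.sum_le_sum fun i _ => ln_weave_le _ _ _

/-- small factors next to the joints can be merged into the blocks -/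
theorem weave_merge (r : ℕ) : ∀ (h : Fin (r + 1) → MM Γ a) (g g' : Fin r → MM Γ a)
    (u : MM Γ a), (∀ i, h i ∈ H) → (∀ i, g i ∈ H ∧ g' i ∈ H) → u ∈ H →
    (∀ i, Ll (ln (g i)) μ ∧ Ll (ln (g' i)) μ) → Ll (ln u) μ →
    ∃ h' : Fin (r + 1) → MM Γ a, (∀ i, h' i ∈ H ∧ Ll (ln (h' i) - ln (h i)) μ) ∧
      ∀ z, weave r h' z = u * weave r h fun i => g i * z i * g' i := by
  induction r with
  | zero =>
    intro h g g' u h1 _ h3 _ h5
    refine ⟨fun i => u * h i, fun i => ⟨H.mul_mem h3 (h1 i), h5.mono_left ?_⟩, fun _ => rfl⟩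
    linarith [ln_mul_le u (h i)]
  | succ r ih =>
    intro h g g' u h1 h2 h3 h4 h5
    obtain ⟨h', k1, k2⟩ := ih (Fin.tail h) (Fin.tail g) (Fin.tail g') (g' 0) (fun _ => h1 _)
      (fun _ => h2 _) (h2 0).2 (fun _ => h4 _) (h4 0).2
    refine ⟨Fin.cons (u * h 0 * g 0) h', fun i => ?_, fun z => ?_⟩
    · refine Fin.cases ?_ (fun i => k1 i) i
      refine ⟨H.mul_mem (H.mul_mem h3 (h1 0)) (h2 0).1, (h5.add (h4 0).1).mono_left ?_⟩
      rw [Fin.cons_zero]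
      linarith [ln_mul_le u (h 0), ln_mul_le (u * h 0) (g 0)]
    · rw [weave, weave, Fin.cons_zero, Fin.tail_cons, k2]
      simp only [mul_assoc]
      rfl

/-- a decomposition with at most one joint -/
theorem dec_le_one (h0 : 0 ≤ μ) {y : MM Γ a} {r : ℕ} {h : Fin (r + 1) → MM Γ a}
    {z : Fin r → MM Γ a} (hd : Dec μ H y r h z) (hr : r ≤ 1) : ∃ g g' w : MM Γ a,
    (g ∈ H ∧ g' ∈ H ∧ Ls (ln g) μ ∧ Ls (ln g') μ) ∧ Ll (ln w) μ ∧ g * w * g' = y := by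
  obtain rfl | rfl : r = 0 ∨ r = 1 := by omega
  · exact ⟨h 0, 1, 1, ⟨hd.mem 0, H.one_mem, hd.bd 0, by rw [ln_one]; exact Ls.zero h0⟩,
      by rw [ln_one]; exact Ll.zero h0, by rw [mul_one, mul_one]; exact hd.eq.symm⟩
  · exact ⟨h 0, h 1, z 0, ⟨hd.mem 0, hd.mem 1, hd.bd 0, hd.bd 1⟩, hd.tin 0, hd.eq.symm⟩

theorem const_mem_WM {h : MM Γ a} (hh : h ∈ H) : (fun _ => h) ∈ WM H k :=
  Subgroup.subset_closure (Or.inl ⟨h, hh, rfl⟩)

theorem var_mem_WM (i : Fin k) : (fun z : Fin k → MM Γ a => z i) ∈ WM H k :=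
  Subgroup.subset_closure (Or.inr ⟨i, rfl⟩)

theorem side_mem_WM {g g' : MM Γ a} (h : g ∈ H) (h' : g' ∈ H) (i : Fin k) :
    (fun z : Fin k → MM Γ a => g * z i * g') ∈ WM H k :=
  (WM H k).mul_mem ((WM H k).mul_mem (const_mem_WM h) (var_mem_WM i)) (const_mem_WM h')

theorem upW_mem_WM (r : Fin k → ℕ) {h : (i : Fin k) → Fin (r i + 1) → MM Γ a}
    (hh : ∀ i j, h i j ∈ H) (i : Fin k) : (fun z => upW r h z i) ∈ WM H (∑ i, r i) := by
  have := weave_mem (WM H (∑ i, r i)) (r i) (fun j _ => h i j)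
    (fun j z => z (finSigmaFinEquiv ⟨i, j⟩)) (fun j => const_mem_WM (hh i j)) fun j => var_mem_WM _
  convert this using 1
  funext z
  exact (map_weave (Pi.evalMonoidHom (fun _ => MM Γ a) z) (r i) (fun j _ => h i j)
    fun j z => z (finSigmaFinEquiv ⟨i, j⟩)).symm

theorem td_mono {H' : Subgroup (MM Γ a)} {W : Set (Fin k → MM Γ a)} (h : TD H W) (l : H ≤ H') :
    TD H' W := by
  obtain ⟨m, Q, h, h1, h2, e⟩ := h
  exact ⟨m, Q, h, h1, fun i => l (h2 i), e⟩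

theorem minT_eq {W : Set (Fin k → MM Γ a)} {x y : Fin k → MM Γ a} (hx : MinT W x) (hy : MinT W y) :
    tl x = tl y := le_antisymm (hx.2 y hy.1) (hy.2 x hx.1)

theorem td_intl {W : Set (Fin k → MM Γ a)} (h : TD H W) : Intl W := by
  obtain ⟨m, Q, h, -, -, e⟩ := h
  have := (intl_st (a := a) Q).comap (ι := Fin k)
    (Sum.elim (fun i => FreeGroup.of (Sum.inl (h i))) fun i => FreeGroup.of (Sum.inr i))
  convert this using 1
  ext z
  rw [e, Set.mem_ofPred_eq, Set.mem_ofPred_eq]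
  refine iff_of_eq (congrArg (St Q) (funext fun s => ?_))
  cases s <;> simp [wev]

theorem exists_minT {W : Set (Fin k → MM Γ a)} (h : TD H W) (hne : W.Nonempty) : ∃ x, MinT W x :=
  exists_min (td_intl h) hne

theorem mem_of_not_big (hH : Clo H) {x : Fin k → MM Γ a} (h : ¬ Big (tl x)) (i : Fin k) : x i ∈ H :=
  hH.gc.base (mem_std_iff.2 (not_big_of_ls (Ls.of_le (ln_le_tl x i)) h))

theorem hasT_iff {t : Option (MM Γ a)} {x : MM Γ a} : HasT t x ↔ x ∈ Ep (t.getD 1) := by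
  cases t with
  | none => exact iff_of_true (fun _ e => nomatch e) (mem_Ep.2 (by simp))
  | some c => exact ⟨fun h => h c rfl, fun h _ e => Option.some.inj e ▸ h⟩

theorem mem_TG {t : Option (MM Γ a)} {x : MM Γ a} : x ∈ TG H t ↔ x ∈ H ∧ HasT t x :=
  and_congr_right' hasT_iff.symm

theorem hasT_side {t : Option (MM Γ a)} {g g' z : MM Γ a} (h : g ∈ TG H t) (h' : g' ∈ TG H t) :
    HasT t (g * z * g') ↔ HasT t z := by
  rw [hasT_iff, hasT_iff, Subgroup.mul_mem_cancel_right _ h'.2, Subgroup.mul_mem_cancel_left _ h.2]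

theorem st_comm {ι : Type} [Finite ι] (i j : ι) (v : ι → MM Γ a) :
    St (fun z : ι → Γ.G => Commute (z i) (z j ^ Γ.e)) v ↔ v i ∈ Ep (v j) := by
  obtain ⟨f, rfl⟩ := Bas2A.rep v
  rw [st_coe, mem_Ep, commute_iff_eq, ← Germ.coe_pow, ← Germ.coe_mul, ← Germ.coe_mul]
  exact (Germ.coe_eq (f := f i * f j ^ Γ.e) (g := f j ^ Γ.e * f i)).symm

theorem tr_comm {ι : Type} [Finite ι] (i j : ι) :
    Tr fun z : ι → Γ.G => Commute (z i) (z j ^ Γ.e) := fun a b H θ _ _ h3 v => by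
  rw [st_comm, st_comm, mem_Ep, mem_Ep, ← map_pow]
  exact ⟨fun h => (show Commute (v i) (v j ^ Γ.e) from Subtype.ext h).map θ,
    fun h => (Commute.of_map h3 h).map H.subtype⟩

/-- typing conditions are definable -/
theorem td_ty {W : Set (Fin k → MM Γ a)} (h : TD H W) {ty : Fin k → Option (MM Γ a)}
    (ht : ∀ i, TyOk H (ty i)) : TD H {z | (∀ i, HasT (ty i) (z i)) ∧ z ∈ W} := by
  obtain ⟨m, Q, h, h1, h2, e⟩ := h
  have key : ∀ (b : Amb) (v : Fin (m + k) ⊕ Fin k → MM Γ b),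
      St (fun z => (∀ i, Commute (z (.inr i)) (z (.inl (Fin.natAdd m i)) ^ Γ.e)) ∧
        Q fun s => z (s.map (Fin.castAdd k) id)) v ↔
      (∀ i, St (fun z => Commute (z (.inr i)) (z (.inl (Fin.natAdd m i)) ^ Γ.e)) v) ∧
        St Q fun s => v (s.map (Fin.castAdd k) id) := fun b v =>
    eventually_and.trans (and_congr_left' eventually_all)
  refine ⟨m + k, _, Fin.append h fun i => (ty i).getD 1, fun b b' G θ g1 g2 g3 v => ?_,
    fun i => ?_, fun z => Iff.trans ?_ (key a _).symm⟩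
  · rw [key, key]
    exact and_congr (forall_congr' fun i => tr_comm _ _ b b' G θ g1 g2 g3 v)
      (h1 b b' G θ g1 g2 g3 fun s => v (s.map (Fin.castAdd k) id))
  · refine Fin.addCases (fun i => ?_) (fun i => ?_) i
    · rw [Fin.append_left]
      exact h2 i
    · rw [Fin.append_right]
      cases e : ty i with
      | none => exact H.one_mem
      | some c => exact (ht i c e).1
  · refine and_congr (forall_congr' fun i => ?_) ((e z).trans (iff_of_eq (congrArg (St Q)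
      (funext fun s => ?_))))
    · rw [st_comm, Sum.elim_inr, Sum.elim_inl, Fin.append_right, hasT_iff]
    · cases s <;> simp

theorem nG_sigma {X : Type} {r : Fin k → ℕ} {n : ℕ} (e : ((i : Fin k) × Fin (r i)) ≃ Fin n)
    (ty : Fin n → Option X) : ∑ i, nG (fun j => ty (e ⟨i, j⟩)) = nG ty := by
  simp only [nG, Finset.card_filter]
  rw [← Equiv.sum_comp e, Fintype.sum_sigma]

end FK

end Pool.Agent.P.MP_dba3d2_lc


end

section

/-! Interface, chapter F: the limit of the grafts. -/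

namespace Pool.Agent.P.MP_dba3d2_lc

open Filter

-- deps: ELEM LINE ROOT E_CHI E_SZ
-- imports: Pool.Agent.P.MP_dba3d2_lc.F.TbC
def S_FC_SM : Prop := ∀ (Γ : HG) (a : Amb) (c : MM Γ a), Prim c →
  (∀ f ∈ Ep c, ∀ p, Ls (ds p (f * p)) (md f + ds p (c * p))) ∧
  (∀ X : Subgroup (MM Γ a), GC0 X → c ∈ X → ∀ f ∈ Ep c, Ls (md f) (md c) → f ∈ X) ∧
  (∀ (X : Subgroup (MM Γ a)) (ν : a.K), GC0 X → 0 ≤ ν → ball Γ ν ≤ X → c ∈ X →
    ∀ f ∈ Ep c, Ls (md f) (ν + md c) → f ∈ X) ∧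
  (∀ z z', Ls (ds z (c * z)) (md c) → Ls (ds z' (c * z')) (md c) →
    ∃ k : a.Z, Ls (ds z (ipow c k * z')) (md c) ∧
      ∀ X : Subgroup (MM Γ a), GC0 X → c ∈ X → z ∈ X → z' ∈ X → ipow c k ∈ X) ∧
  ∀ X : Subgroup (MM Γ a), GC0 X → c ∈ X → ∀ f ∈ X, f ∈ Ep c → ∀ f' ∈ Ep c, ∀ n r : ℕ, 0 < n →
    IsOfFinOrder (f⁻¹ * (f' ^ n * c ^ r)) → f' ∈ X

-- deps: ELEM ROOT CVX GRAFT FC_SM
-- imports: Pool.Agent.P.MP_dba3d2_lc.F.TbC
def S_FC_EXPO : Prop := ∀ (Γ : HG) (a : Amb) (H : Subgroup (MM Γ a)) (ν : a.K) (c f : MM Γ a),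
  GC0 H → Big ν → Prim c → c ∈ H ⊔ ball Γ ν → f ∈ H ⊔ ball Γ ν → f ∈ Ep c →
  ∃ f1 ∈ Ep c, ∃ f2 ∈ Ep c, f = f1 * f2 ∧ Ls (md f2) ν ∧
    ∀ X : Subgroup (MM Γ a), GC0 X → H ≤ X → c ∈ X → f1 ∈ X

-- deps: LINE CVX GRAFT FC_SM FC_EXPO
-- imports: Pool.Agent.P.MP_dba3d2_lc.F.TbC
def S_FC_COSET : Prop := ∀ (Γ : HG) (a : Amb) (H : Subgroup (MM Γ a)) (l : ℕ → a.K)
  (c g : MM Γ a) (n : ℕ), GC0 H → Desc l → Prim c → c ∈ capS H l → g ∈ H ⊔ ball Γ (l n) →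
  (∀ m, ∃ e ∈ Ep c, e * g ∈ H ⊔ ball Γ (l m)) →
  ∃ y ∈ Ep c, Ls (md y) (l n + md c) ∧ y * g ∈ capS H l

-- deps: E_GEO
-- imports: Pool.Agent.P.MP_dba3d2_lc.F.TbC
def S_FC_AX : Prop := ∀ (Γ : HG) (a : Amb) (D : a.K) (γ u z : MM Γ a) (X : Subgroup (MM Γ a)),
  Big D → ds u (γ * u) = md γ → Sim (md γ) D → Ls (ds u z) D → γ ∈ X → z ∈ X →
  XArc D X u (γ * u)

-- deps: ELEM LINE PERC ROOT CVX GRAFT FC_COSET
-- imports: Pool.Agent.P.MP_dba3d2_lc.F.TbC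
def S_FC_ARC : Prop := ∀ (Γ : HG) (a : Amb) (H : Subgroup (MM Γ a)) (l : ℕ → a.K) (D : a.K)
  (g x p q : MM Γ a), GC0 H → Desc l → Big D → x ∈ H → Ls (ln x) D → Ls D (ds p q) →
  On D p g (g * x) → On D q g (g * x) →
  (∀ n, Ll (l n) D → g ∈ H ⊔ ball Γ (l n) → (∀ m, XArc D (H ⊔ ball Γ (l m)) p q) →
    ∃ G ∈ capS H l, Ls (ds g G) D ∧ On D p G (G * x) ∧ On D q G (G * x)) ∧
  ∀ X, Cg H l X → g ∈ capS H l → XArc D X p q → g ∈ X

-- deps: CVX GRAFT FC_AX FC_ARC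
-- imports: Pool.Agent.P.MP_dba3d2_lc.F.TbC
def S_FC_NEAR : Prop := ∀ (Γ : HG) (a : Amb) (H : Subgroup (MM Γ a)) (l : ℕ → a.K) (D : a.K)
  (γ u : MM Γ a) (n : ℕ), GC0 H → Desc l → Big D → Ll (l n) D → γ ∈ capS H l →
  ds u (γ * u) = md γ → Sim (md γ) D → (∀ m, ∃ z ∈ H ⊔ ball Γ (l m), Ls (ds u z) D) →
  ∃ G ∈ capS H l, Ls (ds u G) D ∧
    ∀ X, Cg H l X → γ ∈ X → (∃ z ∈ X, Ls (ds u z) D) → G ∈ X

-- deps: LINE CVX GRAFT FC_SM FC_EXPO FC_COSET FC_NEAR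
-- imports: Pool.Agent.P.MP_dba3d2_lc.F.TbC
def S_FC_CEN1 : Prop := ∀ (Γ : HG) (a : Amb) (H : Subgroup (MM Γ a)) (l : ℕ → a.K) (c : MM Γ a),
  GC0 H → Desc l → Prim c → c ∈ capS H l →
  ∃ G ∈ capS H l, Ls (ln G) (ln c) ∧ Ls (ds G (c * G)) (md c) ∧ ∀ X, Cg H l X → c ∈ X → G ∈ X

-- deps: FINM ELEM LINE PERC ROOT CVX GRAFT E_GEO FC_SM FC_NEAR FC_CEN1
-- imports: Pool.Agent.P.MP_dba3d2_lc.F.TbC
def S_FC_CEN : Prop := ∀ (Γ : HG) (a : Amb) (H : Subgroup (MM Γ a)) (l : ℕ → a.K)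
  (c c' : MM Γ a), GC0 H → Desc l → c ∈ capS H l → c' ∈ capS H l → ¬ IsOfFinOrder c →
  ¬ IsOfFinOrder c' → ∃ G ∈ capS H l, Ls (ln G) (ln c + ln c') ∧
    (∀ q : MM Γ a, Ls (ln (G⁻¹ * c * G) + ln (G⁻¹ * c' * G))
      (ln (q⁻¹ * c * q) + ln (q⁻¹ * c' * q))) ∧
    ∀ X, Cg H l X → c ∈ X → c' ∈ X → G ∈ X

-- deps: ELEM LINE CVX GRAFT FC_EXPO
-- imports: Pool.Agent.P.MP_dba3d2_lc.F.TbC Pool.Agent.P.MP_dba3d2_lc.C.C2_rx
def S_FC_EX : Prop := ∀ (Γ : HG) (a : Amb) (H : Subgroup (MM Γ a)) (l : ℕ → a.K) (μ : a.K)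
  (h c : MM Γ a), GC0 H → Desc l → Big μ → h ∈ capS H l → Ls (ln h) μ → c ∈ capS H l → Prim c →
  Ls (ln c) μ → Ll (md c) μ →
  ∃ f ∈ capS H l, f ∈ Ep c ∧ Ll (2 * ds f h - (ln c + ln (h⁻¹ * c * h))) μ

-- deps: ELEM PERC ROOT CVX GRAFT FC_SM FC_CEN FC_EX
-- imports: Pool.Agent.P.MP_dba3d2_lc.F.TbC
def S_FC_INF : Prop := ∀ (Γ : HG) (a : Amb) (H : Subgroup (MM Γ a)) (l : ℕ → a.K)
  (F : Set (Subgroup (MM Γ a))), GC0 H → Desc l → (∀ X ∈ F, Cg H l X) →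
  Cg H l (capS H l ⊓ sInf F)

-- deps: ELEM ROOT TRUNC GRAFT FC_SM FC_EXPO
-- imports: Pool.Agent.P.MP_dba3d2_lc.F.TbC
def S_FC_UP : Prop := ∀ (Γ : HG) (a : Amb) (H : Subgroup (MM Γ a)) (l : ℕ → a.K)
  (X : Subgroup (MM Γ a)) (n : ℕ), GC0 H → Desc l → Cg H l X → Cg H l (H ⊔ (X ⊓ ball Γ (l n)))

-- deps: FINM TRUNC GRAFT
-- imports: Pool.Agent.P.MP_dba3d2_lc.F.TbC
def S_FC_FIN : Prop := ∀ (Γ : HG) (a : Amb) (H : Subgroup (MM Γ a)) (l : ℕ → a.K)
  (X : Subgroup (MM Γ a)), GC H → Desc l → Cg H l X → (∀ n, X = H ⊔ (X ⊓ ball Γ (l n))) → FinC X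

-- deps: FC_INF FC_UP FC_FIN
-- imports: Pool.Agent.P.MP_dba3d2_lc.F.TbC
def S_FC_CAP : Prop := ∀ (Γ : HG) (a : Amb) (H : Subgroup (MM Γ a)) (l : ℕ → a.K)
  (Y : Set (MM Γ a)), GC H → (∀ n, Big (l n)) → (∀ n, Ll (l (n + 1)) (l n)) →
  (∀ n, ∀ y ∈ Y, y ∈ H ⊔ ((H ⊔ Subgroup.closure Y) ⊓ ball Γ (l n))) →
  ∃ X, GC X ∧ Cg H l X ∧ (∀ y ∈ Y, y ∈ X) ∧ ∀ n, X = H ⊔ (X ⊓ ball Γ (l n))

end Pool.Agent.P.MP_dba3d2_lc


end

section

/-! Definitions for the shrinking step of the limit stage. -/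

namespace Pool.Agent.P.MP_dba3d2_lc

open Filter

/-- the product of the conjugates of `ν` (sign `true`) and `ν⁻¹` (sign `false`) listed in `l` -/
def cutEv {M G : Type} [Group M] [Group G] (j : M →* G) (ν : G) (l : List (M × Bool)) : G :=
  (l.map fun s => j s.1 * cond s.2 ν ν⁻¹ * (j s.1)⁻¹).prod

/-- a list of cuts moved by `g` -/
def cutMv {M : Type} [Group M] (g : M) (l : List (M × Bool)) : List (M × Bool) :=
  l.map fun s => (g * s.1, s.2)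

/-- entry and exit points of a list of cuts -/
def cutPts {M : Type} [Group M] (p q : M) (l : List (M × Bool)) : List M :=
  l.flatMap fun s => [s.1 * cond s.2 p q, s.1 * cond s.2 q p]

variable {Γ : HG} {a : Amb}

/-- the points of the list lie in this order on the segment from `x` to `y` at scale `μ` -/
def OrdOn (μ : a.K) : MM Γ a → List (MM Γ a) → MM Γ a → Prop
  | _, [], _ => True
  | x, p :: l, y => On μ p x y ∧ OrdOn μ p l y

/-- one substitution step, evaluated in a group `G` -/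
def Shape.upG (S : Shape Γ a) {G : Type} [Group G] (j : MM Γ a →* G) (n : ℕ)
    (z : Fin (S.k (n + 1)) → G) : Fin (S.k n) → G :=
  fun i => weave (S.r n i) (fun t => j (S.h n i t)) fun t => z (S.e n ⟨i, t⟩)

/-- the composite substitution, evaluated in a group `G` -/
def Shape.topG (S : Shape Γ a) {G : Type} [Group G] (j : MM Γ a →* G) :
    (n : ℕ) → (Fin (S.k n) → G) → Fin (S.k 0) → G
  | 0, z => z
  | n + 1, z => S.topG j n (S.upG j n z)

end Pool.Agent.P.MP_dba3d2_lc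


end

section

/-! Definitions for the finiteness of branching: amalgams, walks, patterns, words. -/

namespace Pool.Agent.P.MP_dba3d2_lc.SW

open Filter

section amal
variable {G T : Type} [Group G] [Group T]

/-- reduced alternating words are not in `U` -/
def Am (U W : Subgroup G) : Prop := ∀ l : List (G × G), l ≠ [] →
  (∀ s ∈ l, s.1 ∈ U ∧ s.2 ∈ W ∧ s.2 ∉ U) → (∀ s ∈ l.tail, s.1 ∉ W) →
  (l.map fun s => s.1 * s.2).prod ∉ U

/-- values of reduced words with `n` letters from `W`; the flag says that the first block is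
not in `W` -/
inductive Rw (U W : Subgroup G) : ℕ → Bool → G → Prop
  | nil (b : Bool) (u : G) : u ∈ U → Rw U W 0 b u
  | cons (n : ℕ) (b : Bool) (u w x : G) : u ∈ U → (b = true → u ∉ W) → w ∈ W → w ∉ U →
      Rw U W n true x → Rw U W (n + 1) b (u * w * x)

/-- tails: what can follow a letter from `W` -/
def Tl (U W : Subgroup G) (x : G) : Prop := ∃ n, Rw U W n true x

/-- `u` is the first block of `x`, and `s` says whether a letter from `W` follows -/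
def En (U W : Subgroup G) (x : G) (s : Bool) (u : G) : Prop :=
  u ∈ U ∧ (s = false → x = u) ∧ (s = true → ∃ w t, w ∈ W ∧ w ∉ U ∧ Tl U W t ∧ x = u * w * t)

/-- a tripod with centre `U` -/
structure UC (U W : Subgroup G) (x : Fin 3 → G) (s : Fin 3 → Bool) (u : Fin 3 → G) : Prop where
  en : ∀ i, En U W (x i) (s i) (u i)
  ne : ∀ i j, i ≠ j → s i = true → s j = true → (u i)⁻¹ * u j ∉ W

/-- a tripod with centre `W` -/
def WC (U W : Subgroup G) (x : Fin 3 → G) : Prop := ∃ w t : Fin 3 → G,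
  (∀ i, w i ∈ W ∧ Tl U W (t i) ∧ x i = w i * t i) ∧ ∀ i j, i ≠ j → (w i)⁻¹ * w j ∉ U

/-- the modified block -/
def ph (j : G →* T) (n : Bool → G → T) (s t : Bool) (u : G) : T :=
  (if s then (n t u)⁻¹ else 1) * j u * (if t then n s u⁻¹ else 1)

/-- `ι` inserts the values of `n` next to the letters from `W` -/
structure IsI (U W : Subgroup G) (j : G →* T) (n ι : Bool → G → T) : Prop where
  nil : ∀ s, ∀ u ∈ U, ι s u = ph j n s false u
  cons : ∀ s, ∀ u ∈ U, ∀ w ∈ W, w ∉ U → ∀ x, Tl U W x →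
    ι s (u * w * x) = ph j n s true u * j w * ι true x

/-- the patterns at the centre of a tripod agree -/
def EqP (P : Bool → G → G → Prop) (s : Fin 3 → Bool) (u : Fin 3 → G) : Prop :=
  ∀ i j k, s i = true → j ≠ i → k ≠ i → ∀ m, P (s j) ((u i)⁻¹ * u j) m → P (s k) ((u i)⁻¹ * u k) m

/-- a triangle that is good for the pattern -/
def Gd (U W : Subgroup G) (P : Bool → G → G → Prop) (x : Fin 3 → G) : Prop :=
  ∃ g, WC U W (fun i => g * x i) ∨ ∃ s u, UC U W (fun i => g * x i) s u ∧ EqP P s u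

/-- group theoretic axioms for a pattern -/
structure Pt0 (U W : Subgroup G) (P : Bool → G → G → Prop) : Prop where
  mem : ∀ s u m, P s u m → m ∈ U ∧ m ∈ W
  left : ∀ s, ∀ u ∈ U, ∀ m, P s u m → ∀ m0 ∈ U, m0 ∈ W → P s (m0 * u) (m0 * m)
  right : ∀ u ∈ U, ∀ m, P true u m → ∀ m0 ∈ U, m0 ∈ W → P true (u * m0) m
  one : ∀ m, ¬ P false 1 m

/-- `n` is the conjugate of `ν⁻¹` selected by the pattern -/
structure IsN (U : Subgroup G) (P : Bool → G → G → Prop) (j : G →* T) (ν : T)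
    (n : Bool → G → T) : Prop where
  yes : ∀ s, ∀ u ∈ U, ∀ m, P s u m → n s u = j m * ν⁻¹ * (j m)⁻¹
  no : ∀ s u, (∀ m, ¬ P s u m) → n s u = 1

/-- the cut at one end of a block -/
def Hf (P : G → Prop) (s : Bool) (φ : G → G × Bool) (c : List (G × Bool)) : Prop :=
  (∃ m, s = true ∧ P m ∧ c = [φ m]) ∨ ((s = true → ∀ m, ¬ P m) ∧ c = [])

/-- the cuts of a block -/
def Bk (P : Bool → G → G → Prop) (s t : Bool) (u : G) (c : List (G × Bool)) : Prop :=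
  ∃ c1 c2, Hf (P t u) s (fun m => (m, true)) c1 ∧ Hf (P s u⁻¹) t (fun m => (u * m, false)) c2 ∧
    c = c1 ++ c2

/-- reduced words with their total weight and their list of cuts -/
inductive CL {K : Type} [Add K] (U W : Subgroup G) (f : G → K)
    (B : Bool → Bool → G → List (G × Bool) → Prop) : Bool → G → K → List (G × Bool) → Prop
  | nil (s : Bool) (u : G) (c : List (G × Bool)) : u ∈ U → B s false u c → CL U W f B s u (f u) c
  | cons (s : Bool) (u w x : G) (t : K) (c C : List (G × Bool)) : u ∈ U → (s = true → u ∉ W) →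
      w ∈ W → w ∉ U → B s true u c → CL U W f B true x t C →
      CL U W f B s (u * w * x) (f u + f w + t) (c ++ cutMv (u * w) C)

end amal

/-- blocks and joints as a list -/
def wl {α β : Type} : (r : ℕ) → (Fin (r + 1) → α) → (Fin r → β) → List (α ⊕ β)
  | 0, h, _ => [Sum.inl (h 0)]
  | r + 1, h, z => Sum.inl (h 0) :: Sum.inr (z 0) :: wl r (Fin.tail h) (Fin.tail z)

variable {Γ : HG} {a : Amb}

/-- the small elements of `X` -/
abbrev WW (X : Subgroup (MM Γ a)) (μ : a.K) : Subgroup (MM Γ a) := X ⊓ tiny Γ μ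

/-- the structure of `X` at the scale `μ` -/
structure Lv (H X : Subgroup (MM Γ a)) (μ : a.K) : Prop where
  big : Big μ
  gH : GC0 H
  le : H ≤ X
  sup : hatH H X ⊔ WW X μ = X
  am : Am (hatH H X) (WW X μ)
  hm : ∀ m ∈ hatH H X, m ∈ WW X μ → m ∈ hatM H (WW X μ)
  nf : AddNF X {g | g ∈ H ∨ g ∈ WW X μ}

/-- the structure of `X` at all scales -/
structure Env (H X : Subgroup (MM Γ a)) (l : ℕ → a.K) : Prop where
  gX : GC X
  lv : ∀ n, Lv H X (l n)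
  dec : ∀ n, Ll (l (n + 1)) (l n)

/-- axioms for a pattern -/
structure Pt (U W : Subgroup (MM Γ a)) (μ : a.K) (p : MM Γ a)
    (P : Bool → MM Γ a → MM Γ a → Prop) : Prop extends Pt0 U W P where
  stab : ∀ s, ∀ u ∈ U, ∀ m m', P s u m → P s u m' → Stab μ 1 p (m⁻¹ * m')

/-- walks from the coset of `x` that only use axes in `A` -/
inductive WkS (H X : Subgroup (MM Γ a)) (A : Set (Subgroup (MM Γ a))) (x : MM Γ a) : MM Γ a → Prop
  | refl : WkS H X A x x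
  | hs (y h : MM Γ a) : WkS H X A x y → h ∈ H → WkS H X A x (y * h)
  | es (y c f : MM Γ a) : WkS H X A x y → c ∈ H → Prim c → f ∈ X → f ∈ Ep c →
      Ep (y * c * y⁻¹) ∈ A → WkS H X A x (y * f)

/-- there is a walk that avoids the axis of `d` -/
def CnS (H X : Subgroup (MM Γ a)) (d x y : MM Γ a) : Prop := WkS H X {e | e ≠ Ep d} x y

/-- the axes at the edge `x` -/
def YA (H X : Subgroup (MM Γ a)) (μ : a.K) (x : MM Γ a) : Set (Subgroup (MM Γ a)) :=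
  {e | ∃ m ∈ hatH H X, m ∈ WW X μ ∧ ∃ c ∈ H, c ∈ WW X μ ∧ Prim c ∧ e = Ep (x * m * c * (x * m)⁻¹)}

/-- the pattern of a block between two small letters -/
def Pat1 (H X : Subgroup (MM Γ a)) (μ : a.K) (u0 : MM Γ a) (s : Bool) (u m : MM Γ a) : Prop :=
  s = true ∧ m ∈ hatH H X ∧ m ∈ WW X μ ∧ u0⁻¹ * (m⁻¹ * u) ∈ WW X μ

/-- the pattern of the first axis after a small letter -/
def Pat2 (H X : Subgroup (MM Γ a)) (μ : a.K) (d0 : MM Γ a) (s : Bool) (u m : MM Γ a) : Prop :=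
  m ∈ hatH H X ∧ m ∈ WW X μ ∧ (s = true → Ep (m * d0 * m⁻¹) ∉ YA H X μ u) ∧
    ¬ CnS H X (m * d0 * m⁻¹) 1 u

/-- typed variables with a value -/
abbrev Vr (Γ : HG) (a : Amb) : Type := Option (MM Γ a) × MM Γ a
/-- letters: constants and variables -/
abbrev Lt (Γ : HG) (a : Amb) : Type := MM Γ a ⊕ Vr Γ a
/-- letters together with an expansion of the variables -/
abbrev NL (Γ : HG) (a : Amb) : Type := MM Γ a ⊕ Vr Γ a × List (Lt Γ a)

/-- the value of a letter -/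
def vL : Lt Γ a → MM Γ a := Sum.elim id Prod.snd
/-- the value of a word -/
def lv (L : List (Lt Γ a)) : MM Γ a := (L.map vL).prod
/-- the total length of the constants -/
def lc (L : List (Lt Γ a)) : a.K := (L.map (Sum.elim ln fun _ => 0)).sum
/-- general variables -/
def isG : Lt Γ a → Bool := Sum.elim (fun _ => false) fun x => x.1.isNone
/-- the number of general variables -/
def cG (L : List (Lt Γ a)) : ℕ := L.countP isG
/-- the number of variables -/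
def cV (L : List (Lt Γ a)) : ℕ := L.countP Sum.isRight
/-- no general variables -/
def NoG (L : List (Lt Γ a)) : Prop := ∀ v, Sum.inr (none, v) ∉ L
/-- no variables -/
def NoV (L : List (Lt Γ a)) : Prop := ∀ x, Sum.inr x ∉ L
/-- forget the value of a variable -/
def sk : Lt Γ a → MM Γ a ⊕ Option (MM Γ a) := Sum.map id Prod.fst
/-- forget the expansion -/
def tp : NL Γ a → Lt Γ a := Sum.map id Prod.fst
/-- the expansion -/
def ex : NL Γ a → List (Lt Γ a) := Sum.elim (fun h => [Sum.inl h]) Prod.snd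
/-- the expanded word -/
def flS (N : List (NL Γ a)) : List (Lt Γ a) := N.flatMap ex
/-- the total length of the constants inside the expansions -/
def nc (N : List (NL Γ a)) : a.K := (N.map (Sum.elim (fun _ => 0) fun x => lc x.2)).sum
/-- the inverse of a letter -/
def iL : Lt Γ a → Lt Γ a := Sum.map (fun h => h⁻¹) fun x => (x.1, x.2⁻¹)
/-- the inverse of a word -/
def li (L : List (Lt Γ a)) : List (Lt Γ a) := (L.map iL).reverse
/-- the inverse of a letter with expansion -/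
def iN : NL Γ a → NL Γ a := Sum.map (fun h => h⁻¹) fun x => ((x.1.1, x.1.2⁻¹), li x.2)
/-- the inverse of a word with expansions -/
def ni (N : List (NL Γ a)) : List (NL Γ a) := (N.map iN).reverse

/-- admissible letters of an expansion -/
def LOk (μ : a.K) (H : Subgroup (MM Γ a)) : Lt Γ a → Prop :=
  Sum.elim (fun h => h ∈ H ∧ Ls (ln h) μ) fun x => TyOk H x.1 ∧ HasT x.1 x.2 ∧ Ll (ln x.2) μ
/-- expansions of a variable of exponent type -/
def TyL (c : MM Γ a) (D : List (Lt Γ a)) : Prop :=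
  cV D ≤ 1 ∧ (∀ h, Sum.inl h ∈ D → h ∈ Ep c) ∧ ∀ x, Sum.inr x ∈ D → x.1 = some c
/-- admissible expansions -/
def WD (μ : a.K) (H : Subgroup (MM Γ a)) : NL Γ a → Prop :=
  Sum.elim (fun h => h ∈ H) fun x => lv x.2 = x.1.2 ∧ (∀ y ∈ x.2, LOk μ H y) ∧
    ∀ c, x.1.1 = some c → TyL c x.2
/-- `r` can replace the variable `x` -/
def Rp (μ : a.K) (H : Subgroup (MM Γ a)) (x : Vr Γ a) (r : List (Lt Γ a)) : Prop :=
  (∀ y ∈ r, LOk μ H y ∧ Ll (ln (vL y)) μ) ∧ ∀ c, x.1 = some c → TyL c r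

/-- additive words -/
def Ad (μ : a.K) (D : List (Lt Γ a)) : Prop :=
  (∀ x, Sum.inr x ∈ D → Ll (ln x.2) μ) ∧ Ll (lc D - ln (lv D)) μ

/-- a chain of expansions of one word -/
structure Cb (H X : Subgroup (MM Γ a)) (l : ℕ → a.K) (N : ℕ → List (NL Γ a)) : Prop where
  base : ∃ y D, N 0 = [Sum.inr ((none, y), D)]
  succ : ∀ n, (N (n + 1)).map tp = flS (N n)
  wd : ∀ n, ∀ s ∈ N n, WD (l n) H s
  mem : ∀ n, ∀ x ∈ flS (N n), vL x ∈ X
  add : ∀ n e D, Sum.inr (e, D) ∈ N n → Ad (l n) D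

/-- lexicographic optimality of the expansions -/
def Opt (H : Subgroup (MM Γ a)) (μ : a.K) (N : List (NL Γ a)) : Prop :=
  ∀ N' : List (NL Γ a), (N'.map fun s => sk (tp s)) = N.map (fun s => sk (tp s)) →
    lv (flS N') = lv (flS N) → (∀ s ∈ N', WD μ H s) → Ll (nc N' - nc N) μ →
    cG (flS N) < cG (flS N') ∨ (cG (flS N) = cG (flS N') ∧ cV (flS N) ≤ cV (flS N'))

/-- an optimal chain of expansions of one word -/
structure Ch0 (H X : Subgroup (MM Γ a)) (l : ℕ → a.K) (N : ℕ → List (NL Γ a)) : Prop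
    extends Cb H X l N where
  opt : ∀ n, Opt H (l n) (N n)

/-- coherent systems of cuts do not meet the variables -/
def Shr (H X : Subgroup (MM Γ a)) (l : ℕ → a.K) {k : ℕ} (N : ℕ → Fin k → List (NL Γ a)) : Prop :=
  ∃ A : Finset (MM Γ a), (∀ w ∈ A, w ∈ X) ∧ ∀ (n : ℕ) (p : MM Γ a)
    (C : MM Γ a → List (MM Γ a × Bool)) (D : NL Γ a → List (MM Γ a × Bool)),
    Sim (ln p) (l n) → (∀ w ∈ H, C w = []) →
    (∀ w ∈ X, C w ≠ [] → Ls (l n) (ln w) ∧ OrdOn (ln w) 1 (cutPts 1 1 (C w)) w) →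
    (∀ i, ∀ s ∈ N n i, isG (tp s) = false → D s = []) →
    (∀ i, ∀ s ∈ N n i, OrdOn (l n) 1 (cutPts 1 p (D s)) (vL (tp s))) →
    (∀ (G : Type) [Group G] (j : MM Γ a →* G) (ν : G), (∀ g, Stab (l n) 1 p g → Commute (j g) ν) →
      (∀ w ∈ A, ∀ w' ∈ A, cutEv j ν (C (w * w')) * j (w * w') =
        cutEv j ν (C w) * j w * (cutEv j ν (C w') * j w')) ∧
      ∀ i, cutEv j ν (C (lv (flS (N n i)))) * j (lv (flS (N n i))) =
        ((N n i).map fun s => cutEv j ν (D s) * j (vL (tp s))).prod) →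
    ∀ i, ∀ s ∈ N n i, D s = []

/-- the word of a top variable over the variables of level `n` -/
def fw (S : Shape Γ a) : (n : ℕ) → Fin (S.k 0) → List (MM Γ a ⊕ Fin (S.k n))
  | 0, i => [Sum.inr i]
  | n + 1, i => (fw S n i).flatMap (Sum.elim (fun h => [Sum.inl h])
      fun t => wl (S.r n t) (S.h n t) fun j => S.e n ⟨t, j⟩)

/-- the chain of words of a shape -/
def NSS (S : Shape Γ a) (ty : (n : ℕ) → Fin (S.k n) → Option (MM Γ a))
    (y : (n : ℕ) → Fin (S.k n) → MM Γ a) (n : ℕ) (i : Fin (S.k 0)) : List (NL Γ a) :=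
  (fw S n i).map (Sum.map id fun t => ((ty n t, y n t), wl (S.r n t) (S.h n t)
    fun j => (ty (n + 1) (S.e n ⟨t, j⟩), y (n + 1) (S.e n ⟨t, j⟩))))

/-- the hypotheses on an optimal descending chain of decompositions -/
structure Sy (H : Subgroup (MM Γ a)) (l : ℕ → a.K) (S : Shape Γ a)
    (ty : (n : ℕ) → Fin (S.k n) → Option (MM Γ a)) {m : ℕ}
    (Q : (Fin m ⊕ Fin (S.k 0) → Γ.G) → Prop) (h : Fin m → MM Γ a)
    (y : (n : ℕ) → Fin (S.k n) → MM Γ a) : Prop where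
  big : ∀ n, Big (l n)
  ty0 : ∀ i, ty 0 i = none
  dec : ∀ n i, TDec (l n) H (ty n i) (y n i) (S.r n i) (S.h n i)
    (fun j => y (n + 1) (S.e n ⟨i, j⟩)) fun j => ty (n + 1) (S.e n ⟨i, j⟩)
  st : St Q (Sum.elim h (y 0))
  min : ∀ n z, (∀ i, HasT (ty n i) (z i)) → St Q (Sum.elim h (S.top n z)) →
    Ll (tl (y n) - tl z) (l n)
  opt : ∀ n z, (∀ i, HasT (ty n i) (z i)) → St Q (Sum.elim h (S.top n z)) →
    Ll (tl z - tl (y n)) (l n) →
    ∀ (r' : Fin (S.k n) → ℕ) (h' : (i : Fin (S.k n)) → Fin (r' i + 1) → MM Γ a)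
      (z' : (i : Fin (S.k n)) → Fin (r' i) → MM Γ a)
      (ty' : (i : Fin (S.k n)) → Fin (r' i) → Option (MM Γ a)),
      (∀ i, TDec (l n) H (ty n i) (z i) (r' i) (h' i) (z' i) (ty' i)) →
      nG (ty (n + 1)) < ∑ i, nG (ty' i) ∨
        (nG (ty (n + 1)) = ∑ i, nG (ty' i) ∧ S.k (n + 1) ≤ ∑ i, r' i)

/-- reduced letters -/
structure Fa (H X : Subgroup (MM Γ a)) (μ : a.K) (L : List (Lt Γ a)) : Prop where
  con : ∀ h, Sum.inl h ∈ L → h ∈ H
  gen : ∀ v, Sum.inr (none, v) ∈ L → v ∈ WW X μ ∧ v ∉ hatH H X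
  exp : ∀ c f, Sum.inr (some c, f) ∈ L →
    c ∈ H ∧ Prim c ∧ Ll (ln c) μ ∧ f ∈ X ∧ f ∈ Ep c ∧ f ∉ H ∧ Ll (ln f) μ

/-- neighbouring exponent variables have different axes -/
def F3 (L : List (Lt Γ a)) : Prop :=
  ∀ A c f β c' f' B, L = A ++ Sum.inr (some c, f) :: β ++ Sum.inr (some c', f') :: B →
    NoV β → ¬ Cj (lv β) c' c
/-- the axis after a general variable is far -/
def F4 (μ : a.K) (L : List (Lt Γ a)) : Prop :=
  ∀ A v β c f B, L = A ++ Sum.inr (none, v) :: β ++ Sum.inr (some c, f) :: B →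
    NoV β → ¬ Ll (ln (lv β * c * (lv β)⁻¹)) μ
/-- the axis before a general variable is far -/
def F4' (μ : a.K) (L : List (Lt Γ a)) : Prop :=
  ∀ A c f β v B, L = A ++ Sum.inr (some c, f) :: β ++ Sum.inr (none, v) :: B →
    NoV β → ¬ Ll (ln ((lv β)⁻¹ * c * lv β)) μ
/-- neighbouring general variables are far apart -/
def F5 (μ : a.K) (L : List (Lt Γ a)) : Prop :=
  ∀ A v P v' B, L = A ++ Sum.inr (none, v) :: P ++ Sum.inr (none, v') :: B →
    NoG P → ¬ Ll (ln (lv P)) μ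

/-- reduced words -/
structure F0 (H X : Subgroup (MM Γ a)) (μ : a.K) (L : List (Lt Γ a)) : Prop
    extends Fa H X μ L where
  f3 : F3 L
  f4 : F4 μ L
  f4' : F4' μ L
  f5 : F5 μ L

/-- every general variable has a general child, every exponent variable has one child -/
structure Kid (N : List (NL Γ a)) : Prop where
  ch : ∀ y D, Sum.inr ((none, y), D) ∈ N → ∃ v, Sum.inr (none, v) ∈ D
  ce : ∀ c y D, Sum.inr ((some c, y), D) ∈ N → ∃ β f β', D = β ++ Sum.inr (some c, f) :: β' ∧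
    NoV β ∧ NoV β' ∧ lv β ∈ Ep c ∧ lv β' ∈ Ep c

/-- general children of different variables are far apart -/
def Far5 (μ : a.K) (N : List (NL Γ a)) : Prop :=
  ∀ N1 e A v P Nm e' P' v' B N2, N = N1 ++ Sum.inr (e, A ++ Sum.inr (none, v) :: P) :: Nm ++
    Sum.inr (e', P' ++ Sum.inr (none, v') :: B) :: N2 → NoG P → NoG (flS Nm) → NoG P' →
    ¬ Ls (ln (lv (P ++ flS Nm ++ P'))) μ

/-- old axes are far from the neighbouring general child -/
def Far4 (μ : a.K) (N : List (NL Γ a)) : Prop :=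
  ∀ N1 e A v P Nm c y β f β' N2, N = N1 ++ Sum.inr (e, A ++ Sum.inr (none, v) :: P) :: Nm ++
    Sum.inr ((some c, y), β ++ Sum.inr (some c, f) :: β') :: N2 → NoV P → NoV (flS Nm) → NoV β →
    ¬ Ls (ln (lv (P ++ flS Nm ++ β) * c * (lv (P ++ flS Nm ++ β))⁻¹)) μ

/-- at most one general child -/
def Sg (N : List (NL Γ a)) : Prop := ∀ e D, Sum.inr (e, D) ∈ N → cG D ≤ 1

/-- no new exponent variable between neighbouring general variables -/
def Adj (N : List (NL Γ a)) : Prop :=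
  ∀ N1 e A v P Nm e' P' v' B N2, N = N1 ++ Sum.inr (e, A ++ Sum.inr (none, v) :: P) :: Nm ++
    Sum.inr (e', P' ++ Sum.inr (none, v') :: B) :: N2 → NoG P → NoV (flS Nm) → NoG P' →
    NoV P ∧ NoV P'

/-- the pattern after a general child is decided inside the expansion -/
def ExtP (Pa : Bool → MM Γ a → MM Γ a → Prop) (N : List (NL Γ a)) : Prop :=
  ∀ N1 e A v P N2 C R, N = N1 ++ Sum.inr (e, A ++ Sum.inr (none, v) :: P) :: N2 → NoG P →
    flS N2 = C ++ R → NoG C → (∀ m, Pa false (lv (P ++ C)) m ↔ Pa false (lv P) m) ∧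
      ∀ v' R', R = Sum.inr (none, v') :: R' → ∀ m, Pa true (lv (P ++ C)) m ↔ Pa false (lv P) m

/-- all properties of a level of an optimal chain -/
structure Ni (H X : Subgroup (MM Γ a)) (μ : a.K) (N : List (NL Γ a)) : Prop where
  f0 : F0 H X μ (flS N)
  far5 : Far5 μ N
  far4 : Far4 μ N
  kid : Kid N
  wd : ∀ s ∈ N, WD μ H s
  add : ∀ e D, Sum.inr (e, D) ∈ N → Ad μ D

/-- `P` is a block of `D`; the flags say whether a general variable precedes or follows -/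
def Blk (D : List (Lt Γ a)) (s : Bool) (P : List (Lt Γ a)) (t : Bool) : Prop :=
  ∃ A B, D = A ++ P ++ B ∧ NoG P ∧ (s = false → A = []) ∧
    (s = true → ∃ A' v, A = A' ++ [Sum.inr (none, v)]) ∧ (t = false → B = []) ∧
    (t = true → ∃ v B', B = Sum.inr (none, v) :: B')

/-- the pattern does not occur in `D` -/
def NoPat (Pa : Bool → MM Γ a → MM Γ a → Prop) (D : List (Lt Γ a)) : Prop :=
  (∀ P t, Blk D true P t → ∀ m, ¬ Pa t (lv P) m) ∧ ∀ s P, Blk D s P true → ∀ m, ¬ Pa s (lv P)⁻¹ m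

/-- the cuts of the blocks of `D` are in the right order -/
def OrdB (μ : a.K) (p : MM Γ a) (Pa : Bool → MM Γ a → MM Γ a → Prop) (D : List (Lt Γ a)) : Prop :=
  ∀ s P t c, Blk D s P t → Bk Pa s t (lv P) c → OrdOn μ 1 (cutPts 1 p c) (lv P)

end Pool.Agent.P.MP_dba3d2_lc.SW


end
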