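import Pool.Agent.P.MP_dba3d2_lcM.Ab05
import Pool.Agent.P.MP_dba3d2_lcM.Bb07
import Pool.Agent.P.MP_dba3d2_lcM.Bb10
import Pool.Agent.P.MP_dba3d2_lcM.Cb18
import Pool.Agent.P.MP_dba3d2_lcM.Eb26
import Pool.Agent.P.MP_dba3d2_lcM.Eb29
import Pool.Agent.P.MP_dba3d2_lcM.Fb30
import Pool.Agent.P.MP_dba3d2_lcM.Cb32
import Pool.Agent.P.MP_dba3d2_lcM.Fb36

section

/-! Step ADJ of the stability project. -/

namespace Pool.Agent.P.MP_dba3d2_lc

open Filter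

theorem p_ADJ (hTORS : S_TORS) (hFINM : S_FINM) (hELEM : S_ELEM) (hLINE : S_LINE) (hROOT : S_ROOT) (hTRUNC : S_TRUNC) (hGRAFT : S_GRAFT) (hPT : S_PT) (hEXP : S_EXP) (hMICL : S_MICL) (hMICE : S_MICE) (hE_CHI : S_E_CHI) (hE_SZ : S_E_SZ) (hE_GE : S_E_GE) :
    S_ADJ := by
  intro Γ a H μ p h hH hμ hh hs hp
  by_cases near : ∃ y ∈ H, Ll (ds p y) μ
  · exact ⟨H, hH, ⟨le_rfl, fun _ _ _ _ _ _ x hx k => ⟨x, hx, k⟩⟩,
      fun g hg _ => ⟨g, hg, Sim.refl' _⟩, near⟩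
  have far : ∀ y ∈ H, Ls μ (ds p y) := fun y hy =>
    (ll_or_ls hμ.pos _).resolve_left fun e => near ⟨y, hy, e⟩
  by_cases tor : ∀ γ ∈ H, Ll (ds p (γ * p)) μ → IsOfFinOrder γ
  · exact FA.adjB hTORS hFINM hELEM hROOT hTRUNC hGRAFT hPT hMICL hH hμ hh hs hp far tor
  push Not at tor
  obtain ⟨γ, h1, h2, h3⟩ := tor
  exact FA.adjA hELEM hLINE hROOT hTRUNC hEXP hMICE hE_CHI hE_SZ hE_GE hH hμ hh hs
    (by simpa using hp.ls_left (by simpa using hs.1)) far h1 h3 h2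

end Pool.Agent.P.MP_dba3d2_lc


end

section

/-! Step WCL of the stability project. -/

namespace Pool.Agent.P.MP_dba3d2_lc

open Filter

theorem p_WCL (hTORS : S_TORS) (hELEM : S_ELEM) (hMICL : S_MICL) :
    S_WCL := by
  intro Γ a H u hH hu gc ext st
  let J : Subgroup (MM Γ a) := H ⊓ H.comap (MulAut.conj u⁻¹).toMonoidHom
  have mem : ∀ x, x ∈ J ↔ x ∈ H ∧ u⁻¹ * x * u ∈ H := fun x => by simp [J, Subgroup.mem_comap]
  have f0 : Finite J := (hTORS Γ a _ fun k hk => (st k ((mem k).1 hk).1 ((mem k).1 hk).2).2).1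
  obtain ⟨z, hz, e1⟩ := hH.finc J inf_le_left f0
  let K : Subgroup Γ.G := J.comap ((MulAut.conj z).toMonoidHom.comp (cst Γ a))
  have hK : ∀ x, x ∈ K ↔ z * cst Γ a x * z⁻¹ ∈ J := fun _ => Iff.rfl
  have fK : Finite K := Frame.fin_comap _ ((MulAut.conj z).injective.comp cst_injective) _ f0
  have key : ∀ x ∈ J, z⁻¹ * x * z ∈ K.map (cst Γ a) := fun x m => by
    obtain ⟨k, e⟩ := e1 x m
    refine ⟨k, (hK k).2 ?_, e⟩
    rw [e]
    simpa [mul_assoc] using m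
  obtain ⟨γ, hγ⟩ := Frame.fix (z⁻¹ * u) K fK fun k hk => by
    have m := (mem _).1 ((hK k).1 hk)
    simpa [mul_assoc] using (st _ m.1 m.2).1
  have hw : cst Γ a γ ∈ H := hH.base ⟨γ, rfl⟩
  refine FA.wc_let hTORS hELEM hMICL hH hu hz hw fK (fun k hk => ?_) (fun g hg e => ?_) gc
    fun G _ θ0 ν hν => ext G θ0 ν fun i x y e => hν i x y (key x ((mem x).2 ⟨x.2, e ▸ y.2⟩)) e
  · have h1 := hγ k hk
    rw [map_mul, map_mul, map_inv] at h1
    generalize z⁻¹ * u = v at h1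
    have h2 : cst Γ a k * v = v * ((cst Γ a γ)⁻¹ * cst Γ a k * cst Γ a γ) := by
      rw [← h1]; group
    rw [Commute, SemiconjBy, ← mul_assoc, h2]
    group
  · have := key (z * g * z⁻¹) ((mem _).2 ⟨mul_mem (mul_mem hz (hH.base hg)) (inv_mem hz), by
      simpa [mul_assoc] using mul_mem (mul_mem (inv_mem hw) (hH.base e)) hw⟩)
    simpa [mul_assoc] using this

end Pool.Agent.P.MP_dba3d2_lc


end

section

/-! Step WCE of the stability project. -/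

namespace Pool.Agent.P.MP_dba3d2_lc

open Filter

theorem p_WCE (hMICE : S_MICE) :
    S_WCE := fun _ _ _ _ k hH hc pc hG ext => FA.wc_exp hMICE hH hc pc k hG ext

end Pool.Agent.P.MP_dba3d2_lc


end

section

/-! Step LIM of the stability project. -/

namespace Pool.Agent.P.MP_dba3d2_lc

open Filter ET

namespace LimA

variable {Γ : HG} {a : Amb} {H : Subgroup (MM Γ a)} {c f g u x y : MM Γ a} {χ : MM Γ a → a.Z}
  {P : a.K → Prop} {j : a.Z} {l : ℕ → a.K}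

/-- the exponent map of a primitive element -/
structure Chi (c : MM Γ a) (χ : MM Γ a → a.Z) : Prop where
  pr : Prim c
  tor : ∀ f ∈ Ep c, IsOfFinOrder (f⁻¹ * ipow c (χ f))
  mul : ∀ f ∈ Ep c, ∀ g ∈ Ep c, χ (f * g) = χ f + χ g
  inv : ∀ f ∈ Ep c, χ f⁻¹ = - χ f
  zero : ∀ f ∈ Ep c, χ f = 0 ↔ IsOfFinOrder f
  pow : ∀ f ∈ Ep c, ∀ n : ℕ, χ (f ^ n) = (n : a.Z) * χ f
  zpow : ∀ f ∈ Ep c, ∀ n : ℤ, χ (f ^ n) = (n : a.Z) * χ f
  ipow : ∀ k, χ (ipow c k) = k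
  one : χ c = 1

/-- classes of small lengths -/
structure Sm (P : a.K → Prop) : Prop where
  add : ∀ {s t}, P s → P t → P (s + t)
  ls : ∀ {s t}, Ls s t → P t → P s

theorem Sm.le (h : Sm P) {s t : a.K} (e : s ≤ t) (k : P t) : P s := h.ls (Ls.of_le e) k

theorem sm_ls (μ : a.K) : Sm fun s : a.K => Ls s μ := ⟨Ls.add, Ls.trans'⟩

theorem sm_all (l : ℕ → a.K) : Sm fun s : a.K => ∀ n, Ls s (l n) :=
  ⟨fun h k n => (h n).add (k n), fun h k n => h.trans' (k n)⟩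

/-- `j` is near an exponent of `H` -/
def Nr (H : Subgroup (MM Γ a)) (c : MM Γ a) (χ : MM Γ a → a.Z) (P : a.K → Prop) (j : a.Z) : Prop :=
  ∃ f ∈ H, f ∈ Ep c ∧ P (|zK j - zK (χ f)| * md c)

theorem Nr.zmul (C : Chi c χ) (S : Sm P) (h : Nr H c χ P j) (s : ℤ) :
    Nr H c χ P ((s : a.Z) * j) := by
  obtain ⟨f, h1, h2, h3⟩ := h
  refine ⟨f ^ s, zpow_mem h1 s, zpow_mem h2 s, S.ls ⟨s.natAbs, le_of_eq ?_⟩ h3⟩
  rw [C.zpow f h2, zK_mul, zK_mul, zK_intCast, ← mul_sub, abs_mul, Nat.cast_natAbs, Int.cast_abs,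
    mul_assoc]

theorem Nr.pure (C : Chi c χ) (S : Sm P) (hH : GC0 H) (hc : c ∈ H) (hm : P (md c)) {N : ℕ}
    (hN : 0 < N) (h : Nr H c χ P ((N : a.Z) * j)) : Nr H c χ P j := by
  obtain ⟨f, h1, h2, h3⟩ := h
  obtain ⟨g, hg, eg, r, t⟩ := hH.pur c hc C.pr f h1 h2 N hN
  have e2 := pow_mem eg N
  have e3 := pow_mem (self_mem_Ep c) r
  have t1 := congrArg zK ((C.zero _ (mul_mem (inv_mem h2) (mul_mem e2 e3))).2 t)
  rw [C.mul _ (inv_mem h2) _ (mul_mem e2 e3), C.mul _ e2 _ e3, C.inv _ h2, C.pow _ eg,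
    C.pow _ (self_mem_Ep c), C.one, mul_one, zK_add, zK_add, zK_neg, zK_mul, zK_natCast,
    zK_natCast, zK_zero] at t1
  rw [zK_mul, zK_natCast] at h3
  refine ⟨g, hg, eg, S.le ?_ (S.add h3 (S.ls ⟨r, le_rfl⟩ hm))⟩
  have u1 : (1 : a.K) ≤ N := by exact_mod_cast hN
  have u2 : (N : a.K) * (zK j - zK (χ g)) = (N * zK j - zK (χ f)) + r := by linear_combination -t1
  have u3 := abs_add_le ((N : a.K) * zK j - zK (χ f)) r
  rw [← u2, abs_mul, Nat.abs_cast, Nat.abs_cast] at u3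
  have u4 := mul_le_mul_of_nonneg_right u1 (abs_nonneg (zK j - zK (χ g)))
  nlinarith [mul_le_mul_of_nonneg_right (u4.trans u3) (md_nonneg c)]

theorem Nr.line (C : Chi c χ) (S : Sm P) (hH : GC0 H) (hc : c ∈ H) (hm : P (md c))
    {k : ℚ →+ a.Z} {q : ℚ} (hq : q ≠ 0) (h : Nr H c χ P (k q)) (q' : ℚ) : Nr H c χ P (k q') := by
  refine Nr.pure C S hH hc hm (q' / q).den_pos ?_
  have e : (((q' / q).den : ℕ) : a.Z) * k q' = ((q' / q).num : a.Z) * k q := by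
    rw [← nsmul_eq_mul, ← zsmul_eq_mul, ← map_nsmul, ← map_zsmul, nsmul_eq_mul, zsmul_eq_mul,
      ← Rat.den_mul_eq_num, mul_assoc, div_mul_cancel₀ _ hq]
  exact e ▸ h.zmul C S _

/-- displacement on the axis -/
theorem Chi.up (C : Chi c χ) (hS : S_E_SZ) (hg : g ∈ Ep c) (cy : Ls (ds y (c * y)) (md c)) :
    Ls (ds y (g * y)) (|zK (χ g)| * md c + md c) := by
  obtain ⟨n, e⟩ := cy
  refine ((hS Γ a c g _ C.pr.1 hg (C.tor g hg)).2 y).2.trans' ⟨n, ?_⟩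
  nlinarith [mul_le_mul_of_nonneg_left e (abs_nonneg (zK (χ g)))]

theorem Chi.low (C : Chi c χ) (hS : S_E_SZ) (hg : g ∈ Ep c) : Ls (|zK (χ g)| * md c) (md g) :=
  (hS Γ a c g _ C.pr.1 hg (C.tor g hg)).1

theorem Chi.sub (C : Chi c χ) (hf : f ∈ Ep c) (j : a.Z) :
    zK (χ (f⁻¹ * MP_dba3d2_lc.ipow c j)) = zK j - zK (χ f) := by
  rw [C.mul _ (inv_mem hf) _ (ipow_mem_Ep c j), C.inv _ hf, C.ipow, zK_add, zK_neg]
  ring

theorem limA (hE : S_ELEM) (hL : S_LINE) (hR : S_ROOT) (hN : S_NORM) (hX : S_EADJ) (hW : S_WCE)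
    (hH : GC H) (hu : PLim H l u) {γ : MM Γ a} (hγ : γ ∈ H) (inf : ¬ IsOfFinOrder γ)
    (fx : ∀ n, Ls (ds u (γ * u)) (l n)) :
    ∃ H' : Subgroup (MM Γ a), GC H' ∧ Wc H H' ∧ Sc H' H ∧ ∃ u' ∈ H', ∀ n, Ls (ds u u') (l n) := by
  have hS := p_E_SZ hE hL
  obtain ⟨c, hc, pc, ec⟩ := (hR Γ a H hH.toGC0).1 γ hγ inf
  obtain ⟨χ, c1, c2, c3, c4, c5, c6, -, c8, c9, -⟩ := p_E_CHI hE Γ a c pc
  have C : Chi c χ := ⟨pc, fun f hf => (c1 f hf _).1 rfl, c2, c3, c4, c5, c6, c8, c9⟩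
  have fc : ∀ n, Ls (ds u (c * u)) (l n) := fun n => (pc.disp' hE hL inf ec u).trans' (fx n)
  have hm : ∀ n, Ls (md c) (l n) := fun n => Ls.mono_left (md_le_ds c u) (fc n)
  obtain ⟨x, hx, -, cx0⟩ := hH.cen1 hc pc.1
  have cx := cx0
  rw [Cen, md_conj, ← ds_conj] at cx
  obtain ⟨k0, hk0⟩ := (hL Γ a c x pc.1 cx).2.1 u
  have d0 : 0 < ds x (c * x) := one_pos.trans_le ((one_le_md' pc.1).trans (md_le_ds c x))
  obtain ⟨M, hM⟩ := sat_K (fun n => (n : a.K)) (fun n => l n / ds x (c * x)) fun m n =>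
    (le_div_iff₀ d0).2 (Ll.ls_left (cx.trans' (hm (n + 1))) (hu.dec n) m)
  obtain ⟨k1, dv, hk1⟩ := exists_divisible (zK k0) M fun n => (hM n).1
  obtain ⟨k, hk⟩ := Etrl.exists_hom k1 dv
  have near : ∀ n, Ls (ds u (ipow c (k 1) * x)) (l n) := fun n => by
    refine Ls.mono_left (ds_tri _ (ipow c k0 * x) _) ((hk0.trans' (fc n)).add (Ls.of_le ?_))
    have u1 := ((hS Γ a c _ (k 1 - k0) pc.1 (ipow_mem_Ep c (k 1 - k0)) (by simp)).2 x).1
    rw [← ds_ipow, zK_sub, hk, Rat.cast_one, one_mul] at u1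
    have u2 := (le_div_iff₀ d0).1 (hM n).2
    have u3 := hk1 1
    rw [Nat.cast_one, one_mul] at u3
    exact u1.trans ((mul_le_mul_of_nonneg_right u3 d0.le).trans u2)
  have N1 : ∀ q, q ≠ 0 → ¬ Nr H c χ (fun s => ∀ n, Ls s (l n)) (k q) := fun q hq h => by
    obtain ⟨f, h1, h2, h3⟩ := h.line C (sm_all l) hH.toGC0 hc hm hq 1
    obtain ⟨n, hn⟩ := hu.new _ (mul_mem h1 hx)
    have t := C.up hS (mul_mem (inv_mem h2) (ipow_mem_Ep c (k 1))) cx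
    rw [C.sub h2, ← ds_mul_left f, mul_assoc, mul_inv_cancel_left, ds_comm] at t
    exact hn (Ls.mono_left (ds_tri _ _ _) ((near n).add (t.trans' ((h3 n).add (hm n)))))
  have N2 : ∀ n q, Nr H c χ (fun s => Ls s (l n)) (k q) := fun n q => by
    refine Nr.line C (sm_ls _) hH.toGC0 hc (hm n) one_ne_zero ?_ q
    obtain ⟨v, hv, nv⟩ := hu.apx n
    obtain ⟨f, h1, h2, h3, -⟩ := (hN Γ a H hH.toGC0).1 _ (mul_mem (mul_mem (inv_mem hx) hc) hx)
      (by simpa using pc.conj x⁻¹) cx0 _ (mul_mem (inv_mem hv) hx)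
    have h4 : x * f * x⁻¹ ∈ Ep c := mem_Ep_conj'.1 h2
    refine ⟨_, mul_mem (mul_mem hx h1) (inv_mem hx), h4, ?_⟩
    have t := C.low hS (mul_mem (inv_mem h4) (ipow_mem_Ep c (k 1)))
    rw [C.sub h4] at t
    have e1 : v⁻¹ * x * (x⁻¹ * c * x) * (v⁻¹ * x)⁻¹ = v⁻¹ * c * v := by group
    rw [e1, ← ds_conj, mul_assoc] at h3
    have h5 : Ls (ds v (x * f)) (l n) := h3.trans' (Ls.mono_left ?_ (nv.two.add (fc n)))
    · refine t.trans' (Ls.mono_left ?_ ((h5.add nv).add (near n)))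
      have u1 := md_le_ds ((x * f * x⁻¹)⁻¹ * ipow c (k 1)) x
      rw [← ds_mul_left (x * f * x⁻¹), mul_assoc _ (ipow c _), mul_inv_cancel_left,
        inv_mul_cancel_right] at u1
      linarith [ds_tri (x * f) v (ipow c (k 1) * x), ds_tri v u (ipow c (k 1) * x),
        ds_comm v (x * f), ds_comm u v]
    · linarith [disp_le c v u, ds_comm u v]
  obtain ⟨g0, fr, ext, nf⟩ := hX Γ a H c k hH.toGC0 hc pc fun q hq h =>
    N1 q hq ⟨_, h, ipow_mem_Ep c _, fun n => by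
      rw [C.ipow, sub_self, abs_zero, zero_mul]; exact Ls.zero (hu.big n).pos.le⟩
  have hG : GC _ := ⟨g0, finC_of_finRed fr le_sup_left le_sup_left hH.finc hH.finc⟩
  refine ⟨_, hG, hW Γ a H c k hH hc pc hG ext, fun g hg hb => ?_, _,
    mul_mem (Subgroup.mem_sup_right (Subgroup.subset_closure ⟨1, rfl⟩)) (Subgroup.mem_sup_left hx),
    near⟩
  obtain ⟨L, l1, l2, l3, -⟩ := nf g hg
  obtain ⟨s, hs, ss⟩ := E_geA.letter hb L l2 (l3 hb)
  by_cases e : s ∈ H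
  · exact ⟨s, e, ss⟩
  obtain ⟨y, hy, f, hf, ef, cy, q, rfl⟩ := (l1 s hs).resolve_left e
  rw [Cen, md_conj, ← ds_conj] at cy
  have hq : q ≠ 0 := fun h0 => e (by
    rw [h0, map_zero, ipow_zero, mul_one]; exact mul_mem (mul_mem (inv_mem hy) hf) hy)
  obtain ⟨n, hn⟩ : ∃ n, ¬ Ls (ln (y⁻¹ * (f * ipow c (k q)) * y)) (l n) := by
    by_contra hn
    push Not at hn
    refine N1 q hq ⟨f⁻¹, inv_mem hf, inv_mem ef, fun n => ?_⟩
    rw [← C.sub (inv_mem ef), inv_inv]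
    exact (C.low hS (mul_mem ef (ipow_mem_Ep c _))).trans' (Ls.mono_left (md_le _ y) (hn n))
  obtain ⟨f', h1, h2, h3⟩ := N2 n q
  refine ⟨y⁻¹ * (f * f') * y, mul_mem (mul_mem (inv_mem hy) (mul_mem hf h1)) hy, ss.trans' ?_⟩
  have t := C.up hS (mul_mem (inv_mem h2) (ipow_mem_Ep c (k q))) cy
  rw [C.sub h2, ← ds_mul_left (f * f'), show f * f' * (f'⁻¹ * ipow c (k q) * y) =
    f * ipow c (k q) * y by group] at t
  rw [← ds_conj] at hn ⊢
  rw [← ds_conj]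
  have p0 : 0 < ds y (f * ipow c (k q) * y) :=
    (hu.big n).pos.trans_le (not_lt.1 fun h => hn (Ls.of_le h.le))
  have t2 := Ll.ls_left (t.trans' (h3.add (hm n))) ((ll_or_ls p0 _).resolve_right hn)
  have t3 := t2 2
  push_cast at t3
  have t4 := ds_tri y (f * f' * y) (f * ipow c (k q) * y)
  have t5 := ds_tri y (f * ipow c (k q) * y) (f * f' * y)
  rw [ds_comm (f * ipow c (k q) * y)] at t5
  exact ⟨⟨2, by push_cast; linarith⟩, ⟨2, by push_cast; linarith⟩⟩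

theorem limB (hT : S_TORS) (hF : S_FINM) (hP : S_PA) (hW : S_WCL) (hH : GC H) (hu : PLim H l u)
    (tor : ∀ γ ∈ H, (∀ n, Ls (ds u (γ * u)) (l n)) → IsOfFinOrder γ) :
    ∃ H' : Subgroup (MM Γ a), GC H' ∧ Wc H H' ∧ Sc H' H ∧ ∃ u' ∈ H', ∀ n, Ls (ds u u') (l n) := by
  let K : Subgroup (MM Γ a) := H.comap (MulAut.conj u).toMonoidHom ⊓ ⨅ n, ball Γ (l n)
  have mem : ∀ z, z ∈ K ↔ u * z * u⁻¹ ∈ H ∧ ∀ n, Ls (ln z) (l n) := fun z => by
    rw [Subgroup.mem_inf, Subgroup.mem_iInf]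
    exact and_congr Iff.rfl (forall_congr' fun n => mem_ball (hu.big n).pos.le)
  have f0 : Finite K := (hT Γ a _ fun z hz => by
    have := tor _ ((mem z).1 hz).1 fun n => by
      rw [inv_mul_cancel_right, ds_mul_right]; exact ((mem z).1 hz).2 n
    simpa [mul_assoc] using (MulAut.conj u⁻¹).toMonoidHom.isOfFinOrder this).1
  obtain ⟨w, e1, z, hz, e2⟩ := hF Γ a K f0
  have near : ∀ n, Ls (ds u (u * w)) (l n) := fun n => by
    rw [ds_mul_right]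
    exact e2.trans' ((((mem z).1 hz).2 n).add (hu.big n).ll_one.ls)
  have hu' : PLim H l (u * w) := ⟨hu.big, hu.dec, fun n => ?_, fun v hv => ?_⟩
  · have cl : ∀ x ∈ H, (∀ n, Ls (ln ((u * w)⁻¹ * x * (u * w))) (l n)) →
        (u * w)⁻¹ * x * (u * w) ∈ std Γ a ∧ IsOfFinOrder x := fun x hx h => by
      have h1 : ∀ n, Ls (ds u (x * u)) (l n) := fun n =>
        Ls.mono_left (disp_le x u (u * w)) ((near n).two.add (by rw [ds_conj]; exact h n))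
      refine ⟨?_, tor x hx h1⟩
      have := e1 (u⁻¹ * x * u) ((mem _).2 ⟨by simpa [mul_assoc] using hx, fun n => ds_conj x u ▸ h1 n⟩)
      simpa [mul_assoc] using this
    obtain ⟨g0, fr, ext, c4, sc⟩ := hP Γ a H l _ hH.toGC0 hu' cl
    have hG : GC _ := ⟨g0, finC_of_finRed fr le_sup_left le_sup_left hH.finc hH.finc⟩
    refine ⟨_, hG, hW Γ a H _ hH (fun e => ?_) hG ext fun x hx e => cl x hx (c4 x hx e), sc, _,
      Subgroup.mem_sup_right (Subgroup.subset_closure ⟨0, rfl⟩), near⟩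
    obtain ⟨n, hn⟩ := hu.new _ e
    exact hn (near n)
  · obtain ⟨v, hv, e⟩ := hu.apx n
    exact ⟨v, hv, Ls.mono_left (ds_tri _ u _) ((ds_comm u _ ▸ near n).add e)⟩
  · obtain ⟨n, hn⟩ := hu.new v hv
    exact ⟨n, fun e => hn (Ls.mono_left (ds_tri _ (u * w) _) ((near n).add e))⟩

end LimA

theorem p_LIM (hTORS : S_TORS) (hFINM : S_FINM) (hELEM : S_ELEM) (hLINE : S_LINE) (hROOT : S_ROOT) (hNORM : S_NORM) (hPA : S_PA) (hEADJ : S_EADJ) (hWCL : S_WCL) (hWCE : S_WCE) :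
    S_LIM := by
  intro Γ a H l u hH hb hd ha
  by_cases near : ∃ v ∈ H, ∀ n, Ls (ds u v) (l n)
  · exact ⟨H, hH, ⟨le_rfl, fun _ _ _ _ _ _ x hx k => ⟨x, hx, k⟩⟩,
      fun g hg _ => ⟨g, hg, Sim.refl' _⟩, near⟩
  push Not at near
  have hu : PLim H l u := ⟨hb, hd, ha, near⟩
  by_cases tor : ∀ γ ∈ H, (∀ n, Ls (ds u (γ * u)) (l n)) → IsOfFinOrder γ
  · exact LimA.limB hTORS hFINM hPA hWCL hH hu tor
  push Not at tor
  obtain ⟨γ, h1, h2, h3⟩ := tor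
  exact LimA.limA hELEM hLINE hROOT hNORM hEADJ hWCE hH hu h1 h3 h2

end Pool.Agent.P.MP_dba3d2_lc


end

section

/-! Step FK_MAX of the stability project. -/

namespace Pool.Agent.P.MP_dba3d2_lc

open Filter

namespace Fk_max

variable {Γ : HG} {a : Amb} {H H' H'' : Subgroup (MM Γ a)}

theorem wc_trans (h : Wc H H') (h' : Wc H' H'') : Wc H H'' := by
  refine ⟨h.1.trans h'.1, fun m k Q hQ p hp x hx s => ?_⟩
  obtain ⟨y, hy, s'⟩ := h'.2 m k Q hQ p (fun i => h.1 (hp i)) x hx s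
  exact h.2 m k Q hQ p hp y hy s'

theorem sc_trans (h : Sc H'' H') (h' : Sc H' H) : Sc H'' H := by
  intro x hx hb
  obtain ⟨y, hy, s⟩ := h x hx hb
  obtain ⟨z, hz, s'⟩ := h' y hy (s.big_iff.1 hb)
  exact ⟨z, hz, s.trans' s'⟩

end Fk_max

open Fk_max in
theorem p_FK_MAX (hUNION : S_UNION) (hADJ : S_ADJ) (hLIM : S_LIM) :
    S_FK_MAX := by
  intro Γ a H hH hc
  have h0 : H ∈ {H' : Subgroup (MM Γ a) | GC H' ∧ Wc H H' ∧ Sc H' H} :=
    ⟨hH, ⟨le_rfl, fun _ _ _ _ _ _ x hx s => ⟨x, hx, s⟩⟩, fun x hx _ => ⟨x, hx, Sim.refl' _⟩⟩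
  obtain ⟨H', -, ⟨g, w, s⟩, hmax⟩ := zorn_le_nonempty₀
    {H' : Subgroup (MM Γ a) | GC H' ∧ Wc H H' ∧ Sc H' H} (fun c hcS hch y hy => by
      haveI : Nonempty c := ⟨⟨y, hy⟩⟩
      have hd : Directed (· ≤ ·) fun i : c => (i : Subgroup (MM Γ a)) := hch.directed
      refine ⟨⨆ i : c, (i : Subgroup (MM Γ a)), ⟨(hUNION Γ a c _ hd).2 fun i => (hcS i.2).1,
        ⟨(hcS hy).2.1.1.trans (le_iSup (fun i : c => (i : Subgroup (MM Γ a))) ⟨y, hy⟩),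
          fun m k Q hQ p hp x hx s => ?_⟩, fun x hx hb => ?_⟩,
        fun z hz => le_iSup (fun i : c => (i : Subgroup (MM Γ a))) ⟨z, hz⟩⟩
      · choose f hf using fun i => (Subgroup.mem_iSup_of_directed hd).1 (hx i)
        obtain ⟨j, hj⟩ := hd.finite_le f
        exact (hcS j.2).2.1.2 m k Q hQ p hp x (fun i => hj i (hf i)) s
      · obtain ⟨j, hj⟩ := (Subgroup.mem_iSup_of_directed hd).1 hx
        exact (hcS j.2).2.2 x hj hb) H h0
  refine ⟨H', ⟨g, fun μ p h h1 h2 h3 h4 => ?_, fun l u h1 h2 h3 => ?_,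
    ln '' (H : Set (MM Γ a)), hc.image _, fun h h1 h2 => ?_⟩, w⟩
  · obtain ⟨H'', g', w', s', p', hp', e⟩ := hADJ Γ a H' μ p h g h1 h2 h3 h4
    exact ⟨p', hmax ⟨g', wc_trans w w', sc_trans s' s⟩ w'.1 hp', e⟩
  · obtain ⟨H'', g', w', s', p', hp', e⟩ := hLIM Γ a H' l u g h1 h2 h3
    exact ⟨p', hmax ⟨g', wc_trans w w', sc_trans s' s⟩ w'.1 hp', e⟩
  · obtain ⟨y, hy, e⟩ := s h h1 h2
    exact ⟨_, ⟨y, hy, rfl⟩, e⟩

end Pool.Agent.P.MP_dba3d2_lc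


end

section

/-! Step FC_SM of the stability project. -/

namespace Pool.Agent.P.MP_dba3d2_lc

open Filter

namespace Fc_sm

variable {Γ : HG} {a : Amb} {c f : MM Γ a} {X : Subgroup (MM Γ a)} {k : a.Z}

/-- elements with a standard exponent -/
theorem std_exp (hR : S_ROOT) (hX : GC0 X) (hc : c ∈ X) (h1 : ¬ IsOfFinOrder c) (hf : f ∈ Ep c)
    (hk : IsOfFinOrder (f⁻¹ * ipow c k)) (hb : ¬ Big |zK k|) : f ∈ X := by
  obtain ⟨n, rfl⟩ := exists_int_of_not_big hb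
  have h := (hR Γ a X hX).2.2.1 c hc h1 _ (mul_mem (inv_mem hf) (ipow_mem_Ep c _)) hk
  rw [ipow_intCast] at h
  exact X.inv_mem_iff.1 ((X.mul_mem_cancel_right (zpow_mem hc n)).1 h)

theorem one (hL : S_LINE) (hS : S_E_SZ) (hc : Prim c) (hf : f ∈ Ep c) (p : MM Γ a) :
    Ls (ds p (f * p)) (md f + ds p (c * p)) := by
  obtain ⟨k, hk⟩ := hc.2 f hf
  obtain ⟨z, h1, h2⟩ := exists_centre hL hc.1 p
  obtain ⟨h3, h4⟩ := hS Γ a c f k hc.1 hf hk
  have h5 := (h4 z).2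
  rw [h1, add_mul, one_mul] at h5
  have a1 := md_nonneg f
  have a2 := ds_nonneg p (c * p)
  have a3 := md_le_ds c p
  exact Ls.mono_left (disp_le f p z) ((h2.mono_right (by linarith)).two.add
    (h5.trans' ((h3.mono_right (by linarith)).add (Ls.of_le (by linarith)))))

theorem two (hR : S_ROOT) (hS : S_E_SZ) (hc : Prim c) (hX : GC0 X) (h : c ∈ X) (hf : f ∈ Ep c)
    (hl : Ls (md f) (md c)) : f ∈ X := by
  obtain ⟨k, hk⟩ := hc.2 f hf
  obtain ⟨n, hn⟩ := (hS Γ a c f k hc.1 hf hk).1.trans' hl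
  exact std_exp hR hX h hc.1 hf hk (Tre.nb_le (not_big_nat n)
    (le_of_mul_le_mul_right hn (one_pos.trans_le (one_le_md' hc.1))))

end Fc_sm

open Fc_sm

theorem p_FC_SM (hELEM : S_ELEM) (hLINE : S_LINE) (hROOT : S_ROOT) (hE_CHI : S_E_CHI) (hE_SZ : S_E_SZ) :
    S_FC_SM := by
  intro Γ a c hc
  refine ⟨fun f hf => one hLINE hE_SZ hc hf, fun X hX h f hf => two hROOT hE_SZ hc hX h hf,
    fun X ν hX h0 hb h f hf hl => ?_, fun z z' hz hz' => ?_,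
    fun X hX h f hf he f' hf' n r hn ht => ?_⟩
  · rcases le_total ν (md c) with e | e
    · exact two hROOT hE_SZ hc hX h hf (hl.trans' ((Ls.of_le e).add (Ls.refl' _)))
    · obtain ⟨p, hp, -, k⟩ := hX.cen1 h hc.1
      rw [Cen, md_conj, ← ds_conj] at k
      exact (X.mul_mem_cancel_right hp).1 (mem_of_near h0 hb hp ((one hLINE hE_SZ hc hf p).trans'
        ((hl.trans' ((Ls.refl' _).add (Ls.of_le e))).add (k.mono_right e))))
  · obtain ⟨k, hk⟩ := (hLINE Γ a c z' hc.1 hz').2.1 z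
    refine ⟨k, hk.trans' hz, fun X hX h h1 h2 => ?_⟩
    have m : ∀ y ∈ X, y⁻¹ * c * y ∈ X := fun y hy => mul_mem (mul_mem (inv_mem hy) h) hy
    have cen : ∀ y, Ls (ds y (c * y)) (md c) → Cen (y⁻¹ * c * y) := fun y hy => by
      rwa [Cen, md_conj, ← ds_conj]
    have := ((hROOT Γ a X hX).2.1 _ (m _ h2) _ (m _ h1) (hc.conj' _) (hc.conj' _) _
      ((Cj.of_mem (inv_mem (ipow_mem_Ep c k))).conj z' z)).2 (cen _ hz') (cen _ hz) (by
        rw [md_conj, ← mul_inv_rev]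
        exact (ds_comm z _ ▸ hk).trans' hz)
    exact X.inv_mem_iff.1 ((X.mul_mem_cancel_left (inv_mem h2)).1
      ((X.mul_mem_cancel_right h1).1 this))
  · obtain ⟨χ, x1, x2, x3, x4, x5, -, -, -, x9, -⟩ := hE_CHI Γ a c hc
    obtain ⟨g, hg, hg', s, hs⟩ := hX.pur c h hc f hf he n hn
    have key : ∀ y ∈ Ep c, ∀ m : ℕ, IsOfFinOrder (f⁻¹ * (y ^ n * c ^ m)) →
        -χ f + ((n : a.Z) * χ y + m) = 0 := fun y hy m e => by
      have c1 := self_mem_Ep c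
      have := (x4 _ (mul_mem (inv_mem he) (mul_mem (pow_mem hy n) (pow_mem c1 m)))).2 e
      rwa [x2 _ (inv_mem he) _ (mul_mem (pow_mem hy n) (pow_mem c1 m)),
        x2 _ (pow_mem hy n) _ (pow_mem c1 m), x3 _ he, x5 _ hy, x5 _ c1, x9, mul_one] at this
    have m1 : g⁻¹ * f' ∈ Ep c := mul_mem (inv_mem hg') hf'
    have e1 : (n : a.Z) * χ (g⁻¹ * f') = (s : a.Z) - r := by
      rw [x2 _ (inv_mem hg') _ hf', x3 _ hg']
      linear_combination key f' hf' r ht - key g hg' s hs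
    have e2 := congrArg (fun k => |zK k|) e1
    simp only [zK_mul, zK_sub, zK_natCast, abs_mul, Nat.abs_cast] at e2
    refine (X.mul_mem_cancel_left (inv_mem hg)).1
      (std_exp hROOT hX h hc.1 m1 ((x1 _ m1 _).1 rfl) (Tre.nb_le (not_big_nat (s + r)) ?_))
    have a1 : (1 : a.K) ≤ n := Nat.one_le_cast.2 hn
    have a2 := abs_sub (s : a.K) r
    rw [Nat.abs_cast, Nat.abs_cast, ← e2] at a2
    push_cast
    exact (le_mul_of_one_le_left (abs_nonneg _) a1).trans a2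

end Pool.Agent.P.MP_dba3d2_lc


end

section

/-! Step FC_AX of the stability project. -/

namespace Pool.Agent.P.MP_dba3d2_lc

open Filter

namespace Fc_ax

variable {Γ : HG} {a : Amb} {D : a.K} {w : MM Γ a}

theorem loc (hD : Big D) (h1 : On D 1 w⁻¹ w) (h2 : Ls D (ln w)) :
    ∀ n, Loc D (List.replicate n w)
  | 0 => trivial
  | 1 => trivial
  | n + 2 => ⟨h1, fun k => (k.not_ls hD.pos h2).elim, loc hD h1 h2 (n + 1)⟩

theorem geo (hE : S_E_GEO) (hD : Big D) (h1 : ln w = md w) (h2 : Ls D (ln w)) (n : ℕ) :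
    Ll (n * ln w - ln (w ^ n)) D := by
  have k := (hE Γ a D hD).1 w
  rw [← h1] at k
  have k1 : On D 1 w⁻¹ w := by
    rw [on_one_iff]
    rcases le_total (ln (w * w) - ln w) 0 with e | e
    · rw [max_eq_right e, sub_zero] at k
      exact ((Ll.mono_left (le_abs_self _) k).not_ls hD.pos h2).elim
    · rw [max_eq_left e] at k
      exact Ll.mono_left (le_trans (by linarith) (le_abs_self _)) k
  simpa [Geo] using (loc hD k1 h2 n).geo hD

end Fc_ax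

theorem p_FC_AX (hE_GEO : S_E_GEO) :
    S_FC_AX := by
  intro Γ a D γ u z X hD h1 h2 h3 hγ hz
  have e1 : ln (u⁻¹ * γ * u) = md γ := (ds_conj γ u).symm.trans h1
  have e2 : ∀ n : ℕ, (u⁻¹ * γ * u) ^ n = u⁻¹ * γ ^ n * u := fun n => by
    simpa using conj_pow (a := u⁻¹) (b := γ) (i := n)
  have lo : ∀ n : ℕ, Ll (n * md γ - ln (u⁻¹ * γ ^ n * u)) D := fun n => by
    simpa only [e1, e2] using
      Fc_ax.geo hE_GEO hD (e1.trans (md_conj γ u).symm) (by rw [e1]; exact h2.2) n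
  have up : ∀ n : ℕ, ln (u⁻¹ * γ ^ n * u) ≤ n * md γ := fun n => by
    simpa only [e1, e2] using ln_pow_le (u⁻¹ * γ * u) n
  obtain ⟨N, hN⟩ := h3.trans' h2.2
  have m0 : 0 ≤ md γ := h1 ▸ ds_nonneg _ _
  have d1 : ds ((γ ^ (N + 1))⁻¹ * u) u = ln (u⁻¹ * γ ^ (N + 1) * u) := congrArg ln (by group)
  have d2 : ds u (γ ^ (N + 1) * u) = ln (u⁻¹ * γ ^ (N + 1) * u) := congrArg ln (by group)
  have d3 : ds ((γ ^ (N + 1))⁻¹ * u) (γ * u) = ln (u⁻¹ * γ ^ (N + 2) * u) := congrArg ln (by group)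
  have d4 : ds (γ * u) (γ ^ (N + 1) * u) = ln (u⁻¹ * γ ^ N * u) := congrArg ln (by group)
  have d5 : ds ((γ ^ (N + 1))⁻¹ * u) (γ ^ (N + 1) * u) = ln (u⁻¹ * γ ^ (2 * N + 2) * u) :=
    congrArg ln (by group)
  have d6 := ds_mul_left (γ ^ (N + 1))⁻¹ u z
  have d7 := ds_mul_left (γ ^ (N + 1)) u z
  have u0 := up N
  have u1 := up (N + 1)
  have u2 := up (N + 2)
  have u3 := up (2 * N + 2)
  have l0 := lo N
  have l1 := lo (N + 1)
  have l2 := lo (N + 2)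
  have l3 := lo (2 * N + 2)
  push_cast at u1 u2 u3 l1 l2 l3
  refine ⟨(γ ^ (N + 1))⁻¹ * z, mul_mem (inv_mem (pow_mem hγ _)) hz, γ ^ (N + 1) * z,
    mul_mem (pow_mem hγ _) hz, Ls.mono_left ?_ (h2.1.nat_mul (4 * N + 2)),
    On.shift hD (x := (γ ^ (N + 1))⁻¹ * u) (y := γ ^ (N + 1) * u) (Ll.mono_left ?_ l3)
      (Ll.mono_left ?_ l1) (Ll.mono_left ?_ l1),
    On.shift hD (x := (γ ^ (N + 1))⁻¹ * u) (y := γ ^ (N + 1) * u) (Ll.mono_left ?_ l3)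
      (Ll.mono_left ?_ l2) (Ll.mono_left ?_ l0)⟩
  · push_cast
    linarith [ds_tri ((γ ^ (N + 1))⁻¹ * z) ((γ ^ (N + 1))⁻¹ * u) (γ ^ (N + 1) * z),
      ds_tri ((γ ^ (N + 1))⁻¹ * u) (γ ^ (N + 1) * u) (γ ^ (N + 1) * z),
      ds_comm ((γ ^ (N + 1))⁻¹ * z) ((γ ^ (N + 1))⁻¹ * u)]
  all_goals linarith

end Pool.Agent.P.MP_dba3d2_lc


end

section

/-! Step FC_EXPO of the stability project. -/

namespace Pool.Agent.P.MP_dba3d2_lc

open Filter

namespace Fc_expo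

variable {Γ : HG} {a : Amb} {H W : Subgroup (MM Γ a)} {c f : MM Γ a}

theorem split (o : TwoOut H W) (hc : Prim c) (c1 : c ∈ H ⊔ W) (f1 : f ∈ H ⊔ W) (f2 : f ∈ Ep c)
    (l : Ll (md c) (md f)) :
    ∃ p x y : MM Γ a, p⁻¹ * f * p = x * y ∧ y ∈ W ∧ y ∈ Ep (p⁻¹ * c * p) ∧
      (x = 1 ∨ (p⁻¹ * c * p ∈ H ∧ x ∈ H ∧ x ∈ Ep (p⁻¹ * c * p))) := by
  have k1 : ∀ p ∈ H ⊔ W, p⁻¹ * f * p ∈ H ⊔ W := fun p hp =>
    mul_mem (mul_mem (inv_mem hp) f1) hp
  have k2 : ∀ p : MM Γ a, p⁻¹ * f * p ∈ Ep (p⁻¹ * c * p) := fun p =>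
    mem_Ep_conj'.2 (by simpa [mul_assoc] using f2)
  by_cases e : ∃ p ∈ H ⊔ W, p⁻¹ * c * p ∈ H ⊓ W
  · obtain ⟨p, hp, e⟩ := e
    obtain ⟨x, hx, y, hy, x1, y1, e1⟩ := o.e1 _ e (hc.conj' p) _ (k1 p hp) (k2 p)
    exact ⟨p, x, y, e1, hy, y1, Or.inr ⟨e.1, hx, x1⟩⟩
  obtain ⟨p, hp, e1 | e1⟩ := o.per c c1 hc f f1 f2 l
  · refine ⟨p, p⁻¹ * f * p, 1, (mul_one _).symm, one_mem _, one_mem _, Or.inr ⟨e1, ?_, k2 p⟩⟩
    refine o.e2 _ e1 (hc.conj' p) (fun g hg n => e ⟨p * g,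
      mul_mem hp (Subgroup.mem_sup_left hg), ?_⟩) _ (k1 p hp) (k2 p)
    have : (p * g)⁻¹ * c * (p * g) = g⁻¹ * (p⁻¹ * c * p) * g := by group
    rw [this]
    exact ⟨H.mul_mem (H.mul_mem (H.inv_mem hg) e1) hg, n⟩
  · refine ⟨p, 1, p⁻¹ * f * p, (one_mul _).symm, ?_, k2 p, Or.inl rfl⟩
    refine o.e3 _ e1 (hc.conj' p) (fun g hg n => e ⟨p * g,
      mul_mem hp (Subgroup.mem_sup_right hg), ?_⟩) _ (k1 p hp) (k2 p)
    have : (p * g)⁻¹ * c * (p * g) = g⁻¹ * (p⁻¹ * c * p) * g := by group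
    rw [this]
    exact ⟨n, W.mul_mem (W.mul_mem (W.inv_mem hg) e1) hg⟩

end Fc_expo

theorem p_FC_EXPO (hELEM : S_ELEM) (hROOT : S_ROOT) (hCVX : S_CVX) (hGRAFT : S_GRAFT) (hFC_SM : S_FC_SM) :
    S_FC_EXPO := by
  intro Γ a H ν c f hH hν hc c1 f1 f2
  by_cases l : Ll (md c) (md f)
  swap
  · have s : Ls (md f) (md c) := (not_forall.1 l).imp fun _ b => (not_le.1 b).le
    refine ⟨f, f2, 1, one_mem _, (mul_one _).symm, ?_, fun X hX _ cX =>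
      (hFC_SM Γ a c hc).2.1 X hX cX f f2 s⟩
    exact Ls.of_le ((md_le_ln _).trans (ln_one.trans_le hν.pos.le))
  obtain ⟨p, x, y, e, y1, y2, hx⟩ :=
    Fc_expo.split (graft_ball hCVX hGRAFT hH hν).1 hc c1 f1 f2 l
  have x2 : x ∈ Ep (p⁻¹ * c * p) := by
    rcases hx with rfl | h
    exacts [one_mem _, h.2.2]
  have e' : f = p * x * p⁻¹ * (p * y * p⁻¹) := by
    have : f = p * (p⁻¹ * f * p) * p⁻¹ := by group
    rw [this, e]
    group
  refine ⟨p * x * p⁻¹, mem_Ep_conj'.1 x2, p * y * p⁻¹, mem_Ep_conj'.1 y2, e', ?_, ?_⟩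
  · rw [md_conj']
    exact Ls.mono_left (md_le_ln y) ((mem_ball hν.pos.le).1 y1)
  intro X hX HX cX
  rcases hx with rfl | ⟨c2, x1, -⟩
  · simp
  obtain ⟨-, -, R3, -, -, R6⟩ := hROOT Γ a X hX
  obtain ⟨h, hh, he⟩ := R6 c cX _ (HX c2) hc.1 (hc.conj' p).1 p (by
    have : p * (p⁻¹ * c * p) * p⁻¹ = c := by group
    rw [Cj, this])
  have g1 : h * x * h⁻¹ ∈ X := mul_mem (mul_mem hh (HX x1)) (inv_mem hh)
  have g2 : h * x * h⁻¹ ∈ Ep c := by
    have : h * x * h⁻¹ = (p * h⁻¹)⁻¹ * (p * x * p⁻¹) * (p * h⁻¹) := by group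
    rw [this]
    exact mul_mem (mul_mem (inv_mem he) (mem_Ep_conj'.1 x2)) he
  have t := (hELEM Γ a c hc.1).2.2.2.2.2.2.2.2.1 _ he _ g2
  have t2 := R3 c cX hc.1 _ (mul_mem (mul_mem (mul_mem he g2) (inv_mem he)) (inv_mem g2)) t
  have : p * x * p⁻¹ =
      p * h⁻¹ * (h * x * h⁻¹) * (p * h⁻¹)⁻¹ * (h * x * h⁻¹)⁻¹ * (h * x * h⁻¹) := by group
  rw [this]
  exact mul_mem t2 g1

end Pool.Agent.P.MP_dba3d2_lc


end

section

/-! Step FC_COSET of the stability project. -/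

namespace Pool.Agent.P.MP_dba3d2_lc

open Filter

theorem p_FC_COSET (hLINE : S_LINE) (hCVX : S_CVX) (hGRAFT : S_GRAFT) (hFC_SM : S_FC_SM) (hFC_EXPO : S_FC_EXPO) :
    S_FC_COSET := by
  intro Γ a H l c g n hH hl hc hcS hg he
  obtain ⟨s1, s2, s3, -⟩ := hFC_SM Γ a c hc
  have gc : ∀ m, GC0 (H ⊔ ball Γ (l m)) := fun m => gc0_sup_ball hCVX hGRAFT hH (hl.big m)
  have hcm : ∀ m, c ∈ H ⊔ ball Γ (l m) := mem_capS.1 hcS
  have step : ∀ m m', m ≤ m' → ∀ y, y ∈ Ep c → y * g ∈ H ⊔ ball Γ (l m) →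
      ∃ f, f ∈ Ep c ∧ Ls (md f) (l m) ∧ f * y * g ∈ H ⊔ ball Γ (l m') := by
    intro m m' hm y hy hyg
    obtain ⟨e, e1, e2⟩ := he m'
    have k : e * y⁻¹ ∈ H ⊔ ball Γ (l m) := by
      have := mul_mem (hl.sup_le H hm e2) (inv_mem hyg)
      rwa [show e * g * (y * g)⁻¹ = e * y⁻¹ by group] at this
    obtain ⟨f1, -, f2, a2, a3, a4, a5⟩ := hFC_EXPO Γ a H (l m) c _ hH (hl.big m) hc (hcm m) k
      (mul_mem e1 (inv_mem hy))
    refine ⟨f2, a2, a4, ?_⟩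
    have := mul_mem (inv_mem (a5 _ (gc m') le_sup_left (hcm m'))) e2
    rwa [show f1⁻¹ * (e * g) = f1⁻¹ * (e * y⁻¹) * y * g by group, a3, inv_mul_cancel_left] at this
  have up : ∀ {x : a.K} {m : ℕ}, Ls x (l m) → Ls x (l m + md c) := fun h =>
    h.mono_right (le_add_of_nonneg_right (md_nonneg c))
  rcases hl.cases (md c) with hA | ⟨m0, hB, -⟩
  · choose! F hF using fun i => step (n + i) (n + (i + 1)) (by omega)
    obtain ⟨Y, Y0, YS⟩ : ∃ Y : ℕ → MM Γ a, Y 0 = 1 ∧ ∀ i, Y (i + 1) = F i (Y i) * Y i :=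
      ⟨fun i => Nat.rec 1 (fun i y => F i y * y) i, rfl, fun _ => rfl⟩
    have hY : ∀ i, Y i ∈ Ep c ∧ Y i * g ∈ H ⊔ ball Γ (l (n + i)) := fun i => by
      induction i with
      | zero => rw [Y0, one_mul]; exact ⟨one_mem _, hg⟩
      | succ i ih =>
        rw [YS]
        exact ⟨mul_mem (hF i _ ih.1 ih.2).1 ih.1, (hF i _ ih.1 ih.2).2.2⟩
    obtain ⟨z, hz⟩ := exists_md_ds c
    have dz : ∀ y ∈ Ep c, ∀ m, Ls (ds (y * z) (c * (y * z))) (l m) := fun y hy m => by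
      have := s1 (y⁻¹ * c * y) (mul_mem (mul_mem (inv_mem hy) (self_mem_Ep c)) hy) z
      rw [disp_conj', md_conj, hz] at this
      exact this.trans' ((hA m).ls.add (hA m).ls)
    have hl' : Desc fun i => l (n + i) := ⟨fun i => hl.big _, fun i => hl.ll (n + i)⟩
    obtain ⟨u, hu⟩ := hl'.cauchy (fun i => Y i * z) fun i => by
      have k := hF i _ (hY i).1 (hY i).2
      show Ls (ds (Y i * z) (Y (i + 1) * z)) (l (n + i))
      rw [YS, mul_assoc]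
      exact (s1 _ k.1 _).trans' (k.2.1.add (dz _ (hY i).1 _))
    obtain ⟨k, hk⟩ := (hLINE Γ a c z hc.1 (Ls.of_le hz.le)).2.1 u
    have b : ∀ i, Ls (md (ipow c k * (Y i)⁻¹)) (l (n + i)) := fun i => by
      have h1 : Ls (ds u (Y i * z)) (l (n + i)) := hu i
      have h2 : Ls (ds u (c * u)) (l (n + i)) :=
        Ls.mono_left (disp_le c u (Y i * z)) (h1.two.add (dz _ (hY i).1 _))
      refine Ls.mono_left (md_le_ds _ (Y i * z)) ?_
      rw [show ipow c k * (Y i)⁻¹ * (Y i * z) = ipow c k * z by group]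
      refine Ls.mono_left (ds_tri _ u _) (Ls.add ?_ (hk.trans' h2))
      rwa [ds_comm]
    refine ⟨ipow c k, ipow_mem_Ep c k, up ?_, hl.mem_capS n fun m hm => ?_⟩
    · have := b 0
      rwa [Y0, inv_one, mul_one] at this
    · obtain ⟨i, rfl⟩ := Nat.exists_eq_add_of_le hm
      have := mul_mem (s3 _ _ (gc (n + i)) (hl.pos _).le le_sup_right (hcm _) _
        (mul_mem (ipow_mem_Ep c k) (inv_mem (hY i).1)) (up (b i))) (hY i).2
      rwa [show ipow c k * (Y i)⁻¹ * (Y i * g) = ipow c k * g by group] at this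
  · obtain ⟨y, y1, y2, y3⟩ := step n (max n m0) (le_max_left _ _) 1 (one_mem _) (by rwa [one_mul])
    rw [mul_one] at y3
    refine ⟨y, y1, up y2, hl.mem_capS (max n m0) fun m hm => ?_⟩
    obtain ⟨f, f1, f2, f3⟩ := step _ m hm y y1 y3
    have := mul_mem (inv_mem (s2 _ (gc m) (hcm m) f f1
      ((f2.trans' (hl.ls (le_max_right _ _))).trans' hB.ls))) f3
    rwa [show f⁻¹ * (f * y * g) = y * g by group] at this

end Pool.Agent.P.MP_dba3d2_lc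


end

section

/-! Step FC_ARC of the stability project. -/

namespace Pool.Agent.P.MP_dba3d2_lc

open Filter

namespace Fc_arc

variable {Γ : HG} {a : Amb} {H : Subgroup (MM Γ a)} {D : a.K} {g x p q : MM Γ a}

theorem per (hELEM : S_ELEM) (hPERC : S_PERC) (hROOT : S_ROOT) (hH : GC0 H) (hD : Big D)
    (hx : x ∈ H) (h1 : Ls (ln x) D) (hn : Ls D (ds p q)) (hp : On D p g (g * x))
    (hq : On D q g (g * x)) (hP : Per D p q) :
    ∃ c, Prim c ∧ Stab D p q c ∧ ∀ X : Subgroup (MM Γ a), GC0 X → H ≤ X → XArc D X p q →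
      c ∈ X ∧ ∃ h ∈ X, g * h⁻¹ ∈ Ep c := by
  have tp := hp.mul g⁻¹
  have tq := hq.mul g⁻¹
  rw [inv_mul_cancel, inv_mul_cancel_left] at tp tq
  obtain ⟨d, hd, d1, d2⟩ := hH.g20' hD H.one_mem hx (by rwa [ds_one_left])
    (by rwa [ds_mul_left]) tp tq ((per_mul_iff g⁻¹).2 hP)
  have s : Stab D p q (g * d * g⁻¹) := by
    have := (stab_conj g).2 d2
    rwa [mul_inv_cancel_left, mul_inv_cancel_left] at this
  refine ⟨g * d * g⁻¹, d1.conj g, s, fun X hX le ⟨u, hu, v, hv, k1, k2, k3⟩ => ?_⟩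
  have m := hX.per_mem hELEM hPERC hROOT hD hu hv k1 hn k2 k3 (d1.conj g) s
  exact ⟨m, (hROOT Γ a X hX).2.2.2.2.2 _ m d (le hd) (d1.conj g).1 d1.1 g (Cj.self g d)⟩

theorem nper (hD : Big D) (hx : x ∈ H) (h1 : Ls (ln x) D) (hn : Ls D (ds p q))
    (hp : On D p g (g * x)) (hq : On D q g (g * x)) (hP : ¬ Per D p q)
    (X : Subgroup (MM Γ a)) (hX : GC0 X) (le : H ≤ X) (k : XArc D X p q) : g ∈ X := by
  obtain ⟨u, hu, v, hv, k1, k2, k3⟩ := k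
  exact hX.g2' hD hu hv X.one_mem (le hx) k1 (by rwa [ds_one_left])
    ⟨hn, k2, k3, by rwa [mul_one], by rwa [mul_one]⟩ hP

end Fc_arc

theorem p_FC_ARC (hELEM : S_ELEM) (hLINE : S_LINE) (hPERC : S_PERC) (hROOT : S_ROOT) (hCVX : S_CVX) (hGRAFT : S_GRAFT) (hFC_COSET : S_FC_COSET) :
    S_FC_ARC := by
  intro Γ a H l D g x p q hH hl hD hx h1 hn hp hq
  have gm : ∀ m, GC0 (H ⊔ ball Γ (l m)) := fun m => gc0_sup_ball hCVX hGRAFT hH (hl.big m)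
  have z : ∀ u : MM Γ a, Ll (ds u u) D := fun u => by rw [ds_self]; exact Ll.zero hD.pos.le
  by_cases hP : Per D p q
  · obtain ⟨c, c1, c2, c3⟩ := Fc_arc.per hELEM hPERC hROOT hH hD hx h1 hn hp hq hP
    refine ⟨fun n hn' hg hA => ?_, fun X hX hg hA => ?_⟩
    · obtain ⟨y, y1, y2, y3⟩ := hFC_COSET Γ a H l c g n hH hl c1
        (mem_capS.2 fun m => (c3 _ (gm m) le_sup_left (hA m)).1) hg fun m => by
          obtain ⟨h, k1, k2⟩ := (c3 _ (gm m) le_sup_left (hA m)).2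
          exact ⟨(g * h⁻¹)⁻¹, (Ep c).inv_mem k2, by simpa using k1⟩
      have my : Ll (md y) D := Ll.ls_left y2 (hn'.add c2.md)
      have fp := fix_of_fix hELEM hLINE c1.1 y1 c2.1 my
      have fq := fix_of_fix hELEM hLINE c1.1 y1 c2.2 my
      refine ⟨y * g, y3, Ls.mono_left (disp_le y g p)
        ((hp.ls_left (by rwa [ds_mul_right])).two.add fp.ls), ?_, ?_⟩
      · rw [mul_assoc]
        exact (hp.mul y).congr (ds_comm p _ ▸ fp) (z _) (z _)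
      · rw [mul_assoc]
        exact (hq.mul y).congr (ds_comm q _ ▸ fq) (z _) (z _)
    · obtain ⟨m, h, k1, k2⟩ := c3 X hX.gc hX.le hA
      have := hX.ex c m c1.1 _ ((capS H l).mul_mem hg ((capS H l).inv_mem (hX.sub k1))) k2
      simpa using X.mul_mem this k1
  · refine ⟨fun n _ _ hA => ⟨g, mem_capS.2 fun m =>
      Fc_arc.nper hD hx h1 hn hp hq hP _ (gm m) le_sup_left (hA m), (z g).ls, hp, hq⟩,
      fun X hX _ hA => Fc_arc.nper hD hx h1 hn hp hq hP X hX.gc hX.le hA⟩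

end Pool.Agent.P.MP_dba3d2_lc


end

section

/-! Step FC_NEAR of the stability project. -/

namespace Pool.Agent.P.MP_dba3d2_lc

open Filter

theorem p_FC_NEAR (hCVX : S_CVX) (hGRAFT : S_GRAFT) (hFC_AX : S_FC_AX) (hFC_ARC : S_FC_ARC) :
    S_FC_NEAR := by
  intro Γ a H l D γ u n hH hl hD hn hγ e s hz
  have h0 := hD.pos.le
  have hu : Ls (ds u (γ * u)) D := e ▸ s.1
  have hu' : Ls D (ds u (γ * u)) := e ▸ s.2
  have ax : ∀ m, XArc D (H ⊔ ball Γ (l m)) u (γ * u) := fun m =>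
    let ⟨z, z1, z2⟩ := hz m
    hFC_AX Γ a D γ u z _ hD e s z2 (capS_le H l m hγ) z1
  obtain ⟨x0, hx0, y0, hy0, b1, b2, b3⟩ := ax n
  obtain ⟨L, L1, L2, L3⟩ := (graft_ball hCVX hGRAFT hH (hl.big n)).2.geo
    (mul_mem (inv_mem hx0) hy0) hD ⟨b1, On.nondeg hD b2 b3 hu'⟩
  have e0 : x0 * L.prod = y0 := by rw [L2, mul_inv_cancel_left]
  obtain ⟨L₁, x, L₂, p, q, rfl, ⟨n1, n2, n3⟩, o1, o2⟩ := (Geo.cut hD
    (fun p q => On D p u (γ * u) ∧ On D q u (γ * u) ∧ Ls D (ds p q)) False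
    (fun _ _ k => k.2.2) (fun p q m k hm =>
      have om := On.conv hD k.1 k.2.1 hm
      (Ls.add_cases (k.2.2.mono_right (ds_tri p m q))).elim (fun x => Or.inl ⟨k.1, om, x⟩)
        fun x => Or.inr (Or.inl ⟨om, k.2.1, x⟩)) L x0 u (γ * u) L3 (e0 ▸ b2) (e0 ▸ b3)
    ⟨on_left h0 _ _, on_right h0 _ _, hu'⟩).resolve_left id
  have hg : x0 * L₁.prod ∈ H ⊔ ball Γ (l n) :=
    mul_mem hx0 (Subgroup.list_prod_mem _ fun y hy =>
      (L1 y (by simp [hy])).1.elim Subgroup.mem_sup_left Subgroup.mem_sup_right)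
  obtain ⟨x1, x2⟩ := L1 x (by simp)
  have hx : x ∈ H := x1.resolve_right fun k =>
    (Ll.ls_left ((mem_ball (hl.pos n).le).1 k) hn).not_ls hD.pos
      (ds_mul_right (x0 * L₁.prod) x ▸ On.nondeg hD o1 o2 n3)
  have sub : ∀ X : Subgroup (MM Γ a), XArc D X u (γ * u) → XArc D X p q :=
    fun X ⟨x, hx, y, hy, k1, k2, k3⟩ =>
      ⟨x, hx, y, hy, k1, On.conv hD k2 k3 n1, On.conv hD k2 k3 n2⟩
  obtain ⟨G, hG, G1, G2, G3⟩ := (hFC_ARC Γ a H l D _ x p q hH hl hD hx x2 n3 o1 o2).1 n hn hg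
    fun m => sub _ (ax m)
  refine ⟨G, hG, Ls.mono_left ?_ (((n1.ls_left hu).add
    (o1.ls_left (by rwa [ds_mul_right]))).add G1), fun X hX hγ' ⟨z, z1, z2⟩ =>
    (hFC_ARC Γ a H l D G x p q hH hl hD hx x2 n3 G2 G3).2 X hX hG
      (sub X (hFC_AX Γ a D γ u z X hD e s z2 hγ' z1))⟩
  linarith [ds_tri u p G, ds_tri p (x0 * L₁.prod) G, ds_comm p (x0 * L₁.prod)]

end Pool.Agent.P.MP_dba3d2_lc


end

section

/-! Step FC_CEN1 of the stability project. -/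

namespace Pool.Agent.P.MP_dba3d2_lc

open Filter

theorem p_FC_CEN1 (hLINE : S_LINE) (hCVX : S_CVX) (hGRAFT : S_GRAFT) (hFC_SM : S_FC_SM) (hFC_EXPO : S_FC_EXPO) (hFC_COSET : S_FC_COSET) (hFC_NEAR : S_FC_NEAR) :
    S_FC_CEN1 := by
  intro Γ a H l c hH hl hc hS
  obtain ⟨s1, -, -, s4, -⟩ := hFC_SM Γ a c hc
  have hm : ∀ m, GC0 (H ⊔ ball Γ (l m)) := fun m => gc0_sup_ball hCVX hGRAFT hH (hl.big m)
  have cm : ∀ m, c ∈ H ⊔ ball Γ (l m) := mem_capS.1 hS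
  have cen : ∀ X : Subgroup (MM Γ a), GC0 X → c ∈ X →
      ∃ z ∈ X, Ls (ln z) (ln c) ∧ Ls (ds z (c * z)) (md c) := fun X h1 h2 => by
    obtain ⟨z, k1, k2, k3⟩ := h1.cen1 h2 hc.1
    exact ⟨z, k1, k2, by rw [ds_conj, ← md_conj c z]; exact k3⟩
  have common : ∀ G ∈ capS H l, Ls (ds G (c * G)) (md c) → ∀ X, Cg H l X → c ∈ X →
      ∃ z ∈ X, Ls (ds G z) (md c) := fun G h1 h2 X h3 h4 => by
    obtain ⟨z, k1, -, k3⟩ := cen X h3.gc h4
    obtain ⟨k, e1, e2⟩ := s4 G z h2 k3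
    refine ⟨_, X.mul_mem (h3.ex c h4 hc.1 _ (mem_capS.2 fun m => ?_) (ipow_mem_Ep c k)) k1, e1⟩
    exact e2 _ (hm m) (cm m) (capS_le H l m h1) (capS_le H l m (h3.sub k1))
  have ml : Ls (md c) (ln c) := Ls.of_le (md_le_ln c)
  rcases hl.cases (md c) with hA | ⟨n, hn, hD⟩
  · suffices h : ∃ G ∈ capS H l, Ls (ln G) (ln c) ∧ Ls (ds G (c * G)) (md c) by
      obtain ⟨G, h1, h2, h3⟩ := h
      refine ⟨G, h1, h2, h3, fun X k1 k2 => ?_⟩
      obtain ⟨z, e1, e2⟩ := common G h1 h3 X k1 k2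
      exact k1.near e1 fun m => e2.trans' (hA m).ls
    rcases hl.cases (ln c) with hB | ⟨n, hn, -⟩
    · obtain ⟨z, -, k2, k3⟩ := cen _ (hm 0) (cm 0)
      exact ⟨z, mem_capS.2 fun m => Subgroup.mem_sup_right
        ((mem_ball (hl.pos m).le).2 (k2.trans' (hB m).ls)), k2, k3⟩
    · obtain ⟨z, k1, k2, k3⟩ := cen _ (hm n) (cm n)
      obtain ⟨y, y1, y2, y3⟩ := hFC_COSET Γ a H l c z n hH hl hc hS k1 fun m => by
        obtain ⟨z', j1, -, j3⟩ := cen _ (hm m) (cm m)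
        obtain ⟨k, e1, -⟩ := s4 z z' k3 j3
        refine ⟨(ipow c k)⁻¹, inv_mem (ipow_mem_Ep c k), mem_sup_near (hl.pos m).le j1 ?_⟩
        rw [← ds_mul_left (ipow c k), mul_inv_cancel_left, ds_comm]
        exact e1.trans' (hA m).ls
      refine ⟨y * z, y3, ?_, ?_⟩
      · have t := ds_tri 1 z (y * z)
        rw [ds_one_left, ds_one_left] at t
        exact Ls.mono_left t (k2.add ((s1 y y1 z).trans'
          ((y2.trans' (hn.ls.add ml)).add (k3.trans' ml))))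
      · rw [← disp_conj']
        refine (s1 _ (mul_mem (mul_mem (inv_mem y1) (self_mem_Ep c)) y1) z).trans' ?_
        rw [md_conj]
        exact (Ls.refl' _).add k3
  · obtain ⟨z, k1, k2, k3⟩ := cen _ (hm n) (cm n)
    obtain ⟨u, u1, u2⟩ := exists_centre hLINE hc.1 z
    have u3 : Ls (ds u z) (md c) := ds_comm z u ▸ u2.trans' k3
    obtain ⟨G, g1, g2, g3⟩ := hFC_NEAR Γ a H l (md c) c u n hH hl hD hn hS u1 (Sim.refl' _)
      fun m => by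
        rcases le_total m n with e | e
        · exact ⟨z, hl.sup_le H e k1, u3⟩
        obtain ⟨z', j1, -, j3⟩ := cen _ (hm m) (cm m)
        obtain ⟨k, e1, e2⟩ := s4 z z' k3 j3
        obtain ⟨f1, -, f2, b2, b3, b4, b5⟩ := hFC_EXPO Γ a H (l n) c (ipow c k) hH (hl.big n) hc
          (cm n) (e2 _ (hm n) (cm n) k1 (hl.sup_le H e j1)) (ipow_mem_Ep c k)
        refine ⟨f1 * z', mul_mem (b5 _ (hm m) le_sup_left (cm m)) j1, ?_⟩
        have e3 : Ls (ds (ipow c k * z') (f1 * z')) (md c) := by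
          rw [b3, mul_assoc, ds_mul_left, ds_comm]
          exact (s1 f2 b2 z').trans' ((b4.trans' hn.ls).add j3)
        exact Ls.mono_left (ds_tri u z _) (u3.add (Ls.mono_left (ds_tri z _ _) (e1.add e3)))
    have g4 : Ls (ds G (c * G)) (md c) := by
      refine Ls.mono_left (disp_le c G u) (Ls.add (Ls.two ?_) (Ls.of_le u1.le))
      rw [ds_comm]
      exact g2
    refine ⟨G, g1, ?_, g4, fun X h1 h2 => g3 X h1 h2 ?_⟩
    · have t1 := ds_tri 1 z G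
      rw [ds_one_left, ds_one_left] at t1
      exact Ls.mono_left t1 (k2.add (Ls.mono_left (ds_tri z u G)
        (((u2.trans' k3).add g2).trans' ml)))
    · obtain ⟨z', e1, e2⟩ := common G g1 g4 X h1 h2
      exact ⟨z', e1, Ls.mono_left (ds_tri u G z') (g2.add e2)⟩

end Pool.Agent.P.MP_dba3d2_lc


end

section

/-! Step FC_CEN of the stability project. -/

namespace Pool.Agent.P.MP_dba3d2_lc

open Filter

theorem p_FC_CEN (hFINM : S_FINM) (hELEM : S_ELEM) (hLINE : S_LINE) (hPERC : S_PERC) (hROOT : S_ROOT) (hCVX : S_CVX) (hGRAFT : S_GRAFT) (hE_GEO : S_E_GEO) (hFC_SM : S_FC_SM) (hFC_NEAR : S_FC_NEAR) (hFC_CEN1 : S_FC_CEN1) :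
    S_FC_CEN := by
  intro Γ a H l c c' hH hl hc hc' ic ic'
  obtain ⟨q0, hq, -⟩ := exists_min_disp c c'
  obtain ⟨D, hD⟩ : ∃ D, D = ds q0 (c * q0) + ds q0 (c' * q0) := ⟨_, rfl⟩
  rw [← hD] at hq
  have D1 : 1 ≤ D := by
    linarith [one_le_md' ic, md_le_ds c q0, ds_nonneg q0 (c' * q0)]
  have D2 : Ls D (ln c + ln c') := Ls.of_le (by simpa only [ds_one_mul] using hq 1)
  have gm := fun n => gc0_sup_ball hCVX hGRAFT hH (hl.big n)
  suffices k : ∃ G ∈ capS H l, Ls (ln G) (ln c + ln c') ∧ Ls (ds G (c * G) + ds G (c' * G)) D ∧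
      ∀ X, Cg H l X → c ∈ X → c' ∈ X → G ∈ X by
    obtain ⟨G, a1, a2, a3, a4⟩ := k
    refine ⟨G, a1, a2, fun q => ?_, a4⟩
    simp only [← ds_conj]
    exact a3.mono_right (hq q)
  by_cases he : Ep c = Ep c'
  · obtain ⟨c0, pr, e0⟩ := (hELEM Γ a c ic).1
    have root : ∀ X : Subgroup (MM Γ a), GC0 X → c ∈ X → c0 ∈ X := fun X hX h =>
      (hROOT Γ a X hX).2.2.2.1 c h ic c0 pr e0
    obtain ⟨G, a1, a2, a3, a4⟩ := hFC_CEN1 Γ a H l c0 hH hl pr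
      (mem_capS.2 fun n => root _ (gm n) (capS_le H l n hc))
    have k : ∀ f, ¬ IsOfFinOrder f → Ep c0 = Ep f → Ls (ds G (f * G)) (ds q0 (f * q0)) :=
      fun f hf e => (((hFC_SM Γ a c0 pr).1 f (e ▸ self_mem_Ep f) G).trans'
        ((Ls.refl' _).add (a3.trans' (pr.md_ls hELEM hLINE hf e)))).mono_right (md_le_ds f q0)
    have b := pr.disp' hELEM hLINE ic e0 1
    rw [ds_one_mul, ds_one_mul] at b
    refine ⟨G, a1, (a2.trans' b).mono_right (le_add_of_nonneg_right (ln_nonneg _)),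
      ((k c ic e0).mono_right ?_).add ((k c' ic' (e0.trans he)).mono_right ?_),
      fun X hX h _ => a4 X hX (root X hX.gc h)⟩
    · linarith [ds_nonneg q0 (c' * q0)]
    · linarith [ds_nonneg q0 (c * q0)]
  have diam : ∀ p p', Ls (ds p (c * p) + ds p (c' * p)) D →
      Ls (ds p' (c * p') + ds p' (c' * p')) D → Ls (ds p p') D := fun p p' h h' =>
    ls_of_scale D1 fun B k => he (Ep_eq_of_stab hELEM hPERC B (Ls.refl' _) ic ic'
      ⟨Ll.mono_left (le_add_of_nonneg_right (ds_nonneg _ _)) (Ll.ls_left h k),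
        Ll.mono_left (le_add_of_nonneg_right (ds_nonneg _ _)) (Ll.ls_left h' k)⟩
      ⟨Ll.mono_left (le_add_of_nonneg_left (ds_nonneg _ _)) (Ll.ls_left h k),
        Ll.mono_left (le_add_of_nonneg_left (ds_nonneg _ _)) (Ll.ls_left h' k)⟩)
  have cen : ∀ X : Subgroup (MM Γ a), GC0 X → c ∈ X → c' ∈ X → ∃ p ∈ X,
      Ls (ln p) (ln c + ln c') ∧ Ls (ds p (c * p) + ds p (c' * p)) D := fun X hX h h' => by
    obtain ⟨p, a1, a2, a3⟩ := hX.cen c h c' h' ic ic'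
    refine ⟨p, a1, a2, ?_⟩
    simpa only [hD, ds_conj] using a3 q0
  choose p p1 p2 p3 using fun n => cen _ (gm n) (capS_le H l n hc) (capS_le H l n hc')
  rcases hl.cases D with k | ⟨n, k, B⟩
  · refine ⟨p 0, mem_capS.2 fun m => mem_sup_near (hl.pos m).le (p1 m)
      ((diam _ _ (p3 m) (p3 0)).trans' (k m).ls), p2 0, p3 0, fun X hX h h' => ?_⟩
    obtain ⟨z, a1, -, a3⟩ := cen X hX.gc h h'
    exact hX.near a1 fun m => (diam _ _ (p3 0) a3).trans' (k m).ls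
  obtain ⟨γ, g1, g2, g3⟩ : ∃ γ : MM Γ a, (∀ X : Subgroup (MM Γ a), c ∈ X → c' ∈ X → γ ∈ X) ∧
      (∀ x, ds x (γ * x) ≤ ds x (c * x) + ds x (c' * x)) ∧ Ls D (md γ) := by
    rcases ll_or_ls B.pos (md c) with e1 | e1
    swap
    · exact ⟨c, fun _ h _ => h, fun x => le_add_of_nonneg_right (ds_nonneg _ _), e1⟩
    rcases ll_or_ls B.pos (md c') with e2 | e2
    swap
    · exact ⟨c', fun _ _ h => h, fun x => le_add_of_nonneg_left (ds_nonneg _ _), e2⟩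
    rcases ll_or_ls B.pos (md (c * c')) with e3 | e3
    swap
    · exact ⟨c * c', fun _ h h' => mul_mem h h', disp_mul c c', e3⟩
    obtain ⟨z, z1, z2⟩ := (hE_GEO Γ a D B).2 c c' e1 e2 e3
    exact (ll_irrefl B.pos (Ll.mono_left (hq z) (z1.add z2))).elim
  obtain ⟨u, u1, u2⟩ := exists_centre hLINE (inf_of_big_md hFINM (B.of_ls g3)) (p 0)
  have u3 : Ls (ds (p 0) u) D := u2.trans' (Ls.mono_left (g2 _) (p3 0))
  have nr : ∀ z, Ls (ds z (c * z) + ds z (c' * z)) D → Ls (ds u z) D := fun z h =>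
    Ls.mono_left (by linarith [ds_tri u (p 0) z, ds_comm u (p 0)]) (u3.add (diam _ _ (p3 0) h))
  obtain ⟨G, a1, a2, a3⟩ := hFC_NEAR Γ a H l D γ u n hH hl B k (g1 _ hc hc') u1
    ⟨Ls.of_le ((md_le_ds γ q0).trans (hD ▸ g2 q0)), g3⟩ fun m => ⟨p m, p1 m, nr _ (p3 m)⟩
  have a4 : Ls (ds (p 0) G) D := Ls.mono_left (ds_tri _ u _) (u3.add a2)
  refine ⟨G, a1, Ls.mono_left ?_ ((p2 0).add (a4.trans' D2)),
    Ls.mono_left ?_ ((a4.two.add a4.two).add (p3 0)), fun X hX h h' => ?_⟩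
  · simpa using ds_tri 1 (p 0) G
  · linarith [disp_le c G (p 0), disp_le c' G (p 0), ds_comm G (p 0)]
  · obtain ⟨z, b1, -, b3⟩ := cen X hX.gc h h'
    exact a3 X hX (g1 X h h') ⟨z, b1, nr z b3⟩

end Pool.Agent.P.MP_dba3d2_lc


end

section

/-! Step FC_EX of the stability project. -/

namespace Pool.Agent.P.MP_dba3d2_lc

open Filter

open C2_rx in
theorem p_FC_EX (hELEM : S_ELEM) (hLINE : S_LINE) (hCVX : S_CVX) (hGRAFT : S_GRAFT) (hFC_EXPO : S_FC_EXPO) :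
    S_FC_EX := by
  intro Γ a H l μ h c hH hl hμ hh h1 hc pc h2 h3
  have g := fun m => gc0_sup_ball hCVX hGRAFT hH (hl.big m)
  have ex := fun m => (g m).ex μ hμ h (mem_capS.1 hh m) h1 c (mem_capS.1 hc m) pc h2 h3
  rcases hl.cases μ with k | ⟨n, k, -⟩
  · obtain ⟨f, -, f2, f3⟩ := ex 0
    refine ⟨f, mem_capS.2 fun m => mem_sup_near (hl.pos m).le (mem_capS.1 hh m)
      (Ls.trans' ?_ (k m).ls), f2, f3⟩
    refine Ls.mono_left ?_ (((f3.ls.add h2).add h2).add (h1.add h1))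
    have a1 := ln_mul_le (h⁻¹ * c) h
    have a2 := ln_mul_le h⁻¹ c
    rw [ln_inv] at a2
    linarith [ds_comm h f, ds_nonneg h f]
  obtain ⟨f, f1, f2, f3⟩ := ex n
  obtain ⟨u, u1, v, v1, rfl, v2, u2⟩ :=
    hFC_EXPO Γ a H (l n) c f hH (hl.big n) pc (mem_capS.1 hc n) f1 f2
  refine ⟨u, mem_capS.2 fun m => u2 _ (g m) le_sup_left (mem_capS.1 hc m), u1, ?_⟩
  obtain ⟨m, m1, -, m2, -⟩ := pj hμ h3 1
  have fx := fix_of_fix hELEM hLINE pc.1 v1 m2 (Ll.ls_left v2 k)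
  have c1 := lemC' hELEM hLINE hμ pc.1 h3 u1 1
  have c2 := lemC' hELEM hLINE hμ pc.1 h3 f2 1
  have c3 := lemC hELEM hLINE hμ pc.1 h3 u1 1
  rw [ds_one_mul] at m1
  rw [ds_one_mul, mul_one] at c1 c2 c3
  have e1 : E μ c u (u * v) := by
    refine Ll.mono_left ?_ ((fx.two.add c1).add c2)
    have a1 := ds_tri 1 m v
    have a2 := ds_tri m (v * m) v
    have a3 : ds (v * m) v = ds 1 m := by rw [ds_comm, ds_mul_right, ds_one_left]
    rw [ds_one_left v] at a1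
    rw [ds_mul_right]
    linarith
  have e2 : E μ c (u * v) h := Ll.mono_left (le_of_eq (by rw [ds_conj c h]; ring)) (f3.add c2)
  exact Ll.mono_left (le_of_eq (by rw [ds_conj c h]; ring)) (Ll.add (e1.trans hμ h3 e2) c3)

end Pool.Agent.P.MP_dba3d2_lc


end
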