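import Pool.Agent.P.MP_dba3d2_lcM.Bb10
import Pool.Agent.P.MP_dba3d2_lcM.Fb30
import Pool.Agent.P.MP_dba3d2_lcM.Fb36

section

/-! Interface, chapter F: finiteness of branching. -/

namespace Pool.Agent.P.MP_dba3d2_lc

open Filter
open SW

-- deps:
def S_S2_NT : Prop := ∀ (G : Type) [Group G] (U W : Subgroup G), Am U W →
  (∀ x y w, Tl U W x → Tl U W y → w ∈ W → w ∉ U → x⁻¹ * w * y ∉ U) ∧
  ∀ u ∈ U, ∀ u' ∈ U, ∀ w ∈ W, ∀ w' ∈ W, w ∉ U → w' ∉ U → ∀ x x', Tl U W x → Tl U W x' →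
    u * w * x = u' * w' * x' → u⁻¹ * u' ∈ W ∧ w⁻¹ * (u⁻¹ * u') * w' ∈ U

-- deps:
def S_S2_RED : Prop := ∀ (G : Type) [Group G] (U W : Subgroup G),
  (∀ x ∈ U ⊔ W, ∃ n, Rw U W n false x) ∧
  (∀ n x, Rw U W n false x → ∀ g ∈ W, ∃ n' ≤ n + 1, Rw U W n' false (g * x)) ∧
  ∀ (K : Type) [Field K] [LinearOrder K] [IsStrictOrderedRing K] (f : G → K)
    (B : Bool → Bool → G → List (G × Bool) → Prop), f 1 = 0 → (∀ x y, f (x * y) ≤ f x + f y) →
    (∀ s t u, ∃ c, B s t u c) → ∀ L : List G, (∀ g ∈ L, g ∈ U ∨ g ∈ W) →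
    ∃ t C, CL U W f B false L.prod t C ∧ t ≤ (L.map f).sum

-- deps: S2_NT S2_RED
def S_S2_IO : Prop := ∀ (G T : Type) [Group G] [Group T] (U W : Subgroup G)
  (P : Bool → G → G → Prop) (j : G →* T) (ν : T), Am U W → Pt0 U W P →
  (∀ s, ∀ u ∈ U, ∀ m m', P s u m → P s u m' → Commute (j (m⁻¹ * m')) ν) →
  ∃ n ι, IsN U P j ν n ∧ IsI U W j n ι

-- deps:
-- imports: Pool.Agent.P.MP_dba3d2_lc.F.TbShr
def S_S2_COC : Prop := ∀ (G T : Type) [Group G] [Group T] (U W : Subgroup G)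
  (P : Bool → G → G → Prop) (j : G →* T) (ν : T) (n ι : Bool → G → T), IsN U P j ν n →
  IsI U W j n ι →
  (∀ x y w, Tl U W x → Tl U W y → w ∈ W → w ∉ U →
    ι false (x⁻¹ * w * y) = (ι true x)⁻¹ * j w * ι true y) ∧
  (∀ x y, Gd U W P ![1, x, x * y] → ι false (x * y) = ι false x * ι false y) ∧
  ∀ (K : Type) [Add K] (f : G → K) s x t C, CL U W f (Bk P) s x t C → cutEv j ν C * j x = ι s x

-- deps: S2_RED
def S_S2_TRI : Prop := ∀ (G : Type) [Group G] (U W : Subgroup G) (x : Fin 3 → G),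
  (∀ i, x i ∈ U ⊔ W) → ∃ g ∈ U ⊔ W, WC U W (fun i => g * x i) ∨
    ∃ s u, UC U W (fun i => g * x i) s u

-- deps: S2_NT S2_RED
def S_S2_PERS : Prop := ∀ (G : Type) [Group G] (U W W' : Subgroup G), Am U W → Am U W' →
  W' ≤ W → U ⊔ W ≤ U ⊔ W' →
  (∀ x u u', En U W x true u → En U W' x true u' → u⁻¹ * u' ∈ W) ∧
  ∀ x s u, UC U W x s u → ∃ u', UC U W' x s u' ∧
    ∀ i, (u i)⁻¹ * u' i ∈ W ∧ (s i = false → u' i = u i)

-- deps: ROOT
def S_S2_WK : Prop := ∀ (Γ : HG) (a : Amb) (H X : Subgroup (MM Γ a)), GC0 H → H ≤ X →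
  (∀ A x y z, WkS H X A x y → WkS H X A y z → WkS H X A x z) ∧
  (∀ A x y, WkS H X A x y → WkS H X A y x) ∧
  (∀ A A' x y, A ⊆ A' → WkS H X A x y → WkS H X A' x y) ∧
  (∀ g d x y, CnS H X (g * d * g⁻¹) (g * x) (g * y) ↔ CnS H X d x y) ∧
  (∀ u ∈ hatH H X, ∀ x, ∃ A : Set (Subgroup (MM Γ a)), A.Finite ∧ WkS H X A x (x * u)) ∧
  (∀ μ, Lv H X μ → ∀ m ∈ hatH H X, m ∈ WW X μ → ∀ x,
    YA H X μ (x * m) = YA H X μ x ∧ WkS H X (YA H X μ x) x (x * m)) ∧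
  ∀ x y, x⁻¹ * y ∈ X → ∀ c ∈ H, ∀ c' ∈ H, Prim c → Prim c' →
    Ep (x * c * x⁻¹) = Ep (y * c' * y⁻¹) → WkS H X {Ep (x * c * x⁻¹)} x y

-- deps: ELEM LINE S2_WK
-- imports: Pool.Agent.P.MP_dba3d2_lc.B.Axis2
def S_S2_UQ : Prop := ∀ (Γ : HG) (a : Amb) (H X : Subgroup (MM Γ a)) (μ : a.K), Lv H X μ →
  (∀ x d, Prim d → Ep d ∈ YA H X μ x → Ll (ds x (d * x)) μ) ∧
  ∀ u ∈ hatH H X, ∀ m ∈ hatH H X, ∀ m' ∈ hatH H X, m ∈ WW X μ → m' ∈ WW X μ →
    ∀ d ∈ H, ∀ d' ∈ H, Prim d → Prim d' → ¬ Ll (ln d) μ → ¬ Ll (ln d') μ →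
    ¬ CnS H X (m * d * m⁻¹) 1 u → ¬ CnS H X (m' * d' * m'⁻¹) 1 u →
    Ep (m * d * m⁻¹) = Ep (m' * d' * m'⁻¹)

-- deps: STAR
-- imports: Pool.Agent.P.MP_dba3d2_lc.F.TbS Pool.Agent.P.MP_dba3d2_lc.B.Axis2
def S_S2_FIRST : Prop := ∀ (Γ : HG) (a : Amb) (H X : Subgroup (MM Γ a)) (μ : a.K)
  (β R : List (Lt Γ a)) (c f : MM Γ a), GC0 H → NoV β → NoG R →
  Fa H X μ (β ++ Sum.inr (some c, f) :: R) → F3 (β ++ Sum.inr (some c, f) :: R) →
  ¬ CnS H X (lv β * c * (lv β)⁻¹) 1 (lv (β ++ Sum.inr (some c, f) :: R))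

-- deps: ELEM LINE S2_WK S2_UQ S2_FIRST
-- imports: Pool.Agent.P.MP_dba3d2_lc.F.TbS Pool.Agent.P.MP_dba3d2_lc.B.Axis2
def S_S2_PC : Prop := ∀ (Γ : HG) (a : Amb) (H X : Subgroup (MM Γ a)) (μ : a.K) (d0 : MM Γ a)
  (D P : List (Lt Γ a)) (t : Bool), Lv H X μ → d0 ∈ H → Prim d0 → ¬ Ll (ln d0) μ →
  F0 H X μ D → Blk D true P t →
  (NoV P → ∀ m, ¬ Pat2 H X μ d0 t (lv P) m) ∧
  ∀ β c f P', P = β ++ Sum.inr (some c, f) :: P' → NoV β → ∀ m, Pat2 H X μ d0 t (lv P) m ↔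
    m ∈ hatH H X ∧ m ∈ WW X μ ∧ Ep (m * d0 * m⁻¹) = Ep (lv β * c * (lv β)⁻¹)

-- deps:
-- imports: Pool.Agent.P.MP_dba3d2_lc.F.TbShr Pool.Agent.P.MP_dba3d2_lc.B.Axis2
def S_S2_PT1 : Prop := ∀ (Γ : HG) (a : Amb) (H X : Subgroup (MM Γ a)) (μ : a.K) (u0 : MM Γ a),
  Big μ → Sim (ln u0) μ → ∃ p, Sim (ln p) μ ∧ Pt (hatH H X) (WW X μ) μ p (Pat1 H X μ u0) ∧
    ∀ s t u c, Bk (Pat1 H X μ u0) s t u c → OrdOn μ 1 (cutPts 1 p c) u

-- deps: ELEM LINE S2_WK S2_UQ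
-- imports: Pool.Agent.P.MP_dba3d2_lc.B.Axis2
def S_S2_PT2 : Prop := ∀ (Γ : HG) (a : Amb) (H X : Subgroup (MM Γ a)) (μ : a.K) (d0 : MM Γ a),
  Lv H X μ → d0 ∈ H → Prim d0 → Sim (ln d0) μ → Ll (md d0) μ →
  ∃ p, Sim (ln p) μ ∧ Pt (hatH H X) (WW X μ) μ p (Pat2 H X μ d0) ∧
    ∀ z, Ll (ds z (d0 * z)) μ → On μ p 1 z

-- deps: ELEM LINE S2_PC
-- imports: Pool.Agent.P.MP_dba3d2_lc.F.TbS Pool.Agent.P.MP_dba3d2_lc.B.Axis2
def S_S2_OB2 : Prop := ∀ (Γ : HG) (a : Amb) (H X : Subgroup (MM Γ a)) (μ : a.K) (d0 p : MM Γ a)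
  (D : List (Lt Γ a)), Lv H X μ → d0 ∈ H → Prim d0 → ¬ Ll (ln d0) μ →
  (∀ z, Ll (ds z (d0 * z)) μ → On μ p 1 z) → F0 H X μ D → Ad μ D → cG D ≤ 1 →
  OrdB μ p (Pat2 H X μ d0) D

-- deps: S2_TRI S2_PERS
-- imports: Pool.Agent.P.MP_dba3d2_lc.B.Axis2
def S_S2_BAD1 : Prop := ∀ (Γ : HG) (a : Amb) (H X : Subgroup (MM Γ a)) (l : ℕ → a.K)
  (x : Fin 3 → MM Γ a), Env H X l → (∀ i, x i ∈ X) → ∀ᶠ n in atTop, ∀ u0, Ls (ln u0) (l n) →
  Gd (hatH H X) (WW X (l n)) (Pat1 H X (l n) u0) x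

-- deps: ELEM LINE PERC S2_TRI S2_PERS S2_WK S2_UQ
-- imports: Pool.Agent.P.MP_dba3d2_lc.B.Axis2
def S_S2_BAD2 : Prop := ∀ (Γ : HG) (a : Amb) (H X : Subgroup (MM Γ a)) (l : ℕ → a.K)
  (x : Fin 3 → MM Γ a), Env H X l → (∀ i, x i ∈ X) → ∀ᶠ n in atTop, ∀ d0 ∈ H, Prim d0 →
  Sim (ln d0) (l n) → Gd (hatH H X) (WW X (l n)) (Pat2 H X (l n) d0) x

-- deps:
-- imports: Pool.Agent.P.MP_dba3d2_lc.F.TbShr
def S_S2_TR0 : Prop := ∀ (Γ : HG) (a : Amb) (S : Shape Γ a) (n : ℕ),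
  (∀ t, ∃ i, Sum.inr t ∈ fw S n i) ∧
  (∀ t i i', Sum.inr t ∈ fw S n i → Sum.inr t ∈ fw S n i' → i = i') ∧
  (∀ i, ((fw S n i).filterMap Sum.getRight?).Nodup) ∧
  ∀ (G : Type) [Group G] (j : MM Γ a →* G) (z : Fin (S.k n) → G) (i : Fin (S.k 0)),
    S.topG j n z i = ((fw S n i).map (Sum.elim j z)).prod

-- deps:
-- imports: Pool.Agent.P.MP_dba3d2_lc.F.TbS
def S_S2_TR1 : Prop := ∀ (Γ : HG) (a : Amb) (H X : Subgroup (MM Γ a)) (l : ℕ → a.K)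
  (S : Shape Γ a) (ty : (n : ℕ) → Fin (S.k n) → Option (MM Γ a)) (m : ℕ)
  (Q : (Fin m ⊕ Fin (S.k 0) → Γ.G) → Prop) (h : Fin m → MM Γ a)
  (y : (n : ℕ) → Fin (S.k n) → MM Γ a), Sy H l S ty Q h y → H ≤ X → (∀ n t, y n t ∈ X) →
  ∀ i, Cb H X l (fun n => NSS S ty y n i) ∧ ∀ n, lv (flS (NSS S ty y n i)) = y 0 i

-- deps: S2_TR0 S2_TR1
-- imports: Pool.Agent.P.MP_dba3d2_lc.F.TbS
def S_S2_TR2 : Prop := ∀ (Γ : HG) (a : Amb) (H : Subgroup (MM Γ a)) (l : ℕ → a.K)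
  (S : Shape Γ a) (ty : (n : ℕ) → Fin (S.k n) → Option (MM Γ a)) (m : ℕ)
  (Q : (Fin m ⊕ Fin (S.k 0) → Γ.G) → Prop) (h : Fin m → MM Γ a)
  (y : (n : ℕ) → Fin (S.k n) → MM Γ a), Sy H l S ty Q h y →
  ∀ n i, Opt H (l n) (NSS S ty y n i)

-- deps: FS_SHR S2_TR0 S2_TR1
-- imports: Pool.Agent.P.MP_dba3d2_lc.F.TbS
def S_S2_TR3 : Prop := ∀ (Γ : HG) (a : Amb) (H X : Subgroup (MM Γ a)) (l : ℕ → a.K)
  (S : Shape Γ a) (ty : (n : ℕ) → Fin (S.k n) → Option (MM Γ a)) (m : ℕ)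
  (Q : (Fin m ⊕ Fin (S.k 0) → Γ.G) → Prop) (h : Fin m → MM Γ a)
  (y : (n : ℕ) → Fin (S.k n) → MM Γ a), Sy H l S ty Q h y → GC0 H → GC X → H ≤ X → Tr Q →
  (∀ i, h i ∈ H) → (∀ n t, y n t ∈ X) → Shr H X l (NSS S ty y)

-- deps:
-- imports: Pool.Agent.P.MP_dba3d2_lc.F.TbS
def S_S2_INV : Prop := ∀ (Γ : HG) (a : Amb) (H X : Subgroup (MM Γ a)) (l : ℕ → a.K)
  (N : ℕ → List (NL Γ a)), Ch0 H X l N → Ch0 H X l fun n => ni (N n)

-- deps:
-- imports: Pool.Agent.P.MP_dba3d2_lc.F.TbS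
def S_S2_REPL : Prop := ∀ (Γ : HG) (a : Amb) (H : Subgroup (MM Γ a)) (μ : a.K)
  (N : List (NL Γ a)) (A B r : List (Lt Γ a)) (x : Vr Γ a), 0 ≤ μ → (∀ s ∈ N, WD μ H s) →
  flS N = A ++ Sum.inr x :: B → Rp μ H x r →
  ∃ N' : List (NL Γ a), (N'.map fun s => sk (tp s)) = N.map (fun s => sk (tp s)) ∧
    (∀ s ∈ N', WD μ H s) ∧ Ll (nc N' - nc N) μ ∧ flS N' = A ++ r ++ B

-- deps: S2_REPL
-- imports: Pool.Agent.P.MP_dba3d2_lc.F.TbS
def S_S2_OPT : Prop := ∀ (Γ : HG) (a : Amb) (H : Subgroup (MM Γ a)) (μ : a.K)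
  (N : List (NL Γ a)), 0 ≤ μ → (∀ s ∈ N, WD μ H s) → Opt H μ N →
  (∀ (A B r : List (Lt Γ a)) x, flS N = A ++ Sum.inr x :: B → Rp μ H x r → lv r = x.2 →
    cG [Sum.inr x] < cG r ∨ (cG [Sum.inr x] = cG r ∧ 1 ≤ cV r)) ∧
  (∀ (A β B : List (Lt Γ a)) x x' v, flS N = A ++ Sum.inr x :: β ++ Sum.inr x' :: B →
    HasT x.1 v → Ll (ln v) μ → v * lv β ≠ x.2 * lv β * x'.2) ∧
  ∀ (N1 N2 : List (NL Γ a)) (y : MM Γ a) (A D B : List (Lt Γ a)),
    N = N1 ++ Sum.inr ((none, y), A ++ D ++ B) :: N2 → Ll (ln (lv D)) μ → cG D ≤ 1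

-- deps: ELEM LINE ROOT S2_OPT
-- imports: Pool.Agent.P.MP_dba3d2_lc.F.TbS Pool.Agent.P.MP_dba3d2_lc.B.Axis2
def S_S2_F12 : Prop := ∀ (Γ : HG) (a : Amb) (H X : Subgroup (MM Γ a)) (μ : a.K)
  (N : List (NL Γ a)), Lv H X μ → (∀ s ∈ N, WD μ H s) → (∀ x ∈ flS N, vL x ∈ X) → Opt H μ N →
  Fa H X μ (flS N)

-- deps: ELEM LINE S2_OPT
-- imports: Pool.Agent.P.MP_dba3d2_lc.F.TbS Pool.Agent.P.MP_dba3d2_lc.B.Axis2
def S_S2_F34 : Prop := ∀ (Γ : HG) (a : Amb) (H X : Subgroup (MM Γ a)) (μ : a.K)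
  (N : List (NL Γ a)), 0 ≤ μ → (∀ s ∈ N, WD μ H s) → Opt H μ N → Fa H X μ (flS N) →
  F3 (flS N) ∧ F4 μ (flS N)

-- deps:
-- imports: Pool.Agent.P.MP_dba3d2_lc.F.TbS
def S_S2_KID : Prop := ∀ (Γ : HG) (a : Amb) (H X : Subgroup (MM Γ a)) (μ ν : a.K)
  (N : List (NL Γ a)), H ≤ X → (∀ s ∈ N, WD ν H s) → Fa H X ν (flS N) → Fa H X μ (N.map tp) → Kid N

-- deps:
-- imports: Pool.Agent.P.MP_dba3d2_lc.F.TbS Pool.Agent.P.MP_dba3d2_lc.B.Axis2
def S_S2_FAR5 : Prop := ∀ (Γ : HG) (a : Amb) (H : Subgroup (MM Γ a)) (μ ν : a.K)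
  (N : List (NL Γ a)), Big ν → Ll ν μ → (∀ s ∈ N, WD ν H s) → Kid N → F5 μ (N.map tp) → Far5 ν N

-- deps: S2_OPT
-- imports: Pool.Agent.P.MP_dba3d2_lc.F.TbS Pool.Agent.P.MP_dba3d2_lc.B.Axis2
def S_S2_F5 : Prop := ∀ (Γ : HG) (a : Amb) (H : Subgroup (MM Γ a)) (μ : a.K)
  (N : List (NL Γ a)), 0 ≤ μ → (∀ s ∈ N, WD μ H s) → Opt H μ N → Far5 μ N → F5 μ (flS N)

-- deps: ELEM LINE
-- imports: Pool.Agent.P.MP_dba3d2_lc.F.TbS Pool.Agent.P.MP_dba3d2_lc.B.Axis2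
def S_S2_FAR4 : Prop := ∀ (Γ : HG) (a : Amb) (H : Subgroup (MM Γ a)) (μ ν : a.K)
  (N : List (NL Γ a)), Big ν → Ll ν μ → (∀ s ∈ N, WD ν H s) → Kid N → F4 μ (N.map tp) → Far4 ν N

-- deps: S2_INV S2_F12 S2_F34 S2_KID S2_FAR5 S2_F5 S2_FAR4
-- imports: Pool.Agent.P.MP_dba3d2_lc.F.TbS
def S_S2_F0 : Prop := ∀ (Γ : HG) (a : Amb) (H X : Subgroup (MM Γ a)) (l : ℕ → a.K)
  (N : ℕ → List (NL Γ a)), Env H X l → Ch0 H X l N → ∀ n, Ni H X (l (n + 1)) (N (n + 1))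

-- deps: TRUNC GRAFT GT
-- imports: Pool.Agent.P.MP_dba3d2_lc.B.Axis2
def S_S2_LV : Prop := ∀ (Γ : HG) (a : Amb) (H X : Subgroup (MM Γ a)) (μ : a.K), Big μ → GC0 H →
  GC0 X → X = H ⊔ WW X μ → Lv H X μ

-- deps: CAP S2_LV
-- imports: Pool.Agent.P.MP_dba3d2_lc.B.Axis2
def S_S2_ENV : Prop := ∀ (Γ : HG) (a : Amb) (H : Subgroup (MM Γ a)) (l : ℕ → a.K) (S : Shape Γ a)
  (y : (n : ℕ) → Fin (S.k n) → MM Γ a), GC H → (∀ n, Big (l n)) → (∀ n, Ll (l (n + 1)) (l n)) →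
  (∀ n i, Ls (ln (y n i)) (l n)) → (∀ n i j, S.h n i j ∈ H) → (∀ n, y n = S.up n (y (n + 1))) →
  ∃ X, Env H X l ∧ ∀ n t, y n t ∈ X

-- deps: S2_COC
-- imports: Pool.Agent.P.MP_dba3d2_lc.F.TbS
def S_S2_MULT : Prop := ∀ (Γ : HG) (a : Amb) (H X : Subgroup (MM Γ a)) (μ : a.K) (T : Type)
  [Group T] (P : Bool → MM Γ a → MM Γ a → Prop) (j : MM Γ a →* T) (ν : T)
  (n ι : Bool → MM Γ a → T) (N : List (NL Γ a)), 0 ≤ μ → H ≤ X → IsN (hatH H X) P j ν n →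
  IsI (hatH H X) (WW X μ) j n ι → F0 H X μ (flS N) → ExtP P N → ExtP P (ni N) →
  ι false (lv (flS N)) = (N.map fun s => ι false (lv (ex s))).prod

-- deps:
-- imports: Pool.Agent.P.MP_dba3d2_lc.F.TbS
def S_S2_EXT1 : Prop := ∀ (Γ : HG) (a : Amb) (H X : Subgroup (MM Γ a)) (μ : a.K) (u0 : MM Γ a)
  (N : List (NL Γ a)), 0 ≤ μ → Ls (ln u0) μ → Far5 μ N → ExtP (Pat1 H X μ u0) N

-- deps: ELEM LINE S2_PC
-- imports: Pool.Agent.P.MP_dba3d2_lc.F.TbS Pool.Agent.P.MP_dba3d2_lc.B.Axis2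
def S_S2_EXT2 : Prop := ∀ (Γ : HG) (a : Amb) (H X : Subgroup (MM Γ a)) (μ : a.K) (d0 : MM Γ a)
  (N : List (NL Γ a)), Lv H X μ → d0 ∈ H → Prim d0 → Sim (ln d0) μ → Ni H X μ N → Adj N →
  ExtP (Pat2 H X μ d0) N

-- deps:
-- imports: Pool.Agent.P.MP_dba3d2_lc.F.TbS
def S_S2_ADJ : Prop := ∀ (Γ : HG) (a : Amb) (N : ℕ → List (NL Γ a)),
  (∀ n, (N (n + 1)).map tp = flS (N n)) →
  (∀ᶠ n in atTop, Sg (N n) ∧ Kid (N n)) → ∀ᶠ n in atTop, Adj (N n)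

-- deps:
-- imports: Pool.Agent.P.MP_dba3d2_lc.F.TbShr Pool.Agent.P.MP_dba3d2_lc.B.Axis2
def S_S2_ORD : Prop := ∀ (Γ : HG) (a : Amb) (U W : Subgroup (MM Γ a)) (μ : a.K) (p q : MM Γ a)
  (B : Bool → Bool → MM Γ a → List (MM Γ a × Bool) → Prop),
  (∀ s t u c, B s t u c → OrdOn μ 1 (cutPts p q c) u) →
  ∀ s x t C, CL U W ln B s x t C → Ll (t - ln x) μ → OrdOn μ 1 (cutPts p q C) x

-- deps: S2_RED S2_ORD
-- imports: Pool.Agent.P.MP_dba3d2_lc.F.TbShr Pool.Agent.P.MP_dba3d2_lc.B.Axis2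
def S_S2_CW : Prop := ∀ (Γ : HG) (a : Amb) (H X : Subgroup (MM Γ a)) (μ : a.K)
  (P : Bool → MM Γ a → MM Γ a → Prop), Lv H X μ → Pt0 (hatH H X) (WW X μ) P →
  ∃ C : MM Γ a → List (MM Γ a × Bool),
    (∀ w ∈ X, ∃ t, CL (hatH H X) (WW X μ) ln (Bk P) false w t (C w)) ∧ (∀ w ∈ H, C w = []) ∧
    ∀ w ∈ X, C w ≠ [] → Ls μ (ln w) ∧ OrdOn (ln w) 1 (cutPts 1 1 (C w)) w

-- deps: S2_ORD
-- imports: Pool.Agent.P.MP_dba3d2_lc.F.TbS Pool.Agent.P.MP_dba3d2_lc.F.TbShr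
def S_S2_ENT : Prop := ∀ (Γ : HG) (a : Amb) (H X : Subgroup (MM Γ a)) (μ : a.K) (p : MM Γ a)
  (P : Bool → MM Γ a → MM Γ a → Prop) (D : List (Lt Γ a)), 0 ≤ μ → H ≤ X → F0 H X μ D → Ad μ D →
  OrdB μ p P D → ∃ C t, CL (hatH H X) (WW X μ) ln (Bk P) false (lv D) t C ∧
    OrdOn μ 1 (cutPts 1 p C) (lv D) ∧ (C = [] → NoPat P D) ∧ (NoG D → C = [])

-- deps: S2_IO S2_COC S2_MULT S2_CW S2_ENT
-- imports: Pool.Agent.P.MP_dba3d2_lc.F.TbS
def S_S2_MACH : Prop := ∀ (Γ : HG) (a : Amb) (H X : Subgroup (MM Γ a)) (l : ℕ → a.K) (k : ℕ)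
  (N : ℕ → Fin k → List (NL Γ a)), Env H X l → Shr H X l N →
  ∃ A : Finset (MM Γ a), (∀ w ∈ A, w ∈ X) ∧ ∀ (n : ℕ) (p : MM Γ a)
    (P : Bool → MM Γ a → MM Γ a → Prop), Sim (ln p) (l n) →
    Pt (hatH H X) (WW X (l n)) (l n) p P →
    (∀ w ∈ A, ∀ w' ∈ A, Gd (hatH H X) (WW X (l n)) P ![1, w, w * w']) →
    (∀ i, Ni H X (l n) (N n i) ∧ ExtP P (N n i) ∧ ExtP P (ni (N n i)) ∧
      ∀ e D, Sum.inr (e, D) ∈ N n i → OrdB (l n) p P D) →
    ∀ i e D, Sum.inr (e, D) ∈ N n i → NoPat P D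

-- deps: S2_INV S2_F0 S2_PT1 S2_BAD1 S2_EXT1 S2_MACH
-- imports: Pool.Agent.P.MP_dba3d2_lc.F.TbS
def S_S2_PART1 : Prop := ∀ (Γ : HG) (a : Amb) (H X : Subgroup (MM Γ a)) (l : ℕ → a.K) (k : ℕ)
  (N : ℕ → Fin k → List (NL Γ a)), Env H X l → (∀ i, Ch0 H X l fun n => N n i) → Shr H X l N →
  ∀ᶠ n in atTop, ∀ i, Sg (N n i)

-- deps: S2_INV S2_F0 S2_PC S2_PT2 S2_OB2 S2_BAD2 S2_EXT2 S2_ADJ S2_MACH
-- imports: Pool.Agent.P.MP_dba3d2_lc.F.TbS Pool.Agent.P.MP_dba3d2_lc.B.Axis2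
def S_S2_PART2 : Prop := ∀ (Γ : HG) (a : Amb) (H X : Subgroup (MM Γ a)) (l : ℕ → a.K) (k : ℕ)
  (N : ℕ → Fin k → List (NL Γ a)), Env H X l → (∀ i, Ch0 H X l fun n => N n i) → Shr H X l N →
  (∀ᶠ n in atTop, ∀ i, Sg (N n i)) →
  ∀ᶠ n in atTop, ∀ i e D, Sum.inr (e, D) ∈ N n i → cV D ≤ 1

end Pool.Agent.P.MP_dba3d2_lc


end

section

/-! Basic lemmas on lists of cuts. -/

namespace Pool.Agent.P.MP_dba3d2_lc

open Filter

section cuts
variable {M G G' : Type} [Group M] [Group G] [Group G'] (j : M →* G) (ν : G)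

theorem cutEv_nil : cutEv j ν [] = 1 := rfl

theorem cutEv_cons (s : M × Bool) (l : List (M × Bool)) :
    cutEv j ν (s :: l) = j s.1 * cond s.2 ν ν⁻¹ * (j s.1)⁻¹ * cutEv j ν l := by
  simp [cutEv]

theorem cutEv_append (l l' : List (M × Bool)) :
    cutEv j ν (l ++ l') = cutEv j ν l * cutEv j ν l' := by
  simp [cutEv]

theorem map_cutEv (φ : G →* G') (l : List (M × Bool)) :
    φ (cutEv j ν l) = cutEv (φ.comp j) (φ ν) l := by
  induction l with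
  | nil => exact map_one φ
  | cons s l ih =>
    rw [cutEv_cons, cutEv_cons, map_mul, ih]
    cases s.2 <;> simp

theorem cutEv_one (l : List (M × Bool)) : cutEv j 1 l = 1 := by
  induction l with
  | nil => rfl
  | cons s l ih => rw [cutEv_cons, ih]; simp

theorem cutEv_mv (g : M) (l : List (M × Bool)) :
    cutEv j ν (cutMv g l) = j g * cutEv j ν l * (j g)⁻¹ := by
  induction l with
  | nil => simp [cutMv, cutEv]
  | cons s l ih =>
    rw [cutEv_cons, show cutMv g (s :: l) = (g * s.1, s.2) :: cutMv g l from rfl, cutEv_cons, ih,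
      map_mul]
    group

theorem cutMv_append (g : M) (l l' : List (M × Bool)) :
    cutMv g (l ++ l') = cutMv g l ++ cutMv g l' := List.map_append

theorem cutMv_mul (g g' : M) (l : List (M × Bool)) : cutMv (g * g') l = cutMv g (cutMv g' l) := by
  simp [cutMv, mul_assoc]

theorem cutMv_one (l : List (M × Bool)) : cutMv 1 l = l := by
  simp [cutMv]

theorem cutPts_append (p q : M) (l l' : List (M × Bool)) :
    cutPts p q (l ++ l') = cutPts p q l ++ cutPts p q l' := List.flatMap_append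

theorem cutPts_mv (p q g : M) (l : List (M × Bool)) :
    cutPts p q (cutMv g l) = (cutPts p q l).map fun x => g * x := by
  simp [cutPts, cutMv, List.flatMap_map, List.map_flatMap, mul_assoc]

theorem Shr.map_weave (φ : G →* G') : ∀ (r : ℕ) (h : Fin (r + 1) → G) (z : Fin r → G),
    φ (weave r h z) = weave r (fun i => φ (h i)) fun i => φ (z i)
  | 0, _, _ => rfl
  | r + 1, h, z => by
    rw [weave, weave, map_mul, map_mul, Shr.map_weave φ r]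
    rfl

end cuts

variable {Γ : HG} {a : Amb}

theorem Shape.map_topG (S : Shape Γ a) {G G' : Type} [Group G] [Group G'] (j : MM Γ a →* G)
    (φ : G →* G') : ∀ (n : ℕ) (z : Fin (S.k n) → G) (i : Fin (S.k 0)),
    φ (S.topG j n z i) = S.topG (φ.comp j) n (fun t => φ (z t)) i
  | 0, _, _ => rfl
  | n + 1, z, i => by
    rw [Shape.topG, Shape.topG, S.map_topG j φ n]
    congr 1
    funext t
    exact Shr.map_weave φ _ _ _

theorem Shape.topG_id (S : Shape Γ a) : ∀ (n : ℕ) (z : Fin (S.k n) → MM Γ a),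
    S.topG (MonoidHom.id _) n z = S.top n z
  | 0, _ => rfl
  | n + 1, z => by
    rw [Shape.topG, Shape.top, S.topG_id n]
    rfl

theorem OrdOn.mul {μ : a.K} (g : MM Γ a) {y : MM Γ a} : ∀ {l : List (MM Γ a)} {x : MM Γ a},
    OrdOn μ x l y → OrdOn μ (g * x) (l.map fun t => g * t) (g * y)
  | [], _, _ => trivial
  | _ :: _, _, h => ⟨h.1.mul g, OrdOn.mul g h.2⟩

/-- moving the end point further along the segment -/
theorem OrdOn.extend {μ : a.K} {y y' : MM Γ a} : ∀ {l : List (MM Γ a)} {x : MM Γ a},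
    OrdOn μ x l y → On μ y x y' → OrdOn μ x l y'
  | [], _, _, _ => trivial
  | _ :: _, _, h, k => ⟨(k.sub h.1).1, OrdOn.extend h.2 (k.sub h.1).2⟩

/-- moving the starting point back along the segment -/
theorem OrdOn.back {μ : a.K} {x x' y : MM Γ a} : ∀ {l : List (MM Γ a)},
    OrdOn μ x l y → On μ x x' y → OrdOn μ x' l y
  | [], _, _ => trivial
  | _ :: _, h, k => ⟨(k.sub' h.1).1, h.2⟩

theorem OrdOn.append {μ : a.K} {z y : MM Γ a} {l' : List (MM Γ a)} (h' : OrdOn μ z l' y) :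
    ∀ {l : List (MM Γ a)} {x : MM Γ a}, OrdOn μ x l z → On μ z x y → OrdOn μ x (l ++ l') y
  | [], _, _, k => h'.back k
  | _ :: _, _, h, k => ⟨(k.sub h.1).1, h'.append h.2 (k.sub h.1).2⟩

end Pool.Agent.P.MP_dba3d2_lc


end

section

/-! Definitions for the words of the limit stage. -/

namespace Pool.Agent.P.MP_dba3d2_lc

open Filter

variable {Γ : HG} {a : Amb}

/-- The data of the limit stage; `V z` says that `z` is a witness. -/
structure Tow (H X : Subgroup (MM Γ a)) (l : ℕ → a.K) (S : Shape Γ a)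
    (ty : (n : ℕ) → Fin (S.k n) → Option (MM Γ a)) (y : (n : ℕ) → Fin (S.k n) → MM Γ a)
    (V : (Fin (S.k 0) → MM Γ a) → Prop) : Prop where
  gh : GC H
  gx : GC X
  le : H ≤ X
  desc : Desc l
  cap : ∀ n, X = H ⊔ (X ⊓ ball Γ (l n))
  mem : ∀ n i, y n i ∈ X
  ty0 : ∀ i, ty 0 i = none
  bd : ∀ n i, Ls (ln (y n i)) (l n)
  dec : ∀ n i, TDec (l n) H (ty n i) (y n i) (S.r n i) (S.h n i)
    (fun j => y (n + 1) (S.e n ⟨i, j⟩)) fun j => ty (n + 1) (S.e n ⟨i, j⟩)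
  wit : V (y 0)
  near : ∀ n z, (∀ i, HasT (ty n i) (z i)) → V (S.top n z) → Ll (tl (y n) - tl z) (l n)
  lex : ∀ n z, (∀ i, HasT (ty n i) (z i)) → V (S.top n z) → Ll (tl z - tl (y n)) (l n) →
    ∀ (r' : Fin (S.k n) → ℕ) (h' : (i : Fin (S.k n)) → Fin (r' i + 1) → MM Γ a)
      (z' : (i : Fin (S.k n)) → Fin (r' i) → MM Γ a)
      (ty' : (i : Fin (S.k n)) → Fin (r' i) → Option (MM Γ a)),
      (∀ i, TDec (l n) H (ty n i) (z i) (r' i) (h' i) (z' i) (ty' i)) →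
      nG (ty (n + 1)) < ∑ i, nG (ty' i) ∨
        (nG (ty (n + 1)) = ∑ i, nG (ty' i) ∧ S.k (n + 1) ≤ ∑ i, r' i)

/-- the children of an entry, each with the block that follows it -/
def Shape.kids (S : Shape Γ a) (n : ℕ) (i : Fin (S.k n)) : List (Fin (S.k (n + 1)) × MM Γ a) :=
  List.ofFn fun j : Fin (S.r n i) => (S.e n ⟨i, j⟩, S.h n i j.succ)

/-- the parent of a variable -/
def Shape.par (S : Shape Γ a) (n : ℕ) (t : Fin (S.k (n + 1))) : Fin (S.k n) := ((S.e n).symm t).1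

/-- `s` and `t` are neighbours in a flattened word of level `n`, with the block `β` between them -/
def Shape.Adj (S : Shape Γ a) : (n : ℕ) → Fin (S.k n) → MM Γ a → Fin (S.k n) → Prop
  | 0, _, _, _ => False
  | n + 1, s, β, t => (∃ i β', ∃ L L' : List _, S.kids n i = L ++ (s, β) :: (t, β') :: L') ∨
      ∃ s' β' t' β1 β2, ∃ L L' : List _, S.Adj n s' β' t' ∧ S.kids n s' = L ++ [(s, β1)] ∧
        S.kids n t' = (t, β2) :: L' ∧ β = β1 * β' * S.h n t' 0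

/-- only typed variables lie between `s` and `t`; `b` is the product of what lies between them -/
inductive Shape.Run (S : Shape Γ a) (n : ℕ) (τ : Fin (S.k n) → Option (MM Γ a))
    (v : Fin (S.k n) → MM Γ a) (s : Fin (S.k n)) : MM Γ a → Fin (S.k n) → Prop
  | one {β t} : S.Adj n s β t → S.Run n τ v s β t
  | step {b u β t} : S.Run n τ v s b u → τ u ≠ none → S.Adj n u β t → S.Run n τ v s (b * v u * β) t

/-- tokens: blocks (`none`) and joints with their type -/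
abbrev Tok (Γ : HG) (a : Amb) := Option (Option (MM Γ a)) × MM Γ a

/-- the tokens of a list of children -/
def tks {ι : Type} (τ : ι → Option (MM Γ a)) (v : ι → MM Γ a) (L : List (ι × MM Γ a)) :
    List (Tok Γ a) :=
  L.flatMap fun p => [(some (τ p.1), v p.1), (none, p.2)]

end Pool.Agent.P.MP_dba3d2_lc


end

section

/-! Words of the limit stage: children, neighbours, flattened words. -/

namespace Pool.Agent.P.MP_dba3d2_lc

open Filter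

theorem weave_eq {G : Type} [Group G] : ∀ (r : ℕ) (h : Fin (r + 1) → G) (z : Fin r → G),
    weave r h z = h 0 * (List.ofFn fun j => z j * h j.succ).prod
  | 0, _, _ => by simp [weave]
  | r + 1, h, z => by
    rw [weave, weave_eq r, List.ofFn_succ, List.prod_cons, mul_assoc, mul_assoc]
    rfl

variable {Γ : HG} {a : Amb} {H X : Subgroup (MM Γ a)} {l : ℕ → a.K} {S : Shape Γ a}
  {ty : (n : ℕ) → Fin (S.k n) → Option (MM Γ a)} {y : (n : ℕ) → Fin (S.k n) → MM Γ a}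
  {V : (Fin (S.k 0) → MM Γ a) → Prop} {n : ℕ} {i : Fin (S.k n)} {β c : MM Γ a}

theorem Shape.upG_eq (S : Shape Γ a) {G : Type} [Group G] (j : MM Γ a →* G) (n : ℕ)
    (z : Fin (S.k (n + 1)) → G) (i : Fin (S.k n)) :
    S.upG j n z i = j (S.h n i 0) * ((S.kids n i).map fun p => z p.1 * j p.2).prod := by
  rw [Shape.upG, weave_eq, Shape.kids, List.map_ofFn]
  rfl

theorem Shape.up_eq (S : Shape Γ a) (n : ℕ) (z : Fin (S.k (n + 1)) → MM Γ a) (i : Fin (S.k n)) :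
    S.up n z i = S.h n i 0 * ((S.kids n i).map fun p => z p.1 * p.2).prod :=
  S.upG_eq (MonoidHom.id _) n z i

theorem Shape.mem_kids {p : Fin (S.k (n + 1)) × MM Γ a} :
    p ∈ S.kids n i ↔ ∃ j, p = (S.e n ⟨i, j⟩, S.h n i j.succ) := by
  simp only [Shape.kids, List.mem_ofFn, eq_comm]

theorem Shape.par_kids {p : Fin (S.k (n + 1)) × MM Γ a} (h : p ∈ S.kids n i) :
    S.par n p.1 = i := by
  obtain ⟨j, rfl⟩ := Shape.mem_kids.1 h
  rw [Shape.par, Equiv.symm_apply_apply]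

theorem Shape.kids_par (S : Shape Γ a) (n : ℕ) (t : Fin (S.k (n + 1))) :
    ∃ β, (t, β) ∈ S.kids n (S.par n t) :=
  ⟨_, Shape.mem_kids.2 ⟨((S.e n).symm t).2, Prod.ext ((S.e n).apply_symm_apply t).symm rfl⟩⟩

theorem Shape.kids_length (S : Shape Γ a) (n : ℕ) (i : Fin (S.k n)) :
    (S.kids n i).length = S.r n i := List.length_ofFn

theorem Shape.kids_nodup (S : Shape Γ a) (n : ℕ) (i : Fin (S.k n)) :
    ((S.kids n i).map Prod.fst).Nodup := by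
  rw [Shape.kids, List.map_ofFn]
  exact List.nodup_ofFn_ofInjective fun j j' h => by simpa using h

/-- the other children are different -/
theorem Shape.kids_ne {L L' : List (Fin (S.k (n + 1)) × MM Γ a)} {p q : Fin (S.k (n + 1)) × MM Γ a}
    (h : S.kids n i = L ++ p :: L') (hq : q ∈ L ∨ q ∈ L') : q.1 ≠ p.1 := by
  have e := S.kids_nodup n i
  rw [h, List.map_append, List.map_cons, List.nodup_middle, List.nodup_cons, ← List.map_append] at e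
  exact fun k => e.1 (k ▸ List.mem_map_of_mem (List.mem_append.2 hq))

/-- a change of two neighbours that keeps their product does not change the top -/
theorem Shape.Adj.top : ∀ {n : ℕ} {s t : Fin (S.k n)} {β : MM Γ a}, S.Adj n s β t → s ≠ t ∧
    ∀ z z' : Fin (S.k n) → MM Γ a, (∀ u, u ≠ s → u ≠ t → z u = z' u) →
      z s * β * z t = z' s * β * z' t → S.top n z = S.top n z'
  | 0, _, _, _, h => h.elim
  | n + 1, s, t, β, h => by
    have out : ∀ (z z' : Fin (S.k (n + 1)) → MM Γ a), (∀ u, u ≠ s → u ≠ t → z u = z' u) →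
        ∀ L : List (Fin (S.k (n + 1)) × MM Γ a), (∀ p ∈ L, p.1 ≠ s ∧ p.1 ≠ t) →
        (L.map fun p => z p.1 * p.2) = L.map fun p => z' p.1 * p.2 := fun z z' e L k =>
      List.map_congr_left fun p hp => by rw [e _ (k p hp).1 (k p hp).2]
    rcases h with ⟨i, β', L, L', h⟩ | ⟨s', β', t', β1, β2, L, L', h, h1, h2, rfl⟩
    · have h' : S.kids n i = (L ++ [(s, β)]) ++ (t, β') :: L' := by simpa using h
      have ps : S.par n s = i := Shape.par_kids (p := (s, β)) (by simp [h])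
      have pt : S.par n t = i := Shape.par_kids (p := (t, β')) (by simp [h])
      refine ⟨Shape.kids_ne (q := (s, β)) h' (by simp), fun z z' e k => ?_⟩
      refine congrArg (S.top n) (funext fun u => ?_)
      rw [S.up_eq, S.up_eq]
      by_cases hu : u = i
      · rw [hu, h]
        simp only [List.map_append, List.map_cons, List.prod_append, List.prod_cons]
        rw [out z z' e L fun p hp => ⟨Shape.kids_ne h (.inl hp), Shape.kids_ne h' (by simp [hp])⟩,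
          out z z' e L' fun p hp => ⟨Shape.kids_ne h (by simp [hp]), Shape.kids_ne h' (.inr hp)⟩,
          ← mul_assoc (z s * β), ← mul_assoc (z s * β), k, mul_assoc (z' s * β), mul_assoc (z' s * β)]
      · rw [out z z' e _ fun p hp => ⟨fun e => hu (by rw [← Shape.par_kids hp, e, ps]),
          fun e => hu (by rw [← Shape.par_kids hp, e, pt])⟩]
    · obtain ⟨ne, ih⟩ := Shape.Adj.top h
      have ps : S.par n s = s' := Shape.par_kids (p := (s, β1)) (by simp [h1])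
      have pt : S.par n t = t' := Shape.par_kids (p := (t, β2)) (by simp [h2])
      refine ⟨fun e => ne (by rw [← ps, e, pt]), fun z z' e k => ih _ _ (fun u u1 u2 => ?_) ?_⟩
      · rw [S.up_eq, S.up_eq, out z z' e _ fun p hp =>
          ⟨fun e => u1 (by rw [← Shape.par_kids hp, e, ps]),
          fun e => u2 (by rw [← Shape.par_kids hp, e, pt])⟩]
      · simp only [S.up_eq, h1, h2, List.map_append, List.map_cons, List.prod_append, List.prod_cons,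
          List.map_nil, List.prod_nil, mul_one]
        rw [out z z' e L fun p hp => ⟨Shape.kids_ne h1 (.inl hp), fun e => ne (by
            rw [← Shape.par_kids (p := p) (i := s') (by simp [h1, hp]), e, pt])⟩,
          out z z' e L' fun p hp => ⟨fun e => ne (by
            rw [← Shape.par_kids (p := p) (i := t') (by simp [h2, hp]), e, ps]),
            Shape.kids_ne (L := []) h2 (.inr hp)⟩]
        have := congrArg (fun w => S.h n s' 0 * (L.map fun p => z' p.1 * p.2).prod * w * β2 *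
          (L'.map fun p => z' p.1 * p.2).prod) k
        simpa only [mul_assoc] using this

theorem Shape.kids_chain (S : Shape Γ a) (n : ℕ) (i : Fin (S.k n)) :
    (S.kids n i).IsChain fun p q => S.Adj (n + 1) p.1 p.2 q.1 :=
  List.isChain_iff_forall_rel_of_append_cons_cons.2 fun _ q L L' h => .inl ⟨i, q.2, L, L', h⟩

theorem Tow.up (T : Tow H X l S ty y V) (n : ℕ) : S.up n (y (n + 1)) = y n :=
  funext fun i => (T.dec n i).eq.symm

/-- the word of an entry -/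
theorem Tow.eq (T : Tow H X l S ty y V) (n : ℕ) (i : Fin (S.k n)) :
    y n i = S.h n i 0 * ((S.kids n i).map fun p => y (n + 1) p.1 * p.2).prod := by
  rw [← S.up_eq, T.up]

theorem Tow.top (T : Tow H X l S ty y V) : ∀ n, S.top n (y n) = y 0
  | 0 => rfl
  | n + 1 => by rw [Shape.top, T.up, Tow.top T n]

theorem Tow.pos (T : Tow H X l S ty y V) (n : ℕ) : 0 < l n := T.desc.pos n

theorem Tow.h0 (T : Tow H X l S ty y V) (n : ℕ) (i : Fin (S.k n)) :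
    S.h n i 0 ∈ H ∧ Ls (ln (S.h n i 0)) (l n) := ⟨(T.dec n i).mem 0, (T.dec n i).bd 0⟩

theorem Tow.kid (T : Tow H X l S ty y V) {p : Fin (S.k (n + 1)) × MM Γ a} (h : p ∈ S.kids n i) :
    p.2 ∈ H ∧ Ls (ln p.2) (l n) := by
  obtain ⟨j, rfl⟩ := Shape.mem_kids.1 h
  exact ⟨(T.dec n i).mem _, (T.dec n i).bd _⟩

theorem Tow.var (T : Tow H X l S ty y V) (t : Fin (S.k (n + 1))) :
    TyOk H (ty (n + 1) t) ∧ HasT (ty (n + 1) t) (y (n + 1) t) ∧ Ll (ln (y (n + 1) t)) (l n) := by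
  obtain ⟨⟨i, j⟩, rfl⟩ := (S.e n).surjective t
  exact ⟨(T.dec n i).ok j, (T.dec n i).has j, (T.dec n i).tin j⟩

theorem Tow.has (T : Tow H X l S ty y V) : ∀ n i, HasT (ty n i) (y n i)
  | 0, i => fun c h => by rw [T.ty0] at h; cases h
  | _ + 1, i => (T.var i).2.1

theorem Tow.ok (T : Tow H X l S ty y V) : ∀ n i, TyOk H (ty n i)
  | 0, i => fun c h => by rw [T.ty0] at h; cases h
  | _ + 1, i => (T.var i).1

/-- the word of a typed entry -/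
theorem Tow.one (T : Tow H X l S ty y V) (h : ty n i = some c) : (S.kids n i).length ≤ 1 ∧
    S.h n i 0 ∈ Ep c ∧ ∀ p ∈ S.kids n i, ty (n + 1) p.1 = some c ∧ p.2 ∈ Ep c := by
  obtain ⟨h1, h2, h3⟩ := (T.dec n i).one c h
  refine ⟨S.kids_length n i ▸ h1, h3 0, fun p hp => ?_⟩
  obtain ⟨j, rfl⟩ := Shape.mem_kids.1 hp
  exact ⟨h2 j, h3 _⟩

/-- the parent of a general variable is general -/
theorem Tow.par_none (T : Tow H X l S ty y V) {p : Fin (S.k (n + 1)) × MM Γ a} (h : p ∈ S.kids n i)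
    (k : ty (n + 1) p.1 = none) : ty n i = none := by
  cases e : ty n i with
  | none => rfl
  | some c => rw [((T.one e).2.2 p h).1] at k; cases k

theorem Tow.adj_mem (T : Tow H X l S ty y V) : ∀ {n : ℕ} {s t : Fin (S.k n)} {β : MM Γ a},
    S.Adj n s β t → β ∈ H
  | 0, _, _, _, h => h.elim
  | n + 1, s, t, β, h => by
    rcases h with ⟨i, β', L, L', h⟩ | ⟨s', β', t', β1, β2, L, L', h, h1, -, rfl⟩
    · exact (T.kid (i := i) (p := (s, β)) (by simp [h])).1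
    · exact mul_mem (mul_mem (T.kid (i := s') (p := (s, β1)) (by simp [h1])).1 (Tow.adj_mem T h))
        (T.h0 n t').1

/-- substitution of the children into a word -/
theorem Tow.subst (T : Tow H X l S ty y V) (hk : ∀ i, S.kids n i ≠ []) :
    ∀ L : List (Fin (S.k n) × MM Γ a), (∀ p ∈ L, p.2 ∈ H) →
      L.IsChain (fun p q => S.Adj n p.1 p.2 q.1) →
      ∃ b ∈ H, ∃ L' : List (Fin (S.k (n + 1)) × MM Γ a), (∀ p ∈ L', p.2 ∈ H) ∧
        L'.IsChain (fun p q => S.Adj (n + 1) p.1 p.2 q.1) ∧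
        (∀ q ∈ L'.head?, ∃ p ∈ L.head?, b = S.h n p.1 0 ∧ ∃ β K, S.kids n p.1 = (q.1, β) :: K) ∧
        ∀ (G : Type) [Group G] (j : MM Γ a →* G) (F : Fin (S.k (n + 1)) → G),
          (L.map fun p => S.upG j n F p.1 * j p.2).prod = j b * (L'.map fun p => F p.1 * j p.2).prod
  | [], _, _ => ⟨1, H.one_mem, [], by simp, .nil, by simp, by simp⟩
  | p :: L, h1, h2 => by
    obtain ⟨b, hb, L', k1, k2, k3, k4⟩ :=
      Tow.subst T hk L (fun q hq => h1 q (List.mem_cons_of_mem _ hq)) h2.tail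
    obtain ⟨K, ⟨s, β⟩, e⟩ := (List.eq_nil_or_concat' (S.kids n p.1)).resolve_left (hk _)
    have c1 := S.kids_chain n p.1
    refine ⟨_, (T.h0 n p.1).1, K ++ (s, β * p.2 * b) :: L', fun q hq => ?_, ?_, fun q hq => ?_,
      fun G _ j F => ?_⟩
    · simp only [List.mem_append, List.mem_cons] at hq
      rcases hq with hq | rfl | hq
      · exact (T.kid (i := p.1) (by simp [e, hq])).1
      · exact mul_mem (mul_mem (T.kid (i := p.1) (p := (s, β)) (by simp [e])).1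
          (h1 p List.mem_cons_self)) hb
      · exact k1 q hq
    · rw [e, List.isChain_append] at c1
      refine List.isChain_append.2 ⟨c1.1, List.isChain_cons.2 ⟨fun q hq => ?_, k2⟩,
        fun x hx q hq => ?_⟩
      · obtain ⟨p', u1, u2, β', K', u3⟩ := k3 q hq
        exact .inr ⟨p.1, p.2, p'.1, β, β', K, K', (List.isChain_cons.1 h2).1 p' u1, e, u3, by rw [u2]⟩
      · obtain rfl : (s, β * p.2 * b) = q := by simpa using hq
        exact c1.2.2 x hx (s, β) rfl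
    · refine ⟨p, rfl, rfl, ?_⟩
      cases K with
      | nil => obtain rfl : (s, β * p.2 * b) = q := by simpa using hq
               exact ⟨β, [], e⟩
      | cons x K => obtain rfl : x = q := by simpa using hq
                    exact ⟨x.2, _, e⟩
    · rw [List.map_cons, List.prod_cons, k4, S.upG_eq, e]
      simp [mul_assoc]

end Pool.Agent.P.MP_dba3d2_lc


end
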