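import Pool.Agent.P.MP_dba3d2_lcM.Bb10
import Pool.Agent.P.MP_dba3d2_lcM.Eb29
import Pool.Agent.P.MP_dba3d2_lcM.Fb36
import Pool.Agent.P.MP_dba3d2_lcM.Fb38

section

/-! Words of the limit stage: lexicographic minimality for lists of tokens. -/

namespace Pool.Agent.P.MP_dba3d2_lc

open Filter

variable {Γ : HG} {a : Amb} {H X : Subgroup (MM Γ a)} {l : ℕ → a.K} {S : Shape Γ a}
  {ty : (n : ℕ) → Fin (S.k n) → Option (MM Γ a)} {y : (n : ℕ) → Fin (S.k n) → MM Γ a}
  {V : (Fin (S.k 0) → MM Γ a) → Prop} {n : ℕ} {i : Fin (S.k n)} {β c x : MM Γ a} {μ : a.K}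
  {N N' : List (Tok Γ a)} {τ : Option (MM Γ a)}

namespace Tk

/-- value of a list of tokens -/
def tv (N : List (Tok Γ a)) : MM Γ a := (N.map Prod.snd).prod
/-- total length of the blocks -/
def bl (N : List (Tok Γ a)) : a.K := (N.map fun p => if p.1.isSome then 0 else ln p.2).sum
/-- number of joints -/
def cj (N : List (Tok Γ a)) : ℕ := N.countP fun p => p.1.isSome
/-- number of general joints -/
def cg (N : List (Tok Γ a)) : ℕ := N.countP fun p => p.1.any Option.isNone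

@[simp] theorem ev_nil : tv ([] : List (Tok Γ a)) = 1 := rfl
@[simp] theorem bl_nil : bl ([] : List (Tok Γ a)) = 0 := rfl
@[simp] theorem cj_nil : cj ([] : List (Tok Γ a)) = 0 := rfl
@[simp] theorem cg_nil : cg ([] : List (Tok Γ a)) = 0 := rfl
@[simp] theorem ev_cons (p : Tok Γ a) : tv (p :: N) = p.2 * tv N := by simp [tv]
@[simp] theorem bl_none : bl ((none, x) :: N) = ln x + bl N := by simp [bl]
@[simp] theorem bl_some : bl ((some τ, x) :: N) = bl N := by simp [bl]
@[simp] theorem cj_none : cj ((none, x) :: N) = cj N := by simp [cj]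
@[simp] theorem cj_some : cj ((some τ, x) :: N) = cj N + 1 := by simp [cj]
@[simp] theorem cg_none : cg ((none, x) :: N) = cg N := by simp [cg]
theorem cg_some : cg ((some τ, x) :: N) = cg N + if τ.isNone then 1 else 0 := by
  simp [cg, List.countP_cons]
@[simp] theorem ev_append : tv (N ++ N') = tv N * tv N' := by simp [tv]
@[simp] theorem bl_append : bl (N ++ N') = bl N + bl N' := by simp [bl]
@[simp] theorem cj_append : cj (N ++ N') = cj N + cj N' := by simp [cj]
@[simp] theorem cg_append : cg (N ++ N') = cg N + cg N' := by simp [cg]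

theorem bl_nonneg (N : List (Tok Γ a)) : 0 ≤ bl N := by
  induction N with
  | nil => simp
  | cons p N ih => obtain ⟨_ | τ, x⟩ := p <;> simp [ih, add_nonneg, ln_nonneg]

theorem nG_cons {Y : Type} {r : ℕ} (τ : Option Y) (t : Fin r → Option Y) :
    nG (Fin.cons τ t : Fin (r + 1) → Option Y) = nG t + if τ.isNone then 1 else 0 := by
  simp only [nG, Finset.card_filter, Fin.sum_univ_succ, Fin.cons_zero, Fin.cons_succ, add_comm]

/-- a list of tokens as a woven product -/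
theorem weave (N : List (Tok Γ a)) : ∃ (h : Fin (cj N + 1) → MM Γ a) (z : Fin (cj N) → MM Γ a)
    (t : Fin (cj N) → Option (MM Γ a)), nG t = cg N ∧ tv N = weave _ h z ∧ ∑ j, ln (h j) ≤ bl N ∧
    (∀ P : Subgroup (MM Γ a), (∀ x, (none, x) ∈ N → x ∈ P) → ∀ j, h j ∈ P) ∧
    ∀ j, (some (t j), z j) ∈ N := by
  suffices ∃ (r : ℕ) (h : Fin (r + 1) → MM Γ a) (z : Fin r → MM Γ a)
      (t : Fin r → Option (MM Γ a)), r = cj N ∧ nG t = cg N ∧ tv N = MP_dba3d2_lc.weave _ h z ∧
      ∑ j, ln (h j) ≤ bl N ∧ (∀ P : Subgroup (MM Γ a), (∀ x, (none, x) ∈ N → x ∈ P) → ∀ j, h j ∈ P) ∧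
      ∀ j, (some (t j), z j) ∈ N by
    obtain ⟨r, h, z, t, rfl, k⟩ := this
    exact ⟨h, z, t, k⟩
  induction N with
  | nil => exact ⟨0, fun _ => 1, Fin.elim0, Fin.elim0, rfl, by simp [nG], rfl, by simp,
      fun P _ _ => P.one_mem, fun j => j.elim0⟩
  | cons p N ih =>
    obtain ⟨r, h, z, t, e1, e2, e3, e4, e5, e6⟩ := ih
    obtain ⟨_ | τ, x⟩ := p
    · refine ⟨r, Fin.cons (x * h 0) (Fin.tail h), z, t, by simpa using e1, by simpa using e2, ?_, ?_,
        fun P hP j => ?_, fun j => List.mem_cons_of_mem _ (e6 j)⟩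
      · rw [ev_cons, e3, weave_eq, weave_eq, ← mul_assoc]
        rfl
      · rw [Fin.sum_univ_succ] at e4 ⊢
        simp only [Fin.cons_zero, Fin.cons_succ, Fin.tail, bl_none]
        linarith [ln_mul_le x (h 0)]
      · have k := e5 P fun x hx => hP x (List.mem_cons_of_mem _ hx)
        refine Fin.cases ?_ (fun j => k _) j
        exact mul_mem (hP x List.mem_cons_self) (k 0)
    · refine ⟨r + 1, Fin.cons 1 h, Fin.cons x z, Fin.cons τ t, by simpa using e1,
        by rw [nG_cons, cg_some, e2], ?_, ?_, fun P hP j => ?_, fun j => ?_⟩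
      · rw [ev_cons, e3, MP_dba3d2_lc.weave]
        simp
      · rw [Fin.sum_univ_succ]
        simpa using e4
      · exact Fin.cases P.one_mem (e5 P fun x hx => hP x (List.mem_cons_of_mem _ hx)) j
      · exact Fin.cases List.mem_cons_self (fun j => List.mem_cons_of_mem _ (e6 j)) j

/-- admissible tokens at scale `μ` in an entry of type `τ` -/
def Ok (μ : a.K) (H : Subgroup (MM Γ a)) (τ : Option (MM Γ a)) : Tok Γ a → Prop
  | (none, x) => x ∈ H ∧ Ls (ln x) μ ∧ HasT τ x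
  | (some t, x) => TyOk H t ∧ HasT t x ∧ Ll (ln x) μ ∧ ∀ c, τ = some c → t = some c

theorem Ok.has {p : Tok Γ a} (h : Ok μ H τ p) : HasT τ p.2 := by
  obtain ⟨_ | t, x⟩ := p
  exacts [h.2.2, fun c e => h.2.1 c (h.2.2.2 c e)]

theorem has_ev (h : ∀ p ∈ N, Ok μ H τ p) : HasT τ (tv N) := fun c e =>
  list_prod_mem fun x hx => by
    obtain ⟨p, hp, rfl⟩ := List.mem_map.1 hx
    exact (h p hp).has c e

theorem ln_ev (h0 : 0 ≤ μ) (h : ∀ p ∈ N, Ok μ H τ p) : Ll (ln (tv N) - bl N) μ := by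
  induction N with
  | nil => simpa using Ll.zero h0
  | cons p N ih =>
    have k := ih fun q hq => h q (List.mem_cons_of_mem _ hq)
    have k' := h p List.mem_cons_self
    have e := ln_mul_le p.2 (tv N)
    obtain ⟨_ | t, x⟩ := p
    · exact Ll.mono_left (by rw [ev_cons, bl_none]; linarith) k
    · exact Ll.mono_left (by rw [ev_cons, bl_some]; linarith) (k.add k'.2.2.1)

section
variable {ι : Type} {t : ι → Option (MM Γ a)} {v : ι → MM Γ a} {L L' : List (ι × MM Γ a)}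
@[simp] theorem tks_nil : tks t v [] = [] := rfl
@[simp] theorem tks_cons (p : ι × MM Γ a) :
    tks t v (p :: L) = (some (t p.1), v p.1) :: (none, p.2) :: tks t v L := rfl
@[simp] theorem tks_append : tks t v (L ++ L') = tks t v L ++ tks t v L' := List.flatMap_append
theorem ev_tks : tv (tks t v L) = (L.map fun p => v p.1 * p.2).prod := by
  induction L with
  | nil => rfl
  | cons p L ih => simp [ih, mul_assoc]
theorem bl_tks : bl (tks t v L) = (L.map fun p => ln p.2).sum := by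
  induction L with
  | nil => rfl
  | cons p L ih => simp [ih]
theorem cj_tks : cj (tks t v L) = L.length := by
  induction L with
  | nil => rfl
  | cons p L ih => simp [ih]
theorem cg_tks : cg (tks t v L) = (L.map fun p => if (t p.1).isNone then 1 else 0).sum := by
  induction L with
  | nil => rfl
  | cons p L ih => rw [tks_cons, cg_some, cg_none, ih, List.map_cons, List.sum_cons, add_comm]
end

end Tk

open Tk

/-- the tokens of an entry -/
def Shape.tk (S : Shape Γ a) (ty : (n : ℕ) → Fin (S.k n) → Option (MM Γ a))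
    (y : (n : ℕ) → Fin (S.k n) → MM Γ a) (n : ℕ) (i : Fin (S.k n)) : List (Tok Γ a) :=
  (none, S.h n i 0) :: tks (ty (n + 1)) (y (n + 1)) (S.kids n i)

theorem Tow.ev_tk (T : Tow H X l S ty y V) (n : ℕ) (i : Fin (S.k n)) :
    tv (S.tk ty y n i) = y n i := by rw [Shape.tk, ev_cons, ev_tks, ← T.eq]

theorem Shape.bl_tk (n : ℕ) (i : Fin (S.k n)) : bl (S.tk ty y n i) = ∑ j, ln (S.h n i j) := by
  rw [Shape.tk, bl_none, bl_tks, Shape.kids, List.map_ofFn, List.sum_ofFn, Fin.sum_univ_succ]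
  rfl

theorem Shape.cj_tk (n : ℕ) (i : Fin (S.k n)) : cj (S.tk ty y n i) = S.r n i := by
  rw [Shape.tk, cj_none, cj_tks, S.kids_length]

theorem Shape.sum_cj (n : ℕ) : ∑ i, cj (S.tk ty y n i) = S.k (n + 1) := by
  have := Fintype.card_congr (S.e n)
  simpa [Shape.cj_tk] using this

theorem Shape.sum_cg (n : ℕ) : ∑ i, cg (S.tk ty y n i) = nG (ty (n + 1)) := by
  rw [nG, Finset.card_filter, ← (S.e n).sum_comp, Fintype.sum_sigma]
  refine Finset.sum_congr rfl fun i _ => ?_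
  rw [Shape.tk, cg_none, cg_tks, Shape.kids, List.map_ofFn, List.sum_ofFn]
  rfl

theorem Tow.ok_tk (T : Tow H X l S ty y V) (n : ℕ) (i : Fin (S.k n)) :
    ∀ p ∈ S.tk ty y n i, Ok (l n) H (ty n i) p := by
  refine List.forall_mem_cons.2 ⟨⟨(T.h0 n i).1, (T.h0 n i).2, fun c e => (T.one e).2.1⟩, fun p hp => ?_⟩
  obtain ⟨q, hq, hp⟩ := List.mem_flatMap.1 hp
  simp only [List.mem_cons, List.not_mem_nil, or_false] at hp
  rcases hp with rfl | rfl
  · exact ⟨(T.var _).1, (T.var _).2.1, (T.var _).2.2, fun c e => ((T.one e).2.2 q hq).1⟩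
  · exact ⟨(T.kid hq).1, (T.kid hq).2, fun c e => ((T.one e).2.2 q hq).2⟩

theorem Tow.bl_tk (T : Tow H X l S ty y V) (n : ℕ) (i : Fin (S.k n)) :
    Ll (bl (S.tk ty y n i) - ln (y n i)) (l n) := Shape.bl_tk n i ▸ (T.dec n i).add

/-- the word of an entry is geodesic -/
theorem Tow.geo (T : Tow H X l S ty y V) (n : ℕ) (i : Fin (S.k n)) :
    Geo (l n) ((S.tk ty y n i).map Prod.snd) := by
  have : ∀ N : List (Tok Γ a), (∀ p ∈ N, Ok (l n) H (ty n i) p) →
      Ll (((N.map Prod.snd).map ln).sum - bl N) (l n) := by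
    intro N h
    induction N with
    | nil => simpa using Ll.zero (T.pos n).le
    | cons p N ih =>
      have k := ih fun q hq => h q (List.mem_cons_of_mem _ hq)
      have k' := h p List.mem_cons_self
      obtain ⟨_ | t, x⟩ := p
      · exact Ll.mono_left (by simp) k
      · refine Ll.mono_left (le_of_eq ?_) (k.add k'.2.2.1)
        simp only [List.map_cons, List.sum_cons, bl_some]
        ring
  refine Ll.mono_left (le_of_eq ?_) ((this _ (T.ok_tk n i)).add (T.bl_tk n i))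
  rw [← T.ev_tk n i, tv]
  ring

/-- `N` is admissible and not worse than `N'` -/
structure Tk.Le (μ : a.K) (H : Subgroup (MM Γ a)) (τ : Option (MM Γ a)) (N N' : List (Tok Γ a)) :
    Prop where
  ok : ∀ p ∈ N, Ok μ H τ p
  one : τ ≠ none → cj N ≤ 1
  bl : Ll (bl N - bl N') μ
  cg : cg N ≤ cg N'

theorem Tow.le_tk (T : Tow H X l S ty y V) (n : ℕ) (i : Fin (S.k n)) :
    Tk.Le (l n) H (ty n i) (S.tk ty y n i) (S.tk ty y n i) := by
  refine ⟨T.ok_tk n i, fun h => ?_, by simpa using Ll.zero (T.pos n).le, le_rfl⟩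
  obtain ⟨c, e⟩ := Option.ne_none_iff_exists'.1 h
  rw [Shape.cj_tk, ← S.kids_length]
  exact (T.one e).1

theorem Tk.ll_sum {ι : Type} [Fintype ι] (h0 : 0 ≤ μ) {f : ι → a.K} (h : ∀ i, Ll (f i) μ) :
    Ll (∑ i, f i) μ :=
  Finset.sum_induction f (fun s => Ll s μ) (fun _ _ => Ll.add) (Ll.zero h0) fun i _ => h i

/-- lexicographic minimality for lists of tokens -/
theorem Tow.lexT (T : Tow H X l S ty y V) (N : Fin (S.k n) → List (Tok Γ a))
    (top : S.top n (fun i => tv (N i)) = y 0)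
    (le : ∀ i, Tk.Le (l n) H (ty n i) (N i) (S.tk ty y n i))
    (lt : (∃ i, cg (N i) < cg (S.tk ty y n i)) ∨
      (∀ i, cj (N i) ≤ cj (S.tk ty y n i)) ∧ ∃ i, cj (N i) < cj (S.tk ty y n i)) : False := by
  classical
  have h0 := (T.pos n).le
  have has := fun i => has_ev (le i).ok
  have up : ∀ i, Ll (bl (N i) - ln (y n i)) (l n) := fun i =>
    Ll.mono_left (le_of_eq (by ring)) ((le i).bl.add (T.bl_tk n i))
  have up' : ∀ i, Ll (ln (tv (N i)) - ln (y n i)) (l n) := fun i =>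
    Ll.mono_left (le_of_eq (by ring)) ((ln_ev h0 (le i).ok).add (up i))
  have nr := T.near n _ has (top ▸ T.wit)
  choose h z t e1 e2 e3 e4 e5 using fun i => Tk.weave (N i)
  have k := T.lex n _ has (top ▸ T.wit)
    (by rw [tl, tl, ← Finset.sum_sub_distrib]; exact Tk.ll_sum h0 up') _ h z t fun i => by
      have ok := fun j => (le i).ok _ (e5 i j)
      refine ⟨⟨e4 i H fun x hx => ((le i).ok _ hx).1, fun j => (mem_ball h0).1
        (e4 i _ (fun x hx => (mem_ball h0).2 ((le i).ok _ hx).2.1) j), fun j => (ok j).2.2.1, e2 i, ?_⟩,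
        fun j => (ok j).1, fun j => (ok j).2.1, fun c e => ⟨(le i).one (by simp [e]),
          fun j => (ok j).2.2.2 c e, e4 i _ fun x hx => ((le i).ok _ hx).2.2 c e⟩⟩
      have s := Tk.ll_sum h0 (f := fun u => if u = i then 0 else ln (tv (N u)) - ln (y n u)) fun u => by
        split_ifs
        exacts [Ll.zero h0, up' u]
      refine Ll.mono_left ?_ (((up i).add nr).add s)
      have e : ∑ u, (if u = i then 0 else ln (tv (N u)) - ln (y n u)) +
          (ln (tv (N i)) - ln (y n i)) = ∑ u, (ln (tv (N u)) - ln (y n u)) := by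
        rw [← Finset.sum_erase_add _ _ (Finset.mem_univ i), ← Finset.sum_erase_add _ _ (Finset.mem_univ i),
          if_pos rfl, add_zero]
        congr 1
        exact Finset.sum_congr rfl fun u hu => if_neg (Finset.ne_of_mem_erase hu)
      rw [Finset.sum_sub_distrib] at e
      rw [tl, tl]
      linarith [e3 i]
  simp only [e1] at k
  rw [← Shape.sum_cg (y := y), ← Shape.sum_cj (ty := ty) (y := y)] at k
  have s1 := Finset.sum_le_sum (s := Finset.univ) fun i _ => (le i).cg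
  rcases lt with ⟨i, e⟩ | ⟨e, i, e'⟩
  · have := Finset.sum_lt_sum (s := Finset.univ) (fun i _ => (le i).cg) ⟨i, Finset.mem_univ i, e⟩
    omega
  · have := Finset.sum_lt_sum (s := Finset.univ) (fun i _ => e i) ⟨i, Finset.mem_univ i, e'⟩
    omega

/-- no entry has a better word -/
theorem Tow.lex1 (T : Tow H X l S ty y V) (i : Fin (S.k n)) (e : tv N = y n i)
    (le : Tk.Le (l n) H (ty n i) N (S.tk ty y n i))
    (lt : cg N < cg (S.tk ty y n i) ∨ cj N < cj (S.tk ty y n i)) : False := by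
  classical
  have key : ∀ P : (u : Fin (S.k n)) → List (Tok Γ a) → Prop, P i N → (∀ u, P u (S.tk ty y n u)) →
      ∀ u, P u (Function.update (S.tk ty y n) i N u) := fun P h1 h2 u => by
    by_cases k : u = i
    · rw [k, Function.update_self]; exact h1
    · rw [Function.update_of_ne k]; exact h2 u
  refine T.lexT (Function.update (S.tk ty y n) i N) ?_
    (key (fun u M => Tk.Le (l n) H (ty n u) M (S.tk ty y n u)) le (T.le_tk n)) ?_
  · rw [← T.top n]
    exact congrArg _ (funext (key (fun u M => tv M = y n u) e (T.ev_tk n)))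
  · refine lt.imp (fun h => ⟨i, by rwa [Function.update_self]⟩) fun h =>
      ⟨key (fun u M => cj M ≤ cj (S.tk ty y n u)) h.le fun _ => le_rfl, i, by rwa [Function.update_self]⟩

/-- no two neighbours have better words with the same product -/
theorem Tow.lex2 (T : Tow H X l S ty y V) {s t : Fin (S.k n)} (h : S.Adj n s β t)
    (e : tv N * β * tv N' = y n s * β * y n t)
    (le : Tk.Le (l n) H (ty n s) N (S.tk ty y n s)) (le' : Tk.Le (l n) H (ty n t) N' (S.tk ty y n t))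
    (c1 : cj N ≤ cj (S.tk ty y n s)) (c2 : cj N' ≤ cj (S.tk ty y n t))
    (lt : cj N < cj (S.tk ty y n s) ∨ cj N' < cj (S.tk ty y n t)) : False := by
  classical
  obtain ⟨ne, top⟩ := h.top
  set M := Function.update (Function.update (S.tk ty y n) s N) t N' with hM
  have m1 : M s = N := by rw [hM, Function.update_of_ne ne, Function.update_self]
  have m2 : M t = N' := by rw [hM, Function.update_self]
  have m3 : ∀ u, u ≠ s → u ≠ t → M u = S.tk ty y n u := fun u k k' => by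
    rw [hM, Function.update_of_ne k', Function.update_of_ne k]
  have key : ∀ P : (u : Fin (S.k n)) → List (Tok Γ a) → Prop, P s N → P t N' →
      (∀ u, P u (S.tk ty y n u)) → ∀ u, P u (M u) := fun P h1 h2 h3 u => by
    by_cases k : u = s
    · rw [k, m1]; exact h1
    by_cases k' : u = t
    · rw [k', m2]; exact h2
    · rw [m3 u k k']; exact h3 u
  refine T.lexT M ?_ (key (fun u M => Tk.Le (l n) H (ty n u) M (S.tk ty y n u)) le le' (T.le_tk n))
    (.inr ⟨key (fun u M => cj M ≤ cj (S.tk ty y n u)) c1 c2 fun _ => le_rfl,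
      lt.elim (fun h => ⟨s, by rwa [m1]⟩) fun h => ⟨t, by rwa [m2]⟩⟩)
  rw [← T.top n]
  exact top _ _ (fun u k k' => by rw [m3 u k k', T.ev_tk]) (by rw [m1, m2, e])

end Pool.Agent.P.MP_dba3d2_lc


end

section

/-! Words of the limit stage: consequences of minimality. -/

namespace Pool.Agent.P.MP_dba3d2_lc

open Filter Tk

variable {Γ : HG} {a : Amb} {H X W : Subgroup (MM Γ a)} {l : ℕ → a.K} {S : Shape Γ a}
  {ty : (n : ℕ) → Fin (S.k n) → Option (MM Γ a)} {y : (n : ℕ) → Fin (S.k n) → MM Γ a}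
  {V : (Fin (S.k 0) → MM Γ a) → Prop} {n : ℕ} {i : Fin (S.k n)} {β b c c' f x : MM Γ a} {μ : a.K}
  {R : List (Tok Γ a)} {L K L' : List (Fin (S.k (n + 1)) × MM Γ a)} {s t : Fin (S.k (n + 1))}

/-- displacement by an element of the elementary closure -/
theorem Prim.disp_ep (hE : S_ELEM) (hL : S_LINE) (pc : Prim c) (hf : f ∈ Ep c) (p : MM Γ a) :
    Ls (ds p (f * p)) (md f + ds p (c * p)) := by
  obtain ⟨x, hx⟩ := exists_md_ds c
  obtain ⟨k, hk⟩ := (hL Γ a c x pc.1 (Ls.of_le hx.le)).2.1 p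
  obtain ⟨j, hj⟩ := pc.2 f hf
  obtain ⟨h1, h2⟩ := p_E_SZ hE hL Γ a c f j pc.1 hf hj
  have h3 := (h2 (ipow c k * x)).2
  have e : ds (ipow c k * x) (c * (ipow c k * x)) = md c := by
    rw [← mul_assoc, (commute_ipow (Commute.refl c) k).eq, mul_assoc, ds_mul_left, hx]
  rw [e, add_mul, one_mul] at h3
  have l1 := le_add_of_nonneg_left (a := ds p (c * p)) (md_nonneg f)
  have l2 := le_add_of_nonneg_right (a := md f) (ds_nonneg p (c * p))
  exact Ls.mono_left (disp_le f p _) ((hk.mono_right l1).two.add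
    (h3.trans' ((h1.mono_right l2).add (Ls.of_le ((md_le_ds c p).trans l1)))))

theorem Tow.le_surg (T : Tow H X l S ty y V) (h : S.kids n i = L ++ K ++ L')
    (ok : ∀ p ∈ R, Ok (l n) H (ty n i) p) (one : ty n i ≠ none → cj R ≤ K.length)
    (hb : Ll (bl R - bl (tks (ty (n + 1)) (y (n + 1)) K)) (l n))
    (hc : cg R ≤ cg (tks (ty (n + 1)) (y (n + 1)) K)) :
    Tk.Le (l n) H (ty n i) ((none, S.h n i 0) :: (tks (ty (n + 1)) (y (n + 1)) L ++ R ++
      tks (ty (n + 1)) (y (n + 1)) L')) (S.tk ty y n i) := by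
  have k := T.le_tk n i
  rw [Shape.tk, h] at k ⊢
  refine ⟨fun p hp => ?_, fun e => le_trans ?_ (k.one e), Ll.mono_left (le_of_eq ?_) hb, by simpa using hc⟩
  · by_cases e : p ∈ R
    · exact ok p e
    · exact k.ok p (by simp only [List.mem_cons, List.mem_append, tks_append] at hp ⊢; tauto)
  · simpa [cj_tks] using one e
  · simp only [bl_none, bl_append, tks_append]
    ring

/-- no segment of the word of an entry can be improved -/
theorem Tow.surg (T : Tow H X l S ty y V) (h : S.kids n i = L ++ K ++ L')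
    (ok : ∀ p ∈ R, Ok (l n) H (ty n i) p) (one : ty n i ≠ none → cj R ≤ K.length)
    (hb : Ll (bl R - bl (tks (ty (n + 1)) (y (n + 1)) K)) (l n))
    (hc : cg R ≤ cg (tks (ty (n + 1)) (y (n + 1)) K))
    (e : tv R = tv (tks (ty (n + 1)) (y (n + 1)) K))
    (lt : cg R < cg (tks (ty (n + 1)) (y (n + 1)) K) ∨ cj R < K.length) : False := by
  refine T.lex1 i ?_ (T.le_surg h ok one hb hc) ?_
  · rw [← T.ev_tk, Shape.tk, h]
    simp [e]
  · rw [Shape.tk, h]
    simpa [cj_tks] using lt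

theorem Tow.ok_kid (T : Tow H X l S ty y V) {p : Fin (S.k (n + 1)) × MM Γ a} (h : p ∈ S.kids n i) :
    Ok (l n) H (ty n i) (some (ty (n + 1) p.1), y (n + 1) p.1) ∧ Ok (l n) H (ty n i) (none, p.2) :=
  ⟨T.ok_tk n i _ (List.mem_cons_of_mem _ (List.mem_flatMap.2 ⟨p, h, by simp⟩)),
    T.ok_tk n i _ (List.mem_cons_of_mem _ (List.mem_flatMap.2 ⟨p, h, by simp⟩))⟩

theorem Shape.split (S : Shape Γ a) (n : ℕ) (t : Fin (S.k (n + 1))) :
    ∃ β, ∃ L L' : List _, S.kids n (S.par n t) = L ++ [(t, β)] ++ L' := by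
  obtain ⟨β, h⟩ := S.kids_par n t
  obtain ⟨L, L', e⟩ := List.append_of_mem h
  exact ⟨β, L, L', by simpa using e⟩

/-- F2: no variable lies in `H` -/
theorem Tow.not_mem (T : Tow H X l S ty y V) (t : Fin (S.k (n + 1))) : y (n + 1) t ∉ H := by
  intro e
  obtain ⟨β, L, L', h⟩ := S.split n t
  obtain ⟨k1, k2⟩ := T.ok_kid (i := S.par n t) (p := (t, β)) (by simp [h])
  exact T.surg (R := [(none, y (n + 1) t), (none, β)]) h
    (by simpa using ⟨⟨e, k1.2.2.1.ls, k1.has⟩, k2⟩) (by simp) (by simpa using k1.2.2.1) (by simp)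
    (by simp) (by simp)

theorem Tow.mem_W (T : Tow H X l S ty y V) (t : Fin (S.k (n + 1))) :
    y (n + 1) t ∈ X ⊓ tiny Γ (l n) := ⟨T.mem _ t, (mem_tiny (T.pos n).le).2 (T.var t).2.2⟩

theorem Tk.of_hatM (hH : GC0 H) (h0 : 0 ≤ μ) (hW : W ≤ tiny Γ μ) (hx : x ∈ hatM H W) :
    ∃ R : List (Tok Γ a), tv R = x ∧ (∀ p ∈ R, Ok μ H none p) ∧ Ll (bl R) μ ∧ cg R = 0 := by
  have tn : ∀ {g}, g ∈ W → Ll (ln g) μ := fun h => (mem_tiny h0).1 (hW h)
  have no : ∀ g : MM Γ a, HasT none g := fun _ _ h => by cases h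
  have gen : ∀ g ∈ ((H ⊓ W : Subgroup (MM Γ a)) : Set (MM Γ a)) ∪
      {f | f ∈ W ∧ ∃ c ∈ H ⊓ W, Prim c ∧ f ∈ Ep c},
      ∃ R : List (Tok Γ a), tv R = g ∧ (∀ p ∈ R, Ok μ H none p) ∧ Ll (bl R) μ ∧ cg R = 0 := by
    rintro g (hg | ⟨h1, c, hc, pc, h2⟩)
    · exact ⟨[(none, g)], by simp, by simpa using ⟨hg.1, (tn hg.2).ls, no _⟩,
        by simpa using tn hg.2, by simp⟩
    obtain ⟨x, x1, x2, x3⟩ := hH.cen1 hc.1 pc.1
    have x4 := Ll.ls_left x2 (tn hc.2)
    have x5 : Ll (ln x⁻¹) μ := by rwa [ln_inv]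
    refine ⟨[(none, x), (some (some (x⁻¹ * c * x)), x⁻¹ * g * x), (none, x⁻¹)], by simp [mul_assoc],
      ?_, by simpa using x4.add x4, by simp [cg_some]⟩
    simp only [List.forall_mem_cons, List.not_mem_nil, false_imp_iff, implies_true, and_true]
    refine ⟨⟨x1, x4.ls, no _⟩, ⟨?_, ?_, ?_, fun _ h => by cases h⟩, inv_mem x1, x5.ls, no _⟩
    · rintro _ ⟨rfl⟩
      exact ⟨mul_mem (mul_mem (inv_mem x1) hc.1) x1, pc.conj' x, x3⟩
    · rintro _ ⟨rfl⟩
      exact mem_Ep_conj'.2 (by simpa [mul_assoc] using h2)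
    · exact (mem_tiny h0).1 (mul_mem (mul_mem ((mem_tiny h0).2 x5) (hW h1)) ((mem_tiny h0).2 x4))
  rw [hatM, expW, ← Subgroup.closure_eq (H ⊓ W), ← Subgroup.closure_union] at hx
  simp only [Subgroup.closure_eq] at hx
  induction hx using Subgroup.closure_induction'' with
  | mem g hg => exact gen g hg
  | inv_mem g hg =>
    exact gen _ (hg.imp inv_mem fun ⟨h1, c, hc, pc, h2⟩ => ⟨inv_mem h1, c, hc, pc, inv_mem h2⟩)
  | one => exact ⟨[], rfl, by simp, by simpa using Ll.zero h0, rfl⟩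
  | mul g g' _ _ k k' =>
    obtain ⟨R, rfl, k1, k2, k3⟩ := k
    obtain ⟨R', rfl, k1', k2', k3'⟩ := k'
    exact ⟨R ++ R', by simp, List.forall_mem_append.2 ⟨k1, k1'⟩, by simpa using k2.add k2',
      by simp [k3, k3']⟩

/-- F1: a general variable is not a product of exponents -/
theorem Tow.not_hatM (T : Tow H X l S ty y V) (ht : ty (n + 1) t = none) :
    y (n + 1) t ∉ hatM H (X ⊓ tiny Γ (l n)) := by
  intro e
  obtain ⟨R, r1, r2, r3, r4⟩ := Tk.of_hatM T.gh.toGC0 (T.pos n).le inf_le_right e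
  obtain ⟨β, L, L', h⟩ := S.split n t
  have m : (t, β) ∈ S.kids n (S.par n t) := by simp [h]
  have k := T.par_none m ht
  exact T.surg (R := R ++ [(none, β)]) h
    (List.forall_mem_append.2 ⟨k ▸ r2, by simpa using (T.ok_kid m).2⟩) (by simp [k])
    (by simpa using r3) (by simp [r4]) (by simp [r1]) (by simp [r4, cg_some, ht])

/-- the type of a variable is not longer than the variable -/
theorem Tow.ty_le (T : Tow H X l S ty y V) (hE : S_ELEM) (hL : S_LINE) (hR : S_ROOT)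
    (ht : ty (n + 1) t = some c) : Ls (ln c) (ln (y (n + 1) t)) := by
  obtain ⟨h1, h2, -⟩ := (T.var t).1 c ht
  have h3 := (T.var t).2.1 c ht
  simpa using h2.disp hE hL h3
    (fun e => T.not_mem t ((hR Γ a H T.gh.toGC0).2.2.1 c h1 h2.1 _ h3 e)) 1

theorem Tow.ty_ll (T : Tow H X l S ty y V) (hE : S_ELEM) (hL : S_LINE) (hR : S_ROOT)
    (ht : ty (n + 1) t = some c) : Ll (ln c) (l n) := Ll.ls_left (T.ty_le hE hL hR ht) (T.var t).2.2

theorem Tow.exp_mem (T : Tow H X l S ty y V) (hE : S_ELEM) (hL : S_LINE) (hR : S_ROOT)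
    (ht : ty (n + 1) t ≠ none) : y (n + 1) t ∈ expW H (X ⊓ tiny Γ (l n)) := by
  obtain ⟨c, e⟩ := Option.ne_none_iff_exists'.1 ht
  obtain ⟨h1, h2, -⟩ := (T.var t).1 c e
  exact Subgroup.subset_closure ⟨T.mem_W t, c,
    ⟨h1, T.le h1, (mem_tiny (T.pos n).le).2 (T.ty_ll hE hL hR e)⟩, h2, (T.var t).2.1 c e⟩

theorem Tow.kids_ne (T : Tow H X l S ty y V) (t : Fin (S.k (n + 1))) : S.kids (n + 1) t ≠ [] :=
  fun e => T.not_mem t (by rw [T.eq, e]; simpa using (T.h0 _ t).1)

/-- a general variable has a general child -/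
theorem Tow.gen_kid (T : Tow H X l S ty y V) (hE : S_ELEM) (hL : S_LINE) (hR : S_ROOT)
    (ht : ty (n + 1) t = none) : ∃ p ∈ S.kids (n + 1) t, ty (n + 2) p.1 = none := by
  by_contra k
  push Not at k
  have h0 := (T.pos n).le
  have d := T.desc.ll n
  have m : ∀ {g}, g ∈ H ∧ Ls (ln g) (l (n + 1)) → g ∈ hatM H (X ⊓ tiny Γ (l n)) := fun h =>
    Subgroup.mem_sup_left ⟨h.1, T.le h.1, (mem_tiny h0).2 (Ll.ls_left h.2 d)⟩
  refine T.not_hatM ht ?_
  rw [T.eq]
  refine mul_mem (m (T.h0 _ t)) (list_prod_mem fun x hx => ?_)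
  obtain ⟨p, hp, rfl⟩ := List.mem_map.1 hx
  refine mul_mem (Subgroup.mem_sup_right ?_) (m (T.kid hp))
  obtain ⟨c, e⟩ := Option.ne_none_iff_exists'.1 (k p hp)
  obtain ⟨h1, h2, -⟩ := (T.var p.1).1 c e
  exact Subgroup.subset_closure ⟨⟨T.mem _ _, (mem_tiny h0).2 (Ll.ls_left (T.var _).2.2.ls d)⟩, c,
    ⟨h1, T.le h1, (mem_tiny h0).2 (Ll.ls_left (T.ty_ll hE hL hR e).ls d)⟩, h2, (T.var _).2.1 c e⟩

/-- the flattened word of level `n` -/
theorem Tow.flat (T : Tow H X l S ty y V) (i : Fin (S.k 0)) : ∀ n, ∃ b ∈ H,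
    ∃ L : List (Fin (S.k n) × MM Γ a), (∀ p ∈ L, p.2 ∈ H) ∧
      L.IsChain (fun p q => S.Adj n p.1 p.2 q.1) ∧
      ∀ (G : Type) [Group G] (j : MM Γ a →* G) (F : Fin (S.k n) → G),
        S.topG j n F i = j b * (L.map fun p => F p.1 * j p.2).prod
  | 0 => ⟨1, H.one_mem, [(i, 1)], by simp, .singleton _, fun G _ j F => by simp [Shape.topG]⟩
  | 1 => ⟨_, (T.h0 0 i).1, S.kids 0 i, fun p hp => (T.kid hp).1, S.kids_chain 0 i,
      fun G _ j F => S.upG_eq j 0 F i⟩
  | n + 2 => by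
    obtain ⟨b, hb, L, h1, h2, h3⟩ := Tow.flat T i (n + 1)
    obtain ⟨b', hb', L', k1, k2, -, k3⟩ := T.subst T.kids_ne L h1 h2
    exact ⟨b * b', mul_mem hb hb', L', k1, k2, fun G _ j F => by
      rw [Shape.topG, h3, k3, map_mul, mul_assoc]⟩

theorem Tk.Ok.mul {τ σ : Option (MM Γ a)} {z : MM Γ a} (h : Ok μ H τ (some σ, x)) (h1 : HasT σ z)
    (h2 : Ll (ln z) μ) : Ok μ H τ (some σ, x * z) ∧ Ok μ H τ (some σ, z * x) :=
  ⟨⟨h.1, fun c e => mul_mem (h.2.1 c e) (h1 c e), Ll.mono_left (ln_mul_le _ _) (h.2.2.1.add h2), h.2.2.2⟩,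
    h.1, fun c e => mul_mem (h1 c e) (h.2.1 c e), Ll.mono_left (ln_mul_le _ _) (h2.add h.2.2.1), h.2.2.2⟩

/-- a variable does not slide into its right neighbour -/
theorem Tow.slideR (T : Tow H X l S ty y V) (h : S.Adj (n + 1) s β t)
    (h1 : Ll (ln (β⁻¹ * y (n + 1) s * β)) (l n)) (h2 : HasT (ty (n + 1) t) (β⁻¹ * y (n + 1) s * β)) :
    False := by
  have z := Ll.zero (T.pos n).le
  rcases h with ⟨i, β', L, L', h⟩ | ⟨s', β', t', β1, β2, L, L', h, e1, e2, e⟩
  · have k1 := T.ok_kid (i := i) (p := (s, β)) (by simp [h])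
    have k2 := T.ok_kid (i := i) (p := (t, β')) (by simp [h])
    exact T.surg (i := i) (L := L) (K := [(s, β), (t, β')]) (L' := L') (R := [(none, β),
      (some (ty (n + 1) t), β⁻¹ * y (n + 1) s * β * y (n + 1) t), (none, β')]) (by simpa using h)
      (by simpa using ⟨k1.2, (k2.1.mul h2 h1).2, k2.2⟩) (by simp) (by simpa using z)
      (by simp [cg_some]) (by simp [mul_assoc]) (by simp)
  · have k1 := T.ok_kid (i := s') (p := (s, β1)) (by simp [e1])
    have k2 := T.ok_kid (i := t') (p := (t, β2)) (by simp [e2])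
    refine T.lex2 h ?_ (T.le_surg (L := L) (K := [(s, β1)]) (L' := []) (R := [(none, β1)])
        (by simpa using e1) (by simpa using k1.2) (by simp) (by simpa using z) (by simp))
      (T.le_surg (L := []) (K := [(t, β2)]) (L' := L')
        (R := [(some (ty (n + 1) t), β⁻¹ * y (n + 1) s * β * y (n + 1) t), (none, β2)])
        (by simpa using e2) (by simpa using ⟨(k2.1.mul h2 h1).2, k2.2⟩) (by simp) (by simpa using z)
        (by simp [cg_some])) (by simp [Shape.tk, e1]) (by simp [Shape.tk, e2])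
      (.inl (by simp [Shape.tk, e1]))
    rw [← T.ev_tk n s', ← T.ev_tk n t', Shape.tk, Shape.tk, e1, e2, e]
    simp [mul_assoc]

/-- a variable does not slide into its left neighbour -/
theorem Tow.slideL (T : Tow H X l S ty y V) (h : S.Adj (n + 1) s β t)
    (h1 : Ll (ln (β * y (n + 1) t * β⁻¹)) (l n)) (h2 : HasT (ty (n + 1) s) (β * y (n + 1) t * β⁻¹)) :
    False := by
  have z := Ll.zero (T.pos n).le
  rcases h with ⟨i, β', L, L', h⟩ | ⟨s', β', t', β1, β2, L, L', h, e1, e2, e⟩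
  · have k1 := T.ok_kid (i := i) (p := (s, β)) (by simp [h])
    have k2 := T.ok_kid (i := i) (p := (t, β')) (by simp [h])
    exact T.surg (i := i) (L := L) (K := [(s, β), (t, β')]) (L' := L') (R := [
      (some (ty (n + 1) s), y (n + 1) s * (β * y (n + 1) t * β⁻¹)), (none, β), (none, β')])
      (by simpa using h) (by simpa using ⟨(k1.1.mul h2 h1).1, k1.2, k2.2⟩) (by simp)
      (by simpa using z) (by simp [cg_some]) (by simp [mul_assoc]) (by simp)
  · have k1 := T.ok_kid (i := s') (p := (s, β1)) (by simp [e1])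
    have k2 := T.ok_kid (i := t') (p := (t, β2)) (by simp [e2])
    refine T.lex2 h ?_ (T.le_surg (L := L) (K := [(s, β1)]) (L' := [])
        (R := [(some (ty (n + 1) s), y (n + 1) s * (β * y (n + 1) t * β⁻¹)), (none, β1)])
        (by simpa using e1) (by simpa using ⟨(k1.1.mul h2 h1).1, k1.2⟩) (by simp) (by simpa using z)
        (by simp [cg_some]))
      (T.le_surg (L := []) (K := [(t, β2)]) (L' := L') (R := [(none, β2)])
        (by simpa using e2) (by simpa using k2.2) (by simp) (by simpa using z) (by simp))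
      (by simp [Shape.tk, e1]) (by simp [Shape.tk, e2]) (.inr (by simp [Shape.tk, e2]))
    rw [← T.ev_tk n s', ← T.ev_tk n t', Shape.tk, Shape.tk, e1, e2, e]
    simp [mul_assoc]

end Pool.Agent.P.MP_dba3d2_lc


end

section

/-! Toolbox for words of letters: evaluation, replacement of variables, sliding. -/

namespace Pool.Agent.P.MP_dba3d2_lc.SW.T5

open Filter

variable {Γ : HG} {a : Amb} {H X : Subgroup (MM Γ a)} {l : ℕ → a.K} {μ : a.K} {n : ℕ}
  {L L' A B C D r r' : List (Lt Γ a)} {M M' N : List (NL Γ a)}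
  {x x' : Vr Γ a} {h c c' f : MM Γ a} {s : Lt Γ a} {τ : Option (MM Γ a)}

@[simp] theorem vL_inl : vL (.inl h : Lt Γ a) = h := rfl
@[simp] theorem vL_inr : vL (.inr x : Lt Γ a) = x.2 := rfl
@[simp] theorem lv_nil : lv ([] : List (Lt Γ a)) = 1 := rfl
@[simp] theorem lv_cons : lv (s :: L) = vL s * lv L := by simp [lv]
@[simp] theorem lv_append : lv (L ++ L') = lv L * lv L' := by simp [lv]
@[simp] theorem lc_nil : lc ([] : List (Lt Γ a)) = 0 := rfl
@[simp] theorem lc_inl : lc (.inl h :: L) = ln h + lc L := by simp [lc]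
@[simp] theorem lc_inr : lc (.inr x :: L) = lc L := by simp [lc]
@[simp] theorem lc_append : lc (L ++ L') = lc L + lc L' := by simp [lc]
@[simp] theorem cG_nil : cG ([] : List (Lt Γ a)) = 0 := rfl
@[simp] theorem cG_inl : cG (.inl h :: L) = cG L := by simp [cG, isG]
@[simp] theorem cG_none : cG (.inr (none, h) :: L) = cG L + 1 := by
  simp [cG, isG, List.countP_cons]
@[simp] theorem cG_some : cG (.inr (some c, h) :: L) = cG L := by simp [cG, isG]
theorem cG_inr : cG (.inr x :: L) = cG L + if x.1.isNone then 1 else 0 := by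
  simp [cG, isG, List.countP_cons]
@[simp] theorem cG_append : cG (L ++ L') = cG L + cG L' := by simp [cG]
@[simp] theorem cV_nil : cV ([] : List (Lt Γ a)) = 0 := rfl
@[simp] theorem cV_inl : cV (.inl h :: L) = cV L := by simp [cV]
@[simp] theorem cV_inr : cV (.inr x :: L) = cV L + 1 := by simp [cV, List.countP_cons]
@[simp] theorem cV_append : cV (L ++ L') = cV L + cV L' := by simp [cV]
@[simp] theorem fl_nil : flS ([] : List (NL Γ a)) = [] := rfl
@[simp] theorem fl_inl : flS (.inl h :: M) = .inl h :: flS M := rfl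
@[simp] theorem fl_inr : flS (.inr (x, D) :: M) = D ++ flS M := rfl
@[simp] theorem fl_append : flS (M ++ M') = flS M ++ flS M' := List.flatMap_append
@[simp] theorem nc_nil : nc ([] : List (NL Γ a)) = 0 := rfl
@[simp] theorem nc_inl : nc (.inl h :: M) = nc M := by simp [nc]
@[simp] theorem nc_inr : nc (.inr (x, D) :: M) = lc D + nc M := by simp [nc]
@[simp] theorem nc_append : nc (M ++ M') = nc M + nc M' := by simp [nc]
@[simp] theorem tp_inl : tp (.inl h : NL Γ a) = .inl h := rfl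
@[simp] theorem tp_inr : tp (.inr (x, D) : NL Γ a) = .inr x := rfl

theorem lv_mem {P : Subgroup (MM Γ a)} (k : ∀ s ∈ L, vL s ∈ P) : lv L ∈ P :=
  list_prod_mem fun _ hx => by
    obtain ⟨s, hs, rfl⟩ := List.mem_map.1 hx
    exact k s hs

theorem lok_ls (k : LOk μ H s) : Ls (ln (vL s)) μ := by
  cases s
  exacts [k.2, k.2.2.ls]

theorem ls_lv (h0 : 0 ≤ μ) (k : ∀ s ∈ L, LOk μ H s) : Ls (ln (lv L)) μ :=
  (mem_ball h0).1 (lv_mem fun s hs => (mem_ball h0).2 (lok_ls (k s hs)))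

theorem ll_lc (h0 : 0 ≤ μ) (k : ∀ s ∈ L, Ll (ln (vL s)) μ) : Ll (lc L) μ := by
  induction L with
  | nil => exact Ll.zero h0
  | cons s L ih =>
    have e := ih fun t ht => k t (List.mem_cons_of_mem _ ht)
    cases s
    · simpa using (k _ List.mem_cons_self).add e
    · simpa using e

theorem lv_tp (k : ∀ s ∈ M, WD μ H s) : lv (M.map tp) = lv (flS M) := by
  induction M with
  | nil => rfl
  | cons s M ih =>
    have e := ih fun t ht => k t (List.mem_cons_of_mem _ ht)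
    obtain h | ⟨x, D⟩ := s
    · simp [e]
    · simp [e, (k _ List.mem_cons_self).1]

theorem mem_fl : s ∈ flS M ↔ (∃ h, s = .inl h ∧ .inl h ∈ M) ∨ ∃ x D, .inr (x, D) ∈ M ∧ s ∈ D := by
  simp [flS, ex, and_comm]

/-- the letters of an expansion of exponent type -/
theorem tyl_mem (k : TyL c D) (k' : ∀ s ∈ D, LOk μ H s) : ∀ s ∈ D, vL s ∈ Ep c := by
  rintro (h | x) hs
  exacts [k.2.1 h hs, (k' _ hs).2.1 c (k.2.2 x hs)]

/-- replacement of one variable -/
theorem repl (h0 : 0 ≤ μ) (hr : Rp μ H x r) : ∀ (M : List (NL Γ a)) (A : List (Lt Γ a)),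
    (∀ s ∈ M, WD μ H s) → flS M = A ++ .inr x :: B →
    ∃ M' : List (NL Γ a), (M'.map fun s => sk (tp s)) = M.map (fun s => sk (tp s)) ∧
      flS M' = A ++ r ++ B ∧ (∀ s ∈ M', WD μ H s) ∧ Ll (nc M' - nc M) μ
  | [], A, _, e => by simp at e
  | .inl h :: M, A, k, e => by
    obtain _ | ⟨s, A⟩ := A
    · simp at e
    rw [fl_inl, List.cons_append, List.cons.injEq] at e
    obtain ⟨M', e1, e2, e3, e4⟩ := repl h0 hr M A (fun t ht => k t (List.mem_cons_of_mem _ ht)) e.2
    exact ⟨.inl h :: M', by simp [e1], by simp [e2, e.1],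
      List.forall_mem_cons.2 ⟨k _ List.mem_cons_self, e3⟩, by simpa using e4⟩
  | .inr (z, D) :: M, A, k, e => by
    have k' := fun t ht => k t (List.mem_cons_of_mem _ ht)
    rw [fl_inr] at e
    have : (∃ A', A = D ++ A' ∧ flS M = A' ++ .inr x :: B) ∨ ∃ B', D = A ++ .inr x :: B' ∧ B = B' ++ flS M := by
      rcases List.append_eq_append_iff.1 e with e | ⟨_ | ⟨s, B'⟩, e1, e2⟩
      · exact .inl e
      · exact .inl ⟨[], by simpa using e1.symm, e2.symm⟩
      · rw [List.cons_append, List.cons.injEq] at e2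
        exact .inr ⟨B', e2.1 ▸ e1, e2.2⟩
    rcases this with ⟨A', rfl, e'⟩ | ⟨B', rfl, rfl⟩
    · obtain ⟨M', e1, e2, e3, e4⟩ := repl h0 hr M A' k' e'
      exact ⟨.inr (z, D) :: M', by simp [e1], by simp [e2],
        List.forall_mem_cons.2 ⟨k _ List.mem_cons_self, e3⟩, by simpa using e4⟩
    · obtain ⟨-, w2, w3⟩ := k _ List.mem_cons_self
      refine ⟨.inr ((z.1, lv (A ++ r ++ B')), A ++ r ++ B') :: M, rfl, by simp,
        List.forall_mem_cons.2 ⟨⟨rfl, fun s hs => ?_, fun c e => ?_⟩, k'⟩, ?_⟩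
      · by_cases e : s ∈ r
        · exact (hr.1 s e).1
        · exact w2 s (by simp only [List.mem_cons, List.mem_append] at hs ⊢; tauto)
      · obtain ⟨t1, t2, t3⟩ := w3 c e
        obtain ⟨u1, u2, u3⟩ := hr.2 c (t3 x (by simp))
        simp only [cV_append, cV_inr] at t1
        refine ⟨by simp only [cV_append]; omega, fun h hs => ?_, fun h hs => ?_⟩
        · by_cases e : .inl h ∈ r
          · exact u2 h e
          · exact t2 h (by simp only [List.mem_cons, List.mem_append] at hs ⊢; tauto)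
        · by_cases e : .inr h ∈ r
          · exact u3 h e
          · exact t3 h (by simp only [List.mem_cons, List.mem_append] at hs ⊢; tauto)
      · refine Ll.mono_left (le_of_eq ?_) (ll_lc h0 fun s hs => (hr.1 s hs).2)
        simp only [nc_inr, lc_append, lc_inr]
        ring

theorem var (wd : ∀ s ∈ N, WD μ H s) (hx : .inr x ∈ flS N) :
    TyOk H x.1 ∧ HasT x.1 x.2 ∧ Ll (ln x.2) μ := by
  obtain ⟨h, e, -⟩ | ⟨z, D, e, e'⟩ := mem_fl.1 hx
  · cases e
  · exact (wd _ e).2.1 _ e'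

theorem con (wd : ∀ s ∈ N, WD μ H s) (hx : .inl h ∈ flS N) : h ∈ H := by
  obtain ⟨h, ⟨rfl⟩, e⟩ | ⟨z, D, e, e'⟩ := mem_fl.1 hx
  · exact wd _ e
  · exact ((wd _ e).2.1 _ e').1

/-- one variable cannot be replaced by a better word -/
theorem opt1 (wd : ∀ s ∈ N, WD μ H s) (op : Opt H μ N) (h0 : 0 ≤ μ) (hx : .inr x ∈ flS N) (hr : Rp μ H x r)
    (e : lv r = x.2) : cG [.inr x] < cG r ∨ (cG [.inr x] = cG r ∧ 1 ≤ cV r) := by
  obtain ⟨A, B, k⟩ := List.append_of_mem hx
  obtain ⟨M', e1, e2, e3, e4⟩ := repl h0 hr _ A wd k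
  have := op M' e1 (by simp [e2, k, e]) e3 e4
  rw [e2, k, show A ++ .inr x :: B = A ++ [.inr x] ++ B by simp] at this
  simp only [cG_append, cV_append, cV_inr, cV_nil] at this
  omega

/-- two variables cannot be replaced by better words -/
theorem opt2 (wd : ∀ s ∈ N, WD μ H s) (op : Opt H μ N) (h0 : 0 ≤ μ)
    (k : flS N = A ++ .inr x :: C ++ .inr x' :: B) (hr : Rp μ H x r)
    (hr' : Rp μ H x' r') (e : lv r * lv C * lv r' = x.2 * lv C * x'.2) :
    cG [.inr x] + cG [.inr x'] < cG r + cG r' ∨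
      (cG [.inr x] + cG [.inr x'] = cG r + cG r' ∧ 2 ≤ cV r + cV r') := by
  obtain ⟨M', e1, e2, e3, e4⟩ := repl h0 hr' _ _ wd k
  obtain ⟨M'', f1, f2, f3, f4⟩ := repl (B := C ++ r' ++ B) h0 hr _ A e3 (by simp [e2])
  have := op M'' (f1.trans e1) (by
      have := congrArg (fun w => lv A * w * lv B) e
      simpa [f2, k, mul_assoc] using this) f3 (Ll.mono_left (le_of_eq (by ring)) (f4.add e4))
  rw [f2, k, show A ++ .inr x :: C ++ .inr x' :: B = A ++ [.inr x] ++ C ++ [.inr x'] ++ B by simp] at this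
  simp only [cG_append, cV_append, cV_inr, cV_nil] at this
  omega

theorem rep_nil : Rp μ H x [] := ⟨by simp, fun _ _ => ⟨by simp, by simp, by simp⟩⟩

theorem rep_one (h1 : TyOk H x.1) (h2 : HasT x.1 f) (h3 : Ll (ln f) μ) : Rp μ H x [.inr (x.1, f)] :=
  ⟨by simpa using ⟨⟨h1, h2, h3⟩, h3⟩, fun c e => ⟨by simp, by simp, by simpa using e⟩⟩

/-- a variable does not slide into a variable on its left -/
theorem slideL (wd : ∀ s ∈ N, WD μ H s) (op : Opt H μ N) (k : flS N = A ++ .inr x :: C ++ .inr x' :: B)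
    (h1 : Ll (ln (lv C * x'.2 * (lv C)⁻¹)) μ) (h2 : HasT x.1 (lv C * x'.2 * (lv C)⁻¹)) : False := by
  obtain ⟨u1, u2, u3⟩ := var wd (x := x) (by simp [k])
  have := opt2 wd op h1.nonneg k (rep_one u1 (fun c e => mul_mem (u2 c e) (h2 c e))
    (Ll.mono_left (ln_mul_le _ _) (u3.add h1))) rep_nil (by simp [mul_assoc])
  simp only [cG_inr, cG_nil, cV_inr, cV_nil] at this
  omega

/-- a variable does not slide into a variable on its right -/
theorem slideR (wd : ∀ s ∈ N, WD μ H s) (op : Opt H μ N) (k : flS N = A ++ .inr x :: C ++ .inr x' :: B)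
    (h1 : Ll (ln ((lv C)⁻¹ * x.2 * lv C)) μ) (h2 : HasT x'.1 ((lv C)⁻¹ * x.2 * lv C)) : False := by
  obtain ⟨u1, u2, u3⟩ := var wd (x := x') (by simp [k])
  have := opt2 wd op h1.nonneg k rep_nil (rep_one u1 (fun c e => mul_mem (h2 c e) (u2 c e))
    (Ll.mono_left (ln_mul_le _ _) (h1.add u3))) (by simp [mul_assoc])
  simp only [cG_inr, cG_nil, cV_inr, cV_nil] at this
  omega

theorem hasT_none (g : MM Γ a) : HasT none g := fun _ h => by cases h

/-- no variable lies in `H` -/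
theorem not_mem (wd : ∀ s ∈ N, WD μ H s) (op : Opt H μ N) (hx : .inr x ∈ flS N) : x.2 ∉ H := by
  intro e
  obtain ⟨-, u2, u3⟩ := var wd hx
  have := opt1 wd op u3.nonneg hx (r := [.inl x.2]) ⟨by simpa using ⟨⟨e, u3.ls⟩, u3⟩,
    fun c k => ⟨by simp, by simpa using u2 c k, by simp⟩⟩ (by simp)
  simp at this

theorem of_hatM {W : Subgroup (MM Γ a)} (hH : GC0 H) (h0 : 0 ≤ μ) (hW : W ≤ tiny Γ μ)
    (hx : f ∈ hatM H W) :
    ∃ r : List (Lt Γ a), lv r = f ∧ (∀ s ∈ r, LOk μ H s ∧ Ll (ln (vL s)) μ) ∧ cG r = 0 := by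
  have tn : ∀ {g}, g ∈ W → Ll (ln g) μ := fun h => (mem_tiny h0).1 (hW h)
  have gen : ∀ g ∈ ((H ⊓ W : Subgroup (MM Γ a)) : Set (MM Γ a)) ∪
      {f | f ∈ W ∧ ∃ c ∈ H ⊓ W, Prim c ∧ f ∈ Ep c},
      ∃ r : List (Lt Γ a), lv r = g ∧ (∀ s ∈ r, LOk μ H s ∧ Ll (ln (vL s)) μ) ∧ cG r = 0 := by
    rintro g (hg | ⟨h1, c, hc, pc, h2⟩)
    · exact ⟨[.inl g], by simp, by simpa using ⟨⟨hg.1, (tn hg.2).ls⟩, tn hg.2⟩, by simp⟩
    obtain ⟨x, x1, x2, x3⟩ := hH.cen1 hc.1 pc.1
    have x4 := Ll.ls_left x2 (tn hc.2)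
    have x5 : Ll (ln x⁻¹) μ := by rwa [ln_inv]
    have x6 := (mem_tiny h0).1 (mul_mem (mul_mem ((mem_tiny h0).2 x5) (hW h1)) ((mem_tiny h0).2 x4))
    refine ⟨[.inl x, .inr (some (x⁻¹ * c * x), x⁻¹ * g * x), .inl x⁻¹], by simp [mul_assoc],
      ?_, by simp⟩
    simp only [List.forall_mem_cons, List.not_mem_nil, false_imp_iff, implies_true, and_true]
    refine ⟨⟨⟨x1, x4.ls⟩, x4⟩, ⟨⟨?_, ?_, x6⟩, x6⟩, ⟨inv_mem x1, x5.ls⟩, x5⟩
    · rintro _ ⟨rfl⟩
      exact ⟨mul_mem (mul_mem (inv_mem x1) hc.1) x1, pc.conj' x, x3⟩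
    · rintro _ ⟨rfl⟩
      exact mem_Ep_conj'.2 (by simpa [mul_assoc] using h2)
  rw [hatM, expW, ← Subgroup.closure_eq (H ⊓ W), ← Subgroup.closure_union] at hx
  simp only [Subgroup.closure_eq] at hx
  induction hx using Subgroup.closure_induction'' with
  | mem g hg => exact gen g hg
  | inv_mem g hg =>
    exact gen _ (hg.imp inv_mem fun ⟨h1, c, hc, pc, h2⟩ => ⟨inv_mem h1, c, hc, pc, inv_mem h2⟩)
  | one => exact ⟨[], rfl, by simp, rfl⟩
  | mul g g' _ _ k k' =>
    obtain ⟨R, rfl, k1, k3⟩ := k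
    obtain ⟨R', rfl, k1', k3'⟩ := k'
    exact ⟨R ++ R', by simp, List.forall_mem_append.2 ⟨k1, k1'⟩, by simp [k3, k3']⟩

/-- a general variable is not a product of small exponents -/
theorem not_hatM (wd : ∀ s ∈ N, WD μ H s) (op : Opt H μ N) (hH : GC0 H) (hx : .inr (none, f) ∈ flS N) :
    f ∉ hatM H (WW X μ) := by
  intro e
  have h0 := (var wd hx).2.2.nonneg
  obtain ⟨r, r1, r2, r3⟩ := of_hatM hH h0 inf_le_right e
  have := opt1 wd op h0 hx ⟨r2, fun c k => by cases k⟩ r1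
  simp [r3] at this

/-- the type of a variable is not longer than the variable -/
theorem ty_ll (wd : ∀ s ∈ N, WD μ H s) (op : Opt H μ N) (hE : S_ELEM) (hL : S_LINE) (hR : S_ROOT) (hH : GC0 H)
    (hx : .inr (some c, f) ∈ flS N) : Ll (ln c) μ := by
  obtain ⟨u1, u2, u3⟩ := var wd hx
  obtain ⟨h1, h2, -⟩ := u1 c rfl
  refine Ll.ls_left ?_ u3
  simpa using h2.disp hE hL (u2 c rfl)
    (fun e => not_mem wd op hx ((hR Γ a H hH).2.2.1 c h1 h2.1 _ (u2 c rfl) e)) 1

end Pool.Agent.P.MP_dba3d2_lc.SW.T5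


end
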