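import Pool.Agent.P.MP_dba3d2_lcM.Bb10
import Pool.Agent.P.MP_dba3d2_lcM.Fb36
import Pool.Agent.P.MP_dba3d2_lcM.Fb38
import Pool.Agent.P.MP_dba3d2_lcM.Fb39

section

/-! Toolbox for words of letters: woven lists and the words of a shape. -/

namespace Pool.Agent.P.MP_dba3d2_lc.SW.T5

open Filter

section lists
variable {α β α' β' γ : Type}

theorem wl_map (f : α → α') (g : β → β') : ∀ (r : ℕ) (h : Fin (r + 1) → α) (z : Fin r → β),
    (wl r h z).map (Sum.map f g) = wl r (fun i => f (h i)) fun i => g (z i)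
  | 0, _, _ => rfl
  | r + 1, h, z => by rw [wl, wl, List.map_cons, List.map_cons, wl_map f g r]; rfl

theorem wl_prod {G : Type} [Group G] (f : α → G) (g : β → G) :
    ∀ (r : ℕ) (h : Fin (r + 1) → α) (z : Fin r → β),
    ((wl r h z).map (Sum.elim f g)).prod = weave r (fun i => f (h i)) fun i => g (z i)
  | 0, _, _ => by simp [wl, weave]
  | r + 1, h, z => by
    rw [wl, weave, List.map_cons, List.map_cons, List.prod_cons, List.prod_cons, wl_prod f g r,
      mul_assoc]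
    rfl

theorem wl_sum {A : Type} [AddCommMonoid A] (f : α → A) (g : β → A) :
    ∀ (r : ℕ) (h : Fin (r + 1) → α) (z : Fin r → β),
    ((wl r h z).map (Sum.elim f g)).sum = ∑ i, f (h i) + ∑ i, g (z i)
  | 0, _, _ => by simp [wl]
  | r + 1, h, z => by
    rw [wl, List.map_cons, List.map_cons, List.sum_cons, List.sum_cons, wl_sum f g r,
      Fin.sum_univ_succ fun i => f (h i), Fin.sum_univ_succ fun i => g (z i)]
    simp only [Sum.elim_inl, Sum.elim_inr, Fin.tail]
    abel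

theorem inl_wl {x : α} : ∀ {r : ℕ} {h : Fin (r + 1) → α} {z : Fin r → β},
    Sum.inl x ∈ wl r h z ↔ ∃ i, x = h i
  | 0, _, _ => by simp [wl]
  | r + 1, h, z => by
    rw [wl, List.mem_cons, List.mem_cons, inl_wl, Fin.exists_fin_succ (n := r + 1)]
    simp [Fin.tail]

theorem wl_right : ∀ (r : ℕ) (h : Fin (r + 1) → α) (z : Fin r → β),
    (wl r h z).filterMap Sum.getRight? = List.ofFn z
  | 0, _, _ => by simp [wl]
  | r + 1, h, z => by
    rw [wl, List.ofFn_succ, List.filterMap_cons, List.filterMap_cons, wl_right r]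
    rfl

theorem mem_right {x : β} {w : List (α ⊕ β)} : x ∈ w.filterMap Sum.getRight? ↔ Sum.inr x ∈ w := by
  simp

theorem inr_wl {x : β} {r : ℕ} {h : Fin (r + 1) → α} {z : Fin r → β} :
    Sum.inr x ∈ wl r h z ↔ ∃ i, x = z i := by
  rw [← mem_right, wl_right, List.mem_ofFn]
  simp only [eq_comm]

/-- a word with the same skeleton is a substitution -/
theorem extract {ι : Type} (π : β → γ) (τ : ι → γ) (d : ι → β) : ∀ (w : List (α ⊕ ι))
    (M : List (α ⊕ β)), (w.filterMap Sum.getRight?).Nodup →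
    M.map (Sum.map id π) = w.map (Sum.map id τ) →
    ∃ F : ι → β, M = w.map (Sum.map id F) ∧ (∀ t, Sum.inr t ∉ w → F t = d t) ∧
      ∀ t, Sum.inr t ∈ w → π (F t) = τ t
  | [], M, _, e => ⟨d, by simpa using e, fun _ _ => rfl, by simp⟩
  | _ :: _, [], _, e => by simp at e
  | .inl h :: w, s :: M, k, e => by
    rw [List.map_cons, List.map_cons, List.cons.injEq] at e
    obtain ⟨F, e1, e2, e3⟩ := extract π τ d w M k e.2
    obtain rfl : s = .inl h := by cases s <;> simp_all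
    exact ⟨F, by simp [e1], by simpa using e2, by simpa using e3⟩
  | .inr t :: w, s :: M, k, e => by
    classical
    rw [List.map_cons, List.map_cons, List.cons.injEq] at e
    have k' : Sum.inr t ∉ w ∧ (w.filterMap Sum.getRight?).Nodup := by simpa using k
    obtain ⟨F, e1, e2, e3⟩ := extract π τ d w M k'.2 e.2
    obtain ⟨b, rfl, hb⟩ : ∃ b, s = .inr b ∧ π b = τ t := by cases s <;> simp_all
    have ne : ∀ u, Sum.inr u ∈ w → u ≠ t := fun u hu e => k'.1 (e ▸ hu)
    refine ⟨Function.update F t b, ?_, fun u hu => ?_, fun u hu => ?_⟩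
    · rw [List.map_cons, Sum.map_inr, Function.update_self, e1]
      congr 1
      refine List.map_congr_left ?_
      rintro (h | u) hu
      · rfl
      · rw [Sum.map_inr, Sum.map_inr, Function.update_of_ne (ne u hu)]
    · rw [List.mem_cons, not_or] at hu
      rw [Function.update_of_ne (fun e => hu.1 (by rw [e])), e2 u hu.2]
    · rcases List.mem_cons.1 hu with ⟨⟨rfl⟩⟩ | hu
      · rw [Function.update_self, hb]
      · rw [Function.update_of_ne (ne u hu), e3 u hu]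

open Classical in
theorem sum_split {ι A : Type} [Fintype ι] [AddCommMonoid A] (g : ι → A) {w : List (α ⊕ ι)}
    (k : (w.filterMap Sum.getRight?).Nodup) : ∑ t, g t = (w.map (Sum.elim (fun _ => 0) g)).sum +
      ∑ t with Sum.inr t ∉ w, g t := by
  rw [← Finset.sum_filter_add_sum_filter_not Finset.univ (fun t => Sum.inr t ∈ w)]
  congr 1
  rw [show Finset.univ.filter (fun t => Sum.inr t ∈ w) = (w.filterMap Sum.getRight?).toFinset by
    ext; simp, List.sum_toFinset _ k]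
  clear k
  induction w with
  | nil => rfl
  | cons s w ih => cases s <;> simp [List.filterMap_cons, ih]

end lists

variable {Γ : HG} {a : Amb} {H : Subgroup (MM Γ a)} {μ : a.K} {L : List (Lt Γ a)} {r : ℕ}
  {h : Fin (r + 1) → MM Γ a} {z : Fin r → Vr Γ a}

theorem lv_wl : lv (wl r h z) = weave r h fun i => (z i).2 := wl_prod id Prod.snd r h z

theorem lc_wl : lc (wl r h z) = ∑ i, ln (h i) := by simpa [lc] using wl_sum ln (fun _ => 0) r h z

theorem cV_wl : ∀ {r : ℕ} {h : Fin (r + 1) → MM Γ a} {z : Fin r → Vr Γ a}, cV (wl r h z) = r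
  | 0, _, _ => by simp [wl]
  | r + 1, h, z => by rw [wl, cV_inl, cV_inr, cV_wl]

theorem cG_wl : ∀ {r : ℕ} {h : Fin (r + 1) → MM Γ a} {z : Fin r → Vr Γ a},
    cG (wl r h z) = nG fun i => (z i).1
  | 0, _, _ => by simp [wl, nG]
  | r + 1, h, z => by
    rw [wl, cG_inl, cG_inr, cG_wl, ← Tk.nG_cons]
    congr 1
    funext i
    exact Fin.cases rfl (fun _ => rfl) i

/-- a list of letters as a woven product -/
theorem to_weave (L : List (Lt Γ a)) : ∃ (r : ℕ) (h : Fin (r + 1) → MM Γ a) (z : Fin r → Vr Γ a),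
    r = cV L ∧ (nG fun i => (z i).1) = cG L ∧ lv L = weave r h (fun i => (z i).2) ∧
    ∑ j, ln (h j) ≤ lc L ∧
    (∀ P : Subgroup (MM Γ a), (∀ x, .inl x ∈ L → x ∈ P) → ∀ j, h j ∈ P) ∧ ∀ j, .inr (z j) ∈ L := by
  induction L with
  | nil => exact ⟨0, fun _ => 1, Fin.elim0, rfl, by simp [nG], rfl, by simp,
      fun P _ _ => P.one_mem, fun j => j.elim0⟩
  | cons s L ih =>
    obtain ⟨r, h, z, e1, e2, e3, e4, e5, e6⟩ := ih
    obtain x | x := s
    · refine ⟨r, Fin.cons (x * h 0) (Fin.tail h), z, by simpa using e1, by simpa using e2, ?_, ?_,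
        fun P hP j => ?_, fun j => List.mem_cons_of_mem _ (e6 j)⟩
      · rw [lv_cons, e3, weave_eq, weave_eq, ← mul_assoc]
        rfl
      · rw [Fin.sum_univ_succ] at e4 ⊢
        simp only [Fin.cons_zero, Fin.cons_succ, Fin.tail, lc_inl]
        linarith [ln_mul_le x (h 0)]
      · have k := e5 P fun x hx => hP x (List.mem_cons_of_mem _ hx)
        refine Fin.cases ?_ (fun j => k _) j
        exact mul_mem (hP x List.mem_cons_self) (k 0)
    · refine ⟨r + 1, Fin.cons 1 h, Fin.cons x z, by simpa using e1, ?_, ?_, ?_, fun P hP j => ?_,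
        fun j => ?_⟩
      · rw [cG_inr, ← e2, ← Tk.nG_cons]
        congr 1
        funext i
        exact Fin.cases rfl (fun _ => rfl) i
      · rw [lv_cons, e3, weave, Fin.cons_zero, one_mul]
        rfl
      · rw [Fin.sum_univ_succ]
        simpa using e4
      · exact Fin.cases P.one_mem (e5 P fun x hx => hP x (List.mem_cons_of_mem _ hx)) j
      · exact Fin.cases List.mem_cons_self (fun j => List.mem_cons_of_mem _ (e6 j)) j

theorem ln_lv (h0 : 0 ≤ μ) (k : ∀ s ∈ L, LOk μ H s) : Ll (ln (lv L) - lc L) μ := by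
  induction L with
  | nil => simpa using Ll.zero h0
  | cons s L ih =>
    have k1 := ih fun q hq => k q (List.mem_cons_of_mem _ hq)
    have k2 := k s List.mem_cons_self
    have e := ln_mul_le (vL s) (lv L)
    cases s
    · exact Ll.mono_left (by rw [lv_cons, lc_inl]; simp only [vL_inl] at e ⊢; linarith) k1
    · exact Ll.mono_left (by rw [lv_cons, lc_inr]; simp only [vL_inr] at e ⊢; linarith) (k1.add k2.2.2)

section subst
variable {ι : Type} (F : ι → Vr Γ a × List (Lt Γ a)) (w : List (MM Γ a ⊕ ι))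
theorem nc_subst : nc (w.map (Sum.map id F)) = (w.map (Sum.elim (fun _ => 0) fun t => lc (F t).2)).sum := by
  induction w with
  | nil => rfl
  | cons s w ih => cases s <;> simp [← ih, nc]
theorem cG_subst : cG (flS (w.map (Sum.map id F))) =
    (w.map (Sum.elim (fun _ => 0) fun t => cG (F t).2)).sum := by
  induction w with
  | nil => rfl
  | cons s w ih =>
    obtain x | t := s
    · simp [← ih]
    · rw [List.map_cons, List.map_cons, List.sum_cons, ← ih]
      exact cG_append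
theorem cV_subst : cV (flS (w.map (Sum.map id F))) =
    (w.map (Sum.elim (fun _ => 0) fun t => cV (F t).2)).sum := by
  induction w with
  | nil => rfl
  | cons s w ih =>
    obtain x | t := s
    · simp [← ih]
    · rw [List.map_cons, List.map_cons, List.sum_cons, ← ih]
      exact cV_append
end subst

variable {S : Shape Γ a} {n : ℕ} {i : Fin (S.k 0)}

theorem inr_fw {t : Fin (S.k (n + 1))} : Sum.inr t ∈ fw S (n + 1) i ↔ Sum.inr (S.par n t) ∈ fw S n i := by
  obtain ⟨⟨u, j⟩, rfl⟩ := (S.e n).surjective t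
  rw [fw, List.mem_flatMap, Shape.par, Equiv.symm_apply_apply]
  refine ⟨?_, fun k => ⟨_, k, inr_wl.2 ⟨j, rfl⟩⟩⟩
  rintro ⟨_ | v, k, e⟩
  · simp at e
  · obtain ⟨j', e⟩ := inr_wl.1 e
    obtain rfl : u = v := congrArg Sigma.fst ((S.e n).injective e)
    exact k

theorem inl_fw (k : ∀ n t j, S.h n t j ∈ H) {x : MM Γ a} : ∀ {n}, Sum.inl x ∈ fw S n i → x ∈ H
  | 0, e => by simp [fw] at e
  | n + 1, e => by
    obtain ⟨_ | v, k1, e⟩ := List.mem_flatMap.1 e
    · obtain rfl : x = _ := by simpa using e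
      exact inl_fw k k1
    · obtain ⟨j, rfl⟩ := inl_wl.1 e
      exact k _ _ _

end Pool.Agent.P.MP_dba3d2_lc.SW.T5


end

section

/-! Basic lemmas on words. -/

namespace Pool.Agent.P.MP_dba3d2_lc.SW

variable {Γ : HG} {a : Amb} {H X : Subgroup (MM Γ a)} {μ : a.K}
  {L L' A B D P β : List (Lt Γ a)} {N N' : List (NL Γ a)}

@[simp] theorem vL_inl (h : MM Γ a) : vL (Sum.inl h : Lt Γ a) = h := rfl
@[simp] theorem vL_inr (x : Vr Γ a) : vL (Sum.inr x : Lt Γ a) = x.2 := rfl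
@[simp] theorem lv_nil : lv ([] : List (Lt Γ a)) = 1 := rfl
@[simp] theorem lv_cons (x : Lt Γ a) (L : List (Lt Γ a)) : lv (x :: L) = vL x * lv L := by
  simp [lv]
@[simp] theorem lv_append (L L' : List (Lt Γ a)) : lv (L ++ L') = lv L * lv L' := by simp [lv]
@[simp] theorem lc_nil : lc ([] : List (Lt Γ a)) = 0 := rfl
@[simp] theorem lc_inl (h : MM Γ a) (L : List (Lt Γ a)) : lc (Sum.inl h :: L) = ln h + lc L := by
  simp [lc]
@[simp] theorem lc_inr (x : Vr Γ a) (L : List (Lt Γ a)) : lc (Sum.inr x :: L) = lc L := by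
  simp [lc]
@[simp] theorem lc_append (L L' : List (Lt Γ a)) : lc (L ++ L') = lc L + lc L' := by simp [lc]
theorem lc_nonneg : ∀ L : List (Lt Γ a), 0 ≤ lc L
  | [] => le_rfl
  | Sum.inl h :: L => by rw [lc_inl]; exact add_nonneg (ln_nonneg h) (lc_nonneg L)
  | Sum.inr x :: L => by rw [lc_inr]; exact lc_nonneg L
@[simp] theorem isG_inl (h : MM Γ a) : isG (Sum.inl h : Lt Γ a) = false := rfl
@[simp] theorem isG_none (v : MM Γ a) : isG (Sum.inr (none, v) : Lt Γ a) = true := rfl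
@[simp] theorem isG_some (c v : MM Γ a) : isG (Sum.inr (some c, v) : Lt Γ a) = false := rfl
@[simp] theorem cG_nil : cG ([] : List (Lt Γ a)) = 0 := rfl
@[simp] theorem cG_append (L L' : List (Lt Γ a)) : cG (L ++ L') = cG L + cG L' :=
  List.countP_append
@[simp] theorem cG_inl (h : MM Γ a) (L : List (Lt Γ a)) : cG (Sum.inl h :: L) = cG L := by
  simp [cG]
@[simp] theorem cG_none (v : MM Γ a) (L : List (Lt Γ a)) :
    cG (Sum.inr (none, v) :: L) = cG L + 1 := by simp [cG]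
@[simp] theorem cG_some (c v : MM Γ a) (L : List (Lt Γ a)) :
    cG (Sum.inr (some c, v) :: L) = cG L := by simp [cG]
@[simp] theorem cV_nil : cV ([] : List (Lt Γ a)) = 0 := rfl
@[simp] theorem cV_append (L L' : List (Lt Γ a)) : cV (L ++ L') = cV L + cV L' :=
  List.countP_append
@[simp] theorem cV_inl (h : MM Γ a) (L : List (Lt Γ a)) : cV (Sum.inl h :: L) = cV L := by
  simp [cV]
@[simp] theorem cV_inr (x : Vr Γ a) (L : List (Lt Γ a)) : cV (Sum.inr x :: L) = cV L + 1 := by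
  simp [cV]

@[simp] theorem noG_nil : NoG ([] : List (Lt Γ a)) := fun _ => List.not_mem_nil
@[simp] theorem noV_nil : NoV ([] : List (Lt Γ a)) := fun _ => List.not_mem_nil
@[simp] theorem noG_append : NoG (L ++ L') ↔ NoG L ∧ NoG L' := by
  simp [NoG, forall_and]
@[simp] theorem noV_append : NoV (L ++ L') ↔ NoV L ∧ NoV L' := by
  simp only [NoV, List.mem_append, not_or, forall_and]
@[simp] theorem noG_inl (h : MM Γ a) : NoG (Sum.inl h :: L) ↔ NoG L := by simp [NoG]
@[simp] theorem noG_some (c f : MM Γ a) : NoG (Sum.inr (some c, f) :: L) ↔ NoG L := by simp [NoG]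
@[simp] theorem noG_none (v : MM Γ a) : ¬ NoG (Sum.inr (none, v) :: L) :=
  fun h => h v List.mem_cons_self
@[simp] theorem noV_inl (h : MM Γ a) : NoV (Sum.inl h :: L) ↔ NoV L := by
  simp only [NoV, List.mem_cons, reduceCtorEq, false_or]
@[simp] theorem noV_inr (x : Vr Γ a) : ¬ NoV (Sum.inr x :: L) := fun h => h x List.mem_cons_self
theorem NoV.noG (h : NoV L) : NoG L := fun _ => h _
theorem noG_iff : ∀ {L : List (Lt Γ a)}, NoG L ↔ cG L = 0
  | [] => by simp
  | Sum.inl h :: L => by simpa using noG_iff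
  | Sum.inr (none, v) :: L => by simp
  | Sum.inr (some c, v) :: L => by simpa using noG_iff
theorem noV_iff : ∀ {L : List (Lt Γ a)}, NoV L ↔ cV L = 0
  | [] => by simp
  | Sum.inl h :: L => by simpa using noV_iff
  | Sum.inr x :: L => by simp
theorem cG_le_cV : ∀ L : List (Lt Γ a), cG L ≤ cV L
  | [] => le_rfl
  | Sum.inl h :: L => by simpa using cG_le_cV L
  | Sum.inr (none, v) :: L => by simpa using cG_le_cV L
  | Sum.inr (some c, v) :: L => by have := cG_le_cV L; simp; omega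

/-- split at the first general variable -/
theorem split_G : ∀ L : List (Lt Γ a),
    NoG L ∨ ∃ P v R, L = P ++ Sum.inr (none, v) :: R ∧ NoG P
  | [] => Or.inl noG_nil
  | Sum.inr (none, v) :: L => Or.inr ⟨[], v, L, rfl, noG_nil⟩
  | Sum.inl h :: L => (split_G L).imp (noG_inl h).2
      fun ⟨P, v, R, e, k⟩ => ⟨Sum.inl h :: P, v, R, by rw [e]; rfl, (noG_inl h).2 k⟩
  | Sum.inr (some c, f) :: L => (split_G L).imp (noG_some c f).2
      fun ⟨P, v, R, e, k⟩ => ⟨Sum.inr (some c, f) :: P, v, R, by rw [e]; rfl, (noG_some c f).2 k⟩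
/-- split at the first variable -/
theorem split_V : ∀ L : List (Lt Γ a), NoV L ∨ ∃ β x R, L = β ++ Sum.inr x :: R ∧ NoV β
  | [] => Or.inl noV_nil
  | Sum.inr x :: L => Or.inr ⟨[], x, L, rfl, noV_nil⟩
  | Sum.inl h :: L => (split_V L).imp (noV_inl h).2
      fun ⟨P, v, R, e, k⟩ => ⟨Sum.inl h :: P, v, R, by rw [e]; rfl, (noV_inl h).2 k⟩
/-- split a word without general variables at the first variable -/
theorem NoG.split (h : NoG L) :
    NoV L ∨ ∃ β c f R, L = β ++ Sum.inr (some c, f) :: R ∧ NoV β ∧ NoG R := by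
  rcases split_V L with k | ⟨β, ⟨_ | c, f⟩, R, rfl, k⟩
  · exact Or.inl k
  · exact absurd (noG_append.1 h).2 (noG_none f)
  · exact Or.inr ⟨β, c, f, R, rfl, k, (noG_some c f).1 (noG_append.1 h).2⟩

@[simp] theorem iL_inl (h : MM Γ a) : iL (Sum.inl h : Lt Γ a) = Sum.inl h⁻¹ := rfl
@[simp] theorem iL_inr (x : Vr Γ a) : iL (Sum.inr x : Lt Γ a) = Sum.inr (x.1, x.2⁻¹) := rfl
@[simp] theorem iL_iL : ∀ x : Lt Γ a, iL (iL x) = x
  | Sum.inl h => by simp
  | Sum.inr x => by simp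
@[simp] theorem vL_iL : ∀ x : Lt Γ a, vL (iL x) = (vL x)⁻¹
  | Sum.inl _ => rfl
  | Sum.inr _ => rfl
@[simp] theorem li_nil : li ([] : List (Lt Γ a)) = [] := rfl
@[simp] theorem li_cons (x : Lt Γ a) (L : List (Lt Γ a)) : li (x :: L) = li L ++ [iL x] := by
  simp [li]
@[simp] theorem li_append (L L' : List (Lt Γ a)) : li (L ++ L') = li L' ++ li L := by simp [li]
@[simp] theorem li_li (L : List (Lt Γ a)) : li (li L) = L := by
  simp [li, Function.comp_def]
theorem li_eq (h : li L = L') : L = li L' := by rw [← h, li_li]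
theorem mem_li {x : Lt Γ a} : x ∈ li L ↔ iL x ∈ L := by
  simp only [li, List.mem_reverse, List.mem_map]
  exact ⟨fun ⟨y, h, e⟩ => by rwa [← e, iL_iL], fun h => ⟨_, h, iL_iL x⟩⟩
@[simp] theorem lv_li : ∀ L : List (Lt Γ a), lv (li L) = (lv L)⁻¹
  | [] => inv_one.symm
  | x :: L => by simp [lv_li L]
@[simp] theorem lc_li : ∀ L : List (Lt Γ a), lc (li L) = lc L
  | [] => rfl
  | Sum.inl h :: L => by simp [lc_li L, ln_inv, add_comm]
  | Sum.inr x :: L => by simp [lc_li L]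
@[simp] theorem cG_li : ∀ L : List (Lt Γ a), cG (li L) = cG L
  | [] => rfl
  | Sum.inl h :: L => by simp [cG_li L]
  | Sum.inr (none, v) :: L => by simp [cG_li L]
  | Sum.inr (some c, v) :: L => by simp [cG_li L]
@[simp] theorem cV_li : ∀ L : List (Lt Γ a), cV (li L) = cV L
  | [] => rfl
  | Sum.inl h :: L => by simp [cV_li L]
  | Sum.inr x :: L => by simp [cV_li L]
@[simp] theorem noG_li : NoG (li L) ↔ NoG L := by rw [noG_iff, noG_iff, cG_li]
@[simp] theorem noV_li : NoV (li L) ↔ NoV L := by rw [noV_iff, noV_iff, cV_li]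
/-- split at the last general variable -/
theorem split_G' (L : List (Lt Γ a)) :
    NoG L ∨ ∃ A v P, L = A ++ Sum.inr (none, v) :: P ∧ NoG P :=
  (split_G (li L)).imp noG_li.1 fun ⟨P, v, R, e, k⟩ =>
    ⟨li R, v⁻¹, li P, by rw [li_eq e]; simp, noG_li.2 k⟩
/-- split at the last variable -/
theorem split_V' (L : List (Lt Γ a)) : NoV L ∨ ∃ A x β, L = A ++ Sum.inr x :: β ∧ NoV β :=
  (split_V (li L)).imp noV_li.1 fun ⟨P, x, R, e, k⟩ =>
    ⟨li R, (x.1, x.2⁻¹), li P, by rw [li_eq e]; simp, noV_li.2 k⟩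

@[simp] theorem ex_inl (h : MM Γ a) : ex (Sum.inl h : NL Γ a) = [Sum.inl h] := rfl
@[simp] theorem ex_inr (x : Vr Γ a × List (Lt Γ a)) : ex (Sum.inr x : NL Γ a) = x.2 := rfl
@[simp] theorem tp_inl (h : MM Γ a) : tp (Sum.inl h : NL Γ a) = Sum.inl h := rfl
@[simp] theorem tp_inr (x : Vr Γ a × List (Lt Γ a)) : tp (Sum.inr x : NL Γ a) = Sum.inr x.1 := rfl
@[simp] theorem fl_nil : flS ([] : List (NL Γ a)) = [] := rfl
@[simp] theorem fl_cons (s : NL Γ a) (N : List (NL Γ a)) : flS (s :: N) = ex s ++ flS N := by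
  simp [flS]
@[simp] theorem fl_append (N N' : List (NL Γ a)) : flS (N ++ N') = flS N ++ flS N' := by simp [flS]
theorem mem_fl {x : Lt Γ a} : x ∈ flS N ↔ ∃ s ∈ N, x ∈ ex s := List.mem_flatMap
@[simp] theorem nc_nil : nc ([] : List (NL Γ a)) = 0 := rfl
@[simp] theorem nc_inl (h : MM Γ a) (N : List (NL Γ a)) : nc (Sum.inl h :: N) = nc N := by
  simp [nc]
@[simp] theorem nc_inr (x : Vr Γ a × List (Lt Γ a)) (N : List (NL Γ a)) :
    nc (Sum.inr x :: N) = lc x.2 + nc N := by simp [nc]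
@[simp] theorem nc_append (N N' : List (NL Γ a)) : nc (N ++ N') = nc N + nc N' := by simp [nc]
@[simp] theorem iN_inl (h : MM Γ a) : iN (Sum.inl h : NL Γ a) = Sum.inl h⁻¹ := rfl
@[simp] theorem iN_inr (x : Vr Γ a × List (Lt Γ a)) :
    iN (Sum.inr x : NL Γ a) = Sum.inr ((x.1.1, x.1.2⁻¹), li x.2) := rfl
@[simp] theorem iN_iN : ∀ x : NL Γ a, iN (iN x) = x
  | Sum.inl h => by simp
  | Sum.inr x => by simp
@[simp] theorem ex_iN : ∀ x : NL Γ a, ex (iN x) = li (ex x)
  | Sum.inl _ => rfl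
  | Sum.inr _ => rfl
@[simp] theorem tp_iN : ∀ x : NL Γ a, tp (iN x) = iL (tp x)
  | Sum.inl _ => rfl
  | Sum.inr _ => rfl
@[simp] theorem ni_nil : ni ([] : List (NL Γ a)) = [] := rfl
@[simp] theorem ni_cons (x : NL Γ a) (N : List (NL Γ a)) : ni (x :: N) = ni N ++ [iN x] := by
  simp [ni]
@[simp] theorem ni_append (N N' : List (NL Γ a)) : ni (N ++ N') = ni N' ++ ni N := by simp [ni]
@[simp] theorem ni_ni (N : List (NL Γ a)) : ni (ni N) = N := by simp [ni, Function.comp_def]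
theorem ni_eq (h : ni N = N') : N = ni N' := by rw [← h, ni_ni]
theorem mem_ni {x : NL Γ a} : x ∈ ni N ↔ iN x ∈ N := by
  simp only [ni, List.mem_reverse, List.mem_map]
  exact ⟨fun ⟨y, h, e⟩ => by rwa [← e, iN_iN], fun h => ⟨_, h, iN_iN x⟩⟩
@[simp] theorem fl_ni : ∀ N : List (NL Γ a), flS (ni N) = li (flS N)
  | [] => rfl
  | s :: N => by simp [fl_ni N]
@[simp] theorem map_tp_ni : ∀ N : List (NL Γ a), (ni N).map tp = li (N.map tp)
  | [] => rfl
  | s :: N => by simp [map_tp_ni N]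
@[simp] theorem nc_ni : ∀ N : List (NL Γ a), nc (ni N) = nc N
  | [] => rfl
  | Sum.inl h :: N => by simp [nc_ni N]
  | Sum.inr x :: N => by simp [nc_ni N, add_comm]

/-- locate a variable of the expanded word -/
theorem fl_split1 {x : Vr Γ a} : ∀ {N : List (NL Γ a)} {C R : List (Lt Γ a)},
    flS N = C ++ Sum.inr x :: R → ∃ Nm e P B N3, N = Nm ++ Sum.inr (e, P ++ Sum.inr x :: B) :: N3 ∧
      C = flS Nm ++ P ∧ R = B ++ flS N3
  | [], C, R, h => by simp at h
  | s :: N, C, R, h => by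
    rw [fl_cons] at h
    have key : ∀ C', C = ex s ++ C' → flS N = C' ++ Sum.inr x :: R → ∃ Nm e P B N3,
        s :: N = Nm ++ Sum.inr (e, P ++ Sum.inr x :: B) :: N3 ∧ C = flS Nm ++ P ∧
          R = B ++ flS N3 := by
      intro C' e1 e2
      obtain ⟨Nm, e, P, B, N3, rfl, rfl, rfl⟩ := fl_split1 e2
      exact ⟨s :: Nm, e, P, B, N3, rfl, by rw [e1]; simp, rfl⟩
    rcases List.append_eq_append_iff.1 h with ⟨C', e1, e2⟩ | ⟨_ | ⟨y, B⟩, e1, e2⟩
    · exact key C' e1 e2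
    · exact key [] (by simpa using e1.symm) e2.symm
    · obtain ⟨rfl, rfl⟩ := List.cons.inj e2
      rcases s with g | ⟨e, D⟩
      · exact absurd (e1 ▸ List.mem_append_right C List.mem_cons_self :
          Sum.inr x ∈ ex (Sum.inl g : NL Γ a)) (by simp)
      · obtain rfl : D = _ := e1
        exact ⟨[], e, C, B, N, rfl, rfl, rfl⟩
/-- locate two variables of the expanded word -/
theorem fl_split2 {x x' : Vr Γ a} {C R : List (Lt Γ a)}
    (h : flS N = C ++ Sum.inr x :: P ++ Sum.inr x' :: R) :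
    (∃ N1 e A B N2, N = N1 ++ Sum.inr (e, A ++ Sum.inr x :: P ++ Sum.inr x' :: B) :: N2) ∨
    ∃ N1 e A P1 Nm e' P2 B N2, N = N1 ++ Sum.inr (e, A ++ Sum.inr x :: P1) :: Nm ++
      Sum.inr (e', P2 ++ Sum.inr x' :: B) :: N2 ∧ P = P1 ++ flS Nm ++ P2 := by
  rw [List.append_assoc, List.cons_append] at h
  obtain ⟨N1, e, A, B, N3, rfl, -, e2⟩ := fl_split1 h
  have key : ∀ C', P = B ++ C' → flS N3 = C' ++ Sum.inr x' :: R → ∃ N1' e0 A' P1 Nm e' P2 B' N2,
      N1 ++ Sum.inr (e, A ++ Sum.inr x :: B) :: N3 = N1' ++ Sum.inr (e0, A' ++ Sum.inr x :: P1) ::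
        Nm ++ Sum.inr (e', P2 ++ Sum.inr x' :: B') :: N2 ∧ P = P1 ++ flS Nm ++ P2 := by
    intro C' e1 e3
    obtain ⟨Nm, e', P2, B', N2, rfl, rfl, -⟩ := fl_split1 e3
    exact ⟨N1, e, A, B, Nm, e', P2, B', N2, by simp, by rw [e1]; simp⟩
  rcases List.append_eq_append_iff.1 e2.symm with ⟨C', e1, e3⟩ | ⟨_ | ⟨y, B'⟩, e1, e3⟩
  · exact Or.inr (key C' e1 e3)
  · exact Or.inr (key [] (by simpa using e1.symm) e3.symm)
  · obtain ⟨rfl, -⟩ := List.cons.inj e3
    exact Or.inl ⟨N1, e, A, B', N3, by rw [e1]; simp⟩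

theorem lv_mem (S : Subgroup (MM Γ a)) (h : ∀ x ∈ L, vL x ∈ S) : lv L ∈ S :=
  S.list_prod_mem fun _ k => by
    obtain ⟨x, k', rfl⟩ := List.mem_map.1 k
    exact h x k'
theorem ln_lv_ls (h0 : 0 ≤ μ) : ∀ {L : List (Lt Γ a)}, (∀ x ∈ L, Ls (ln (vL x)) μ) →
    Ls (ln (lv L)) μ
  | [], _ => by rw [lv_nil, ln_one]; exact Ls.of_le h0
  | x :: L, h => by
    rw [lv_cons]
    exact Ls.mono_left (ln_mul_le _ _) ((h x List.mem_cons_self).add
      (ln_lv_ls h0 fun y k => h y (List.mem_cons_of_mem _ k)))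
theorem LOk.ls : ∀ {x : Lt Γ a}, LOk μ H x → Ls (ln (vL x)) μ
  | Sum.inl _, h => h.2
  | Sum.inr _, h => h.2.2.ls
theorem ln_lv_le (h0 : 0 ≤ μ) : ∀ {L : List (Lt Γ a)}, (∀ x, Sum.inr x ∈ L → Ll (ln x.2) μ) →
    Ll (ln (lv L) - lc L) μ
  | [], _ => by simpa [ln_one] using Ll.zero h0
  | Sum.inl g :: L, h => by
    refine Ll.mono_left ?_ (ln_lv_le h0 fun y k => h y (List.mem_cons_of_mem _ k))
    have := ln_mul_le g (lv L)
    simp only [lv_cons, vL_inl, lc_inl]; linarith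
  | Sum.inr x :: L, h => by
    refine Ll.mono_left ?_ ((h x List.mem_cons_self).add
      (ln_lv_le h0 fun y k => h y (List.mem_cons_of_mem _ k)))
    have := ln_mul_le x.2 (lv L)
    simp only [lv_cons, vL_inr, lc_inr]; linarith
theorem Ad.left (h : Ad μ (L ++ L')) : Ad μ L := by
  refine ⟨fun x k => h.1 x (List.mem_append_left _ k), Ll.mono_left ?_
    (h.2.add (ln_lv_le h.2.nonneg fun x k => h.1 x (List.mem_append_right _ k)))⟩
  have := ln_mul_le (lv L) (lv L')
  simp only [lv_append, lc_append]; linarith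
theorem Ad.right (h : Ad μ (L ++ L')) : Ad μ L' := by
  refine ⟨fun x k => h.1 x (List.mem_append_right _ k), Ll.mono_left ?_
    (h.2.add (ln_lv_le h.2.nonneg fun x k => h.1 x (List.mem_append_left _ k)))⟩
  have := ln_mul_le (lv L) (lv L')
  simp only [lv_append, lc_append]; linarith
theorem Ad.on (h : Ad μ (L ++ L')) : On μ (lv L) 1 (lv (L ++ L')) := by
  refine Ll.mono_left ?_ ((h.2.add (ln_lv_le h.2.nonneg fun x k => h.1 x
    (List.mem_append_left _ k))).add (ln_lv_le h.2.nonneg fun x k => h.1 x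
    (List.mem_append_right _ k)))
  simp only [ds, lv_append, lc_append, inv_one, one_mul, inv_mul_cancel_left]; linarith
theorem Ad.li (h : Ad μ L) : Ad μ (li L) :=
  ⟨fun x k => by simpa [ln_inv] using h.1 _ (mem_li.1 k), by simpa [ln_inv] using h.2⟩

theorem Fa.mono (h : Fa H X μ L) (k : ∀ x ∈ L', x ∈ L) : Fa H X μ L' :=
  ⟨fun g e => h.con g (k _ e), fun v e => h.gen v (k _ e), fun c f e => h.exp c f (k _ e)⟩
theorem Fa.li (h : Fa H X μ L) : Fa H X μ (li L) := by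
  refine ⟨fun g e => by simpa using h.con _ (mem_li.1 e),
    fun v e => by simpa using h.gen _ (mem_li.1 e), fun c f e => ?_⟩
  simpa [ln_inv] using h.exp c _ (mem_li.1 e)
theorem Fa.memH (h : Fa H X μ L) (k : NoV L) : lv L ∈ H :=
  lv_mem H fun
    | Sum.inl g, e => h.con g e
    | Sum.inr x, e => absurd e (k x)
theorem Fa.memU (h : Fa H X μ L) (hX : H ≤ X) (k : NoG L) : lv L ∈ hatH H X :=
  lv_mem _ fun
    | Sum.inl g, e => Subgroup.mem_sup_left (h.con g e)
    | Sum.inr (none, v), e => absurd e (k v)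
    | Sum.inr (some c, f), e =>
      let ⟨a1, a2, _, a4, a5, _⟩ := h.exp c f e
      Subgroup.mem_sup_right (Subgroup.subset_closure ⟨a4, c, ⟨a1, hX a1⟩, a2, a5⟩)
theorem Fa.memX (h : Fa H X μ L) (hX : H ≤ X) : lv L ∈ X :=
  lv_mem _ fun
    | Sum.inl g, e => hX (h.con g e)
    | Sum.inr (none, v), e => (h.gen v e).1.1
    | Sum.inr (some c, f), e => (h.exp c f e).2.2.2.1
theorem F3.sub (h : F3 (A ++ L ++ B)) : F3 L := fun A' c f β c' f' B' e =>
  h (A ++ A') c f β c' f' (B' ++ B) (by rw [e]; simp)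
theorem F4.sub (h : F4 μ (A ++ L ++ B)) : F4 μ L := fun A' v β c f B' e =>
  h (A ++ A') v β c f (B' ++ B) (by rw [e]; simp)
theorem F4'.sub (h : F4' μ (A ++ L ++ B)) : F4' μ L := fun A' c f β v B' e =>
  h (A ++ A') c f β v (B' ++ B) (by rw [e]; simp)
theorem F5.sub (h : F5 μ (A ++ L ++ B)) : F5 μ L := fun A' v P v' B' e =>
  h (A ++ A') v P v' (B' ++ B) (by rw [e]; simp)
theorem F0.sub (h : F0 H X μ (A ++ L ++ B)) : F0 H X μ L :=
  ⟨h.toFa.mono fun x k => by simp [k], h.f3.sub, h.f4.sub, h.f4'.sub, h.f5.sub⟩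
theorem F0.left (h : F0 H X μ (L ++ B)) : F0 H X μ L := F0.sub (A := []) h
theorem F0.right (h : F0 H X μ (A ++ L)) : F0 H X μ L :=
  F0.sub (A := A) (B := []) (by rwa [List.append_nil])
theorem F3.li (h : F3 L) : F3 (li L) := fun A c f β c' f' B e k j =>
  h (SW.li B) c' f'⁻¹ (SW.li β) c f⁻¹ (SW.li A) (by rw [li_eq e]; simp) (noV_li.2 k)
    (by rw [lv_li]; exact j.inv)
theorem F4.li (h : F4 μ L) : F4' μ (li L) := fun A c f β v B e k => by
  simpa using h (SW.li B) v⁻¹ (SW.li β) c f⁻¹ (SW.li A) (by rw [li_eq e]; simp) (noV_li.2 k)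
theorem F4'.li (h : F4' μ L) : F4 μ (li L) := fun A v β c f B e k => by
  simpa using h (SW.li B) c f⁻¹ (SW.li β) v⁻¹ (SW.li A) (by rw [li_eq e]; simp) (noV_li.2 k)
theorem F5.li (h : F5 μ L) : F5 μ (li L) := fun A v P v' B e k => by
  simpa [ln_inv] using
    h (SW.li B) v'⁻¹ (SW.li P) v⁻¹ (SW.li A) (by rw [li_eq e]; simp) (noG_li.2 k)
theorem F0.li (h : F0 H X μ L) : F0 H X μ (li L) :=
  ⟨h.toFa.li, h.f3.li, h.f4'.li, h.f4.li, h.f5.li⟩
theorem Blk.li {s t : Bool} (h : Blk D s P t) : Blk (li D) t (li P) s := by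
  obtain ⟨A, B, rfl, k, a1, a2, a3, a4⟩ := h
  refine ⟨SW.li B, SW.li A, by simp, noG_li.2 k, fun e => by simp [a3 e], fun e => ?_,
    fun e => by simp [a1 e], fun e => ?_⟩
  · obtain ⟨v, B', rfl⟩ := a4 e
    exact ⟨SW.li B', v⁻¹, by simp⟩
  · obtain ⟨A', v, rfl⟩ := a2 e
    exact ⟨v⁻¹, SW.li A', by simp⟩

/-- what follows a general variable in a reduced word is a tail -/
theorem F0.tl (h0 : 0 ≤ μ) (hX : H ≤ X) : ∀ (n : ℕ) {R : List (Lt Γ a)} {v : MM Γ a},
    R.length < n → F0 H X μ (Sum.inr (none, v) :: R) → Tl (hatH H X) (WW X μ) (lv R)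
  | 0, _, _, h, _ => absurd h (Nat.not_lt_zero _)
  | n + 1, R, v, hn, h => by
    have hR : F0 H X μ R := F0.right (A := [_]) h
    rcases split_G R with k | ⟨P, v', R', rfl, k⟩
    · exact ⟨0, Rw.nil _ _ (hR.toFa.memU hX k)⟩
    · obtain ⟨m, hm⟩ := F0.tl h0 hX n (R := R') (by simp at hn; omega) hR.right
      have g := hR.gen v' (by simp)
      refine ⟨m + 1, ?_⟩
      rw [lv_append, lv_cons, ← mul_assoc]
      exact Rw.cons _ _ _ _ _ (hR.left.toFa.memU hX k)
        (fun _ e => h.f5 [] v P v' R' rfl k ((mem_tiny h0).1 e.2)) g.1 g.2 hm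

theorem WD.val : ∀ {s : NL Γ a}, WD μ H s → lv (ex s) = vL (tp s)
  | Sum.inl _, _ => by simp
  | Sum.inr _, h => h.1
theorem lv_fl : ∀ {N : List (NL Γ a)}, (∀ s ∈ N, WD μ H s) → lv (flS N) = lv (N.map tp)
  | [], _ => rfl
  | s :: N, h => by
    rw [fl_cons, lv_append, List.map_cons, lv_cons, (h s List.mem_cons_self).val,
      lv_fl fun y k => h y (List.mem_cons_of_mem _ k)]
/-- an expansion with a general variable belongs to a general variable -/
theorem WD.gen {e : Vr Γ a} {v : MM Γ a} (h : WD μ H (Sum.inr (e, D))) (k : Sum.inr (none, v) ∈ D) :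
    e.1 = none := by
  rcases he : e.1 with _ | c
  · rfl
  · exact absurd ((h.2.2 c he).2.2 _ k) (by simp)
theorem WD.lok (h : ∀ s ∈ N, WD μ H s) {x : Vr Γ a} (k : Sum.inr x ∈ flS N) :
    LOk μ H (Sum.inr x) := by
  obtain ⟨g | y, hs, k⟩ := mem_fl.1 k
  · simp at k
  · exact (h _ hs).2.1 _ k
theorem Sg.ni (h : Sg N) : Sg (ni N) := fun e D k => by
  simpa using h _ _ (mem_ni.1 k)
theorem bk_total {G : Type} [Group G] (P : Bool → G → G → Prop) (s t : Bool) (u : G) :
    ∃ c, Bk P s t u c := by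
  have k : ∀ (Q : G → Prop) (s : Bool) (φ : G → G × Bool), ∃ c, Hf Q s φ c := fun Q s φ => by
    by_cases h : ∃ m, s = true ∧ Q m
    · obtain ⟨m, a1, a2⟩ := h
      exact ⟨_, Or.inl ⟨m, a1, a2, rfl⟩⟩
    · exact ⟨_, Or.inr ⟨fun e m q => h ⟨m, e, q⟩, rfl⟩⟩
  obtain ⟨c1, h1⟩ := k (P t u) s fun m => (m, true)
  obtain ⟨c2, h2⟩ := k (P s u⁻¹) t fun m => (u * m, false)
  exact ⟨_, c1, c2, h1, h2, rfl⟩

end Pool.Agent.P.MP_dba3d2_lc.SW


end

section

/-! Interface, chapter F: the shrinking step of the limit stage. -/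

namespace Pool.Agent.P.MP_dba3d2_lc

open Filter

-- deps: REFL2 CUT
def S_FS_SHR : Prop := ∀ (Γ : HG) (a : Amb) (X : Subgroup (MM Γ a)) (S : Shape Γ a) (m : ℕ)
  (Q : (Fin m ⊕ Fin (S.k 0) → Γ.G) → Prop) (h : Fin m → MM Γ a) (x : Fin (S.k 0) → MM Γ a),
  GC X → Tr Q → (∀ i, h i ∈ X) → (∀ i, x i ∈ X) → St Q (Sum.elim h x) →
  ∃ A : Finset (MM Γ a), (∀ w ∈ A, w ∈ X) ∧ (∀ i, x i ∈ A) ∧
    ∀ (n : ℕ) (μ : a.K) (p q : MM Γ a) (ty : Fin (S.k n) → Option (MM Γ a))
      (y : Fin (S.k n) → MM Γ a) (C : MM Γ a → List (MM Γ a × Bool))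
      (D : Fin (S.k n) → List (MM Γ a × Bool)),
      Big μ → Sim (ds p q) μ → (∀ i, HasT (ty i) (y i)) →
      (∀ z, (∀ i, HasT (ty i) (z i)) → St Q (Sum.elim h (S.top n z)) → Ll (tl y - tl z) μ) →
      (∀ i, ty i ≠ none → D i = []) →
      (∀ w ∈ A, w ∈ Set.range h ∨ w ∈ std Γ a → C w = []) →
      (∀ w ∈ A, C w ≠ [] → Ls μ (ln w) ∧ OrdOn (ln w) 1 ((C w).map fun s => s.1 * p) w) →
      (∀ i, OrdOn μ 1 (cutPts p q (D i)) (y i)) →
      (∀ (G : Type) [Group G] (j : MM Γ a →* G) (ν : G),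
        (∀ g, Stab μ p q g → Commute (j g) ν) →
        (∀ w ∈ A, ∀ w' ∈ A, w * w' ∈ A → cutEv j ν (C (w * w')) =
          cutEv j ν (C w) * cutEv j ν (cutMv w (C w'))) ∧
        ∀ i, cutEv j ν (C (x i)) * j (x i) =
          S.topG j n (fun t => cutEv j ν (D t) * j (y t)) i) →
      ∀ i, D i = []

end Pool.Agent.P.MP_dba3d2_lc


end

section

/-! Toolbox for words of letters: inversion. -/

namespace Pool.Agent.P.MP_dba3d2_lc.SW.T5

open Filter

variable {Γ : HG} {a : Amb} {H : Subgroup (MM Γ a)} {μ : a.K} {L L' : List (Lt Γ a)}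
  {M M' : List (NL Γ a)} {x : Vr Γ a} {h : MM Γ a} {s : Lt Γ a} {t : NL Γ a}

@[simp] theorem iL_inl : iL (.inl h : Lt Γ a) = .inl h⁻¹ := rfl
@[simp] theorem iL_inr : iL (.inr x : Lt Γ a) = .inr (x.1, x.2⁻¹) := rfl
@[simp] theorem iL_iL : iL (iL s) = s := by cases s <;> simp
@[simp] theorem vL_iL : vL (iL s) = (vL s)⁻¹ := by cases s <;> rfl
@[simp] theorem li_nil : li ([] : List (Lt Γ a)) = [] := rfl
@[simp] theorem li_cons : li (s :: L) = li L ++ [iL s] := by simp [li]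
@[simp] theorem li_append : li (L ++ L') = li L' ++ li L := by simp [li]
@[simp] theorem li_li : li (li L) = L := by
  induction L with
  | nil => rfl
  | cons s L ih => simp [ih]
theorem mem_li : s ∈ li L ↔ iL s ∈ L := by
  simp only [li, List.mem_reverse, List.mem_map]
  exact ⟨fun ⟨_, h, e⟩ => by simpa [← e] using h, fun h => ⟨_, h, iL_iL⟩⟩
@[simp] theorem lv_li : lv (li L) = (lv L)⁻¹ := by
  induction L with
  | nil => simp
  | cons s L ih => simp [ih]
@[simp] theorem lc_li : lc (li L) = lc L := by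
  induction L with
  | nil => rfl
  | cons s L ih => cases s <;> simp [ih, add_comm]
@[simp] theorem cG_li : cG (li L) = cG L := by
  induction L with
  | nil => rfl
  | cons s L ih => cases s <;> simp [ih, cG_inr]
@[simp] theorem cV_li : cV (li L) = cV L := by
  induction L with
  | nil => rfl
  | cons s L ih => cases s <;> simp [ih]
theorem noV_li (k : NoV L) : NoV (li L) := fun _ e => k _ (mem_li.1 e)
theorem noG_li (k : NoG L) : NoG (li L) := fun _ e => k _ (mem_li.1 e)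

@[simp] theorem iN_inl : iN (.inl h : NL Γ a) = .inl h⁻¹ := rfl
@[simp] theorem iN_inr : iN (.inr (x, L) : NL Γ a) = .inr ((x.1, x.2⁻¹), li L) := rfl
@[simp] theorem iN_iN : iN (iN t) = t := by obtain _ | ⟨x, L⟩ := t <;> simp
@[simp] theorem ni_nil : ni ([] : List (NL Γ a)) = [] := rfl
@[simp] theorem ni_cons : ni (t :: M) = ni M ++ [iN t] := by simp [ni]
@[simp] theorem ni_append : ni (M ++ M') = ni M' ++ ni M := by simp [ni]
@[simp] theorem ni_ni : ni (ni M) = M := by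
  induction M with
  | nil => rfl
  | cons s L ih => simp [ih]
theorem mem_ni : t ∈ ni M ↔ iN t ∈ M := by
  simp only [ni, List.mem_reverse, List.mem_map]
  exact ⟨fun ⟨_, h, e⟩ => by simpa [← e] using h, fun h => ⟨_, h, iN_iN⟩⟩
@[simp] theorem fl_ni : flS (ni M) = li (flS M) := by
  induction M with
  | nil => rfl
  | cons t M ih => obtain _ | ⟨x, L⟩ := t <;> simp [ih]
@[simp] theorem nc_ni : nc (ni M) = nc M := by
  induction M with
  | nil => rfl
  | cons t M ih => obtain _ | ⟨x, L⟩ := t <;> simp [ih, add_comm]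
theorem tp_ni : (ni M).map tp = li (M.map tp) := by
  induction M with
  | nil => rfl
  | cons t M ih => obtain _ | ⟨x, L⟩ := t <;> simp [ih]
theorem sk_ni : ((ni M).map fun s => sk (tp s)) =
    ((M.map fun s => sk (tp s)).map (Sum.map (fun h => h⁻¹) id)).reverse := by
  rw [ni, List.map_reverse, List.map_map, List.map_map]
  congr 2
  funext t
  obtain _ | ⟨x, L⟩ := t <;> rfl

theorem lok_iL (k : LOk μ H s) : LOk μ H (iL s) := by
  cases s
  · exact ⟨inv_mem k.1, by simpa using k.2⟩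
  · exact ⟨k.1, fun c e => inv_mem (k.2.1 c e), by simpa using k.2.2⟩

theorem wd_iN (k : WD μ H t) : WD μ H (iN t) := by
  obtain _ | ⟨x, L⟩ := t
  · exact inv_mem k
  obtain ⟨k1, k2, k3⟩ := k
  refine ⟨lv_li.trans (congrArg _ k1), fun s hs => by simpa using lok_iL (k2 _ (mem_li.1 hs)),
    fun c e => ?_⟩
  obtain ⟨t1, t2, t3⟩ := k3 c e
  exact ⟨cV_li.trans_le t1, fun h hs => by simpa using t2 _ (mem_li.1 hs),
    fun z hs => t3 (z.1, z.2⁻¹) (mem_li.1 hs)⟩

theorem wd_ni (k : ∀ s ∈ M, WD μ H s) : ∀ s ∈ ni M, WD μ H s := fun s hs => by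
  simpa using wd_iN (k _ (mem_ni.1 hs))

theorem ad_li (k : Ad μ L) : Ad μ (li L) :=
  ⟨fun x hx => by simpa using k.1 (x.1, x.2⁻¹) (mem_li.1 hx), by simpa using k.2⟩

end Pool.Agent.P.MP_dba3d2_lc.SW.T5


end
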