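import Pool.Agent.P.MP_dba3d2_lcM.Ab05
import Pool.Agent.P.MP_dba3d2_lcM.Bb10
import Pool.Agent.P.MP_dba3d2_lcM.Cb13
import Pool.Agent.P.MP_dba3d2_lcM.Cb18
import Pool.Agent.P.MP_dba3d2_lcM.Eb29
import Pool.Agent.P.MP_dba3d2_lcM.Fb30
import Pool.Agent.P.MP_dba3d2_lcM.Fb36
import Pool.Agent.P.MP_dba3d2_lcM.Fb38
import Pool.Agent.P.MP_dba3d2_lcM.Fb40
import Pool.Agent.P.MP_dba3d2_lcM.Eb42

section

/-! Step FC_INF of the stability project. -/

namespace Pool.Agent.P.MP_dba3d2_lc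

open Filter

theorem p_FC_INF (hELEM : S_ELEM) (hPERC : S_PERC) (hROOT : S_ROOT) (hCVX : S_CVX) (hGRAFT : S_GRAFT) (hFC_SM : S_FC_SM) (hFC_CEN : S_FC_CEN) (hFC_EX : S_FC_EX) :
    S_FC_INF := by
  intro Γ a H l F hH hl hF
  have mem : ∀ g, g ∈ capS H l ⊓ sInf F ↔
      (∀ m, g ∈ H ⊔ ball Γ (l m)) ∧ ∀ X ∈ F, g ∈ X := fun g => by
    rw [Subgroup.mem_inf, mem_capS, Subgroup.mem_sInf]
  have gc : ∀ m, GC0 (H ⊔ ball Γ (l m)) := fun m => gc0_sup_ball hCVX hGRAFT hH (hl.big m)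
  have key : ∀ g, (∀ Z, GC0 Z → capS H l ⊓ sInf F ≤ Z → g ∈ Z) → g ∈ capS H l ⊓ sInf F :=
    fun g k => (mem g).2 ⟨fun m => k _ (gc m) (inf_le_left.trans (capS_le H l m)),
      fun X hX => k X (hF X hX).gc (inf_le_right.trans (sInf_le hX))⟩
  have z0 : capS H l ⊓ sInf F ≤ H ⊔ ball Γ (l 0) := inf_le_left.trans (capS_le H l 0)
  have ex : ∀ c ∈ capS H l ⊓ sInf F, ¬ IsOfFinOrder c → ∀ f ∈ capS H l, f ∈ Ep c →
      f ∈ capS H l ⊓ sInf F := fun c hc h1 f hf h2 =>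
    ⟨hf, Subgroup.mem_sInf.2 fun X hX => (hF X hX).ex c (((mem c).1 hc).2 X hX) h1 f hf h2⟩
  refine ⟨⟨fun g hg => key g fun Z hZ _ => hZ.base hg, ?_, ?_, ?_, ?_, ?_⟩,
    le_inf (le_capS H l) (le_sInf fun X hX => (hF X hX).le), inf_le_left, ex, ?_⟩
  · intro μ hμ h hh h' hh' b1 b2 g p q ho hp
    exact key g fun Z hZ le => hZ.g2 μ hμ h (le hh) h' (le hh') b1 b2 g p q ho hp
  · intro μ hμ h hh b1 p q b2 o1 o2 hp
    obtain ⟨c, -, c1, c2⟩ := (gc 0).g20 μ hμ h (z0 hh) b1 p q b2 o1 o2 hp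
    exact ⟨c, key c fun Z hZ le => hZ.per_mem hELEM hPERC hROOT hμ Z.one_mem (le hh)
      (by simpa [ds] using b1) b2 o1 o2 c1 c2, c1, c2⟩
  · intro μ hμ h hh b1 c hc c1 b2 b3
    obtain ⟨f, f1, f2, f3⟩ := hFC_EX Γ a H l μ h c hH hl hμ hh.1 b1 hc.1 c1 b2 b3
    exact ⟨f, ex c hc c1.1 f f1 f2, f2, f3⟩
  · intro c hc c1 f hf f1 n hn
    obtain ⟨f', -, f2, r, f3⟩ := (gc 0).pur c (z0 hc) c1 f (z0 hf) f1 n hn
    exact ⟨f', key f' fun Z hZ le => (hFC_SM Γ a c c1).2.2.2.2 Z hZ (le hc) f (le hf) f1 f' f2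
      n r hn f3, f2, r, f3⟩
  · intro c hc c' hc' c1 c2
    obtain ⟨G, g1, g2, g3, g4⟩ := hFC_CEN Γ a H l c c' hH hl hc.1 hc'.1 c1 c2
    exact ⟨G, ⟨g1, Subgroup.mem_sInf.2 fun X hX => g4 X (hF X hX) (((mem c).1 hc).2 X hX)
      (((mem c').1 hc').2 X hX)⟩, g2, g3⟩
  · intro u v hv hu
    exact ⟨capS_cpl hl (fun n => ((mem _).1 (hv n)).1 n) hu, Subgroup.mem_sInf.2 fun X hX =>
      (hF X hX).cpl u v (fun n => ((mem _).1 (hv n)).2 X hX) hu⟩

end Pool.Agent.P.MP_dba3d2_lc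


end

section

/-! Step FC_UP of the stability project. -/

namespace Pool.Agent.P.MP_dba3d2_lc

open Filter

theorem p_FC_UP (hELEM : S_ELEM) (hROOT : S_ROOT) (hTRUNC : S_TRUNC) (hGRAFT : S_GRAFT) (hFC_SM : S_FC_SM) (hFC_EXPO : S_FC_EXPO) :
    S_FC_UP := by
  have _h := hELEM
  intro Γ a H l X n hH hl hX
  have hb := hl.big n
  have h0 := (hl.pos n).le
  have hW : GC0 (X ⊓ ball Γ (l n)) := ET.gc0_trunc hTRUNC hb hX.gc
  have hs : Sep H (X ⊓ ball Γ (l n)) :=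
    ET.sep_of_le hb (inf_le_inf_right _ hX.le) inf_le_right
  have hP : GC0 (H ⊔ (X ⊓ ball Γ (l n))) := (hGRAFT Γ a H _ hH hW hs).1.gc
  have hPX : H ⊔ (X ⊓ ball Γ (l n)) ≤ X := sup_le hX.le inf_le_left
  have hWP : ∀ g ∈ X, Ls (ln g) (l n) → g ∈ H ⊔ (X ⊓ ball Γ (l n)) := fun g h1 h2 =>
    (le_sup_right : X ⊓ ball Γ (l n) ≤ H ⊔ (X ⊓ ball Γ (l n))) ⟨h1, (mem_ball h0).2 h2⟩
  refine ⟨hP, le_sup_left, hPX.trans hX.sub, ?_, ?_⟩
  · intro c hc hi f hf hfc
    have hfX : f ∈ X := hX.ex c (hPX hc) hi f hf hfc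
    obtain ⟨c0, hc0, hp0, he0⟩ := (hROOT Γ a _ hP).1 c hc hi
    obtain ⟨p, hp, -, hcen⟩ := hP.cen1 hc0 hp0.1
    have hp1 : Prim (p⁻¹ * c0 * p) := hp0.conj' p
    have hc1 : p⁻¹ * c0 * p ∈ H ⊔ (X ⊓ ball Γ (l n)) :=
      mul_mem (mul_mem (inv_mem hp) hc0) hp
    have hf1 : p⁻¹ * f * p ∈ X := mul_mem (mul_mem (inv_mem (hPX hp)) hfX) (hPX hp)
    have hf2 : p⁻¹ * f * p ∈ Ep (p⁻¹ * c0 * p) := by
      rw [mem_Ep_conj', he0]
      have e : p * (p⁻¹ * f * p) * p⁻¹ = f := by group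
      rwa [e]
    have hXn : X ≤ H ⊔ ball Γ (l n) := hX.sub.trans (capS_le H l n)
    obtain ⟨f1, -, f2, a2, e, a3, a4⟩ :=
      hFC_EXPO Γ a H (l n) _ _ hH hb hp1 (hXn (hPX hc1)) (hXn hf1) hf2
    have b1 := a4 _ hP le_sup_left hc1
    have b2 : f2 ∈ X := by
      have e' : f2 = f1⁻¹ * (p⁻¹ * f * p) := by rw [e]; group
      rw [e']
      exact mul_mem (inv_mem (hPX b1)) hf1
    have b3 : f2 ∈ H ⊔ (X ⊓ ball Γ (l n)) := by
      rcases le_total (md (p⁻¹ * c0 * p)) (l n) with k | k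
      · have t := (hFC_SM Γ a _ hp1).1 f2 a2 1
        rw [ds_one_mul, ds_one_mul] at t
        exact hWP f2 b2 (t.trans' (a3.add (Ls.mono_right hcen k)))
      · exact (hFC_SM Γ a _ hp1).2.1 _ hP hc1 f2 a2 (a3.mono_right k)
    have e2 : f = p * (f1 * f2) * p⁻¹ := by rw [← e]; group
    rw [e2]
    exact mul_mem (mul_mem hp (mul_mem b1 b3)) (inv_mem hp)
  · intro u v hv hu
    have huX : u ∈ X := hX.cpl u v (fun m => hPX (hv m)) hu
    have t : (v n)⁻¹ * u ∈ H ⊔ (X ⊓ ball Γ (l n)) := by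
      refine hWP _ (mul_mem (inv_mem (hPX (hv n))) huX) ?_
      have t := hu n
      rwa [ds_comm] at t
    have e : u = v n * ((v n)⁻¹ * u) := by group
    rw [e]
    exact mul_mem (hv n) t

end Pool.Agent.P.MP_dba3d2_lc


end

section

/-! Step FC_FIN of the stability project. -/

namespace Pool.Agent.P.MP_dba3d2_lc

open Filter

namespace Fc_finA

variable {Γ : HG} {a : Amb} {K P A B H X : Subgroup (MM Γ a)} {g : MM Γ a} {l : ℕ → a.K}

/-- `g` conjugates `K` into `Y` -/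
def In (K : Subgroup (MM Γ a)) (g : MM Γ a) (Y : Subgroup (MM Γ a)) : Prop :=
  ∀ k ∈ K, g⁻¹ * k * g ∈ Y

theorem fin_conj (hK : Finite K) (g : MM Γ a) :
    Finite (K.map (MulAut.conj g⁻¹).toMonoidHom) :=
  Finite.of_equiv _ (K.equivMapOfInjective _ (MulAut.conj g⁻¹).injective).toEquiv

theorem in_of_map {p : MM Γ a}
    (h : ∀ k ∈ K.map (MulAut.conj g⁻¹).toMonoidHom, p⁻¹ * k * p ∈ A) : In K (g * p) A :=
  fun k hk => by simpa [mul_assoc] using h _ ⟨k, hk, rfl⟩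

theorem red (h : FinRed P A B) (hK : Finite K) (hg : In K g P) :
    ∃ p ∈ P, In K (g * p) A ∨ In K (g * p) B := by
  obtain ⟨p, hp, h2⟩ := h (K.map (MulAut.conj g⁻¹).toMonoidHom) (by
    rintro _ ⟨k, h1, rfl⟩
    simpa using hg k h1) (fin_conj hK g)
  exact ⟨p, hp, h2.imp in_of_map in_of_map⟩

theorem graft (hT : S_TRUNC) (hG : S_GRAFT) (hA : GC0 A) (hX : GC0 X) (hAX : A ≤ X) {ν : a.K}
    (hν : Big ν) : TwoOut A (X ⊓ ball Γ ν) ∧
      AddNF (A ⊔ (X ⊓ ball Γ ν)) {g | g ∈ A ∨ g ∈ X ⊓ ball Γ ν} :=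
  hG Γ a A _ hA (ET.gc0_trunc hT hν hX) (ET.sep_of_le hν (inf_le_inf_right _ hAX) inf_le_right)

theorem step (hT : S_TRUNC) (hG : S_GRAFT) (hH : GC0 H) (hl : Desc l) (hX : Cg H l X)
    (he : ∀ n, X = H ⊔ (X ⊓ ball Γ (l n))) (hK : Finite K) (hn : ∀ g ∈ X, ¬ In K g H) (n : ℕ)
    (hg : g ∈ X) (h : In K g (X ⊓ ball Γ (l n))) :
    ∃ g' ∈ X, In K g' (X ⊓ ball Γ (l (n + 1))) ∧ Ls (ds g g') (l n) := by
  have h0 := (hl.pos n).le
  have h1 : X ⊓ ball Γ (l n) ≤ (H ⊓ ball Γ (l n)) ⊔ (X ⊓ ball Γ (l (n + 1))) := fun x hx =>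
    (graft hT hG hH hX.gc hX.le (hl.big (n + 1))).2.mem (he (n + 1) ▸ hx.1)
      ((mem_ball h0).1 hx.2) fun y hy k => hy.elim
        (fun e => Subgroup.mem_sup_left ⟨e, (mem_ball h0).2 k⟩) Subgroup.mem_sup_right
  have h2 : (H ⊓ ball Γ (l n)) ⊔ (X ⊓ ball Γ (l (n + 1))) ≤ X ⊓ ball Γ (l n) :=
    sup_le (inf_le_inf_right _ hX.le) (inf_le_inf_left _ (hl.ball_le n.le_succ))
  obtain ⟨p, hp, h3⟩ := red (graft hT hG (ET.gc0_trunc hT (hl.big n) hH) hX.gc
    (inf_le_left.trans hX.le) (hl.big (n + 1))).1.fin hK fun k hk => h1 (h k hk)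
  have h4 := X.mul_mem hg (h2 hp).1
  refine ⟨g * p, h4, h3.resolve_left fun e => hn _ h4 fun k hk => (e k hk).1, ?_⟩
  rw [ds_mul_right]
  exact (mem_ball h0).1 (h2 hp).2

end Fc_finA

open Fc_finA

theorem p_FC_FIN (hFINM : S_FINM) (hTRUNC : S_TRUNC) (hGRAFT : S_GRAFT) :
    S_FC_FIN := by
  intro Γ a H l X hH hl hX he K hKX hK
  by_cases hn : ∃ g ∈ X, In K g H
  · obtain ⟨g, hg, h1⟩ := hn
    obtain ⟨p, hp, h2⟩ := red (A := std Γ a) (B := std Γ a)
      (fun K' a b => (hH.finc K' a b).imp fun _ e => ⟨e.1, .inl e.2⟩) hK h1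
    exact ⟨g * p, X.mul_mem hg (hX.le hp), h2.elim id id⟩
  have hn' : ∀ g ∈ X, ¬ In K g H := fun g a b => hn ⟨g, a, b⟩
  obtain ⟨p, hp, h1⟩ := red (g := 1) (graft hTRUNC hGRAFT hH.toGC0 hX.gc hX.le (hl.big 0)).1.fin
    hK fun k hk => by
      rw [← he 0]
      simpa using hKX hk
  rw [← he 0] at hp
  have hp' := X.mul_mem X.one_mem hp
  have h2 := h1.resolve_left (hn' _ hp')
  have st : ∀ n (x : {g // g ∈ X ∧ In K g (X ⊓ ball Γ (l n))}),
      ∃ y : {g // g ∈ X ∧ In K g (X ⊓ ball Γ (l (n + 1)))}, Ls (ds x.1 y.1) (l n) := fun n x =>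
    let ⟨g', a1, a2, a3⟩ := step hTRUNC hGRAFT hH.toGC0 hl hX he hK hn' n x.2.1 x.2.2
    ⟨⟨g', a1, a2⟩, a3⟩
  choose f hf using st
  let g : ∀ n, {g // g ∈ X ∧ In K g (X ⊓ ball Γ (l n))} := fun n =>
    Nat.rec ⟨1 * p, hp', h2⟩ f n
  obtain ⟨u, hu⟩ := hl.cauchy (fun n => (g n).1) fun n => hf n (g n)
  have huX : u ∈ X := hX.cpl u _ (fun n => (g n).2.1) hu
  obtain ⟨q, h3, _, ⟨k, hk, rfl⟩, h4⟩ := hFINM Γ a _ (fin_conj hK u)
  refine ⟨u * q, hX.near huX fun n => ?_, in_of_map h3⟩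
  rw [ds_comm, ds_mul_right]
  refine h4.trans' (Ls.add ?_ (big_iff_ll.1 (hl.big n)).ls)
  have e : (MulAut.conj u⁻¹).toMonoidHom k = u⁻¹ * k * u := by simp
  rw [e, ← ds_conj]
  refine Ls.mono_left (disp_le k u (g n).1) ((hu n).two.add ?_)
  rw [ds_conj]
  exact (mem_ball (hl.pos n).le).1 ((g n).2.2 k hk).2

end Pool.Agent.P.MP_dba3d2_lc


end

section

/-! Step FC_CAP of the stability project. -/

namespace Pool.Agent.P.MP_dba3d2_lc

open Filter

theorem p_FC_CAP (hFC_INF : S_FC_INF) (hFC_UP : S_FC_UP) (hFC_FIN : S_FC_FIN) :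
    S_FC_CAP := by
  intro Γ a H l Y hH h1 h2 hY
  have hl : Desc l := ⟨h1, h2⟩
  have g := hFC_INF Γ a H l {X | Cg H l X ∧ ∀ y ∈ Y, y ∈ X} hH.toGC0 hl fun X h => h.1
  set I := capS H l ⊓ sInf {X | Cg H l X ∧ ∀ y ∈ Y, y ∈ X} with hI
  have y1 : ∀ y ∈ Y, y ∈ I := fun y hy =>
    ⟨mem_capS.2 fun n => sup_le_sup_left inf_le_right H (hY n y hy),
      Subgroup.mem_sInf.2 fun X h => h.2 y hy⟩
  have e : ∀ n, I = H ⊔ (I ⊓ ball Γ (l n)) := fun n => by
    refine le_antisymm (inf_le_right.trans (sInf_le ⟨hFC_UP Γ a H l I n hH.toGC0 hl g,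
      fun y hy => ?_⟩)) (sup_le g.le inf_le_left)
    exact sup_le_sup_left (inf_le_inf_right _ (sup_le g.le ((Subgroup.closure_le _).2 y1))) H
      (hY n y hy)
  exact ⟨I, ⟨g.gc, hFC_FIN Γ a H l I hH hl g e⟩, g, y1, e⟩

end Pool.Agent.P.MP_dba3d2_lc


end

section

/-! Step CAP of the stability project. -/

namespace Pool.Agent.P.MP_dba3d2_lc

open Filter

theorem p_CAP (hFC_CAP : S_FC_CAP) :
    S_CAP := by
  intro Γ a H l Y hH h1 h2 hY
  obtain ⟨X, g, c, y, e⟩ := hFC_CAP Γ a H l Y hH h1 h2 fun n y hy => hY n hy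
  exact ⟨X, g, c.le, y, e⟩

end Pool.Agent.P.MP_dba3d2_lc


end

section

/-! Step GT of the stability project. -/

namespace Pool.Agent.P.MP_dba3d2_lc

open Filter

namespace GtA

variable {Γ : HG} {a : Amb} {H W : Subgroup (MM Γ a)}

theorem exp_le : expW H W ≤ W := (Subgroup.closure_le _).2 fun _ h => h.1

theorem M_le_H : hatM H W ≤ hatH H W := sup_le_sup_right inf_le_left _

theorem M_le_W : hatM H W ≤ W := sup_le inf_le_right exp_le

theorem univ (hE : S_ELEM) (hR : S_ROOT) (hH : GC0 H) (hW : GC0 W) (hx : Ext2 H W) :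
    UnivP (hatH H W) W (hatM H W) := by
  intro G _ θ0 θ1 hag
  have h1 : H ≤ hatH H W := le_sup_left
  obtain ⟨θ, e0, e1⟩ := hx G (θ0.comp (Subgroup.inclusion h1)) θ1
    (fun x y h => hag ⟨x, h1 x.2⟩ y (Subgroup.mem_sup_left ⟨x.2, h ▸ y.2⟩) h) (by
      intro c hc hi x y hx hy
      obtain ⟨c0, k0, kp, ke⟩ := (hR Γ a H hH).1 c hc.1 hi
      have k1 : c0 ∈ W := (hR Γ a W hW).2.2.2.1 c hc.2 hi c0 kp ke
      have k2 : (y : MM Γ a) ∈ hatM H W :=
        Subgroup.mem_sup_right (Subgroup.subset_closure ⟨y.2, c0, ⟨k0, k1⟩, kp, ke ▸ hy⟩)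
      rw [← hag ⟨y, M_le_H k2⟩ y k2 rfl, MonoidHom.comp_apply, ← map_pow]
      refine Commute.map (Subtype.ext ?_) θ0
      exact ((hE Γ a c hi).2.2.2.2.2.2.2.1 x hx y hy).eq)
  have hj : hatH H W ⊔ W ≤ H ⊔ W :=
    sup_le (sup_le le_sup_left (exp_le.trans le_sup_right)) le_sup_right
  refine ⟨θ.comp (Subgroup.inclusion hj), ?_, fun y => e1 y⟩
  have key : ∀ x (hx : x ∈ hatH H W), θ ⟨x, hj (Subgroup.mem_sup_left hx)⟩ = θ0 ⟨x, hx⟩ := by
    intro x hx
    have hx' : x ∈ Subgroup.closure ((H : Set (MM Γ a)) ∪ expW H W) := by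
      rwa [← Subgroup.sup_eq_closure]
    have hm : ∀ {y}, y ∈ Subgroup.closure ((H : Set (MM Γ a)) ∪ expW H W) → y ∈ hatH H W := by
      intro y hy
      rwa [← Subgroup.sup_eq_closure] at hy
    induction hx' using Subgroup.closure_induction with
    | mem y hy =>
      rcases hy with hy | hy
      · exact e0 ⟨y, hy⟩
      · exact (e1 ⟨y, exp_le hy⟩).trans
          (hag ⟨y, hx⟩ ⟨y, exp_le hy⟩ (Subgroup.mem_sup_right hy) rfl).symm
    | one => exact (map_one θ).trans (map_one θ0).symm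
    | mul y z hy hz iy iz =>
      have := congrArg₂ (· * ·) (iy (hm hy)) (iz (hm hz))
      simp only [← map_mul] at this
      exact this
    | inv y hy iy =>
      have := congrArg (·⁻¹) (iy (hm hy))
      simp only [← map_inv] at this
      exact this
  exact fun x => key x x.2

/-- the alternating word of a list of pairs -/
def alt {G : Type} : List (G × G) → List (Bool × G)
  | [] => []
  | s :: l => (false, s.1) :: (true, s.2) :: alt l

theorem alt_prod {G : Type} [Group G] (l : List (G × G)) :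
    ((alt l).map Prod.snd).prod = (l.map fun s => s.1 * s.2).prod := by
  induction l with
  | nil => rfl
  | cons s l ih => simp only [alt, List.map_cons, List.prod_cons, ih, mul_assoc]

theorem alt_chain {G : Type} (l : List (G × G)) (x : G) :
    ((true, x) :: alt l).IsChain fun s s' => s.1 ≠ s'.1 := by
  induction l generalizing x with
  | nil => exact List.IsChain.singleton _
  | cons s l ih =>
    exact List.IsChain.cons_cons (by simp) (List.IsChain.cons_cons (by simp) (ih s.2))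

theorem alt_mem {G : Type} {P : Bool × G → Prop} (l : List (G × G))
    (h : ∀ s ∈ l, P (false, s.1) ∧ P (true, s.2)) : ∀ t ∈ alt l, P t := by
  induction l with
  | nil => intro t ht; cases ht
  | cons s l ih =>
    intro t ht
    simp only [alt, List.mem_cons] at ht
    rcases ht with rfl | rfl | ht
    · exact (h s List.mem_cons_self).1
    · exact (h s List.mem_cons_self).2
    · exact ih (fun u hu => h u (List.mem_cons_of_mem _ hu)) t ht

theorem red {G : Type} [Group G] {X Y C : Subgroup G}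
    (h : RedNT (fun i => bif i then Y else X) C) (l : List (G × G)) (hl : l ≠ [])
    (h1 : ∀ s ∈ l, s.1 ∈ X ∧ s.2 ∈ Y ∧ s.2 ∉ C) (h2 : ∀ s ∈ l.tail, s.1 ∉ C) :
    (l.map fun s => s.1 * s.2).prod ∉ X := by
  obtain ⟨s, l, rfl⟩ := List.exists_cons_of_ne_nil hl
  intro hg
  obtain ⟨a1, a2, a3⟩ := h1 s List.mem_cons_self
  have hm : ∀ t ∈ alt l, t.2 ∈ (bif t.1 then Y else X) ∧ t.2 ∉ C :=
    alt_mem l fun u hu =>
      ⟨⟨(h1 u (List.mem_cons_of_mem _ hu)).1, h2 u hu⟩, (h1 u (List.mem_cons_of_mem _ hu)).2⟩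
  rw [List.map_cons, List.prod_cons] at hg
  generalize hb : (l.map fun s => s.1 * s.2).prod = b at hg
  have hx : (s.2 * b)⁻¹ ∈ X := by
    have := X.mul_mem (X.inv_mem hg) a1
    convert this using 1
    group
  by_cases hc : (s.2 * b)⁻¹ ∈ C
  · refine h ((true, s.2) :: alt l) (List.cons_ne_nil _ _) ?_ (alt_chain l _) ?_
    · exact List.forall_mem_cons.2 ⟨⟨a2, a3⟩, hm⟩
    · rw [List.map_cons, List.prod_cons, alt_prod, hb]
      exact (C.inv_mem_iff).1 hc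
  · refine h ((false, (s.2 * b)⁻¹) :: (true, s.2) :: alt l) (List.cons_ne_nil _ _) ?_
      (List.IsChain.cons_cons (by simp) (alt_chain l _)) ?_
    · exact List.forall_mem_cons.2 ⟨⟨hx, hc⟩, List.forall_mem_cons.2 ⟨⟨a2, a3⟩, hm⟩⟩
    · rw [List.map_cons, List.prod_cons, List.map_cons, List.prod_cons, alt_prod, hb,
        inv_mul_cancel]
      exact C.one_mem

end GtA

theorem p_GT (hELEM : S_ELEM) (hROOT : S_ROOT) (hGRAFT : S_GRAFT) :
    S_GT := by
  intro Γ a H W l hH hW hS hl h1 h2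
  exact GtA.red (p_C_AM1 _ _ _ _ GtA.M_le_H GtA.M_le_W
    (GtA.univ hELEM hROOT hH hW (hGRAFT Γ a H W hH hW hS).1.ext)) l hl h1 h2

end Pool.Agent.P.MP_dba3d2_lc


end

section

/-! Step S2_LV of the stability project. -/

namespace Pool.Agent.P.MP_dba3d2_lc

open Filter
open SW

namespace S2lv

variable {Γ : HG} {a : Amb} {H X W : Subgroup (MM Γ a)} {μ : a.K}

theorem exp_le : expW H W ≤ W := (Subgroup.closure_le _).2 fun _ h => h.1

theorem sep (hμ : Big μ) (h : H ≤ X) : Sep H (X ⊓ tiny Γ μ) := fun g hg hn _ hw =>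
  ((mem_tiny hμ.pos.le).1 hw.2).ls_right ((ll_or_ls hμ.pos (ln g)).resolve_left
    fun k => hn ⟨h hg, (mem_tiny hμ.pos.le).2 k⟩) (ln_nonneg g)

theorem sep' (hμ : Big μ) : Sep X (tiny Γ μ) := fun g _ hn _ hw =>
  ((mem_tiny hμ.pos.le).1 hw).ls_right ((ll_or_ls hμ.pos (ln g)).resolve_left
    fun k => hn ((mem_tiny hμ.pos.le).2 k)) (ln_nonneg g)

theorem hat_eq (o : TwoOut H W) (e : H ⊔ W = X) : hatH H X = hatH H W := by
  have hW : W ≤ X := e ▸ le_sup_right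
  have hH : H ≤ X := e ▸ le_sup_left
  refine le_antisymm (sup_le le_sup_left ((Subgroup.closure_le _).2 ?_))
    (sup_le_sup_left (Subgroup.closure_mono fun f h => h.2.elim fun c k =>
      ⟨hW h.1, c, ⟨k.1.1, hW k.1.2⟩, k.2⟩) H)
  rintro f ⟨h1, c, h2, h3, h4⟩
  by_cases k : ∃ g ∈ H, g⁻¹ * c * g ∈ W
  · obtain ⟨g, hg, k⟩ := k
    have m : g⁻¹ * c * g ∈ H ⊓ W := ⟨H.mul_mem (H.mul_mem (H.inv_mem hg) h2.1) hg, k⟩
    obtain ⟨x, hx, y, hy, -, k2, k3⟩ := o.e1 _ m (h3.conj' g) (g⁻¹ * f * g)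
      (e ▸ mul_mem (mul_mem (inv_mem (hH hg)) h1) (hH hg))
      (mem_Ep_conj'.2 (by simpa [mul_assoc] using h4))
    have : f = g * (x * y) * g⁻¹ := by rw [← k3]; group
    rw [this]
    have l : H ≤ hatH H W := le_sup_left
    exact mul_mem (mul_mem (l hg) (mul_mem (l hx) (Subgroup.mem_sup_right
      (Subgroup.subset_closure ⟨hy, _, m, h3.conj' g, k2⟩)))) (inv_mem (l hg))
  · exact Subgroup.mem_sup_left (o.e2 c h2.1 h3 (fun g hg k' => k ⟨g, hg, k'⟩) f (e ▸ h1) h4)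

end S2lv

open S2lv in
theorem p_S2_LV (hTRUNC : S_TRUNC) (hGRAFT : S_GRAFT) (hGT : S_GT) :
    S_S2_LV := by
  intro Γ a H X μ hμ hH hX e
  replace e := e.symm
  have le : H ≤ X := e ▸ le_sup_left
  have gW : GC0 (WW X μ) := hTRUNC Γ a X _ hX (std_le_tiny hμ) (sep' hμ)
  obtain ⟨o, nf⟩ := hGRAFT Γ a H _ hH gW (sep hμ le)
  have u := hat_eq o e
  have gt := fun l => hGT Γ a H _ l hH gW (sep hμ le)
  have m1 : hatM H (WW X μ) ≤ hatH H (WW X μ) := sup_le_sup_right inf_le_left _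
  have m2 : hatM H (WW X μ) ≤ WW X μ := sup_le inf_le_right exp_le
  refine ⟨hμ, hH, le, le_antisymm (sup_le (sup_le le exp_le) inf_le_left)
    (e.ge.trans (sup_le_sup_right le_sup_left _)), ?_, ?_, by rwa [e] at nf⟩
  · rw [u]
    exact fun l hl h1 h2 => gt l hl (fun s hs => ⟨(h1 s hs).1, (h1 s hs).2.1,
      fun k => (h1 s hs).2.2 (m1 k)⟩) fun s hs k => h2 s hs (m2 k)
  · rw [u]
    intro m h1 h2
    by_contra k
    exact gt [(1, m)] (by simp) (List.forall_mem_singleton.2 ⟨one_mem _, h2, k⟩) (by simp) (by simpa using h1)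

end Pool.Agent.P.MP_dba3d2_lc


end

section

/-! Step S2_ENV of the stability project. -/

namespace Pool.Agent.P.MP_dba3d2_lc

open Filter
open SW

theorem S2env.weave_mem {G : Type} [Group G] {P : Subgroup G} : ∀ (r : ℕ) (h : Fin (r + 1) → G)
    (z : Fin r → G), (∀ i, h i ∈ P) → (∀ i, z i ∈ P) → weave r h z ∈ P
  | 0, _, _, h1, _ => h1 0
  | r + 1, _, _, h1, h2 => mul_mem (mul_mem (h1 0) (h2 0))
      (S2env.weave_mem r _ _ (fun i => h1 i.succ) fun i => h2 i.succ)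

theorem p_S2_ENV (hCAP : S_CAP) (hS2_LV : S_S2_LV) :
    S_S2_ENV := by
  intro Γ a H l S y hH hb hd hy hh he
  have mono : ∀ m n, m ≤ n → Ls (l n) (l m) := by
    intro m n k
    induction k with
    | refl => exact Ls.refl' _
    | step _ ih => exact (hd _).ls.trans' ih
  obtain ⟨X, gX, le, hY, hX⟩ := hCAP Γ a H l {g | ∃ n t, g = y n t} hH hb hd (by
    rintro n _ ⟨m, t, rfl⟩
    rcases le_total n m with k | k
    · exact Subgroup.mem_sup_right ⟨Subgroup.mem_sup_right (Subgroup.subset_closure ⟨m, t, rfl⟩),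
        (mem_ball (hb n).pos.le).2 ((hy m t).trans' (mono n m k))⟩
    · obtain ⟨d, rfl⟩ := Nat.exists_eq_add_of_le k
      have key : ∀ d m t, y m t ∈ (H ⊔ ((H ⊔ Subgroup.closure {g | ∃ n t, g = y n t}) ⊓
          ball Γ (l (m + d))) : Subgroup (MM Γ a)) := by
        intro d
        induction d with
        | zero => exact fun m t => Subgroup.mem_sup_right ⟨Subgroup.mem_sup_right
            (Subgroup.subset_closure ⟨m, t, rfl⟩), (mem_ball (hb m).pos.le).2 (hy m t)⟩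
        | succ d ih =>
          intro m t
          rw [he m, show m + (d + 1) = m + 1 + d by omega]
          exact S2env.weave_mem _ _ _ (fun i => Subgroup.mem_sup_left (hh m t i)) fun i => ih _ _
      exact key d m t)
  refine ⟨X, ⟨gX, fun n => hS2_LV Γ a H X _ (hb n) hH.toGC0 gX.toGC0 ?_, hd⟩,
    fun n t => hY ⟨n, t, rfl⟩⟩
  refine le_antisymm ((hX (n + 1)).le.trans (sup_le_sup_left (inf_le_inf_left _ fun g hg => ?_) _))
    (sup_le le inf_le_left)
  exact (mem_tiny (hb n).pos.le).2 (Ll.ls_left ((mem_ball (hb _).pos.le).1 hg) (hd n))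

end Pool.Agent.P.MP_dba3d2_lc


end

section

/-! Step S2_TR0 of the stability project. -/

namespace Pool.Agent.P.MP_dba3d2_lc

open Filter
open SW SW.T5

theorem p_S2_TR0 :
    S_S2_TR0 := by
  intro Γ a S n
  induction n with
  | zero =>
    exact ⟨fun t => ⟨t, by simp [fw]⟩, fun t i i' h h' => by simp_all [fw], fun i => by simp [fw],
      fun G _ j z i => by simp [fw, Shape.topG]⟩
  | succ n ih =>
    obtain ⟨h1, h2, h3, h4⟩ := ih
    refine ⟨fun t => (h1 _).imp fun i => inr_fw.2, fun t i i' h h' => h2 _ i i' (inr_fw.1 h) (inr_fw.1 h'),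
      fun i => ?_, fun G _ j z i => ?_⟩
    · have e : (fw S (n + 1) i).filterMap Sum.getRight? = ((fw S n i).filterMap Sum.getRight?).flatMap
          fun t => List.ofFn fun j => S.e n ⟨t, j⟩ := by
        rw [fw]
        induction fw S n i with
        | nil => rfl
        | cons s w ih => cases s <;> simp [List.filterMap_cons, ih, wl_right]
      rw [e, List.nodup_flatMap]
      refine ⟨fun t _ => List.nodup_ofFn_ofInjective fun j j' h => by simpa using h,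
        (h3 i).imp fun {t t'} ne x a1 a2 => ?_⟩
      obtain ⟨j, rfl⟩ := List.mem_ofFn.1 a1
      obtain ⟨j', e⟩ := List.mem_ofFn.1 a2
      exact ne (congrArg Sigma.fst ((S.e n).injective e)).symm
    · rw [Shape.topG, h4, fw]
      induction fw S n i with
      | nil => rfl
      | cons s w ih => cases s <;> simp [ih, wl_prod, Shape.upG]

end Pool.Agent.P.MP_dba3d2_lc


end

section

/-! Step S2_TR1 of the stability project. -/

namespace Pool.Agent.P.MP_dba3d2_lc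

open Filter
open SW SW.T5

theorem p_S2_TR1 :
    S_S2_TR1 := by
  intro Γ a H X l S ty m Q h y sy hX hy i
  have succ : ∀ n, (NSS S ty y (n + 1) i).map tp = flS (NSS S ty y n i) := fun n => by
    rw [NSS, NSS, fw]
    induction fw S n i with
    | nil => rfl
    | cons s w ih =>
      rw [List.flatMap_cons, List.map_append, List.map_append, ih]
      cases s
      · rfl
      · rw [List.map_cons, Sum.map_inr, fl_inr, Sum.elim_inr, wl_map, tp, wl_map]
        rfl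
  have wd : ∀ n, ∀ s ∈ NSS S ty y n i, WD (l n) H s := fun n s hs => by
    obtain ⟨x | t, e, rfl⟩ := List.mem_map.1 hs
    · exact inl_fw (fun n t j => (sy.dec n t).mem j) e
    have d := sy.dec n t
    refine ⟨lv_wl.trans d.eq.symm, ?_, fun c e => ⟨cV_wl.trans_le (d.one c e).1, fun x hx => ?_,
      fun x hx => ?_⟩⟩
    · rintro (x | x) hx
      · obtain ⟨j, rfl⟩ := inl_wl.1 hx
        exact ⟨d.mem j, d.bd j⟩
      · obtain ⟨j, rfl⟩ := inr_wl.1 hx
        exact ⟨d.ok j, d.has j, d.tin j⟩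
    · obtain ⟨j, rfl⟩ := inl_wl.1 hx
      exact (d.one c e).2.2 j
    · obtain ⟨j, rfl⟩ := inr_wl.1 hx
      exact (d.one c e).2.1 j
  refine ⟨⟨⟨y 0 i, _, by rw [NSS, fw, List.map_singleton, Sum.map_inr, sy.ty0]⟩, succ, wd, fun n => ?_,
    fun n e D hs => ?_⟩, fun n => ?_⟩
  · rintro (x | x) hx
    · exact hX (con (wd n) hx)
    · rw [← succ, NSS, List.map_map] at hx
      obtain ⟨_ | t, -, e⟩ := List.mem_map.1 hx
      · cases e
      · cases e
        exact hy _ t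
  · obtain ⟨x | t, -, e⟩ := List.mem_map.1 hs
    · cases e
    cases e
    refine ⟨fun x hx => ?_, by rw [lc_wl, lv_wl, ← (sy.dec n t).eq]; exact (sy.dec n t).add⟩
    obtain ⟨j, rfl⟩ := inr_wl.1 hx
    exact (sy.dec n t).tin j
  · induction n with
    | zero => rw [← lv_tp (wd 0)]; simp [NSS, fw]
    | succ n ih => rw [← lv_tp (wd _), succ, ih]

end Pool.Agent.P.MP_dba3d2_lc


end

section

/-! Step S2_TR2 of the stability project. -/

namespace Pool.Agent.P.MP_dba3d2_lc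

open Filter
open SW

namespace S2_tr2

theorem reindex {α β γ ι : Type} (π : β → γ) (old : ι → β) : ∀ (F : List (α ⊕ ι))
    (N : List (α ⊕ β)), (F.filterMap Sum.getRight?).Nodup →
    N.map (Sum.map id π) = (F.map (Sum.map id old)).map (Sum.map id π) →
    ∃ φ : ι → β, N = F.map (Sum.map id φ) ∧ (∀ t, Sum.inr t ∉ F → φ t = old t) ∧
      ∀ t, π (φ t) = π (old t)
  | [], N, _, h => ⟨old, by simpa using h, fun _ _ => rfl, fun _ => rfl⟩
  | _ :: _, [], _, h => by simp at h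
  | .inl g :: F, s :: N, k, h => by
    obtain ⟨e, h⟩ := List.cons.inj h
    obtain ⟨φ, a1, a2, a3⟩ := reindex π old F N k h
    rcases s with g' | b
    · obtain rfl : g' = g := Sum.inl.inj e
      exact ⟨φ, by rw [a1]; rfl, fun t ht => a2 t fun m => ht (List.mem_cons_of_mem _ m), a3⟩
    · cases e
  | .inr t :: F, s :: N, k, h => by
    classical
    obtain ⟨e, h⟩ := List.cons.inj h
    obtain ⟨k1, k2⟩ := List.nodup_cons.1 (show (t :: F.filterMap Sum.getRight?).Nodup from k)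
    obtain ⟨φ, a1, a2, a3⟩ := reindex π old F N k2 h
    rcases s with g' | b
    · cases e
    refine ⟨Function.update φ t b, ?_, fun u hu => ?_, fun u => ?_⟩
    · rw [a1, List.map_cons, Sum.map_inr, Function.update_self]
      congr 1
      refine List.map_congr_left fun s hs => ?_
      rcases s with g | u
      · rfl
      · rw [Sum.map_inr, Sum.map_inr, Function.update_of_ne]
        rintro rfl
        exact k1 (List.mem_filterMap.2 ⟨_, hs, rfl⟩)
    · rw [Function.update_of_ne, a2 u fun m => hu (List.mem_cons_of_mem _ m)]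
      rintro rfl
      exact hu List.mem_cons_self
    · rcases eq_or_ne u t with rfl | e'
      · rw [Function.update_self]
        exact Sum.inr.inj e
      · rw [Function.update_of_ne e', a3]

theorem swap_sum {α β ι M : Type} [Fintype ι] [AddCommMonoid M] (G : List (α ⊕ β) → M) (g : β → M)
    (h0 : G [] = 0) (h1 : ∀ a N, G (.inl a :: N) = G N) (h2 : ∀ b N, G (.inr b :: N) = g b + G N)
    {F : List (α ⊕ ι)} (k : (F.filterMap Sum.getRight?).Nodup) {φ old : ι → β}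
    (e : ∀ t, Sum.inr t ∉ F → φ t = old t) :
    ∑ t, g (φ t) + G (F.map (Sum.map id old)) = ∑ t, g (old t) + G (F.map (Sum.map id φ)) := by
  classical
  have a : ∀ (ψ : ι → β) (F : List (α ⊕ ι)), G (F.map (Sum.map id ψ)) =
      ((F.filterMap Sum.getRight?).map fun t => g (ψ t)).sum := fun ψ F => by
    induction F with
    | nil => exact h0
    | cons s F ih =>
      rcases s with x | t
      · exact (h1 _ _).trans ih
      · exact (h2 _ _).trans (congrArg _ ih)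
  rw [a, a, ← List.sum_toFinset _ k, ← List.sum_toFinset _ k,
    ← Finset.sum_add_sum_compl (F.filterMap Sum.getRight?).toFinset,
    ← Finset.sum_add_sum_compl (F.filterMap Sum.getRight?).toFinset fun t => g (old t),
    Finset.sum_congr rfl (s₁ := (F.filterMap Sum.getRight?).toFinsetᶜ) (g := fun t => g (old t))
      fun t ht => congrArg g (e t fun m => Finset.mem_compl.1 ht
        (List.mem_toFinset.2 (List.mem_filterMap.2 ⟨_, m, rfl⟩)))]
  abel

theorem nG_eq {X : Type} {r : ℕ} (ty : Fin r → Option X) :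
    nG ty = ∑ j, if (ty j).isNone = true then 1 else 0 := Finset.card_filter _ _

variable {Γ : HG} {a : Amb}

theorem cG_inr (x : Vr Γ a) (L : List (Lt Γ a)) :
    cG (Sum.inr x :: L) = (if x.1.isNone = true then 1 else 0) + cG L := by
  rcases x with ⟨_ | c, v⟩ <;> simp [add_comm]

theorem cG_wl : ∀ (r : ℕ) (h : Fin (r + 1) → MM Γ a) (z : Fin r → Vr Γ a),
    cG (wl r h z) = ∑ j, if (z j).1.isNone = true then 1 else 0
  | 0, _, _ => by simp [wl]
  | r + 1, h, z => by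
    rw [wl, cG_inl, cG_inr, cG_wl r, Fin.sum_univ_succ]
    rfl

theorem cV_wl : ∀ (r : ℕ) (h : Fin (r + 1) → MM Γ a) (z : Fin r → Vr Γ a), cV (wl r h z) = r
  | 0, _, _ => by simp [wl]
  | r + 1, h, z => by rw [wl, cV_inl, cV_inr, cV_wl r]

theorem unweave : ∀ D : List (Lt Γ a), ∃ (r : ℕ) (h : Fin (r + 1) → MM Γ a) (z : Fin r → Vr Γ a),
    lv D = weave r h (fun j => (z j).2) ∧ r = cV D ∧ nG (fun j => (z j).1) = cG D ∧
    ∑ j, ln (h j) ≤ lc D ∧ (∀ j, Sum.inr (z j) ∈ D) ∧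
    ∀ K : Subgroup (MM Γ a), (∀ g, Sum.inl g ∈ D → g ∈ K) → ∀ j, h j ∈ K
  | [] => ⟨0, fun _ => 1, Fin.elim0, rfl, rfl, by simp [nG], by simp, fun j => j.elim0,
      fun K _ _ => one_mem K⟩
  | .inl g :: D => by
    obtain ⟨r, h, z, a1, a2, a3, a4, a5, a6⟩ := unweave D
    refine ⟨r, Fin.cons (g * h 0) (Fin.tail h), z, ?_, by rw [cV_inl, a2], by rw [cG_inl, a3], ?_,
      fun j => List.mem_cons_of_mem _ (a5 j), fun K hK j => ?_⟩
    · rw [lv_cons, vL_inl, a1]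
      cases r <;> simp [weave, mul_assoc]
    · rw [Fin.sum_univ_succ] at a4 ⊢
      simp only [Fin.cons_zero, Fin.cons_succ, lc_inl, Fin.tail]
      linarith [ln_mul_le g (h 0)]
    · have := a6 K fun g m => hK g (List.mem_cons_of_mem _ m)
      exact Fin.cases (mul_mem (hK g List.mem_cons_self) (this 0)) (fun j => this j.succ) j
  | .inr x :: D => by
    obtain ⟨r, h, z, a1, a2, a3, a4, a5, a6⟩ := unweave D
    refine ⟨r + 1, Fin.cons 1 h, Fin.cons x z, ?_, by rw [cV_inr, a2], ?_, ?_,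
      fun j => Fin.cases List.mem_cons_self (fun j => List.mem_cons_of_mem _ (a5 j)) j,
      fun K hK j => Fin.cases (one_mem K) (a6 K fun g m => hK g (List.mem_cons_of_mem _ m)) j⟩
    · rw [lv_cons, vL_inr, a1, weave]
      simp only [Fin.cons_zero, one_mul, Fin.tail_cons]
      rfl
    · rw [cG_inr, ← a3, nG_eq, nG_eq, Fin.sum_univ_succ]
      rfl
    · rw [Fin.sum_univ_succ]
      simpa using a4

end S2_tr2

open S2_tr2 in
theorem p_S2_TR2 (hS2_TR0 : S_S2_TR0) (hS2_TR1 : S_S2_TR1) :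
    S_S2_TR2 := by
  intro Γ a H l S ty m Q h y Y n i N' hsk hlv hwd hnc
  obtain ⟨b1, b2, b3, b4⟩ := hS2_TR0 Γ a S n
  have T := hS2_TR1 Γ a H ⊤ l S ty m Q h y Y le_top fun _ _ => trivial
  have h0 := (Y.big n).pos.le
  obtain ⟨old, ho⟩ : ∃ old : Fin (S.k n) → Vr Γ a × List (Lt Γ a), ∀ t, old t = ((ty n t, y n t),
      wl (S.r n t) (S.h n t) fun j => (ty (n + 1) (S.e n ⟨t, j⟩), y (n + 1) (S.e n ⟨t, j⟩))) :=
    ⟨_, fun _ => rfl⟩
  have hN : ∀ i, NSS S ty y n i = (fw S n i).map (Sum.map id old) := fun i => by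
    rw [NSS, funext ho]
  have om : ∀ t, ∃ i, Sum.inr (old t) ∈ NSS S ty y n i := fun t => by
    obtain ⟨i, k⟩ := b1 t
    exact ⟨i, hN i ▸ List.mem_map.2 ⟨_, k, rfl⟩⟩
  have ow : ∀ t, WD (l n) H (.inr (old t)) := fun t => let ⟨i, k⟩ := om t; (T i).1.wd n _ k
  have oa : ∀ t, Ll (lc (old t).2 - ln (y n t)) (l n) := fun t => by
    obtain ⟨i, k⟩ := om t
    have := ((T i).1.add n _ _ k).2
    rwa [(ow t).1, show (old t).1.2 = y n t by rw [ho]] at this
  have e : (fun s : NL Γ a => sk (tp s)) = Sum.map id fun x => x.1.1 := by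
    funext s
    cases s <;> rfl
  rw [e, hN] at hsk
  obtain ⟨φ, rfl, f2, f3⟩ := reindex _ old _ N' (b3 i) hsk
  have f4 : ∀ t, (φ t).1.1 = ty n t := fun t => (f3 t).trans (by rw [ho])
  have w : ∀ t, WD (l n) H (.inr (φ t)) := fun t => by
    by_cases k : Sum.inr t ∈ fw S n i
    · exact hwd _ (List.mem_map.2 ⟨_, k, rfl⟩)
    · exact f2 t k ▸ ow t
  have has : ∀ t, HasT (ty n t) (φ t).1.2 := fun t c hc => by
    have k := (w t).2.2 c ((f4 t).trans hc)
    rw [← (w t).1]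
    exact lv_mem _ fun
      | .inl g, m => k.2.1 g m
      | .inr x, m => ((w t).2.1 _ m).2.1 c (k.2.2 x m)
  have top : S.top n (fun t => (φ t).1.2) = y 0 := by
    funext i'
    have : S.top n (fun t => (φ t).1.2) i' = lv (((fw S n i').map (Sum.map id φ)).map tp) := by
      rw [← S.topG_id, b4, lv, List.map_map, List.map_map]
      exact congrArg _ (List.map_congr_left fun s _ => by cases s <;> rfl)
    rw [this, ← (T i').2 n]
    rcases eq_or_ne i' i with rfl | k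
    · rw [← lv_fl hwd, hlv]
    · rw [lv_fl ((T i').1.wd n), hN]
      congr 2
      refine List.map_congr_left fun s hs => ?_
      rcases s with g | t
      · rfl
      · exact congrArg _ (f2 t fun m => k (b2 t _ _ hs m))
  have st : St Q (Sum.elim h (S.top n fun t => (φ t).1.2)) := top ▸ Y.st
  have s1 := swap_sum nc (fun x => lc x.2) rfl nc_inl nc_inr (b3 i) f2
  have s2 := swap_sum (fun N => cG (flS N)) (fun x => cG x.2) rfl (by simp) (by simp) (b3 i) f2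
  have s3 := swap_sum (fun N => cV (flS N)) (fun x => cV x.2) rfl (by simp) (by simp) (b3 i) f2
  rw [← hN] at s1 s2 s3
  have E1 : ∀ t, Ll (ln (φ t).1.2 - lc (φ t).2) (l n) := fun t => by
    rw [← (w t).1]
    exact ln_lv_le h0 fun x m => ((w t).2.1 _ m).2.2
  have E2 := (ll_sum Finset.univ _ h0 fun t _ => oa t).add hnc
  have E3 := E2.add (ll_sum Finset.univ _ h0 fun t _ => E1 t)
  have E4 := E2.add (Y.min n _ has st)
  simp only [Finset.sum_sub_distrib, tl] at E3 E4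
  have E5 : ∀ t, Ll (lc (φ t).2 - ln (φ t).1.2) (l n) := fun t => by
    refine Ll.mono_left ?_ (E4.add (ll_sum (Finset.univ.erase t) _ h0 fun t _ => E1 t))
    have := Finset.add_sum_erase _ (fun t => ln (φ t).1.2 - lc (φ t).2) (Finset.mem_univ t)
    simp only [Finset.sum_sub_distrib] at this ⊢
    linarith
  choose r' h' z' u1 u2 u3 u4 u5 u6 using fun t => unweave (φ t).2
  have := Y.opt n _ has st (Ll.mono_left (by simp only [tl]; linarith) E3) r' h'
    (fun t j => (z' t j).2) (fun t j => (z' t j).1) fun t =>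
      { mem := u6 t H fun g m => ((w t).2.1 _ m).1
        bd := fun j => (mem_ball h0).1 (u6 t _ (fun g m => (mem_ball h0).2 ((w t).2.1 _ m).2) j)
        tin := fun j => ((w t).2.1 _ (u5 t j)).2.2
        eq := (w t).1.symm.trans (u1 t)
        add := (E5 t).mono_left (sub_le_sub_right (u4 t) _)
        ok := fun j => ((w t).2.1 _ (u5 t j)).1
        has := fun j => ((w t).2.1 _ (u5 t j)).2.1
        one := fun c hc =>
          have k := (w t).2.2 c ((f4 t).trans hc)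
          ⟨(u2 t).trans_le k.1, fun j => k.2.2 _ (u5 t j), u6 t _ k.2.1⟩ }
  have c1 : nG (ty (n + 1)) = ∑ t, cG (old t).2 := by
    rw [nG_eq, ← (S.e n).sum_comp, Fintype.sum_sigma]
    exact Finset.sum_congr rfl fun t _ => by rw [ho, cG_wl]
  have c2 : S.k (n + 1) = ∑ t, cV (old t).2 := by
    have := Fintype.card_congr (S.e n)
    simp only [Fintype.card_sigma, Fintype.card_fin] at this
    rw [← this]
    exact Finset.sum_congr rfl fun t _ => by rw [ho, cV_wl]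
  simp only [u3, c1, c2, Finset.sum_congr rfl fun t _ => u2 t] at this
  omega

end Pool.Agent.P.MP_dba3d2_lc


end

section

/-! Step CUT of the stability project. -/

namespace Pool.Agent.P.MP_dba3d2_lc

open Filter ET

namespace CutA

variable {Γ : HG} {a : Amb} {μ : a.K} {c p q : MM Γ a}

/-- a divisible exponent that carries `q` to `p` -/
theorem kappa (hL : S_LINE) (hμ : Big μ) (hc : ¬ IsOfFinOrder c) (h : Stab μ p q c) :
    ∃ κ : ℚ →+ a.Z, Ll (ds p (ipow c (κ 1) * q)) μ := by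
  obtain ⟨z, hz⟩ := exists_md_ds c
  obtain ⟨L, hL1, hL2⟩ := exists_coord hL hc (Ls.of_le hz.le)
  obtain ⟨h1, -, h3⟩ := hL2 μ h.md
  have L0 : 0 < L := hL1.2.pos (one_pos.trans_le (one_le_md' hc))
  obtain ⟨i, hi⟩ := (h3 p).1 h.1
  obtain ⟨l, hl⟩ := (h3 q).1 h.2
  have hν : Big (μ / L) := fun n => (le_div_iff₀ L0).2 (Ll.ls_left hL1.1 h.md n)
  obtain ⟨k, hk1, hk2⟩ := exists_divisible (zK i - zK l) (μ / L) hν
  have hk3 : Ll (|zK k - (zK i - zK l)| * L) μ := fun n => by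
    have := (le_div_iff₀ L0).1 (hk2 n)
    rwa [mul_assoc] at this
  obtain ⟨κ, hκ⟩ := Etrl.exists_hom k hk1
  refine ⟨κ, ?_⟩
  obtain ⟨k1, -⟩ := h1 (κ 1 + l) i
  rw [zK_add, hκ, Rat.cast_one, one_mul, ipow_add, mul_assoc,
    show zK k + zK l - zK i = zK k - (zK i - zK l) by ring] at k1
  have k2 := ds_tri p (ipow c i * z) (ipow c (κ 1) * q)
  have k3 := ds_tri (ipow c i * z) (ipow c (κ 1) * (ipow c l * z)) (ipow c (κ 1) * q)
  rw [ds_mul_left, ds_comm _ q, ds_comm _ (ipow c (κ 1) * (ipow c l * z))] at k3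
  exact Ll.mono_left (by linarith) (((hi.add hl).add k1).add hk3)

end CutA

theorem p_CUT (hFINM : S_FINM) (hELEM : S_ELEM) (hLINE : S_LINE) (hPERC : S_PERC) (hFRAME : S_FRAME) (hCVX : S_CVX) (hMICL : S_MICL) (hMICE : S_MICE) :
    S_CUT := by
  intro Γ a μ p q hμ hs E
  have hT : GC (⊤ : Subgroup (MM Γ a)) := hCVX Γ a ⊤ ⟨le_top, fun _ _ _ _ => trivial⟩
  by_cases hp : Per μ p q
  · obtain ⟨c, pc, st, hall⟩ := hPERC Γ a μ p q hμ hs.2 hp
    obtain ⟨κ, hκ⟩ := CutA.kappa hLINE hμ pc.1 st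
    obtain ⟨-, k, -, g0, g1, hX, -, hmd, -, hretr⟩ := hMICE Γ a ⊤ c hT.toGC0 trivial pc
    have e0 : ∀ r, ipow (E.hom Γ c) ((E.zh.toAddMonoidHom.comp κ) r) = E.hom Γ (ipow c (κ r)) :=
      fun r => (E.hom_ipow c (κ r)).symm
    have hκ' : ∀ r, ipow (E.hom Γ c) ((E.zh.toAddMonoidHom.comp κ) r) ∈
        (⊤ : Subgroup (MM Γ a)).map (E.hom Γ) := fun r => ⟨_, trivial, (e0 r).symm⟩
    obtain ⟨ρ, r1, r2⟩ := No2.rho E hX
    obtain ⟨σ, s1, s2, s3⟩ := No2.sig_bij hX hκ'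
    have hfix : Ll (ds (E.hom Γ p) (ipow (E.hom Γ c) (k 1) * E.hom Γ p)) (E.kh μ) :=
      fix_of_fix hELEM hLINE (fun e => pc.1 (E.finOrder_iff.1 e)) (ipow_mem_Ep _ _)
        (by rw [← map_mul, E.ds_hom, E.ll_iff]; exact st.1) (hmd 1 μ st.md)
    refine ⟨No2.TT _ (E.hom Γ c) k,
      (E.hom Γ).codRestrict _ fun g =>
        Subgroup.mem_sup_left (Subgroup.mem_map_of_mem _ (Subgroup.mem_top g)),
      No2.nu _ (E.hom Γ c) k (No2.mem_s _ _ k) (.ofAdd 1), ρ, σ, ⟨g0, g1 hT.finc⟩, fun _ => rfl,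
      fun g => r1 _ g trivial rfl, r2 _ 1 rfl, hretr ρ (fun t g e => r1 t g trivial e) r2, s1,
      fun g => s2 _ ⟨g, trivial, rfl⟩,
      fun g hg => Subtype.ext (commute_k k ((GT.memEp_hom E).2 (hall g hg)) 1).eq, hfix, ?_⟩
    rw [s3]
    show Ll (ds (E.hom Γ p) (ipow (E.hom Γ c) (k 1 + (E.zh.toAddMonoidHom.comp κ) 1) * E.hom Γ q)) _
    have e1 := E.ll_iff.2 hκ
    rw [← E.ds_hom, map_mul, ← ds_mul_left (ipow (E.hom Γ c) (k 1))] at e1
    rw [ipow_add, e0, mul_assoc]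
    exact Ll.mono_left (ds_tri _ _ _) (hfix.add e1)
  · obtain ⟨z, z', hz, hz', K, hK, hc, hst⟩ := hFRAME Γ a μ (p⁻¹ * q) hμ hs.2 fun h =>
      hp (by simpa using (per_mul_iff p).2 h)
    obtain ⟨u, M⟩ := No1.mic hMICL hμ hT (fun _ : Fin 1 => K) fun _ => hK
    obtain ⟨ρ, r1, r2⟩ := M.rho
    obtain ⟨σ, s0, s1, s2⟩ := M.sigma (fun _ => ⟨z⁻¹ * (p⁻¹ * q) * z', trivial⟩) fun _ => hc
    obtain ⟨j, hj⟩ : ∃ j : MM Γ a →* No1.TT E ⊤ u, ∀ g, j g = No1.emb E ⊤ u ⟨g, trivial⟩ :=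
      ⟨(No1.emb E ⊤ u).comp Subgroup.topEquiv.symm.toMonoidHom, fun _ => rfl⟩
    have hj' : ∀ g, (j g : MM Γ (a.pow U0)) = E.hom Γ g := fun g => by rw [hj]; rfl
    have sj : ∀ g, σ (j g) = j g := fun g => by rw [hj, s1]
    have rj : ∀ g, ρ (j g) = g := fun g => by rw [hj, r1]
    refine ⟨No1.TT E ⊤ u, j, j (p * z) * No1.uT E ⊤ u 0 * (j (p * z))⁻¹, ρ, σ, M.gc, hj', rj,
      by rw [map_mul, map_mul, r2, mul_one, map_inv, mul_inv_cancel], M.ret ρ (fun t g e => ?_) fun t i e => ?_, s0, sj, fun g hg => ?_, ?_, ?_⟩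
    · obtain rfl : t = j g := Subtype.ext (e.trans (hj' g).symm)
      exact rj g
    · obtain rfl : t = No1.uT E ⊤ u i := Subtype.ext e
      exact r2 i
    · have k1 := (hst (p⁻¹ * g * p)).1 ((stab_conj' p).2 (by simpa using hg))
      have k2 := (M.comm 0 (x := ⟨z⁻¹ * (p⁻¹ * g * p) * z, trivial⟩) k1).conj (j (p * z))
      rw [← hj] at k2
      simpa [mul_assoc] using k2.symm
    · have := M.small 0 (p := ⟨z, trivial⟩) (q := ⟨z, trivial⟩) hz hz
      rw [← hj] at this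
      refine (congrArg (fun t => Ll (ln t) _) ?_).mp this
      simp [hj', mul_assoc]
      rfl
    · have := M.small 0 (p := ⟨z, trivial⟩) (q := ⟨z', trivial⟩) hz hz'
      rw [← hj, ← hj] at this
      rw [map_mul, map_mul, map_inv, sj, s2, ← hj]
      refine (congrArg (fun t => Ll (ln t) _) ?_).mp this
      simp [hj', mul_assoc]

end Pool.Agent.P.MP_dba3d2_lc


end
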