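import Pool.Agent.P.MP_dba3d2_lcM.Ab05
import Pool.Agent.P.MP_dba3d2_lcM.Bb10
import Pool.Agent.P.MP_dba3d2_lcM.Eb26
import Pool.Agent.P.MP_dba3d2_lcM.Eb29
import Pool.Agent.P.MP_dba3d2_lcM.Fb30
import Pool.Agent.P.MP_dba3d2_lcM.Fb38
import Pool.Agent.P.MP_dba3d2_lcM.Fb39
import Pool.Agent.P.MP_dba3d2_lcM.Fb40

section

/-! Step FS_SHR of the stability project. -/

namespace Pool.Agent.P.MP_dba3d2_lc

open Filter

namespace Shr

variable {Γ : HG} {a b : Amb}

/-- the length of the broken line that jumps over the cuts -/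
def skip (p q : MM Γ a) : MM Γ a → List (MM Γ a × Bool) → MM Γ a → a.K
  | x, [], y => ds x y
  | x, s :: l, y => ds x (s.1 * cond s.2 p q) + skip p q (s.1 * cond s.2 q p) l y

theorem skip_le {μ : a.K} (h0 : 0 ≤ μ) (p q y : MM Γ a) : ∀ (l : List (MM Γ a × Bool)) (x : MM Γ a),
    OrdOn μ x (cutPts p q l) y → Ll (skip p q x l y + l.length * ds p q - ds x y) μ
  | [], x, _ => by simpa [skip] using Ll.zero h0
  | s :: l, x, h => by
    obtain ⟨h1, h2, h3⟩ : On μ (s.1 * cond s.2 p q) x y ∧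
      On μ (s.1 * cond s.2 q p) (s.1 * cond s.2 p q) y ∧
      OrdOn μ (s.1 * cond s.2 q p) (cutPts p q l) y := h
    have e : ds (s.1 * cond s.2 p q) (s.1 * cond s.2 q p) = ds p q := by
      rw [ds_mul_left]
      cases s.2
      · exact ds_comm _ _
      · rfl
    have h4 := skip_le h0 p q y l _ h3
    unfold On at h1 h2
    rw [e] at h2
    refine Ll.mono_left (le_of_eq ?_) ((h1.add h2).add h4)
    simp only [skip, List.length_cons]
    push_cast
    ring

theorem skip_same {μ : a.K} (h0 : 0 ≤ μ) (p y : MM Γ a) : ∀ (l : List (MM Γ a × Bool)) (x : MM Γ a),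
    OrdOn μ x (l.map fun s => s.1 * p) y → Ll (skip p p x l y - ds x y) μ
  | [], x, _ => by simpa [skip] using Ll.zero h0
  | s :: l, x, h => by
    obtain ⟨h1, h3⟩ : On μ (s.1 * p) x y ∧
      OrdOn μ (s.1 * p) (l.map fun s : MM Γ a × Bool => s.1 * p) y := h
    have h4 := skip_same h0 p y l _ h3
    unfold On at h1
    refine Ll.mono_left (le_of_eq ?_) (h1.add h4)
    simp only [skip, Bool.cond_self]
    ring

theorem len_le (E : Ext a b) (ν : MM Γ b) (p q y : MM Γ a) :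
    ∀ (l : List (MM Γ a × Bool)) (x : MM Γ a),
    ds (E.hom Γ x) (cutEv (E.hom Γ) ν l * E.hom Γ y) ≤
      E.kh (skip p q x l y) + l.length * ds (E.hom Γ p) (ν * E.hom Γ q)
  | [], x => by simp [skip, cutEv, E.ds_hom]
  | s :: l, x => by
    have h := len_le E ν p q y l (s.1 * cond s.2 q p)
    set t := E.hom Γ s.1 * cond s.2 ν ν⁻¹ * (E.hom Γ s.1)⁻¹ with ht
    have e : ds (E.hom Γ (s.1 * cond s.2 p q)) (t * E.hom Γ (s.1 * cond s.2 q p)) =
        ds (E.hom Γ p) (ν * E.hom Γ q) := by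
      rw [ht, map_mul, map_mul, mul_assoc, inv_mul_cancel_left, mul_assoc, ds_mul_left]
      cases s.2
      · rw [← ds_mul_left ν, ds_comm]
        simp
      · rfl
    have k1 := ds_tri (E.hom Γ x) (E.hom Γ (s.1 * cond s.2 p q)) (t * (cutEv (E.hom Γ) ν l * E.hom Γ y))
    have k2 := ds_tri (E.hom Γ (s.1 * cond s.2 p q)) (t * E.hom Γ (s.1 * cond s.2 q p))
      (t * (cutEv (E.hom Γ) ν l * E.hom Γ y))
    rw [ds_mul_left, e] at k2
    rw [E.ds_hom] at k1
    rw [cutEv_cons, ← ht, mul_assoc]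
    simp only [skip, List.length_cons, map_add]
    push_cast
    linarith

/-- the class map of the ultrapower as a homomorphism -/
noncomputable def mkH (Γ : HG) (a : Amb) : (ℕ → MM Γ a) →* MM Γ (a.pow U0) :=
  MonoidHom.mk' (fun f => a.mk' U0 f) fun f g => mk'_mul U0 f g

theorem tl_mk' {k : ℕ} (f : Fin k → ℕ → MM Γ a) :
    tl (a := a.pow U0) (fun i => a.mk' U0 (f i)) = a.mk' U0 fun n => tl fun i => f i n := by
  have : ∀ s : Finset (Fin k), ∑ i ∈ s, ln (a := a.pow U0) (a.mk' U0 (f i)) =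
      a.mk' U0 fun n => ∑ i ∈ s, ln (f i n) := fun s => by
    induction s using Finset.induction_on with
    | empty => exact (map_zero (a.dg U0).kh).symm.trans (mk'_kh U0 0).symm
    | insert i s hi ih =>
      simp only [Finset.sum_insert hi, mk'_add]
      rw [ih, ln_mk']
  exact this _

/-- near minimality passes to the ultrapower -/
theorem pass (S : Shape Γ a) {m n : ℕ} (Q : (Fin m ⊕ Fin (S.k 0) → Γ.G) → Prop)
    (h : Fin m → MM Γ a) {μ : a.K} (ty : Fin (S.k n) → Option (MM Γ a)) (y : Fin (S.k n) → MM Γ a)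
    (hy : ∀ i, HasT (ty i) (y i))
    (hm : ∀ z, (∀ i, HasT (ty i) (z i)) → St Q (Sum.elim h (S.top n z)) → Ll (tl y - tl z) μ)
    (z : Fin (S.k n) → MM Γ (a.pow U0)) (hz : ∀ i, ty i ≠ none → z i = (a.dg U0).hom Γ (y i))
    (hs : St Q (Sum.elim (fun i => (a.dg U0).hom Γ (h i)) (S.topG ((a.dg U0).hom Γ) n z))) :
    Ll ((a.dg U0).kh (tl y) - tl z) ((a.dg U0).kh μ) := by
  have ex : ∀ i, ∃ f : ℕ → MM Γ a, a.mk' U0 f = z i ∧ ∀ t, HasT (ty i) (f t) := fun i => by
    by_cases e : ty i = none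
    · obtain ⟨f, hf⟩ := mk'_surjective U0 (z i)
      exact ⟨f, hf, fun t c hc => by simp [e] at hc⟩
    · exact ⟨fun _ => y i, (mk'_hom U0 _).trans (hz i e).symm, fun _ => hy i⟩
  choose f hf ht using ex
  obtain rfl : z = fun i => a.mk' U0 (f i) := funext fun i => (hf i).symm
  have e1 : (mkH Γ a).comp (Pi.constMonoidHom ℕ (MM Γ a)) = (a.dg U0).hom Γ :=
    MonoidHom.ext fun g => mk'_hom U0 g
  have e2 : Sum.elim (fun i => (a.dg U0).hom Γ (h i))
      (S.topG ((a.dg U0).hom Γ) n fun i => a.mk' U0 (f i)) =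
      fun i => a.mk' U0 fun t => Sum.elim h (S.top n fun i => f i t) i := by
    funext i
    rcases i with i | i
    · exact (mk'_hom U0 _).symm
    · have k := S.map_topG (Pi.constMonoidHom ℕ (MM Γ a)) (mkH Γ a) n f i
      rw [e1] at k
      refine k.symm.trans (congrArg (a.mk' U0) (funext fun t => ?_))
      have k2 := S.map_topG (Pi.constMonoidHom ℕ (MM Γ a)) (Pi.evalMonoidHom (fun _ => MM Γ a) t) n f i
      exact k2.trans (congrFun (S.topG_id n _) i)
  rw [e2, st_mk'] at hs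
  rw [tl_mk', ← mk'_kh, ← mk'_sub]
  exact ET.ll_mk'_kh U0 (hs.mono fun t k => hm _ (fun i => ht i t) k)

end Shr

open Shr in
theorem p_FS_SHR (hREFL2 : S_REFL2) (hCUT : S_CUT) :
    S_FS_SHR := by
  intro Γ a X S m Q h x hX hQ hh hx hs
  obtain ⟨A, n0, a1, a2, hA⟩ := hREFL2 Γ a _ (a.dg U0) X m _ Q h x hX hQ hh hx hs
  refine ⟨A, a1, a2, ?_⟩
  intro n μ p q ty y C D hμ hpq hy hm hD hC hni hord hmul
  obtain ⟨T, j, ν, ρ, σ, gT, hj, hρ, ρν, hr, bσ, sj, com, l1, l2⟩ := hCUT Γ a μ p q hμ hpq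
  have pas := pass S Q h ty y hy hm
  change Ll _ ((a.dg U0).kh μ) at l1 l2
  generalize a.dg U0 = E at *
  generalize a.pow U0 = b at *
  obtain ⟨m1, m2⟩ := hmul T j ν com
  have ej : T.subtype.comp j = E.hom Γ := MonoidHom.ext hj
  have coe : ∀ (ν : T) l g, ((cutEv j ν l * j g : T) : MM Γ b) =
      cutEv (E.hom Γ) (ν : MM Γ b) l * E.hom Γ g := fun ν l g => by
    rw [Subgroup.coe_mul, hj, ← ej, ← Subgroup.subtype_apply ν, ← map_cutEv]
    rfl
  have st := hA T (fun w => cutEv j ν (C w) * j w) ρ ⟨gT.toGC0, hr n0, fun w hw w' hw' hww => ?_,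
    fun w hw e => ?_, fun w _ => ?_, fun w hw => ?_⟩
  · have eσ : σ.comp j = j := MonoidHom.ext sj
    have r1 : (T.subtype.comp σ).range = T := by
      rw [MonoidHom.range_comp, MonoidHom.range_eq_top.2 bσ.2, ← MonoidHom.range_eq_map,
        Subgroup.range_subtype]
    have tr := hQ b b T (T.subtype.comp σ) gT (by rw [r1]; exact gT)
      ((Subgroup.subtype_injective _).comp bσ.1)
      (Sum.elim (fun i => j (h i)) fun i => cutEv j ν (C (x i)) * j (x i))
    have k := pas (fun t => cutEv (E.hom Γ) (σ ν : MM Γ b) (D t) * E.hom Γ (y t))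
      (fun i e => by simp [hD i e, cutEv]) (by
      convert tr.1 ?_ using 2 with i
      · rcases i with i | i
        · exact ((congrArg Subtype.val (sj (h i))).trans (hj _)).symm
        · rw [Sum.elim_inr, Sum.elim_inr, m2, S.map_topG, MonoidHom.comp_assoc, eσ, ej]
          congr 1
          funext t
          rw [← coe, MonoidHom.comp_apply, map_mul, map_cutEv, eσ, sj]
          rfl
      · convert st using 2 with i
        rcases i with i | i
        · exact hj _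
        · rfl)
    have hν : Big (E.kh μ) := E.big_iff.2 hμ
    have k1 : ∀ t, Ll (ln (cutEv (E.hom Γ) (σ ν : MM Γ b) (D t) * E.hom Γ (y t)) +
        (D t).length * E.kh (ds p q) - E.kh (ln (y t))) (E.kh μ) := fun t => by
      have b1 := len_le E (σ ν : MM Γ b) p q (y t) (D t) 1
      have b2 := E.ll_iff.2 (skip_le hμ.pos.le p q (y t) (D t) 1 (hord t))
      rw [map_one, ds_one_left] at b1
      rw [ds_one_left, map_sub, map_add, map_mul, map_natCast] at b2
      exact Ll.mono_left (by linarith) (b2.add (l2.nat_mul (D t).length))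
    have k2 := ll_sum Finset.univ _ hν.pos.le fun t _ => k1 t
    rw [Finset.sum_sub_distrib, Finset.sum_add_distrib] at k2
    rw [tl, tl, map_sum] at k
    have k3 : Ll (∑ t, ((D t).length : b.K) * E.kh (ds p q)) (E.kh μ) :=
      Ll.mono_left (le_of_eq (by ring)) (k.add k2)
    have p0 : 0 ≤ E.kh (ds p q) := by
      rw [← E.ds_hom]
      exact ds_nonneg _ _
    intro i
    by_contra e
    have k4 : E.kh (ds p q) ≤ ∑ t, ((D t).length : b.K) * E.kh (ds p q) :=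
      le_trans (le_mul_of_one_le_left p0 (by exact_mod_cast List.length_pos_iff.2 e))
        (Finset.single_le_sum (f := fun t => ((D t).length : b.K) * E.kh (ds p q))
          (fun t _ => mul_nonneg (Nat.cast_nonneg _) p0) (Finset.mem_univ i))
    exact (Ll.mono_left k4 k3).not_ls hν.pos (E.ls_iff.2 hpq.2)
  · rw [m1 w hw w' hw' hww, cutEv_mv, map_mul]
    group
  · rw [hC w hw e]
    simpa [cutEv] using hj w
  · rw [map_mul, map_cutEv, ρν, cutEv_one, one_mul, hρ]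
  · refine Tre.nb_le (not_big_nat 0) ?_
    rw [Nat.cast_zero, coe]
    change _ - _ * E.kh _ ≤ _
    have p0 : 0 ≤ E.kh (ln w) := by
      rw [← E.ln_hom]
      exact ln_nonneg _
    by_cases e : C w = []
    · rw [e, show cutEv (E.hom Γ) (ν : MM Γ b) [] = 1 from rfl, one_mul, E.ln_hom]
      linarith
    · obtain ⟨c1, c2⟩ := hni w hw e
      have b1 := len_le E (ν : MM Γ b) p p w (C w) 1
      have b2 := E.ll_iff.2 (skip_same (ln_nonneg w) p w (C w) 1 c2)
      rw [map_one, ds_one_left] at b1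
      rw [ds_one_left, map_sub] at b2
      have b3 := (b2.add ((l1.nat_mul (C w).length).ls_right (E.ls_iff.2 c1) p0)) n0
      have b4 := mul_le_mul_of_nonneg_left b1 (Nat.cast_nonneg (α := b.K) n0)
      linarith

end Pool.Agent.P.MP_dba3d2_lc


end

section

/-! Step S2_TR3 of the stability project. -/

namespace Pool.Agent.P.MP_dba3d2_lc

open Filter
open SW SW.T5

theorem SW.T5.ordOn_pts {Γ : HG} {a : Amb} {μ : a.K} {y : MM Γ a} :
    ∀ {L : List (MM Γ a × Bool)} {x : MM Γ a},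
      OrdOn μ x (cutPts 1 1 L) y → OrdOn μ x (L.map fun s => s.1 * 1) y
  | [], _, _ => trivial
  | s :: L, x, h => by
    have h' : OrdOn μ x (s.1 * 1 :: s.1 * 1 :: cutPts 1 1 L) y := by simpa [cutPts] using h
    exact ⟨h'.1, SW.T5.ordOn_pts h'.2.2⟩

theorem p_S2_TR3 (hFS_SHR : S_FS_SHR) (hS2_TR0 : S_S2_TR0) (hS2_TR1 : S_S2_TR1) :
    S_S2_TR3 := by
  intro Γ a H X l S ty m Q h y sy hH hG hX hQ hh hy
  obtain ⟨A, a1, -, a3⟩ := hFS_SHR Γ a X S m Q h (y 0) hG hQ (fun i => hX (hh i)) (hy 0) sy.st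
  refine ⟨A, a1, fun n p C D h1 h2 h3 h4 h5 h6 => ?_⟩
  obtain ⟨t1, -, -, t4⟩ := hS2_TR0 Γ a S n
  have tr := hS2_TR1 Γ a H X l S ty m Q h y sy hX hy
  have mem : ∀ t, ∃ i, Sum.inr ((ty n t, y n t), wl (S.r n t) (S.h n t) fun j =>
      (ty (n + 1) (S.e n ⟨t, j⟩), y (n + 1) (S.e n ⟨t, j⟩))) ∈ NSS S ty y n i := fun t =>
    (t1 t).imp fun i e => List.mem_map.2 ⟨_, e, rfl⟩
  have k := a3 n (l n) 1 p (ty n) (y n) C (fun t => D (.inr ((ty n t, y n t), wl (S.r n t) (S.h n t)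
      fun j => (ty (n + 1) (S.e n ⟨t, j⟩), y (n + 1) (S.e n ⟨t, j⟩))))) (sy.big n)
    (by rwa [ds_one_left]) (fun t c e => ?_) (sy.min n) (fun t e => ?_) (fun w _ e => h2 w ?_)
    (fun w hw e => (h3 w (a1 w hw) e).imp_right ordOn_pts)
    (fun t => (mem t).elim fun i e => h5 i _ e) fun G _ j ν cm => ⟨fun w hw w' hw' _ => ?_, fun i => ?_⟩
  · intro i s hs
    obtain ⟨x | t, -, rfl⟩ := List.mem_map.1 hs
    exacts [h4 i _ hs rfl, k t]
  · obtain ⟨i, hs⟩ := mem t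
    obtain ⟨w1, w2, w3⟩ := (tr i).1.wd n _ hs
    exact (show lv _ = y n t from w1) ▸ _root_.Pool.Agent.P.MP_dba3d2_lc.SW.T5.lv_mem (tyl_mem (w3 c e) w2)
  · obtain ⟨i, hs⟩ := mem t
    exact h4 i _ hs (Option.isNone_eq_false_iff.2 (Option.isSome_iff_ne_none.2 e))
  · rcases e with ⟨i, rfl⟩ | e
    exacts [hh i, hH.base e]
  · rw [cutEv_mv, eq_mul_inv_of_mul_eq ((h6 G j ν cm).1 w hw w' hw'), map_mul]
    group
  · have := (h6 G j ν cm).2 i
    rw [(tr i).2] at this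
    rw [this, t4, NSS, List.map_map]
    congr 1
    refine List.map_congr_left ?_
    rintro (x | t) e
    · rw [Function.comp_apply, h4 i _ (List.mem_map.2 ⟨_, e, rfl⟩) rfl, cutEv_nil, one_mul]
      rfl
    · rfl

end Pool.Agent.P.MP_dba3d2_lc


end

section

/-! Step S2_INV of the stability project. -/

namespace Pool.Agent.P.MP_dba3d2_lc

open Filter
open SW SW.T5

theorem p_S2_INV :
    S_S2_INV := by
  intro Γ a H X l N hN
  refine ⟨⟨?_, fun n => by rw [tp_ni, hN.succ, _root_.Pool.Agent.P.MP_dba3d2_lc.SW.T5.fl_ni], fun n => wd_ni (hN.wd n), fun n x hx => ?_,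
    fun n e D hs => ?_⟩, fun n M e1 e2 e3 e4 => ?_⟩
  · obtain ⟨y, D, e⟩ := hN.base
    exact ⟨y⁻¹, li D, by simp [e]⟩
  · rw [_root_.Pool.Agent.P.MP_dba3d2_lc.SW.T5.fl_ni, _root_.Pool.Agent.P.MP_dba3d2_lc.SW.T5.mem_li] at hx
    simpa using hN.mem n _ hx
  · simpa using ad_li (hN.add n _ _ (_root_.Pool.Agent.P.MP_dba3d2_lc.SW.T5.mem_ni.1 hs))
  · simpa using hN.opt n (ni M) (by rw [sk_ni, e1, ← sk_ni, _root_.Pool.Agent.P.MP_dba3d2_lc.SW.T5.ni_ni]) (by
      rw [_root_.Pool.Agent.P.MP_dba3d2_lc.SW.T5.fl_ni, _root_.Pool.Agent.P.MP_dba3d2_lc.SW.T5.lv_li, e2, _root_.Pool.Agent.P.MP_dba3d2_lc.SW.T5.fl_ni, _root_.Pool.Agent.P.MP_dba3d2_lc.SW.T5.lv_li, inv_inv]) (wd_ni e3) (by simpa using e4)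

end Pool.Agent.P.MP_dba3d2_lc


end

section

/-! Step S2_REPL of the stability project. -/

namespace Pool.Agent.P.MP_dba3d2_lc

open Filter
open SW SW.T5

theorem p_S2_REPL :
    S_S2_REPL := by
  intro Γ a H μ N A B r x h0 wd e hr
  obtain ⟨M, e1, e2, e3, e4⟩ := repl h0 hr N A wd e
  exact ⟨M, e1, e3, e4, e2⟩

end Pool.Agent.P.MP_dba3d2_lc


end

section

/-! Step S2_OPT of the stability project. -/

namespace Pool.Agent.P.MP_dba3d2_lc

open Filter
open SW SW.T5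

theorem SW.T5.lc_nonneg {Γ : HG} {a : Amb} (L : List (Lt Γ a)) : 0 ≤ lc L := by
  induction L with
  | nil => exact le_rfl
  | cons s L ih => cases s <;> simp [ih, add_nonneg, ln_nonneg]

theorem p_S2_OPT (hS2_REPL : S_S2_REPL) :
    S_S2_OPT := by
  intro Γ a H μ N h0 wd op
  have _ := hS2_REPL
  refine ⟨fun A B r x e hr k => opt1 wd op h0 (by simp [e]) hr k, fun A β B x x' v e h1 h2 k => ?_,
    fun N1 N2 y A D B e h => ?_⟩
  · have := opt2 wd op h0 e (rep_one (var wd (x := x) (by simp [e])).1 h1 h2) rep_nil (by simpa using k)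
    simp only [cG_inr, _root_.Pool.Agent.P.MP_dba3d2_lc.SW.T5.cG_nil, _root_.Pool.Agent.P.MP_dba3d2_lc.SW.T5.cV_inr, _root_.Pool.Agent.P.MP_dba3d2_lc.SW.T5.cV_nil] at this
    omega
  · subst e
    obtain ⟨w1, w2, -⟩ := wd (.inr ((none, y), A ++ D ++ B)) (by simp)
    have := op (N1 ++ .inr ((none, y), A ++ [.inr (none, lv D)] ++ B) :: N2) (by simp) (by simp)
      (fun s hs => ?_) (Ll.of_nonpos (by simpa using _root_.Pool.Agent.P.MP_dba3d2_lc.SW.T5.lc_nonneg D) h0)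
    · simp only [_root_.Pool.Agent.P.MP_dba3d2_lc.SW.T5.fl_append, fl_inr, _root_.Pool.Agent.P.MP_dba3d2_lc.SW.T5.cG_append, _root_.Pool.Agent.P.MP_dba3d2_lc.SW.T5.cG_none, _root_.Pool.Agent.P.MP_dba3d2_lc.SW.T5.cG_nil] at this
      omega
    simp only [List.mem_append, List.mem_cons] at hs
    rcases hs with hs | rfl | hs
    · exact wd s (by simp [hs])
    · refine ⟨by simpa using w1, fun t ht => ?_, fun c k => by cases k⟩
      simp only [List.mem_append, List.mem_singleton] at ht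
      rcases ht with (ht | rfl) | ht
      · exact w2 t (by simp [ht])
      · exact ⟨fun c k => (by cases k), hasT_none _, h⟩
      · exact w2 t (by simp [ht])
    · exact wd s (by simp [hs])

end Pool.Agent.P.MP_dba3d2_lc


end

section

/-! Step S2_F12 of the stability project. -/

namespace Pool.Agent.P.MP_dba3d2_lc

open Filter
open SW SW.T5

theorem p_S2_F12 (hELEM : S_ELEM) (hLINE : S_LINE) (hROOT : S_ROOT) (hS2_OPT : S_S2_OPT) :
    S_S2_F12 := by
  intro Γ a H X μ N hv wd hX op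
  have _ := hS2_OPT
  refine ⟨fun h => con wd, fun v hx => ?_, fun c f hx => ?_⟩
  · have m : v ∈ WW X μ := ⟨hX _ hx, (mem_tiny hv.big.pos.le).2 (var wd hx).2.2⟩
    exact ⟨m, fun e => not_hatM wd op hv.gH hx (hv.hm v e m)⟩
  · obtain ⟨u1, u2, u3⟩ := var wd hx
    exact ⟨(u1 c rfl).1, (u1 c rfl).2.1, ty_ll wd op hELEM hLINE hROOT hv.gH hx, hX _ hx, u2 c rfl,
      not_mem wd op hx, u3⟩

end Pool.Agent.P.MP_dba3d2_lc


end

section

/-! Step S2_F34 of the stability project. -/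

namespace Pool.Agent.P.MP_dba3d2_lc

open Filter
open SW SW.T5

theorem p_S2_F34 (hELEM : S_ELEM) (hLINE : S_LINE) (hS2_OPT : S_S2_OPT) :
    S_S2_F34 := by
  intro Γ a H X μ N _ wd op fa
  have _ := hS2_OPT
  refine ⟨fun A c f β c' f' B e _ k => ?_, fun A v β c f B e _ k => ?_⟩
  · obtain ⟨-, a2, a3, -⟩ := fa.exp c f (by simp [e])
    obtain ⟨-, -, -, -, b5, -, b7⟩ := fa.exp c' f' (by simp [e])
    have m : lv β * f' * (lv β)⁻¹ ∈ Ep c := k ▸ mem_Ep_conj.2 (by simpa [mul_assoc] using b5)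
    have t := a2.disp_ep hELEM hLINE m 1
    rw [ds_one_mul, ds_one_mul, md_conj'] at t
    exact slideL wd op e (Ll.ls_left t ((Ll.mono_left (md_le_ln _) b7).add a3))
      (by rintro _ ⟨rfl⟩; exact m)
  · obtain ⟨-, a2, -, -, a5, -, a7⟩ := fa.exp c f (by simp [e])
    have t := a2.disp_ep hELEM hLINE a5 (lv β)⁻¹
    rw [ds_conj, ds_conj, inv_inv] at t
    exact slideL wd op e (Ll.ls_left t ((Ll.mono_left (md_le_ln _) a7).add k)) (hasT_none _)

end Pool.Agent.P.MP_dba3d2_lc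


end

section

/-! Step S2_KID of the stability project. -/

namespace Pool.Agent.P.MP_dba3d2_lc

open Filter
open SW SW.T5

theorem p_S2_KID :
    S_S2_KID := by
  intro Γ a H X μ ν N hX wd fa fb
  refine ⟨fun y D hs => ?_, fun c y D hs => ?_⟩
  · by_contra k
    push Not at k
    refine (fb.gen y (List.mem_map_of_mem (f := tp) hs)).2 ((show lv D = y from (wd _ hs).1) ▸ _root_.Pool.Agent.P.MP_dba3d2_lc.SW.T5.lv_mem ?_)
    rintro (h | ⟨_ | c, f⟩) ht
    · exact Subgroup.mem_sup_left ((wd _ hs).2.1 _ ht).1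
    · exact (k f ht).elim
    · obtain ⟨a1, a2, -, a4, a5, -⟩ := fa.exp c f (_root_.Pool.Agent.P.MP_dba3d2_lc.SW.T5.mem_fl.2 (.inr ⟨_, _, hs, ht⟩))
      exact Subgroup.mem_sup_right (Subgroup.subset_closure ⟨a4, c, ⟨a1, hX a1⟩, a2, a5⟩)
  · obtain ⟨w1, w2, w3⟩ := wd _ hs
    have t := w3 c rfl
    have m := tyl_mem t w2
    obtain ⟨⟨τ, f⟩, hx⟩ : ∃ x, Sum.inr x ∈ D := by
      by_contra k
      push Not at k
      refine (fb.exp c y (List.mem_map_of_mem (f := tp) hs)).2.2.2.2.2.1 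
        ((show lv D = y from w1) ▸ _root_.Pool.Agent.P.MP_dba3d2_lc.SW.T5.lv_mem ?_)
      rintro (h | x) ht
      exacts [(w2 _ ht).1, (k x ht).elim]
    obtain rfl : τ = some c := t.2.2 _ hx
    obtain ⟨β, β', rfl⟩ := List.append_of_mem hx
    have t1 := t.1
    simp only [_root_.Pool.Agent.P.MP_dba3d2_lc.SW.T5.cV_append, _root_.Pool.Agent.P.MP_dba3d2_lc.SW.T5.cV_inr] at t1
    have nv : ∀ L : List (Lt Γ a), cV L = 0 → NoV L := fun L e x hx => by
      simpa using List.countP_eq_zero.1 e _ hx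
    exact ⟨β, f, β', rfl, nv _ (by omega), nv _ (by omega), _root_.Pool.Agent.P.MP_dba3d2_lc.SW.T5.lv_mem fun s h => m s (by simp [h]),
      _root_.Pool.Agent.P.MP_dba3d2_lc.SW.T5.lv_mem fun s h => m s (by simp [h])⟩

end Pool.Agent.P.MP_dba3d2_lc


end

section

/-! Step S2_FAR5 of the stability project. -/

namespace Pool.Agent.P.MP_dba3d2_lc

open Filter
open SW SW.T5

theorem p_S2_FAR5 :
    S_S2_FAR5 := by
  intro Γ a H μ ν N hν hl wd kd f5 N1 ⟨τ, y⟩ A v P Nm ⟨τ', y'⟩ P' v' B N2 e _ ng _ k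
  have h0 := hν.pos.le
  obtain ⟨-, a2, a3⟩ := wd (.inr ((τ, y), A ++ .inr (none, v) :: P)) (by simp [e])
  obtain ⟨-, b2, b3⟩ := wd (.inr ((τ', y'), P' ++ .inr (none, v') :: B)) (by simp [e])
  obtain rfl : τ = none := Option.eq_none_iff_forall_ne_some.2 fun c h => by
    cases (a3 c h).2.2 (none, v) (by simp)
  obtain rfl : τ' = none := Option.eq_none_iff_forall_ne_some.2 fun c h => by
    cases (b3 c h).2.2 (none, v') (by simp)
  refine f5 (N1.map tp) y (Nm.map tp) y' (N2.map tp) (by simp [e]) (fun z hz => ?_) ?_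
  · obtain ⟨_ | ⟨x, D⟩, h1, h2⟩ := List.mem_map.1 hz
    · cases h2
    obtain rfl : x = (none, z) := by simpa using h2
    obtain ⟨w, hw⟩ := kd.ch z D (by simp [e, h1])
    exact ng w (_root_.Pool.Agent.P.MP_dba3d2_lc.SW.T5.mem_fl.2 (.inr ⟨_, _, h1, hw⟩))
  · rw [lv_tp fun s hs => wd s (by simp [e, hs])]
    have p1 := (mem_ball h0).2 (ls_lv (L := P) h0 fun s hs => a2 s (by simp [hs]))
    have p2 := (mem_ball h0).2 (ls_lv (L := P') h0 fun s hs => b2 s (by simp [hs]))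
    have p3 := (mem_ball h0).2 k
    rw [_root_.Pool.Agent.P.MP_dba3d2_lc.SW.T5.lv_append, _root_.Pool.Agent.P.MP_dba3d2_lc.SW.T5.lv_append, mul_mem_cancel_right p2, mul_mem_cancel_left p1] at p3
    exact Ll.ls_left ((mem_ball h0).1 p3) hl

end Pool.Agent.P.MP_dba3d2_lc


end

section

/-! Step S2_F5 of the stability project. -/

namespace Pool.Agent.P.MP_dba3d2_lc

open Filter
open SW SW.T5

theorem p_S2_F5 (hS2_OPT : S_S2_OPT) :
    S_S2_F5 := by
  intro Γ a H μ N h0 wd op _ A v P v' B e _ k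
  have _ := hS2_OPT
  have t := (mem_tiny h0).2 k
  exact slideL wd op e ((mem_tiny h0).1 (mul_mem (mul_mem t
    ((mem_tiny h0).2 (var wd (x := (none, v')) (by simp [e])).2.2)) (inv_mem t))) (hasT_none _)

end Pool.Agent.P.MP_dba3d2_lc


end

section

/-! Step S2_FAR4 of the stability project. -/

namespace Pool.Agent.P.MP_dba3d2_lc

open Filter
open SW SW.T5

theorem p_S2_FAR4 (hELEM : S_ELEM) (hLINE : S_LINE) :
    S_S2_FAR4 := by
  intro Γ a H μ ν N hν hl wd kd f4 N1 ⟨τ, y0⟩ A v P Nm c y β f β' N2 e _ nv _ k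
  have h0 := hν.pos.le
  obtain ⟨-, a2, a3⟩ := wd (.inr ((τ, y0), A ++ .inr (none, v) :: P)) (by simp [e])
  obtain ⟨-, b2, b3⟩ := wd (.inr ((some c, y), β ++ .inr (some c, f) :: β')) (by simp [e])
  obtain rfl : τ = none := Option.eq_none_iff_forall_ne_some.2 fun c h => by
    cases (a3 c h).2.2 (none, v) (by simp)
  refine f4 (N1.map tp) y0 (Nm.map tp) c y (N2.map tp) (by simp [e]) (fun z hz => ?_) ?_
  · obtain ⟨_ | ⟨x, D⟩, h1, h2⟩ := List.mem_map.1 hz
    · cases h2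
    obtain ⟨_ | d, w⟩ := x
    · obtain ⟨w, hw⟩ := kd.ch w D (by simp [e, h1])
      exact nv _ (_root_.Pool.Agent.P.MP_dba3d2_lc.SW.T5.mem_fl.2 (.inr ⟨_, _, h1, hw⟩))
    · obtain ⟨γ, g, γ', rfl, -⟩ := kd.ce d w D (by simp [e, h1])
      exact nv (some d, g) (_root_.Pool.Agent.P.MP_dba3d2_lc.SW.T5.mem_fl.2 (.inr ⟨_, _, h1, by simp⟩))
  · rw [lv_tp fun s hs => wd s (by simp [e, hs])]
    have pc : Prim c := ((b2 (.inr (some c, f)) (by simp)).1 c rfl).2.1
    have m : lv β ∈ Ep c := _root_.Pool.Agent.P.MP_dba3d2_lc.SW.T5.lv_mem fun s hs => tyl_mem (b3 c rfl) b2 s (by simp [hs])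
    have p1 := (mem_ball h0).2 (ls_lv (L := P) h0 fun s hs => a2 s (by simp [hs]))
    have p3 := mul_mem (mul_mem (inv_mem p1) ((mem_ball h0).2 k)) p1
    have t := pc.disp' hELEM hLINE (pc.conj (lv β)).1 (Ep_conj_mem m).symm (lv (flS Nm))⁻¹
    rw [ds_conj, ds_conj, inv_inv] at t
    refine Ll.ls_left (t.trans' ((mem_ball h0).1 ?_)) hl
    convert p3 using 1
    simp only [_root_.Pool.Agent.P.MP_dba3d2_lc.SW.T5.lv_append]
    group

end Pool.Agent.P.MP_dba3d2_lc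


end

section

/-! Step S2_F0 of the stability project. -/

namespace Pool.Agent.P.MP_dba3d2_lc

open Filter
open SW SW.T5

theorem p_S2_F0 (hS2_INV : S_S2_INV) (hS2_F12 : S_S2_F12) (hS2_F34 : S_S2_F34) (hS2_KID : S_S2_KID) (hS2_FAR5 : S_S2_FAR5) (hS2_F5 : S_S2_F5) (hS2_FAR4 : S_S2_FAR4) :
    S_S2_F0 := by
  intro Γ a H X l N hE hN
  have h0 := fun n => (hE.lv n).big.pos.le
  have fa : ∀ N, Ch0 H X l N → ∀ n, Fa H X (l n) (flS (N n)) := fun N hN n =>
    hS2_F12 Γ a H X _ _ (hE.lv n) (hN.wd n) (hN.mem n) (hN.opt n)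
  have f34 := fun N (hN : Ch0 H X l N) n =>
    hS2_F34 Γ a H X _ _ (h0 n) (hN.wd n) (hN.opt n) (fa N hN n)
  have kd : ∀ n, Kid (N (n + 1)) := fun n =>
    hS2_KID Γ a H X (l n) _ _ (hE.lv n).le (hN.wd _) (fa N hN _) (hN.succ n ▸ fa N hN n)
  have f5 : ∀ n, Far5 (l n) (N n) → F5 (l n) (flS (N n)) := fun n =>
    hS2_F5 Γ a H _ _ (h0 n) (hN.wd n) (hN.opt n)
  have far : ∀ n, Far5 (l n) (N n) := fun n => by
    induction n with
    | zero =>
      obtain ⟨y, D, e⟩ := hN.base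
      intro N1 _ _ _ _ Nm _ _ _ _ N2 k
      have := congrArg List.length (e ▸ k)
      simp only [List.length_append, List.length_cons, List.length_nil] at this
      omega
    | succ n ih =>
      exact hS2_FAR5 Γ a H (l n) _ _ (hE.lv _).big (hE.dec n) (hN.wd _) (kd n) (hN.succ n ▸ f5 n ih)
  intro n
  refine ⟨⟨fa N hN _, (f34 N hN _).1, (f34 N hN _).2, fun A c f β v B e nv => ?_, f5 _ (far _)⟩,
    far _, hS2_FAR4 Γ a H (l n) _ _ (hE.lv _).big (hE.dec n) (hN.wd _) (kd n)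
      (hN.succ n ▸ (f34 N hN n).2), kd n, hN.wd _, hN.add _⟩
  simpa using (f34 _ (hS2_INV Γ a H X l N hN) (n + 1)).2 (li B) v⁻¹ (li β) c f⁻¹ (li A)
    (by simp [e]) (_root_.Pool.Agent.P.MP_dba3d2_lc.SW.T5.noV_li nv)

end Pool.Agent.P.MP_dba3d2_lc


end

section

/-! Step S2_PT1 of the stability project. -/

namespace Pool.Agent.P.MP_dba3d2_lc

open Filter
open SW

theorem p_S2_PT1 :
    S_S2_PT1 := by
  intro Γ a H X μ u0 hμ hu
  have h0 := ln_nonneg u0
  obtain ⟨p, p1, p2, p3, -⟩ := exists_on hμ 1 u0 (ln u0 / 3) (by positivity)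
    (by rw [ds_one_left]; linarith)
  rw [ds_one_left] at p2 p3
  have z := FixA.ll_self (Γ := Γ) hμ.pos.le
  have key : ∀ {s u m}, Pat1 H X μ u0 s u m →
      Ll (ln m) μ ∧ Ll (ds (m * u0) u) μ ∧ On μ (m * p) 1 u := fun {s u m} h => by
    have k1 := (mem_tiny hμ.pos.le).1 h.2.2.1.2
    have k2 : Ll (ds (m * u0) u) μ := by
      have := (mem_tiny hμ.pos.le).1 h.2.2.2.2
      rwa [← mul_assoc, ← mul_inv_rev] at this
    exact ⟨k1, k2, (p1.mul m).congr (z _) (by simpa using k1) k2⟩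
  refine ⟨p, ⟨Ls.mono_left (by linarith) hu.1,
    hu.2.of_le_add (hμ.ll_nat 3) hμ.pos 3 (by push_cast; linarith)⟩,
    ⟨⟨fun s u m h => ⟨h.2.1, h.2.2.1⟩, fun s u _ m h m0 b1 b2 => ⟨h.1, mul_mem b1 h.2.1,
      mul_mem b2 h.2.2.1, by simpa [mul_assoc] using h.2.2.2⟩, fun u _ m h m0 _ b2 =>
      ⟨rfl, h.2.1, h.2.2.1, by simpa [mul_assoc] using mul_mem h.2.2.2 b2⟩,
      fun m h => by simpa using h.1⟩, fun s u _ m m' h h' => ?_⟩, ?_⟩
  · obtain ⟨k1, k2, -⟩ := key h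
    obtain ⟨k3, k4, -⟩ := key h'
    refine Stab.sub hμ (p := 1) (q := u0) ⟨?_, ?_⟩ (on_left hμ.pos.le _ _) p1
    · rw [ds_one_mul]
      exact Ll.mono_left (by simpa using ln_mul_le m⁻¹ m') (k1.add k3)
    · rw [← ds_mul_left m, ← mul_assoc, mul_inv_cancel_left]
      exact Ll.mono_left (ds_tri _ u _) (k2.add (FixA.ll_comm k4))
  · have b1 : ∀ {s u m}, Pat1 H X μ u0 s u m → On μ (m * 1) 1 u ∧ On μ (m * p) (m * 1) u :=
      fun h => ⟨.of_near (by simpa using (key h).1) _,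
        (key h).2.2.congr (z _) (by simpa using (key h).1) (z _)⟩
    have b2 : ∀ {s u m}, Pat1 H X μ u0 s u⁻¹ m →
        On μ (u * m * p) 1 u ∧ On μ (u * m * 1) (u * m * p) u := fun {s u m} h =>
      ⟨by simpa [mul_assoc] using ((key h).2.2.mul u).symm,
        (On.of_near (by rw [mul_one, ds_mul_right]; exact (key h).1) _).symm⟩
    rintro s t u c ⟨c1, c2, ⟨m, -, k, rfl⟩ | ⟨-, rfl⟩, ⟨m', -, k', rfl⟩ | ⟨-, rfl⟩, rfl⟩
    · refine ⟨(b1 k).1, (b1 k).2, ((key k).2.2.order hμ (b2 k').1 ?_).2, (b2 k').2, trivial⟩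
      have e1 := ln_mul_le m p
      have e2 := ds_tri (m * 1) u (m * u0)
      have e3 := ds_tri (m * 1) 1 u
      have e4 := ds_tri 1 (u * m' * p) u
      have e5 := ln_mul_le m' p
      have e6 : ds (u * m' * p) u = ln (m' * p) := by rw [ds_comm, mul_assoc, ds_mul_right]
      rw [ds_mul_left, ds_one_left, ds_comm u] at e2
      rw [ds_one_right, mul_one] at e3
      rw [mul_one] at e2
      refine Ll.mono_left ?_ ((((key k).1.add (key k).1).add (key k').1).add (key k).2.1)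
      rw [ds_one_left (m * p)]
      linarith
    · exact ⟨(b1 k).1, (b1 k).2, trivial⟩
    · exact ⟨(b2 k').1, (b2 k').2, trivial⟩
    · trivial

end Pool.Agent.P.MP_dba3d2_lc


end

section

/-! Step S2_RED of the stability project. -/

namespace Pool.Agent.P.MP_dba3d2_lc

open Filter
open SW

namespace S2_red

variable {G : Type} [Group G] {U W : Subgroup G}

theorem rwU {n : ℕ} {b : Bool} {x g : G} (h : Rw U W n b x) (hg : g ∈ U) :
    Rw U W n false (g * x) := by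
  cases h with
  | nil _ u hu => exact .nil _ _ (mul_mem hg hu)
  | cons n _ u w x hu _ hw hw' h =>
    rw [show g * (u * w * x) = g * u * w * x by group]
    exact .cons n _ _ w x (mul_mem hg hu) (by simp) hw hw' h

theorem rwW {n : ℕ} {x g : G} (h : Rw U W n false x) (hg : g ∈ W) :
    ∃ n' ≤ n + 1, Rw U W n' false (g * x) := by
  by_cases hU : g ∈ U
  · exact ⟨n, n.le_succ, rwU h hU⟩
  have key : ∀ {m : ℕ} {v y : G}, v ∈ W → v ∉ U → Rw U W m true y →
      Rw U W (m + 1) false (v * y) := fun {m v y} a b c => by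
    simpa using Rw.cons m false 1 v y (one_mem _) (by simp) a b c
  cases h with
  | nil _ u hu => exact ⟨1, le_rfl, key hg hU (.nil _ _ hu)⟩
  | cons n _ u w x hu _ hw hw' h =>
    by_cases e : u ∈ W
    · rw [show g * (u * w * x) = g * u * w * x by group]
      by_cases e' : g * u * w ∈ U
      · exact ⟨n, by omega, rwU h e'⟩
      · exact ⟨n + 1, by omega, key (mul_mem (mul_mem hg e) hw) e' h⟩
    · exact ⟨_, le_rfl, key hg hU (.cons n true u w x hu (fun _ => e) hw hw' h)⟩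

variable {K : Type} [Field K] [LinearOrder K] [IsStrictOrderedRing K] {f : G → K}
  {B : Bool → Bool → G → List (G × Bool) → Prop}

theorem clU (hf : ∀ x y, f (x * y) ≤ f x + f y) (hB : ∀ s t u, ∃ c, B s t u c) {s : Bool}
    {x g : G} {t : K} {C : List (G × Bool)} (h : CL U W f B s x t C) (hg : g ∈ U) :
    ∃ t' C', CL U W f B false (g * x) t' C' ∧ t' ≤ f g + t := by
  cases h with
  | nil _ u c hu _ =>
    obtain ⟨c, hc⟩ := hB false false (g * x)
    exact ⟨_, _, .nil _ _ c (mul_mem hg hu) hc, hf _ _⟩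
  | cons _ u w x t c C hu _ hw hw' _ h =>
    obtain ⟨c, hc⟩ := hB false true (g * u)
    rw [show g * (u * w * x) = g * u * w * x by group]
    exact ⟨_, _, .cons _ _ w x t c C (mul_mem hg hu) (by simp) hw hw' hc h, by linarith [hf g u]⟩

theorem clW (h1 : f 1 = 0) (hf : ∀ x y, f (x * y) ≤ f x + f y) (hB : ∀ s t u, ∃ c, B s t u c)
    {x g : G} {t : K} {C : List (G × Bool)} (h : CL U W f B false x t C) (hg : g ∈ W) :
    ∃ t' C', CL U W f B false (g * x) t' C' ∧ t' ≤ f g + t := by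
  by_cases hU : g ∈ U
  · exact clU hf hB h hU
  have key : ∀ {v y : G} {r : K} {D : List (G × Bool)}, v ∈ W → v ∉ U → CL U W f B true y r D →
      ∃ C', CL U W f B false (v * y) (f v + r) C' := fun {v y r D} a b c => by
    obtain ⟨c1, k⟩ := hB false true 1
    have := CL.cons false 1 v y r c1 D (one_mem _) (by simp) a b k c
    rw [h1, zero_add, one_mul] at this
    exact ⟨_, this⟩
  cases h with
  | nil _ u c hu _ =>
    obtain ⟨c, hc⟩ := hB true false x
    obtain ⟨C', k⟩ := key hg hU (.nil _ _ c hu hc)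
    exact ⟨_, C', k, le_rfl⟩
  | cons _ u w x t c C hu _ hw hw' _ h =>
    by_cases e : u ∈ W
    · rw [show g * (u * w * x) = g * u * w * x by group]
      have i : f (g * u * w) ≤ f g + f u + f w := by linarith [hf (g * u) w, hf g u]
      by_cases e' : g * u * w ∈ U
      · obtain ⟨t', C', k, k'⟩ := clU hf hB h e'
        exact ⟨t', C', k, by linarith⟩
      · obtain ⟨C', k⟩ := key (mul_mem (mul_mem hg e) hw) e' h
        exact ⟨_, C', k, by linarith⟩
    · obtain ⟨c, hc⟩ := hB true true u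
      obtain ⟨C', k⟩ := key hg hU (.cons true u w x t c C hu (fun _ => e) hw hw' hc h)
      exact ⟨_, C', k, le_rfl⟩

end S2_red

open S2_red in
theorem p_S2_RED :
    S_S2_RED := by
  intro G _ U W
  refine ⟨fun x hx => ?_, fun n x h g hg => rwW h hg, fun K _ _ _ f B h1 hf hB L hL => ?_⟩
  · have st : ∀ g y : G, g ∈ U ∨ g ∈ W → (∃ n, Rw U W n false y) → ∃ n, Rw U W n false (g * y) := by
      rintro g y (hg | hg) ⟨n, h⟩
      · exact ⟨n, rwU h hg⟩
      · exact (rwW h hg).imp fun _ k => k.2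
    rw [Subgroup.sup_eq_closure] at hx
    induction hx using Subgroup.closure_induction_left with
    | one => exact ⟨0, .nil _ _ (one_mem _)⟩
    | mul_left g hg y _ ih => exact st g y hg ih
    | inv_mul_cancel g hg y _ ih => exact st _ y (Or.imp inv_mem inv_mem hg) ih
  · induction L with
    | nil =>
      obtain ⟨c, hc⟩ := hB false false 1
      exact ⟨_, c, .nil _ _ c (one_mem _) hc, by simp [h1]⟩
    | cons g L ih =>
      obtain ⟨t, C, k, k'⟩ := ih fun g hg => hL g (List.mem_cons_of_mem _ hg)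
      obtain ⟨t', C', m, m'⟩ : ∃ t' C', CL U W f B false (g * L.prod) t' C' ∧ t' ≤ f g + t :=
        (hL g List.mem_cons_self).elim (clU hf hB k) (clW h1 hf hB k)
      exact ⟨t', C', by rwa [List.prod_cons], by rw [List.map_cons, List.sum_cons]; linarith⟩

end Pool.Agent.P.MP_dba3d2_lc


end

section

/-! Step S2_TRI of the stability project. -/

namespace Pool.Agent.P.MP_dba3d2_lc

open Filter
open SW

namespace S2_tri

variable {G : Type} [Group G] {U W : Subgroup G}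

theorem lU {n : ℕ} {b : Bool} {y g : G} (h : Rw U W n b y) (hg : g ∈ U) :
    Rw U W n false (g * y) := by
  cases h with
  | nil _ _ hu => exact .nil _ _ (U.mul_mem hg hu)
  | cons n _ u w x hu _ hw hw' hx =>
    rw [← mul_assoc, ← mul_assoc]
    exact .cons _ _ _ _ _ (U.mul_mem hg hu) (by simp) hw hw' hx

theorem rd {n : ℕ} {y : G} (h : Rw U W n false y) : ∃ (s : Bool) (u w t : G), u ∈ U ∧
    (s = false → y = u) ∧
    (s = true → w ∈ W ∧ w ∉ U ∧ y = u * w * t ∧ ∃ m < n, Rw U W m true t) := by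
  cases h with
  | nil _ _ hu => exact ⟨false, y, 1, 1, hu, fun _ => rfl, by simp⟩
  | cons n _ u w x hu _ hw hw' hx =>
    exact ⟨true, u, w, x, hu, by simp, fun _ => ⟨hw, hw', rfl, n, n.lt_succ_self, hx⟩⟩

theorem sm (n n' : Fin 3 → ℕ) (k k' : Fin 3) (hk : k ≠ k') (h : ∀ l, n' l ≤ n l + 1)
    (h1 : n' k < n k) (h2 : n' k' < n k') : n' 0 + n' 1 + n' 2 < n 0 + n 1 + n 2 := by
  have a0 := h 0
  have a1 := h 1
  have a2 := h 2
  fin_cases k <;> fin_cases k' <;> simp at hk h1 h2 <;> omega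

theorem key (R : ∀ n x, Rw U W n false x → ∀ g ∈ W, ∃ n' ≤ n + 1, Rw U W n' false (g * x))
    (N : ℕ) : ∀ (x : Fin 3 → G) (n : Fin 3 → ℕ), (∀ i, Rw U W (n i) false (x i)) →
    n 0 + n 1 + n 2 = N → ∃ g ∈ U ⊔ W, WC U W (fun i => g * x i) ∨
      ∃ s u, UC U W (fun i => g * x i) s u := by
  classical
  induction N using Nat.strong_induction_on with
  | _ N ih =>
  intro x n hx hN
  choose s u w t hu hf ht using fun i => rd (hx i)
  by_cases ne : ∀ i j, i ≠ j → s i = true → s j = true → (u i)⁻¹ * u j ∉ W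
  · refine ⟨1, one_mem _, .inr ⟨s, u, fun i => ⟨hu i, fun e => by simpa using hf i e, fun e => ?_⟩,
      ne⟩⟩
    obtain ⟨a, b, c, m, -, d⟩ := ht i e
    exact ⟨w i, t i, a, b, ⟨m, d⟩, by simpa using c⟩
  push Not at ne
  obtain ⟨i, j, ij, si, sj, hij⟩ := ne
  have ui := U.inv_mem (hu i)
  have st : ∀ k, ∃ (w' t' : G), (w' ∈ W ∧ Tl U W t' ∧ (u i)⁻¹ * x k = w' * t') ∧
      ((w' ∉ U ∧ ∃ m < n k, Rw U W m true t') ∨ (w' = 1 ∧ k ≠ i ∧ k ≠ j)) := by
    intro k
    have uk := U.mul_mem ui (hu k)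
    by_cases c : s k = true ∧ (u i)⁻¹ * u k ∈ W
    · obtain ⟨a, b, e, m, hm, d⟩ := ht k c.1
      exact ⟨(u i)⁻¹ * u k * w k, t k, ⟨W.mul_mem c.2 a, ⟨m, d⟩, by rw [e]; group⟩,
        .inl ⟨fun q => b ((U.mul_mem_cancel_left uk).1 q), m, hm, d⟩⟩
    · refine ⟨1, (u i)⁻¹ * x k, ⟨one_mem _, ?_, (one_mul _).symm⟩, .inr ⟨rfl, ?_, ?_⟩⟩
      · cases e : s k with
        | false => exact ⟨0, .nil _ _ (hf k e ▸ uk)⟩
        | true =>
          obtain ⟨a, b, e', m, -, d⟩ := ht k e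
          refine ⟨m + 1, ?_⟩
          rw [e', ← mul_assoc, ← mul_assoc]
          exact .cons _ _ _ _ _ uk (fun _ q => c ⟨e, q⟩) a b d
      · rintro rfl
        exact c ⟨si, by simp⟩
      · rintro rfl
        exact c ⟨sj, hij⟩
  choose w' t' h1 h2 using st
  by_cases q : ∀ k k', k ≠ k' → (w' k)⁻¹ * w' k' ∉ U
  · exact ⟨(u i)⁻¹, Subgroup.mem_sup_left ui, .inl ⟨w', t', h1, q⟩⟩
  push Not at q
  obtain ⟨k, k', kk, q⟩ := q
  rcases h2 k with ⟨a, m, hm, d⟩ | ⟨a, b, c⟩ <;> rcases h2 k' with ⟨a', m', hm', d'⟩ | ⟨a', b', c'⟩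
  · have wk := W.inv_mem (h1 k).1
    have z : ∀ l, ∃ n', Rw U W n' false ((w' k)⁻¹ * (u i)⁻¹ * x l) ∧ n' ≤ n l + 1 ∧
        (l = k ∨ l = k' → n' < n l) := by
      intro l
      by_cases e : l = k
      · subst e
        refine ⟨m, ?_, by omega, fun _ => hm⟩
        rw [mul_assoc, (h1 l).2.2, ← mul_assoc]
        exact lU d (by simp)
      by_cases e' : l = k'
      · subst e'
        refine ⟨m', ?_, by omega, fun _ => hm'⟩
        rw [mul_assoc, (h1 l).2.2, ← mul_assoc]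
        exact lU d' q
      obtain ⟨n', a1, a2⟩ := R _ _ (lU (hx l) ui) _ wk
      exact ⟨n', by rwa [mul_assoc], a1, by tauto⟩
    choose n' z1 z2 z3 using z
    obtain ⟨g, hg, r⟩ := ih _ (hN ▸ sm n n' k k' kk z2 (z3 _ (.inl rfl)) (z3 _ (.inr rfl)))
      _ n' z1 rfl
    refine ⟨g * ((w' k)⁻¹ * (u i)⁻¹), mul_mem hg (mul_mem (Subgroup.mem_sup_right wk)
      (Subgroup.mem_sup_left ui)), ?_⟩
    simpa only [mul_assoc] using r
  · exact (a (by simpa [a'] using q)).elim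
  · exact (a' (by simpa [a] using q)).elim
  · omega

end S2_tri

theorem p_S2_TRI (hS2_RED : S_S2_RED) :
    S_S2_TRI := by
  intro G _ U W x hx
  obtain ⟨h1, h2, -⟩ := hS2_RED G U W
  choose n hn using fun i => h1 _ (hx i)
  exact S2_tri.key h2 _ x n hn rfl

end Pool.Agent.P.MP_dba3d2_lc


end

section

/-! Step S2_NT of the stability project. -/

namespace Pool.Agent.P.MP_dba3d2_lc

open Filter
open SW

namespace S2_ntA

variable {G : Type} [Group G] {U W : Subgroup G}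

theorem to_list {n : ℕ} {b : Bool} {y : G} (h : Rw U W n b y) (hb : b = true) :
    ∃ l : List (G × G), ∃ z ∈ U, y = (l.map fun s => s.1 * s.2).prod * z ∧
      ∀ s ∈ l, (s.1 ∈ U ∧ s.2 ∈ W ∧ s.2 ∉ U) ∧ s.1 ∉ W := by
  induction h with
  | nil b u hu => exact ⟨[], u, hu, by simp, by simp⟩
  | cons n b u w x hu h1 hw h2 _ ih =>
    obtain ⟨l, z, hz, rfl, k⟩ := ih rfl
    exact ⟨(u, w) :: l, z, hz, by simp [mul_assoc],
      List.forall_mem_cons.2 ⟨⟨⟨hu, hw, h2⟩, h1 hb⟩, k⟩⟩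

theorem tail_not (hA : Am U W) {y w : G} (hy : Tl U W y) (hw : w ∈ W) (hw' : w ∉ U) :
    w * y ∉ U := by
  obtain ⟨n, hy⟩ := hy
  obtain ⟨l, z, hz, rfl, k⟩ := to_list hy rfl
  intro e
  refine hA ((1, w) :: l) (by simp)
    (List.forall_mem_cons.2 ⟨⟨one_mem _, hw, hw'⟩, fun s hs => (k s hs).1⟩)
    (fun s hs => (k s hs).2) ?_
  simpa [mul_assoc] using mul_mem e (inv_mem hz)

theorem two_tails (hA : Am U W) {n : ℕ} {b : Bool} {x : G} (h : Rw U W n b x) (hb : b = true) :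
    ∀ y w, Tl U W y → w ∈ W → w ∉ U → x⁻¹ * w * y ∉ U := by
  induction h with
  | nil b u hu =>
    intro y w hy hw hw' e
    exact tail_not hA hy hw hw' (by simpa [mul_assoc] using mul_mem hu e)
  | cons n b u w' x hu h1 h2 h3 _ ih =>
    rintro y w ⟨m, hy⟩ hw hw' e
    refine ih rfl (u⁻¹ * w * y) w'⁻¹ ⟨m + 1, .cons m true _ _ _ (inv_mem hu)
      (fun _ k => h1 hb (inv_mem_iff.1 k)) hw hw' hy⟩ (inv_mem h2) (fun k => h3 (inv_mem_iff.1 k)) ?_
    simpa [mul_assoc] using e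

end S2_ntA

open S2_ntA

theorem p_S2_NT :
    S_S2_NT := by
  intro G _ U W hA
  have key : ∀ x y w, Tl U W x → Tl U W y → w ∈ W → w ∉ U → x⁻¹ * w * y ∉ U :=
    fun x y w ⟨_, hx⟩ => two_tails hA hx rfl y w
  refine ⟨key, fun u hu u' hu' w hw w' hw' h1 h2 x x' hx hx' e => ?_⟩
  have e1 : x⁻¹ * w⁻¹ * (u⁻¹ * u' * w' * x') = 1 := by
    rw [mul_assoc u⁻¹, mul_assoc u⁻¹, ← e]
    group
  have k : u⁻¹ * u' ∈ W := by
    by_contra k
    obtain ⟨m, hm⟩ := hx'
    exact key x _ w⁻¹ hx ⟨m + 1, .cons m true _ _ _ (mul_mem (inv_mem hu) hu') (fun _ => k) hw' h2 hm⟩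
      (inv_mem hw) (fun a => h1 (inv_mem_iff.1 a)) (e1 ▸ one_mem _)
  refine ⟨k, by_contra fun k' => key x x' _ hx hx' (mul_mem (mul_mem (inv_mem hw) k) hw') k' ?_⟩
  have e2 : x⁻¹ * (w⁻¹ * (u⁻¹ * u') * w') * x' = 1 := by
    rw [← e1]
    group
  exact e2 ▸ one_mem _

end Pool.Agent.P.MP_dba3d2_lc


end

section

/-! Step S2_PERS of the stability project. -/

namespace Pool.Agent.P.MP_dba3d2_lc

open Filter
open SW

namespace S2_pers

variable {G : Type} [Group G] {U W W' : Subgroup G}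

theorem tl_one : Tl U W 1 := ⟨0, .nil _ _ (one_mem U)⟩

theorem rw_mem {n : ℕ} {b : Bool} {x : G} (h : Rw U W n b x) : x ∈ U ⊔ W := by
  induction h with
  | nil b u hu => exact Subgroup.mem_sup_left hu
  | cons n b u w x hu _ hw _ _ ih =>
    exact mul_mem (mul_mem (Subgroup.mem_sup_left hu) (Subgroup.mem_sup_right hw)) ih

theorem coarse (nt : ∀ x y w, Tl U W' x → Tl U W' y → w ∈ W' → w ∉ U → x⁻¹ * w * y ∉ U)
    (le : W' ≤ W) {n : ℕ} {b : Bool} {z : G} (h : Rw U W' n b z) : b = true → ∀ w1 ∈ W', w1 ∉ U →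
      ∃ t z', w1 * z' ∈ W ∧ Tl U W t ∧ Tl U W' z' ∧ z = z' * t := by
  induction h with
  | nil b u hu =>
    exact fun _ w1 h1 _ => ⟨u, 1, by simpa using le h1, ⟨0, .nil _ _ hu⟩, tl_one, by simp⟩
  | cons n b u w x hu hb hw hw' _ ih =>
    intro e w1 h1 _
    obtain ⟨t, z', a1, ⟨k, a2⟩, ⟨k', a3⟩, rfl⟩ := ih rfl w hw hw'
    by_cases c : u ∈ W
    · exact ⟨t, u * w * z', by simpa [mul_assoc] using mul_mem (le h1) (mul_mem c a1), ⟨k, a2⟩,
        ⟨_, .cons _ _ _ _ _ hu (fun _ => hb e) hw hw' a3⟩, by simp [mul_assoc]⟩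
    · have a4 : w * z' ∉ U := by simpa using nt 1 z' w tl_one ⟨k', a3⟩ hw hw'
      exact ⟨u * (w * z') * t, 1, by simpa using le h1,
        ⟨_, .cons _ _ _ _ _ hu (fun _ => c) a1 a4 a2⟩, tl_one, by simp [mul_assoc]⟩

theorem en_coarse (nt : ∀ x y w, Tl U W' x → Tl U W' y → w ∈ W' → w ∉ U → x⁻¹ * w * y ∉ U)
    (le : W' ≤ W) {x u : G} {s : Bool} (h : En U W' x s u) : En U W x s u := by
  refine ⟨h.1, h.2.1, fun e => ?_⟩
  obtain ⟨w, z, hw, hw', ⟨n, hz⟩, rfl⟩ := h.2.2 e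
  obtain ⟨t, z', a1, a2, a3, rfl⟩ := coarse nt le hz rfl w hw hw'
  exact ⟨w * z', t, a1, by simpa using nt 1 z' w tl_one a3 hw hw', a2, by simp [mul_assoc]⟩

end S2_pers

open S2_pers in
theorem p_S2_PERS (hS2_NT : S_S2_NT) (hS2_RED : S_S2_RED) :
    S_S2_PERS := by
  intro G _ U W W' hA hA' le sup
  have c1 : ∀ x u u', En U W x true u → En U W' x true u' → u⁻¹ * u' ∈ W := by
    intro x u u' h h'
    have h2 := en_coarse (hS2_NT G U W' hA').1 le h'
    obtain ⟨w, t, hw, hw', ht, e⟩ := h.2.2 rfl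
    obtain ⟨w2, t2, hw2, hw2', ht2, e2⟩ := h2.2.2 rfl
    exact ((hS2_NT G U W hA).2 u h.1 u' h2.1 w hw w2 hw2 hw' hw2' t t2 ht ht2 (e ▸ e2)).1
  refine ⟨c1, fun x s u h => ?_⟩
  have key : ∀ (x u : G) (s : Bool), En U W x s u →
      ∃ u', En U W' x s u' ∧ u⁻¹ * u' ∈ W ∧ (s = false → u' = u) := by
    intro x u s h
    cases s with
    | false => exact ⟨u, ⟨h.1, h.2.1, by simp⟩, by simp, fun _ => rfl⟩
    | true =>
      obtain ⟨w, t, hw, hw', ⟨k, ht⟩, e⟩ := h.2.2 rfl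
      have hx : x ∈ U ⊔ W := e ▸ mul_mem (mul_mem (Subgroup.mem_sup_left h.1)
        (Subgroup.mem_sup_right hw)) (rw_mem ht)
      have hn : x ∉ U := by
        have := (hS2_NT G U W hA).1 1 t w tl_one ⟨k, ht⟩ hw hw'
        rw [e, mul_assoc, U.mul_mem_cancel_left h.1]
        simpa using this
      obtain ⟨n, hr⟩ := (hS2_RED G U W').1 x (sup hx)
      cases hr with
      | nil _ _ hu => exact absurd hu hn
      | cons n _ u' w' t' hu _ h1 h2 h3 =>
        have en : En U W' (u' * w' * t') true u' :=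
          ⟨hu, by simp, fun _ => ⟨w', t', h1, h2, ⟨n, h3⟩, rfl⟩⟩
        exact ⟨u', en, c1 _ _ _ h en, by simp⟩
  choose u' h1 h2 h3 using fun i => key (x i) (u i) (s i) (h.en i)
  refine ⟨u', ⟨h1, fun i j ne si sj m => h.ne i j ne si sj ?_⟩, fun i => ⟨h2 i, h3 i⟩⟩
  simpa [mul_assoc] using mul_mem (mul_mem (h2 i) (le m)) (inv_mem (h2 j))

end Pool.Agent.P.MP_dba3d2_lc


end
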