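import Pool.Agent.P.MP_dba3d2_lcM.Bb07
import Pool.Agent.P.MP_dba3d2_lcM.Bb10
import Pool.Agent.P.MP_dba3d2_lcM.Cb32
import Pool.Agent.P.MP_dba3d2_lcM.Fb36
import Pool.Agent.P.MP_dba3d2_lcM.Fb38

section

/-! Lists of letters: splitting lemmas. -/

namespace Pool.Agent.P.MP_dba3d2_lc.T9

open Filter SW

variable {Γ : HG} {a : Amb} {L L' C R D : List (Lt Γ a)} {N N' : List (NL Γ a)}

theorem fl_nil : flS ([] : List (NL Γ a)) = [] := rfl
theorem fl_cons (s : NL Γ a) (N : List (NL Γ a)) : flS (s :: N) = ex s ++ flS N := List.flatMap_cons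
theorem fl_append (N N' : List (NL Γ a)) : flS (N ++ N') = flS N ++ flS N' := List.flatMap_append
theorem lv_nil : lv ([] : List (Lt Γ a)) = 1 := rfl
theorem lv_cons (x : Lt Γ a) (L : List (Lt Γ a)) : lv (x :: L) = vL x * lv L := List.prod_cons
theorem lv_append (L L' : List (Lt Γ a)) : lv (L ++ L') = lv L * lv L' := by simp [lv]
theorem noG_append : NoG (L ++ L') ↔ NoG L ∧ NoG L' := by simp [NoG, forall_and]
theorem noV_append : NoV (L ++ L') ↔ NoV L ∧ NoV L' := by simp only [NoV, List.mem_append, not_or, forall_and]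
theorem noG_of (h : NoV L) : NoG L := fun _ => h _
theorem noV_nil : NoV ([] : List (Lt Γ a)) := fun _ => List.not_mem_nil
theorem noG_nil : NoG ([] : List (Lt Γ a)) := fun _ => List.not_mem_nil

/-- the place of a variable in an expanded word -/
theorem fl_split {x : Vr Γ a} (h : flS N = C ++ Sum.inr x :: R) :
    ∃ N1 e P B N2, N = N1 ++ Sum.inr (e, P ++ Sum.inr x :: B) :: N2 ∧ C = flS N1 ++ P ∧
      R = B ++ flS N2 := by
  induction N generalizing C with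
  | nil => simp [flS] at h
  | cons s N ih =>
    rw [fl_cons, List.append_eq_append_iff] at h
    rcases h with ⟨C', rfl, h⟩ | ⟨B, h1, h2⟩
    · obtain ⟨N1, e, P, B, N2, rfl, rfl, rfl⟩ := ih h
      exact ⟨s :: N1, e, P, B, N2, rfl, by rw [fl_cons, List.append_assoc], rfl⟩
    · cases B with
      | nil =>
        obtain ⟨N1, e, P, B, N2, rfl, k, rfl⟩ := ih (C := []) h2.symm
        exact ⟨s :: N1, e, P, B, N2, rfl, by rw [fl_cons, List.append_assoc, ← k, h1]; simp, rfl⟩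
      | cons z B =>
        obtain ⟨rfl, rfl⟩ := List.cons.inj h2
        rcases s with g | ⟨e, D⟩
        · exact absurd (show Sum.inr x ∈ ex (Sum.inl g : NL Γ a) from h1 ▸ by simp) (by simp [ex])
        · exact ⟨[], e, C, B, N, congrArg (fun D => Sum.inr (e, D) :: N) h1, rfl, rfl⟩

/-- the first letter with a property -/
theorem first_split {α : Type} (p : α → Prop) {L : List α} (h : ∃ x ∈ L, p x) :
    ∃ A x B, L = A ++ x :: B ∧ p x ∧ ∀ y ∈ A, ¬ p y := by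
  classical
  induction L with
  | nil => simp at h
  | cons z L ih =>
    by_cases k : p z
    · exact ⟨[], z, L, rfl, k, by simp⟩
    · obtain ⟨A, x, B, rfl, h1, h2⟩ := ih (by simpa [k] using h)
      exact ⟨z :: A, x, B, rfl, h1, List.forall_mem_cons.2 ⟨k, h2⟩⟩

theorem firstV (h : ¬ NoV L) : ∃ A x B, L = A ++ Sum.inr x :: B ∧ NoV A := by
  obtain ⟨A, z, B, rfl, ⟨x, rfl⟩, h2⟩ := first_split (fun z : Lt Γ a => ∃ x, z = .inr x)
    (by simpa [NoV] using h)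
  exact ⟨A, x, B, rfl, fun y hy => h2 _ hy ⟨y, rfl⟩⟩

theorem firstG (h : ¬ NoG L) : ∃ A v B, L = A ++ Sum.inr (none, v) :: B ∧ NoG A := by
  obtain ⟨A, z, B, rfl, ⟨x, rfl⟩, h2⟩ := first_split (fun z : Lt Γ a => ∃ v, z = .inr (none, v))
    (by simpa [NoG] using h)
  exact ⟨A, x, B, rfl, fun y hy => h2 _ hy ⟨y, rfl⟩⟩

theorem kid_sub (h : Kid N) (k : N' ⊆ N) : Kid N' :=
  ⟨fun y D e => h.ch y D (k e), fun c y D e => h.ce c y D (k e)⟩

theorem sg_sub (h : Sg N) (k : N' ⊆ N) : Sg N' := fun e D m => h e D (k m)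

theorem noG_of_cG {v : MM Γ a} (h : cG (L ++ Sum.inr (none, v) :: L') ≤ 1) : NoG L ∧ NoG L' := by
  have k : cG L = 0 ∧ cG L' = 0 := by
    simp only [cG, List.countP_append, List.countP_cons] at h ⊢
    rw [if_pos (show isG (Sum.inr (none, v) : Lt Γ a) = true from rfl)] at h
    omega
  exact ⟨fun w m => List.countP_eq_zero.1 k.1 _ m rfl, fun w m => List.countP_eq_zero.1 k.2 _ m rfl⟩

/-- the parent of a general variable is general -/
theorem kid_gen (h : Kid N) {e : Vr Γ a} {v : MM Γ a} (m : Sum.inr (e, D) ∈ N)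
    (k : Sum.inr (none, v) ∈ D) : e.1 = none := by
  obtain ⟨_ | c, y⟩ := e
  · rfl
  · obtain ⟨β, f, β', rfl, h1, h2, -⟩ := h.ce c y D m
    simp only [List.mem_append, List.mem_cons] at k
    rcases k with k | k | k
    exacts [(h1 _ k).elim, by simp at k, (h2 _ k).elim]

/-- every variable has a child -/
theorem kid_noV (h : Kid N) (k : NoV (flS N)) : NoV (N.map tp) := by
  rintro ⟨t, y⟩ m
  obtain ⟨g | ⟨e, D⟩, m, e'⟩ := List.mem_map.1 m
  · cases e'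
  obtain rfl : e = (t, y) := Sum.inr.inj e'
  cases t with
  | none =>
    obtain ⟨v, hv⟩ := h.ch y D m
    exact k _ (List.mem_flatMap.2 ⟨_, m, hv⟩)
  | some c =>
    obtain ⟨β, f, β', rfl, -⟩ := h.ce c y D m
    exact k (some c, f) (List.mem_flatMap.2 ⟨_, m, by simp [ex]⟩)

end Pool.Agent.P.MP_dba3d2_lc.T9


end

section

/-! Reduced words: subwords, blocks, tails. -/

namespace Pool.Agent.P.MP_dba3d2_lc.T9

open Filter SW

variable {Γ : HG} {a : Amb} {H X : Subgroup (MM Γ a)} {μ : a.K} {L A B : List (Lt Γ a)}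

theorem fa_sub (h : Fa H X μ L) (k : A ⊆ L) : Fa H X μ A :=
  ⟨fun _ m => h.con _ (k m), fun _ m => h.gen _ (k m), fun _ _ m => h.exp _ _ (k m)⟩

theorem f0_left (h : F0 H X μ (L ++ B)) : F0 H X μ L :=
  ⟨fa_sub h.toFa (List.subset_append_left _ _),
    fun A c f β c' f' B' e => h.f3 A c f β c' f' (B' ++ B) (by simp [e]),
    fun A v β c f B' e => h.f4 A v β c f (B' ++ B) (by simp [e]),
    fun A c f β v B' e => h.f4' A c f β v (B' ++ B) (by simp [e]),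
    fun A v P v' B' e => h.f5 A v P v' (B' ++ B) (by simp [e])⟩

theorem f0_right (h : F0 H X μ (A ++ L)) : F0 H X μ L :=
  ⟨fa_sub h.toFa (List.subset_append_right _ _),
    fun A' c f β c' f' B e => h.f3 (A ++ A') c f β c' f' B (by simp [e]),
    fun A' v β c f B e => h.f4 (A ++ A') v β c f B (by simp [e]),
    fun A' c f β v B e => h.f4' (A ++ A') c f β v B (by simp [e]),
    fun A' v P v' B e => h.f5 (A ++ A') v P v' B (by simp [e])⟩

/-- blocks lie in the extended group -/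
theorem blk_mem (le : H ≤ X) (h : Fa H X μ L) (k : NoG L) : lv L ∈ hatH H X := by
  refine list_prod_mem fun g hg => ?_
  obtain ⟨x | ⟨_ | c, f⟩, m, rfl⟩ := List.mem_map.1 hg
  · exact Subgroup.mem_sup_left (h.con x m)
  · exact (k f m).elim
  · obtain ⟨h1, h2, -, h3, h4, -⟩ := h.exp c f m
    exact Subgroup.mem_sup_right (Subgroup.subset_closure ⟨h3, c, ⟨h1, le h1⟩, h2, h4⟩)

/-- induction along the general variables -/
theorem genInd {p : List (Lt Γ a) → Prop} (h0 : ∀ L, NoG L → p L)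
    (h1 : ∀ P v L, NoG P → p L → p (P ++ Sum.inr (none, v) :: L)) (L : List (Lt Γ a)) : p L := by
  induction hn : L.length using Nat.strong_induction_on generalizing L with
  | _ n ih =>
    by_cases k : NoG L
    · exact h0 L k
    · obtain ⟨P, v, B, rfl, hP⟩ := firstG k
      exact h1 P v B hP (ih _ (by simp [← hn]; omega) B rfl)

/-- what follows a general variable in a reduced word is a tail -/
theorem tl_of (h0 : 0 ≤ μ) (le : H ≤ X) {v : MM Γ a} (h : F0 H X μ (Sum.inr (none, v) :: L)) :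
    Tl (hatH H X) (WW X μ) (lv L) := by
  induction L using genInd generalizing v with
  | h0 L k => exact ⟨0, .nil _ _ (blk_mem le (fa_sub h.toFa (List.subset_cons_self _ _)) k)⟩
  | h1 P w L k ih =>
    obtain ⟨n, hn⟩ := ih (f0_right (A := Sum.inr (none, v) :: P) h)
    have g := h.gen w (by simp)
    rw [lv_append, lv_cons, ← mul_assoc]
    exact ⟨n + 1, .cons _ _ _ _ _ (blk_mem le (fa_sub h.toFa fun _ m => by simp [m]) k)
      (fun _ m => h.f5 [] v P w L rfl k ((mem_tiny h0).1 m.2)) g.1 g.2 hn⟩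

end Pool.Agent.P.MP_dba3d2_lc.T9


end

section

/-! Walks in the forest of cosets and axes. -/

namespace Pool.Agent.P.MP_dba3d2_lc.SW

open Filter

variable {Γ : HG} {a : Amb} {H X : Subgroup (MM Γ a)} {A B : Set (Subgroup (MM Γ a))} {μ : a.K}
  {c c' d d' f g m u x y z : MM Γ a}

theorem WkS.trans (h : WkS H X A x y) (h' : WkS H X A y z) : WkS H X A x z := by
  induction h' with
  | refl => exact h
  | hs y k _ hk ih => exact ih.hs _ _ hk
  | es y c f _ h1 h2 h3 h4 h5 ih => exact ih.es _ c f h1 h2 h3 h4 h5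

theorem WkS.mono (h : WkS H X A x y) (e : A ⊆ B) : WkS H X B x y := by
  induction h with
  | refl => exact .refl
  | hs y k _ hk ih => exact ih.hs _ _ hk
  | es y c f _ h1 h2 h3 h4 h5 ih => exact ih.es _ c f h1 h2 h3 h4 (e h5)

theorem WkS.of_mem (h : x⁻¹ * y ∈ H) : WkS H X A x y := by
  simpa using (WkS.refl (H := H) (X := X) (A := A) (x := x)).hs _ _ h

theorem ep_step (h : f ∈ Ep c) (y : MM Γ a) : Ep (y * f * c * (y * f)⁻¹) = Ep (y * c * y⁻¹) := by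
  rw [show y * f * c * (y * f)⁻¹ = y * (f * c * f⁻¹) * y⁻¹ by group, Ep_conj_iff, Ep_conj_mem h]

theorem WkS.one (h1 : c ∈ H) (h2 : Prim c) (h3 : x⁻¹ * y ∈ X) (h4 : x⁻¹ * y ∈ Ep c)
    (h5 : Ep (x * c * x⁻¹) ∈ A) : WkS H X A x y := by
  simpa using (WkS.refl (H := H) (X := X) (A := A) (x := x)).es _ c _ h1 h2 h3 h4 h5

theorem WkS.symm (h : WkS H X A x y) : WkS H X A y x := by
  induction h with
  | refl => exact .refl
  | hs y k _ hk ih => exact (WkS.of_mem (by simpa using hk)).trans ih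
  | es y c f _ h1 h2 h3 h4 h5 ih =>
    exact (WkS.one h1 h2 (by simpa using h3) (by simpa using h4) (by rwa [ep_step h4])).trans ih

theorem WkS.mv (h : WkS H X A x y) (g : MM Γ a) (e : ∀ d, Ep d ∈ A → Ep (g * d * g⁻¹) ∈ B) :
    WkS H X B (g * x) (g * y) := by
  induction h with
  | refl => exact .refl
  | hs y k _ hk ih => exact mul_assoc g y k ▸ ih.hs _ _ hk
  | es y c f _ h1 h2 h3 h4 h5 ih =>
    refine mul_assoc g y f ▸ ih.es _ c f h1 h2 h3 h4 ?_
    rw [show g * y * c * (g * y)⁻¹ = g * (y * c * y⁻¹) * g⁻¹ by group]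
    exact e _ h5

theorem CnS.mv (h : CnS H X d x y) (g : MM Γ a) : CnS H X (g * d * g⁻¹) (g * x) (g * y) :=
  WkS.mv h g fun _ k e => k ((Ep_conj_iff g).1 e)

theorem cn_mv (g : MM Γ a) : CnS H X (g * d * g⁻¹) (g * x) (g * y) ↔ CnS H X d x y :=
  ⟨fun h => by simpa [mul_assoc] using h.mv g⁻¹, fun h => h.mv g⟩

theorem CnS.congr (h : CnS H X d x y) (e : Ep d = Ep d') : CnS H X d' x y := by
  unfold CnS at *
  rwa [← e]

theorem H_le_hat (H X : Subgroup (MM Γ a)) : H ≤ hatH H X := le_sup_left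

theorem exp_mem_hat (hle : H ≤ X) (h1 : c ∈ H) (h2 : Prim c) (h3 : f ∈ X) (h4 : f ∈ Ep c) :
    f ∈ hatH H X :=
  Subgroup.mem_sup_right (Subgroup.subset_closure ⟨h3, c, ⟨h1, hle h1⟩, h2, h4⟩)

theorem hat_le (hle : H ≤ X) : hatH H X ≤ X :=
  sup_le hle ((Subgroup.closure_le _).2 fun _ h => h.1)

theorem WkS.mem (hle : H ≤ X) (h : WkS H X A x y) : x⁻¹ * y ∈ hatH H X := by
  induction h with
  | refl => simp
  | hs y k _ hk ih => exact mul_assoc x⁻¹ y k ▸ mul_mem ih (H_le_hat H X hk)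
  | es y c f _ h1 h2 h3 h4 _ ih =>
    exact mul_assoc x⁻¹ y f ▸ mul_mem ih (exp_mem_hat hle h1 h2 h3 h4)

theorem sup_clo {G : Type} [Group G] (K : Subgroup G) (S : Set G) :
    K ⊔ Subgroup.closure S = Subgroup.closure (K ∪ S) := by
  rw [Subgroup.closure_union, Subgroup.closure_eq]

theorem wk_univ (h : x⁻¹ * y ∈ hatH H X) : WkS H X Set.univ x y := by
  suffices k : ∀ u ∈ hatH H X, ∀ x, WkS H X Set.univ x (x * u) by simpa using k _ h x
  intro u hu
  rw [hatH, expW, sup_clo] at hu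
  induction hu using Subgroup.closure_induction with
  | mem u k =>
    intro x
    rcases k with k | ⟨k1, c, k2, k3, k4⟩
    · exact WkS.refl.hs _ _ k
    · exact WkS.refl.es _ c _ k2.1 k3 k1 k4 trivial
  | one => exact fun x => by simpa using WkS.refl
  | mul u v _ _ h1 h2 => exact fun x => mul_assoc x u v ▸ (h1 x).trans (h2 _)
  | inv u _ h1 => exact fun x => by simpa using (h1 (x * u⁻¹)).symm

theorem Lv.wk_YA (L : Lv H X μ) (h1 : m ∈ hatH H X) (h2 : m ∈ WW X μ) (x : MM Γ a) :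
    WkS H X (YA H X μ x) x (x * m) := by
  have h := L.hm m h1 h2
  suffices k : (m ∈ hatH H X ∧ m ∈ WW X μ) ∧ ∀ m0 ∈ hatH H X, m0 ∈ WW X μ →
    WkS H X (YA H X μ x) (x * m0) (x * m0 * m) by simpa using k.2 1 (one_mem _) (one_mem _)
  clear h1 h2
  rw [hatM, expW, sup_clo] at h
  induction h using Subgroup.closure_induction with
  | mem u k =>
    rcases k with k | ⟨k1, c, k2, k3, k4⟩
    · exact ⟨⟨H_le_hat H X k.1, k.2⟩, fun m0 _ _ => WkS.refl.hs _ _ k.1⟩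
    · exact ⟨⟨exp_mem_hat L.le k2.1 k3 k1.1 k4, k1⟩, fun m0 b1 b2 =>
        WkS.refl.es _ c _ k2.1 k3 k1.1 k4 ⟨m0, b1, b2, c, k2.1, k2.2, k3, rfl⟩⟩
  | one => exact ⟨⟨one_mem _, one_mem _⟩, fun m0 _ _ => by simpa using WkS.refl⟩
  | mul u v _ _ h1 h2 =>
    refine ⟨⟨mul_mem h1.1.1 h2.1.1, mul_mem h1.1.2 h2.1.2⟩, fun m0 b1 b2 => ?_⟩
    have := h2.2 (m0 * u) (mul_mem b1 h1.1.1) (mul_mem b2 h1.1.2)
    rw [← mul_assoc] at this
    exact mul_assoc (x * m0) u v ▸ (h1.2 m0 b1 b2).trans this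
  | inv u _ h1 =>
    refine ⟨⟨inv_mem h1.1.1, inv_mem h1.1.2⟩, fun m0 b1 b2 => ?_⟩
    have := h1.2 (m0 * u⁻¹) (mul_mem b1 (inv_mem h1.1.1)) (mul_mem b2 (inv_mem h1.1.2))
    simpa [mul_assoc] using this.symm

/-- two cosets next to the same axis are joined by one step -/
theorem WkS.adj (hR : S_ROOT) (hH : GC0 H) (hle : H ≤ X) (h1 : c ∈ H) (h2 : Prim c) (h3 : c' ∈ H)
    (h4 : Prim c') (hx : x⁻¹ * y ∈ X) (e : Ep (y * c' * y⁻¹) = Ep (x * c * x⁻¹))
    (hA : Ep (x * c * x⁻¹) ∈ A) : WkS H X A x y := by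
  have k : Cj (x⁻¹ * y) c' c := by
    unfold Cj
    rw [← Ep_conj_iff x, ← e]
    congr 1
    group
  obtain ⟨h, k1, k2⟩ := (hR Γ a H hH).2.2.2.2.2 c h1 c' h3 h2.1 h4.1 _ k
  have := (WkS.one (y := y * h⁻¹) h1 h2 (mul_assoc x⁻¹ y _ ▸ mul_mem hx (inv_mem (hle k1)))
    (mul_assoc x⁻¹ y _ ▸ k2) hA).hs _ _ k1
  simpa using this

/-- the last use of an axis from `B` -/
theorem WkS.last (h : WkS H X A x y) (B : Set (Subgroup (MM Γ a))) :
    WkS H X (A \ B) x y ∨ ∃ z c, c ∈ H ∧ Prim c ∧ Ep (z * c * z⁻¹) ∈ A ∧ Ep (z * c * z⁻¹) ∈ B ∧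
      WkS H X A x z ∧ WkS H X (A \ B) z y := by
  induction h with
  | refl => exact .inl .refl
  | hs y k _ hk ih =>
    exact ih.imp (fun h => h.hs _ _ hk) fun ⟨z, c, b1, b2, b3, b4, b5, b6⟩ =>
      ⟨z, c, b1, b2, b3, b4, b5, b6.hs _ _ hk⟩
  | es y c f h0 h1 h2 h3 h4 h5 ih =>
    by_cases e : Ep (y * c * y⁻¹) ∈ B
    · exact .inr ⟨y * f, c, h1, h2, by rwa [ep_step h4], by rwa [ep_step h4],
        h0.es _ c f h1 h2 h3 h4 h5, .refl⟩
    · exact ih.imp (fun h => h.es _ c f h1 h2 h3 h4 ⟨h5, e⟩) fun ⟨z, c', b1, b2, b3, b4, b5, b6⟩ =>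
        ⟨z, c', b1, b2, b3, b4, b5, b6.es _ c f h1 h2 h3 h4 ⟨h5, e⟩⟩

/-- a walk uses finitely many axes -/
theorem WkS.fin (h : WkS H X A x y) : ∃ B ⊆ A, B.Finite ∧ WkS H X B x y := by
  induction h with
  | refl => exact ⟨∅, Set.empty_subset _, Set.finite_empty, .refl⟩
  | hs y k _ hk ih =>
    obtain ⟨B, b1, b2, b3⟩ := ih
    exact ⟨B, b1, b2, b3.hs _ _ hk⟩
  | es y c f _ h1 h2 h3 h4 h5 ih =>
    obtain ⟨B, b1, b2, b3⟩ := ih
    exact ⟨insert _ B, Set.insert_subset h5 b1, b2.insert _,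
      (b3.mono (Set.subset_insert _ _)).es _ c f h1 h2 h3 h4 (Set.mem_insert _ _)⟩

theorem ww_ls (hμ : Big μ) (h : x ∈ X) (k : x ∉ WW X μ) : Ls μ (ln x) :=
  (not_ll_iff' hμ.pos).1 fun e => k ⟨h, (mem_tiny hμ.pos.le).2 e⟩

theorem ww_ll (hμ : Big μ) (k : x ∈ WW X μ) : Ll (ln x) μ := (mem_tiny hμ.pos.le).1 k.2

theorem ww_mono {ν : a.K} (hμ : Big μ) (hν : Big ν) (h : Ls ν μ) : WW X ν ≤ WW X μ :=
  fun _ k => ⟨k.1, (mem_tiny hμ.pos.le).2 ((ww_ll hν k).ls_right h hμ.pos.le)⟩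

theorem ww_of_ls {ν : a.K} (hμ : Big μ) (h : Ll ν μ) (hx : x ∈ X) (k : Ls (ln x) ν) :
    x ∈ WW X μ := ⟨hx, (mem_tiny hμ.pos.le).2 (Ll.ls_left k h)⟩

/-- a primitive period of an axis at the edge `x` fixes `x` -/
theorem YA_fix (hE : S_ELEM) (hL : S_LINE) (hμ : Big μ) (hd : Prim d) (h : Ep d ∈ YA H X μ x) :
    Ll (ds x (d * x)) μ := by
  obtain ⟨m, -, h2, c, -, h4, h5, e⟩ := h
  refine Prim.fix hE hL hd (h5.conj (x * m)).1 e ?_
  rw [ds_conj, show x⁻¹ * (x * m * c * (x * m)⁻¹) * x = m * c * m⁻¹ by group]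
  exact ww_ll hμ (mul_mem (mul_mem h2 h4) (inv_mem h2))

theorem YA_prim (h : B ⊆ YA H X μ x) {e : Subgroup (MM Γ a)} (he : e ∈ B) :
    ∃ d, Prim d ∧ e = Ep d := by
  obtain ⟨m, -, -, c, -, -, h5, e⟩ := h he
  exact ⟨_, h5.conj _, e⟩

theorem YA_mv (g : MM Γ a) : Ep (g * d * g⁻¹) ∈ YA H X μ (g * x) ↔ Ep d ∈ YA H X μ x := by
  refine exists_congr fun m => and_congr_right fun _ => and_congr_right fun _ =>
    exists_congr fun c => and_congr_right fun _ => and_congr_right fun _ =>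
    and_congr_right fun _ => ?_
  rw [show g * x * m * c * (g * x * m)⁻¹ = g * (x * m * c * (x * m)⁻¹) * g⁻¹ by group, Ep_conj_iff]

theorem YA_mono {ν : a.K} (h : WW X ν ≤ WW X μ) (h1 : m ∈ hatH H X) (h2 : m ∈ WW X μ) :
    YA H X ν (x * m) ⊆ YA H X μ x := by
  rintro _ ⟨m', k1, k2, c, k3, k4, k5, rfl⟩
  exact ⟨m * m', mul_mem h1 k1, mul_mem h2 (h k2), c, k3, h k4, k5, by rw [mul_assoc x m m']⟩

theorem YA_right (h1 : m ∈ hatH H X) (h2 : m ∈ WW X μ) : YA H X μ (x * m) = YA H X μ x :=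
  (YA_mono le_rfl h1 h2).antisymm (by
    simpa using YA_mono (x := x * m) le_rfl (inv_mem h1) (inv_mem h2))

/-- two different edges have at most one common axis -/
theorem YA_sub (hE : S_ELEM) (hL : S_LINE) (hP : S_PERC) (hμ : Big μ) (h : Ls μ (ds x y)) :
    (YA H X μ x ∩ YA H X μ y).Subsingleton := by
  intro e he e' he'
  obtain ⟨d, p, rfl⟩ := YA_prim Set.inter_subset_left he
  obtain ⟨d', p', rfl⟩ := YA_prim Set.inter_subset_left he'
  exact Ep_eq_of_stab hE hP hμ h p.1 p'.1 ⟨YA_fix hE hL hμ p he.1, YA_fix hE hL hμ p he.2⟩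
    ⟨YA_fix hE hL hμ p' he'.1, YA_fix hE hL hμ p' he'.2⟩

theorem ln_conj_ll (hm : Ll (ln m) μ) (h : Ll (ln (m * d * m⁻¹)) μ) : Ll (ln d) μ := by
  have t3 := ln_mul_le (m⁻¹ * (m * d * m⁻¹)) m
  have t4 := ln_mul_le m⁻¹ (m * d * m⁻¹)
  rw [show m⁻¹ * (m * d * m⁻¹) * m = d by group] at t3
  rw [ln_inv] at t4
  exact Ll.mono_left (by linarith) ((hm.add hm).add h)

theorem not_YA (hE : S_ELEM) (hL : S_LINE) (hμ : Big μ) (hd : Prim d) (hm : m ∈ WW X μ)
    (h : ¬ Ll (ln d) μ) : Ep (m * d * m⁻¹) ∉ YA H X μ 1 := fun e =>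
  h (ln_conj_ll (ww_ll hμ hm) (by simpa using YA_fix hE hL hμ (hd.conj m) e))

theorem Lv.cn_of (L : Lv H X μ) (h1 : m ∈ hatH H X) (h2 : m ∈ WW X μ)
    (h : Ep d ∉ YA H X μ x) : CnS H X d x (x * m) :=
  (L.wk_YA h1 h2 x).mono fun _ k e => h (e ▸ k)

/-- the axis that separates the edge `1` from `u` and is next to the edge is unique -/
theorem Lv.uq (hA : ∀ x y, x⁻¹ * y ∈ X → ∀ c ∈ H, ∀ c' ∈ H, Prim c → Prim c' →
    Ep (x * c * x⁻¹) = Ep (y * c' * y⁻¹) → WkS H X {Ep (x * c * x⁻¹)} x y) (L : Lv H X μ) {m' : MM Γ a} (hu : u ∈ hatH H X) (h1 : c ∈ H)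
    (h2 : Prim c) (h3 : c' ∈ H) (h4 : Prim c') (m1 : m ∈ hatH H X) (m2 : m ∈ WW X μ)
    (m3 : m' ∈ hatH H X) (m4 : m' ∈ WW X μ) (y1 : Ep (m * c * m⁻¹) ∉ YA H X μ 1)
    (y2 : Ep (m' * c' * m'⁻¹) ∉ YA H X μ 1) (n1 : ¬ CnS H X (m * c * m⁻¹) 1 u)
    (n2 : ¬ CnS H X (m' * c' * m'⁻¹) 1 u) : Ep (m * c * m⁻¹) = Ep (m' * c' * m'⁻¹) := by
  by_contra e
  have key : ∀ {m c d z c0 : MM Γ a}, c ∈ H → Prim c → m ∈ hatH H X → m ∈ WW X μ →
      Ep d ∉ YA H X μ 1 → Ep (m * c * m⁻¹) ≠ Ep d → c0 ∈ H → Prim c0 →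
      Ep (z * c0 * z⁻¹) = Ep (m * c * m⁻¹) → z ∈ hatH H X → CnS H X d z u → CnS H X d 1 u :=
    fun h1 h2 m1 m2 y e k1 k2 k3 k4 k5 => ((L.cn_of m1 m2 y).trans (by
      rw [one_mul]
      exact (hA _ _ (hat_le L.le (mul_mem (inv_mem m1) k4)) _ h1 _ k1 h2 k2 k3.symm).mono
        fun _ k => k ▸ e)).trans k5
  rcases (wk_univ (x := 1) (by simpa using hu)).last
    {Ep (m * c * m⁻¹), Ep (m' * c' * m'⁻¹)} with k | ⟨z, c0, k1, k2, -, k3, k4, k5⟩
  · exact n1 (k.mono fun _ h e => h.2 (.inl e))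
  · have k6 : z ∈ hatH H X := by simpa using k4.mem L.le
    rcases k3 with k3 | k3
    · exact n2 (key h1 h2 m1 m2 y2 e k1 k2 k3 k6 (k5.mono fun _ h e => h.2 (.inr e)))
    · exact n1 (key h3 h4 m3 m4 y1 (Ne.symm e) k1 k2 k3 k6 (k5.mono fun _ h e => h.2 (.inl e)))

/-- entries of star words -/
def SV (H : Subgroup (MM Γ a)) (s : MM Γ a × MM Γ a × MM Γ a) : Prop :=
  s.1 ∈ H ∧ s.2.1 ∈ H ∧ Prim s.2.1 ∧ s.2.2 ∈ Ep s.2.1 ∧ s.2.2 ∉ H
/-- neighbours in star words -/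
def SR (s s' : MM Γ a × MM Γ a × MM Γ a) : Prop := ¬ Cj s'.1 s'.2.1 s.2.1
/-- values of star words -/
def sv (l : List (MM Γ a × MM Γ a × MM Γ a)) : MM Γ a := (l.map fun s => s.1 * s.2.2).prod

theorem SR.chg {k k' g g' : MM Γ a} {l : List (MM Γ a × MM Γ a × MM Γ a)}
    (h : ((k, c, g) :: l).IsChain SR) : ((k', c, g') :: l).IsChain SR :=
  List.isChain_cons.2 ((List.isChain_cons (x := (k, c, g))).1 h)

/-- the first axis of a reduced star word separates its ends -/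
theorem first (hS : S_STAR) (hH : GC0 H) {β h : MM Γ a} {r : List (MM Γ a × MM Γ a × MM Γ a)}
    (h1 : ∀ s ∈ (β, c, f) :: r, SV H s) (h2 : ((β, c, f) :: r).IsChain SR) (hh : h ∈ H) :
    ¬ CnS H X (β * c * β⁻¹) 1 (sv ((β, c, f) :: r) * h) := by
  intro hw
  let I : MM Γ a → Prop := fun z => ∃ l k, (∀ s ∈ l ++ (k, c, f) :: r, SV H s) ∧
    (l ++ (k, c, f) :: r).IsChain SR ∧ z * sv l * k = β
  have ih : ∀ z k0, k0 ∈ H → I z → I (z * k0) := by
    rintro z k0 hk ⟨l, k, b1, b2, b3⟩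
    rcases l with _ | ⟨⟨k1, c1, f1⟩, l⟩
    · refine ⟨[], k0⁻¹ * k, ?_, ?_, by simpa [sv, mul_assoc] using b3⟩
      · simp only [List.nil_append, List.forall_mem_cons] at b1 ⊢
        exact ⟨⟨mul_mem (inv_mem hk) b1.1.1, b1.1.2⟩, b1.2⟩
      · exact SR.chg b2
    · refine ⟨(k0⁻¹ * k1, c1, f1) :: l, k, ?_, ?_, by simpa [sv, mul_assoc] using b3⟩
      · simp only [List.cons_append, List.forall_mem_cons] at b1 ⊢
        exact ⟨⟨mul_mem (inv_mem hk) b1.1.1, b1.1.2⟩, b1.2⟩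
      · exact SR.chg b2
  have main : ∀ z, CnS H X (β * c * β⁻¹) 1 z → I z := by
    intro z hz
    induction hz with
    | refl => exact ⟨[], β, h1, h2, by simp [sv]⟩
    | hs y k _ hk h => exact ih y k hk h
    | es y d g _ k1 k2 k3 k4 k5 h =>
      by_cases e : g ∈ H
      · exact ih y g e h
      obtain ⟨l, k, b1, b2, b3⟩ := h
      have new : (∀ s ∈ (l ++ (k, c, f) :: r).head?, ¬ Cj s.1 s.2.1 d) → I (y * g) := fun n =>
        ⟨(1, d, g⁻¹) :: l, k, List.forall_mem_cons.2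
          ⟨⟨one_mem _, k1, k2, inv_mem k4, fun e' => e (by simpa using e')⟩, b1⟩,
          List.isChain_cons.2 ⟨n, b2⟩, by simpa [sv, mul_assoc] using b3⟩
      rcases l with _ | ⟨⟨k', c1, f1⟩, l⟩
      · refine new fun s hs e' => k5 ?_
        obtain rfl : (k, c, f) = s := by simpa using hs
        obtain rfl : y * k = β := by simpa [sv] using b3
        rw [show y * k * c * (y * k)⁻¹ = y * (k * c * k⁻¹) * y⁻¹ by group, Ep_conj_iff]
        exact e'.symm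
      · by_cases n : Cj k' c1 d
        · simp only [List.cons_append, List.forall_mem_cons] at b1
          have g1 : k'⁻¹ * g⁻¹ * k' ∈ Ep c1 := mem_Ep_conj.1 (n ▸ inv_mem k4)
          by_cases e2 : k'⁻¹ * g⁻¹ * k' * f1 ∈ H
          · have i1 : I (y * k' * f1) := ⟨l, k, b1.2, (List.isChain_cons.1 b2).2,
              by simpa [sv, mul_assoc] using b3⟩
            have := ih _ _ (inv_mem (mul_mem b1.1.1 e2)) i1
            simpa [mul_assoc] using this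
          · refine ⟨(k', c1, k'⁻¹ * g⁻¹ * k' * f1) :: l, k, List.forall_mem_cons.2
              ⟨⟨b1.1.1, b1.1.2.1, b1.1.2.2.1, mul_mem g1 b1.1.2.2.2.1, e2⟩, b1.2⟩,
              SR.chg b2, by simpa [sv, mul_assoc] using b3⟩
        · exact new fun s hs => by
            obtain rfl : (k', c1, f1) = s := by simpa using hs
            exact n
  obtain ⟨l, k, b1, b2, b3⟩ := main _ hw
  refine hS Γ a H _ hH (by simp) b1 b2 ?_
  have e : sv (l ++ (k, c, f) :: r) = h⁻¹ := by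
    have e1 : sv (l ++ (k, c, f) :: r) = sv l * k * (f * sv r) := by simp [sv, mul_assoc]
    have e2 : sv ((β, c, f) :: r) = β * (f * sv r) := by simp [sv, mul_assoc]
    rw [e2] at b3
    rw [e1, show sv l * k = h⁻¹ * (f * sv r)⁻¹ by
      rw [← mul_left_cancel_iff (a := β * (f * sv r) * h), ← mul_assoc, b3]; group]
    group
  exact (show sv _ ∈ H from e ▸ inv_mem hh)

/-- a small element that preserves the axis fixes the projection of `1` -/
theorem proj_stab (hE : S_ELEM) (hL : S_LINE) {p : MM Γ a} (hd : Prim d)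
    (h1 : Ll (ds p (d * p)) μ) (h2 : ∀ z, Ll (ds z (d * z)) μ → On μ p 1 z) (hg : Ll (ln g) μ)
    (e : Cj g d d) : Stab μ 1 p g := by
  have k : ∀ g, Cj g d d → On μ p 1 (g * p) := fun g e =>
    h2 _ (Prim.fix hE hL hd (hd.conj g).1 (Eq.symm e) (by rwa [disp_conj]))
  refine ⟨by simpa using hg, (k g e).antisymm ?_⟩
  have := (k g⁻¹ e.inv).mul g
  rw [mul_inv_cancel_left, mul_one] at this
  exact this.congr (FixA.ll_self hg.nonneg _) (by simpa using hg) (FixA.ll_self hg.nonneg _)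

end Pool.Agent.P.MP_dba3d2_lc.SW


end

section

/-! Nested tripods: only finitely many levels are bad. -/

namespace Pool.Agent.P.MP_dba3d2_lc.SW

open Filter

variable {Γ : HG} {a : Amb} {H X : Subgroup (MM Γ a)} {l : ℕ → a.K} {s : Fin 3 → Bool}
  {u : ℕ → Fin 3 → MM Γ a} {m n k : ℕ}

theorem Env.ll (E : Env H X l) (h : m < n) : Ll (l n) (l m) := by
  induction h with
  | refl => exact E.dec _
  | step _ ih => exact Ll.ls_left (E.dec _).ls ih

theorem Env.ls (E : Env H X l) (h : m ≤ n) : Ls (l n) (l m) := by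
  rcases h.eq_or_lt with rfl | h
  · exact Ls.refl' _
  · exact (E.ll h).ls

theorem Env.ww (E : Env H X l) (h : m ≤ n) : WW X (l n) ≤ WW X (l m) :=
  ww_mono (E.lv m).big (E.lv n).big (E.ls h)

/-- first blocks of a tripod at all levels from `m` on -/
structure Nest (H X : Subgroup (MM Γ a)) (l : ℕ → a.K) (m : ℕ) (s : Fin 3 → Bool)
    (u : ℕ → Fin 3 → MM Γ a) : Prop where
  mem : ∀ n i, u n i ∈ hatH H X
  ne : ∀ i j, i ≠ j → s i = true → s j = true → (u m i)⁻¹ * u m j ∉ WW X (l m)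
  f : ∀ n k i, m ≤ n → n ≤ k → s i = false → u k i = u n i
  t : ∀ n k i, m ≤ n → n ≤ k → s i = true → (u n i)⁻¹ * u k i ∈ WW X (l n)

theorem Nest.far (E : Env H X l) (N : Nest H X l m s u) {i j : Fin 3} (h : i ≠ j)
    (hi : s i = true) (hj : s j = true) : Ls (l m) (ds (u m i) (u m j)) :=
  ww_ls (E.lv m).big (hat_le (E.lv m).le (mul_mem (inv_mem (N.mem m i)) (N.mem m j)))
    (N.ne i j h hi hj)

theorem Nest.one (E : Env H X l) (N : Nest H X l m s u) (h : m < n) {u0 : MM Γ a}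
    (h0 : Ls (ln u0) (l n)) : EqP (Pat1 H X (l n) u0) s (u n) := by
  rintro i j - hi hj - g ⟨k1, -, k3, k4⟩
  refine absurd ?_ (N.ne i j hj.symm hi k1)
  have w := E.ww h.le
  have h1 : u0 ∈ X := by
    have := mul_mem (mul_mem (X.inv_mem k3.1) (hat_le (E.lv n).le
      (mul_mem (inv_mem (N.mem n i)) (N.mem n j)))) (X.inv_mem k4.1)
    simpa [mul_assoc] using this
  have := mul_mem (mul_mem (N.t m n i le_rfl h.le hi) (mul_mem (w k3) (mul_mem
    (ww_of_ls (E.lv m).big (E.ll h) h1 h0) (w k4)))) (inv_mem (N.t m n j le_rfl h.le k1))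
  simpa [mul_assoc] using this

theorem Nest.cn (E : Env H X l) (N : Nest H X l m s u) (h : m ≤ n) {d : MM Γ a} {j : Fin 3}
    (k : s j = true → Ep d ∉ YA H X (l m) (u m j)) : CnS H X d (u m j) (u n j) := by
  cases e : s j
  · rw [N.f m n j le_rfl h e]
    exact .refl
  · simpa using (E.lv m).cn_of (mul_mem (inv_mem (N.mem m j)) (N.mem n j))
      (N.t m n j le_rfl h e) (k e)

theorem Nest.ya (E : Env H X l) (N : Nest H X l m s u) (h : m ≤ n) {j : Fin 3} (e : s j = true) :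
    YA H X (l n) (u n j) ⊆ YA H X (l m) (u m j) := by
  simpa using YA_mono (x := u m j) (E.ww h) (mul_mem (inv_mem (N.mem m j)) (N.mem n j))
    (N.t m n j le_rfl h e)

theorem Nest.two (hE : S_ELEM) (hL : S_LINE) (hP : S_PERC) (E : Env H X l)
    (N : Nest H X l m s u) : {n | ∃ d ∈ H, Prim d ∧ Sim (ln d) (l n) ∧
      ¬ EqP (Pat2 H X (l n) d) s (u n)}.Finite := by
  choose B b1 b2 b3 using fun j k : Fin 3 =>
    (wk_univ (mul_mem (inv_mem (N.mem m j)) (N.mem m k))).fin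
  let Z : Fin 3 → Fin 3 → Set (Subgroup (MM Γ a)) := fun i j =>
    {e | i ≠ j ∧ s i = true ∧ s j = true ∧ e ∈ YA H X (l m) (u m i) ∩ YA H X (l m) (u m j)}
  have z : ∀ i j, (Z i j).Finite := fun i j => Set.Subsingleton.finite fun e he e' he' =>
    YA_sub hE hL hP (E.lv m).big (N.far E he.1 he.2.1 he.2.2.1) he.2.2.2 he'.2.2.2
  let F : Set (Subgroup (MM Γ a)) := (⋃ j, ⋃ k, B j k) ∪ ⋃ j, ⋃ k, Z j k
  have hF : F.Finite := (Set.finite_iUnion fun j => Set.finite_iUnion fun k => b2 j k).union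
    (Set.finite_iUnion fun j => Set.finite_iUnion fun k => z j k)
  let R : ℕ → Fin 3 × Subgroup (MM Γ a) → Prop := fun n p => m < n ∧ s p.1 = true ∧ p.2 ∈ F ∧
    ∃ d, Prim d ∧ p.2 = Ep d ∧ Sim (ds (u n p.1) (d * u n p.1)) (l n)
  have key : ∀ n n' p, R n p → R n' p → ¬ n < n' := by
    rintro n n' ⟨i, e⟩ ⟨h1, h2, -, d, h4, h5, h6⟩ ⟨-, -, -, d', k4, k5, k6⟩ lt
    have k7 := Prim.fix hE hL h4 k4.1 (h5.symm.trans k5) (Ll.ls_left k6.1 (E.ll lt))
    have k8 : Ll (ds (u n i) (u n' i)) (l n) := ww_ll (E.lv n).big (N.t n n' i h1.le lt.le h2)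
    exact (fix_congr k7 (FixA.ll_comm k8)).not_ls (E.lv n).big.pos h6.2
  have fin : {n | ∃ p, R n p}.Finite := by
    refine ((Set.finite_univ.prod hF).biUnion (t := fun p => {n | R n p}) fun p _ =>
      Set.Subsingleton.finite fun n h n' h' =>
        le_antisymm (not_lt.1 (key _ _ p h' h)) (not_lt.1 (key _ _ p h h'))).subset ?_
    rintro n ⟨p, h⟩
    exact Set.mem_biUnion (show p ∈ Set.univ ×ˢ F from ⟨trivial, h.2.2.1⟩) h
  refine (fin.union (Set.finite_le_nat m)).subset ?_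
  rintro n ⟨d, h1, h2, h3, h4⟩
  refine (lt_or_ge m n).imp (fun lt => ?_) id
  simp only [EqP, not_forall] at h4
  obtain ⟨i, j, k, hi, hj, hk, g, ⟨p1, p2, p3, p4⟩, q⟩ := h4
  have big := (E.lv n).big
  have c1 : ∀ t, CnS H X (g * d * g⁻¹) 1 ((u n i)⁻¹ * u n t) ↔
      CnS H X (u n i * (g * d * g⁻¹) * (u n i)⁻¹) (u n i) (u n t) := fun t => by
    rw [← cn_mv (u n i), mul_one, mul_inv_cancel_left]
  have c2 : ∀ t, Ep (g * d * g⁻¹) ∈ YA H X (l n) ((u n i)⁻¹ * u n t) ↔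
      Ep (u n i * (g * d * g⁻¹) * (u n i)⁻¹) ∈ YA H X (l n) (u n t) := fun t => by
    rw [← YA_mv (u n i), mul_inv_cancel_left]
  set D := u n i * (g * d * g⁻¹) * (u n i)⁻¹ with hD
  have y0 : Ep D ∈ YA H X (l m) (u m i) :=
    ⟨(u m i)⁻¹ * u n i * g, mul_mem (mul_mem (inv_mem (N.mem m i)) (N.mem n i)) p1,
      mul_mem (N.t m n i le_rfl lt.le hi) (E.ww lt.le p2), d, h1,
      ww_of_ls (E.lv m).big (E.ll lt) ((E.lv m).le h1) h3.1, h2, by rw [hD]; congr 1; group⟩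
  refine ⟨(i, Ep D), lt, hi, ?_, D, (h2.conj g).conj _, rfl, ?_⟩
  · by_contra nF
    have nz : ∀ t, t ≠ i → s t = true → Ep D ∉ YA H X (l m) (u m t) := fun t ht st e =>
      nF (.inr (Set.mem_iUnion₂.2 ⟨i, t, ht.symm, hi, st, y0, e⟩))
    have w : CnS H X D (u m j) (u m k) := (b3 j k).mono fun e he e' =>
      nF (.inl (Set.mem_iUnion₂.2 ⟨j, k, e' ▸ he⟩))
    refine q ⟨p1, p2, fun e e' => nz k hk e (N.ya E lt.le e ((c2 k).1 e')), fun e => p4 ?_⟩
    exact (c1 j).2 (((c1 k).1 e).trans ((WkS.symm (N.cn E lt.le (nz k hk))).trans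
      ((WkS.symm w).trans (N.cn E lt.le (nz j hj)))))
  · have e : ds (u n i) (D * u n i) = ln (g * d * g⁻¹) := by
      rw [ds_conj, hD]
      congr 1
      group
    have g1 := ww_ll big p2
    have t1 := ln_mul_le (g * d) g⁻¹
    have t2 := ln_mul_le g d
    have t3 := ln_mul_le (g⁻¹ * (g * d * g⁻¹)) g
    have t4 := ln_mul_le g⁻¹ (g * d * g⁻¹)
    rw [show g⁻¹ * (g * d * g⁻¹) * g = d by group] at t3
    rw [ln_inv] at t1 t4
    show Sim (ds (u n i) (D * u n i)) (l n)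
    rw [e]
    exact ⟨Ls.mono_left (by linarith) ((g1.add g1).ls.add h3.1),
      h3.2.of_le_add (g1.add g1) big.pos 1 (by push_cast; linarith)⟩

theorem exists_nest (hT : S_S2_TRI) (hP : S_S2_PERS) (E : Env H X l) {x : Fin 3 → MM Γ a}
    (hx : ∀ i, x i ∈ X) : (∀ n, ∃ g, WC (hatH H X) (WW X (l n)) fun i => g * x i) ∨
      ∃ g m s u, Nest H X l m s u ∧
        ∀ n, m ≤ n → UC (hatH H X) (WW X (l n)) (fun i => g * x i) s (u n) := by
  refine or_iff_not_imp_left.2 fun h => ?_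
  obtain ⟨m, hm⟩ := not_forall.1 h
  obtain ⟨g, -, k⟩ := hT _ (hatH H X) (WW X (l m)) x fun i => by rw [(E.lv m).sup]; exact hx i
  obtain ⟨s, u0, k⟩ := k.resolve_left fun e => hm ⟨g, e⟩
  have P := fun n n' (e : n ≤ n') => hP _ (hatH H X) (WW X (l n)) (WW X (l n')) (E.lv n).am
    (E.lv n').am (E.ww e) (by rw [(E.lv n).sup, (E.lv n').sup])
  have ex : ∀ n, ∃ u, (∀ i, u i ∈ hatH H X) ∧
      (m ≤ n → UC (hatH H X) (WW X (l n)) (fun i => g * x i) s u) := fun n => by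
    by_cases e : m ≤ n
    · obtain ⟨u, k1, -⟩ := (P m n e).2 _ s u0 k
      exact ⟨u, fun i => (k1.en i).1, fun _ => k1⟩
    · exact ⟨u0, fun i => (k.en i).1, fun e' => absurd e' e⟩
  choose u h1 h2 using ex
  refine ⟨g, m, s, u, ⟨h1, (h2 m le_rfl).ne, fun n n' i e e' f => ?_, fun n n' i e e' f => ?_⟩, h2⟩
  · exact (((h2 n' (e.trans e')).en i).2.1 f).symm.trans (((h2 n e).en i).2.1 f)
  · exact (P n n' e').1 _ _ _ (f ▸ (h2 n e).en i) (f ▸ (h2 n' (e.trans e')).en i)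

end Pool.Agent.P.MP_dba3d2_lc.SW


end
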