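import Pool.Agent.P.MP_dba3d2_lcM.Bb10
import Pool.Agent.P.MP_dba3d2_lcM.Fb38
import Pool.Agent.P.MP_dba3d2_lcM.Fb40
import Pool.Agent.P.MP_dba3d2_lcM.Fb45

section

/-! Step S2_BAD1 of the stability project. -/

namespace Pool.Agent.P.MP_dba3d2_lc

open Filter
open SW

theorem S2_bad1.ll_lt {Γ : HG} {a : Amb} {H X : Subgroup (MM Γ a)} {l : ℕ → a.K}
    (E : Env H X l) {m n : ℕ} (h : m < n) : Ll (l n) (l m) := by
  induction n, h using Nat.le_induction with
  | base => exact E.dec m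
  | succ n _ ih => exact Ll.ls_left (E.dec n).ls ih

theorem p_S2_BAD1 (hS2_TRI : S_S2_TRI) (hS2_PERS : S_S2_PERS) :
    S_S2_BAD1 := by
  intro Γ a H X l x E hx
  by_cases h : ∃ m g s u, UC (hatH H X) (WW X (l m)) (fun i => g * x i) s u
  · obtain ⟨m, g, s, u, hu⟩ := h
    refine (eventually_gt_atTop m).mono fun n hn u0 h0 => ?_
    have hm := (E.lv m).big.pos.le
    have hn' := (E.lv n).big.pos.le
    have lt := S2_bad1.ll_lt E hn
    have le : WW X (l n) ≤ WW X (l m) := fun y hy =>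
      ⟨hy.1, (mem_tiny hm).2 (Ll.ls_left ((mem_tiny hn').1 hy.2).ls lt)⟩
    obtain ⟨u', hu', k⟩ := (hS2_PERS _ _ _ _ (E.lv m).am (E.lv n).am le
      ((E.lv m).sup.trans (E.lv n).sup.symm).le).2 _ s u hu
    refine ⟨g, Or.inr ⟨s, u', hu', fun i j _ hi hj _ m0 hp => (hu.ne i j hj.symm hi hp.1 ?_).elim⟩⟩
    obtain ⟨-, -, h2, h3⟩ := hp
    have hU : hatH H X ≤ X := le_sup_left.trans (E.lv m).sup.le
    have hv : (u' i)⁻¹ * u' j ∈ WW X (l m) := by
      refine ⟨hU (mul_mem (inv_mem (hu'.en i).1) (hu'.en j).1), (mem_tiny hm).2 ?_⟩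
      have e : (u' i)⁻¹ * u' j = m0 * (u0 * (u0⁻¹ * (m0⁻¹ * ((u' i)⁻¹ * u' j)))) := by group
      rw [e]
      refine Ll.ls_left (Ls.mono_left (ln_mul_le _ _) (((mem_tiny hn').1 h2.2).ls.add
        (Ls.mono_left (ln_mul_le _ _) (h0.add ((mem_tiny hn').1 h3.2).ls)))) lt
    have e : (u i)⁻¹ * u j = (u i)⁻¹ * u' i * ((u' i)⁻¹ * u' j) * ((u j)⁻¹ * u' j)⁻¹ := by group
    rw [e]
    exact mul_mem (mul_mem (k i).1 hv) (inv_mem (k j).1)
  · refine Eventually.of_forall fun n u0 _ => ?_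
    obtain ⟨g, -, k | ⟨s, u, k⟩⟩ := hS2_TRI _ (hatH H X) (WW X (l n)) x
      fun i => (E.lv n).sup.symm ▸ hx i
    · exact ⟨g, Or.inl k⟩
    · exact (h ⟨n, g, s, u, k⟩).elim

end Pool.Agent.P.MP_dba3d2_lc


end

section

/-! Step S2_EXT1 of the stability project. -/

namespace Pool.Agent.P.MP_dba3d2_lc

open Filter
open SW T9

theorem p_S2_EXT1 :
    S_S2_EXT1 := by
  intro Γ a H X μ u0 N h0 hu far N1 e A v P N2 C R hN hP hR hC
  refine ⟨fun m => ⟨fun h => by simpa using h.1, fun h => by simpa using h.1⟩, ?_⟩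
  rintro v' R' rfl m
  refine ⟨fun h => ?_, fun h => by simpa using h.1⟩
  obtain ⟨Nm, e', P', B, N3, rfl, rfl, -⟩ := fl_split hR
  rw [_root_.Pool.Agent.P.MP_dba3d2_lc.T9.noG_append] at hC
  refine (far N1 e A v P Nm e' P' v' B N3 (by simp [hN]) hP hC.1 hC.2 ?_).elim
  rw [List.append_assoc]
  generalize lv (P ++ (flS Nm ++ P')) = g at h
  have e1 : g = m * (u0 * (u0⁻¹ * (m⁻¹ * g))) := by group
  rw [e1]
  exact (mem_ball h0).1 (mul_mem (tiny_le_ball h0 h.2.2.1.2)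
    (mul_mem ((mem_ball h0).2 hu) (tiny_le_ball h0 h.2.2.2.2)))

end Pool.Agent.P.MP_dba3d2_lc


end

section

/-! Step S2_IO of the stability project. -/

namespace Pool.Agent.P.MP_dba3d2_lc

open Filter
open SW

namespace S2_io

variable {G T : Type} [Group G] [Group T] {U W : Subgroup G} {P : Bool → G → G → Prop}
  {j : G →* T} {ν : T} {n : Bool → G → T}

theorem exN (hc : ∀ s, ∀ u ∈ U, ∀ m m', P s u m → P s u m' → Commute (j (m⁻¹ * m')) ν) :
    ∃ n, IsN U P j ν n := by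
  classical
  refine ⟨fun s u => if h : ∃ m, P s u m then j h.choose * ν⁻¹ * (j h.choose)⁻¹ else 1, ?_, ?_⟩
  · intro s u hu m hm
    have h : ∃ m, P s u m := ⟨m, hm⟩
    have h1 := (hc s u hu m _ hm h.choose_spec).inv_right
    have h2 : j h.choose = j m * j (m⁻¹ * h.choose) := by
      rw [← map_mul, mul_inv_cancel_left]
    simp only [dif_pos h]
    rw [h2, mul_assoc (j m), h1.eq]
    group
  · intro s u hu
    have h : ¬ ∃ m, P s u m := fun ⟨m, hm⟩ => hu m hm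
    simp only [dif_neg h]

theorem n1 (hP : Pt0 U W P) (hN : IsN U P j ν n) (s : Bool) {u m : G} (hu : u ∈ U)
    (h1 : m ∈ U) (h2 : m ∈ W) : n s (m * u) = j m * n s u * (j m)⁻¹ := by
  by_cases h : ∃ k, P s u k
  · obtain ⟨k, hk⟩ := h
    rw [hN.yes s u hu k hk, hN.yes s _ (U.mul_mem h1 hu) _ (hP.left s u hu k hk m h1 h2), map_mul]
    group
  · have h3 : ∀ k, ¬ P s (m * u) k := fun k hk => by
      have := hP.left s _ (U.mul_mem h1 hu) k hk m⁻¹ (U.inv_mem h1) (W.inv_mem h2)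
      rw [inv_mul_cancel_left] at this
      exact h ⟨_, this⟩
    rw [hN.no s _ h3, hN.no s u fun k hk => h ⟨k, hk⟩]
    group

theorem n2 (hP : Pt0 U W P) (hN : IsN U P j ν n) {u m : G} (hu : u ∈ U)
    (h1 : m ∈ U) (h2 : m ∈ W) : n true (u * m) = n true u := by
  by_cases h : ∃ k, P true u k
  · obtain ⟨k, hk⟩ := h
    rw [hN.yes _ u hu k hk, hN.yes _ _ (U.mul_mem hu h1) _ (hP.right u hu k hk m h1 h2)]
  · have h3 : ∀ k, ¬ P true (u * m) k := fun k hk => by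
      have := hP.right _ (U.mul_mem hu h1) k hk m⁻¹ (U.inv_mem h1) (W.inv_mem h2)
      rw [mul_inv_cancel_right] at this
      exact h ⟨_, this⟩
    rw [hN.no _ _ h3, hN.no _ u fun k hk => h ⟨k, hk⟩]

theorem phR (hP : Pt0 U W P) (hN : IsN U P j ν n) (s : Bool) {u m : G} (hu : u ∈ U)
    (h1 : m ∈ U) (h2 : m ∈ W) : ph j n s true (u * m) = ph j n s true u * j m := by
  unfold ph
  rw [n2 hP hN hu h1 h2, mul_inv_rev, n1 hP hN s (U.inv_mem hu) (U.inv_mem h1) (W.inv_mem h2),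
    map_mul, map_inv]
  simp only [if_true]
  group

theorem phL (hP : Pt0 U W P) (hN : IsN U P j ν n) (t : Bool) {u m : G} (hu : u ∈ U)
    (h1 : m ∈ U) (h2 : m ∈ W) : ph j n true t (m * u) = j m * ph j n true t u := by
  unfold ph
  rw [n1 hP hN t hu h1 h2, mul_inv_rev m, n2 hP hN (U.inv_mem hu) (U.inv_mem h1) (W.inv_mem h2),
    map_mul]
  simp only [if_true]
  group

theorem phL' (hP : Pt0 U W P) (hN : IsN U P j ν n) {s : Bool} (t : Bool) {u m : G} (hu : u ∈ U)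
    (h1 : m ∈ U) (h2 : m ∈ W) (h : s = true ∨ m = 1) :
    ph j n s t (m * u) = j m * ph j n s t u := by
  rcases h with rfl | rfl
  · exact phL hP hN t hu h1 h2
  · rw [one_mul, map_one, one_mul]

/-- the graph of the insertion map -/
inductive R (U W : Subgroup G) (j : G →* T) (n : Bool → G → T) : Bool → G → T → Prop
  | nil (s : Bool) (u : G) : u ∈ U → R U W j n s u (ph j n s false u)
  | cons (s : Bool) (u w x : G) (v : T) : u ∈ U → w ∈ W → w ∉ U → Tl U W x →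
      R U W j n true x v → R U W j n s (u * w * x) (ph j n s true u * j w * v)

theorem R.inv' {s : Bool} {y : G} {v : T} (h : R U W j n s y v) :
    (y ∈ U ∧ v = ph j n s false y) ∨ ∃ u w x v0, u ∈ U ∧ w ∈ W ∧ w ∉ U ∧ Tl U W x ∧
      R U W j n true x v0 ∧ y = u * w * x ∧ v = ph j n s true u * j w * v0 := by
  cases h with
  | nil _ _ hu => exact Or.inl ⟨hu, rfl⟩
  | cons _ u w x v0 hu hw hw' hx hv => exact Or.inr ⟨u, w, x, v0, hu, hw, hw', hx, hv, rfl, rfl⟩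

theorem notU (hNT : S_S2_NT) (hA : Am U W) {u w x : G} (hu : u ∈ U) (hw : w ∈ W) (hw' : w ∉ U)
    (hx : Tl U W x) : u * w * x ∉ U := by
  have := (hNT G U W hA).1 u⁻¹ x w ⟨0, Rw.nil true _ (U.inv_mem hu)⟩ hx hw hw'
  rwa [inv_inv] at this

theorem uniq (hNT : S_S2_NT) (hA : Am U W) (hP : Pt0 U W P) (hN : IsN U P j ν n)
    {s : Bool} {y : G} {v : T} (h : R U W j n s y v) :
    ∀ m ∈ U, m ∈ W → (s = true ∨ m = 1) → ∀ v', R U W j n s (m * y) v' → v' = j m * v := by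
  induction h with
  | nil s u hu =>
    intro m h1 h2 hs v' hv'
    rcases hv'.inv' with ⟨-, rfl⟩ | ⟨u', w', x', v0, hu', hw', hw'', hx', -, e, -⟩
    · exact phL' hP hN false hu h1 h2 hs
    · exact absurd (e ▸ U.mul_mem h1 hu) (notU hNT hA hu' hw' hw'' hx')
  | cons s u w x v hu hw hw1 hx _ ih =>
    intro m h1 h2 hs v' hv'
    have hmu := U.mul_mem h1 hu
    have e0 : m * (u * w * x) = m * u * w * x := by group
    rw [e0] at hv'
    rcases hv'.inv' with ⟨hy, -⟩ | ⟨u', w', x', v0, hu', hw', hw'', hx', hv0, e, rfl⟩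
    · exact absurd hy (notU hNT hA hmu hw hw1 hx)
    · obtain ⟨a1, a2⟩ := (hNT G U W hA).2 _ hmu _ hu' _ hw _ hw' hw1 hw'' _ _ hx hx' e
      have a3 : (m * u)⁻¹ * u' ∈ U := U.mul_mem (U.inv_mem hmu) hu'
      have a4 : w⁻¹ * ((m * u)⁻¹ * u') * w' ∈ W := W.mul_mem (W.mul_mem (W.inv_mem hw) a1) hw'
      have ex : x' = (w⁻¹ * ((m * u)⁻¹ * u') * w')⁻¹ * x := by
        have : x = (m * u * w)⁻¹ * (u' * w' * x') := by rw [← e]; group
        rw [this]; group
      have eu : u' = m * u * ((m * u)⁻¹ * u') := by group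
      rw [ex] at hv0
      have hv := ih _ (U.inv_mem a2) (W.inv_mem a4) (Or.inl rfl) v0 hv0
      generalize (m * u)⁻¹ * u' = m0 at a1 a3 hv eu
      rw [hv, eu, phR hP hN s hmu a3 a1, phL' hP hN true hu h1 h2 hs]
      simp only [map_mul, map_inv]
      group

theorem exR {k : ℕ} {b : Bool} {x : G} (h : Rw U W k b x) : ∀ s, ∃ v, R U W j n s x v := by
  induction h with
  | nil b u hu => exact fun s => ⟨_, R.nil s u hu⟩
  | cons k b u w x hu _ hw hw' hx ih =>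
    intro s
    obtain ⟨v, hv⟩ := ih true
    exact ⟨_, R.cons s u w x v hu hw hw' ⟨k, hx⟩ hv⟩

end S2_io

open S2_io in
theorem p_S2_IO (hS2_NT : S_S2_NT) (hS2_RED : S_S2_RED) :
    S_S2_IO := by
  classical
  intro G T _ _ U W P j ν hA hP hc
  obtain ⟨n, hN⟩ := exN hc
  have key : ∀ s y v, R U W j n s y v →
      (if h : ∃ v, R U W j n s y v then h.choose else 1) = v := by
    intro s y v hv
    have h : ∃ v, R U W j n s y v := ⟨v, hv⟩
    have h1 := uniq hS2_NT hA hP hN hv 1 U.one_mem W.one_mem (Or.inr rfl) h.choose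
      (by rw [one_mul]; exact h.choose_spec)
    rw [dif_pos h, h1, map_one, one_mul]
  refine ⟨n, fun s y => if h : ∃ v, R U W j n s y v then h.choose else 1, hN, ?_, ?_⟩
  · intro s u hu
    exact key s u _ (R.nil s u hu)
  · intro s u hu w hw hw' x hx
    obtain ⟨k, hk⟩ := hx
    obtain ⟨v, hv⟩ := exR (j := j) (n := n) hk true
    show (if h : ∃ v, R U W j n s (u * w * x) v then h.choose else 1) =
      _ * (if h : ∃ v, R U W j n true x v then h.choose else 1)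
    rw [key true x v hv]
    exact key s _ _ (R.cons s u w x v hu hw hw' ⟨k, hk⟩ hv)

end Pool.Agent.P.MP_dba3d2_lc


end

section

/-! Step S2_COC of the stability project. -/

namespace Pool.Agent.P.MP_dba3d2_lc

open Filter
open SW

namespace S2_coc

variable {G T : Type} [Group G] [Group T] {U W : Subgroup G} {P : Bool → G → G → Prop}
  {j : G →* T} {ν : T} {n ι : Bool → G → T}

theorem inv_mul (hI : IsI U W j n ι) {k : ℕ} {b : Bool} {x : G} (hx : Rw U W k b x) :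
    b = true → ∀ y w, Tl U W y → w ∈ W → w ∉ U →
      ι false (x⁻¹ * w * y) = (ι true x)⁻¹ * j w * ι true y := by
  induction hx with
  | nil b u hu =>
    intro _ y w hy hw hw'
    rw [hI.cons false _ (U.inv_mem hu) w hw hw' y hy, hI.nil true u hu]
    simp [ph]
  | cons k b u w' x hu hb h1 h2 hx ih =>
    intro e y w hy hw hw'
    obtain ⟨m, hm⟩ := hy
    have h3 : Tl U W (u⁻¹ * w * y) :=
      ⟨_, Rw.cons m true _ w y (U.inv_mem hu) (fun _ h => hb e (W.inv_mem_iff.1 h)) hw hw' hm⟩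
    have h4 := ih rfl _ w'⁻¹ h3 (W.inv_mem h1) fun h => h2 (U.inv_mem_iff.1 h)
    rw [show (u * w' * x)⁻¹ * w * y = x⁻¹ * w'⁻¹ * (u⁻¹ * w * y) by group, h4,
      hI.cons true _ (U.inv_mem hu) w hw hw' y ⟨m, hm⟩, hI.cons true u hu w' h1 h2 x ⟨k, hx⟩]
    simp [ph, mul_assoc]

theorem one (hI : IsI U W j n ι) (x y w : G) (hx : Tl U W x) (hy : Tl U W y) (hw : w ∈ W)
    (hw' : w ∉ U) : ι false (x⁻¹ * w * y) = (ι true x)⁻¹ * j w * ι true y :=
  let ⟨_, h⟩ := hx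
  inv_mul hI h rfl y w hy hw hw'

theorem wc (hI : IsI U W j n ι) {z : Fin 3 → G} (h : WC U W z) :
    ι false ((z 0)⁻¹ * z 2) = ι false ((z 0)⁻¹ * z 1) * ι false ((z 1)⁻¹ * z 2) := by
  obtain ⟨w, t, h1, h2⟩ := h
  have key : ∀ i k, i ≠ k → ι false ((z i)⁻¹ * z k) =
      (ι true (t i))⁻¹ * j ((w i)⁻¹ * w k) * ι true (t k) := fun i k e => by
    rw [← one hI _ _ _ (h1 i).2.1 (h1 k).2.1 (W.mul_mem (W.inv_mem (h1 i).1) (h1 k).1)
      (h2 i k e), (h1 i).2.2, (h1 k).2.2]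
    congr 1
    group
  rw [key 0 2 (by decide), key 0 1 (by decide), key 1 2 (by decide)]
  simp [mul_assoc]

theorem n_eq (hN : IsN U P j ν n) {s s' : Bool} {u u' : G} (hu : u ∈ U) (hu' : u' ∈ U)
    (h : ∀ m, P s u m → P s' u' m) (h' : ∀ m, P s' u' m → P s u m) : n s u = n s' u' := by
  by_cases e : ∃ m, P s u m
  · obtain ⟨m, hm⟩ := e
    rw [hN.yes s u hu m hm, hN.yes s' u' hu' m (h m hm)]
  · rw [hN.no s u fun m hm => e ⟨m, hm⟩, hN.no s' u' fun m hm => e ⟨m, h' m hm⟩]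

theorem uc (hN : IsN U P j ν n) (hI : IsI U W j n ι) {z u : Fin 3 → G} {s : Fin 3 → Bool}
    (h : UC U W z s u) (hP : EqP P s u) :
    ι false ((z 0)⁻¹ * z 2) = ι false ((z 0)⁻¹ * z 1) * ι false ((z 1)⁻¹ * z 2) := by
  have hA : ∀ i, ∃ A : T, (s i = false ∧ z i = u i ∧ A = 1) ∨ (s i = true ∧ ∃ w t, w ∈ W ∧
      w ∉ U ∧ Tl U W t ∧ z i = u i * w * t ∧ A = j w * ι true t) := fun i => by
    cases e : s i
    · exact ⟨1, Or.inl ⟨rfl, (h.en i).2.1 e, rfl⟩⟩
    · obtain ⟨w, t, a1, a2, a3, a4⟩ := (h.en i).2.2 e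
      exact ⟨_, Or.inr ⟨rfl, w, t, a1, a2, a3, a4, rfl⟩⟩
  choose A hA using hA
  have hU : ∀ i k, (u i)⁻¹ * u k ∈ U := fun i k => U.mul_mem (U.inv_mem (h.en i).1) (h.en k).1
  have key : ∀ i k, i ≠ k → ι false ((z i)⁻¹ * z k) =
      (A i)⁻¹ * ph j n (s i) (s k) ((u i)⁻¹ * u k) * A k := fun i k e => by
    rcases hA i with ⟨a1, a2, a3⟩ | ⟨a1, w, t, a2, a3, a4, a5, a6⟩ <;>
      rcases hA k with ⟨b1, b2, b3⟩ | ⟨b1, w', t', b2, b3, b4, b5, b6⟩
    · rw [a1, b1, a2, b2, a3, b3, hI.nil false _ (hU i k)]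
      simp
    · rw [a1, b1, a2, b5, a3, b6, show (u i)⁻¹ * (u k * w' * t') = (u i)⁻¹ * u k * w' * t' by group,
        hI.cons false _ (hU i k) w' b2 b3 t' b4]
      simp [mul_assoc]
    · rw [a1, b1, a5, b2, a6, b3, show (u i * w * t)⁻¹ * u k = t⁻¹ * w⁻¹ * ((u i)⁻¹ * u k) by group,
        one hI _ _ _ a4 ⟨0, Rw.nil true _ (hU i k)⟩ (W.inv_mem a2)
          fun h => a3 (U.inv_mem_iff.1 h), hI.nil true _ (hU i k)]
      simp
    · obtain ⟨m, hm⟩ := b4
      rw [a1, b1, a5, b5, a6, b6, show (u i * w * t)⁻¹ * (u k * w' * t') =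
        t⁻¹ * w⁻¹ * ((u i)⁻¹ * u k * w' * t') by group,
        one hI _ _ _ a4 ⟨_, Rw.cons m true _ w' t' (hU i k) (fun _ => h.ne i k e a1 b1) b2 b3 hm⟩
          (W.inv_mem a2) fun h => a3 (U.inv_mem_iff.1 h),
        hI.cons true _ (hU i k) w' b2 b3 t' ⟨m, hm⟩]
      simp [mul_assoc]
  have hn : ∀ i k l, s i = true → k ≠ i → l ≠ i →
      n (s k) ((u i)⁻¹ * u k) = n (s l) ((u i)⁻¹ * u l) := fun i k l e e1 e2 =>
    n_eq hN (hU i k) (hU i l) (hP i k l e e1 e2) (hP i l k e e2 e1)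
  have h0 := fun e => hn 0 1 2 e (by decide) (by decide)
  have h1 := fun e => hn 1 0 2 e (by decide) (by decide)
  have h2 := fun e => hn 2 1 0 e (by decide) (by decide)
  rw [key 0 2 (by decide), key 0 1 (by decide), key 1 2 (by decide)]
  simp only [ph, mul_inv_rev, inv_inv]
  cases e0 : s 0 <;> cases e1 : s 1 <;> cases e2 : s 2 <;>
    simp only [e0, e1, e2, forall_const, Bool.false_eq_true, false_imp_iff] at h0 h1 h2 <;>
    simp [h0, h1, h2, mul_assoc]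

theorem blk (hN : IsN U P j ν n) {s t : Bool} {u : G} (hu : u ∈ U) {c : List (G × Bool)}
    (h : Bk P s t u c) : cutEv j ν c * j u = ph j n s t u := by
  obtain ⟨c1, c2, h1, h2, rfl⟩ := h
  have e1 : cutEv j ν c1 = if s then (n t u)⁻¹ else 1 := by
    rcases h1 with ⟨m, a1, a2, rfl⟩ | ⟨a1, rfl⟩
    · rw [if_pos a1, hN.yes t u hu m a2]
      simp [cutEv, mul_assoc]
    · split_ifs with e
      · rw [hN.no t u (a1 e), inv_one]; rfl
      · rfl
  have e2 : cutEv j ν c2 * j u = j u * if t then n s u⁻¹ else 1 := by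
    rcases h2 with ⟨m, a1, a2, rfl⟩ | ⟨a1, rfl⟩
    · rw [if_pos a1, hN.yes s _ (U.inv_mem hu) m a2]
      simp [cutEv, mul_assoc]
    · split_ifs with e
      · rw [hN.no s _ (a1 e)]; simp [cutEv]
      · simp [cutEv]
  rw [cutEv_append, mul_assoc, e1, e2, ph, mul_assoc]

theorem cl (hN : IsN U P j ν n) (hI : IsI U W j n ι) {K : Type} [Add K] {f : G → K} {s : Bool}
    {x : G} {t : K} {C : List (G × Bool)} (h : CL U W f (Bk P) s x t C) :
    (∃ k, Rw U W k s x) ∧ cutEv j ν C * j x = ι s x := by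
  induction h with
  | nil s u c hu hc => exact ⟨⟨0, Rw.nil s u hu⟩, by rw [blk hN hu hc, hI.nil s u hu]⟩
  | cons s u w x t c C hu hs hw hw' hc _ ih =>
    obtain ⟨⟨k, hk⟩, e⟩ := ih
    refine ⟨⟨_, Rw.cons k s u w x hu hs hw hw' hk⟩, ?_⟩
    rw [hI.cons s u hu w hw hw' x ⟨k, hk⟩, ← e, ← blk hN hu hc, cutEv_append, cutEv_mv]
    simp [mul_assoc]

end S2_coc

theorem p_S2_COC :
    S_S2_COC := by
  intro G T _ _ U W P j ν n ι hN hI
  refine ⟨S2_coc.one hI, fun x y ⟨g, h⟩ => ?_, fun K _ f s x t C h => (S2_coc.cl hN hI h).2⟩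
  have key := h.elim (S2_coc.wc hI) fun ⟨_, _, h1, h2⟩ => S2_coc.uc hN hI h1 h2
  simpa [mul_assoc] using key

end Pool.Agent.P.MP_dba3d2_lc


end

section

/-! Step S2_MULT of the stability project. -/

namespace Pool.Agent.P.MP_dba3d2_lc

open Filter
open SW T9

namespace S2mult

variable {Γ : HG} {a : Amb} {H X : Subgroup (MM Γ a)} {μ : a.K} {T : Type} [Group T]
  {Pa : Bool → MM Γ a → MM Γ a → Prop} {j : MM Γ a →* T} {ν : T} {n ι : Bool → MM Γ a → T}
  {A L P C R : List (Lt Γ a)} {N : List (NL Γ a)}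

theorem li_append (L L' : List (Lt Γ a)) : li (L ++ L') = li L' ++ li L := by simp [li]
theorem li_gen (v : MM Γ a) (L : List (Lt Γ a)) :
    li (Sum.inr (none, v) :: L) = li L ++ [Sum.inr (none, v⁻¹)] := by simp [li, iL]
theorem lv_li (L : List (Lt Γ a)) : lv (li L) = (lv L)⁻¹ := by
  induction L with
  | nil => simp [li, lv]
  | cons x L ih =>
    rw [← List.singleton_append, li_append, _root_.Pool.Agent.P.MP_dba3d2_lc.T9.lv_append, _root_.Pool.Agent.P.MP_dba3d2_lc.T9.lv_append, ih, mul_inv_rev]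
    rcases x with g | x <;> simp [li, lv, iL, vL]
theorem noG_li (h : NoG L) : NoG (li L) := fun v m => by
  obtain ⟨g | x, m, e⟩ := List.mem_map.1 (List.mem_reverse.1 m)
  · cases e
  · obtain ⟨t, y⟩ := x
    obtain rfl : t = none := congrArg Prod.fst (Sum.inr.inj e)
    exact h y m
theorem fl_ni (N : List (NL Γ a)) : flS (ni N) = li (flS N) := by
  induction N with
  | nil => rfl
  | cons s N ih =>
    rw [_root_.Pool.Agent.P.MP_dba3d2_lc.T9.fl_cons, li_append, ← ih, ni, List.map_cons, List.reverse_cons, _root_.Pool.Agent.P.MP_dba3d2_lc.T9.fl_append]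
    rcases s with g | x <;> simp [flS, ex, iN, li, iL, ni]

/-- the mirror image of `ExtP` -/
def ExtQ (Pa : Bool → MM Γ a → MM Γ a → Prop) (N : List (NL Γ a)) : Prop :=
  ∀ N1 e P v B N2 R C, N = N1 ++ Sum.inr (e, P ++ Sum.inr (none, v) :: B) :: N2 → NoG P →
    flS N1 = R ++ C → NoG C → (∀ m, Pa false (lv (C ++ P))⁻¹ m ↔ Pa false (lv P)⁻¹ m) ∧
      ∀ v' R', R = R' ++ [Sum.inr (none, v')] → ∀ m, Pa true (lv (C ++ P))⁻¹ m ↔ Pa false (lv P)⁻¹ m

theorem extQ (h : ExtP Pa (ni N)) : ExtQ Pa N := by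
  rintro N1 e P v B N2 R C rfl hP hR hC
  have := h (ni N2) (e.1, e.2⁻¹) (li B) v⁻¹ (li P) (ni N1) (li C) (li R)
    (by simp [ni, iN, li_append, li_gen]) (noG_li hP) (by rw [fl_ni, hR, li_append]) (noG_li hC)
  rw [← li_append, lv_li, lv_li] at this
  exact ⟨this.1, fun v' R' e' => this.2 v'⁻¹ (li R') (by rw [e', li_append, li_gen]; rfl)⟩

theorem n_eq (hn : IsN (hatH H X) Pa j ν n) {s t : Bool} {u u' : MM Γ a} (h : u ∈ hatH H X)
    (h' : u' ∈ hatH H X) (e : ∀ m, Pa s u m ↔ Pa t u' m) : n s u = n t u' := by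
  by_cases k : ∃ m, Pa s u m
  · obtain ⟨m, k⟩ := k
    rw [hn.yes s u h m k, hn.yes t u' h' m ((e m).1 k)]
  · rw [hn.no s u fun m c => k ⟨m, c⟩, hn.no t u' fun m c => k ⟨m, (e m).2 c⟩]

theorem step (h0 : 0 ≤ μ) (le : H ≤ X) (hι : IsI (hatH H X) (WW X μ) j n ι) (s : Bool) {v : MM Γ a}
    (hP : NoG P) (h : F0 H X μ (P ++ Sum.inr (none, v) :: L)) :
    ι s (lv (P ++ Sum.inr (none, v) :: L)) = ph j n s true (lv P) * j v * ι true (lv L) := by
  have g := h.gen v (by simp)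
  rw [_root_.Pool.Agent.P.MP_dba3d2_lc.T9.lv_append, _root_.Pool.Agent.P.MP_dba3d2_lc.T9.lv_cons, ← mul_assoc]
  exact hι.cons s _ (blk_mem le (f0_left h).toFa hP) v g.1 g.2 _ (tl_of h0 le (f0_right h))

/-- the part up to a general variable splits off -/
theorem pre (h0 : 0 ≤ μ) (le : H ≤ X) (hι : IsI (hatH H X) (WW X μ) j n ι) (v : MM Γ a)
    (A : List (Lt Γ a)) : ∀ s, ∃ τ, ∀ L, F0 H X μ (A ++ Sum.inr (none, v) :: L) →
      ι s (lv (A ++ Sum.inr (none, v) :: L)) = τ * ι true (lv L) := by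
  induction A using genInd with
  | h0 P k => exact fun s => ⟨_, fun L h => step h0 le hι s k h⟩
  | h1 P w A k ih =>
    obtain ⟨τ, e⟩ := ih true
    refine fun s => ⟨ph j n s true (lv P) * j w * τ, fun L h => ?_⟩
    rw [List.append_assoc, List.cons_append] at h ⊢
    rw [step h0 le hι s k h, e L (f0_right (A := P ++ [Sum.inr (none, w)]) (by simpa using h)),
      mul_assoc _ τ]

/-- splitting inside a block -/
theorem blk (h0 : 0 ≤ μ) (le : H ≤ X) (hι : IsI (hatH H X) (WW X μ) j n ι) (s : Bool)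
    (hP : NoG P) (h : F0 H X μ (P ++ L))
    (h1 : NoG L → s = true → n false (lv (P ++ L)) = n false (lv P))
    (h2 : ∀ C v R, L = C ++ Sum.inr (none, v) :: R → NoG C →
      (s = true → n true (lv (P ++ C)) = n false (lv P)) ∧
        n s (lv (P ++ C))⁻¹ = n false (lv C)⁻¹) :
    ι s (lv (P ++ L)) = ι s (lv P) * ι false (lv L) := by
  rw [hι.nil s _ (blk_mem le (f0_left h).toFa hP)]
  by_cases k : NoG L
  · rw [hι.nil s _ (blk_mem le h.toFa (_root_.Pool.Agent.P.MP_dba3d2_lc.T9.noG_append.2 ⟨hP, k⟩)),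
      hι.nil false _ (blk_mem le (f0_right h).toFa k)]
    cases s
    · simp [ph, _root_.Pool.Agent.P.MP_dba3d2_lc.T9.lv_append]
    · simp only [ph, h1 k rfl]
      simp [_root_.Pool.Agent.P.MP_dba3d2_lc.T9.lv_append, mul_assoc]
  · obtain ⟨C, v, R, rfl, hC⟩ := firstG k
    obtain ⟨e1, e2⟩ := h2 C v R rfl hC
    rw [step h0 le hι false hC (f0_right h), ← List.append_assoc,
      step h0 le hι s (_root_.Pool.Agent.P.MP_dba3d2_lc.T9.noG_append.2 ⟨hP, hC⟩) (List.append_assoc P C _ ▸ h)]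
    cases s
    · simp only [ph, e2]
      simp [_root_.Pool.Agent.P.MP_dba3d2_lc.T9.lv_append, mul_assoc]
    · simp only [ph, e1 rfl, e2]
      simp [_root_.Pool.Agent.P.MP_dba3d2_lc.T9.lv_append, mul_assoc]

theorem lastG (h : ¬ NoG L) : ∃ A v P, L = A ++ Sum.inr (none, v) :: P ∧ NoG P := by
  induction L using genInd with
  | h0 L k => exact (h k).elim
  | h1 P v L _ ih =>
    by_cases k : NoG L
    · exact ⟨P, v, L, rfl, k⟩
    · obtain ⟨A, w, B, rfl, hB⟩ := ih k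
      exact ⟨P ++ Sum.inr (none, v) :: A, w, B, by simp, hB⟩

end S2mult

open S2mult in
theorem p_S2_MULT (_hS2_COC : S_S2_COC) :
    S_S2_MULT := by
  intro Γ a H X μ T _ Pa j ν n ι N h0 le hn hι h hp hq
  replace hq := extQ hq
  induction N with
  | nil => simpa [ph, flS, lv] using hι.nil false 1 (one_mem _)
  | cons s N ih =>
    rw [_root_.Pool.Agent.P.MP_dba3d2_lc.T9.fl_cons] at h ⊢
    rw [List.map_cons, List.prod_cons, ← ih (f0_right h)
      (fun N1 e A v P N2 C R e' => hp (s :: N1) e A v P N2 C R (by simp [e']))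
      fun N1 e P v B N2 R C e' k1 k2 k3 => by
        have := hq (s :: N1) e P v B N2 (ex s ++ R) C (by simp [e']) k1 (by simp [_root_.Pool.Agent.P.MP_dba3d2_lc.T9.fl_cons, k2]) k3
        exact ⟨this.1, fun v' R' e2 => this.2 v' (ex s ++ R') (by simp [e2])⟩]
    have mem : ∀ {L}, L ⊆ ex s ++ flS N → NoG L → lv L ∈ hatH H X :=
      fun k g => blk_mem le (fa_sub h.toFa k) g
    have left : ∀ t A P, ex s = A ++ P → NoG P → (t = true → ∃ A' v, A = A' ++ [Sum.inr (none, v)]) →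
        ∀ C v R, flS N = C ++ Sum.inr (none, v) :: R → NoG C →
        n t (lv (P ++ C))⁻¹ = n false (lv C)⁻¹ := by
      intro t A P e1 g1 ht C v R e2 g2
      have m1 := mem (L := P ++ C) (fun _ m => by simp at m; rcases m with m | m <;> simp [e1, e2, m])
        (_root_.Pool.Agent.P.MP_dba3d2_lc.T9.noG_append.2 ⟨g1, g2⟩)
      have m2 := mem (L := C) (fun _ m => by simp [e2, m]) g2
      obtain ⟨Nm, e, P', B, N3, rfl, rfl, -⟩ := fl_split e2
      rw [_root_.Pool.Agent.P.MP_dba3d2_lc.T9.noG_append] at g2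
      have q1 := hq (s :: Nm) e P' v B N3 A (P ++ flS Nm) rfl g2.2 (by simp [_root_.Pool.Agent.P.MP_dba3d2_lc.T9.fl_cons, e1])
        (_root_.Pool.Agent.P.MP_dba3d2_lc.T9.noG_append.2 ⟨g1, g2.1⟩)
      have q2 := (hq (s :: Nm) e P' v B N3 (ex s) (flS Nm) rfl g2.2 (_root_.Pool.Agent.P.MP_dba3d2_lc.T9.fl_cons _ _) g2.1).1
      rw [List.append_assoc] at q1
      refine n_eq hn (inv_mem m1) (inv_mem m2) fun m => Iff.trans ?_ (q2 m).symm
      cases t
      · exact q1.1 m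
      · obtain ⟨A', w, e3⟩ := ht rfl
        exact q1.2 w A' e3 m
    by_cases k : NoG (ex s)
    · exact blk h0 le hι false k h (by simp) fun C v R e g =>
        ⟨by simp, left false [] _ rfl k (by simp) C v R e g⟩
    obtain ⟨A, v, P, e1, g1⟩ := lastG k
    obtain ⟨τ, e⟩ := pre h0 le hι v A false
    have h' : F0 H X μ (A ++ Sum.inr (none, v) :: (P ++ flS N)) := by simpa [e1] using h
    have right : ∀ C R, flS N = C ++ R → NoG C → (n false (lv (P ++ C)) = n false (lv P)) ∧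
        ∀ v' R', R = Sum.inr (none, v') :: R' → n true (lv (P ++ C)) = n false (lv P) := by
      intro C R e2 g2
      have m1 := mem (L := P ++ C) (fun _ m => by simp at m; rcases m with m | m <;> simp [e1, e2, m])
        (_root_.Pool.Agent.P.MP_dba3d2_lc.T9.noG_append.2 ⟨g1, g2⟩)
      have m2 := mem (L := P) (fun _ m => by simp [e1, m]) g1
      rcases s with g | ⟨x, D⟩
      · exact (k fun _ m => by simp [ex] at m).elim
      have := hp [] x A v P N C R (congrArg (fun D => Sum.inr (x, D) :: N) e1) g1 e2 g2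
      exact ⟨n_eq hn m1 m2 this.1, fun v' R' e3 => n_eq hn m1 m2 (this.2 v' R' e3)⟩
    rw [e1, List.append_assoc, List.cons_append, e _ h', e P (f0_left (B := flS N) (by simpa using h')),
      mul_assoc, blk h0 le hι true g1 (f0_right (A := A ++ [Sum.inr (none, v)]) (by simpa using h'))
        (fun g _ => (right _ [] (List.append_nil _).symm g).1) fun C w R e2 g =>
        ⟨fun _ => (right C _ e2 g).2 w R rfl, left true (A ++ [Sum.inr (none, v)]) P (by simp [e1]) g1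
          (fun _ => ⟨A, v, rfl⟩) C w R e2 g⟩]

end Pool.Agent.P.MP_dba3d2_lc


end

section

/-! Step S2_ORD of the stability project. -/

namespace Pool.Agent.P.MP_dba3d2_lc

open Filter
open SW

theorem S2_ord.le {Γ : HG} {a : Amb} {U W : Subgroup (MM Γ a)}
    {B : Bool → Bool → MM Γ a → List (MM Γ a × Bool) → Prop} {s : Bool} {x : MM Γ a} {t : a.K}
    {C : List (MM Γ a × Bool)} (h : CL U W ln B s x t C) : ln x ≤ t := by
  induction h with
  | nil s u c _ _ => exact le_rfl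
  | cons s u w x t c C _ _ _ _ _ _ ih => linarith [ln_mul_le (u * w) x, ln_mul_le u w]

theorem p_S2_ORD :
    S_S2_ORD := by
  intro Γ a U W μ p q B hB s x t C h
  induction h with
  | nil s u c _ hb => exact fun _ => hB _ _ _ _ hb
  | cons s u w x t c C _ _ _ _ hb hc ih =>
    intro k
    have h1 := S2_ord.le hc
    have h2 := ln_mul_le (u * w) x
    have h3 := ln_mul_le u w
    have h4 := ds_tri 1 u (u * w * x)
    have h5 := ds_tri u (u * w) (u * w * x)
    rw [ds_mul_right, ds_mul_right] at h5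
    rw [ds_one_left, ds_one_left] at h4
    have o := (ih (Ll.mono_left (by linarith) k)).mul (u * w)
    rw [mul_one] at o
    rw [cutPts_append, cutPts_mv]
    refine OrdOn.append (o.back (x' := u) ?_) (hB _ _ _ _ hb) ?_
    · refine Ll.mono_left ?_ k
      rw [ds_mul_right, ds_mul_right]
      linarith
    · refine Ll.mono_left ?_ k
      rw [ds_one_left, ds_one_left]
      linarith

end Pool.Agent.P.MP_dba3d2_lc


end

section

/-! Step S2_CW of the stability project. -/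

namespace Pool.Agent.P.MP_dba3d2_lc

open Filter
open SW

namespace S2_cw

theorem hf_total {G : Type} (P : G → Prop) (s : Bool) (φ : G → G × Bool) : ∃ c, Hf P s φ c := by
  by_cases h : ∃ m, s = true ∧ P m
  · obtain ⟨m, h1, h2⟩ := h
    exact ⟨_, Or.inl ⟨m, h1, h2, rfl⟩⟩
  · exact ⟨[], Or.inr ⟨fun h1 m h2 => h ⟨m, h1, h2⟩, rfl⟩⟩

theorem bk_total {G : Type} [Group G] (P : Bool → G → G → Prop) (s t : Bool) (u : G) :
    ∃ c, Bk P s t u c := by
  obtain ⟨c1, h1⟩ := hf_total (P t u) s fun m => (m, true)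
  obtain ⟨c2, h2⟩ := hf_total (P s u⁻¹) t fun m => (u * m, false)
  exact ⟨_, c1, c2, h1, h2, rfl⟩

theorem hf_false {G : Type} (P : G → Prop) (φ : G → G × Bool) : Hf P false φ [] :=
  Or.inr ⟨fun h => absurd h Bool.false_ne_true, rfl⟩

variable {Γ : HG} {a : Amb}

theorem bk_ord {ν : a.K} (h0 : 0 ≤ ν) {P : Bool → MM Γ a → MM Γ a → Prop}
    (hP : ∀ s u m, P s u m → Ll (ln m) ν) (s t : Bool) (u : MM Γ a) (c : List (MM Γ a × Bool))
    (h : Bk P s t u c) : OrdOn ν 1 (cutPts 1 1 c) u := by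
  obtain ⟨c1, c2, h1, h2, rfl⟩ := h
  rw [cutPts_append]
  refine OrdOn.append (z := 1) ?_ ?_ (on_left h0 _ _)
  · rcases h2 with ⟨m, -, hm, rfl⟩ | ⟨-, rfl⟩
    · refine ⟨(On.of_near (x := u) ?_ 1).symm, on_left h0 _ _, trivial⟩
      simpa only [cond_false, mul_one, ds_mul_right] using hP _ _ _ hm
    · trivial
  · rcases h1 with ⟨m, -, hm, rfl⟩ | ⟨-, rfl⟩
    · refine ⟨On.of_near ?_ 1, on_left h0 _ _, trivial⟩
      simpa only [cond_true, mul_one, ds_one_left] using hP _ _ _ hm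
    · trivial

end S2_cw

open S2_cw in
theorem p_S2_CW (hS2_RED : S_S2_RED) (hS2_ORD : S_S2_ORD) :
    S_S2_CW := by
  intro Γ a H X μ P hL hP
  have hμ := hL.big
  have key : ∀ w, ∃ c, (w ∈ X → ∃ t, CL (hatH H X) (WW X μ) ln (Bk P) false w t c) ∧
      (w ∈ H → c = []) ∧
      (w ∈ X → c ≠ [] → Ls μ (ln w) ∧ OrdOn (ln w) 1 (cutPts 1 1 c) w) := by
    intro w
    by_cases hU : w ∈ hatH H X
    · exact ⟨[], fun _ => ⟨_, CL.nil false w [] hU ⟨[], [], hf_false _ _, hf_false _ _, rfl⟩⟩,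
        fun _ => rfl, fun _ e => absurd rfl e⟩
    by_cases hX : w ∈ X
    swap
    · exact ⟨[], fun e => absurd e hX, fun _ => rfl, fun e => absurd e hX⟩
    rcases ll_or_ls hμ.pos (ln w) with e | e
    · refine ⟨[], fun _ => ⟨ln (1 : MM Γ a) + ln w + ln (1 : MM Γ a), ?_⟩, fun _ => rfl,
        fun _ e => absurd rfl e⟩
      have k := CL.cons (f := ln) (B := Bk P) false 1 w 1 _ [] [] (one_mem (hatH H X))
        (fun h => absurd h Bool.false_ne_true)
        (show w ∈ WW X μ from ⟨hX, (mem_tiny hμ.pos.le).2 e⟩) hU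
        ⟨[], [], hf_false _ _, Or.inr ⟨fun _ => by simpa using hP.one, rfl⟩, rfl⟩
        (CL.nil true 1 [] (one_mem _) ⟨[], [], Or.inr ⟨fun _ => hP.one, rfl⟩, hf_false _ _, rfl⟩)
      rwa [one_mul, mul_one] at k
    · obtain ⟨L, h1, rfl, h2, -⟩ := hL.nf w hX
      obtain ⟨t, C, h3, h4⟩ := (hS2_RED _ (hatH H X) (WW X μ)).2.2 a.K ln (Bk P) ln_one ln_mul_le
        (_root_.Pool.Agent.P.MP_dba3d2_lc.S2_cw.bk_total P) L fun g hg => (h1 g hg).imp_left fun k => Subgroup.mem_sup_left k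
      refine ⟨C, fun _ => ⟨t, h3⟩, fun k => absurd (Subgroup.mem_sup_left k) hU, fun _ _ =>
        ⟨e, hS2_ORD Γ a _ _ _ 1 1 _ (bk_ord (ln_nonneg _) fun s u m hm => ?_) _ _ _ _ h3
          ((h2 (hμ.of_ls e)).mono_left (by linarith))⟩⟩
      exact ((mem_tiny hμ.pos.le).1 (hP.mem s u m hm).2.2).ls_right e (ln_nonneg _)
  choose C h1 h2 h3 using key
  exact ⟨C, h1, h2, h3⟩

end Pool.Agent.P.MP_dba3d2_lc


end

section

/-! Step S2_ENT of the stability project. -/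

namespace Pool.Agent.P.MP_dba3d2_lc

open Filter
open SW

namespace S2_ent

theorem cl_mono {G K : Type} [Group G] [Add K] {U W : Subgroup G} {f : G → K}
    {B B' : Bool → Bool → G → List (G × Bool) → Prop} (hB : ∀ s t u c, B s t u c → B' s t u c)
    {s : Bool} {x : G} {t : K} {C : List (G × Bool)} (h : CL U W f B s x t C) :
    CL U W f B' s x t C := by
  induction h with
  | nil s u c a1 a2 => exact CL.nil s u c a1 (hB _ _ _ _ a2)
  | cons s u w x t c C a1 a2 a3 a4 a5 _ ih => exact CL.cons s u w x t c C a1 a2 a3 a4 (hB _ _ _ _ a5) ih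

theorem hf_nil {G : Type} {P : G → Prop} {s : Bool} {φ : G → G × Bool} (h : Hf P s φ []) :
    s = true → ∀ m, ¬ P m := by
  rcases h with ⟨m, -, -, e⟩ | h
  · exact absurd e (by simp)
  · exact h.1

theorem hf_false {G : Type} {P : G → Prop} {φ : G → G × Bool} {c : List (G × Bool)}
    (h : Hf P false φ c) : c = [] := by
  rcases h with ⟨m, e, -⟩ | h
  · exact absurd e (by simp)
  · exact h.2

/-- no pattern at the ends of a block -/
def NP {G : Type} [Group G] (P : Bool → G → G → Prop) (s t : Bool) (u : G) : Prop :=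
  (s = true → ∀ m, ¬ P t u m) ∧ (t = true → ∀ m, ¬ P s u⁻¹ m)

theorem bk_nil {G : Type} [Group G] {P : Bool → G → G → Prop} {s t : Bool} {u : G}
    (h : Bk P s t u []) : NP P s t u := by
  obtain ⟨c1, c2, h1, h2, e⟩ := h
  obtain ⟨rfl, rfl⟩ := List.append_eq_nil_iff.1 e.symm
  exact ⟨hf_nil h1, hf_nil h2⟩

theorem bk_ff {G : Type} [Group G] {P : Bool → G → G → Prop} {u : G} {c : List (G × Bool)}
    (h : Bk P false false u c) : c = [] := by
  obtain ⟨c1, c2, h1, h2, rfl⟩ := h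
  rw [hf_false h1, hf_false h2]
  rfl

variable {Γ : HG} {a : Amb}

theorem split_cmp {Q A Z R : List (Lt Γ a)} {v v' : MM Γ a} (k : NoG Q)
    (e : A ++ Sum.inr (none, v') :: Z = Q ++ Sum.inr (none, v) :: R) :
    (A = Q ∧ Z = R) ∨ ∃ A', A = Q ++ Sum.inr (none, v) :: A' ∧
      R = A' ++ Sum.inr (none, v') :: Z := by
  rcases List.append_eq_append_iff.1 e with ⟨_ | ⟨y, E⟩, e1, e2⟩ | ⟨_ | ⟨y, E⟩, e1, e2⟩
  · exact Or.inl ⟨by simpa using e1.symm, (List.cons.inj e2).2⟩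
  · obtain ⟨rfl, -⟩ := List.cons.inj e2
    exact absurd (by rw [e1]; simp) (k v')
  · exact Or.inl ⟨by simpa using e1, (List.cons.inj e2).2.symm⟩
  · obtain ⟨rfl, e3⟩ := List.cons.inj e2
    exact Or.inr ⟨E, e1, e3⟩

/-- blocks of a final segment -/
def BS (s : Bool) (R : List (Lt Γ a)) (s' : Bool) (Q : List (Lt Γ a)) (t : Bool) : Prop :=
  ∃ A B, R = A ++ Q ++ B ∧ NoG Q ∧
    ((A = [] ∧ s' = s) ∨ (s' = true ∧ ∃ A' v, A = A' ++ [Sum.inr (none, v)])) ∧
    (t = false → B = []) ∧ (t = true → ∃ v B', B = Sum.inr (none, v) :: B')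

theorem bs_of {D Q : List (Lt Γ a)} {s t : Bool} (h : Blk D s Q t) : BS false D s Q t := by
  obtain ⟨A, B, e, k, a1, a2, a3, a4⟩ := h
  refine ⟨A, B, e, k, ?_, a3, a4⟩
  cases s
  · exact Or.inl ⟨a1 rfl, rfl⟩
  · exact Or.inr ⟨rfl, a2 rfl⟩

theorem bs_noG {R Q : List (Lt Γ a)} {s s' t : Bool} (k : NoG R) (h : BS s R s' Q t) :
    s' = s ∧ t = false ∧ Q = R := by
  obtain ⟨A, B, rfl, -, a1, a3, a4⟩ := h
  obtain ⟨rfl, rfl⟩ : A = [] ∧ s' = s := a1.resolve_right fun ⟨_, A', v, e⟩ => k v (by simp [e])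
  cases t
  · exact ⟨rfl, rfl, by simp [a3 rfl]⟩
  · obtain ⟨v, B', rfl⟩ := a4 rfl
    exact absurd (by simp) (k v)

theorem bs_cons {R Q Q₀ : List (Lt Γ a)} {s s' t : Bool} {v : MM Γ a} (k : NoG Q₀)
    (h : BS s (Q₀ ++ Sum.inr (none, v) :: R) s' Q t) :
    (s' = s ∧ t = true ∧ Q = Q₀) ∨ BS true R s' Q t := by
  obtain ⟨A, B, e, k', a1, a3, a4⟩ := h
  rcases a1 with ⟨rfl, rfl⟩ | ⟨rfl, A', v', rfl⟩
  · cases t
    · obtain rfl := a3 rfl
      exact absurd (by rw [List.nil_append, List.append_nil] at e; rw [← e]; simp) (k' v)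
    · obtain ⟨v', B', rfl⟩ := a4 rfl
      rcases split_cmp k (A := Q) e.symm with ⟨e1, -⟩ | ⟨A', e1, -⟩
      · exact Or.inl ⟨rfl, rfl, e1⟩
      · exact absurd (by rw [e1]; simp) (k' v)
  · rcases split_cmp k (A := A') (v' := v') (Z := Q ++ B) (by rw [e]; simp) with
      ⟨-, e1⟩ | ⟨A'', -, e1⟩
    · exact Or.inr ⟨[], B, e1.symm, k', Or.inl ⟨rfl, rfl⟩, a3, a4⟩
    · exact Or.inr ⟨A'' ++ [Sum.inr (none, v')], B, by rw [e1]; simp, k',
        Or.inr ⟨rfl, A'', v', rfl⟩, a3, a4⟩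

theorem main {H X : Subgroup (MM Γ a)} {μ : a.K} {p : MM Γ a}
    {P : Bool → MM Γ a → MM Γ a → Prop} {D : List (Lt Γ a)} (h0 : 0 ≤ μ) (hX : H ≤ X)
    (hF : F0 H X μ D) (hA : Ad μ D) (hO : OrdB μ p P D) :
    ∀ (n : ℕ) (A R : List (Lt Γ a)) (s : Bool), R.length < n → D = A ++ R →
      (s = false → A = []) → (s = true → ∃ A' v, A = A' ++ [Sum.inr (none, v)]) →
      ∃ C t, CL (hatH H X) (WW X μ) ln
          (fun s t u c => Bk P s t u c ∧ OrdOn μ 1 (cutPts 1 p c) u) s (lv R) t C ∧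
        Ll (t - lc R) μ ∧ (C = [] → ∀ s' Q t', BS s R s' Q t' → NP P s' t' (lv Q)) ∧
        (NoG R → s = false → C = [])
  | 0, _, _, _, h, _, _, _ => absurd h (Nat.not_lt_zero _)
  | n + 1, A, R, s, hn, e, a1, a2 => by
    have hR : F0 H X μ R := F0.right (A := A) (e ▸ hF)
    have sm : ∀ x, Sum.inr x ∈ R → Ll (ln x.2) μ := fun x k => hA.1 x (by simp [e, k])
    rcases split_G R with k | ⟨Q, v, R', rfl, k⟩
    · obtain ⟨c, hc⟩ := bk_total P s false (lv R)
      refine ⟨c, _, CL.nil s _ c (hR.toFa.memU hX k) ⟨hc, hO s R false c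
        ⟨A, [], by simp [e], k, a1, a2, fun _ => rfl, fun h => absurd h (by simp)⟩ hc⟩,
        ln_lv_le h0 sm, ?_, ?_⟩
      · rintro rfl s' Q t' h
        obtain ⟨rfl, rfl, rfl⟩ := bs_noG k h
        exact bk_nil hc
      · rintro - rfl
        exact bk_ff hc
    · obtain ⟨c, hc⟩ := bk_total P s true (lv Q)
      obtain ⟨C, t, h1, h2, h3, -⟩ := main h0 hX hF hA hO n (A ++ Q ++ [Sum.inr (none, v)]) R' true
        (by simp at hn; omega) (by simp [e]) (fun h => absurd h (by simp)) fun _ => ⟨_, _, rfl⟩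
      have g := hR.gen v (by simp)
      refine ⟨c ++ cutMv (lv Q * v) C, ln (lv Q) + ln v + t, ?_, ?_, fun z s' Q' t' h => ?_,
        fun h => absurd (by simp) (h v)⟩
      · rw [lv_append, lv_cons, ← mul_assoc]
        refine CL.cons s _ v _ t c C (hR.left.toFa.memU hX k) (fun z w => ?_) g.1 g.2
          ⟨hc, hO s Q true c ⟨A, _, by rw [e, List.append_assoc], k, a1, a2,
            fun h => absurd h (by simp), fun _ => ⟨v, R', rfl⟩⟩ hc⟩ h1
        obtain ⟨A', v', rfl⟩ := a2 z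
        exact hF.f5 A' v' Q v R' (by simp [e]) k ((mem_tiny h0).1 w.2)
      · refine Ll.mono_left (le_of_eq ?_) (((ln_lv_le h0 (L := Q) fun x w => sm x (by simp [w])).add
          (sm (none, v) (by simp))).add h2)
        simp only [lc_append, lc_inr]
        ring
      · obtain ⟨rfl, z'⟩ := List.append_eq_nil_iff.1 z
        rcases bs_cons k h with ⟨rfl, rfl, rfl⟩ | h
        · exact bk_nil hc
        · exact h3 (List.map_eq_nil_iff.1 z') s' Q' t' h

end S2_ent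

open S2_ent in
theorem p_S2_ENT (hS2_ORD : S_S2_ORD) :
    S_S2_ENT := by
  intro Γ a H X μ p P D h0 hX hF hA hO
  obtain ⟨C, t, h1, h2, h3, h4⟩ := main h0 hX hF hA hO _ [] D false (Nat.lt_succ_self _) rfl
    (fun _ => rfl) fun h => absurd h (by simp)
  refine ⟨C, t, cl_mono (fun _ _ _ _ h => h.1) h1,
    hS2_ORD Γ a _ _ μ 1 p _ (fun _ _ _ _ h => h.2) _ _ _ _ h1 ?_,
    fun z => ⟨fun Q t' h => (h3 z _ _ _ (bs_of h)).1 rfl,
      fun s Q h => (h3 z _ _ _ (bs_of h)).2 rfl⟩, fun k => h4 k rfl⟩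
  exact Ll.mono_left (le_of_eq (by ring)) (h2.add hA.2)

end Pool.Agent.P.MP_dba3d2_lc


end

section

/-! Step S2_MACH of the stability project. -/

namespace Pool.Agent.P.MP_dba3d2_lc

open Filter
open SW

theorem p_S2_MACH (hS2_IO : S_S2_IO) (hS2_COC : S_S2_COC) (hS2_MULT : S_S2_MULT) (hS2_CW : S_S2_CW) (hS2_ENT : S_S2_ENT) :
    S_S2_MACH := by
  intro Γ a H X l k N E ⟨A, hA, hS⟩
  refine ⟨A, hA, fun n p P hp hP hG hN i e D hD => ?_⟩
  have L := E.lv n
  have h0 := L.big.pos.le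
  obtain ⟨C, c1, c2, c3⟩ := hS2_CW Γ a H X _ P L hP.toPt0
  have ent : ∀ s : NL Γ a, ∃ c, ∀ i, s ∈ N n i →
      (∃ t, CL (hatH H X) (WW X (l n)) ln (Bk P) false (lv (ex s)) t c) ∧
      OrdOn (l n) 1 (cutPts 1 p c) (lv (ex s)) ∧ (c = [] → NoPat P (ex s)) ∧
      (NoG (ex s) → c = []) := fun s => by
    by_cases h : ∃ i, s ∈ N n i
    swap
    · exact ⟨[], fun i k => absurd ⟨i, k⟩ h⟩
    obtain ⟨i, h⟩ := h
    obtain ⟨N1, N2, e1⟩ := List.append_of_mem h
    have f0 : F0 H X (l n) (ex s) :=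
      F0.sub (A := flS N1) (B := flS N2) (by simpa [e1] using (hN i).1.f0)
    suffices k : Ad (l n) (ex s) ∧ OrdB (l n) p P (ex s) by
      obtain ⟨c, t, b⟩ := hS2_ENT Γ a H X _ p P _ h0 L.le f0 k.1 k.2
      exact ⟨c, fun _ _ => ⟨⟨t, b.1⟩, b.2⟩⟩
    obtain g | ⟨e, D⟩ := s
    · refine ⟨⟨fun x k => by simp at k, by simpa using Ll.zero h0⟩, ?_⟩
      rintro s Q t c ⟨B, B', e, -, -, b1, -, b2⟩ ⟨c1, c2, k1, k2, rfl⟩
      have g : NoG (B ++ Q ++ B') := e ▸ by simp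
      have s1 : ¬ s = true := fun k => by
        obtain ⟨_, _, rfl⟩ := b1 k
        simp at g
      have s2 : ¬ t = true := fun k => by
        obtain ⟨_, _, rfl⟩ := b2 k
        simp at g
      rw [(k1.resolve_left fun ⟨_, k, _⟩ => s1 k).2, (k2.resolve_left fun ⟨_, k, _⟩ => s2 k).2]
      trivial
    · exact ⟨(hN i).1.add e D h, (hN i).2.2.2 e D h⟩
  choose F hF using ent
  have val := fun i s (h : s ∈ N n i) => ((hN i).1.wd s h).val
  refine (hF _ i hD).2.2.1 (hS n p C F hp c2 c3 (fun i s h k => (hF s i h).2.2.2 ?_)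
    (fun i s h => val i s h ▸ (hF s i h).2.1) (fun G _ j ν hν => ?_) i _ hD)
  · obtain g | ⟨⟨τ, y⟩, D⟩ := s
    · simp
    · intro v hv
      obtain rfl : τ = none := ((hN i).1.wd _ h).gen hv
      simp at k
  obtain ⟨m, ι, m1, m2⟩ := hS2_IO _ G _ _ P j ν L.am hP.toPt0
    fun s u hu m m' k k' => hν _ (hP.stab s u hu m m' k k')
  obtain ⟨-, q1, q2⟩ := hS2_COC _ G _ _ P j ν m ι m1 m2
  have q3 : ∀ w ∈ X, cutEv j ν (C w) * j w = ι false w := fun w h =>
    (c1 w h).elim fun t k => q2 _ _ _ _ t _ k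
  refine ⟨fun w h w' h' => ?_, fun i => ?_⟩
  · rw [q3 _ (mul_mem (hA w h) (hA w' h')), q3 _ (hA w h), q3 _ (hA w' h'), q1 _ _ (hG w h w' h')]
  · rw [q3 _ ((hN i).1.f0.toFa.memX L.le),
      hS2_MULT Γ a H X _ G P j ν m ι _ h0 L.le m1 m2 (hN i).1.f0 (hN i).2.1 (hN i).2.2.1]
    refine congrArg _ (List.map_congr_left fun s h => ?_)
    obtain ⟨t, k⟩ := (hF s i h).1
    rw [← val i s h, q2 _ _ _ _ t _ k]

end Pool.Agent.P.MP_dba3d2_lc


end

section

/-! Step S2_PART1 of the stability project. -/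

namespace Pool.Agent.P.MP_dba3d2_lc

open Filter
open SW

theorem p_S2_PART1 (hS2_INV : S_S2_INV) (hS2_F0 : S_S2_F0) (hS2_PT1 : S_S2_PT1) (hS2_BAD1 : S_S2_BAD1) (hS2_EXT1 : S_S2_EXT1) (hS2_MACH : S_S2_MACH) :
    S_S2_PART1 := by
  intro Γ a H X l k N E hC hS
  obtain ⟨A, hA, hM⟩ := hS2_MACH Γ a H X l k N E hS
  have bad : ∀ᶠ n in atTop, ∀ w ∈ A, ∀ w' ∈ A, ∀ u0, Ls (ln u0) (l n) →
      Gd (hatH H X) (WW X (l n)) (Pat1 H X (l n) u0) ![1, w, w * w'] :=
    (eventually_all_finset A).2 fun w h => (eventually_all_finset A).2 fun w' h' =>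
      hS2_BAD1 Γ a H X l _ E fun i => by
        fin_cases i
        exacts [one_mem X, hA w h, mul_mem (hA w h) (hA w' h')]
  filter_upwards [bad, eventually_gt_atTop 0] with n hb hn i e D hD
  obtain ⟨n, rfl⟩ := Nat.exists_eq_succ_of_ne_zero hn.ne'
  have n1 := fun i => hS2_F0 Γ a H X l _ E (hC i) n
  have n2 := fun i => hS2_F0 Γ a H X l _ E (hS2_INV Γ a H X l _ (hC i)) n
  have big := (E.lv (n + 1)).big
  by_contra hc
  obtain h | ⟨B, v, R, rfl, h⟩ := split_G D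
  · exact hc (by rw [noG_iff.1 h]; exact zero_le_one)
  obtain h' | ⟨P, v', R, rfl, h'⟩ := split_G R
  · exact hc (by simp [noG_iff.1 h, noG_iff.1 h'])
  obtain ⟨N1, N2, e1⟩ := List.append_of_mem hD
  have l1 : Ls (ln (lv P)) (l (n + 1)) := ln_lv_ls big.pos.le fun x hx =>
    (((n1 i).wd _ hD).2.1 x (by simp [hx])).ls
  have l2 := (n1 i).f0.f5 (flS N1 ++ B) v P v' (R ++ flS N2) (by simp [e1]) h'
  obtain ⟨p, p1, p2, p3⟩ := hS2_PT1 Γ a H X _ (lv P) big ⟨l1, (ll_or_ls big.pos _).resolve_left l2⟩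
  refine (hM (n + 1) p _ p1 p2 (fun w h w' h' => hb w h w' h' _ l1) (fun i => ⟨n1 i,
    hS2_EXT1 Γ a H X _ _ _ big.pos.le l1 (n1 i).far5,
    hS2_EXT1 Γ a H X _ _ _ big.pos.le l1 (n2 i).far5, fun _ _ _ s P t c _ => p3 s t _ c⟩)
    i e _ hD).1 P true ⟨B ++ [.inr (none, v)], .inr (none, v') :: R, by simp, h', by simp,
      fun _ => ⟨B, v, rfl⟩, by simp, fun _ => ⟨v', R, rfl⟩⟩ 1
    ⟨rfl, one_mem _, one_mem _, by simp⟩

end Pool.Agent.P.MP_dba3d2_lc


end
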