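import Pool.Agent.P.MP_dba3d2_lcM.Ab05
import Pool.Agent.P.MP_dba3d2_lcM.Bb07
import Pool.Agent.P.MP_dba3d2_lcM.Bb10
import Pool.Agent.P.MP_dba3d2_lcM.Fb30
import Pool.Agent.P.MP_dba3d2_lcM.Cb32
import Pool.Agent.P.MP_dba3d2_lcM.Fb36
import Pool.Agent.P.MP_dba3d2_lcM.Fb38
import Pool.Agent.P.MP_dba3d2_lcM.Fb39
import Pool.Agent.P.MP_dba3d2_lcM.Fb40
import Pool.Agent.P.MP_dba3d2_lcM.Fb45

section

/-! Step S2_WK of the stability project. -/

namespace Pool.Agent.P.MP_dba3d2_lc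

open Filter
open SW

namespace S2_wk

variable {Γ : HG} {a : Amb} {H X : Subgroup (MM Γ a)} {A A' : Set (Subgroup (MM Γ a))}
  {x y z : MM Γ a}

theorem trans (h1 : WkS H X A x y) (h2 : WkS H X A y z) : WkS H X A x z := by
  induction h2 with
  | refl => exact h1
  | hs w h _ hh ih => exact WkS.hs w h ih hh
  | es w c f _ hc pc hf he hA ih => exact WkS.es w c f ih hc pc hf he hA

theorem ep_shift {c f : MM Γ a} (y : MM Γ a) (he : f ∈ Ep c) :
    Ep (y * f * c * (y * f)⁻¹) = Ep (y * c * y⁻¹) := by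
  have h : y * f * c * (y * f)⁻¹ = y * (f * c * f⁻¹) * y⁻¹ := by group
  rw [h]
  exact (Ep_conj_iff y).2 (Ep_conj_mem he)

theorem symm (h : WkS H X A x y) : WkS H X A y x := by
  induction h with
  | refl => exact WkS.refl
  | hs w h _ hh ih =>
    have h1 : WkS H X A (w * h) (w * h * h⁻¹) := WkS.hs _ _ WkS.refl (inv_mem hh)
    rw [mul_inv_cancel_right] at h1
    exact trans h1 ih
  | es w c f _ hc pc hf he hA ih =>
    have h1 : WkS H X A (w * f) (w * f * f⁻¹) :=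
      WkS.es _ c _ WkS.refl hc pc (inv_mem hf) (inv_mem he) (by rw [ep_shift w he]; exact hA)
    rw [mul_inv_cancel_right] at h1
    exact trans h1 ih

theorem transl (g : MM Γ a) (hA : ∀ d, Ep d ∈ A → Ep (g * d * g⁻¹) ∈ A')
    (h : WkS H X A x y) : WkS H X A' (g * x) (g * y) := by
  induction h with
  | refl => exact WkS.refl
  | hs w h _ hh ih =>
    rw [← mul_assoc]
    exact WkS.hs _ h ih hh
  | es w c f _ hc pc hf he hm ih =>
    rw [← mul_assoc]
    refine WkS.es _ c f ih hc pc hf he ?_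
    have e : g * w * c * (g * w)⁻¹ = g * (w * c * w⁻¹) * g⁻¹ := by group
    rw [e]
    exact hA _ hm

theorem mono (hA : A ⊆ A') (h : WkS H X A x y) : WkS H X A' x y := by
  have := transl (A' := A') 1 (fun d hd => by simpa using hA hd) h
  simpa using this

theorem cn_transl (g d : MM Γ a) (h : CnS H X d x y) :
    CnS H X (g * d * g⁻¹) (g * x) (g * y) :=
  transl (A := {e | e ≠ Ep d}) (A' := {e | e ≠ Ep (g * d * g⁻¹)}) g
    (fun d' (hd : Ep d' ≠ Ep d) (he : Ep (g * d' * g⁻¹) = Ep (g * d * g⁻¹)) =>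
      hd ((Ep_conj_iff g).1 he)) h

theorem cn_iff (g d x y : MM Γ a) :
    CnS H X (g * d * g⁻¹) (g * x) (g * y) ↔ CnS H X d x y := by
  refine ⟨fun h => ?_, cn_transl g d⟩
  have h1 := cn_transl g⁻¹ _ h
  have e : g⁻¹ * (g * d * g⁻¹) * g⁻¹⁻¹ = d := by group
  rwa [e, inv_mul_cancel_left, inv_mul_cancel_left] at h1

/-- elements reached by finite walks -/
def PU (H X : Subgroup (MM Γ a)) : Subgroup (MM Γ a) where
  carrier := {u | ∀ x, ∃ A : Set (Subgroup (MM Γ a)), A.Finite ∧ WkS H X A x (x * u)}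
  one_mem' := fun x => ⟨∅, Set.finite_empty, by rw [mul_one]; exact WkS.refl⟩
  mul_mem' := by
    intro u v hu hv x
    obtain ⟨A, hA, h1⟩ := hu x
    obtain ⟨B, hB, h2⟩ := hv (x * u)
    refine ⟨A ∪ B, hA.union hB, ?_⟩
    rw [← mul_assoc]
    exact trans (mono Set.subset_union_left h1) (mono Set.subset_union_right h2)
  inv_mem' := by
    intro u hu x
    obtain ⟨A, hA, h1⟩ := hu (x * u⁻¹)
    rw [inv_mul_cancel_right] at h1
    exact ⟨A, hA, symm h1⟩

theorem uwalk : hatH H X ≤ PU H X := by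
  refine sup_le (fun h hh x => ⟨∅, Set.finite_empty, WkS.hs _ h WkS.refl hh⟩) ?_
  refine (Subgroup.closure_le _).2 ?_
  rintro f ⟨hf, c, hc, pc, he⟩ x
  exact ⟨{Ep (x * c * x⁻¹)}, Set.finite_singleton _,
    WkS.es _ c f WkS.refl hc.1 pc hf he (Set.mem_singleton _)⟩

theorem ya_sub {μ : a.K} {m : MM Γ a} (hU : m ∈ hatH H X) (hW : m ∈ WW X μ) (x : MM Γ a) :
    YA H X μ (x * m) ⊆ YA H X μ x := by
  rintro e ⟨m', hU', hW', c, hc, hcW, pc, rfl⟩
  exact ⟨m * m', mul_mem hU hU', mul_mem hW hW', c, hc, hcW, pc, by rw [← mul_assoc]⟩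

theorem ya_eq {μ : a.K} {m : MM Γ a} (hU : m ∈ hatH H X) (hW : m ∈ WW X μ) (x : MM Γ a) :
    YA H X μ (x * m) = YA H X μ x := by
  refine Set.Subset.antisymm (ya_sub hU hW x) ?_
  have h := ya_sub (inv_mem hU) (inv_mem hW) (x * m)
  rwa [mul_inv_cancel_right] at h

/-- elements reached by walks that use the axes at the edge -/
def PM (H X : Subgroup (MM Γ a)) (μ : a.K) : Subgroup (MM Γ a) where
  carrier := {m | m ∈ hatH H X ∧ m ∈ WW X μ ∧ ∀ x, WkS H X (YA H X μ x) x (x * m)}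
  one_mem' := ⟨one_mem _, one_mem _, fun x => by rw [mul_one]; exact WkS.refl⟩
  mul_mem' := by
    rintro u v ⟨hu1, hu2, hu⟩ ⟨hv1, hv2, hv⟩
    refine ⟨mul_mem hu1 hv1, mul_mem hu2 hv2, fun x => ?_⟩
    have h2 := hv (x * u)
    rw [ya_eq hu1 hu2] at h2
    rw [← mul_assoc]
    exact trans (hu x) h2
  inv_mem' := by
    rintro u ⟨hu1, hu2, hu⟩
    refine ⟨inv_mem hu1, inv_mem hu2, fun x => ?_⟩
    have h1 := hu (x * u⁻¹)
    rw [inv_mul_cancel_right, ya_eq (inv_mem hu1) (inv_mem hu2)] at h1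
    exact symm h1

theorem mwalk (μ : a.K) : hatM H (WW X μ) ≤ PM H X μ := by
  refine sup_le (fun h hh => ⟨Subgroup.mem_sup_left hh.1, hh.2,
    fun x => WkS.hs _ h WkS.refl hh.1⟩) ?_
  refine (Subgroup.closure_le _).2 ?_
  rintro f ⟨hf, c, hc, pc, he⟩
  refine ⟨Subgroup.mem_sup_right (Subgroup.subset_closure ⟨hf.1, c, ⟨hc.1, hc.2.1⟩, pc, he⟩), hf,
    fun x => WkS.es _ c f WkS.refl hc.1 pc hf.1 he ?_⟩
  exact ⟨1, one_mem _, one_mem _, c, hc.1, hc.2, pc, by rw [mul_one]⟩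

end S2_wk

theorem p_S2_WK (hROOT : S_ROOT) :
    S_S2_WK := by
  intro Γ a H X gH hHX
  refine ⟨fun A x y z => S2_wk.trans, fun A x y => S2_wk.symm, fun A A' x y => S2_wk.mono,
    S2_wk.cn_iff, fun u hu => S2_wk.uwalk hu, fun μ hL m hU hW x =>
      ⟨S2_wk.ya_eq hU hW x, (S2_wk.mwalk μ (hL.hm m hU hW)).2.2 x⟩, ?_⟩
  intro x y hxy c hc c' hc' pc pc' he
  have hj : Cj (x⁻¹ * y) c' c := by
    have e : x * (x⁻¹ * y * c' * (x⁻¹ * y)⁻¹) * x⁻¹ = y * c' * y⁻¹ := by group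
    refine (Ep_conj_iff x).1 ?_
    rw [e, he]
  obtain ⟨h, hh, hf⟩ := (hROOT Γ a H gH).2.2.2.2.2 c hc c' hc' pc.1 pc'.1 _ hj
  have h1 : WkS H X {Ep (x * c * x⁻¹)} x (x * (x⁻¹ * y * h⁻¹)) :=
    WkS.es _ c _ WkS.refl hc pc (mul_mem hxy (inv_mem (hHX hh))) hf (Set.mem_singleton _)
  have h2 := WkS.hs _ h h1 hh
  have e : x * (x⁻¹ * y * h⁻¹) * h = y := by group
  rwa [e] at h2

end Pool.Agent.P.MP_dba3d2_lc


end

section

/-! Step S2_UQ of the stability project. -/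

namespace Pool.Agent.P.MP_dba3d2_lc

open Filter
open SW

theorem p_S2_UQ (hELEM : S_ELEM) (hLINE : S_LINE) (hS2_WK : S_S2_WK) :
    S_S2_UQ := by
  intro Γ a H X μ L
  exact ⟨fun x d hd h => YA_fix hELEM hLINE L.big hd h,
    fun u hu m m1 m' m3 m2 m4 d h1 d' h3 h2 h4 n1 n2 => L.uq (hS2_WK Γ a H X L.gH L.le).2.2.2.2.2.2
      hu h1 h2 h3 h4 m1 m2 m3 m4 (not_YA hELEM hLINE L.big h2 m2 n1)
      (not_YA hELEM hLINE L.big h4 m4 n2)⟩

end Pool.Agent.P.MP_dba3d2_lc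


end

section

/-! Step S2_FIRST of the stability project. -/

namespace Pool.Agent.P.MP_dba3d2_lc

open Filter
open SW

namespace S2First

variable {Γ : HG} {a : Amb} {H X : Subgroup (MM Γ a)} {μ : a.K}

theorem lv_mem {γ L : List (Lt Γ a)} (h : NoV γ) (k : Fa H X μ L) (e : γ ⊆ L) : lv γ ∈ H :=
  list_prod_mem fun _ hx => by
    obtain ⟨s | s, hs, rfl⟩ := List.mem_map.1 hx
    exacts [k.con s (e hs), absurd hs (h s)]

theorem conv : ∀ (R A γ : List (Lt Γ a)) (c f : MM Γ a), NoV γ → NoG R →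
    Fa H X μ (A ++ .inr (some c, f) :: γ ++ R) → F3 (A ++ .inr (some c, f) :: γ ++ R) →
    ∃ r h, h ∈ H ∧ (∀ s ∈ r, SV H s) ∧ (∀ k, ((k, c, f) :: r).IsChain SR) ∧
      lv γ * lv R = sv r * h
  | [], A, γ, c, f, h1, _, h3, _ => ⟨[], lv γ, lv_mem h1 h3 fun _ h => by simp [h], by simp,
      by simp, by simp [lv, sv]⟩
  | .inl k :: R, A, γ, c, f, h1, h2, h3, h4 => by
    obtain ⟨r, h, b⟩ := conv R A (γ ++ [.inl k]) c f (fun x e => h1 x (by simpa using e))
      (fun v e => h2 v (List.mem_cons_of_mem _ e)) (by simpa using h3) (by simpa using h4)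
    exact ⟨r, h, b.1, b.2.1, b.2.2.1, by simpa [lv, vL, mul_assoc] using b.2.2.2⟩
  | .inr (none, v) :: R, _, _, _, _, _, h2, _, _ => absurd List.mem_cons_self (h2 v)
  | .inr (some c', f') :: R, A, γ, c, f, h1, h2, h3, h4 => by
    obtain ⟨r, h, b1, b2, b3, b4⟩ := conv R (A ++ .inr (some c, f) :: γ) [] c' f'
      (fun x e => by simp at e) (fun v e => h2 v (List.mem_cons_of_mem _ e)) (by simpa using h3)
      (by simpa using h4)
    obtain ⟨k1, k2, -, -, k3, k4, -⟩ := h3.exp c' f' (by simp)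
    refine ⟨(lv γ, c', f') :: r, h, b1, List.forall_mem_cons.2
      ⟨⟨lv_mem h1 h3 fun _ h => by simp [h], k1, k2, k3, k4⟩, b2⟩,
      fun k => List.isChain_cons_cons.2 ⟨h4 A c f γ c' f' R rfl h1, b3 _⟩, ?_⟩
    have e : lv R = sv r * h := by simpa [lv] using b4
    rw [show lv (.inr (some c', f') :: R) = f' * lv R by simp [lv, vL], e]
    simp [sv, mul_assoc]

end S2First

theorem p_S2_FIRST (hSTAR : S_STAR) :
    S_S2_FIRST := by
  intro Γ a H X μ β R c f hH h1 h2 h3 h4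
  obtain ⟨r, h, b1, b2, b3, b4⟩ := S2First.conv (H := H) (X := X) (μ := μ) R β [] c f
    (fun x e => by simp at e) h2 (by simpa using h3) (by simpa using h4)
  obtain ⟨k1, k2, -, -, k3, k4, -⟩ := h3.exp c f (by simp)
  have e : lv R = sv r * h := by simpa [lv] using b4
  have := first (X := X) hSTAR hH (List.forall_mem_cons.2
    ⟨⟨S2First.lv_mem h1 h3 fun _ h => by simp [h], k1, k2, k3, k4⟩, b2⟩) (b3 (lv β)) b1
  rwa [show lv (β ++ .inr (some c, f) :: R) = lv β * (f * lv R) by simp [lv, vL], e,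
    show lv β * (f * (sv r * h)) = sv ((lv β, c, f) :: r) * h by simp [sv, mul_assoc]]

end Pool.Agent.P.MP_dba3d2_lc


end

section

/-! Step S2_PC of the stability project. -/

namespace Pool.Agent.P.MP_dba3d2_lc

open Filter
open SW

namespace S2_pc

open SW.T5

variable {Γ : HG} {a : Amb} {H X : Subgroup (MM Γ a)} {μ : a.K} {L L' A B : List (Lt Γ a)}
  {s : Lt Γ a}

theorem li_nil : li ([] : List (Lt Γ a)) = [] := rfl
theorem li_cons : li (s :: L) = li L ++ [iL s] := by simp [li]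
theorem li_append : li (L ++ L') = li L' ++ li L := by simp [li]
theorem iL_iL (s : Lt Γ a) : iL (iL s) = s := by rcases s with h | x <;> simp [iL]
theorem li_li (L : List (Lt Γ a)) : li (li L) = L := by
  simp [li, List.map_reverse, Function.comp_def, iL_iL]
theorem mem_li : s ∈ li L ↔ iL s ∈ L := by
  simp only [li, List.mem_reverse, List.mem_map]
  exact ⟨fun ⟨t, h, e⟩ => by rwa [← e, iL_iL], fun h => ⟨_, h, iL_iL s⟩⟩
theorem lv_li (L : List (Lt Γ a)) : lv (li L) = (lv L)⁻¹ := by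
  induction L with
  | nil => simp [li_nil]
  | cons s L ih => rcases s with h | x <;> simp [li_cons, ih, iL]
theorem noV_li (h : NoV L) : NoV (li L) := fun _ k => h _ (mem_li.1 k)
theorem noG_li (h : NoG L) : NoG (li L) := fun _ k => h _ (mem_li.1 k)

theorem fa_sub (h : Fa H X μ L) (k : ∀ s ∈ L', s ∈ L) : Fa H X μ L' :=
  ⟨fun x e => h.con x (k _ e), fun x e => h.gen x (k _ e), fun c f e => h.exp c f (k _ e)⟩
theorem fa_li (h : Fa H X μ L) : Fa H X μ (li L) := by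
  refine ⟨fun x e => ?_, fun x e => ?_, fun c f e => ?_⟩
  · simpa using h.con x⁻¹ (mem_li.1 e)
  · simpa using h.gen x⁻¹ (mem_li.1 e)
  · simpa [ln_inv] using h.exp c f⁻¹ (mem_li.1 e)
theorem f3_sub (h : F3 (A ++ L ++ B)) : F3 L := by
  rintro A' c f β c' f' B' rfl
  exact h (A ++ A') c f β c' f' (B' ++ B) (by simp)
theorem f3_li (h : F3 L) : F3 (li L) := by
  intro A c f β c' f' B e n k
  refine h (li B) c' f'⁻¹ (li β) c f⁻¹ (li A) ?_ (noV_li n) (by rw [lv_li]; exact k.inv)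
  rw [← li_li L, e]
  simp [li_append, li_cons, iL]

theorem mem_H (h : Fa H X μ L) (n : NoV L) : lv L ∈ H := _root_.Pool.Agent.P.MP_dba3d2_lc.SW.T5.lv_mem fun s hs => by
  rcases s with x | x
  exacts [h.con x hs, absurd hs (n x)]
theorem mem_U (hX : H ≤ X) (h : Fa H X μ L) (n : NoG L) : lv L ∈ hatH H X :=
  _root_.Pool.Agent.P.MP_dba3d2_lc.SW.T5.lv_mem fun s hs => by
    rcases s with x | ⟨_ | c, f⟩
    · exact Subgroup.mem_sup_left (h.con x hs)
    · exact absurd hs (n f)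
    · obtain ⟨a1, a2, -, a3, a4, -⟩ := h.exp c f hs
      exact Subgroup.mem_sup_right (Subgroup.subset_closure ⟨a3, c, ⟨a1, hX a1⟩, a2, a4⟩)
theorem U_le (hX : H ≤ X) : hatH H X ≤ X :=
  sup_le hX ((Subgroup.closure_le _).2 fun _ h => h.1)

theorem split : ∀ {L : List (Lt Γ a)}, ¬ NoV L → ∃ β x R, L = β ++ Sum.inr x :: R ∧ NoV β
  | [], h => absurd (fun _ k => by simp at k) h
  | .inr x :: L, _ => ⟨[], x, L, rfl, fun _ k => by simp at k⟩
  | .inl y :: L, h => by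
    obtain ⟨β, x, R, rfl, k⟩ := split (L := L) fun n => h fun x e => n x (by simpa using e)
    exact ⟨.inl y :: β, x, R, rfl, fun z e => k z (by simpa using e)⟩

end S2_pc

open S2_pc in
theorem p_S2_PC (hELEM : S_ELEM) (hLINE : S_LINE) (hS2_WK : S_S2_WK) (hS2_UQ : S_S2_UQ) (hS2_FIRST : S_S2_FIRST) :
    S_S2_PC := by
  have _ := And.intro hELEM hLINE
  rintro Γ a H X μ d0 D P t V h0 p0 n0 F ⟨A, B, rfl, nG, -, hA, -, hB⟩
  obtain ⟨A', v, rfl⟩ := hA rfl
  have fa : Fa H X μ P := fa_sub F.toFa fun s hs => by simp [hs]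
  have f3 : F3 P := f3_sub F.f3
  refine ⟨fun n m k => k.2.2.2 (by simpa [CnS] using WkS.hs 1 _ .refl (mem_H fa n)), ?_⟩
  intro β c f P' e n m
  obtain ⟨w1, w2, w3, w4, -, w6, w7⟩ := hS2_WK Γ a H X V.gH V.le
  obtain ⟨q1, q2⟩ := hS2_UQ Γ a H X μ V
  have hb : lv β ∈ H := mem_H (fa_sub fa fun s hs => by simp [e, hs]) n
  obtain ⟨hc, pc, -⟩ := fa.exp c f (by simp [e])
  have hu := mem_U V.le fa nG
  have k1 : ¬ CnS H X (lv β * c * (lv β)⁻¹) 1 (lv P) := by
    rw [e] at fa f3 ⊢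
    exact hS2_FIRST Γ a H X μ β P' c f V.gH n (fun x k => nG x (by simp [e, k])) fa f3
  refine ⟨fun k => ⟨k.1, k.2.1, ?_⟩, fun ⟨m1, m2, m3⟩ => ⟨m1, m2, fun ht => ?_, ?_⟩⟩
  · simpa using q2 _ hu m k.1 1 (one_mem _) k.2.1 (one_mem _) d0 h0 _
      (mul_mem (mul_mem hb hc) (inv_mem hb)) p0 (pc.conj _) n0
      (F.f4 A' v β c f (P' ++ B) (by simp [e]) n) k.2.2.2 (by simpa using k1)
  · obtain ⟨v', B', rfl⟩ := hB ht
    rintro ⟨m0, a1, a2, c0, a3, a4, a5, a6⟩
    obtain ⟨β2, ⟨_ | c2, f2⟩, P2, e2, n2⟩ := split (L := li P) fun k =>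
      k (some c, f⁻¹) (_root_.Pool.Agent.P.MP_dba3d2_lc.S2_pc.mem_li.2 (by simp [e, iL]))
    · exact _root_.Pool.Agent.P.MP_dba3d2_lc.S2_pc.noG_li nG f2 (by simp [e2])
    have fa2 := fa_li fa
    have f32 := f3_li f3
    obtain ⟨-, pc2, -⟩ := fa2.exp c2 f2 (by simp [e2])
    have k2 : ¬ CnS H X (lv β2 * c2 * (lv β2)⁻¹) 1 (lv P)⁻¹ := by
      rw [← _root_.Pool.Agent.P.MP_dba3d2_lc.S2_pc.lv_li P]
      rw [e2] at fa2 f32 ⊢
      exact hS2_FIRST Γ a H X μ β2 P2 c2 f2 V.gH n2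
        (fun x k => _root_.Pool.Agent.P.MP_dba3d2_lc.S2_pc.noG_li nG x (by simp [e2, k])) fa2 f32
    have k3 : ¬ Ll (ln (lv β2 * c2 * (lv β2)⁻¹)) μ := by
      have := F.f4' (A' ++ [Sum.inr (none, v)] ++ li P2) c2 f2⁻¹ (li β2) v' B' (by
        rw [← _root_.Pool.Agent.P.MP_dba3d2_lc.S2_pc.li_li P, e2]
        simp [_root_.Pool.Agent.P.MP_dba3d2_lc.S2_pc.li_append, _root_.Pool.Agent.P.MP_dba3d2_lc.S2_pc.li_cons, iL]) (_root_.Pool.Agent.P.MP_dba3d2_lc.S2_pc.noV_li n2)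
      rwa [_root_.Pool.Agent.P.MP_dba3d2_lc.S2_pc.lv_li, inv_inv] at this
    have k4 : Ep (lv P * (lv β2 * c2 * (lv β2)⁻¹) * (lv P)⁻¹) ∉ YA H X μ (lv P) := fun k => by
      have := q1 _ _ ((pc2.conj _).conj _) k
      rw [inv_mul_cancel_right, ds_mul_right] at this
      exact k3 this
    refine k2 ((w4 (lv P) _ _ _).1 (w3 (YA H X μ (lv P)) _ _ _
      (fun y hy (r : y = _) => k4 (r ▸ hy)) ?_))
    rw [mul_one, mul_inv_cancel, ← mul_inv_cancel (lv β)]
    refine .hs _ _ (w1 _ _ _ _ (w6 μ V m0 a1 a2 _).2 (w3 _ _ _ _ ?_ (w7 _ _ (mul_mem (inv_mem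
      (U_le V.le (mul_mem hu a1))) (V.le hb)) c0 a3 c hc a5 pc (a6.symm.trans m3)))) (inv_mem hb)
    rintro _ rfl
    exact ⟨m0, a1, a2, c0, a3, a4, a5, rfl⟩
  · rw [CnS, m3]
    exact k1

end Pool.Agent.P.MP_dba3d2_lc


end

section

/-! Step S2_PT2 of the stability project. -/

namespace Pool.Agent.P.MP_dba3d2_lc

open Filter
open SW

theorem p_S2_PT2 (hELEM : S_ELEM) (hLINE : S_LINE) (hS2_WK : S_S2_WK) (hS2_UQ : S_S2_UQ) :
    S_S2_PT2 := by
  intro Γ a H X μ d0 hL hd0 hp hs hmd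
  have hμ := hL.big
  have h0 := hμ.pos
  obtain ⟨tr, sy, mo, cj, -, mw, -⟩ := hS2_WK Γ a H X hL.gH hL.le
  obtain ⟨u1, u2⟩ := hS2_UQ Γ a H X μ hL
  have hd : ¬ Ll (ln d0) μ := (not_ll_iff' h0).2 hs.2
  have sm : ∀ m, m ∈ WW X μ → Ll (ln m) μ := fun m hm => (mem_tiny h0.le).1 hm.2
  obtain ⟨p, -, a2, a3, a4, a5⟩ := exists_proj hμ hmd 1
  rw [ds_one_mul, ds_one_left] at a2 a3
  have far : ∀ m, m ∈ WW X μ → Ep (m * d0 * m⁻¹) ∉ YA H X μ 1 := by
    intro m hm h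
    have h1 := u1 1 _ (hp.conj m) h
    rw [ds_one_mul] at h1
    refine hd (Ll.mono_left ?_ ((sm m hm).two.add h1))
    have e : d0 = m⁻¹ * (m * d0 * m⁻¹) * m := by group
    have e1 := ln_mul_le (m⁻¹ * (m * d0 * m⁻¹)) m
    have e2 := ln_mul_le m⁻¹ (m * d0 * m⁻¹)
    rw [← e] at e1
    rw [ln_inv] at e2
    linarith
  refine ⟨p, ⟨Ls.mono_left (by linarith [ln_nonneg p]) hs.1,
    hs.2.of_le_add (FixA.ll_two hμ) h0 2 (by exact_mod_cast a3)⟩, ⟨⟨?_, ?_, ?_, ?_⟩, ?_⟩, a5⟩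
  · exact fun s u m h => ⟨h.1, h.2.1⟩
  · intro s u _ m h m0 hU hW
    have e : m0 * m * d0 * (m0 * m)⁻¹ = m0 * (m * d0 * m⁻¹) * m0⁻¹ := by group
    refine ⟨mul_mem hU h.1, mul_mem hW h.2.1, fun hs' hy => h.2.2.1 hs' ?_, fun hc => h.2.2.2 ?_⟩
    · obtain ⟨m1, b1, b2, c, b3, b4, b5, b6⟩ := hy
      refine ⟨m1, b1, b2, c, b3, b4, b5, (Ep_conj_iff m0).1 ?_⟩
      rw [← e, b6]
      congr 1
      group
    · rw [e, ← mul_inv_cancel m0] at hc
      have h1 := (mw μ hL _ (inv_mem hU) (inv_mem hW) 1).2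
      rw [one_mul] at h1
      exact tr _ _ _ _ (mo _ _ _ _ (fun e he h' => far m h.2.1 (h' ▸ he)) h1) ((cj _ _ _ _).1 hc)
  · intro u _ m h m0 hU hW
    obtain ⟨b1, b2⟩ := mw μ hL m0 hU hW u
    refine ⟨h.1, h.2.1, fun hs' => b1 ▸ h.2.2.1 hs', fun hc => h.2.2.2 ?_⟩
    exact tr _ _ _ _ hc (sy _ _ _ (mo _ _ _ _ (fun e he h' => h.2.2.1 rfl (h' ▸ he)) b2))
  · exact fun m h => h.2.2.2 WkS.refl
  · intro s u hu m m' h h'
    have e := u2 u hu m h.1 m' h'.1 h.2.1 h'.2.1 d0 hd0 d0 hd0 hp hp hd hd h.2.2.2 h'.2.2.2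
    have hg := sm _ (mul_mem (inv_mem h.2.1) h'.2.1)
    generalize hgg : m⁻¹ * m' = g at hg
    have e' : Ep d0 = Ep (g * d0 * g⁻¹) := by
      refine (Ep_conj_iff m).1 (e.trans ?_)
      congr 1
      rw [← hgg]
      group
    have f := a5 (g * p) (hp.fix hELEM hLINE (hp.conj g).1 e' (by rw [disp_conj]; exact a4))
    refine ⟨by rwa [ds_one_mul], Ll.mono_left ?_ (Ll.add f hg)⟩
    rw [ds_one_left, ds_one_left]
    linarith [ln_mul_le g p]

end Pool.Agent.P.MP_dba3d2_lc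


end

section

/-! Step S2_OB2 of the stability project. -/

namespace Pool.Agent.P.MP_dba3d2_lc

open Filter
open SW

namespace S2_ob2
open SW.T5

variable {Γ : HG} {a : Amb} {H X : Subgroup (MM Γ a)} {μ : a.K} {D P A B L : List (Lt Γ a)}
  {d0 p m : MM Γ a}

theorem li_append : li (A ++ B) = li B ++ li A := by simp [li]
theorem li_cons (s : Lt Γ a) : li (s :: B) = li B ++ [iL s] := by simp [li]
theorem iL_iL (s : Lt Γ a) : iL (iL s) = s := by cases s <;> simp [iL]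
theorem li_li (L : List (Lt Γ a)) : li (li L) = L := by
  simp [li, List.map_reverse, Function.comp_def, iL_iL]
theorem mem_li {s : Lt Γ a} : s ∈ li L ↔ iL s ∈ L := by
  simp only [li, List.mem_reverse, List.mem_map]
  exact ⟨fun ⟨t, h, e⟩ => by rwa [← e, iL_iL], fun h => ⟨_, h, iL_iL s⟩⟩
theorem lv_li (L : List (Lt Γ a)) : lv (li L) = (lv L)⁻¹ := by
  induction L with
  | nil => simp [li]
  | cons s L ih => rw [li_cons, _root_.Pool.Agent.P.MP_dba3d2_lc.SW.T5.lv_append, ih]; cases s <;> simp [iL]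
theorem lc_li (L : List (Lt Γ a)) : lc (li L) = lc L := by
  induction L with
  | nil => simp [li]
  | cons s L ih => rw [li_cons, _root_.Pool.Agent.P.MP_dba3d2_lc.SW.T5.lc_append, ih]; cases s <;> simp [iL, add_comm]
theorem noV_li (h : NoV L) : NoV (li L) := fun _ k => h _ (mem_li.1 k)
theorem noG_li (h : NoG L) : NoG (li L) := fun _ k => h _ (mem_li.1 k)

theorem li_two {x y : Lt Γ a} (e : li D = A ++ x :: P ++ y :: B) :
    D = li B ++ iL y :: li P ++ iL x :: li A := by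
  rw [← li_li D, e]
  simp [li]

theorem f0_li (h : F0 H X μ D) : F0 H X μ (li D) where
  con g k := (inv_mem_iff (H := H)).1 (h.con _ (mem_li.1 k))
  gen v k := by simpa only [inv_mem_iff] using h.gen _ (mem_li.1 k)
  exp c f k := by simpa only [inv_mem_iff, ln_inv] using h.exp _ _ (mem_li.1 k)
  f3 A c f β c' f' B e k j := h.f3 _ _ _ _ _ _ _ (li_two e) (noV_li k) (by rw [lv_li]; exact j.inv)
  f4 A v β c f B e k := by simpa [lv_li] using h.f4' _ _ _ _ _ _ (li_two e) (noV_li k)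
  f4' A c f β v B e k := by simpa [lv_li] using h.f4 _ _ _ _ _ _ (li_two e) (noV_li k)
  f5 A v P v' B e k := by simpa [lv_li] using h.f5 _ _ _ _ _ (li_two e) (noG_li k)

theorem ad_li (h : Ad μ D) : Ad μ (li D) :=
  ⟨fun x k => by simpa using h.1 _ (mem_li.1 k), by simpa [lv_li, lc_li] using h.2⟩

theorem ln_le (h0 : 0 ≤ μ) (h : ∀ x, Sum.inr x ∈ L → Ll (ln x.2) μ) :
    Ll (ln (lv L) - lc L) μ := by
  induction L with
  | nil => simpa using Ll.zero h0
  | cons s L ih =>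
    have i := ih fun x k => h x (List.mem_cons_of_mem _ k)
    have t := ln_mul_le (vL s) (lv L)
    rcases s with g | x
    · exact Ll.mono_left (by simp only [_root_.Pool.Agent.P.MP_dba3d2_lc.SW.T5.lv_cons, _root_.Pool.Agent.P.MP_dba3d2_lc.SW.T5.lc_inl, _root_.Pool.Agent.P.MP_dba3d2_lc.SW.T5.vL_inl] at t ⊢; linarith) i
    · exact Ll.mono_left (by simp only [_root_.Pool.Agent.P.MP_dba3d2_lc.SW.T5.lv_cons, _root_.Pool.Agent.P.MP_dba3d2_lc.SW.T5.lc_inr, _root_.Pool.Agent.P.MP_dba3d2_lc.SW.T5.vL_inr] at t ⊢; linarith)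
        (i.add (h x List.mem_cons_self))

theorem ad_on {β R : List (Lt Γ a)} (h : Ad μ (A ++ (β ++ R) ++ B)) :
    On μ (lv β) 1 (lv (β ++ R)) := by
  have h0 := h.2.nonneg
  have k1 := ln_le (L := A) h0 fun x k => h.1 x (by simp [k])
  have k2 := ln_le (L := β) h0 fun x k => h.1 x (by simp [k])
  have k3 := ln_le (L := R) h0 fun x k => h.1 x (by simp [k])
  have k4 := ln_le (L := B) h0 fun x k => h.1 x (by simp [k])
  refine Ll.mono_left ?_ ((((k1.add k2).add k3).add k4).add h.2)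
  have t1 := ln_mul_le (lv A * (lv β * lv R)) (lv B)
  have t2 := ln_mul_le (lv A) (lv β * lv R)
  simp only [_root_.Pool.Agent.P.MP_dba3d2_lc.SW.T5.lv_append, _root_.Pool.Agent.P.MP_dba3d2_lc.SW.T5.lc_append, ds_one_left, ds_mul_right]
  linarith

theorem first (h : ¬ NoV P) : ∃ β x R, P = β ++ Sum.inr x :: R ∧ NoV β := by
  induction P with
  | nil => exact absurd (fun _ k => by simp at k) h
  | cons s P ih =>
    rcases s with g | x
    · obtain ⟨β, x, R, rfl, k⟩ := ih fun k => h fun x j => k x (by simpa using j)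
      exact ⟨.inl g :: β, x, R, rfl, fun y j => k y (by simpa using j)⟩
    · exact ⟨[], x, P, rfl, fun _ k => by simp at k⟩

theorem core (hE : S_ELEM) (hL : S_LINE) (hC : S_S2_PC) (v : Lv H X μ) (h1 : d0 ∈ H)
    (h2 : Prim d0) (h3 : ¬ Ll (ln d0) μ) (hp : ∀ z, Ll (ds z (d0 * z)) μ → On μ p 1 z)
    (f0 : F0 H X μ D) (ad : Ad μ D) (b : Blk D true P false)
    (pt : Pat2 H X μ d0 false (lv P) m) : On μ m 1 (lv P) ∧ On μ (m * p) m (lv P) := by
  have h0 := v.big.pos.le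
  obtain ⟨k1, k2⟩ := hC Γ a H X μ d0 D P false v h1 h2 h3 f0 b
  obtain ⟨β, ⟨τ, f⟩, R, rfl, nβ⟩ := first fun k => k1 k m pt
  obtain ⟨A, B, rfl, ng, -⟩ := b
  rcases τ with _ | c
  · exact absurd (by simp) (ng f)
  obtain ⟨-, mw, e⟩ := (k2 β c f R rfl nβ m).1 pt
  have tm : Ll (ds 1 m) μ := by simpa using (mem_tiny h0).1 mw.2
  obtain ⟨-, pc, lc', -⟩ := f0.exp c f (by simp)
  have fx := Prim.fix hE hL (h2.conj m) (pc.conj (lv β)).1 e (p := lv β) (μ := μ)
    (by rwa [inv_mul_cancel_right, ds_mul_right])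
  have o1 := (hp (m⁻¹ * lv β) (by rwa [← disp_conj m, mul_inv_cancel_left])).mul m
  rw [mul_one, mul_inv_cancel_left] at o1
  have z : ∀ x : MM Γ a, Ll (ds x x) μ := FixA.ll_self h0
  exact ⟨On.of_near tm _, (((ad_on ad).congr (z _) tm (z _)).sub o1).1⟩

end S2_ob2

open S2_ob2 in
theorem p_S2_OB2 (hELEM : S_ELEM) (hLINE : S_LINE) (hS2_PC : S_S2_PC) :
    S_S2_OB2 := by
  intro Γ a H X μ d0 p D v h1 h2 h3 hp f0 ad cg s P t c b ⟨c1, c2, e1, e2, e⟩
  subst e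
  cases s <;> cases t
  · rcases e1 with ⟨m, k, -⟩ | ⟨-, rfl⟩
    · cases k
    rcases e2 with ⟨m, k, -⟩ | ⟨-, rfl⟩
    · cases k
    trivial
  · rcases e1 with ⟨m, k, -⟩ | ⟨-, rfl⟩
    · cases k
    rcases e2 with ⟨m, -, pt, rfl⟩ | ⟨-, rfl⟩
    swap
    · trivial
    have b' : Blk (li D) true (li P) false := by
      obtain ⟨A, B, rfl, ng, k1, -, -, k2⟩ := b
      obtain ⟨w, B', rfl⟩ := k2 rfl
      obtain rfl := k1 rfl
      exact ⟨li B' ++ [.inr (none, w⁻¹)], [], by simp [li, iL], _root_.Pool.Agent.P.MP_dba3d2_lc.S2_ob2.noG_li ng, by simp,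
        fun _ => ⟨_, _, rfl⟩, fun _ => rfl, by simp⟩
    obtain ⟨o1, o2⟩ := core hELEM hLINE hS2_PC v h1 h2 h3 hp (f0_li f0) (ad_li ad) b'
      (by rwa [_root_.Pool.Agent.P.MP_dba3d2_lc.S2_ob2.lv_li])
    have o3 := (o1.mul (lv P)).symm
    have o4 := (o2.mul (lv P)).symm
    rw [_root_.Pool.Agent.P.MP_dba3d2_lc.S2_ob2.lv_li, mul_inv_cancel] at o3 o4
    rw [mul_one] at o3
    have o5 := o3.sub o4
    simpa [cutPts, OrdOn, mul_assoc] using o5
  · rcases e2 with ⟨m, k, -⟩ | ⟨-, rfl⟩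
    · cases k
    rcases e1 with ⟨m, -, pt, rfl⟩ | ⟨-, rfl⟩
    swap
    · trivial
    simpa [cutPts, OrdOn] using core hELEM hLINE hS2_PC v h1 h2 h3 hp f0 ad b pt
  · obtain ⟨A, B, rfl, -, -, k1, -, k2⟩ := b
    obtain ⟨A', w, rfl⟩ := k1 rfl
    obtain ⟨w', B', rfl⟩ := k2 rfl
    simp only [T5.cG_append, T5.cG_none] at cg
    omega

end Pool.Agent.P.MP_dba3d2_lc


end

section

/-! Step S2_BAD2 of the stability project. -/

namespace Pool.Agent.P.MP_dba3d2_lc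

open Filter
open SW

theorem p_S2_BAD2 (hELEM : S_ELEM) (hLINE : S_LINE) (hPERC : S_PERC) (hS2_TRI : S_S2_TRI) (hS2_PERS : S_S2_PERS) (hS2_WK : S_S2_WK) (hS2_UQ : S_S2_UQ) :
    S_S2_BAD2 := by
  intro Γ a H X l x E hx
  rcases exists_nest hS2_TRI hS2_PERS E hx with h | ⟨g, m, s, u, N, h⟩
  · exact Eventually.of_forall fun n d0 _ _ _ => (h n).imp fun g k => .inl k
  · have k := (N.two hELEM hLINE hPERC E).eventually_cofinite_notMem
    rw [Nat.cofinite_eq_atTop] at k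
    filter_upwards [eventually_ge_atTop m, k] with n hn k d0 h1 h2 h3
    exact ⟨g, .inr ⟨s, u n, h n hn, by_contra fun e => k ⟨d0, h1, h2, h3, e⟩⟩⟩

end Pool.Agent.P.MP_dba3d2_lc


end

section

/-! Step S2_EXT2 of the stability project. -/

namespace Pool.Agent.P.MP_dba3d2_lc

open Filter
open SW T9

theorem p_S2_EXT2 (hELEM : S_ELEM) (hLINE : S_LINE) (hS2_PC : S_S2_PC) :
    S_S2_EXT2 := by
  intro Γ a H X μ d0 N lvl hd pd sd ni adj N1 e A v P N2 C R hN hP hR hC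
  have h0 := lvl.big.pos
  have nd : ¬ Ll (ln d0) μ := fun k => k.not_ls h0 sd.2
  have eN : flS N = (flS N1 ++ A ++ [Sum.inr (none, v)]) ++ (P ++ C) ++ R := by
    simp [hN, _root_.Pool.Agent.P.MP_dba3d2_lc.T9.fl_append, _root_.Pool.Agent.P.MP_dba3d2_lc.T9.fl_cons, ex, hR]
  have f3 := eN ▸ ni.f0
  have f2 := f0_left f3
  have f1 := f0_left (List.append_assoc _ P C ▸ f2)
  have hPC := _root_.Pool.Agent.P.MP_dba3d2_lc.T9.noG_append.2 ⟨hP, hC⟩
  have pc := fun D Q t => hS2_PC Γ a H X μ d0 D Q t lvl hd pd nd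
  have p1 := pc _ P false f1 ⟨_, [], (List.append_nil _).symm, hP, by simp, fun _ => ⟨_, v, rfl⟩, by simp, by simp⟩
  suffices key : ∀ D t, F0 H X μ D → Blk D true (P ++ C) t → ∀ m,
      Pat2 H X μ d0 t (lv (P ++ C)) m ↔ Pat2 H X μ d0 false (lv P) m from
    ⟨key _ false f2 ⟨_, [], (List.append_nil _).symm, hPC, by simp, fun _ => ⟨_, v, rfl⟩, by simp, by simp⟩,
      fun v' R' e => key _ true f3 ⟨_, R, rfl, hPC, by simp, fun _ => ⟨_, v, rfl⟩, by simp,
        fun _ => ⟨v', R', e⟩⟩⟩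
  intro D t fD bD m
  have p2 := pc D _ t fD bD
  by_cases k : NoV P
  swap
  · obtain ⟨β, ⟨_ | c, f⟩, P', rfl, hβ⟩ := firstV k
    · exact (hP f (by simp)).elim
    · exact (p2.2 β c f (P' ++ C) (by simp) hβ m).trans (p1.2 β c f P' rfl hβ m).symm
  refine iff_of_false ?_ (p1.1 k m)
  by_cases k' : NoV C
  · exact p2.1 (_root_.Pool.Agent.P.MP_dba3d2_lc.T9.noV_append.2 ⟨k, k'⟩) m
  obtain ⟨β, ⟨_ | c, f⟩, C', rfl, hβ⟩ := firstV k'
  · exact (hC f (by simp)).elim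
  rw [p2.2 (P ++ β) c f C' (by simp) (_root_.Pool.Agent.P.MP_dba3d2_lc.T9.noV_append.2 ⟨k, hβ⟩) m]
  rintro ⟨-, m2, m3⟩
  obtain ⟨Nm, ⟨τ, y⟩, P', B, N3, rfl, rfl, -⟩ :=
    fl_split (x := (some c, f)) (C := β) (R := C' ++ R) (hR.trans (by simp))
  rw [_root_.Pool.Agent.P.MP_dba3d2_lc.T9.noV_append] at hβ
  have mem : Sum.inr ((τ, y), P' ++ Sum.inr (some c, f) :: B) ∈ N := by simp [hN]
  cases τ with
  | none =>
    obtain ⟨w, hw⟩ := ni.kid.ch _ _ mem
    obtain ⟨B1, v', B2, rfl, hB⟩ := firstG (L := B) fun g => by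
      simp only [List.mem_append, List.mem_cons] at hw
      rcases hw with hw | hw | hw
      exacts [hβ.2 _ hw, by simp at hw, g _ hw]
    refine (adj N1 e A v P Nm (none, y) (P' ++ Sum.inr (some c, f) :: B1) v' B2 N3 (by simp [hN])
      hP hβ.1 (_root_.Pool.Agent.P.MP_dba3d2_lc.T9.noG_append.2 ⟨noG_of hβ.2, fun z hz => ?_⟩)).2 (some c, f) (by simp)
    exact hB z (by simpa using hz)
  | some c' =>
    obtain ⟨β1, f', β2, e1, g1, g2, -⟩ := ni.kid.ce _ _ _ mem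
    obtain rfl : c = c' := by
      have : Sum.inr (some c, f) ∈ β1 ++ Sum.inr (some c', f') :: β2 := e1 ▸ by simp
      simp only [List.mem_append, List.mem_cons] at this
      rcases this with h | h | h
      exacts [(g1 _ h).elim, by simp at h; exact h.1, (g2 _ h).elim]
    refine ni.far4 N1 e A v P Nm c y P' f B N3 (by simp [hN]) k hβ.1 hβ.2 ?_
    rw [List.append_assoc]
    have pc' := (ni.f0.exp c f (by simp [eN])).2.1
    have := (pc'.conj _).disp' hELEM hLINE (pd.conj m).1 m3.symm 1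
    rw [ds_one_mul, ds_one_mul] at this
    have mm := tiny_le_ball h0.le m2.2
    exact this.trans' ((mem_ball h0.le).1 (mul_mem (mul_mem mm ((mem_ball h0.le).2 sd.1)) (inv_mem mm)))

end Pool.Agent.P.MP_dba3d2_lc


end

section

/-! Step S2_ADJ of the stability project. -/

namespace Pool.Agent.P.MP_dba3d2_lc

open Filter
open SW T9

namespace S2adj

variable {Γ : HG} {a : Amb} {L L' : List (Lt Γ a)} {N : List (NL Γ a)}

/-- the number of general variables whose predecessor among the variables is general -/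
def gg : Bool → List (Lt Γ a) → ℕ
  | _, [] => 0
  | s, .inl _ :: L => gg s L
  | s, .inr x :: L => (if s && x.1.isNone then 1 else 0) + gg x.1.isNone L

/-- the kind of the last variable -/
def ls : Bool → List (Lt Γ a) → Bool
  | s, [] => s
  | s, .inl _ :: L => ls s L
  | _, .inr x :: L => ls x.1.isNone L

theorem gg_append (s : Bool) (L L' : List (Lt Γ a)) :
    gg s (L ++ L') = gg s L + gg (ls s L) L' := by
  induction L generalizing s with
  | nil => simp [gg, ls]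
  | cons x L ih => rcases x with g | x <;> simp [gg, ls, ih, add_assoc]

theorem ls_append (s : Bool) (L L' : List (Lt Γ a)) : ls s (L ++ L') = ls (ls s L) L' := by
  induction L generalizing s with
  | nil => rfl
  | cons x L ih => rcases x with g | x <;> simp [ls, ih]

theorem ggV (h : NoV L) (s : Bool) : gg s L = 0 ∧ ls s L = s := by
  induction L with
  | nil => exact ⟨rfl, rfl⟩
  | cons x L ih =>
    rcases x with g | x
    · exact ih fun y hy => h y (List.mem_cons_of_mem _ hy)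
    · exact (h x List.mem_cons_self).elim

theorem ggG (h : NoG L) (s : Bool) : gg s L = 0 ∧ ls s L ≤ s ∧ (¬ NoV L → ls s L = false) := by
  induction L generalizing s with
  | nil => exact ⟨rfl, le_rfl, fun k => (k _root_.Pool.Agent.P.MP_dba3d2_lc.T9.noV_nil).elim⟩
  | cons x L ih =>
    have i := fun s => ih (fun y hy => h y (List.mem_cons_of_mem _ hy)) s
    rcases x with g | ⟨_ | c, x⟩
    · exact ⟨(i s).1, (i s).2.1, fun k => (i s).2.2 fun k' => k fun y hy => k' y (by simpa using hy)⟩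
    · exact (h x List.mem_cons_self).elim
    · have := (i false).2.1
      have e : ls false L = false := le_bot_iff.1 this
      exact ⟨by simp [gg, (i false).1], by simp [ls, e], fun _ => e⟩

/-- one expansion: the potential does not grow -/
theorem gg_fl (hk : Kid N) (ho : Sg N) {s s' : Bool} (h : s' ≤ s) :
    gg s' (flS N) ≤ gg s (N.map tp) ∧ ls s' (flS N) ≤ ls s (N.map tp) := by
  induction N generalizing s s' with
  | nil => exact ⟨le_rfl, h⟩
  | cons x N ih =>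
    have i := fun {s s'} => ih (s := s) (s' := s') (kid_sub hk (List.subset_cons_self _ _))
      (sg_sub ho (List.subset_cons_self _ _))
    rcases x with g | ⟨⟨_ | c, y⟩, D⟩
    · exact i h
    · obtain ⟨v, hv⟩ := hk.ch y D List.mem_cons_self
      obtain ⟨A, B, rfl⟩ := List.append_of_mem hv
      obtain ⟨h1, h2⟩ := noG_of_cG (ho _ _ List.mem_cons_self)
      have := i (s := true) (s' := ls true B) le_top
      have k := (ggG h1 s').2.1.trans h
      simp only [_root_.Pool.Agent.P.MP_dba3d2_lc.T9.fl_cons, ex, Sum.elim_inr, List.map_cons, tp, Sum.map_inr, gg_append, ls_append, gg, ls,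
        (ggG h1 _).1, (ggG h2 _).1, Option.isNone_none, Bool.and_true] at this ⊢
      refine ⟨?_, this.2⟩
      have : (if ls s' A = true then 1 else 0) ≤ if s = true then 1 else 0 := by
        revert k; cases ls s' A <;> cases s <;> simp
      omega
    · obtain ⟨β, f, β', rfl, h1, h2, -⟩ := hk.ce c y D List.mem_cons_self
      have := i (s := false) (s' := false) le_rfl
      simpa [_root_.Pool.Agent.P.MP_dba3d2_lc.T9.fl_cons, ex, tp, gg_append, ls_append, gg, ls, (ggV h1 _).1, (ggV h2 _).1, (ggV h2 _).2]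
        using this

theorem gg_lt (hk : Kid N) (ho : Sg N) (h : ¬ Adj N) : gg false (flS N) < gg false (N.map tp) := by
  simp only [Adj, not_forall] at h
  obtain ⟨N1, e, A, v, P, Nm, e', P', v', B, N2, rfl, h1, h2, h3, h4⟩ := h
  have k1 := kid_gen hk (e := e) (D := A ++ .inr (none, v) :: P) (v := v) (by simp) (by simp)
  have k2 := kid_gen hk (e := e') (D := P' ++ .inr (none, v') :: B) (v := v') (by simp) (by simp)
  have k3 := kid_noV (kid_sub hk (N' := Nm) fun _ m => by simp [m]) h2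
  have k4 := (noG_of_cG (ho e' (P' ++ .inr (none, v') :: B) (by simp))).2
  have s1 : N1 ++ [Sum.inr (e, A ++ Sum.inr (none, v) :: P)] ⊆ _ := List.subset_append_left _ (Nm ++
    Sum.inr (e', P' ++ Sum.inr (none, v') :: B) :: N2)
  simp only [List.append_assoc, List.cons_append, List.nil_append] at s1 hk ho
  have i1 := (gg_fl (kid_sub hk s1) (sg_sub ho s1) (le_refl false)).1
  have i2 := (gg_fl (kid_sub hk (N' := N2) fun _ m => by simp [m]) (sg_sub ho fun _ m => by simp [m])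
    (s := true) (s' := ls true B) le_top).1
  have k5 : ls (ls true P) P' = false := by
    rw [← ls_append]
    exact (ggG (_root_.Pool.Agent.P.MP_dba3d2_lc.T9.noG_append.2 ⟨h1, h3⟩) true).2.2 (by rwa [_root_.Pool.Agent.P.MP_dba3d2_lc.T9.noV_append])
  simp only [_root_.Pool.Agent.P.MP_dba3d2_lc.T9.fl_cons, _root_.Pool.Agent.P.MP_dba3d2_lc.T9.fl_append, _root_.Pool.Agent.P.MP_dba3d2_lc.T9.fl_nil, ex, Sum.elim_inr, List.map_cons, List.map_append, tp,
    Sum.map_inr, gg_append, ls_append, gg, ls, List.map_nil, List.append_nil, k1, k2,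
    Option.isNone_none, Bool.and_true] at i1 i2 k3 ⊢
  simp only [(ggV h2 _).1, (ggV h2 _).2, (ggV k3 _).1, (ggV k3 _).2, (ggG h3 _).1, k5, (ggG k4 _).1]
  simp only [if_true, Bool.false_eq_true, if_false]
  omega

theorem adj_ev {N : ℕ → List (NL Γ a)} (hs : ∀ n, (N (n + 1)).map tp = flS (N n)) {n0 : ℕ}
    (h : ∀ n ≥ n0, Kid (N n) ∧ Sg (N n)) : ∃ n1, ∀ n ≥ n1, Adj (N n) := by
  obtain ⟨⟨m, hm⟩, k⟩ := Sc.argmin (X := {n // n0 ≤ n}) fun n => gg false ((N n.1).map tp)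
  have le : ∀ n, m ≤ n → gg false ((N n).map tp) ≤ gg false ((N m).map tp) := by
    intro n hn
    induction hn with
    | refl => exact le_rfl
    | step e ih => exact hs _ ▸ (gg_fl (h _ (hm.trans e)).1 (h _ (hm.trans e)).2 le_rfl).1.trans ih
  refine ⟨m, fun n hn => by_contra fun e => ?_⟩
  have h1 := gg_lt (h n (hm.trans hn)).1 (h n (hm.trans hn)).2 e
  have h2 := k ⟨n + 1, by omega⟩
  have h3 := le n hn
  rw [← hs] at h1
  exact absurd (h1.trans_le h3) (not_lt.2 h2)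

end S2adj

theorem p_S2_ADJ :
    S_S2_ADJ := by
  intro Γ a N hs h
  obtain ⟨n0, h⟩ := eventually_atTop.1 h
  exact eventually_atTop.2 (S2adj.adj_ev hs fun n hn => (h n hn).symm)

end Pool.Agent.P.MP_dba3d2_lc


end

section

/-! Step S2_PART2 of the stability project. -/

namespace Pool.Agent.P.MP_dba3d2_lc

open Filter
open SW

namespace S2Part2

variable {Γ : HG} {a : Amb} {H X : Subgroup (MM Γ a)} {μ : a.K}

/-- an exponent variable after the general variable gives a pattern -/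
theorem pat (hP : S_S2_PC) (L : Lv H X μ) {B P : List (Lt Γ a)} {v : MM Γ a}
    (h0 : F0 H X μ (B ++ .inr (none, v) :: P)) (h1 : NoG P) (h2 : ¬ NoV P)
    (h3 : ∀ x ∈ P, LOk μ H x) :
    ∃ d ∈ H, Prim d ∧ Sim (ln d) μ ∧ Ll (md d) μ ∧ Pat2 H X μ d false (lv P) 1 := by
  obtain ⟨β, c, f, R, rfl, b1, -⟩ := h1.split.resolve_left h2
  obtain ⟨k1, k2, k3, -⟩ := h0.exp c f (by simp)
  have b2 : lv β ∈ H := (h0.toFa.mono fun x hx => by simp [hx]).memH b1
  have b3 := h0.f4 B v β c f R (by simp) b1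
  have b4 : Ls (ln (lv β)) μ := ln_lv_ls L.big.pos.le fun x hx => (h3 x (by simp [hx])).ls
  have d1 := mul_mem (mul_mem b2 k1) (inv_mem b2)
  have t1 := ln_mul_le (lv β * c) (lv β)⁻¹
  have t2 := ln_mul_le (lv β) c
  rw [ln_inv] at t1
  refine ⟨_, d1, k2.conj _, ⟨Ls.mono_left (by linarith) ((b4.add b4).add k3.ls),
    (ll_or_ls L.big.pos _).resolve_left b3⟩, ?_, ?_⟩
  · rw [md_conj']
    exact Ll.mono_left (md_le_ln c) k3
  · exact ((hP Γ a H X μ _ _ _ false L d1 (k2.conj _) b3 h0 ⟨B ++ [.inr (none, v)], [], by simp, h1,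
      by simp, fun _ => ⟨B, v, rfl⟩, fun _ => rfl, by simp⟩).2 β c f R rfl b1 1).2
      ⟨one_mem _, one_mem _, by simp⟩

end S2Part2

theorem p_S2_PART2 (hS2_INV : S_S2_INV) (hS2_F0 : S_S2_F0) (hS2_PC : S_S2_PC) (hS2_PT2 : S_S2_PT2) (hS2_OB2 : S_S2_OB2) (hS2_BAD2 : S_S2_BAD2) (hS2_EXT2 : S_S2_EXT2) (hS2_ADJ : S_S2_ADJ) (hS2_MACH : S_S2_MACH) :
    S_S2_PART2 := by
  intro Γ a H X l k N E hC hS hG
  obtain ⟨A, hA, hM⟩ := hS2_MACH Γ a H X l k N E hS
  have bad : ∀ᶠ n in atTop, ∀ w ∈ A, ∀ w' ∈ A, ∀ d0 ∈ H, Prim d0 → Sim (ln d0) (l n) →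
      Gd (hatH H X) (WW X (l n)) (Pat2 H X (l n) d0) ![1, w, w * w'] :=
    (eventually_all_finset A).2 fun w h => (eventually_all_finset A).2 fun w' h' =>
      hS2_BAD2 Γ a H X l _ E fun i => by
        fin_cases i
        exacts [one_mem X, hA w h, mul_mem (hA w h) (hA w' h')]
  have ni0 : ∀ N, Ch0 H X l N → ∀ᶠ n in atTop, Ni H X (l n) (N n) := fun N h => by
    filter_upwards [eventually_gt_atTop 0] with n hn
    obtain ⟨n, rfl⟩ := Nat.exists_eq_succ_of_ne_zero hn.ne'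
    exact hS2_F0 Γ a H X l _ E h n
  have adj : ∀ N, Ch0 H X l N → (∀ᶠ n in atTop, Sg (N n)) →
      ∀ᶠ n in atTop, Ni H X (l n) (N n) ∧ Adj (N n) := fun N h g => (ni0 N h).and
    (hS2_ADJ Γ a N h.succ (g.and ((ni0 N h).mono fun _ k => k.kid)))
  filter_upwards [bad, hG, eventually_all.2 fun i => adj _ (hC i) (hG.mono fun _ h => h i),
    eventually_all.2 fun i => adj _ (hS2_INV Γ a H X l _ (hC i)) (hG.mono fun _ h => (h i).ni)]
    with n hb sg n1 n2 i ⟨τ, y⟩ D hD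
  have L := E.lv n
  have f0 : ∀ i e D, Sum.inr (e, D) ∈ N n i → F0 H X (l n) D := fun i e D h => by
    obtain ⟨N1, N2, e1⟩ := List.append_of_mem h
    exact F0.sub (A := flS N1) (B := flS N2) (by simpa [e1] using (n1 i).1.f0)
  have key : ∀ d ∈ H, Prim d → Sim (ln d) (l n) → Ll (md d) (l n) →
      NoPat (Pat2 H X (l n) d) D := fun d d1 d2 d3 d4 => by
    obtain ⟨p, p1, p2, p3⟩ := hS2_PT2 Γ a H X _ d L d1 d2 d3 d4
    exact hM n p _ p1 p2 (fun w h w' h' => hb w h w' h' d d1 d2 d3) (fun i => ⟨(n1 i).1,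
      hS2_EXT2 Γ a H X _ d _ L d1 d2 d3 (n1 i).1 (n1 i).2,
      hS2_EXT2 Γ a H X _ d _ L d1 d2 d3 (n2 i).1 (n2 i).2, fun e D h =>
      hS2_OB2 Γ a H X _ d p D L d1 d2 (fun k => k.not_ls L.big.pos d3.2) p3 (f0 i e D h)
        ((n1 i).1.add e D h) (sg i e D h)⟩) i _ D hD
  have wd := (n1 i).1.wd _ hD
  rcases τ with _ | c
  swap
  · exact (wd.2.2 c rfl).1
  obtain ⟨v, hv⟩ := (n1 i).1.kid.ch y D hD
  obtain ⟨B, P, rfl⟩ := List.append_of_mem hv
  have g := sg i _ _ hD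
  rw [cG_append, cG_none] at g
  have g1 : NoG B := noG_iff.2 (by omega)
  have g2 : NoG P := noG_iff.2 (by omega)
  have v1 : NoV P := by_contra fun h => by
    obtain ⟨d, d1, d2, d3, d4, d5⟩ := S2Part2.pat hS2_PC L (f0 i _ _ hD) g2 h
      fun x hx => wd.2.1 x (by simp [hx])
    exact (key d d1 d2 d3 d4).1 P false ⟨B ++ [.inr (none, v)], [], by simp, g2, by simp,
      fun _ => ⟨B, v, rfl⟩, fun _ => rfl, by simp⟩ 1 d5
  have v2 : NoV B := by_contra fun h => by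
    have wd' := (n2 i).1.wd (iN _) (mem_ni.2 (by rw [iN_iN]; exact hD))
    obtain ⟨d, d1, d2, d3, d4, d5⟩ := S2Part2.pat hS2_PC L (B := li P) (P := li B) (v := v⁻¹)
      (by simpa using (f0 i _ _ hD).li) (noG_li.2 g1) (fun k => h (noV_li.1 k))
      fun x hx => wd'.2.1 x (by simp [hx])
    exact (key d d1 d2 d3 d4).2 false B ⟨[], .inr (none, v) :: P, by simp, g1, fun _ => rfl,
      by simp, by simp, fun _ => ⟨v, P, rfl⟩⟩ 1 (by rwa [lv_li] at d5)
  simp [noV_iff.1 v1, noV_iff.1 v2]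

end Pool.Agent.P.MP_dba3d2_lc


end

section

/-! Step S2 of the stability project. -/

namespace Pool.Agent.P.MP_dba3d2_lc

open Filter
open SW

theorem S2Glue.cV_wl {Γ : HG} {a : Amb} : ∀ (r : ℕ) (h : Fin (r + 1) → MM Γ a)
    (z : Fin r → Vr Γ a), cV (wl r h z) = r
  | 0, _, _ => by simp [wl]
  | r + 1, h, z => by rw [wl, cV_inl, cV_inr, S2Glue.cV_wl r]

theorem p_S2 (hS2_ENV : S_S2_ENV) (hS2_TR0 : S_S2_TR0) (hS2_TR1 : S_S2_TR1) (hS2_TR2 : S_S2_TR2) (hS2_TR3 : S_S2_TR3) (hS2_PART1 : S_S2_PART1) (hS2_PART2 : S_S2_PART2) :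
    S_S2 := by
  intro Γ a H l S ty m Q h y hH h1 h2 hQ h3 h4 h5 h6 h7 h8 h9
  have Y : Sy H l S ty Q h y := ⟨h1, h4, h6, h7, h8, h9⟩
  obtain ⟨X, E, hy⟩ := hS2_ENV Γ a H l S y hH h1 h2 h5 (fun n i j => (h6 n i).mem j)
    fun n => funext fun i => (h6 n i).eq
  have L := E.lv 0
  have c : ∀ i, Ch0 H X l fun n => NSS S ty y n i := fun i =>
    ⟨(hS2_TR1 Γ a H X l S ty m Q h y Y L.le hy i).1, fun n => hS2_TR2 Γ a H l S ty m Q h y Y n i⟩
  have s := hS2_TR3 Γ a H X l S ty m Q h y Y L.gH E.gX L.le hQ h3 hy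
  obtain ⟨n0, k⟩ := eventually_atTop.1
    (hS2_PART2 Γ a H X l _ _ E c s (hS2_PART1 Γ a H X l _ _ E c s))
  refine ⟨n0, fun n hn t => ?_⟩
  obtain ⟨i, hi⟩ := (hS2_TR0 Γ a S n).1 t
  exact S2Glue.cV_wl (S.r n t) _ _ ▸ k n hn i _ _ (List.mem_map_of_mem hi)

end Pool.Agent.P.MP_dba3d2_lc


end

section

/-! Step FK_SUB of the stability project. -/

namespace Pool.Agent.P.MP_dba3d2_lc

open Filter

namespace Fk_sub

theorem lift_map {α β G : Type} [Group G] (f : β → G) (g : α → β) (w : FreeGroup α) :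
    FreeGroup.lift f (FreeGroup.map g w) = FreeGroup.lift (fun x => f (g x)) w := by
  have : (FreeGroup.lift f).comp (FreeGroup.map g) = FreeGroup.lift fun x => f (g x) := by
    ext x
    simp
  exact DFunLike.congr_fun this w

theorem word {Γ : HG} {a : Amb} {H : Subgroup (MM Γ a)} {k : ℕ} {F : (Fin k → MM Γ a) → MM Γ a}
    (hF : F ∈ WM H k) : ∃ (ι : Type) (_ : Finite ι) (h : ι → MM Γ a) (w : FreeGroup (ι ⊕ Fin k)),
      (∀ i, h i ∈ H) ∧ ∀ z, F z = FreeGroup.lift (Sum.elim h z) w := by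
  induction hF using Subgroup.closure_induction with
  | mem F hF =>
    rcases hF with ⟨h, hh, rfl⟩ | ⟨i, rfl⟩
    · exact ⟨Unit, inferInstance, fun _ => h, .of (.inl ()), fun _ => hh, fun z => by simp⟩
    · exact ⟨Empty, inferInstance, Empty.elim, .of (.inr i), fun x => x.elim, fun z => by simp⟩
  | one => exact ⟨Empty, inferInstance, Empty.elim, 1, fun x => x.elim, fun z => by simp⟩
  | inv F _ ih =>
    obtain ⟨ι, _, h, w, h1, h2⟩ := ih
    exact ⟨ι, inferInstance, h, w⁻¹, h1, fun z => by rw [map_inv, ← h2]; rfl⟩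
  | mul F F' _ _ ih ih' =>
    obtain ⟨ι, _, h, w, h1, h2⟩ := ih
    obtain ⟨ι', _, h', w', h1', h2'⟩ := ih'
    refine ⟨ι ⊕ ι', inferInstance, Sum.elim h h',
      FreeGroup.map (Sum.map Sum.inl id) w * FreeGroup.map (Sum.map Sum.inr id) w',
      fun i => by cases i; exacts [h1 _, h1' _], fun z => ?_⟩
    rw [map_mul, lift_map, lift_map, Pi.mul_apply, h2, h2']
    congr 3 <;> funext x <;> cases x <;> rfl

end Fk_sub

open Fk_sub in
theorem p_FK_SUB :
    S_FK_SUB := by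
  intro Γ a H k k' W F ⟨m, Q, h0, hQ, hh0, hW⟩ hF
  choose ι hι h w h1 h2 using fun i => word (hF i)
  obtain ⟨m', ⟨e⟩⟩ := Finite.exists_equiv_fin (Fin m ⊕ Σ i, ι i)
  let v : Fin m ⊕ Fin k → FreeGroup (Fin m' ⊕ Fin k') :=
    Sum.elim (fun i => .of (.inl (e (.inl i))))
      fun i => FreeGroup.map (Sum.map (fun t => e (.inr ⟨i, t⟩)) id) (w i)
  refine ⟨m', fun z => Q fun s => FreeGroup.lift z (v s),
    fun j => Sum.elim h0 (fun s => h s.1 s.2) (e.symm j), hQ.word v, fun j => ?_, fun z => ?_⟩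
  · beta_reduce
    cases e.symm j with
    | inl i => exact hh0 i
    | inr s => exact h1 _ _
  · rw [st_word, Set.mem_ofPred_eq, hW]
    refine iff_of_eq (congrArg (St Q) (funext fun s => ?_))
    cases s with
    | inl i => simp [v]
    | inr i =>
      simp only [v, Sum.elim_inr]
      rw [lift_map, h2]
      congr 2
      funext x
      cases x <;> simp

end Pool.Agent.P.MP_dba3d2_lc


end
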