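import Pool.Agent.P.MP_dba3d2_lcM.Ab05
import Pool.Agent.P.MP_dba3d2_lcM.Bb07
import Pool.Agent.P.MP_dba3d2_lcM.Bb10
import Pool.Agent.P.MP_dba3d2_lcM.Cb18
import Pool.Agent.P.MP_dba3d2_lcM.Eb29
import Pool.Agent.P.MP_dba3d2_lcM.Fb30
import Pool.Agent.P.MP_dba3d2_lcM.Fb36

section

/-! Step FK_DEC of the stability project. -/

namespace Pool.Agent.P.MP_dba3d2_lc

open Filter

namespace Fk_dec

variable {Γ : HG} {a : Amb} {H : Subgroup (MM Γ a)} {μ s s' : a.K} {y p q : MM Γ a}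

/-- products of blocks and joints whose blocks have total length at most about `s` -/
def Dw (μ : a.K) (H : Subgroup (MM Γ a)) (y : MM Γ a) (s : a.K) : Prop :=
  ∃ (r : ℕ) (h : Fin (r + 1) → MM Γ a) (z : Fin r → MM Γ a), (∀ i, h i ∈ H) ∧
    (∀ i, Ls (ln (h i)) μ) ∧ (∀ i, Ll (ln (z i)) μ) ∧ y = weave r h z ∧ Ll (∑ i, ln (h i) - s) μ

theorem Dw.cons (d : Dw μ H y s) {h0 t : MM Γ a} (m : h0 ∈ H) (b : Ls (ln h0) μ)
    (c : Ll (ln t) μ) : Dw μ H (h0 * t * y) (ln h0 + s) := by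
  obtain ⟨r, h, z, a1, a2, a3, a4, a5⟩ := d
  refine ⟨r + 1, Fin.cons h0 h, Fin.cons t z, fun i => Fin.cases m a1 i, fun i => Fin.cases b a2 i,
    fun i => Fin.cases c a3 i, ?_, a5.mono_left ?_⟩
  · rw [weave, Fin.tail_cons, Fin.tail_cons, Fin.cons_zero, Fin.cons_zero, a4]
  · rw [Fin.sum_univ_succ]
    simp

theorem Dw.mono (d : Dw μ H y s) (e : Ll (s - s') μ) : Dw μ H y s' := by
  obtain ⟨r, h, z, a1, a2, a3, a4, a5⟩ := d
  exact ⟨r, h, z, a1, a2, a3, a4, (a5.add e).mono_left (by linarith)⟩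

theorem piece (hH : Clo H) (hμ : Big μ) (d : HArc μ H p q) : ∃ t t' h : MM Γ a, h ∈ H ∧
    Ls (ln h) μ ∧ Ll (ln t) μ ∧ Ll (ln t') μ ∧ p⁻¹ * q = t * h * t' ∧ Ll (ln h - ds p q) μ := by
  obtain ⟨g, h0, m, b, hp, hq⟩ := d
  have h1 := hμ.pos
  have e := ds_mul_right g h0
  have tr : ds p q ≤ ds g p + ds g q := by linarith [ds_tri p g q, ds_comm p g]
  rcases ll_or_ls h1 (ln h0) with c | c
  · refine ⟨p⁻¹ * q, 1, 1, H.one_mem, ?_, ?_, ?_, by simp, ?_⟩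
    · rw [ln_one]
      exact Ls.zero h1.le
    · refine ((hp.le_left.add hq.le_left).add c.two).mono_left ?_
      change ds p q ≤ _
      linarith
    · rw [ln_one]
      exact Ll.zero h1.le
    · exact Ll.of_nonpos (by linarith [ln_one (Γ := Γ) (a := a), ds_nonneg p q]) h1.le
  · obtain ⟨u, hu, cu⟩ := hH.adj μ (g⁻¹ * p) h0 hμ m ⟨b, c⟩ (by simpa using hp.mul g⁻¹)
    obtain ⟨v, hv, cv⟩ := hH.adj μ (g⁻¹ * q) h0 hμ m ⟨b, c⟩ (by simpa using hq.mul g⁻¹)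
    have k : Ll (ln (u⁻¹ * v) - ds p q) μ := by
      refine (cu.add cv).mono_left ?_
      change ds u v - _ ≤ _
      linarith [ds_tri u (g⁻¹ * p) v, ds_tri (g⁻¹ * p) (g⁻¹ * q) v, ds_comm u (g⁻¹ * p),
        ds_mul_left g⁻¹ p q]
    refine ⟨(g⁻¹ * p)⁻¹ * u, v⁻¹ * (g⁻¹ * q), u⁻¹ * v, H.mul_mem (H.inv_mem hu) hv, ?_, cu, ?_,
      by group, k⟩
    · exact (k.ls.add ((hp.ls_left (e ▸ b)).add (hq.ls_left (e ▸ b)))).mono_left (by linarith)
    · rw [ds_comm] at cv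
      exact cv

theorem chain (hH : Clo H) (hμ : Big μ) (n : ℕ) : ∀ p : ℕ → MM Γ a,
    (∀ i < n, HArc μ H (p i) (p (i + 1))) →
    Dw μ H ((p 0)⁻¹ * p n) (∑ i ∈ Finset.range n, ds (p i) (p (i + 1))) := by
  have h1 := hμ.pos.le
  have o : Ls (ln (1 : MM Γ a)) μ := by
    rw [ln_one]
    exact Ls.zero h1
  induction n with
  | zero =>
    intro p _
    refine ⟨0, fun _ => 1, Fin.elim0, fun _ => H.one_mem, fun _ => o, fun i => i.elim0,
      inv_mul_cancel _, Ll.of_nonpos ?_ h1⟩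
    simp [ln_one]
  | succ n ih =>
    intro p hp
    obtain ⟨t, t', h, a1, a2, a3, a4, a5, a6⟩ := piece hH hμ (hp 0 n.succ_pos)
    have d := ((ih (fun i => p (i + 1)) fun i hi => hp (i + 1) (by omega)).cons a1 a2 a4).cons
      H.one_mem o a3
    have e : (p 0)⁻¹ * p (n + 1) = 1 * t * (h * t' * ((p (0 + 1))⁻¹ * p (n + 1))) := by
      rw [one_mul, ← mul_assoc, ← mul_assoc t, ← a5]
      group
    rw [e]
    refine d.mono (a6.mono_left ?_)
    rw [Finset.sum_range_succ', ln_one]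
    linarith

end Fk_dec

open Fk_dec in
theorem p_FK_DEC (hS1 : S_S1) :
    S_FK_DEC := by
  intro Γ a H k W x hH hT hx hμ
  obtain ⟨m, Q, h, t1, t2, t3⟩ := hT
  have h1 := hμ.pos
  have cov := hS1 Γ a H (tl x) m k Q h x hH.gc hμ t1 t2
    (fun i => (mem_ball h1.le).2 (Ls.of_le (FK.ln_le_tl x i)))
    ⟨(t3 x).1 hx.1, fun y hy => Ll.of_nonpos (sub_nonpos.2 (hx.2 y ((t3 y).2 hy))) h1.le⟩
  have dec : ∀ i, ∃ r h z, Dec (tl x) H (x i) r h z := fun i => by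
    obtain ⟨n, p, p0, pn, c, d⟩ := cov i
    obtain ⟨r, h, z, a1, a2, a3, a4, a5⟩ := (chain hH hμ n p d).mono c
    rw [p0, pn, inv_one, one_mul] at a4
    exact ⟨r, h, z, a1, a2, a3, a4, a5⟩
  refine ⟨dec, ?_⟩
  by_contra hn
  refine ll_irrefl h1 (FK.ll_tl h1.le fun i => ?_)
  obtain ⟨r, g, z, d⟩ := dec i
  have s : ∀ j, Ll (ln (g j)) (tl x) := fun j =>
    (ll_or_ls h1 _).resolve_right fun c => hn ⟨g j, d.mem j, d.bd j, c⟩
  rw [d.eq]
  exact ((ll_sum _ _ h1.le fun j _ => s j).add (ll_sum _ _ h1.le fun j _ => d.tin j)).mono_left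
    (FK.ln_weave_le r g z)

end Pool.Agent.P.MP_dba3d2_lc


end

section

/-! Step FK_EXP of the stability project. -/

namespace Pool.Agent.P.MP_dba3d2_lc

open Filter

theorem p_FK_EXP (hCVX : S_CVX) (hROOT : S_ROOT) (hGRAFT : S_GRAFT) :
    S_FK_EXP := by
  rintro Γ a H μ t y hH hμ ht hy hl ⟨r, h, z, d⟩
  cases t with
  | none => exact ⟨r, h, z, fun _ => none, d, fun _ _ e => (nomatch e), fun _ _ e => (nomatch e),
      fun _ e => nomatch e⟩
  | some c =>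
    obtain ⟨c1, c2, c3⟩ := ht c rfl
    have y1 := hy c rfl
    have h0 := hμ.pos
    have key : ∃ f ∈ H, f ∈ Ep c ∧ Ll (ds f y) μ := by
      have self : y ∈ H → ∃ f ∈ H, f ∈ Ep c ∧ Ll (ds f y) μ := fun e =>
        ⟨y, e, y1, by rw [ds_self]; exact Ll.zero h0.le⟩
      rcases ll_or_ls h0 (md c) with e | e
      swap
      · exact self (((hROOT Γ a H hH.toGC0).2.1 c c1 c c1 c2 c2 y (Cj.of_mem y1)).2 c3 c3
          (hl.trans' e))
      have k1 : ∀ j, ln (z j) ≤ tl z + ln c := fun j => by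
        linarith [FK.ln_le_tl z j, ln_nonneg c]
      by_cases b : Big (tl z + ln c)
      swap
      · exact self (d.eq ▸ FK.weave_mem H r h z d.mem fun j =>
          hH.toGC0.of_not_big (not_big_of_ls (Ls.of_le (k1 j)) b))
      obtain ⟨f, f1, w, w1, f2, -, rfl⟩ := (graft_ball hCVX hGRAFT hH.toGC0 b).1.e1 c
        ⟨c1, (mem_ball b.pos.le).2 (Ls.of_le (by linarith [FK.tl_nonneg z]))⟩ c2 y
        (d.eq ▸ FK.weave_mem _ r h z (fun j => Subgroup.mem_sup_left (d.mem j)) fun j =>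
          Subgroup.mem_sup_right ((mem_ball b.pos.le).2 (Ls.of_le (k1 j)))) y1
      refine ⟨f, f1, f2, ?_⟩
      rw [ds_mul_right]
      exact Ll.ls_left ((mem_ball b.pos.le).1 w1) ((FK.ll_tl h0.le d.tin).add (Ll.ls_left c3 e))
    obtain ⟨f, f1, f2, f3⟩ := key
    have k : ln f ≤ ln y + ds f y := by
      have := ds_tri 1 y f
      rwa [ds_one_left, ds_one_left, ds_comm] at this
    refine ⟨1, ![f, 1], fun _ => f⁻¹ * y, fun _ => some c, ⟨?_, ?_, fun _ => f3, ?_, ?_⟩,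
      fun _ => ht, fun _ _ e => Option.some.inj e ▸ mul_mem (inv_mem f2) y1,
      fun _ e => Option.some.inj e ▸ ⟨le_rfl, fun _ => rfl, ?_⟩⟩
    · exact Fin.forall_fin_two.2 ⟨f1, H.one_mem⟩
    · exact Fin.forall_fin_two.2 ⟨Ls.mono_left k (hl.add f3.ls), Ls.of_le (ln_one.trans_le h0.le)⟩
    · simp [weave, Fin.tail]
    · refine f3.mono_left ?_
      rw [Fin.sum_univ_two]
      change ln f + ln 1 - ln y ≤ _
      rw [ln_one]
      linarith
    · exact Fin.forall_fin_two.2 ⟨f2, one_mem _⟩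

end Pool.Agent.P.MP_dba3d2_lc


end

section

/-! Step FK_ELIM of the stability project. -/

namespace Pool.Agent.P.MP_dba3d2_lc

open Filter

theorem p_FK_ELIM (hTORS : S_TORS) (hELEM : S_ELEM) (hLINE : S_LINE) (hNORM : S_NORM) :
    S_FK_ELIM := by
  intro Γ a H t hH ht l u h1 h2 h3
  obtain ⟨w, w1, w2⟩ := hH.lim l u h1 h2 fun n => (h3 n).imp fun _ e => ⟨e.1.1, e.2⟩
  cases t with
  | none => exact ⟨w, FK.mem_TG.2 ⟨w1, fun _ e => nomatch e⟩, w2⟩
  | some c =>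
    obtain ⟨c1, c2, c3⟩ := ht c rfl
    choose v v1 v2 using h3
    have mono : ∀ {m n}, m ≤ n → Ls (l n) (l m) := fun {m n} k => by
      induction k with
      | refl => exact Ls.refl' _
      | step _ ih => exact (h2 _).ls.trans' ih
    by_cases e : ∀ n, Ls (md c) (l n)
    · obtain ⟨f, f1, f2, f3, -⟩ := (hNORM Γ a H hH.gc.toGC0).1 c c1 c2 c3 w⁻¹ (H.inv_mem w1)
      refine ⟨f, ⟨f1, f2⟩, fun n => Ls.mono_left (ds_tri u w f) ((w2 n).add (f3.trans' ?_))⟩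
      rw [inv_inv, ← ds_conj]
      refine Ls.mono_left (disp_le c w (v n)) (Ls.add (Ls.two ?_) ?_)
      · exact Ls.mono_left (ds_tri w u (v n)) (Ls.add (ds_comm u w ▸ w2 n) (v2 n))
      · refine (pow_disp hELEM hLINE c2.1 Γ.good.pos.ne' (v n)).trans' ?_
        have k := disp_comm (mem_Ep.1 (v1 n).2) 1
        rw [mul_one, ds_one_mul] at k
        exact Ls.mono_left (k.trans_le (ln_pow_le c _)) ((c3.trans' (e n)).nat_mul _)
    obtain ⟨N, hN⟩ := not_forall.1 e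
    let K : Subgroup (MM Γ a) :=
      { carrier := {t | t ∈ Ep c ∧ IsOfFinOrder t}
        mul_mem' := fun x y => ⟨mul_mem x.1 y.1, tors_mul hELEM c2.1 x.1 y.1 x.2 y.2⟩
        one_mem' := ⟨one_mem _, IsOfFinOrder.one⟩
        inv_mem' := fun x => ⟨inv_mem x.1, x.2.inv⟩ }
    haveI := (hTORS Γ a K fun _ x => x.2).1
    have mem : ∀ m, (v N)⁻¹ * v (N + m) ∈ K := fun m => by
      have k : (v N)⁻¹ * v (N + m) ∈ Ep c := mul_mem (inv_mem (v1 N).2) (v1 _).2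
      refine ⟨k, by_contra fun b => hN ((c2.md_ls hELEM hLINE b
        (Ep_eq hELEM c2.1 k b).symm).trans' (Ls.mono_left (md_le_ln _) ?_))⟩
      exact Ls.mono_left (ds_tri (v N) u _)
        (Ls.add (ds_comm u (v N) ▸ v2 N) ((v2 _).trans' (mono (Nat.le_add_right N m))))
    obtain ⟨y, hy⟩ := Finite.exists_infinite_fiber fun m => (⟨_, mem m⟩ : K)
    have hy' := Set.infinite_coe_iff.1 hy
    obtain ⟨m, hm⟩ := hy'.nonempty
    refine ⟨v (N + m), v1 _, fun n => ?_⟩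
    obtain ⟨m', k1, k2⟩ := hy'.exists_gt n
    rw [mul_left_cancel (congrArg Subtype.val (Eq.trans hm (Eq.symm k1)))]
    exact (v2 _).trans' (mono (by omega))

end Pool.Agent.P.MP_dba3d2_lc


end

section

/-! Step FK_ZORN of the stability project. -/

namespace Pool.Agent.P.MP_dba3d2_lc

open Filter

namespace Fk_zorn

/-- Zorn lemma for a strict order whose chains without top are countable -/
theorem zorn_cnt {P : Type} (x0 : P) (S : P → P → Prop) (tr : ∀ x y z, S x y → S y z → S x z)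
    (cnt : ∀ c : Set P, (∀ x ∈ c, ∀ y ∈ c, x ≠ y → S x y ∨ S y x) → (∀ x ∈ c, ∃ y, S x y) →
      c.Countable)
    (seq : ∀ p : ℕ → P, (∀ n, S (p n) (p (n + 1))) → ∃ q, ∀ n, S (p n) q) :
    ∃ m, ∀ y, S m y → y = m ∨ S y m := by
  have trl : ∀ x y z, (x = y ∨ S x y) → S y z → S x z := fun x y z h h' =>
    h.elim (fun e => e ▸ h') fun h => tr _ _ _ h h'
  obtain ⟨m, hm⟩ := exists_maximal_of_chains_bounded (r := fun x y : P => x = y ∨ S x y)
    (fun c hc => by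
      by_cases h1 : ∃ m ∈ c, ∀ y ∈ c, y = m ∨ S y m
      · obtain ⟨m, -, h⟩ := h1
        exact ⟨m, h⟩
      rcases c.eq_empty_or_nonempty with rfl | hne
      · exact ⟨x0, fun a ha => ha.elim⟩
      have ch : ∀ x ∈ c, ∀ y ∈ c, x ≠ y → S x y ∨ S y x := fun x hx y hy ne =>
        (hc hx hy ne).imp (fun h => h.resolve_left ne) fun h => h.resolve_left ne.symm
      have su : ∀ x ∈ c, ∃ y ∈ c, S x y := fun x hx => by
        by_contra e
        refine h1 ⟨x, hx, fun y hy => (eq_or_ne y x).imp_right fun ne => ?_⟩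
        exact (ch y hy x hx ne).resolve_right fun h => e ⟨y, hy, h⟩
      obtain ⟨f, hf⟩ := (cnt c ch fun x hx => (su x hx).imp fun y h => h.2).exists_eq_range hne
      have fm : ∀ n, f n ∈ c := fun n => hf ▸ Set.mem_range_self n
      have nx : ∀ (x : c) (n : ℕ), ∃ y : c, S x y ∧ S (f n) y := fun x n => by
        rcases eq_or_ne x.1 (f n) with e | ne
        · obtain ⟨y, hy, h⟩ := su x x.2
          exact ⟨⟨y, hy⟩, h, e ▸ h⟩
        rcases ch x x.2 (f n) (fm n) ne with h' | h'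
        · obtain ⟨y, hy, h⟩ := su (f n) (fm n)
          exact ⟨⟨y, hy⟩, tr _ _ _ h' h, h⟩
        · obtain ⟨y, hy, h⟩ := su x x.2
          exact ⟨⟨y, hy⟩, h, tr _ _ _ h' h⟩
      choose g g1 g2 using nx
      let p : ℕ → c := fun n => Nat.rec ⟨f 0, fm 0⟩ (fun n x => g x n) n
      obtain ⟨q, hq⟩ := seq (fun n => (p n).1) fun n => g1 (p n) n
      refine ⟨q, fun y hy => Or.inr ?_⟩
      rw [hf] at hy
      obtain ⟨n, rfl⟩ := hy
      exact tr _ _ _ (g2 (p n) n) (hq (n + 1)))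
    (fun {x y z} h h' => h'.elim (fun e => e ▸ h) fun h' => Or.inr (trl _ _ _ h h'))
  exact ⟨m, fun y h => hm y (Or.inr h)⟩

variable {Γ : HG} {a : Amb} {ι : Type}

/-- the strict descent relation -/
def Sr (D : (ι → MM Γ a) → a.K) (x y : ι → MM Γ a) : Prop :=
  Big (D x) ∧ (∀ i, Ls (ds (x i) (y i)) (D x)) ∧ Ll (D y) (D x)

theorem Sr.tr {D : (ι → MM Γ a) → a.K} {x y z : ι → MM Γ a} (h : Sr D x y) (h' : Sr D y z) :
    Sr D x z :=
  ⟨h.1, fun i => Ls.mono_left (ds_tri (x i) (y i) (z i))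
    ((h.2.1 i).add ((h'.2.1 i).trans' h.2.2.ls)), Ll.ls_left h'.2.2.ls h.2.2⟩

theorem lim {H : ι → Subgroup (MM Γ a)} {D : (ι → MM Γ a) → a.K} (hH : ∀ i, LimC (H i))
    (h4 : ∀ x y, (∀ i, Ls (ds (x i) (y i)) (D y)) → Ls (D x) (D y)) (p : ℕ → ι → MM Γ a)
    (hp : ∀ n i, p n i ∈ H i) (hs : ∀ n, Sr D (p n) (p (n + 1))) :
    ∃ q : ι → MM Γ a, (∀ i, q i ∈ H i) ∧ ∀ n, Sr D (p n) q := by
  have lt : ∀ n N, n < N → Sr D (p n) (p N) := fun n N h => by
    induction N, h using Nat.le_induction with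
    | base => exact hs n
    | succ N _ ih => exact ih.tr (hs N)
  have key : ∀ i, ∃ q ∈ H i, ∀ n, Ls (ds q (p n i)) (D (p n)) := fun i => by
    choose c hc using fun n => (hs n).2.1 i
    obtain ⟨u, hu⟩ := GT.sat_ball (fun m => p m i) (fun m => ((c m + 1 : ℕ) : a.K) * D (p m))
      fun n => ⟨p (n + 2) i, fun m hm => by
        have k1 := Ll.ls_left ((lt (m + 1) (n + 2) (by omega)).2.1 i) (hs m).2.2 1
        have k2 := ds_tri (p m i) (p (m + 1) i) (p (n + 2) i)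
        have k3 := hc m
        rw [ds_comm]
        push_cast at k1 ⊢
        linarith⟩
    obtain ⟨q, hq, e⟩ := hH i (fun n => D (p n)) u (fun n => (hs n).1) (fun n => (hs n).2.2)
      fun n => ⟨p n i, hp n i, _, hu n⟩
    exact ⟨q, hq, fun n => Ls.mono_left (ds_tri q u (p n i))
      (Ls.add (ds_comm u q ▸ e n) ⟨_, hu n⟩)⟩
  choose q q1 q2 using key
  exact ⟨q, q1, fun n => ⟨(hs n).1, fun i => ds_comm (q i) (p n i) ▸ q2 i n,
    Ll.ls_left (h4 q (p (n + 1)) fun i => q2 i (n + 1)) (hs n).2.2⟩⟩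

end Fk_zorn

open Fk_zorn in
theorem p_FK_ZORN :
    S_FK_ZORN := by
  intro Γ a H ι P D x0 hH hP h0 h2 h3 h4
  obtain ⟨Λ, hΛ, hc⟩ := hH.cnt
  obtain ⟨m, hm⟩ := zorn_cnt (P := {y : ι → MM Γ a // (∀ i, y i ∈ P i) ∧ (x0 = y ∨ Sr D x0 y)})
    ⟨x0, h0, Or.inl rfl⟩ (fun x y => Sr D x.1 y.1) (fun _ _ _ h h' => h.tr h')
    (fun c ch su => by
      have : ∀ y : {y : ι → MM Γ a // (∀ i, y i ∈ P i) ∧ (x0 = y ∨ Sr D x0 y)},
          ∃ l, y ∈ c → l ∈ Λ ∧ Sim (D y.1) l := fun y => by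
        by_cases hy : y ∈ c
        · obtain ⟨z, hz⟩ := su y hy
          obtain ⟨h, hh, e⟩ := h3 y.1 y.2.1 hz.1
          obtain ⟨l, hl, e'⟩ := hc h hh (hz.1.of_ls e.2)
          exact ⟨l, fun _ => ⟨hl, e.symm'.trans' e'⟩⟩
        · exact ⟨0, fun h => (hy h).elim⟩
      choose l hl using this
      refine Set.MapsTo.countable_of_injOn (f := l) (fun y hy => (hl y hy).1)
        (fun x hx y hy e => ?_) hΛ
      by_contra ne
      have s : Sim (D x.1) (D y.1) := (hl x hx).2.trans' (e ▸ (hl y hy).2.symm')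
      rcases ch x hx y hy ne with h | h
      · exact h.2.2.not_ls h.1.pos s.1
      · exact h.2.2.not_ls h.1.pos s.2)
    (fun p hp => by
      obtain ⟨q, q1, q2⟩ := lim hP h4 (fun n => (p n).1) (fun n => (p n).2.1) hp
      exact ⟨⟨q, q1, Or.inr ((p 0).2.2.elim (fun e => e ▸ q2 0) fun h => h.tr (q2 0))⟩, q2⟩)
  refine ⟨m.1, m.2.1, fun i => ?_, fun y hy b1 b2 b3 => ?_⟩
  · rcases m.2.2 with e | h
    · rw [← e, ds_self]
      exact Ls.zero (h2 x0)
    · exact h.2.1 i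
  · have s : Sr D m.1 y := ⟨b1, b2, b3⟩
    rcases hm ⟨y, hy, Or.inr (m.2.2.elim (fun e => e ▸ s) fun h => h.tr s)⟩ s with e | h
    · rw [show y = m.1 from congrArg Subtype.val e] at b3
      exact ll_irrefl b1.pos b3
    · exact b3.not_ls b1.pos h.2.2.ls

end Pool.Agent.P.MP_dba3d2_lc


end

section

/-! Step FK_NB of the stability project. -/

namespace Pool.Agent.P.MP_dba3d2_lc

open Filter

theorem p_FK_NB (hFK_SUB : S_FK_SUB) (hFK_DEC : S_FK_DEC) (hFK_ELIM : S_FK_ELIM)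
    (hFK_ZORN : S_FK_ZORN) :
    S_FK_NB := by
  intro Γ a H k ty W x hH ht hW hx
  let V : (Fin k ⊕ Fin k → MM Γ a) → Set (Fin k → MM Γ a) := fun v =>
    {z | (fun i => v (.inl i) * z i * (v (.inr i))⁻¹) ∈ W}
  have td : ∀ (K : Subgroup (MM Γ a)) v, TD K W → (∀ i, v i ∈ K) → TD K (V v) := fun K v h hv =>
    hFK_SUB Γ a K k k W _ h fun i => FK.side_mem_WM (hv _) (K.inv_mem (hv _)) i
  have ex : ∀ v, ∃ m, MinT (V v) m := fun v =>
    FK.exists_minT (td ⊤ v (FK.td_mono hW le_top) fun _ => trivial)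
      ⟨fun i => (v (.inl i))⁻¹ * x i * v (.inr i), by simpa [V, mul_assoc] using hx.1⟩
  choose m hm using ex
  obtain ⟨v, h1, h2, h3⟩ := hFK_ZORN Γ a H _ (fun s => TG H (ty (s.elim id id)))
    (fun v => tl (m v)) 1 hH (fun _ => hFK_ELIM Γ a H _ hH (ht _)) (fun _ => one_mem _)
    (fun _ => FK.tl_nonneg _)
    (fun v hv hb => (hFK_DEC Γ a H k _ _ hH (td H v hW fun i => (hv i).1) (hm v) hb).2)
    fun v w h => by
      refine Ls.mono_left ((hm v).2 (fun i => (v (.inl i))⁻¹ * w (.inl i) * m w i *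
        ((w (.inr i))⁻¹ * v (.inr i))) (by simpa [V, mul_assoc] using (hm w).1))
        (FK.ls_tl (FK.tl_nonneg _) fun i => ?_)
      exact Ls.mono_left ((ln_mul_le _ _).trans (add_le_add (ln_mul_le _ _) le_rfl))
        (((h (.inl i)).add (Ls.of_le (FK.ln_le_tl _ i))).add (ds_comm (w _) _ ▸ h (.inr i) :
          Ls (ds (w (.inr i)) (v (.inr i))) _))
  have e : tl (m 1) = tl x := FK.minT_eq (hm 1) (by
    simp only [V, Pi.one_apply, one_mul, inv_one, mul_one]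
    exact hx)
  refine ⟨fun i => v (.inl i), fun i => (v (.inr i))⁻¹, fun i => ⟨h1 (.inl i), inv_mem (h1 (.inr i)),
    by simpa [e] using h2 (.inl i), by simpa [e] using h2 (.inr i)⟩, fun y hy hb u u' z hu hz hl => ?_⟩
  rw [FK.minT_eq hy (hm v)] at hb hu hl
  refine h3 (Sum.elim (fun i => v (.inl i) * u i) fun i => v (.inr i) * (u' i)⁻¹) ?_ hb ?_
    (hl.mono_left ((hm _).2 z (by simpa [V, mul_assoc] using hz)))
  · rintro (i | i)
    · exact mul_mem (h1 (.inl i)) (hu i).1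
    · exact mul_mem (h1 (.inr i)) (inv_mem (hu i).2.1)
  · rintro (i | i)
    · simpa [ds] using (hu i).2.2.1
    · simpa [ds] using (hu i).2.2.2

end Pool.Agent.P.MP_dba3d2_lc


end

section

/-! Step FK_STEP of the stability project. -/

namespace Pool.Agent.P.MP_dba3d2_lc

open Filter

namespace Fk_step

variable {Γ : HG} {a : Amb}

/-- the numbers of joints `r` and the types `t` occur for an almost minimal element -/
def Occ (H : Subgroup (MM Γ a)) {k : ℕ} (ty : Fin k → Option (MM Γ a)) (W : Set (Fin k → MM Γ a))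
    (μ : a.K) (p : (r : Fin k → ℕ) × ((i : Fin k) → Fin (r i) → Option (MM Γ a))) : Prop :=
  ∃ y ∈ W, Ll (tl y - μ) μ ∧ ∀ i, ∃ h z, TDec μ H (ty i) (y i) (p.1 i) h z (p.2 i)

end Fk_step

theorem p_FK_STEP (hFK_SUB : S_FK_SUB) (hFK_DEC : S_FK_DEC) (hFK_EXP : S_FK_EXP)
    (hFK_NB : S_FK_NB) :
    S_FK_STEP := by
  intro Γ a H k ty W x hH ht hxt hW hx hb
  have μ0 := hb.pos.le
  choose r0 h00 z00 t0 hr0 using fun i => hFK_EXP Γ a H (tl x) (ty i) (x i) hH.gc hb (ht i) (hxt i)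
    (Ls.of_le (FK.ln_le_tl x i)) ((hFK_DEC Γ a H k W x hH hW hx hb).1 i)
  obtain ⟨⟨r, t⟩, ⟨y0, y1, y2, y3⟩, opt⟩ := exists_minimalFor_of_wellFoundedLT
    (Fk_step.Occ H ty W (tl x)) (fun p => toLex (∑ i, nG (p.2 i), ∑ i, p.1 i))
    ⟨⟨r0, t0⟩, x, hx.1, Ll.of_nonpos (sub_self _).le μ0, fun i => ⟨_, _, hr0 i⟩⟩
  choose h0 zz hd using y3
  let z0 : Fin (∑ i, r i) → MM Γ a := fun s =>
    zz (finSigmaFinEquiv.symm s).1 (finSigmaFinEquiv.symm s).2
  let ty' : Fin (∑ i, r i) → Option (MM Γ a) := fun s =>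
    t (finSigmaFinEquiv.symm s).1 (finSigmaFinEquiv.symm s).2
  have et : ∀ i j, ty' (finSigmaFinEquiv ⟨i, j⟩) = t i j := fun i j =>
    congrArg (fun p : (i : Fin k) × Fin (r i) => t p.1 p.2)
      (finSigmaFinEquiv.symm_apply_apply ⟨i, j⟩)
  have e0 : upW r h0 z0 = y0 := funext fun i => by
    rw [(hd i).eq]
    refine congrArg (weave (r i) (h0 i)) (funext fun j => ?_)
    exact congrArg (fun p : (i : Fin k) × Fin (r i) => zz p.1 p.2)
      (finSigmaFinEquiv.symm_apply_apply ⟨i, j⟩)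
  have t0 : ∀ s, Ll (ln (z0 s)) (tl x) := fun s => (hd _).tin _
  have ok : ∀ s, TyOk H (ty' s) := fun s => (hd _).ok _
  have hW0 := FK.td_ty (hFK_SUB Γ a H k _ W _ hW (FK.upW_mem_WM r fun i => (hd i).mem)) ok
  have m0 : (∀ s, HasT (ty' s) (z0 s)) ∧ upW r h0 z0 ∈ W := ⟨fun s => (hd _).has _, e0.symm ▸ y1⟩
  obtain ⟨x0, hx0⟩ := FK.exists_minT hW0 ⟨z0, m0⟩
  have t1 : Ll (tl x0) (tl x) := Ll.mono_left (hx0.2 z0 m0) (FK.ll_tl μ0 t0)
  obtain ⟨g, g', hg, irr⟩ := hFK_NB Γ a H _ ty' _ x0 hH ok hW0 hx0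
  have t2 : ∀ s, Ll (ln (g s)) (tl x) ∧ Ll (ln (g' s)) (tl x) := fun s =>
    ⟨Ll.ls_left (hg s).2.2.1 t1, Ll.ls_left (hg s).2.2.2 t1⟩
  have up : ∀ i j, TG H (ty' (finSigmaFinEquiv ⟨i, j⟩)) ≤ TG H (ty i) := fun i j w hw =>
    FK.mem_TG.2 ⟨hw.1, fun c e => (FK.mem_TG.1 hw).2 c ((et i j).trans (((hd i).one c e).2.1 j))⟩
  choose h k1 k2 using fun i => FK.weave_merge (H := TG H (ty i)) (μ := tl x) (r i) (h0 i)
    (fun j => g (finSigmaFinEquiv ⟨i, j⟩)) (fun j => g' (finSigmaFinEquiv ⟨i, j⟩)) 1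
    (fun j => FK.mem_TG.2 ⟨(hd i).mem j, fun c e => ((hd i).one c e).2.2 j⟩)
    (fun j => ⟨up i j (hg _).1, up i j (hg _).2.1⟩) (one_mem _) (fun j => t2 _)
    (Ll.of_nonpos ln_one.le μ0)
  have e1 : ∀ z, upW r h z = upW r h0 fun s => g s * z s * g' s := fun z =>
    funext fun i => (k2 i _).trans (one_mul _)
  refine ⟨r, h, ty', fun i j => (k1 i j).1, fun i j => ?_, ?_, ok, fun i c e =>
    ⟨((hd i).one c e).1, fun j => (et i j).trans (((hd i).one c e).2.1 j)⟩,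
    ⟨fun s => (g s)⁻¹ * z0 s * (g' s)⁻¹, ⟨fun s => (FK.hasT_side (inv_mem (hg s).1)
      (inv_mem (hg s).2.1)).2 (m0.1 s), ?_⟩, FK.ll_tl μ0 fun s => ?_⟩, ?_,
    fun y hy hl r' h' z' t' hd' => ?_⟩
  · exact Ls.mono_left (by linarith) ((k1 i j).2.ls.add ((hd i).bd j))
  · have a1 := ll_sum Finset.univ _ μ0 fun i _ => ll_sum Finset.univ _ μ0 fun j _ => (k1 i j).2
    have a2 := ll_sum Finset.univ _ μ0 fun i _ => (hd i).add
    simp only [Finset.sum_sub_distrib] at a1 a2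
    refine Ll.mono_left ?_ ((a1.add a2).add y2)
    rw [show tl y0 = ∑ i, ln (y0 i) from rfl]
    linarith
  · rw [e1]
    simpa only [mul_assoc, mul_inv_cancel_left, inv_mul_cancel, mul_one] using m0.2
  · refine Ll.mono_left ?_ (((t2 s).1.add (t0 s)).add (t2 s).2)
    have a1 := ln_mul_le ((g s)⁻¹ * z0 s) (g' s)⁻¹
    have a2 := ln_mul_le (g s)⁻¹ (z0 s)
    rw [ln_inv] at a1 a2
    linarith
  · convert irr using 1
    ext z
    exact and_congr (forall_congr' fun s => (FK.hasT_side (hg s).1 (hg s).2.1).symm)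
      (by rw [e1]; rfl)
  · have := Prod.Lex.toLex_le_toLex.1 ((le_total _ _).elim id
      (opt (j := ⟨r', t'⟩) ⟨y, hy, hl, fun i => ⟨_, _, hd' i⟩⟩))
    rw [← FK.nG_sigma finSigmaFinEquiv ty']
    simp only [et]
    exact this

end Pool.Agent.P.MP_dba3d2_lc


end

section

/-! Step FK_CORE of the stability project. -/

namespace Pool.Agent.P.MP_dba3d2_lc

open Filter

namespace Fk_core
open FK

variable {Γ : HG} {a : Amb} {H : Subgroup (MM Γ a)}

theorem sum_e (S : Shape Γ a) (n : ℕ) (z : Fin (S.k (n + 1)) → MM Γ a) :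
    ∑ i, ∑ j, ln (z (S.e n ⟨i, j⟩)) = tl z := by
  rw [tl, ← Equiv.sum_comp (S.e n), Fintype.sum_sigma]

theorem tl_up (S : Shape Γ a) (n : ℕ) (z : Fin (S.k (n + 1)) → MM Γ a) :
    tl (S.up n z) ≤ ∑ i, ∑ j, ln (S.h n i j) + tl z := by
  rw [← sum_e S n z, ← Finset.sum_add_distrib]
  exact Finset.sum_le_sum fun i _ => ln_weave_le _ _ _

/-- an infinite descent -/
structure Chain (H : Subgroup (MM Γ a)) (S : Shape Γ a)
    (ty : (n : ℕ) → Fin (S.k n) → Option (MM Γ a)) (W : (n : ℕ) → Set (Fin (S.k n) → MM Γ a))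
    (x : (n : ℕ) → Fin (S.k n) → MM Γ a) : Prop where
  td : ∀ n, TD H (W n)
  ty0 : ∀ i, ty 0 i = none
  up : ∀ n z, z ∈ W (n + 1) ↔ (∀ s, HasT (ty (n + 1) s) (z s)) ∧ S.up n z ∈ W n
  ok : ∀ n s, TyOk H (ty (n + 1) s)
  one : ∀ n i c, ty n i = some c → S.r n i ≤ 1 ∧ ∀ j, ty (n + 1) (S.e n ⟨i, j⟩) = some c
  min : ∀ n, MinT (W n) (x n)
  big : ∀ n, Big (tl (x n))
  mem : ∀ n i j, S.h n i j ∈ TG H (ty n i)
  bd : ∀ n i j, Ls (ln (S.h n i j)) (tl (x n))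
  add : ∀ n, Ll (∑ i, ∑ j, ln (S.h n i j) - tl (x n)) (tl (x n))
  low : ∀ n, Ll (tl (x (n + 1))) (tl (x n))
  irr : ∀ n, Irr H (ty (n + 1)) (W (n + 1))
  opt : ∀ n, ∀ y ∈ W n, Ll (tl y - tl (x n)) (tl (x n)) → ∀ (r' : Fin (S.k n) → ℕ)
    (h' : (i : Fin (S.k n)) → Fin (r' i + 1) → MM Γ a)
    (z' : (i : Fin (S.k n)) → Fin (r' i) → MM Γ a)
    (t' : (i : Fin (S.k n)) → Fin (r' i) → Option (MM Γ a)),
    (∀ i, TDec (tl (x n)) H (ty n i) (y i) (r' i) (h' i) (z' i) (t' i)) →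
    nG (ty (n + 1)) < ∑ i, nG (t' i) ∨ (nG (ty (n + 1)) = ∑ i, nG (t' i) ∧ S.k (n + 1) ≤ ∑ i, r' i)

variable {S : Shape Γ a} {ty : (n : ℕ) → Fin (S.k n) → Option (MM Γ a)}
  {W : (n : ℕ) → Set (Fin (S.k n) → MM Γ a)} {x : (n : ℕ) → Fin (S.k n) → MM Γ a}

theorem fin_sat (C : Chain H S ty W x) (d : ℕ) : ∀ n, ∃ y : (m : ℕ) → Fin (S.k m) → MM Γ a,
    y n ∈ W n ∧ tl (y n) ≤ 2 * tl (x n) ∧
      ∀ m, n ≤ m → m < n + d →
        y m = S.up m (y (m + 1)) ∧ y m ∈ W m ∧ tl (y m) ≤ 2 * tl (x m) := by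
  induction d with
  | zero =>
    exact fun n => ⟨x, (C.min n).1, by linarith [tl_nonneg (x n)], fun m h1 h2 => by omega⟩
  | succ d ih =>
    intro n
    obtain ⟨y, h1, h2, h3⟩ := ih (n + 1)
    have e : tl (S.up n (y (n + 1))) ≤ 2 * tl (x n) := by
      have k1 := tl_up S n (y (n + 1))
      have k2 := ((C.add n).add (C.low n).two) 1
      rw [Nat.cast_one, one_mul] at k2
      linarith
    refine ⟨Function.update y n (S.up n (y (n + 1))), ?_, ?_, fun m k1 k2 => ?_⟩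
    · rw [Function.update_self]
      exact ((C.up n _).1 h1).2
    · rw [Function.update_self]
      exact e
    · rw [Function.update_of_ne (show m + 1 ≠ n by omega)]
      obtain rfl | k3 := k1.eq_or_lt
      · rw [Function.update_self]
        exact ⟨rfl, ((C.up n _).1 h1).2, e⟩
      · rw [Function.update_of_ne k3.ne']
        exact h3 m k3 (by omega)

theorem exists_lim (C : Chain H S ty W x) : ∃ y : (m : ℕ) → Fin (S.k m) → MM Γ a,
    ∀ m, y m ∈ W m ∧ y m = S.up m (y (m + 1)) ∧ ∀ i, ln (y m i) ≤ 2 * tl (x m) := by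
  let ι := (m : ℕ) × Fin (S.k m)
  let V : ι → FreeGroup (MM Γ a ⊕ ι) := fun s => FreeGroup.of (Sum.inr s)
  have hV : ∀ (s : ι) (v : ι → MM Γ a), wev (V s) v = v s := fun s v => by simp [wev, V]
  let w : (m : ℕ) → Fin (S.k m) → FreeGroup (MM Γ a ⊕ ι) := fun m i => (V ⟨m, i⟩)⁻¹ *
    weave (S.r m i) (fun j => FreeGroup.of (Sum.inl (S.h m i j))) fun j => V ⟨m + 1, S.e m ⟨i, j⟩⟩
  have hw : ∀ m i (v : ι → MM Γ a), wev (w m i) v = 1 ↔
      v ⟨m, i⟩ = S.up m (fun j => v ⟨m + 1, j⟩) i := fun m i v => by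
    rw [wev, map_mul, map_inv, map_weave, inv_mul_eq_one]
    simp [V, Shape.up]
  obtain ⟨v, hv⟩ := sat (fun m => {v : ι → MM Γ a | (fun i => wev (V ⟨m, i⟩) v) ∈ W m} ∩
      ⋂ i ∈ (Finset.univ : Finset (Fin (S.k m))),
        {v | wev (w m i) v = 1} ∩ {v | ln (wev (V ⟨m, i⟩) v) ≤ 2 * tl (x m)})
    (fun m => ((td_intl (C.td m)).comap _).inter
      (Intl.biInter _ _ fun i _ => (intl_eq_one _).inter (intl_ln_le _ _)))
    fun n => by
      obtain ⟨y, -, -, h3⟩ := fin_sat C (n + 1) 0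
      refine ⟨fun s => y s.1 s.2, fun m hm => ⟨?_, Set.mem_iInter₂.2 fun i _ => ⟨?_, ?_⟩⟩⟩
      · simpa only [Set.mem_ofPred_eq, hV] using (h3 m m.zero_le (by omega)).2.1
      · rw [Set.mem_ofPred_eq, hw]
        exact congrFun (h3 m m.zero_le (by omega)).1 i
      · rw [Set.mem_ofPred_eq, hV]
        exact (ln_le_tl _ i).trans (h3 m m.zero_le (by omega)).2.2
  refine ⟨fun m i => v ⟨m, i⟩, fun m => ⟨?_, funext fun i => ?_, fun i => ?_⟩⟩
  · simpa only [Set.mem_ofPred_eq, hV] using (hv m).1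
  · exact (hw m i v).1 (Set.mem_iInter₂.1 (hv m).2 i (Finset.mem_univ i)).1
  · have := (Set.mem_iInter₂.1 (hv m).2 i (Finset.mem_univ i)).2
    rwa [Set.mem_ofPred_eq, hV] at this

theorem typed (C : Chain H S ty W x) (n : ℕ) : ∀ z ∈ W n, ∀ i, HasT (ty n i) (z i) := by
  cases n with
  | zero => exact fun z _ i c e => nomatch (C.ty0 i).symm.trans e
  | succ n => exact fun z h => ((C.up n z).1 h).1

theorem of_top (C : Chain H S ty W x) (n : ℕ) :
    ∀ z, (∀ i, HasT (ty n i) (z i)) → S.top n z ∈ W 0 → z ∈ W n := by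
  induction n with
  | zero => exact fun _ _ h => h
  | succ n ih =>
    exact fun z h1 h2 => (C.up n z).2 ⟨h1, ih _ (fun i c e => weave_mem (Ep c) _ _ _
      (fun j => (mem_TG.1 (C.mem n i j)).2 c e) fun j => h1 _ c ((C.one n i c e).2 j)) h2⟩

theorem no_chain (hS2 : S_S2) (hH : GC H) (C : Chain H S ty W x) : False := by
  obtain ⟨y, hy⟩ := exists_lim C
  have p : ∀ n, 0 ≤ tl (x n) := fun n => tl_nonneg _
  have mem : ∀ n, y n ∈ W n := fun n => (hy n).1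
  have tin : ∀ n i, Ll (ln (y (n + 1) i)) (tl (x n)) := fun n i =>
    (C.low n).two.mono_left ((hy (n + 1)).2.2 i)
  have near : ∀ n, Ll (tl (y n) - tl (x n)) (tl (x n)) := fun n => by
    refine ((C.add n).add (ll_tl (p n) (tin n))).mono_left ?_
    have := tl_up S n (y (n + 1))
    rw [← (hy n).2.1] at this
    linarith
  have dec : ∀ n i, Dec (tl (x n)) (TG H (ty n i)) (y n i) (S.r n i) (S.h n i)
      fun j => y (n + 1) (S.e n ⟨i, j⟩) := fun n i => by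
    refine ⟨C.mem n i, C.bd n i, fun j => tin n _, congrFun (hy n).2.1 i, ?_⟩
    refine ((C.add n).add (ll_tl (p n) (tin n))).mono_left ?_
    have k1 : ∀ i', 0 ≤ ∑ j, ln (S.h n i' j) + ∑ j, ln (y (n + 1) (S.e n ⟨i', j⟩)) - ln (y n i') :=
      fun i' => sub_nonneg.2 ((congrArg ln (congrFun (hy n).2.1 i')).trans_le (ln_weave_le _ _ _))
    have k2 := Finset.single_le_sum (fun i' _ => k1 i') (Finset.mem_univ i)
    rw [Finset.sum_sub_distrib, Finset.sum_add_distrib, sum_e] at k2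
    have k3 : tl (x n) ≤ ∑ i', ln (y n i') := (C.min n).2 _ (mem n)
    have k4 : 0 ≤ ∑ j, ln (y (n + 1) (S.e n ⟨i, j⟩)) := Finset.sum_nonneg fun _ _ => ln_nonneg _
    linarith
  obtain ⟨m, Q, h, q1, q2, q3⟩ := C.td 0
  obtain ⟨n, hn⟩ := hS2 Γ a H (fun n => tl (x n)) S ty m Q h y hH C.big C.low q1 q2 C.ty0
    (fun n i => ⟨2, by exact_mod_cast (hy n).2.2 i⟩)
    (fun n i => ⟨⟨fun j => ((dec n i).mem j).1, (dec n i).bd, (dec n i).tin, (dec n i).eq,
      (dec n i).add⟩, fun j => C.ok n _, fun j => typed C _ _ (mem _) _, fun c e =>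
      ⟨(C.one n i c e).1, (C.one n i c e).2, fun j => (mem_TG.1 (C.mem n i j)).2 c e⟩⟩)
    ((q3 _).1 (mem 0)) (fun n z ht hz => by
      refine (near n).mono_left ?_
      have := (C.min n).2 z (of_top C n z ht ((q3 _).2 hz))
      linarith)
    fun n z ht hz hl => C.opt n z (of_top C n z ht ((q3 _).2 hz))
      ((hl.add (near n)).mono_left (by linarith))
  choose g g' w k1 k2 k3 using fun i => dec_le_one (p _) (dec (n + 1) i) (hn (n + 1) n.le_succ i)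
  refine C.irr n _ (C.min _) (C.big _) g g' w k1 ?_ (ll_tl (p _) k2)
  rw [funext k3]
  exact mem _

/-- a state of the descent -/
structure Sta (H : Subgroup (MM Γ a)) where
  k : ℕ
  ty : Fin k → Option (MM Γ a)
  W : Set (Fin k → MM Γ a)
  ok : ∀ i, TyOk H (ty i)
  has : ∀ y ∈ W, ∀ i, HasT (ty i) (y i)
  td : TD H W
  ne : W.Nonempty
  no : ∀ y ∈ W, ¬ ∀ i, y i ∈ H

end Fk_core

open FK Fk_core in
theorem p_FK_CORE (hS2 : S_S2) (hFK_SUB : S_FK_SUB) (hFK_STEP : S_FK_STEP) :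
    S_FK_CORE := by
  intro Γ a H k W hH h1 h2
  by_contra h3
  have hx : ∀ s : Sta H, ∃ x, MinT s.W x ∧ Big (tl x) := fun s => by
    obtain ⟨x, hx⟩ := exists_minT s.td s.ne
    exact ⟨x, hx, by_contra fun e => s.no x hx.1 (mem_of_not_big hH e)⟩
  choose X hX hB using hx
  choose R B T hS using fun s : Sta H => hFK_STEP Γ a H s.k s.ty s.W (X s) hH s.ok
    (s.has _ (hX s).1) s.td (hX s) (hB s)
  let next : Sta H → Sta H := fun s =>
    { k := ∑ i, R s i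
      ty := T s
      W := {z | (∀ i, HasT (T s i) (z i)) ∧ upW (R s) (B s) z ∈ s.W}
      ok := (hS s).ok
      has := fun _ h => h.1
      td := td_ty (hFK_SUB Γ a H _ _ s.W (fun i z => upW (R s) (B s) z i) s.td
        (upW_mem_WM _ fun i j => ((hS s).mem i j).1)) (hS s).ok
      ne := (hS s).low.imp fun _ h => h.1
      no := fun y hy e => s.no _ hy.2 fun i =>
        weave_mem H _ _ _ (fun j => ((hS s).mem i j).1) fun _ => e _ }
  let q : ℕ → Sta H := Nat.rec ⟨k, fun _ => none, W, fun _ _ e => (nomatch e),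
    fun _ _ _ _ e => (nomatch e), h1, h2, fun y hy e => h3 ⟨y, hy, e⟩⟩ fun _ s => next s
  let S : Shape Γ a := ⟨fun n => (q n).k, fun n => R (q n), fun n => B (q n),
    fun _ => finSigmaFinEquiv⟩
  refine no_chain (S := S) (ty := fun n => (q n).ty) (W := fun n => (q n).W)
    (x := fun n => X (q n)) hS2 hH.gc
    ⟨fun n => (q n).td, fun _ => rfl, fun _ _ => Iff.rfl, fun n => (hS (q n)).ok,
      fun n => (hS (q n)).one, fun n => hX _, fun n => hB _, fun n => (hS _).mem,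
      fun n => (hS _).bd, fun n => (hS _).add, fun n => ?_, fun n => (hS (q n)).irr,
      fun n => (hS (q n)).opt⟩
  obtain ⟨z, k1, k2⟩ := (hS (q n)).low
  exact k2.mono_left ((hX (q (n + 1))).2 z k1)

end Pool.Agent.P.MP_dba3d2_lc


end

section

/-! Step KEY of the stability project. -/

namespace Pool.Agent.P.MP_dba3d2_lc

open Filter

theorem p_KEY (hCOUNT : S_COUNT) (hFK_MAX : S_FK_MAX) (hFK_CORE : S_FK_CORE) :
    S_KEY := by
  intro Γ a H hH
  refine ⟨le_top, fun m k Q hQ h hh x _ hx => ?_⟩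
  obtain ⟨H0, l0, l1, l2, l3⟩ := hCOUNT Γ a H (Set.range h) hH (Set.countable_range h)
    (Set.range_subset_iff.2 hh)
  obtain ⟨H1, k1, k2⟩ := hFK_MAX Γ a H0 l3 l2
  have e : ∀ i, h i ∈ H0 := fun i => l1 ⟨i, rfl⟩
  obtain ⟨y, m1, m2⟩ := hFK_CORE Γ a H1 k {z | St Q (Sum.elim h z)} k1
    ⟨m, Q, h, hQ, fun i => k2.1 (e i), fun _ => Iff.rfl⟩ ⟨x, hx⟩
  obtain ⟨z, n1, n2⟩ := k2.2 m k Q hQ h e y m2 m1
  exact ⟨z, fun i => l0 (n1 i), n2⟩

end Pool.Agent.P.MP_dba3d2_lc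


end
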