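import Pool.Agent.P.MP_dba3d2_lcM.Ab05
import Pool.Agent.P.MP_dba3d2_lcM.Bb07
import Pool.Agent.P.MP_dba3d2_lcM.Bb10
import Pool.Agent.P.MP_dba3d2_lcM.Gb27

section

/-! Step G_FAC of the stability project. -/

namespace Pool.Agent.P.MP_dba3d2_lc

open Filter

namespace G_fac
open GT

variable {Γ : HG} {a : Amb}

theorem down (t : a.K) (X : ℕ → MM Γ (a.pow U0)) (P : ℕ → MM Γ a) (p : MM Γ (a.pow U0)) (n : ℕ) :
    ds ((a.pow U0).mk' U0 X * (cp a true).hom Γ (a.mk' U0 P)) ((cp a false).hom Γ p) ≤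
      n * (cp a false).kh ((a.dg U0).kh t) ↔
    ∀ᶠ j in (U0 : Filter ℕ), ds (X j * (a.dg U0).hom Γ (P j)) p ≤ n * (a.dg U0).kh t := by
  rw [cp_true, cp_false, cp_false_kh, ← mk'_mul, ds_mk', ← nmul_mk', mk'_le_iff]

theorem down2 (t : a.K) (x P : ℕ → MM Γ a) (p : MM Γ a) :
    ds (a.mk' U0 x * (a.dg U0).hom Γ p) (a.mk' U0 P) ≤ (a.dg U0).kh t ↔
    ∀ᶠ i in (U0 : Filter ℕ), ds (x i * p) (P i) ≤ t := by
  rw [← mk'_hom, ← mk'_mul, ds_mk', mk'_le_kh]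

theorem step {t : a.K} {y p : MM Γ (a.pow U0)} {u u0 v v0 r : MM Γ a}
    (h0 : ds (y * (a.dg U0).hom Γ v0) p ≤ (a.dg U0).kh t) (h1 : ds (u * v) r ≤ t)
    (h2 : ds (u0 * v0) r ≤ t) :
    ds (y * (a.dg U0).hom Γ (u0⁻¹ * u) * (a.dg U0).hom Γ v) p ≤ (3 : ℕ) * (a.dg U0).kh t := by
  have e1 := ds_tri (y * (a.dg U0).hom Γ (u0⁻¹ * u * v)) (y * (a.dg U0).hom Γ v0) p
  rw [ds_mul_left, Ext.ds_hom] at e1
  have e2 : ds (u0⁻¹ * u * v) v0 ≤ t + t := by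
    have k := ds_tri (u * v) r (u0 * v0)
    rw [ds_comm r] at k
    rw [← ds_mul_left u0, ← mul_assoc, mul_inv_cancel_left]
    linarith
  have e3 := (a.dg U0).kh_le.2 e2
  rw [map_add] at e3
  rw [mul_assoc, ← map_mul]
  push_cast
  linarith

end G_fac

theorem p_G_FAC :
    S_G_FAC := by
  intro Γ a t x p0 q0 p1 q1 hp hq
  obtain ⟨X, rfl⟩ := mk'_surjective U0 x
  obtain ⟨P1, rfl⟩ := mk'_surjective U0 p1
  obtain ⟨Q1, rfl⟩ := mk'_surjective U0 q1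
  obtain ⟨P0, rfl⟩ := mk'_surjective U0 p0
  obtain ⟨Q0, rfl⟩ := mk'_surjective U0 q0
  choose x hx using fun j => mk'_surjective U0 (X j)
  have h1 := (G_fac.down t X P1 _ 1).1 (by simpa using hp)
  have h2 := (G_fac.down t X Q1 _ 1).1 (by simpa using hq)
  simp only [Nat.cast_one, one_mul] at h1 h2
  obtain ⟨j0, k1, k2⟩ := (h1.and h2).exists
  have k3 := k1
  have k4 := k2
  rw [← hx j0, G_fac.down2] at k3 k4
  obtain ⟨f, hf⟩ := ((h1.and h2).mono fun j hj => show ∃ i,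
      (ds (x j i * P1 j) (P0 i) ≤ t ∧ ds (x j i * Q1 j) (Q0 i) ≤ t) ∧
      ds (x j0 i * P1 j0) (P0 i) ≤ t ∧ ds (x j0 i * Q1 j0) (Q0 i) ≤ t from by
    obtain ⟨l1, l2⟩ := hj
    rw [← hx j, G_fac.down2] at l1 l2
    exact ((l1.and l2).and (k3.and k4)).exists).choice
  have e : (cp a false).hom Γ (X j0) *
      (cp a true).hom Γ (a.mk' U0 fun j => (x j0 (f j))⁻¹ * x j (f j)) =
      (a.pow U0).mk' U0 fun j => X j0 * (a.dg U0).hom Γ ((x j0 (f j))⁻¹ * x j (f j)) := by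
    rw [GT.cp_true, GT.cp_false, ← mk'_mul]
  refine ⟨X j0, a.mk' U0 fun j => (x j0 (f j))⁻¹ * x j (f j), ?_, ?_⟩
  · rw [e]
    exact_mod_cast (G_fac.down t _ P1 _ 3).2 (hf.mono fun j hj => G_fac.step k1 hj.1.1 hj.2.1)
  · rw [e]
    exact_mod_cast (G_fac.down t _ Q1 _ 3).2 (hf.mono fun j hj => G_fac.step k2 hj.1.2 hj.2.2)

end Pool.Agent.P.MP_dba3d2_lc


end

section

/-! Step G_I1 of the stability project. -/

namespace Pool.Agent.P.MP_dba3d2_lc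

open Filter GT

namespace G_i1

variable {Γ : HG} {b : Amb} {ν τ : b.K} {n : ℕ} {x k p P0 P1 : MM Γ b}

theorem err (hn : 0 < n) (e : ν = (8 * n : ℕ) * τ) (h0 : Ll (ds p P0) ν)
    (h1 : Ll (ds (x⁻¹ * p) P1) ν) : ds p P0 + ds p (x * P1) ≤ τ := by
  have h := (h0.add h1) (8 * n)
  rw [e, ← ds_mul_left x (x⁻¹ * p), mul_inv_cancel_left] at h
  exact le_of_mul_le_mul_left h (by positivity)

theorem near (hn : 0 < n) (e : ν = (8 * n : ℕ) * τ) (h0 : Ll (ds p P0) ν)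
    (h1 : Ll (ds (x⁻¹ * p) P1) ν) : ds (x * P1) P0 ≤ τ := by
  linarith [err hn e h0 h1, ds_tri (x * P1) p P0, ds_comm p (x * P1)]

theorem move (hn : 0 < n) (e : ν = (8 * n : ℕ) * τ) (h0 : Ll (ds p P0) ν)
    (h1 : Ll (ds (x⁻¹ * p) P1) ν) (h : ds (k * P1) P0 ≤ 3 * τ) :
    n * ds p (x * k⁻¹ * p) ≤ ν := by
  have h2 := err hn e h0 h1
  have h3 : ds (x * P1) (x * k⁻¹ * p) = ds (k * P1) p := by
    rw [← ds_mul_left (x * k⁻¹) (k * P1) p, mul_assoc x k⁻¹ (k * P1), inv_mul_cancel_left]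
  have h4 : ds p (x * k⁻¹ * p) ≤ 8 * τ := by
    linarith [ds_tri p (x * P1) (x * k⁻¹ * p), ds_tri (k * P1) P0 p, ds_comm p P0,
      ds_nonneg p P0, ds_nonneg p (x * P1)]
  refine (mul_le_mul_of_nonneg_left h4 n.cast_nonneg).trans_eq ?_
  rw [e]
  push_cast
  ring

theorem apx (hB : S_B_APX) {a : Amb} (E : Ext a b) {l : a.K} {u : MM Γ a} (hl : Big (E.kh l))
    (hu : Ls (ln (E.hom Γ u)) (E.kh l)) (h : On (E.kh l) p 1 (E.hom Γ u)) :
    ∃ p0, Ll (ds p (E.hom Γ p0)) (E.kh l) := by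
  rw [E.ln_hom, E.ls_iff] at hu
  obtain ⟨p0, -, k⟩ := hB Γ a b E l 1 u p (E.big_iff.1 hl) (by rwa [ds_one_left])
    (by rwa [map_one])
  exact ⟨p0, k⟩

end G_i1

open G_i1

theorem p_G_I1 (hCVX : S_CVX) (hEXTGC : S_EXTGC) (hB_SMALL : S_B_SMALL) (hB_APX : S_B_APX) (hG_FAC : S_G_FAC) :
    S_G_I1 := by
  rintro Γ a μ hμ _ ⟨u, rfl⟩ _ ⟨v, rfl⟩ hu hv x p q ho hn
  have su : Sim μ (ln ((cp a false).hom Γ u)) :=
    ⟨by simpa only [ds_one_left] using ho.2.1.nondeg hμ ho.2.2.1 ho.1, hu⟩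
  have sv : Sim μ (ln ((cp a true).hom Γ v)) :=
    ⟨by simpa only [ds_mul_right] using ho.2.2.2.1.nondeg hμ ho.2.2.2.2 ho.1, hv⟩
  obtain ⟨l, hl, -⟩ := cp_scale (x := ln u) (y := ln v) (by
    rw [← Ext.ln_hom, ← Ext.ln_hom]
    exact su.symm'.trans' sv)
  have s : Sim μ ((cp a false).kh ((a.dg U0).kh l)) :=
    su.trans' (by rw [Ext.ln_hom]; exact (cp a false).sim_iff.2 hl)
  have hν := s.big_iff.1 hμ
  rw [s.ov_iff hμ.pos.le hν.pos.le] at ho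
  rw [s.per_iff hμ.pos.le hν.pos.le] at hn
  have hu' := hu.trans' s.1
  have hv' := hv.trans' s.1
  obtain ⟨p0, a0⟩ := apx hB_APX (cp a false) hν hu' ho.2.1
  obtain ⟨q0, b0⟩ := apx hB_APX (cp a false) hν hu' ho.2.2.1
  have o : ∀ z, On ((cp a false).kh ((a.dg U0).kh l)) z x (x * (cp a true).hom Γ v) →
      ∃ z1, Ll (ds (x⁻¹ * z) ((cp a true).hom Γ z1)) ((cp a false).kh ((a.dg U0).kh l)) := by
    intro z hz
    have k := hz.mul x⁻¹
    rw [inv_mul_cancel, inv_mul_cancel_left] at k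
    rw [← cp_dg_kh true] at k hν hv' ⊢
    exact apx hB_APX (cp a true) hν hv' k
  obtain ⟨p1, a1⟩ := o p ho.2.2.2.1
  obtain ⟨q1, b1⟩ := o q ho.2.2.2.2
  obtain ⟨r, s, n, hr, hs, hrs, np, n0, -, st⟩ := hB_SMALL Γ _ _ p q hν ho.1 hn
  have e : (cp a false).kh ((a.dg U0).kh l) =
      (8 * n : ℕ) * (cp a false).kh ((a.dg U0).kh (l / (8 * n : ℕ))) := by
    rw [← map_natCast (cp a false).kh, ← map_mul, ← map_natCast (a.dg U0).kh, ← map_mul,
      mul_div_cancel₀ _ (Nat.cast_ne_zero.2 (by omega))]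
  obtain ⟨y, w, c1, c2⟩ := hG_FAC Γ a _ x p0 q0 p1 q1 (near n0 e a0 a1) (near n0 e b0 b1)
  have g := st _ (move n0 e a0 a1 c1) (move n0 e b0 b1 c2)
  have m := (gc_range (cp a false) hCVX hEXTGC).toGC0.g2' hν (one_mem _) ⟨u, rfl⟩ (one_mem _)
    ⟨u, rfl⟩ (by rwa [ds_one_left]) (by rwa [ds_one_left])
    (g.ov (ho.2.1.conv hν ho.2.2.1 hr) (ho.2.1.conv hν ho.2.2.1 hs) hrs) np
  exact ⟨_, mul_mem m ⟨y, rfl⟩, _, ⟨w, rfl⟩, by group⟩

end Pool.Agent.P.MP_dba3d2_lc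


end

section

/-! Step G_I2 of the stability project. -/

namespace Pool.Agent.P.MP_dba3d2_lc

open Filter

theorem p_G_I2 :
    S_G_I2 := by
  intro Γ a c0 c1 x hc h
  obtain ⟨X, rfl⟩ := mk'_surjective U0 x
  obtain ⟨d, rfl⟩ := mk'_surjective U0 c1
  obtain ⟨c, rfl⟩ := mk'_surjective U0 c0
  choose x hx using fun j => mk'_surjective U0 (X j)
  rw [GT.cp_true, GT.cp_false, GT.cj_mk'] at h
  rw [prim_mk'] at hc
  obtain ⟨j0, k1, k2⟩ := (h.and hc).exists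
  have k3 := k1
  rw [← hx j0, ← mk'_hom, GT.cj_mk'] at k3
  obtain ⟨f, hf⟩ := (h.mono fun j hj => show ∃ i,
      Cj (x j i) (d j) (c i) ∧ Cj (x j0 i) (d j0) (c i) from by
    rw [← hx j, ← mk'_hom, GT.cj_mk'] at hj
    exact (hj.and k3).exists).choice
  refine ⟨(a.dg U0).hom Γ (d j0), ⟨_, rfl⟩, (a.dg U0).prim_iff.2 k2, X j0,
    a.mk' U0 fun j => (x j (f j))⁻¹ * x j0 (f j), k1, ?_⟩
  rw [← mk'_hom, GT.cj_mk']
  exact hf.mono fun j hj => hj.1.inv.mul hj.2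

end Pool.Agent.P.MP_dba3d2_lc


end

section

/-! Step G_I5 of the stability project. -/

namespace Pool.Agent.P.MP_dba3d2_lc

open Filter GT

theorem p_G_I5 (hTORS : S_TORS) (hELEM : S_ELEM) (hCVX : S_CVX) (hEXTGC : S_EXTGC) (hROOT : S_ROOT) (hRIG : S_RIG) :
    S_G_I5 := by
  intro Γ a i x c c' hx pc pc' h
  have hM := (gc_range (Γ := Γ) (a.dg U0) hCVX hEXTGC).toGC0
  have r4 := (hROOT Γ _ _ hM).2.2.2.1
  cases i
  · obtain ⟨x, rfl⟩ := mk'_surjective U0 x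
    rw [Bool.not_false, cp_true, cp_false, cp_false, cj_mk'] at h
    obtain ⟨j0, h0⟩ := h.exists
    let K : Subgroup (MM Γ a) :=
      { carrier := {g | InE c ((a.dg U0).hom Γ g)}
        one_mem' := InE.of_mem (by rw [map_one]; exact one_mem _)
        mul_mem' := fun {g g'} u v => by
          have := InE.mul u v
          rwa [← map_mul] at this
        inv_mem' := fun {g} u => by
          have := InE.inv u
          rwa [← map_inv] at this }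
    by_cases e : ∀ g ∈ K, IsOfFinOrder g
    · have := (hTORS Γ a K e).1
      refine absurd (mem_dg_of_finite U0 _ ((Set.toFinite (K : Set (MM Γ a))).image (· * x j0)) x
        (h.mono fun j hj => ⟨x j * (x j0)⁻¹, ?_, inv_mul_cancel_right _ _⟩)) hx
      have := ((hELEM Γ _ c pc.1).2.2.2.1 _).2 (hj.mul h0.inv)
      rwa [← map_inv, ← map_mul] at this
    · push Not at e
      obtain ⟨g, hg, ig⟩ := e
      have ig' := mt (a.dg U0).finOrder_iff.1 ig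
      exact r4 _ ⟨g, rfl⟩ ig' c pc (Ep_eq hELEM pc.1 (InE.mem hELEM pc.1 hg ig') ig').symm
  · obtain ⟨c, rfl⟩ := mk'_surjective U0 c
    obtain ⟨c', rfl⟩ := mk'_surjective U0 c'
    rw [Bool.not_true, cp_true, cp_true, cp_false, cj_mk'] at h
    have k := h.and (((prim_mk' U0 c).1 pc).and ((prim_mk' U0 c').1 pc'))
    obtain ⟨j0, h0, p0, p0'⟩ := k.exists
    have f := fun z (p : Prim z) => mt ((a.dg U0).finOrder_iff (Γ := Γ) (g := z)).1 p.1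
    refine r4 _ ⟨c j0, rfl⟩ (f _ p0) _ pc ?_
    rw [← mk'_hom, Ep_mk']
    refine k.mono fun j ⟨hj, p, p'⟩ => by_contra fun e => hx ?_
    exact (hRIG Γ _ _ hM).1 _ ⟨c j, rfl⟩ _ ⟨c j0, rfl⟩ _ ⟨c' j, rfl⟩ _ ⟨c' j0, rfl⟩ (f _ p) (f _ p0)
      (f _ p') (f _ p0') (mt (Ep_hom _).1 e) x hj h0

end Pool.Agent.P.MP_dba3d2_lc


end

section

/-! Step G_PROG of the stability project. -/

namespace Pool.Agent.P.MP_dba3d2_lc

open Filter GT

namespace GprogA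

/-- points at the same height on two overlapping geodesics are close -/
theorem close {Γ : HG} {a : Amb} {Z V P P' : MM Γ a} {T : a.K} (h1 : ln P + ds P Z = ln Z)
    (h2 : ln P ≤ T) (h3 : T ≤ ln P + 1) (h4 : ln P' + ds P' V = ln V) (h5 : ln P' ≤ T)
    (h6 : T ≤ ln P' + 1) (h7 : 2 * T ≤ ln Z + ln V - ds Z V) : ¬ Big (ds P P') := by
  have k1 := ds_four P V Z 1
  have k2 := ds_four P P' V 1
  simp only [ds_one_right] at k1 k2
  have k3 : ds P V ≤ ln V - ln P + 2 * (Γ.δ : a.K) := by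
    rw [ds_comm V Z] at k1
    rcases max_choice (ds P Z + ln V) (ln P + ds Z V) with e | e <;> rw [e] at k1 <;> linarith
  have k0 : (0 : a.K) ≤ (Γ.δ : a.K) := Nat.cast_nonneg _
  refine not_big_iff.2 ⟨2 + 4 * Γ.δ, ?_⟩
  push_cast
  rcases max_choice (ds P V + ln P') (ln P + ds P' V) with e | e <;> rw [e] at k2 <;> linarith

end GprogA

theorem p_G_PROG :
    S_G_PROG := by
  rintro Γ a i y hB _ ⟨v, rfl⟩ - hbig hsim hov
  rw [Ovl, ← map_inv] at hov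
  rw [Ext.ln_hom, Ext.big_iff] at hbig
  rw [Ext.ln_hom, Ext.ln_hom] at hsim
  obtain ⟨l, hy, -⟩ := cp_scale' i hsim.symm'
  have hl : Big ((a.dg U0).kh l) := hbig.of_ls hy.1
  have hν : Ls ((cp a i).kh ((a.dg U0).kh l)) (ln ((cp a i).hom Γ y)) := by
    rw [Ext.ln_hom, Ext.ls_iff]; exact hy.2
  obtain ⟨n, hn⟩ := hν.trans' hov
  have hν0 : 0 < (cp a i).kh ((a.dg U0).kh l) := (kh_pos _).2 hl.pos
  have hn0 : n ≠ 0 := by
    rintro rfl
    rw [Nat.cast_zero, zero_mul] at hn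
    exact absurd hn (not_le.2 hν0)
  obtain ⟨t, ht⟩ : ∃ t : a.K, l = (2 * n : ℕ) * t :=
    ⟨l / (2 * n : ℕ), (mul_div_cancel₀ _ (Nat.cast_ne_zero.2 (by omega))).symm⟩
  have ht1 : (a.dg U0).kh l = (2 * n : ℕ) * (a.dg U0).kh t := by rw [ht, map_mul, map_natCast]
  have hn1 : (0 : (a.pow U0).K) < (2 * n : ℕ) := Nat.cast_pos.2 (by omega)
  have ht0 : 0 ≤ (a.dg U0).kh t := by
    have := hl.pos
    rw [ht1] at this
    exact (pos_of_mul_pos_right this hn1.le).le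
  have hG : 2 * (cp a i).kh ((a.dg U0).kh t) ≤ ln ((cp a i).hom Γ y⁻¹) +
      ln ((cp a (!i)).hom Γ v) - ds ((cp a i).hom Γ y⁻¹) ((cp a (!i)).hom Γ v) := by
    rw [ht1, map_mul, map_natCast] at hn
    refine le_of_mul_le_mul_left (le_of_eq_of_le ?_ hn) (Nat.cast_pos.2 (Nat.pos_of_ne_zero hn0))
    push_cast
    ring
  have hE : (cp a (!i)).kh ((a.dg U0).kh t) = (cp a i).kh ((a.dg U0).kh t) :=
    (cp_dg_kh _ t).trans (cp_dg_kh _ t).symm
  have b1 : (a.dg U0).kh t ≤ ds 1 y⁻¹ := by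
    rw [ds_one_left, ← (cp a i).kh_le, ← Ext.ln_hom]
    have := ds_tri 1 ((cp a i).hom Γ y⁻¹) ((cp a (!i)).hom Γ v)
    simp only [ds_one_left] at this
    linarith
  have b2 : (a.dg U0).kh t ≤ ds 1 v := by
    rw [ds_one_left, ← (cp a (!i)).kh_le, ← Ext.ln_hom, hE]
    have := ds_tri 1 ((cp a (!i)).hom Γ v) ((cp a i).hom Γ y⁻¹)
    rw [ds_comm ((cp a (!i)).hom Γ v)] at this
    simp only [ds_one_left] at this
    linarith
  obtain ⟨p, p1, p2, p3⟩ := exists_point 1 y⁻¹ _ ht0 b1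
  obtain ⟨q, q1, q2, q3⟩ := exists_point 1 v _ ht0 b2
  simp only [ds_one_left] at p1 p2 p3 q1 q2 q3
  have hc : ¬ Big (ds ((cp a i).hom Γ p) ((cp a (!i)).hom Γ q)) := by
    refine GprogA.close (T := (cp a i).kh ((a.dg U0).kh t)) ?_ ?_ ?_ ?_ ?_ ?_ hG
    · rw [Ext.ln_hom, Ext.ds_hom, Ext.ln_hom, ← map_add, p1]
    · rw [Ext.ln_hom, Ext.kh_le]; exact p2
    · rw [Ext.ln_hom, ← map_one (cp a i).kh, ← map_add, Ext.kh_le]; exact p3
    · rw [Ext.ln_hom, Ext.ds_hom, Ext.ln_hom, ← map_add, q1]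
    · rw [Ext.ln_hom, ← hE, Ext.kh_le]; exact q2
    · rw [Ext.ln_hom, ← hE, ← map_one (cp a (!i)).kh, ← map_add, Ext.kh_le]; exact q3
  obtain ⟨g, hg⟩ := mem_std_iff.2 hc
  have h1 : (cp a i).hom Γ (p * cst Γ _ g) = (cp a (!i)).hom Γ q := by
    rw [map_mul, Ext.hom_cst, hg, mul_inv_cancel_left]
  have h2 : p ∈ dM Γ a :=
    (mul_mem_cancel_right (std_le_range (a.dg U0) ⟨g, rfl⟩)).1 (cp_int' i h1)
  have hz : Big (ln y⁻¹) := by rwa [ln_inv]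
  have h3 := hB hz p h2
  rw [show ln y⁻¹ - ds p y⁻¹ = ln p by linarith] at h3
  refine h3.not_ls hz.pos (Ls.of_le_add (by rw [ln_inv]; exact hy.1) (hz.ll_nat (2 * n)) hz.pos
    (2 * n) ?_)
  rw [ht1]
  nlinarith

end Pool.Agent.P.MP_dba3d2_lc


end

section

/-! Step G_PROJ of the stability project. -/

namespace Pool.Agent.P.MP_dba3d2_lc

open Filter

namespace G_proj

variable {Γ : HG} {a b : Amb} {μ : a.K} {p x y z : MM Γ a}

theorem lds (hx : Ls (ln x) μ) (hy : Ls (ln y) μ) : Ls (ds x y) μ :=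
  Ls.mono_left (ds_le_ln x y) (hx.add hy)

theorem fds (hx : Ls (ln x) μ) (hy : Ls (ln y) μ) : Ls |ds x y| μ :=
  ls_abs (ds_nonneg _ _) (lds hx hy)

theorem r_tri (hμ : 0 < μ) (hx : Ls (ln x) μ) (hy : Ls (ln y) μ) (hz : Ls (ln z) μ) :
    rl μ (ds x z) ≤ rl μ (ds x y) + rl μ (ds y z) := by
  rw [← rl_add hμ (fds hx hy) (fds hy hz)]
  exact rl_mono hμ (fds hx hz) (ls_abs_add (fds hx hy) (fds hy hz)) (ds_tri x y z)

theorem r_on (hμ : 0 < μ) (hp : Ls (ln p) μ) (hx : Ls (ln x) μ) (hy : Ls (ln y) μ)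
    (h : On μ p x y) : rl μ (ds x p) + rl μ (ds p y) ≤ rl μ (ds x y) := by
  have k := (rl_nonpos_iff hμ (ls_abs_sub (ls_abs_add (fds hx hp) (fds hp hy)) (fds hx hy))).2 h
  rw [rl_sub hμ (ls_abs_add (fds hx hp) (fds hp hy)) (fds hx hy),
    rl_add hμ (fds hx hp) (fds hp hy)] at k
  linarith

theorem fin_of_ds (hx : Ls (ln x) μ) (h : Ls (ds x p) μ) : Ls (ln p) μ := by
  have k := ds_tri 1 x p
  rw [ds_one_left, ds_one_left] at k
  exact Ls.mono_left k (hx.add h)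

theorem fin_of_on (hx : Ls (ln x) μ) (hy : Ls (ln y) μ) (h : On μ p x y) : Ls (ln p) μ :=
  fin_of_ds hx (h.ls_left (lds hx hy))

theorem ls_real (hμ : 0 < μ) (r : ℝ) : Ls ((r : a.K) * μ) μ := by
  obtain ⟨n, hn⟩ := exists_nat_ge r
  refine ⟨n, mul_le_mul_of_nonneg_right ?_ hμ.le⟩
  have k := (cR a).monotone' hn
  change cR a r ≤ cR a n at k
  rwa [map_natCast, cR_apply] at k

theorem r_le_real (hμ : 0 < μ) {t : a.K} (h0 : 0 ≤ t) {r : ℝ} (h : t ≤ (r : a.K) * μ) :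
    rl μ t ≤ r :=
  (rl_mono hμ (ls_abs h0 (Ls.mono_left h (ls_real hμ r)))
    (ls_abs (h0.trans h) (ls_real hμ r)) h).trans_eq (rl_real hμ r)

theorem key (hB : S_B_APX) (E : Ext a b) {l : a.K} {z : MM Γ b} (hl : Big l)
    (hz : Ls (ln z) (E.kh l)) {ρ : ℝ}
    (hρ : ∀ t : MM Γ a, Ls (ln t) l → ρ ≤ rl (E.kh l) (ds (E.hom Γ t) z))
    {s s' : MM Γ a} (hs : Ls (ln s) l) (hs' : Ls (ln s') l) :
    ∃ m, Ls (ln m) (E.kh l) ∧ On (E.kh l) m (E.hom Γ s) z ∧ On (E.kh l) m (E.hom Γ s') z ∧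
      ρ ≤ rl (E.kh l) (ds m z) := by
  have hμ : Big (E.kh l) := E.big_iff.2 hl
  have ad : ∀ t : MM Γ a, Ls (ln t) l → Ls (ln (E.hom Γ t)) (E.kh l) := fun t ht => by
    rw [E.ln_hom]; exact E.ls_iff.2 ht
  obtain ⟨m, h1, h2⟩ := exists_median (E.hom Γ s) (E.hom Γ s') z
  obtain ⟨h2, h3⟩ := h2 _ hμ
  have hm := fin_of_on (ad s hs) hz h2
  obtain ⟨m0, k1, k2⟩ := hB Γ a b E l s s' m hl (lds hs hs') (On.of_eq hμ.pos.le h1)
  have hm0 := fin_of_on hs hs' k1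
  refine ⟨m, hm, h2, h3, (hρ m0 hm0).trans ?_⟩
  refine rl_le_add hμ.pos (fds (ad m0 hm0) hz) (fds hm hz) (ds_nonneg m (E.hom Γ m0)) k2 ?_
  linarith [ds_tri (E.hom Γ m0) m z, ds_comm m (E.hom Γ m0)]

end G_proj

open G_proj in
theorem p_G_PROJ (hB_APX : S_B_APX) :
    S_G_PROJ := by
  intro Γ a b E l z hl hz
  have hμ : Big (E.kh l) := E.big_iff.2 hl
  have ad : ∀ t : MM Γ a, Ls (ln t) l → Ls (ln (E.hom Γ t)) (E.kh l) := fun t ht => by
    rw [E.ln_hom]; exact E.ls_iff.2 ht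
  have h1 : Ls (ln (1 : MM Γ a)) l := by rw [ln_one]; exact Ls.zero hl.pos.le
  set A : Set ℝ := {r | ∃ t : MM Γ a, Ls (ln t) l ∧ r = rl (E.kh l) (ds (E.hom Γ t) z)} with hA
  have hne : A.Nonempty := ⟨_, 1, h1, rfl⟩
  have hbd : BddBelow A := ⟨0, by
    rintro _ ⟨t, -, rfl⟩
    exact rl_nonneg hμ.pos (ds_nonneg _ _)⟩
  have hρ : ∀ t : MM Γ a, Ls (ln t) l → sInf A ≤ rl (E.kh l) (ds (E.hom Γ t) z) :=
    fun t ht => csInf_le hbd ⟨t, ht, rfl⟩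
  have hseq : ∀ k : ℕ, ∃ t : MM Γ a, Ls (ln t) l ∧
      rl (E.kh l) (ds (E.hom Γ t) z) < sInf A + 1 / ((k : ℝ) + 1) := fun k => by
    obtain ⟨_, ⟨t, ht, rfl⟩, h⟩ := exists_lt_of_csInf_lt hne
      (lt_add_of_pos_right (sInf A) (Nat.one_div_pos_of_nat (n := k)))
    exact ⟨t, ht, h⟩
  choose x hx hx' using hseq
  obtain ⟨s, hs⟩ := GT.sat_ball x (fun k => ((2 * (1 / ((k : ℝ) + 1)) : ℝ) : a.K) * l) fun K =>
    ⟨x K, fun k hk => by
      refine le_of_rl_lt hl.pos (fds (hx K) (hx k)) ?_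
      obtain ⟨m, hm, m1, m2, m3⟩ := key hB_APX E hl hz hρ (hx K) (hx k)
      have e1 := r_on hμ.pos hm (ad _ (hx K)) hz m1
      have e2 := r_on hμ.pos hm (ad _ (hx k)) hz m2
      have e3 := r_tri hμ.pos (ad _ (hx K)) hm (ad _ (hx k))
      rw [E.ds_hom, E.rl_kh, ds_comm m] at e3
      have e4 := Nat.one_div_le_one_div (α := ℝ) hk
      linarith [hx' K, hx' k]⟩
  have hsa : Ls (ln s) l :=
    fin_of_ds (hx 0) (by rw [ds_comm]; exact Ls.mono_left (hs 0) (ls_real hl.pos _))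
  have hmin : rl (E.kh l) (ds (E.hom Γ s) z) ≤ sInf A := by
    refine le_of_forall_pos_le_add fun ε hε => ?_
    obtain ⟨k, hk⟩ := exists_nat_one_div_lt (show 0 < ε / 3 by positivity)
    have e1 := r_tri hμ.pos (ad _ hsa) (ad _ (hx k)) hz
    rw [E.ds_hom s, E.rl_kh] at e1
    have e2 := r_le_real hl.pos (ds_nonneg _ _) (hs k)
    linarith [hx' k]
  refine ⟨s, ?_, fun s' => ?_⟩
  · obtain ⟨m, hm, m1, m2, m3⟩ := key hB_APX E hl hz hρ h1 hsa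
    rw [map_one] at m1
    have e := r_on hμ.pos hm (ad _ hsa) hz m2
    have k := (rl_nonpos_iff hμ.pos (fds (ad _ hsa) hm)).1 (by linarith)
    rw [ds_comm] at k
    refine m1.congr k ?_ ?_ <;> rw [ds_self] <;> exact Ll.zero hμ.pos.le
  · by_cases h : Ls (ln s') l
    · refine (rl_nonpos_iff hμ.pos (ls_abs_sub (fds (ad _ hsa) hz) (fds (ad _ h) hz))).1 ?_
      rw [rl_sub hμ.pos (fds (ad _ hsa) hz) (fds (ad _ h) hz)]
      linarith [hρ s' h]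
    · refine Ll.of_nonpos (sub_nonpos.2 (not_lt.1 fun c => h ?_)) hμ.pos.le
      rw [← E.ls_iff, ← E.ln_hom]
      rw [ds_comm (E.hom Γ s')] at c
      exact fin_of_ds hz (Ls.mono_left c.le (lds (ad _ hsa) hz))

end Pool.Agent.P.MP_dba3d2_lc


end

section

/-! Step G_LEAST of the stability project. -/

namespace Pool.Agent.P.MP_dba3d2_lc

open Filter GT

theorem p_G_LEAST :
    S_G_LEAST := by
  intro Γ a b E ι D C hC hpos hold hlip hds hcof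
  by_contra hne
  have hn : ∀ x, ∃ y, Ll (D y) (D x) := fun x => by
    by_contra e
    exact hne ⟨x, fun y => by
      by_contra e'
      exact e ⟨y, (not_ls_iff (hpos y).le (hpos x)).1 e'⟩⟩
  obtain ⟨y0, hy0, -⟩ := hcof 1
  obtain ⟨c, rfl⟩ := hC.exists_eq_range ⟨y0, hy0⟩
  have hn' : ∀ (x : ι → MM Γ a) (k : ℕ), ∃ y, Ll (D y) (D x) ∧ D y ≤ D (c k) := fun x k => by
    obtain ⟨y, hy⟩ := hn x
    rcases le_total (D y) (D (c k)) with e | e
    · exact ⟨y, hy, e⟩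
    · exact ⟨c k, Ll.mono_left e hy, le_rfl⟩
  choose nx hnx1 hnx2 using hn'
  obtain ⟨x, h1, h2⟩ : ∃ x : ℕ → ι → MM Γ a, (∀ k, Ll (D (x (k + 1))) (D (x k))) ∧
      ∀ k, D (x k) ≤ D (c k) := by
    refine ⟨fun k => Nat.rec (c 0) (fun k y => nx y (k + 1)) k, fun k => hnx1 _ _, fun k => ?_⟩
    cases k with
    | zero => exact le_rfl
    | succ k => exact hnx2 _ _
  have h3 : ∀ k K, k ≤ K → D (x K) ≤ D (x k) := fun k K h =>
    antitone_nat_of_succ_le (f := fun k => D (x k)) (fun k => by simpa using h1 k 1) h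
  have h4 : ∀ i k, ∃ r : a.K, Ls (E.kh r) (D (x k)) ∧ ∀ K, k ≤ K → ds (x K i) (x k i) ≤ r := by
    intro i k
    obtain ⟨l, ⟨m, hm⟩, hb⟩ := hold (x k)
    obtain ⟨n, hn⟩ := hds (x (k + 1)) (x k) i
    have e : E.kh ((((2 * n + 1) * m : ℕ) : a.K) * l) = (((2 * n + 1) * m : ℕ) : b.K) * E.kh l := by
      rw [map_mul, map_natCast]
    have p0 := hpos (x k)
    have n0 : (0 : b.K) ≤ n := n.cast_nonneg
    have g1 : (2 * n + 1) * D (x k) ≤ (((2 * n + 1) * m : ℕ) : b.K) * E.kh l := by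
      push_cast
      rw [mul_assoc]
      exact mul_le_mul_of_nonneg_left hm (by linarith)
    have g2 : (n : b.K) * (D (x (k + 1)) + D (x k)) ≤ n * (2 * D (x k)) :=
      mul_le_mul_of_nonneg_left (by linarith [h3 k (k + 1) k.le_succ]) n0
    refine ⟨_, e ▸ hb.nat_mul _, fun K hK => E.kh_le.1 ?_⟩
    rw [e]
    rcases hK.eq_or_lt with rfl | hK
    · rw [ds, inv_mul_cancel, ln_one, map_zero]
      exact le_trans (mul_nonneg (by linarith) p0.le) g1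
    · have g3 : Ll (E.kh (ds (x K i) (x (k + 1) i))) (D (x k)) :=
        Ll.ls_left (hds _ _ i) (Ll.add (Ll.mono_left (h3 _ _ hK) (h1 k)) (h1 k))
      have g4 := g3 1
      have g5 := E.kh_le.2 (ds_tri (x K i) (x (k + 1) i) (x k i))
      rw [map_add] at g5
      rw [Nat.cast_one, one_mul] at g4
      linarith
  choose r hr1 hr2 using h4
  have h5 : ∀ i, ∃ v, ∀ k, ds v (x k i) ≤ r i k := fun i =>
    sat_ball (fun k => x k i) (r i) fun K => ⟨x K i, fun k hk => hr2 i k K hk⟩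
  choose v hv using h5
  refine hne ⟨v, fun y => ?_⟩
  obtain ⟨_, ⟨k, rfl⟩, hk⟩ := hcof y
  exact ((hlip v (x k) fun i => Ls.mono_left (E.kh_le.2 (hv i k)) (hr1 i k)).mono_right
    (h2 k)).trans' hk

end Pool.Agent.P.MP_dba3d2_lc


end

section

/-! Step G_BEST1 of the stability project. -/

namespace Pool.Agent.P.MP_dba3d2_lc

open Filter

open GT in
theorem p_G_BEST1 (hG_PROJ : S_G_PROJ) (hG_LEAST : S_G_LEAST) :
    S_G_BEST1 := by
  intro Γ a z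
  by_cases hz : z ∈ dM Γ a
  · refine ⟨z, hz, fun h => ?_⟩
    rw [inv_mul_cancel, ln_one] at h
    exact absurd h.pos (lt_irrefl _)
  set E := a.dg U0 with hE
  have hnm : ∀ s : MM Γ a, (E.hom Γ s)⁻¹ * z ∉ dM Γ a := fun s h =>
    hz (by simpa using mul_mem (⟨s, rfl⟩ : E.hom Γ s ∈ dM Γ a) h)
  have hbig : ∀ s : MM Γ a, Big (ds (E.hom Γ s) z) := fun s => big_of_not_mem E (hnm s)
  by_cases hold : ∀ s : MM Γ a, Old E (ds (E.hom Γ s) z)
  swap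
  · obtain ⟨s, hs⟩ := not_forall.1 hold
    exact ⟨_, ⟨s, rfl⟩, bst_of_not_old E hs⟩
  obtain ⟨f, hf⟩ := mk'_surjective U0 z
  obtain ⟨x0, hx0⟩ := hG_LEAST Γ a _ E Unit (fun x => ds (E.hom Γ (x ())) z)
    (Set.range fun k _ => f k) (Set.countable_range _) (fun x => (hbig _).pos) (fun x => hold _)
    (fun x y h => by
      have h1 := h ()
      rw [← E.ds_hom] at h1
      exact Ls.mono_left (ds_tri _ (E.hom Γ (y ())) _) (h1.add (Ls.refl' _)))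
    (fun x y i => by
      rw [← E.ds_hom]
      exact Ls.of_le ((ds_tri _ z _).trans_eq (by rw [ds_comm z])))
    (fun x => by
      obtain ⟨l, hl⟩ := hold (x ())
      have h1 := hl.1
      rw [← hf, ← mk'_hom, ds_mk', ls_mk'_kh] at h1
      obtain ⟨n, hn⟩ := h1
      obtain ⟨k, hk⟩ := hn.exists
      refine ⟨_, ⟨k, rfl⟩, Ls.mono_left (ds_tri _ (E.hom Γ (x ())) _) (Ls.add ?_ (Ls.refl' _))⟩
      rw [E.ds_hom, ds_comm]
      exact (E.ls_iff.2 ⟨n, hk⟩).trans' hl.2)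
  obtain ⟨l, hl⟩ := hold (x0 ())
  have hlb : Big (E.kh l) := (hbig _).of_ls hl.1
  obtain ⟨s1, h1, h2⟩ := hG_PROJ Γ a _ E l ((E.hom Γ (x0 ()))⁻¹ * z) (E.big_iff.1 hlb) hl.1
  have e : ∀ s : MM Γ a, ds (E.hom Γ s) ((E.hom Γ (x0 ()))⁻¹ * z) = ds (E.hom Γ (x0 () * s)) z :=
    fun s => by rw [map_mul, ← ds_mul_left (E.hom Γ (x0 ())), mul_inv_cancel_left]
  refine ⟨E.hom Γ (x0 () * s1), ⟨_, rfl⟩, fun hb => ?_⟩
  rintro _ ⟨m, rfl⟩
  have h3 : Ls (E.kh l) (ds (E.hom Γ (x0 () * s1)) z) := hl.2.trans' (hx0 fun _ => x0 () * s1)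
  have h4 := (h2 (s1 * m)).ls_right h3 (ds_nonneg _ _)
  rw [e, e, ← mul_assoc, map_mul (E.hom Γ) (x0 () * s1) m] at h4
  have e2 : ds (E.hom Γ m) ((E.hom Γ (x0 () * s1))⁻¹ * z) =
      ds (E.hom Γ (x0 () * s1) * E.hom Γ m) z := by
    rw [← ds_mul_left (E.hom Γ (x0 () * s1)), mul_inv_cancel_left]
  rw [e2]
  exact h4

end Pool.Agent.P.MP_dba3d2_lc


end

section

/-! Step G_COH of the stability project. -/

namespace Pool.Agent.P.MP_dba3d2_lc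

open Filter

theorem p_G_COH (hELEM : S_ELEM) (hPERC : S_PERC) (hROOT : S_ROOT) :
    S_G_COH := by
  intro Γ a H hH
  obtain ⟨-, -, -, r4, -, r6⟩ := hROOT Γ a H hH
  refine ⟨fun y hy hE u hu u' hu' v hv v' hv' => ?_, fun c hc hcH s hs t ht => ?_,
    fun c d s t hc hd hne => ?_⟩
  · have n1 := ds_nonneg u (y * u')
    have n2 := ds_nonneg v (y * v')
    have t1 := ds_tri (y * u') u (y * v')
    have t2 := ds_tri u v (y * v')
    have t3 := ds_tri u (y * u') v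
    have t4 := ds_tri (y * u') (y * v') v
    rw [ds_mul_left] at t1 t4
    rw [ds_comm (y * u') u] at t1
    rw [ds_comm (y * v') v] at t4
    have key : Ls (ds u v) (ds u (y * u') + ds v (y * v')) := by
      refine ls_of_scale ?_ fun hμ hT => ?_
      · have : 1 ≤ ds u (y * u') := one_le_ln fun e => hy (by
          rw [← mul_inv_eq_iff_eq_mul.2 (inv_mul_eq_one.1 e)]
          exact H.mul_mem hu (H.inv_mem hu'))
        linarith
      have a1 : Ll (ds u (y * u')) (ds u v) := hT.mono_left (by linarith)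
      have a2 : Ll (ds v (y * v')) (ds u v) := hT.mono_left (by linarith)
      have a3 : Ll (ds (y * u') u) (ds u v) := by rwa [ds_comm]
      have a4 : Ll (ds (y * v') v) (ds u v) := by rwa [ds_comm]
      have b1 : Ls (ds u' v') (ds u v) :=
        (hT.ls.add (Ls.refl' _)).mono_left (by linarith)
      have b2 : Ls (ds u v) (ds u' v') :=
        (Ls.refl' _).of_le_add hT hμ.pos 1 (by push_cast; linarith)
      by_cases hp : Per (ds u v) u v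
      · obtain ⟨c, c1, c2, c3⟩ := hH.g20' hμ hu hv (Ls.refl' _) (Ls.refl' _)
          (on_left hμ.pos.le _ _) (on_right hμ.pos.le _ _) hp
        obtain ⟨c', d1, d2, d3⟩ := hH.g20' hμ hu' hv' b1 b2 (on_left hμ.pos.le _ _)
          (on_right hμ.pos.le _ _) ((per_mul_iff y).1 (hp.congr a1 a2))
        obtain ⟨h, h1, h2⟩ := r6 c c1 c' d1 c2.1 d2.1 y (Ep_eq_of_stab hELEM hPERC hμ (Ls.refl' _)
          (d2.conj y).1 c2.1 (((stab_conj y).2 d3).congr a3 a4) c3)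
        exact hE ⟨1, H.one_mem, h, h1, c, c1, c2, _, h2, by simp⟩
      · exact hy (hH.g2' hμ hu hv hu' hv' (Ls.refl' _) b1 ⟨Ls.refl' _, on_left hμ.pos.le _ _,
          on_right hμ.pos.le _ _, On.of_near a3 _, (On.of_near a4 _).symm⟩ hp)
    exact ⟨key, (key.add (Ls.refl' _)).mono_left (by linarith)⟩
  · have n1 := ds_nonneg s (c * s)
    have n2 := ds_nonneg t (c * t)
    refine ls_of_scale (by linarith [one_le_md' hc.1, md_le_ds c s]) fun hμ hT => ?_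
    have a1 : Stab (ds s t) s t c := ⟨hT.mono_left (by linarith), hT.mono_left (by linarith)⟩
    obtain ⟨c', d1, d2, d3⟩ := hH.g20' hμ hs ht (Ls.refl' _) (Ls.refl' _)
      (on_left hμ.pos.le _ _) (on_right hμ.pos.le _ _) ⟨c, hc.1, a1⟩
    exact hcH (r4 c' d1 d2.1 c hc (Ep_eq_of_stab hELEM hPERC hμ (Ls.refl' _) hc.1 d2.1 a1 d3))
  · have n1 := ds_nonneg s (c * s)
    have n2 := ds_nonneg t (c * t)
    have n3 := ds_nonneg s (d * s)
    have n4 := ds_nonneg t (d * t)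
    refine ls_of_scale (by linarith [one_le_md' hc, md_le_ds c s]) fun hμ hT => ?_
    exact hne (Ep_eq_of_stab hELEM hPERC hμ (Ls.refl' _) hc hd
      ⟨hT.mono_left (by linarith), hT.mono_left (by linarith)⟩
      ⟨hT.mono_left (by linarith), hT.mono_left (by linarith)⟩)

end Pool.Agent.P.MP_dba3d2_lc


end

section

/-! Step G_COIN of the stability project. -/

namespace Pool.Agent.P.MP_dba3d2_lc

open Filter GT

theorem p_G_COIN (hTORS : S_TORS) (hELEM : S_ELEM) (hCVX : S_CVX) (hEXTGC : S_EXTGC) (hROOT : S_ROOT) (hG_COH : S_G_COH) :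
    S_G_COIN := by
  intro Γ a y hy hE
  obtain ⟨y, rfl⟩ := mk'_surjective U0 y
  choose t ht using fun d1 d2 : MM Γ a => exists_min_disp d1 d2
  have : Countable (FreeGroup ℕ) := FreeGroup.toWord_injective.countable
  refine ⟨Set.range fun z : FreeGroup ℕ × FreeGroup ℕ × ℕ =>
    (t (FreeGroup.lift y z.1) (FreeGroup.lift y z.2.1),
      (y z.2.2)⁻¹ * t (FreeGroup.lift y z.1) (FreeGroup.lift y z.2.1)), Set.countable_range _,
    fun u u' ⟨l, hl⟩ => ?_⟩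
  have hM := (gc_range (Γ := Γ) (a.dg U0) hCVX hEXTGC).toGC0
  have l0 : 0 < l := by
    refine (kh_pos (a.dg U0)).1 (hl.1.pos (one_pos.trans_le (one_le_ln fun e => hy ?_)))
    rw [inv_mul_eq_one, ← mul_inv_eq_iff_eq_mul] at e
    exact e ▸ mul_mem ⟨u, rfl⟩ (inv_mem ⟨u', rfl⟩)
  have h1 := hl.1
  rw [← mk'_hom, ← mk'_hom, ← mk'_mul, ds_mk', ls_mk'_kh] at h1
  obtain ⟨n, hn⟩ := h1
  obtain ⟨i0, hi0⟩ := hn.exists
  have gen : ∀ i, ds u (y i * u') ≤ n * l → ds u (y i * (y i0)⁻¹ * u) ≤ 2 * (n * l) := fun i hi => by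
    have e : ds (y i * u') (y i * (y i0)⁻¹ * u) = ds u (y i0 * u') := by
      rw [mul_assoc, ds_mul_left, ← ds_mul_left (y i0), mul_inv_cancel_left, ds_comm]
    linarith [ds_tri u (y i * u') (y i * (y i0)⁻¹ * u)]
  let G := Subgroup.closure {g | ∃ i, ds u (y i * u') ≤ n * l ∧ g = y i * (y i0)⁻¹}
  have mG : ∀ i, ds u (y i * u') ≤ n * l → y i * (y i0)⁻¹ ∈ G := fun i hi =>
    Subgroup.subset_closure ⟨i, hi, rfl⟩
  have GS : G ≤ (FreeGroup.lift y).range := (Subgroup.closure_le _).2 (by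
    rintro _ ⟨i, -, rfl⟩
    exact mul_mem ⟨.of i, FreeGroup.lift_apply_of⟩ (inv_mem ⟨.of i0, FreeGroup.lift_apply_of⟩))
  have Gd : ∀ g ∈ G, Ls (ds u (g * u)) l := fun g hg => by
    induction hg using Subgroup.closure_induction with
    | mem g hg =>
      obtain ⟨i, hi, rfl⟩ := hg
      exact Ls.mono_left (gen i hi) ((Ls.refl' l).nat_mul n).two
    | one => simpa using Ls.zero l0.le
    | mul g h _ _ k k' => exact Ls.mono_left (disp_mul g h u) (k.add k')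
    | inv g _ k => rwa [disp_inv]
  obtain ⟨d1, m1, i1⟩ : ∃ d ∈ G, ¬ IsOfFinOrder d := by
    by_contra e
    have := (hTORS Γ a G fun k hk => by_contra fun e' => e ⟨k, hk, e'⟩).1
    exact hy (mem_dg_of_finite U0 _ ((Set.toFinite (G : Set (MM Γ a))).image (· * y i0)) y
      (hn.mono fun i hi => ⟨_, mG i hi, inv_mul_cancel_right _ _⟩))
  obtain ⟨i, hi, ni⟩ : ∃ i, ds u (y i * u') ≤ n * l ∧ ¬ InE d1 (y i * (y i0)⁻¹) := by
    by_contra e
    have k := (inE_mk' U0 (fun _ => d1) fun i => y i * (y i0)⁻¹).2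
      (hn.mono fun i hi => by_contra fun e' => e ⟨i, hi, e'⟩)
    rw [mk'_mul, mk'_hom, mk'_hom] at k
    have j1 := mt (a.dg U0).finOrder_iff.1 i1
    obtain ⟨r1, -, -, -, r5, -⟩ := hROOT Γ _ _ hM
    obtain ⟨c, mc, pc, ec⟩ := r1 _ ⟨d1, rfl⟩ j1
    obtain ⟨g', mg, eg⟩ := r5 _ ⟨d1, rfl⟩ j1 _ k
    exact hE ⟨1, one_mem _, _, mul_mem mg ⟨y i0, rfl⟩, c, mc, pc, _, ec ▸ eg, by
      rw [map_inv]; group⟩
  set g := y i * (y i0)⁻¹
  have m2 : g * d1 * g⁻¹ ∈ G := mul_mem (mul_mem (mG i hi) m1) (inv_mem (mG i hi))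
  have ne : Ep d1 ≠ Ep (g * d1 * g⁻¹) := fun e =>
    ni (((hELEM Γ a d1 i1).2.2.2.1 g).2 e.symm)
  obtain ⟨w1, e1⟩ := GS m1
  obtain ⟨w2, e2⟩ := GS m2
  refine ⟨_, ⟨(w1, w2, i0), rfl⟩, Ls.trans' ?_ hl.2⟩
  simp only [e1, e2]
  set s := t d1 (g * d1 * g⁻¹)
  have b := (Gd _ m1).add (Gd _ m2)
  have c := ((hG_COH Γ a ⊤ (gc_top hCVX).toGC0).2.2 _ _ s u i1 (mt (finOrder_conj g d1).1 i1)
    ne).trans' ((Ls.mono_left ((ht _ _).1 u) b).add b)
  obtain ⟨m, hm⟩ := c.two.add ((Ls.refl' l).nat_mul n).two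
  rw [← mk'_hom, ← mk'_hom, ← mk'_mul, ds_mk', ls_mk'_kh]
  refine ⟨m, hn.mono fun j hj => ?_⟩
  rw [← mul_assoc]
  linarith [disp_le (y j * (y i0)⁻¹) s u, gen j hj]

end Pool.Agent.P.MP_dba3d2_lc


end

section

/-! Step G_BEST2 of the stability project. -/

namespace Pool.Agent.P.MP_dba3d2_lc

open Filter

namespace G_best2

variable {Γ : HG} {a b : Amb}

theorem two (hP : S_G_PROJ) (E : Ext a b) (y0 : MM Γ b) (l : a.K) (hl : Big l)
    (h1 : Ls (ln y0) (E.kh l)) (h2 : ∀ s s', Ls (E.kh l) (ln (E.hom Γ s * y0 * E.hom Γ s'))) :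
    ∃ s s', Bst (E.hom Γ).range (E.hom Γ s * y0 * E.hom Γ s')⁻¹ ∧
      Bst (E.hom Γ).range (E.hom Γ s * y0 * E.hom Γ s') := by
  obtain ⟨s1, -, m1⟩ := hP Γ a b E l y0 hl h1
  set y1 := (E.hom Γ s1)⁻¹ * y0 with hy1
  have e1 : ∀ t, ds (E.hom Γ (s1 * t)) y0 = ds (E.hom Γ t) y1 := fun t => by
    rw [ds, ds, hy1, map_mul, mul_inv_rev, mul_assoc]
  have e0 : ds (E.hom Γ s1) y0 = ln y1 := rfl
  have k1 : Ls (ln y1⁻¹) (E.kh l) := by
    have := (m1 1).ls.add h1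
    rwa [map_one, ds_one_left, e0, sub_add_cancel, ← ln_inv] at this
  obtain ⟨s2, o2, m2⟩ := hP Γ a b E l y1⁻¹ hl k1
  have e2 : ∀ t, ds (E.hom Γ (s2 * t)) y1⁻¹ = ds (E.hom Γ t) (y1 * E.hom Γ s2)⁻¹ := fun t => by
    rw [ds, ds, map_mul, mul_inv_rev, mul_inv_rev y1, mul_assoc]
  have e3 : ds (E.hom Γ s2) y1⁻¹ = ln (y1 * E.hom Γ s2) := by
    rw [ds, ← mul_inv_rev, ln_inv]
  have k2 := h2 s1⁻¹ s2
  rw [map_inv, ← hy1] at k2
  refine ⟨s1⁻¹, s2, ?_, ?_⟩ <;> rw [map_inv, ← hy1] <;> rintro - _ ⟨t, rfl⟩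
  · rw [ln_inv, ← e2, ← e3]
    exact (m2 _).ls_right (e3 ▸ k2) (ds_nonneg _ _)
  · have a1 := m1 (s1 * t)
    rw [On, ds_one_left, ds_one_left, e3, ln_inv] at o2
    rw [e0, e1] at a1
    have a2 := ds_tri (E.hom Γ t) (y1 * E.hom Γ s2) y1
    have a3 : ds (y1 * E.hom Γ s2) y1 = ln (E.hom Γ s2) := by
      rw [ds_comm, ds, inv_mul_cancel_left]
    exact ((o2.add a1).mono_left (by linarith)).ls_right k2 (ln_nonneg _)

theorem lip (y u u' v v' : MM Γ b) : ds u (y * u') ≤ ds u v + ds u' v' + ds v (y * v') := by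
  have h1 := ds_tri u v (y * u')
  have h2 := ds_tri v (y * v') (y * u')
  rw [ds_mul_left, ds_comm v'] at h2
  linarith

end G_best2

open G_best2 GT in
theorem p_G_BEST2 (hCVX : S_CVX) (hEXTGC : S_EXTGC) (hG_PROJ : S_G_PROJ) (hG_LEAST : S_G_LEAST) (hG_COH : S_G_COH) (hG_COIN : S_G_COIN) :
    S_G_BEST2 := by
  intro Γ a y hy hE
  set E := a.dg U0 with hEE
  have nm : ∀ u u' : MM Γ a, (E.hom Γ u)⁻¹ * y * E.hom Γ u' ∉ dM Γ a := fun u u' h => hy (by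
    have := mul_mem (mul_mem (show E.hom Γ u ∈ dM Γ a from ⟨u, rfl⟩) h)
      (inv_mem (show E.hom Γ u' ∈ dM Γ a from ⟨u', rfl⟩))
    simpa [mul_assoc] using this)
  by_cases ho : ∀ u u' : MM Γ a, Old E (ds (E.hom Γ u) (y * E.hom Γ u'))
  swap
  · obtain ⟨u, u', h⟩ : ∃ u u' : MM Γ a, ¬ Old E (ds (E.hom Γ u) (y * E.hom Γ u')) := by
      simpa using ho
    rw [ds, ← mul_assoc] at h
    exact ⟨_, inv_mem ⟨u, rfl⟩, _, ⟨u', rfl⟩, bst_of_not_old E (by rwa [ln_inv]),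
      bst_of_not_old E h⟩
  obtain ⟨C, hC, hC'⟩ := hG_COIN Γ a y hy hE
  have coh := (hG_COH Γ _ _ (gc_range E hCVX hEXTGC).toGC0).1 y hy hE
  obtain ⟨x, hx⟩ := hG_LEAST Γ a _ E Bool
    (fun x => ds (E.hom Γ (x false)) (y * E.hom Γ (x true)))
    ((fun v : MM Γ a × MM Γ a => fun i : Bool => cond i v.2 v.1) '' C) (hC.image _)
    (fun x => by
      rw [ds, ← mul_assoc]
      exact (big_of_not_mem E (nm _ _)).pos)
    (fun x => ho _ _)
    (fun x z h => by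
      have h0 := h false
      have h1 := h true
      rw [← E.ds_hom] at h0 h1
      exact ((h0.add h1).add (Ls.refl' _)).mono_left (lip _ _ _ _ _))
    (fun x z i => by
      have := coh _ ⟨x false, rfl⟩ _ ⟨x true, rfl⟩ _ ⟨z false, rfl⟩ _ ⟨z true, rfl⟩
      rw [← E.ds_hom]
      cases i
      · exact this.1
      · exact this.2)
    (fun x => by
      obtain ⟨v, hv, h⟩ := hC' _ _ (ho (x false) (x true))
      exact ⟨_, ⟨v, hv, rfl⟩, h⟩)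
  obtain ⟨l, hl⟩ := ho (x false) (x true)
  rw [ds, ← mul_assoc] at hl
  obtain ⟨s, s', h⟩ := two hG_PROJ E ((E.hom Γ (x false))⁻¹ * y * E.hom Γ (x true)) l
    (E.big_iff.1 ((big_of_not_mem E (nm _ _)).of_ls hl.1)) hl.1 fun s s' => by
      have := hx fun i => cond i (x true * s') (x false * s⁻¹)
      simp only [ds, cond_true, cond_false, map_mul, map_inv, mul_inv_rev, inv_inv,
        ← mul_assoc] at this ⊢
      exact hl.2.trans' this
  refine ⟨E.hom Γ s * (E.hom Γ (x false))⁻¹, mul_mem ⟨s, rfl⟩ (inv_mem ⟨_, rfl⟩),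
    E.hom Γ (x true) * E.hom Γ s', mul_mem ⟨_, rfl⟩ ⟨s', rfl⟩, ?_⟩
  simpa only [mul_assoc] using h

end Pool.Agent.P.MP_dba3d2_lc


end

section

/-! Step G_LE3 of the stability project. -/

namespace Pool.Agent.P.MP_dba3d2_lc

open Filter GT

theorem p_G_LE3 (hCVX : S_CVX) (hEXTGC : S_EXTGC) (hROOT : S_ROOT) (hG_LEAST : S_G_LEAST) (hG_COH : S_G_COH) :
    S_G_LE3 := by
  intro Γ a c hc hn hO
  have hM : GC0 (dM Γ a) := (gc_range (a.dg U0) hCVX hEXTGC).toGC0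
  obtain ⟨f, rfl⟩ := mk'_surjective U0 c
  choose t ht using fun p : ℕ × ℕ => (exists_min_disp (f p.1) (f p.2)).imp fun _ h => h.1
  have hpos : ∀ s : MM Γ (a.pow U0), 0 < ds s (a.mk' U0 f * s) := fun s =>
    one_pos.trans_le ((one_le_md' hc.1).trans (md_le_ds _ s))
  have hlip : ∀ (x y : MM Γ a), Ls ((a.dg U0).kh (ds x y))
      (ds ((a.dg U0).hom Γ y) (a.mk' U0 f * (a.dg U0).hom Γ y)) →
      Ls (ds ((a.dg U0).hom Γ x) (a.mk' U0 f * (a.dg U0).hom Γ x))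
        (ds ((a.dg U0).hom Γ y) (a.mk' U0 f * (a.dg U0).hom Γ y)) := fun x y h =>
    Ls.mono_left (disp_le _ _ ((a.dg U0).hom Γ y))
      (Ls.add (Ls.two (by rwa [Ext.ds_hom])) (Ls.refl' _))
  obtain ⟨x, hx⟩ := hG_LEAST Γ a (a.pow U0) (a.dg U0) Unit
    (fun x => ds ((a.dg U0).hom Γ (x ())) (a.mk' U0 f * (a.dg U0).hom Γ (x ())))
    (Set.range fun p : ℕ × ℕ => fun _ => t p) (Set.countable_range _) (fun x => hpos _)
    (fun x => hO _ ⟨_, rfl⟩) (fun x y h => hlip _ _ (h ()))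
    (fun x y i => by
      rw [← Ext.ds_hom]
      exact (hG_COH Γ _ _ hM).2.1 _ hc hn _ ⟨_, rfl⟩ _ ⟨_, rfl⟩)
    (fun x => by
      obtain ⟨l, h1, h2⟩ := hO _ ⟨x (), rfl⟩
      have h3 := h1
      rw [← mk'_hom, ← mk'_mul, ds_mk', ls_mk'_kh] at h3
      obtain ⟨n, h3⟩ := h3
      have h4 := ((prim_mk' U0 f).1 hc).and h3
      obtain ⟨i, i1, i2⟩ := h4.exists
      have h5 : ¬ ∀ᶠ j in (U0 : Filter ℕ), Ep (f j) = Ep (f i) := fun h => by
        have e := (Ep_mk' U0 f fun _ => f i).2 h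
        rw [mk'_hom] at e
        exact hn ((hROOT Γ _ _ hM).2.2.2.1 _ ⟨f i, rfl⟩ (mt (a.dg U0).finOrder_iff.1 i1.1) _ hc e)
      obtain ⟨j, ⟨j1, j2⟩, j3⟩ := (h4.and (Ultrafilter.eventually_not.2 h5)).exists
      refine ⟨_, ⟨(i, j), rfl⟩, hlip _ _ (Ls.trans' ((a.dg U0).ls_iff.2 ?_) h2)⟩
      refine ((hG_COH Γ a ⊤ (gc_top hCVX).toGC0).2.2 (f i) (f j) _ _ i1.1 j1.1 (Ne.symm j3)).trans'
        ⟨4 * n, ?_⟩
      have h6 := ht (i, j) (x ())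
      push_cast
      linarith)
  refine ⟨_, ⟨x (), rfl⟩, ?_⟩
  rintro _ ⟨s, rfl⟩
  exact hx fun _ => s

end Pool.Agent.P.MP_dba3d2_lc


end

section

/-! Step G_BEST3 of the stability project. -/

namespace Pool.Agent.P.MP_dba3d2_lc

open Filter GT

namespace G_best3

variable {Γ : HG} {a : Amb}

theorem lemA (hL : S_LINE) {c f : MM Γ a} (hp : Prim c) (hc : Cen c) (hf : f ∈ Ep c)
    (x : MM Γ a) : Ls (ds x (c * x)) (ln (f * x) + md c) := by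
  obtain ⟨k, hk⟩ := hp.2 f⁻¹ (inv_mem hf)
  rw [inv_inv] at hk
  have h1 := tors_disp hL hp.1 (mul_mem hf (ipow_mem_Ep c k)) hk 1
  rw [ds_one_mul, ds_one_mul] at h1
  have h2 := disp_le c x f⁻¹
  have h3 := disp_ipow c k (f * ipow c k)⁻¹
  rw [show ipow c k * (f * ipow c k)⁻¹ = f⁻¹ by group] at h3
  have h4 := disp_le c (f * ipow c k)⁻¹ 1
  rw [ds_one_right, ln_inv, ds_one_mul] at h4
  have h5 : ds x f⁻¹ = ln (f * x) := by rw [ds, ← ln_inv, mul_inv_rev, inv_inv, inv_inv]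
  have h6 : md c ≤ ln (f * x) + md c := le_add_of_nonneg_left (ln_nonneg _)
  have h7 : Ls (ln c) (ln (f * x) + md c) := Ls.mono_right hc h6
  refine Ls.mono_left (y := 2 * ln (f * x) + (2 * ln (f * ipow c k) + ln c)) (by linarith) ?_
  exact (Ls.of_le (le_add_of_nonneg_right (md_nonneg c))).two.add ((h1.trans' h7).two.add h7)

end G_best3

open G_best3 in
theorem p_G_BEST3 (hELEM : S_ELEM) (hLINE : S_LINE) (hCVX : S_CVX) (hNORM : S_NORM) (hG_PROJ : S_G_PROJ) (hG_BEST1 : S_G_BEST1) (hG_LE3 : S_G_LE3) :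
    S_G_BEST3 := by
  intro Γ a c y hp hc hn
  have hN : ∀ s, ∃ f ∈ Ep c, Ls (ln (f * y * s)) (ds s (y⁻¹ * c * y * s)) ∧
      NE c (f * y * s)⁻¹ := by
    intro s
    obtain ⟨g, -, g1, g2, g3⟩ := (hNORM Γ _ ⊤ (gc_top hCVX).toGC0).1 c trivial hp hc (y * s)⁻¹
      trivial
    have e : (g⁻¹ * y * s)⁻¹ = (y * s)⁻¹ * g := by group
    refine ⟨g⁻¹, inv_mem g1, ?_, e ▸ g3⟩
    rw [← ln_inv, e, ds_conj, show s⁻¹ * (y⁻¹ * c * y) * s = (y * s)⁻¹ * c * (y * s)⁻¹⁻¹ by group]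
    exact g2
  choose F hF1 hF2 hF3 using hN
  have hA : ∀ f ∈ Ep c, ∀ s, Ls (ds s (y⁻¹ * c * y * s)) (ln (f * y * s) + md c) := by
    intro f hf s
    rw [disp_conj', mul_assoc f]
    exact lemA hLINE hp hc hf _
  by_cases A : ∃ s ∈ dM Γ a, Ls (ln (F s * y * s)) (md c)
  · obtain ⟨s0, m0, h0⟩ := A
    obtain ⟨s, ms, hs⟩ := hG_BEST1 Γ a (F s0 * y * s0)⁻¹
    have e : (F s0 * y * (s0 * s))⁻¹ = s⁻¹ * (F s0 * y * s0)⁻¹ := by group
    refine ⟨F s0, hF1 s0, s0 * s, mul_mem m0 ms, e ▸ hs, ?_⟩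
    rw [e]
    intro big ll _
    have h1 := hs big s⁻¹ (inv_mem ms) 2
    rw [ds_mul_right, ln_inv (F s0 * y * s0)] at h1
    push_cast at h1
    exact ll.not_ls big.pos (Ls.mono_left (by linarith) h0.two)
  have B : ∀ s ∈ dM Γ a, Ll (md c) (ln (F s * y * s)) := fun s ms =>
    (not_ls_iff (md_nonneg c) (lt_of_not_ge fun h =>
      A ⟨s, ms, Ls.of_le (h.trans (md_nonneg c))⟩)).1 fun h => A ⟨s, ms, h⟩
  have S : ∀ s ∈ dM Γ a, Sim (ln (F s * y * s)) (ds s (y⁻¹ * c * y * s)) := fun s ms =>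
    ⟨hF2 s, (hA _ (hF1 s) s).trans' ((Ls.refl' _).add (B s ms).ls)⟩
  by_cases O : ∀ s ∈ dM Γ a, Old (a.dg U0) (ds s (y⁻¹ * c * y * s))
  swap
  · simp only [not_forall] at O
    obtain ⟨s, ms, hs⟩ := O
    refine ⟨F s, hF1 s, s, ms, bst_of_not_old _ fun h => hs (Old.congr _ h ?_), hF3 s⟩
    rw [ln_inv]
    exact (S s ms).symm'
  obtain ⟨s0, m0, least⟩ := hG_LE3 Γ a _ (hp.conj' y) hn O
  obtain ⟨l, hl⟩ := O s0 m0
  have S0 := (S s0 m0).trans' hl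
  have b0 : Big (ln (F s0 * y * s0)) := big_iff_ll.2 (Ll.mono_left (one_le_md' hp.1) (B s0 m0))
  have bl : Big ((a.dg U0).kh l) := b0.of_ls S0.1
  have ml : Ll (md c) ((a.dg U0).kh l) := (B s0 m0).ls_right S0.1 bl.pos.le
  obtain ⟨s1, on, mn⟩ := hG_PROJ Γ a _ (a.dg U0) l (F s0 * y * s0)⁻¹ ((a.dg U0).big_iff.1 bl)
    (by rw [ln_inv]; exact S0.1)
  have m1 : s0 * (a.dg U0).hom Γ s1 ∈ dM Γ a := mul_mem m0 ⟨s1, rfl⟩
  have e : (F s0 * y * (s0 * (a.dg U0).hom Γ s1))⁻¹ =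
      ((a.dg U0).hom Γ s1)⁻¹ * (F s0 * y * s0)⁻¹ := by group
  have e1 : ln (F s0 * y * (s0 * (a.dg U0).hom Γ s1))⁻¹ =
      ds ((a.dg U0).hom Γ s1) (F s0 * y * s0)⁻¹ := by rw [e, ds]
  have S1 : Sim (ln (F s0 * y * (s0 * (a.dg U0).hom Γ s1))⁻¹) ((a.dg U0).kh l) := by
    constructor
    · have h1 := (mn 1).ls.add S0.1
      rw [map_one, ds_one_left, ln_inv, sub_add_cancel] at h1
      rwa [e1]
    · rw [ln_inv]
      exact ((hl.2.trans' (least _ m1)).trans' (hA _ (hF1 s0) _)).add_cases.resolve_right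
        (ml.not_ls bl.pos)
  refine ⟨F s0, hF1 s0, _, m1, ?_, ?_⟩
  · rintro big _ ⟨s', rfl⟩
    have h1 := mn (s1 * s')
    rw [← e1, map_mul, ← ds_mul_left ((a.dg U0).hom Γ s1)⁻¹, inv_mul_cancel_left, ← e] at h1
    exact h1.ls_right S1.2 big.pos.le
  · intro big _ fol
    rw [S1.fol_iff big.pos.le bl.pos.le, inv_inv] at fol
    have h1 := (on.mul (F s0 * y * s0)).symm
    rw [mul_one, mul_inv_cancel, mul_assoc (F s0 * y)] at h1
    refine hF3 s0 (by rwa [ln_inv]) (by rw [ln_inv]; exact B s0 m0) ?_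
    rw [ln_inv, inv_inv, S0.fol_iff b0.pos.le bl.pos.le]
    exact fol.mono h1

end Pool.Agent.P.MP_dba3d2_lc


end
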