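import Pool.Agent.P.MP_dba3d2_lcM.Ab05
import Pool.Agent.P.MP_dba3d2_lcM.Bb07
import Pool.Agent.P.MP_dba3d2_lcM.Bb10
import Pool.Agent.P.MP_dba3d2_lcM.Cb18
import Pool.Agent.P.MP_dba3d2_lcM.Gb27

section

/-! Step IND of the stability project. -/

namespace Pool.Agent.P.MP_dba3d2_lc

open Filter

namespace Ind
open Pool.Agent.P.MP_dba3d2_lc.GT

variable {Γ : HG} {a b : Amb}

theorem ne_hom (hA : S_B_APX) (E : Ext a b) {c y : MM Γ a} (h : NE c y) :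
    NE (E.hom Γ c) (E.hom Γ y) := by
  intro h1 h2 ⟨q, k1, k2, k3, k4⟩
  rw [E.ln_hom] at h1 h2 k1 k2 k3 k4
  rw [E.md_hom, E.ll_iff] at h2
  rw [E.big_iff] at h1
  rw [← map_inv, ← map_one (E.hom Γ)] at k2
  obtain ⟨q0, l1, l2⟩ := hA Γ a b E (ln y) 1 y⁻¹ q h1 (Ls.of_le (by simp [ds])) k2
  change Ll _ (E.kh (ln y)) at l2
  have h0 : 0 < E.kh (ln y) := (kh_pos E).2 h1.pos
  refine h h1 h2 ⟨q0, ?_, l1, ?_⟩
  · rw [← E.ls_iff, ← E.ln_hom q0]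
    refine k1.of_le_add l2 h0 1 ?_
    have := ds_tri 1 (E.hom Γ q0) q
    rw [ds_comm (E.hom Γ q0) q] at this
    simpa [ds] using this
  · rw [← stab_hom E, map_one]
    exact ⟨k3, fix_congr k4 l2⟩

theorem expT_hom (E : Ext a b) {M : Subgroup (MM Γ a)} {y : MM Γ a} (h : ExpT M y) :
    ExpT (M.map (E.hom Γ)) (E.hom Γ y) := by
  obtain ⟨m, h1, m', h2, c, h3, h4, f, h5, rfl⟩ := h
  exact ⟨_, ⟨m, h1, rfl⟩, _, ⟨m', h2, rfl⟩, _, ⟨c, h3, rfl⟩, E.prim_iff.2 h4, _, (memEp_hom E).2 h5,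
    by rw [map_mul, map_mul]⟩

end Ind

open Pool.Agent.P.MP_dba3d2_lc.GT in
theorem p_IND (hCVX : S_CVX) (hEXTGC : S_EXTGC) (hB_APX : S_B_APX) (hG_I1 : S_G_I1) (hG_I2 : S_G_I2) (hG_I5 : S_G_I5) (hG_PROG : S_G_PROG) (hG_BEST1 : S_G_BEST1) (hG_BEST2 : S_G_BEST2) (hG_BEST3 : S_G_BEST3) :
    S_IND := by
  intro Γ a
  refine ⟨⟨fun i => (gc_range _ hCVX hEXTGC).toGC0, ?_, hG_I1 Γ a, ?_, ?_, ?_, ?_, ?_⟩,
    fun x y h => cp_int h⟩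
  · have := (hEXTGC Γ _ _ (cp a false) _).1 (gc_range (Γ := Γ) (a.dg U0) hCVX hEXTGC).toGC0
    rwa [← inf_eq] at this
  · rintro _ ⟨c0, rfl⟩ _ ⟨c1, rfl⟩ - h1 x h
    obtain ⟨c, k1, k2, g, g', k3, k4⟩ := hG_I2 Γ a c0 c1 x ((cp a true).prim_iff.1 h1) h
    refine ⟨_, (mem_inf false).2 k1, (cp a false).prim_iff.2 k2, _, ⟨g, rfl⟩, _, ⟨g', rfl⟩,
      (cj_hom _).2 k3, ?_⟩
    rw [cp_dM false true k1]
    exact (cj_hom _).2 k4
  · rintro i _ ⟨x, rfl⟩ hx _ ⟨c, rfl⟩ _ ⟨c', rfl⟩ h1 h2 h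
    exact (mem_inf i).2 (hG_I5 Γ a i x c c' (mt (mem_inf (!i)).2 hx) ((cp a i).prim_iff.1 h1)
      ((cp a i).prim_iff.1 h2) h)
  · rintro i _ ⟨y, rfl⟩ -
    obtain ⟨s, h1, h2⟩ := hG_BEST1 Γ a y⁻¹
    refine ⟨_, (mem_inf i).2 h1, ?_⟩
    rw [← map_mul]
    exact hG_PROG Γ a i _ (by rwa [mul_inv_rev])
  · rintro i _ ⟨y, rfl⟩ hy he
    obtain ⟨s, h1, s', h2, h3, h4⟩ := hG_BEST2 Γ a y (mt (mem_inf i).2 hy) fun k => he (by
      have := Ind.expT_hom (cp a i) k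
      rwa [← inf_eq] at this)
    refine ⟨_, (mem_inf i).2 h1, _, (mem_inf i).2 h2, ?_⟩
    rw [← map_mul, ← map_mul, ← map_inv]
    exact ⟨hG_PROG Γ a i _ h3, hG_PROG Γ a i _ (by rwa [inv_inv])⟩
  · rintro i _ ⟨c, rfl⟩ h1 h2 _ ⟨y, rfl⟩ hy
    rw [← map_inv, ← map_mul, ← map_mul] at hy
    obtain ⟨f, k1, s, k2, k3, k4⟩ := hG_BEST3 Γ a c y ((cp a i).prim_iff.1 h1) ((cen_hom _).1 h2)
      (mt (mem_inf i).2 hy)
    refine ⟨_, ⟨f, rfl⟩, (memEp_hom _).2 k1, _, (mem_inf i).2 k2, ?_⟩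
    rw [← map_mul, ← map_mul, ← map_inv]
    exact ⟨hG_PROG Γ a i _ k3, Ind.ne_hom hB_APX _ k4⟩

end Pool.Agent.P.MP_dba3d2_lc


end

section

/-! Step PAIR of the stability project. -/

namespace Pool.Agent.P.MP_dba3d2_lc

open Filter

namespace Pair
open Pool.Agent.P.MP_dba3d2_lc.GT

variable {Γ : HG} {a : Amb}

theorem finc {P X Y : Subgroup (MM Γ a)} (h : FinRed P X Y) (hX : FinC X) (hY : FinC Y)
    (lX : X ≤ P) (lY : Y ≤ P) : FinC P := by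
  intro K hK hf
  obtain ⟨p, hp, h⟩ := h K hK hf
  have key : ∀ Z : Subgroup (MM Γ a), FinC Z → Z ≤ P → (∀ k ∈ K, p⁻¹ * k * p ∈ Z) →
      ∃ p ∈ P, ∀ k ∈ K, p⁻¹ * k * p ∈ std Γ a := fun Z hZ lZ hk => by
    obtain ⟨q, hq, h⟩ := hZ (K.map (MulAut.conj p⁻¹).toMonoidHom)
      (by rintro _ ⟨k, h, rfl⟩; simpa using hk k h)
      (Finite.of_surjective _ (MonoidHom.subgroupMap_surjective _ K))
    refine ⟨p * q, P.mul_mem hp (lZ hq), fun k h' => ?_⟩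
    have := h _ ⟨k, h', rfl⟩
    simpa [mul_assoc] using this
  exact h.elim (key X hX lX) (key Y hY lY)

/-- the exchange of the two copies, on one copy -/
noncomputable def sw (Γ : HG) (a : Amb) (i j : Bool) : cF Γ a i →* MM Γ ((a.pow U0).pow U0) :=
  ((cp a j).hom Γ).comp (MonoidHom.ofInjective (cp a i).hom_injective).symm.toMonoidHom

theorem sw_apply (i j : Bool) (x : MM Γ (a.pow U0)) (h : (cp a i).hom Γ x ∈ cF Γ a i) :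
    sw Γ a i j ⟨_, h⟩ = (cp a j).hom Γ x :=
  congrArg ((cp a j).hom Γ)
    ((MonoidHom.ofInjective (cp a i).hom_injective).symm_apply_eq.2 (Subtype.ext rfl))

theorem invol {G : Type} [Group G] {X Y : Subgroup G} (θ : ↥(X ⊔ Y) →* G)
    (h : ∀ g (hg : g ∈ X ⊔ Y), g ∈ X ∨ g ∈ Y → ∃ k : θ ⟨g, hg⟩ ∈ X ⊔ Y, θ ⟨_, k⟩ = g) :
    Function.Injective θ ∧ θ.range = X ⊔ Y := by
  have key : ∀ g (hg : g ∈ X ⊔ Y), ∃ k : θ ⟨g, hg⟩ ∈ X ⊔ Y, θ ⟨_, k⟩ = g := fun g hg => by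
    have e : X ⊔ Y = Subgroup.closure ((X : Set G) ∪ Y) := Subgroup.sup_eq_closure X Y
    have hg' : g ∈ Subgroup.closure ((X : Set G) ∪ Y) := e ▸ hg
    induction hg' using Subgroup.closure_induction with
    | mem x hx => exact h x hg hx
    | one => exact ⟨(map_one θ).symm ▸ one_mem _, (congrArg θ (Subtype.ext (map_one θ))).trans (map_one θ)⟩
    | mul x y hx hy ix iy =>
      obtain ⟨k1, l1⟩ := ix (e ▸ hx)
      obtain ⟨k2, l2⟩ := iy (e ▸ hy)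
      have m := map_mul θ ⟨x, e ▸ hx⟩ ⟨y, e ▸ hy⟩
      refine ⟨m.symm ▸ mul_mem k1 k2, ?_⟩
      have m2 := map_mul θ ⟨_, k1⟩ ⟨_, k2⟩
      rw [l1, l2] at m2
      exact (congrArg θ (Subtype.ext m)).trans m2
    | inv x hx ix =>
      obtain ⟨k1, l1⟩ := ix (e ▸ hx)
      have m := map_inv θ ⟨x, e ▸ hx⟩
      refine ⟨m.symm ▸ inv_mem k1, ?_⟩
      have m2 := map_inv θ ⟨_, k1⟩
      rw [l1] at m2
      exact (congrArg θ (Subtype.ext m)).trans m2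
  refine ⟨fun p q e => Subtype.ext ?_, le_antisymm ?_ fun g hg => ?_⟩
  · obtain ⟨k1, l1⟩ := key p p.2
    obtain ⟨k2, l2⟩ := key q q.2
    exact l1.symm.trans ((congrArg θ (Subtype.ext e)).trans l2)
  · rintro _ ⟨p, rfl⟩
    exact (key p p.2).1
  · exact ⟨_, (key g hg).2⟩

end Pair

open Pool.Agent.P.MP_dba3d2_lc.GT in
theorem p_PAIR (hELEM : S_ELEM) (hCVX : S_CVX) (hEXTGC : S_EXTGC) (hTWO : S_TWO) (hIND : S_IND) :
    S_PAIR := by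
  intro Γ a ι κ _ _ Q hQ x y
  have T : TwoOut (cF Γ a false) (cF Γ a true) := hTWO Γ _ _ (hIND Γ a).1
  have hP : GC (cF Γ a false ⊔ cF Γ a true) := ⟨T.gc, Pair.finc T.fin
    (gc_range _ hCVX hEXTGC).finc (gc_range _ hCVX hEXTGC).finc le_sup_left le_sup_right⟩
  obtain ⟨θ, h0, h1⟩ := T.ext _ (Pair.sw Γ a false true) (Pair.sw Γ a true false)
    (by
      rintro ⟨_, u, rfl⟩ ⟨_, v, rfl⟩ h
      obtain ⟨rfl, k⟩ := cp_int h
      rw [Pair.sw_apply, Pair.sw_apply]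
      exact cp_dM _ _ k)
    (by
      rintro c hc hf ⟨_, u, rfl⟩ ⟨_, v, rfl⟩ hu hv
      obtain ⟨c, rfl⟩ := hc.1
      have k := (mem_inf false).1 hc
      rw [Pair.sw_apply, Pair.sw_apply]
      refine (hELEM Γ _ _ hf).2.2.2.2.2.2.2.1 _ ?_ _ ?_
      · rw [cp_dM false true k, memEp_hom]
        exact (memEp_hom _).1 hu
      · rw [cp_dM false true k] at hv
        exact (memEp_hom _).2 ((memEp_hom _).1 hv))
  have e0 : ∀ u h, θ ⟨(cp a false).hom Γ u, h⟩ = (cp a true).hom Γ u := fun u _ =>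
    (h0 ⟨_, u, rfl⟩).trans (Pair.sw_apply _ _ _ _)
  have e1 : ∀ u h, θ ⟨(cp a true).hom Γ u, h⟩ = (cp a false).hom Γ u := fun u _ =>
    (h1 ⟨_, u, rfl⟩).trans (Pair.sw_apply _ _ _ _)
  have m0 : ∀ u, (cp a false).hom Γ u ∈ cF Γ a false ⊔ cF Γ a true := fun u =>
    Subgroup.mem_sup_left ⟨u, rfl⟩
  have m1 : ∀ u, (cp a true).hom Γ u ∈ cF Γ a false ⊔ cF Γ a true := fun u =>
    Subgroup.mem_sup_right ⟨u, rfl⟩
  obtain ⟨hi, hr⟩ := Pair.invol θ (by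
    rintro g hg (⟨u, rfl⟩ | ⟨u, rfl⟩)
    · exact ⟨(e0 u hg).symm ▸ m1 u, (congrArg θ (Subtype.ext (e0 u hg))).trans (e1 u (m1 u))⟩
    · exact ⟨(e1 u hg).symm ▸ m0 u, (congrArg θ (Subtype.ext (e1 u hg))).trans (e0 u (m0 u))⟩)
  have k := hQ _ _ _ θ hP (hr.symm ▸ hP) hi
    (Sum.elim (fun i => ⟨_, m0 (x i)⟩) fun i => ⟨_, m1 (y i)⟩)
  refine (iff_of_eq (congrArg (St Q) (funext fun s => ?_))).trans
    (k.trans (iff_of_eq (congrArg (St Q) (funext fun s => ?_))))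
  · cases s <;> rfl
  · cases s
    · exact e0 _ _
    · exact e1 _ _

end Pool.Agent.P.MP_dba3d2_lc


end
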