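import Pool.Agent.P.MP_dba3d2_lcM.Hp02
import Pool.Agent.P.MP_dba3d2_lcM.Ab05
import Pool.Agent.P.MP_dba3d2_lcM.Ap06
import Pool.Agent.P.MP_dba3d2_lcM.Bp08
import Pool.Agent.P.MP_dba3d2_lcM.Ap09
import Pool.Agent.P.MP_dba3d2_lcM.Cb13
import Pool.Agent.P.MP_dba3d2_lcM.Cp14
import Pool.Agent.P.MP_dba3d2_lcM.Bp15
import Pool.Agent.P.MP_dba3d2_lcM.Cp16
import Pool.Agent.P.MP_dba3d2_lcM.Cp17
import Pool.Agent.P.MP_dba3d2_lcM.Cb18
import Pool.Agent.P.MP_dba3d2_lcM.Cp19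
import Pool.Agent.P.MP_dba3d2_lcM.Cp20
import Pool.Agent.P.MP_dba3d2_lcM.Cp21
import Pool.Agent.P.MP_dba3d2_lcM.Cp22
import Pool.Agent.P.MP_dba3d2_lcM.Cb23
import Pool.Agent.P.MP_dba3d2_lcM.Ap24
import Pool.Agent.P.MP_dba3d2_lcM.Cp25
import Pool.Agent.P.MP_dba3d2_lcM.Ep28
import Pool.Agent.P.MP_dba3d2_lcM.Eb29
import Pool.Agent.P.MP_dba3d2_lcM.Fp31
import Pool.Agent.P.MP_dba3d2_lcM.Cp33
import Pool.Agent.P.MP_dba3d2_lcM.Cb34
import Pool.Agent.P.MP_dba3d2_lcM.Cp35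
import Pool.Agent.P.MP_dba3d2_lcM.Fp37
import Pool.Agent.P.MP_dba3d2_lcM.Ep41
import Pool.Agent.P.MP_dba3d2_lcM.Eb42
import Pool.Agent.P.MP_dba3d2_lcM.Fp43
import Pool.Agent.P.MP_dba3d2_lcM.Fp44
import Pool.Agent.P.MP_dba3d2_lcM.Fp46
import Pool.Agent.P.MP_dba3d2_lcM.Dp50
import Pool.Agent.P.MP_dba3d2_lcM.Dp52
import Pool.Agent.P.MP_dba3d2_lcM.Dp54
import Pool.Agent.P.MP_dba3d2_lcM.Dp55
import Pool.Agent.P.MP_dba3d2_lcM.Dp56
import Pool.Agent.P.MP_dba3d2_lcM.Dp57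
import Pool.Agent.P.MP_dba3d2_lcM.Dp58
import Pool.Agent.P.MP_dba3d2_lcM.Dp60
import Pool.Agent.P.MP_dba3d2_lcM.Dp61
import Pool.Agent.P.MP_dba3d2_lcM.Dp62
import Pool.Agent.P.MP_dba3d2_lcM.Ep63
import Pool.Agent.P.MP_dba3d2_lcM.Ap64
import Pool.Agent.P.MP_dba3d2_lcM.Fp65
import Pool.Agent.P.MP_dba3d2_lcM.Gp66
import Pool.Agent.P.MP_dba3d2_lcM.Gp67

namespace Pool.Agent.P.MP_dba3d2_lc

theorem all_A_KOU : S_A_KOU := p_A_KOU
theorem all_A_LOX : S_A_LOX := p_A_LOX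
theorem all_A_CH : S_A_CH := p_A_CH all_A_LOX
theorem all_A_AX1 : S_A_AX1 := p_A_AX1 all_A_LOX all_A_CH
theorem all_A_AX2 : S_A_AX2 := p_A_AX2 all_A_LOX all_A_CH
theorem all_A_PSI : S_A_PSI := p_A_PSI all_A_AX2
theorem all_HG : S_HG := p_HG all_A_KOU all_A_AX1 all_A_PSI
theorem all_SLIM : S_SLIM := p_SLIM
theorem all_B_CLO : S_B_CLO := p_B_CLO
theorem all_A_EL0 : S_A_EL0 := p_A_EL0 all_A_PSI
theorem all_ELEM : S_ELEM := p_ELEM all_A_EL0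
theorem all_A_LINEU : S_A_LINEU := p_A_LINEU all_A_AX1 all_A_AX2
theorem all_A_DOM : S_A_DOM := p_A_DOM all_A_AX1 all_A_AX2
theorem all_LINE : S_LINE := p_LINE all_A_LINEU all_A_DOM
theorem all_A_CE0 : S_A_CE0 := p_A_CE0
theorem all_A_CE : S_A_CE := p_A_CE all_A_CE0
theorem all_PERC : S_PERC := p_PERC all_ELEM all_A_DOM all_A_CE
theorem all_TORS : S_TORS := p_TORS all_A_KOU
theorem all_A_SMALL : S_A_SMALL := p_A_SMALL all_ELEM all_A_DOM all_A_CE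
theorem all_B_SMALL : S_B_SMALL := p_B_SMALL all_TORS all_ELEM all_LINE all_PERC all_A_SMALL
theorem all_B_NET : S_B_NET := p_B_NET
theorem all_B_CN2 : S_B_CN2 := p_B_CN2 all_ELEM all_LINE all_PERC all_B_SMALL all_B_NET
theorem all_B_CN0 : S_B_CN0 := p_B_CN0 all_TORS all_ELEM all_PERC all_B_NET
theorem all_COUNT : S_COUNT := p_COUNT all_B_CLO all_B_CN2 all_B_CN0
theorem all_UNION : S_UNION := p_UNION
theorem all_FINM : S_FINM := p_FINM all_A_KOU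
theorem all_B_RT1 : S_B_RT1 := p_B_RT1 all_ELEM all_LINE all_PERC
theorem all_NP : S_NP := p_NP all_ELEM all_LINE all_PERC
theorem all_B_RT2 : S_B_RT2 := p_B_RT2 all_ELEM all_LINE all_PERC all_NP
theorem all_ROOT : S_ROOT := p_ROOT all_ELEM all_LINE all_B_RT1 all_B_RT2
theorem all_TRUNC : S_TRUNC := p_TRUNC all_ELEM all_LINE
theorem all_C_EMEM : S_C_EMEM := p_C_EMEM all_ELEM all_ROOT
theorem all_C_TFF : S_C_TFF := p_C_TFF all_ROOT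
theorem all_B_NM1 : S_B_NM1 := p_B_NM1 all_ELEM all_LINE all_ROOT
theorem all_NORM : S_NORM := p_NORM all_ELEM all_LINE all_B_NM1
theorem all_C_R2B : S_C_R2B := p_C_R2B all_ELEM all_LINE all_ROOT all_NORM all_C_TFF
theorem all_C_RED : S_C_RED := p_C_RED all_ROOT
theorem all_C_NORMW : S_C_NORMW := p_C_NORMW all_ROOT all_NORM
theorem all_C_EXTM : S_C_EXTM := p_C_EXTM all_C_RED all_C_NORMW
theorem all_C_PRE : S_C_PRE := p_C_PRE all_ROOT all_NORM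
theorem all_C_EXTN : S_C_EXTN := p_C_EXTN all_ROOT all_C_EXTM all_C_PRE
theorem all_C_PROJ : S_C_PROJ := p_C_PROJ
theorem all_C_R2A : S_C_R2A := p_C_R2A all_ELEM all_LINE all_NP all_ROOT
theorem all_C_J0 : S_C_J0 := p_C_J0 all_ELEM all_PERC
theorem all_C_JLONG : S_C_JLONG := p_C_JLONG all_C_EMEM all_C_J0
theorem all_C_JS0 : S_C_JS0 := p_C_JS0 all_ELEM all_PERC all_ROOT
theorem all_B_RG0 : S_B_RG0 := p_B_RG0 all_ELEM all_LINE all_NP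
theorem all_RIG : S_RIG := p_RIG all_ELEM all_LINE all_PERC all_ROOT all_B_RG0
theorem all_C_JS2 : S_C_JS2 := p_C_JS2 all_ELEM all_LINE all_ROOT all_RIG all_C_EMEM all_C_J0
theorem all_C_JSHORT : S_C_JSHORT := p_C_JSHORT all_C_EMEM all_C_J0 all_C_JS0 all_C_JS2
theorem all_C_PATH : S_C_PATH := p_C_PATH
theorem all_C_ARC : S_C_ARC := p_C_ARC all_ELEM all_LINE all_ROOT
theorem all_C_PATHW : S_C_PATHW := p_C_PATHW all_C_PATH all_C_ARC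
theorem all_C_TGEO : S_C_TGEO := p_C_TGEO all_C_PROJ all_C_R2A all_C_TFF all_C_JLONG all_C_JSHORT all_C_PATHW
theorem all_C_FIRST : S_C_FIRST := p_C_FIRST
theorem all_C_LEFT : S_C_LEFT := p_C_LEFT all_C_FIRST all_C_ARC
theorem all_C_TEND : S_C_TEND := p_C_TEND all_ELEM all_LINE all_C_ARC all_C_LEFT all_C_JLONG all_C_JSHORT
theorem all_C_TMID : S_C_TMID := p_C_TMID all_ROOT all_C_TFF all_C_R2B all_C_EXTN all_C_TGEO all_C_TEND
theorem all_C_T : S_C_T := p_C_T all_C_TMID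
theorem all_C_CYP : S_C_CYP := p_C_CYP all_C_RED all_C_NORMW
theorem all_C_CYCG : S_C_CYCG := p_C_CYCG all_C_EXTM all_C_CYP
theorem all_C_INJ : S_C_INJ := p_C_INJ all_C_T all_C_CYCG all_C_JLONG all_C_JSHORT all_C_PATHW
theorem all_C_GRAPH : S_C_GRAPH := p_C_GRAPH
theorem all_C_EXT2 : S_C_EXT2 := p_C_EXT2 all_ELEM all_ROOT all_C_INJ all_C_GRAPH
theorem all_C_AM1 : S_C_AM1 := p_C_AM1
theorem all_C2_TREEFIX : S_C2_TREEFIX := p_C2_TREEFIX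
theorem all_C2_BIP : S_C2_BIP := p_C2_BIP all_C2_TREEFIX
theorem all_C2_STARFIN : S_C2_STARFIN := p_C2_STARFIN all_C2_BIP
theorem all_C_AM2 : S_C_AM2 := p_C_AM2 all_C2_STARFIN
theorem all_C_UP : S_C_UP := p_C_UP all_ELEM all_ROOT all_C_EXT2
theorem all_C_UPN : S_C_UPN := p_C_UPN all_ELEM all_C_INJ all_C_GRAPH
theorem all_C_TORQ : S_C_TORQ := p_C_TORQ all_ELEM
theorem all_C_PURE : S_C_PURE := p_C_PURE all_C_TORQ all_C_EMEM
theorem all_C_FINE : S_C_FINE := p_C_FINE all_ELEM all_ROOT all_C_TORQ all_C_PURE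
theorem all_C_FINN : S_C_FINN := p_C_FINN all_C_AM1 all_C_AM2 all_C_UPN all_C_FINE
theorem all_C_FINP : S_C_FINP := p_C_FINP all_C_AM1 all_C_AM2 all_C_UP all_C_FINN
theorem all_C_EXT0 : S_C_EXT0 := p_C_EXT0 all_ELEM all_PERC all_ROOT all_NORM all_C_PRE
theorem all_C_GEOP : S_C_GEOP := p_C_GEOP all_C_T all_C_JLONG all_C_JSHORT all_C_PATHW all_C_LEFT
theorem all_C_NFX : S_C_NFX := p_C_NFX all_NORM all_C_EXTN all_C_EXT0 all_C_GEOP
theorem all_C_NFE : S_C_NFE := p_C_NFE all_NORM all_C_NFX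
theorem all_C_REDX : S_C_REDX := p_C_REDX all_ROOT
theorem all_C_G20S : S_C_G20S := p_C_G20S all_ELEM all_LINE all_PERC all_C_ARC all_C_REDX all_C_NFE
theorem all_C_DISP : S_C_DISP := p_C_DISP all_ELEM all_LINE
theorem all_C_CYC : S_C_CYC := p_C_CYC all_ELEM all_ROOT all_C_REDX all_C_CYCG all_C_GEOP
theorem all_C_ANC : S_C_ANC := p_C_ANC all_ELEM all_LINE all_PERC all_ROOT all_C_DISP all_C_G20S all_C_CYC
theorem all_C_BRIDGE : S_C_BRIDGE := p_C_BRIDGE all_C_PROJ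
theorem all_C_NA : S_C_NA := p_C_NA all_C_NFE
theorem all_C_CEN : S_C_CEN := p_C_CEN all_ELEM all_LINE all_PERC all_C_PROJ all_C_BRIDGE all_C_DISP all_C_ANC all_C_NA
theorem all_C_EX : S_C_EX := p_C_EX all_ELEM all_LINE all_C_PROJ all_C_ANC all_C_NA
theorem all_C_E12 : S_C_E12 := p_C_E12 all_ROOT all_C_EMEM all_C_T
theorem all_C_PUR : S_C_PUR := p_C_PUR all_C_DISP all_C_PURE all_C_ANC all_C_E12
theorem all_C_TWOBR : S_C_TWOBR := p_C_TWOBR all_ELEM all_LINE all_PERC all_C_PROJ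
theorem all_C_RSTEP : S_C_RSTEP := p_C_RSTEP all_ELEM all_LINE all_C_FIRST all_C_ARC all_C_J0 all_C_REDX
theorem all_C_RIGP : S_C_RIGP := p_C_RIGP all_ROOT all_C_PROJ all_C_TWOBR all_C_R2A all_C_NFE all_C_RSTEP
theorem all_C_RIGX : S_C_RIGX := p_C_RIGX all_C_REDX all_C_RIGP
theorem all_C_G2 : S_C_G2 := p_C_G2 all_ELEM all_LINE all_C_ARC all_C_J0 all_C_NFE all_C_RIGX
theorem all_TWO : S_TWO := p_TWO all_C_EMEM all_C_EXT2 all_C_FINP all_C_NFE all_C_G20S all_C_ANC all_C_CEN all_C_EX all_C_E12 all_C_PUR all_C_G2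
theorem all_C_GRTW : S_C_GRTW := p_C_GRTW all_ELEM all_LINE all_PERC all_ROOT all_NORM all_TRUNC
theorem all_GRAFT : S_GRAFT := p_GRAFT all_TWO all_C_GRTW
theorem all_C2_RW : S_C2_RW := p_C2_RW
theorem all_C2_RX : S_C2_RX := p_C2_RX all_ELEM all_LINE all_PERC all_ROOT
theorem all_C2_G2 : S_C2_G2 := p_C2_G2 all_ELEM all_LINE all_PERC all_RIG
theorem all_C2_TPC : S_C2_TPC := p_C2_TPC all_ELEM all_LINE
theorem all_C2_TOP : S_C2_TOP := p_C2_TOP all_C2_RX all_C2_G2 all_C2_TPC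
theorem all_C2_HST : S_C2_HST := p_C2_HST all_ELEM all_LINE all_ROOT
theorem all_C2_HFIN : S_C2_HFIN := p_C2_HFIN all_C2_BIP
theorem all_C2_RW3 : S_C2_RW3 := p_C2_RW3 all_C2_RW
theorem all_C2_HEXT : S_C2_HEXT := p_C2_HEXT all_C2_RW3
theorem all_C2_PJN : S_C2_PJN := p_C2_PJN
theorem all_C2_PGEO : S_C2_PGEO := p_C2_PGEO all_C2_PJN
theorem all_PT : S_PT := p_PT all_ELEM all_PERC all_ROOT all_C2_RW all_C2_RX all_C2_TOP all_C2_HST all_C2_HFIN all_C2_HEXT all_C2_PJN all_C2_PGEO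
theorem all_C2_ELOC : S_C2_ELOC := p_C2_ELOC all_ELEM all_LINE all_PERC
theorem all_C2_ENRM : S_C2_ENRM := p_C2_ENRM all_ELEM all_NORM
theorem all_C2_EGEO : S_C2_EGEO := p_C2_EGEO all_C2_ENRM all_C2_ELOC
theorem all_C2_EEP : S_C2_EEP := p_C2_EEP all_ELEM all_LINE all_PERC all_ROOT all_C2_RW all_C2_ELOC all_C2_EGEO
theorem all_C2_EEXT : S_C2_EEXT := p_C2_EEXT all_C2_RW3
theorem all_C2_ESTAR : S_C2_ESTAR := p_C2_ESTAR all_ELEM all_PERC all_C2_RW all_C2_ELOC all_C2_EGEO all_C2_EEP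
theorem all_C2_EFIN : S_C2_EFIN := p_C2_EFIN all_ROOT all_C2_STARFIN
theorem all_C2_EXP0 : S_C2_EXP0 := p_C2_EXP0 all_ELEM all_PERC all_C2_RW all_C2_RX all_C2_TOP all_C2_ELOC all_C2_EGEO all_C2_EEP all_C2_ESTAR all_C2_EFIN
theorem all_EXP : S_EXP := p_EXP all_C2_EEP all_C2_EEXT all_C2_EXP0
theorem all_B_APX : S_B_APX := p_B_APX
theorem all_B_STX : S_B_STX := p_B_STX all_B_SMALL
theorem all_EXTGC : S_EXTGC := p_EXTGC all_B_APX all_B_STX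
theorem all_A_ALPH : S_A_ALPH := p_A_ALPH all_A_PSI
theorem all_A_IND : S_A_IND := p_A_IND all_A_CE0
theorem all_A_PRE : S_A_PRE := p_A_PRE all_A_ALPH all_A_IND
theorem all_A_OVL : S_A_OVL := p_A_OVL all_A_CE0
theorem all_A_WIN : S_A_WIN := p_A_WIN
theorem all_A_MATCH : S_A_MATCH := p_A_MATCH all_A_OVL all_A_WIN
theorem all_A_BW : S_A_BW := p_A_BW all_A_PRE all_A_MATCH all_A_CE0
theorem all_A_BW2 : S_A_BW2 := p_A_BW2 all_A_BW
theorem all_A_OVM : S_A_OVM := p_A_OVM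
theorem all_A_BWM : S_A_BWM := p_A_BWM all_A_OVM
theorem all_GMIC : S_GMIC := p_GMIC all_A_BW2 all_A_BWM
theorem all_C2_LGEO : S_C2_LGEO := p_C2_LGEO
theorem all_C2_LNF : S_C2_LNF := p_C2_LNF all_C2_RW all_C2_LGEO
theorem all_LET : S_LET := p_LET all_C2_RX all_C2_TOP all_C2_HST all_C2_HFIN all_C2_HEXT all_C2_LGEO all_C2_LNF
theorem all_E_GL : S_E_GL := p_E_GL all_ELEM all_PERC all_ROOT all_TRUNC all_LET all_GRAFT
theorem all_E_GLX : S_E_GLX := p_E_GLX all_ELEM all_ROOT all_TRUNC all_LET all_GRAFT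
theorem all_E_LIP : S_E_LIP := p_E_LIP
theorem all_MICL : S_MICL := p_MICL all_EXTGC all_GMIC all_E_GL all_E_GLX all_E_LIP
theorem all_E_SZ : S_E_SZ := p_E_SZ all_ELEM all_LINE
theorem all_E_GE : S_E_GE := p_E_GE all_ELEM all_ROOT all_TRUNC all_EXP all_GRAFT
theorem all_E_EXC : S_E_EXC := p_E_EXC
theorem all_E_ME1 : S_E_ME1 := p_E_ME1
theorem all_E_CHI : S_E_CHI := p_E_CHI all_ELEM
theorem all_E_ME2 : S_E_ME2 := p_E_ME2 all_E_CHI all_E_SZ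
theorem all_MICE : S_MICE := p_MICE all_EXTGC all_E_SZ all_E_GE all_E_EXC all_E_ME1 all_E_ME2 all_E_LIP
theorem all_ADJ : S_ADJ := p_ADJ all_TORS all_FINM all_ELEM all_LINE all_ROOT all_TRUNC all_GRAFT all_PT all_EXP all_MICL all_MICE all_E_CHI all_E_SZ all_E_GE
theorem all_Q_JL : S_Q_JL := p_Q_JL
theorem all_Q_GEO : S_Q_GEO := p_Q_GEO all_ELEM all_LINE all_PERC all_ROOT all_Q_JL
theorem all_Q_FEET : S_Q_FEET := p_Q_FEET all_ELEM all_LINE all_NORM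
theorem all_Q_MIX2 : S_Q_MIX2 := p_Q_MIX2 all_ELEM all_LINE all_PERC all_ROOT all_RIG all_Q_GEO all_Q_FEET
theorem all_Q_XCH : S_Q_XCH := p_Q_XCH all_ROOT
theorem all_Q_PEXT : S_Q_PEXT := p_Q_PEXT all_Q_FEET
theorem all_Q_CYC : S_Q_CYC := p_Q_CYC all_ROOT all_Q_GEO all_Q_XCH
theorem all_Q_MIX : S_Q_MIX := p_Q_MIX all_ROOT all_Q_MIX2 all_Q_PEXT all_Q_CYC
theorem all_Q_MINP : S_Q_MINP := p_Q_MINP all_ROOT
theorem all_Q_PATH : S_Q_PATH := p_Q_PATH all_Q_FEET all_Q_XCH all_Q_MIX all_Q_MINP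
theorem all_Q_TOP : S_Q_TOP := p_Q_TOP all_ROOT all_Q_GEO
theorem all_Q_COV : S_Q_COV := p_Q_COV all_ELEM all_LINE all_ROOT all_Q_PATH all_Q_TOP
theorem all_ADJ0 : S_ADJ0 := p_ADJ0 all_ELEM all_LINE all_PERC all_ROOT all_C_PROJ all_C_BRIDGE all_C_DISP
theorem all_Q_RIGT : S_Q_RIGT := p_Q_RIGT all_ROOT all_Q_XCH all_Q_MIX all_Q_MINP
theorem all_Q_CR : S_Q_CR := p_Q_CR all_ELEM all_LINE all_ROOT all_Q_PEXT all_Q_CYC all_Q_MIX all_Q_MINP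
theorem all_Q_ALL : S_Q_ALL := p_Q_ALL all_ELEM all_LINE all_ROOT all_NORM all_ADJ0 all_Q_RIGT all_Q_PATH all_Q_TOP all_Q_COV all_Q_CR
theorem all_Q_PCH : S_Q_PCH := p_Q_PCH all_ROOT all_C2_RW all_Q_XCH all_Q_MIX
theorem all_PA : S_PA := p_PA all_ELEM all_PERC all_ROOT all_C2_HFIN all_C2_HEXT all_Q_MIX2 all_Q_COV all_Q_ALL all_Q_PCH
theorem all_B_CVK : S_B_CVK := p_B_CVK all_LINE
theorem all_B_CVE : S_B_CVE := p_B_CVE all_ELEM all_LINE all_B_CVK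
theorem all_CVX : S_CVX := p_CVX all_FINM all_PERC all_B_CVE
theorem all_STAR : S_STAR := p_STAR all_CVX all_NORM all_C_AM1 all_C_UPN
theorem all_EADJ : S_EADJ := p_EADJ all_ELEM all_LINE all_ROOT all_NORM all_CVX all_STAR all_ADJ0 all_C_J0 all_C_JS0 all_C_PATHW all_C_LEFT all_C_ARC all_C2_RW all_C2_EFIN all_C2_EEXT
theorem all_WCL : S_WCL := p_WCL all_TORS all_ELEM all_MICL
theorem all_WCE : S_WCE := p_WCE all_MICE
theorem all_LIM : S_LIM := p_LIM all_TORS all_FINM all_ELEM all_LINE all_ROOT all_NORM all_PA all_EADJ all_WCL all_WCE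
theorem all_FK_MAX : S_FK_MAX := p_FK_MAX all_UNION all_ADJ all_LIM
theorem all_FC_SM : S_FC_SM := p_FC_SM all_ELEM all_LINE all_ROOT all_E_CHI all_E_SZ
theorem all_E_GEO : S_E_GEO := p_E_GEO
theorem all_FC_AX : S_FC_AX := p_FC_AX all_E_GEO
theorem all_FC_EXPO : S_FC_EXPO := p_FC_EXPO all_ELEM all_ROOT all_CVX all_GRAFT all_FC_SM
theorem all_FC_COSET : S_FC_COSET := p_FC_COSET all_LINE all_CVX all_GRAFT all_FC_SM all_FC_EXPO
theorem all_FC_ARC : S_FC_ARC := p_FC_ARC all_ELEM all_LINE all_PERC all_ROOT all_CVX all_GRAFT all_FC_COSET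
theorem all_FC_NEAR : S_FC_NEAR := p_FC_NEAR all_CVX all_GRAFT all_FC_AX all_FC_ARC
theorem all_FC_CEN1 : S_FC_CEN1 := p_FC_CEN1 all_LINE all_CVX all_GRAFT all_FC_SM all_FC_EXPO all_FC_COSET all_FC_NEAR
theorem all_FC_CEN : S_FC_CEN := p_FC_CEN all_FINM all_ELEM all_LINE all_PERC all_ROOT all_CVX all_GRAFT all_E_GEO all_FC_SM all_FC_NEAR all_FC_CEN1
theorem all_FC_EX : S_FC_EX := p_FC_EX all_ELEM all_LINE all_CVX all_GRAFT all_FC_EXPO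
theorem all_FC_INF : S_FC_INF := p_FC_INF all_ELEM all_PERC all_ROOT all_CVX all_GRAFT all_FC_SM all_FC_CEN all_FC_EX
theorem all_FC_UP : S_FC_UP := p_FC_UP all_ELEM all_ROOT all_TRUNC all_GRAFT all_FC_SM all_FC_EXPO
theorem all_FC_FIN : S_FC_FIN := p_FC_FIN all_FINM all_TRUNC all_GRAFT
theorem all_FC_CAP : S_FC_CAP := p_FC_CAP all_FC_INF all_FC_UP all_FC_FIN
theorem all_CAP : S_CAP := p_CAP all_FC_CAP
theorem all_GT : S_GT := p_GT all_ELEM all_ROOT all_GRAFT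
theorem all_S2_LV : S_S2_LV := p_S2_LV all_TRUNC all_GRAFT all_GT
theorem all_S2_ENV : S_S2_ENV := p_S2_ENV all_CAP all_S2_LV
theorem all_S2_TR0 : S_S2_TR0 := p_S2_TR0
theorem all_S2_TR1 : S_S2_TR1 := p_S2_TR1
theorem all_S2_TR2 : S_S2_TR2 := p_S2_TR2 all_S2_TR0 all_S2_TR1
theorem all_E_LIM : S_E_LIM := p_E_LIM all_EXTGC
theorem all_E_G2U : S_E_G2U := p_E_G2U all_ELEM all_LINE all_PERC
theorem all_E_PJ1 : S_E_PJ1 := p_E_PJ1 all_ELEM all_LINE all_PERC all_ROOT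
theorem all_E_PJ2 : S_E_PJ2 := p_E_PJ2 all_ELEM all_LINE all_PERC
theorem all_E_PU : S_E_PU := p_E_PU all_E_PJ1 all_E_PJ2
theorem all_E_COR : S_E_COR := p_E_COR
theorem all_E_PW : S_E_PW := p_E_PW all_LINE all_E_COR
theorem all_E_PRJ : S_E_PRJ := p_E_PRJ all_ELEM all_LINE all_ROOT all_E_CHI all_E_SZ
theorem all_E_TG2 : S_E_TG2 := p_E_TG2 all_PERC all_E_COR
theorem all_E_TMD : S_E_TMD := p_E_TMD all_E_GEO
theorem all_E_TEX : S_E_TEX := p_E_TEX all_ELEM all_ROOT all_E_CHI all_E_TMD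
theorem all_E_TCEN : S_E_TCEN := p_E_TCEN all_E_GEO all_E_TMD
theorem all_REFL0 : S_REFL0 := p_REFL0 all_E_LIM all_E_G2U all_E_PU all_E_PW all_E_PRJ all_E_TG2 all_E_TEX all_E_TCEN
theorem all_REFL2 : S_REFL2 := p_REFL2 all_REFL0
theorem all_A_FR2 : S_A_FR2 := p_A_FR2 all_TORS all_ELEM
theorem all_FRAME : S_FRAME := p_FRAME all_TORS all_FINM all_A_FR2
theorem all_CUT : S_CUT := p_CUT all_FINM all_ELEM all_LINE all_PERC all_FRAME all_CVX all_MICL all_MICE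
theorem all_FS_SHR : S_FS_SHR := p_FS_SHR all_REFL2 all_CUT
theorem all_S2_TR3 : S_S2_TR3 := p_S2_TR3 all_FS_SHR all_S2_TR0 all_S2_TR1
theorem all_S2_INV : S_S2_INV := p_S2_INV
theorem all_S2_REPL : S_S2_REPL := p_S2_REPL
theorem all_S2_OPT : S_S2_OPT := p_S2_OPT all_S2_REPL
theorem all_S2_F12 : S_S2_F12 := p_S2_F12 all_ELEM all_LINE all_ROOT all_S2_OPT
theorem all_S2_F34 : S_S2_F34 := p_S2_F34 all_ELEM all_LINE all_S2_OPT
theorem all_S2_KID : S_S2_KID := p_S2_KID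
theorem all_S2_FAR5 : S_S2_FAR5 := p_S2_FAR5
theorem all_S2_F5 : S_S2_F5 := p_S2_F5 all_S2_OPT
theorem all_S2_FAR4 : S_S2_FAR4 := p_S2_FAR4 all_ELEM all_LINE
theorem all_S2_F0 : S_S2_F0 := p_S2_F0 all_S2_INV all_S2_F12 all_S2_F34 all_S2_KID all_S2_FAR5 all_S2_F5 all_S2_FAR4
theorem all_S2_PT1 : S_S2_PT1 := p_S2_PT1
theorem all_S2_RED : S_S2_RED := p_S2_RED
theorem all_S2_TRI : S_S2_TRI := p_S2_TRI all_S2_RED
theorem all_S2_NT : S_S2_NT := p_S2_NT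
theorem all_S2_PERS : S_S2_PERS := p_S2_PERS all_S2_NT all_S2_RED
theorem all_S2_BAD1 : S_S2_BAD1 := p_S2_BAD1 all_S2_TRI all_S2_PERS
theorem all_S2_EXT1 : S_S2_EXT1 := p_S2_EXT1
theorem all_S2_IO : S_S2_IO := p_S2_IO all_S2_NT all_S2_RED
theorem all_S2_COC : S_S2_COC := p_S2_COC
theorem all_S2_MULT : S_S2_MULT := p_S2_MULT all_S2_COC
theorem all_S2_ORD : S_S2_ORD := p_S2_ORD
theorem all_S2_CW : S_S2_CW := p_S2_CW all_S2_RED all_S2_ORD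
theorem all_S2_ENT : S_S2_ENT := p_S2_ENT all_S2_ORD
theorem all_S2_MACH : S_S2_MACH := p_S2_MACH all_S2_IO all_S2_COC all_S2_MULT all_S2_CW all_S2_ENT
theorem all_S2_PART1 : S_S2_PART1 := p_S2_PART1 all_S2_INV all_S2_F0 all_S2_PT1 all_S2_BAD1 all_S2_EXT1 all_S2_MACH
theorem all_S2_WK : S_S2_WK := p_S2_WK all_ROOT
theorem all_S2_UQ : S_S2_UQ := p_S2_UQ all_ELEM all_LINE all_S2_WK
theorem all_S2_FIRST : S_S2_FIRST := p_S2_FIRST all_STAR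
theorem all_S2_PC : S_S2_PC := p_S2_PC all_ELEM all_LINE all_S2_WK all_S2_UQ all_S2_FIRST
theorem all_S2_PT2 : S_S2_PT2 := p_S2_PT2 all_ELEM all_LINE all_S2_WK all_S2_UQ
theorem all_S2_OB2 : S_S2_OB2 := p_S2_OB2 all_ELEM all_LINE all_S2_PC
theorem all_S2_BAD2 : S_S2_BAD2 := p_S2_BAD2 all_ELEM all_LINE all_PERC all_S2_TRI all_S2_PERS all_S2_WK all_S2_UQ
theorem all_S2_EXT2 : S_S2_EXT2 := p_S2_EXT2 all_ELEM all_LINE all_S2_PC
theorem all_S2_ADJ : S_S2_ADJ := p_S2_ADJ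
theorem all_S2_PART2 : S_S2_PART2 := p_S2_PART2 all_S2_INV all_S2_F0 all_S2_PC all_S2_PT2 all_S2_OB2 all_S2_BAD2 all_S2_EXT2 all_S2_ADJ all_S2_MACH
theorem all_S2 : S_S2 := p_S2 all_S2_ENV all_S2_TR0 all_S2_TR1 all_S2_TR2 all_S2_TR3 all_S2_PART1 all_S2_PART2
theorem all_FK_SUB : S_FK_SUB := p_FK_SUB
theorem all_A_LIN2 : S_A_LIN2 := p_A_LIN2 all_ELEM all_A_LINEU all_A_CE
theorem all_RTA : S_RTA := p_RTA all_TORS all_A_SMALL all_A_LIN2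
theorem all_D_SECT : S_D_SECT := p_D_SECT
theorem all_D_SETUP : S_D_SETUP := p_D_SETUP all_D_SECT
theorem all_D_BAD : S_D_BAD := p_D_BAD
theorem all_D_STB : S_D_STB := p_D_STB
theorem all_D_IMAN : S_D_IMAN := p_D_IMAN
theorem all_D_MINC : S_D_MINC := p_D_MINC all_D_IMAN
theorem all_D_FAM : S_D_FAM := p_D_FAM all_D_MINC
theorem all_D_LENS : S_D_LENS := p_D_LENS
theorem all_D_CUT0 : S_D_CUT0 := p_D_CUT0
theorem all_D_GOODFIN : S_D_GOODFIN := p_D_GOODFIN all_D_FAM all_D_LENS all_D_CUT0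
theorem all_D_STRIP : S_D_STRIP := p_D_STRIP
theorem all_D_MESH : S_D_MESH := p_D_MESH
theorem all_D_PBG : S_D_PBG := p_D_PBG
theorem all_D_PB1 : S_D_PB1 := p_D_PB1 all_D_MESH all_D_PBG
theorem all_D_PB2 : S_D_PB2 := p_D_PB2 all_D_MESH all_D_PBG
theorem all_D_CASEF : S_D_CASEF := p_D_CASEF all_D_STB all_D_GOODFIN all_D_STRIP all_D_PB1 all_D_PB2
theorem all_D_INDUCE : S_D_INDUCE := p_D_INDUCE
theorem all_D_REFINE : S_D_REFINE := p_D_REFINE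
theorem all_D_LPCLEAN : S_D_LPCLEAN := p_D_LPCLEAN
theorem all_D_SLIDE : S_D_SLIDE := p_D_SLIDE
theorem all_D_TRIM : S_D_TRIM := p_D_TRIM
theorem all_D_LPSTEP : S_D_LPSTEP := p_D_LPSTEP all_D_LPCLEAN all_D_SLIDE all_D_TRIM
theorem all_D_LPA : S_D_LPA := p_D_LPA
theorem all_D_FOREST : S_D_FOREST := p_D_FOREST
theorem all_D_LPB : S_D_LPB := p_D_LPB all_D_FOREST
theorem all_D_LP : S_D_LP := p_D_LP all_D_REFINE all_D_LPCLEAN all_D_LPSTEP all_D_LPA all_D_LPB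
theorem all_D_EGE : S_D_EGE := p_D_EGE all_D_MINC all_D_FOREST
theorem all_D_TREE : S_D_TREE := p_D_TREE all_D_EGE
theorem all_D_NOISO : S_D_NOISO := p_D_NOISO
theorem all_D_SWITCH : S_D_SWITCH := p_D_SWITCH
theorem all_D_THINFIN : S_D_THINFIN := p_D_THINFIN all_D_MINC all_D_EGE all_D_FOREST
theorem all_D_DICH : S_D_DICH := p_D_DICH all_D_NOISO all_D_SWITCH all_D_THINFIN
theorem all_D_SURF1 : S_D_SURF1 := p_D_SURF1
theorem all_D_SURF2 : S_D_SURF2 := p_D_SURF2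
theorem all_D_RET : S_D_RET := p_D_RET
theorem all_D_ONE : S_D_ONE := p_D_ONE all_D_LP all_D_TREE all_D_DICH all_D_SURF1 all_D_SURF2 all_D_RET
theorem all_D_PATHS : S_D_PATHS := p_D_PATHS
theorem all_D_STRAND : S_D_STRAND := p_D_STRAND all_D_PATHS
theorem all_D_ESS : S_D_ESS := p_D_ESS all_D_RET
theorem all_D_SAT : S_D_SAT := p_D_SAT all_D_ONE all_D_RET all_D_STRAND all_D_ESS
theorem all_D_GOODTHIN : S_D_GOODTHIN := p_D_GOODTHIN all_D_FAM all_D_LENS all_D_CUT0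
theorem all_D_HULL : S_D_HULL := p_D_HULL
theorem all_D_HULLN : S_D_HULLN := p_D_HULLN
theorem all_D_DISC : S_D_DISC := p_D_DISC
theorem all_D_STAGE1 : S_D_STAGE1 := p_D_STAGE1 all_D_DISC
theorem all_D_STAGE2 : S_D_STAGE2 := p_D_STAGE2 all_D_DISC
theorem all_D_STG : S_D_STG := p_D_STG all_D_HULLN all_D_RET all_D_DISC all_D_STAGE1 all_D_STAGE2
theorem all_D_CODE : S_D_CODE := p_D_CODE
theorem all_D_EXTEND : S_D_EXTEND := p_D_EXTEND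
theorem all_D_DEFORM : S_D_DEFORM := p_D_DEFORM all_D_EXTEND
theorem all_D_GENQ : S_D_GENQ := p_D_GENQ
theorem all_D_EXTC : S_D_EXTC := p_D_EXTC
theorem all_D_EXT : S_D_EXT := p_D_EXT all_D_EXTC
theorem all_D_SHOM : S_D_SHOM := p_D_SHOM all_D_EXT
theorem all_D_AUT : S_D_AUT := p_D_AUT all_D_SHOM
theorem all_D_MATCH : S_D_MATCH := p_D_MATCH all_D_DEFORM all_D_GENQ all_D_SHOM all_D_AUT
theorem all_D_T0EQ : S_D_T0EQ := p_D_T0EQ
theorem all_D_QEQ : S_D_QEQ := p_D_QEQ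
theorem all_D_TYPE : S_D_TYPE := p_D_TYPE all_D_HULL all_D_STG all_D_CODE all_D_MATCH all_D_GENQ all_D_T0EQ all_D_QEQ
theorem all_D_PART : S_D_PART := p_D_PART all_D_MINC all_D_FAM
theorem all_D_IOTA : S_D_IOTA := p_D_IOTA all_D_EXT
theorem all_D_OUT3 : S_D_OUT3 := p_D_OUT3 all_D_EXT all_D_PART all_D_IOTA
theorem all_D_CASEI : S_D_CASEI := p_D_CASEI all_D_MINC all_D_STB all_D_INDUCE all_D_SAT all_D_GOODTHIN all_D_STRIP all_D_PB1 all_D_PB2 all_D_TYPE all_D_OUT3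
theorem all_MACH : S_MACH := p_MACH all_D_SETUP all_D_BAD all_D_CASEF all_D_CASEI
theorem all_GISO : S_GISO := p_GISO all_ELEM all_GRAFT
theorem all_REFL1 : S_REFL1 := p_REFL1 all_CVX all_EXTGC all_REFL0 all_GRAFT all_GISO
theorem all_MOVE : S_MOVE := p_MOVE all_EXTGC all_GRAFT all_GISO
theorem all_E_END : S_E_END := p_E_END all_REFL1 all_MOVE
theorem all_NO1 : S_NO1 := p_NO1 all_FRAME all_CVX all_MICL all_E_END
theorem all_E_TRL : S_E_TRL := p_E_TRL all_LINE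
theorem all_E_ORI : S_E_ORI := p_E_ORI all_ELEM all_PERC all_E_TRL
theorem all_NO2 : S_NO2 := p_NO2 all_ELEM all_LINE all_CVX all_MICE all_E_END all_E_ORI
theorem all_A_GB : S_A_GB := p_A_GB all_A_OVM
theorem all_GMAC : S_GMAC := p_GMAC all_A_BW2 all_A_BWM all_A_GB
theorem all_NO3 : S_NO3 := p_NO3 all_FRAME all_GMAC all_CVX all_EXTGC all_LET all_E_END all_E_LIP
theorem all_S1 : S_S1 := p_S1 all_RTA all_MACH all_NO1 all_NO2 all_NO3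
theorem all_FK_DEC : S_FK_DEC := p_FK_DEC all_S1
theorem all_FK_EXP : S_FK_EXP := p_FK_EXP all_CVX all_ROOT all_GRAFT
theorem all_FK_ELIM : S_FK_ELIM := p_FK_ELIM all_TORS all_ELEM all_LINE all_NORM
theorem all_FK_ZORN : S_FK_ZORN := p_FK_ZORN
theorem all_FK_NB : S_FK_NB := p_FK_NB all_FK_SUB all_FK_DEC all_FK_ELIM all_FK_ZORN
theorem all_FK_STEP : S_FK_STEP := p_FK_STEP all_FK_SUB all_FK_DEC all_FK_EXP all_FK_NB
theorem all_FK_CORE : S_FK_CORE := p_FK_CORE all_S2 all_FK_SUB all_FK_STEP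
theorem all_KEY : S_KEY := p_KEY all_COUNT all_FK_MAX all_FK_CORE
theorem all_TR : S_TR := p_TR all_KEY
theorem all_G_FAC : S_G_FAC := p_G_FAC
theorem all_G_I1 : S_G_I1 := p_G_I1 all_CVX all_EXTGC all_B_SMALL all_B_APX all_G_FAC
theorem all_G_I2 : S_G_I2 := p_G_I2
theorem all_G_I5 : S_G_I5 := p_G_I5 all_TORS all_ELEM all_CVX all_EXTGC all_ROOT all_RIG
theorem all_G_PROG : S_G_PROG := p_G_PROG
theorem all_G_PROJ : S_G_PROJ := p_G_PROJ all_B_APX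
theorem all_G_LEAST : S_G_LEAST := p_G_LEAST
theorem all_G_BEST1 : S_G_BEST1 := p_G_BEST1 all_G_PROJ all_G_LEAST
theorem all_G_COH : S_G_COH := p_G_COH all_ELEM all_PERC all_ROOT
theorem all_G_COIN : S_G_COIN := p_G_COIN all_TORS all_ELEM all_CVX all_EXTGC all_ROOT all_G_COH
theorem all_G_BEST2 : S_G_BEST2 := p_G_BEST2 all_CVX all_EXTGC all_G_PROJ all_G_LEAST all_G_COH all_G_COIN
theorem all_G_LE3 : S_G_LE3 := p_G_LE3 all_CVX all_EXTGC all_ROOT all_G_LEAST all_G_COH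
theorem all_G_BEST3 : S_G_BEST3 := p_G_BEST3 all_ELEM all_LINE all_CVX all_NORM all_G_PROJ all_G_BEST1 all_G_LE3
theorem all_IND : S_IND := p_IND all_CVX all_EXTGC all_B_APX all_G_I1 all_G_I2 all_G_I5 all_G_PROG all_G_BEST1 all_G_BEST2 all_G_BEST3
theorem all_PAIR : S_PAIR := p_PAIR all_ELEM all_CVX all_EXTGC all_TWO all_IND
theorem all_STAB0 : S_STAB0 := p_STAB0 all_TR all_PAIR
theorem all_FIN0 : S_FIN0 := p_FIN0 all_HG all_SLIM all_STAB0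

end Pool.Agent.P.MP_dba3d2_lc
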