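import Pool.Agent.P.MP_dba3d2_lcM.Ab05
import Pool.Agent.P.MP_dba3d2_lcM.Bb10
import Pool.Agent.P.MP_dba3d2_lcM.Cb11
import Pool.Agent.P.MP_dba3d2_lcM.Cb12
import Pool.Agent.P.MP_dba3d2_lcM.Cb13

section

/-! Step C_UPN of the stability project. -/

namespace Pool.Agent.P.MP_dba3d2_lc

open Filter

namespace C_upnA

section graph
variable {M G : Type} [Group M] [Group G] {X : Subgroup M}

/-- the graph of a homomorphism on a subgroup -/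
def gr (θ : X →* G) : Subgroup (M × G) := (X.subtype.prod θ).range

theorem mem_gr {θ : X →* G} {p : M × G} : p ∈ gr θ ↔ ∃ h : p.1 ∈ X, θ ⟨p.1, h⟩ = p.2 :=
  ⟨by rintro ⟨x, rfl⟩; exact ⟨x.2, rfl⟩, fun ⟨h, e⟩ => ⟨⟨p.1, h⟩, Prod.ext rfl e⟩⟩

theorem gr_sur (θ : X →* G) {x : M} (h : x ∈ X) : ∃ p ∈ gr θ, p.1 = x := ⟨_, ⟨⟨x, h⟩, rfl⟩, rfl⟩

theorem gr_le {θ : X →* G} {H : Subgroup (M × G)} (h : X ≤ (gr θ ⊓ H).map (MonoidHom.fst M G))
    (x : X) : ((x : M), θ x) ∈ H := by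
  obtain ⟨_, ⟨⟨y, rfl⟩, k⟩, e⟩ := h x.2
  obtain rfl : y = x := Subtype.ext e
  exact k

end graph

variable {Γ : HG} {a : Amb} {G : Type} [Group G] (F : Bool → Subgroup (MM Γ a)) (c : MM Γ a)
  (X Y : Subgroup (MM Γ a × G))

/-- the lift of the base -/
def LB : Subgroup (MM Γ a × G) := X ⊓ (XF F none).comap (MonoidHom.fst _ _)

/-- the lift of the exponents -/
def LE (d : MM Γ a) : Subgroup (MM Γ a × G) where
  carrier := {t | t.1 ∈ EF F d ∧ (∀ b ∈ LB F X, Cj b.1 c d → b⁻¹ * t * b ∈ Y) ∧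
    ((¬ ∃ b ∈ XF F none, Cj b c d) → t ∈ X)}
  one_mem' := ⟨one_mem _, fun _ _ _ => by simp, fun _ => one_mem _⟩
  mul_mem' := fun {s t} hs ht => ⟨mul_mem hs.1 ht.1, fun b h k => by
    simpa [mul_assoc] using mul_mem (hs.2.1 b h k) (ht.2.1 b h k),
    fun k => mul_mem (hs.2.2 k) (ht.2.2 k)⟩
  inv_mem' := fun {s} hs => ⟨inv_mem hs.1, fun b h k => by
    simpa [mul_assoc] using inv_mem (hs.2.1 b h k), fun k => inv_mem (hs.2.2 k)⟩

variable {F c X Y}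

/-- the cover -/
def cov (hc : ∀ g, Cj g c c → InE c g)
    (x1 : ∀ x ∈ NS F {d | d ∈ PM F ∧ ¬ ∃ b ∈ XF F none, Cj b c d}, ∃ p ∈ X, p.1 = x)
    (x2 : ∀ p ∈ X, p.1 = 1 → p = 1) (y1 : ∀ y ∈ EF F c, ∃ p ∈ Y, p.1 = y)
    (A : ∀ p : MM Γ a × G, p.1 ∈ XF F none → InE c p.1 → (p ∈ X ↔ p ∈ Y)) :
    Cv F (MM Γ a × G) where
  π := MonoidHom.fst _ _
  L := Sum.elim (fun _ => LB F X) (LE F c X Y)
  S o := o = none
  s0 := rfl
  le := by
    rintro (_ | d) h x hx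
    · cases h
      exact hx.2
    · exact hx.1
  sur := by
    rintro (_ | d) h y hy
    · cases h
      obtain ⟨p, h1, rfl⟩ := x1 y (Subgroup.mem_sup_left hy)
      exact ⟨p, ⟨h1, hy⟩, rfl⟩
    by_cases k : ∃ b ∈ XF F none, Cj b c d
    · obtain ⟨b, hb, k⟩ := k
      obtain ⟨b, h1, rfl⟩ := x1 b (Subgroup.mem_sup_left hb)
      obtain ⟨p, h2, e⟩ := y1 _ (EF_conj' hb k hy)
      have e' : (b * p * b⁻¹).1 = y := by simp [e, mul_assoc]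
      refine ⟨b * p * b⁻¹, ⟨e' ▸ hy, fun b' h' k' => ?_, fun n => (n ⟨_, hb, k⟩).elim⟩, e'⟩
      have m : b'⁻¹ * b ∈ Y := (A _ ((XF F none).mul_mem ((XF F none).inv_mem h'.2) hb)
        (hc _ (k'.inv.mul k))).1
        (X.mul_mem (X.inv_mem h'.1) h1)
      simpa [mul_assoc] using mul_mem (mul_mem m h2) (inv_mem m)
    · obtain ⟨p, h1, rfl⟩ := x1 y (Subgroup.mem_sup_right
        (Subgroup.mem_iSup_of_mem d (Subgroup.mem_iSup_of_mem ⟨h, k⟩ hy)))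
      exact ⟨p, ⟨hy, fun b h' k' => (k ⟨_, h'.2, k'⟩).elim, fun _ => h1⟩, rfl⟩
  inj x hx := x2 x hx.1
  mem := by
    rintro (_ | d) _ h rfl x hx hm
    · exact hx
    refine ⟨by_contra fun n => n (hx.2.2 ?_), hm⟩
    rintro ⟨b, hb, k⟩
    obtain ⟨b, h1, rfl⟩ := x1 b (Subgroup.mem_sup_left hb)
    have m := (A _ (mul_mem (mul_mem (inv_mem hb) hm) hb)
      (InE.of_mem (EF_le_Ep (EF_conj' hb k hx.1)))).2 (hx.2.1 b ⟨h1, hb⟩ k)
    exact n (by simpa [mul_assoc] using mul_mem (mul_mem h1 m) (inv_mem h1))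
  cj c1 d _ _ b hb k x hx := ⟨EF_conj hb.2 k hx.1, fun b' h' k' => by
    simpa [mul_assoc] using hx.2.1 (b⁻¹ * b') (mul_mem (inv_mem hb) h') (Cj.mul k.inv k'),
    fun n => mul_mem (mul_mem hb.1 (hx.2.2 fun ⟨b', h', k'⟩ =>
      n ⟨_, mul_mem hb.2 h', Cj.mul k k'⟩)) (inv_mem hb.1)⟩

end C_upnA

open C_upnA

theorem p_C_UPN (hELEM : S_ELEM) (hC_INJ : S_C_INJ) (hC_GRAPH : S_C_GRAPH) :
    S_C_UPN := by
  intro Γ a F hF c hc G _ θ0 θ1 hag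
  have A : ∀ p : MM Γ a × G, p.1 ∈ XF F none → InE c p.1 → (p ∈ gr θ0 ↔ p ∈ gr θ1) := by
    intro p h1 h2
    have m : p.1 ∈ XF F none ⊓ IE c := ⟨h1, mem_IE.2 h2⟩
    rw [mem_gr, mem_gr]
    exact ⟨fun ⟨h, e⟩ => ⟨Subgroup.mem_sup_right m, (hag ⟨_, h⟩ _ m rfl).symm.trans e⟩,
      fun ⟨h, e⟩ => ⟨Subgroup.mem_sup_left h1, (hag _ ⟨_, h⟩ m rfl).trans e⟩⟩
  let C : Cv F (MM Γ a × G) := cov (fun g => ((hELEM Γ a c hc.2.1.1).2.2.2.1 g).2)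
    (fun _ => gr_sur θ0) (by
      rintro _ ⟨x, rfl⟩ e
      obtain rfl : x = 1 := Subtype.ext e
      exact map_one _) (fun _ h => gr_sur θ1 (Subgroup.mem_sup_left h)) A
  refine hC_GRAPH _ G _ _ θ0 θ1 C.PP (gr_le (sup_le (fun y hy => ?_) (iSup₂_le fun d hd y hy => ?_)))
    (gr_le (sup_le (fun y hy => ?_) fun y hy => ?_)) fun g hg =>
      congrArg Prod.snd (hC_INJ Γ a F hF _ C _ hg rfl)
  · obtain ⟨p, h, e⟩ := C.sur (.inl none) rfl y hy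
    exact ⟨p, ⟨h.1, Cv.L_le_PP (t := .inl none) C.s0 h⟩, e⟩
  · obtain ⟨p, h, e⟩ := C.sur (.inr d) hd.1 y hy
    exact ⟨p, ⟨h.2.2 hd.2, Cv.L_le_PP (t := .inr d) hd.1 h⟩, e⟩
  · obtain ⟨p, h, e⟩ := C.sur (.inr c) hc y hy
    exact ⟨p, ⟨by simpa using h.2.1 1 (one_mem _) (Cj.one_iff.2 rfl),
      Cv.L_le_PP (t := .inr c) hc h⟩, e⟩
  · obtain ⟨p, h, rfl⟩ := C.sur (.inl none) rfl y hy.1
    exact ⟨p, ⟨(A p hy.1 (mem_IE.1 hy.2)).1 h.1, Cv.L_le_PP (t := .inl none) C.s0 h⟩, rfl⟩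

end Pool.Agent.P.MP_dba3d2_lc


end

section

/-! Step C_TORQ of the stability project. -/

namespace Pool.Agent.P.MP_dba3d2_lc

open Filter

theorem p_C_TORQ (hELEM : S_ELEM) :
    S_C_TORQ := by
  intro Γ a c hc
  obtain ⟨-, -, e3, -, -, -, -, -, e9, e10⟩ := hELEM Γ a c hc
  let T : Subgroup (Ep c) :=
    { carrier := {f | IsOfFinOrder (f : MM Γ a)}
      mul_mem' := fun {f g} hf hg => e3 f f.2 g g.2 hf hg
      one_mem' := IsOfFinOrder.one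
      inv_mem' := fun {f} hf => IsOfFinOrder.inv hf }
  have hT : T.Normal := ⟨fun f hf g => (finOrder_conj (g : MM Γ a) f).2 hf⟩
  have h1 : ∀ f : Ep c, QuotientGroup.mk' T f = 1 ↔ IsOfFinOrder (f : MM Γ a) := fun f =>
    QuotientGroup.eq_one_iff f
  have hcm : ∀ x y : Ep c ⧸ T, x * y = y * x := by
    intro x y
    obtain ⟨f, rfl⟩ := QuotientGroup.mk'_surjective T x
    obtain ⟨g, rfl⟩ := QuotientGroup.mk'_surjective T y
    have := (h1 (f * g * f⁻¹ * g⁻¹)).2 (e9 f f.2 g g.2)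
    rw [map_mul, map_mul, map_mul, map_inv, map_inv, mul_inv_eq_one, mul_inv_eq_iff_eq_mul] at this
    exact this
  refine ⟨Ep c ⧸ T, { (inferInstance : Group (Ep c ⧸ T)) with mul_comm := hcm },
    QuotientGroup.mk' T, h1, fun g hg hn f f' e => ?_⟩
  have h2 : f' ^ Γ.e = (f ^ Γ.e)⁻¹ := Subtype.ext (by
    rw [Subgroup.coe_inv, Subgroup.coe_pow, Subgroup.coe_pow, e, conj_pow]
    exact e10 g hg hn f f.2)
  have h3 : QuotientGroup.mk' T ((f' * f) ^ Γ.e) = 1 := by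
    rw [map_pow, map_mul, Commute.mul_pow (hcm _ _), ← map_pow, ← map_pow, h2, map_inv,
      inv_mul_cancel]
  rw [h1, Subgroup.coe_pow] at h3
  have h4 := (h1 _).2 (h3.of_pow Γ.good.pos.ne')
  rw [map_mul] at h4
  exact eq_inv_of_mul_eq_one_left h4

end Pool.Agent.P.MP_dba3d2_lc


end

section

/-! Step C_PURE of the stability project. -/

namespace Pool.Agent.P.MP_dba3d2_lc

open Filter

theorem C_pureA.comm {Q : Type} [CommGroup Q] {x y x' y' c : Q} {n r r' : ℕ}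
    (h1 : x⁻¹ * (x' ^ n * c ^ r) = 1) (h2 : y⁻¹ * (y' ^ n * c ^ r') = 1) :
    (x * y)⁻¹ * ((x' * y') ^ n * c ^ (r + r')) = 1 := by
  rw [inv_mul_eq_one] at h1 h2 ⊢
  rw [h1, h2, mul_pow, pow_add, mul_mul_mul_comm]

theorem p_C_PURE (hC_TORQ : S_C_TORQ) (hC_EMEM : S_C_EMEM) :
    S_C_PURE := by
  intro Γ a F hF c hc hp f hf n hn
  obtain ⟨Q, _, φ, h1, -⟩ := hC_TORQ Γ a c hp.1
  obtain ⟨x, x1, y, y1, x2, y2, rfl⟩ := hC_EMEM Γ a F hF c hc hp.1 false f hf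
  obtain ⟨x', x3, x4, r, x5⟩ := (hF.gc false).pur c hc.1 hp x x1 x2 n hn
  obtain ⟨y', y3, y4, r', y5⟩ := (hF.gc true).pur c hc.2 hp y y1 y2 n hn
  refine ⟨x' * y', mul_mem (mem_EF false x3 x4) (mem_EF true y3 y4), r + r', ?_⟩
  have k : ∀ (u v : Ep c) (m : ℕ), (φ u)⁻¹ * (φ v ^ n * φ ⟨c, self_mem_Ep c⟩ ^ m) = 1 ↔
      IsOfFinOrder ((u : MM Γ a)⁻¹ * ((v : MM Γ a) ^ n * c ^ m)) := fun u v m => by
    rw [← map_pow, ← map_pow, ← map_mul, ← map_inv, ← map_mul, h1, Subgroup.coe_mul,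
      Subgroup.coe_mul, Subgroup.coe_inv, Subgroup.coe_pow, Subgroup.coe_pow]
  have k1 := C_pureA.comm ((k ⟨x, x2⟩ ⟨x', x4⟩ r).2 x5) ((k ⟨y, y2⟩ ⟨y', y4⟩ r').2 y5)
  rw [← map_mul, ← map_mul, k] at k1
  exact k1

end Pool.Agent.P.MP_dba3d2_lc


end

section

/-! Step C_FINE of the stability project. -/

namespace Pool.Agent.P.MP_dba3d2_lc

open Filter

namespace C_fineA

variable {Γ : HG} {a : Amb} {F : Bool → Subgroup (MM Γ a)} {c g h k : MM Γ a}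

theorem dec (hk : k ∈ EPM F c) : ∃ e ∈ EF F c, ∃ i ∈ XF F none, InE c i ∧ k = e * i := by
  let S : Subgroup (MM Γ a) :=
    { carrier := {k | ∃ e ∈ EF F c, ∃ i ∈ XF F none, InE c i ∧ k = e * i}
      one_mem' := ⟨1, one_mem _, 1, one_mem _, InE.of_mem (one_mem _), (one_mul 1).symm⟩
      mul_mem' := by
        rintro _ _ ⟨e, h1, i, h2, h3, rfl⟩ ⟨e', k1, i', k2, k3, rfl⟩
        exact ⟨e * (i * e' * i⁻¹), mul_mem h1 (EF_conj h2 h3.cj k1), i * i', mul_mem h2 k2,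
          h3.mul k3, by group⟩
      inv_mem' := by
        rintro _ ⟨e, h1, i, h2, h3, rfl⟩
        exact ⟨i⁻¹ * e⁻¹ * i, EF_conj' h2 h3.cj (inv_mem h1), i⁻¹, inv_mem h2, h3.inv, by group⟩ }
  have : EPM F c ≤ S := sup_le
    (fun e he => ⟨e, he, 1, one_mem _, InE.of_mem (one_mem _), (mul_one e).symm⟩)
    fun i hi => ⟨1, one_mem _, i, hi.1, mem_IE.1 hi.2, (one_mul i).symm⟩
  exact this hk

theorem flip (h1 : InE c g) (h2 : g ∉ Ep c) : g * c ^ Γ.e * g⁻¹ = (c ^ Γ.e)⁻¹ :=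
  h1.resolve_left fun e => h2 (mem_Ep.2 (mul_inv_eq_iff_eq_mul.1 e))

theorem two (h1 : InE c g) (h2 : g ∉ Ep c) (k1 : InE c h) (k2 : h ∉ Ep c) : g * h ∈ Ep c := by
  refine mem_Ep.2 (mul_inv_eq_iff_eq_mul.1 ?_)
  rw [show g * h * c ^ Γ.e * (g * h)⁻¹ = g * (h * c ^ Γ.e * h⁻¹) * g⁻¹ by group, flip k1 k2,
    show g * (c ^ Γ.e)⁻¹ * g⁻¹ = (g * c ^ Γ.e * g⁻¹)⁻¹ by group, flip h1 h2, inv_inv]

end C_fineA

theorem p_C_FINE (hELEM : S_ELEM) (hROOT : S_ROOT) (hC_TORQ : S_C_TORQ) (hC_PURE : S_C_PURE) :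
    S_C_FINE := by
  rintro Γ a F hF c ⟨hc, hp, -⟩ K hK hfin
  have tor : ∀ k ∈ K, IsOfFinOrder k := fun k hk =>
    K.subtype.isOfFinOrder (isOfFinOrder_of_finite (⟨k, hk⟩ : K))
  have inE : ∀ k ∈ K, InE c k := fun k hk => by
    obtain ⟨e, h1, i, -, h3, rfl⟩ := C_fineA.dec (hK hk)
    exact (InE.of_mem (EF_le_Ep h1)).mul h3
  have easy : ∀ g ∈ EF F c, ∀ k ∈ K, k ∈ Ep c → g⁻¹ * k * g ∈ XF F none := fun g hg k hk h =>
    hF.root3 hROOT hc hp.1 (mul_mem (mul_mem (inv_mem (EF_le_Ep hg)) h) (EF_le_Ep hg))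
      ((finOrder_conj' g k).2 (tor k hk))
  by_cases h0 : ∀ k ∈ K, k ∈ Ep c
  · exact ⟨1, one_mem _, fun k hk => easy 1 (one_mem _) k hk (h0 k hk)⟩
  obtain ⟨k0, hk0, n0⟩ : ∃ k ∈ K, k ∉ Ep c := by
    by_contra n
    exact h0 fun k hk => by_contra fun e => n ⟨k, hk, e⟩
  obtain ⟨e, h1, i, h2, h3, rfl⟩ := C_fineA.dec (hK hk0)
  obtain ⟨g, hg, r, hr⟩ := hC_PURE Γ a F hF c hc hp e h1 2 two_pos
  obtain ⟨Q, _, φ, q1, q2⟩ := hC_TORQ Γ a c hp.1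
  have me := EF_le_Ep h1
  have mg := EF_le_Ep hg
  have mi : i * g * i⁻¹ ∈ Ep c := h3.cj.mem_Ep mg
  have a1 : φ ⟨_, mi⟩ = (φ ⟨g, mg⟩)⁻¹ := q2 i h3 (fun n => n0 (mul_mem me n)) _ _ rfl
  have a2 : φ ((⟨e, me⟩ : Ep c)⁻¹ * (⟨g, mg⟩ ^ 2 * ⟨c, self_mem_Ep c⟩ ^ r)) = 1 := (q1 _).2 hr
  have a3 : φ ((⟨g, mg⟩ : Ep c)⁻¹ * ⟨e, me⟩ * ⟨_, mi⟩ * (⟨c, self_mem_Ep c⟩ ^ r)⁻¹) = 1 := by
    rw [map_mul, map_inv, inv_mul_eq_one, map_mul, map_pow] at a2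
    rw [map_mul, map_mul, map_mul, map_inv, map_inv, a1, a2, mul_inv_eq_one, pow_two,
      mul_assoc (φ ⟨g, mg⟩), inv_mul_cancel_left, mul_inv_cancel_comm]
  have a4 : g⁻¹ * e * (i * g * i⁻¹) * (c ^ r)⁻¹ ∈ XF F none :=
    hF.root3 hROOT hc hp.1 (mul_mem (mul_mem (mul_mem (inv_mem mg) me) mi)
      (inv_mem (pow_mem (self_mem_Ep c) r))) ((q1 _).1 a3)
  have a5 : g⁻¹ * (e * i) * g ∈ XF F none := by
    have := mul_mem (mul_mem a4 (pow_mem hc r)) h2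
    rwa [show g⁻¹ * e * (i * g * i⁻¹) * (c ^ r)⁻¹ * c ^ r * i = g⁻¹ * (e * i) * g by group] at this
  refine ⟨g, hg, fun k hk => ?_⟩
  by_cases n : k ∈ Ep c
  · exact easy g hg k hk n
  · have := mul_mem (easy g hg _ (mul_mem hk (inv_mem hk0))
      (C_fineA.two (inE k hk) n (inE _ hk0).inv (by rwa [inv_mem_iff]))) a5
    rwa [show g⁻¹ * (k * (e * i)⁻¹) * g * (g⁻¹ * (e * i) * g) = g⁻¹ * k * g by group] at this

end Pool.Agent.P.MP_dba3d2_lc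


end

section

/-! Step C_FINN of the stability project. -/

namespace Pool.Agent.P.MP_dba3d2_lc

open Filter

namespace C_finnA

variable {Γ : HG} {a : Amb} {F : Bool → Subgroup (MM Γ a)}

theorem ef_le {S : Set (MM Γ a)} {c : MM Γ a} (h : c ∈ S) : EF F c ≤ NS F S :=
  le_sup_of_le_right (le_iSup₂_of_le (f := fun c (_ : c ∈ S) => EF F c) c h le_rfl)

theorem ns_mono {S T : Set (MM Γ a)} (h : S ⊆ T) : NS F S ≤ NS F T :=
  sup_le le_sup_left (iSup₂_le fun _ hc => ef_le (h hc))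

/-- elements of the group have finite support -/
theorem supp {T : Set (MM Γ a)} {x : MM Γ a} (hx : x ∈ NS F T) :
    ∃ S : Finset (MM Γ a), (S : Set (MM Γ a)) ⊆ T ∧ x ∈ NS F S := by
  classical
  let U : Subgroup (MM Γ a) :=
    { carrier := {x | ∃ S : Finset (MM Γ a), (S : Set (MM Γ a)) ⊆ T ∧ x ∈ NS F S}
      one_mem' := ⟨∅, by simp, one_mem _⟩
      mul_mem' := by
        rintro x y ⟨S, h1, h2⟩ ⟨S', h3, h4⟩
        refine ⟨S ∪ S', by simpa using ⟨h1, h3⟩, mul_mem (ns_mono ?_ h2) (ns_mono ?_ h4)⟩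
        · simp
        · simp
      inv_mem' := by
        rintro x ⟨S, h1, h2⟩
        exact ⟨S, h1, inv_mem h2⟩ }
  have : NS F T ≤ U := sup_le (fun y hy => ⟨∅, by simp, Subgroup.mem_sup_left hy⟩)
    (iSup₂_le fun c hc y hy => ⟨{c}, by simpa using hc, ef_le (by simp) hy⟩)
  exact this hx

theorem suppK {T : Set (MM Γ a)} {K : Subgroup (MM Γ a)} (hK : K ≤ NS F T) (hf : Finite K) :
    ∃ S : Finset (MM Γ a), (S : Set (MM Γ a)) ⊆ T ∧ K ≤ NS F S := by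
  classical
  choose S h1 h2 using fun k : K => supp (hK k.2)
  have := Fintype.ofFinite K
  refine ⟨Finset.univ.biUnion S, fun c hc => ?_, fun k hk => ns_mono ?_ (h2 ⟨k, hk⟩)⟩
  · obtain ⟨k, -, hk⟩ := Finset.mem_biUnion.1 (Finset.mem_coe.1 hc)
    exact h1 k hk
  · exact Finset.coe_subset.2 (Finset.subset_biUnion_of_mem S (Finset.mem_univ _))

theorem rednt_mono {G : Type} [Group G] {A B : Bool → Subgroup G} {C : Subgroup G}
    (h : RedNT A C) (hB : ∀ i, B i ≤ A i) : RedNT B C := fun l h1 h2 h3 =>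
  h l h1 (fun s hs => ⟨hB _ (h2 s hs).1, (h2 s hs).2⟩) h3

theorem conjK {G : Type} [Group G] {K X N M : Subgroup G} (hf : Finite K) {p : G} (hp : p ∈ N)
    (h : ∀ k ∈ K, p⁻¹ * k * p ∈ X)
    (ih : ∀ K' : Subgroup G, K' ≤ X → Finite K' → ∃ q ∈ N, ∀ k ∈ K', q⁻¹ * k * q ∈ M) :
    ∃ q ∈ N, ∀ k ∈ K, q⁻¹ * k * q ∈ M := by
  obtain ⟨q, hq, h'⟩ := ih (K.map (MulAut.conj p⁻¹).toMonoidHom) (by
      rintro _ ⟨k, hk, rfl⟩
      simpa using h k hk)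
    (Finite.of_surjective _ ((MulAut.conj p⁻¹).toMonoidHom.subgroupMap_surjective K))
  refine ⟨p * q, mul_mem hp hq, fun k hk => ?_⟩
  have := h' _ ⟨k, hk, rfl⟩
  simpa [mul_assoc] using this

theorem ns_empty : NS F ((∅ : Finset (MM Γ a)) : Set (MM Γ a)) ≤ XF F none :=
  sup_le le_rfl (iSup₂_le fun c hc => absurd hc (by simp))

theorem ns_split {S T : Set (MM Γ a)} {c : MM Γ a}
    (h : ∀ d ∈ S, (¬ ∃ b ∈ XF F none, Cj b c d) → d ∈ T) : NS F S ≤ NS F T ⊔ EPM F c := by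
  refine sup_le (le_sup_of_le_left le_sup_left) (iSup₂_le fun d hd x hx => ?_)
  by_cases e : ∃ b ∈ XF F none, Cj b c d
  · obtain ⟨b, hb, e⟩ := e
    have k1 : b ∈ NS F T ⊔ EPM F c := Subgroup.mem_sup_left (Subgroup.mem_sup_left hb)
    have k2 : b⁻¹ * x * b ∈ NS F T ⊔ EPM F c :=
      Subgroup.mem_sup_right (Subgroup.mem_sup_left (EF_conj' hb e hx))
    have k3 := mul_mem (mul_mem k1 k2) (inv_mem k1)
    rwa [show b * (b⁻¹ * x * b) * b⁻¹ = x by group] at k3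
  · exact Subgroup.mem_sup_left (ef_le (h d hd e) hx)

/-- the two factor step -/
theorem two (h1 : S_C_AM1) (h2 : S_C_AM2) {G : Type} [Group G] {X X' Y C K : Subgroup G}
    (a1 : C ≤ X') (a2 : X' ≤ X) (a3 : C ≤ Y) (hU : UnivP X Y C) (hK : K ≤ X' ⊔ Y) (hf : Finite K) :
    ∃ p ∈ X' ⊔ Y, (∀ k ∈ K, p⁻¹ * k * p ∈ X') ∨ ∀ k ∈ K, p⁻¹ * k * p ∈ Y := by
  have r1 : RedNT (fun i => bif i then Y else X') C :=
    rednt_mono (h1 G X Y C (a1.trans a2) a3 hU) fun i => by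
      cases i
      exacts [a2, le_rfl]
  obtain ⟨p, hp, i, h⟩ := h2 G _ C (fun i => by
    cases i
    exacts [a1, a3]) r1 K hK hf
  refine ⟨p, hp, ?_⟩
  cases i
  exacts [.inl h, .inr h]

end C_finnA

open C_finnA in
theorem p_C_FINN (hC_AM1 : S_C_AM1) (hC_AM2 : S_C_AM2) (hC_UPN : S_C_UPN) (hC_FINE : S_C_FINE) :
    S_C_FINN := by
  classical
  intro Γ a F hF K hK hf
  obtain ⟨S, hS, hKS⟩ := suppK hK hf
  clear hK
  induction S using Finset.strongInduction generalizing K with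
  | H S ih =>
  rcases S.eq_empty_or_nonempty with rfl | ⟨c, hc⟩
  · refine ⟨1, one_mem _, fun k hk => ?_⟩
    rw [inv_one, one_mul, mul_one]
    exact ns_empty (hKS hk)
  have hcP : c ∈ PM F := hS (Finset.mem_coe.2 hc)
  obtain ⟨S', hS'⟩ : ∃ S' : Finset (MM Γ a), ∀ d, d ∈ S' ↔ d ∈ S ∧ ¬ ∃ b ∈ XF F none, Cj b c d :=
    ⟨S.filter fun d => ¬ ∃ b ∈ XF F none, Cj b c d, fun d => Finset.mem_filter⟩
  have hlt : S' ⊂ S := Finset.ssubset_iff_of_subset (fun d hd => ((hS' d).1 hd).1) |>.2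
    ⟨c, hc, fun h => ((hS' c).1 h).2 ⟨1, one_mem _, Cj.one_iff.2 rfl⟩⟩
  have hS1 : (S' : Set (MM Γ a)) ⊆ PM F := (Finset.coe_subset.2 hlt.1).trans hS
  have l1 : NS F S ≤ NS F S' ⊔ EPM F c :=
    ns_split fun d hd e => Finset.mem_coe.2 ((hS' d).2 ⟨Finset.mem_coe.1 hd, e⟩)
  have l2 : NS F S' ⊔ EPM F c ≤ NS F (PM F) :=
    sup_le (ns_mono hS1) (sup_le (ef_le hcP) (le_sup_of_le_left inf_le_left))
  have l3 : (S' : Set (MM Γ a)) ⊆ {d | d ∈ PM F ∧ ¬ ∃ b ∈ XF F none, Cj b c d} :=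
    fun d hd => ⟨hS1 hd, ((hS' d).1 (Finset.mem_coe.1 hd)).2⟩
  obtain ⟨p, hp, h | h⟩ := two hC_AM1 hC_AM2 (X' := NS F S') (le_sup_of_le_left inf_le_left)
    (ns_mono l3) le_sup_right
    (hC_UPN Γ a F hF c hcP) (hKS.trans l1) hf
  · exact conjK hf (l2 hp) h fun K' h1 h2 => ih S' hlt K' h2 hS1 h1
  · refine conjK hf (l2 hp) h fun K' h1 h2 => ?_
    obtain ⟨q, hq, h3⟩ := hC_FINE Γ a F hF c hcP K' h1 h2
    exact ⟨q, ef_le hcP hq, h3⟩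

end Pool.Agent.P.MP_dba3d2_lc


end

section

/-! Step C_FINP of the stability project. -/

namespace Pool.Agent.P.MP_dba3d2_lc

open Filter

namespace C_finpA

theorem cj {G : Type} [Group G] {K A : Subgroup G} {p : G} (hK : Finite K)
    (h : ∀ k ∈ K, p⁻¹ * k * p ∈ A) :
    ∃ K' : Subgroup G, K' ≤ A ∧ Finite K' ∧ ∀ k ∈ K, p⁻¹ * k * p ∈ K' := by
  refine ⟨K.map (MulAut.conj p⁻¹).toMonoidHom, ?_, ?_, fun k hk => ⟨k, hk, by simp⟩⟩
  · rintro _ ⟨k, hk, rfl⟩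
    simpa using h k hk
  · exact Finite.of_surjective _ ((MulAut.conj p⁻¹).toMonoidHom.subgroupMap_surjective K)

variable {Γ : HG} {a : Amb} {F : Bool → Subgroup (MM Γ a)}

theorem MI_le_F (i : Bool) : MI F i ≤ F i :=
  sup_le (M_le_F i) (iSup₂_le fun _ _ => inf_le_left)

theorem MI_le_N (i : Bool) : MI F i ≤ NS F (PM F) :=
  sup_le_sup_left (iSup₂_mono fun _ _ _ hx => mem_EF i hx.1 hx.2) _

theorem N_le_P : NS F (PM F) ≤ F false ⊔ F true :=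
  sup_le (XF_le_P none) (iSup₂_le fun _ _ => EF_le_P)

end C_finpA

open C_finpA in
theorem p_C_FINP (hC_AM1 : S_C_AM1) (hC_AM2 : S_C_AM2) (hC_UP : S_C_UP) (hC_FINN : S_C_FINN) :
    S_C_FINP := by
  intro Γ a F hF K hK fK
  have red : ∀ i, RedNT (fun j => bif j then NS F (PM F) ⊔ F (!i) else F i) (MI F i) := fun i =>
    hC_AM1 _ _ _ _ (MI_le_F i) ((MI_le_N i).trans le_sup_left) (hC_UP Γ a F hF i)
  have le1 : F false ⊔ (NS F (PM F) ⊔ F true) ≤ F false ⊔ F true :=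
    sup_le le_sup_left (sup_le N_le_P le_sup_right)
  obtain ⟨p, hp, i, h1⟩ := hC_AM2 _ _ _
    (fun j => by cases j; exacts [MI_le_F false, (MI_le_N false).trans le_sup_left]) (red false) K
    (hK.trans (sup_le_sup_left le_sup_right _)) fK
  replace hp : p ∈ F false ⊔ F true := le1 hp
  cases i
  · exact ⟨p, hp, Or.inl h1⟩
  obtain ⟨K1, l1, f1, m1⟩ := cj fK h1
  have red2 : RedNT (fun j => bif j then NS F (PM F) else F true) (MI F true) :=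
    fun l h0 h1 h2 => red true l h0 (fun s hs => ⟨by
      have := (h1 s hs).1
      rcases s with ⟨_ | _, x⟩
      exacts [this, Subgroup.mem_sup_left this], (h1 s hs).2⟩) h2
  obtain ⟨q, hq, j, h2⟩ := hC_AM2 _ _ _
    (fun j => by cases j; exacts [MI_le_F true, MI_le_N true]) red2 K1
    (l1.trans (sup_comm _ _).le) f1
  replace hq : q ∈ F false ⊔ F true := sup_le le_sup_right N_le_P hq
  have e : ∀ k, (p * q)⁻¹ * k * (p * q) = q⁻¹ * (p⁻¹ * k * p) * q := fun k => by group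
  cases j
  · exact ⟨p * q, mul_mem hp hq, Or.inr fun k hk => by rw [e]; exact h2 _ (m1 k hk)⟩
  obtain ⟨K2, l2, f2, m2⟩ := cj f1 h2
  obtain ⟨r, hr, h3⟩ := hC_FINN Γ a F hF K2 l2 f2
  refine ⟨p * q * r, mul_mem (mul_mem hp hq) (N_le_P hr), Or.inl fun k hk => ?_⟩
  have e' : (p * q * r)⁻¹ * k * (p * q * r) = r⁻¹ * (q⁻¹ * (p⁻¹ * k * p) * q) * r := by group
  rw [e']
  exact (h3 _ (m2 _ (m1 k hk))).1

end Pool.Agent.P.MP_dba3d2_lc


end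

section

/-! Step C_EXT0 of the stability project. -/

namespace Pool.Agent.P.MP_dba3d2_lc

open Filter

namespace C_ext0A

variable {Γ : HG} {a : Amb} {F : Bool → Subgroup (MM Γ a)} {b b' y m : MM Γ a}
  {s s' : Tg Γ a × MM Γ a} {e e' : Option (Tg Γ a × MM Γ a)} {i : Bool}

theorem mkXW (h1 : ∀ s ∈ e, EndL F b s ∧ NE b s.2⁻¹)
    (h2 : ∀ s ∈ e', EndL F b' (sinv s) ∧ NE b' s.2) (h3 : ∀ s ∈ e, ∀ s' ∈ e', Pair F s s') :
    XW F b b' e [] e' := by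
  refine ⟨h1, h2, Cv.good_of Cv.cMin_nil (Cv.wd_xw (fun s k => (h1 s k).1.ok) Cv.wd_nil
    fun s k => by simpa using (h2 s k).1.ok.inv) ?_ fun _ _ _ _ => Cv.he_nil,
    fun _ k => by cases k⟩
  cases e <;> cases e' <;> simp_all [Cv.PCh]

theorem norm1 (hN : S_NORM) (h : TwoF F) (hb : b ∈ F i) (p : Prim b) (c : Cen b) (hy : y ∈ F i) :
    ∃ f ∈ F i, f ∈ Ep b ∧ NE b (f * y)⁻¹ := by
  obtain ⟨f, f1, f2, -, f3⟩ := (hN Γ a _ (h.gc i)).1 b hb p c y⁻¹ (inv_mem hy)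
  exact ⟨f⁻¹, inv_mem f1, inv_mem f2, by simpa using f3⟩

theorem one_end (hN : S_NORM) (h : TwoF F) (k : EndL F b s) : ∃ y, EndL F b (s.1, y) ∧ NE b y⁻¹ ∧
    ∃ f ∈ LF F s.1, f ∈ Ep b ∧ y = f * s.2 := by
  rcases k.cases with ⟨rfl, -⟩ | ⟨i, y, rfl, k1, k2⟩
  · exact ⟨1, k, by simpa using ne_one b, 1, one_mem _, one_mem _, by simp⟩
  · obtain ⟨f, f1, f2, f3⟩ := norm1 hN h k2 k.axis.2.1 k.axis.2.2 k1
    exact ⟨_, ⟨k.1, mul_mem f1 k1, k.2.2⟩, f3, f, f1, f2, rfl⟩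

theorem ne_base (hE : S_ELEM) (hP : S_PERC) (hR : S_ROOT) (h : TwoF F) (p : Prim b) (c : Cen b)
    (hb : b ∉ XF F none) (hm : m ∈ XF F none) : NE b (b * m)⁻¹ := by
  rintro hν hl ⟨q, q1, q2, q3⟩
  have l := c.ll hl
  rw [inv_inv] at q2
  refine hb (h.gcm.per_mem hE hP hR hν (one_mem _) hm ?_ (by simpa using q1)
    (on_left hν.pos.le _ _) ?_ p q3)
  · refine Ls.mono_left ?_ (l.ls.add (Ls.refl' _))
    rw [ln_inv]
    simpa using ln_mul_le b⁻¹ (b * m)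
  · refine (q2.mul b⁻¹).congr (FixA.ll_comm (fix_inv q3.2)) (by simpa [ds] using l) ?_
    rw [inv_mul_cancel_left]
    exact FixA.ll_self hν.pos.le _

theorem norm2 (hE : S_ELEM) (hP : S_PERC) (hR : S_ROOT) (hN : S_NORM) (h : TwoF F)
    (t : Typ F (some i) b) (hy : y ∈ F i) :
    ∃ f ∈ F i, f ∈ Ep b ∧ NE b (f * y)⁻¹ ∧ f * y ∉ XF F none := by
  obtain ⟨f, f1, f2, f3⟩ := norm1 hN h t.1 t.2.1 t.2.2.1 hy
  by_cases k : f * y ∈ XF F none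
  · have hb : b ∉ XF F none := by simpa using t.2.2.2 (by simp) 1 (one_mem _)
    refine ⟨b * f, mul_mem t.1 f1, mul_mem (self_mem_Ep b) f2, ?_, ?_⟩ <;> rw [mul_assoc]
    · exact ne_base hE hP hR h t.2.1 t.2.2.1 hb k
    · rwa [mul_mem_cancel_right k]
  · exact ⟨f, f1, f2, f3, k⟩

/-- the conclusion for two ends -/
def Co (F : Bool → Subgroup (MM Γ a)) (b b' : MM Γ a) (s s' : Tg Γ a × MM Γ a) : Prop :=
  ∃ y y', (EndL F b (s.1, y) ∧ NE b y⁻¹) ∧ (EndL F b' (s'.1, y'⁻¹) ∧ NE b' y') ∧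
    Pair F (s.1, y) (s'.1, y') ∧ ∃ f ∈ LF F s.1, ∃ f' ∈ LF F s'.1, f ∈ Ep b ∧ f' ∈ Ep b' ∧
      y * y' = f * (s.2 * s'.2) * f'

theorem Co.symm (h : Co F b' b (sinv s') (sinv s)) : Co F b b' s s' := by
  obtain ⟨y, y', h1, h2, h3, f, f1, f', f2, f3, f4, e⟩ := h
  refine ⟨y'⁻¹, y⁻¹, by simpa using h2, by simpa using h1, h3.inv, f'⁻¹, inv_mem f2, f⁻¹,
    inv_mem f1, inv_mem f4, inv_mem f3, ?_⟩
  rw [← mul_inv_rev, e]
  simp [mul_assoc]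

theorem co_ef (hN : S_NORM) (h : TwoF F) (k : EndL F b (.inr b, 1))
    (k' : EndL F b' (.inl (some i), y⁻¹)) (n : ¬ Cj y b' b) :
    Co F b b' (.inr b, 1) (.inl (some i), y) := by
  have hy : y ∈ F i := inv_mem_iff.1 k'.2.1
  obtain ⟨f, f1, f', f2, f3, f4, f5, f6, -⟩ := (hN Γ a _ (h.gc i)).2 b (M_le_F i k.2.1) b' k'.2.2.1
    k.axis.2.1 k'.axis.2.1 k.axis.2.2 k'.axis.2.2 y hy n
  exact ⟨1, f * y * f', ⟨k, by simpa using ne_one b⟩,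
    ⟨⟨k'.1, inv_mem (mul_mem (mul_mem f1 hy) f2), k'.2.2⟩, f6⟩, f5, f, mem_EF i f1 f3, f', f2,
    f3, f4, by simp⟩

end C_ext0A

open C_ext0A in
theorem p_C_EXT0 (hELEM : S_ELEM) (hPERC : S_PERC) (hROOT : S_ROOT) (hNORM : S_NORM) (hC_PRE : S_C_PRE) :
    S_C_EXT0 := by
  intro Γ a F h b b' e e' h1 h2 h3
  rcases e with _ | s <;> rcases e' with _ | s'
  · exact ⟨none, none, rfl, rfl, mkXW (by simp) (by simp) (by simp), 1, one_mem _, 1, one_mem _,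
      one_mem _, one_mem _, by simp⟩
  · obtain ⟨y, k1, k2, f, f1, f2, rfl⟩ := one_end hNORM h (h2 s' rfl).1
    exact ⟨none, some (s'.1, s'.2 * f⁻¹), rfl, rfl,
      mkXW (by simp) (by simpa [sinv] using And.intro k1 k2) (by simp), 1, one_mem _, f⁻¹, inv_mem f1,
      one_mem _, inv_mem f2, by simp⟩
  · obtain ⟨y, k1, k2, f, f1, f2, rfl⟩ := one_end hNORM h (h1 s rfl).1
    exact ⟨some (s.1, f * s.2), none, rfl, rfl,
      mkXW (by simpa using ⟨k1, by simpa using k2⟩) (by simp) (by simp), f, f1, 1, one_mem _,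
      f2, one_mem _, by simp⟩
  obtain ⟨k, t⟩ := h1 s rfl
  obtain ⟨k', t'⟩ := h2 s' rfl
  obtain ⟨n, d⟩ := h3 s rfl s' rfl
  suffices H : Co F b b' s s' by
    obtain ⟨y, y', a1, a2, a3, f, f1, f', f2, f3, f4, e⟩ := H
    exact ⟨some (s.1, y), some (s'.1, y'), rfl, rfl, mkXW (by simpa using a1)
      (by simpa [sinv] using a2) (by simpa using a3), f, f1, f', f2, f3, f4, by simpa using e⟩
  obtain ⟨s', rfl⟩ : ∃ r, s' = sinv r := ⟨sinv s', sinv_sinv.symm⟩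
  rw [sinv_sinv] at k'
  rcases k.cases with ⟨rfl, -⟩ | ⟨i, y, rfl, y1, b1⟩ <;>
    rcases k'.cases with ⟨rfl, -⟩ | ⟨j, y', rfl, y2, b2⟩
  · exact ⟨1, 1, ⟨k, by simpa using ne_one b⟩, ⟨by simpa using k', ne_one b'⟩,
      fun e => n (by simpa using Cj.one_iff.2 e.symm), 1, one_mem _, 1, one_mem _, one_mem _,
      one_mem _, by simp⟩
  · exact co_ef hNORM h k (by simpa using k') (by simpa using n)
  · refine Co.symm ?_
    rw [sinv_sinv]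
    exact co_ef hNORM h k' (by simpa using k) fun e => n (by simpa using e.inv)
  obtain rfl : j = !i := Bool.eq_not.2 fun e => d _ rfl (by simp [e])
  obtain ⟨f, f1, f2, g, g1, g2, g3, g4⟩ := hC_PRE Γ a F h i b y (.inl (some (!i))) b1 t.2.1
    t.2.2.1 y1 (t.2.2.2 (by simp) y y1) (.inl rfl)
  obtain ⟨f', p1, p2, p3⟩ := norm1 hNORM h b2 t'.2.1 t'.2.2.1 (mul_mem y2 g2)
  have m1 := mul_mem (mul_mem f1 y1) g1
  by_cases q : (f' * (y' * g))⁻¹ ∈ XF F none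
  · have m2 := mul_mem m1 (M_le_F i q)
    obtain ⟨f3, r1, r2, r3, r4⟩ := norm2 hELEM hPERC hROOT hNORM h t m2
    exact ⟨_, 1, ⟨⟨k.1, mul_mem r1 m2, k.2.2⟩, r3⟩, ⟨⟨k'.1, inv_mem (one_mem _), k'.2.2⟩, ne_one b'⟩,
      ⟨i, rfl, rfl, .inr ⟨fun _ _ _ e => absurd e.pos (by simp), r4⟩⟩, f3 * f, mul_mem r1 f1,
      f'⁻¹, inv_mem p1, mul_mem r2 f2, inv_mem p2, by simp [mul_assoc]⟩
  · exact ⟨_, _, ⟨⟨k.1, m1, k.2.2⟩, g3⟩,
      ⟨⟨k'.1, inv_mem (inv_mem (mul_mem p1 (mul_mem y2 g2))), k'.2.2⟩, p3⟩, g4 _ fun _ => q,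
      f, f1, f'⁻¹, inv_mem p1, f2, inv_mem p2, by simp [mul_assoc]⟩

end Pool.Agent.P.MP_dba3d2_lc


end

section

/-! Step C_GEOP of the stability project. -/

namespace Pool.Agent.P.MP_dba3d2_lc

open Filter

theorem p_C_GEOP (hC_T : S_C_T) (hC_JLONG : S_C_JLONG) (hC_JSHORT : S_C_JSHORT) (hC_PATHW : S_C_PATHW) (hC_LEFT : S_C_LEFT) :
    S_C_GEOP := by
  intro Γ a F T
  have k : ∀ ν s z s', Big ν → (idC F).JOK s z s' → ¬ Ovp F ν s (vl z) s' :=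
    fun ν s z s' hν j ho => hC_JSHORT Γ a F T _ (idC F) ν s z s' hν j
      (hC_JLONG Γ a F T _ (idC F) ν s z s' hν j.okl j.okr j.min (idC_lift _ _ _)
        (hC_T Γ a F T _ j.min.1.mem_P _ _) ho) ho
  have k1 : ∀ w, (idC F).Good w → (idC F).NzE w → Nice F w := fun w hw hz =>
    ⟨hw.1, hz, fun ν hν hl => by
      by_contra hc
      obtain ⟨A, s, z, s', B, rfl, -, -, -, ho⟩ := hC_PATHW Γ a F T _ (idC F) ν w hν hw.1 hz hl hc
      exact k ν s z s' hν hw.jok ho⟩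
  refine ⟨k1, fun b s v hw hz he hf hn hb _ hfo => ?_⟩
  rw [inv_inv, ln_inv] at hfo
  rw [ln_inv] at hb
  have N := k1 _ hw hz
  obtain ⟨z, s', B, rfl, -, ho⟩ := hC_LEFT Γ a F T _ b s v hb he hf hn hw.1 hz
    (N.ls hb (Ls.refl' _)) (N.geo' hb (Ls.refl' _)) hfo
  exact k _ s z s' hb (Cv.Good.jok (p := []) hw) ho

end Pool.Agent.P.MP_dba3d2_lc


end

section

/-! Step C_NFX of the stability project. -/

namespace Pool.Agent.P.MP_dba3d2_lc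

open Filter

namespace C_nfxA

variable {Γ : HG} {a : Amb} {F : Bool → Subgroup (MM Γ a)} {b b' x x1 f f' : MM Γ a}
  {e e' e1 e1' : Option (Tg Γ a × MM Γ a)} {u : List (Tg Γ a × MM Γ a)} {n n1 : ℕ}

/-- the conclusion -/
def Out (F : Bool → Subgroup (MM Γ a)) (b b' : MM Γ a) (e : Option (Tg Γ a × MM Γ a)) (n : ℕ)
    (e' : Option (Tg Γ a × MM Γ a)) (x : MM Γ a) : Prop :=
  ∃ w f f', Nice F w ∧ ct w ≤ n + (e.elim 0 fun s => k0 s.1) + (e'.elim 0 fun s => k0 s.1) ∧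
    (∀ s ∈ e, SolL (bt s.1) w ∧ NE b (vl w)⁻¹) ∧ (∀ s ∈ e', SolL (bt s.1) (winv w) ∧ NE b' (vl w)) ∧
    f ∈ (idC F).LO e ∧ f' ∈ (idC F).LO e' ∧ f ∈ Ep b ∧ f' ∈ Ep b' ∧ vl w = f * x * f'

theorem tag (t : e1.map Prod.fst = e.map Prod.fst) : ∀ s ∈ e, ∃ s1 ∈ e1, s1.1 = s.1 :=
  fun _ hs => Option.mem_map.1 (t ▸ Option.mem_map_of_mem Prod.fst hs)

theorem tag_k (t : e1.map Prod.fst = e.map Prod.fst) :
    (e1.elim 0 fun s => k0 s.1) = e.elim 0 fun s => k0 s.1 := by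
  cases e <;> cases e1 <;> simp_all

theorem Out.of (h : Out F b b' e1 n1 e1' x1) (t : e1.map Prod.fst = e.map Prod.fst)
    (t' : e1'.map Prod.fst = e'.map Prod.fst) (hn : n1 ≤ n) (h1 : f ∈ (idC F).LO e)
    (h2 : f' ∈ (idC F).LO e') (h3 : f ∈ Ep b) (h4 : f' ∈ Ep b') (h5 : x1 = f * x * f') :
    Out F b b' e n e' x := by
  obtain ⟨w, g, g', a1, a2, a3, a4, a5, a6, a7, a8, a9⟩ := h
  rw [tag_k t, tag_k t'] at a2
  rw [Cv.LO_tags t] at a5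
  rw [Cv.LO_tags t'] at a6
  refine ⟨w, g * f, f' * g', a1, by omega, fun s hs => ?_, fun s hs => ?_, mul_mem a5 h1,
    mul_mem h2 a6, mul_mem a7 h3, mul_mem h4 a8, by rw [a9, h5]; group⟩
  · obtain ⟨s1, k1, k2⟩ := tag t s hs
    exact k2 ▸ a3 s1 k1
  · obtain ⟨s1, k1, k2⟩ := tag t' s hs
    exact k2 ▸ a4 s1 k1

theorem toList_sinv (e : Option (Tg Γ a × MM Γ a)) : (e.map sinv).toList = winv e.toList := by
  cases e <;> simp

/-- trivial ends are removed -/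
theorem trim (he : ∀ s ∈ e, EndL F b s) : ∃ p : List (Tg Γ a × MM Γ a),
    (∀ v, Nice F (e.toList ++ v) → Nice F (p ++ v)) ∧ vl p = vl e.toList ∧
      ct p = (e.elim 0 fun s => k0 s.1) ∧ ∀ s ∈ e, ∀ v, SolL (bt s.1) (p ++ v) := by
  rcases e with _ | s
  · exact ⟨[], fun _ h => h, rfl, rfl, fun _ h => by cases h⟩
  rcases (he s rfl).cases with ⟨rfl, -⟩ | ⟨i, y, rfl, -⟩
  · refine ⟨[], fun v h => ⟨(Cv.wd_cons.1 h.wd).2, h.nz.sub (List.subset_cons_self _ _),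
      fun ν h1 h2 => (geo_cons.1 (h.geo ν h1 (by simpa using h2))).2⟩, by simp, rfl, ?_⟩
    rintro _ ⟨⟩ v h
    exact absurd rfl h
  · refine ⟨_, fun _ h => h, rfl, by simp, ?_⟩
    rintro _ ⟨⟩ v -
    exact ⟨_, rfl, rfl⟩

theorem ne_xw (hG : S_C_GEOP) (hF : TwoF F) (h : XW F b b' e u e')
    (ht : ∀ s ∈ e, Typ F (bt s.1) b) : ∀ s ∈ e, NE b (vl (xw e u e'))⁻¹ := by
  rintro s rfl
  exact (hG Γ a F hF).2 b s (u ++ e'.toList) h.good h.nzE (h.l s rfl).1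
    ((h.l s rfl).1.far (ht s rfl)) (h.l s rfl).2

theorem out_xw (hG : S_C_GEOP) (hF : TwoF F) (h : XW F b b' e u e')
    (ht : ∀ s ∈ e, Typ F (bt s.1) b) (ht' : ∀ s ∈ e', Typ F (bt s.1) b') :
    Out F b b' e (ct u) e' (vl (xw e u e')) := by
  obtain ⟨p, a1, a2, a3, a4⟩ := trim fun s hs => (h.l s hs).1
  obtain ⟨q, b1, b2, b3, b4⟩ := trim fun s hs => (h.winv.l s hs).1
  have k1 := (a1 (u ++ e'.toList)
    (by simpa [xw] using (hG Γ a F hF).1 _ h.good h.nzE)).winv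
  rw [← List.append_assoc, winv_append, ← toList_sinv] at k1
  have k2 : vl (winv (q ++ winv (p ++ u))) = vl (xw e u e') := by
    simp [xw, a2, b2, toList_sinv]
  have k3 := ne_xw hG hF h.winv fun s hs => by
    obtain ⟨s0, h0, rfl⟩ := Option.mem_map.1 hs
    exact ht' s0 h0
  rw [← winv_xw, vl_winv, inv_inv] at k3
  refine ⟨_, 1, 1, (b1 _ k1).winv, ?_, fun s hs => ⟨?_, k2 ▸ ne_xw hG hF h ht s hs⟩,
    fun s hs => ⟨?_, k2 ▸ k3 _ (Option.mem_map_of_mem sinv hs)⟩, one_mem _, one_mem _, one_mem _,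
    one_mem _, by rw [k2, one_mul, mul_one]⟩
  · rw [tag_k (e := e') (by cases e' <;> rfl)] at b3
    simp only [ct_winv, ct_append, a3, b3]
    omega
  · simpa using a4 s hs (u ++ winv q)
  · rw [winv_winv]
    exact b4 _ (Option.mem_map_of_mem sinv hs) _

/-- elements of the groups of the ends are absorbed -/
theorem absorb (he : ∀ s ∈ e, EndL F b s) (hx : x ∈ (idC F).LO e) :
    ∃ (e1 : Option (Tg Γ a × MM Γ a)) (f : MM Γ a), e1.map Prod.fst = e.map Prod.fst ∧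
      (∀ s ∈ e1, EndL F b s) ∧ f ∈ (idC F).LO e ∧ f ∈ Ep b ∧ vl e1.toList * x = f * vl e.toList := by
  rcases e with _ | s
  · exact ⟨none, 1, rfl, he, one_mem _, one_mem _, by simp [Subgroup.mem_bot.1 hx]⟩
  have k := he s rfl
  rcases k.cases with ⟨rfl, -⟩ | ⟨i, y, rfl, -⟩
  · exact ⟨_, x, rfl, he, hx, EF_le_Ep hx, by simp⟩
  · refine ⟨some (_, y * x⁻¹), 1, rfl, ?_, one_mem _, one_mem _, by simp⟩
    rintro _ ⟨⟩
    exact ⟨k.1, mul_mem k.2.1 (inv_mem hx), k.2.2⟩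

theorem core (hN : S_NORM) (hE : S_C_EXTN) (h0 : S_C_EXT0) (hG : S_C_GEOP) (hF : TwoF F)
    (he : ∀ s ∈ e, EndL F b s ∧ Typ F (bt s.1) b)
    (he' : ∀ s ∈ e', EndL F b' (sinv s) ∧ Typ F (bt s.1) b')
    (hu : (idC F).CMin ((idC F).LO e) ((idC F).LO e') u)
    (hn : e ≠ none → e' ≠ none → ¬ Cj (vl (xw e u e')) b' b) :
    Out F b b' e (ct u) e' (vl (xw e u e')) := by
  have fin : ∀ {e1 e1' : Option (Tg Γ a × MM Γ a)} {u1}, e1.map Prod.fst = e.map Prod.fst →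
      e1'.map Prod.fst = e'.map Prod.fst → XW F b b' e1 u1 e1' →
      Out F b b' e1 (ct u1) e1' (vl (xw e1 u1 e1')) := fun t t' h =>
    out_xw hG hF h (fun s hs => by
      obtain ⟨s1, k1, k2⟩ := tag t.symm s hs
      exact k2 ▸ (he s1 k1).2) fun s hs => by
      obtain ⟨s1, k1, k2⟩ := tag t'.symm s hs
      exact k2 ▸ (he' s1 k1).2
  rcases eq_or_ne u [] with rfl | hu0
  · by_cases hc : ∀ s ∈ e, ∀ s' ∈ e', ∀ o, s.1 = .inl o → s'.1 ≠ .inl o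
    · obtain ⟨e1, e1', t, t', h, f, a1, f', a2, a3, a4, a5⟩ := h0 Γ a F hF b b' e e' he he' (by
        rintro s rfl s' rfl
        exact ⟨by simpa using hn, hc s rfl s' rfl⟩)
      exact (fin t t' h).of t t' le_rfl a1 a2 a3 a4 a5
    push Not at hc
    obtain ⟨⟨_, y⟩, rfl, ⟨_, y'⟩, rfl, o, rfl, rfl⟩ := hc
    have k := (he _ rfl).1
    have k' := (he' _ rfl).1
    obtain ⟨f, a1, f', a2, a3, a4, a5, a6, -⟩ := (hN Γ a _ (hF.gcx o)).2 b k.2.2.1 b' k'.2.2.1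
      k.2.2.2.1 k'.2.2.2.1 k.2.2.2.2 k'.2.2.2.2 (y * y') (mul_mem k.2.1 (inv_mem_iff.1 k'.2.1))
      (by simpa using hn)
    refine ⟨[(.inl o, f * (y * y') * f')], f, f', ⟨Cv.wd_single (idC_ok (mul_mem (mul_mem a1
      (mul_mem k.2.1 (inv_mem_iff.1 k'.2.1))) a2)), ?_, fun ν h _ => geo_single h.pos.le _⟩,
      by simp, ?_, ?_, a1, a2, a3, a4, by simp⟩
    · simp [Cv.NzE]
    · rintro _ ⟨⟩
      exact ⟨fun _ => ⟨_, rfl, rfl⟩, by simpa using a5⟩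
    · rintro _ ⟨⟩
      exact ⟨fun _ => ⟨_, rfl, rfl⟩, by simpa using a6⟩
  · obtain ⟨e1, u1, e1', t, t1, t', h, f, a1, f', a2, a3, a4, a5⟩ := hE Γ a F hF b b' e e' u
      (fun s hs => ⟨(he s hs).1, (he s hs).1.far (he s hs).2⟩)
      (fun s hs => ⟨(he' s hs).1, (he' s hs).1.far (he' s hs).2⟩) hu hu0 (by
        rintro ⟨_, y⟩ rfl ⟨_, y'⟩ rfl c c' m rfl rfl rfl
        obtain ⟨rfl, -, -, -, rfl⟩ := (he _ rfl).1
        obtain ⟨rfl, -, -, -, k⟩ := (he' _ rfl).1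
        obtain rfl := inv_eq_one.1 k
        simpa using hn)
    exact (fin t t' h).of t t' (ct_tags t1).le a1 a2 a3 a4 a5

end C_nfxA

open C_nfxA in
theorem p_C_NFX (hNORM : S_NORM) (hC_EXTN : S_C_EXTN) (hC_EXT0 : S_C_EXT0) (hC_GEOP : S_C_GEOP) :
    S_C_NFX := by
  intro Γ a F hF b b' e e' u he he' hu hn
  obtain ⟨u1, a1, a2, x, hx, y, hy, a3⟩ := Cv.exists_cMin ((idC F).LO e) ((idC F).LO e') hu
  obtain ⟨e1, f, t, b1, b2, b3, b4⟩ := absorb (fun s hs => (he s hs).1) hx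
  obtain ⟨e2, g, t', c1, c2, c3, c4⟩ := absorb (e := e'.map sinv) (b := b') (x := y⁻¹)
    (fun s hs => by
      obtain ⟨s0, h0, rfl⟩ := Option.mem_map.1 hs
      exact (he' s0 h0).1) (by simpa using hy)
  have t2 : (e2.map sinv).map Prod.fst = e'.map Prod.fst := by
    cases e2 <;> cases e' <;> simp_all
  have k : vl (xw e1 u1 (e2.map sinv)) = f * vl (xw e u e') * g⁻¹ := by
    rw [toList_sinv, vl_winv] at c4
    simp only [xw, vl_append, toList_sinv, vl_winv, a3, eq_mul_inv_of_mul_eq b4,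
      eq_mul_inv_of_mul_eq c4]
    group
  refine (core hNORM hC_EXTN hC_EXT0 hC_GEOP hF (fun s hs => ⟨b1 s hs, ?_⟩) (fun s hs => ⟨?_, ?_⟩)
    (by rwa [Cv.LO_tags t, Cv.LO_tags t2]) fun h1 h2 h3 => ?_).of t t2 a2 b2
      (by simpa using c2) b3 (inv_mem c3) k
  · obtain ⟨s1, k1, k2⟩ := tag t.symm s hs
    exact k2 ▸ (he s1 k1).2
  · obtain ⟨s0, h0, rfl⟩ := Option.mem_map.1 hs
    simpa using c1 s0 h0
  · obtain ⟨s1, k1, k2⟩ := tag t2.symm s hs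
    exact k2 ▸ (he' s1 k1).2
  · refine hn (fun h => h1 (by simpa [h] using t)) (fun h => h2 (by simpa [h] using t2)) ?_
    have := ((Cj.of_mem (inv_mem b3)).mul (k ▸ h3)).mul (Cj.of_mem c3)
    simpa [mul_assoc] using this

end Pool.Agent.P.MP_dba3d2_lc


end

section

/-! Step C_NFE of the stability project. -/

namespace Pool.Agent.P.MP_dba3d2_lc

open Filter

namespace C_nfeA

variable {Γ : HG} {a : Amb} {F : Bool → Subgroup (MM Γ a)} {o : Option Bool} {b : MM Γ a}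
  {w : List (Tg Γ a × MM Γ a)}

theorem ends (h : Typ F o b) : ∃ t, bt t = o ∧ EndL F b (t, 1) := by
  rcases o with _ | i
  · exact ⟨.inr b, rfl, h.endI⟩
  · exact ⟨.inl (some i), rfl, h.endII (by simp) (one_mem _)⟩

/-- splitting off the left end -/
theorem split (h : Typ F o b) (hw : (idC F).Wd w) (hl : SolL o w) :
    ∃ s u, EndL F b s ∧ bt s.1 = o ∧ (idC F).Wd u ∧ vl w = s.2 * vl u ∧ ct u + k0 s.1 = ct w ∧
      (u = w ∨ w = s :: u ∧ ∃ i, o = some i ∧ s.1 = .inl o) := by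
  rcases o with _ | i
  · exact ⟨(.inr b, 1), w, h.endI, rfl, hw, by simp, by simp, .inl rfl⟩
  obtain ⟨s, h1, h2⟩ := hl (by simp)
  rcases w with _ | ⟨s', u⟩
  · cases h1
  obtain rfl : s' = s := by simpa using h1
  obtain ⟨t, y⟩ := s'
  obtain rfl : t = _ := h2
  obtain ⟨k1, k2⟩ := Cv.wd_cons.1 hw
  exact ⟨_, u, h.endII (by simp) k1.2, rfl, k2, by simp, by simp [add_comm], .inr ⟨rfl, i, rfl, rfl⟩⟩

end C_nfeA

open C_nfeA in
theorem p_C_NFE (hNORM : S_NORM) (hC_NFX : S_C_NFX) :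
    S_C_NFE := by
  intro Γ a F T
  refine ⟨fun h hh => ?_, fun o b hb h hh => ?_, fun o b o' b' w hb hb' hw l r nc => ?_⟩
  · obtain ⟨u, hu, rfl⟩ := exists_wordP hh
    obtain ⟨w, f, f', k1, -, -, -, k2, k3, -, -, k4⟩ := hC_NFX Γ a F T 1 1 none none u
      (by simp) (by simp) hu (by simp)
    rw [Cv.LO_none, Subgroup.mem_bot] at k2 k3
    exact ⟨w, k1, by simpa [k2, k3] using k4⟩
  · obtain ⟨u, hu, rfl⟩ := exists_wordP hh
    obtain ⟨t, rfl, ht⟩ := ends hb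
    obtain ⟨w, f, f', -, -, -, k1, k2, k3, -, k4, k5⟩ := hC_NFX Γ a F T 1 b none (some (t, 1)) u
      (by simp) (by
        rintro _ ⟨⟩
        exact ⟨by simpa [sinv] using ht, hb⟩) hu (by simp)
    rw [Cv.LO_none, Subgroup.mem_bot] at k2
    refine ⟨f', LF_le_P t k3, k4, ?_⟩
    have := (k1 _ rfl).2
    rw [k5] at this
    simpa [k2] using this
  obtain ⟨s, u, a1, a2, a3, a4, a5, a6⟩ := split hb hw l
  by_cases r' : SolL o' (winv u)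
  · obtain ⟨s', u', b1, b2, b3, b4, b5, -⟩ := split hb' a3.winv r'
    have e : vl (xw (some s) (winv u') (some (sinv s'))) = vl w := by
      rw [a4, ← inv_inv (vl u), ← vl_winv, b4]
      simp
    obtain ⟨w1, f, f', k1, k2, k3, k4, k5, k6, k7, k8, k9⟩ := hC_NFX Γ a F T b b' (some s)
      (some (sinv s')) (winv u')
      (by
        rintro _ ⟨⟩
        exact ⟨a1, a2 ▸ hb⟩)
      (by
        rintro _ ⟨⟩
        exact ⟨by simpa using b1, by simpa [b2] using hb'⟩) b3.winv (fun _ _ => e ▸ nc)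
    refine ⟨w1, f, LF_le_P _ k5, f', LF_le_P _ k6, k1, ?_, a2 ▸ (k3 _ rfl).1, ?_, k7, k8,
      (k3 _ rfl).2, (k4 _ rfl).2, e ▸ k9⟩
    · simp only [ct_winv, Option.elim_some, sinv_fst] at k2 b5
      omega
    · simpa [b2] using (k4 _ rfl).1
  obtain ⟨rfl, i, rfl, a7⟩ := a6.resolve_left fun e => r' (e ▸ r)
  have n : o' ≠ none := fun e => r' fun k => absurd e k
  obtain ⟨s', c1, c2⟩ := r n
  obtain rfl : u = [] := by
    by_contra k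
    refine r' fun _ => ⟨s', ?_, c2⟩
    rw [winv_cons] at c1
    rcases e : winv u with _ | ⟨x, v⟩
    · exact absurd (by simpa using congrArg winv e) k
    · simpa [e] using c1
  obtain rfl : sinv s = s' := by simpa using c1
  obtain ⟨t, y⟩ := s
  obtain rfl : t = _ := a7
  obtain rfl : some i = o' := by simpa using c2
  have hy : y ∈ F i := (hw _ List.mem_cons_self).2
  obtain ⟨f, k1, f', k2, k3, k4, k5, k6, -⟩ := (hNORM Γ a (F i) (T.gc i)).2 b hb.1 b' hb'.1 hb.2.1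
    hb'.2.1 hb.2.2.1 hb'.2.2.1 y hy (by simpa using nc)
  refine ⟨[(.inl (some i), f * y * f')], f, F_le_P i k1, f', F_le_P i k2,
    ⟨Cv.wd_single (idC_ok (mul_mem (mul_mem k1 hy) k2)), fun s hs c e => ?_,
      fun ν hν _ => geo_single hν.pos.le _⟩, by simp, fun _ => ⟨_, rfl, rfl⟩,
    fun _ => ⟨_, rfl, rfl⟩, k3, k4, by simpa using k5, by simpa using k6, by simp⟩
  obtain rfl := List.mem_singleton.1 hs
  cases e

end Pool.Agent.P.MP_dba3d2_lc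


end

section

/-! Step C_REDX of the stability project. -/

namespace Pool.Agent.P.MP_dba3d2_lc

open Filter

namespace C_redxA

variable {Γ : HG} {a : Amb} {F : Bool → Subgroup (MM Γ a)} {b c g : MM Γ a} {o : Option Bool}

/-- an axis that is carried into the base is carried to a centred axis of the base -/
theorem base (hF : TwoF F) (hc : c ∈ XF F none) (pc : Prim c) (hg : g ∈ XF F o) (h : Cj g c b) :
    ∃ b1, Typ F none b1 ∧ ∃ g ∈ XF F o, Cj g b1 b := by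
  obtain ⟨p, h1, h2, h3, h4, h5⟩ := hF.cenx hc pc
  exact ⟨_, ⟨h2, h3, h4, fun k => absurd rfl k⟩, g * p, mul_mem hg (M_le_XF o h1), h.mul h5⟩

theorem typ (hF : TwoF F) (hb : b ∈ XF F o) (pb : Prim b) :
    ∃ o1 b1, Typ F o1 b1 ∧ (o1 = none ∨ o1 = o) ∧ ∃ g ∈ XF F o, Cj g b1 b := by
  by_cases h : ∃ g ∈ XF F o, g⁻¹ * b * g ∈ XF F none
  · obtain ⟨g, h1, h2⟩ := h
    obtain ⟨b1, h3, h4⟩ := base hF h2 (pb.conj' g) h1 (Cj.self' g b)
    exact ⟨none, b1, h3, .inl rfl, h4⟩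
  · obtain ⟨p, h1, h2, h3, h4, h5⟩ := hF.cenx hb pb
    exact ⟨o, _, ⟨h2, h3, h4, fun _ g hg k => h ⟨p * g, mul_mem h1 hg, by
      simpa [mul_assoc] using k⟩⟩, .inr rfl, p, h1, h5⟩

end C_redxA

open C_redxA

theorem p_C_REDX (hROOT : S_ROOT) :
    S_C_REDX := by
  intro Γ a F hF o o' b hb b' hb' pb pb' x hx
  have key : ∃ o1 b1, Typ F o1 b1 ∧ (o1 ≠ none → o = o1 ∧ o' = o1) ∧
      ∃ g ∈ XF F o, Cj g b1 b := by
    have two : ∀ c ∈ XF F none, Prim c → ∀ g ∈ XF F o, Cj g c b → ∃ o1 b1, Typ F o1 b1 ∧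
        (o1 ≠ none → o = o1 ∧ o' = o1) ∧ ∃ g ∈ XF F o, Cj g b1 b := fun c h1 h2 g h3 h4 =>
      let ⟨b1, k1, k2⟩ := base hF h1 h2 h3 h4
      ⟨none, b1, k1, fun k => absurd rfl k, k2⟩
    rcases opt_cases o o' with ⟨i, rfl | rfl, h2⟩ | ⟨i, rfl, rfl⟩
    · exact two b hb pb 1 (one_mem _) (Cj.of_mem (one_mem _))
    · rcases h2 with rfl | rfl
      · obtain ⟨g, k1, k2, -⟩ := hF.root6 hROOT hb (M_le_XF _ hb') pb.1 pb'.1 hx
        exact two b' hb' pb' g k1 k2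
      · obtain ⟨o1, b1, k1, k2, k3⟩ := typ hF hb pb
        exact ⟨o1, b1, k1, fun k => ⟨(k2.resolve_left k).symm, (k2.resolve_left k).symm⟩, k3⟩
    · cases i
      · obtain ⟨c, k1, k2, g, k3, -, -, k4, -⟩ := hF.i2 b hb b' hb' pb pb' x hx
        exact two c k1 k2 g k3 k4
      · obtain ⟨c, k1, k2, -, -, g, k3, -, k4⟩ := hF.i2 b' hb' b hb pb' pb x⁻¹ hx.inv
        exact two c k1 k2 g k3 k4
  obtain ⟨o1, b1, h1, h2, g, h3, h4⟩ := key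
  have h5 : b1 ∈ XF F o' := by
    by_cases k : o1 = none
    · exact M_le_XF o' (k ▸ h1.1)
    · exact (h2 k).2 ▸ h1.1
  obtain ⟨h, k1, k2, k3, -⟩ := hF.root6 hROOT h5 hb' h1.2.1.1 pb'.1 (h4.inv.mul hx)
  exact ⟨o1, b1, h1, h2, g, h3, h⁻¹, inv_mem k1, _, k3, by group, h4, k2.inv⟩

end Pool.Agent.P.MP_dba3d2_lc


end
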