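import Pool.Agent.P.MP_dba3d2_lcM.Db47
import Pool.Agent.P.MP_dba3d2_lcM.Db53

section

/-! Step D_RET of the stability project. -/

namespace Pool.Agent.P.MP_dba3d2_lc

open Set Filter Topology

namespace D_retA

/-- `r` is the first return time of `y` to `U` -/
def Ret (f : Equiv.Perm (Gm × Bool)) (U : Set Gm) (y : Gm × Bool) (r : ℕ) : Prop :=
  0 < r ∧ ((f ^ r) y).1 ∈ U ∧ ∀ k : ℕ, 0 < k → k < r → ((f ^ k) y).1 ∉ U

theorem Ret.uniq {f : Equiv.Perm (Gm × Bool)} {U : Set Gm} {y : Gm × Bool} {r s : ℕ}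
    (h : Ret f U y r) (k : Ret f U y s) : r = s :=
  le_antisymm (not_lt.1 fun a => h.2.2 s k.1 a k.2.1) (not_lt.1 fun a => k.2.2 r h.1 a h.2.1)

theorem ev_one {p : Gm → Prop} : (∀ᶠ δ in 𝓝 (1 : Gm), p δ) ↔ ∃ r > 0, ∀ δ ∈ GI 0 r, p δ := by
  simp only [eventually_gm, one_mul]

theorem ev_mem {U : Set Gm} (h : CO U) (γ : Gm) : ∀ᶠ δ in 𝓝 (1 : Gm), (γ * δ ∈ U ↔ γ ∈ U) := by
  have c : Tendsto (γ * ·) (𝓝 1) (𝓝 γ) := by simpa using (continuous_gm_mul γ).tendsto 1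
  by_cases a : γ ∈ U
  · exact (c.eventually (h.2.mem_nhds a)).mono fun _ b => iff_of_true b a
  · exact (c.eventually (h.isClosed.isOpen_compl.mem_nhds a)).mono fun _ b => iff_of_false b a

end D_retA

open D_retA in
theorem p_D_RET :
    S_D_RET := by
  classical
  intro X U L hU hne hs
  have ex : ∀ y : Gm × Bool, ∃ r, (y.1 ∈ U → Ret L.f U y r) ∧ (y.1 ∉ U → r = 0) := fun y => by
    by_cases a : y.1 ∈ U
    · obtain ⟨B, hB⟩ := L.exists_visit hU.2 ⟨_, a, hs a⟩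
      obtain ⟨n, h1, -, h2⟩ := hB y (hs a)
      have e : ∃ n : ℕ, 0 < n ∧ ((L.f ^ n) y).1 ∈ U := ⟨n, h1, L.at_nat y n ▸ h2⟩
      exact ⟨Nat.find e, fun _ => ⟨(Nat.find_spec e).1, (Nat.find_spec e).2,
        fun k b c d => Nat.find_min e c ⟨b, d⟩⟩, fun b => absurd a b⟩
    · exact ⟨0, fun b => absurd b a, fun _ => rfl⟩
  choose r r1 r0 using ex
  have back : ∀ (y : Gm × Bool) (k l : ℕ),
      (L.f ^ k) (fl ((L.f ^ (k + l)) y)) = fl ((L.f ^ l) y) := fun y k l => by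
    rw [← zpow_natCast, L.zpow_fl, pow_add]
    simp
  have rev : ∀ y, (L.f ^ r (fl ((L.f ^ r y) y))) (fl ((L.f ^ r y) y)) = fl y := fun y => by
    by_cases a : y.1 ∈ U
    · obtain ⟨h1, h2, h3⟩ := r1 y a
      have e : (L.f ^ r y) (fl ((L.f ^ r y) y)) = fl y := back y (r y) 0
      rw [(r1 (fl ((L.f ^ r y) y)) h2).uniq (s := r y) ⟨h1, e ▸ a, fun k b c => ?_⟩, e]
      obtain ⟨l, hl⟩ := Nat.exists_eq_add_of_le c.le
      rw [hl, back]
      exact h3 l (by omega) (by omega)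
    · simp [r0 y a, r0 (fl y) a]
  obtain ⟨g, hg⟩ : ∃ g : Equiv.Perm (Gm × Bool), ∀ y, g y = (L.f ^ r y) y :=
    ⟨⟨fun y => (L.f ^ r y) y, fun y => fl ((L.f ^ r (fl y)) (fl y)),
      fun y => (congrArg fl (rev y)).trans (fl_fl y), fun y => (rev (fl y)).trans (fl_fl y)⟩,
      fun _ => rfl⟩
  have mem : ∀ y, (g y).1 ∈ U ↔ y.1 ∈ U := fun y => by
    rw [hg]
    by_cases a : y.1 ∈ U
    · exact iff_of_true (r1 y a).2.1 a
    · simp [r0 y a]
  have memz : ∀ (n : ℤ) y, ((g ^ n) y).1 ∈ U ↔ y.1 ∈ U := fun n => by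
    induction n using Int.induction_on with
    | zero => simp
    | succ n ih => exact fun y => by rw [zpow_add_one, Equiv.Perm.mul_apply, ih, mem]
    | pred n ih =>
      intro y
      rw [zpow_sub_one, Equiv.Perm.mul_apply, ih, ← mem]
      simp
  have time : ∀ (k : ℕ) y, y.1 ∈ U → ∃ t, k ≤ t ∧ (g ^ k) y = (L.f ^ t) y := fun k => by
    induction k with
    | zero => exact fun y _ => ⟨0, le_rfl, rfl⟩
    | succ k ih =>
      intro y a
      obtain ⟨t, h1, h2⟩ := ih (g y) ((mem y).2 a)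
      exact ⟨t + r y, by linarith [(r1 y a).1], by
        rw [pow_succ, pow_add, Equiv.Perm.mul_apply, Equiv.Perm.mul_apply, h2, hg]⟩
  have visit : ∀ (t : ℕ) y, y.1 ∈ U → ((L.f ^ t) y).1 ∈ U → ∃ k : ℤ, (g ^ k) y = (L.f ^ t) y :=
    fun t => by
      induction t using Nat.strong_induction_on with | _ t ih =>
      intro y a b
      rcases t.eq_zero_or_pos with rfl | t0
      · exact ⟨0, rfl⟩
      obtain ⟨l, rfl⟩ := Nat.exists_eq_add_of_le' (not_lt.1 fun c => (r1 y a).2.2 t t0 c b)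
      rw [pow_add, Equiv.Perm.mul_apply, ← hg] at b ⊢
      obtain ⟨k, hk⟩ := ih l (by linarith [(r1 y a).1]) _ ((mem y).2 a) b
      exact ⟨k + 1, by rw [zpow_add_one, Equiv.Perm.mul_apply, hk]⟩
  have inj : ∀ y, y.1 ∈ U → ∀ m n : ℤ, m ≤ n → ((g ^ m) y).1 = ((g ^ n) y).1 → m = n := by
    intro y a m n h e
    obtain ⟨k, rfl⟩ := Int.le.dest h
    have b := (memz m y).2 a
    obtain ⟨t, h1, h2⟩ := time k _ b
    rw [add_comm, zpow_add, Equiv.Perm.mul_apply, zpow_natCast, h2] at e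
    have := L.at_inj (m := 0) (n := t) (hs b) (by rw [L.at_zero, L.at_nat, ← e])
    omega
  refine ⟨⟨g, hU, hne, fun y => by simp only [hg, rev], mem, fun y a => ?_,
    fun y a m n e => (le_total m n).elim (inj y a m n · e) fun h => (inj y a n m h e.symm).symm,
    fun γ a β b => ?_⟩, hs, fun y a => ⟨r y, (r1 y a).1, hg y, (r1 y a).2.2⟩⟩
  · have e1 : ∀ᶠ δ in 𝓝 (1 : Gm), ∀ k ∈ Finset.range (r y + 1),
        (L.f ^ k) (y.1 * δ, y.2) = (((L.f ^ k) y).1 * δ, ((L.f ^ k) y).2) ∧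
          (((L.f ^ k) y).1 * δ ∈ U ↔ ((L.f ^ k) y).1 ∈ U) :=
      (eventually_all_finset _).2 fun k _ => Eventually.and
        ((ev_one.2 (L.zpow_eventually (hs a) k)).mono fun _ h => h.2) (ev_mem hU _)
    obtain ⟨s, s0, h⟩ := ev_one.1 (e1.and (ev_mem hU y.1))
    refine ⟨s, s0, fun δ b c => ?_⟩
    obtain ⟨h1, h2⟩ := h δ (mem_GI_of_Ioo b c)
    have h3 := h1 (r y) (by simp)
    obtain ⟨k1, k2, k3⟩ := r1 y a
    rw [hg, hg, (r1 (y.1 * δ, y.2) (h2.2 a)).uniq (s := r y) ⟨k1, h3.1 ▸ h3.2.2 k2, fun k p q => ?_⟩,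
      h3.1]
    have h4 := h1 k (Finset.mem_range.2 (by omega))
    rw [h4.1, h4.2]
    exact k3 k p q
  · refine closure_mono ?_ (hU.2.inter_closure ⟨b, L.den γ (hs a) (hs b)⟩)
    rintro _ ⟨c, n, rfl⟩
    obtain ⟨t, rfl | rfl⟩ := n.eq_nat_or_neg
    · exact (visit t _ a c).imp fun _ h => congrArg Prod.fst h
    · have e : (L.f ^ t) ((L.f ^ (-t : ℤ)) (γ, true)) = (γ, true) := by simp
      obtain ⟨k, hk⟩ := visit t _ c (e.symm ▸ a)
      refine ⟨-k, congrArg Prod.fst ?_⟩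
      rw [zpow_neg, Equiv.Perm.inv_eq_iff_eq, hk, e]

end Pool.Agent.P.MP_dba3d2_lc


end

section

/-! Step D_ONE of the stability project. -/

namespace Pool.Agent.P.MP_dba3d2_lc

open Set Filter Topology

theorem p_D_ONE (hD_LP : S_D_LP) (hD_TREE : S_D_TREE) (hD_DICH : S_D_DICH) (hD_SURF1 : S_D_SURF1) (hD_SURF2 : S_D_SURF2) (hD_RET : S_D_RET) :
    S_D_ONE := by
  intro A hA ι _ S p q hin hmin hw
  obtain ⟨z, κ, _, T, hz, ⟨hzq, tin, tint, trel⟩, tno, ttot⟩ := hD_LP A hA ι S p q hin hmin hw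
  have tmin : T.Min (GI z q) := hmin.of_rel co_GI (GI_nonempty.2 hzq) (GI_mono hz le_rfl) tin
    fun γ hγ β hβ k => (trel γ hγ β hβ).2 k
  have htot : T.tot ≤ 2 * mu (GI z q) := by rw [mu_GI hzq.le, ttot]
  have ttree := hD_TREE κ T _ co_GI tin tmin.inf htot
  rcases hD_DICH κ T _ tin tmin htot ttree with hth | hal
  · exact ⟨z, q, hz, hzq, le_rfl, Or.inl ⟨κ, inferInstance, T, tin, hA.arcs_of_intv tint, tno, hth,
      fun γ hγ β hβ k => (trel γ hγ β hβ).2 k⟩⟩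
  · obtain ⟨Y, T', yco, yne, ysub, hsub, yin, y2, yrel⟩ := hD_SURF1 κ T _ tin tmin htot ttree hal
    obtain ⟨L0, l1, l2⟩ := hD_SURF2 κ T' Y yin (tmin.of_rel yco yne ysub yin yrel)
      (hsub.tree ttree) y2
    have w0 : L0.Weak A := fun y hy => by
      obtain ⟨i, hi, e⟩ := l1 y hy
      rw [e]
      exact hsub.weak tint.weak i _ hi
    obtain ⟨a, b, hab, hGI⟩ := exists_GI_subset yco.2 yne
    have hb := (GI_subset_iff hab).1 (hGI.trans ysub)
    obtain ⟨L, hL⟩ := hD_RET Y (GI a b) L0 co_GI (GI_nonempty.2 hab) hGI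
    refine ⟨a, b, hz.trans hb.1, hab, hb.2, Or.inr ⟨L, hL.weak hA w0, fun γ hγ β hβ => ?_⟩⟩
    rw [hL.rel hγ hβ, ← trel γ (ysub (hGI hγ)) β (ysub (hGI hβ))]
    exact ⟨fun k => hsub.rel (L0.rel_sys (fun y hy => (l1 y hy).rel) (hGI hγ) k),
      fun k => l2 γ (hGI hγ) β (yrel γ (hGI hγ) β (hGI hβ) k)⟩

end Pool.Agent.P.MP_dba3d2_lc


end

section

/-! Step D_PATHS of the stability project. -/

namespace Pool.Agent.P.MP_dba3d2_lc

open Set Filter Topology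

namespace D_pathsA

variable {F F' : Equiv.Perm (ℤ × Bool)} {B : ℕ}

theorem flz (h : PS F B) (r : ℤ) (y : ℤ × Bool) :
    (F ^ r) (y.1, !y.2) = (((F ^ (-r)) y).1, !((F ^ (-r)) y).2) := by
  let f : Equiv.Perm (ℤ × Bool) :=
    Function.Involutive.toPerm (fun y => (y.1, !y.2)) fun y => by simp
  have : SemiconjBy f F⁻¹ F := Equiv.ext fun y => by
    have := h.rev (F⁻¹ y)
    rw [show F (F⁻¹ y) = y from F.apply_symm_apply y] at this
    exact this.symm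
  have := Equiv.ext_iff.1 (this.zpow_right r).eq y
  rw [inv_zpow'] at this
  exact this.symm

theorem sw (h : PS F B) {y z : ℤ × Bool} (e : y.1 = z.1) (r : ℤ) :
    ∃ r' : ℤ, |r'| = |r| ∧ ((F ^ r) y).1 = ((F ^ r') z).1 := by
  by_cases c : y.2 = z.2
  · exact ⟨r, rfl, by rw [Prod.ext e c]⟩
  · refine ⟨-r, abs_neg r, ?_⟩
    rw [show y = (z.1, !z.2) from Prod.ext e (Bool.eq_not.2 c), flz h]

theorem rel (h : PS F B) (y : ℤ × Bool) (r : ℤ) : PRel F y.1 ((F ^ r) y).1 :=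
  let ⟨r', _, e⟩ := sw h (y := y) (z := (y.1, true)) rfl r
  ⟨r', e.symm⟩

theorem tails (h : PS F B) {k : ℕ} {x : Fin k → ℤ} (hx : ∀ i j, PRel F (x i) (x j) → i = j)
    {τ τ' : Fin k × Bool} {t t' : ℤ} (ht : t + t' ≠ 0)
    (e : ((F ^ t) (x τ.1, τ.2)).1 = ((F ^ t') (x τ'.1, τ'.2)).1) : τ = τ' := by
  obtain ⟨r, -, e'⟩ := sw h e.symm (-t')
  rw [← Equiv.Perm.mul_apply, ← zpow_add, neg_add_cancel, zpow_zero, ← Equiv.Perm.mul_apply,
    ← zpow_add] at e'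
  have a : τ.1 = τ'.1 := hx _ _ (by
    have := rel h (x τ.1, τ.2) (r + t)
    rwa [← e'] at this)
  refine Prod.ext a (by_contra fun c => ht ?_)
  rw [a, Bool.eq_not.2 c, flz h t (x τ'.1, τ'.2)] at e
  have := h.inj _ e
  omega

theorem unb (h : PS F B) (y : ℤ × Bool) (c : ¬∀ M : ℤ, ∃ t : ℕ, M < 1 * ((F ^ t) y).1) (M : ℤ) :
    ∃ t : ℕ, M < -1 * ((F ^ t) y).1 := by
  by_contra c'
  push Not at c c'
  obtain ⟨M', c⟩ := c
  refine (finite_Icc (-M) M').not_infinite (infinite_of_injective_forall_mem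
    (f := fun t : ℕ => ((F ^ t) y).1) (fun t t' e => ?_) fun t => ⟨?_, ?_⟩)
  · exact Nat.cast_injective (h.inj y (by simpa using e))
  · linarith [c' t]
  · linarith [c t]

theorem drift {v : ℕ → ℤ × Bool} (hj : ∀ t, |(v (t + 1)).1 - (v t).1| ≤ B) (t : ℕ) :
    |(v t).1 - (v 0).1| ≤ t * B := by
  induction t with
  | zero => simp
  | succ t ih =>
    push_cast
    linarith [abs_sub_le (v (t + 1)).1 (v t).1 (v 0).1, hj t]

theorem strand {v : ℕ → ℤ × Bool} {n : ℕ} {σ : ℤ} (hσ : σ = 1 ∨ σ = -1)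
    (hv : ∀ t, |(v t).1| ≤ n → v (t + 1) = F' (v t)) (hj : ∀ t, |(v (t + 1)).1 - (v t).1| ≤ B)
    (h0 : σ * (v 0).1 < -n) {T : ℕ} (hT : n < σ * (v T).1) :
    ∃ t : ℕ, |(v t).1| ≤ B ∧ n < t * B ∧ ∃ r r' : ℤ, σ * ((F' ^ r) (v t)).1 < -n + B ∧
      n < σ * ((F' ^ r') (v t)).1 := by
  classical
  have ex : ∃ d, ∃ t, σ * (v t).1 < -n ∧ n < σ * (v (t + d)).1 := ⟨T, 0, h0, by simpa using hT⟩
  obtain ⟨t, h1, h2⟩ := Nat.find_spec ex
  have mn := fun d => Nat.find_min ex (m := d)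
  generalize Nat.find ex = d at h2 mn
  have tr : ∀ i, i + 1 ≤ d → (F' ^ i) (v (t + 1)) = v (t + (i + 1)) := fun i => by
    induction i with
    | zero => exact fun _ => rfl
    | succ i ih =>
      intro hi
      rw [pow_succ', Equiv.Perm.mul_apply, ih (by omega)]
      refine (hv _ ?_).symm
      have a := not_and.1 (not_exists.1 (mn (i + 1) hi) t) h1
      have b : ¬σ * (v (t + (i + 1))).1 < -n := fun c =>
        not_exists.1 (mn (d - (i + 1)) (by omega)) (t + (i + 1))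
          ⟨c, by rwa [add_assoc, Nat.add_sub_cancel' (by omega)]⟩
      rw [abs_le]
      rcases hσ with rfl | rfl <;> omega
  have ex' : ∃ i, 0 ≤ σ * (v (t + i)).1 := ⟨d, by omega⟩
  have a := Nat.find_spec ex'
  have b := fun i => Nat.find_min ex' (m := i)
  have c := Nat.find_min' ex' (m := d) (by omega)
  generalize Nat.find ex' = i at a b c
  obtain _ | i := i
  · rw [add_zero] at a; omega
  obtain _ | d := d
  · omega
  have j1 := abs_le.1 (hj (t + i))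
  have j2 := abs_le.1 (hj t)
  have j3 := abs_le.1 (drift hj (t + (i + 1)))
  have b' := b i i.lt_succ_self
  rw [add_assoc] at j1
  refine ⟨t + (i + 1), ?_, ?_, -i, d - i, ?_, ?_⟩
  · rw [abs_le]
    rcases hσ with rfl | rfl <;> omega
  · rw [← Nat.cast_mul] at j3
    rcases hσ with rfl | rfl <;> omega
  · rw [← tr i c, ← zpow_natCast, ← Equiv.Perm.mul_apply, ← zpow_add, neg_add_cancel, zpow_zero,
      Equiv.Perm.one_apply]
    rcases hσ with rfl | rfl <;> omega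
  · rwa [← tr i c, ← zpow_natCast, ← Equiv.Perm.mul_apply, ← zpow_add, sub_add_cancel,
      zpow_natCast, tr d le_rfl]

theorem trans (h : PS F B) (h' : PS F' B) {ψ : ℤ × Bool → ℤ × Bool} {n : ℕ}
    (h1 : ∀ z, |(ψ z).1| ≤ n → ψ (F z) = F' (ψ z))
    (h2 : ∀ z, ψ (z.1, !z.2) = ((ψ z).1, !(ψ z).2)) (r : ℤ) (z : ℤ × Bool)
    (hz : |(ψ z).1| + |r| * B ≤ n) : ((F' ^ r) (ψ z)).1 = (ψ ((F ^ r) z)).1 := by
  have a : ∀ (r : ℕ) z, |(ψ z).1| + r * B ≤ n → (F' ^ r) (ψ z) = ψ ((F ^ r) z) := fun r => by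
    induction r with
    | zero => exact fun _ _ => rfl
    | succ r ih =>
      intro z hz
      push_cast at hz
      have e := h1 z (by nlinarith [Nat.cast_nonneg (α := ℤ) r, Nat.cast_nonneg (α := ℤ) B])
      rw [pow_succ, pow_succ, Equiv.Perm.mul_apply, Equiv.Perm.mul_apply, ← e, ih]
      rw [e]
      linarith [h'.jump (ψ z), abs_sub_abs_le_abs_sub (F' (ψ z)).1 (ψ z).1]
  obtain ⟨r, rfl | rfl⟩ := r.eq_nat_or_neg
  · rw [zpow_natCast, zpow_natCast, a r z (by simpa using hz)]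
  · have := a r (z.1, !z.2) (by simpa [h2] using hz)
    rw [h2, ← zpow_natCast, ← zpow_natCast, flz h', flz h, h2] at this
    exact (Prod.mk.inj this).1

end D_pathsA

open D_pathsA

theorem p_D_PATHS :
    S_D_PATHS := by
  classical
  intro F F' B h h' hW k x hx
  obtain ⟨s, hs, τ, hτ⟩ : ∃ s : ℤ, (s = 1 ∨ s = -1) ∧ ∃ τ : Fin k ↪ Fin k × Bool,
      ∀ i (M : ℤ), ∃ t : ℕ, M < s * ((F ^ t) (x (τ i).1, (τ i).2)).1 := by
    let p : Fin k × Bool → Prop := fun τ => ∀ M : ℤ, ∃ t : ℕ, M < 1 * ((F ^ t) (x τ.1, τ.2)).1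
    have := Fintype.card_subtype_compl p
    rw [Fintype.card_prod, Fintype.card_fin, Fintype.card_bool] at this
    by_cases c : k ≤ Fintype.card {τ // p τ}
    · obtain ⟨f⟩ := Function.Embedding.nonempty_of_card_le ((Fintype.card_fin k).trans_le c)
      exact ⟨1, .inl rfl, f.trans (.subtype _), fun i => (f i).2⟩
    · obtain ⟨f⟩ := Function.Embedding.nonempty_of_card_le (β := {τ // ¬p τ})
        ((Fintype.card_fin k).trans_le (by omega))
      exact ⟨-1, .inr rfl, f.trans (.subtype _), fun i => unb h _ (f i).2⟩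
  have key : ∀ N : ℕ, ∃ x' : Fin k → Icc (-B : ℤ) B,
      (∀ i j (r : ℤ), |r| ≤ N → ((F' ^ r) (x' i, true)).1 = x' j → i = j) ∧
      ∀ j, ∃ a b : ℤ, a ≤ -N ∧ (N : ℤ) ≤ b ∧ PRel F' (x' j) a ∧ PRel F' (x' j) b := fun N => by
    obtain ⟨M, hM⟩ := Finite.exists_le fun j => s * x j
    obtain ⟨n, hn⟩ : ∃ n : ℕ, n = N * B + B + N := ⟨_, rfl⟩
    obtain ⟨a, ε, hε, ha, hw⟩ := hW n (M + n + 1) s hs
    let ψ : ℤ × Bool → ℤ × Bool := fun z => (ε * (z.1 - a), z.2)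
    have ee : ∀ p, ε * (ε * p) = p := fun p => by rcases hε with rfl | rfl <;> ring
    have h1 : ∀ z, |(ψ z).1| ≤ n → ψ (F z) = F' (ψ z) := fun z hz => by
      have := hw _ z.2 hz
      rw [show (ψ z).1 = ε * (z.1 - a) from rfl, ee, add_sub_cancel] at this
      simp only [ψ, this, add_sub_cancel_left, ee]
    have sg : ∀ z, s * ε * (ψ z).1 = s * z.1 - s * a := fun z => by rw [mul_assoc, ee, mul_sub]
    have hσ : s * ε = 1 ∨ s * ε = -1 := by
      rcases hε with rfl | rfl <;> rcases hs with rfl | rfl <;> simp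
    have st : ∀ i, _ := fun i =>
      let ⟨T, hT⟩ := hτ i (s * a + n)
      strand (v := fun t => ψ ((F ^ t) (x (τ i).1, (τ i).2))) (F' := F') (B := B) (n := n) (T := T)
        hσ (fun t ht => by rw [pow_succ', Equiv.Perm.mul_apply, h1 _ ht])
        (fun t => by
          have := h.jump ((F ^ t) (x (τ i).1, (τ i).2))
          rw [pow_succ', Equiv.Perm.mul_apply]
          simp only [ψ, ← mul_sub, sub_sub_sub_cancel_right, abs_mul]
          rcases hε with rfl | rfl <;> simpa using this)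
        (by rw [sg]; simp only [pow_zero, Equiv.Perm.one_apply]; linarith [hM (τ i).1])
        (by rw [sg]; linarith)
    choose t t1 t2 r r' r1 r2 using st
    have tN : ∀ i, N < t i := fun i => Nat.lt_of_mul_lt_mul_right (a := B) (by
      have := t2 i; omega)
    refine ⟨fun i => ⟨_, abs_le.1 (t1 i)⟩, fun i j q hq e => ?_, fun j => ?_⟩
    · obtain ⟨q', e1, e2⟩ := sw h' (y := (_, true)) (z := ψ ((F ^ t i) (x (τ i).1, (τ i).2))) rfl q
      rw [e2, trans h h' h1 (fun _ => rfl) q' _ (by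
        have := mul_le_mul_of_nonneg_right hq (Nat.cast_nonneg (α := ℤ) B)
        have := t1 i
        rw [e1, hn, Nat.cast_add, Nat.cast_add, Nat.cast_mul]
        omega)] at e
      have e3 := congrArg (ε * ·) e
      simp only [ψ, ee, sub_left_inj, ← zpow_natCast] at e3
      rw [← Equiv.Perm.mul_apply, ← zpow_add] at e3
      refine τ.injective (tails h hx ?_ e3)
      have := abs_le.1 (e1.trans_le hq)
      have := tN i
      omega
    · have a1 := rel h' (ψ ((F ^ t j) (x (τ j).1, (τ j).2))) (r j)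
      have a2 := rel h' (ψ ((F ^ t j) (x (τ j).1, (τ j).2))) (r' j)
      have b1 := r1 j
      have b2 := r2 j
      rcases hσ with e | e <;> rw [e] at b1 b2
      · exact ⟨_, _, by omega, by omega, a1, a2⟩
      · exact ⟨_, _, by omega, by omega, a2, a1⟩
  choose x' k1 k2 using key
  obtain ⟨y, hy⟩ := Finite.exists_infinite_fiber x'
  have fr : ∀ N, ∃ N' , N < N' ∧ x' N' = y := fun N =>
    let ⟨N', a, b⟩ := (infinite_coe_iff.1 hy).exists_gt N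
    ⟨N', b, a⟩
  refine ⟨fun i => y i, fun i j ⟨r, e⟩ => ?_, fun j N => ?_⟩
  · obtain ⟨N, a, rfl⟩ := fr r.natAbs
    exact k1 N i j r (by rw [← Int.natCast_natAbs]; omega) e
  · obtain ⟨N', a, rfl⟩ := fr N
    obtain ⟨p, q, b1, b2, b3⟩ := k2 N' j
    exact ⟨p, q, by omega, by omega, b3⟩

end Pool.Agent.P.MP_dba3d2_lc


end

section

/-! Step D_STRAND of the stability project. -/

namespace Pool.Agent.P.MP_dba3d2_lc

open Set Filter Topology

namespace D_strandA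

variable {X : Set Gm} {L L' : LS X} {w : Gm × Bool} {F : Equiv.Perm (ℤ × Bool)} {B : ℕ}

/-- the states over the leaf of `w` -/
def emb (L' : LS X) (w : Gm × Bool) (p : ℤ × Bool) : Gm × Bool := (L'.at' w p.1, p.2)

theorem emb_inj (hw : w.1 ∈ X) : Function.Injective (emb L' w) := fun p q h => by
  have h2 : (emb L' w p).2 = (emb L' w q).2 := congrArg Prod.snd h
  have h1 : (emb L' w p).1 = (emb L' w q).1 := congrArg Prod.fst h
  exact Prod.ext (L'.at_inj hw h1) h2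

theorem exists_emb (H : ∀ γ ∈ X, ∀ β, L.Rel γ β → L'.Rel γ β) (hw : w.1 ∈ X) (n : ℤ)
    (p : ℤ × Bool) : ∃ q, emb L' w q = (L.f ^ n) (emb L' w p) := by
  have h1 : L'.Rel (L'.at' w p.1) ((L.f ^ n) (emb L' w p)).1 :=
    H _ (L'.at_mem hw _) _ ((L.rel_iff p.2).2 ⟨n, rfl⟩)
  have h2 := (L'.rel_at w 0 p.1).trans h1
  rw [LS.at_zero] at h2
  obtain ⟨m, hm⟩ := (L'.rel_iff w.2).1 h2
  exact ⟨(m, ((L.f ^ n) (emb L' w p)).2), Prod.ext hm rfl⟩

theorem exists_perm (H : ∀ γ ∈ X, ∀ β, L.Rel γ β → L'.Rel γ β) (hw : w.1 ∈ X) :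
    ∃ F : Equiv.Perm (ℤ × Bool), ∀ p, emb L' w (F p) = L.f (emb L' w p) := by
  choose f hf using exists_emb H hw 1
  choose g hg using exists_emb H hw (-1)
  simp only [zpow_one, zpow_neg] at hf hg
  exact ⟨⟨f, g, fun p => emb_inj hw (by rw [hg, hf]; simp),
    fun p => emb_inj hw (by rw [hf, hg]; simp)⟩, hf⟩

theorem emb_zpow (hF : ∀ p, emb L' w (F p) = L.f (emb L' w p)) (n : ℤ) :
    ∀ p, emb L' w ((F ^ n) p) = (L.f ^ n) (emb L' w p) := by
  have h : ∀ p, emb L' w (F⁻¹ p) = L.f⁻¹ (emb L' w p) := fun p => by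
    rw [Equiv.Perm.eq_inv_iff_eq, ← hF]
    simp
  induction n using Int.induction_on with
  | zero => simp
  | succ n ih => intro p; rw [zpow_add_one, zpow_add_one, Equiv.Perm.mul_apply, ih, hF]; rfl
  | pred n ih => intro p; rw [zpow_sub_one, zpow_sub_one, Equiv.Perm.mul_apply, ih, h]; rfl

theorem prel_iff (hw : w.1 ∈ X) (hF : ∀ p, emb L' w (F p) = L.f (emb L' w p)) (a b : ℤ) :
    PRel F a b ↔ L.Rel (L'.at' w a) (L'.at' w b) := by
  refine exists_congr fun n => ?_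
  have h : L.at' (L'.at' w a, true) n = L'.at' w ((F ^ n) (a, true)).1 :=
    (congrArg Prod.fst (emb_zpow hF n (a, true))).symm
  rw [h]
  exact ⟨fun e => by rw [e], L'.at_inj hw⟩

theorem ev (L : LS X) {y : Gm × Bool} (h : y.1 ∈ X) (n : ℤ) : ∀ᶠ δ in 𝓝 (1 : Gm),
    (L.f ^ n) (y.1 * δ, y.2) = (((L.f ^ n) y).1 * δ, ((L.f ^ n) y).2) := by
  obtain ⟨r, r0, hr⟩ := L.zpow_eventually h n
  exact eventually_gm.2 ⟨r, r0, fun δ hδ => by rw [one_mul]; exact (hr δ hδ).2⟩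

theorem jump1 (H : ∀ γ ∈ X, ∀ β, L.Rel γ β → L'.Rel γ β) (e' e : Bool) :
    ∃ n : ℕ, ∀ γ ∈ X, ∃ k : ℤ, |k| ≤ n ∧ L'.at' (γ, e') k = (L.f (γ, e)).1 := by
  refine L.co.exists_bound (p := fun n γ => ∃ k : ℤ, |k| ≤ n ∧ L'.at' (γ, e') k = (L.f (γ, e)).1)
    (fun m n γ h ⟨k, h1, h2⟩ => ⟨k, h1.trans (by exact_mod_cast h), h2⟩) fun γ hγ => ?_
  obtain ⟨k, hk⟩ := (L'.rel_iff e').1 (H γ hγ _ ((L.rel_iff e).2 ⟨1, L.at_one _⟩))
  obtain ⟨r, r0, hr⟩ := eventually_gm.1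
    ((ev L' (y := (γ, e')) hγ k).and (ev L (y := (γ, e)) hγ 1))
  refine ⟨k.natAbs, eventually_gm.2 ⟨r, r0, fun δ hδ => ⟨k, by simp, ?_⟩⟩⟩
  obtain ⟨h1, h2⟩ := hr δ hδ
  simp only [one_mul, zpow_one] at h1 h2
  rw [h2, LS.at', h1, ← hk]
  rfl

theorem jump (H : ∀ γ ∈ X, ∀ β, L.Rel γ β → L'.Rel γ β) :
    ∃ n : ℕ, ∀ e' e, ∀ γ ∈ X, ∃ k : ℤ, |k| ≤ n ∧ L'.at' (γ, e') k = (L.f (γ, e)).1 := by
  choose n hn using jump1 H
  refine ⟨Finset.univ.sup fun p : Bool × Bool => n p.1 p.2, fun e' e γ hγ => ?_⟩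
  obtain ⟨k, h1, h2⟩ := hn e' e γ hγ
  have := Finset.le_sup (f := fun p : Bool × Bool => n p.1 p.2) (Finset.mem_univ (e', e))
  exact ⟨k, h1.trans (by exact_mod_cast this), h2⟩

theorem ps (hB : ∀ e' e, ∀ γ ∈ X, ∃ k : ℤ, |k| ≤ B ∧ L'.at' (γ, e') k = (L.f (γ, e)).1)
    (hw : w.1 ∈ X) (hF : ∀ p, emb L' w (F p) = L.f (emb L' w p)) : PS F B := by
  refine ⟨fun p => emb_inj (L' := L') hw ?_, fun p => ?_, fun p m n h => ?_⟩
  · have h : emb L' w ((F p).1, !(F p).2) = fl (L.f (emb L' w p)) := congrArg fl (hF p)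
    rw [hF, h, L.rev]
    rfl
  · obtain ⟨k, h1, h2⟩ := hB ((L'.f ^ p.1) w).2 p.2 _ (L'.at_mem hw p.1)
    have h3 : L'.at' w (k + p.1) = L'.at' w (F p).1 :=
      (L'.at_add w k p.1).symm.trans (h2.trans (congrArg Prod.fst (hF p)).symm)
    rw [← L'.at_inj hw h3, add_sub_cancel_right]
    exact h1
  · refine L.inj (emb L' w p) (L'.at_mem hw p.1) ?_
    simp only [← emb_zpow hF]
    exact congrArg (L'.at' w) h

theorem far (L' : LS X) (hw : w.1 ∈ X) {U : Set Gm} (hU : IsOpen U) (hne : (U ∩ X).Nonempty)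
    (a₀ s : ℤ) (hs : s = 1 ∨ s = -1) : ∃ a, a₀ ≤ s * a ∧ L'.at' w a ∈ U := by
  obtain ⟨B, hB⟩ := L'.exists_visit hU hne
  rcases hs with rfl | rfl
  · obtain ⟨m, -, -, h⟩ := hB ((L'.f ^ a₀) w) (L'.at_mem hw a₀)
    rw [LS.at_add] at h
    exact ⟨_, by omega, h⟩
  · obtain ⟨m, -, -, h⟩ := hB (fl ((L'.f ^ (-a₀)) w)) (L'.at_mem hw (-a₀))
    rw [LS.at_fl, LS.at_add] at h
    exact ⟨_, by omega, h⟩

theorem orient (L' : LS X) (w : Gm × Bool) (a : ℤ) (b : Bool) :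
    ∃ ε : ℤ, (ε = 1 ∨ ε = -1) ∧ ∀ x, L'.at' w (a + ε * x) = L'.at' (L'.at' w a, b) x := by
  by_cases h : ((L'.f ^ a) w).2 = b
  · refine ⟨1, Or.inl rfl, fun x => ?_⟩
    rw [one_mul, add_comm, ← LS.at_add, ← h]
    rfl
  · refine ⟨-1, Or.inr rfl, fun x => ?_⟩
    have e : (L'.at' w a, b) = fl ((L'.f ^ a) w) :=
      Prod.ext rfl (by rw [fl_snd]; exact Bool.eq_not_of_ne (Ne.symm h))
    rw [e, LS.at_fl, LS.at_add, add_comm, neg_one_mul]

theorem window {y : Gm × Bool} {F' : Equiv.Perm (ℤ × Bool)} (hw : w.1 ∈ X) (hy : y.1 ∈ X)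
    (hF : ∀ p, emb L' w (F p) = L.f (emb L' w p)) (hF' : ∀ p, emb L' y (F' p) = L.f (emb L' y p))
    (hP : PS F' B) (n : ℕ) (a₀ s : ℤ) (hs : s = 1 ∨ s = -1) :
    ∃ a ε : ℤ, (ε = 1 ∨ ε = -1) ∧ a₀ ≤ s * a ∧ ∀ (x : ℤ) (e : Bool), |x| ≤ n →
      F (a + ε * x, e) = (a + ε * (F' (x, e)).1, (F' (x, e)).2) := by
  have h1 := (eventually_all_finite (finite_Icc (-(n + B : ℤ)) (n + B))).2 fun x _ => ev L' hy x
  have h2 := (eventually_all_finite (finite_Icc (-(n : ℤ)) n)).2 fun x _ =>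
    eventually_all.2 fun e : Bool => ev L (y := (L'.at' y x, e)) (L'.at_mem hy x) 1
  obtain ⟨r, r0, hr⟩ := eventually_gm.1 (h1.and h2)
  obtain ⟨a, ha, hU⟩ := far L' hw (isOpen_seg (γ := y.1) (r := r)) ⟨_, self_mem_seg r0, hy⟩ a₀ s hs
  obtain ⟨ε, hε, ho⟩ := orient L' w a y.2
  obtain ⟨k1, k2⟩ := hr _ (mem_seg.1 hU)
  simp only [one_mul, zpow_one, mul_inv_cancel_left] at k1 k2
  have k3 : ∀ x : ℤ, |x| ≤ n + B →
      L'.at' w (a + ε * x) = L'.at' y x * (y.1⁻¹ * L'.at' w a) := fun x hx => by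
    rw [ho, LS.at', k1 x (abs_le.1 hx)]
    rfl
  refine ⟨a, ε, hε, ha, fun x e hx => emb_inj (L' := L') hw ?_⟩
  have j1 := hP.jump (x, e)
  have j2 : |(F' (x, e)).1| ≤ n + B := by
    rw [abs_le] at hx j1 ⊢
    simp only at j1
    omega
  have j3 : L.f (L'.at' y x, e) = (L'.at' y (F' (x, e)).1, (F' (x, e)).2) := (hF' (x, e)).symm
  rw [hF, emb, emb]
  simp only
  rw [k3 x (hx.trans (by omega)), k3 _ j2, k2 x (abs_le.1 hx) e, j3]

end D_strandA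

open D_strandA in
theorem p_D_STRAND (hD_PATHS : S_D_PATHS) :
    S_D_STRAND := by
  intro X L L' H k γ hγ h1 h2 y hy
  rcases k with _ | k
  · exact ⟨Fin.elim0, fun i => i.elim0, fun j => j.elim0⟩
  have hw : (γ 0, true).1 ∈ X := hγ 0
  obtain ⟨B, hB⟩ := jump H
  obtain ⟨F, hF⟩ := exists_perm H hw
  obtain ⟨F', hF'⟩ := exists_perm H hy
  choose x hx using h2 0
  obtain ⟨x', k1, k2⟩ := hD_PATHS F F' B (ps hB hw hF) (ps hB hy hF')
    (window hw hy hF hF' (ps hB hy hF')) _ x fun i j h => h1 i j (by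
      rwa [prel_iff hw hF, hx, hx] at h)
  simp only [prel_iff hy hF'] at k1 k2
  exact ⟨x', k1, k2⟩

end Pool.Agent.P.MP_dba3d2_lc


end

section

/-! Step D_ESS of the stability project. -/

namespace Pool.Agent.P.MP_dba3d2_lc

open Set Filter Topology

namespace D_essA

variable {A : Gm → ℝ → ℝ → Prop} {X : Set Gm}

theorem step_at (L : LS X) (y : Gm × Bool) (k : ℤ) :
    (L.f ((L.f ^ k) y)).1 = L.at' y (k + 1) := by
  rw [← L.at_one, L.at_add, add_comm]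

/-- a uniform radius for one direction -/
theorem radius (P : PG A) (L : LS X) (h : ∀ y : Gm × Bool, y.1 ∈ X → RW2 A y.1 (L.f y).1)
    (e : Bool) : ∃ r > 0, ∀ γ ∈ X, A ((L.f (γ, e)).1 * γ⁻¹) (γ.c - r) (γ.c + r) := by
  obtain ⟨n, hn⟩ := L.co.exists_bound
    (p := fun n γ => A ((L.f (γ, e)).1 * γ⁻¹) (γ.c - 1 / (n + 1)) (γ.c + 1 / (n + 1)))
    (fun m n γ hmn k => by
      have a1 : (1 : ℝ) / (n + 1) ≤ 1 / (m + 1) := Nat.one_div_le_one_div hmn
      have a2 : (0 : ℝ) < 1 / (n + 1) := Nat.one_div_pos_of_nat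
      exact P.sub _ _ _ _ _ k (by linarith) (by linarith) (by linarith))
    (fun γ hγ => by
      obtain ⟨u, v, h1, h2, h3⟩ := h (γ, e) hγ
      obtain ⟨r, r0, hr⟩ := L.loc (γ, e) hγ
      dsimp only at h1 h2 h3 hr
      obtain ⟨n, hn⟩ := exists_nat_one_div_lt (K := ℝ) (ε := min (γ.c - u) (v - γ.c) / 2)
        (half_pos (lt_min (by linarith) (by linarith)))
      have a1 := min_le_left (γ.c - u) (v - γ.c)
      have a2 := min_le_right (γ.c - u) (v - γ.c)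
      have a3 : (0 : ℝ) < 1 / (n + 1) := Nat.one_div_pos_of_nat
      refine ⟨n, eventually_gm'.2 ⟨P.sub _ _ _ _ _ h3 (by linarith) (by linarith) (by linarith),
        min r (1 / (n + 1)), lt_min r0 a3, fun δ d1 d2 => ?_⟩⟩
      have b1 := d2.trans_le (min_le_right _ _)
      have b2 : |(γ * δ).c - γ.c| = δ.c := by
        rw [Gm.mul_c', ← γ.ap_zero, Gm.abs_ap_sub, sub_zero, abs_of_pos d1]
      have b3 := abs_le.1 b2.le
      rw [hr δ d1 (d2.trans_le (min_le_left _ _)), mul_inv_rev, ← mul_assoc, mul_inv_cancel_right]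
      exact P.sub _ _ _ _ _ h3 (by linarith) (by linarith) (by linarith))
  exact ⟨1 / (n + 1), Nat.one_div_pos_of_nat, hn⟩

theorem comp (P : PG A) {α β γ : Gm} {r : ℝ} (h : A (β * α⁻¹) (α.c - r) (α.c + r))
    (k : A (γ * β⁻¹) (β.c - r) (β.c + r)) : A (γ * α⁻¹) (α.c - r) (α.c + r) := by
  have := P.comp _ _ _ _ _ _ h k fun t ht => by
    have e : (β * α⁻¹).ap α.c = β.c := by rw [← Gm.mul_c', inv_mul_cancel_right]
    have := (β * α⁻¹).abs_ap_sub t α.c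
    rw [e] at this
    have k := abs_le.1 (this.le.trans (abs_le.2 ⟨by linarith [ht.1], by linarith [ht.2]⟩ :
      |t - α.c| ≤ r))
    exact ⟨by linarith [k.1], by linarith [k.2]⟩
  rwa [mul_assoc, inv_mul_cancel_left] at this

/-- not all steps are two sided -/
theorem not_all (P : PG A) (L : LS X) (h : ∀ y : Gm × Bool, y.1 ∈ X → RW2 A y.1 (L.f y).1) :
    False := by
  obtain ⟨r, r0, hr⟩ : ∃ r > 0, ∀ y : Gm × Bool, y.1 ∈ X →
      A ((L.f y).1 * y.1⁻¹) (y.1.c - r) (y.1.c + r) := by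
    obtain ⟨r1, a1, b1⟩ := radius P L h true
    obtain ⟨r2, a2, b2⟩ := radius P L h false
    have c0 := lt_min a1 a2
    have c1 := min_le_left r1 r2
    have c2 := min_le_right r1 r2
    refine ⟨min r1 r2, c0, fun ⟨γ, e⟩ hγ => ?_⟩
    cases e
    · exact P.sub _ _ _ _ _ (b2 γ hγ) (by linarith) (by linarith) (by linarith)
    · exact P.sub _ _ _ _ _ (b1 γ hγ) (by linarith) (by linarith) (by linarith)
  obtain ⟨γ, hγ⟩ := L.ne
  have hy : ((γ, true) : Gm × Bool).1 ∈ X := hγ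
  generalize ((γ, true) : Gm × Bool) = y at hy
  have st : ∀ k : ℤ, A (L.at' y (k + 1) * (L.at' y k)⁻¹) ((L.at' y k).c - r) ((L.at' y k).c + r) :=
    fun k => step_at L y k ▸ hr _ (L.at_mem hy k)
  have key : ∀ m n : ℕ, m + 1 ≤ n →
      A (L.at' y n * (L.at' y m)⁻¹) ((L.at' y m).c - r) ((L.at' y m).c + r) := by
    intro m n hmn
    induction n, hmn using Nat.le_induction with
    | base => exact_mod_cast st m
    | succ n _ ih => exact comp P ih (by exact_mod_cast st n)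
  obtain ⟨ε, e0, hε⟩ := P.small (2 * r) (by linarith)
  obtain ⟨a, b, -, hab⟩ := L.co.bdd
  obtain ⟨m, -, n, -, hmn, e⟩ := (infinite_univ (α := ℕ)).exists_lt_map_eq_of_mapsTo
    (f := fun n : ℕ => ((L.at' y n).ε, ⌊(L.at' y n).c / ε⌋))
    (t := ({1, -1} : Set ℝ) ×ˢ Icc ⌊a / ε⌋ ⌊b / ε⌋) (fun n _ => by
      have := c_mem_of_GI (hab (L.at_mem hy n))
      exact ⟨(L.at' y n).h, Int.floor_le_floor (div_le_div_of_nonneg_right this.1 e0.le),
        Int.floor_le_floor (div_le_div_of_nonneg_right this.2 e0.le)⟩)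
    ((toFinite _).prod (finite_Icc _ _))
  have e1 : (L.at' y m).ε = (L.at' y n).ε := congrArg Prod.fst e
  have e2 := Int.abs_sub_lt_one_of_floor_eq_floor (congrArg Prod.snd e).symm
  rw [← sub_div, abs_div, abs_of_pos e0, div_lt_one e0] at e2
  have e3 : L.at' y n * (L.at' y m)⁻¹ = Gm.tau ((L.at' y n).c - (L.at' y m).c) := by
    refine Gm.ext (by simp [e1, Gm.eps_sq]) ?_
    simp only [Gm.mul_c, Gm.inv_c, Gm.tau_c, e1]
    linear_combination (-(L.at' y m).c) * (L.at' y n).eps_sq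
  have k := key m n hmn
  rw [e3] at k
  have e4 := hε _ _ _ k (by linarith) e2.le
  have := L.at_inj hy (Gm.ext e1 (by linarith))
  omega

/-- far out all steps of a leaf are two sided -/
theorem far (L : LS X) (hW : L.Weak A) (y : Gm × Bool) (hy : y.1 ∈ X) : ∃ n : ℕ, ∀ k : ℤ,
    (n : ℤ) ≤ |k| → RW2 A ((L.f ^ k) y).1 (L.f ((L.f ^ k) y)).1 := by
  have hf := hW.finite_sing.preimage (f := fun k : ℤ => (L.f ^ k) y)
    (fun a _ b _ e => L.inj y hy (congrArg Prod.fst e))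
  obtain ⟨n, hn⟩ := (hf.image Int.natAbs).bddAbove
  refine ⟨n + 1, fun k hk => ?_⟩
  by_contra e
  have := hn ⟨k, ⟨L.at_mem hy k, e⟩, rfl⟩
  rw [Int.abs_eq_natAbs] at hk
  omega

/-- the two tails of a leaf are related -/
theorem tails (P : PG A) (L : LS X) (hW : L.Weak A) (y : Gm × Bool) (hy : y.1 ∈ X)
    (hn : ∀ n : ℕ, ∃ a b : ℤ, a ≤ -n ∧ (n : ℤ) ≤ b ∧ RW2 A (L.at' y a) (L.at' y b)) :
    ∃ n : ℕ, ∀ a b : ℤ, a ≤ -n → (n : ℤ) ≤ b → RW2 A (L.at' y a) (L.at' y b) := by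
  obtain ⟨n, h⟩ := far L hW y hy
  obtain ⟨a0, b0, h1, h2, h3⟩ := hn n
  refine ⟨n, fun a b ha hb => ?_⟩
  have k1 : RW2 A (L.at' y a) (L.at' y b0) := by
    rcases lt_trichotomy a a0 with e | e | e
    · exact P.rw2_trans (L.rw2_stretch P e fun k _ k2 => h k (le_abs.2 (Or.inr (by omega)))) h3
    · rwa [e]
    · exact P.rw2_trans
        (P.rw2_symm (L.rw2_stretch P e fun k _ k2 => h k (le_abs.2 (Or.inr (by omega))))) h3
  rcases lt_trichotomy b0 b with e | e | e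
  · exact P.rw2_trans k1 (L.rw2_stretch P e fun k k2 _ => h k (le_abs.2 (Or.inl (by omega))))
  · rwa [← e]
  · exact P.rw2_trans k1
      (P.rw2_symm (L.rw2_stretch P e fun k k2 _ => h k (le_abs.2 (Or.inl (by omega)))))

end D_essA

open D_essA in
theorem p_D_ESS (hD_RET : S_D_RET) :
    S_D_ESS := by
  intro A P X L hW
  by_contra hn
  push Not at hn
  choose! n hn using fun y hy => tails P L hW y hy (hn y hy)
  obtain ⟨Bad, hB, hB'⟩ : ∃ Bad : Set Gm, Bad.Finite ∧ ∀ z : Gm × Bool, z.1 ∈ X →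
      ¬RW2 A z.1 (L.f z).1 → ∀ k : ℤ, -(n z : ℤ) ≤ k → k ≤ n z → L.at' z k ∈ Bad :=
    ⟨_, hW.finite_sing.biUnion fun z _ => (finite_Icc (-(n z : ℤ)) (n z)).image (L.at' z),
      fun z h1 h2 k k1 k2 => mem_biUnion (x := z) ⟨h1, h2⟩ ⟨k, ⟨k1, k2⟩, rfl⟩⟩
  have key : ∀ y : Gm × Bool, y.1 ∈ X → ∀ a b : ℤ, a < b → L.at' y a ∉ Bad → L.at' y b ∉ Bad →
      RW2 A (L.at' y a) (L.at' y b) := by
    intro y hy a b hab ha hb
    by_cases h : ∀ k, a ≤ k → k < b → RW2 A ((L.f ^ k) y).1 (L.f ((L.f ^ k) y)).1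
    · exact L.rw2_stretch P hab h
    · push Not at h
      obtain ⟨k, k1, k2, k3⟩ := h
      have hz : ((L.f ^ k) y).1 ∈ X := L.at_mem hy k
      have e1 : L.at' y a = L.at' ((L.f ^ k) y) (a - k) := by rw [L.at_add, sub_add_cancel]
      have e2 : L.at' y b = L.at' ((L.f ^ k) y) (b - k) := by rw [L.at_add, sub_add_cancel]
      rw [e1] at ha ⊢
      rw [e2] at hb ⊢
      refine hn _ hz _ _ ?_ ?_
      · by_contra e
        exact ha (hB' _ hz k3 _ (by omega) (by omega))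
      · by_contra e
        exact hb (hB' _ hz k3 _ (by omega) (by omega))
  obtain ⟨a, b, hab, hX⟩ := exists_GI_subset L.co.2 L.ne
  obtain ⟨u, v, h1, h2, h3, h4⟩ := exists_Icc_avoid (hB.image Gm.c) hab
  have hU : GI u v ⊆ X := (GI_mono h1.le h3.le).trans hX
  have hU' : ∀ γ ∈ GI u v, γ ∉ Bad := fun γ hγ e => h4 _ (c_mem_of_GI hγ) ⟨γ, e, rfl⟩
  obtain ⟨L1, -, hL⟩ := hD_RET X (GI u v) L co_GI (GI_nonempty.2 h2) hU
  refine not_all P L1 fun y hy => ?_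
  obtain ⟨r, r0, e, -⟩ := hL y hy
  have m1 := (L1.mem y).2 hy
  rw [e, ← L.at_nat] at m1 ⊢
  have := key y (hU hy) 0 r (by omega) (by rw [L.at_zero]; exact hU' _ hy) (hU' _ m1)
  rwa [L.at_zero] at this

end Pool.Agent.P.MP_dba3d2_lc


end

section

/-! Step D_SAT of the stability project. -/

namespace Pool.Agent.P.MP_dba3d2_lc

open Set Filter Topology

namespace D_satA

variable {A : Gm → ℝ → ℝ → Prop} {X : Set Gm}

/-- families of germs on different leaves that can be moved to each other -/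
def Fam (A : Gm → ℝ → ℝ → Prop) (L : LS X) (k : ℕ) : Prop :=
  ∃ γ : Fin k → Gm, (∀ i, γ i ∈ X) ∧ (∀ i j, L.Rel (γ i) (γ j) → i = j) ∧
    ∀ i j, RW A (γ i) (γ j)

theorem fam_one (P : PG A) {L : LS X} (hL : L.Weak A) : Fam A L 1 := by
  obtain ⟨γ, hγ⟩ := L.ne
  exact ⟨fun _ => γ, fun _ => hγ, fun i j _ => Subsingleton.elim i j,
    fun _ _ => hL.rw P hγ (L.rel_refl γ)⟩

theorem exists_big (P : PG A) {L : LS X} (hL : L.Weak A) {k : ℕ} {γ : Fin k → Gm} (i0 : Fin k)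
    (h1 : ∀ i, γ i ∈ X) (h3 : ∀ i j, RW A (γ i) (γ j)) :
    ∃ (κ : Type) (_ : Fintype κ) (T : Sys κ), T.In X ∧ T.Min X ∧ T.Weak A ∧
      (∀ α ∈ X, ∀ β, L.Rel α β → T.Rel α β) ∧ ∀ i j, T.Rel (γ i) (γ j) := by
  obtain ⟨κ, _, ψ, W, hW, hc⟩ := L.exists_sys
  obtain ⟨r, r0, hr⟩ : ∃ r > 0, seg (γ i0) r ⊆ {α | ∀ j, α ∈ X ∧ γ j * (γ i0)⁻¹ * α ∈ X ∧
      RW A α (γ j * (γ i0)⁻¹ * α)} := by
    refine mem_nhds_gm.1 (eventually_all.2 fun j => ?_)
    have e : ∀ᶠ α in 𝓝 (γ i0), γ j * (γ i0)⁻¹ * α ∈ X :=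
      (continuous_gm_mul (γ j * (γ i0)⁻¹)).continuousAt.preimage_mem_nhds
        (L.co.2.mem_nhds (by simpa using h1 j))
    filter_upwards [L.co.2.mem_nhds (h1 i0), e, (h3 i0 j).eventually] with α a b c
    exact ⟨a, b, c⟩
  obtain ⟨ψ', W', k1, k2, k3, k4⟩ : ∃ (ψ' : κ ⊕ Fin k → Gm) (W' : κ ⊕ Fin k → Set Gm),
      (∀ a, CO (W' a)) ∧ (∀ a, ∀ α ∈ W' a, α ∈ X ∧ ψ' a * α ∈ X ∧ RW A α (ψ' a * α)) ∧
      (∀ y : Gm × Bool, y.1 ∈ X → ∃ a, y.1 ∈ W' a ∧ (L.f y).1 = ψ' a * y.1) ∧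
      ∀ j, ∃ a, γ i0 ∈ W' a ∧ γ j = ψ' a * γ i0 := by
    refine ⟨Sum.elim ψ fun j => γ j * (γ i0)⁻¹, Sum.elim W fun _ => seg (γ i0) r, ?_, ?_,
      fun y hy => ?_, fun j => ⟨Sum.inr j, self_mem_seg r0, by simp⟩⟩
    · rintro (a | j)
      exacts [(hW a).1, co_seg]
    · rintro (a | j) α hα
      · obtain ⟨e, he⟩ := (hW a).2.2 α hα
        have hX : α ∈ X := (hW a).2.1 hα
        refine ⟨hX, ?_, ?_⟩ <;> rw [Sum.elim_inl, ← he]
        · exact (L.mem (α, e)).2 hX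
        · exact hL (α, e) hX
      · exact hr hα j
    · obtain ⟨a, ha⟩ := hc y hy
      exact ⟨Sum.inl a, ha⟩
  obtain ⟨T, -, t1, t2, t3, t4, t5⟩ := Sys.exists_mk ψ' W' k1
  have hin : T.In X := by
    rintro ⟨a, b⟩ β hβ
    cases b
    · rw [t4] at hβ
      simpa using (k2 a _ hβ).2.1
    · rw [t3] at hβ
      exact (k2 a _ hβ).1
  have hrel : ∀ α ∈ X, ∀ β, L.Rel α β → T.Rel α β := fun α hα β h =>
    L.rel_sys (fun y hy => by
      obtain ⟨a, ha⟩ := k3 y hy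
      exact Sys.Step.rel ((t5 _ _).2 ⟨a, Or.inl ha⟩)) hα h
  have h0 : ∀ j, T.Rel (γ i0) (γ j) := fun j => by
    obtain ⟨a, ha⟩ := k4 j
    exact Sys.Step.rel ((t5 _ _).2 ⟨a, Or.inl ha⟩)
  refine ⟨_, inferInstance, T, hin, Sys.min_of_dense L.co L.ne hin.inv fun α hα => ?_, ?_, hrel,
    fun i j => (h0 i).symm.trans (h0 j)⟩
  · exact (L.den α hα).trans (closure_mono fun β hβ => hrel α hα β hβ)
  · rintro ⟨a, b⟩ β hβ
    cases b
    · rw [t4] at hβ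
      rw [t2]
      exact P.rw_symm (by simpa using (k2 a _ hβ).2.2)
    · rw [t3] at hβ
      rw [t1]
      exact (k2 a _ hβ).2.2

theorem sing (P : PG A) (L : LS X) {α β : Gm} (hα : α ∈ X) (h : L.Rel α β) (hne : α ≠ β)
    (hn : ¬RW2 A α β) :
    ∃ s : Gm × Bool, (s.1 ∈ X ∧ ¬RW2 A s.1 (L.f s).1) ∧ L.Rel α s.1 := by
  obtain ⟨m, rfl⟩ := h
  by_contra hc
  have k : ∀ t : ℤ, RW2 A ((L.f ^ t) (α, true)).1 (L.f ((L.f ^ t) (α, true))).1 := fun t => by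
    by_contra e
    exact hc ⟨_, ⟨L.at_mem (y := (α, true)) hα t, e⟩, t, rfl⟩
  rcases lt_trichotomy m 0 with e | e | e
  · have := L.rw2_stretch (y := (α, true)) P e fun t _ _ => k t
    rw [LS.at_zero] at this
    exact hn (P.rw2_symm this)
  · subst e
    exact hne (by simp)
  · have := L.rw2_stretch (y := (α, true)) P e fun t _ _ => k t
    rw [LS.at_zero] at this
    exact hn this

theorem fam_succ (P : PG A) {L : LS X} {k : ℕ} {g : Fin k → Gm} {γ β : Gm} (h1 : ∀ i, g i ∈ X)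
    (h2 : ∀ i j, L.Rel (g i) (g j) → i = j) (h3 : ∀ i, RW A γ (g i)) (hβ : β ∈ X)
    (h4 : ∀ i, ¬L.Rel (g i) β) (h5 : RW A γ β) : Fam A L (k + 1) := by
  have k3 : ∀ i, RW A γ ((Fin.cons β g : Fin (k + 1) → Gm) i) := Fin.cases h5 h3
  refine ⟨Fin.cons β g, Fin.cases hβ h1, fun i j => ?_,
    fun i j => P.rw_trans (P.rw_symm (k3 i)) (k3 j)⟩
  refine Fin.cases ?_ (fun i => ?_) i <;> refine Fin.cases ?_ (fun j => ?_) j
  · exact fun _ => rfl
  · exact fun h => absurd h.symm (h4 j)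
  · exact fun h => absurd h (h4 i)
  · exact fun h => congrArg Fin.succ (h2 i j h)

end D_satA

open D_satA in
theorem p_D_SAT (hD_ONE : S_D_ONE) (hD_RET : S_D_RET) (hD_STRAND : S_D_STRAND) (hD_ESS : S_D_ESS) :
    S_D_SAT := by
  classical
  intro A P ι _ S p q hin hmin hw
  obtain ⟨p1, q1, a1, a2, a3, H | ⟨L, hL, hLS⟩⟩ := hD_ONE A P ι S p q hin hmin hw
  · exact ⟨p1, q1, a1, a2, a3, Or.inl H⟩
  have hfin := hL.finite_sing
  obtain ⟨n, hn⟩ : ∃ n, n = {y : Gm × Bool | y.1 ∈ GI p1 q1 ∧ ¬RW2 A y.1 (L.f y).1}.ncard :=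
    ⟨_, rfl⟩
  obtain ⟨k, k1, ⟨γ, g1, g2, g3⟩, k3⟩ : ∃ k, 1 ≤ k ∧ Fam A L k ∧ (k ≤ n → ¬Fam A L (k + 1)) :=
    ⟨Nat.findGreatest (Fam A L) (n + 1), Nat.le_findGreatest (by omega) (fam_one P hL),
      Nat.findGreatest_spec (m := 1) (by omega) (fam_one P hL),
      fun h => Nat.findGreatest_is_greatest (Nat.lt_succ_self _) (Nat.succ_le_succ h)⟩
  obtain ⟨κ, _, T, t1, t2, t3, t4, t5⟩ := exists_big P hL ⟨0, k1⟩ g1 g3
  obtain ⟨p2, q2, b1, b2, b3, H⟩ := hD_ONE A P κ T p1 q1 t1 t2 t3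
  have hsub : GI p2 q2 ⊆ GI p1 q1 := GI_mono b1 b3
  refine ⟨p2, q2, a1.trans b1, b2, b3.trans a3, H.imp ?_ ?_⟩
  · rintro ⟨κ', w, T', c1, c2, c3, c4, c5⟩
    exact ⟨κ', w, T', c1, c2, c3, c4, fun α hα β hβ h =>
      c5 α hα β hβ (t4 α (hsub hα) β ((hLS α (hsub hα) β (hsub hβ)).2 h))⟩
  rintro ⟨L', hL', hLT⟩
  have hne : (GI p2 q2).Nonempty := GI_nonempty.2 b2
  obtain ⟨L3, h3⟩ := hD_RET _ _ L co_GI hne hsub
  have up : ∀ α ∈ GI p2 q2, ∀ β ∈ GI p2 q2, L.Rel α β → L'.Rel α β := fun α hα β hβ h =>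
    (hLT α hα β hβ).2 (t4 α (hsub hα) β h)
  obtain ⟨B, hB⟩ := L.exists_visit (U := GI p2 q2) isOpen_GI
    (by rwa [inter_eq_self_of_subset_left hsub])
  have mv : ∀ j, ∃ δ ∈ GI p2 q2, L.Rel (γ j) δ := fun j => by
    obtain ⟨m, -, -, hm⟩ := hB (γ j, true) (g1 j)
    exact ⟨_, hm, m, rfl⟩
  choose δ d1 d2 using mv
  have ST := hD_STRAND _ L3 L'
    (fun α hα β h => up α hα β (h.mem hα) ((h3.rel hα (h.mem hα)).1 h)) k δ d1
    (fun i j h => g2 i j (((d2 i).trans ((h3.rel (d1 i) (d1 j)).1 h)).trans (d2 j).symm))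
    (fun i j => (hLT _ (d1 i) _ (d1 j)).2
      (((t4 _ (g1 i) _ (d2 i)).symm.trans (t5 i j)).trans (t4 _ (g1 j) _ (d2 j))))
  have hk : k ≤ n := by
    obtain ⟨y, hy, n0, he⟩ := hD_ESS A P _ L' hL'
    obtain ⟨x, x1, x2⟩ := ST y hy
    have m := fun t => L'.at_mem hy t
    have key : ∀ j, ∃ s : Gm × Bool, (s.1 ∈ GI p1 q1 ∧ ¬RW2 A s.1 (L.f s).1) ∧
        L.Rel (L'.at' y (x j)) s.1 := fun j => by
      obtain ⟨a, b, e1, e2, e3, e4⟩ := x2 j (n0 + 1)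
      have f3 := (h3.rel (m _) (m _)).1 e3
      have f4 := (h3.rel (m _) (m _)).1 e4
      push_cast at e1 e2
      obtain ⟨s, s1, s2⟩ := sing P L (hsub (m a)) (f3.symm.trans f4)
        (fun e => by have := L'.at_inj hy e; omega) (he a b (by omega) (by omega))
      exact ⟨s, s1, f3.trans s2⟩
    choose s s1 s2 using key
    have inj : Function.Injective s := fun i j e =>
      x1 i j ((h3.rel (m _) (m _)).2 ((s2 i).trans (e ▸ (s2 j).symm)))
    have := ncard_le_ncard (s := range s) (by rintro _ ⟨j, rfl⟩; exact s1 j) hfin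
    rwa [ncard_range_of_injective inj, Nat.card_eq_fintype_card, Fintype.card_fin, ← hn] at this
  refine ⟨L', fun α hα β hβ => ⟨hL'.rw P hα, fun h => ?_⟩⟩
  obtain ⟨x, x1, -⟩ := ST (α, true) hα
  have m := fun t => L'.at_mem (y := (α, true)) hα t
  by_contra hc
  refine k3 hk (fam_succ P (g := fun j => L'.at' (α, true) (x j)) (fun i => hsub (m _))
    (fun i j e => x1 i j ((h3.rel (m _) (m _)).2 e)) (fun i => hL'.rw P hα ⟨_, rfl⟩) (hsub hβ)
    (fun i e => hc (LS.Rel.trans ⟨_, rfl⟩ (up _ (m _) β hβ e))) h)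

end Pool.Agent.P.MP_dba3d2_lc


end
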