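import Pool.Agent.P.MP_dba3d2_lc.A.Stmt
import Pool.Agent.P.MP_dba3d2_lcM.Ab00

section

/-! Interface, chapter H: logic and the final reduction. -/

namespace Pool.Agent.P.MP_dba3d2_lc

open Filter FirstOrder

-- deps: KEY
def S_TR : Prop := ∀ (Γ : HG) (k l : ℕ) (φ : grpLang.Formula (Fin k ⊕ Fin l)),
  Tr fun v : Fin k ⊕ Fin l → Γ.G => Sat Γ.G φ (fun i => v (.inl i)) fun i => v (.inr i)

-- deps: TR PAIR
def S_STAB0 : Prop := ∀ Γ : HG, IsStable Γ.G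

-- deps:
def S_SLIM : Prop := ∀ (V : Type) (X : SimpleGraph V) (δ : ℝ), X.Connected → 0 ≤ δ → Slim X δ →
  ∃ δ' : ℝ, 0 ≤ δ' ∧ FourPoint X δ'

-- deps: HG SLIM STAB0
def S_FIN0 : Prop := ∀ (G : Type) [Group G], IsHyperbolic G → IsStable G

end Pool.Agent.P.MP_dba3d2_lc


end
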