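import Pool.Agent.P.MP_dba3d2_lcM.Hb01
import Pool.Agent.P.MP_dba3d2_lcM.Ab04
import Pool.Agent.P.MP_dba3d2_lcM.Ab05
import Pool.Agent.P.MP_dba3d2_lcM.Gb27
import Pool.Agent.P.MP_dba3d2_lcM.Fb30

section

/-! Transfer of the final statement to groups in an arbitrary universe. -/

namespace Pool.Agent.P.MP_dba3d2_lc

open FirstOrder

universe u v

namespace Univ

lemma edist_le_iso {V : Type u} {W : Type v} {X : SimpleGraph V} {Y : SimpleGraph W} (e : X ≃g Y)
    (a b : V) : Y.edist (e a) (e b) ≤ X.edist a b := by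
  by_cases h : X.Reachable a b
  · obtain ⟨p, hp⟩ := h.exists_walk_length_eq_edist
    have := SimpleGraph.edist_le (p.map e.toHom)
    rw [SimpleGraph.Walk.length_map, hp] at this
    exact this
  · rw [SimpleGraph.edist_eq_top_of_not_reachable h]
    exact le_top

lemma dist_iso {V : Type u} {W : Type v} {X : SimpleGraph V} {Y : SimpleGraph W} (e : X ≃g Y)
    (a b : V) : Y.dist (e a) (e b) = X.dist a b := by
  have h1 := edist_le_iso e a b
  have h2 := edist_le_iso e.symm (e a) (e b)
  rw [e.symm_apply_apply, e.symm_apply_apply] at h2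
  unfold SimpleGraph.dist
  rw [le_antisymm h1 h2]

lemma fourPoint_iso {V : Type u} {W : Type v} {X : SimpleGraph V} {Y : SimpleGraph W} (e : X ≃g Y)
    {δ : ℝ} (h : FourPoint Y δ) : FourPoint X δ := by
  intro w x y z
  have := h (e w) (e x) (e y) (e z)
  simpa only [dist_iso] using this

lemma slim_iso {V : Type u} {W : Type v} {X : SimpleGraph V} {Y : SimpleGraph W} (e : X ≃g Y)
    {δ : ℝ} (h : Slim Y δ) : Slim X δ := by
  intro x y z p q r hp hq hr a ha
  obtain ⟨w, hw, hd⟩ := h (e x) (e y) (e z) (p.map e.toHom) (q.map e.toHom) (r.map e.toHom)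
    (by rw [SimpleGraph.Walk.length_map, dist_iso, hp])
    (by rw [SimpleGraph.Walk.length_map, dist_iso, hq])
    (by rw [SimpleGraph.Walk.length_map, dist_iso, hr]) (e a)
    (by rw [SimpleGraph.Walk.support_map]; exact List.mem_map.2 ⟨a, ha, rfl⟩)
  rw [SimpleGraph.Walk.support_map, SimpleGraph.Walk.support_map, List.mem_map,
    List.mem_map] at hw
  rcases hw with ⟨b, hb, rfl⟩ | ⟨b, hb, rfl⟩
  · exact ⟨b, Or.inl hb, by rw [← dist_iso e]; exact hd⟩
  · exact ⟨b, Or.inr hb, by rw [← dist_iso e]; exact hd⟩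

/-- A group isomorphism gives an isomorphism of Cayley graphs. -/
def cayIso {G : Type u} {H : Type v} [Group G] [Group H] (e : G ≃* H) (S : Set G) (T : Set H)
    (h : ∀ g, g ∈ S ↔ e g ∈ T) : SimpleGraph.mulCayley S ≃g SimpleGraph.mulCayley T where
  toEquiv := e.toEquiv
  map_rel_iff' := by
    intro a b
    rw [SimpleGraph.mulCayley_adj, SimpleGraph.mulCayley_adj, h, h, map_mul, map_mul, map_inv,
      map_inv]
    exact and_congr e.injective.ne_iff Iff.rfl

lemma hyp_equiv {G : Type u} {H : Type v} [Group G] [Group H] (e : G ≃* H) (h : IsHyperbolic H) :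
    IsHyperbolic G := by
  obtain ⟨T, hT, δ, hδ, h⟩ := h
  have hm : ∀ g, g ∈ ((T.map e.symm.toEquiv.toEmbedding : Finset G) : Set G) ↔
      e g ∈ (T : Set H) := by
    intro g
    rw [Finset.mem_coe, Finset.mem_coe, Finset.mem_map_equiv]
    rfl
  refine ⟨T.map e.symm.toEquiv.toEmbedding, ?_, δ, hδ, h.imp
    (fourPoint_iso (cayIso e _ _ hm)) (slim_iso (cayIso e _ _ hm))⟩
  have h1 := MonoidHom.map_closure e.symm.toMonoidHom (T : Set H)
  rw [hT, Subgroup.map_top_of_surjective _ e.symm.surjective] at h1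
  rw [Finset.coe_map]
  exact h1.symm

lemma sat_equiv {G : Type u} {H : Type v} [Group G] [Group H] (e : G ≃* H) {k l : ℕ}
    (φ : grpLang.Formula (Fin k ⊕ Fin l)) (x : Fin k → G) (y : Fin l → G) :
    Sat H φ (e ∘ x) (e ∘ y) ↔ Sat G φ x y := by
  let _ := grpStructure G
  let _ := grpStructure H
  let f : Language.Equiv grpLang G H :=
    { toEquiv := e.toEquiv
      map_fun' := by
        intro n f v
        cases f
        · exact map_mul e _ _
        · exact map_inv e _
        · exact map_one e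
      map_rel' := fun r _ => r.elim }
  have h := Language.StrongHomClass.realize_formula f φ (v := Sum.elim x y)
  rw [Sum.comp_elim] at h
  exact h

lemma stab_equiv {G : Type u} {H : Type v} [Group G] [Group H] (e : G ≃* H) (h : IsStable H) :
    IsStable G := by
  intro k l φ
  obtain ⟨n, hn⟩ := h k l φ
  exact ⟨n, fun m x y hxy => hn m (fun i => e ∘ x i) (fun j => e ∘ y j) fun i j =>
    (sat_equiv e φ (x i) (y j)).trans (hxy i j)⟩

lemma countable_of {G : Type u} [Group G] (h : IsHyperbolic G) : Countable G := by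
  obtain ⟨S, hS, -⟩ := h
  have h1 : Function.Surjective (FreeGroup.lift (fun g : ↥(S : Set G) => (g : G))) := by
    rw [← MonoidHom.range_eq_top, FreeGroup.range_lift_eq_closure, Subtype.range_coe, hS]
  exact h1.countable

end Univ

theorem univ.{w} (h : S_FIN0) (G : Type w) [Group G] : IsHyperbolic G → IsStable G := by
  intro hG
  have := Univ.countable_of hG
  have : Small.{0} G := inferInstance
  have e : Shrink.{0} G ≃* G := Shrink.mulEquiv
  exact Univ.stab_equiv e.symm (h _ (Univ.hyp_equiv e hG))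

end Pool.Agent.P.MP_dba3d2_lc


end

section

/-! Step SLIM of the stability project. -/

namespace Pool.Agent.P.MP_dba3d2_lc

open Filter FirstOrder

namespace SlimA

variable {V : Type} {X : SimpleGraph V}

theorem split {x y : V} (p : X.Walk x y) {v : V} (hv : v ∈ p.support) :
    X.dist x v + X.dist v y ≤ p.length := by
  classical
  have h := congrArg SimpleGraph.Walk.length (p.take_spec hv)
  rw [SimpleGraph.Walk.length_append] at h
  have h1 := SimpleGraph.dist_le (p.takeUntil v hv)
  have h2 := SimpleGraph.dist_le (p.dropUntil v hv)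
  omega

theorem exists_at (hX : X.Connected) {x y : V} (p : X.Walk x y) :
    ∀ t ≤ p.length, ∃ v ∈ p.support, X.dist x v ≤ t ∧ X.dist v y + t ≤ p.length := by
  induction p with
  | nil => intro t ht; exact ⟨_, SimpleGraph.Walk.start_mem_support _, by simp, by simpa using ht⟩
  | @cons a b c h p ih =>
    intro t ht
    rcases t with _ | t
    · exact ⟨a, SimpleGraph.Walk.start_mem_support _, by simp,
        SimpleGraph.dist_le (SimpleGraph.Walk.cons h p)⟩
    · rw [SimpleGraph.Walk.length_cons] at ht ⊢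
      obtain ⟨v, hv, h1, h2⟩ := ih t (by omega)
      refine ⟨v, by simp [hv], ?_, by omega⟩
      have h3 := hX.dist_triangle (u := a) (v := b) (w := v)
      have h4 : X.dist a b = 1 := SimpleGraph.dist_eq_one_iff_adj.2 h
      omega

theorem near (hX : X.Connected) {δ : ℝ} (hS : Slim X δ) {x y : V} (p : X.Walk x y)
    (hp : p.length = X.dist x y) {v : V} (hv : v ∈ p.support) (u : V) :
    (X.dist u v : ℝ) + X.dist x v ≤ X.dist x u + 2 * δ ∨
      (X.dist u v : ℝ) + X.dist v y ≤ X.dist y u + 2 * δ := by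
  obtain ⟨q, hq⟩ := hX.exists_walk_length_eq_dist y u
  obtain ⟨r, hr⟩ := hX.exists_walk_length_eq_dist u x
  obtain ⟨a, ha, hd⟩ := hS x y u p q r hp hq hr v hv
  have h1 : X.dist u v ≤ X.dist u a + X.dist a v := hX.dist_triangle
  have e1 : X.dist a v = X.dist v a := SimpleGraph.dist_comm
  rcases ha with ha | ha
  · right
    have h2 := split q ha
    have h3 : X.dist v y ≤ X.dist v a + X.dist a y := hX.dist_triangle
    have e2 : X.dist a y = X.dist y a := SimpleGraph.dist_comm
    have e3 : X.dist u a = X.dist a u := SimpleGraph.dist_comm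
    have h4 : X.dist u v + X.dist v y ≤ X.dist y u + 2 * X.dist v a := by omega
    have h5 : (X.dist u v : ℝ) + X.dist v y ≤ X.dist y u + 2 * X.dist v a := by exact_mod_cast h4
    linarith
  · left
    have h2 := split r ha
    have h3 : X.dist x v ≤ X.dist x a + X.dist a v := hX.dist_triangle
    have e2 : X.dist x a = X.dist a x := SimpleGraph.dist_comm
    have e3 : X.dist u x = X.dist x u := SimpleGraph.dist_comm
    have h4 : X.dist u v + X.dist x v ≤ X.dist x u + 2 * X.dist v a := by omega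
    have h5 : (X.dist u v : ℝ) + X.dist x v ≤ X.dist x u + 2 * X.dist v a := by exact_mod_cast h4
    linarith

end SlimA

open SlimA in
theorem p_SLIM :
    S_SLIM := by
  intro V X δ hX hδ hS
  refine ⟨2 * δ + 1, by positivity, fun w x y z => ?_⟩
  obtain ⟨p, hp⟩ := hX.exists_walk_length_eq_dist x y
  have t1 : X.dist x w ≤ X.dist x y + X.dist y w := hX.dist_triangle
  have t2 : X.dist y w ≤ X.dist y x + X.dist x w := hX.dist_triangle
  have e1 : X.dist y x = X.dist x y := SimpleGraph.dist_comm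
  obtain ⟨v, hv, h1, h2⟩ := exists_at hX p ((X.dist x y + X.dist x w - X.dist y w) / 2) (by omega)
  have t3 : X.dist x y ≤ X.dist x v + X.dist v y := hX.dist_triangle
  have t4 : X.dist z w ≤ X.dist z v + X.dist v w := hX.dist_triangle
  have e2 : X.dist v w = X.dist w v := SimpleGraph.dist_comm
  have a1 : X.dist x y + X.dist x w ≤ 2 * X.dist x v + X.dist y w + 1 := by omega
  have a2 : X.dist x y + X.dist y w ≤ 2 * X.dist v y + X.dist x w := by omega
  have a3 : X.dist z w ≤ X.dist z v + X.dist w v := by omega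
  have b1 : (X.dist x y : ℝ) + X.dist x w ≤ 2 * X.dist x v + X.dist y w + 1 := by exact_mod_cast a1
  have b2 : (X.dist x y : ℝ) + X.dist y w ≤ 2 * X.dist v y + X.dist x w := by exact_mod_cast a2
  have b3 : (X.dist z w : ℝ) ≤ X.dist z v + X.dist w v := by exact_mod_cast a3
  have c1 := le_max_left ((X.dist x z : ℝ) + X.dist y w) ((X.dist y z : ℝ) + X.dist x w)
  have c2 := le_max_right ((X.dist x z : ℝ) + X.dist y w) ((X.dist y z : ℝ) + X.dist x w)
  rcases near hX hS p hp hv w with k1 | k1 <;> rcases near hX hS p hp hv z with k2 | k2 <;>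
    linarith

end Pool.Agent.P.MP_dba3d2_lc


end

section

/-! Step TR of the stability project. -/

namespace Pool.Agent.P.MP_dba3d2_lc

open Filter FirstOrder

namespace TrA

open Bas2A

variable {Γ : HG}

theorem reix {ι κ : Type} {Q : (κ → Γ.G) → Prop} (h : Tr Q) (f : κ → ι) :
    Tr fun z : ι → Γ.G => Q fun i => z (f i) :=
  fun a b H θ h1 h2 h3 v => h a b H θ h1 h2 h3 fun i => v (f i)

theorem st_false {ι : Type} {a : Amb} (v : ι → MM Γ a) :
    ¬ St (fun _ : ι → Γ.G => False) v := fun h => by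
  obtain ⟨_, h⟩ := Eventually.exists h
  exact h

theorem tr_false {ι : Type} : Tr fun _ : ι → Γ.G => False :=
  fun _ _ _ _ _ _ _ _ => iff_of_false (st_false _) (st_false _)

theorem st_imp {ι : Type} {a : Amb} (Q R : (ι → Γ.G) → Prop) (v : ι → MM Γ a) :
    St (fun z => Q z → R z) v ↔ (St Q v → St R v) := Ultrafilter.eventually_imp

theorem tr_imp {ι : Type} {Q R : (ι → Γ.G) → Prop} (hQ : Tr Q) (hR : Tr R) :
    Tr fun z => Q z → R z := fun a b H θ h1 h2 h3 v => by
  rw [st_imp, st_imp, hQ a b H θ h1 h2 h3 v, hR a b H θ h1 h2 h3 v]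

theorem st_one {ι : Type} [Finite ι] {a : Amb} (w : FreeGroup ι) (v : ι → MM Γ a) :
    St (fun z : ι → Γ.G => FreeGroup.lift z w = 1) v ↔ FreeGroup.lift v w = 1 := by
  obtain ⟨f, rfl⟩ := rep v
  rw [st_coe, lift_coe]
  exact (Germ.coe_eq (g := fun _ => 1)).symm

theorem tr_one {ι : Type} [Finite ι] (w : FreeGroup ι) :
    Tr fun z : ι → Γ.G => FreeGroup.lift z w = 1 := fun a b H θ _ _ h3 v => by
  rw [st_one, st_one, ← map_lift θ v w, map_eq_one_iff θ h3]
  have e := map_lift H.subtype v w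
  exact (iff_of_eq (congrArg (· = 1) e.symm)).trans
    (map_eq_one_iff H.subtype H.subtype_injective)

theorem term_word {α : Type} (G : Type) [Group G] (t : grpLang.Term α) :
    ∃ w : FreeGroup α, ∀ v : α → G,
      @Language.Term.realize grpLang G (grpStructure G) α v t = FreeGroup.lift v w := by
  induction t with
  | var x => exact ⟨FreeGroup.of x, fun v => by simp⟩
  | func f ts ih =>
    choose w hw using ih
    cases f with
    | mul =>
      refine ⟨w 0 * w 1, fun v => ?_⟩
      rw [map_mul, ← hw, ← hw]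
      rfl
    | inv =>
      refine ⟨(w 0)⁻¹, fun v => ?_⟩
      rw [map_inv, ← hw]
      rfl
    | one => exact ⟨1, fun v => by rw [map_one]; rfl⟩

theorem st_ex {m k : ℕ} {a : Amb} (Q : (Fin m ⊕ Fin k → Γ.G) → Prop) (h : Fin m → MM Γ a) :
    St (fun z : Fin m → Γ.G => ∃ x : Fin k → Γ.G, Q (Sum.elim z x)) h ↔
      ∃ x : Fin k → MM Γ a, St Q (Sum.elim h x) := by
  obtain ⟨f, rfl⟩ := rep h
  have e : ∀ g : Fin k → a.I → Γ.G,
      St Q (Sum.elim (fun i => (Germ.ofFun (f i) : MM Γ a)) fun i => Germ.ofFun (g i)) ↔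
        ∀ᶠ j in (a.V : Filter a.I), Q (Sum.elim (fun i => f i j) fun i => g i j) := fun g => by
    have e1 : Sum.elim (fun i => (Germ.ofFun (f i) : MM Γ a)) (fun i => Germ.ofFun (g i)) =
        fun s => Germ.ofFun (Sum.elim f g s) := funext fun s => by cases s <;> rfl
    rw [e1, st_coe]
    exact eventually_congr (Eventually.of_forall fun j =>
      iff_of_eq (congrArg Q (funext fun s => by cases s <;> rfl)))
  rw [st_coe]
  constructor
  · intro hx
    obtain ⟨g, hg⟩ := hx.choice
    exact ⟨fun i => Germ.ofFun fun j => g j i, (e fun i j => g j i).2 hg⟩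
  · rintro ⟨x, hx⟩
    obtain ⟨g, rfl⟩ := rep x
    exact ((e g).1 hx).mono fun j hj => ⟨_, hj⟩

theorem ex_push (hKEY : S_KEY) {m k : ℕ} {Q : (Fin m ⊕ Fin k → Γ.G) → Prop} (hQ : Tr Q)
    {a b : Amb} {H : Subgroup (MM Γ a)} (θ : H →* MM Γ b) (h1 : GC H) (h2 : GC θ.range)
    (h3 : Function.Injective θ) (v : Fin m → H)
    (hx : ∃ x : Fin k → MM Γ a, St Q (Sum.elim (fun i => (v i : MM Γ a)) x)) :
    ∃ x : Fin k → MM Γ b, St Q (Sum.elim (fun i => θ (v i)) x) := by
  obtain ⟨x, hx⟩ := hx
  obtain ⟨y, hy, hs⟩ := (hKEY Γ a H h1).2 m k Q hQ _ (fun i => (v i).2) x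
    (fun _ => Subgroup.mem_top _) hx
  have k1 := hQ a b H θ h1 h2 h3 (Sum.elim v fun i => ⟨y i, hy i⟩)
  refine ⟨fun i => θ ⟨y i, hy i⟩, ?_⟩
  have e1 : (fun s => ((Sum.elim v (fun i => ⟨y i, hy i⟩) s : H) : MM Γ a)) =
      Sum.elim (fun i => (v i : MM Γ a)) y := funext fun s => by cases s <;> rfl
  have e2 : (fun s => θ (Sum.elim v (fun i => ⟨y i, hy i⟩) s)) =
      Sum.elim (fun i => θ (v i)) fun i => θ ⟨y i, hy i⟩ := funext fun s => by cases s <;> rfl
  rw [e1, e2] at k1
  exact k1.1 hs

theorem tr_ex (hKEY : S_KEY) {m k : ℕ} {Q : (Fin m ⊕ Fin k → Γ.G) → Prop} (hQ : Tr Q) :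
    Tr fun z : Fin m → Γ.G => ∃ x : Fin k → Γ.G, Q (Sum.elim z x) := by
  intro a b H θ h1 h2 h3 v
  rw [st_ex, st_ex]
  refine ⟨ex_push hKEY hQ θ h1 h2 h3 v, fun hx => ?_⟩
  let e : H ≃* θ.range := MonoidHom.ofInjective h3
  let θ' : θ.range →* MM Γ a := H.subtype.comp e.symm.toMonoidHom
  have hr : θ'.range = H := by
    ext x
    constructor
    · rintro ⟨y, rfl⟩
      exact (e.symm y).2
    · intro hx
      exact ⟨e ⟨x, hx⟩, congrArg Subtype.val (e.symm_apply_apply ⟨x, hx⟩)⟩
  have hi : Function.Injective θ' := H.subtype_injective.comp e.symm.injective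
  have k1 := ex_push hKEY hQ θ' h2 (hr.symm ▸ h1) hi (fun i => e (v i)) hx
  have e1 : (fun i => θ' (e (v i))) = fun i => (v i : MM Γ a) :=
    funext fun i => congrArg Subtype.val (e.symm_apply_apply (v i))
  rwa [e1] at k1

theorem tr_bd (hKEY : S_KEY) {α : Type} [Finite α] {n : ℕ} (φ : grpLang.BoundedFormula α n) :
    Tr fun z : α ⊕ Fin n → Γ.G =>
      @Language.BoundedFormula.Realize grpLang Γ.G (grpStructure Γ.G) α n φ
        (fun i => z (.inl i)) fun i => z (.inr i) := by
  let _ := grpStructure Γ.G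
  induction φ with
  | falsum => exact tr_false
  | equal t1 t2 =>
    obtain ⟨w1, h1⟩ := term_word Γ.G t1
    obtain ⟨w2, h2⟩ := term_word Γ.G t2
    convert tr_one (Γ := Γ) (w1 * w2⁻¹) using 2 with z
    have e : Sum.elim (fun i => z (.inl i)) (fun i => z (.inr i)) = z :=
      funext fun s => by cases s <;> rfl
    rw [map_mul, map_inv, mul_inv_eq_one, ← h1, ← h2]
    simp only [Language.BoundedFormula.Realize, e]
  | rel R _ => exact R.elim
  | imp f1 f2 ih1 ih2 => exact tr_imp ih1 ih2
  | @all n f ih =>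
    obtain ⟨m, ⟨e⟩⟩ := Finite.exists_equiv_fin (α ⊕ Fin n)
    let g : α ⊕ Fin (n + 1) → Fin m ⊕ Fin 1 :=
      Sum.elim (fun i => .inl (e (.inl i)))
        (Fin.snoc (α := fun _ => Fin m ⊕ Fin 1) (fun j => .inl (e (.inr j))) (.inr 0))
    have k1 := tr_imp (reix (tr_ex hKEY (tr_imp (reix ih g) tr_false)) e.symm) tr_false
    have e2 : ∀ (z : α ⊕ Fin n → Γ.G) (x : Fin 1 → Γ.G),
        (fun i => Sum.elim (fun i => z (e.symm i)) x (g (.inr i))) =
          Fin.snoc (α := fun _ => Γ.G) (fun i => z (.inr i)) (x 0) := fun z x => by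
      funext i
      refine Fin.lastCases ?_ (fun j => ?_) i <;> simp [g]
    have e3 : ∀ (z : α ⊕ Fin n → Γ.G) (x : Fin 1 → Γ.G),
        (fun i => Sum.elim (fun i => z (e.symm i)) x (g (.inl i))) = fun i => z (.inl i) :=
      fun z x => by
      funext i
      simp [g]
    simp only [e2, e3] at k1
    convert k1 using 2 with z
    simp only [Language.BoundedFormula.Realize]
    constructor
    · rintro h ⟨x, hx⟩
      exact hx (h _)
    · intro h x
      by_contra hx
      exact h ⟨fun _ => x, hx⟩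

end TrA

theorem p_TR (hKEY : S_KEY) :
    S_TR := by
  intro Γ k l φ
  have h := TrA.reix (TrA.tr_bd (Γ := Γ) hKEY φ)
    (Sum.elim id Fin.elim0 : (Fin k ⊕ Fin l) ⊕ Fin 0 → Fin k ⊕ Fin l)
  convert h using 2 with z
  have e : Sum.elim (fun i => z (.inl i)) (fun i => z (.inr i)) = z :=
    funext fun s => by cases s <;> rfl
  simp only [Sat, Language.Formula.Realize, e]
  exact iff_of_eq (congrArg₂ _ rfl (Subsingleton.elim _ _))

end Pool.Agent.P.MP_dba3d2_lc


end

section

/-! Step STAB0 of the stability project. -/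

namespace Pool.Agent.P.MP_dba3d2_lc

open Filter FirstOrder

namespace Stab0

variable {Γ : HG} (a : Amb)

theorem cp_false (f : ℕ → MM Γ a) : (cp a false).hom Γ (a.mk' U0 f) =
    (a.pow U0).mk' U0 fun _ : ℕ => a.mk' U0 fun i => f i := (mk'_hom U0 _).symm

theorem cp_true (f : ℕ → MM Γ a) : (cp a true).hom Γ (a.mk' U0 f) =
    (a.pow U0).mk' U0 fun j : ℕ => a.mk' U0 fun _ : ℕ => f j := by
  refine (Ext.pow_mk' U0 (a.dg U0) f).trans ?_
  congr 1
  funext j
  exact (mk'_const U0 _).symm

theorem dbl {ι : Type} [Finite ι] (Q : (ι → Γ.G) → Prop) (F : ℕ → ℕ → ι → MM Γ a) :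
    St (a := (a.pow U0).pow U0) Q
      (fun s => (a.pow U0).mk' U0 fun j => a.mk' U0 fun i => F j i s) ↔
      ∀ᶠ j in (U0 : Filter ℕ), ∀ᶠ i in (U0 : Filter ℕ), St Q (F j i) :=
  (st_mk' U0 Q fun j s => a.mk' U0 fun i => F j i s).trans
    (eventually_congr (Eventually.of_forall fun j => st_mk' U0 Q (F j)))

theorem ev_gt (n : ℕ) : ∀ᶠ i in (U0 : Filter ℕ), n < i :=
  Nat.hyperfilter_le_atTop (eventually_gt_atTop n)

/-- the ambient on the natural numbers -/
noncomputable def amb : Amb where
  I := ℕ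
  V := U0
  r := id
  hr := Nat.hyperfilter_le_atTop

end Stab0

open Stab0 in
theorem p_STAB0 (hTR : S_TR) (hPAIR : S_PAIR) :
    S_STAB0 := by
  intro Γ k l φ
  by_contra hn
  push Not at hn
  choose m x y hxy hm using hn
  let Q : (Fin k ⊕ Fin l → Γ.G) → Prop :=
    fun v => Sat Γ.G φ (fun i => v (.inl i)) fun i => v (.inr i)
  let A0 : ℕ → Fin k → ℕ → Γ.G := fun i s n => if h : i < m n then x n ⟨i, h⟩ s else 1
  let B0 : ℕ → Fin l → ℕ → Γ.G := fun j t n => if h : j < m n then y n ⟨j, h⟩ t else 1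
  let A : ℕ → Fin k → MM Γ amb := fun i s => Germ.ofFun (A0 i s)
  let B : ℕ → Fin l → MM Γ amb := fun j t => Germ.ofFun (B0 j t)
  have key : ∀ i j, St Q (Sum.elim (A i) (B j)) ↔ i < j := by
    intro i j
    have h1 : Sum.elim (A i) (B j) =
        fun s => (Germ.ofFun (Sum.elim (A0 i) (B0 j) s) : MM Γ amb) := by
      funext s
      cases s <;> rfl
    rw [h1]
    refine (st_coe (a := amb) Q (Sum.elim (A0 i) (B0 j))).trans ?_
    have h2 : ∀ᶠ n in (U0 : Filter ℕ), (Q fun s => Sum.elim (A0 i) (B0 j) s n) ↔ i < j := by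
      filter_upwards [ev_gt i, ev_gt j] with n hi hj
      have hi' : i < m n := hi.trans (hm n)
      have hj' : j < m n := hj.trans (hm n)
      have := hxy n ⟨i, hi'⟩ ⟨j, hj'⟩
      simp only [Q, A0, B0, Sum.elim_inl, Sum.elim_inr, dif_pos hi', dif_pos hj']
      exact this
    exact (eventually_congr h2).trans eventually_const
  have h := hPAIR Γ amb (Fin k) (Fin l) Q (hTR Γ k l φ) (fun s => amb.mk' U0 fun i => A i s)
    fun t => amb.mk' U0 fun j => B j t
  have e1 : (Sum.elim (fun s => (cp amb false).hom Γ (amb.mk' U0 fun i => A i s))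
      fun t => (cp amb true).hom Γ (amb.mk' U0 fun j => B j t)) =
      fun s => (amb.pow U0).mk' U0 fun j => amb.mk' U0 fun i => Sum.elim (A i) (B j) s := by
    funext s
    cases s with
    | inl s => exact cp_false amb _
    | inr s => exact cp_true amb _
  have e2 : (Sum.elim (fun s => (cp amb true).hom Γ (amb.mk' U0 fun i => A i s))
      fun t => (cp amb false).hom Γ (amb.mk' U0 fun j => B j t)) =
      fun s => (amb.pow U0).mk' U0 fun j => amb.mk' U0 fun i => Sum.elim (A j) (B i) s := by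
    funext s
    cases s with
    | inl s => exact cp_true amb _
    | inr s => exact cp_false amb _
  rw [e1, e2, dbl amb Q fun j i => Sum.elim (A i) (B j),
    dbl amb Q fun j i => Sum.elim (A j) (B i)] at h
  simp only [key] at h
  obtain ⟨j, hj⟩ := (h.2 (Eventually.of_forall ev_gt)).exists
  obtain ⟨i, h1, h2⟩ := (hj.and (ev_gt j)).exists
  omega

end Pool.Agent.P.MP_dba3d2_lc


end

section

/-! Step FIN0 of the stability project. -/

namespace Pool.Agent.P.MP_dba3d2_lc

open Filter FirstOrder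

namespace Fin0

open SimpleGraph

variable {G : Type} [Group G] {S : Set G}

/-- left multiplication as a map of graphs -/
def lm (S : Set G) (d : G) : mulCayley S →g mulCayley S :=
  ⟨fun x => d * x, fun h => mulCayley_adj_mul_iff_right.2 h⟩

theorem conn (h : Subgroup.closure S = ⊤) : (mulCayley S).Connected := by
  have k : ∀ g : G, (mulCayley S).Reachable 1 g := fun g => by
    refine Subgroup.closure_induction (p := fun g _ => (mulCayley S).Reachable 1 g)
      (fun x hx => ?_) .rfl (fun x y _ _ a b => ?_) (fun x _ a => ?_) (h.ge (Subgroup.mem_top g))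
    · by_cases e : 1 = x
      · exact e ▸ .rfl
      · exact Adj.reachable ((mulCayley_adj S 1 x).2 ⟨e, .inl (by simpa using hx)⟩)
    · exact a.trans (by simpa [lm] using b.map (lm S x))
    · simpa [lm] using (a.map (lm S x⁻¹)).symm
  exact ⟨fun x y => (k x).symm.trans (k y)⟩

theorem dist_mul (h : (mulCayley S).Connected) (d x y : G) :
    (mulCayley S).dist (d * x) (d * y) = (mulCayley S).dist x y := by
  have k : ∀ d x y : G, (mulCayley S).dist (d * x) (d * y) ≤ (mulCayley S).dist x y :=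
    fun d x y => by
      obtain ⟨p, hp⟩ := h.exists_walk_length_eq_dist x y
      exact (dist_le (p.map (lm S d))).trans_eq ((p.length_map _).trans hp)
  exact (k d x y).antisymm (by simpa using k d⁻¹ (d * x) (d * y))

theorem dist_eq (h : (mulCayley S).Connected) (x y : G) :
    (mulCayley S).dist 1 (x⁻¹ * y) = (mulCayley S).dist x y := by
  rw [← dist_mul h x, mul_one, mul_inv_cancel_left]

theorem geo (h : (mulCayley S).Connected) (g : G) (n : ℕ) (hg : (mulCayley S).dist 1 g = n + 1) :
    ∃ s, (mulCayley S).dist 1 s = 1 ∧ (mulCayley S).dist 1 (s⁻¹ * g) = n := by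
  obtain ⟨p, hp⟩ := h.exists_walk_length_eq_dist 1 g
  rw [hg] at hp
  cases p with
  | nil => simp at hp
  | @cons _ s _ a q =>
    have e := dist_eq_one_iff_adj.2 a
    have b := dist_le q
    have c := h.dist_triangle (u := 1) (v := s) (w := g)
    rw [Walk.length_cons] at hp
    exact ⟨s, e, by rw [dist_eq h]; omega⟩

theorem fin (h : (mulCayley S).Connected) (hS : S.Finite) (n : ℕ) :
    {g | (mulCayley S).dist 1 g ≤ n}.Finite := by
  induction n with
  | zero => exact (Set.finite_singleton 1).subset fun g hg =>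
      (h.dist_eq_zero_iff.1 (Nat.le_zero.1 hg)).symm
  | succ n ih =>
    refine (ih.union ((hS.union hS.inv).image2 (· * ·) ih)).subset fun g hg => ?_
    rcases Nat.of_le_succ hg with a | a
    · exact .inl a
    obtain ⟨s, h1, h2⟩ := geo h g n a
    refine .inr ⟨s, ?_, s⁻¹ * g, h2.le, mul_inv_cancel_left _ _⟩
    simpa using ((mulCayley_adj S 1 s).1 (dist_eq_one_iff_adj.1 h1)).2

end Fin0

open Fin0 in
theorem p_FIN0 (hHG : S_HG) (hSLIM : S_SLIM) (hSTAB0 : S_STAB0) :
    S_FIN0 := by
  rintro G _ ⟨S, hS, δ, h0, h⟩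
  have c := conn hS
  obtain ⟨δ, h⟩ : ∃ δ : ℝ, FourPoint (SimpleGraph.mulCayley (S : Set G)) δ :=
    h.elim (fun a => ⟨δ, a⟩) fun a => (hSLIM _ _ δ c h0 a).imp fun _ b => b.2
  let R : HG0 :=
    { G := G
      len := fun g => (SimpleGraph.mulCayley (S : Set G)).dist 1 g
      len_eq_zero := fun g => c.dist_eq_zero_iff.trans eq_comm
      len_inv := fun g => by rw [← mul_one g⁻¹, dist_eq c, SimpleGraph.dist_comm]
      len_mul := fun g k => (c.dist_triangle (v := g)).trans_eq (by
        rw [← dist_eq c g, inv_mul_cancel_left])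
      geo := geo c
      fin := fin c S.finite_toSet
      δ := ⌈δ⌉₊
      hyp := fun x y z => by
        have a := (h 1 x y z).trans (add_le_add_right
          (mul_le_mul_of_nonneg_left (Nat.le_ceil δ) zero_le_two) _)
        rw [dist_eq c, dist_eq c, dist_eq c, SimpleGraph.dist_comm (u := 1),
          SimpleGraph.dist_comm (u := 1), SimpleGraph.dist_comm (u := 1)]
        exact_mod_cast a }
  obtain ⟨e, he⟩ := hHG R
  exact hSTAB0 ⟨R, e, he⟩

end Pool.Agent.P.MP_dba3d2_lc


end
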